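import Pool.Agent.Helper75.FIB.TopStubs

/-!
# FIB module D : the density of states (definitions and interface)

The owner of module D may improve the definitions (they go to the hand-in file), but should keep their meaning.
-/

namespace FIB

open MeasureTheory Set Filter Topology Real

noncomputable section

/-- the Hilbert space `ℓ²(ℤ²)` -/
abbrev L2Z2 : Type := lp (fun _ : ℤ × ℤ => ℂ) 2

/-- `T` is the square Fibonacci Hamiltonian `H^{(2)}_{l₁,l₂,ω₁,ω₂}` -/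
def IsSq (l₁ l₂ ω₁ ω₂ : ℝ) (T : L2Z2 →L[ℂ] L2Z2) : Prop :=
  ∀ (ψ : L2Z2) (m n : ℤ), (T ψ : ℤ × ℤ → ℂ) (m, n) =
    ψ (m + 1, n) + ψ (m - 1, n) + ψ (m, n + 1) + ψ (m, n - 1)
      + ((pot l₁ ω₁ m + pot l₂ ω₂ n : ℝ) : ℂ) * ψ (m, n)

/-- `δ_{(0,0)}` -/
def delta0 : L2Z2 := lp.single 2 ((0 : ℤ), (0 : ℤ)) (1 : ℂ)

/-- `g(T)` for a continuous function `g : ℝ → ℝ` and a self-adjoint operator `T`, by the continuous
functional calculus of the C*-algebra of bounded operators (normal elements) -/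
def gOf (g : ℝ → ℝ) (T : L2Z2 →L[ℂ] L2Z2) : L2Z2 →L[ℂ] L2Z2 :=
  cfc (fun z : ℂ => ((g z.re : ℝ) : ℂ)) T

/-- `ν` is the density of states measure `ν_{l₁,l₂}` : a Borel probability measure with
`∫ g dν = ∫_{𝕋²} ⟨δ₀, g(H) δ₀⟩ dω₁ dω₂` for all continuous `g`. -/
def IsDOS (l₁ l₂ : ℝ) (ν : Measure ℝ) : Prop :=
  IsProbabilityMeasure ν ∧
  ∃ T : ℝ → ℝ → (L2Z2 →L[ℂ] L2Z2), (∀ ω₁ ω₂, IsSelfAdjoint (T ω₁ ω₂) ∧ IsSq l₁ l₂ ω₁ ω₂ (T ω₁ ω₂)) ∧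
    ∀ g : ℝ → ℝ, Continuous g → Integrable g ν ∧
      IntegrableOn (fun ω : ℝ × ℝ => (inner ℂ delta0 (gOf g (T ω.1 ω.2) delta0)).re)
        (Ioc 0 1 ×ˢ Ioc 0 1) ∧
      ∫ x, g x ∂ν = ∫ ω in (Ioc (0 : ℝ) 1 ×ˢ Ioc (0 : ℝ) 1),
        (inner ℂ delta0 (gOf g (T ω.1 ω.2) delta0)).re

/-- for all couplings: the density of states measure exists and is unique -/
def DosExists : Prop := ∀ l₁ l₂ : ℝ, ∃! ν : Measure ℝ, IsDOS l₁ l₂ ν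

/-- one dimensional density of states: existence, in terms of moments -/
def Dos1 : Prop := ∀ l : ℝ, 0 < l → l ≤ 1 / 8 → ∃ μ : Measure ℝ, IsProbabilityMeasure μ ∧
  μ (Icc (-3) 3)ᶜ = 0 ∧ ∀ k : ℕ, ∫ x, x ^ k ∂μ = mom l k

/-- the two dimensional density of states is the convolution square -/
def DosConv : Prop := ∀ l : ℝ, 0 < l → l ≤ 1 / 8 → ∀ μ : Measure ℝ, IsProbabilityMeasure μ →
  μ (Icc (-3) 3)ᶜ = 0 → (∀ k : ℕ, ∫ x, x ^ k ∂μ = mom l k) → IsDOS l l (μ.conv μ)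

/-- FINAL STATEMENT -/
def Final : Prop := ∃ l0 : ℝ, 0 < l0 ∧ ∀ᵐ l ∂(volume.restrict (Ioo 0 l0)),
  ∃ ν : Measure ℝ, IsDOS l l ν ∧ (∀ ν' : Measure ℝ, IsDOS l l ν' → ν' = ν) ∧ ν ≪ volume

end

end FIB
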