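import Pool.Agent.Helper75.FIB.Iface

/-!
# FIB block B2 : monotonicity in the bands and 0 <= V <= 1

By `trE_eq`, `trL_eq` (Basic2): `trE n = tr(S Ω M)/2`, `trL n = - tr(S^b Ω M)/2`. Since `S`, `S^b` are symmetric, `tr(S Ω M) = tr(S F)` with
`F` = symmetric part of `Ω M`. For `M = [[a,b],[c,d]]`, `ad - bc = 1`: `F = [[c,(d-a)/2],[(d-a)/2,-b]]`, `det F = 1 - ((a+d)/2)^2 = 1 - x_n^2 > 0`
(`MM_det`, `MM_trace`). So `F` is definite, with the sign of `c`. If `T` is PSD and `F` is positive definite then `tr(T F) >= 0`, and `> 0` if `T ≠ 0`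
(2x2: `T = [[p,q],[q,r]]`, `F = [[u,v],[v,w]]`, `tr(TF) = pu + 2qv + rw >= 2 sqrt(pr uw) - 2 |q v| >= 0`, or explicit squares).
Apply this to `T = S`, `T = S^b`, `T = S - S^b` (n >= 1, PosProps). So `Vx = tr(S^b F)/tr(S F) ∈ [0,1]`.
-/

namespace FIB

open Real MeasureTheory Set Filter Topology

/-- the quadratic form of a positive semidefinite `2 x 2` matrix -/
theorem psd_facts {T : Matrix (Fin 2) (Fin 2) ℝ} (hT : T.PosSemidef) :
    T 1 0 = T 0 1 ∧ 0 ≤ T 0 0 ∧ 0 ≤ T 1 1 ∧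
      ∀ u v : ℝ, 0 ≤ T 0 0 * u ^ 2 + 2 * T 0 1 * u * v + T 1 1 * v ^ 2 := by
  have hs : T 1 0 = T 0 1 := by
    have := hT.isHermitian.apply 0 1
    simpa using this
  have hq : ∀ u v : ℝ, 0 ≤ T 0 0 * u ^ 2 + 2 * T 0 1 * u * v + T 1 1 * v ^ 2 := by
    intro u v
    have h := (Matrix.posSemidef_iff_dotProduct_mulVec.mp hT).2 ![u, v]
    simp only [Matrix.mulVec, dotProduct, Fin.sum_univ_two, star_trivial, Matrix.cons_val_zero,
      Matrix.cons_val_one, Pi.star_apply, Matrix.cons_val_fin_one] at h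
    rw [hs] at h
    nlinarith [h]
  refine ⟨hs, ?_, ?_, hq⟩
  · have := hq 1 0; nlinarith [this]
  · have := hq 0 1; nlinarith [this]

/-- the sign of `tr(T Ω M)` for elliptic `M` -/
theorem psd_sign {T M : Matrix (Fin 2) (Fin 2) ℝ} (hT : T.PosSemidef) (hM : M.det = 1)
    (ht : M.trace ^ 2 < 4) :
    M 1 0 ≠ 0 ∧ 0 ≤ M 1 0 * (T * Om * M).trace ∧ ((T * Om * M).trace = 0 → T = 0) := by
  obtain ⟨hs, h0, h1, hq⟩ := psd_facts hT
  have htr : (T * Om * M).trace = T 0 0 * M 1 0 + T 0 1 * (M 1 1 - M 0 0) - T 1 1 * M 0 1 := by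
    simp only [Om, Matrix.trace_fin_two, Matrix.mul_apply, Fin.sum_univ_two, Matrix.of_apply,
      Matrix.cons_val', Matrix.cons_val_zero, Matrix.cons_val_one, Matrix.cons_val_fin_one]
    rw [hs]; ring
  rw [Matrix.det_fin_two] at hM
  rw [Matrix.trace_fin_two] at ht
  have hd : 0 < -(M 1 0 * M 0 1) - ((M 1 1 - M 0 0) / 2) ^ 2 := by nlinarith
  have hc : M 1 0 ≠ 0 := by
    intro h
    rw [h] at hd
    nlinarith [sq_nonneg ((M 1 1 - M 0 0) / 2)]
  have hb : M 0 1 ≠ 0 := by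
    intro h
    rw [h] at hd
    nlinarith [sq_nonneg ((M 1 1 - M 0 0) / 2)]
  have e1 : M 1 0 * (T * Om * M).trace =
      (T 0 0 * (M 1 0) ^ 2 + 2 * T 0 1 * (M 1 0) * ((M 1 1 - M 0 0) / 2)
        + T 1 1 * ((M 1 1 - M 0 0) / 2) ^ 2)
      + T 1 1 * (-(M 1 0 * M 0 1) - ((M 1 1 - M 0 0) / 2) ^ 2) := by
    rw [htr]; ring
  have e2 : -(M 0 1) * (T * Om * M).trace =
      (T 0 0 * ((M 1 1 - M 0 0) / 2) ^ 2 + 2 * T 0 1 * ((M 1 1 - M 0 0) / 2) * (-(M 0 1))
        + T 1 1 * (-(M 0 1)) ^ 2)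
      + T 0 0 * (-(M 1 0 * M 0 1) - ((M 1 1 - M 0 0) / 2) ^ 2) := by
    rw [htr]; ring
  refine ⟨hc, ?_, ?_⟩
  · rw [e1]
    have := hq (M 1 0) ((M 1 1 - M 0 0) / 2)
    have := mul_nonneg h1 hd.le
    linarith
  · intro hz
    rw [hz, mul_zero] at e1 e2
    have a1 := hq (M 1 0) ((M 1 1 - M 0 0) / 2)
    have a2 := hq ((M 1 1 - M 0 0) / 2) (-(M 0 1))
    have b1 := mul_nonneg h1 hd.le
    have b2 := mul_nonneg h0 hd.le
    have c1 : T 1 1 = 0 := by
      have : T 1 1 * (-(M 1 0 * M 0 1) - ((M 1 1 - M 0 0) / 2) ^ 2) = 0 := by linarith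
      rcases mul_eq_zero.mp this with h | h
      · exact h
      · exact absurd h hd.ne'
    have c0 : T 0 0 = 0 := by
      have : T 0 0 * (-(M 1 0 * M 0 1) - ((M 1 1 - M 0 0) / 2) ^ 2) = 0 := by linarith
      rcases mul_eq_zero.mp this with h | h
      · exact h
      · exact absurd h hd.ne'
    have c2 : T 0 1 = 0 := by
      have p := hq 1 1
      have m := hq 1 (-1)
      rw [c0, c1] at p m
      nlinarith
    ext i j
    fin_cases i <;> fin_cases j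
    · exact c0
    · exact c2
    · exact hs.trans c2
    · exact c1

theorem posV (h : PosProps) : PosV := by
  intro n E l hn hx
  obtain ⟨hS, hB, hSB, hne⟩ := h n E l
  have hM := MM_det n E l
  have ht : (MM n E l).trace ^ 2 < 4 := by
    rw [MM_trace]
    have := (abs_lt.mp hx)
    nlinarith [this.1, this.2]
  obtain ⟨hc, s1, z1⟩ := psd_sign hS hM ht
  obtain ⟨-, s2, -⟩ := psd_sign hB hM ht
  obtain ⟨-, s3, -⟩ := psd_sign (hSB hn) hM ht
  have hE := trE_eq n E l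
  have hL := trL_eq n E l
  have hE0 : trE n E l ≠ 0 := by
    intro h0
    rw [h0] at hE
    exact hne hn (z1 (by linarith))
  have sub : ((SS n E l - SB n E l) * Om * MM n E l).trace =
      (SS n E l * Om * MM n E l).trace - (SB n E l * Om * MM n E l).trace := by
    rw [Matrix.sub_mul, Matrix.sub_mul, Matrix.trace_sub]
  have a1 : 0 < MM n E l 1 0 * trE n E l := by
    refine lt_of_le_of_ne ?_ (Ne.symm (mul_ne_zero hc hE0))
    rw [hE]; linarith
  have a2 : 0 ≤ MM n E l 1 0 * (-trL n E l) := by rw [hL]; linarith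
  have a3 : 0 ≤ MM n E l 1 0 * (trE n E l + trL n E l) := by
    rw [sub] at s3
    rw [hE, hL]; linarith
  refine ⟨hE0, ?_, ?_⟩
  · rw [Vx, ← mul_div_mul_left _ _ hc]
    exact div_nonneg a2 a1.le
  · rw [Vx, ← mul_div_mul_left _ _ hc, div_le_one a1]
    linarith

end FIB
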