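import Pool.Agent.Helper75.FIB.Iface

/-!
# FIB block B3 : orientation signs at elliptic pairs

Notation of B2: `F_n = [[c,(d-a)/2],[(d-a)/2,-b]]` is definite when `|x_n| < 1` and `trE n` has the sign of `F_n` (of its entry `c`): this is
shown as in B2 (you may restate it here from PosProps: `trE n = tr(S F)/2`, `S` PSD and nonzero).
For two matrices `M, M'` in SL2 with forms `F = [[p,q],[q,r]]`, `F' = [[p',q'],[q',r']]`: `tr(M M')/2 - x x' = q q' - (r p' + p r')/2` (trace-free parts are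
`Ω^{-1} F`). If `F, F'` are both definite with the same sign then `(r p' + p r')/2 >= sqrt(p r p' r') > |q q'|`, so this number is `< 0`; if the signs are opposite it
is `> 0`. First claim: `M = M_n`, `M' = M_{n+1}`, `M M' = M_{n+2}`. Second: `M_n = M_{n+2} M_{n+1}^{-1}`, and the form of `M^{-1}` is `- F`. Third:
`M_{n+1} = M_n^{-1} M_{n+2}`.
-/

namespace FIB

open Real MeasureTheory Set Filter Topology

/-- the sign of `tr(S Ω M)` at an elliptic matrix -/
theorem sgn97 (M S : Matrix (Fin 2) (Fin 2) ℝ) (hdet : M.det = 1) (hS : S.PosSemidef) (hne : S ≠ 0)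
    {x : ℝ} (htr : M.trace = 2 * x) (hx : |x| < 1) :
    0 < (S * Om * M).trace / 2 * M 1 0 := by
  have hsym : S 1 0 = S 0 1 := by
    have := hS.isHermitian.apply 0 1
    simpa using this
  have h0 : 0 ≤ S 0 0 := hS.diag_nonneg
  have h1 : 0 ≤ S 1 1 := hS.diag_nonneg
  have h2 : 0 ≤ S.det := hS.det_nonneg
  rw [Matrix.det_fin_two, hsym] at h2
  rw [Matrix.det_fin_two] at hdet
  rw [Matrix.trace_fin_two] at htr
  have hD : 0 < 1 - x ^ 2 := by
    have := (sq_lt_one_iff_abs_lt_one x).2 hx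
    linarith
  have hpr : -(M 1 0 * M 0 1) = ((M 1 1 - M 0 0) / 2) ^ 2 + (1 - x ^ 2) := by
    have : x = (M 0 0 + M 1 1) / 2 := by linarith
    rw [this]
    linarith
  have hE : (S * Om * M).trace / 2 * M 1 0 =
      (S 0 0 * M 1 0 ^ 2 + 2 * S 0 1 * (M 1 0 * ((M 1 1 - M 0 0) / 2)) +
        S 1 1 * (((M 1 1 - M 0 0) / 2) ^ 2 + (1 - x ^ 2))) / 2 := by
    rw [← hpr]
    simp only [Matrix.trace_fin_two, Matrix.mul_apply, Fin.sum_univ_two, Om, Matrix.of_apply,
      Matrix.cons_val', Matrix.cons_val_zero, Matrix.cons_val_one, Matrix.cons_val_fin_one, hsym]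
    ring
  rw [hE]
  have hp : M 1 0 ≠ 0 := by
    intro h
    rw [h] at hpr
    nlinarith [sq_nonneg ((M 1 1 - M 0 0) / 2)]
  have hp2 : 0 < M 1 0 ^ 2 := by positivity
  rcases h1.lt_or_eq with h3 | h3
  · have h4 : 0 < S 1 1 * (1 - x ^ 2) := mul_pos h3 hD
    have h5 : 0 ≤ S 1 1 * (S 0 0 * M 1 0 ^ 2 + 2 * S 0 1 * (M 1 0 * ((M 1 1 - M 0 0) / 2)) +
        S 1 1 * ((M 1 1 - M 0 0) / 2) ^ 2) := by
      have : S 1 1 * (S 0 0 * M 1 0 ^ 2 + 2 * S 0 1 * (M 1 0 * ((M 1 1 - M 0 0) / 2)) +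
          S 1 1 * ((M 1 1 - M 0 0) / 2) ^ 2) =
          (S 0 0 * S 1 1 - S 0 1 * S 0 1) * M 1 0 ^ 2 +
            (S 1 1 * ((M 1 1 - M 0 0) / 2) + S 0 1 * M 1 0) ^ 2 := by ring
      rw [this]
      positivity
    have h6 := nonneg_of_mul_nonneg_right h5 h3
    have h7 : S 0 0 * M 1 0 ^ 2 + 2 * S 0 1 * (M 1 0 * ((M 1 1 - M 0 0) / 2)) +
        S 1 1 * (((M 1 1 - M 0 0) / 2) ^ 2 + (1 - x ^ 2)) =
        (S 0 0 * M 1 0 ^ 2 + 2 * S 0 1 * (M 1 0 * ((M 1 1 - M 0 0) / 2)) +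
        S 1 1 * ((M 1 1 - M 0 0) / 2) ^ 2) + S 1 1 * (1 - x ^ 2) := by ring
    rw [h7]
    linarith
  · have h4 : S 0 1 = 0 := by
      rw [← h3] at h2
      nlinarith [sq_nonneg (S 0 1)]
    have h5 : S 0 0 ≠ 0 := by
      intro h5
      apply hne
      ext i j
      fin_cases i <;> fin_cases j
      · exact h5
      · exact h4
      · exact hsym.trans h4
      · exact h3.symm
    have h6 : 0 < S 0 0 := lt_of_le_of_ne h0 (Ne.symm h5)
    rw [h4, ← h3]
    have := mul_pos h6 hp2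
    linarith

theorem form_det97 (M : Matrix (Fin 2) (Fin 2) ℝ) (hdet : M.det = 1) {x : ℝ}
    (htr : M.trace = 2 * x) :
    -(M 1 0 * M 0 1) = ((M 1 1 - M 0 0) / 2) ^ 2 + (1 - x ^ 2) := by
  rw [Matrix.det_fin_two] at hdet
  rw [Matrix.trace_fin_two] at htr
  have : x = (M 0 0 + M 1 1) / 2 := by linarith
  rw [this]
  linarith

/-- two elliptic matrices -/
theorem pair97 (M N : Matrix (Fin 2) (Fin 2) ℝ) (hM : M.det = 1) (hN : N.det = 1) {x y : ℝ}
    (hx : M.trace = 2 * x) (hy : N.trace = 2 * y) (hx1 : |x| < 1) (hy1 : |y| < 1) :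
    ((M * N).trace / 2 - x * y) * (M 1 0 * N 1 0) < 0 := by
  have f1 := form_det97 M hM hx
  have f2 := form_det97 N hN hy
  have hD : 0 < 1 - x ^ 2 := by
    have := (sq_lt_one_iff_abs_lt_one x).2 hx1
    linarith
  have hD' : 0 < 1 - y ^ 2 := by
    have := (sq_lt_one_iff_abs_lt_one y).2 hy1
    linarith
  have hp : M 1 0 ≠ 0 := by
    intro h
    rw [h] at f1
    nlinarith [sq_nonneg ((M 1 1 - M 0 0) / 2)]
  have hq : N 1 0 ≠ 0 := by
    intro h
    rw [h] at f2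
    nlinarith [sq_nonneg ((N 1 1 - N 0 0) / 2)]
  rw [Matrix.trace_fin_two] at hx hy
  have ex : x = (M 0 0 + M 1 1) / 2 := by linarith
  have ey : y = (N 0 0 + N 1 1) / 2 := by linarith
  have key : ((M * N).trace / 2 - x * y) * (M 1 0 * N 1 0) =
      -((((M 1 1 - M 0 0) / 2) * N 1 0 - ((N 1 1 - N 0 0) / 2) * M 1 0) ^ 2 / 2) -
        ((1 - x ^ 2) * N 1 0 ^ 2 + (1 - y ^ 2) * M 1 0 ^ 2) / 2 := by
    have e1 : (M * N).trace / 2 - x * y =
        ((M 1 1 - M 0 0) / 2) * ((N 1 1 - N 0 0) / 2) + (M 0 1 * N 1 0 + M 1 0 * N 0 1) / 2 := by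
      rw [ex, ey]
      simp only [Matrix.trace_fin_two, Matrix.mul_apply, Fin.sum_univ_two]
      ring
    rw [e1]
    have e2 : (((M 1 1 - M 0 0) / 2) * ((N 1 1 - N 0 0) / 2) +
        (M 0 1 * N 1 0 + M 1 0 * N 0 1) / 2) * (M 1 0 * N 1 0) =
        ((M 1 1 - M 0 0) / 2) * ((N 1 1 - N 0 0) / 2) * (M 1 0 * N 1 0) -
        (-(M 1 0 * M 0 1) * N 1 0 ^ 2 + -(N 1 0 * N 0 1) * M 1 0 ^ 2) / 2 := by ring
    rw [e2, f1, f2]
    ring
  rw [key]
  have h1 : 0 < (1 - x ^ 2) * N 1 0 ^ 2 := by positivity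
  have h2 : 0 < (1 - y ^ 2) * M 1 0 ^ 2 := by positivity
  have h3 := sq_nonneg (((M 1 1 - M 0 0) / 2) * N 1 0 - ((N 1 1 - N 0 0) / 2) * M 1 0)
  linarith

theorem pair_adj97 (M N : Matrix (Fin 2) (Fin 2) ℝ) (hM : M.det = 1) (hN : N.det = 1) {x y : ℝ}
    (hx : M.trace = 2 * x) (hy : N.trace = 2 * y) (hx1 : |x| < 1) (hy1 : |y| < 1) :
    0 < ((M * N.adjugate).trace / 2 - x * y) * (M 1 0 * N 1 0) := by
  have h := pair97 M N.adjugate hM (by
    rw [Matrix.det_adjugate, hN, one_pow]) hx (by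
    rw [Matrix.adjugate_fin_two]
    rw [Matrix.trace_fin_two] at hy ⊢
    simp only [Matrix.of_apply, Matrix.cons_val', Matrix.cons_val_zero, Matrix.cons_val_one,
      Matrix.cons_val_fin_one]
    linarith) hx1 hy1
  have e : N.adjugate 1 0 = -N 1 0 := by
    rw [Matrix.adjugate_fin_two]
    rfl
  rw [e] at h
  nlinarith

/-- transfer of signs -/
theorem sgn_tr97 {y T T' p p' : ℝ} (hT : 0 < T * p) (hT' : 0 < T' * p') (h : 0 < y * (p * p')) :
    0 < y * (T * T') := by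
  have h1 : 0 < (y * (T * T')) * (p * p') ^ 2 := by
    have : (y * (T * T')) * (p * p') ^ 2 = (y * (p * p')) * (T * p) * (T' * p') := by ring
    rw [this]
    positivity
  by_contra hc
  push Not at hc
  exact absurd h1 (not_lt.2 (mul_nonpos_of_nonpos_of_nonneg hc (sq_nonneg _)))

theorem ori (h : PosProps) : Ori := by
  have hs : ∀ (n : ℕ) (E l : ℝ), 1 ≤ n → |tr n E l| < 1 → 0 < trE n E l * MM n E l 1 0 := by
    intro n E l hn hx
    rw [trE_eq]
    exact sgn97 _ _ (MM_det n E l) (h n E l).1 ((h n E l).2.2.2 hn) (MM_trace n E l) hx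
  intro n E l hn
  refine ⟨fun h1 h2 => ?_, fun h1 h2 => ?_, fun h1 h2 => ?_⟩
  · have h3 := pair97 _ _ (MM_det n E l) (MM_det (n + 1) E l) (MM_trace n E l)
      (MM_trace (n + 1) E l) h1 h2
    rw [← MM_add_two, MM_trace] at h3
    have h4 : 0 < (-(tr (n + 2) E l - tr n E l * tr (n + 1) E l)) *
        (MM n E l 1 0 * MM (n + 1) E l 1 0) := by
      have : 2 * tr (n + 2) E l / 2 = tr (n + 2) E l := by ring
      rw [this] at h3
      linarith
    have h5 := sgn_tr97 (hs n E l hn h1) (hs (n + 1) E l (by omega) h2) h4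
    linarith
  · have h3 := pair_adj97 _ _ (MM_det (n + 2) E l) (MM_det (n + 1) E l) (MM_trace (n + 2) E l)
      (MM_trace (n + 1) E l) h2 h1
    rw [MM_add_two n, Matrix.mul_assoc, Matrix.mul_adjugate, MM_det, one_smul, Matrix.mul_one,
      MM_trace, ← MM_add_two] at h3
    have h4 : 0 < (tr n E l - tr (n + 1) E l * tr (n + 2) E l) *
        (MM (n + 1) E l 1 0 * MM (n + 2) E l 1 0) := by
      have : 2 * tr n E l / 2 = tr n E l := by ring
      rw [this] at h3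
      nlinarith
    exact sgn_tr97 (hs (n + 1) E l (by omega) h1) (hs (n + 2) E l (by omega) h2) h4
  · have h3 := pair_adj97 _ _ (MM_det (n + 2) E l) (MM_det n E l) (MM_trace (n + 2) E l)
      (MM_trace n E l) h2 h1
    rw [Matrix.trace_mul_comm, MM_add_two n, ← Matrix.mul_assoc, Matrix.adjugate_mul, MM_det,
      one_smul, Matrix.one_mul, MM_trace, ← MM_add_two] at h3
    have h4 : 0 < (tr (n + 1) E l - tr n E l * tr (n + 2) E l) *
        (MM n E l 1 0 * MM (n + 2) E l 1 0) := by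
      have : 2 * tr (n + 1) E l / 2 = tr (n + 1) E l := by ring
      rw [this] at h3
      nlinarith
    exact sgn_tr97 (hs n E l hn h1) (hs (n + 2) E l (by omega) h2) h4

end FIB
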