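import Pool.Agent.Helper75.FIB.Iface

/-!
# FIB block B4 : determinants of S_n

(1) Minkowski for 2x2 PSD: `sqrt det(A+B) >= sqrt det A + sqrt det B`: `det(A+B) = det A + det B + mixed`, `mixed = a11 b22 + a22 b11 - 2 a12 b12 >=
2 sqrt(det A det B)` (since `(a12 b12)` ... : with `a11 a22 = det A + a12^2` etc. `a11 b22 + a22 b11 >= 2 sqrt(a11 a22 b11 b22) >= 2 (sqrt(det A det B) + |a12 b12|)` by Cauchy-Schwarz).
Use `det(M S M^T) = det S` (`MM_det`).
(2) induction on `j` (two steps): `F_1 = 1`; `j = 1`: `sqrt det S_{n+1} >= sqrt det S_n` from (1) at `n-1` (for `n = 0`, `det S_0 = 0`);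
`F_{j+3} = F_{j+1} + F_{j+2}`.
(3) `trE n = tr(S F)/2` with `F` as in B2, `det F = 1 - x_n^2 >= 0`, `F` semidefinite; for PSD `S, F` : `tr(S F) >= 2 sqrt(det S det F)`.
-/

namespace FIB

open Real MeasureTheory Set Filter Topology

/-- `tr(S F)^2 ≥ 4 det S det F` for `S` positive semidefinite -/
theorem b4_quad (p q r u w z : ℝ) (hp : 0 ≤ p) (hD : 0 ≤ p * r - q ^ 2) :
    4 * ((p * r - q ^ 2) * (u * z - w ^ 2)) ≤ (p * u + 2 * (q * w) + r * z) ^ 2 := by
  rcases hp.eq_or_lt with h0 | h0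
  · have hq : q ^ 2 ≤ 0 := by
      rw [← h0] at hD
      linarith
    have hq0 : q = 0 := by nlinarith
    subst hq0
    rw [← h0]
    have : 4 * ((0 * r - 0 ^ 2) * (u * z - w ^ 2)) = 0 := by ring
    rw [this]
    positivity
  · have key : p ^ 2 * ((p * u + 2 * (q * w) + r * z) ^ 2 -
        4 * ((p * r - q ^ 2) * (u * z - w ^ 2))) =
        ((p ^ 2 * u + 2 * p * q * w + q ^ 2 * z) - (p * r - q ^ 2) * z) ^ 2 +
          4 * (p * r - q ^ 2) * (p * w + q * z) ^ 2 := by ring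
    have h1 : 0 ≤ ((p ^ 2 * u + 2 * p * q * w + q ^ 2 * z) - (p * r - q ^ 2) * z) ^ 2 +
          4 * (p * r - q ^ 2) * (p * w + q * z) ^ 2 := by
      have : 0 ≤ 4 * (p * r - q ^ 2) * (p * w + q * z) ^ 2 := by positivity
      positivity
    rw [← key] at h1
    have h2 : 0 < p ^ 2 := by positivity
    have h3 := nonneg_of_mul_nonneg_right h1 h2
    linarith

/-- the mixed discriminant of positive semidefinite matrices is nonnegative -/
theorem b4_mixed (p q r u w z : ℝ) (hp : 0 ≤ p) (hr : 0 ≤ r) (hu : 0 ≤ u) (hz : 0 ≤ z)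
    (hD : q ^ 2 ≤ p * r) (hF : w ^ 2 ≤ u * z) : 0 ≤ p * u + 2 * (q * w) + r * z := by
  by_contra h
  push Not at h
  have h1 : 0 ≤ p * u + r * z := by positivity
  have h2 : (p * u + r * z) ^ 2 < (2 * (q * w)) ^ 2 := by
    have : p * u + r * z < -(2 * (q * w)) := by linarith
    nlinarith
  have h3 : (q * w) ^ 2 ≤ (p * r) * (u * z) := by
    rw [mul_pow]
    exact mul_le_mul hD hF (sq_nonneg _) (by positivity)
  nlinarith [sq_nonneg (p * u - r * z)]

theorem b4_entries {A : Matrix (Fin 2) (Fin 2) ℝ} (hA : A.PosSemidef) :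
    0 ≤ A 0 0 ∧ 0 ≤ A 1 1 ∧ A 1 0 = A 0 1 ∧ 0 ≤ A 0 0 * A 1 1 - A 0 1 ^ 2 := by
  have h1 : A 1 0 = A 0 1 := by
    have := hA.isHermitian.apply 0 1
    simpa using this
  have h2 := hA.det_nonneg
  rw [Matrix.det_fin_two, h1] at h2
  refine ⟨hA.diag_nonneg, hA.diag_nonneg, h1, ?_⟩
  have : A 0 0 * A 1 1 - A 0 1 ^ 2 = A 0 0 * A 1 1 - A 0 1 * A 0 1 := by ring
  rw [this]
  exact h2

/-- Minkowski's determinant inequality in dimension 2 -/
theorem b4_mink {A B : Matrix (Fin 2) (Fin 2) ℝ} (hA : A.PosSemidef) (hB : B.PosSemidef) :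
    √A.det + √B.det ≤ √(A + B).det := by
  obtain ⟨a0, a1, as, ad⟩ := b4_entries hA
  obtain ⟨b0, b1, bs, bd⟩ := b4_entries hB
  have eA : A.det = A 0 0 * A 1 1 - A 0 1 ^ 2 := by
    rw [Matrix.det_fin_two, as]; ring
  have eB : B.det = B 0 0 * B 1 1 - B 0 1 ^ 2 := by
    rw [Matrix.det_fin_two, bs]; ring
  have eAB : (A + B).det = (A 0 0 + B 0 0) * (A 1 1 + B 1 1) - (A 0 1 + B 0 1) ^ 2 := by
    rw [Matrix.det_fin_two]
    simp only [Matrix.add_apply]
    rw [as, bs]; ring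
  rw [eA, eB, eAB]
  have hm := b4_mixed (A 0 0) (A 0 1) (A 1 1) (B 1 1) (-(B 0 1)) (B 0 0) a0 a1 b1 b0
    (by linarith) (by nlinarith)
  have hq := b4_quad (A 0 0) (A 0 1) (A 1 1) (B 1 1) (-(B 0 1)) (B 0 0) a0 ad
  set a := A 0 0 * A 1 1 - A 0 1 ^ 2 with ha
  set b := B 0 0 * B 1 1 - B 0 1 ^ 2 with hb
  set m := A 0 0 * B 1 1 + 2 * (A 0 1 * -(B 0 1)) + A 1 1 * B 0 0 with hmdef
  have hq' : 4 * (a * b) ≤ m ^ 2 := by
    have : B 1 1 * B 0 0 - (-(B 0 1)) ^ 2 = b := by rw [hb]; ring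
    rw [this] at hq
    exact hq
  have hs : 2 * (√a * √b) ≤ m := by
    apply abs_le_of_sq_le_sq' _ hm |>.2
    have : (2 * (√a * √b)) ^ 2 = 4 * (a * b) := by
      rw [mul_pow, mul_pow, Real.sq_sqrt ad, Real.sq_sqrt bd]
      ring
    rw [this]
    exact hq'
  apply Real.le_sqrt_of_sq_le
  have e1 : (√a + √b) ^ 2 = a + b + 2 * (√a * √b) := by
    rw [add_sq, Real.sq_sqrt ad, Real.sq_sqrt bd]
    ring
  rw [e1]
  have e2 : (A 0 0 + B 0 0) * (A 1 1 + B 1 1) - (A 0 1 + B 0 1) ^ 2 = a + b + m := by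
    rw [ha, hb, hmdef]; ring
  rw [e2]
  linarith

theorem b4_one (h : PosProps) (n : ℕ) (E l : ℝ) :
    √(SS n E l).det + √(SS (n + 1) E l).det ≤ √(SS (n + 2) E l).det := by
  have h1 := (h n E l).1
  have h2 := (h (n + 1) E l).1
  have h3 : (MM n E l * SS (n + 1) E l * (MM n E l).transpose).PosSemidef := by
    have := h2.mul_mul_conjTranspose_same (MM n E l)
    rwa [Matrix.conjTranspose_eq_transpose_of_trivial] at this
  have h4 : (MM n E l * SS (n + 1) E l * (MM n E l).transpose).det = (SS (n + 1) E l).det := by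
    rw [Matrix.det_mul, Matrix.det_mul, Matrix.det_transpose, MM_det, one_mul, mul_one]
  have h5 := b4_mink h1 h3
  rw [h4] at h5
  exact h5

theorem b4_mono (h : PosProps) (n : ℕ) (E l : ℝ) :
    √(SS n E l).det ≤ √(SS (n + 1) E l).det := by
  rcases n with _ | n
  · have : (SS 0 E l).det = 0 := by
      simp [SS]
    rw [this, Real.sqrt_zero]
    exact Real.sqrt_nonneg _
  · have := b4_one h n E l
    have h0 := Real.sqrt_nonneg (SS n E l).det
    linarith

theorem b4_two (h : PosProps) (n : ℕ) (E l : ℝ) (j : ℕ) :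
    (Nat.fib (j + 1) : ℝ) * √(SS n E l).det ≤ √(SS (n + j) E l).det ∧
    (Nat.fib (j + 2) : ℝ) * √(SS n E l).det ≤ √(SS (n + (j + 1)) E l).det := by
  induction j with
  | zero =>
    refine ⟨by simp, ?_⟩
    have := b4_mono h n E l
    simpa using this
  | succ j ih =>
    refine ⟨ih.2, ?_⟩
    have h1 := b4_one h (n + j) E l
    have h2 : Nat.fib (j + 1 + 2) = Nat.fib (j + 1) + Nat.fib (j + 2) := Nat.fib_add_two
    rw [h2, Nat.cast_add, add_mul]
    have h3 : n + (j + 1 + 1) = n + j + 2 := by ring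
    rw [h3]
    have h4 : n + (j + 1) = n + j + 1 := by ring
    have h5 := ih.2
    rw [h4] at h5
    linarith [ih.1]

theorem b4_three (h : PosProps) (n : ℕ) (E l : ℝ) :
    √(SS n E l).det * √(1 - tr n E l ^ 2) ≤ |trE n E l| := by
  obtain ⟨s0, -, ss, sd⟩ := b4_entries (h n E l).1
  have hdet := MM_det n E l
  have htr := MM_trace n E l
  rw [Matrix.det_fin_two] at hdet
  rw [Matrix.trace_fin_two] at htr
  have hE := trE_eq n E l
  set S := SS n E l with hS
  set M := MM n E l with hM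
  have hE' : 2 * trE n E l = S 0 0 * M 1 0 + 2 * (S 0 1 * ((M 1 1 - M 0 0) / 2)) +
      S 1 1 * (-(M 0 1)) := by
    rw [hE]
    simp only [Om, Matrix.trace_fin_two, Matrix.mul_apply, Fin.sum_univ_two, Matrix.of_apply,
      Matrix.cons_val', Matrix.cons_val_zero, Matrix.cons_val_one, Matrix.cons_val_fin_one]
    rw [ss]
    ring_nf
  have hq := b4_quad (S 0 0) (S 0 1) (S 1 1) (M 1 0) ((M 1 1 - M 0 0) / 2) (-(M 0 1)) s0 sd
  rw [← hE'] at hq
  have hF : M 1 0 * (-(M 0 1)) - ((M 1 1 - M 0 0) / 2) ^ 2 = 1 - tr n E l ^ 2 := by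
    have h1 : tr n E l = (M 0 0 + M 1 1) / 2 := by linarith
    rw [h1]
    linear_combination hdet
  rw [hF] at hq
  have eS : S.det = S 0 0 * S 1 1 - S 0 1 ^ 2 := by
    rw [Matrix.det_fin_two, ss]; ring
  rw [eS]
  rcases le_or_gt (1 - tr n E l ^ 2) 0 with hx | hx
  · rw [Real.sqrt_eq_zero_of_nonpos hx, mul_zero]
    exact abs_nonneg _
  · refine (sq_le_sq₀ (by positivity) (abs_nonneg _)).mp ?_
    rw [mul_pow, Real.sq_sqrt sd, Real.sq_sqrt hx.le, sq_abs]
    nlinarith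

theorem detS (h : PosProps) : DetS :=
  ⟨fun n E l => b4_one h n E l, fun n j E l => (b4_two h n E l j).1,
    fun n E l _ => b4_three h n E l⟩

end FIB
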