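import Pool.Agent.Helper75.FIB.Iface

/-!
# FIB block B5 : the balanced antidiagonal frame

Let `A = M_n`, `B = M_{n+1}` (det 1, traces `2x, 2y`, `tr(AB) = 2z`), `J = A B - B A`. `tr J = 0`, `tr(J A) = tr(J B) = 0`, and `det J = - l^2`
(polynomial identity modulo `det A = det B = 1`: `det J = 4 - 4(x^2+y^2+z^2-2xyz) = - 4 I`, and `tr_inv` gives `I = l^2/4`). So `J` is a real
trace-free matrix with eigenvalues `±l`, `l > 0`: there is `g0` with `det g0 = 1` and `g0 J = diag(l,-l) g0` (rows of `g0` = left eigenvectors; the two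
eigenvectors are linearly independent, scale one of them to get determinant 1; or, explicitly, treat the cases `J 1 0 ≠ 0`, `J 0 1 ≠ 0`, `J` diagonal).
`tr(J A) = 0` says that `A' = g0 A g0^{-1}` has equal diagonal entries, equal to `x`; same for `B' ` with `y`. So `A' = [[x,b],[c,x]]`, `B' = [[y,b'],[c',y]]`,
`b c = x^2 - 1`, `b' c' = y^2 - 1`, `b c' + c b' = 2(z - x y)`, `b c' - c b' = ± l` (the commutator is `diag(bc'-cb', cb'-bc')`). All four products `bc, b'c', bc', cb'`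
are bounded by `6.5` (|x|,|y|,|z| <= 2, l <= 1).
Conjugation with `diag(t, 1/t)` multiplies `b, b'` by `t^2` and `c, c'` by `t^{-2}`. Let `P = max(|b|,|b'|)`, `N = max(|c|,|c'|)`; both are `> 0` because
`bc' - cb' ≠ 0`. Choose `t^4 = N/P`; then `P = N` and `P^2 = P N <= 6.5 < 9`.
-/

namespace FIB

open Real MeasureTheory Set Filter Topology

/-- a trace free real matrix with eigenvalues `±l` is diagonalised by a matrix of determinant 1 -/
lemma b5_g0 (J : Matrix (Fin 2) (Fin 2) ℝ) (l : ℝ) (hl : 0 < l) (ht : J 1 1 = -J 0 0)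
    (hd : J 0 0 ^ 2 + J 0 1 * J 1 0 = l ^ 2) :
    ∃ g : Matrix (Fin 2) (Fin 2) ℝ, g.det = 1 ∧ g * J = !![l, 0; 0, -l] * g := by
  have aux : ∀ p q r s : ℝ, p * s - q * r ≠ 0 →
      p * J 0 0 + q * J 1 0 = l * p → p * J 0 1 + q * J 1 1 = l * q →
      r * J 0 0 + s * J 1 0 = -l * r → r * J 0 1 + s * J 1 1 = -l * s →
      ∃ g : Matrix (Fin 2) (Fin 2) ℝ, g.det = 1 ∧ g * J = !![l, 0; 0, -l] * g := by
    intro p q r s hne h1 h2 h3 h4
    refine ⟨!![p / (p * s - q * r), q / (p * s - q * r); r, s], ?_, ?_⟩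
    · rw [Matrix.det_fin_two_of]
      field_simp
    · ext i j
      fin_cases i <;> fin_cases j
      · simp only [Matrix.mul_apply, Fin.sum_univ_two, Matrix.of_apply, Matrix.cons_val', Matrix.cons_val_zero,
          Matrix.cons_val_one, Matrix.cons_val_fin_one, Fin.zero_eta, Fin.mk_one, Fin.isValue]
        field_simp
        linarith
      · simp only [Matrix.mul_apply, Fin.sum_univ_two, Matrix.of_apply, Matrix.cons_val', Matrix.cons_val_zero,
          Matrix.cons_val_one, Matrix.cons_val_fin_one, Fin.zero_eta, Fin.mk_one, Fin.isValue]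
        field_simp
        linarith
      · simp only [Matrix.mul_apply, Fin.sum_univ_two, Matrix.of_apply, Matrix.cons_val', Matrix.cons_val_zero,
          Matrix.cons_val_one, Matrix.cons_val_fin_one, Fin.zero_eta, Fin.mk_one, Fin.isValue]
        linarith
      · simp only [Matrix.mul_apply, Fin.sum_univ_two, Matrix.of_apply, Matrix.cons_val', Matrix.cons_val_zero,
          Matrix.cons_val_one, Matrix.cons_val_fin_one, Fin.zero_eta, Fin.mk_one, Fin.isValue]
        linarith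
  rcases le_or_gt 0 (J 0 0) with h | h
  · refine aux (l + J 0 0) (J 0 1) (J 1 0) (-l - J 0 0) ?_ ?_ ?_ ?_ ?_
    · have : (l + J 0 0) * (-l - J 0 0) - J 0 1 * J 1 0 = -(2 * l * (l + J 0 0)) := by
        linear_combination (-1 : ℝ) * hd
      rw [this]
      have h1 : 0 < 2 * l * (l + J 0 0) := by positivity
      linarith
    · linear_combination hd
    · rw [ht]
      ring
    · ring
    · rw [ht]
      linear_combination hd
  · refine aux (J 1 0) (l - J 0 0) (-l + J 0 0) (J 0 1) ?_ ?_ ?_ ?_ ?_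
    · have : J 1 0 * J 0 1 - (l - J 0 0) * (-l + J 0 0) = 2 * l * (l - J 0 0) := by
        linear_combination hd
      rw [this]
      have h0 : 0 < l - J 0 0 := by linarith
      have h1 : 0 < 2 * l * (l - J 0 0) := by positivity
      exact h1.ne'
    · ring
    · rw [ht]
      linear_combination hd
    · linear_combination hd
    · rw [ht]
      ring

/-- balancing -/
lemma b5_scale (b c b' c' l : ℝ) (hl : 0 < l) (h : b * c' - c * b' = l)
    (h1 : |b * c| ≤ 9) (h2 : |b' * c'| ≤ 9) (h3 : |b * c'| ≤ 9) (h4 : |c * b'| ≤ 9) :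
    ∃ t : ℝ, 0 < t ∧ |t ^ 2 * b| ≤ 3 ∧ |t ^ 2 * b'| ≤ 3 ∧ |c / t ^ 2| ≤ 3 ∧ |c' / t ^ 2| ≤ 3 := by
  set P := max |b| |b'| with hP
  set N := max |c| |c'| with hN
  have hbP : |b| ≤ P := le_max_left _ _
  have hb'P : |b'| ≤ P := le_max_right _ _
  have hcN : |c| ≤ N := le_max_left _ _
  have hc'N : |c'| ≤ N := le_max_right _ _
  have hP0 : 0 < P := by
    rcases lt_or_eq_of_le (le_trans (abs_nonneg b) hbP) with h0 | h0
    · exact h0
    · exfalso
      rw [← h0] at hbP hb'P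
      have e1 : b = 0 := abs_eq_zero.1 (le_antisymm hbP (abs_nonneg _))
      have e2 : b' = 0 := abs_eq_zero.1 (le_antisymm hb'P (abs_nonneg _))
      rw [e1, e2] at h
      linarith
  have hN0 : 0 < N := by
    rcases lt_or_eq_of_le (le_trans (abs_nonneg c) hcN) with h0 | h0
    · exact h0
    · exfalso
      rw [← h0] at hcN hc'N
      have e1 : c = 0 := abs_eq_zero.1 (le_antisymm hcN (abs_nonneg _))
      have e2 : c' = 0 := abs_eq_zero.1 (le_antisymm hc'N (abs_nonneg _))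
      rw [e1, e2] at h
      linarith
  have hPN : P * N ≤ 9 := by
    rw [abs_mul] at h1 h2 h3 h4
    rcases max_choice |b| |b'| with e | e <;> rcases max_choice |c| |c'| with e' | e' <;>
      rw [hP, hN, e, e']
    · exact h1
    · exact h3
    · rw [mul_comm]
      exact h4
    · exact h2
  set s := Real.sqrt (N / P) with hs
  have hs0 : 0 < s := Real.sqrt_pos.2 (by positivity)
  have hs2 : s ^ 2 = N / P := Real.sq_sqrt (by positivity)
  have hsP : s * P ≤ 3 := by
    have : (s * P) ^ 2 ≤ 3 ^ 2 := by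
      rw [mul_pow, hs2]
      have : N / P * P ^ 2 = P * N := by
        field_simp
      rw [this]
      linarith
    exact le_of_sq_le_sq this (by norm_num)
  have hsN : N / s ≤ 3 := by
    have : N / s = s * P := by
      rw [div_eq_iff hs0.ne']
      have : s * P * s = s ^ 2 * P := by ring
      rw [this, hs2]
      field_simp
    rw [this]
    exact hsP
  refine ⟨Real.sqrt s, Real.sqrt_pos.2 hs0, ?_, ?_, ?_, ?_⟩ <;> rw [Real.sq_sqrt hs0.le]
  · rw [abs_mul, abs_of_pos hs0]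
    exact le_trans (mul_le_mul_of_nonneg_left hbP hs0.le) hsP
  · rw [abs_mul, abs_of_pos hs0]
    exact le_trans (mul_le_mul_of_nonneg_left hb'P hs0.le) hsP
  · rw [abs_div, abs_of_pos hs0]
    exact le_trans (div_le_div_of_nonneg_right hcN hs0.le) hsN
  · rw [abs_div, abs_of_pos hs0]
    exact le_trans (div_le_div_of_nonneg_right hc'N hs0.le) hsN

lemma b5_ring (a b c d e f g h : ℝ) : (a * e + b * g - (e * a + f * c)) ^ 2 +
    (a * f + b * h - (e * b + f * d)) * (c * e + d * g - (g * a + h * c)) =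
    (a + d) ^ 2 * (e * h - f * g) + (e + h) ^ 2 * (a * d - b * c) +
    (a * e + b * g + (c * f + d * h)) ^ 2 -
    (a + d) * (e + h) * (a * e + b * g + (c * f + d * h)) -
    4 * (a * d - b * c) * (e * h - f * g) := by
  ring

lemma b5_J (A B : Matrix (Fin 2) (Fin 2) ℝ) (x y z l : ℝ)
    (dA : A.det = 1) (dB : B.det = 1) (tA : A.trace = 2 * x) (tB : B.trace = 2 * y)
    (tAB : (A * B).trace = 2 * z) (hI : x ^ 2 + y ^ 2 + z ^ 2 - 2 * x * y * z - 1 = l ^ 2 / 4) :
    (A * B - B * A) 0 0 ^ 2 + (A * B - B * A) 0 1 * (A * B - B * A) 1 0 = l ^ 2 := by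
  rw [Matrix.det_fin_two] at dA dB
  rw [Matrix.trace_fin_two] at tA tB tAB
  simp only [Matrix.mul_apply, Fin.sum_univ_two] at tAB
  simp only [Matrix.sub_apply, Matrix.mul_apply, Fin.sum_univ_two]
  rw [b5_ring, dA, dB, tA, tB, tAB]
  linear_combination 4 * hI

lemma b5_D (t : ℝ) (ht : 0 < t) (M : Matrix (Fin 2) (Fin 2) ℝ) (w : ℝ) (h0 : M 0 0 = w)
    (h1 : M 1 1 = w) :
    !![t, 0; 0, 1 / t] * M = !![w, t ^ 2 * M 0 1; M 1 0 / t ^ 2, w] * !![t, 0; 0, 1 / t] := by
  ext i j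
  fin_cases i <;> fin_cases j
  · simp [Matrix.mul_apply, Fin.sum_univ_two, h0]
    ring
  · simp [Matrix.mul_apply, Fin.sum_univ_two]
    field_simp
  · simp [Matrix.mul_apply, Fin.sum_univ_two]
    field_simp
  · simp [Matrix.mul_apply, Fin.sum_univ_two, h1]
    ring

/-- the conjugated pair -/
lemma b5_conj (A B : Matrix (Fin 2) (Fin 2) ℝ) (x y z l : ℝ) (hl : 0 < l)
    (dA : A.det = 1) (dB : B.det = 1) (tA : A.trace = 2 * x) (tB : B.trace = 2 * y)
    (tAB : (A * B).trace = 2 * z) (comm : A * B - B * A = !![l, 0; 0, -l]) :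
    A 0 0 = x ∧ A 1 1 = x ∧ B 0 0 = y ∧ B 1 1 = y ∧ A 0 1 * B 1 0 - A 1 0 * B 0 1 = l ∧
    A 0 1 * A 1 0 = x ^ 2 - 1 ∧ B 0 1 * B 1 0 = y ^ 2 - 1 ∧
    A 0 1 * B 1 0 = z - x * y + l / 2 ∧ A 1 0 * B 0 1 = z - x * y - l / 2 := by
  rw [Matrix.det_fin_two] at dA dB
  rw [Matrix.trace_fin_two] at tA tB tAB
  simp only [Matrix.mul_apply, Fin.sum_univ_two] at tAB
  have c00 := congrFun (congrFun comm 0) 0
  have c01 := congrFun (congrFun comm 0) 1
  have c10 := congrFun (congrFun comm 1) 0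
  simp only [Matrix.sub_apply, Matrix.mul_apply, Fin.sum_univ_two, Matrix.of_apply,
    Matrix.cons_val', Matrix.cons_val_zero, Matrix.cons_val_one, Matrix.cons_val_fin_one,
    Fin.isValue] at c00 c01 c10
  have hl0 : A 0 1 * B 1 0 - A 1 0 * B 0 1 = l := by linarith
  have hu : A 0 0 = A 1 1 := by
    have : l * (A 0 0 - A 1 1) = 0 := by
      rw [← hl0]
      linear_combination (-A 1 0) * c01 - A 0 1 * c10
    rcases mul_eq_zero.1 this with h | h <;> linarith
  have hv : B 0 0 = B 1 1 := by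
    have : l * (B 0 0 - B 1 1) = 0 := by
      rw [← hl0]
      linear_combination (-B 1 0) * c01 - B 0 1 * c10
    rcases mul_eq_zero.1 this with h | h <;> linarith
  have hA00 : A 0 0 = x := by linarith
  have hA11 : A 1 1 = x := by linarith
  have hB00 : B 0 0 = y := by linarith
  have hB11 : B 1 1 = y := by linarith
  rw [hA00, hA11] at dA tAB
  rw [hB00, hB11] at dB tAB
  exact ⟨hA00, hA11, hB00, hB11, hl0, by linarith, by linarith, by linarith, by linarith⟩

lemma b5_bd (x y z l : ℝ) (hl : 0 < l) (hl1 : l ≤ 1) (hx : |x| ≤ 2) (hy : |y| ≤ 2)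
    (hz : |z| ≤ 2) : |x ^ 2 - 1| ≤ 9 ∧ |y ^ 2 - 1| ≤ 9 ∧ |z - x * y + l / 2| ≤ 9 ∧
    |z - x * y - l / 2| ≤ 9 := by
  have hxy : |x * y| ≤ 4 := by
    rw [abs_mul]
    have := mul_le_mul hx hy (abs_nonneg y) (by norm_num : (0 : ℝ) ≤ 2)
    linarith
  have hxx : |x * x| ≤ 4 := by
    rw [abs_mul]
    have := mul_le_mul hx hx (abs_nonneg x) (by norm_num : (0 : ℝ) ≤ 2)
    linarith
  have hyy : |y * y| ≤ 4 := by
    rw [abs_mul]
    have := mul_le_mul hy hy (abs_nonneg y) (by norm_num : (0 : ℝ) ≤ 2)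
    linarith
  rw [abs_le] at hx hy hz hxy hxx hyy
  refine ⟨?_, ?_, ?_, ?_⟩ <;> rw [abs_le] <;> constructor <;> linarith

/-- general form -/
lemma b5_main (A B : Matrix (Fin 2) (Fin 2) ℝ) (x y z l : ℝ) (hl : 0 < l) (hl1 : l ≤ 1)
    (dA : A.det = 1) (dB : B.det = 1) (tA : A.trace = 2 * x) (tB : B.trace = 2 * y)
    (tAB : (A * B).trace = 2 * z) (hI : x ^ 2 + y ^ 2 + z ^ 2 - 2 * x * y * z - 1 = l ^ 2 / 4)
    (hx : |x| ≤ 2) (hy : |y| ≤ 2) (hz : |z| ≤ 2) :
    ∃ (g : Matrix (Fin 2) (Fin 2) ℝ) (b c b' c' : ℝ), g.det = 1 ∧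
      g * A = !![x, b; c, x] * g ∧ g * B = !![y, b'; c', y] * g ∧
      |b| ≤ 3 ∧ |c| ≤ 3 ∧ |b'| ≤ 3 ∧ |c'| ≤ 3 ∧ |b * c' - c * b'| = l ∧
      b * c = x ^ 2 - 1 ∧ b' * c' = y ^ 2 - 1 := by
  obtain ⟨g, hg, hgJ⟩ := b5_g0 (A * B - B * A) l hl
    (by simp only [Matrix.sub_apply, Matrix.mul_apply, Fin.sum_univ_two]; ring)
    (b5_J A B x y z l dA dB tA tB tAB hI)
  have hgg : g.adjugate * g = 1 := by rw [Matrix.adjugate_mul, hg, one_smul]
  have hgg' : g * g.adjugate = 1 := by rw [Matrix.mul_adjugate, hg, one_smul]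
  obtain ⟨A', hA'⟩ : ∃ A', A' = g * A * g.adjugate := ⟨_, rfl⟩
  obtain ⟨B', hB'⟩ : ∃ B', B' = g * B * g.adjugate := ⟨_, rfl⟩
  have gA : g * A = A' * g := by rw [hA', Matrix.mul_assoc (g * A), hgg, mul_one]
  have gB : g * B = B' * g := by rw [hB', Matrix.mul_assoc (g * B), hgg, mul_one]
  have eAB : A' * B' = g * (A * B) * g.adjugate := by
    have : A' * B' = g * A * (g.adjugate * g) * (B * g.adjugate) := by
      rw [hA', hB']
      simp only [Matrix.mul_assoc]
    rw [this, hgg, mul_one]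
    simp only [Matrix.mul_assoc]
  have eBA : B' * A' = g * (B * A) * g.adjugate := by
    have : B' * A' = g * B * (g.adjugate * g) * (A * g.adjugate) := by
      rw [hA', hB']
      simp only [Matrix.mul_assoc]
    rw [this, hgg, mul_one]
    simp only [Matrix.mul_assoc]
  have comm : A' * B' - B' * A' = !![l, 0; 0, -l] := by
    rw [eAB, eBA, ← Matrix.sub_mul, ← Matrix.mul_sub, hgJ, Matrix.mul_assoc, hgg', mul_one]
  have trc : ∀ M : Matrix (Fin 2) (Fin 2) ℝ, (g * M * g.adjugate).trace = M.trace := by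
    intro M
    rw [Matrix.trace_mul_comm, ← Matrix.mul_assoc, hgg, one_mul]
  have dtc : ∀ M : Matrix (Fin 2) (Fin 2) ℝ, (g * M * g.adjugate).det = M.det := by
    intro M
    have : g.adjugate.det = 1 := by
      have h := congrArg Matrix.det hgg
      rwa [Matrix.det_mul, hg, mul_one, Matrix.det_one] at h
    rw [Matrix.det_mul, Matrix.det_mul, this, hg, one_mul, mul_one]
  obtain ⟨hA00, hA11, hB00, hB11, hl0, q1, q2, q3, q4⟩ := b5_conj A' B' x y z l hl
    (by rw [hA', dtc, dA]) (by rw [hB', dtc, dB]) (by rw [hA', trc, tA]) (by rw [hB', trc, tB])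
    (by rw [eAB, trc, tAB]) comm
  obtain ⟨r1, r2, r3, r4⟩ := b5_bd x y z l hl hl1 hx hy hz
  obtain ⟨t, ht, s1, s2, s3, s4⟩ := b5_scale (A' 0 1) (A' 1 0) (B' 0 1) (B' 1 0) l hl hl0
    (by rw [q1]; exact r1) (by rw [q2]; exact r2) (by rw [q3]; exact r3) (by rw [q4]; exact r4)
  refine ⟨!![t, 0; 0, 1 / t] * g, t ^ 2 * A' 0 1, A' 1 0 / t ^ 2, t ^ 2 * B' 0 1, B' 1 0 / t ^ 2,
    ?_, ?_, ?_, s1, s3, s2, s4, ?_, ?_, ?_⟩
  · rw [Matrix.det_mul, hg, Matrix.det_fin_two_of]
    field_simp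
    ring
  · rw [Matrix.mul_assoc, gA, ← Matrix.mul_assoc, b5_D t ht A' x hA00 hA11, Matrix.mul_assoc]
  · rw [Matrix.mul_assoc, gB, ← Matrix.mul_assoc, b5_D t ht B' y hB00 hB11, Matrix.mul_assoc]
  · have : t ^ 2 * A' 0 1 * (B' 1 0 / t ^ 2) - A' 1 0 / t ^ 2 * (t ^ 2 * B' 0 1) = l := by
      rw [← hl0]
      field_simp
    rw [this, abs_of_pos hl]
  · rw [← q1]
    field_simp
  · rw [← q2]
    field_simp

theorem frameP : FrameP := by
  intro n E l hl hl1 h0 h1 h2
  refine b5_main (MM n E l) (MM (n + 1) E l) _ _ (tr (n + 2) E l) l hl hl1 (MM_det n E l)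
    (MM_det (n + 1) E l) (MM_trace n E l) (MM_trace (n + 1) E l) ?_ (tr_inv n E l) h0 h1 h2
  rw [← MM_add_two]
  exact MM_trace (n + 2) E l

end FIB
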