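import Pool.Agent.Helper75.FIB.Iface

/-!
# FIB block B6 : well-conditioning

Take the frame of `FrameP`, write `S'_j = g S_j g^T`, `A_j = g M_j g^{-1}` (so `A_{j+2} = A_j A_{j+1}`, `S'_{j+2} = S'_j + A_j S'_{j+1} A_j^T`). `A_n, A_{n+1}`
have entries `<= 3`, so `A_j` (`n <= j <= n+8`) and their inverses (adjugates) have entries bounded by an absolute constant. `a := tr S'_{n+1} > 0` (PosProps).
UPPER: `S'_{n+1} >= A_{n-1} S'_n A_{n-1}^T` for `n >= 1` with `A_{n-1} = A_{n+1} A_n^{-1}` bounded (this is `SS (n+1) = SS (n-1) + M_{n-1} SS n M_{n-1}^T`), so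
`tr S'_n <= C a`; for `n = 0`, `S_0 = 0`. Hence `tr S'_j <= C a` for `n <= j <= n+8`.
LOWER: `S'_{n+1} >= (a/2) w w^T` with `1 <= |w|^2 <= 2`, and `S'_{n+4} >= sum_{i=1,2,3} g_i S'_{n+1} g_i^T`, `g_1 = A_n`, `g_2 = A_n A_{n+1}`,
`g_3 = A_n A_{n+1} A_{n+1} A_n`. With `w_i = g_i w`: `det(w_1,w_2) = det(w, A_{n+1} w) = e1`, `det(w_2,w_3) = det(w, A_{n+1} A_n w) = e2` and
`e1^2 + e2^2 >= ε^4/C`.
-/

namespace FIB

open Real MeasureTheory Set Filter Topology Matrix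

section b6aux

/-- quadratic form of a matrix -/
private noncomputable def Qf (P : Matrix (Fin 2) (Fin 2) ℝ) (v : Fin 2 → ℝ) : ℝ :=
  v ⬝ᵥ P.mulVec v

private theorem Qf_eq (P : Matrix (Fin 2) (Fin 2) ℝ) (v : Fin 2 → ℝ) :
    Qf P v = P 0 0 * v 0 ^ 2 + (P 0 1 + P 1 0) * (v 0 * v 1) + P 1 1 * v 1 ^ 2 := by
  simp only [Qf, dotProduct, mulVec, Fin.sum_univ_two]
  ring

private theorem Qf_add (P R : Matrix (Fin 2) (Fin 2) ℝ) (v : Fin 2 → ℝ) :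
    Qf (P + R) v = Qf P v + Qf R v := by
  simp only [Qf_eq, Matrix.add_apply]
  ring

private theorem Qf_conj (A P : Matrix (Fin 2) (Fin 2) ℝ) (v : Fin 2 → ℝ) :
    Qf (A * P * Aᵀ) v = Qf P (Aᵀ.mulVec v) := by
  simp only [Qf_eq, Matrix.mul_apply, mulVec, dotProduct, Fin.sum_univ_two, Matrix.transpose_apply]
  ring

private structure PS (P : Matrix (Fin 2) (Fin 2) ℝ) : Prop where
  s : P 0 1 = P 1 0
  a : 0 ≤ P 0 0
  b : 0 ≤ P 1 1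
  d : P 0 1 ^ 2 ≤ P 0 0 * P 1 1
  n : ∀ v, 0 ≤ Qf P v

private theorem PS_of {P : Matrix (Fin 2) (Fin 2) ℝ} (h : P.PosSemidef) : PS P := by
  have hs : P 0 1 = P 1 0 := by
    have h1 := h.isHermitian.apply 0 1
    simpa using h1.symm
  refine ⟨hs, h.diag_nonneg, h.diag_nonneg, ?_, ?_⟩
  · have h2 := h.det_nonneg
    rw [Matrix.det_fin_two, ← hs] at h2
    nlinarith
  · intro v
    have h3 := h.dotProduct_mulVec_nonneg v
    simpa [Qf] using h3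

private theorem Qf_le {P : Matrix (Fin 2) (Fin 2) ℝ} (h : PS P) (v : Fin 2 → ℝ) :
    Qf P v ≤ (P 0 0 + P 1 1) * (v 0 ^ 2 + v 1 ^ 2) := by
  have h1 := h.n ![v 1, -v 0]
  rw [Qf_eq] at h1 ⊢
  simp at h1
  nlinarith

private theorem rank1 {P : Matrix (Fin 2) (Fin 2) ℝ} (h : PS P) (hp : 0 < P 0 0 + P 1 1) :
    ∃ w0 w1 : ℝ, 1 ≤ w0 ^ 2 + w1 ^ 2 ∧ w0 ^ 2 + w1 ^ 2 ≤ 2 ∧
      ∀ v, (P 0 0 + P 1 1) / 2 * (w0 * v 0 + w1 * v 1) ^ 2 ≤ Qf P v := by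
  have hs := h.s
  have ha := h.a
  have hb := h.b
  have hd := h.d
  rcases le_total (P 1 1) (P 0 0) with hc | hc
  · have hp0 : 0 < P 0 0 := by linarith
    refine ⟨1, P 0 1 / P 0 0, by nlinarith [sq_nonneg (P 0 1 / P 0 0)], ?_, ?_⟩
    · have h1 : (P 0 1 / P 0 0) ^ 2 ≤ 1 := by
        rw [div_pow, div_le_one (by positivity)]
        nlinarith
      linarith
    · intro v
      rw [Qf_eq, ← hs]
      have h2 : P 0 0 * v 0 ^ 2 + (P 0 1 + P 0 1) * (v 0 * v 1) + P 1 1 * v 1 ^ 2 =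
          P 0 0 * (1 * v 0 + P 0 1 / P 0 0 * v 1) ^ 2 +
            (P 0 0 * P 1 1 - P 0 1 ^ 2) / P 0 0 * v 1 ^ 2 := by
        field_simp
        ring
      rw [h2]
      have h3 : 0 ≤ (P 0 0 * P 1 1 - P 0 1 ^ 2) / P 0 0 * v 1 ^ 2 := by
        refine mul_nonneg (div_nonneg (by linarith) hp0.le) (sq_nonneg _)
      have h4 : (P 0 0 + P 1 1) / 2 * (1 * v 0 + P 0 1 / P 0 0 * v 1) ^ 2 ≤
          P 0 0 * (1 * v 0 + P 0 1 / P 0 0 * v 1) ^ 2 :=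
        mul_le_mul_of_nonneg_right (by linarith) (sq_nonneg _)
      linarith
  · have hp0 : 0 < P 1 1 := by linarith
    refine ⟨P 0 1 / P 1 1, 1, by nlinarith [sq_nonneg (P 0 1 / P 1 1)], ?_, ?_⟩
    · have h1 : (P 0 1 / P 1 1) ^ 2 ≤ 1 := by
        rw [div_pow, div_le_one (by positivity)]
        nlinarith
      linarith
    · intro v
      rw [Qf_eq, ← hs]
      have h2 : P 0 0 * v 0 ^ 2 + (P 0 1 + P 0 1) * (v 0 * v 1) + P 1 1 * v 1 ^ 2 =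
          P 1 1 * (P 0 1 / P 1 1 * v 0 + 1 * v 1) ^ 2 +
            (P 0 0 * P 1 1 - P 0 1 ^ 2) / P 1 1 * v 0 ^ 2 := by
        field_simp
        ring
      rw [h2]
      have h3 : 0 ≤ (P 0 0 * P 1 1 - P 0 1 ^ 2) / P 1 1 * v 0 ^ 2 := by
        refine mul_nonneg (div_nonneg (by linarith) hp0.le) (sq_nonneg _)
      have h4 : (P 0 0 + P 1 1) / 2 * (P 0 1 / P 1 1 * v 0 + 1 * v 1) ^ 2 ≤
          P 1 1 * (P 0 1 / P 1 1 * v 0 + 1 * v 1) ^ 2 :=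
        mul_le_mul_of_nonneg_right (by linarith) (sq_nonneg _)
      linarith

/-- two vectors span -/
private theorem two_vec (a0 a1 b0 b1 v0 v1 : ℝ) :
    (a0 * b1 - a1 * b0) ^ 2 * (v0 ^ 2 + v1 ^ 2) ≤
      ((a0 * v0 + a1 * v1) ^ 2 + (b0 * v0 + b1 * v1) ^ 2) *
        (a0 ^ 2 + a1 ^ 2 + (b0 ^ 2 + b1 ^ 2)) := by
  have key : ((a0 * v0 + a1 * v1) ^ 2 + (b0 * v0 + b1 * v1) ^ 2) *
        (a0 ^ 2 + a1 ^ 2 + (b0 ^ 2 + b1 ^ 2)) - (a0 * b1 - a1 * b0) ^ 2 * (v0 ^ 2 + v1 ^ 2) =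
      ((a0 * v0 + a1 * v1) * a0 + (b0 * v0 + b1 * v1) * b0) ^ 2 +
        ((a0 * v0 + a1 * v1) * a1 + (b0 * v0 + b1 * v1) * b1) ^ 2 := by ring
  nlinarith [sq_nonneg ((a0 * v0 + a1 * v1) * a0 + (b0 * v0 + b1 * v1) * b0),
    sq_nonneg ((a0 * v0 + a1 * v1) * a1 + (b0 * v0 + b1 * v1) * b1)]

private theorem sq_le_of_abs {x c : ℝ} (h : |x| ≤ c) : x ^ 2 ≤ c ^ 2 := by
  have h1 := abs_nonneg x
  rw [← sq_abs]
  exact pow_le_pow_left₀ h1 h 2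

private theorem cs2 (a b c d : ℝ) : (a * c + b * d) ^ 2 ≤ (a ^ 2 + b ^ 2) * (c ^ 2 + d ^ 2) := by
  have key : (a ^ 2 + b ^ 2) * (c ^ 2 + d ^ 2) - (a * c + b * d) ^ 2 = (a * d - b * c) ^ 2 := by ring
  linarith [sq_nonneg (a * d - b * c)]

private theorem half_sq (s t : ℝ) (h : 1 ≤ s + t) : 1 / 2 ≤ s ^ 2 + t ^ 2 := by
  nlinarith [sq_nonneg (s - t), sq_nonneg (s + t - 1)]

private theorem sub_sq_le (s t S T : ℝ) (hs : s ^ 2 ≤ S) (ht : t ^ 2 ≤ T) :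
    (s - t) ^ 2 ≤ 2 * (S + T) := by
  have key : 2 * (s ^ 2 + t ^ 2) - (s - t) ^ 2 = (s + t) ^ 2 := by ring
  linarith [sq_nonneg (s + t)]

private theorem prod_sq_le (s t S : ℝ) (hs : s ^ 2 ≤ S) : (s * t) ^ 2 ≤ S * t ^ 2 := by
  rw [mul_pow]
  exact mul_le_mul_of_nonneg_right hs (sq_nonneg t)

private theorem first_nd {x b c b' c' l ε w0 w1 : ℝ} (hb : |b| ≤ 3) (hc : |c| ≤ 3) (hb' : |b'| ≤ 3)
    (hc' : |c'| ≤ 3) (hl : |b * c' - c * b'| = l) (hbc : b * c = x ^ 2 - 1)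
    (hε0 : 0 < ε) (hε1 : ε ≤ 1 / 2) (hcase : ε = l ∨ ε ^ 2 ≤ 1 - x ^ 2)
    (hw : 1 ≤ w0 ^ 2 + w1 ^ 2) (q e : ℝ) (hq : q = c * w0 ^ 2 - b * w1 ^ 2)
    (he : e = c' * w0 ^ 2 - b' * w1 ^ 2) :
    ε ^ 4 ≤ 72 * (q ^ 2 + e ^ 2) := by
  have hb2 : b ^ 2 ≤ 9 := (sq_le_of_abs hb).trans (by norm_num)
  have hc2 : c ^ 2 ≤ 9 := (sq_le_of_abs hc).trans (by norm_num)
  have hb2' : b' ^ 2 ≤ 9 := (sq_le_of_abs hb').trans (by norm_num)
  have hc2' : c' ^ 2 ≤ 9 := (sq_le_of_abs hc').trans (by norm_num)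
  have hsum := half_sq _ _ hw
  have hε2 : ε ^ 2 ≤ 1 := by nlinarith
  rcases hcase with h | h
  · have hl2 : (b * c' - c * b') ^ 2 = l ^ 2 := by rw [← sq_abs, hl]
    have i0 : (b * c' - c * b') * w0 ^ 2 = b * e - b' * q := by rw [hq, he]; ring
    have i1 : (b * c' - c * b') * w1 ^ 2 = c * e - c' * q := by rw [hq, he]; ring
    have j0 : l ^ 2 * (w0 ^ 2) ^ 2 ≤ 2 * (9 * e ^ 2 + 9 * q ^ 2) := by
      have : l ^ 2 * (w0 ^ 2) ^ 2 = (b * e - b' * q) ^ 2 := by rw [← i0, ← hl2]; ring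
      rw [this]
      exact sub_sq_le _ _ _ _ (prod_sq_le _ _ _ hb2) (prod_sq_le _ _ _ hb2')
    have j1 : l ^ 2 * (w1 ^ 2) ^ 2 ≤ 2 * (9 * e ^ 2 + 9 * q ^ 2) := by
      have : l ^ 2 * (w1 ^ 2) ^ 2 = (c * e - c' * q) ^ 2 := by rw [← i1, ← hl2]; ring
      rw [this]
      exact sub_sq_le _ _ _ _ (prod_sq_le _ _ _ hc2) (prod_sq_le _ _ _ hc2')
    have hlq : l ^ 2 * (1 / 2) ≤ l ^ 2 * ((w0 ^ 2) ^ 2 + (w1 ^ 2) ^ 2) :=
      mul_le_mul_of_nonneg_left hsum (sq_nonneg _)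
    have hε4 : ε ^ 4 ≤ ε ^ 2 := by
      have : ε ^ 4 = ε ^ 2 * ε ^ 2 := by ring
      rw [this]
      exact (mul_le_mul_of_nonneg_left hε2 (sq_nonneg _)).trans (by rw [mul_one])
    rw [h] at hε4 ⊢
    linarith
  · have h1 : ε ^ 2 ≤ -(b * c) := by rw [hbc]; linarith
    have hbc2 : ε ^ 4 ≤ b ^ 2 * c ^ 2 := by
      have h2 : (ε ^ 2) ^ 2 ≤ (-(b * c)) ^ 2 := pow_le_pow_left₀ (by positivity) h1 2
      have h3 : (ε ^ 2) ^ 2 = ε ^ 4 := by ring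
      have h4 : (-(b * c)) ^ 2 = b ^ 2 * c ^ 2 := by ring
      rwa [h3, h4] at h2
    have hbc' : 0 ≤ -(b * c) := (sq_nonneg ε).trans h1
    have hB : ε ^ 4 / 9 ≤ b ^ 2 := by
      have := mul_le_mul_of_nonneg_left hc2 (sq_nonneg b)
      linarith
    have hC : ε ^ 4 / 9 ≤ c ^ 2 := by
      have := mul_le_mul_of_nonneg_right hb2 (sq_nonneg c)
      linarith
    have hq2 : c ^ 2 * (w0 ^ 2) ^ 2 + b ^ 2 * (w1 ^ 2) ^ 2 ≤ q ^ 2 := by
      have h3 : q ^ 2 = c ^ 2 * (w0 ^ 2) ^ 2 + b ^ 2 * (w1 ^ 2) ^ 2 +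
          2 * (-(b * c) * (w0 * w1) ^ 2) := by
        rw [hq]; ring
      have h4 := mul_nonneg hbc' (sq_nonneg (w0 * w1))
      linarith
    have h5 : ε ^ 4 / 9 * (w0 ^ 2) ^ 2 ≤ c ^ 2 * (w0 ^ 2) ^ 2 :=
      mul_le_mul_of_nonneg_right hC (sq_nonneg _)
    have h6 : ε ^ 4 / 9 * (w1 ^ 2) ^ 2 ≤ b ^ 2 * (w1 ^ 2) ^ 2 :=
      mul_le_mul_of_nonneg_right hB (sq_nonneg _)
    have h7 : ε ^ 4 / 9 * (1 / 2) ≤ ε ^ 4 / 9 * ((w0 ^ 2) ^ 2 + (w1 ^ 2) ^ 2) :=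
      mul_le_mul_of_nonneg_left hsum (by positivity)
    have h8 := sq_nonneg e
    have h9 := sq_nonneg q
    have h10 : ε ^ 4 / 9 * ((w0 ^ 2) ^ 2 + (w1 ^ 2) ^ 2) =
      ε ^ 4 / 9 * (w0 ^ 2) ^ 2 + ε ^ 4 / 9 * (w1 ^ 2) ^ 2 := by ring
    linarith

/-- the basic nondegeneracy -/
private theorem nd {x y b c b' c' l ε w0 w1 : ℝ} (hx : |x| ≤ 2) (hy : |y| ≤ 2)
    (hb : |b| ≤ 3) (hc : |c| ≤ 3) (hb' : |b'| ≤ 3)
    (hc' : |c'| ≤ 3) (hl : |b * c' - c * b'| = l) (hbc : b * c = x ^ 2 - 1)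
    (hbc' : b' * c' = y ^ 2 - 1)
    (hε0 : 0 < ε) (hε1 : ε ≤ 1 / 2) (hcase : ε = l ∨ ε ^ 2 ≤ 1 - x ^ 2)
    (hw : 1 ≤ w0 ^ 2 + w1 ^ 2) (hw2 : w0 ^ 2 + w1 ^ 2 ≤ 2) (e1 e2 : ℝ)
    (he1 : e1 = c' * w0 ^ 2 - b' * w1 ^ 2)
    (he2 : e2 = w0 * (c' * (x * w0 + b * w1) + y * (c * w0 + x * w1)) -
      w1 * (y * (x * w0 + b * w1) + b' * (c * w0 + x * w1))) :
    ε ^ 4 ≤ 5000000 * (e1 ^ 2 + e2 ^ 2) := by
  obtain ⟨q, hq⟩ : ∃ q, q = c * w0 ^ 2 - b * w1 ^ 2 := ⟨_, rfl⟩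
  have hfirst := first_nd hb hc hb' hc' hl hbc hε0 hε1 hcase hw q e1 hq he1
  have hx2 : x ^ 2 ≤ 4 := (sq_le_of_abs hx).trans (by norm_num)
  have hy2 : y ^ 2 ≤ 4 := (sq_le_of_abs hy).trans (by norm_num)
  have hb2 : b ^ 2 ≤ 9 := (sq_le_of_abs hb).trans (by norm_num)
  have hc2 : c ^ 2 ≤ 9 := (sq_le_of_abs hc).trans (by norm_num)
  have hb2' : b' ^ 2 ≤ 9 := (sq_le_of_abs hb').trans (by norm_num)
  have hc2' : c' ^ 2 ≤ 9 := (sq_le_of_abs hc').trans (by norm_num)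
  obtain ⟨u0, hu0⟩ : ∃ u, u = y * w0 - b' * w1 := ⟨_, rfl⟩
  obtain ⟨u1, hu1⟩ : ∃ u, u = -c' * w0 + y * w1 := ⟨_, rfl⟩
  obtain ⟨m, hm⟩ : ∃ m, m = w0 * u0 + w1 * u1 := ⟨_, rfl⟩
  obtain ⟨s0, hs0⟩ : ∃ s, s = x * w0 + b * w1 := ⟨_, rfl⟩
  obtain ⟨s1, hs1⟩ : ∃ s, s = c * w0 + x * w1 := ⟨_, rfl⟩
  obtain ⟨δ, hδ⟩ : ∃ δ, δ = w1 * (-s1) + w0 * (-s0) := ⟨_, rfl⟩
  have I1 : m * q = (w0 ^ 2 + w1 ^ 2) * e2 + e1 * δ := by
    rw [hm, hq, he1, he2, hδ, hu0, hu1, hs0, hs1]; ring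
  have I2 : m ^ 2 + e1 ^ 2 = (u0 ^ 2 + u1 ^ 2) * (w0 ^ 2 + w1 ^ 2) := by
    rw [hm, he1, hu0, hu1]; ring
  have I3 : w0 = y * u0 + b' * u1 := by
    rw [hu0, hu1]; linear_combination w0 * hbc'
  have I4 : w1 = c' * u0 + y * u1 := by
    rw [hu0, hu1]; linear_combination w1 * hbc'
  have hU : 0 ≤ u0 ^ 2 + u1 ^ 2 := by positivity
  have hW : w0 ^ 2 + w1 ^ 2 ≤ 26 * (u0 ^ 2 + u1 ^ 2) := by
    have h1 : w0 ^ 2 ≤ (y ^ 2 + b' ^ 2) * (u0 ^ 2 + u1 ^ 2) := by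
      have := cs2 y b' u0 u1
      rwa [← I3] at this
    have h2 : w1 ^ 2 ≤ (c' ^ 2 + y ^ 2) * (u0 ^ 2 + u1 ^ 2) := by
      have := cs2 c' y u0 u1
      rwa [← I4] at this
    have h3 : (y ^ 2 + b' ^ 2) * (u0 ^ 2 + u1 ^ 2) ≤ 13 * (u0 ^ 2 + u1 ^ 2) :=
      mul_le_mul_of_nonneg_right (by linarith) hU
    have h4 : (c' ^ 2 + y ^ 2) * (u0 ^ 2 + u1 ^ 2) ≤ 13 * (u0 ^ 2 + u1 ^ 2) :=
      mul_le_mul_of_nonneg_right (by linarith) hU
    linarith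
  have hsum : 1 / 26 ≤ m ^ 2 + e1 ^ 2 := by
    rw [I2]
    have h1 : 1 / 26 ≤ u0 ^ 2 + u1 ^ 2 := by linarith
    calc (1 / 26 : ℝ) = 1 / 26 * 1 := by ring
      _ ≤ (u0 ^ 2 + u1 ^ 2) * (w0 ^ 2 + w1 ^ 2) := mul_le_mul h1 hw (by norm_num) hU
  have hε4 : ε ^ 4 ≤ 1 / 16 := by
    have h1 : ε ^ 4 ≤ (1 / 2) ^ 4 := pow_le_pow_left₀ hε0.le hε1 4
    exact h1.trans (by norm_num)
  rcases le_total (1 / 64) (e1 ^ 2) with h | h
  · have := sq_nonneg e2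
    linarith
  · have hm2 : 1 / 64 ≤ m ^ 2 := by linarith
    have hδ2 : δ ^ 2 ≤ 507 := by
      have hs0' : s0 ^ 2 ≤ 26 := by
        have := cs2 x b w0 w1
        rw [← hs0] at this
        have h' : (x ^ 2 + b ^ 2) * (w0 ^ 2 + w1 ^ 2) ≤ 13 * 2 :=
          mul_le_mul (by linarith) hw2 (by positivity) (by norm_num)
        linarith
      have hs1' : s1 ^ 2 ≤ 26 := by
        have := cs2 c x w0 w1
        rw [← hs1] at this
        have h' : (c ^ 2 + x ^ 2) * (w0 ^ 2 + w1 ^ 2) ≤ 13 * 2 :=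
          mul_le_mul (by linarith) hw2 (by positivity) (by norm_num)
        linarith
      have h3 := cs2 w1 w0 (-s1) (-s0)
      rw [← hδ] at h3
      have h4 : (w1 ^ 2 + w0 ^ 2) * ((-s1) ^ 2 + (-s0) ^ 2) ≤ 2 * 52 := by
        refine mul_le_mul (by linarith) ?_ (by positivity) (by norm_num)
        rw [neg_sq, neg_sq]
        linarith
      linarith
    have hmq : 1 / 64 * q ^ 2 ≤ (m * q) ^ 2 := by
      rw [mul_pow]
      exact mul_le_mul_of_nonneg_right hm2 (sq_nonneg q)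
    have hup : (m * q) ^ 2 ≤ 2 * (4 * e2 ^ 2 + 507 * e1 ^ 2) := by
      rw [I1]
      have h5 : ((w0 ^ 2 + w1 ^ 2) * e2) ^ 2 ≤ 4 * e2 ^ 2 := by
        refine prod_sq_le _ _ _ ?_
        have : (w0 ^ 2 + w1 ^ 2) ^ 2 ≤ 2 ^ 2 := pow_le_pow_left₀ (by positivity) hw2 2
        exact this.trans (by norm_num)
      have h6 : (-(e1 * δ)) ^ 2 ≤ 507 * e1 ^ 2 := by
        have := prod_sq_le δ e1 507 hδ2
        rw [neg_sq, mul_comm e1 δ]
        exact this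
      have h7 := sub_sq_le ((w0 ^ 2 + w1 ^ 2) * e2) (-(e1 * δ)) _ _ h5 h6
      rwa [sub_neg_eq_add] at h7
    have := sq_nonneg e1
    have := sq_nonneg e2
    linarith

private theorem ent_mul {A B : Matrix (Fin 2) (Fin 2) ℝ} {α β : ℝ} (hα : 0 ≤ α)
    (ha : ∀ i k, |A i k| ≤ α) (hb : ∀ i k, |B i k| ≤ β) (i k : Fin 2) :
    |(A * B) i k| ≤ 2 * α * β := by
  rw [Matrix.mul_apply, Fin.sum_univ_two]
  refine (abs_add_le _ _).trans ?_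
  rw [abs_mul, abs_mul]
  have h1 := mul_le_mul (ha i 0) (hb 0 k) (abs_nonneg _) hα
  have h2 := mul_le_mul (ha i 1) (hb 1 k) (abs_nonneg _) hα
  linarith

private theorem trace_conj_le {A P : Matrix (Fin 2) (Fin 2) ℝ} {κ : ℝ} (hP : PS P)
    (hA : ∀ i k, |A i k| ≤ κ) : (A * P * Aᵀ).trace ≤ 4 * κ ^ 2 * P.trace := by
  have h0 : (A * P * Aᵀ).trace = Qf P ![A 0 0, A 0 1] + Qf P ![A 1 0, A 1 1] := by
    rw [Qf_eq, Qf_eq]
    simp only [Matrix.trace_fin_two, Matrix.mul_apply, Fin.sum_univ_two, Matrix.transpose_apply,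
      Matrix.cons_val_zero, Matrix.cons_val_one]
    ring
  have h1 := Qf_le hP ![A 0 0, A 0 1]
  have h2 := Qf_le hP ![A 1 0, A 1 1]
  simp only [Matrix.cons_val_zero, Matrix.cons_val_one] at h1 h2
  have hT : 0 ≤ P 0 0 + P 1 1 := add_nonneg hP.a hP.b
  have k00 := sq_le_of_abs (hA 0 0)
  have k01 := sq_le_of_abs (hA 0 1)
  have k10 := sq_le_of_abs (hA 1 0)
  have k11 := sq_le_of_abs (hA 1 1)
  have m1 : (P 0 0 + P 1 1) * (A 0 0 ^ 2 + A 0 1 ^ 2) ≤ (P 0 0 + P 1 1) * (2 * κ ^ 2) :=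
    mul_le_mul_of_nonneg_left (by linarith) hT
  have m2 : (P 0 0 + P 1 1) * (A 1 0 ^ 2 + A 1 1 ^ 2) ≤ (P 0 0 + P 1 1) * (2 * κ ^ 2) :=
    mul_le_mul_of_nonneg_left (by linarith) hT
  rw [h0, Matrix.trace_fin_two]
  linarith

private theorem low_conj {A P : Matrix (Fin 2) (Fin 2) ℝ} {κ lam : ℝ} (hlam : 0 ≤ lam)
    (hκ : 0 < κ) (hdet : A.det = 1)
    (hP : ∀ u, lam * (u 0 ^ 2 + u 1 ^ 2) ≤ Qf P u)
    (hA : ∀ i k, |A i k| ≤ κ) (v : Fin 2 → ℝ) :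
    lam / (4 * κ ^ 2) * (v 0 ^ 2 + v 1 ^ 2) ≤ Qf (A * P * Aᵀ) v := by
  rw [Qf_conj]
  refine le_trans ?_ (hP _)
  have hu0 : (Aᵀ.mulVec v) 0 = A 0 0 * v 0 + A 1 0 * v 1 := by
    simp only [mulVec, dotProduct, Fin.sum_univ_two, Matrix.transpose_apply]
  have hu1 : (Aᵀ.mulVec v) 1 = A 0 1 * v 0 + A 1 1 * v 1 := by
    simp only [mulVec, dotProduct, Fin.sum_univ_two, Matrix.transpose_apply]
  rw [hu0, hu1]
  obtain ⟨u0, hu0'⟩ : ∃ u, u = A 0 0 * v 0 + A 1 0 * v 1 := ⟨_, rfl⟩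
  obtain ⟨u1, hu1'⟩ : ∃ u, u = A 0 1 * v 0 + A 1 1 * v 1 := ⟨_, rfl⟩
  rw [← hu0', ← hu1']
  rw [Matrix.det_fin_two] at hdet
  have e0 : v 0 = A 1 1 * u0 + (-A 1 0) * u1 := by
    rw [hu0', hu1']; linear_combination (-v 0) * hdet
  have e1 : v 1 = (-A 0 1) * u0 + A 0 0 * u1 := by
    rw [hu0', hu1']; linear_combination (-v 1) * hdet
  have k00 := sq_le_of_abs (hA 0 0)
  have k01 := sq_le_of_abs (hA 0 1)
  have k10 := sq_le_of_abs (hA 1 0)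
  have k11 := sq_le_of_abs (hA 1 1)
  have hU : 0 ≤ u0 ^ 2 + u1 ^ 2 := by positivity
  have c0 := cs2 (A 1 1) (-A 1 0) u0 u1
  have c1 := cs2 (-A 0 1) (A 0 0) u0 u1
  rw [← e0, neg_sq] at c0
  rw [← e1, neg_sq] at c1
  have d0 : (A 1 1 ^ 2 + A 1 0 ^ 2) * (u0 ^ 2 + u1 ^ 2) ≤ (2 * κ ^ 2) * (u0 ^ 2 + u1 ^ 2) :=
    mul_le_mul_of_nonneg_right (by linarith) hU
  have d1 : (A 0 1 ^ 2 + A 0 0 ^ 2) * (u0 ^ 2 + u1 ^ 2) ≤ (2 * κ ^ 2) * (u0 ^ 2 + u1 ^ 2) :=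
    mul_le_mul_of_nonneg_right (by linarith) hU
  have hv : v 0 ^ 2 + v 1 ^ 2 ≤ 4 * κ ^ 2 * (u0 ^ 2 + u1 ^ 2) := by linarith
  have hκ2 : 0 < 4 * κ ^ 2 := by positivity
  calc lam / (4 * κ ^ 2) * (v 0 ^ 2 + v 1 ^ 2)
      ≤ lam / (4 * κ ^ 2) * (4 * κ ^ 2 * (u0 ^ 2 + u1 ^ 2)) :=
        mul_le_mul_of_nonneg_left hv (div_nonneg hlam hκ2.le)
    _ = lam * (u0 ^ 2 + u1 ^ 2) := by field_simp

/-- the lower bound at level `n + 4` -/
private theorem low_four {P0 P1 P2 P3 P4 A0 A1 A2 : Matrix (Fin 2) (Fin 2) ℝ}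
    {x y b c b' c' l ε : ℝ}
    (h0 : PS P0) (h1 : PS P1) (hA0 : A0 = !![x, b; c, x]) (hA1 : A1 = !![y, b'; c', y])
    (hA2 : A2 = A0 * A1) (e2 : P2 = P0 + A0 * P1 * A0ᵀ) (e3 : P3 = P1 + A1 * P2 * A1ᵀ)
    (e4 : P4 = P2 + A2 * P3 * A2ᵀ)
    (hx : |x| ≤ 2) (hy : |y| ≤ 2)
    (hb : |b| ≤ 3) (hc : |c| ≤ 3) (hb' : |b'| ≤ 3)
    (hc' : |c'| ≤ 3) (hl : |b * c' - c * b'| = l) (hbc : b * c = x ^ 2 - 1)
    (hbc' : b' * c' = y ^ 2 - 1)
    (hε0 : 0 < ε) (hε1 : ε ≤ 1 / 2) (hcase : ε = l ∨ ε ^ 2 ≤ 1 - x ^ 2)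
    (hp : 0 < P1.trace) (v : Fin 2 → ℝ) :
    ε ^ 4 * P1.trace / 20000000000000 * (v 0 ^ 2 + v 1 ^ 2) ≤ Qf P4 v := by
  rw [Matrix.trace_fin_two] at hp ⊢
  obtain ⟨w0, w1, hw, hw2, hrank⟩ := rank1 h1 hp
  have hx2 : x ^ 2 ≤ 4 := (sq_le_of_abs hx).trans (by norm_num)
  have hy2 : y ^ 2 ≤ 4 := (sq_le_of_abs hy).trans (by norm_num)
  have hb2 : b ^ 2 ≤ 9 := (sq_le_of_abs hb).trans (by norm_num)
  have hc2 : c ^ 2 ≤ 9 := (sq_le_of_abs hc).trans (by norm_num)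
  have hb2' : b' ^ 2 ≤ 9 := (sq_le_of_abs hb').trans (by norm_num)
  have hc2' : c' ^ 2 ≤ 9 := (sq_le_of_abs hc').trans (by norm_num)
  -- the expansion
  have q4 : Qf P1 (A0ᵀ.mulVec v) + Qf P1 (A2ᵀ.mulVec v) +
      Qf P1 (A0ᵀ.mulVec (A1ᵀ.mulVec (A2ᵀ.mulVec v))) ≤ Qf P4 v := by
    rw [e4, Qf_add, Qf_conj, e3, Qf_add, Qf_conj, e2, Qf_add, Qf_conj, Qf_add, Qf_conj]
    have z1 := h0.n v
    have z2 := h0.n (A1ᵀ.mulVec (A2ᵀ.mulVec v))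
    linarith
  -- the vectors
  obtain ⟨s0, hs0⟩ : ∃ s, s = x * w0 + b * w1 := ⟨_, rfl⟩
  obtain ⟨s1, hs1⟩ : ∃ s, s = c * w0 + x * w1 := ⟨_, rfl⟩
  obtain ⟨z0, hz0⟩ : ∃ s, s = y * w0 + b' * w1 := ⟨_, rfl⟩
  obtain ⟨z1, hz1⟩ : ∃ s, s = c' * w0 + y * w1 := ⟨_, rfl⟩
  obtain ⟨g0, hg0⟩ : ∃ s, s = x * z0 + b * z1 := ⟨_, rfl⟩
  obtain ⟨g1, hg1⟩ : ∃ s, s = c * z0 + x * z1 := ⟨_, rfl⟩
  obtain ⟨r0, hr0⟩ : ∃ s, s = y * s0 + b' * s1 := ⟨_, rfl⟩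
  obtain ⟨r1, hr1⟩ : ∃ s, s = c' * s0 + y * s1 := ⟨_, rfl⟩
  obtain ⟨t0, ht0⟩ : ∃ s, s = y * r0 + b' * r1 := ⟨_, rfl⟩
  obtain ⟨t1, ht1⟩ : ∃ s, s = c' * r0 + y * r1 := ⟨_, rfl⟩
  obtain ⟨k0, hk0⟩ : ∃ s, s = x * t0 + b * t1 := ⟨_, rfl⟩
  obtain ⟨k1, hk1⟩ : ∃ s, s = c * t0 + x * t1 := ⟨_, rfl⟩
  have stepA : ∀ p q : ℝ, (x * p + b * q) ^ 2 + (c * p + x * q) ^ 2 ≤ 26 * (p ^ 2 + q ^ 2) := by
    intro p q
    have i1 := cs2 x b p q
    have i2 := cs2 c x p q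
    have hU : 0 ≤ p ^ 2 + q ^ 2 := by positivity
    have j1 : (x ^ 2 + b ^ 2) * (p ^ 2 + q ^ 2) ≤ 13 * (p ^ 2 + q ^ 2) :=
      mul_le_mul_of_nonneg_right (by linarith) hU
    have j2 : (c ^ 2 + x ^ 2) * (p ^ 2 + q ^ 2) ≤ 13 * (p ^ 2 + q ^ 2) :=
      mul_le_mul_of_nonneg_right (by linarith) hU
    linarith
  have stepB : ∀ p q : ℝ, (y * p + b' * q) ^ 2 + (c' * p + y * q) ^ 2 ≤ 26 * (p ^ 2 + q ^ 2) := by
    intro p q
    have i1 := cs2 y b' p q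
    have i2 := cs2 c' y p q
    have hU : 0 ≤ p ^ 2 + q ^ 2 := by positivity
    have j1 : (y ^ 2 + b' ^ 2) * (p ^ 2 + q ^ 2) ≤ 13 * (p ^ 2 + q ^ 2) :=
      mul_le_mul_of_nonneg_right (by linarith) hU
    have j2 : (c' ^ 2 + y ^ 2) * (p ^ 2 + q ^ 2) ≤ 13 * (p ^ 2 + q ^ 2) :=
      mul_le_mul_of_nonneg_right (by linarith) hU
    linarith
  have ns : s0 ^ 2 + s1 ^ 2 ≤ 52 := by
    have := stepA w0 w1
    rw [← hs0, ← hs1] at this
    linarith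
  have nz : z0 ^ 2 + z1 ^ 2 ≤ 52 := by
    have := stepB w0 w1
    rw [← hz0, ← hz1] at this
    linarith
  have ng : g0 ^ 2 + g1 ^ 2 ≤ 1352 := by
    have := stepA z0 z1
    rw [← hg0, ← hg1] at this
    linarith
  have nr : r0 ^ 2 + r1 ^ 2 ≤ 1352 := by
    have := stepB s0 s1
    rw [← hr0, ← hr1] at this
    linarith
  have nt : t0 ^ 2 + t1 ^ 2 ≤ 35152 := by
    have := stepB r0 r1
    rw [← ht0, ← ht1] at this
    linarith
  have nk : k0 ^ 2 + k1 ^ 2 ≤ 913952 := by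
    have := stepA t0 t1
    rw [← hk0, ← hk1] at this
    linarith
  -- determinants
  have d12 : s0 * g1 - s1 * g0 = c' * w0 ^ 2 - b' * w1 ^ 2 := by
    have e : s0 * g1 - s1 * g0 = (x ^ 2 - b * c) * (w0 * z1 - w1 * z0) := by
      rw [hs0, hs1, hg0, hg1]; ring
    have h1' : x ^ 2 - b * c = 1 := by rw [hbc]; ring
    rw [e, h1', one_mul, hz0, hz1]
    ring
  have d23 : g0 * k1 - g1 * k0 = w0 * r1 - w1 * r0 := by
    have e : g0 * k1 - g1 * k0 = (x ^ 2 - b * c) * (z0 * t1 - z1 * t0) := by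
      rw [hk0, hk1, hg0, hg1]; ring
    have h1' : x ^ 2 - b * c = 1 := by rw [hbc]; ring
    have e' : z0 * t1 - z1 * t0 = (y ^ 2 - b' * c') * (w0 * r1 - w1 * r0) := by
      rw [hz0, hz1, ht0, ht1]; ring
    have h2' : y ^ 2 - b' * c' = 1 := by rw [hbc']; ring
    rw [e, h1', one_mul, e', h2', one_mul]
  have hnd := nd hx hy hb hc hb' hc' hl hbc hbc' hε0 hε1 hcase hw hw2
    (s0 * g1 - s1 * g0) (g0 * k1 - g1 * k0) d12 (by
      rw [d23, hr0, hr1, hs0, hs1])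
  -- the three squares
  obtain ⟨α, hα⟩ : ∃ α, α = s0 * v 0 + s1 * v 1 := ⟨_, rfl⟩
  obtain ⟨β, hβ⟩ : ∃ β, β = g0 * v 0 + g1 * v 1 := ⟨_, rfl⟩
  obtain ⟨γ, hγ⟩ : ∃ γ, γ = k0 * v 0 + k1 * v 1 := ⟨_, rfl⟩
  have m0 : ∀ u : Fin 2 → ℝ, (A0ᵀ.mulVec u) 0 = x * u 0 + c * u 1 := by
    intro u; rw [hA0]; simp [mulVec, dotProduct, Fin.sum_univ_two]
  have m1 : ∀ u : Fin 2 → ℝ, (A0ᵀ.mulVec u) 1 = b * u 0 + x * u 1 := by
    intro u; rw [hA0]; simp [mulVec, dotProduct, Fin.sum_univ_two]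
  have n0 : ∀ u : Fin 2 → ℝ, (A1ᵀ.mulVec u) 0 = y * u 0 + c' * u 1 := by
    intro u; rw [hA1]; simp [mulVec, dotProduct, Fin.sum_univ_two]
  have n1 : ∀ u : Fin 2 → ℝ, (A1ᵀ.mulVec u) 1 = b' * u 0 + y * u 1 := by
    intro u; rw [hA1]; simp [mulVec, dotProduct, Fin.sum_univ_two]
  have hT2 : ∀ u : Fin 2 → ℝ, A2ᵀ.mulVec u = A1ᵀ.mulVec (A0ᵀ.mulVec u) := by
    intro u; rw [hA2, Matrix.transpose_mul, Matrix.mulVec_mulVec]
  have R1 := hrank (A0ᵀ.mulVec v)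
  have R2 := hrank (A2ᵀ.mulVec v)
  have R3 := hrank (A0ᵀ.mulVec (A1ᵀ.mulVec (A2ᵀ.mulVec v)))
  have E1 : w0 * (A0ᵀ.mulVec v) 0 + w1 * (A0ᵀ.mulVec v) 1 = α := by
    rw [m0, m1, hα, hs0, hs1]; ring
  have E2 : w0 * (A2ᵀ.mulVec v) 0 + w1 * (A2ᵀ.mulVec v) 1 = β := by
    rw [hT2]
    simp only [m0, m1, n0, n1]
    rw [hβ, hg0, hg1, hz0, hz1]; ring
  have E3 : w0 * (A0ᵀ.mulVec (A1ᵀ.mulVec (A2ᵀ.mulVec v))) 0 +
      w1 * (A0ᵀ.mulVec (A1ᵀ.mulVec (A2ᵀ.mulVec v))) 1 = γ := by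
    rw [hT2]
    simp only [m0, m1, n0, n1]
    rw [hγ, hk0, hk1, ht0, ht1, hr0, hr1, hs0, hs1]; ring
  rw [E1] at R1
  rw [E2] at R2
  rw [E3] at R3
  have T1 := two_vec s0 s1 g0 g1 (v 0) (v 1)
  have T2 := two_vec g0 g1 k0 k1 (v 0) (v 1)
  rw [← hα, ← hβ] at T1
  rw [← hβ, ← hγ] at T2
  obtain ⟨V, hV⟩ : ∃ V, V = v 0 ^ 2 + v 1 ^ 2 := ⟨_, rfl⟩
  have hV0 : 0 ≤ V := by rw [hV]; positivity
  rw [← hV] at T1 T2 ⊢
  have T1' : (s0 * g1 - s1 * g0) ^ 2 * V ≤ (α ^ 2 + β ^ 2 + γ ^ 2) * 1000000 := by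
    refine T1.trans (mul_le_mul ?_ ?_ (by positivity) (by positivity))
    · linarith [sq_nonneg γ]
    · linarith
  have T2' : (g0 * k1 - g1 * k0) ^ 2 * V ≤ (α ^ 2 + β ^ 2 + γ ^ 2) * 1000000 := by
    refine T2.trans (mul_le_mul ?_ ?_ (by positivity) (by positivity))
    · linarith [sq_nonneg α]
    · linarith
  have hkey : ε ^ 4 * V ≤ 10000000000000 * (α ^ 2 + β ^ 2 + γ ^ 2) := by
    have := mul_le_mul_of_nonneg_right hnd hV0
    have e : 5000000 * ((s0 * g1 - s1 * g0) ^ 2 + (g0 * k1 - g1 * k0) ^ 2) * V =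
      5000000 * ((s0 * g1 - s1 * g0) ^ 2 * V) + 5000000 * ((g0 * k1 - g1 * k0) ^ 2 * V) := by ring
    rw [e] at this
    linarith
  refine le_trans ?_ q4
  refine le_trans ?_ (add_le_add (add_le_add R1 R2) R3)
  have hfin := mul_le_mul_of_nonneg_left hkey (by positivity : 0 ≤ (P1 0 0 + P1 1 1) / 20000000000000)
  calc ε ^ 4 * (P1 0 0 + P1 1 1) / 20000000000000 * V
      = (P1 0 0 + P1 1 1) / 20000000000000 * (ε ^ 4 * V) := by ring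
    _ ≤ _ := hfin
    _ = _ := by ring

private noncomputable def Kc : ℕ → ℝ
  | 0 => 3
  | 1 => 3
  | k + 2 => 2 * Kc k * Kc (k + 1)

private theorem Kc_ge (k : ℕ) : 3 ≤ Kc k ∧ 3 ≤ Kc (k + 1) := by
  induction k with
  | zero => exact ⟨le_refl _, le_refl _⟩
  | succ k ih =>
    refine ⟨ih.2, ?_⟩
    have : Kc (k + 2) = 2 * Kc k * Kc (k + 1) := rfl
    rw [this]
    nlinarith [ih.1, ih.2]

private theorem Kc_step (k : ℕ) : Kc k ≤ Kc (k + 1) := by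
  rcases k with _ | k
  · exact le_refl _
  · have h := Kc_ge k
    have : Kc (k + 2) = 2 * Kc k * Kc (k + 1) := rfl
    rw [this]
    nlinarith [h.1, h.2]

private theorem Kc_mono : Monotone Kc := monotone_nat_of_le_succ Kc_step

private noncomputable def Dc : ℝ := Kc 8

private theorem Dc_pos : 3 ≤ Dc := (Kc_ge 8).1

private noncomputable def Uc : ℕ → ℝ
  | 0 => 1296
  | 1 => 1
  | k + 2 => Uc k + 4 * Dc ^ 2 * Uc (k + 1)

private theorem Uc_nonneg (k : ℕ) : 0 ≤ Uc k ∧ 0 ≤ Uc (k + 1) := by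
  induction k with
  | zero =>
    have h0 : Uc 0 = 1296 := rfl
    have h1 : Uc 1 = 1 := rfl
    refine ⟨?_, ?_⟩
    · rw [h0]; norm_num
    · rw [h1]; norm_num
  | succ k ih =>
    refine ⟨ih.2, ?_⟩
    have : Uc (k + 2) = Uc k + 4 * Dc ^ 2 * Uc (k + 1) := rfl
    rw [this]
    exact add_nonneg ih.1 (mul_nonneg (by positivity) ih.2)

private noncomputable def Cc : ℝ :=
  1 + Dc + (∑ k ∈ Finset.range 9, Uc k) + 20000000000000 * (4 * Dc ^ 2) ^ 4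

private theorem Cc_sum : 0 ≤ ∑ k ∈ Finset.range 9, Uc k :=
  Finset.sum_nonneg fun k _ => (Uc_nonneg k).1

private theorem Cc_one : 1 ≤ Cc := by
  have h1 := Dc_pos
  have h2 := Cc_sum
  have h3 : (0 : ℝ) ≤ 20000000000000 * (4 * Dc ^ 2) ^ 4 := by positivity
  unfold Cc
  linarith

private theorem Cc_D : Dc ≤ Cc := by
  have h1 := Dc_pos
  have h2 := Cc_sum
  have h3 : (0 : ℝ) ≤ 20000000000000 * (4 * Dc ^ 2) ^ 4 := by positivity
  unfold Cc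
  linarith

private theorem Cc_U (k : ℕ) (hk : k ≤ 8) : Uc k ≤ Cc := by
  have h1 := Dc_pos
  have h2 : Uc k ≤ ∑ k ∈ Finset.range 9, Uc k :=
    Finset.single_le_sum (f := Uc) (fun k _ => (Uc_nonneg k).1) (Finset.mem_range.2 (by omega))
  have h3 : (0 : ℝ) ≤ 20000000000000 * (4 * Dc ^ 2) ^ 4 := by positivity
  unfold Cc
  linarith

private theorem Cc_L (i : ℕ) (hi : i ≤ 4) : 20000000000000 * (4 * Dc ^ 2) ^ i ≤ Cc := by
  have h1 := Dc_pos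
  have h2 := Cc_sum
  have h3 : (1 : ℝ) ≤ 4 * Dc ^ 2 := by nlinarith
  have h4 : (4 * Dc ^ 2) ^ i ≤ (4 * Dc ^ 2) ^ 4 := pow_le_pow_right₀ h3 hi
  unfold Cc
  linarith

/-- `B * A = 1`, `A P Aᵀ ≤ Q` gives `tr P ≤ 4 κ² tr Q` -/
private theorem trace_inv_le {A B P R : Matrix (Fin 2) (Fin 2) ℝ} {κ : ℝ} (hBA : B * A = 1)
    (hR : PS R) (hle : ∀ v, Qf (A * P * Aᵀ) v ≤ Qf R v) (hB : ∀ i k, |B i k| ≤ κ) :
    P.trace ≤ 4 * κ ^ 2 * R.trace := by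
  have h1 : P = B * (A * P * Aᵀ) * Bᵀ := by
    have h2 : B * (A * P * Aᵀ) * Bᵀ = (B * A) * P * (B * A)ᵀ := by
      rw [Matrix.transpose_mul]
      simp only [Matrix.mul_assoc]
    rw [h2, hBA]
    simp
  have h3 : ∀ X : Matrix (Fin 2) (Fin 2) ℝ, X.trace = Qf X ![1, 0] + Qf X ![0, 1] := by
    intro X
    rw [Qf_eq, Qf_eq, Matrix.trace_fin_two]
    simp
  have h4 : P.trace ≤ (B * R * Bᵀ).trace := by
    rw [h1, h3, h3 (B * R * Bᵀ)]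
    simp only [Qf_conj B]
    exact add_le_add (hle _) (hle _)
  exact h4.trans (trace_conj_le hR hB)

private theorem abs_adj {A : Matrix (Fin 2) (Fin 2) ℝ} {κ : ℝ} (h : ∀ i k, |A i k| ≤ κ) :
    ∀ i k, |(Matrix.adjugate A) i k| ≤ κ := by
  intro i k
  rw [Matrix.adjugate_fin_two]
  fin_cases i <;> fin_cases k
  · simpa using h 1 1
  · simpa using h 0 1
  · simpa using h 1 0
  · simpa using h 0 0

end b6aux

theorem wellCond (hP : PosProps) (hF : FrameP) : WellCond := by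
  refine ⟨Cc, Cc_one, ?_⟩
  intro n E l ε hok hlε htr hcase
  obtain ⟨hl0, hl1, hε0, hε1⟩ := hok
  obtain ⟨g, b, c, b', c', hg, hgn, hgn1, hb, hc, hb', hc', hbl, hbc, hbc'⟩ :=
    hF n E l hl0 (by linarith) (htr n (le_refl n) (by omega)) (htr (n + 1) (by omega) (by omega))
      (htr (n + 2) (by omega) (by omega))
  have hx := htr n (le_refl n) (by omega)
  have hy := htr (n + 1) (by omega) (by omega)
  obtain ⟨gi, hgi⟩ : ∃ gi, gi = Matrix.adjugate g := ⟨_, rfl⟩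
  have hggi : g * gi = 1 := by rw [hgi, Matrix.mul_adjugate, hg, one_smul]
  have hgig : gi * g = 1 := by rw [hgi, Matrix.adjugate_mul, hg, one_smul]
  obtain ⟨A, hA⟩ : ∃ A : ℕ → Matrix (Fin 2) (Fin 2) ℝ, ∀ j, A j = g * MM j E l * gi :=
    ⟨fun j => g * MM j E l * gi, fun _ => rfl⟩
  have hAg : ∀ j, g * MM j E l = A j * g := by
    intro j
    rw [hA, Matrix.mul_assoc _ gi g, hgig, Matrix.mul_one]
  have hAn : A n = !![tr n E l, b; c, tr n E l] := by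
    rw [hA, hgn, Matrix.mul_assoc, hggi, Matrix.mul_one]
  have hAn1 : A (n + 1) = !![tr (n + 1) E l, b'; c', tr (n + 1) E l] := by
    rw [hA, hgn1, Matrix.mul_assoc, hggi, Matrix.mul_one]
  have hArec : ∀ j, A (j + 2) = A j * A (j + 1) := by
    intro j
    rw [hA (j + 2), MM_add_two, ← Matrix.mul_assoc, hAg j, Matrix.mul_assoc (A j) g, hAg (j + 1)]
    rw [Matrix.mul_assoc, Matrix.mul_assoc (A (j + 1)), hggi, Matrix.mul_one]
  have hdet : ∀ j, (A j).det = 1 := by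
    intro j
    have h1 : gi.det = 1 := by
      have := congrArg Matrix.det hgig
      rwa [Matrix.det_mul, hg, mul_one, Matrix.det_one] at this
    rw [hA, Matrix.det_mul, Matrix.det_mul, hg, MM_det, h1]
    norm_num
  -- entry bounds
  have hent : ∀ k, (∀ i m, |A (n + k) i m| ≤ Kc k) ∧ (∀ i m, |A (n + (k + 1)) i m| ≤ Kc (k + 1)) := by
    intro k
    induction k with
    | zero =>
      have hK0 : Kc 0 = 3 := rfl
      have hK1 : Kc 1 = 3 := rfl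
      refine ⟨?_, ?_⟩
      · intro i m
        rw [Nat.add_zero, hAn, hK0]
        fin_cases i <;> fin_cases m
        · simpa using hx.trans (by norm_num)
        · simpa using hb
        · simpa using hc
        · simpa using hx.trans (by norm_num)
      · intro i m
        rw [Nat.zero_add, hAn1, hK1]
        fin_cases i <;> fin_cases m
        · simpa using hy.trans (by norm_num)
        · simpa using hb'
        · simpa using hc'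
        · simpa using hy.trans (by norm_num)
    | succ k ih =>
      refine ⟨ih.2, ?_⟩
      have h1 : A (n + (k + 1 + 1)) = A (n + k) * A (n + (k + 1)) := hArec (n + k)
      have h2 : Kc (k + 1 + 1) = 2 * Kc k * Kc (k + 1) := rfl
      intro i m
      rw [h1, h2]
      exact ent_mul (by linarith [(Kc_ge k).1]) ih.1 ih.2 i m
  have hentD : ∀ k, k ≤ 8 → ∀ i m, |A (n + k) i m| ≤ Dc := fun k hk i m =>
    ((hent k).1 i m).trans (Kc_mono hk)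
  -- the positive matrices
  obtain ⟨S, hS⟩ : ∃ S : ℕ → Matrix (Fin 2) (Fin 2) ℝ, ∀ j, S j = g * SS j E l * gᵀ :=
    ⟨fun j => g * SS j E l * gᵀ, fun _ => rfl⟩
  have hSrec : ∀ j, S (j + 2) = S j + A j * S (j + 1) * (A j)ᵀ := by
    intro j
    have h1 : SS (j + 2) E l = SS j E l + MM j E l * SS (j + 1) E l * (MM j E l)ᵀ := rfl
    have h2 : A j * S (j + 1) * (A j)ᵀ = (A j * g) * SS (j + 1) E l * (A j * g)ᵀ := by
      rw [hS, Matrix.transpose_mul]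
      simp only [Matrix.mul_assoc]
    rw [h2, hS (j + 2), hS j, h1, ← hAg j, Matrix.transpose_mul, Matrix.mul_add, Matrix.add_mul]
    simp only [Matrix.mul_assoc]
  have hSpsd : ∀ j, (S j).PosSemidef := by
    intro j
    rw [hS]
    have h1 := (hP j E l).1.mul_mul_conjTranspose_same g
    rwa [Matrix.conjTranspose_eq_transpose_of_trivial] at h1
  have hSPS : ∀ j, PS (S j) := fun j => PS_of (hSpsd j)
  have htrn : ∀ j, 0 ≤ (S j).trace := by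
    intro j
    rw [Matrix.trace_fin_two]
    exact add_nonneg (hSPS j).a (hSPS j).b
  have hSne : ∀ j, 1 ≤ j → S j ≠ 0 := by
    intro j hj h0
    have h1 : SS j E l = gi * S j * giᵀ := by
      rw [hS]
      have h2 : gi * (g * SS j E l * gᵀ) * giᵀ = (gi * g) * SS j E l * (gi * g)ᵀ := by
        rw [Matrix.transpose_mul]
        simp only [Matrix.mul_assoc]
      rw [h2, hgig]
      simp
    rw [h0] at h1
    exact (hP j E l).2.2.2 hj (by rw [h1]; simp)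
  have ha : 0 < (S (n + 1)).trace := by
    rcases (htrn (n + 1)).lt_or_eq with h | h
    · exact h
    · exact absurd ((hSpsd (n + 1)).trace_eq_zero_iff.1 h.symm) (hSne (n + 1) (by omega))
  obtain ⟨a, haeq⟩ : ∃ a, a = (S (n + 1)).trace := ⟨_, rfl⟩
  rw [← haeq] at ha
  -- the upper bound at level n
  have hup0 : (S n).trace ≤ 1296 * a := by
    rcases Nat.eq_zero_or_pos n with hn | hn
    · have : S n = 0 := by
        rw [hS, hn]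
        have : SS 0 E l = 0 := rfl
        rw [this]; simp
      rw [this, Matrix.trace_zero]
      linarith
    · obtain ⟨m, rfl⟩ : ∃ m, n = m + 1 := ⟨n - 1, by omega⟩
      have e1 : A (m + 1 + 1) = A m * A (m + 1) := hArec m
      have e2 : S (m + 1 + 1) = S m + A m * S (m + 1) * (A m)ᵀ := hSrec m
      have hBA : A (m + 1) * Matrix.adjugate (A (m + 1 + 1)) * A m = 1 := by
        have h1 : A m * (A (m + 1) * Matrix.adjugate (A (m + 1 + 1))) = 1 := by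
          rw [← Matrix.mul_assoc, ← e1, Matrix.mul_adjugate, hdet, one_smul]
        exact mul_eq_one_comm.1 h1
      have hB : ∀ i k, |(A (m + 1) * Matrix.adjugate (A (m + 1 + 1))) i k| ≤ 18 := by
        intro i k
        have h1 : ∀ i k, |A (m + 1) i k| ≤ 3 := fun i k => by
          have := (hent 0).1 i k
          exact this
        have h2 : ∀ i k, |A (m + 1 + 1) i k| ≤ 3 := fun i k => by
          have := (hent 0).2 i k
          exact this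
        have h3 := ent_mul (by norm_num) h1 (abs_adj h2) i k
        linarith
      have h5 := trace_inv_le (P := S (m + 1)) (R := S (m + 1 + 1)) hBA (hSPS _) (by
        intro v
        rw [e2, Qf_add]
        have := (hSPS m).n v
        linarith) hB
      rw [← haeq] at h5
      linarith
  have hUp : ∀ k, k ≤ 7 → (S (n + k)).trace ≤ Uc k * a ∧ (S (n + (k + 1))).trace ≤ Uc (k + 1) * a := by
    intro k
    induction k with
    | zero =>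
      intro _
      have hU0 : Uc 0 = 1296 := rfl
      have hU1 : Uc (0 + 1) = 1 := rfl
      refine ⟨?_, ?_⟩
      · rw [hU0]; exact hup0
      · rw [hU1, one_mul, haeq]
    | succ k ih =>
      intro hk
      have ih' := ih (by omega)
      refine ⟨ih'.2, ?_⟩
      have h1 : S (n + (k + 1 + 1)) = S (n + k) + A (n + k) * S (n + (k + 1)) * (A (n + k))ᵀ :=
        hSrec (n + k)
      have h2 : Uc (k + 1 + 1) = Uc k + 4 * Dc ^ 2 * Uc (k + 1) := rfl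
      have h3 := trace_conj_le (hSPS (n + (k + 1))) (hentD k (by omega))
      have h4 : 4 * Dc ^ 2 * (S (n + (k + 1))).trace ≤ 4 * Dc ^ 2 * (Uc (k + 1) * a) :=
        mul_le_mul_of_nonneg_left ih'.2 (by positivity)
      rw [h1, h2, Matrix.trace_add]
      calc _ ≤ Uc k * a + 4 * Dc ^ 2 * (Uc (k + 1) * a) := add_le_add ih'.1 (h3.trans h4)
        _ = _ := by ring
  have hUp' : ∀ k, k ≤ 8 → (S (n + k)).trace ≤ Cc * a := by
    intro k hk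
    have h1 : (S (n + k)).trace ≤ Uc k * a := by
      rcases Nat.lt_or_ge k 8 with h | h
      · exact (hUp k (by omega)).1
      · obtain rfl : k = 8 := by omega
        exact (hUp 7 (by omega)).2
    exact h1.trans (mul_le_mul_of_nonneg_right (Cc_U k hk) ha.le)
  -- the lower bound
  have hD := Dc_pos
  have hD0 : (0 : ℝ) < 4 * Dc ^ 2 := by positivity
  have hlow : ∀ i, i ≤ 4 → ∀ v, ε ^ 4 * a / (20000000000000 * (4 * Dc ^ 2) ^ i) *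
      (v 0 ^ 2 + v 1 ^ 2) ≤ Qf (S (n + 4 + i)) v := by
    intro i
    induction i with
    | zero =>
      intro _ v
      have h := low_four (P0 := S n) (P1 := S (n + 1)) (P2 := S (n + 2)) (P3 := S (n + 3))
        (P4 := S (n + 4)) (A0 := A n) (A1 := A (n + 1)) (A2 := A (n + 2)) (hSPS n) (hSPS (n + 1))
        hAn hAn1 (hArec n) (hSrec n) (hSrec (n + 1)) (hSrec (n + 2)) hx hy hb hc hb' hc' hbl hbc
        hbc' hε0 hε1 hcase (by rw [← haeq]; exact ha) v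
      rw [← haeq] at h
      rw [pow_zero, mul_one]
      exact h
    | succ i ih =>
      intro hi v
      have ih' := ih (by omega)
      have h1 : S (n + 4 + (i + 1)) = S (n + 3 + i) + A (n + 3 + i) * S (n + 4 + i) *
          (A (n + 3 + i))ᵀ := by
        have := hSrec (n + 3 + i)
        have e1 : n + 3 + i + 2 = n + 4 + (i + 1) := by omega
        have e2 : n + 3 + i + 1 = n + 4 + i := by omega
        rw [e1, e2] at this
        exact this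
      have hAe : ∀ p q, |A (n + 3 + i) p q| ≤ Dc := by
        intro p q
        have := hentD (3 + i) (by omega) p q
        rwa [← Nat.add_assoc] at this
      have h2 := low_conj (A := A (n + 3 + i)) (P := S (n + 4 + i)) (κ := Dc)
        (lam := ε ^ 4 * a / (20000000000000 * (4 * Dc ^ 2) ^ i)) (by positivity) (by linarith)
        (hdet _) ih' hAe v
      rw [h1, Qf_add]
      have h3 := (hSPS (n + 3 + i)).n v
      have h4 : ε ^ 4 * a / (20000000000000 * (4 * Dc ^ 2) ^ (i + 1)) =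
          ε ^ 4 * a / (20000000000000 * (4 * Dc ^ 2) ^ i) / (4 * Dc ^ 2) := by
        rw [div_div, pow_succ]
        congr 1
        ring
      rw [h4]
      linarith
  refine ⟨g, a, A, hg, ha, ⟨b, c, b', c', hAn, hAn1, hb, hc, hb', hc', hbl⟩, ?_, ?_, ?_⟩
  · intro j hj1 hj2
    obtain ⟨k, rfl⟩ : ∃ k, j = n + k := ⟨j - n, by omega⟩
    have hk : k ≤ 8 := by omega
    refine ⟨hAg _, fun i m => (hentD k hk i m).trans Cc_D, ?_⟩
    have := hUp' k hk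
    rwa [hS] at this
  · rw [haeq, hS]
  · intro j hj1 hj2 v
    obtain ⟨i, rfl⟩ : ∃ i, j = n + 4 + i := ⟨j - (n + 4), by omega⟩
    have hi : i ≤ 4 := by omega
    have h1 := hlow i hi v
    have h2 : Qf (S (n + 4 + i)) v = v ⬝ᵥ (g * SS (n + 4 + i) E l * g.transpose).mulVec v := by
      rw [Qf, hS]
    rw [← h2]
    refine le_trans ?_ h1
    refine mul_le_mul_of_nonneg_right ?_ (by positivity)
    have h3 : ε ^ 4 / Cc * a = ε ^ 4 * a / Cc := by ring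
    rw [h3]
    exact div_le_div_of_nonneg_left (by positivity) (by positivity) (Cc_L i hi)

end FIB
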