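import Pool.Agent.Helper75.FIB.Iface

/-!
# FIB block B6b : Frame2 : the frame statement with a compared to rho_n

`ND ε n E l` gives the hypotheses of `WellCond` in both cases (crude: `ε = l`; typical: `l <= ε`, `|tr| <= 1`). Keep `g, a, A` of WellCond.
(i) `rho n <= C0 a`: `x_j' = tr(S_j Ω M_j)/2 = tr(S'_j Ω A_j)/2` (`g^T Ω g = Ω`, i.e. `g M g^{-1}` and `g S g^T` : `S' Ω A = g S g^T Ω g M g^{-1} = g S Ω M g^{-1}`), entries of `S'_j` are bounded by its trace.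
(ii) lower bound: let `n+4 <= m <= n+8`, `|x_m| <= 1`. `x_m' = tr(S'_m F)/2`, `F` = symmetric part of `Ω A_m`, semidefinite (`det F = 1 - x_m^2 >= 0`), so
`|x_m'| >= (1/2) λ |tr F|` where `S'_m >= λ Id`, `λ = ε^4 a/C0`. Now `|tr F| >= ε^C`: typical case: `det F >= ε^2`, entries `<= C0` so `|tr F| >= 2 sqrt(det F) >= 2 ε`.
Crude case (`ε = l`): write `A_m = x_m + N`, `N` trace free, `F = ΩN`, `F` semidefinite so `|N entries| <= |tr F|`. The commutator of `M_m` and `M_{m+1}` (or `M_{m-1}`, which is in the window) has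
determinant `- l^2` (block B5: `det(M_m M_{m+1} - M_{m+1} M_m) = -l^2` for every `m`, identity `det(AB-BA) = 4 - (tr A)^2 - (tr B)^2 - (tr AB)^2 + tr A tr B tr AB` and `tr_inv`);
in the frame it is `[N, A_{m-1}]` whose entries are `<= C |N|`, so `l^2 <= C |N|^2`.
(iii) under `ND` there is `m` in `n+4..n+8` with `|x_m| <= 1` and `|x_m'| <= 9^6 rho n` (the recursion `trE_add_three` with `|tr j| <= 2` gives `|trE (j+3)| <= 4|trE (j+2)| + 4 |trE (j+1)| + |trE j|`).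
So `ε^C a <= rho n`. Absorb absolute constants in powers of `ε <= 1/2`.
-/

namespace FIB

open Real MeasureTheory Set Filter Topology

section h16

open Matrix

theorem adj16 {g : Matrix (Fin 2) (Fin 2) ℝ} (hg : g.det = 1) :
    g * g.adjugate = 1 ∧ g.adjugate * g = 1 := by
  rw [mul_adjugate, adjugate_mul, hg, one_smul]
  exact ⟨rfl, rfl⟩

theorem conj16 {g M A : Matrix (Fin 2) (Fin 2) ℝ} (hg : g.det = 1) (h : g * M = A * g) :
    A = g * M * g.adjugate := by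
  rw [h, Matrix.mul_assoc, (adj16 hg).1, Matrix.mul_one]

theorem det16 {g M A : Matrix (Fin 2) (Fin 2) ℝ} (hg : g.det = 1) (h : g * M = A * g) :
    A.det = M.det := by
  have := congrArg Matrix.det h
  rw [det_mul, det_mul, hg, one_mul, mul_one] at this
  exact this.symm

theorem trace16 {g M A : Matrix (Fin 2) (Fin 2) ℝ} (hg : g.det = 1) (h : g * M = A * g) :
    A.trace = M.trace := by
  rw [conj16 hg h, trace_mul_comm, ← Matrix.mul_assoc, (adj16 hg).2, Matrix.one_mul]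

theorem fr16 {g M A : Matrix (Fin 2) (Fin 2) ℝ} (hg : g.det = 1) (h : g * M = A * g)
    (S : Matrix (Fin 2) (Fin 2) ℝ) :
    (g * S * gᵀ * Om * A).trace = (S * Om * M).trace := by
  have h1 : g * S * gᵀ * Om * A = g * (S * (gᵀ * Om * g) * M) * g.adjugate := by
    rw [conj16 hg h]
    simp only [Matrix.mul_assoc]
  rw [h1, tOm g hg, trace_mul_comm, ← Matrix.mul_assoc, (adj16 hg).2, Matrix.one_mul]

theorem expand16 {S A : Matrix (Fin 2) (Fin 2) ℝ} (hS : Sᵀ = S) :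
    (S * Om * A).trace = S 0 0 * A 1 0 + S 0 1 * (A 1 1 - A 0 0) - S 1 1 * A 0 1 := by
  have h1 : S 1 0 = S 0 1 := by
    have := congrFun (congrFun hS 0) 1
    simpa [Matrix.transpose_apply] using this
  simp only [Om, Matrix.trace_fin_two, Matrix.mul_apply, Fin.sum_univ_two, Matrix.of_apply,
    Matrix.cons_val', Matrix.cons_val_zero, Matrix.cons_val_one, Matrix.cons_val_fin_one, h1]
  ring

theorem quad16 {S : Matrix (Fin 2) (Fin 2) ℝ} (hS : Sᵀ = S) (v : Fin 2 → ℝ) :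
    v ⬝ᵥ S.mulVec v = S 0 0 * v 0 ^ 2 + 2 * S 0 1 * (v 0 * v 1) + S 1 1 * v 1 ^ 2 := by
  have h1 : S 1 0 = S 0 1 := by
    have := congrFun (congrFun hS 0) 1
    simpa [Matrix.transpose_apply] using this
  simp only [Matrix.mulVec, dotProduct, Fin.sum_univ_two, h1]
  ring

/-- trace of a product of positive semidefinite matrices -/
theorem psd16 (s u t p q r : ℝ) (hQ : ∀ x y : ℝ, 0 ≤ s * x ^ 2 + 2 * u * (x * y) + t * y ^ 2)
    (hp : 0 ≤ p) (hr : 0 ≤ r) (hq : q ^ 2 ≤ p * r) : 0 ≤ s * p + 2 * u * q + t * r := by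
  have ht : 0 ≤ t := by simpa using hQ 0 1
  rcases hp.eq_or_lt with h | h
  · rw [← h] at hq ⊢
    have : q = 0 := by nlinarith [sq_nonneg q]
    rw [this]
    have := mul_nonneg ht hr
    linarith
  · have h1 := hQ p q
    have h2 : 0 ≤ t * (p * r - q ^ 2) := mul_nonneg ht (by linarith)
    have h3 : p * (s * p + 2 * u * q + t * r) =
        (s * p ^ 2 + 2 * u * (p * q) + t * q ^ 2) + t * (p * r - q ^ 2) := by ring
    by_contra hcon
    push Not at hcon
    have h4 := mul_neg_of_pos_of_neg h hcon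
    linarith

theorem low16 (s u t p q r lam : ℝ)
    (hQ : ∀ x y : ℝ, lam * (x ^ 2 + y ^ 2) ≤ s * x ^ 2 + 2 * u * (x * y) + t * y ^ 2)
    (hq : q ^ 2 ≤ p * r) : lam * |p + r| ≤ |s * p + 2 * u * q + t * r| := by
  have hQ' : ∀ x y : ℝ, 0 ≤ (s - lam) * x ^ 2 + 2 * u * (x * y) + (t - lam) * y ^ 2 := by
    intro x y
    have := hQ x y
    nlinarith
  have hpr : 0 ≤ p * r := le_trans (sq_nonneg q) hq
  rcases mul_nonneg_iff.1 hpr with ⟨hp, hr⟩ | ⟨hp, hr⟩
  · have h1 := psd16 _ _ _ p q r hQ' hp hr hq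
    rw [abs_of_nonneg (add_nonneg hp hr)]
    refine le_trans ?_ (le_abs_self _)
    nlinarith
  · have h1 := psd16 _ _ _ (-p) (-q) (-r) hQ' (by linarith) (by linarith) (by nlinarith)
    rw [abs_of_nonpos (add_nonpos hp hr)]
    refine le_trans ?_ (neg_le_abs _)
    nlinarith

theorem comm16 (A B : Matrix (Fin 2) (Fin 2) ℝ) :
    (A * B - B * A).det = 4 * A.det * B.det - B.det * A.trace ^ 2 - A.det * B.trace ^ 2
      - (A * B).trace ^ 2 + A.trace * B.trace * (A * B).trace := by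
  simp only [Matrix.det_fin_two, Matrix.trace_fin_two, Matrix.sub_apply, Matrix.mul_apply,
    Fin.sum_univ_two]
  ring

theorem commM16 (k : ℕ) (E l : ℝ) :
    (MM k E l * MM (k + 1) E l - MM (k + 1) E l * MM k E l).det = -l ^ 2 := by
  rw [comm16, MM_det, MM_det, MM_trace, MM_trace, ← MM_add_two, MM_trace]
  have := tr_inv k E l
  linear_combination (-4) * this

/-- bound of the determinant of a commutator -/
theorem commb16 (A B : Matrix (Fin 2) (Fin 2) ℝ) (C0 τ : ℝ) (hB : ∀ i k, |B i k| ≤ C0)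
    (h01 : |A 0 1| ≤ τ) (h10 : |A 1 0| ≤ τ) (hd : |A 1 1 - A 0 0| ≤ 2 * τ) (hτ : 0 ≤ τ)
    (hC : 0 ≤ C0) :
    |(B * A - A * B).det| ≤ (5 * C0 * τ) ^ 2 := by
  have e : (B * A - A * B).det = -(B 0 1 * A 1 0 - A 0 1 * B 1 0) ^ 2 -
      ((B 0 0 - B 1 1) * A 0 1 + B 0 1 * (A 1 1 - A 0 0)) *
        ((B 1 1 - B 0 0) * A 1 0 - B 1 0 * (A 1 1 - A 0 0)) := by
    simp only [Matrix.det_fin_two, Matrix.sub_apply, Matrix.mul_apply, Fin.sum_univ_two]
    ring
  have m1 : ∀ x y : ℝ, ∀ a b : ℝ, |x| ≤ a → |y| ≤ b → 0 ≤ a → |x * y| ≤ a * b := by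
    intro x y a b hx hy ha
    rw [abs_mul]
    exact mul_le_mul hx hy (abs_nonneg _) ha
  have a1 : |B 0 1 * A 1 0| ≤ C0 * τ := m1 _ _ _ _ (hB 0 1) h10 hC
  have a2 : |A 0 1 * B 1 0| ≤ τ * C0 := m1 _ _ _ _ h01 (hB 1 0) hτ
  have a3 : |B 0 1 * A 1 0 - A 0 1 * B 1 0| ≤ 2 * (C0 * τ) := by
    have := abs_sub (B 0 1 * A 1 0) (A 0 1 * B 1 0)
    linarith
  have b0 : |B 0 0 - B 1 1| ≤ 2 * C0 := by
    have := abs_sub (B 0 0) (B 1 1)
    have := hB 0 0
    have := hB 1 1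
    linarith
  have b0' : |B 1 1 - B 0 0| ≤ 2 * C0 := by rwa [abs_sub_comm]
  have b1 : |(B 0 0 - B 1 1) * A 0 1| ≤ (2 * C0) * τ := m1 _ _ _ _ b0 h01 (by linarith)
  have b2 : |B 0 1 * (A 1 1 - A 0 0)| ≤ C0 * (2 * τ) := m1 _ _ _ _ (hB 0 1) hd hC
  have b3 : |(B 0 0 - B 1 1) * A 0 1 + B 0 1 * (A 1 1 - A 0 0)| ≤ 4 * (C0 * τ) := by
    have := abs_add_le ((B 0 0 - B 1 1) * A 0 1) (B 0 1 * (A 1 1 - A 0 0))
    linarith
  have c1 : |(B 1 1 - B 0 0) * A 1 0| ≤ (2 * C0) * τ := m1 _ _ _ _ b0' h10 (by linarith)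
  have c2 : |B 1 0 * (A 1 1 - A 0 0)| ≤ C0 * (2 * τ) := m1 _ _ _ _ (hB 1 0) hd hC
  have c3 : |(B 1 1 - B 0 0) * A 1 0 - B 1 0 * (A 1 1 - A 0 0)| ≤ 4 * (C0 * τ) := by
    have := abs_sub ((B 1 1 - B 0 0) * A 1 0) (B 1 0 * (A 1 1 - A 0 0))
    linarith
  have hCt : 0 ≤ C0 * τ := mul_nonneg hC hτ
  have d1 : |(B 0 1 * A 1 0 - A 0 1 * B 1 0) ^ 2| ≤ (2 * (C0 * τ)) ^ 2 := by
    rw [abs_pow]
    exact pow_le_pow_left₀ (abs_nonneg _) a3 2
  have d2 : |((B 0 0 - B 1 1) * A 0 1 + B 0 1 * (A 1 1 - A 0 0)) *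
        ((B 1 1 - B 0 0) * A 1 0 - B 1 0 * (A 1 1 - A 0 0))| ≤ (4 * (C0 * τ)) * (4 * (C0 * τ)) :=
    m1 _ _ _ _ b3 c3 (by linarith)
  rw [e]
  have d3 := abs_sub (-(B 0 1 * A 1 0 - A 0 1 * B 1 0) ^ 2)
    (((B 0 0 - B 1 1) * A 0 1 + B 0 1 * (A 1 1 - A 0 0)) *
        ((B 1 1 - B 0 0) * A 1 0 - B 1 0 * (A 1 1 - A 0 0)))
  rw [abs_neg] at d3
  nlinarith [mul_nonneg hCt hCt]

theorem rho16 (j : ℕ) (E l : ℝ) (h1 : |tr (j + 1) E l| ≤ 2) (h2 : |tr (j + 2) E l| ≤ 2) :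
    rho (j + 1) E l ≤ 9 * rho j E l := by
  have a0 : |trE j E l| ≤ rho j E l := le_max_left _ _
  have a1 : |trE (j + 1) E l| ≤ rho j E l := le_trans (le_max_left _ _) (le_max_right _ _)
  have a2 : |trE (j + 2) E l| ≤ rho j E l := le_trans (le_max_right _ _) (le_max_right _ _)
  have hr : 0 ≤ rho j E l := le_trans (abs_nonneg _) a0
  have b1 : |trE (j + 2) E l * tr (j + 1) E l| ≤ rho j E l * 2 := by
    rw [abs_mul]
    exact mul_le_mul a2 h1 (abs_nonneg _) hr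
  have b2 : |tr (j + 2) E l * trE (j + 1) E l| ≤ 2 * rho j E l := by
    rw [abs_mul]
    exact mul_le_mul h2 a1 (abs_nonneg _) (by norm_num)
  have a3 : |trE (j + 3) E l| ≤ 9 * rho j E l := by
    rw [trE_add_three]
    have c1 := abs_sub (2 * (trE (j + 2) E l * tr (j + 1) E l + tr (j + 2) E l * trE (j + 1) E l))
      (trE j E l)
    have c2 := abs_add_le (trE (j + 2) E l * tr (j + 1) E l) (tr (j + 2) E l * trE (j + 1) E l)
    rw [abs_mul 2, abs_two] at c1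
    linarith
  unfold rho
  refine max_le (by unfold rho at *; linarith) (max_le (by unfold rho at *; linarith) ?_)
  exact a3

theorem rhok16 (n : ℕ) (E l : ℝ) (h : ∀ j, n ≤ j → j ≤ n + 8 → |tr j E l| ≤ 2) (k : ℕ)
    (hk : k ≤ 6) : rho (n + k) E l ≤ 9 ^ k * rho n E l := by
  induction k with
  | zero => simp
  | succ k ih =>
    have h1 := ih (by omega)
    have h2 := rho16 (n + k) E l (h _ (by omega) (by omega)) (h _ (by omega) (by omega))
    rw [pow_succ]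
    have : rho (n + (k + 1)) E l = rho (n + k + 1) E l := rfl
    rw [this]
    linarith

theorem rhom16 (n : ℕ) (E l : ℝ) (h : ∀ j, n ≤ j → j ≤ n + 8 → |tr j E l| ≤ 2) (m : ℕ)
    (hm : n + 4 ≤ m) (hm' : m ≤ n + 8) : |trE m E l| ≤ 9 ^ 6 * rho n E l := by
  obtain ⟨k, rfl⟩ : ∃ k, m = n + k + 2 := ⟨m - n - 2, by omega⟩
  have h0 : 0 ≤ rho n E l := le_trans (abs_nonneg _) (le_max_left _ _)
  have h1 : |trE (n + k + 2) E l| ≤ rho (n + k) E l :=
    le_trans (le_max_right _ _) (le_max_right _ _)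
  have h2 := rhok16 n E l h k (by omega)
  have h3 : (9 : ℝ) ^ k ≤ 9 ^ 6 := pow_le_pow_right₀ (by norm_num) (by omega)
  have h4 : (9 : ℝ) ^ k * rho n E l ≤ 9 ^ 6 * rho n E l := mul_le_mul_of_nonneg_right h3 h0
  linarith

end h16

theorem frame2 (hP : PosProps) (hW : WellCond) : Frame2 := by
  obtain ⟨C0, hC0, hW⟩ := hW
  have hC00 : 0 < C0 := by linarith
  obtain ⟨k, hk⟩ := pow_unbounded_of_one_lt (10 * C0 ^ 2 * 9 ^ 6) (one_lt_two (α := ℝ))
  refine ⟨C0 ^ 2, k + 5, one_le_pow₀ hC0, ?_⟩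
  intro n E l ε hok hND
  obtain ⟨hl0, hl8, hε0, hε2⟩ := hok
  have hle : l ≤ ε := by
    rcases hND with ⟨h, -⟩ | ⟨h, -⟩
    · exact h.ge
    · exact h
  have htr : ∀ j, n ≤ j → j ≤ n + 8 → |tr j E l| ≤ 2 := by
    intro j h1 h2
    rcases hND with ⟨-, h⟩ | ⟨-, h⟩
    · exact h.1 j h1 h2
    · have h3 := h j h1 h2
      have h4 : tr j E l ^ 2 ≤ 1 := by nlinarith [sq_nonneg ε]
      have h5 := (sq_le_one_iff_abs_le_one _).1 h4
      linarith
  have hcase : ε = l ∨ ε ^ 2 ≤ 1 - tr n E l ^ 2 := by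
    rcases hND with ⟨h, -⟩ | ⟨-, h⟩
    · exact Or.inl h
    · exact Or.inr (h n le_rfl (by omega))
  obtain ⟨g, a, A, hg, ha, hfrm, hA, htra, hlow⟩ :=
    hW n E l ε ⟨hl0, hl8, hε0, hε2⟩ hle htr hcase
  have hC2 : C0 ≤ C0 ^ 2 := by nlinarith
  -- symmetric
  have hsym : ∀ j, (g * SS j E l * g.transpose).transpose = g * SS j E l * g.transpose := by
    intro j
    rw [Matrix.transpose_mul, Matrix.transpose_mul, Matrix.transpose_transpose, SS_symm,
      Matrix.mul_assoc]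
  -- the derivative in the frame
  have hder : ∀ j, n ≤ j → j ≤ n + 8 → 2 * trE j E l =
      (g * SS j E l * g.transpose) 0 0 * (A j) 1 0 +
      (g * SS j E l * g.transpose) 0 1 * ((A j) 1 1 - (A j) 0 0) -
      (g * SS j E l * g.transpose) 1 1 * (A j) 0 1 := by
    intro j h1 h2
    rw [← expand16 (hsym j), fr16 hg (hA j h1 h2).1, trE_eq]
    ring
  have hdet : ∀ j, n ≤ j → j ≤ n + 8 → (A j).det = 1 := by
    intro j h1 h2
    rw [det16 hg (hA j h1 h2).1, MM_det]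
  have htrA : ∀ j, n ≤ j → j ≤ n + 8 → (A j).trace = 2 * tr j E l := by
    intro j h1 h2
    rw [trace16 hg (hA j h1 h2).1, MM_trace]
  -- (i) upper bound
  have hup : ∀ j, n ≤ j → j ≤ n + 8 → |trE j E l| ≤ C0 ^ 2 * a := by
    intro j h1 h2
    have hQ : ∀ v : Fin 2 → ℝ, 0 ≤ (g * SS j E l * g.transpose) 0 0 * v 0 ^ 2 +
        2 * (g * SS j E l * g.transpose) 0 1 * (v 0 * v 1) +
        (g * SS j E l * g.transpose) 1 1 * v 1 ^ 2 := by
      intro v
      rw [← quad16 (hsym j)]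
      have h3 : (g * SS j E l * g.transpose).PosSemidef := by
        have := (hP j E l).1.mul_mul_conjTranspose_same g
        simpa using this
      have := h3.dotProduct_mulVec_nonneg v
      simpa using this
    have htr' := (hA j h1 h2).2.2
    rw [Matrix.trace_fin_two] at htr'
    have hb := (hA j h1 h2).2.1
    have hd := hder j h1 h2
    generalize (g * SS j E l * g.transpose) = S' at *
    have q1 : 0 ≤ S' 0 0 := by simpa using hQ ![1, 0]
    have q2 : 0 ≤ S' 1 1 := by simpa using hQ ![0, 1]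
    have q3 : 0 ≤ S' 0 0 + 2 * S' 0 1 + S' 1 1 := by
      have := hQ ![1, 1]
      simp at this
      linarith
    have q4 : 0 ≤ S' 0 0 - 2 * S' 0 1 + S' 1 1 := by
      have := hQ ![1, -1]
      simp at this
      linarith
    have q5 : |S' 0 1| ≤ C0 * a / 2 := by
      rw [abs_le]
      constructor <;> linarith
    have r1 : |S' 0 0 * A j 1 0| ≤ S' 0 0 * C0 := by
      rw [abs_mul, abs_of_nonneg q1]
      exact mul_le_mul_of_nonneg_left (hb 1 0) q1
    have r2 : |S' 1 1 * A j 0 1| ≤ S' 1 1 * C0 := by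
      rw [abs_mul, abs_of_nonneg q2]
      exact mul_le_mul_of_nonneg_left (hb 0 1) q2
    have r3 : |S' 0 1 * (A j 1 1 - A j 0 0)| ≤ C0 * a / 2 * (2 * C0) := by
      rw [abs_mul]
      have := abs_sub (A j 1 1) (A j 0 0)
      exact mul_le_mul q5 (by linarith [hb 1 1, hb 0 0]) (abs_nonneg _) (by positivity)
    have r4 : |2 * trE j E l| ≤ S' 0 0 * C0 + C0 * a / 2 * (2 * C0) + S' 1 1 * C0 := by
      rw [hd]
      have s1 := abs_sub (S' 0 0 * A j 1 0 + S' 0 1 * (A j 1 1 - A j 0 0)) (S' 1 1 * A j 0 1)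
      have s2 := abs_add_le (S' 0 0 * A j 1 0) (S' 0 1 * (A j 1 1 - A j 0 0))
      linarith
    rw [abs_mul, abs_two] at r4
    nlinarith
  -- (ii) lower bound
  have hlo : ∀ m, n + 4 ≤ m → m ≤ n + 8 → |tr m E l| ≤ 1 →
      ε ^ 5 * a / (10 * C0 ^ 2) ≤ |trE m E l| := by
    intro m h1 h2 hx
    have hdm := hdet m (by omega) h2
    have htm := htrA m (by omega) h2
    rw [Matrix.det_fin_two] at hdm
    rw [Matrix.trace_fin_two] at htm
    have hx2 : tr m E l ^ 2 ≤ 1 := (sq_le_one_iff_abs_le_one _).2 hx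
    set p : ℝ := (A m) 1 0 with hp
    set q : ℝ := ((A m) 1 1 - (A m) 0 0) / 2 with hq
    set r : ℝ := -(A m) 0 1 with hr
    have hpr : p * r - q ^ 2 = 1 - tr m E l ^ 2 := by
      rw [hp, hq, hr]
      have : tr m E l = ((A m) 0 0 + (A m) 1 1) / 2 := by linarith
      rw [this]
      linear_combination hdm
    have hqpr : q ^ 2 ≤ p * r := by linarith
    set τ : ℝ := |p + r| with hτ
    have hτ0 : 0 ≤ τ := abs_nonneg _
    have hτ2 : τ ^ 2 = (p + r) ^ 2 := sq_abs _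
    have hprn : 0 ≤ p * r := le_trans (sq_nonneg q) hqpr
    have hpτ : |p| ≤ τ := by
      rw [← abs_of_nonneg hτ0]
      exact sq_le_sq.1 (by rw [hτ2]; nlinarith [sq_nonneg r])
    have hrτ : |r| ≤ τ := by
      rw [← abs_of_nonneg hτ0]
      exact sq_le_sq.1 (by rw [hτ2]; nlinarith [sq_nonneg p])
    have hqτ : |q| ≤ τ := by
      rw [← abs_of_nonneg hτ0]
      exact sq_le_sq.1 (by rw [hτ2]; nlinarith [sq_nonneg (p - r), sq_nonneg p, sq_nonneg r])
    -- `ε ≤ 5 C0 τ`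
    have hετ : ε ≤ 5 * C0 * τ := by
      rcases hND with ⟨hεl, hCr⟩ | ⟨-, hTy⟩
      · obtain ⟨j, rfl⟩ : ∃ j, m = j + 1 := ⟨m - 1, by omega⟩
        have hgK : g * (MM j E l * MM (j + 1) E l - MM (j + 1) E l * MM j E l) =
            (A j * A (j + 1) - A (j + 1) * A j) * g := by
          have e1 := (hA j (by omega) (by omega)).1
          have e2 := (hA (j + 1) (by omega) h2).1
          rw [Matrix.mul_sub, Matrix.sub_mul, ← Matrix.mul_assoc, ← Matrix.mul_assoc, e1, e2,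
            Matrix.mul_assoc, Matrix.mul_assoc, e1, e2, Matrix.mul_assoc, Matrix.mul_assoc]
        have hK := det16 hg hgK
        rw [commM16] at hK
        have hb := commb16 (A (j + 1)) (A j) C0 τ (hA j (by omega) (by omega)).2.1
          (by rw [hr, abs_neg] at hrτ; exact hrτ) hpτ
          (by
            have : (A (j + 1)) 1 1 - (A (j + 1)) 0 0 = 2 * q := by rw [hq]; ring
            rw [this, abs_mul, abs_two]
            linarith) hτ0 hC00.le
        rw [hK, abs_neg, abs_pow, abs_of_pos hl0] at hb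
        rw [hεl]
        exact le_of_sq_le_sq hb (by positivity)
      · have h3 := hTy m (by omega) h2
        have h4 : ε ^ 2 ≤ τ ^ 2 := by
          rw [hτ2]
          nlinarith [sq_nonneg (p - r), sq_nonneg q]
        have h5 : ε ≤ τ := le_of_sq_le_sq h4 hτ0
        nlinarith
    have hl := low16 ((g * SS m E l * g.transpose) 0 0) ((g * SS m E l * g.transpose) 0 1)
      ((g * SS m E l * g.transpose) 1 1) p q r (ε ^ 4 / C0 * a) (by
        intro x y
        have := hlow m h1 h2 ![x, y]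
        rw [quad16 (hsym m)] at this
        simpa using this) hqpr
    have hd := hder m (by omega) h2
    have h6 : 2 * trE m E l = (g * SS m E l * g.transpose) 0 0 * p +
        2 * (g * SS m E l * g.transpose) 0 1 * q + (g * SS m E l * g.transpose) 1 1 * r := by
      rw [hd, hp, hq, hr]; ring
    rw [← h6, abs_mul, abs_two, ← hτ] at hl
    have h7 : ε ^ 4 / C0 * a * (ε / (5 * C0)) ≤ ε ^ 4 / C0 * a * τ := by
      refine mul_le_mul_of_nonneg_left ?_ (by positivity)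
      rw [div_le_iff₀ (by positivity)]
      linarith
    have h8 : ε ^ 4 / C0 * a * (ε / (5 * C0)) = 2 * (ε ^ 5 * a / (10 * C0 ^ 2)) := by
      field_simp
      ring
    linarith
  have hεk : ε ^ k * (10 * C0 ^ 2 * 9 ^ 6) ≤ 1 := by
    have h1 : ε ^ k ≤ (1 / 2) ^ k := pow_le_pow_left₀ hε0.le hε2 k
    have h2 : ((1 : ℝ) / 2) ^ k * 2 ^ k = 1 := by
      rw [← mul_pow]; norm_num
    calc ε ^ k * (10 * C0 ^ 2 * 9 ^ 6) ≤ (1 / 2) ^ k * 2 ^ k :=
          mul_le_mul h1 hk.le (by positivity) (by positivity)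
      _ = 1 := h2
  have hfin : ε ^ (k + 5) * a ≤ ε ^ 5 * a / (10 * C0 ^ 2) / 9 ^ 6 := by
    rw [le_div_iff₀ (by positivity), le_div_iff₀ (by positivity)]
    have : ε ^ (k + 5) * a * 9 ^ 6 * (10 * C0 ^ 2) = ε ^ 5 * a * (ε ^ k * (10 * C0 ^ 2 * 9 ^ 6)) := by
      rw [pow_add]; ring
    rw [this]
    exact mul_le_of_le_one_right (by positivity) hεk
  have hfin' : ε ^ (k + 5) * a ≤ ε ^ 5 * a / (10 * C0 ^ 2) := by
    refine hfin.trans (div_le_self (by positivity) (by norm_num))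
  refine ⟨g, a, A, hg, ha, hfrm, ?_, htra, ?_, ?_, ?_, ?_⟩
  · intro j h1 h2
    obtain ⟨e1, e2, e3⟩ := hA j h1 h2
    exact ⟨e1, fun i k => (e2 i k).trans hC2, e3.trans (mul_le_mul_of_nonneg_right hC2 ha.le)⟩
  · intro j h1 h2 v
    refine le_trans ?_ (hlow j h1 h2 v)
    have h3 : ε ^ 4 / C0 ^ 2 ≤ ε ^ 4 / C0 :=
      div_le_div_of_nonneg_left (by positivity) hC00 hC2
    have h4 : 0 ≤ a * (v 0 ^ 2 + v 1 ^ 2) := by positivity
    have := mul_le_mul_of_nonneg_right h3 h4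
    linarith
  · exact max_le (hup n le_rfl (by omega))
      (max_le (hup (n + 1) (by omega) (by omega)) (hup (n + 2) (by omega) (by omega)))
  · obtain ⟨m, h1, h2, h3⟩ : ∃ m, n + 4 ≤ m ∧ m ≤ n + 8 ∧ |tr m E l| ≤ 1 := by
      rcases hND with ⟨-, h⟩ | ⟨-, h⟩
      · exact h.2
      · refine ⟨n + 4, le_rfl, by omega, ?_⟩
        have h4 := h (n + 4) (by omega) (by omega)
        exact (sq_le_one_iff_abs_le_one _).1 (by nlinarith [sq_nonneg ε])
    have h4 := hlo m h1 h2 h3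
    have h5 := rhom16 n E l htr m h1 h2
    refine hfin.trans ?_
    rw [div_le_iff₀ (by positivity)]
    linarith
  · intro m h1 h2 h3
    exact hfin'.trans (hlo m h1 h2 h3)

end FIB
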