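import Pool.Agent.Helper75.FIB.Iface

/-!
# FIB block B7 : frame free lower bounds

From `Frame2`: `det S_j = det S'_j`. `S'_{n+4} >= λ Id`, `λ = ε^4 a/C0`, so `sqrt det >= λ >= ε^C rho n` (`rho n <= C0 a`). `2 sqrt(det S_{n+1}) <= tr S'_{n+1} = a <= ε^{-C} rho n`.
`0 < rho n` from `ε^C a <= rho n`. Last item: `ε^C rho n <= ε^C C0 a <= ...`. Absorb constants (`ε <= 1/2`).
-/

namespace FIB

open Real MeasureTheory Set Filter Topology

/-- a symmetric 2x2 form bounded below by `m` has determinant at least `m ^ 2` -/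
theorem B7_det_ge (S : Matrix (Fin 2) (Fin 2) ℝ) (hS : S.transpose = S) (m : ℝ) (hm : 0 ≤ m)
    (h : ∀ v : Fin 2 → ℝ, m * (v 0 ^ 2 + v 1 ^ 2) ≤ dotProduct v (S.mulVec v)) :
    m ^ 2 ≤ S.det := by
  have hq : S 1 0 = S 0 1 := by
    have := congrFun (congrFun hS 0) 1
    simpa [Matrix.transpose_apply] using this
  have hv : ∀ x y : ℝ, m * (x ^ 2 + y ^ 2) ≤ S 0 0 * x ^ 2 + 2 * S 0 1 * x * y + S 1 1 * y ^ 2 := by
    intro x y
    have := h ![x, y]
    simp only [dotProduct, Matrix.mulVec, Fin.sum_univ_two, Matrix.cons_val_zero,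
      Matrix.cons_val_one] at this
    rw [hq] at this
    nlinarith
  have hp : m ≤ S 0 0 := by
    have := hv 1 0; nlinarith
  have hr : m ≤ S 1 1 := by
    have := hv 0 1; nlinarith
  have hdisc : S 0 1 ^ 2 ≤ (S 0 0 - m) * (S 1 1 - m) := by
    rcases eq_or_lt_of_le hr with hr0 | hr0
    · -- S 1 1 = m : then S 0 1 = 0
      have h0 : S 0 1 = 0 := by
        by_contra hne
        have h1 := hv (-(S 0 1)) ((S 0 0 - m) / 2 + 1)
        have h2 : 0 < S 0 1 ^ 2 := by positivity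
        rw [← hr0] at h1
        nlinarith
      rw [h0, ← hr0]; simp
    · have h1 := hv (-(S 1 1 - m)) (S 0 1)
      have h2 : 0 ≤ (S 1 1 - m) * ((S 0 0 - m) * (S 1 1 - m) - S 0 1 ^ 2) := by nlinarith
      have h3 : 0 < S 1 1 - m := sub_pos.2 hr0
      have h4 : 0 ≤ (S 0 0 - m) * (S 1 1 - m) - S 0 1 ^ 2 := by
        by_contra hcon
        push Not at hcon
        have := mul_neg_of_pos_of_neg h3 hcon
        linarith
      linarith
  rw [Matrix.det_fin_two, hq]
  nlinarith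

theorem B7_conj_det (g S : Matrix (Fin 2) (Fin 2) ℝ) (hg : g.det = 1) :
    (g * S * g.transpose).det = S.det := by
  rw [Matrix.det_mul, Matrix.det_mul, Matrix.det_transpose, hg, one_mul, mul_one]

theorem detRho (hP : PosProps) (h : Frame2) : DetRho := by
  obtain ⟨C0, C, hC0, H⟩ := h
  obtain ⟨k, hk⟩ := pow_unbounded_of_one_lt (C0 ^ 2) (one_lt_two)
  have hC0pos : (0 : ℝ) < C0 := lt_of_lt_of_le one_pos hC0
  refine ⟨C + 4 + k, ?_⟩
  intro n E l ε hok hnd
  obtain ⟨g, a, A, hg, ha, -, -, htr, hlow, hrho1, hrho2, hm⟩ := H n E l ε hok hnd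
  obtain ⟨hl0, hl1, he0, he1⟩ := hok
  have he1' : ε ≤ 1 := by linarith
  have hek : ε ^ k * C0 ^ 2 ≤ 1 := by
    have h1 : ε ^ k ≤ (1 / 2) ^ k := pow_le_pow_left₀ he0.le he1 k
    have h2 : (1 / 2 : ℝ) ^ k * 2 ^ k = 1 := by
      rw [← mul_pow]; norm_num
    have h3 : (0 : ℝ) < (1 / 2) ^ k := by positivity
    calc ε ^ k * C0 ^ 2 ≤ (1 / 2) ^ k * C0 ^ 2 := mul_le_mul_of_nonneg_right h1 (by positivity)
      _ ≤ (1 / 2) ^ k * 2 ^ k := mul_le_mul_of_nonneg_left hk.le h3.le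
      _ = 1 := h2
  have hek1 : ε ^ k * C0 ≤ 1 := by
    have h1 : 0 < ε ^ k := pow_pos he0 k
    nlinarith
  have hek0 : ε ^ k ≤ 1 := pow_le_one₀ he0.le he1'
  have hrho0 : 0 < rho n E l := lt_of_lt_of_le (mul_pos (pow_pos he0 C) ha) hrho2
  have hpC : 0 < ε ^ C := pow_pos he0 C
  have hpC1 : ε ^ C ≤ 1 := pow_le_one₀ he0.le he1'
  have hp4 : 0 < ε ^ 4 := pow_pos he0 4
  have hp41 : ε ^ 4 ≤ 1 := pow_le_one₀ he0.le he1'
  have hpk : 0 < ε ^ k := pow_pos he0 k
  have hsplit : ε ^ (C + 4 + k) = ε ^ C * ε ^ 4 * ε ^ k := by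
    rw [pow_add, pow_add]
  refine ⟨?_, ?_, hrho0, ?_⟩
  · -- lower bound of the determinant
    have hsym : (g * SS (n + 4) E l * g.transpose).transpose = g * SS (n + 4) E l * g.transpose := by
      rw [Matrix.transpose_mul, Matrix.transpose_mul, Matrix.transpose_transpose, SS_symm,
        Matrix.mul_assoc]
    have h1 := B7_det_ge _ hsym (ε ^ 4 / C0 * a) (by positivity) (hlow (n + 4) le_rfl (by omega))
    rw [B7_conj_det g _ hg] at h1
    have h2 : ε ^ 4 / C0 * a ≤ √(SS (n + 4) E l).det := Real.le_sqrt_of_sq_le h1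
    refine le_trans ?_ h2
    have h3 : ε ^ (C + 4 + k) * rho n E l ≤ ε ^ (C + 4 + k) * (C0 * a) :=
      mul_le_mul_of_nonneg_left hrho1 (by positivity)
    refine h3.trans ?_
    rw [hsplit, div_mul_eq_mul_div, le_div_iff₀ hC0pos]
    have h4 : ε ^ C * (ε ^ k * C0 ^ 2) ≤ 1 := by
      calc ε ^ C * (ε ^ k * C0 ^ 2) ≤ 1 * 1 :=
            mul_le_mul hpC1 hek (by positivity) zero_le_one
        _ = 1 := one_mul 1
    calc ε ^ C * ε ^ 4 * ε ^ k * (C0 * a) * C0 = (ε ^ C * (ε ^ k * C0 ^ 2)) * (ε ^ 4 * a) := by ring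
      _ ≤ 1 * (ε ^ 4 * a) := mul_le_mul_of_nonneg_right h4 (by positivity)
      _ = ε ^ 4 * a := one_mul _
  · -- upper bound of the determinant
    have h1 : (SS (n + 1) E l).det ≤ (a / 2) ^ 2 := by
      rw [← B7_conj_det g _ hg]
      have hsym : (g * SS (n + 1) E l * g.transpose).transpose = g * SS (n + 1) E l * g.transpose := by
        rw [Matrix.transpose_mul, Matrix.transpose_mul, Matrix.transpose_transpose, SS_symm,
          Matrix.mul_assoc]
      set S := g * SS (n + 1) E l * g.transpose with hSdef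
      have hq : S 1 0 = S 0 1 := by
        have := congrFun (congrFun hsym 0) 1
        simpa [Matrix.transpose_apply] using this
      rw [Matrix.trace_fin_two] at htr
      rw [Matrix.det_fin_two, hq, ← htr]
      nlinarith [sq_nonneg (S 0 0 - S 1 1), sq_nonneg (S 0 1)]
    have h2 : √(SS (n + 1) E l).det ≤ a / 2 := by
      rw [Real.sqrt_le_left (by positivity)]
      exact h1
    calc ε ^ (C + 4 + k) * √(SS (n + 1) E l).det ≤ ε ^ (C + 4 + k) * a :=
          mul_le_mul_of_nonneg_left (by linarith) (by positivity)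
      _ ≤ ε ^ C * a := by
          apply mul_le_mul_of_nonneg_right _ ha.le
          rw [hsplit]
          calc ε ^ C * ε ^ 4 * ε ^ k ≤ ε ^ C * 1 * 1 :=
                mul_le_mul (mul_le_mul_of_nonneg_left hp41 hpC.le) hek0 hpk.le (by positivity)
            _ = ε ^ C := by ring
      _ ≤ rho n E l := hrho2
  · intro m hm1 hm2 hm3
    refine le_trans ?_ (hm m hm1 hm2 hm3)
    calc ε ^ (C + 4 + k) * rho n E l ≤ ε ^ (C + 4 + k) * (C0 * a) :=
          mul_le_mul_of_nonneg_left hrho1 (by positivity)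
      _ = (ε ^ 4 * (ε ^ k * C0)) * (ε ^ C * a) := by rw [hsplit]; ring
      _ ≤ 1 * (ε ^ C * a) := by
          apply mul_le_mul_of_nonneg_right _ (by positivity)
          calc ε ^ 4 * (ε ^ k * C0) ≤ 1 * 1 := mul_le_mul hp41 hek1 (by positivity) zero_le_one
            _ = 1 := one_mul 1
      _ = ε ^ C * a := one_mul _

end FIB
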