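import Pool.Agent.Helper75.FIB.Iface

/-!
# FIB block B8 : Lipschitz bounds on a complex polydisc

Let `P_j = M_j(E+z,l+w) M_j(E,l)^{-1}` (complex 2x2, `M^{-1}` = adjugate). `P_1 = 1 + z e1 e1^T Ω`, `P_2 = 1 + (z - w) e1 e1^T Ω`, `P_0 = 1 - w e1 e1^TΩ` (not needed) and
`P_{j+2} = P_j (M_j P_{j+1} M_j^{-1})` (real `M_j = M_j(E,l)`). CLAIM: for every real `g` with `det g = 1` and every `j >= 1`:
`|| g P_j g^{-1} - 1 || <= exp((|z|+|w|) tr(g S_j g^T)) - 1`, `||.||` a submultiplicative norm with `||u u^T Ω|| = |u|^2` (`l^2` operator norm or Frobenius norm). Proof by induction (two steps):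
`j = 1`: `g e1 e1^T Ω g^{-1} = (g e1)(g e1)^T Ω` because `Ω g^{-1} = g^T Ω`. Step: `|| g M_j P_{j+1} M_j^{-1} g^{-1} - 1 ||` is the claim for `j+1` in the frame `g M_j`;
`||X Y - 1|| <= (1+||X-1||)(1+||Y-1||) - 1`, and the traces add up by `SS (j+2) = SS j + M_j SS (j+1) M_j^T`. (For `j = 0`: `SS 0 = 0` but `P_0 ≠ 1` if `w ≠ 0`; so start at `j = 1, 2`.)
Now use the frame of `Frame2` at level `n`: `tr(g S_j g^T) <= C0 a` and `A_j = g M_j g^{-1}` has entries `<= C0` for `n <= j <= n+8`: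
`2 |x_j(E+z,l+w) - x_j(E,l)| = |tr((gP_jg^{-1} - 1) A_j)| <= C (exp(s) - 1) <= 2 C s` for `s = (|z|+|w|) C0 a <= 1`. Finally `a <= ε^{-C} rho n`.
The levels `j = 0` (if `n = 0`): `tr 0 = 1`, nothing to prove.

(Proved with the sum of the absolute values of the entries as norm, which gives `exp(2(|z|+|w|) tr(g S_j g^T)) - 1`.)
-/

namespace FIB

open Real MeasureTheory Set Filter Topology

namespace B8

open Matrix

abbrev MC := Matrix (Fin 2) (Fin 2) ℂ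

/-- sum of the absolute values of the entries -/
noncomputable def nm (X : MC) : ℝ := ‖X 0 0‖ + ‖X 0 1‖ + ‖X 1 0‖ + ‖X 1 1‖

theorem nm_nonneg (X : MC) : 0 ≤ nm X := by unfold nm; positivity

theorem nm_add (X Y : MC) : nm (X + Y) ≤ nm X + nm Y := by
  unfold nm
  simp only [Matrix.add_apply]
  have h1 := norm_add_le (X 0 0) (Y 0 0)
  have h2 := norm_add_le (X 0 1) (Y 0 1)
  have h3 := norm_add_le (X 1 0) (Y 1 0)
  have h4 := norm_add_le (X 1 1) (Y 1 1)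
  linarith

theorem entry_mul (X Y : MC) (i j : Fin 2) :
    ‖(X * Y) i j‖ ≤ ‖X i 0‖ * ‖Y 0 j‖ + ‖X i 1‖ * ‖Y 1 j‖ := by
  rw [Matrix.mul_apply, Fin.sum_univ_two]
  refine (norm_add_le _ _).trans ?_
  rw [norm_mul, norm_mul]

theorem nm_mul (X Y : MC) : nm (X * Y) ≤ nm X * nm Y := by
  have h1 := entry_mul X Y 0 0
  have h2 := entry_mul X Y 0 1
  have h3 := entry_mul X Y 1 0
  have h4 := entry_mul X Y 1 1
  unfold nm
  have a1 : 0 ≤ ‖X 0 0‖ * (‖Y 1 0‖ + ‖Y 1 1‖) := by positivity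
  have a2 : 0 ≤ ‖X 0 1‖ * (‖Y 0 0‖ + ‖Y 0 1‖) := by positivity
  have a3 : 0 ≤ ‖X 1 0‖ * (‖Y 1 0‖ + ‖Y 1 1‖) := by positivity
  have a4 : 0 ≤ ‖X 1 1‖ * (‖Y 0 0‖ + ‖Y 0 1‖) := by positivity
  nlinarith

theorem nm_mul_sub_one (X Y : MC) : nm (X * Y - 1) ≤ (1 + nm (X - 1)) * (1 + nm (Y - 1)) - 1 := by
  have e : X * Y - 1 = (X - 1) * (Y - 1) + ((X - 1) + (Y - 1)) := by noncomm_ring
  rw [e]
  have h1 := nm_add ((X - 1) * (Y - 1)) ((X - 1) + (Y - 1))
  have h2 := nm_add (X - 1) (Y - 1)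
  have h3 := nm_mul (X - 1) (Y - 1)
  nlinarith

theorem nm_entry (X : MC) (i j : Fin 2) : ‖X i j‖ ≤ nm X := by
  have h1 := norm_nonneg (X 0 0)
  have h2 := norm_nonneg (X 0 1)
  have h3 := norm_nonneg (X 1 0)
  have h4 := norm_nonneg (X 1 1)
  unfold nm
  fin_cases i <;> fin_cases j <;> simp only [Fin.zero_eta, Fin.mk_one] <;> linarith

theorem trace_le (X A : MC) (c : ℝ) (hA : ∀ i k, ‖A i k‖ ≤ c) : ‖(X * A).trace‖ ≤ c * nm X := by
  have h : (X * A).trace = X 0 0 * A 0 0 + X 0 1 * A 1 0 + (X 1 0 * A 0 1 + X 1 1 * A 1 1) := by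
    rw [Matrix.trace_fin_two, Matrix.mul_apply, Matrix.mul_apply, Fin.sum_univ_two,
      Fin.sum_univ_two]
  rw [h]
  have e1 : ‖X 0 0 * A 0 0‖ ≤ ‖X 0 0‖ * c := by
    rw [norm_mul]; exact mul_le_mul_of_nonneg_left (hA _ _) (norm_nonneg _)
  have e2 : ‖X 0 1 * A 1 0‖ ≤ ‖X 0 1‖ * c := by
    rw [norm_mul]; exact mul_le_mul_of_nonneg_left (hA _ _) (norm_nonneg _)
  have e3 : ‖X 1 0 * A 0 1‖ ≤ ‖X 1 0‖ * c := by
    rw [norm_mul]; exact mul_le_mul_of_nonneg_left (hA _ _) (norm_nonneg _)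
  have e4 : ‖X 1 1 * A 1 1‖ ≤ ‖X 1 1‖ * c := by
    rw [norm_mul]; exact mul_le_mul_of_nonneg_left (hA _ _) (norm_nonneg _)
  have h1 := norm_add_le (X 0 0 * A 0 0 + X 0 1 * A 1 0) (X 1 0 * A 0 1 + X 1 1 * A 1 1)
  have h2 := norm_add_le (X 0 0 * A 0 0) (X 0 1 * A 1 0)
  have h3 := norm_add_le (X 1 0 * A 0 1) (X 1 1 * A 1 1)
  unfold nm
  linarith

/-- complexification -/
noncomputable def cM : Matrix (Fin 2) (Fin 2) ℝ →+* MC := Complex.ofRealHom.mapMatrix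

theorem cM_apply (g : Matrix (Fin 2) (Fin 2) ℝ) (i j : Fin 2) : cM g i j = ((g i j : ℝ) : ℂ) := rfl

theorem cM_MM (j : ℕ) (E l : ℝ) : cM (MM j E l) = MM j (E : ℂ) (l : ℂ) := by
  have : cM (MM j E l) = MM j (E : ℂ) (l : ℂ) ∧
      cM (MM (j + 1) E l) = MM (j + 1) (E : ℂ) (l : ℂ) := by
    induction j with
    | zero =>
      constructor
      · ext i k
        rw [cM_apply]
        fin_cases i <;> fin_cases k <;> simp [MM]
      · ext i k
        rw [cM_apply]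
        fin_cases i <;> fin_cases k <;> simp [MM]
    | succ j ih =>
      refine ⟨ih.2, ?_⟩
      rw [show j + 1 + 1 = j + 2 from rfl, MM_add_two, MM_add_two, map_mul, ih.1, ih.2]
  exact this.1

theorem cM_det (g : Matrix (Fin 2) (Fin 2) ℝ) (hg : g.det = 1) : (cM g).det = 1 := by
  rw [Matrix.det_fin_two] at hg ⊢
  simp only [cM_apply]
  exact_mod_cast hg

theorem adj_mul (A : MC) (hA : A.det = 1) : A.adjugate * A = 1 := by
  rw [Matrix.adjugate_mul, hA, one_smul]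

theorem mul_adj (A : MC) (hA : A.det = 1) : A * A.adjugate = 1 := by
  rw [Matrix.mul_adjugate, hA, one_smul]

/-- the multiplicative perturbation -/
noncomputable def Pj (E l : ℝ) (z w : ℂ) (j : ℕ) : MC :=
  MM j ((E : ℂ) + z) ((l : ℂ) + w) * (MM j (E : ℂ) (l : ℂ)).adjugate

theorem Pj_add_two (E l : ℝ) (z w : ℂ) (j : ℕ) :
    Pj E l z w (j + 2) = Pj E l z w j *
      (MM j (E : ℂ) (l : ℂ) * Pj E l z w (j + 1) * (MM j (E : ℂ) (l : ℂ)).adjugate) := by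
  unfold Pj
  rw [MM_add_two, MM_add_two, Matrix.adjugate_mul_distrib]
  have h := adj_mul (MM j (E : ℂ) (l : ℂ)) (MM_det j _ _)
  calc MM j ((E : ℂ) + z) ((l : ℂ) + w) * MM (j + 1) ((E : ℂ) + z) ((l : ℂ) + w) *
        ((MM (j + 1) (E : ℂ) (l : ℂ)).adjugate * (MM j (E : ℂ) (l : ℂ)).adjugate)
      = MM j ((E : ℂ) + z) ((l : ℂ) + w) * 1 * (MM (j + 1) ((E : ℂ) + z) ((l : ℂ) + w) *
        (MM (j + 1) (E : ℂ) (l : ℂ)).adjugate) * (MM j (E : ℂ) (l : ℂ)).adjugate := by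
        simp only [Matrix.mul_assoc, Matrix.one_mul]
    _ = _ := by
        rw [← h]
        simp only [Matrix.mul_assoc]

/-- conjugation of a shear in a real frame -/
theorem nm_shear (g : Matrix (Fin 2) (Fin 2) ℝ) (hg : g.det = 1) (P : MC) (y : ℂ)
    (hP : P = !![1, y; 0, 1]) :
    nm (cM g * P * (cM g).adjugate - 1) ≤ 2 * (‖y‖ * (g 0 0 ^ 2 + g 1 0 ^ 2)) := by
  have hd := cM_det g hg
  have e : cM g * P * (cM g).adjugate - 1 =
      !![-(y * (g 0 0 * g 1 0 : ℝ)), y * (g 0 0 ^ 2 : ℝ); -(y * (g 1 0 ^ 2 : ℝ)),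
        y * (g 0 0 * g 1 0 : ℝ)] := by
    rw [Matrix.det_fin_two] at hd
    rw [hP]
    ext i k
    rw [Matrix.sub_apply, Matrix.mul_apply, Fin.sum_univ_two, Matrix.mul_apply, Matrix.mul_apply,
      Fin.sum_univ_two, Fin.sum_univ_two, Matrix.adjugate_fin_two]
    simp only [cM_apply] at hd ⊢
    fin_cases i <;> fin_cases k <;>
      simp only [Fin.zero_eta, Fin.mk_one, Matrix.of_apply, Matrix.cons_val', Matrix.cons_val_zero,
        Matrix.cons_val_one, Matrix.cons_val_fin_one, Matrix.one_apply_eq, ne_eq,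
        Matrix.one_apply_ne, zero_ne_one, one_ne_zero, not_false_eq_true,
        Complex.ofReal_mul, Complex.ofReal_pow] <;>
      first
        | linear_combination hd
        | ring
  rw [e]
  unfold nm
  simp only [Matrix.of_apply, Matrix.cons_val', Matrix.cons_val_zero,
    Matrix.cons_val_one, Matrix.cons_val_fin_one, norm_neg, norm_mul, Complex.norm_real,
    Real.norm_eq_abs]
  have h1 : |g 0 0 ^ 2| = g 0 0 ^ 2 := abs_of_nonneg (sq_nonneg _)
  have h2 : |g 1 0 ^ 2| = g 1 0 ^ 2 := abs_of_nonneg (sq_nonneg _)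
  have h3 : 2 * (|g 0 0| * |g 1 0|) ≤ g 0 0 ^ 2 + g 1 0 ^ 2 := by
    nlinarith [sq_nonneg (|g 0 0| - |g 1 0|), sq_abs (g 0 0), sq_abs (g 1 0)]
  rw [h1, h2]
  have h4 := mul_le_mul_of_nonneg_left h3 (norm_nonneg y)
  nlinarith

theorem trace_SS_one (E l : ℝ) (g : Matrix (Fin 2) (Fin 2) ℝ) :
    (g * SS 1 E l * gᵀ).trace = g 0 0 ^ 2 + g 1 0 ^ 2 := by
  simp only [SS, Matrix.trace_fin_two, Matrix.mul_apply, Fin.sum_univ_two, Matrix.transpose_apply,
    Matrix.of_apply, Matrix.cons_val', Matrix.cons_val_zero, Matrix.cons_val_one,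
    Matrix.cons_val_fin_one]
  ring

theorem trace_SS_two (E l : ℝ) (g : Matrix (Fin 2) (Fin 2) ℝ) :
    (g * SS 2 E l * gᵀ).trace = g 0 0 ^ 2 + g 1 0 ^ 2 := by
  simp only [SS, MM, Matrix.trace_fin_two, Matrix.mul_apply, Fin.sum_univ_two,
    Matrix.transpose_apply, Matrix.add_apply, Matrix.zero_apply,
    Matrix.of_apply, Matrix.cons_val', Matrix.cons_val_zero, Matrix.cons_val_one,
    Matrix.cons_val_fin_one]
  ring

theorem claim (E l : ℝ) (z w : ℂ) (j : ℕ) :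
    (∀ g : Matrix (Fin 2) (Fin 2) ℝ, g.det = 1 →
      nm (cM g * Pj E l z w (j + 1) * (cM g).adjugate - 1) ≤
        Real.exp (2 * (‖z‖ + ‖w‖) * (g * SS (j + 1) E l * gᵀ).trace) - 1) ∧
    (∀ g : Matrix (Fin 2) (Fin 2) ℝ, g.det = 1 →
      nm (cM g * Pj E l z w (j + 2) * (cM g).adjugate - 1) ≤
        Real.exp (2 * (‖z‖ + ‖w‖) * (g * SS (j + 2) E l * gᵀ).trace) - 1) := by
  induction j with
  | zero =>
    constructor
    · intro g hg
      have hP : Pj E l z w 1 = !![1, z; 0, 1] := by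
        unfold Pj
        rw [Matrix.adjugate_fin_two]
        ext i k
        rw [Matrix.mul_apply, Fin.sum_univ_two]
        fin_cases i <;> fin_cases k <;> simp [MM]
      have h1 := nm_shear g hg _ z hP
      rw [zero_add, trace_SS_one]
      have h2 := Real.add_one_le_exp (2 * (‖z‖ + ‖w‖) * (g 0 0 ^ 2 + g 1 0 ^ 2))
      have h3 : 0 ≤ ‖w‖ * (g 0 0 ^ 2 + g 1 0 ^ 2) := by positivity
      nlinarith
    · intro g hg
      have hP : Pj E l z w 2 = !![1, z - w; 0, 1] := by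
        unfold Pj
        rw [Matrix.adjugate_fin_two]
        ext i k
        rw [Matrix.mul_apply, Fin.sum_univ_two]
        fin_cases i <;> fin_cases k <;>
          simp [MM, Matrix.mul_apply, Fin.sum_univ_two] <;> ring
      have h1 := nm_shear g hg _ (z - w) hP
      rw [zero_add, trace_SS_two]
      have h2 := Real.add_one_le_exp (2 * (‖z‖ + ‖w‖) * (g 0 0 ^ 2 + g 1 0 ^ 2))
      have h3 : ‖z - w‖ * (g 0 0 ^ 2 + g 1 0 ^ 2) ≤ (‖z‖ + ‖w‖) * (g 0 0 ^ 2 + g 1 0 ^ 2) :=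
        mul_le_mul_of_nonneg_right (norm_sub_le z w) (by positivity)
      nlinarith
  | succ j ih =>
    refine ⟨ih.2, fun g hg => ?_⟩
    have hG := cM_det g hg
    have hg' : (g * MM (j + 1) E l).det = 1 := by rw [Matrix.det_mul, hg, MM_det, one_mul]
    have h1 := ih.1 g hg
    have h2 := ih.2 _ hg'
    have e : cM g * Pj E l z w (j + 1 + 2) * (cM g).adjugate =
        (cM g * Pj E l z w (j + 1) * (cM g).adjugate) *
          (cM (g * MM (j + 1) E l) * Pj E l z w (j + 2) * (cM (g * MM (j + 1) E l)).adjugate) := by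
      rw [Pj_add_two, map_mul, Matrix.adjugate_mul_distrib, cM_MM]
      have h := adj_mul (cM g) hG
      calc cM g * (Pj E l z w (j + 1) * (MM (j + 1) (E : ℂ) (l : ℂ) * Pj E l z w (j + 1 + 1) *
            (MM (j + 1) (E : ℂ) (l : ℂ)).adjugate)) * (cM g).adjugate
          = cM g * Pj E l z w (j + 1) * 1 * (MM (j + 1) (E : ℂ) (l : ℂ) * Pj E l z w (j + 1 + 1) *
            (MM (j + 1) (E : ℂ) (l : ℂ)).adjugate) * (cM g).adjugate := by
            simp only [Matrix.mul_assoc, Matrix.one_mul]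
        _ = _ := by
            rw [← h]
            simp only [Matrix.mul_assoc]
    have ht : (g * SS (j + 1 + 2) E l * gᵀ).trace = (g * SS (j + 1) E l * gᵀ).trace +
        (g * MM (j + 1) E l * SS (j + 2) E l * (g * MM (j + 1) E l)ᵀ).trace := by
      rw [← Matrix.trace_add]
      congr 1
      rw [SS, Matrix.transpose_mul]
      simp only [Matrix.mul_add, Matrix.add_mul, Matrix.mul_assoc]
    rw [e, ht, mul_add, Real.exp_add]
    have h3 := nm_mul_sub_one (cM g * Pj E l z w (j + 1) * (cM g).adjugate)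
      (cM (g * MM (j + 1) E l) * Pj E l z w (j + 2) * (cM (g * MM (j + 1) E l)).adjugate)
    refine h3.trans ?_
    have h4 : 1 + nm (cM g * Pj E l z w (j + 1) * (cM g).adjugate - 1) ≤
        Real.exp (2 * (‖z‖ + ‖w‖) * (g * SS (j + 1) E l * gᵀ).trace) := by linarith
    have h5 : 1 + nm (cM (g * MM (j + 1) E l) * Pj E l z w (j + 2) *
        (cM (g * MM (j + 1) E l)).adjugate - 1) ≤ Real.exp (2 * (‖z‖ + ‖w‖) *
        (g * MM (j + 1) E l * SS (j + 2) E l * (g * MM (j + 1) E l)ᵀ).trace) := by linarith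
    have h6 := mul_le_mul h4 h5 (by have := nm_nonneg (cM (g * MM (j + 1) E l) *
      Pj E l z w (j + 2) * (cM (g * MM (j + 1) E l)).adjugate - 1); linarith)
      (Real.exp_pos _).le
    linarith

theorem exp_bound {x : ℝ} (h0 : 0 ≤ x) (h1 : x ≤ 1) : Real.exp x - 1 ≤ 2 * x := by
  have h := Real.abs_exp_sub_one_le (x := x) (by rw [abs_of_nonneg h0]; exact h1)
  rw [abs_of_nonneg h0] at h
  exact (le_abs_self _).trans h

/-- the estimate in a frame -/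
theorem main_est (E l : ℝ) (z w : ℂ) (j : ℕ) (hj : 1 ≤ j) (g A : Matrix (Fin 2) (Fin 2) ℝ)
    (hg : g.det = 1) (hA : g * MM j E l = A * g) (C0 a : ℝ) (hC0 : 0 ≤ C0)
    (hAe : ∀ i k, |A i k| ≤ C0) (ht0 : 0 ≤ (‖z‖ + ‖w‖) * (C0 * a))
    (htr : (g * SS j E l * gᵀ).trace ≤ C0 * a)
    (hs : 2 * ((‖z‖ + ‖w‖) * (C0 * a)) ≤ 1) :
    ‖tr j ((E : ℂ) + z) ((l : ℂ) + w) - ((tr j E l : ℝ) : ℂ)‖
      ≤ 2 * C0 * ((‖z‖ + ‖w‖) * (C0 * a)) := by
  obtain ⟨m, rfl⟩ := Nat.exists_eq_add_of_le' hj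
  have hcl := (claim E l z w m).1 g hg
  set D : MC := cM g * Pj E l z w (m + 1) * (cM g).adjugate - 1 with hD
  have hG := cM_det g hg
  have hmono : 2 * (‖z‖ + ‖w‖) * (g * SS (m + 1) E l * gᵀ).trace ≤
      2 * ((‖z‖ + ‖w‖) * (C0 * a)) := by
    have h := mul_le_mul_of_nonneg_left htr (show 0 ≤ 2 * (‖z‖ + ‖w‖) by positivity)
    linarith
  have hnm : nm D ≤ 2 * (2 * ((‖z‖ + ‖w‖) * (C0 * a))) := by
    refine hcl.trans ?_
    refine (sub_le_sub_right (Real.exp_le_exp.2 hmono) 1).trans ?_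
    exact exp_bound (by linarith) hs
  have hAc : ∀ i k, ‖cM A i k‖ ≤ C0 := by
    intro i k
    rw [cM_apply, Complex.norm_real, Real.norm_eq_abs]
    exact hAe i k
  have hA2 : cM A = cM g * MM (m + 1) (E : ℂ) (l : ℂ) * (cM g).adjugate := by
    have h1 : cM g * MM (m + 1) (E : ℂ) (l : ℂ) = cM A * cM g := by
      rw [← cM_MM, ← map_mul, hA, map_mul]
    rw [h1, Matrix.mul_assoc, mul_adj _ hG, Matrix.mul_one]
  have key : (D * cM A).trace = 2 * (tr (m + 1) ((E : ℂ) + z) ((l : ℂ) + w) -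
      ((tr (m + 1) E l : ℝ) : ℂ)) := by
    have h1 : D * cM A = cM g * (MM (m + 1) ((E : ℂ) + z) ((l : ℂ) + w) -
        MM (m + 1) (E : ℂ) (l : ℂ)) * (cM g).adjugate := by
      rw [hD, hA2, Matrix.sub_mul, Matrix.one_mul, Matrix.mul_sub, Matrix.sub_mul]
      congr 1
      have h2 := adj_mul (cM g) hG
      have h3 := adj_mul (MM (m + 1) (E : ℂ) (l : ℂ)) (MM_det _ _ _)
      calc cM g * Pj E l z w (m + 1) * (cM g).adjugate *
            (cM g * MM (m + 1) (E : ℂ) (l : ℂ) * (cM g).adjugate)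
          = cM g * Pj E l z w (m + 1) * ((cM g).adjugate * cM g) * MM (m + 1) (E : ℂ) (l : ℂ) *
            (cM g).adjugate := by simp only [Matrix.mul_assoc]
        _ = cM g * (MM (m + 1) ((E : ℂ) + z) ((l : ℂ) + w) *
            ((MM (m + 1) (E : ℂ) (l : ℂ)).adjugate * MM (m + 1) (E : ℂ) (l : ℂ))) *
            (cM g).adjugate := by
            rw [h2]
            unfold Pj
            simp only [Matrix.mul_assoc, Matrix.one_mul]
        _ = _ := by rw [h3, Matrix.mul_one]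
    rw [h1, Matrix.trace_mul_cycle, adj_mul _ hG, Matrix.one_mul, Matrix.trace_sub, MM_trace,
      MM_trace, tr_ofReal]
    ring
  have h5 := trace_le D (cM A) C0 hAc
  rw [key, norm_mul, Complex.norm_ofNat] at h5
  have h6 := mul_le_mul_of_nonneg_left hnm hC0
  linarith

end B8

theorem sLoc (h : Frame2) : SLoc := by
  obtain ⟨C0, C1, hC0, hF⟩ := h
  obtain ⟨m, hm⟩ := pow_unbounded_of_one_lt (4 * C0 ^ 2) (one_lt_two (α := ℝ))
  refine ⟨C1 + m, fun n E l ε hOk hND z w hzw j hj1 hj2 => ?_⟩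
  obtain ⟨g, a, A, hg, ha, -, hAj, -, -, -, hlow, -⟩ := hF n E l ε hOk hND
  obtain ⟨hl0, hl1, hε0, hε1⟩ := hOk
  have hs0 : 0 ≤ ‖z‖ + ‖w‖ := by positivity
  have hεC1 : 0 < ε ^ C1 := by positivity
  have hεm : ε ^ m ≤ 1 / (4 * C0 ^ 2) := by
    have h1 : ε ^ m ≤ (1 / 2) ^ m := pow_le_pow_left₀ hε0.le hε1 m
    have h2 : (1 / 2 : ℝ) ^ m ≤ 1 / (4 * C0 ^ 2) := by
      rw [one_div, inv_pow, one_div]
      exact inv_anti₀ (by positivity) hm.le
    exact h1.trans h2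
  have hεm0 : 0 < ε ^ m := by positivity
  -- s * a is small
  have hsa : (‖z‖ + ‖w‖) * a ≤ 1 / (4 * C0 ^ 2) := by
    have h1 : (‖z‖ + ‖w‖) * (ε ^ C1 * a) ≤ (‖z‖ + ‖w‖) * rho n E l :=
      mul_le_mul_of_nonneg_left hlow hs0
    have h2 : ε ^ C1 * ((‖z‖ + ‖w‖) * a) ≤ ε ^ C1 * ε ^ m := by
      rw [← pow_add]
      linarith
    exact (le_of_mul_le_mul_left h2 hεC1).trans hεm
  have hC0p : 0 < C0 := by linarith
  have hsa' : (‖z‖ + ‖w‖) * a * (4 * C0 ^ 2) ≤ 1 := by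
    rwa [le_div_iff₀ (by positivity)] at hsa
  rcases Nat.eq_zero_or_pos j with rfl | hj
  · rw [tr_zero, tr_zero]
    simp only [Complex.ofReal_one, sub_self, norm_zero, mul_zero]
    have : 0 ≤ rho n E l := le_max_of_le_left (abs_nonneg _)
    positivity
  obtain ⟨hA1, hA2, hA3⟩ := hAj j hj1 hj2
  have hsa0 : 0 ≤ (‖z‖ + ‖w‖) * a := by positivity
  have hmain := B8.main_est E l z w j hj g (A j) hg hA1 C0 a hC0p.le hA2 (by positivity) hA3
    (by nlinarith)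
  have hfin : ε ^ (C1 + m) * (2 * C0 * ((‖z‖ + ‖w‖) * (C0 * a))) ≤
      (‖z‖ + ‖w‖) * rho n E l := by
    have h1 : ε ^ m * (4 * C0 ^ 2) ≤ 1 := by
      rwa [le_div_iff₀ (by positivity)] at hεm
    have h2 : ε ^ m * (2 * C0 ^ 2) ≤ 1 := by nlinarith [mul_pos hεm0 (pow_pos hC0p 2)]
    have h3 : 0 ≤ ε ^ C1 * ((‖z‖ + ‖w‖) * a) := by positivity
    calc ε ^ (C1 + m) * (2 * C0 * ((‖z‖ + ‖w‖) * (C0 * a)))
        = (ε ^ m * (2 * C0 ^ 2)) * (ε ^ C1 * ((‖z‖ + ‖w‖) * a)) := by rw [pow_add]; ring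
      _ ≤ 1 * (ε ^ C1 * ((‖z‖ + ‖w‖) * a)) := mul_le_mul_of_nonneg_right h2 h3
      _ = (‖z‖ + ‖w‖) * (ε ^ C1 * a) := by ring
      _ ≤ (‖z‖ + ‖w‖) * rho n E l := mul_le_mul_of_nonneg_left hlow hs0
  exact (mul_le_mul_of_nonneg_left hmain (by positivity)).trans hfin

end FIB
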