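import Pool.Agent.Helper75.FIB.Iface

/-!
# FIB block B9 : the positivity functional bound

Use `Frame2` with `ε = l` (the crude case `Cr n E l`), frame `g`, `A = A_n = [[x,b],[c,x]]`, `B = A_{n+1} = [[y,b'],[c',y]]`, `|b c' - c b'| = l`, entries `<= 3`, `a`.
(1) There are symmetric `X', Y'` with entries bounded by `C (|Z 0|+|Z 1|+|Z 2|)/l^2` and `tr(X'ΩA)/2 = Z 0`, `tr(Y'ΩB)/2 = Z 1`, `tr((X' + A Y' A^T)ΩAB)/2 = Z 2`.
Indeed `sym(ΩA) = F_A = diag(c,-b)`, `sym(ΩB) = F_B = diag(c',-b')`, `sym(ΩAB) = y F_A + x F_B + ((cb'-bc')/2) J`, `J = [[0,1],[1,0]]`, and `tr(A Y' A^T Ω A B) = tr(Y' Ω B A)`,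
`sym(ΩBA) = y F_A + x F_B - ((cb'-bc')/2) J`. Take `Y' = 2 Z_1 F_B/|F_B|^2`, `X' = 2 Z_0 F_A/|F_A|^2 + ξ J`; the third equation reads `(cb'-bc') ξ/2 + O(|Z|/l) = Z_2` (`|F_A|,|F_B| >= l/6` since
`|bc'-cb'| = l` and entries `<= 3`).
(2) `X = g^{-1} X' g^{-T}`, `Y = g^{-1} Y' g^{-T}`, `T_k := Sg n E l X Y k` (Basic2) and `lin_eq`: `lin n E l Z k = tr(T_k Ω M_{n+k})/2`.
(3) `T_4, T_5` in the frame are bounded by `C |Z|/l^2`, while `S'_{n+4}, S'_{n+5} >= (l^4 a/C0) Id`. So `- κ S <= T <= κ S` at levels `n+4, n+5` with `κ = C |Z|/(l^6 a)`. Both inequalities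
propagate by the recursion to all levels `>= n+4`, in particular to `K` (`n + 5 <= K`; note `SS (n+k) = Sg n E l (SS n) (SS (n+1)) k`).
(4) `|x_K| < 1`: the form `sym(Ω M_K)` is definite, so `|tr(T Ω M_K)| <= κ |tr(S_K Ω M_K)|`, i.e. `|lin ..| <= κ |trE K|`. Finally `rho n <= C0 a`; absorb constants in powers of `l <= 1/8`.
-/

namespace FIB

open Real MeasureTheory Set Filter Topology

namespace B9

open Matrix

abbrev M2 := Matrix (Fin 2) (Fin 2) ℝ

/-- the quadratic form -/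
def qf (T : M2) (v : Fin 2 → ℝ) : ℝ := v ⬝ᵥ T.mulVec v

theorem qf_eq (T : M2) (v : Fin 2 → ℝ) :
    qf T v = T 0 0 * v 0 ^ 2 + (T 0 1 + T 1 0) * (v 0 * v 1) + T 1 1 * v 1 ^ 2 := by
  simp only [qf, dotProduct, Matrix.mulVec, Fin.sum_univ_two]
  ring

theorem qf_add (S T : M2) (v : Fin 2 → ℝ) : qf (S + T) v = qf S v + qf T v := by
  simp only [qf_eq, Matrix.add_apply]
  ring

theorem qf_congr (M T : M2) (v : Fin 2 → ℝ) : qf (M * T * Mᵀ) v = qf T (Mᵀ.mulVec v) := by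
  simp only [qf_eq, Matrix.mul_apply, Fin.sum_univ_two, Matrix.transpose_apply, Matrix.mulVec,
    dotProduct]
  ring

theorem qf_bound {T : M2} {τ : ℝ} (h : ∀ i k, |T i k| ≤ τ) (v : Fin 2 → ℝ) :
    |qf T v| ≤ 2 * τ * (v 0 ^ 2 + v 1 ^ 2) := by
  rw [qf_eq]
  have h00 := abs_le.1 (h 0 0)
  have h01 := abs_le.1 (h 0 1)
  have h10 := abs_le.1 (h 1 0)
  have h11 := abs_le.1 (h 1 1)
  have hv : |v 0 * v 1| ≤ (v 0 ^ 2 + v 1 ^ 2) / 2 := by
    rw [abs_le]
    constructor <;> nlinarith [sq_nonneg (v 0 - v 1), sq_nonneg (v 0 + v 1)]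
  have hτ : 0 ≤ τ := (abs_nonneg _).trans (h 0 0)
  have e1 : |T 0 0 * v 0 ^ 2| ≤ τ * v 0 ^ 2 := by
    rw [abs_mul, abs_of_nonneg (sq_nonneg (v 0))]
    exact mul_le_mul_of_nonneg_right (h 0 0) (sq_nonneg _)
  have e2 : |T 1 1 * v 1 ^ 2| ≤ τ * v 1 ^ 2 := by
    rw [abs_mul, abs_of_nonneg (sq_nonneg (v 1))]
    exact mul_le_mul_of_nonneg_right (h 1 1) (sq_nonneg _)
  have e3 : |(T 0 1 + T 1 0) * (v 0 * v 1)| ≤ 2 * τ * ((v 0 ^ 2 + v 1 ^ 2) / 2) := by
    rw [abs_mul]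
    refine mul_le_mul ?_ hv (abs_nonneg _) (by positivity)
    rw [abs_le]
    constructor <;> linarith
  calc |T 0 0 * v 0 ^ 2 + (T 0 1 + T 1 0) * (v 0 * v 1) + T 1 1 * v 1 ^ 2|
      ≤ |T 0 0 * v 0 ^ 2| + |(T 0 1 + T 1 0) * (v 0 * v 1)| + |T 1 1 * v 1 ^ 2| :=
        abs_add_three _ _ _
    _ ≤ _ := by linarith

theorem entry_bound {A T : M2} {C0 τ : ℝ} (hA : ∀ i k, |A i k| ≤ C0) (hT : ∀ i k, |T i k| ≤ τ)
    (i k : Fin 2) : |(A * T * Aᵀ) i k| ≤ 4 * C0 ^ 2 * τ := by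
  have hC : 0 ≤ C0 := (abs_nonneg _).trans (hA 0 0)
  have hτ : 0 ≤ τ := (abs_nonneg _).trans (hT 0 0)
  have key : ∀ r s : Fin 2, |A i r * T r s * A k s| ≤ C0 ^ 2 * τ := by
    intro r s
    rw [abs_mul, abs_mul]
    calc |A i r| * |T r s| * |A k s| ≤ C0 * τ * C0 := by
          refine mul_le_mul (mul_le_mul (hA _ _) (hT _ _) (abs_nonneg _) hC) (hA _ _)
            (abs_nonneg _) (by positivity)
      _ = _ := by ring
  have e : (A * T * Aᵀ) i k = A i 0 * T 0 0 * A k 0 + A i 1 * T 1 0 * A k 0 +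
      (A i 0 * T 0 1 * A k 1 + A i 1 * T 1 1 * A k 1) := by
    simp only [Matrix.mul_apply, Fin.sum_univ_two, Matrix.transpose_apply]
    ring
  rw [e]
  have h1 := key 0 0
  have h2 := key 1 0
  have h3 := key 0 1
  have h4 := key 1 1
  rw [abs_le] at h1 h2 h3 h4 ⊢
  constructor <;> linarith [h1.1, h1.2, h2.1, h2.2, h3.1, h3.2, h4.1, h4.2]

/-- the definite form argument -/
theorem def_form {T S M : M2} (hT : Tᵀ = T) (hS : Sᵀ = S) (hM : M.det = 1)
    (htr : |M.trace / 2| < 1) {κ : ℝ} (hκ : 0 ≤ κ) (h : ∀ w, |qf T w| ≤ κ * qf S w) :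
    |(T * Om * M).trace| ≤ κ * |(S * Om * M).trace| := by
  have hT' : T 1 0 = T 0 1 := by
    have := congrFun (congrFun hT 0) 1
    simpa [Matrix.transpose_apply] using this
  have hS' : S 1 0 = S 0 1 := by
    have := congrFun (congrFun hS 0) 1
    simpa [Matrix.transpose_apply] using this
  set α := M 1 0 with hα
  set β := (M 1 1 - M 0 0) / 2 with hβ
  set γ := -M 0 1 with hγ
  have hd : α * γ - β ^ 2 = 1 - (M.trace / 2) ^ 2 := by
    rw [Matrix.det_fin_two] at hM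
    rw [Matrix.trace_fin_two, hα, hβ, hγ]
    linear_combination hM
  have hd0 : 0 < α * γ - β ^ 2 := by
    rw [hd]
    have := abs_lt.1 htr
    nlinarith [this.1, this.2]
  have hα0 : α ≠ 0 := by
    intro h0
    rw [h0, zero_mul] at hd0
    nlinarith [sq_nonneg β]
  have key : ∀ R : M2, R 1 0 = R 0 1 →
      α * (R * Om * M).trace = qf R ![α, β] + (α * γ - β ^ 2) * qf R ![0, 1] := by
    intro R hR
    simp only [qf_eq, Matrix.trace_fin_two, Matrix.mul_apply, Fin.sum_univ_two, Om,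
      Matrix.of_apply, Matrix.cons_val', Matrix.cons_val_zero, Matrix.cons_val_one,
      Matrix.cons_val_fin_one, hR]
    rw [hα, hβ, hγ]
    ring
  have k1 := key T hT'
  have k2 := key S hS'
  have b1 := h ![α, β]
  have b2 := h ![0, 1]
  have b3 : |α| * |(T * Om * M).trace| ≤ κ * (α * (S * Om * M).trace) := by
    rw [← abs_mul, k1, k2]
    calc |qf T ![α, β] + (α * γ - β ^ 2) * qf T ![0, 1]|
        ≤ |qf T ![α, β]| + |(α * γ - β ^ 2) * qf T ![0, 1]| := abs_add_le _ _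
      _ = |qf T ![α, β]| + (α * γ - β ^ 2) * |qf T ![0, 1]| := by
          rw [abs_mul, abs_of_pos hd0]
      _ ≤ κ * qf S ![α, β] + (α * γ - β ^ 2) * (κ * qf S ![0, 1]) :=
          add_le_add b1 (mul_le_mul_of_nonneg_left b2 hd0.le)
      _ = _ := by ring
  have b4 : κ * (α * (S * Om * M).trace) ≤ |α| * (κ * |(S * Om * M).trace|) := by
    calc κ * (α * (S * Om * M).trace) ≤ κ * |α * (S * Om * M).trace| :=
          mul_le_mul_of_nonneg_left (le_abs_self _) hκ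
      _ = _ := by rw [abs_mul]; ring
  exact le_of_mul_le_mul_left (b3.trans b4) (abs_pos.2 hα0)

/-- change of frame for the half traces -/
theorem trace_frame {g T M A : M2} (hg : g.det = 1) (h : g * M = A * g) :
    (g * T * gᵀ * Om * A).trace = (T * Om * M).trace := by
  have h1 := tOm g hg
  calc (g * T * gᵀ * Om * A).trace = (g * (T * gᵀ * Om * A)).trace := by
        simp only [Matrix.mul_assoc]
    _ = ((T * gᵀ * Om * A) * g).trace := Matrix.trace_mul_comm _ _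
    _ = (T * gᵀ * Om * (A * g)).trace := by simp only [Matrix.mul_assoc]
    _ = (T * gᵀ * Om * (g * M)).trace := by rw [h]
    _ = (T * (gᵀ * Om * g) * M).trace := by simp only [Matrix.mul_assoc]
    _ = _ := by rw [h1]

/-- solution of the three equations -/
theorem solve {x y b c b' c' l : ℝ} (hl : 0 < l) (hl8 : l ≤ 1 / 8) (hx : |x| ≤ 2) (hy : |y| ≤ 2)
    (hb : |b| ≤ 3) (hc : |c| ≤ 3) (hb' : |b'| ≤ 3) (hc' : |c'| ≤ 3) (hD : |b * c' - c * b'| = l)
    (hdet : x * x - b * c = 1) (Z0 Z1 Z2 : ℝ) :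
    ∃ X Y : M2, Xᵀ = X ∧ Yᵀ = Y ∧ (∀ i k, |X i k| ≤ 500 * (|Z0| + |Z1| + |Z2|) / l ^ 2) ∧
      (∀ i k, |Y i k| ≤ 500 * (|Z0| + |Z1| + |Z2|) / l ^ 2) ∧
      Z0 = (X * Om * !![x, b; c, x]).trace / 2 ∧ Z1 = (Y * Om * !![y, b'; c', y]).trace / 2 ∧
      Z2 = ((X + !![x, b; c, x] * Y * (!![x, b; c, x] : M2)ᵀ) * Om *
        (!![x, b; c, x] * !![y, b'; c', y])).trace / 2 := by
  set Z := |Z0| + |Z1| + |Z2| with hZ
  have hZ0 : |Z0| ≤ Z := by rw [hZ]; linarith [abs_nonneg Z1, abs_nonneg Z2]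
  have hZ1 : |Z1| ≤ Z := by rw [hZ]; linarith [abs_nonneg Z0, abs_nonneg Z2]
  have hZ2 : |Z2| ≤ Z := by rw [hZ]; linarith [abs_nonneg Z1, abs_nonneg Z0]
  have hZn : 0 ≤ Z := (abs_nonneg _).trans hZ0
  have lowA : ∀ u v u' v' : ℝ, |u'| ≤ 3 → |v'| ≤ 3 → |u * v' - v * u'| = l →
      l ^ 2 ≤ 18 * (u ^ 2 + v ^ 2) := by
    intro u v u' v' hu' hv' h
    have h1 : l ^ 2 = (u * v' - v * u') ^ 2 := by rw [← h, sq_abs]
    have h2 : u' ^ 2 ≤ 9 := by
      have := abs_le.1 hu'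
      nlinarith [this.1, this.2]
    have h3 : v' ^ 2 ≤ 9 := by
      have := abs_le.1 hv'
      nlinarith [this.1, this.2]
    have h4 : (u * v' - v * u') ^ 2 ≤ (u ^ 2 + v ^ 2) * (u' ^ 2 + v' ^ 2) := by
      nlinarith [sq_nonneg (u * u' + v * v')]
    have h5 : (u ^ 2 + v ^ 2) * (u' ^ 2 + v' ^ 2) ≤ (u ^ 2 + v ^ 2) * 18 :=
      mul_le_mul_of_nonneg_left (by linarith) (by positivity)
    rw [h1]
    linarith
  have bd : ∀ u v W : ℝ, l ^ 2 ≤ 18 * (u ^ 2 + v ^ 2) → |W| ≤ Z →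
      |2 * W * u / (u ^ 2 + v ^ 2)| ≤ 10 * Z / l := by
    intro u v W h hW
    have hp : 0 < u ^ 2 + v ^ 2 := by nlinarith [sq_pos_of_pos hl]
    rw [abs_div, abs_of_pos hp, div_le_div_iff₀ hp hl, abs_mul, abs_mul, abs_two]
    have h1 : |u| * l ≤ 5 * (u ^ 2 + v ^ 2) := by
      have h2 : (|u| * l) ^ 2 ≤ (5 * (u ^ 2 + v ^ 2)) ^ 2 := by
        have e : (|u| * l) ^ 2 = u ^ 2 * l ^ 2 := by rw [mul_pow, sq_abs]
        rw [e]
        calc u ^ 2 * l ^ 2 ≤ u ^ 2 * (18 * (u ^ 2 + v ^ 2)) :=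
              mul_le_mul_of_nonneg_left h (sq_nonneg _)
          _ ≤ (u ^ 2 + v ^ 2) * (18 * (u ^ 2 + v ^ 2)) :=
              mul_le_mul_of_nonneg_right (by nlinarith [sq_nonneg v]) (by positivity)
          _ ≤ _ := by nlinarith [hp]
      exact le_of_sq_le_sq h2 (by positivity)
    calc 2 * |W| * |u| * l = 2 * |W| * (|u| * l) := by ring
      _ ≤ 2 * Z * (5 * (u ^ 2 + v ^ 2)) :=
          mul_le_mul (by linarith) h1 (by positivity) (by positivity)
      _ = 10 * Z * (u ^ 2 + v ^ 2) := by ring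
  have hA := lowA b c b' c' hb' hc' hD
  have hB := lowA b' c' b c hb hc (by rw [← hD, ← abs_neg]; congr 1; ring)
  have hpA : 0 < b ^ 2 + c ^ 2 := by nlinarith [sq_pos_of_pos hl]
  have hpB : 0 < b' ^ 2 + c' ^ 2 := by nlinarith [sq_pos_of_pos hl]
  set p := 2 * Z0 * c / (c ^ 2 + b ^ 2) with hp
  set s := 2 * (-Z0) * b / (b ^ 2 + c ^ 2) with hs
  set p' := 2 * Z1 * c' / (c' ^ 2 + b' ^ 2) with hp'
  set s' := 2 * (-Z1) * b' / (b' ^ 2 + c' ^ 2) with hs'
  have bp : |p| ≤ 10 * Z / l := bd c b Z0 (by linarith) hZ0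
  have bs : |s| ≤ 10 * Z / l := bd b c (-Z0) (by linarith) (by rwa [abs_neg])
  have bp' : |p'| ≤ 10 * Z / l := bd c' b' Z1 (by linarith) hZ1
  have bs' : |s'| ≤ 10 * Z / l := bd b' c' (-Z1) (by linarith) (by rwa [abs_neg])
  have hD0 : c * b' - b * c' ≠ 0 := by
    intro h0
    rw [show b * c' - c * b' = 0 by linarith, abs_zero] at hD
    linarith
  set q := (2 * Z2 - p * (c * y + x * c') + s * (x * b' + b * y) - p' * (c' * x + y * c) +
    s' * (y * b + b' * x)) / (c * b' - b * c') with hq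
  have h12 : ∀ u v w z : ℝ, |u| ≤ 3 → |v| ≤ 2 → |w| ≤ 2 → |z| ≤ 3 → |u * v + w * z| ≤ 12 := by
    intro u v w z hu hv hw hz
    calc |u * v + w * z| ≤ |u * v| + |w * z| := abs_add_le _ _
      _ = |u| * |v| + |w| * |z| := by rw [abs_mul, abs_mul]
      _ ≤ 3 * 2 + 2 * 3 := add_le_add (mul_le_mul hu hv (abs_nonneg _) (by norm_num))
          (mul_le_mul hw hz (abs_nonneg _) (by norm_num))
      _ = 12 := by norm_num
  have hm : ∀ u v : ℝ, |u| ≤ 10 * Z / l → |v| ≤ 12 → |u * v| ≤ 120 * Z / l := by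
    intro u v hu hv
    rw [abs_mul]
    calc |u| * |v| ≤ 10 * Z / l * 12 := mul_le_mul hu hv (abs_nonneg _) (by positivity)
      _ = _ := by ring
  have bq : |q| ≤ 500 * Z / l ^ 2 := by
    rw [hq, abs_div, show |c * b' - b * c'| = l by rw [← hD, ← abs_neg]; congr 1; ring,
      div_le_iff₀ hl]
    have e1 := hm p (c * y + x * c') bp (h12 c y x c' hc hy hx hc')
    have e2 := hm s (x * b' + b * y) bs (by
      rw [show x * b' + b * y = b * y + x * b' by ring]; exact h12 b y x b' hb hy hx hb')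
    have e3 := hm p' (c' * x + y * c) bp' (h12 c' x y c hc' hx hy hc)
    have e4 := hm s' (y * b + b' * x) bs' (by
      rw [show y * b + b' * x = b' * x + y * b by ring]; exact h12 b' x y b hb' hx hy hb)
    have e5 : 500 * Z / l ^ 2 * l = 500 * Z / l := by field_simp
    have e6 : 2 * Z ≤ 20 * Z / l := by
      rw [le_div_iff₀ hl]
      nlinarith
    rw [e5]
    have e7 : |2 * Z2| ≤ 2 * Z := by rw [abs_mul, abs_two]; linarith
    have e8 : 500 * Z / l = 20 * Z / l + 120 * Z / l + 120 * Z / l + 120 * Z / l + 120 * Z / l := by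
      ring
    rw [e8]
    rw [abs_le] at e1 e2 e3 e4 e7 ⊢
    constructor <;> linarith [e1.1, e1.2, e2.1, e2.2, e3.1, e3.2, e4.1, e4.2, e7.1, e7.2]
  have hcmp : 10 * Z / l ≤ 500 * Z / l ^ 2 := by
    rw [div_le_div_iff₀ hl (by positivity)]
    have : l ^ 2 ≤ l := by nlinarith
    calc 10 * Z * l ^ 2 ≤ 10 * Z * l := mul_le_mul_of_nonneg_left this (by positivity)
      _ ≤ 500 * Z * l := by nlinarith [mul_nonneg hZn hl.le]
  have hc0 : (0 : ℝ) ≤ 500 * Z / l ^ 2 := by positivity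
  have eq0 : Z0 = (p * c - s * b) / 2 := by
    rw [hp, hs, show c ^ 2 + b ^ 2 = b ^ 2 + c ^ 2 by ring]
    field_simp
    ring
  have eq1 : Z1 = (p' * c' - s' * b') / 2 := by
    rw [hp', hs', show c' ^ 2 + b' ^ 2 = b' ^ 2 + c' ^ 2 by ring]
    field_simp
    ring
  have eq2 : q * (c * b' - b * c') = 2 * Z2 - p * (c * y + x * c') + s * (x * b' + b * y) -
      p' * (c' * x + y * c) + s' * (y * b + b' * x) := by
    rw [hq, div_mul_cancel₀ _ hD0]
  refine ⟨!![p, q; q, s], !![p', 0; 0, s'], ?_, ?_, ?_, ?_, ?_, ?_, ?_⟩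
  · ext i k; fin_cases i <;> fin_cases k <;> rfl
  · ext i k; fin_cases i <;> fin_cases k <;> rfl
  · intro i k
    fin_cases i <;> fin_cases k
    · exact bp.trans hcmp
    · exact bq
    · exact bq
    · exact bs.trans hcmp
  · intro i k
    fin_cases i <;> fin_cases k
    · exact bp'.trans hcmp
    · simpa using hc0
    · simpa using hc0
    · exact bs'.trans hcmp
  · simp only [Matrix.trace_fin_two, Matrix.mul_apply, Fin.sum_univ_two, Om,
      Matrix.of_apply, Matrix.cons_val', Matrix.cons_val_zero, Matrix.cons_val_one,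
      Matrix.cons_val_fin_one]
    linear_combination eq0
  · simp only [Matrix.trace_fin_two, Matrix.mul_apply, Fin.sum_univ_two, Om,
      Matrix.of_apply, Matrix.cons_val', Matrix.cons_val_zero, Matrix.cons_val_one,
      Matrix.cons_val_fin_one]
    linear_combination eq1
  · simp only [Matrix.trace_fin_two, Matrix.mul_apply, Fin.sum_univ_two, Om, Matrix.add_apply,
      Matrix.transpose_apply,
      Matrix.of_apply, Matrix.cons_val', Matrix.cons_val_zero, Matrix.cons_val_one,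
      Matrix.cons_val_fin_one]
    linear_combination (-1 / 2) * eq2 - (p' * (c' * x + y * c) - s' * (y * b + b' * x)) / 2 * hdet

end B9

open B9 Matrix in
theorem posF (hP : PosProps) (h : Frame2) : PosF := by
  obtain ⟨C0, C, hC0, hF⟩ := h
  obtain ⟨N, hN⟩ := exists_pow_lt_of_lt_one
    (show (0 : ℝ) < 1 / (C0 * (2 * ((5 * C0 ^ 2) ^ 5 * 500) * C0)) by positivity)
    (show (1 / 8 : ℝ) < 1 by norm_num)
  refine ⟨6 + N, fun n K E l Z hl hl8 hcr hK htK => ?_⟩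
  obtain ⟨g, a, A, hg, ha, ⟨b, c, b', c', hAn, hAn1, hb, hc, hb', hc', hD⟩, hj, -, hlow, hrho,
    -, -⟩ := hF n E l l ⟨hl, hl8, hl, by linarith⟩ (Or.inl ⟨rfl, hcr⟩)
  have hx := hcr.1 n le_rfl (by omega)
  have hy := hcr.1 (n + 1) (by omega) (by omega)
  have hdetA : ∀ j, n ≤ j → j ≤ n + 8 → (A j).det = 1 := by
    intro j h1 h2
    have := congrArg Matrix.det (hj j h1 h2).1
    rw [Matrix.det_mul, Matrix.det_mul, hg, MM_det] at this
    linarith
  have hdet : tr n E l * tr n E l - b * c = 1 := by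
    have := hdetA n le_rfl (by omega)
    rw [hAn, Matrix.det_fin_two_of] at this
    exact this
  obtain ⟨X', Y', hX's, hY's, hX'b, hY'b, e0, e1, e2⟩ :=
    solve hl hl8 hx hy hb hc hb' hc' hD hdet (Z 0) (Z 1) (Z 2)
  set ZZ := |Z 0| + |Z 1| + |Z 2| with hZZ
  have hZZ0 : 0 ≤ ZZ := by positivity
  rw [← hAn] at e0 e2
  rw [← hAn1] at e1 e2
  -- back to the original frame
  set g' : Matrix (Fin 2) (Fin 2) ℝ := g.adjugate with hg'
  have hgg' : g * g' = 1 := by rw [hg', Matrix.mul_adjugate, hg, one_smul]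
  have hg'g : g' * g = 1 := by rw [hg', Matrix.adjugate_mul, hg, one_smul]
  have hgt : g'ᵀ * gᵀ = 1 := by rw [← Matrix.transpose_mul, hgg', Matrix.transpose_one]
  have hgt' : gᵀ * g'ᵀ = 1 := by rw [← Matrix.transpose_mul, hg'g, Matrix.transpose_one]
  set X := g' * X' * g'ᵀ with hX
  set Y := g' * Y' * g'ᵀ with hY
  have back : ∀ R : Matrix (Fin 2) (Fin 2) ℝ, g * (g' * R * g'ᵀ) * gᵀ = R := by
    intro R
    calc g * (g' * R * g'ᵀ) * gᵀ = (g * g') * R * (g'ᵀ * gᵀ) := by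
          simp only [Matrix.mul_assoc]
      _ = R := by rw [hgg', hgt, Matrix.one_mul, Matrix.mul_one]
  have hXs : Xᵀ = X := by
    rw [hX, Matrix.transpose_mul, Matrix.transpose_mul, Matrix.transpose_transpose, hX's,
      Matrix.mul_assoc]
  have hYs : Yᵀ = Y := by
    rw [hY, Matrix.transpose_mul, Matrix.transpose_mul, Matrix.transpose_transpose, hY's,
      Matrix.mul_assoc]
  set T : ℕ → Matrix (Fin 2) (Fin 2) ℝ := fun k => Sg n E l X Y k with hT
  set T' : ℕ → Matrix (Fin 2) (Fin 2) ℝ := fun k => g * T k * gᵀ with hT'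
  have hT0 : T' 0 = X' := back X'
  have hT1 : T' 1 = Y' := back Y'
  have hTr : ∀ k, T (k + 2) = T k + MM (n + k) E l * T (k + 1) * (MM (n + k) E l)ᵀ :=
    fun k => rfl
  have hT'r : ∀ k, k ≤ 8 → T' (k + 2) = T' k + A (n + k) * T' (k + 1) * (A (n + k))ᵀ := by
    intro k hk
    have hc1 := (hj (n + k) (by omega) (by omega)).1
    have hc2 : (MM (n + k) E l)ᵀ * gᵀ = gᵀ * (A (n + k))ᵀ := by
      rw [← Matrix.transpose_mul, hc1, Matrix.transpose_mul]
    simp only [hT']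
    rw [hTr, Matrix.mul_add, Matrix.add_mul]
    congr 1
    calc g * (MM (n + k) E l * T (k + 1) * (MM (n + k) E l)ᵀ) * gᵀ
        = (g * MM (n + k) E l) * T (k + 1) * ((MM (n + k) E l)ᵀ * gᵀ) := by
          simp only [Matrix.mul_assoc]
      _ = _ := by rw [hc1, hc2]; simp only [Matrix.mul_assoc]
  -- the traces
  have f0 : Z 0 = (dM n E l X Y 0).trace / 2 := by
    rw [e0, ← hT0]
    simp only [hT', dM]
    rw [trace_frame hg (hj n le_rfl (by omega)).1]
    rfl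
  have f1 : Z 1 = (dM n E l X Y 1).trace / 2 := by
    rw [e1, ← hT1]
    simp only [hT', dM]
    rw [trace_frame hg (hj (n + 1) (by omega) (by omega)).1]
  have f2 : Z 2 = (dM n E l X Y 2).trace / 2 := by
    have h2 : X' + A n * Y' * (A n)ᵀ = T' 2 := by
      have := hT'r 0 (by omega)
      rw [hT0, hT1] at this
      exact this.symm
    have hc1 : g * MM (n + 2) E l = (A n * A (n + 1)) * g := by
      rw [MM_add_two, ← Matrix.mul_assoc, (hj n le_rfl (by omega)).1, Matrix.mul_assoc,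
        (hj (n + 1) (by omega) (by omega)).1, Matrix.mul_assoc]
    rw [e2, h2]
    simp only [hT', dM]
    rw [trace_frame hg hc1]
  have hlin : lin n E l Z (K - n) = (T (K - n) * Om * MM (n + (K - n)) E l).trace / 2 :=
    lin_eq n E l hXs hYs f0 f1 f2 (K - n)
  -- bounds in the frame
  set β := 500 * ZZ / l ^ 2 with hβ
  have hβ0 : 0 ≤ β := by positivity
  set D := 5 * C0 ^ 2 with hDdef
  have hD1 : 1 ≤ D := by nlinarith
  have hbd : ∀ k, k ≤ 7 → (∀ i j, |T' k i j| ≤ D ^ k * β) ∧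
      (∀ i j, |T' (k + 1) i j| ≤ D ^ (k + 1) * β) := by
    intro k
    induction k with
    | zero =>
      intro _
      refine ⟨fun i j => ?_, fun i j => ?_⟩
      · rw [hT0, pow_zero, one_mul]; exact hX'b i j
      · rw [hT1, zero_add, pow_one]
        exact (hY'b i j).trans (le_mul_of_one_le_left hβ0 hD1)
    | succ k ih =>
      intro hk
      obtain ⟨ih1, ih2⟩ := ih (by omega)
      refine ⟨ih2, fun i j => ?_⟩
      have hA := (hj (n + k) (by omega) (by omega)).2.1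
      rw [show k + 1 + 1 = k + 2 from rfl, hT'r k (by omega), Matrix.add_apply]
      have b1 := entry_bound hA ih2 i j
      have hp : 0 ≤ D ^ k * β := by positivity
      calc |T' k i j + (A (n + k) * T' (k + 1) * (A (n + k))ᵀ) i j|
          ≤ |T' k i j| + |(A (n + k) * T' (k + 1) * (A (n + k))ᵀ) i j| := abs_add_le _ _
        _ ≤ D ^ k * β + 4 * C0 ^ 2 * (D ^ (k + 1) * β) := add_le_add (ih1 i j) b1
        _ ≤ D ^ (k + 1) * β + 4 * C0 ^ 2 * (D ^ (k + 1) * β) := by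
            gcongr
            omega
        _ ≤ C0 ^ 2 * (D ^ (k + 1) * β) + 4 * C0 ^ 2 * (D ^ (k + 1) * β) := by
            have : 1 ≤ C0 ^ 2 := by nlinarith
            have h3 : 0 ≤ D ^ (k + 1) * β := by positivity
            nlinarith
        _ = D ^ (k + 2) * β := by rw [hDdef]; ring
  set κ := 2 * (D ^ 5 * β) * C0 / (l ^ 4 * a) with hκ
  have hκ0 : 0 ≤ κ := by positivity
  have hform : ∀ k, 4 ≤ k → k ≤ 5 → ∀ w, |qf (T k) w| ≤ κ * qf (SS (n + k) E l) w := by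
    intro k h4 h5 w
    set v := g'ᵀ.mulVec w with hv
    have hwv : w = gᵀ.mulVec v := by
      rw [hv, Matrix.mulVec_mulVec, hgt', Matrix.one_mulVec]
    rw [hwv, ← qf_congr g (T k) v, ← qf_congr g (SS (n + k) E l) v]
    have b1 : ∀ i j, |T' k i j| ≤ D ^ 5 * β := by
      intro i j
      refine ((hbd k (by omega)).1 i j).trans ?_
      gcongr
    have b2 := qf_bound b1 v
    have b3 := hlow (n + k) (by omega) (by omega) v
    have b4 : κ * (l ^ 4 / C0 * a * (v 0 ^ 2 + v 1 ^ 2)) = 2 * (D ^ 5 * β) * (v 0 ^ 2 + v 1 ^ 2) := by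
      rw [hκ]
      have hC00 : C0 ≠ 0 := by linarith
      field_simp
    calc |qf (g * T k * gᵀ) v| ≤ 2 * (D ^ 5 * β) * (v 0 ^ 2 + v 1 ^ 2) := b2
      _ = κ * (l ^ 4 / C0 * a * (v 0 ^ 2 + v 1 ^ 2)) := b4.symm
      _ ≤ κ * qf (g * SS (n + k) E l * gᵀ) v := mul_le_mul_of_nonneg_left b3 hκ0
  have hprop : ∀ k, (∀ w, |qf (T (k + 4)) w| ≤ κ * qf (SS (n + (k + 4)) E l) w) ∧
      (∀ w, |qf (T (k + 5)) w| ≤ κ * qf (SS (n + (k + 5)) E l) w) := by
    intro k
    induction k with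
    | zero => exact ⟨hform 4 le_rfl (by omega), hform 5 (by omega) le_rfl⟩
    | succ k ih =>
      refine ⟨?_, fun w => ?_⟩
      · rw [show k + 1 + 4 = k + 5 by omega]; exact ih.2
      · have h1 : T (k + 1 + 5) = T (k + 4) + MM (n + (k + 4)) E l * T (k + 5) *
            (MM (n + (k + 4)) E l)ᵀ := hTr (k + 4)
        have h2 : SS (n + (k + 1 + 5)) E l = SS (n + (k + 4)) E l + MM (n + (k + 4)) E l *
            SS (n + (k + 5)) E l * (MM (n + (k + 4)) E l)ᵀ := rfl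
        rw [h1, h2, qf_add, qf_add, qf_congr, qf_congr]
        have a1 := ih.1 w
        have a2 := ih.2 ((MM (n + (k + 4)) E l)ᵀ.mulVec w)
        rw [mul_add]
        exact (abs_add_le _ _).trans (add_le_add a1 a2)
  -- conclusion
  obtain ⟨k, hk⟩ : ∃ k, K - n = k + 4 := ⟨K - n - 4, by omega⟩
  have hKn : n + (K - n) = K := by omega
  have hmain : |(T (K - n) * Om * MM (n + (K - n)) E l).trace| ≤
      κ * |(SS (n + (K - n)) E l * Om * MM (n + (K - n)) E l).trace| := by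
    refine def_form (Sg_symm n E l hXs hYs _) (SS_symm _ E l) (MM_det _ E l) ?_ hκ0 ?_
    · rw [MM_trace, hKn, mul_div_cancel_left₀ _ two_ne_zero]; exact htK
    · rw [hk]; exact (hprop k).1
  have hlin2 : |lin n E l Z (K - n)| ≤ κ * |trE K E l| := by
    rw [hlin, trE_eq, abs_div, abs_div]
    rw [hKn] at hmain ⊢
    calc _ ≤ κ * |(SS K E l * Om * MM K E l).trace| / |(2 : ℝ)| :=
          div_le_div_of_nonneg_right hmain (abs_nonneg _)
      _ = _ := by ring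
  have hrho0 : 0 ≤ rho n E l := le_max_of_le_left (abs_nonneg _)
  have hfin : l ^ (6 + N) * rho n E l * κ ≤ ZZ := by
    have h1 : l ^ (6 + N) * rho n E l * κ ≤ l ^ (6 + N) * (C0 * a) * κ := by gcongr
    have h2 : l ^ (6 + N) * (C0 * a) * κ = l ^ N * (C0 * (2 * (D ^ 5 * 500) * C0)) * ZZ := by
      rw [hκ, hβ, pow_add]
      field_simp
    have h3 : l ^ N * (C0 * (2 * (D ^ 5 * 500) * C0)) ≤ 1 := by
      have hpos : 0 < C0 * (2 * (D ^ 5 * 500) * C0) := by positivity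
      have h4 : l ^ N ≤ (1 / 8) ^ N := pow_le_pow_left₀ hl.le hl8 N
      rw [← le_div_iff₀ hpos]
      exact h4.trans hN.le
    rw [h2] at h1
    exact h1.trans (mul_le_of_le_one_left hZZ0 h3)
  calc l ^ (6 + N) * rho n E l * |lin n E l Z (K - n)|
      ≤ l ^ (6 + N) * rho n E l * (κ * |trE K E l|) := by gcongr
    _ = (l ^ (6 + N) * rho n E l * κ) * |trE K E l| := by ring
    _ ≤ ZZ * |trE K E l| := mul_le_mul_of_nonneg_right hfin (abs_nonneg _)

end FIB
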