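import Pool.Agent.Helper75.FIB.Iface

/-!
# FIB block C1 : phase of a real rooted polynomial with large critical values

`d = natDegree >= 1`, `d` distinct real zeros (so all simple), `lc > 0`. By Rolle `p'` has `d - 1` real zeros, one in each gap between consecutive zeros; so all zeros of `p'` are real, simple,
`c_1 > c_2 > ... > c_{d-1}` (from right to left), interlacing with the zeros of `p`. The sign of `p(c_k)` is `(-1)^k` (right of the largest zero `p > 0`), and `|p(c_k)| >= 1`. On
`(c_{k+1}, c_k)` (with `c_0 = +∞`, `c_d = -∞`) `p` is strictly monotone, `(-1)^k p` is increasing; there `k(E) = k` (precisely `k(E) = k` for `c_{k+1} <= E < c_k`) and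
`θ(E) = π k + arccos((-1)^k clip p(E))` is continuous and nonincreasing. At `c_k`: the limit from the right is `π(k-1) + arccos((-1)^{k-1} clip p(c_k)) = π (k-1) + arccos(-1) = π k`, the value is
`π k + arccos((-1)^k clip p(c_k)) = π k + arccos 1`. `cos θ = (-1)^k (-1)^k clip p`. If `|p| >= 1` on `[E,∞)` then there are no zeros, hence no critical points, to the right of `E` and `p >= 1` there: `θ(E) = 0`. If `|p| >= 1` on
`(-∞,E]`: all critical points are `> E` (or at least `(-1)^d p(E) >= 1`, `k ∈ {d-1}`): `θ = π(d-1) + arccos(-1)`. If `|p(E)| < 1` then `p'(E) ≠ 0` (hypothesis), `E` is in an open interval where `k` is constant, and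
`sin θ = (-1)^k sqrt(1-p^2)`, sign of `p'(E)` is `(-1)^k`, chain rule with `Real.hasDerivAt_arccos`.
(A convenient way: show first that `θ` is the composition on each closed interval `[c_{k+1},c_k]`, then glue; or prove continuity at every point by cases.)
-/

namespace FIB

open Real MeasureTheory Set Filter Topology

theorem clip_neg_one_le (x : ℝ) : -1 ≤ clip x := le_max_left _ _

theorem clip_le_one (x : ℝ) : clip x ≤ 1 := max_le (by norm_num) (min_le_left _ _)

theorem clip_monotone : Monotone clip := fun _ _ h => max_le_max le_rfl (min_le_min le_rfl h)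

theorem clip_neg (x : ℝ) : clip (-x) = -clip x := by
  unfold clip
  rcases le_total x (-1) with h | h
  · rw [min_eq_left (by linarith), min_eq_right (by linarith), max_eq_left h, max_eq_right (by norm_num)]
    norm_num
  · rcases le_total x 1 with h' | h'
    · rw [min_eq_right (by linarith), min_eq_right h', max_eq_right h, max_eq_right (by linarith)]
    · rw [min_eq_right (by linarith), min_eq_left h', max_eq_left (by linarith), max_eq_right (by norm_num)]

theorem clip_pow (j : ℕ) (x : ℝ) : (-1) ^ j * clip x = clip ((-1) ^ j * x) := by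
  rcases neg_one_pow_eq_or ℝ j with h | h
  · rw [h, one_mul, one_mul]
  · rw [h, neg_one_mul, neg_one_mul, clip_neg]

theorem clip_of_one_le {x : ℝ} (h : 1 ≤ x) : clip x = 1 := by
  unfold clip; rw [min_eq_left h, max_eq_right (by norm_num)]

theorem clip_of_le_neg_one {x : ℝ} (h : x ≤ -1) : clip x = -1 := by
  unfold clip; rw [min_eq_right (by linarith), max_eq_left h]

theorem clip_of_abs_le {x : ℝ} (h : |x| ≤ 1) : clip x = x := by
  rw [abs_le] at h
  unfold clip; rw [min_eq_right h.2, max_eq_right h.1]

theorem continuous_clip : Continuous clip := by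
  unfold clip; fun_prop

theorem prod_sub_sign (C : Finset ℝ) (E : ℝ) :
    ∏ c ∈ C, (E - c) = (-1) ^ (C.filter (E < ·)).card * ∏ c ∈ C, |E - c| := by
  classical
  induction C using Finset.induction_on with
  | empty => simp
  | insert a s ha ih =>
    rw [Finset.prod_insert ha, Finset.prod_insert ha, ih, Finset.filter_insert]
    split_ifs with h
    · rw [Finset.card_insert_of_notMem (by simp [ha]), abs_of_neg (by linarith), pow_succ]
      ring
    · rw [abs_of_nonneg (by linarith)]
      ring

/-- the structure of a real rooted polynomial with large critical values -/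
theorem poly_struct (p : Polynomial ℝ) (hd : 1 ≤ p.natDegree) (hl : 0 < p.leadingCoeff)
    (hZ : Set.ncard {E : ℝ | p.eval E = 0} = p.natDegree) :
    ∃ C : Finset ℝ, C.card + 1 = p.natDegree ∧ (∀ c, c ∈ C ↔ p.derivative.eval c = 0) ∧
      (∀ E, 0 ≤ (-1) ^ (C.filter (E < ·)).card * p.derivative.eval E) ∧
      (∀ j < p.natDegree, ∃ z, p.eval z = 0 ∧ (C.filter (z < ·)).card = j) := by
  classical
  have hp0 : p ≠ 0 := by
    intro h; rw [h] at hd; simp at hd
  have hZ' : p.roots.toFinset.card = p.natDegree := by
    rw [← hZ, ← Set.ncard_coe_finset]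
    congr 1
    ext x
    simp [hp0]
  have hdc : p.derivative.coeff (p.natDegree - 1) = p.leadingCoeff * p.natDegree := by
    rw [Polynomial.coeff_derivative, Nat.sub_add_cancel hd, Polynomial.leadingCoeff]
    congr 1
    have : ((p.natDegree - 1 : ℕ) : ℝ) + 1 = p.natDegree := by
      rw [Nat.cast_sub hd]; push_cast; ring
    exact this
  have hdpos : 0 < p.derivative.coeff (p.natDegree - 1) := by
    rw [hdc]; exact mul_pos hl (by exact_mod_cast hd)
  have hdeg : p.derivative.natDegree = p.natDegree - 1 :=
    le_antisymm (Polynomial.natDegree_derivative_le p)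
      (Polynomial.le_natDegree_of_ne_zero hdpos.ne')
  have hp0' : p.derivative ≠ 0 := by
    intro h; rw [h] at hdpos; simp at hdpos
  have hlead : 0 < p.derivative.leadingCoeff := by
    rw [Polynomial.leadingCoeff, hdeg]; exact hdpos
  set C := p.derivative.roots.toFinset with hC
  have h1 : p.roots.toFinset.card ≤ C.card + 1 := Polynomial.card_roots_toFinset_le_derivative p
  have h2 : C.card ≤ Multiset.card p.derivative.roots := Multiset.toFinset_card_le _
  have h3 : Multiset.card p.derivative.roots ≤ p.derivative.natDegree := Polynomial.card_roots' _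
  have hcard : Multiset.card p.derivative.roots = p.derivative.natDegree := by omega
  have hCc : C.card + 1 = p.natDegree := by omega
  have hnd : p.derivative.roots.Nodup := by
    rw [← Multiset.toFinset_card_eq_card_iff_nodup]
    have : C.card = Multiset.card p.derivative.roots := by omega
    exact this
  have hmem : ∀ c, c ∈ C ↔ p.derivative.eval c = 0 := by
    intro c
    rw [hC, Multiset.mem_toFinset, Polynomial.mem_roots hp0', Polynomial.IsRoot]
  have hfac : ∀ E, p.derivative.eval E = p.derivative.leadingCoeff * ∏ c ∈ C, (E - c) := by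
    intro E
    conv_lhs => rw [← Polynomial.C_leadingCoeff_mul_prod_multiset_X_sub_C hcard]
    rw [Polynomial.eval_mul, Polynomial.eval_C, Polynomial.eval_multiset_prod, Multiset.map_map]
    congr 1
    have : p.derivative.roots = C.val := by
      rw [hC, Multiset.toFinset_val, hnd.dedup]
    rw [this]
    change (Multiset.map _ C.val).prod = (Multiset.map (fun c => E - c) C.val).prod
    congr 1
    apply Multiset.map_congr rfl
    intro x _
    simp
  refine ⟨C, hCc, hmem, ?_, ?_⟩
  · intro E
    rw [hfac E, prod_sub_sign, show ∀ a b c : ℝ, a * (b * (a * c)) = (a * a) * (b * c) by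
      intros; ring, ← mul_pow]
    simp only [mul_neg, mul_one, neg_neg, one_pow, one_mul]
    exact mul_nonneg hlead.le (Finset.prod_nonneg fun _ _ => abs_nonneg _)
  · -- the zeros are separated by the critical points
    have hinj : Set.InjOn (fun z => (C.filter (z < ·)).card) (p.roots.toFinset : Set ℝ) := by
      have key : ∀ z z' : ℝ, p.eval z = 0 → p.eval z' = 0 → z < z' →
          (C.filter (z' < ·)).card < (C.filter (z < ·)).card := by
        intro z z' hz hz' hlt
        obtain ⟨c, hc, hc0⟩ := exists_hasDerivAt_eq_zero (f := fun x => p.eval x)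
          (f' := fun x => p.derivative.eval x) hlt (p.continuous.continuousOn)
          (by simp only [hz, hz']) (fun x _ => p.hasDerivAt x)
        apply Finset.card_lt_card
        refine ⟨fun x hx => ?_, fun hsub => ?_⟩
        · rw [Finset.mem_filter] at hx ⊢
          exact ⟨hx.1, hlt.trans hx.2⟩
        · have : c ∈ C.filter (z' < ·) := hsub (Finset.mem_filter.mpr ⟨(hmem c).mpr hc0, hc.1⟩)
          exact absurd (Finset.mem_filter.mp this).2 (not_lt.mpr hc.2.le)
      intro z hz z' hz' h
      have e1 : p.eval z = 0 := by simpa [hp0] using hz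
      have e2 : p.eval z' = 0 := by simpa [hp0] using hz'
      simp only at h
      rcases lt_trichotomy z z' with hlt | heq | hgt
      · exact absurd h (key z z' e1 e2 hlt).ne'
      · exact heq
      · exact absurd h (key z' z e2 e1 hgt).ne
    have himg : p.roots.toFinset.image (fun z => (C.filter (z < ·)).card) = Finset.range p.natDegree := by
      apply Finset.eq_of_subset_of_card_le
      · intro j hj
        rw [Finset.mem_image] at hj
        obtain ⟨z, -, rfl⟩ := hj
        rw [Finset.mem_range]
        have := Finset.card_filter_le C (z < ·)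
        omega
      · rw [Finset.card_range, Finset.card_image_of_injOn hinj, hZ']
    intro j hj
    have : j ∈ p.roots.toFinset.image (fun z => (C.filter (z < ·)).card) := by
      rw [himg, Finset.mem_range]; exact hj
    rw [Finset.mem_image] at this
    obtain ⟨z, hz, hzj⟩ := this
    exact ⟨z, by simpa [hp0] using hz, hzj⟩

theorem filter_card_antitone (C : Finset ℝ) : Antitone fun E : ℝ => (C.filter (E < ·)).card := by
  intro a b hab
  apply Finset.card_le_card
  intro x hx
  rw [Finset.mem_filter] at hx ⊢
  exact ⟨hx.1, hab.trans_lt hx.2⟩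

theorem filter_right (C : Finset ℝ) (E0 : ℝ) :
    ∀ᶠ E in 𝓝[≥] E0, (C.filter (E < ·)).card = (C.filter (E0 < ·)).card := by
  have : ∀ᶠ E in 𝓝[≥] E0, ∀ c ∈ C, E0 < c → E < c := by
    rw [Filter.eventually_all_finset]
    intro c _
    by_cases h : E0 < c
    · filter_upwards [mem_nhdsWithin_of_mem_nhds (Iio_mem_nhds h)] with E hE _ using hE
    · exact Filter.Eventually.of_forall fun _ h' => absurd h' h
  filter_upwards [this, self_mem_nhdsWithin] with E hE hge
  congr 1
  apply Finset.filter_congr
  intro c hc
  exact ⟨fun h => lt_of_le_of_lt hge h, hE c hc⟩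

theorem filter_left (C : Finset ℝ) (E0 : ℝ) :
    ∀ᶠ E in 𝓝[<] E0, C.filter (E < ·) = C.filter (E0 ≤ ·) := by
  have : ∀ᶠ E in 𝓝[<] E0, ∀ c ∈ C, c < E0 → c < E := by
    rw [Filter.eventually_all_finset]
    intro c _
    by_cases h : c < E0
    · filter_upwards [mem_nhdsWithin_of_mem_nhds (Ioi_mem_nhds h)] with E hE _ using hE
    · exact Filter.Eventually.of_forall fun _ h' => absurd h' h
  filter_upwards [this, self_mem_nhdsWithin] with E hE hlt
  apply Finset.filter_congr
  intro c hc
  refine ⟨fun h => ?_, fun h => lt_of_lt_of_le hlt h⟩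
  by_contra hcon
  exact absurd (hE c hc (not_le.mp hcon)) (not_lt.mpr h.le)

theorem polyTheta : PolyTheta := by
  intro p hd hl hZ hcrit k θ hk hθ
  obtain ⟨C, hCc, hmem, hsgn, hzero⟩ := poly_struct p hd hl hZ
  have hk' : ∀ E, k E = (C.filter (E < ·)).card := by
    intro E
    rw [hk E, ← Set.ncard_coe_finset]
    congr 1
    ext c
    simp only [Set.mem_ofPred_eq, Finset.coe_filter, hmem]
    exact and_comm
  have hkanti : Antitone k := by
    intro a b hab
    rw [hk', hk']
    exact filter_card_antitone C hab
  have hsgn' : ∀ E, 0 ≤ (-1) ^ k E * p.derivative.eval E := by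
    intro E; rw [hk']; exact hsgn E
  have hzero' : ∀ j < p.natDegree, ∃ z, p.eval z = 0 ∧ k z = j := by
    intro j hj
    obtain ⟨z, h1, h2⟩ := hzero j hj
    exact ⟨z, h1, by rw [hk']; exact h2⟩
  -- monotonicity on intervals on which `k` is constant
  have hmono : ∀ (j : ℕ) (a b : ℝ), a ≤ b → k a = j → k b = j →
      (-1) ^ j * p.eval a ≤ (-1) ^ j * p.eval b := by
    intro j a b hab ha hb
    have hkc : ∀ x ∈ Icc a b, k x = j := by
      intro x hx
      apply le_antisymm
      · rw [← ha]; exact hkanti hx.1
      · rw [← hb]; exact hkanti hx.2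
    have := monotoneOn_of_hasDerivWithinAt_nonneg (D := Icc a b) (convex_Icc a b)
      (f := fun x => (-1) ^ j * p.eval x) (f' := fun x => (-1) ^ j * p.derivative.eval x)
      ((continuous_const.mul p.continuous).continuousOn)
      (fun x _ => ((p.hasDerivAt x).const_mul _).hasDerivWithinAt)
      (fun x hx => by
        have hx' : x ∈ Icc a b := interior_subset hx
        have := hsgn' x
        rw [hkc x hx'] at this
        exact this)
    exact this (left_mem_Icc.mpr hab) (right_mem_Icc.mpr hab) hab
  -- values at critical points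
  have hcv : ∀ c, c ∈ C → (-1) ^ k c * p.eval c ≤ -1 := by
    intro c hc
    have hlt : k c < p.natDegree := by
      rw [hk']
      have := Finset.card_filter_le C (c < ·)
      omega
    obtain ⟨z, hz, hkz⟩ := hzero' _ hlt
    have hpc := hcrit c ((hmem c).mp hc)
    have hcz : c < z := by
      by_contra hcon
      rcases (not_lt.mp hcon).lt_or_eq with h | h
      · -- then `c` is counted for `z` but not for `c`
        have : (C.filter (c < ·)).card < (C.filter (z < ·)).card := by
          apply Finset.card_lt_card
          refine ⟨fun x hx => ?_, fun hsub => ?_⟩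
          · rw [Finset.mem_filter] at hx ⊢
            exact ⟨hx.1, h.trans hx.2⟩
          · have : c ∈ C.filter (c < ·) := hsub (Finset.mem_filter.mpr ⟨hc, h⟩)
            exact absurd (Finset.mem_filter.mp this).2 (lt_irrefl _)
        rw [← hk', ← hk', hkz] at this
        exact lt_irrefl _ this
      · rw [← h, hz] at hpc
        simp at hpc
        linarith
    have h1 := hmono (k c) c z hcz.le rfl hkz
    rw [hz, mul_zero] at h1
    have h2 : |(-1) ^ k c * p.eval c| = |p.eval c| := by
      rw [abs_mul, abs_pow, abs_neg, abs_one, one_pow, one_mul]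
    rw [← h2, abs_of_nonpos h1] at hpc
    linarith
  have hf : ∀ (j : ℕ), Continuous fun E => π * j + Real.arccos ((-1) ^ j * clip (p.eval E)) := by
    intro j
    exact continuous_const.add (Real.continuous_arccos.comp
      (continuous_const.mul (continuous_clip.comp p.continuous)))
  have hright : ∀ E0, ContinuousWithinAt θ (Ioi E0) E0 := by
    intro E0
    rw [continuousWithinAt_Ioi_iff_Ici]
    refine ((hf (k E0)).continuousAt.continuousWithinAt (s := Ici E0)).congr_of_eventuallyEq ?_ (hθ E0)
    filter_upwards [filter_right C E0] with E hE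
    rw [hθ E, hk' E, hE, ← hk']
  have hleft : ∀ E0, ContinuousWithinAt θ (Iio E0) E0 := by
    intro E0
    by_cases hE0 : E0 ∈ C
    · have hval : θ E0 = π * ((k E0 + 1 : ℕ) : ℝ) +
          Real.arccos ((-1) ^ (k E0 + 1) * clip (p.eval E0)) := by
        rw [hθ E0, clip_pow, clip_of_le_neg_one (hcv E0 hE0), clip_pow, pow_succ,
          clip_of_one_le (by have := hcv E0 hE0; linarith), Real.arccos_neg_one, Real.arccos_one]
        push_cast; ring
      refine ((hf (k E0 + 1)).continuousAt.continuousWithinAt (s := Iio E0)).congr_of_eventuallyEq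
        ?_ hval
      filter_upwards [filter_left C E0] with E hE
      have : k E = k E0 + 1 := by
        rw [hk' E, hE, hk' E0]
        have : C.filter (E0 ≤ ·) = insert E0 (C.filter (E0 < ·)) := by
          ext x
          simp only [Finset.mem_filter, Finset.mem_insert]
          constructor
          · rintro ⟨h1, h2⟩
            rcases h2.lt_or_eq with h | h
            · exact Or.inr ⟨h1, h⟩
            · exact Or.inl h.symm
          · rintro (h | ⟨h1, h2⟩)
            · rw [h]; exact ⟨hE0, le_rfl⟩
            · exact ⟨h1, h2.le⟩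
        rw [this, Finset.card_insert_of_notMem (by simp)]
      rw [hθ E, this]
    · refine ((hf (k E0)).continuousAt.continuousWithinAt (s := Iio E0)).congr_of_eventuallyEq
        ?_ (hθ E0)
      filter_upwards [filter_left C E0] with E hE
      have : k E = k E0 := by
        rw [hk' E, hE, hk' E0]
        congr 1
        apply Finset.filter_congr
        intro x hx
        refine ⟨fun h => lt_of_le_of_ne h ?_, fun h => h.le⟩
        rintro rfl
        exact hE0 hx
      rw [hθ E, this]
  have hmem1 : ∀ E, |(-1) ^ k E * clip (p.eval E)| ≤ 1 := by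
    intro E
    rw [abs_mul, abs_pow, abs_neg, abs_one, one_pow, one_mul, abs_le]
    exact ⟨clip_neg_one_le _, clip_le_one _⟩
  refine ⟨?_, ?_, ?_, ?_, ?_, ?_⟩
  · rw [continuous_iff_continuousAt]
    intro E0
    rw [continuousAt_iff_continuous_left'_right']
    exact ⟨hleft E0, hright E0⟩
  · intro a b hab
    rcases (hkanti hab).lt_or_eq with h | h
    · rw [hθ a, hθ b]
      have h1 := Real.arccos_nonneg ((-1) ^ k a * clip (p.eval a))
      have h2 := Real.arccos_le_pi ((-1) ^ k b * clip (p.eval b))
      have h3 : ((k b : ℕ) : ℝ) + 1 ≤ k a := by exact_mod_cast h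
      nlinarith [Real.pi_pos]
    · rw [hθ a, hθ b, h, clip_pow, clip_pow]
      have := hmono (k a) a b hab rfl h
      have h2 := Real.arccos_le_arccos (clip_monotone this)
      linarith
  · intro E
    rw [hθ E, add_comm, mul_comm π, Real.cos_add_nat_mul_pi, Real.cos_arccos (abs_le.mp (hmem1 E)).1
      (abs_le.mp (hmem1 E)).2, ← mul_assoc, ← mul_pow]
    norm_num
  · intro E hE
    obtain ⟨z, hz, hkz⟩ := hzero' 0 (by omega)
    have hzE : z < E := by
      by_contra hcon
      have := hE z (not_lt.mp hcon)
      rw [hz] at this
      simp at this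
      linarith
    have hkE : k E = 0 := Nat.le_zero.mp (hkz ▸ hkanti hzE.le)
    have h1 := hmono 0 z E hzE.le hkz hkE
    rw [pow_zero, one_mul, one_mul, hz] at h1
    have h2 := hE E le_rfl
    rw [abs_of_nonneg h1] at h2
    rw [hθ E, hkE, pow_zero, one_mul, clip_of_one_le h2, Real.arccos_one]
    simp
  · intro E hE
    obtain ⟨z, hz, hkz⟩ := hzero' (p.natDegree - 1) (by omega)
    have hEz : E < z := by
      by_contra hcon
      have := hE z (not_lt.mp hcon)
      rw [hz] at this
      simp at this
      linarith
    have hkE : k E = p.natDegree - 1 := by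
      apply le_antisymm
      · rw [hk']
        have := Finset.card_filter_le C (E < ·)
        omega
      · rw [← hkz]; exact hkanti hEz.le
    have h1 := hmono _ E z hEz.le hkE hkz
    rw [hz, mul_zero] at h1
    have h2 := hE E le_rfl
    have h3 : |(-1) ^ (p.natDegree - 1) * p.eval E| = |p.eval E| := by
      rw [abs_mul, abs_pow, abs_neg, abs_one, one_pow, one_mul]
    rw [← h3, abs_of_nonpos h1] at h2
    rw [hθ E, hkE, clip_pow, clip_of_le_neg_one (by linarith), Real.arccos_neg_one, Nat.cast_sub hd]
    push_cast; ring
  · intro E hE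
    have hEC : E ∉ C := fun h => by
      have := hcrit E ((hmem E).mp h)
      linarith
    have hne : p.derivative.eval E ≠ 0 := fun h => hEC ((hmem E).mpr h)
    have hpos : 0 < (-1) ^ k E * p.derivative.eval E :=
      lt_of_le_of_ne (hsgn' E) (Ne.symm (mul_ne_zero (pow_ne_zero _ (by norm_num)) hne))
    have habs : |p.derivative.eval E| = (-1) ^ k E * p.derivative.eval E := by
      rw [← abs_of_pos hpos, abs_mul, abs_pow, abs_neg, abs_one, one_pow, one_mul]
    have hsq : 0 < 1 - p.eval E ^ 2 := by
      have := abs_lt.mp hE
      nlinarith [this.1, this.2]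
    have hy2 : ((-1) ^ k E * p.eval E) ^ 2 = p.eval E ^ 2 := by
      rw [mul_pow, ← pow_mul, mul_comm (k E), pow_mul]
      norm_num
    constructor
    · rw [hθ E, add_comm, mul_comm π, Real.sin_add_nat_mul_pi, Real.sin_arccos,
        clip_of_abs_le hE.le, hy2]
      have h1 := Real.sqrt_pos.mpr hsq
      calc (0 : ℝ) < √(1 - p.eval E ^ 2) * ((-1) ^ k E * p.derivative.eval E) := mul_pos h1 hpos
        _ = _ := by ring
    · have hev : θ =ᶠ[𝓝 E] fun x => π * k E + Real.arccos ((-1) ^ k E * p.eval x) := by
        have hc1 : ∀ᶠ x in 𝓝 E, |p.eval x| < 1 :=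
          (p.continuous.abs.continuousAt (x := E)).eventually_lt continuousAt_const hE
        have hc2 : ∀ᶠ x in 𝓝 E, k x = k E := by
          rw [← nhdsLT_sup_nhdsGE E, Filter.eventually_sup]
          constructor
          · filter_upwards [filter_left C E] with x hx
            rw [hk' x, hx, hk' E]
            congr 1
            apply Finset.filter_congr
            intro y hy
            refine ⟨fun h => lt_of_le_of_ne h ?_, fun h => h.le⟩
            rintro rfl
            exact hEC hy
          · filter_upwards [filter_right C E] with x hx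
            rw [hk' x, hx, ← hk']
        filter_upwards [hc1, hc2] with x h1 h2
        rw [hθ x, h2, clip_of_abs_le h1.le]
      have hy : |(-1) ^ k E * p.eval E| < 1 := by
        rw [abs_mul, abs_pow, abs_neg, abs_one, one_pow, one_mul]; exact hE
      have hd1 : HasDerivAt (fun x => π * k E + Real.arccos ((-1) ^ k E * p.eval x))
          (-(1 / √(1 - ((-1) ^ k E * p.eval E) ^ 2)) * ((-1) ^ k E * p.derivative.eval E)) E := by
        have h1 := Real.hasDerivAt_arccos (abs_lt.mp hy).1.ne' (abs_lt.mp hy).2.ne
        have h2 : HasDerivAt (fun x => (-1) ^ k E * p.eval x) ((-1) ^ k E * p.derivative.eval E) E :=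
          (p.hasDerivAt E).const_mul _
        exact (h1.comp E h2).const_add _
      rw [hy2, ← habs] at hd1
      refine (hd1.congr_of_eventuallyEq hev).congr_deriv ?_
      ring

end FIB
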