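import Pool.Agent.Helper75.FIB.Iface

/-!
# FIB block C10 : image of Lebesgue measure under the quantile function

For `t ∈ Rg K`, `e = EK K l t` is the unique point with `Θ_K(e) = π F_K t` (see C9; `hQ` gives `Th K l (EK K l t) = π F_K t`; uniqueness because `|x_K(e)| < 1` there and `Θ_K' < 0`). Since `Θ_K` is antitone: `a <= e` implies `t <= N(a)`; `e < b` implies `t > N(b)` or (`t = N(b)`: then `b` is a second preimage, impossible) so `t > N(b)`. Conversely
`N(b) < t < N(a)` implies `a < e < b`. So the set agrees with `Rg K ∩ (N(b), N(a)]` up to the point `t = N(a)`, and `Rg K` has full measure in `(0,1)`, `0 <= N <= 1`.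
-/

namespace FIB

open Real MeasureTheory Set Filter Topology

theorem qMeas (h : ThProps) (hQ : QuantileProps) : QMeas := by
  intro l hl hl8 K hK a b hab
  obtain ⟨-, hT2, -, -, -, -, hnull⟩ := hQ K hK
  obtain ⟨-, hanti, -, h3, h3', -⟩ := h l hl hl8 K
  have hF : (0 : ℝ) < Nat.fib K := by
    have := Nat.fib_pos.2 (Nat.pos_of_ne_zero (by omega) : 0 < K)
    exact_mod_cast this
  have hpF : 0 < π * (Nat.fib K : ℝ) := mul_pos Real.pi_pos hF
  have hT0 : ∀ E, 0 ≤ Th K l E := fun E => by
    rw [← h3 (max E 3) (le_max_right _ _)]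
    exact hanti (le_max_left _ _)
  have hT1 : ∀ E, Th K l E ≤ π * Nat.fib K := fun E => by
    rw [← h3' (min E (-3)) (min_le_right _ _)]
    exact hanti (min_le_left _ _)
  have hN0 : ∀ E, 0 ≤ NN K l E := fun E => div_nonneg (hT0 E) hpF.le
  have hN1 : ∀ E, NN K l E ≤ 1 := fun E => by
    unfold NN
    rw [div_le_one hpF]
    exact hT1 E
  have hNT : ∀ E, Th K l E = π * Nat.fib K * NN K l E := fun E => by
    unfold NN
    field_simp
  have hval : ∀ t ∈ Rg K, NN K l (EK K l t) = t := fun t ht => by
    have h1 := hT2 l hl hl8 t ⟨ht.1, ht.2.1⟩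
    unfold NN
    rw [h1, mul_div_cancel_left₀ _ hpF.ne']
  have hNanti : ∀ x y, x ≤ y → NN K l y ≤ NN K l x := fun x y hxy => by
    unfold NN
    exact div_le_div_of_nonneg_right (hanti hxy) hpF.le
  apply le_antisymm
  · calc volume {t : ℝ | t ∈ Rg K ∧ a ≤ EK K l t ∧ EK K l t < b}
        ≤ volume (Icc (NN K l b) (NN K l a)) := by
          apply measure_mono
          rintro t ⟨ht, h1, h2⟩
          refine ⟨?_, ?_⟩
          · rw [← hval t ht]
            exact hNanti _ _ h2.le
          · rw [← hval t ht]
            exact hNanti _ _ h1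
      _ = ENNReal.ofReal (NN K l a - NN K l b) := by rw [Real.volume_Icc]
  · calc ENNReal.ofReal (NN K l a - NN K l b)
        = volume (Ioo (NN K l b) (NN K l a)) := by rw [Real.volume_Ioo]
      _ ≤ volume ({t : ℝ | t ∈ Rg K ∧ a ≤ EK K l t ∧ EK K l t < b} ∪ (Ioo (0 : ℝ) 1 \ Rg K)) := by
          apply measure_mono
          intro t ht
          have h01 : t ∈ Ioo (0 : ℝ) 1 :=
            ⟨lt_of_le_of_lt (hN0 b) ht.1, lt_of_lt_of_le ht.2 (hN1 a)⟩
          by_cases htR : t ∈ Rg K
          · left
            refine ⟨htR, ?_, ?_⟩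
            · by_contra hlt
              push Not at hlt
              have := hNanti _ _ hlt.le
              rw [hval t htR] at this
              exact absurd ht.2 (not_lt.2 this)
            · by_contra hle
              push Not at hle
              have := hNanti _ _ hle
              rw [hval t htR] at this
              exact absurd ht.1 (not_lt.2 this)
          · right
            exact ⟨h01, htR⟩
      _ ≤ volume {t : ℝ | t ∈ Rg K ∧ a ≤ EK K l t ∧ EK K l t < b} +
          volume (Ioo (0 : ℝ) 1 \ Rg K) := measure_union_le _ _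
      _ = volume {t : ℝ | t ∈ Rg K ∧ a ≤ EK K l t ∧ EK K l t < b} := by rw [hnull, add_zero]

end FIB
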