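import Pool.Agent.Helper75.FIB.Iface

/-!
# FIB block C11 : phases are almost constant on small intervals

`SLoc` (with `ε = l`, `w = 0`, `z` real between): for `|E'' - E| <= |E' - E|`: `|x_j(E'') - x_j(E)| <= l^{-C'} |E' - E| rho n E l <= l^{C - C'} <= l^4`, `n <= j <= n+8`. If `|Θ_j(E') - Θ_j(E)| > l`, then by continuity and monotonicity `Θ_j` takes on `[E,E']` all values of an interval of length `l`, on which `cos` varies by at least
`1 - cos(l/2) >= l^2/16`; but `cos Θ_j = clip x_j` varies by at most `2 l^4` on `[E,E']`: contradiction since `2 l^4 < l^2/16` (`l <= 1/8` : `2 l^2 <= 1/32`).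
-/

namespace FIB

open Real MeasureTheory Set Filter Topology

theorem clip_lip_C11 (a b : ℝ) : |clip a - clip b| ≤ |a - b| := by
  unfold clip
  have h1 : |max (-1) (min 1 a) - max (-1) (min 1 b)| ≤ |min 1 a - min 1 b| := by
    rw [max_comm (-1) (min 1 a), max_comm (-1) (min 1 b)]
    exact abs_max_sub_max_le_abs _ _ _
  have h2 : |min 1 a - min 1 b| ≤ |a - b| := by
    rw [min_comm 1 a, min_comm 1 b]
    exact abs_min_sub_min_le_max _ _ _ _ |>.trans (by simp)
  exact h1.trans h2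

/-- cosine cannot be almost constant on an interval of length `l` -/
theorem cos_var_C11 (l θ s : ℝ) (hl : 0 < l) (hl8 : l ≤ 1 / 8) (hs : s = 1 ∨ s = -1)
    (h1 : |cos (θ + s * l) - cos θ| ≤ l ^ 4) (h2 : |cos (θ + s * (l / 2)) - cos θ| ≤ l ^ 4) :
    False := by
  set a := sin (l / 4) with ha
  set c := cos (l / 4) with hc
  have hac : a ^ 2 + c ^ 2 = 1 := Real.sin_sq_add_cos_sq _
  have ha1 : l / 5 ≤ a := by
    have := Real.sin_gt_sub_cube (x := l / 4) (by linarith)
    nlinarith [sq_nonneg l, mul_pos hl hl, mul_pos (mul_pos hl hl) hl]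
  have ha2 : a ≤ l / 4 := (Real.sin_lt (by linarith)).le
  have hl2 : sin (l / 2) = 2 * a * c := by
    rw [show l / 2 = 2 * (l / 4) by ring, Real.sin_two_mul]
  have hcl2 : cos (l / 2) = 1 - 2 * a ^ 2 := by
    rw [show l / 2 = 2 * (l / 4) by ring, Real.cos_two_mul]
    nlinarith
  have hc1 : 9 / 10 ≤ c ^ 2 := by nlinarith
  set m := θ + s * (l / 2) with hm
  have e1 : cos (θ + s * l) = cos m * cos (l / 2) - s * sin m * sin (l / 2) := by
    have : θ + s * l = m + s * (l / 2) := by rw [hm]; ring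
    rw [this, Real.cos_add]
    rcases hs with rfl | rfl
    · simp
    · simp
  have e2 : cos θ = cos m * cos (l / 2) + s * sin m * sin (l / 2) := by
    have : θ = m - s * (l / 2) := by rw [hm]; ring
    rw [this, Real.cos_sub]
    rcases hs with rfl | rfl
    · simp
    · simp
  have hmm := Real.sin_sq_add_cos_sq m
  have hs2 : s ^ 2 = 1 := by rcases hs with rfl | rfl <;> norm_num
  have hl4 : 0 < l ^ 4 := by positivity
  -- sine part
  have A1 : |2 * (s * sin m * sin (l / 2))| ≤ l ^ 4 := by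
    have : 2 * (s * sin m * sin (l / 2)) = -(cos (θ + s * l) - cos θ) := by
      rw [e1]; linear_combination -e2
    rw [this, abs_neg]; exact h1
  have A2 : |2 * cos m * (1 - cos (l / 2))| ≤ 3 * l ^ 4 := by
    have : 2 * cos m * (1 - cos (l / 2)) = 2 * (cos m - cos θ) - (cos (θ + s * l) - cos θ) := by
      rw [e1]; linear_combination e2
    rw [this]
    have t1 := abs_le.mp h1
    have t2 := abs_le.mp h2
    rw [abs_le]; constructor <;> linarith [t1.1, t1.2, t2.1, t2.2]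
  have B1 : (2 * (s * sin m * sin (l / 2))) ^ 2 ≤ (l ^ 4) ^ 2 := by
    rw [← sq_abs]; exact pow_le_pow_left₀ (abs_nonneg _) A1 2
  have B2 : (2 * cos m * (1 - cos (l / 2))) ^ 2 ≤ (3 * l ^ 4) ^ 2 := by
    rw [← sq_abs]; exact pow_le_pow_left₀ (abs_nonneg _) A2 2
  rw [hl2] at B1
  rw [hcl2] at B2
  have B1' : 16 * (a ^ 2 * c ^ 2) * sin m ^ 2 ≤ l ^ 8 := by nlinarith [B1, hs2]
  have B2' : 16 * a ^ 4 * cos m ^ 2 ≤ 9 * l ^ 8 := by nlinarith [B2]
  have ha2' : l ^ 2 / 25 ≤ a ^ 2 := by nlinarith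
  have ha4' : l ^ 4 / 625 ≤ a ^ 4 := by nlinarith [sq_nonneg l, sq_nonneg a]
  have C1 : l ^ 2 / 25 * (9 / 10) ≤ a ^ 2 * c ^ 2 := by
    apply mul_le_mul ha2' hc1 (by norm_num) (by positivity)
  have D1 : 16 * (l ^ 2 / 25 * (9 / 10)) * sin m ^ 2 ≤ l ^ 8 := by
    refine le_trans ?_ B1'
    have := mul_le_mul_of_nonneg_right C1 (sq_nonneg (sin m))
    linarith
  have D2 : 16 * (l ^ 4 / 625) * cos m ^ 2 ≤ 9 * l ^ 8 := by
    refine le_trans ?_ B2'
    have := mul_le_mul_of_nonneg_right ha4' (sq_nonneg (cos m))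
    linarith
  have hlpos2 : 0 < l ^ 2 := by positivity
  have E1 : sin m ^ 2 ≤ 2 * l ^ 6 := by
    have : l ^ 2 * (16 / 25 * (9 / 10) * sin m ^ 2) ≤ l ^ 2 * l ^ 6 := by nlinarith [D1]
    have := le_of_mul_le_mul_left this hlpos2
    nlinarith [this, sq_nonneg (sin m)]
  have E2 : cos m ^ 2 ≤ 360 * l ^ 4 := by
    have : l ^ 4 * (16 / 625 * cos m ^ 2) ≤ l ^ 4 * (9 * l ^ 4) := by nlinarith [D2]
    have := le_of_mul_le_mul_left this hl4
    nlinarith [this, sq_nonneg (cos m)]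
  have F1 : l ^ 4 ≤ (1 / 8) ^ 4 := pow_le_pow_left₀ hl.le hl8 4
  have F2 : l ^ 6 ≤ (1 / 8) ^ 6 := pow_le_pow_left₀ hl.le hl8 6
  norm_num at F1 F2
  linarith

theorem thClose (h : ThProps) (hS : SLoc) : ThClose := by
  obtain ⟨C, hC⟩ := hS
  refine ⟨C + 4, ?_⟩
  intro n E E' l hl hl8 hCr hE j hnj hj8
  obtain ⟨hcont, hanti, hcos, -, -, -⟩ := h l hl hl8 j
  have hrho : 0 ≤ rho n E l := le_max_of_le_left (abs_nonneg _)
  have hokl : Okl l l := ⟨hl, hl8, hl, by linarith⟩
  have hND : ND l n E l := Or.inl ⟨rfl, hCr⟩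
  -- closeness of the traces
  have hx : ∀ E'' : ℝ, |E'' - E| ≤ |E' - E| → |cos (Th j l E'') - cos (Th j l E)| ≤ l ^ 4 := by
    intro E'' hE''
    have h1 : |E'' - E| * rho n E l ≤ l ^ (C + 4) :=
      (mul_le_mul_of_nonneg_right hE'' hrho).trans hE
    have h2 : l ^ (C + 4) ≤ l ^ C := pow_le_pow_of_le_one hl.le (by linarith) (by omega)
    have h3 := hC n E l l hokl hND ((E'' - E : ℝ) : ℂ) 0 (by
      rw [norm_zero, add_zero, Complex.norm_real, Real.norm_eq_abs]; exact h1.trans h2) j hnj hj8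
    rw [norm_zero, add_zero, Complex.norm_real, Real.norm_eq_abs] at h3
    have h4 : ((E : ℂ) + ((E'' - E : ℝ) : ℂ)) = ((E'' : ℝ) : ℂ) := by push_cast; ring
    rw [h4, add_zero, tr_ofReal, ← Complex.ofReal_sub, Complex.norm_real, Real.norm_eq_abs] at h3
    have h5 : l ^ C * |tr j E'' l - tr j E l| ≤ l ^ C * l ^ 4 := by
      rw [← pow_add]; exact h3.trans h1
    have h6 := le_of_mul_le_mul_left h5 (by positivity)
    rw [hcos, hcos]
    exact (clip_lip_C11 _ _).trans h6
  by_contra hcon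
  push Not at hcon
  -- intermediate values
  have key : ∀ s : ℝ, (s = 1 ∨ s = -1) → s * (Th j l E' - Th j l E) > l → False := by
    intro s hs hgt
    have hiv : ∀ t : ℝ, 0 ≤ t → t ≤ l → ∃ E'', |E'' - E| ≤ |E' - E| ∧
        Th j l E'' = Th j l E + s * t := by
      intro t ht0 htl
      have hmem : Th j l E + s * t ∈ Set.uIcc (Th j l E) (Th j l E') := by
        rcases hs with rfl | rfl
        · rw [Set.mem_uIcc]; left; constructor <;> linarith
        · rw [Set.mem_uIcc]; right; constructor <;> linarith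
      obtain ⟨E'', hE'', he⟩ := intermediate_value_uIcc hcont.continuousOn hmem
      refine ⟨E'', ?_, he⟩
      exact Set.abs_sub_left_of_mem_uIcc hE''
    obtain ⟨E1, hE1, he1⟩ := hiv l hl.le le_rfl
    obtain ⟨E2, hE2, he2⟩ := hiv (l / 2) (by linarith) (by linarith)
    have k1 := hx E1 hE1
    have k2 := hx E2 hE2
    rw [he1] at k1
    rw [he2] at k2
    exact cos_var_C11 l _ s hl hl8 hs k1 k2
  rcases lt_abs.mp hcon with hc | hc
  · exact key 1 (Or.inl rfl) (by linarith)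
  · exact key (-1) (Or.inr rfl) (by linarith)

end FIB
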