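import Pool.Agent.Helper75.FIB.Iface

/-!
# FIB block C2 : band structure gives the phase

`n = 0`: `tr 0 = 1`, `trE 0 = 0`, the set `{c | E < c ∧ 0 = 0}` is infinite, `ncard = 0`, `Th 0 = arccos 1 = 0`, `clip 1 = 1`, `fib 0 = 0`.
`n >= 1`: let `p` be the polynomial in `E` with `p.eval E = tr n E l` (define it by the recursion), `natDegree p = fib n` (degree of `x_{n+3} = 2 x_{n+2} x_{n+1} - x_n`: `F_{n+2} + F_{n+1} = F_{n+3} > F_n`
for `n >= 1`, and `n = 0`: `x_3 = 2x_2x_1 - 1`), leading coefficient `> 0`, `p.derivative.eval E = trE n E l` (`hasDerivAt_tr_E`). Apply `PolyTheta` with `k E = crit n l E`, `θ = Th n l`.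
For `E >= 3` (`l <= 1/8`): `x_1, x_2 >= 1` and then `x_{n+3} = 2 x_{n+2} x_{n+1} - x_n >= 1` (prove `x_{n+2} >= 1, x_{n+1} >= 1`, `x_{n+3} >= x_{n+2}` ... e.g. the invariant `1 <= x_n`, `x_n <= x_{n+2} x_{n+1}`).
For `E <= -3`: `|x_j| >= 1` for all `j >= 1` similarly (`|x_{n+3}| >= 2|x_{n+2}||x_{n+1}| - |x_n|`, invariant `|x_n| <= |x_{n+1} x_{n+2}|`). So the hypotheses (for all `x >= E`) and (for all `x <= E`) hold.
-/

namespace FIB

open Real MeasureTheory Set Filter Topology

/-- the polynomial `x_n` in the variable `E` -/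
noncomputable def trPoly (l : ℝ) : ℕ → Polynomial ℝ
  | 0 => 1
  | 1 => Polynomial.C (1 / 2) * Polynomial.X
  | 2 => Polynomial.C (1 / 2) * (Polynomial.X - Polynomial.C l)
  | n + 3 => Polynomial.C 2 * (trPoly l (n + 2) * trPoly l (n + 1)) - trPoly l n

theorem trPoly_eval (l E : ℝ) (n : ℕ) : (trPoly l n).eval E = tr n E l := by
  induction n using ind3 with
  | h0 => simp [trPoly]
  | h1 => simp [trPoly]; ring
  | h2 => simp [trPoly]; ring
  | h n ih0 ih1 ih2 =>
    rw [trPoly, tr_add_three]
    simp only [Polynomial.eval_sub, Polynomial.eval_mul, Polynomial.eval_C, ih0, ih1, ih2]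
    ring

theorem trPoly_deriv (l E : ℝ) (n : ℕ) : (trPoly l n).derivative.eval E = trE n E l := by
  have h1 := (trPoly l n).hasDerivAt E
  have h2 : HasDerivAt (fun x => (trPoly l n).eval x) (trE n E l) E := by
    have h3 := hasDerivAt_tr_E n E l
    refine h3.congr_of_eventuallyEq (Filter.Eventually.of_forall fun x => ?_)
    exact trPoly_eval l x n
  exact h1.unique h2

theorem trPoly_deg (l : ℝ) (n : ℕ) :
    (trPoly l n).natDegree = Nat.fib n ∧ 0 < (trPoly l n).leadingCoeff := by
  induction n using ind3 with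
  | h0 => simp [trPoly]
  | h1 =>
    have : trPoly l 1 = Polynomial.C (1 / 2) * Polynomial.X := rfl
    rw [this, Polynomial.natDegree_C_mul_X _ (by norm_num), Polynomial.leadingCoeff_mul]
    simp
  | h2 =>
    have : trPoly l 2 = Polynomial.C (1 / 2) * (Polynomial.X - Polynomial.C l) := rfl
    rw [this, Polynomial.natDegree_C_mul (by norm_num), Polynomial.leadingCoeff_mul,
      Polynomial.natDegree_X_sub_C, Polynomial.leadingCoeff_X_sub_C]
    simp
  | h n ih0 ih1 ih2 =>
    have hrec : trPoly l (n + 3) =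
      Polynomial.C 2 * (trPoly l (n + 2) * trPoly l (n + 1)) - trPoly l n := rfl
    have hn1 : trPoly l (n + 1) ≠ 0 := by
      intro h; rw [h] at ih1; simp at ih1
    have hn2 : trPoly l (n + 2) ≠ 0 := by
      intro h; rw [h] at ih2; simp at ih2
    have hd : (Polynomial.C 2 * (trPoly l (n + 2) * trPoly l (n + 1))).natDegree =
        Nat.fib (n + 3) := by
      have e1 : Nat.fib (n + 3) = Nat.fib (n + 1) + Nat.fib (n + 2) := Nat.fib_add_two
      rw [Polynomial.natDegree_C_mul (by norm_num), Polynomial.natDegree_mul hn2 hn1, ih1.1, ih2.1,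
        e1]
      omega
    have hlc : 0 < (Polynomial.C 2 * (trPoly l (n + 2) * trPoly l (n + 1))).leadingCoeff := by
      rw [Polynomial.leadingCoeff_mul, Polynomial.leadingCoeff_mul, Polynomial.leadingCoeff_C]
      have := ih1.2; have := ih2.2
      positivity
    have hlt : Nat.fib n < Nat.fib (n + 3) := by
      have e1 : Nat.fib (n + 3) = Nat.fib (n + 1) + Nat.fib (n + 2) := Nat.fib_add_two
      have e2 : Nat.fib n ≤ Nat.fib (n + 1) := Nat.fib_le_fib_succ
      have e3 : 0 < Nat.fib (n + 2) := Nat.fib_pos.2 (by omega)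
      omega
    have hlt' : (trPoly l n).natDegree <
        (Polynomial.C 2 * (trPoly l (n + 2) * trPoly l (n + 1))).natDegree := by
      rw [hd, ih0.1]; exact hlt
    rw [hrec]
    refine ⟨?_, ?_⟩
    · rw [Polynomial.natDegree_sub_eq_left_of_natDegree_lt hlt', hd]
    · rw [Polynomial.leadingCoeff_sub_of_degree_lt (Polynomial.degree_lt_degree hlt')]
      exact hlc

theorem tr_large (l x : ℝ) (h0 : 0 < l) (h1 : l ≤ 1 / 8) (hx : 3 ≤ |x|) (n : ℕ) :
    1 ≤ |tr n x l| := by
  have key : 1 ≤ |tr n x l| ∧ 1 ≤ |tr (n + 1) x l| ∧ 1 ≤ |tr (n + 2) x l| ∧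
      |tr n x l| ≤ |tr (n + 1) x l| * |tr (n + 2) x l| := by
    induction n with
    | zero =>
      have a0 : |tr 0 x l| = 1 := by simp
      have a1 : 1 ≤ |tr (0 + 1) x l| := by
        rw [show (0 + 1) = 1 from rfl, tr_one, abs_div, abs_of_pos (by norm_num : (0 : ℝ) < 2)]
        linarith
      have a2 : 1 ≤ |tr (0 + 2) x l| := by
        rw [show (0 + 2) = 2 from rfl, tr_two, abs_div, abs_of_pos (by norm_num : (0 : ℝ) < 2)]
        have h3 : |x| - |l| ≤ |x - l| := abs_sub_abs_le_abs_sub x l
        rw [abs_of_pos h0] at h3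
        linarith
      refine ⟨a0.ge, a1, a2, ?_⟩
      rw [a0]
      nlinarith
    | succ n ih =>
      obtain ⟨i0, i1, i2, i3⟩ := ih
      have e : tr (n + 3) x l = 2 * tr (n + 2) x l * tr (n + 1) x l - tr n x l :=
        tr_add_three n x l
      have h3 : |tr (n + 1) x l| * |tr (n + 2) x l| ≤ |tr (n + 3) x l| := by
        rw [e]
        have h4 := abs_sub_abs_le_abs_sub (2 * tr (n + 2) x l * tr (n + 1) x l) (tr n x l)
        rw [abs_mul, abs_mul, abs_of_pos (by norm_num : (0 : ℝ) < 2)] at h4
        nlinarith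
      have h5 : |tr (n + 1) x l| ≤ |tr (n + 3) x l| := by nlinarith
      refine ⟨i1, i2, ?_, ?_⟩
      · show 1 ≤ |tr (n + 3) x l|
        nlinarith
      · show |tr (n + 1) x l| ≤ |tr (n + 2) x l| * |tr (n + 3) x l|
        nlinarith
  exact key.1

theorem clip_one : clip 1 = 1 := by
  unfold clip
  norm_num

theorem Th_zero (l E : ℝ) : Th 0 l E = 0 := by
  have hc : crit 0 l E = 0 := by
    unfold crit
    have : {c : ℝ | E < c ∧ trE 0 c l = 0} = Set.Ioi E := by
      ext c; simp
    rw [this]
    exact (Set.Ioi_infinite E).ncard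
  unfold Th
  rw [hc]
  simp [clip_one]

theorem thOfBand (h : PolyTheta) : ThOfBand := by
  intro l hl0 hl1 n hB
  rcases Nat.eq_zero_or_pos n with hn | hn
  · subst hn
    have hT : Th 0 l = fun _ => 0 := by
      funext E; exact Th_zero l E
    refine ⟨?_, ?_, ?_, ?_, ?_, ?_⟩
    · rw [hT]; exact continuous_const
    · rw [hT]; exact antitone_const
    · intro E; rw [Th_zero, tr_zero, clip_one, Real.cos_zero]
    · intro E _; exact Th_zero l E
    · intro E _; rw [Th_zero]; simp
    · intro E h1; omega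
  · have hb := hB hn
    obtain ⟨hd, hlc⟩ := trPoly_deg l n
    have hfib : 1 ≤ Nat.fib n := Nat.fib_pos.2 hn
    have hmain := h (trPoly l n) (by rw [hd]; exact hfib) hlc
      (by
        rw [hd, ← hb.1]
        congr 1
        ext E
        simp only [Set.mem_ofPred_eq, trPoly_eval])
      (by
        intro c hc
        rw [trPoly_eval]
        rw [trPoly_deriv] at hc
        exact hb.2 c hc)
      (crit n l) (Th n l)
      (by
        intro E
        unfold crit
        congr 1
        ext c
        simp only [Set.mem_ofPred_eq, trPoly_deriv])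
      (by
        intro E
        rw [trPoly_eval]
        rfl)
    obtain ⟨m1, m2, m3, m4, m5, m6⟩ := hmain
    refine ⟨m1, m2, ?_, ?_, ?_, ?_⟩
    · intro E
      rw [m3 E, trPoly_eval]
    · intro E hE
      refine m4 E (fun x hx => ?_)
      rw [trPoly_eval]
      refine tr_large l x hl0 hl1 ?_ n
      rw [abs_of_nonneg (by linarith)]
      linarith
    · intro E hE
      rw [m5 E ?_, hd]
      intro x hx
      rw [trPoly_eval]
      refine tr_large l x hl0 hl1 ?_ n
      rw [abs_of_nonpos (by linarith)]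
      linarith
    · intro E _ hE
      have := m6 E (by rw [trPoly_eval]; exact hE)
      rw [trPoly_eval, trPoly_deriv] at this
      exact this

end FIB
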