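import Pool.Agent.Helper75.FIB.Iface

/-!
# FIB block C3 : the basic relation between three consecutive phases

`S = Θ_n + Θ_{n+1}`, `x = x_n`, `y = x_{n+1}`, `z = x_{n+2}`; `cos Θ_n = clip x`, `cos Θ_{n+1} = clip y`, `(z - xy)^2 = (1-x^2)(1-y^2) + l^2/4` (`tr_inv_sq`).
`n = 0`: `Θ_0 = 0` (`cos Θ_0 = 1`; `Th 0 = 0` from ThAt: antitone and constant values), `cos S = clip x_1`, `|x_2 - x_1| = l/2`, clip is 1-Lipschitz. Let `n >= 1`.
(a) `|x|,|y| < 1`: `cos S = xy - sin Θ_n sin Θ_{n+1}`; `sin Θ_n sin Θ_{n+1}` has absolute value `P = sqrt((1-x^2)(1-y^2))` and the sign of `x' y'` (ThAt). By `Ori`, `z - xy = - sign(x'y') sqrt(P^2 + l^2/4)`. So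
`|z - cos S| = sqrt(P^2+l^2/4) - P <= l/2`.
(b) `|x| = 1` or `|y| = 1`, both `<= 1`: `P = 0`, `sin Θ_n sin Θ_{n+1} = 0`, `|z - xy| = l/2`.
(c) exactly one of them, `u`, has `|u| > 1`, `v` is the other one (`|v| <= 1`): `cos S = sgn(u) v` (the sine of the phase of `u` is `0`). `(z - uv)^2 = l^2/4 - (u^2-1)(1-v^2)`, so `(u^2-1)(1-v^2) <= l^2/4` and `|z - uv| <= l/2`. If `|u| - 1 <= l`: `|uv - sgn(u) v| <= l`,
total `3l/2`. If `|u| - 1 > l`: `1 - v^2 <= l^2/(4·2l) = l/8`, so `|v| >= 1 - l/8`, `|uv| >= (1+l)(1-l/8) >= 1 + l/2`, `|z| >= 1`, `clip z = sgn(uv)`, `|sgn(uv) - sgn(u) v| = 1 - |v| <= l/8`.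
(d) both `> 1` in absolute value: `cos S = sgn(xy)`; `|z| >= |xy| - sqrt((x^2-1)(y^2-1)) - l/2 >= 1 - l/2` and `z` has the sign of `xy`.
-/

namespace FIB

open Real MeasureTheory Set Filter Topology

theorem clip_self97 {a : ℝ} (h : |a| ≤ 1) : clip a = a := by
  have := abs_le.1 h
  unfold clip
  rw [min_eq_right this.2, max_eq_right this.1]

theorem clip_one97 {a : ℝ} (h : 1 ≤ a) : clip a = 1 := by
  unfold clip
  rw [min_eq_left h]
  exact max_eq_right (by norm_num)

theorem clip_neg97 (a : ℝ) : clip (-a) = -clip a := by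
  rcases le_total 1 a with h | h
  · rw [clip_one97 h]
    unfold clip
    rw [min_eq_right (by linarith : -a ≤ 1), max_eq_left (by linarith)]
  · rcases le_total a (-1) with h' | h'
    · rw [clip_one97 (by linarith : 1 ≤ -a)]
      unfold clip
      rw [min_eq_right h, max_eq_left h']
      norm_num
    · rw [clip_self97 (abs_le.2 ⟨h', h⟩), clip_self97]
      rw [abs_neg]
      exact abs_le.2 ⟨h', h⟩

theorem clip_abs97 (a : ℝ) : |clip a| ≤ 1 := by
  unfold clip
  rw [abs_le]
  exact ⟨le_max_left _ _, max_le (by norm_num) (min_le_left _ _)⟩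

theorem clip_mono97 {a b : ℝ} (h : a ≤ b) : clip a ≤ clip b := by
  unfold clip
  exact max_le_max le_rfl (min_le_min le_rfl h)

theorem clip_lip97 (a b : ℝ) : |clip a - clip b| ≤ |a - b| := by
  unfold clip
  rw [abs_le]
  have h := abs_le.1 (le_refl |a - b|)
  have h0 := abs_nonneg (a - b)
  simp only [max_def, min_def]
  constructor <;> split_ifs <;> linarith

/-- case (c), normalised signs -/
theorem caseC97 {x y z l : ℝ} (hl : 0 < l) (hl8 : l ≤ 1 / 8) (hx : 1 < x) (hy0 : 0 ≤ y)
    (hy : y ≤ 1) (hw : (z - x * y) ^ 2 = (1 - x ^ 2) * (1 - y ^ 2) + l ^ 2 / 4) :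
    |clip z - y| ≤ 2 * l := by
  have hyc : clip y = y := clip_self97 (abs_le.2 ⟨by linarith, hy⟩)
  have h1 : 0 ≤ (x ^ 2 - 1) * (1 - y ^ 2) :=
    mul_nonneg (by nlinarith) (by nlinarith)
  have h2 : (z - x * y) ^ 2 ≤ (l / 2) ^ 2 := by
    rw [hw]
    nlinarith
  have h3 : |z - x * y| ≤ l / 2 := abs_le_of_sq_le_sq h2 (by linarith)
  rcases le_or_gt x (1 + l) with h4 | h4
  · have h5 : |z - y| ≤ 2 * l := by
      have h6 := abs_le.1 h3
      rw [abs_le]
      constructor
      · nlinarith
      · nlinarith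
    rw [← hyc]
    exact (clip_lip97 z y).trans h5
  · have h5 : 1 - y ^ 2 ≤ l / 8 := by
      by_contra hc
      push Not at hc
      have h6 : 2 * l < x ^ 2 - 1 := by nlinarith
      have h7 : 2 * l * (l / 8) < (x ^ 2 - 1) * (1 - y ^ 2) := by
        have := mul_lt_mul'' h6 hc (by positivity) (by positivity)
        exact this
      nlinarith [sq_nonneg (z - x * y)]
    have h6 : 1 - l / 8 ≤ y := by nlinarith
    have h7 : 1 + l / 2 ≤ x * y := by nlinarith
    have h8 : 1 ≤ z := by
      have := (abs_le.1 h3).1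
      linarith
    rw [clip_one97 h8, abs_le]
    constructor <;> linarith

theorem caseC'97 {x y z l : ℝ} (hl : 0 < l) (hl8 : l ≤ 1 / 8) (hx : 1 < x) (hy : |y| ≤ 1)
    (hw : (z - x * y) ^ 2 = (1 - x ^ 2) * (1 - y ^ 2) + l ^ 2 / 4) :
    |clip z - y| ≤ 2 * l := by
  rcases le_total 0 y with h | h
  · exact caseC97 hl hl8 hx h (abs_le.1 hy).2 hw
  · have h1 := caseC97 (z := -z) (y := -y) hl hl8 hx (by linarith)
      (by have := (abs_le.1 hy).1; linarith) (by rw [neg_sq, ← hw]; ring)
    rw [clip_neg97] at h1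
    rw [← abs_neg]
    convert h1 using 2
    ring

theorem caseC''97 {x y z l : ℝ} (hl : 0 < l) (hl8 : l ≤ 1 / 8) (hx : 1 < |x|) (hy : |y| ≤ 1)
    (hw : (z - x * y) ^ 2 = (1 - x ^ 2) * (1 - y ^ 2) + l ^ 2 / 4) :
    |clip z - clip x * y| ≤ 2 * l := by
  rcases le_total 0 x with h | h
  · rw [abs_of_nonneg h] at hx
    rw [clip_one97 hx.le, one_mul]
    exact caseC'97 hl hl8 hx hy hw
  · rw [abs_of_nonpos h] at hx
    have h1 := caseC'97 (z := -z) (x := -x) hl hl8 hx hy (by rw [neg_sq, ← hw]; ring)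
    have h2 : clip x = -1 := by
      have := clip_one97 hx.le
      rw [clip_neg97] at this
      linarith
    rw [clip_neg97] at h1
    rw [h2, ← abs_neg]
    convert h1 using 2
    ring

/-- case (d), normalised signs -/
theorem caseD97 {x y z l : ℝ} (hl : 0 < l) (hx : 1 < x) (hy : 1 < y)
    (hw : (z - x * y) ^ 2 = (1 - x ^ 2) * (1 - y ^ 2) + l ^ 2 / 4) :
    |clip z - 1| ≤ 2 * l := by
  have h1 : 1 - l / 2 ≤ z := by
    by_contra hc
    push Not at hc
    have h2 : 0 < x * y - 1 := by nlinarith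
    have h3 : x * y - 1 + l / 2 < x * y - z := by linarith
    have h4 : (x * y - 1 + l / 2) ^ 2 < (x * y - z) ^ 2 := by
      apply pow_lt_pow_left₀ h3 (by linarith) (by norm_num)
    have h5 : (x * y - 1) ^ 2 = (1 - x ^ 2) * (1 - y ^ 2) + (x - y) ^ 2 := by ring
    nlinarith [sq_nonneg (x - y), mul_pos hl h2]
  have h2 : clip (1 - l / 2) ≤ clip z := clip_mono97 h1
  have h3 := clip_lip97 (1 - l / 2) 1
  have h4 : clip 1 = 1 := clip_one97 le_rfl
  have h5 : |1 - l / 2 - 1| = l / 2 := by
    rw [show 1 - l / 2 - 1 = -(l / 2) by ring, abs_neg, abs_of_pos (by linarith)]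
  rw [h4, h5] at h3
  have h6 := (abs_le.1 h3).1
  have h7 := (abs_le.1 (clip_abs97 z)).2
  rw [abs_le]
  constructor <;> linarith

theorem caseD'97 {x y z l : ℝ} (hl : 0 < l) (hx : 1 < x) (hy : 1 < |y|)
    (hw : (z - x * y) ^ 2 = (1 - x ^ 2) * (1 - y ^ 2) + l ^ 2 / 4) :
    |clip z - clip y| ≤ 2 * l := by
  rcases le_total 0 y with h | h
  · rw [abs_of_nonneg h] at hy
    rw [clip_one97 hy.le]
    exact caseD97 hl hx hy hw
  · rw [abs_of_nonpos h] at hy
    have h1 := caseD97 (z := -z) (y := -y) hl hx hy (by rw [neg_sq, ← hw]; ring)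
    have h2 : clip y = -1 := by
      have := clip_one97 hy.le
      rw [clip_neg97] at this
      linarith
    rw [clip_neg97] at h1
    rw [h2, ← abs_neg]
    convert h1 using 2
    ring

theorem caseD''97 {x y z l : ℝ} (hl : 0 < l) (hx : 1 < |x|) (hy : 1 < |y|)
    (hw : (z - x * y) ^ 2 = (1 - x ^ 2) * (1 - y ^ 2) + l ^ 2 / 4) :
    |clip z - clip x * clip y| ≤ 2 * l := by
  rcases le_total 0 x with h | h
  · rw [abs_of_nonneg h] at hx
    rw [clip_one97 hx.le, one_mul]
    exact caseD'97 hl hx hy hw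
  · rw [abs_of_nonpos h] at hx
    have h1 := caseD'97 (z := -z) (x := -x) hl hx hy (by rw [neg_sq, ← hw]; ring)
    have h2 : clip x = -1 := by
      have := clip_one97 hx.le
      rw [clip_neg97] at this
      linarith
    rw [clip_neg97] at h1
    rw [h2, ← abs_neg]
    convert h1 using 2
    ring

/-- case (a) and (b) -/
theorem caseA97 {x y z l s : ℝ} (hl : 0 < l) (hs : s ^ 2 = (1 - x ^ 2) * (1 - y ^ 2))
    (hw : (z - x * y) ^ 2 = (1 - x ^ 2) * (1 - y ^ 2) + l ^ 2 / 4) (hws : (z - x * y) * s ≤ 0) :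
    |z - (x * y - s)| ≤ l / 2 := by
  apply abs_le_of_sq_le_sq _ (by linarith)
  have h1 : (z - x * y) * s ≤ -s ^ 2 := by
    have h2 : s ^ 2 ≤ |(z - x * y) * s| := by
      rw [abs_mul]
      have h3 : |s| ≤ |z - x * y| := by
        apply sq_le_sq.1
        nlinarith
      calc s ^ 2 = |s| * |s| := by rw [← sq, sq_abs]
        _ ≤ |z - x * y| * |s| := by gcongr
    rw [abs_of_nonpos hws] at h2
    linarith
  nlinarith

theorem relStep (hO : Ori) (hV : PosV) : RelStep := by
  intro l hl hl8 n hn hn1 E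
  set x := tr n E l with hx
  set y := tr (n + 1) E l with hy
  set z := tr (n + 2) E l with hz
  have hw : (z - x * y) ^ 2 = (1 - x ^ 2) * (1 - y ^ 2) + l ^ 2 / 4 := tr_inv_sq n E l
  have ca := hn.2.2.1 E
  have cb := hn1.2.2.1 E
  rw [← hx] at ca
  rw [← hy] at cb
  set a := Th n l E
  set b := Th (n + 1) l E
  have sa2 := Real.sin_sq_add_cos_sq a
  have sb2 := Real.sin_sq_add_cos_sq b
  rw [ca] at sa2
  rw [cb] at sb2
  rw [Real.cos_add, ca, cb]
  -- sines vanish outside
  have hsa : 1 ≤ |x| → Real.sin a = 0 := by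
    intro h
    have h1 : clip x ^ 2 = 1 := by
      rcases le_total 0 x with h2 | h2
      · rw [abs_of_nonneg h2] at h
        rw [clip_one97 h]
        norm_num
      · rw [abs_of_nonpos h2] at h
        have := clip_one97 h
        rw [clip_neg97] at this
        nlinarith
    have h2 : Real.sin a ^ 2 = 0 := by linarith
    exact pow_eq_zero_iff (by norm_num) |>.1 h2
  have hsb : 1 ≤ |y| → Real.sin b = 0 := by
    intro h
    have h1 : clip y ^ 2 = 1 := by
      rcases le_total 0 y with h2 | h2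
      · rw [abs_of_nonneg h2] at h
        rw [clip_one97 h]
        norm_num
      · rw [abs_of_nonpos h2] at h
        have := clip_one97 h
        rw [clip_neg97] at this
        nlinarith
    have h2 : Real.sin b ^ 2 = 0 := by linarith
    exact pow_eq_zero_iff (by norm_num) |>.1 h2
  rcases le_or_gt |x| 1 with h1 | h1
  · rcases le_or_gt |y| 1 with h2 | h2
    · -- cases (a), (b)
      have hcx := clip_self97 h1
      have hcy := clip_self97 h2
      rw [hcx] at sa2
      rw [hcy] at sb2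
      have hs : (Real.sin a * Real.sin b) ^ 2 = (1 - x ^ 2) * (1 - y ^ 2) := by
        rw [mul_pow]
        congr 1 <;> linarith
      have hws : (z - x * y) * (Real.sin a * Real.sin b) ≤ 0 := by
        rcases h1.lt_or_eq with h3 | h3
        · rcases h2.lt_or_eq with h4 | h4
          · have hn0 : 1 ≤ n := by
              rcases Nat.eq_zero_or_pos n with h5 | h5
              · exfalso
                rw [hx, h5, tr_zero] at h3
                norm_num at h3
              · exact h5
            have e1 := (hO n E l hn0).1 h3 h4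
            have e2 := (hn.2.2.2.2.2 E hn0 h3).1
            have e3 := (hn1.2.2.2.2.2 E (by omega) h4).1
            have e4 : 0 < (Real.sin a * trE n E l) * (Real.sin b * trE (n + 1) E l) :=
              mul_pos e2 e3
            by_contra hc
            push Not at hc
            have e5 : (z - x * y) * (trE n E l * trE (n + 1) E l) *
                ((z - x * y) * (Real.sin a * Real.sin b)) < 0 :=
              mul_neg_of_neg_of_pos e1 hc
            have e6 : (z - x * y) * (trE n E l * trE (n + 1) E l) *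
                ((z - x * y) * (Real.sin a * Real.sin b)) = (z - x * y) ^ 2 *
                ((Real.sin a * trE n E l) * (Real.sin b * trE (n + 1) E l)) := by ring
            rw [e6] at e5
            have e7 := mul_nonneg (sq_nonneg (z - x * y)) e4.le
            linarith
          · rw [hsb h4.ge]
            simp
        · rw [hsa h3.ge]
          simp
      have h3 := caseA97 hl hs hw hws
      rw [hcx, hcy]
      have h4 : |x * y - Real.sin a * Real.sin b| ≤ 1 := by
        have : x * y - Real.sin a * Real.sin b = Real.cos (a + b) := by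
          rw [Real.cos_add, ca, cb, hcx, hcy]
        rw [this]
        exact Real.abs_cos_le_one _
      have h5 := clip_lip97 z (x * y - Real.sin a * Real.sin b)
      rw [clip_self97 h4] at h5
      linarith
    · rw [hsb h2.le, mul_zero, sub_zero, clip_self97 h1, mul_comm]
      exact caseC''97 hl hl8 h2 h1 (by rw [mul_comm y x, hw]; ring)
  · rcases le_or_gt |y| 1 with h2 | h2
    · rw [hsa h1.le, zero_mul, sub_zero, clip_self97 h2]
      exact caseC''97 hl hl8 h1 h2 hw
    · rw [hsa h1.le, zero_mul, sub_zero]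
      exact caseD''97 hl h1 h2 hw

end FIB
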