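import Pool.Agent.Helper75.FIB.Iface

/-!
# FIB block C4 : induction step of the band structure

`S = Θ_n + Θ_{n+1}` is continuous, nonincreasing, `0` for `E >= 3` and `π F_{n+2}` for `E <= -3`. For `0 <= j <= F_{n+2}` choose `E_j` with `S(E_j) = j π` (IVT), `E_0 > E_1 > ...`. At `E_j`: `|clip x_{n+2} - (-1)^j| <= 2l <= 1/4`, so
`x_{n+2}(E_j)` has the sign `(-1)^j`: at least `F_{n+2}` distinct real zeros; the polynomial has degree `F_{n+2}` (degree of `tr`, see C2), so exactly `F_{n+2}`. (`ncard` of the zero set.)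
If `trE (n+2) c l = 0` then `|x_{n+2}(c)| >= 1` by `PosV` (`n + 2 >= 1`).
-/

namespace FIB

open Real MeasureTheory Set Filter Topology

namespace C4

/-- the trace polynomials as polynomials in the energy -/
noncomputable def pl (l : ℝ) : ℕ → Polynomial ℝ
  | 0 => 1
  | 1 => Polynomial.C (1 / 2) * Polynomial.X
  | 2 => Polynomial.C (1 / 2) * (Polynomial.X - Polynomial.C l)
  | n + 3 => Polynomial.C 2 * pl l (n + 2) * pl l (n + 1) - pl l n

theorem eval_pl (l : ℝ) (n : ℕ) (E : ℝ) : (pl l n).eval E = tr n E l := by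
  induction n using ind3 with
  | h0 => simp [pl]
  | h1 => simp [pl]; ring
  | h2 => simp [pl]; ring
  | h n ih0 ih1 ih2 =>
    rw [pl, tr_add_three, Polynomial.eval_sub, Polynomial.eval_mul, Polynomial.eval_mul,
      Polynomial.eval_C, ih0, ih1, ih2]

theorem natDegree_pl (l : ℝ) (n : ℕ) : (pl l n).natDegree ≤ Nat.fib n := by
  induction n using ind3 with
  | h0 => simp [pl]
  | h1 =>
    refine (Polynomial.natDegree_C_mul_le _ _).trans ?_
    simp
  | h2 =>
    refine (Polynomial.natDegree_C_mul_le _ _).trans ?_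
    rw [Polynomial.natDegree_X_sub_C]
    simp
  | h n ih0 ih1 ih2 =>
    have hf : Nat.fib (n + 3) = Nat.fib (n + 1) + Nat.fib (n + 2) := Nat.fib_add_two
    have hm : Nat.fib n ≤ Nat.fib (n + 3) := Nat.fib_mono (by omega)
    rw [pl]
    refine (Polynomial.natDegree_sub_le _ _).trans (max_le ?_ (ih0.trans hm))
    refine Polynomial.natDegree_mul_le.trans ?_
    have h2 : (Polynomial.C 2 * pl l (n + 2)).natDegree ≤ Nat.fib (n + 2) :=
      (Polynomial.natDegree_C_mul_le _ _).trans ih2
    omega

theorem continuous_tr (n : ℕ) (l : ℝ) : Continuous (fun E : ℝ => tr n E l) :=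
  continuous_iff_continuousAt.2 fun E => (hasDerivAt_tr_E n E l).continuousAt

theorem clip_pos {x : ℝ} (h : |clip x - 1| ≤ 1 / 4) : 0 < x := by
  by_contra hx
  have hx : x ≤ 0 := not_lt.1 hx
  have h1 : clip x ≤ 0 := by
    unfold clip
    exact max_le (by norm_num) ((min_le_right _ _).trans hx)
  have := (abs_le.1 h).1
  linarith

theorem clip_neg {x : ℝ} (h : |clip x - (-1)| ≤ 1 / 4) : x < 0 := by
  by_contra hx
  have hx : 0 ≤ x := not_lt.1 hx
  have h1 : 0 ≤ clip x := by
    unfold clip
    exact le_max_of_le_right (le_min (by norm_num) hx)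
  have := (abs_le.1 h).2
  linarith

end C4

theorem bandStep (hV : PosV) : BandStep := by
  intro l hl hl8 n hn hn1 hrel
  refine ⟨?_, ?_⟩
  swap
  · intro c hc
    by_contra hlt
    exact (hV (n + 2) c l (by omega) (not_le.1 hlt)).1 hc
  set F : ℕ := Nat.fib (n + 2) with hF
  have hFe : (F : ℝ) = Nat.fib n + Nat.fib (n + 1) := by
    rw [hF, Nat.fib_add_two]
    push_cast
    ring
  let S : ℝ → ℝ := fun E => Th n l E + Th (n + 1) l E
  have hSc : Continuous S := hn.1.add hn1.1
  have hSa : Antitone S := fun a b hab => add_le_add (hn.2.1 hab) (hn1.2.1 hab)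
  have hS3 : S 3 = 0 := by
    simp only [S]
    rw [hn.2.2.2.1 3 le_rfl, hn1.2.2.2.1 3 le_rfl, add_zero]
  have hSm3 : S (-3) = π * F := by
    simp only [S]
    rw [hn.2.2.2.2.1 (-3) le_rfl, hn1.2.2.2.2.1 (-3) le_rfl, hFe]
    ring
  have hex : ∀ j : ℕ, j ≤ F → ∃ E, S E = j * π := by
    intro j hj
    have hj' : (j : ℝ) ≤ F := by exact_mod_cast hj
    have hmem : (j : ℝ) * π ∈ Icc (S 3) (S (-3)) := by
      rw [hS3, hSm3]
      refine ⟨by positivity, ?_⟩
      rw [mul_comm]
      exact mul_le_mul_of_nonneg_left hj' Real.pi_pos.le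
    obtain ⟨E, -, hE⟩ := intermediate_value_Icc' (by norm_num : (-3 : ℝ) ≤ 3) hSc.continuousOn hmem
    exact ⟨E, hE⟩
  choose! e he using hex
  have hanti : ∀ j : ℕ, j + 1 ≤ F → e (j + 1) < e j := by
    intro j hj
    by_contra hle
    have h1 := hSa (not_lt.1 hle)
    rw [he j (by omega), he (j + 1) hj] at h1
    push_cast at h1
    have := Real.pi_pos
    linarith
  have hsign : ∀ j : ℕ, j ≤ F → 0 < (-1 : ℝ) ^ j * tr (n + 2) (e j) l := by
    intro j hj
    have h1 := hrel (e j)
    have h2 : Th n l (e j) + Th (n + 1) l (e j) = j * π := he j hj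
    rw [h2, Real.cos_nat_mul_pi] at h1
    have h3 : |clip (tr (n + 2) (e j) l) - (-1) ^ j| ≤ 1 / 4 := by linarith
    rcases neg_one_pow_eq_or ℝ j with h4 | h4
    · rw [h4] at h3 ⊢
      rw [one_mul]
      exact C4.clip_pos h3
    · rw [h4] at h3 ⊢
      have := C4.clip_neg h3
      linarith
  have hz : ∀ j : ℕ, j < F → ∃ z, e (j + 1) < z ∧ z < e j ∧ tr (n + 2) z l = 0 := by
    intro j hj
    have h1 := hanti j hj
    have h2 := hsign j hj.le
    have h3 := hsign (j + 1) hj
    have h4 : (-1 : ℝ) ^ j * tr (n + 2) (e (j + 1)) l < 0 := by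
      rw [pow_succ] at h3
      linarith
    have hc : Continuous (fun E : ℝ => (-1 : ℝ) ^ j * tr (n + 2) E l) :=
      continuous_const.mul (C4.continuous_tr (n + 2) l)
    obtain ⟨z, hz1, hz2⟩ := intermediate_value_Icc h1.le hc.continuousOn ⟨h4.le, h2.le⟩
    have hz2 : (-1 : ℝ) ^ j * tr (n + 2) z l = 0 := hz2
    have hne : (-1 : ℝ) ^ j ≠ 0 := pow_ne_zero _ (by norm_num)
    have hz3 : tr (n + 2) z l = 0 := (mul_eq_zero.1 hz2).resolve_left hne
    refine ⟨z, lt_of_le_of_ne hz1.1 ?_, lt_of_le_of_ne hz1.2 ?_, hz3⟩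
    · rintro rfl
      rw [hz2] at h4
      exact lt_irrefl _ h4
    · rintro rfl
      rw [hz2] at h2
      exact lt_irrefl _ h2
  choose! z hz1 hz2 hz3 using hz
  have hzlt : ∀ j k : ℕ, j < k → k < F → z k < z j := by
    intro j k hjk
    induction k, hjk using Nat.le_induction with
    | base =>
      intro hk
      exact (hz2 (j + 1) hk).trans (hz1 j (by omega))
    | succ k hk ih =>
      intro hkF
      have h1 := ih (by omega)
      exact ((hz2 (k + 1) hkF).trans (hz1 k (by omega))).trans h1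
  have hne : C4.pl l (n + 2) ≠ 0 := by
    intro h0
    have h1 := hsign 0 (by omega)
    rw [← C4.eval_pl, h0] at h1
    simp at h1
  have hset : {E : ℝ | tr (n + 2) E l = 0} = ((C4.pl l (n + 2)).roots.toFinset : Set ℝ) := by
    ext E
    rw [Set.mem_ofPred_eq, Finset.mem_coe, Multiset.mem_toFinset, Polynomial.mem_roots hne,
      Polynomial.IsRoot.def, C4.eval_pl]
  rw [hset, Set.ncard_coe_finset]
  apply le_antisymm
  · refine (Multiset.toFinset_card_le _).trans ?_
    exact (Polynomial.card_roots' _).trans (C4.natDegree_pl l (n + 2))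
  · have hinj : Set.InjOn z (Finset.range F : Set ℕ) := by
      intro j hj k hk hjk
      have hj : j < F := by simpa using hj
      have hk : k < F := by simpa using hk
      rcases lt_trichotomy j k with h | h | h
      · exact absurd hjk (hzlt j k h hk).ne'
      · exact h
      · exact absurd hjk (hzlt k j h hj).ne
    calc F = ((Finset.range F).image z).card := by
          rw [Finset.card_image_of_injOn hinj, Finset.card_range]
      _ ≤ _ := by
          refine Finset.card_le_card ?_
          intro x hx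
          obtain ⟨j, hj, rfl⟩ := Finset.mem_image.1 hx
          have hj : j < F := by simpa using hj
          have h1 : z j ∈ {E : ℝ | tr (n + 2) E l = 0} := hz3 j hj
          rw [hset] at h1
          exact Finset.mem_coe.1 h1

end FIB
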