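import Pool.Agent.Helper75.FIB.Iface

/-!
# FIB block C6 : |Θ_{n+2}-Θ_{n+1}-Θ_n| <= 7 sqrt l

Abstract statement: `f, S : ℝ → ℝ` continuous, antitone, both `0` on `[3,∞)`, `|cos f - cos S| <= 2l` everywhere, `0 < l <= 1/8`. Then `|f - S| <= 7 sqrt l`. (Here `f = Θ_{n+2}`, `S = Θ_n + Θ_{n+1}`.)
Let `η = arccos(1-2l)`, i.e. `sin(η/2) = sqrt l`; `η <= 2.1 sqrt l` for `l <= 1/8`; `G = 3 η`. If `|cos a - (-1)^j| <= 2l` then `a` is within `η` of `π(j + 2ℤ)`.
Suppose `|f - S| >= G` somewhere; let `E1` be the largest point with `|f(E1) - S(E1)| >= G` (closed set, bounded above by `3`), there `|f-S| = G`, and `|f - S| < G` on `(E1,∞)`. By symmetry (the hypotheses are symmetric in `f`, `S`) let `f(E1) = S(E1) + G`.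
`|cos f - cos S| = 2 |sin(S+G/2)| sin(G/2) <= 2l`; `sin(G/2) = sin(3η/2) >= 2.5 sqrt l` (`sin 3x = 3 sin x - 4 sin^3 x = sqrt l (3 - 4 l)`), so `|sin(S(E1)+G/2)| <= 0.4 sqrt l`, hence `S(E1) = jπ - G/2 + ζ`, `|ζ| <= η/4`, `j` an integer,
and `j >= 1` since `S >= 0` (S antitone, 0 at the right). So `S(E1) < jπ - η` and `f(E1) = jπ + G/2 + ζ > jπ`. By the intermediate value theorem there is `E2 > E1` with `f(E2) = jπ` (f is `0 < jπ` far right). There `|(-1)^j - cos S(E2)| <= 2l`, so `S(E2)` is within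
`η` of `π(j+2ℤ)`, and `S(E2) <= S(E1) < jπ - η` (antitone), hence `S(E2) <= (j-2)π + η` and `f(E2) - S(E2) >= 2π - η > G`, contradicting `|f - S| < G` at `E2 > E1`. Finally `G = 3η <= 7 sqrt l`.
-/

namespace FIB

open Real MeasureTheory Set Filter Topology

theorem core16 (f S : ℝ → ℝ) (hf : Continuous f) (hSa : Antitone S) (hf3 : ∀ E, 3 ≤ E → f E = 0)
    (hS3 : ∀ E, 3 ≤ E → S E = 0) (s a : ℝ) (hs : 0 < s) (hs8 : s ^ 2 ≤ 1 / 8) (ha0 : 0 < a)
    (ha1 : a < π / 4) (hsa : Real.sin a = s)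
    (hc : ∀ E, |Real.cos (f E) - Real.cos (S E)| ≤ 2 * s ^ 2) (E1 : ℝ)
    (h1 : f E1 = S E1 + 6 * a) (h2 : ∀ E, E1 < E → |f E - S E| < 6 * a) : False := by
  have hπ := Real.pi_pos
  -- the position of `S E1`
  have hc1 := hc E1
  rw [Real.cos_sub_cos, h1] at hc1
  have e1 : (S E1 + 6 * a + S E1) / 2 = S E1 + 3 * a := by ring
  have e2 : (S E1 + 6 * a - S E1) / 2 = 3 * a := by ring
  rw [e1, e2, Real.sin_three_mul, hsa] at hc1
  have hs3 : 0 < 3 * s - 4 * s ^ 3 := by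
    have : s ^ 3 = s ^ 2 * s := by ring
    rw [this]
    nlinarith
  have hsin : |Real.sin (S E1 + 3 * a)| < s / 2 := by
    have h3 : |-2 * Real.sin (S E1 + 3 * a) * (3 * s - 4 * s ^ 3)| =
        2 * |Real.sin (S E1 + 3 * a)| * (3 * s - 4 * s ^ 3) := by
      rw [abs_mul, abs_mul, abs_neg, abs_two, abs_of_pos hs3]
    rw [h3] at hc1
    by_contra hcon
    push Not at hcon
    have h4 : s / 2 * (3 * s - 4 * s ^ 3) ≤ |Real.sin (S E1 + 3 * a)| * (3 * s - 4 * s ^ 3) :=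
      mul_le_mul_of_nonneg_right hcon hs3.le
    have h5 : 0 < s ^ 2 := by positivity
    nlinarith
  obtain ⟨j, hj⟩ : ∃ j : ℤ, j = round ((S E1 + 3 * a) / π) := ⟨_, rfl⟩
  obtain ⟨ζ, hζ⟩ : ∃ ζ : ℝ, ζ = S E1 + 3 * a - j * π := ⟨_, rfl⟩
  have hζ2 : |ζ| ≤ π / 2 := by
    have h3 := abs_sub_round ((S E1 + 3 * a) / π)
    rw [← hj] at h3
    have h4 : ζ = ((S E1 + 3 * a) / π - j) * π := by
      rw [hζ]; field_simp
    rw [h4, abs_mul, abs_of_pos hπ]
    nlinarith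
  have hsζ : |Real.sin ζ| = |Real.sin (S E1 + 3 * a)| := by
    rw [hζ, Real.sin_sub_int_mul_pi, abs_mul, abs_zpow, abs_neg, abs_one, one_zpow, one_mul]
  have hsa2 : s / 2 < Real.sin (a / 2) := by
    have h3 : Real.sin a = 2 * Real.sin (a / 2) * Real.cos (a / 2) := by
      rw [← Real.sin_two_mul]; congr 1; ring
    have h4 : Real.cos (a / 2) < 1 := by
      have := Real.cos_lt_cos_of_nonneg_of_le_pi (x := 0) (y := a / 2) le_rfl (by linarith)
        (by linarith)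
      rwa [Real.cos_zero] at this
    have h5 : 0 < Real.sin (a / 2) := Real.sin_pos_of_pos_of_lt_pi (by linarith) (by linarith)
    have h6 : s = 2 * Real.sin (a / 2) * Real.cos (a / 2) := by rw [← h3, hsa]
    nlinarith
  have hζa : |ζ| < a / 2 := by
    by_contra hcon
    push Not at hcon
    have h3 : Real.sin (a / 2) ≤ Real.sin |ζ| :=
      Real.sin_le_sin_of_le_of_le_pi_div_two (by linarith) hζ2 hcon
    have h4 : Real.sin |ζ| ≤ |Real.sin ζ| := by
      rcases abs_cases ζ with ⟨h, -⟩ | ⟨h, -⟩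
      · rw [h]; exact le_abs_self _
      · rw [h, Real.sin_neg]; exact neg_le_abs _
    rw [hsζ] at h4
    linarith
  obtain ⟨hζl, hζu⟩ := abs_lt.1 hζa
  -- `j ≥ 1`
  have hSE1 : 0 ≤ S E1 := by
    have := hSa (le_max_left E1 3)
    rwa [hS3 _ (le_max_right E1 3)] at this
  have hjπ : 0 < (j : ℝ) * π := by
    have : (j : ℝ) * π = S E1 + 3 * a - ζ := by rw [hζ]; ring
    rw [this]; linarith
  -- intermediate value
  obtain ⟨E2, hE2, hfE2⟩ : ∃ E2 ∈ Set.Icc E1 (max E1 3), f E2 = j * π := by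
    have h3 := intermediate_value_Icc' (le_max_left E1 3) hf.continuousOn
    refine h3 ⟨?_, ?_⟩
    · rw [hf3 _ (le_max_right E1 3)]
      exact hjπ.le
    · rw [h1]
      have : (j : ℝ) * π = S E1 + 3 * a - ζ := by rw [hζ]; ring
      rw [this]; linarith
  have hE12 : E1 < E2 := by
    rcases hE2.1.eq_or_lt with h | h
    · exfalso
      rw [← h, h1] at hfE2
      have : (j : ℝ) * π = S E1 + 3 * a - ζ := by rw [hζ]; ring
      rw [this] at hfE2; linarith
    · exact h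
  obtain ⟨x, hx⟩ : ∃ x : ℝ, x = j * π - S E2 := ⟨_, rfl⟩
  have hxa : 2 * a < x := by
    have h3 := hSa hE12.le
    have : (j : ℝ) * π = S E1 + 3 * a - ζ := by rw [hζ]; ring
    rw [hx, this]; linarith
  have hx6 : x < 6 * a := by
    have h3 := h2 E2 hE12
    rw [hfE2, ← hx] at h3
    exact (abs_lt.1 h3).2
  -- `cos x ≥ 1 - 2 s ^ 2`
  have hcx : Real.cos (2 * a) ≤ Real.cos x := by
    have h3 := hc E2
    have h4 : S E2 = j * π - x := by rw [hx]; ring
    have h5 : Real.cos (S E2) = (-1) ^ j * Real.cos x := by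
      rw [h4, Real.cos_int_mul_pi_sub]
    have h6 : Real.cos (f E2) = (-1) ^ j := by
      rw [hfE2, Real.cos_int_mul_pi]
    rw [h5, h6] at h3
    have h7 : ((-1 : ℝ)) ^ j - (-1) ^ j * Real.cos x = (-1) ^ j * (1 - Real.cos x) := by ring
    rw [h7, abs_mul, abs_zpow, abs_neg, abs_one, one_zpow, one_mul] at h3
    have h8 := (abs_le.1 h3).2
    rw [Real.cos_two_mul, Real.cos_sq', hsa]
    linarith
  rcases le_total x π with h | h
  · exact absurd hcx (not_le.2 (Real.cos_lt_cos_of_nonneg_of_le_pi (by linarith) h hxa))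
  · have h3 : Real.cos x = Real.cos (2 * π - x) := by rw [Real.cos_two_pi_sub]
    rw [h3] at hcx
    exact absurd hcx (not_le.2 (Real.cos_lt_cos_of_nonneg_of_le_pi (by linarith) (by linarith)
      (by linarith)))

theorem abs16 (f S : ℝ → ℝ) (hf : Continuous f) (hS : Continuous S) (hfa : Antitone f)
    (hSa : Antitone S) (hf3 : ∀ E, 3 ≤ E → f E = 0) (hS3 : ∀ E, 3 ≤ E → S E = 0) (l : ℝ)
    (hl0 : 0 < l) (hl8 : l ≤ 1 / 8)
    (hc : ∀ E, |Real.cos (f E) - Real.cos (S E)| ≤ 2 * l) (E : ℝ) :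
    |f E - S E| ≤ 7 * √l := by
  have hπ := Real.pi_gt_three
  obtain ⟨s, hs⟩ : ∃ s : ℝ, s = √l := ⟨_, rfl⟩
  have hs0 : 0 < s := by rw [hs]; exact Real.sqrt_pos.2 hl0
  have hs2 : s ^ 2 = l := by rw [hs]; exact Real.sq_sqrt hl0.le
  have hs1 : s ≤ 1 / 2 := by nlinarith
  obtain ⟨a, ha⟩ : ∃ a : ℝ, a = Real.arcsin s := ⟨_, rfl⟩
  have hsa : Real.sin a = s := by
    rw [ha]; exact Real.sin_arcsin (by linarith) (by linarith)
  have ha0 : 0 < a := by rw [ha]; exact Real.arcsin_pos.2 hs0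
  have ha7 : a ≤ 7 * s / 6 := by
    rw [ha, Real.arcsin_le_iff_le_sin' ⟨by linarith, by linarith⟩]
    have h1 := Real.sin_gt_sub_cube (x := 7 * s / 6) (by linarith)
    have h2 : (7 * s / 6) ^ 3 = s * s ^ 2 * (343 / 216) := by ring
    rw [h2, hs2] at h1
    nlinarith [mul_le_mul_of_nonneg_left hl8 hs0.le]
  have ha1 : a < π / 4 := by linarith
  rw [← hs]
  by_contra hcon
  push Not at hcon
  set Z : Set ℝ := {x | 6 * a ≤ |f x - S x|} with hZ
  have hZc : IsClosed Z := isClosed_le continuous_const (hf.sub hS).abs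
  have hZn : Z.Nonempty := ⟨E, by change 6 * a ≤ |f E - S E|; linarith⟩
  have hZb : BddAbove Z := by
    refine ⟨3, fun x hx => ?_⟩
    by_contra h
    push Not at h
    have h1 : 6 * a ≤ |f x - S x| := hx
    rw [hf3 x h.le, hS3 x h.le, sub_zero, abs_zero] at h1
    linarith
  obtain ⟨E1, hE1⟩ : ∃ E1, E1 = sSup Z := ⟨_, rfl⟩
  have hE1Z : E1 ∈ Z := by rw [hE1]; exact hZc.csSup_mem hZn hZb
  have hgt : ∀ x, E1 < x → |f x - S x| < 6 * a := by
    intro x hx
    by_contra h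
    push Not at h
    exact absurd (le_csSup hZb h) (by rw [← hE1]; exact not_le.2 hx)
  have hle : |f E1 - S E1| ≤ 6 * a := by
    have h1 : Tendsto (fun x => |f x - S x|) (𝓝[>] E1) (𝓝 |f E1 - S E1|) :=
      ((hf.sub hS).abs.tendsto E1).mono_left nhdsWithin_le_nhds
    refine le_of_tendsto h1 ?_
    filter_upwards [self_mem_nhdsWithin] with x hx
    exact (hgt x hx).le
  have heq : |f E1 - S E1| = 6 * a := le_antisymm hle hE1Z
  rcases abs_cases (f E1 - S E1) with ⟨h, -⟩ | ⟨h, -⟩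
  · refine core16 f S hf hSa hf3 hS3 s a hs0 (by rw [hs2]; exact hl8) ha0 ha1 hsa
      (by rw [hs2]; exact hc) E1 (by linarith) hgt
  · refine core16 S f hS hfa hS3 hf3 s a hs0 (by rw [hs2]; exact hl8) ha0 ha1 hsa
      (by rw [hs2]; intro x; rw [abs_sub_comm]; exact hc x) E1 (by linarith)
      (fun x hx => by rw [abs_sub_comm]; exact hgt x hx)

theorem uBound (h : ThProps) (hR : RelP) : UBound := by
  intro l hl0 hl8 n E
  obtain ⟨c0, a0, -, r0, -, -⟩ := h l hl0 hl8 n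
  obtain ⟨c1, a1, -, r1, -, -⟩ := h l hl0 hl8 (n + 1)
  obtain ⟨c2, a2, e2, r2, -, -⟩ := h l hl0 hl8 (n + 2)
  have h1 := abs16 (Th (n + 2) l) (fun x => Th n l x + Th (n + 1) l x) c2 (c0.add c1) a2
    (a0.add a1) r2 (fun x hx => by simp only [r0 x hx, r1 x hx, add_zero]) l hl0 hl8
    (fun x => by rw [e2 x]; exact hR l hl0 hl8 n x) E
  have h2 : Th (n + 2) l E - Th (n + 1) l E - Th n l E =
      Th (n + 2) l E - (Th n l E + Th (n + 1) l E) := by ring
  rw [h2]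
  exact h1

end FIB
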