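import Pool.Agent.Helper75.FIB.Iface

/-!
# FIB block C7 : all phases from the integrated density of states

Fix `K >= 1`, `E`, `l`. `e_n = Θ_n - π F_n N`, `N = NN K l E = Θ_K/(π F_K)`. `e_0 = 0` (Θ_0 = 0), `e_K = 0`, `e_{n+2} = e_{n+1} + e_n + A_n`, `|A_n| <= a := 7 sqrt l` (UBound, `F_{n+2} = F_{n+1}+F_n`).
Purely linear lemma: with `α = 1/φ = al`, `φ = ph`: `u_n = e_{n+1} + α e_n` satisfies `u_{n+1} = φ u_n + A_n`, `w_n = e_{n+1} - φ e_n` satisfies `w_{n+1} = -α w_n + A_n`. So `|w_n| <= |w_0| + 3a`, `|u_n| <= |u_{K-1}| + 3a` for `n <= K-1` (backwards: `u_n = α(u_{n+1} - A_n)`), more precisely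
`|u_n| <= α^{K-1-n}|u_{K-1}| + 3a`, `|w_n| <= α^n |w_0| + 3a`. `e_0 = 0`: `u_0 = w_0 = e_1`. `e_K = 0`: `u_{K-1} = α e_{K-1}`, `w_{K-1} = -φ e_{K-1}`, so `|u_{K-1}| = α^2 |w_{K-1}| <= α^2(|w_0| + 3a)`, `|w_0| = |u_0| <= |u_{K-1}| + 3a <= α^2 |w_0| + 6a`,
hence `|w_0| <= 12 a` etc., and `e_n = (u_n - w_n)/√5`. (For `K = 1` trivial.)
-/

namespace FIB

open Real MeasureTheory Set Filter Topology

namespace C7Aux

theorem al_le : al ≤ 2 / 3 := by
  unfold al
  have : √(5 : ℝ) ≤ 7 / 3 := by
    exact Real.sqrt_le_iff.mpr ⟨by norm_num, by norm_num⟩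
  linarith

theorem le_al : 1 / 2 ≤ al := by
  unfold al
  have : (2 : ℝ) ≤ √5 := Real.le_sqrt_of_sq_le (by norm_num)
  linarith

theorem al_mul_ph : al * ph = 1 := by
  unfold al ph
  have := Real.mul_self_sqrt (show (0 : ℝ) ≤ 5 by norm_num)
  nlinarith

theorem ph_eq : ph = 1 + al := by
  unfold al ph
  ring

theorem al_sq : al * al = 1 - al := by
  have h1 := al_mul_ph
  rw [ph_eq] at h1
  linarith

theorem abs_add_le' (x y : ℝ) : |x + y| ≤ |x| + |y| := abs_add_le x y

theorem abs_sub_le' (x y : ℝ) : |x - y| ≤ |x| + |y| := by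
  have := abs_add_le x (-y)
  rwa [abs_neg, ← sub_eq_add_neg] at this

/-- The linear lemma. -/
theorem linBd (e : ℕ → ℝ) (a : ℝ) (hA : ∀ n, |e (n + 2) - e (n + 1) - e n| ≤ a)
    (K : ℕ) (hK : 1 ≤ K) (h0 : e 0 = 0) (hKe : e K = 0) (n : ℕ) (hn : n ≤ K) :
    |e n| ≤ 33 * a := by
  have ha : 0 ≤ a := le_trans (abs_nonneg _) (hA 0)
  have a1 := al_le
  have a2 := le_al
  have a3 := al_sq
  -- the contracting combination
  have hw : ∀ m, |e (m + 1) - ph * e m| ≤ |e 1| + 3 * a := by
    intro m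
    induction m with
    | zero =>
      rw [h0, mul_zero, sub_zero, zero_add]
      linarith
    | succ m ih =>
      have e1 : e (m + 1 + 1) - ph * e (m + 1)
          = -al * (e (m + 1) - ph * e m) + (e (m + 2) - e (m + 1) - e m) := by
        rw [ph_eq]
        linear_combination (- e m) * a3
      rw [e1]
      refine (abs_add_le' _ _).trans ?_
      rw [abs_mul, abs_neg, abs_of_nonneg (by linarith : (0 : ℝ) ≤ al)]
      have h2 := hA m
      have h3 : al * |e (m + 1) - ph * e m| ≤ 2 / 3 * (|e 1| + 3 * a) := by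
        refine mul_le_mul a1 ih (abs_nonneg _) (by norm_num)
      have h4 := abs_nonneg (e 1)
      linarith
  -- the expanding combination, backwards
  have hu : ∀ j m, m + j + 1 = K → |e (m + 1) + al * e m| ≤ |e K + al * e (K - 1)| + 3 * a := by
    intro j
    induction j with
    | zero =>
      intro m hm
      have : m + 1 = K := by omega
      have h2 : K - 1 = m := by omega
      rw [this, h2]
      linarith
    | succ j ih =>
      intro m hm
      have h1 := ih (m + 1) (by omega)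
      have e1 : e (m + 1) + al * e m
          = al * ((e (m + 1 + 1) + al * e (m + 1)) - (e (m + 2) - e (m + 1) - e m)) := by
        linear_combination (- e (m + 1)) * a3
      rw [e1, abs_mul, abs_of_nonneg (by linarith : (0 : ℝ) ≤ al)]
      have h2 := hA m
      have h3 : |(e (m + 1 + 1) + al * e (m + 1)) - (e (m + 2) - e (m + 1) - e m)|
          ≤ |e K + al * e (K - 1)| + 3 * a + a := by
        refine (abs_sub_le' _ _).trans ?_
        linarith
      have h4 := abs_nonneg (e K + al * e (K - 1))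
      have h5 : al * |(e (m + 1 + 1) + al * e (m + 1)) - (e (m + 2) - e (m + 1) - e m)|
          ≤ 2 / 3 * (|e K + al * e (K - 1)| + 3 * a + a) :=
        mul_le_mul a1 h3 (abs_nonneg _) (by norm_num)
      linarith
  -- the end values
  have hph : (0 : ℝ) ≤ ph := by rw [ph_eq]; linarith
  have hend : |e K + al * e (K - 1)| ≤ 1 / 2 * (|e 1| + 3 * a) := by
    have h1 := hw (K - 1)
    have h2 : K - 1 + 1 = K := by omega
    rw [h2, hKe, zero_sub, abs_neg, abs_mul, abs_of_nonneg hph] at h1
    rw [hKe, zero_add, abs_mul, abs_of_nonneg (by linarith : (0 : ℝ) ≤ al)]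
    have h3 := al_mul_ph
    have h4 : al * |e (K - 1)| = al * al * (ph * |e (K - 1)|) := by
      linear_combination (-(al * |e (K - 1)|)) * h3
    rw [h4]
    refine mul_le_mul (by linarith) h1 (mul_nonneg hph (abs_nonneg _)) (by norm_num)
  have hfirst : |e 1| ≤ 9 * a := by
    have h1 := hu (K - 1) 0 (by omega)
    rw [h0, mul_zero, add_zero, zero_add] at h1
    linarith
  rcases Nat.lt_or_ge n K with h | h
  · have h1 := hw n
    have h2 := hu (K - 1 - n) n (by omega)
    have e1 : (ph + al) * e n = (e (n + 1) + al * e n) - (e (n + 1) - ph * e n) := by ring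
    have h3 : (ph + al) * |e n| ≤ 33 * a := by
      rw [← abs_of_nonneg (by linarith : (0 : ℝ) ≤ ph + al), ← abs_mul, e1]
      refine (abs_sub_le' _ _).trans ?_
      linarith
    have h4 : 1 * |e n| ≤ (ph + al) * |e n| :=
      mul_le_mul_of_nonneg_right (by rw [ph_eq]; linarith) (abs_nonneg _)
    linarith
  · have : n = K := le_antisymm hn h
    rw [this, hKe, abs_zero]
    linarith

end C7Aux

open C7Aux

theorem nBound (h : ThProps) (hU : UBound) : NBound := by
  refine ⟨33 * 7, by norm_num, ?_⟩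
  intro l hl hl8 K n E hK hn
  set e : ℕ → ℝ := fun j => Th j l E - π * Nat.fib j * NN K l E with he
  have h0 : e 0 = 0 := by
    obtain ⟨-, hanti, -, hr, hl', -⟩ := h l hl hl8 0
    have h1 : Th 0 l E ≤ Th 0 l (min E (-3)) := hanti (min_le_left _ _)
    have h2 : Th 0 l (max E 3) ≤ Th 0 l E := hanti (le_max_left _ _)
    rw [hl' _ (min_le_right _ _)] at h1
    rw [hr _ (le_max_right _ _)] at h2
    simp only [Nat.fib_zero, Nat.cast_zero, mul_zero] at h1
    simp only [he, Nat.fib_zero, Nat.cast_zero, mul_zero, zero_mul, sub_zero]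
    exact le_antisymm h1 h2
  have hKe : e K = 0 := by
    have hf : (0 : ℝ) < Nat.fib K := by exact_mod_cast Nat.fib_pos.mpr hK
    have hp := Real.pi_pos
    simp only [he, NN]
    rw [mul_div_cancel₀]
    · ring
    · positivity
  have hA : ∀ m, |e (m + 2) - e (m + 1) - e m| ≤ 7 * √l := by
    intro m
    have h1 := hU l hl hl8 m E
    have e1 : e (m + 2) - e (m + 1) - e m = Th (m + 2) l E - Th (m + 1) l E - Th m l E := by
      simp only [he]
      rw [Nat.fib_add_two]
      push_cast
      ring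
    rw [e1]
    exact h1
  have := linBd e (7 * √l) hA K hK h0 hKe n hn
  calc |Th n l E - π * Nat.fib n * NN K l E| = |e n| := rfl
    _ ≤ 33 * (7 * √l) := this
    _ = 33 * 7 * √l := by ring

end FIB
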