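import Pool.Agent.Helper75.FIB.Iface

/-!
# FIB block C8 : bounded traces at spectral points

ESCAPE: if `n + 1 <= K`, `|x_n| > 1`, `|x_{n+1}| > 1`, take the smallest such `n`; `x_0 = 1` so `n >= 1` and `|x_{n-1}| <= 1` (if `|x_{n-1}| > 1` then `n-1` would be smaller). Then `|x_{n+2}| >= 2|x_{n+1}x_n| - |x_{n-1}| ...` precisely `x_{n+2} = 2 x_{n+1} x_n - x_{n-1}`,
`|x_{n+2}| >= 2|x_{n+1} x_n| - 1 > |x_{n+1} x_n| > max(|x_n|,|x_{n+1}|)`, and inductively `|x_{i+2}| > |x_{i+1} x_i|`, `|x_i| > 1` for all `i >= n`: `|x_{i+3}| >= 2|x_{i+2}x_{i+1}| - |x_i| > |x_{i+2} x_{i+1}|` because `|x_i| < |x_{i+2}|`. Contradiction with `|x_K| <= 1`. This is the second claim.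
FIRST claim: `n = 0`, `n = K` trivial. `1 <= n < K`, `|x_n| > 1`: then `|x_{n-1}|, |x_{n+1}| <= 1` and `(x_n - x_{n-1}x_{n+1})^2 = (1-x_{n-1}^2)(1-x_{n+1}^2) + l^2/4` (`tr_inv_sq'`), so `|x_n| <= |x_{n-1}x_{n+1}| + sqrt((1-x_{n-1}^2)(1-x_{n+1}^2)) + l/2 <= 1 + l/2`.
-/

namespace FIB

open Real MeasureTheory Set Filter Topology

/-- one escape step -/
theorem c8_step (a b c : ℝ) (h1 : |a| < |c| * |b|) :
    |c| * |b| < |2 * c * b - a| := by
  have h2 : |2 * c * b| - |a| ≤ |2 * c * b - a| := abs_sub_abs_le_abs_sub _ _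
  rw [abs_mul, abs_mul, abs_two] at h2
  nlinarith [h2]

theorem c8_escape (E l : ℝ) (K n : ℕ) (hK : |tr K E l| ≤ 1) (hn : n + 1 ≤ K) :
    |tr n E l| ≤ 1 ∨ |tr (n + 1) E l| ≤ 1 := by
  by_contra hcon
  push Not at hcon
  classical
  have hex : ∃ m : ℕ, 1 < |tr m E l| ∧ 1 < |tr (m + 1) E l| := ⟨n, hcon⟩
  obtain ⟨m, hm, hmin⟩ : ∃ m : ℕ, (1 < |tr m E l| ∧ 1 < |tr (m + 1) E l|) ∧
      ∀ j, j < m → ¬ (1 < |tr j E l| ∧ 1 < |tr (j + 1) E l|) :=
    ⟨Nat.find hex, Nat.find_spec hex, fun j hj => Nat.find_min hex hj⟩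
  have hmn : m ≤ n := by
    by_contra h
    exact hmin n (not_le.mp h) hcon
  obtain ⟨k, rfl⟩ : ∃ k, m = k + 1 := by
    rcases m with _ | k
    · exfalso
      have := hm.1
      simp at this
    · exact ⟨k, rfl⟩
  have hk : |tr k E l| ≤ 1 := by
    by_contra h
    exact hmin k (Nat.lt_succ_self k) ⟨not_le.mp h, hm.1⟩
  have key : ∀ i : ℕ, 1 < |tr (k + 1 + i) E l| ∧ 1 < |tr (k + 2 + i) E l| ∧
      |tr (k + 2 + i) E l| * |tr (k + 1 + i) E l| < |tr (k + 3 + i) E l| := by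
    intro i
    induction i with
    | zero =>
      refine ⟨hm.1, hm.2, ?_⟩
      rw [show k + 3 + 0 = k + 3 from rfl, tr_add_three]
      have h2 := hm.2
      have h1 := hm.1
      rw [show k + 1 + 1 = k + 2 from rfl] at h2
      have : 1 < |tr (k + 2) E l| * |tr (k + 1) E l| := by nlinarith
      exact c8_step _ _ _ (by linarith)
    | succ i ih =>
      obtain ⟨h1, h2, h3⟩ := ih
      have e1 : k + 1 + (i + 1) = k + 2 + i := by ring
      have e2 : k + 2 + (i + 1) = k + 3 + i := by ring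
      have e3 : k + 3 + (i + 1) = (k + 1 + i) + 3 := by ring
      rw [e1, e2, e3, tr_add_three]
      have e4 : k + 1 + i + 2 = k + 3 + i := by ring
      have e5 : k + 1 + i + 1 = k + 2 + i := by ring
      rw [e4, e5]
      have h4 : 1 < |tr (k + 3 + i) E l| := by nlinarith
      refine ⟨h2, h4, ?_⟩
      have h5 : |tr (k + 1 + i) E l| < |tr (k + 3 + i) E l| := by nlinarith
      have h6 : |tr (k + 3 + i) E l| < |tr (k + 3 + i) E l| * |tr (k + 2 + i) E l| := by nlinarith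
      exact c8_step _ _ _ (by linarith)
  obtain ⟨i, hi⟩ : ∃ i, K = k + 1 + i := ⟨K - (k + 1), by omega⟩
  have := (key i).1
  rw [← hi] at this
  linarith

theorem c8_bound (x y z l : ℝ) (hl : 0 < l) (hx : |x| ≤ 1) (hz : |z| ≤ 1)
    (h : (y - x * z) ^ 2 = (1 - x ^ 2) * (1 - z ^ 2) + l ^ 2 / 4) : |y| ≤ 1 + l / 2 := by
  have hx2 : x ^ 2 ≤ 1 := by
    rw [← sq_abs]; nlinarith [abs_nonneg x]
  have hz2 : z ^ 2 ≤ 1 := by
    rw [← sq_abs]; nlinarith [abs_nonneg z]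
  have hxz : |x * z| ≤ 1 := by
    rw [abs_mul]; nlinarith [abs_nonneg x, abs_nonneg z]
  set q : ℝ := 1 - |x * z| with hq
  have hq0 : 0 ≤ q := by linarith
  -- (1-x^2)(1-z^2) ≤ (1-|xz|)^2
  have h1 : (1 - x ^ 2) * (1 - z ^ 2) ≤ q ^ 2 := by
    have e1 : |x * z| ^ 2 = x ^ 2 * z ^ 2 := by rw [sq_abs]; ring
    have e2 : 2 * |x * z| ≤ x ^ 2 + z ^ 2 := by
      have := sq_nonneg (|x| - |z|)
      have e3 : |x| ^ 2 = x ^ 2 := sq_abs x
      have e4 : |z| ^ 2 = z ^ 2 := sq_abs z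
      rw [abs_mul]
      nlinarith
    rw [hq]
    nlinarith
  have h2 : |y - x * z| ^ 2 ≤ (q + l / 2) ^ 2 := by
    rw [sq_abs, h]
    nlinarith
  have h3 : |y - x * z| ≤ q + l / 2 := abs_le_of_sq_le_sq' h2 (by positivity) |>.2
  have h4 : |y| ≤ |y - x * z| + |x * z| := by
    have := abs_add_le (y - x * z) (x * z)
    simpa using this
  linarith

theorem bdP : BdP := by
  intro l hl hl8 K n E hK hn
  refine ⟨?_, fun h => c8_escape E l K n hK h⟩
  rcases Nat.eq_or_lt_of_le hn with h | h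
  · subst h
    linarith
  · rcases n with _ | k
    · simp; linarith
    · by_cases h1 : |tr (k + 1) E l| ≤ 1
      · linarith
      · have h2 := c8_escape E l K k hK (by omega)
        have h3 := c8_escape E l K (k + 1) hK (by omega)
        have hx : |tr k E l| ≤ 1 := by
          rcases h2 with h2 | h2
          · exact h2
          · exact absurd h2 h1
        have hz : |tr (k + 2) E l| ≤ 1 := by
          rcases h3 with h3 | h3
          · exact absurd h3 h1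
          · exact h3
        exact c8_bound _ _ _ l hl hx hz (tr_inv_sq' k E l)

end FIB
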