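import Pool.Agent.Helper75.FIB.Iface

/-!
# FIB block C9 : quantile functions: values, derivative in l, measurability

`Θ_K(.,l)` is continuous, antitone, `0` on `[3,∞)`, `π F_K` on `(-∞,-3]` and strictly decreasing where `|x_K| < 1` (ThProps: derivative `< 0`, `trE ≠ 0` by PosV). For `0 < t < 1` the set `{E | π F_K t <= Θ_K(E)}` is closed, contains `-3`, is bounded above by `3`; so
`|EK| <= 3` and `Θ_K(EK) = π F_K t` (continuity).
For `t ∈ Rg K`: `cos(π F_K t) ∈ (-1,1)`, so `|x_K(EK)| < 1`, `x_K(EK) = cos(π F_K t)`. Derivative in `l`: fix `t ∈ Rg K`, `l0 ∈ (0,1/8)`, `E0 = EK K l0 t`. By the implicit function theorem (`x_K(E,l)` polynomial, `trE ≠ 0`) there is a local differentiable `e(l)`, `e(l0) = E0`, `x_K(e(l),l) = cos(π F_K t)` with derivative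
`-trL/trE = Vx`. Need `e(l) = EK K l t` near `l0`, i.e. `Θ_K(e(l),l) = π F_K t` (then `EK` = `e(l)`, since at a point with `|x_K| < 1` the phase is strictly decreasing so the preimage of `π F_K t` is a single point). `Θ_K(e(l),l) ∈ ±π F_K t + 2πℤ` takes discrete values, so it is enough that
`l ↦ Θ_K(e(l),l)` is continuous at `l0`; equivalently the function `(E,l) ↦ Θ_K(E,l)` is jointly continuous. (One way: `Θ_K(E,l)` can be recovered by counting zeros of `x_K(.,l)` to the right of `E`, which are simple and depend continuously on `l`. Another way: compare `l` and `l0` through monotonicity: for `l` near `l0`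
the values of `x_K(.,l)` at finitely many points `E^+_j > E^-_j` chosen in the bands of `x_K(.,l0)` near the band edges have alternating signs `(-1)^j` with modulus close to 1, which determines the ordering of the bands.) A helpful formulation: `Θ_K(E,l) ∈ [jπ,(j+1)π]` iff at most `j+1` and at least `j` zeros of `x_K(.,l)` are `> E`.
`0 <= VK <= 1` is `PosV`. Measurability: `t ↦ EK K l t` is antitone on `(0,1)`, `l ↦ EK K l t` is continuous for `t ∈ Rg K`, `Rg K` is cofinite in `(0,1)` (finitely many `t` with `F_K t` integer), so `(l,t) ↦ EK` is measurable on `[a,b] × Rg K` (Carathéodory type: `measurable_uncurry_of_continuous_of_measurable` on subtypes) and changing finitely many columns `t`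
needs measurability of `l ↦ EK K l t` for the exceptional `t`: e.g. `EK K l t = lim` of `EK K l t'`, `t' ↑ t`, `t' ∈ Rg` (sup of the closed set; left limits: `EK` is antitone and `E < EK(t')` for all `t' < t` ...; use `{E | c <= EK K l t} ` iff `π F_K t <= Θ_K(c,l)` and continuity of `l ↦ Θ_K(c,l)`; in fact this gives measurability of everything at once:
`c <= EK K l t ↔ π F_K t <= Θ_K(c,l)`, a closed condition in `(l,t)` when `Θ_K(c,.)` is continuous). `VK` is a continuous function of `(EK,l)` on `|x_K| < 1`.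
-/

namespace FIB

open Real MeasureTheory Set Filter Topology

theorem c9_cont_tr (n : ℕ) : Continuous (fun p : ℝ × ℝ => tr n p.1 p.2) := by
  induction n using ind3 with
  | h0 => simpa using continuous_const
  | h1 => simpa using continuous_fst.div_const 2
  | h2 => simpa using (continuous_fst.sub continuous_snd).div_const 2
  | h n ih0 ih1 ih2 =>
    simp only [tr_add_three]
    exact ((continuous_const.mul ih2).mul ih1).sub ih0

theorem c9_cont_trE (n : ℕ) : Continuous (fun p : ℝ × ℝ => trE n p.1 p.2) := by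
  induction n using ind3 with
  | h0 => simpa using continuous_const
  | h1 => simpa using continuous_const
  | h2 => simpa using continuous_const
  | h n ih0 ih1 ih2 =>
    simp only [trE_add_three]
    exact (continuous_const.mul ((ih2.mul (c9_cont_tr _)).add ((c9_cont_tr _).mul ih1))).sub ih0

theorem c9_cont_trL (n : ℕ) : Continuous (fun p : ℝ × ℝ => trL n p.1 p.2) := by
  induction n using ind3 with
  | h0 => simpa using continuous_const
  | h1 => simpa using continuous_const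
  | h2 => simpa using continuous_const
  | h n ih0 ih1 ih2 =>
    simp only [trL_add_three]
    exact (continuous_const.mul ((ih2.mul (c9_cont_tr _)).add ((c9_cont_tr _).mul ih1))).sub ih0

theorem c9_same {x y : ℝ} (hx0 : 0 ≤ x) (hyπ : y ≤ π) (hxy : x ≤ y) :
    1 - cos (y - x) ≤ cos x - cos y := by
  have h1 : cos x - cos y = 2 * sin ((x + y) / 2) * sin ((y - x) / 2) := by
    rw [Real.cos_sub_cos, show (x - y) / 2 = -((y - x) / 2) by ring, Real.sin_neg]; ring
  have h2 : 1 - cos (y - x) = 2 * sin ((y - x) / 2) * sin ((y - x) / 2) := by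
    have : cos (y - x) = 1 - 2 * sin ((y - x) / 2) ^ 2 := by
      rw [show y - x = 2 * ((y - x) / 2) by ring, Real.cos_two_mul, ]
      have := Real.sin_sq_add_cos_sq ((y - x) / 2)
      rw [show 2 * ((y - x) / 2) / 2 = (y - x) / 2 by ring]
      nlinarith
    rw [this]; ring
  have h3 : sin ((x + y) / 2) - sin ((y - x) / 2) = 2 * sin (x / 2) * cos (y / 2) := by
    rw [Real.sin_sub_sin]
    congr 2
    · ring_nf
    · ring_nf
  have hπ := Real.pi_pos
  have h4 : 0 ≤ sin (x / 2) := Real.sin_nonneg_of_nonneg_of_le_pi (by linarith) (by linarith)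
  have h5 : 0 ≤ cos (y / 2) := Real.cos_nonneg_of_neg_pi_div_two_le_of_le (by linarith) (by linarith)
  have h6 : 0 ≤ sin ((y - x) / 2) :=
    Real.sin_nonneg_of_nonneg_of_le_pi (by linarith) (by linarith)
  rw [h1, h2]
  have h7 : sin ((y - x) / 2) ≤ sin ((x + y) / 2) := by
    have := mul_nonneg h4 h5
    linarith
  nlinarith

theorem c9_close {x y η : ℝ} (hx0 : 0 ≤ x) (hxπ : x ≤ π) (hy0 : 0 ≤ y) (hyπ : y ≤ π)
    (_hηπ : η ≤ π) (hη0 : 0 ≤ η)
    (h : |cos x - cos y| ≤ 1 - cos η) : |x - y| ≤ η := by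
  wlog hxy : x ≤ y generalizing x y
  · rw [abs_sub_comm]
    exact this hy0 hyπ hx0 hxπ (by rw [abs_sub_comm]; exact h) (le_of_not_ge hxy)
  have h1 := c9_same hx0 hyπ hxy
  have h2 := (le_abs_self _).trans h
  have h3 : cos η ≤ cos (y - x) := by linarith
  rw [abs_sub_comm, abs_of_nonneg (sub_nonneg.2 hxy)]
  by_contra hc
  push Not at hc
  have := Real.cos_lt_cos_of_nonneg_of_le_pi hη0 (by linarith) hc
  linarith

theorem c9_Pj {f S : ℝ → ℝ} (hf : Continuous f) (hfa : Antitone f) (hSa : Antitone S) {R : ℝ}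
    (hfR : f R = 0) (hS0 : ∀ E, 0 ≤ S E) {η : ℝ} (hη0 : 0 < η) (hη : η < π / 2)
    (h : ∀ E, |cos (f E) - cos (S E)| ≤ 1 - cos η) (j : ℕ) :
    ∀ E, j * π ≤ f E → j * π - η ≤ S E := by
  have hπ := Real.pi_pos
  induction j with
  | zero =>
    intro E _
    have := hS0 E
    simp; linarith
  | succ j ih =>
    intro E hE
    push_cast at hE ⊢
    have hER : E ≤ R := by
      by_contra hc
      push Not at hc
      have h1 := hfa hc.le
      rw [hfR] at h1
      have : 0 < ((j : ℝ) + 1) * π := by positivity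
      linarith
    have hmem : ((j : ℝ) + 1) * π ∈ Icc (f R) (f E) := by
      refine ⟨?_, hE⟩
      rw [hfR]; positivity
    obtain ⟨E', hE', hfE'⟩ := intermediate_value_Icc' hER hf.continuousOn hmem
    have hs1 : j * π - η ≤ S E' := ih E' (by rw [hfE']; nlinarith)
    by_contra hc
    push Not at hc
    have hs2 : S E' < (j + 1) * π - η := lt_of_le_of_lt (hSa hE'.1) hc
    set w : ℝ := (j + 1) * π - S E' with hw
    have hw1 : η < w := by rw [hw]; linarith
    have hw2 : w ≤ π + η := by rw [hw]; nlinarith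
    have hcs : cos (S E') = (-1) ^ (j + 1) * cos w := by
      have : S E' = ((j + 1 : ℕ) : ℝ) * π - w := by rw [hw]; push_cast; ring
      rw [this, Real.cos_nat_mul_pi_sub]
    have hcf : cos (f E') = (-1) ^ (j + 1) := by
      rw [hfE']
      have : ((j : ℝ) + 1) * π = ((j + 1 : ℕ) : ℝ) * π := by push_cast; ring
      rw [this, Real.cos_nat_mul_pi]
    have h1 := h E'
    rw [hcs, hcf] at h1
    have h2 : |(-1 : ℝ) ^ (j + 1) - (-1) ^ (j + 1) * cos w| = 1 - cos w := by
      rw [show (-1 : ℝ) ^ (j + 1) - (-1) ^ (j + 1) * cos w = (-1) ^ (j + 1) * (1 - cos w) by ring,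
        abs_mul, abs_pow, abs_neg, abs_one, one_pow, one_mul, abs_of_nonneg]
      linarith [Real.cos_le_one w]
    rw [h2] at h1
    have h3 : cos η ≤ cos w := by linarith
    rcases le_or_gt w π with hwπ | hwπ
    · have := Real.cos_lt_cos_of_nonneg_of_le_pi hη0.le hwπ hw1
      linarith
    · have h4 : cos w ≤ 0 := Real.cos_nonpos_of_pi_div_two_le_of_le (by linarith) (by linarith)
      have h5 : 0 < cos η := Real.cos_pos_of_mem_Ioo ⟨by linarith, hη⟩
      linarith

theorem c9_pt_aux {a b η : ℝ} {j k : ℕ} (hη0 : 0 < η) (hη : η < π / 2) (ha1 : j * π ≤ a)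
    (ha2 : a < (j + 1) * π) (hb1 : k * π ≤ b) (hb2 : b < (k + 1) * π) (hjk : j ≤ k)
    (h2 : k * π - η ≤ a) (hc : |cos a - cos b| ≤ 1 - cos η) : |a - b| ≤ 3 * η := by
  have hπ := Real.pi_pos
  have hk : (k : ℝ) < j + 2 := by
    have h3 : k * π < (j + 2) * π := by nlinarith
    exact lt_of_mul_lt_mul_right h3 hπ.le
  have hk' : k ≤ j + 1 := by
    have : k < j + 2 := by exact_mod_cast hk
    omega
  rcases Nat.lt_or_ge j k with hlt | hge
  · have hkj : k = j + 1 := by omega
    subst hkj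
    push_cast at hb1 hb2 h2
    set u : ℝ := (j + 1) * π - a with hu
    set v : ℝ := b - (j + 1) * π with hv
    have hca : cos a = (-1) ^ (j + 1) * cos u := by
      have : a = ((j + 1 : ℕ) : ℝ) * π - u := by rw [hu]; push_cast; ring
      rw [this, Real.cos_nat_mul_pi_sub]
    have hcb : cos b = (-1) ^ (j + 1) * cos v := by
      have : b = v + ((j + 1 : ℕ) : ℝ) * π := by rw [hv]; push_cast; ring
      rw [this, Real.cos_add_nat_mul_pi]
    have h3 : |cos u - cos v| ≤ 1 - cos η := by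
      rw [hca, hcb, ← mul_sub, abs_mul, abs_pow, abs_neg, abs_one, one_pow, one_mul] at hc
      exact hc
    have h4 := c9_close (x := u) (y := v) (by rw [hu]; linarith) (by rw [hu]; linarith)
      (by rw [hv]; linarith) (by rw [hv]; nlinarith) (by linarith) hη0.le h3
    have h5 : a - b = -(u + v) := by rw [hu, hv]; ring
    rw [h5, abs_neg]
    rw [abs_le] at h4 ⊢
    have h6 : 0 ≤ u := by rw [hu]; linarith
    have h7 : 0 ≤ v := by rw [hv]; linarith
    have h8 : u ≤ η := by rw [hu]; linarith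
    constructor <;> linarith [h4.1, h4.2]
  · have hkj : k = j := le_antisymm hge hjk
    subst hkj
    have hca : cos a = (-1) ^ k * cos (a - k * π) := by
      have : cos (a - k * π + k * π) = (-1) ^ k * cos (a - k * π) :=
        Real.cos_add_nat_mul_pi _ _
      rw [← this]; congr 1; ring
    have hcb : cos b = (-1) ^ k * cos (b - k * π) := by
      have : cos (b - k * π + k * π) = (-1) ^ k * cos (b - k * π) :=
        Real.cos_add_nat_mul_pi _ _
      rw [← this]; congr 1; ring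
    have h3 : |cos (a - k * π) - cos (b - k * π)| ≤ 1 - cos η := by
      rw [hca, hcb, ← mul_sub, abs_mul, abs_pow, abs_neg, abs_one, one_pow, one_mul] at hc
      exact hc
    have h4 := c9_close (x := a - k * π) (y := b - k * π) (by linarith) (by nlinarith)
      (by linarith) (by nlinarith) (by linarith) hη0.le h3
    have h5 : a - k * π - (b - k * π) = a - b := by ring
    rw [h5] at h4
    linarith

theorem c9_pt {a b η : ℝ} {j k : ℕ} (hη0 : 0 < η) (hη : η < π / 2) (ha1 : j * π ≤ a)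
    (ha2 : a < (j + 1) * π) (hb1 : k * π ≤ b) (hb2 : b < (k + 1) * π)
    (h1 : j * π - η ≤ b) (h2 : k * π - η ≤ a) (hc : |cos a - cos b| ≤ 1 - cos η) :
    |a - b| ≤ 3 * η := by
  rcases le_total j k with hjk | hjk
  · exact c9_pt_aux hη0 hη ha1 ha2 hb1 hb2 hjk h2 hc
  · rw [abs_sub_comm] at hc ⊢
    exact c9_pt_aux hη0 hη hb1 hb2 ha1 ha2 hjk h1 hc

theorem c9_floor {x : ℝ} (hx : 0 ≤ x) :
    (⌊x / π⌋₊ : ℝ) * π ≤ x ∧ x < ((⌊x / π⌋₊ : ℝ) + 1) * π := by
  have hπ := Real.pi_pos
  have h1 := Nat.floor_le (div_nonneg hx hπ.le)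
  have h2 := Nat.lt_floor_add_one (x / π)
  exact ⟨(le_div_iff₀ hπ).1 h1, (div_lt_iff₀ hπ).1 h2⟩

/-- two continuous antitone phases that start at `0` and have uniformly close cosines are
uniformly close -/
theorem c9_exit {f S : ℝ → ℝ} (hf : Continuous f) (hS : Continuous S) (hfa : Antitone f)
    (hSa : Antitone S) {R : ℝ} (hfR : f R = 0) (hSR : S R = 0) (hf0 : ∀ E, 0 ≤ f E)
    (hS0 : ∀ E, 0 ≤ S E) {η : ℝ} (hη0 : 0 < η) (hη : η < π / 2)
    (h : ∀ E, |cos (f E) - cos (S E)| ≤ 1 - cos η) (E : ℝ) : |f E - S E| ≤ 3 * η := by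
  have hP := c9_Pj hf hfa hSa hfR hS0 hη0 hη h
  have hP' := c9_Pj hS hSa hfa hSR hf0 hη0 hη (fun E => by rw [abs_sub_comm]; exact h E)
  obtain ⟨ha1, ha2⟩ := c9_floor (hf0 E)
  obtain ⟨hb1, hb2⟩ := c9_floor (hS0 E)
  exact c9_pt hη0 hη ha1 ha2 hb1 hb2 (hP _ E ha1) (hP' _ E hb1) (h E)

theorem c9_clip_lip (x y : ℝ) : |clip x - clip y| ≤ |x - y| := by
  unfold clip
  have h1 : |max (-1) (min 1 x) - max (-1) (min 1 y)| ≤ |min 1 x - min 1 y| := by
    rw [max_comm (-1 : ℝ) (min 1 x), max_comm (-1 : ℝ) (min 1 y)]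
    exact abs_max_sub_max_le_abs _ _ _
  refine h1.trans ?_
  rw [min_comm 1 x, min_comm 1 y]
  rcases le_total x 1 with hx | hx <;> rcases le_total y 1 with hy | hy
  · rw [min_eq_left hx, min_eq_left hy]
  · rw [min_eq_left hx, min_eq_right hy, abs_of_nonpos (by linarith), abs_of_nonpos (by linarith)]
    linarith
  · rw [min_eq_right hx, min_eq_left hy, abs_of_nonneg (by linarith), abs_of_nonneg (by linarith)]
    linarith
  · rw [min_eq_right hx, min_eq_right hy, sub_self, abs_zero]; exact abs_nonneg _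

theorem c9_clip_eq {x : ℝ} (h : |clip x| < 1) : clip x = x := by
  unfold clip at *
  rw [abs_lt] at h
  rcases le_total x 1 with hx | hx
  · rcases le_total (-1) x with hy | hy
    · rw [min_eq_right hx, max_eq_right hy]
    · rw [min_eq_right hx, max_eq_left hy] at h
      linarith [h.1]
  · rw [min_eq_left hx, max_eq_right (by norm_num)] at h
    linarith [h.2]

theorem c9_Th_nonneg {l : ℝ} {K : ℕ} (h : ThAt l K) (E : ℝ) : 0 ≤ Th K l E := by
  obtain ⟨-, ha, -, h3, -, -⟩ := h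
  have := ha (le_max_left E 3)
  rw [h3 _ (le_max_right E 3)] at this
  exact this

theorem c9_Th_le {l : ℝ} {K : ℕ} (h : ThAt l K) (E : ℝ) : Th K l E ≤ π * Nat.fib K := by
  obtain ⟨-, ha, -, -, h3, -⟩ := h
  have := ha (min_le_left E (-3))
  rw [h3 _ (min_le_right E (-3))] at this
  exact this

/-- uniform continuity of the phase in `l` -/
theorem c9_unif (h : ThProps) (K : ℕ) {l0 : ℝ} (hl0 : 0 < l0) (hl0' : l0 ≤ 1 / 8) {ε : ℝ}
    (hε : 0 < ε) : ∃ δ : ℝ, 0 < δ ∧ ∀ l : ℝ, 0 < l → l ≤ 1 / 8 → |l - l0| < δ →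
      ∀ E, |Th K l E - Th K l0 E| ≤ ε := by
  have hπ := Real.pi_gt_three
  set η : ℝ := min (ε / 3) 1 with hη
  have hη0 : 0 < η := lt_min (by linarith) one_pos
  have hη1 : η < π / 2 := lt_of_le_of_lt (min_le_right _ _) (by linarith)
  have hcos : 0 < 1 - cos η := by
    have := Real.cos_lt_cos_of_nonneg_of_le_pi le_rfl (by linarith) hη0
    rw [Real.cos_zero] at this
    linarith
  have hcpt : IsCompact (Icc (-3 : ℝ) 3 ×ˢ Icc (0 : ℝ) (1 / 8)) := isCompact_Icc.prod isCompact_Icc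
  have huc := hcpt.uniformContinuousOn_of_continuous (c9_cont_tr K).continuousOn
  rw [Metric.uniformContinuousOn_iff] at huc
  obtain ⟨δ, hδ, H⟩ := huc _ hcos
  refine ⟨δ, hδ, ?_⟩
  intro l hl hl' hd E
  have hA := h l hl hl' K
  have hB := h l0 hl0 hl0' K
  have key : ∀ x, |cos (Th K l x) - cos (Th K l0 x)| ≤ 1 - cos η := by
    intro x
    rcases le_or_gt 3 x with hx | hx
    · rw [hA.2.2.2.1 x hx, hB.2.2.2.1 x hx, sub_self, abs_zero]; exact hcos.le
    rcases le_or_gt x (-3) with hy | hy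
    · rw [hA.2.2.2.2.1 x hy, hB.2.2.2.2.1 x hy, sub_self, abs_zero]; exact hcos.le
    rw [hA.2.2.1, hB.2.2.1]
    refine (c9_clip_lip _ _).trans ?_
    have := H (x, l) ⟨⟨hy.le, hx.le⟩, ⟨hl.le, hl'⟩⟩ (x, l0) ⟨⟨hy.le, hx.le⟩, ⟨hl0.le, hl0'⟩⟩
      (by
        rw [Prod.dist_eq]
        simp only [dist_self, Real.dist_eq]
        exact max_lt hδ hd)
    rw [Real.dist_eq] at this
    exact this.le
  have := c9_exit hA.1 hB.1 hA.2.1 hB.2.1 (R := 3) (hA.2.2.2.1 3 le_rfl) (hB.2.2.2.1 3 le_rfl)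
    (c9_Th_nonneg hA) (c9_Th_nonneg hB) hη0 hη1 key E
  have h3 : 3 * η ≤ ε := by
    have := min_le_left (ε / 3) 1
    rw [← hη] at this
    linarith
  linarith

theorem c9_set (K : ℕ) (hK : 1 ≤ K) {l : ℝ} (h : ThAt l K) {t : ℝ} (ht : t ∈ Ioo (0 : ℝ) 1) :
    (-3 : ℝ) ∈ {E : ℝ | π * Nat.fib K * t ≤ Th K l E} ∧
    (∀ E ∈ {E : ℝ | π * Nat.fib K * t ≤ Th K l E}, E ≤ 3) ∧
    IsClosed {E : ℝ | π * Nat.fib K * t ≤ Th K l E} := by
  have hπ := Real.pi_pos
  have hF : (0 : ℝ) < Nat.fib K := by exact_mod_cast Nat.fib_pos.2 hK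
  refine ⟨?_, ?_, ?_⟩
  · change π * Nat.fib K * t ≤ Th K l (-3)
    rw [h.2.2.2.2.1 (-3) le_rfl]
    have : π * Nat.fib K * t ≤ π * Nat.fib K * 1 :=
      mul_le_mul_of_nonneg_left ht.2.le (by positivity)
    linarith
  · intro E hE
    by_contra hc
    push Not at hc
    have h1 : π * Nat.fib K * t ≤ Th K l E := hE
    rw [h.2.2.2.1 E hc.le] at h1
    have : 0 < π * Nat.fib K * t := mul_pos (mul_pos hπ hF) ht.1
    linarith
  · exact isClosed_le continuous_const h.1

theorem c9_EK_mem (K : ℕ) (hK : 1 ≤ K) {l : ℝ} (h : ThAt l K) {t : ℝ} (ht : t ∈ Ioo (0 : ℝ) 1) :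
    π * Nat.fib K * t ≤ Th K l (EK K l t) ∧ -3 ≤ EK K l t ∧ EK K l t ≤ 3 := by
  obtain ⟨h1, h2, h3⟩ := c9_set K hK h ht
  have hbdd : BddAbove {E : ℝ | π * Nat.fib K * t ≤ Th K l E} := ⟨3, h2⟩
  have hmem := h3.csSup_mem ⟨_, h1⟩ hbdd
  exact ⟨hmem, le_csSup hbdd h1, csSup_le ⟨_, h1⟩ h2⟩

theorem c9_le_EK (K : ℕ) (hK : 1 ≤ K) {l : ℝ} (h : ThAt l K) {t : ℝ} (ht : t ∈ Ioo (0 : ℝ) 1)
    (c : ℝ) : c ≤ EK K l t ↔ π * Nat.fib K * t ≤ Th K l c := by
  obtain ⟨h1, h2, h3⟩ := c9_set K hK h ht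
  have hbdd : BddAbove {E : ℝ | π * Nat.fib K * t ≤ Th K l E} := ⟨3, h2⟩
  constructor
  · intro hc
    exact (c9_EK_mem K hK h ht).1.trans (h.2.1 hc)
  · intro hc
    exact le_csSup hbdd hc

theorem c9_Th_EK (K : ℕ) (hK : 1 ≤ K) {l : ℝ} (h : ThAt l K) {t : ℝ} (ht : t ∈ Ioo (0 : ℝ) 1) :
    Th K l (EK K l t) = π * Nat.fib K * t := by
  refine le_antisymm ?_ (c9_EK_mem K hK h ht).1
  have hcl : IsClosed {E : ℝ | Th K l E ≤ π * Nat.fib K * t} := isClosed_le h.1 continuous_const
  have hsub : Ioi (EK K l t) ⊆ {E : ℝ | Th K l E ≤ π * Nat.fib K * t} := by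
    intro E hE
    by_contra hc
    have hc' : π * Nat.fib K * t < Th K l E := not_le.1 hc
    have := (c9_le_EK K hK h ht E).2 hc'.le
    exact absurd hE (not_lt.2 this)
  have := hcl.closure_subset_iff.2 hsub
  rw [closure_Ioi] at this
  exact this (mem_Ici.2 le_rfl)

theorem c9_tr_EK (K : ℕ) (hK : 1 ≤ K) {l : ℝ} (h : ThAt l K) {t : ℝ} (ht : t ∈ Rg K) :
    |tr K (EK K l t) l| < 1 ∧ tr K (EK K l t) l = cos (π * Nat.fib K * t) := by
  have hπ := Real.pi_pos
  have hF : (0 : ℝ) < Nat.fib K := by exact_mod_cast Nat.fib_pos.2 hK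
  have h1 := h.2.2.1 (EK K l t)
  rw [c9_Th_EK K hK h ⟨ht.1, ht.2.1⟩] at h1
  have h2 : |cos (π * Nat.fib K * t)| < 1 := by
    rw [abs_lt]
    constructor
    · rcases lt_or_eq_of_le (Real.neg_one_le_cos (π * Nat.fib K * t)) with h3 | h3
      · exact h3
      · exfalso
        obtain ⟨k, hk⟩ := Real.cos_eq_neg_one_iff.1 h3.symm
        have h4 : π * (Nat.fib K * t - (2 * k + 1)) = 0 := by linarith
        rcases mul_eq_zero.1 h4 with h5 | h5
        · exact absurd h5 hπ.ne'
        · exact ht.2.2 (2 * k + 1) (by push_cast; linarith)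
    · rcases lt_or_eq_of_le (Real.cos_le_one (π * Nat.fib K * t)) with h3 | h3
      · exact h3
      · exfalso
        obtain ⟨k, hk⟩ := (Real.cos_eq_one_iff _).1 h3
        have h4 : π * (Nat.fib K * t - 2 * k) = 0 := by linarith
        rcases mul_eq_zero.1 h4 with h5 | h5
        · exact absurd h5 hπ.ne'
        · exact ht.2.2 (2 * k) (by push_cast; linarith)
  rw [h1] at h2
  have h3 := c9_clip_eq h2
  rw [h3] at h2 h1
  exact ⟨h2, h1.symm⟩

/-- continuity of the quantile in `l` at regular parameters -/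
theorem c9_EK_cont (h : ThProps) (K : ℕ) (hK : 1 ≤ K) {t : ℝ} (ht : t ∈ Rg K) {l0 : ℝ}
    (hl0 : 0 < l0) (hl0' : l0 < 1 / 8) : ContinuousAt (fun l => EK K l t) l0 := by
  have hA := h l0 hl0 hl0'.le K
  have ht' : t ∈ Ioo (0 : ℝ) 1 := ⟨ht.1, ht.2.1⟩
  obtain ⟨hx1, hx2⟩ := c9_tr_EK K hK hA ht
  have hE := c9_Th_EK K hK hA ht'
  obtain ⟨hs, hd⟩ := hA.2.2.2.2.2 (EK K l0 t) hK hx1
  have hneg : -(|trE K (EK K l0 t) l0| / √(1 - tr K (EK K l0 t) l0 ^ 2)) < 0 := by
    have h1 : trE K (EK K l0 t) l0 ≠ 0 := by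
      intro h0
      rw [h0, mul_zero] at hs
      exact lt_irrefl _ hs
    have h2 : 0 < 1 - tr K (EK K l0 t) l0 ^ 2 := by
      rw [abs_lt] at hx1; nlinarith [hx1.1, hx1.2]
    have h3 : 0 < √(1 - tr K (EK K l0 t) l0 ^ 2) := Real.sqrt_pos.2 h2
    have h4 : 0 < |trE K (EK K l0 t) l0| := abs_pos.2 h1
    have := div_pos h4 h3
    linarith
  rw [Metric.continuousAt_iff]
  intro ε hε
  -- strict monotonicity at E0
  set E0 := EK K l0 t with hE0
  have hlo : Th K l0 E0 < Th K l0 (E0 - ε / 2) := by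
    by_contra hc
    push Not at hc
    -- Th is constant on [E0 - ε/2, E0]
    have hconst : ∀ x ∈ Icc (E0 - ε / 2) E0, Th K l0 x = Th K l0 E0 := by
      intro x hx
      exact le_antisymm ((hA.2.1 hx.1).trans hc) (hA.2.1 hx.2)
    have hd' : HasDerivWithinAt (Th K l0) 0 (Icc (E0 - ε / 2) E0) E0 := by
      refine (hasDerivWithinAt_const E0 (Icc (E0 - ε / 2) E0) (Th K l0 E0)).congr hconst rfl
    have hu : UniqueDiffWithinAt ℝ (Icc (E0 - ε / 2) E0) E0 :=
      uniqueDiffOn_Icc (by linarith) E0 ⟨by linarith, le_rfl⟩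
    have := hu.eq_deriv _ hd' hd.hasDerivWithinAt
    linarith
  have hhi : Th K l0 (E0 + ε / 2) < Th K l0 E0 := by
    by_contra hc
    push Not at hc
    have hconst : ∀ x ∈ Icc E0 (E0 + ε / 2), Th K l0 x = Th K l0 E0 := by
      intro x hx
      exact le_antisymm (hA.2.1 hx.1) (hc.trans (hA.2.1 hx.2))
    have hd' : HasDerivWithinAt (Th K l0) 0 (Icc E0 (E0 + ε / 2)) E0 := by
      refine (hasDerivWithinAt_const E0 (Icc E0 (E0 + ε / 2)) (Th K l0 E0)).congr hconst rfl
    have hu : UniqueDiffWithinAt ℝ (Icc E0 (E0 + ε / 2)) E0 :=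
      uniqueDiffOn_Icc (by linarith) E0 ⟨le_rfl, by linarith⟩
    have := hu.eq_deriv _ hd' hd.hasDerivWithinAt
    linarith
  set g : ℝ := min (Th K l0 (E0 - ε / 2) - Th K l0 E0) (Th K l0 E0 - Th K l0 (E0 + ε / 2)) with hg
  have hg0 : 0 < g := lt_min (by linarith) (by linarith)
  obtain ⟨δ, hδ, H⟩ := c9_unif h K hl0 hl0'.le (half_pos hg0)
  refine ⟨min δ (min l0 (1 / 8 - l0)), lt_min hδ (lt_min hl0 (by linarith)), ?_⟩
  intro l hl
  rw [Real.dist_eq] at hl ⊢
  have hl1 : |l - l0| < δ := lt_of_lt_of_le hl (min_le_left _ _)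
  have hl2 : |l - l0| < l0 := lt_of_lt_of_le hl ((min_le_right _ _).trans (min_le_left _ _))
  have hl3 : |l - l0| < 1 / 8 - l0 := lt_of_lt_of_le hl ((min_le_right _ _).trans (min_le_right _ _))
  rw [abs_lt] at hl2 hl3
  have hlp : 0 < l := by linarith [hl2.1]
  have hlq : l ≤ 1 / 8 := by linarith [hl3.2]
  have hB := h l hlp hlq K
  have hg1 : g ≤ Th K l0 (E0 - ε / 2) - Th K l0 E0 := min_le_left _ _
  have hg2 : g ≤ Th K l0 E0 - Th K l0 (E0 + ε / 2) := min_le_right _ _
  have hH1 := abs_le.1 (H l hlp hlq hl1 (E0 - ε / 2))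
  have hH2 := abs_le.1 (H l hlp hlq hl1 (E0 + ε / 2))
  have h1 : E0 - ε / 2 ≤ EK K l t := by
    rw [c9_le_EK K hK hB ht', ← hE]
    linarith [hH1.1]
  have h2 : ¬ (E0 + ε / 2 ≤ EK K l t) := by
    rw [c9_le_EK K hK hB ht', ← hE]
    push Not
    linarith [hH2.2]
  push Not at h2
  rw [abs_lt]
  constructor <;> linarith

theorem c9_deriv (h : ThProps) (hV : PosV) (K : ℕ) (hK : 1 ≤ K) {t : ℝ} (ht : t ∈ Rg K) {l0 : ℝ}
    (hl0 : 0 < l0) (hl0' : l0 < 1 / 8) : HasDerivAt (fun l => EK K l t) (VK K l0 t) l0 := by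
  have hA := h l0 hl0 hl0'.le K
  obtain ⟨hx1, hx2⟩ := c9_tr_EK K hK hA ht
  have hne : trE K (EK K l0 t) l0 ≠ 0 := (hV K (EK K l0 t) l0 hK hx1).1
  have hcont := c9_EK_cont h K hK ht hl0 hl0'
  set E0 := EK K l0 t with hE0
  -- mean value point
  have hmv : ∀ l : ℝ, ∃ ξ : ℝ, |ξ - E0| ≤ |EK K l t - E0| ∧
      tr K (EK K l t) l - tr K E0 l = trE K ξ l * (EK K l t - E0) := by
    intro l
    rcases lt_trichotomy (EK K l t) E0 with hlt | heq | hgt
    · obtain ⟨c, hc, hc'⟩ := exists_hasDerivAt_eq_slope (fun x => tr K x l) (fun x => trE K x l)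
        hlt ((c9_cont_tr K).comp (continuous_id.prodMk continuous_const)).continuousOn
        (fun x _ => hasDerivAt_tr_E K x l)
      refine ⟨c, ?_, ?_⟩
      · rw [abs_of_nonpos (by linarith [hc.2]), abs_of_nonpos (by linarith)]
        linarith [hc.1]
      · rw [hc']
        have : E0 - EK K l t ≠ 0 := by linarith
        field_simp
        ring
    · exact ⟨E0, by simp, by rw [heq]; ring⟩
    · obtain ⟨c, hc, hc'⟩ := exists_hasDerivAt_eq_slope (fun x => tr K x l) (fun x => trE K x l)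
        hgt ((c9_cont_tr K).comp (continuous_id.prodMk continuous_const)).continuousOn
        (fun x _ => hasDerivAt_tr_E K x l)
      refine ⟨c, ?_, ?_⟩
      · rw [abs_of_nonneg (by linarith [hc.1]), abs_of_nonneg (by linarith)]
        linarith [hc.2]
      · rw [hc']
        have : EK K l t - E0 ≠ 0 := by linarith
        field_simp
  choose ξ hξ1 hξ2 using hmv
  have hξ : Tendsto ξ (𝓝 l0) (𝓝 E0) := by
    rw [tendsto_iff_dist_tendsto_zero]
    have h1 : Tendsto (fun l => |EK K l t - E0|) (𝓝 l0) (𝓝 0) := by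
      have := (hcont.tendsto.sub_const E0).abs
      simpa [hE0] using this
    refine squeeze_zero (fun _ => dist_nonneg) (fun l => ?_) h1
    rw [Real.dist_eq]
    exact hξ1 l
  have hden : Tendsto (fun l => trE K (ξ l) l) (𝓝 l0) (𝓝 (trE K E0 l0)) := by
    have h1 : Tendsto (fun l => (ξ l, l)) (𝓝 l0) (𝓝 (E0, l0)) := hξ.prodMk_nhds tendsto_id
    exact ((c9_cont_trE K).tendsto (E0, l0)).comp h1
  have hnum : Tendsto (slope (fun l => tr K E0 l) l0) (𝓝[≠] l0) (𝓝 (trL K E0 l0)) :=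
    hasDerivAt_iff_tendsto_slope.1 (hasDerivAt_tr_L K E0 l0)
  rw [hasDerivAt_iff_tendsto_slope]
  have hlim : Tendsto (fun l => -(slope (fun l => tr K E0 l) l0 l) / trE K (ξ l) l) (𝓝[≠] l0)
      (𝓝 (VK K l0 t)) := by
    have := hnum.neg.div (hden.mono_left nhdsWithin_le_nhds) hne
    exact this
  refine hlim.congr' ?_
  have hev1 : ∀ᶠ l in 𝓝[≠] l0, trE K (ξ l) l ≠ 0 :=
    (hden.mono_left nhdsWithin_le_nhds).eventually_ne hne
  have hev2 : ∀ᶠ l in 𝓝[≠] l0, 0 < l ∧ l < 1 / 8 :=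
    nhdsWithin_le_nhds ((lt_mem_nhds hl0).and (gt_mem_nhds hl0'))
  have hev3 : ∀ᶠ l in 𝓝[≠] l0, l ≠ l0 := eventually_mem_nhdsWithin
  filter_upwards [hev1, hev2, hev3] with l h1 h2 h3
  have hB := h l h2.1 h2.2.le K
  have h4 := (c9_tr_EK K hK hB ht).2
  have h5 := hξ2 l
  rw [h4, ← hx2] at h5
  have h6 : l - l0 ≠ 0 := sub_ne_zero.2 h3
  rw [slope_def_field, slope_def_field]
  rw [div_eq_iff h1]
  field_simp
  rw [← hE0]
  linarith

theorem quantileProps (h : ThProps) (hV : PosV) : QuantileProps := by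
  intro K hK
  have hRgm : MeasurableSet (Rg K) := by
    have : Rg K = Ioo (0 : ℝ) 1 ∩ ⋂ j : ℤ, {t : ℝ | (Nat.fib K : ℝ) * t ≠ j} := by
      ext t
      simp only [Rg, mem_ofPred_eq, mem_inter_iff, mem_Ioo, mem_iInter]
      tauto
    rw [this]
    refine measurableSet_Ioo.inter (MeasurableSet.iInter fun j => ?_)
    exact (isOpen_ne_fun (by fun_prop) (by fun_prop)).measurableSet
  have hsub : Rg K ⊆ Ioo (0 : ℝ) 1 := fun t ht => ⟨ht.1, ht.2.1⟩
  have hF : (0 : ℝ) < Nat.fib K := by exact_mod_cast Nat.fib_pos.2 hK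
  refine ⟨?_, ?_, ?_, ?_, ?_, hRgm, ?_⟩
  · intro l hl hl' t ht
    have := c9_EK_mem K hK (h l hl hl' K) ht
    exact abs_le.2 this.2
  · intro l hl hl' t ht
    exact c9_Th_EK K hK (h l hl hl' K) ht
  · intro l hl hl' t ht
    exact c9_deriv h hV K hK ht hl hl'
  · intro l hl hl' t ht
    have h1 := (c9_tr_EK K hK (h l hl hl' K) ht).1
    exact (hV K (EK K l t) l hK h1).2
  · intro a b ha hb
    have hm1 : Measurable (indicator (Icc a b ×ˢ Ioo (0 : ℝ) 1)
        (fun p : ℝ × ℝ => EK K p.1 p.2)) := by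
      rcases lt_or_ge b a with hba | hab
      · rw [Icc_eq_empty (not_le.2 hba)]
        simp
      refine measurable_of_Ici fun c => ?_
      have hS : MeasurableSet (Icc a b ×ˢ Ioo (0 : ℝ) 1) := measurableSet_Icc.prod measurableSet_Ioo
      -- the clamped phase
      have hG : Continuous (fun l : ℝ => Th K (max a (min b l)) c) := by
        rw [continuous_iff_continuousAt]
        intro l0
        set m0 : ℝ := max a (min b l0) with hm0
        have hm0a : a ≤ m0 := le_max_left _ _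
        have hm0b : m0 ≤ b := max_le hab (min_le_left _ _)
        rw [Metric.continuousAt_iff]
        intro ε hε
        obtain ⟨δ, hδ, H⟩ := c9_unif h K (l0 := m0) (by linarith) (by linarith) (half_pos hε)
        refine ⟨δ, hδ, ?_⟩
        intro l hl
        rw [Real.dist_eq] at hl ⊢
        have h1 : |max a (min b l) - m0| ≤ |l - l0| := by
          rw [hm0, max_comm a, max_comm a]
          refine (abs_max_sub_max_le_abs _ _ _).trans ?_
          rw [min_comm b, min_comm b]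
          rcases le_total l b with hx | hx <;> rcases le_total l0 b with hy | hy
          · rw [min_eq_left hx, min_eq_left hy]
          · rw [min_eq_left hx, min_eq_right hy, abs_of_nonpos (by linarith),
              abs_of_nonpos (by linarith)]
            linarith
          · rw [min_eq_right hx, min_eq_left hy, abs_of_nonneg (by linarith),
              abs_of_nonneg (by linarith)]
            linarith
          · rw [min_eq_right hx, min_eq_right hy, sub_self, abs_zero]; exact abs_nonneg _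
        have h2a : a ≤ max a (min b l) := le_max_left _ _
        have h2b : max a (min b l) ≤ b := max_le hab (min_le_left _ _)
        have := H (max a (min b l)) (by linarith) (by linarith) (lt_of_le_of_lt h1 hl) c
        linarith
      have hT : MeasurableSet {p : ℝ × ℝ | π * Nat.fib K * p.2 ≤ Th K (max a (min b p.1)) c} := by
        refine (isClosed_le (by fun_prop) ?_).measurableSet
        exact hG.comp continuous_fst
      have hT' : MeasurableSet {p : ℝ × ℝ | c ≤ (0 : ℝ)} := by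
        by_cases h0 : c ≤ 0 <;> simp [h0]
      have heq : (indicator (Icc a b ×ˢ Ioo (0 : ℝ) 1) (fun p : ℝ × ℝ => EK K p.1 p.2)) ⁻¹' Ici c =
          ((Icc a b ×ˢ Ioo (0 : ℝ) 1) ∩
            {p : ℝ × ℝ | π * Nat.fib K * p.2 ≤ Th K (max a (min b p.1)) c}) ∪
          ((Icc a b ×ˢ Ioo (0 : ℝ) 1)ᶜ ∩ {p : ℝ × ℝ | c ≤ (0 : ℝ)}) := by
        ext p
        by_cases hp : p ∈ Icc a b ×ˢ Ioo (0 : ℝ) 1
        · have hp1 : p.1 ∈ Icc a b := hp.1
          have hclamp : max a (min b p.1) = p.1 := by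
            rw [min_eq_right hp1.2, max_eq_right hp1.1]
          have hB := h p.1 (by linarith [hp1.1]) (by linarith [hp1.2]) K
          simp only [mem_preimage, mem_Ici, indicator_of_mem hp, mem_union, mem_inter_iff, hp,
            true_and, mem_ofPred_eq, mem_compl_iff, not_true_eq_false, false_and, or_false, hclamp]
          exact c9_le_EK K hK hB hp.2 c
        · simp only [mem_preimage, mem_Ici, indicator_of_notMem hp, mem_union, mem_inter_iff, hp,
            false_and, mem_ofPred_eq, mem_compl_iff, not_false_eq_true, true_and, false_or]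
      rw [heq]
      exact (hS.inter hT).union (hS.compl.inter hT')
    refine ⟨hm1, ?_⟩
    have hS' : MeasurableSet (Icc a b ×ˢ Rg K) := measurableSet_Icc.prod hRgm
    set e : ℝ × ℝ → ℝ := indicator (Icc a b ×ˢ Ioo (0 : ℝ) 1)
      (fun p : ℝ × ℝ => EK K p.1 p.2) with he
    have heq : indicator (Icc a b ×ˢ Rg K) (fun p : ℝ × ℝ => VK K p.1 p.2) =
        indicator (Icc a b ×ˢ Rg K) (fun p : ℝ × ℝ => -trL K (e p) p.1 / trE K (e p) p.1) := by
      ext p
      by_cases hp : p ∈ Icc a b ×ˢ Rg K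
      · have hp' : p ∈ Icc a b ×ˢ Ioo (0 : ℝ) 1 := ⟨hp.1, hsub hp.2⟩
        have hep : e p = EK K p.1 p.2 := indicator_of_mem hp' _
        rw [indicator_of_mem hp, indicator_of_mem hp, hep]
        rfl
      · rw [indicator_of_notMem hp, indicator_of_notMem hp]
    rw [heq]
    refine Measurable.indicator ?_ hS'
    have hpair : Measurable (fun p : ℝ × ℝ => (e p, p.1)) := hm1.prodMk measurable_fst
    exact (((c9_cont_trL K).measurable.comp hpair).neg).div
      ((c9_cont_trE K).measurable.comp hpair)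
  · have hsub2 : Ioo (0 : ℝ) 1 \ Rg K ⊆ ⋃ j : ℤ, {((j : ℝ) / Nat.fib K)} := by
      intro t ht
      have h1 : ∃ j : ℤ, (Nat.fib K : ℝ) * t = j := by
        by_contra hc
        push Not at hc
        exact ht.2 ⟨ht.1.1, ht.1.2, hc⟩
      obtain ⟨j, hj⟩ := h1
      refine mem_iUnion.2 ⟨j, ?_⟩
      rw [mem_singleton_iff, eq_div_iff hF.ne', mul_comm]
      exact hj
    refine measure_mono_null hsub2 ?_
    rw [measure_iUnion_null_iff]
    intro j
    exact measure_singleton _

end FIB
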