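import Pool.Agent.Helper75.FIB.Iface

/-!
# FIB block G0 : ratio of consecutive rho

`trE (n+3) = 2(trE (n+2) tr (n+1) + tr (n+2) trE (n+1)) - trE n`, so `|trE (n+3)| <= 2(2ρ + 2ρ) + ρ = 9 ρ`, and backwards `|trE n| <= 2(2ρ'+2ρ') + ρ'`.
-/

namespace FIB

open Real MeasureTheory Set Filter Topology

namespace G0

theorem le_rho0 (n : ℕ) (E l : ℝ) : |trE n E l| ≤ rho n E l := le_max_left _ _

theorem le_rho1 (n : ℕ) (E l : ℝ) : |trE (n + 1) E l| ≤ rho n E l :=
  (le_max_left _ _).trans (le_max_right _ _)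

theorem le_rho2 (n : ℕ) (E l : ℝ) : |trE (n + 2) E l| ≤ rho n E l :=
  (le_max_right _ _).trans (le_max_right _ _)

theorem rho_le {n : ℕ} {E l c : ℝ} (h0 : |trE n E l| ≤ c) (h1 : |trE (n + 1) E l| ≤ c)
    (h2 : |trE (n + 2) E l| ≤ c) : rho n E l ≤ c := max_le h0 (max_le h1 h2)

/-- the elementary estimate -/
theorem est {a b x y z w r : ℝ} (ha : |a| ≤ 2) (hb : |b| ≤ 2) (hx : |x| ≤ r) (hy : |y| ≤ r)
    (hz : |z| ≤ r) (hw : w = 2 * (x * a + b * y) - z) : |w| ≤ 9 * r := by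
  have h1 : |x * a| ≤ 2 * r := by
    rw [abs_mul]
    nlinarith [abs_nonneg x, abs_nonneg a]
  have h2 : |b * y| ≤ 2 * r := by
    rw [abs_mul]
    nlinarith [abs_nonneg y, abs_nonneg b]
  rw [hw]
  have h3 := abs_sub (2 * (x * a + b * y)) z
  have h4 : |2 * (x * a + b * y)| ≤ 2 * (|x * a| + |b * y|) := by
    rw [abs_mul, abs_two]
    have := abs_add_le (x * a) (b * y)
    linarith
  linarith

end G0

theorem rhoRatio : RhoRatio := by
  intro n E l h1 h2
  have hr := trE_add_three n E l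
  constructor
  · refine G0.rho_le ?_ ?_ ?_
    · have := G0.le_rho1 n E l
      have h0 : 0 ≤ rho n E l := (abs_nonneg _).trans this
      linarith
    · have := G0.le_rho2 n E l
      have h0 : 0 ≤ rho n E l := (abs_nonneg _).trans this
      rw [show n + 1 + 1 = n + 2 from rfl]
      linarith
    · rw [show n + 1 + 2 = n + 3 from rfl]
      exact G0.est h1 h2 (G0.le_rho2 n E l) (G0.le_rho1 n E l) (G0.le_rho0 n E l) hr
  · have h0 : 0 ≤ rho (n + 1) E l := (abs_nonneg _).trans (G0.le_rho0 (n + 1) E l)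
    refine G0.rho_le ?_ ?_ ?_
    · exact G0.est h1 h2 (G0.le_rho1 (n + 1) E l) (G0.le_rho0 (n + 1) E l)
        (G0.le_rho2 (n + 1) E l) (by rw [show n + 1 + 2 = n + 3 from rfl, hr]; ring)
    · have := G0.le_rho0 (n + 1) E l
      linarith
    · have := G0.le_rho1 (n + 1) E l
      rw [show n + 1 + 1 = n + 2 from rfl] at this
      linarith

/-- iterated version -/
theorem rho_iter (n k : ℕ) (E l : ℝ) (h : ∀ j, n < j → j ≤ n + k + 1 → |tr j E l| ≤ 2) :
    rho (n + k) E l ≤ 9 ^ k * rho n E l ∧ rho n E l ≤ 9 ^ k * rho (n + k) E l := by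
  induction k with
  | zero => simp
  | succ k ih =>
    obtain ⟨i1, i2⟩ := ih fun j h1 h2 => h j h1 (by omega)
    obtain ⟨s1, s2⟩ := rhoRatio (n + k) E l (h (n + k + 1) (by omega) (by omega))
      (h (n + k + 2) (by omega) (by omega))
    rw [show n + (k + 1) = n + k + 1 from rfl, pow_succ]
    have h9 : (0 : ℝ) < 9 ^ k := by positivity
    constructor
    · calc rho (n + k + 1) E l ≤ 9 * rho (n + k) E l := s1
        _ ≤ 9 * (9 ^ k * rho n E l) := by linarith
        _ = 9 ^ k * 9 * rho n E l := by ring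
    · calc rho n E l ≤ 9 ^ k * rho (n + k) E l := i2
        _ ≤ 9 ^ k * (9 * rho (n + k + 1) E l) := mul_le_mul_of_nonneg_left s2 h9.le
        _ = 9 ^ k * 9 * rho (n + k + 1) E l := by ring

end FIB
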