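import Pool.Agent.Helper75.FIB.Iface

/-!
# FIB block G1 : growth from below

Case `n' >= n + 4`: `rho n' >= ε^C sqrt(det S_{n'+1})` (DetRho at `n'`), `sqrt det S_{n'+1} >= F_{n'-n-2} sqrt det S_{n+4}` (DetS (2) with `j = n'-n-3`), `sqrt det S_{n+4} >= ε^C rho n` (DetRho at `n`); `F_j >= φ^{j-2}` . Case `n' <= n+3`: traces at `n+1..n+8` are bounded by `2` in both cases of `ND` (`Ty` gives `|tr| <= 1`),
so `rho n <= 9^3 rho n'` (G0) and `φ^{n'-n} <= 5`. Absorb constants in powers of `ε <= 1/2`.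
-/

namespace FIB

open Real MeasureTheory Set Filter Topology

theorem G1_ph_sq : ph ^ 2 = ph + 1 := by
  unfold ph
  have h5 : √5 ^ 2 = 5 := Real.sq_sqrt (by norm_num)
  nlinarith

theorem G1_one_lt_ph : 1 < ph := by
  unfold ph
  have h5 : 1 < √5 := by
    rw [Real.lt_sqrt (by norm_num)]; norm_num
  linarith

theorem G1_ph_lt : ph < 1.65 := by
  unfold ph
  have h5 : √5 < 2.3 := by
    rw [Real.sqrt_lt' (by norm_num)]; norm_num
  linarith

theorem G1_ph_pow_le (m : ℕ) : ph ^ (m + 1) ≤ ph ^ 2 * (Nat.fib (m + 1) : ℝ) := by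
  have h1 := G1_one_lt_ph
  have key : ph ^ (m + 1) ≤ ph ^ 2 * (Nat.fib (m + 1) : ℝ) ∧
      ph ^ (m + 2) ≤ ph ^ 2 * (Nat.fib (m + 2) : ℝ) := by
    induction m with
    | zero =>
      constructor
      · norm_num
        nlinarith
      · norm_num
    | succ m ih =>
      refine ⟨ih.2, ?_⟩
      have e : (Nat.fib (m + 3) : ℝ) = Nat.fib (m + 1) + Nat.fib (m + 2) := by
        exact_mod_cast (Nat.fib_add_two (n := m + 1))
      rw [show m + 1 + 2 = m + 3 from rfl, e]
      have h2 : ph ^ (m + 3) = ph ^ (m + 1) + ph ^ (m + 2) := by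
        have := G1_ph_sq
        calc ph ^ (m + 3) = ph ^ (m + 1) * ph ^ 2 := by ring
          _ = ph ^ (m + 1) * (ph + 1) := by rw [this]
          _ = _ := by ring
      rw [h2]
      have := ih.1
      have := ih.2
      linarith
  exact key.1

/-- traces are bounded by two at nondegenerate levels -/
theorem G1_tr_le (ε : ℝ) (n : ℕ) (E l : ℝ) (h : ND ε n E l) (j : ℕ) (h1 : n ≤ j) (h2 : j ≤ n + 8) :
    |tr j E l| ≤ 2 := by
  rcases h with ⟨-, hc, -⟩ | ⟨-, ht⟩
  · exact hc j h1 h2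
  · have h3 := ht j h1 h2
    have h4 : tr j E l ^ 2 ≤ 1 := by nlinarith [sq_nonneg ε]
    have h5 : |tr j E l| ≤ 1 := by
      rw [← sq_le_one_iff_abs_le_one]; exact h4
    linarith

theorem grLow (h : DetRho) (hD : DetS) (hR : RhoRatio) : GrLow := by
  obtain ⟨C, H⟩ := h
  refine ⟨2 * C + 8, ?_⟩
  intro n n' E l ε hok hnn hn hn'
  obtain ⟨a1, a2, a3, a4⟩ := H n E l ε hok hn
  obtain ⟨b1, b2, b3, b4⟩ := H n' E l ε hok hn'
  have hok' := hok
  obtain ⟨hl0, hl1, he0, he1⟩ := hok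
  have he1' : ε ≤ 1 := by linarith
  have h8 : ε ^ 8 ≤ (1 / 2) ^ 8 := pow_le_pow_left₀ he0.le he1 8
  have h8p : 0 < ε ^ 8 := pow_pos he0 8
  have hCp : 0 < ε ^ C := pow_pos he0 C
  have hC1 : ε ^ C ≤ 1 := pow_le_one₀ he0.le he1'
  have hph1 := G1_one_lt_ph
  have hph2 := G1_ph_lt
  have hphsq := G1_ph_sq
  have hsplit : ε ^ (2 * C + 8) = ε ^ C * ε ^ C * ε ^ 8 := by
    rw [pow_add, two_mul, pow_add]
  rw [hsplit]
  by_cases hcase : n + 3 ≤ n'
  · obtain ⟨m, rfl⟩ : ∃ m, n' = n + 3 + m := ⟨n' - (n + 3), by omega⟩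
    have c1 := hD.2.1 (n + 4) m E l
    have e1 : n + 4 + m = n + 3 + m + 1 := by omega
    rw [e1] at c1
    have e2 : n + 3 + m - n = m + 3 := by omega
    rw [e2]
    have hfib := G1_ph_pow_le m
    have hfib0 : (0 : ℝ) ≤ Nat.fib (m + 1) := Nat.cast_nonneg _
    have d1 : ph ^ (m + 3) ≤ 8 * (Nat.fib (m + 1) : ℝ) := by
      have h4 : ph ^ 2 * ph ^ 2 ≤ 8 := by
        rw [hphsq]; nlinarith
      calc ph ^ (m + 3) = ph ^ 2 * ph ^ (m + 1) := by ring
        _ ≤ ph ^ 2 * (ph ^ 2 * (Nat.fib (m + 1) : ℝ)) :=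
            mul_le_mul_of_nonneg_left hfib (by positivity)
        _ = (ph ^ 2 * ph ^ 2) * (Nat.fib (m + 1) : ℝ) := by ring
        _ ≤ 8 * (Nat.fib (m + 1) : ℝ) := mul_le_mul_of_nonneg_right h4 hfib0
    have d2 : ε ^ 8 * ph ^ (m + 3) ≤ (Nat.fib (m + 1) : ℝ) := by
      have hphp : 0 < ph ^ (m + 3) := pow_pos (by linarith) _
      calc ε ^ 8 * ph ^ (m + 3) ≤ (1 / 2) ^ 8 * (8 * (Nat.fib (m + 1) : ℝ)) :=
            mul_le_mul h8 d1 hphp.le (by positivity)
        _ ≤ (Nat.fib (m + 1) : ℝ) := by nlinarith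
    calc ε ^ C * ε ^ C * ε ^ 8 * ph ^ (m + 3) * rho n E l
        = ε ^ C * ((ε ^ 8 * ph ^ (m + 3)) * (ε ^ C * rho n E l)) := by ring
      _ ≤ ε ^ C * ((Nat.fib (m + 1) : ℝ) * √(SS (n + 4) E l).det) := by
          apply mul_le_mul_of_nonneg_left _ hCp.le
          exact mul_le_mul d2 a1 (by positivity) hfib0
      _ ≤ ε ^ C * √(SS (n + 3 + m + 1) E l).det := mul_le_mul_of_nonneg_left c1 hCp.le
      _ ≤ rho (n + 3 + m) E l := b2
  · -- few steps
    have step : ∀ k, n ≤ k → k + 2 ≤ n + 8 → rho k E l ≤ 9 * rho (k + 1) E l := by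
      intro k hk1 hk2
      exact (hR k E l (G1_tr_le ε n E l hn (k + 1) (by omega) (by omega))
        (G1_tr_le ε n E l hn (k + 2) (by omega) hk2)).2
    have hfin : ph ^ (n' - n) * rho n E l ≤ 256 * rho n' E l := by
      obtain ⟨d, rfl⟩ : ∃ d, n' = n + d := ⟨n' - n, by omega⟩
      rw [Nat.add_sub_cancel_left]
      have hd : d ≤ 2 := by omega
      interval_cases d
      · simp only [pow_zero, one_mul, Nat.add_zero] at b3 ⊢
        linarith
      · have s1 := step n le_rfl (by omega)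
        have : ph ^ 1 * rho n E l ≤ 1.65 * (9 * rho (n + 1) E l) := by
          rw [pow_one]
          exact mul_le_mul hph2.le s1 a3.le (by norm_num)
        linarith
      · have s1 := step n le_rfl (by omega)
        have s2 := step (n + 1) (by omega) (by omega)
        have s3 : rho n E l ≤ 81 * rho (n + 2) E l := by
          have : rho (n + 1) E l ≤ 9 * rho (n + 2) E l := s2
          linarith
        have : ph ^ 2 * rho n E l ≤ 2.65 * (81 * rho (n + 2) E l) := by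
          rw [hphsq]
          exact mul_le_mul (by linarith) s3 a3.le (by norm_num)
        linarith
    have hphp : 0 < ph ^ (n' - n) := pow_pos (by linarith) _
    calc ε ^ C * ε ^ C * ε ^ 8 * ph ^ (n' - n) * rho n E l
        = (ε ^ C * ε ^ C) * (ε ^ 8 * (ph ^ (n' - n) * rho n E l)) := by ring
      _ ≤ 1 * ((1 / 2) ^ 8 * (256 * rho n' E l)) := by
          apply mul_le_mul
          · calc ε ^ C * ε ^ C ≤ 1 * 1 := mul_le_mul hC1 hC1 hCp.le zero_le_one
              _ = 1 := one_mul 1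
          · exact mul_le_mul h8 hfin (by positivity) (by positivity)
          · positivity
          · exact zero_le_one
      _ = rho n' E l := by ring

end FIB
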