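import Pool.Agent.Helper75.FIB.Iface

/-!
# FIB block G1b : spectral points are crudely non-degenerate; Lipschitz bounds for all lower levels

SpcCr: `BdP`: `|tr j| <= 1 + l/2 <= 2` for `j <= K`, and one of `|tr (n+4)|`, `|tr (n+5)|` is `<= 1`.
SLall: for `j <= n + 8` take `j' = min j n`; `Cr j' E l`, `j ∈ [j', j'+8]`. By `GrLow` (`ε = l`, `ND l` from `Cr`): `rho j' <= l^{-C} rho n`, so the radius condition `(|z|+|w|) rho n <= l^{C''}` implies `(|z|+|w|) rho j' <= l^{C'}` and SLoc at `j'` gives the bound with `rho j' <= l^{-C} rho n`.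
-/

namespace FIB

open Real MeasureTheory Set Filter Topology

theorem spcCr (h : BdP) : SpcCr := by
  rintro K n E l hl hl8 ⟨hK, hn⟩
  refine ⟨fun j _ hj2 => ?_, ?_⟩
  · have := (h l hl hl8 K j E hK.le (by omega)).1
    linarith
  · rcases (h l hl hl8 K (n + 4) E hK.le (by omega)).2 (by omega) with h1 | h1
    · exact ⟨n + 4, le_rfl, by omega, h1⟩
    · exact ⟨n + 5, by omega, by omega, h1⟩

theorem g1b_rho_nonneg (n : ℕ) (E l : ℝ) : 0 ≤ rho n E l :=
  le_max_of_le_left (abs_nonneg _)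

theorem g1b_one_le_ph : 1 ≤ ph := by
  unfold ph
  have : 1 ≤ Real.sqrt 5 := by
    rw [Real.one_le_sqrt]
    norm_num
  linarith

theorem slAll (h : SLoc) (hG : GrLow) : SLall := by
  obtain ⟨C1, h1⟩ := h
  obtain ⟨C2, h2⟩ := hG
  refine ⟨C1 + C2, fun n E l hl hl8 hCr z w hzw j hj => ?_⟩
  have hok : Okl l l := ⟨hl, hl8, hl, by linarith⟩
  have hmin : min j n ≤ n := min_le_right _ _
  have hnd : ∀ i ≤ n, ND l i E l := fun i hi => Or.inl ⟨rfl, hCr i hi⟩
  have hgr := h2 (min j n) n E l l hok hmin (hnd _ hmin) (hnd _ le_rfl)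
  have hph : (1 : ℝ) ≤ ph ^ (n - min j n) := one_le_pow₀ g1b_one_le_ph
  have hr0 := g1b_rho_nonneg (min j n) E l
  have hlC : 0 < l ^ C2 := by positivity
  have hr : l ^ C2 * rho (min j n) E l ≤ rho n E l := by
    refine le_trans ?_ hgr
    have : l ^ C2 * rho (min j n) E l = l ^ C2 * 1 * rho (min j n) E l := by ring
    rw [this]
    exact mul_le_mul_of_nonneg_right (mul_le_mul_of_nonneg_left hph hlC.le) hr0
  have hzw0 : 0 ≤ ‖z‖ + ‖w‖ := by positivity
  have hr2 : l ^ C2 * ((‖z‖ + ‖w‖) * rho (min j n) E l) ≤ (‖z‖ + ‖w‖) * rho n E l := by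
    have := mul_le_mul_of_nonneg_left hr hzw0
    linarith
  have hrad : (‖z‖ + ‖w‖) * rho (min j n) E l ≤ l ^ C1 := by
    have h3 : l ^ C2 * ((‖z‖ + ‖w‖) * rho (min j n) E l) ≤ l ^ C2 * l ^ C1 := by
      refine (hr2.trans hzw).trans (le_of_eq ?_)
      rw [pow_add]
      ring
    exact le_of_mul_le_mul_left h3 hlC
  have hfin := h1 (min j n) E l l hok (hnd _ hmin) z w hrad j (min_le_left _ _) (by omega)
  have h4 := mul_le_mul_of_nonneg_left hfin hlC.le
  refine le_trans (le_of_eq ?_) (h4.trans hr2)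
  rw [pow_add]
  ring

end FIB
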