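import Pool.Agent.Helper75.FIB.Iface

/-!
# FIB block G2 : v_n and its increments on a complex polydisc

Notation (complex point `(E+z, l+w)`, radius `(|z|+|w|) rho n <= l^C`, `C` large): `R_j = (trE j, trE (j+1), trE (j+2))`, `B_j` the same with `trL`, `N_j = R_j × B_j` (cross product), `g_j = (x_j - x_{j+1}x_{j+2}, x_{j+1} - x_j x_{j+2}, x_{j+2} - x_j x_{j+1})` (half gradient of the invariant).
(1) Algebra (any field): `g_j·R_j = 0`, `g_j·B_j = λ/4` (`grad_E`, `grad_L`, λ = l + w), so `g_j × N_j = (λ/4) R_j`. `N_{j+1} = -(N^2 + 2 x_{j+2} N^1, N^3 + 2 x_{j+1} N^1, -N^1)` for `N_j = (N^1,N^2,N^3)` and `g_{j+1} = (g^2 + 2x_{j+2} g^1, g^3 + 2x_{j+1}g^1, -g^1)`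
i.e. the same linear map `T_j` applied, `N_{j+1} = -T_j N_j`, `g_{j+1} = T_j g_j` (check signs by computation). (2) SLall: `|x_j(E+z,l+w) - x_j(E,l)| <= l^{10}` for `j <= n+8`, so all complex `x_j` are bounded by `3`; Cauchy estimates on discs of half the radius: `|R_j|, |B_j| <= l^{-C} rho n` (j <= n+6) at complex points, and
`|trE j(complex) - trE j(real)| <= rho n/16` if the radius is small enough (second derivatives `<= l^{-C} rho^2`). Then `|R·R| >= rho^2/4` (`R·R` real `>= rho^2` at the centre).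
(3) REAL points: at least two of `1-x_j^2, 1-x_{j+1}^2,1-x_{j+2}^2` have the same sign, so by `tr_inv_sq*` one component of `g_j` has modulus `>= l/2`; complex: `|g_j·g_j - (real g_j·g_j)|` small, so `|g_j·g_j| >= l^2/8` for `j <= n+1` (bilinear product, no conjugation).
(4) `N_j = Y_j g_j + (λ/4)(R_j × g_j)/(g_j·g_j)`, `Y_j = g_j·N_j/(g_j·g_j)`. Inserting in `N_{j+1} = -T_j N_j`, `g_{j+1} = T_j g_j`: `|Y_{j+1} + Y_j| <= l^{-C}(|R_j| + |R_{j+1}|)` . Summing `j < n` with `|R_j| <= l^{-C} rho j <= l^{-C'} φ^{-(n-j)} rho n` (GrLow; for each `j` use the polydisc of level `j`, which contains the one of level `n`):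
`|Y_n| <= l^{-C} rho n`, so `|N_n| <= l^{-C} rho n` (same for `n+1`, `Cr (n+1)`). `Y_0`: `R_0, B_0` explicit.
(5) `v_n = -(B·R)/(R·R)`; `B = -v R + Z`, `Z = (R × N)... ` (up to sign `(N × R)/(R·R)`), `|Z_n| <= l^{-C}`. `v_n` bounded: `|B| <= l^{-C} rho`. Increment: `R_{n+1} = A R_n`, `B_{n+1} = A B_n` with the same bounded matrix `A = A(x_{n+1},x_{n+2})`, so `B_{n+1} = -v_n R_{n+1} + A Z_n` and `v_{n+1} - v_n = -(A Z_n·R_{n+1})/(R_{n+1}·R_{n+1})`, bounded by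
`l^{-C}/rho n`.
-/

namespace FIB

open Real MeasureTheory Set Filter Topology

namespace G2

theorem g2_diff_tr (j : ℕ) (E l z w : ℂ) :
    Differentiable ℂ (fun s : ℂ => tr j (E + s * z) (l + s * w)) := by
  induction j using ind3 with
  | h0 => simp
  | h1 => simp only [tr_one]; fun_prop
  | h2 => simp only [tr_two]; fun_prop
  | h n ih0 ih1 ih2 =>
    simp only [tr_add_three]
    exact ((ih2.const_mul 2).mul ih1).sub ih0

theorem g2_diff_trE (j : ℕ) (E l z w : ℂ) :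
    Differentiable ℂ (fun s : ℂ => trE j (E + s * z) (l + s * w)) := by
  induction j using ind3 with
  | h0 => simp
  | h1 => simp
  | h2 => simp
  | h n ih0 ih1 ih2 =>
    simp only [trE_add_three]
    exact (((ih2.mul (g2_diff_tr _ E l z w)).add ((g2_diff_tr _ E l z w).mul ih1)).const_mul 2).sub
      ih0

/-- Cauchy estimate in the direction `E` -/
theorem g2_cauchyE (j : ℕ) (E l : ℂ) (c : ℂ) {r M : ℝ} (hr : 0 < r)
    (h : ∀ ζ : ℂ, ‖ζ‖ = r → ‖tr j (E + ζ) l - c‖ ≤ M) : ‖trE j E l‖ ≤ M / r := by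
  have hd : ∀ x : ℂ, HasDerivAt (fun x => tr j x l - c) (trE j x l) x := fun x =>
    (hasDerivAt_tr_E j x l).sub_const c
  have := Complex.norm_deriv_le_of_forall_mem_sphere_norm_le (f := fun x => tr j x l - c)
    (c := E) (R := r) (C := M) hr
    (Differentiable.diffContOnCl fun x => (hd x).differentiableAt) (fun x hx => by
      have h1 : ‖x - E‖ = r := by simpa [dist_eq_norm] using hx
      have := h (x - E) h1
      simpa using this)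
  rwa [(hd E).deriv] at this

theorem g2_cauchyL (j : ℕ) (E l : ℂ) (c : ℂ) {r M : ℝ} (hr : 0 < r)
    (h : ∀ ζ : ℂ, ‖ζ‖ = r → ‖tr j E (l + ζ) - c‖ ≤ M) : ‖trL j E l‖ ≤ M / r := by
  have hd : ∀ x : ℂ, HasDerivAt (fun x => tr j E x - c) (trL j E x) x := fun x =>
    (hasDerivAt_tr_L j E x).sub_const c
  have := Complex.norm_deriv_le_of_forall_mem_sphere_norm_le (f := fun x => tr j E x - c)
    (c := l) (R := r) (C := M) hr
    (Differentiable.diffContOnCl fun x => (hd x).differentiableAt) (fun x hx => by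
      have h1 : ‖x - l‖ = r := by simpa [dist_eq_norm] using hx
      have := h (x - l) h1
      simpa using this)
  rwa [(hd l).deriv] at this

/-- first order variation of `trE` -/
theorem g2_var (j : ℕ) (E l z w : ℂ) {r B : ℝ} (hr : 0 < r) (hB : 0 < B)
    (h : ∀ z' w' : ℂ, ‖z'‖ + ‖w'‖ < r → ‖trE j (E + z') (l + w')‖ ≤ B)
    (hzw : ‖z‖ + ‖w‖ < r) :
    ‖trE j (E + z) (l + w) - trE j E l‖ ≤ 3 * B / r * (‖z‖ + ‖w‖) := by
  rcases eq_or_lt_of_le (add_nonneg (norm_nonneg z) (norm_nonneg w)) with h0 | h0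
  · have hz : z = 0 := by
      have := norm_nonneg w; have h1 := norm_nonneg z
      exact norm_eq_zero.1 (by linarith)
    have hw : w = 0 := by
      have := norm_nonneg w; have h1 := norm_nonneg z
      exact norm_eq_zero.1 (by linarith)
    simp [hz, hw]
  · set δ := ‖z‖ + ‖w‖ with hδ
    set G : ℂ → ℂ := fun s => trE j (E + s * z) (l + s * w) with hG
    have hR : 0 < r / δ := div_pos hr h0
    have key : ∀ s ∈ Metric.ball (0 : ℂ) (r / δ), ‖G s‖ ≤ B := by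
      intro s hs
      apply h
      rw [Metric.mem_ball, dist_zero_right] at hs
      rw [norm_mul, norm_mul, ← mul_add, ← hδ]
      calc ‖s‖ * δ < r / δ * δ := by gcongr
        _ = r := by field_simp
    have hG0 : ‖G 0‖ ≤ B := key 0 (Metric.mem_ball_self hR)
    have hmaps : MapsTo G (Metric.ball 0 (r / δ)) (Metric.closedBall (G 0) (3 * B)) := by
      intro s hs
      rw [Metric.mem_closedBall, dist_eq_norm]
      calc ‖G s - G 0‖ ≤ ‖G s‖ + ‖G 0‖ := norm_sub_le _ _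
        _ ≤ B + B := add_le_add (key s hs) hG0
        _ ≤ 3 * B := by linarith
    have h1 : (1 : ℂ) ∈ Metric.ball (0 : ℂ) (r / δ) := by
      rw [Metric.mem_ball, dist_zero_right, norm_one, lt_div_iff₀ h0, one_mul]
      exact hzw
    have hG' : DifferentiableOn ℂ G (Metric.ball 0 (r / δ)) :=
      (g2_diff_trE j E l z w).differentiableOn
    have := Complex.dist_le_div_mul_dist_of_mapsTo_ball hG' hmaps h1
    rw [dist_eq_norm, dist_zero_right, norm_one, mul_one] at this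
    simp only [hG, one_mul, zero_mul, add_zero] at this
    calc _ ≤ 3 * B / (r / δ) := this
      _ = 3 * B / r * δ := by field_simp


/-- consequences of `SLall` at one level -/
theorem g2_level {c1 : ℕ} (hS : ∀ (n : ℕ) (E l : ℝ), 0 < l → l ≤ 1 / 8 → (∀ j ≤ n, Cr j E l) →
    ∀ z w : ℂ, (‖z‖ + ‖w‖) * rho n E l ≤ l ^ c1 → ∀ j, j ≤ n + 8 →
    l ^ c1 * ‖tr j ((E : ℂ) + z) ((l : ℂ) + w) - ((tr j E l : ℝ) : ℂ)‖
      ≤ (‖z‖ + ‖w‖) * rho n E l)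
    (n : ℕ) (E l : ℝ) (hl : 0 < l) (hl8 : l ≤ 1 / 8) (hC : ∀ j ≤ n, Cr j E l)
    (hρ : 0 < rho n E l) :
    (∀ z w : ℂ, (‖z‖ + ‖w‖) * rho n E l ≤ l ^ (c1 + 1) → ∀ j ≤ n + 8,
      ‖trE j ((E : ℂ) + z) ((l : ℂ) + w)‖ ≤ 2 * rho n E l / l ^ c1 ∧
      ‖trL j ((E : ℂ) + z) ((l : ℂ) + w)‖ ≤ 2 * rho n E l / l ^ c1) ∧
    (∀ z w : ℂ, (‖z‖ + ‖w‖) * rho n E l ≤ l ^ (2 * c1 + 4) → ∀ j ≤ n + 8,
      ‖trE j ((E : ℂ) + z) ((l : ℂ) + w) - ((trE j E l : ℝ) : ℂ)‖ ≤ rho n E l / 16) ∧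
    (∀ z w : ℂ, (‖z‖ + ‖w‖) * rho n E l ≤ l ^ (c1 + 10) → ∀ j ≤ n + 8,
      ‖tr j ((E : ℂ) + z) ((l : ℂ) + w) - ((tr j E l : ℝ) : ℂ)‖ ≤ l ^ 10) := by
  have hlc : 0 < l ^ c1 := pow_pos hl _
  have hr : 0 < l ^ c1 / (2 * rho n E l) := by positivity
  have part1 : ∀ z w : ℂ, (‖z‖ + ‖w‖) * rho n E l ≤ l ^ (c1 + 1) → ∀ j ≤ n + 8,
      ‖trE j ((E : ℂ) + z) ((l : ℂ) + w)‖ ≤ 2 * rho n E l / l ^ c1 ∧
      ‖trL j ((E : ℂ) + z) ((l : ℂ) + w)‖ ≤ 2 * rho n E l / l ^ c1 := by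
    intro z w hzw j hj
    have hsmall : l ^ (c1 + 1) ≤ l ^ c1 / 2 := by
      rw [pow_succ]; nlinarith
    have e1 : (1 : ℝ) / (l ^ c1 / (2 * rho n E l)) = 2 * rho n E l / l ^ c1 := by
      field_simp
    have hrr : l ^ c1 / (2 * rho n E l) * rho n E l = l ^ c1 / 2 := by
      field_simp
    constructor
    · rw [← e1]
      refine g2_cauchyE j _ _ ((tr j E l : ℝ) : ℂ) hr ?_
      intro ζ hζ
      have h1 : (‖z + ζ‖ + ‖w‖) * rho n E l ≤ l ^ c1 := by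
        calc (‖z + ζ‖ + ‖w‖) * rho n E l ≤ (‖z‖ + ‖ζ‖ + ‖w‖) * rho n E l := by
              gcongr; exact norm_add_le _ _
          _ = (‖z‖ + ‖w‖) * rho n E l + ‖ζ‖ * rho n E l := by ring
          _ ≤ l ^ c1 / 2 + l ^ c1 / 2 := by rw [hζ, hrr]; linarith
          _ = l ^ c1 := by ring
      have h2 := hS n E l hl hl8 hC (z + ζ) w h1 j hj
      rw [← add_assoc] at h2
      have h3 := h2.trans h1
      by_contra hcon
      push Not at hcon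
      have : l ^ c1 * 1 < l ^ c1 * ‖tr j ((E : ℂ) + z + ζ) ((l : ℂ) + w) - ((tr j E l : ℝ) : ℂ)‖ := by
        gcongr
      linarith
    · rw [← e1]
      refine g2_cauchyL j _ _ ((tr j E l : ℝ) : ℂ) hr ?_
      intro ζ hζ
      have h1 : (‖z‖ + ‖w + ζ‖) * rho n E l ≤ l ^ c1 := by
        calc (‖z‖ + ‖w + ζ‖) * rho n E l ≤ (‖z‖ + (‖w‖ + ‖ζ‖)) * rho n E l := by
              gcongr; exact norm_add_le _ _
          _ = (‖z‖ + ‖w‖) * rho n E l + ‖ζ‖ * rho n E l := by ring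
          _ ≤ l ^ c1 / 2 + l ^ c1 / 2 := by rw [hζ, hrr]; linarith
          _ = l ^ c1 := by ring
      have h2 := hS n E l hl hl8 hC z (w + ζ) h1 j hj
      rw [← add_assoc] at h2
      have h3 := h2.trans h1
      by_contra hcon
      push Not at hcon
      have : l ^ c1 * 1 < l ^ c1 * ‖tr j ((E : ℂ) + z) ((l : ℂ) + w + ζ) - ((tr j E l : ℝ) : ℂ)‖ := by
        gcongr
      linarith
  refine ⟨part1, ?_, ?_⟩
  · intro z w hzw j hj
    set δ := ‖z‖ + ‖w‖ with hδ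
    have hδ0 : 0 ≤ δ := by positivity
    have hr' : 0 < l ^ (c1 + 1) / rho n E l := by positivity
    have hlt : l ^ (2 * c1 + 4) < l ^ (c1 + 1) :=
      pow_lt_pow_right_of_lt_one₀ hl (by linarith) (by omega)
    have h1 : δ < l ^ (c1 + 1) / rho n E l := by
      rw [lt_div_iff₀ hρ]; linarith
    have := g2_var j (E : ℂ) (l : ℂ) z w (r := l ^ (c1 + 1) / rho n E l)
      (B := 2 * rho n E l / l ^ c1) hr' (by positivity) (by
        intro z' w' h'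
        refine (part1 z' w' ?_ j hj).1
        rw [lt_div_iff₀ hρ] at h'
        exact h'.le) h1
    rw [trE_ofReal] at this
    refine this.trans ?_
    have e2 : 3 * (2 * rho n E l / l ^ c1) / (l ^ (c1 + 1) / rho n E l) * δ
        = 6 * rho n E l * (δ * rho n E l) / l ^ (2 * c1 + 1) := by
      rw [show 2 * c1 + 1 = c1 + (c1 + 1) by ring, pow_add l c1 (c1 + 1)]
      field_simp
      ring
    rw [← hδ, e2, div_le_iff₀ (by positivity)]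
    have e3 : l ^ (2 * c1 + 4) = l ^ (2 * c1 + 1) * l ^ 3 := by rw [← pow_add]
    have e4 : l ^ 3 ≤ (1 / 8) ^ 3 := by gcongr
    calc 6 * rho n E l * (δ * rho n E l) ≤ 6 * rho n E l * (l ^ (2 * c1 + 1) * l ^ 3) := by
          rw [← e3]; gcongr
      _ ≤ 6 * rho n E l * (l ^ (2 * c1 + 1) * (1 / 8) ^ 3) := by gcongr
      _ ≤ rho n E l / 16 * l ^ (2 * c1 + 1) := by
          have : 0 < rho n E l * l ^ (2 * c1 + 1) := by positivity
          nlinarith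
  · intro z w hzw j hj
    have h0 : l ^ (c1 + 10) ≤ l ^ c1 :=
      pow_le_pow_of_le_one hl.le (by linarith) (by omega)
    have h2 := hS n E l hl hl8 hC z w (hzw.trans h0) j hj
    have h3 := h2.trans hzw
    rw [pow_add] at h3
    exact le_of_mul_le_mul_left h3 hlc

/-! ### algebra -/

def cr1 (a b : ℕ → ℂ) (j : ℕ) : ℂ := a (j + 1) * b (j + 2) - a (j + 2) * b (j + 1)
def cr2 (a b : ℕ → ℂ) (j : ℕ) : ℂ := a (j + 2) * b j - a j * b (j + 2)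
def cr3 (a b : ℕ → ℂ) (j : ℕ) : ℂ := a j * b (j + 1) - a (j + 1) * b j
def gr1 (x : ℕ → ℂ) (j : ℕ) : ℂ := x j - x (j + 1) * x (j + 2)
def gr2 (x : ℕ → ℂ) (j : ℕ) : ℂ := x (j + 1) - x j * x (j + 2)
def gr3 (x : ℕ → ℂ) (j : ℕ) : ℂ := x (j + 2) - x j * x (j + 1)
def gq (x : ℕ → ℂ) (j : ℕ) : ℂ := gr1 x j ^ 2 + gr2 x j ^ 2 + gr3 x j ^ 2
noncomputable def gY (x a b : ℕ → ℂ) (j : ℕ) : ℂ :=
  (gr1 x j * cr1 a b j + gr2 x j * cr2 a b j + gr3 x j * cr3 a b j) / gq x j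

structure G2Seq (x a b : ℕ → ℂ) (lam : ℂ) : Prop where
  hx : ∀ n, x (n + 3) = 2 * x (n + 2) * x (n + 1) - x n
  ha : ∀ n, a (n + 3) = 2 * (a (n + 2) * x (n + 1) + x (n + 2) * a (n + 1)) - a n
  hb : ∀ n, b (n + 3) = 2 * (b (n + 2) * x (n + 1) + x (n + 2) * b (n + 1)) - b n
  gE : ∀ n, gr1 x n * a n + gr2 x n * a (n + 1) + gr3 x n * a (n + 2) = 0
  gL : ∀ n, gr1 x n * b n + gr2 x n * b (n + 1) + gr3 x n * b (n + 2) = lam / 4

/-- components of `R × g` -/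
def hh1 (x a : ℕ → ℂ) (j : ℕ) : ℂ := a (j + 1) * gr3 x j - a (j + 2) * gr2 x j
def hh2 (x a : ℕ → ℂ) (j : ℕ) : ℂ := a (j + 2) * gr1 x j - a j * gr3 x j
def hh3 (x a : ℕ → ℂ) (j : ℕ) : ℂ := a j * gr2 x j - a (j + 1) * gr1 x j

variable {x a b : ℕ → ℂ} {lam : ℂ}

theorem G2Seq.dec (s : G2Seq x a b lam) {j : ℕ} (hq : gq x j ≠ 0) :
    cr1 a b j = gY x a b j * gr1 x j + lam / 4 * hh1 x a j / gq x j ∧
    cr2 a b j = gY x a b j * gr2 x j + lam / 4 * hh2 x a j / gq x j ∧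
    cr3 a b j = gY x a b j * gr3 x j + lam / 4 * hh3 x a j / gq x j := by
  have e := s.gE j
  have f := s.gL j
  refine ⟨?_, ?_, ?_⟩
  · have key : cr1 a b j * gq x j = (gr1 x j * cr1 a b j + gr2 x j * cr2 a b j
        + gr3 x j * cr3 a b j) * gr1 x j + lam / 4 * hh1 x a j := by
      rw [← f]
      simp only [cr1, cr2, cr3, gq, hh1]
      linear_combination (-(b (j + 1) * gr3 x j - b (j + 2) * gr2 x j)) * e
    unfold gY
    field_simp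
    linear_combination 4 * key
  · have key : cr2 a b j * gq x j = (gr1 x j * cr1 a b j + gr2 x j * cr2 a b j
        + gr3 x j * cr3 a b j) * gr2 x j + lam / 4 * hh2 x a j := by
      rw [← f]
      simp only [cr1, cr2, cr3, gq, hh2]
      linear_combination (-(b (j + 2) * gr1 x j - b j * gr3 x j)) * e
    unfold gY
    field_simp
    linear_combination 4 * key
  · have key : cr3 a b j * gq x j = (gr1 x j * cr1 a b j + gr2 x j * cr2 a b j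
        + gr3 x j * cr3 a b j) * gr3 x j + lam / 4 * hh3 x a j := by
      rw [← f]
      simp only [cr1, cr2, cr3, gq, hh3]
      linear_combination (-(b j * gr2 x j - b (j + 1) * gr1 x j)) * e
    unfold gY
    field_simp
    linear_combination 4 * key

theorem G2Seq.crs (s : G2Seq x a b lam) (j : ℕ) :
    cr1 a b (j + 1) = -(cr2 a b j + 2 * x (j + 2) * cr1 a b j) ∧
    cr2 a b (j + 1) = -(cr3 a b j + 2 * x (j + 1) * cr1 a b j) ∧
    cr3 a b (j + 1) = cr1 a b j := by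
  have h1 := s.ha j
  have h2 := s.hb j
  refine ⟨?_, ?_, ?_⟩
  · simp only [cr1, cr2]
    rw [show j + 1 + 1 = j + 2 from rfl, show j + 1 + 2 = j + 3 from rfl, h1, h2]; ring
  · simp only [cr1, cr2, cr3]
    rw [show j + 1 + 1 = j + 2 from rfl, show j + 1 + 2 = j + 3 from rfl, h1, h2]; ring
  · simp only [cr1, cr3]

theorem G2Seq.grs (s : G2Seq x a b lam) (j : ℕ) :
    gr1 x (j + 1) = gr2 x j + 2 * x (j + 2) * gr1 x j ∧
    gr2 x (j + 1) = gr3 x j + 2 * x (j + 1) * gr1 x j ∧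
    gr3 x (j + 1) = -gr1 x j := by
  have h1 := s.hx j
  refine ⟨?_, ?_, ?_⟩
  · simp only [gr1, gr2]
    rw [show j + 1 + 1 = j + 2 from rfl, show j + 1 + 2 = j + 3 from rfl, h1]; ring
  · simp only [gr1, gr2, gr3]
    rw [show j + 1 + 1 = j + 2 from rfl, show j + 1 + 2 = j + 3 from rfl, h1]; ring
  · simp only [gr1, gr3]
    rw [show j + 1 + 1 = j + 2 from rfl, show j + 1 + 2 = j + 3 from rfl, h1]; ring

theorem G2Seq.stepY (s : G2Seq x a b lam) {j : ℕ} (hq : gq x j ≠ 0) (hq' : gq x (j + 1) ≠ 0) :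
    gY x a b (j + 1) = -gY x a b j - lam / 4 *
      (gr1 x (j + 1) * (hh2 x a j + 2 * x (j + 2) * hh1 x a j)
        + gr2 x (j + 1) * (hh3 x a j + 2 * x (j + 1) * hh1 x a j)
        - gr3 x (j + 1) * hh1 x a j) / (gq x j * gq x (j + 1)) := by
  obtain ⟨d1, d2, d3⟩ := s.dec hq
  obtain ⟨c1, c2, c3⟩ := s.crs j
  obtain ⟨g1, g2, g3⟩ := s.grs j
  have hY : gY x a b (j + 1) = (gr1 x (j + 1) * cr1 a b (j + 1) + gr2 x (j + 1) * cr2 a b (j + 1)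
    + gr3 x (j + 1) * cr3 a b (j + 1)) / gq x (j + 1) := rfl
  have e : gq x (j + 1) = gr1 x (j + 1) * (gr2 x j + 2 * x (j + 2) * gr1 x j)
      + gr2 x (j + 1) * (gr3 x j + 2 * x (j + 1) * gr1 x j) + gr3 x (j + 1) * (-gr1 x j) := by
    rw [← g1, ← g2, ← g3]; unfold gq; ring
  rw [hY, div_eq_iff hq', c1, c2, c3, d1, d2, d3]
  generalize gY x a b j = Y at *
  have hqq := hq
  field_simp
  linear_combination (4 * Y * gq x j) * e


/-! ### norm estimates -/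

theorem nm_sub {p q r s : ℂ} {A B : ℝ} (hp : ‖p‖ ≤ A) (hq : ‖q‖ ≤ B) (hr : ‖r‖ ≤ A)
    (hs : ‖s‖ ≤ B) : ‖p * q - r * s‖ ≤ 2 * (A * B) := by
  have hA : 0 ≤ A := (norm_nonneg _).trans hp
  calc ‖p * q - r * s‖ ≤ ‖p * q‖ + ‖r * s‖ := norm_sub_le _ _
    _ = ‖p‖ * ‖q‖ + ‖r‖ * ‖s‖ := by rw [norm_mul, norm_mul]
    _ ≤ A * B + A * B := by gcongr
    _ = 2 * (A * B) := by ring

theorem nm_dot {p1 p2 p3 q1 q2 q3 : ℂ} {A B : ℝ} (h1 : ‖p1‖ ≤ A) (h2 : ‖p2‖ ≤ A) (h3 : ‖p3‖ ≤ A)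
    (k1 : ‖q1‖ ≤ B) (k2 : ‖q2‖ ≤ B) (k3 : ‖q3‖ ≤ B) :
    ‖p1 * q1 + p2 * q2 + p3 * q3‖ ≤ 3 * (A * B) := by
  have hA : 0 ≤ A := (norm_nonneg _).trans h1
  calc ‖p1 * q1 + p2 * q2 + p3 * q3‖ ≤ ‖p1 * q1‖ + ‖p2 * q2‖ + ‖p3 * q3‖ := norm_add₃_le
    _ = ‖p1‖ * ‖q1‖ + ‖p2‖ * ‖q2‖ + ‖p3‖ * ‖q3‖ := by rw [norm_mul, norm_mul, norm_mul]
    _ ≤ A * B + A * B + A * B := by gcongr
    _ = 3 * (A * B) := by ring

/-- `‖u + 2 x v‖ ≤ 7 H` -/
theorem nm_lin {u y v : ℂ} {H : ℝ} (hu : ‖u‖ ≤ H) (hv : ‖v‖ ≤ H) (hy : ‖y‖ ≤ 3) :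
    ‖u + 2 * y * v‖ ≤ 7 * H := by
  have hH : 0 ≤ H := (norm_nonneg _).trans hu
  calc ‖u + 2 * y * v‖ ≤ ‖u‖ + ‖2 * y * v‖ := norm_add_le _ _
    _ = ‖u‖ + 2 * ‖y‖ * ‖v‖ := by rw [norm_mul, norm_mul]; norm_num
    _ ≤ H + 2 * 3 * H := by gcongr
    _ = 7 * H := by ring

theorem nm_gr {y1 y2 y3 : ℂ} (h1 : ‖y1‖ ≤ 3) (h2 : ‖y2‖ ≤ 3) (h3 : ‖y3‖ ≤ 3) :
    ‖y1 - y2 * y3‖ ≤ 12 := by
  calc ‖y1 - y2 * y3‖ ≤ ‖y1‖ + ‖y2 * y3‖ := norm_sub_le _ _
    _ = ‖y1‖ + ‖y2‖ * ‖y3‖ := by rw [norm_mul]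
    _ ≤ 3 + 3 * 3 := by gcongr
    _ = 12 := by norm_num

theorem gr_bd {x : ℕ → ℂ} {j : ℕ} (h0 : ‖x j‖ ≤ 3) (h1 : ‖x (j + 1)‖ ≤ 3) (h2 : ‖x (j + 2)‖ ≤ 3) :
    ‖gr1 x j‖ ≤ 12 ∧ ‖gr2 x j‖ ≤ 12 ∧ ‖gr3 x j‖ ≤ 12 :=
  ⟨nm_gr h0 h1 h2, nm_gr h1 h0 h2, nm_gr h2 h0 h1⟩

theorem hh_bd {x a : ℕ → ℂ} {j : ℕ} {A : ℝ} (h0 : ‖x j‖ ≤ 3) (h1 : ‖x (j + 1)‖ ≤ 3)
    (h2 : ‖x (j + 2)‖ ≤ 3) (a0 : ‖a j‖ ≤ A) (a1 : ‖a (j + 1)‖ ≤ A) (a2 : ‖a (j + 2)‖ ≤ A) :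
    ‖hh1 x a j‖ ≤ 24 * A ∧ ‖hh2 x a j‖ ≤ 24 * A ∧ ‖hh3 x a j‖ ≤ 24 * A := by
  obtain ⟨g1, g2, g3⟩ := gr_bd h0 h1 h2
  refine ⟨?_, ?_, ?_⟩
  · exact (nm_sub a1 g3 a2 g2).trans (le_of_eq (by ring))
  · exact (nm_sub a2 g1 a0 g3).trans (le_of_eq (by ring))
  · exact (nm_sub a0 g2 a1 g1).trans (le_of_eq (by ring))

/-- one step of the recursion for `Y` -/
theorem G2Seq.stepY_bd (s : G2Seq x a b lam) {j : ℕ} {A l : ℝ} (hl : 0 < l)
    (hx : ∀ i, j ≤ i → i ≤ j + 3 → ‖x i‖ ≤ 3) (ha : ∀ i, j ≤ i → i ≤ j + 2 → ‖a i‖ ≤ A)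
    (hlam : ‖lam‖ ≤ 12) (hq : l ^ 2 / 8 ≤ ‖gq x j‖) (hq' : l ^ 2 / 8 ≤ ‖gq x (j + 1)‖) :
    ‖gY x a b (j + 1)‖ ≤ ‖gY x a b j‖ + 2 ^ 21 * A / l ^ 4 := by
  have hA : 0 ≤ A := (norm_nonneg _).trans (ha j (by omega) (by omega))
  have hq0 : gq x j ≠ 0 := by
    intro h0; rw [h0, norm_zero] at hq; have : 0 < l ^ 2 / 8 := by positivity
    linarith
  have hq0' : gq x (j + 1) ≠ 0 := by
    intro h0; rw [h0, norm_zero] at hq'; have : 0 < l ^ 2 / 8 := by positivity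
    linarith
  rw [s.stepY hq0 hq0']
  obtain ⟨k1, k2, k3⟩ := hh_bd (a := a) (hx j (by omega) (by omega))
    (hx (j + 1) (by omega) (by omega)) (hx (j + 2) (by omega) (by omega))
    (ha j (by omega) (by omega)) (ha (j + 1) (by omega) (by omega)) (ha (j + 2) (by omega) (by omega))
  obtain ⟨g1, g2, g3⟩ := gr_bd (x := x) (j := j + 1) (hx (j + 1) (by omega) (by omega))
    (hx (j + 2) (by omega) (by omega)) (hx (j + 3) (by omega) (by omega))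
  have t1 := nm_lin k2 k1 (hx (j + 2) (by omega) (by omega))
  have t2 := nm_lin k3 k1 (hx (j + 1) (by omega) (by omega))
  have t3 : ‖-hh1 x a j‖ ≤ 7 * (24 * A) := by rw [norm_neg]; linarith
  have hd := nm_dot g1 g2 g3 t1 t2 t3
  have e1 : gr1 x (j + 1) * (hh2 x a j + 2 * x (j + 2) * hh1 x a j)
        + gr2 x (j + 1) * (hh3 x a j + 2 * x (j + 1) * hh1 x a j)
        + gr3 x (j + 1) * (-hh1 x a j) = gr1 x (j + 1) * (hh2 x a j + 2 * x (j + 2) * hh1 x a j)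
        + gr2 x (j + 1) * (hh3 x a j + 2 * x (j + 1) * hh1 x a j)
        - gr3 x (j + 1) * hh1 x a j := by ring
  rw [e1] at hd
  set D := gr1 x (j + 1) * (hh2 x a j + 2 * x (j + 2) * hh1 x a j)
        + gr2 x (j + 1) * (hh3 x a j + 2 * x (j + 1) * hh1 x a j)
        - gr3 x (j + 1) * hh1 x a j with hD
  have hqq : l ^ 4 / 64 ≤ ‖gq x j * gq x (j + 1)‖ := by
    rw [norm_mul]
    calc l ^ 4 / 64 = l ^ 2 / 8 * (l ^ 2 / 8) := by ring
      _ ≤ ‖gq x j‖ * ‖gq x (j + 1)‖ := by gcongr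
  calc ‖-gY x a b j - lam / 4 * D / (gq x j * gq x (j + 1))‖
      ≤ ‖-gY x a b j‖ + ‖lam / 4 * D / (gq x j * gq x (j + 1))‖ := norm_sub_le _ _
    _ = ‖gY x a b j‖ + ‖lam‖ / 4 * ‖D‖ / ‖gq x j * gq x (j + 1)‖ := by
        rw [norm_neg, norm_div, norm_mul, norm_div]; norm_num
    _ ≤ ‖gY x a b j‖ + 12 / 4 * (3 * (12 * (7 * (24 * A)))) / (l ^ 4 / 64) := by
        gcongr
    _ ≤ ‖gY x a b j‖ + 2 ^ 21 * A / l ^ 4 := by
        have : 12 / 4 * (3 * (12 * (7 * (24 * A)))) / (l ^ 4 / 64) = 1161216 * (A / l ^ 4) := by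
          field_simp; ring
        have h2 : (2 : ℝ) ^ 21 * A / l ^ 4 = 2097152 * (A / l ^ 4) := by ring
        rw [this, h2]
        have : 0 ≤ A / l ^ 4 := by positivity
        nlinarith

/-- bound of `N = R × B` from the bound of `Y` -/
theorem G2Seq.cr_bd (s : G2Seq x a b lam) {j : ℕ} {A Y l : ℝ} (hl : 0 < l)
    (hx : ∀ i, j ≤ i → i ≤ j + 2 → ‖x i‖ ≤ 3) (ha : ∀ i, j ≤ i → i ≤ j + 2 → ‖a i‖ ≤ A)
    (hlam : ‖lam‖ ≤ 12) (hq : l ^ 2 / 8 ≤ ‖gq x j‖) (hY : ‖gY x a b j‖ ≤ Y) :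
    ‖cr1 a b j‖ ≤ 12 * Y + 576 * A / l ^ 2 ∧ ‖cr2 a b j‖ ≤ 12 * Y + 576 * A / l ^ 2 ∧
    ‖cr3 a b j‖ ≤ 12 * Y + 576 * A / l ^ 2 := by
  have hA : 0 ≤ A := (norm_nonneg _).trans (ha j (by omega) (by omega))
  have hY0 : 0 ≤ Y := (norm_nonneg _).trans hY
  have hq0 : gq x j ≠ 0 := by
    intro h0; rw [h0, norm_zero] at hq; have : 0 < l ^ 2 / 8 := by positivity
    linarith
  obtain ⟨d1, d2, d3⟩ := s.dec hq0
  obtain ⟨k1, k2, k3⟩ := hh_bd (a := a) (hx j (by omega) (by omega))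
    (hx (j + 1) (by omega) (by omega)) (hx (j + 2) (by omega) (by omega))
    (ha j (by omega) (by omega)) (ha (j + 1) (by omega) (by omega)) (ha (j + 2) (by omega) (by omega))
  obtain ⟨g1, g2, g3⟩ := gr_bd (x := x) (j := j) (hx j (by omega) (by omega))
    (hx (j + 1) (by omega) (by omega)) (hx (j + 2) (by omega) (by omega))
  have main : ∀ g h : ℂ, ‖g‖ ≤ 12 → ‖h‖ ≤ 24 * A →
      ‖gY x a b j * g + lam / 4 * h / gq x j‖ ≤ 12 * Y + 576 * A / l ^ 2 := by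
    intro g h hg hh
    calc ‖gY x a b j * g + lam / 4 * h / gq x j‖ ≤ ‖gY x a b j * g‖ + ‖lam / 4 * h / gq x j‖ :=
          norm_add_le _ _
      _ = ‖gY x a b j‖ * ‖g‖ + ‖lam‖ / 4 * ‖h‖ / ‖gq x j‖ := by
          rw [norm_mul, norm_div, norm_mul, norm_div]; norm_num
      _ ≤ Y * 12 + 12 / 4 * (24 * A) / (l ^ 2 / 8) := by gcongr
      _ = 12 * Y + 576 * A / l ^ 2 := by field_simp; ring
  refine ⟨?_, ?_, ?_⟩
  · rw [d1]; exact main _ _ g1 k1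
  · rw [d2]; exact main _ _ g2 k2
  · rw [d3]; exact main _ _ g3 k3

/-- real points: the gradient is not small -/
theorem gq_real (j : ℕ) (E l : ℝ) :
    l ^ 2 / 4 ≤ (tr j E l - tr (j + 1) E l * tr (j + 2) E l) ^ 2
      + (tr (j + 1) E l - tr j E l * tr (j + 2) E l) ^ 2
      + (tr (j + 2) E l - tr j E l * tr (j + 1) E l) ^ 2 := by
  have h1 := tr_inv_sq j E l
  have h2 := tr_inv_sq' j E l
  have h3 := tr_inv_sq'' j E l
  set p := 1 - tr j E l ^ 2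
  set q := 1 - tr (j + 1) E l ^ 2
  set r := 1 - tr (j + 2) E l ^ 2
  have s1 : 0 ≤ (tr j E l - tr (j + 1) E l * tr (j + 2) E l) ^ 2 := sq_nonneg _
  have s2 : 0 ≤ (tr (j + 1) E l - tr j E l * tr (j + 2) E l) ^ 2 := sq_nonneg _
  have s3 : 0 ≤ (tr (j + 2) E l - tr j E l * tr (j + 1) E l) ^ 2 := sq_nonneg _
  rcases le_total 0 p with hp | hp <;> rcases le_total 0 q with hq | hq <;>
    rcases le_total 0 r with hr | hr
  · nlinarith [mul_nonneg hp hq]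
  · nlinarith [mul_nonneg hp hq]
  · nlinarith [mul_nonneg hp hr]
  · nlinarith [mul_nonneg_of_nonpos_of_nonpos hq hr]
  · nlinarith [mul_nonneg hq hr]
  · nlinarith [mul_nonneg_of_nonpos_of_nonpos hp hr]
  · nlinarith [mul_nonneg_of_nonpos_of_nonpos hp hq]
  · nlinarith [mul_nonneg_of_nonpos_of_nonpos hp hq]

/-- complex points near real points -/
theorem gq_bd {x : ℕ → ℂ} {j : ℕ} {E l : ℝ} (hl : 0 < l) (hl8 : l ≤ 1 / 8)
    (hr : ∀ i, j ≤ i → i ≤ j + 2 → |tr i E l| ≤ 2)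
    (hx : ∀ i, j ≤ i → i ≤ j + 2 → ‖x i - ((tr i E l : ℝ) : ℂ)‖ ≤ l ^ 10) :
    l ^ 2 / 8 ≤ ‖gq x j‖ := by
  have hl10 : l ^ 10 ≤ 1 := pow_le_one₀ hl.le (by linarith)
  set t : ℕ → ℂ := fun i => ((tr i E l : ℝ) : ℂ) with ht
  have ht2 : ∀ i, j ≤ i → i ≤ j + 2 → ‖t i‖ ≤ 2 := by
    intro i h1 h2
    simp only [ht, Complex.norm_real, Real.norm_eq_abs]; exact hr i h1 h2
  have hx3 : ∀ i, j ≤ i → i ≤ j + 2 → ‖x i‖ ≤ 3 := by
    intro i h1 h2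
    calc ‖x i‖ = ‖(x i - t i) + t i‖ := by ring_nf
      _ ≤ ‖x i - t i‖ + ‖t i‖ := norm_add_le _ _
      _ ≤ 1 + 2 := add_le_add ((hx i h1 h2).trans hl10) (ht2 i h1 h2)
      _ = 3 := by norm_num
  have ht3 : ∀ i, j ≤ i → i ≤ j + 2 → ‖t i‖ ≤ 3 := fun i h1 h2 => (ht2 i h1 h2).trans (by norm_num)
  -- difference of components
  have dif : ∀ p q r p' q' r' : ℂ, ‖p - p'‖ ≤ l ^ 10 → ‖q - q'‖ ≤ l ^ 10 → ‖r - r'‖ ≤ l ^ 10 →
      ‖p‖ ≤ 3 → ‖q‖ ≤ 3 → ‖r‖ ≤ 3 → ‖p'‖ ≤ 2 → ‖q'‖ ≤ 2 → ‖r'‖ ≤ 2 →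
      ‖(p - q * r) ^ 2 - (p' - q' * r') ^ 2‖ ≤ 144 * l ^ 10 := by
    intro p q r p' q' r' h1 h2 h3 k1 k2 k3 m1 m2 m3
    have e1 : (p - q * r) ^ 2 - (p' - q' * r') ^ 2 =
        ((p - p') - (q - q') * r - q' * (r - r')) * ((p - q * r) + (p' - q' * r')) := by ring
    rw [e1, norm_mul]
    have a1 : ‖(p - p') - (q - q') * r - q' * (r - r')‖ ≤ 6 * l ^ 10 := by
      calc _ ≤ ‖(p - p') - (q - q') * r‖ + ‖q' * (r - r')‖ := norm_sub_le _ _
        _ ≤ ‖p - p'‖ + ‖(q - q') * r‖ + ‖q' * (r - r')‖ := by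
            gcongr; exact norm_sub_le _ _
        _ = ‖p - p'‖ + ‖q - q'‖ * ‖r‖ + ‖q'‖ * ‖r - r'‖ := by rw [norm_mul, norm_mul]
        _ ≤ l ^ 10 + l ^ 10 * 3 + 2 * l ^ 10 := by gcongr
        _ = 6 * l ^ 10 := by ring
    have a2 : ‖(p - q * r) + (p' - q' * r')‖ ≤ 24 := by
      calc _ ≤ ‖p - q * r‖ + ‖p' - q' * r'‖ := norm_add_le _ _
        _ ≤ 12 + 12 := add_le_add (nm_gr k1 k2 k3)
            (nm_gr (m1.trans (by norm_num)) (m2.trans (by norm_num)) (m3.trans (by norm_num)))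
        _ = 24 := by norm_num
    calc _ ≤ 6 * l ^ 10 * 24 := by gcongr
      _ = 144 * l ^ 10 := by ring
  have i0 : j ≤ j := le_rfl
  have i0' : j ≤ j + 2 := by omega
  have i1 : j ≤ j + 1 := by omega
  have i1' : j + 1 ≤ j + 2 := by omega
  have D1 := dif (x j) (x (j + 1)) (x (j + 2)) (t j) (t (j + 1)) (t (j + 2))
    (hx j i0 i0') (hx _ i1 i1') (hx _ i0' le_rfl) (hx3 j i0 i0') (hx3 _ i1 i1') (hx3 _ i0' le_rfl)
    (ht2 j i0 i0') (ht2 _ i1 i1') (ht2 _ i0' le_rfl)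
  have D2 := dif (x (j + 1)) (x j) (x (j + 2)) (t (j + 1)) (t j) (t (j + 2))
    (hx _ i1 i1') (hx j i0 i0') (hx _ i0' le_rfl) (hx3 _ i1 i1') (hx3 j i0 i0') (hx3 _ i0' le_rfl)
    (ht2 _ i1 i1') (ht2 j i0 i0') (ht2 _ i0' le_rfl)
  have D3 := dif (x (j + 2)) (x j) (x (j + 1)) (t (j + 2)) (t j) (t (j + 1))
    (hx _ i0' le_rfl) (hx j i0 i0') (hx _ i1 i1') (hx3 _ i0' le_rfl) (hx3 j i0 i0') (hx3 _ i1 i1')
    (ht2 _ i0' le_rfl) (ht2 j i0 i0') (ht2 _ i1 i1')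
  have hreal : l ^ 2 / 4 ≤ ‖gq t j‖ := by
    have e : gq t j = (((tr j E l - tr (j + 1) E l * tr (j + 2) E l) ^ 2
      + (tr (j + 1) E l - tr j E l * tr (j + 2) E l) ^ 2
      + (tr (j + 2) E l - tr j E l * tr (j + 1) E l) ^ 2 : ℝ) : ℂ) := by
      simp only [gq, gr1, gr2, gr3, ht]; push_cast; ring
    rw [e, Complex.norm_real, Real.norm_eq_abs]
    exact (gq_real j E l).trans (le_abs_self _)
  have hdiff : ‖gq x j - gq t j‖ ≤ 432 * l ^ 10 := by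
    have e : gq x j - gq t j = ((x j - x (j + 1) * x (j + 2)) ^ 2 - (t j - t (j + 1) * t (j + 2)) ^ 2)
      + ((x (j + 1) - x j * x (j + 2)) ^ 2 - (t (j + 1) - t j * t (j + 2)) ^ 2)
      + ((x (j + 2) - x j * x (j + 1)) ^ 2 - (t (j + 2) - t j * t (j + 1)) ^ 2) := by
      simp only [gq, gr1, gr2, gr3]; ring
    rw [e]
    calc _ ≤ _ := norm_add₃_le
      _ ≤ 144 * l ^ 10 + 144 * l ^ 10 + 144 * l ^ 10 := by gcongr
      _ = 432 * l ^ 10 := by ring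
  have h10 : 432 * l ^ 10 ≤ l ^ 2 / 8 := by
    have : l ^ 10 = l ^ 2 * l ^ 8 := by ring
    have h8 : l ^ 8 ≤ (1 / 8) ^ 8 := by gcongr
    rw [this]
    have hl2 : 0 < l ^ 2 := by positivity
    nlinarith
  have := norm_sub_norm_le (gq t j) (gq x j)
  rw [norm_sub_rev] at this
  linarith


/-! ### the functions `v_n` -/

def gD (a : ℕ → ℂ) (n : ℕ) : ℂ := a n ^ 2 + a (n + 1) ^ 2 + a (n + 2) ^ 2

noncomputable def gv (a b : ℕ → ℂ) (n : ℕ) : ℂ :=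
  -(b n * a n + b (n + 1) * a (n + 1) + b (n + 2) * a (n + 2)) / gD a n

theorem gv_Z (a b : ℕ → ℂ) (n : ℕ) (hD : gD a n ≠ 0) :
    b n + gv a b n * a n = (cr2 a b n * a (n + 2) - cr3 a b n * a (n + 1)) / gD a n ∧
    b (n + 1) + gv a b n * a (n + 1) = (cr3 a b n * a n - cr1 a b n * a (n + 2)) / gD a n ∧
    b (n + 2) + gv a b n * a (n + 2) = (cr1 a b n * a (n + 1) - cr2 a b n * a n) / gD a n := by
  refine ⟨?_, ?_, ?_⟩
  · rw [eq_div_iff hD, gv, add_mul, mul_comm (_ / _) (a n), mul_assoc, div_mul_cancel₀ _ hD]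
    simp only [cr2, cr3, gD]; ring
  · rw [eq_div_iff hD, gv, add_mul, mul_comm (_ / _) (a (n + 1)), mul_assoc, div_mul_cancel₀ _ hD]
    simp only [cr1, cr3, gD]; ring
  · rw [eq_div_iff hD, gv, add_mul, mul_comm (_ / _) (a (n + 2)), mul_assoc, div_mul_cancel₀ _ hD]
    simp only [cr1, cr2, gD]; ring

theorem G2Seq.gv_step (s : G2Seq x a b lam) {n : ℕ} (hD' : gD a (n + 1) ≠ 0)
    {Z1 Z2 Z3 : ℂ} (h1 : b n + gv a b n * a n = Z1) (h2 : b (n + 1) + gv a b n * a (n + 1) = Z2)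
    (h3 : b (n + 2) + gv a b n * a (n + 2) = Z3) :
    gv a b (n + 1) - gv a b n = -(Z2 * a (n + 1) + Z3 * a (n + 2)
      + (2 * (Z3 * x (n + 1) + x (n + 2) * Z2) - Z1) * a (n + 3)) / gD a (n + 1) := by
  have ha := s.ha n
  have hb := s.hb n
  have e : b (n + 3) + gv a b n * a (n + 3) = 2 * (Z3 * x (n + 1) + x (n + 2) * Z2) - Z1 := by
    rw [← h1, ← h2, ← h3, ha, hb]; ring
  rw [← e, ← h2, ← h3, eq_div_iff hD', sub_mul]
  have : gv a b (n + 1) * gD a (n + 1) = -(b (n + 1) * a (n + 1) + b (n + 2) * a (n + 2)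
      + b (n + 3) * a (n + 3)) := by
    rw [gv, div_mul_cancel₀ _ hD']
  rw [this, gD]
  rw [show n + 1 + 1 = n + 2 from rfl, show n + 1 + 2 = n + 3 from rfl]
  ring

/-- lower bound for `R·R` -/
theorem gD_bd {a : ℕ → ℂ} {n : ℕ} {E l : ℝ}
    (h : ∀ j, n ≤ j → j ≤ n + 2 → ‖a j - ((trE j E l : ℝ) : ℂ)‖ ≤ rho n E l / 16) :
    rho n E l ^ 2 / 4 ≤ ‖gD a n‖ := by
  set ρ := rho n E l with hρ
  have hρ0 : 0 ≤ ρ := by
    rw [hρ, rho]; exact (abs_nonneg _).trans (le_max_left _ _)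
  set r : ℕ → ℂ := fun j => ((trE j E l : ℝ) : ℂ) with hr
  have r0 : |trE n E l| ≤ ρ := le_max_left _ _
  have r1 : |trE (n + 1) E l| ≤ ρ := (le_max_left _ _).trans (le_max_right _ _)
  have r2 : |trE (n + 2) E l| ≤ ρ := (le_max_right _ _).trans (le_max_right _ _)
  have hmax : ρ ^ 2 ≤ trE n E l ^ 2 + trE (n + 1) E l ^ 2 + trE (n + 2) E l ^ 2 := by
    have s0 := sq_nonneg (trE n E l)
    have s1 := sq_nonneg (trE (n + 1) E l)
    have s2 := sq_nonneg (trE (n + 2) E l)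
    rw [hρ, rho]
    rcases max_choice |trE n E l| (max |trE (n + 1) E l| |trE (n + 2) E l|) with h | h <;> rw [h]
    · rw [sq_abs]; linarith
    · rcases max_choice |trE (n + 1) E l| |trE (n + 2) E l| with h | h <;> rw [h, sq_abs] <;>
        linarith
  have hreal : ρ ^ 2 ≤ ‖gD r n‖ := by
    have e : gD r n = ((trE n E l ^ 2 + trE (n + 1) E l ^ 2 + trE (n + 2) E l ^ 2 : ℝ) : ℂ) := by
      simp only [gD, hr]; push_cast; ring
    rw [e, Complex.norm_real, Real.norm_eq_abs]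
    exact hmax.trans (le_abs_self _)
  have dif : ∀ p q : ℂ, ‖p - q‖ ≤ ρ / 16 → ‖q‖ ≤ ρ → ‖p ^ 2 - q ^ 2‖ ≤ 33 / 256 * ρ ^ 2 := by
    intro p q h1 h2
    have e : p ^ 2 - q ^ 2 = (p - q) * ((p - q) + 2 * q) := by ring
    rw [e, norm_mul]
    have : ‖(p - q) + 2 * q‖ ≤ ρ / 16 + 2 * ρ := by
      calc _ ≤ ‖p - q‖ + ‖2 * q‖ := norm_add_le _ _
        _ = ‖p - q‖ + 2 * ‖q‖ := by rw [norm_mul]; norm_num
        _ ≤ _ := by gcongr
    calc _ ≤ ρ / 16 * (ρ / 16 + 2 * ρ) := by gcongr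
      _ = 33 / 256 * ρ ^ 2 := by ring
  have nr : ∀ y : ℝ, ‖(y : ℂ)‖ = |y| := fun y => by rw [Complex.norm_real, Real.norm_eq_abs]
  have D0 := dif (a n) (r n) (h n le_rfl (by omega)) (by rw [hr, nr]; exact r0)
  have D1 := dif (a (n + 1)) (r (n + 1)) (h (n + 1) (by omega) (by omega))
    (by rw [hr, nr]; exact r1)
  have D2 := dif (a (n + 2)) (r (n + 2)) (h (n + 2) (by omega) (by omega))
    (by rw [hr, nr]; exact r2)
  have hdiff : ‖gD a n - gD r n‖ ≤ 99 / 256 * ρ ^ 2 := by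
    have e : gD a n - gD r n = (a n ^ 2 - r n ^ 2) + (a (n + 1) ^ 2 - r (n + 1) ^ 2)
      + (a (n + 2) ^ 2 - r (n + 2) ^ 2) := by simp only [gD]; ring
    rw [e]
    calc _ ≤ _ := norm_add₃_le
      _ ≤ 33 / 256 * ρ ^ 2 + 33 / 256 * ρ ^ 2 + 33 / 256 * ρ ^ 2 := by gcongr
      _ = 99 / 256 * ρ ^ 2 := by ring
  have := norm_sub_norm_le (gD r n) (gD a n)
  rw [norm_sub_rev] at this
  nlinarith [sq_nonneg ρ]

end G2

open G2 in
theorem vBound (h : SLall) (hG : GrLow) (hD : DetRho) (hR : RhoRatio) : VBound := by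
  obtain ⟨c1, hS⟩ := h
  obtain ⟨cG, hG⟩ := hG
  obtain ⟨cD, hD⟩ := hD
  refine ⟨3 * c1 + cG + 40, ?_⟩
  intro n E l hl hl8 hC z w hzw
  have hl1 : l ≤ 1 := by linarith
  have hokl : Okl l l := ⟨hl, hl8, hl, by linarith⟩
  have hρ : ∀ j ≤ n + 1, 0 < rho j E l := fun j hj =>
    (hD j E l l hokl (Or.inl ⟨rfl, hC j hj⟩)).2.2.1
  set δ := ‖z‖ + ‖w‖ with hδ
  have hδ0 : 0 ≤ δ := by positivity
  set ρ := rho n E l with hρn
  have hρ0 : 0 < ρ := hρ n (by omega)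
  -- big numbers
  set L : ℝ := 1 / l with hLdef
  have hL : 8 ≤ L := by rw [hLdef, le_div_iff₀ hl]; linarith
  have hL1 : 1 ≤ L := by linarith
  set K1 : ℝ := 1 / l ^ c1 with hK1def
  set KG : ℝ := 1 / l ^ cG with hKGdef
  have hlc : 0 < l ^ c1 := pow_pos hl _
  have hlG : 0 < l ^ cG := pow_pos hl _
  have hK1 : 1 ≤ K1 := by rw [hK1def, le_div_iff₀ hlc, one_mul]; exact pow_le_one₀ hl.le hl1
  have hKG : 1 ≤ KG := by rw [hKGdef, le_div_iff₀ hlG, one_mul]; exact pow_le_one₀ hl.le hl1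
  have hpow : ∀ {p q : ℕ}, q ≤ p → l ^ p ≤ l ^ q := fun h => pow_le_pow_of_le_one hl.le hl1 h
  -- growth
  have hgr : ∀ j ≤ n, l ^ cG * ph ^ (n - j) * rho j E l ≤ ρ := fun j hj =>
    hG j n E l l hokl hj (Or.inl ⟨rfl, hC j (by omega)⟩) (Or.inl ⟨rfl, hC n (by omega)⟩)
  have hph1 : 3 / 2 ≤ ph := by
    unfold ph
    have : (2 : ℝ) ≤ √5 := by
      rw [show (2 : ℝ) = √4 by rw [show (4 : ℝ) = 2 ^ 2 by norm_num, Real.sqrt_sq (by norm_num)]]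
      exact Real.sqrt_le_sqrt (by norm_num)
    linarith
  have hph0 : (0 : ℝ) < ph := by linarith
  have hgr' : ∀ j ≤ n, rho j E l ≤ KG * ρ := by
    intro j hj
    have h1 := hgr j hj
    have h2 : 1 ≤ ph ^ (n - j) := one_le_pow₀ (by linarith)
    have h3 : l ^ cG * rho j E l ≤ ρ := by
      have : 0 ≤ l ^ cG * rho j E l := (mul_pos hlG (hρ j (by omega))).le
      nlinarith
    rw [hKGdef, one_div, inv_mul_eq_div, le_div_iff₀ hlG]; linarith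
  -- sum of the `rho`
  have hsum : ∑ i ∈ Finset.range n, rho i E l ≤ 2 * KG * ρ := by
    have h1 : ∀ i ∈ Finset.range n, l ^ cG * ph ^ n * rho i E l ≤ ph ^ i * ρ := by
      intro i hi
      have hi' : i ≤ n := (Finset.mem_range.1 hi).le
      have h2 := hgr i hi'
      have h3 : ph ^ n = ph ^ i * ph ^ (n - i) := by rw [← pow_add]; congr 1; omega
      rw [h3]
      calc l ^ cG * (ph ^ i * ph ^ (n - i)) * rho i E l
          = ph ^ i * (l ^ cG * ph ^ (n - i) * rho i E l) := by ring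
        _ ≤ ph ^ i * ρ := by gcongr
    have h2 := Finset.sum_le_sum h1
    rw [← Finset.mul_sum, ← Finset.sum_mul] at h2
    have h3 : ∑ i ∈ Finset.range n, ph ^ i ≤ 2 * ph ^ n := by
      clear h2 h1 hgr' hgr
      have : ∀ m : ℕ, ∑ i ∈ Finset.range m, ph ^ i ≤ 2 * ph ^ m := by
        intro m
        induction m with
        | zero => simp
        | succ m ih =>
          rw [Finset.sum_range_succ, pow_succ]
          have : 0 < ph ^ m := by positivity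
          nlinarith
      exact this n
    have hpn : 0 < ph ^ n := by positivity
    have h4 : ph ^ n * (l ^ cG * ∑ i ∈ Finset.range n, rho i E l) ≤ ph ^ n * (2 * ρ) := by
      calc _ = l ^ cG * ph ^ n * ∑ i ∈ Finset.range n, rho i E l := by ring
        _ ≤ (∑ i ∈ Finset.range n, ph ^ i) * ρ := h2
        _ ≤ 2 * ph ^ n * ρ := by gcongr
        _ = _ := by ring
    have h5 := le_of_mul_le_mul_left h4 hpn
    rw [hKGdef]
    rw [show 2 * (1 / l ^ cG) * ρ = 2 * ρ / l ^ cG by ring, le_div_iff₀ hlG]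
    linarith
  have hρlow : 1 ≤ 2 * KG * ρ := by
    have h0 := hgr' 0 (Nat.zero_le _)
    have h1 : rho 0 E l = 1 / 2 := by
      simp only [rho, trE_zero, trE_one, trE_two, Nat.zero_add]
      rw [abs_zero, max_self, abs_of_pos (by norm_num)]
      exact max_eq_right (by norm_num)
    rw [h1] at h0
    linarith
  -- the domain conditions
  have hdom : ∀ j ≤ n, δ * rho j E l ≤ l ^ (c1 + 1) := by
    intro j hj
    calc δ * rho j E l ≤ δ * (KG * ρ) := by gcongr; exact hgr' j hj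
      _ = KG * (δ * ρ) := by ring
      _ ≤ KG * l ^ (3 * c1 + cG + 40) := by gcongr
      _ ≤ KG * l ^ (cG + (c1 + 1)) := by gcongr ?_ * ?_; exact hpow (by omega)
      _ = l ^ (c1 + 1) := by rw [hKGdef, pow_add]; field_simp
  have hlev : ∀ j (hj : j ≤ n + 1), _ := fun j hj =>
    g2_level hS j E l hl hl8 (fun i hi => hC i (hi.trans hj)) (hρ j hj)
  -- the sequences
  set x : ℕ → ℂ := fun j => tr j ((E : ℂ) + z) ((l : ℂ) + w) with hx
  set a : ℕ → ℂ := fun j => trE j ((E : ℂ) + z) ((l : ℂ) + w) with ha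
  set b : ℕ → ℂ := fun j => trL j ((E : ℂ) + z) ((l : ℂ) + w) with hb
  have s : G2Seq x a b ((l : ℂ) + w) :=
    { hx := fun m => tr_add_three m _ _
      ha := fun m => trE_add_three m _ _
      hb := fun m => trL_add_three m _ _
      gE := fun m => grad_E m _ _
      gL := fun m => grad_L m _ _ }
  -- bounds
  have hxd : ∀ j ≤ n + 8, ‖x j - ((tr j E l : ℝ) : ℂ)‖ ≤ l ^ 10 :=
    (hlev n (by omega)).2.2 z w (hzw.trans (hpow (by omega)))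
  have htr2 : ∀ j ≤ n + 9, |tr j E l| ≤ 2 := by
    intro j hj
    rcases le_or_gt j (n + 1) with h1 | h1
    · exact (hC j h1).1 j le_rfl (by omega)
    · exact (hC (n + 1) le_rfl).1 j h1.le (by omega)
  have hx3 : ∀ j ≤ n + 8, ‖x j‖ ≤ 3 := by
    intro j hj
    have hl10 : l ^ 10 ≤ 1 := pow_le_one₀ hl.le hl1
    calc ‖x j‖ = ‖(x j - ((tr j E l : ℝ) : ℂ)) + ((tr j E l : ℝ) : ℂ)‖ := by ring_nf
      _ ≤ ‖x j - ((tr j E l : ℝ) : ℂ)‖ + ‖((tr j E l : ℝ) : ℂ)‖ := norm_add_le _ _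
      _ ≤ 1 + 2 := by
          refine add_le_add ((hxd j hj).trans hl10) ?_
          rw [Complex.norm_real, Real.norm_eq_abs]; exact htr2 j (by omega)
      _ = 3 := by norm_num
  have hlam : ‖(l : ℂ) + w‖ ≤ 12 := by
    have e : (l : ℂ) + w = 2 * (x 1 - x 2) := by
      simp only [hx, tr_one, tr_two]; ring
    rw [e, norm_mul]
    have h1 := hx3 1 (by omega)
    have h2 := hx3 2 (by omega)
    have h3 := norm_sub_le (x 1) (x 2)
    have h4 : ‖(2 : ℂ)‖ = 2 := by norm_num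
    rw [h4]; linarith
  have hq : ∀ j ≤ n, l ^ 2 / 8 ≤ ‖gq x j‖ := fun j hj =>
    gq_bd hl hl8 (fun i _ hi => htr2 i (by omega)) (fun i _ hi => hxd i (by omega))
  have haA : ∀ j ≤ n, ∀ i ≤ j + 8, ‖a i‖ ≤ 2 * K1 * rho j E l ∧ ‖b i‖ ≤ 2 * K1 * rho j E l := by
    intro j hj i hi
    have := (hlev j (by omega)).1 z w (hdom j hj) i hi
    have e : 2 * rho j E l / l ^ c1 = 2 * K1 * rho j E l := by rw [hK1def]; ring
    rwa [e] at this
  -- `Y`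
  have hL2 : 1 / l ^ 2 = L ^ 2 := by rw [hLdef]; ring
  have hL4 : 1 / l ^ 4 = L ^ 4 := by rw [hLdef]; ring
  have hYj : ∀ j ≤ n, ‖gY x a b j‖ ≤ 24 * L ^ 2
      + ∑ i ∈ Finset.range j, 2 ^ 22 * K1 * L ^ 4 * rho i E l := by
    intro j
    induction j with
    | zero =>
      intro _
      rw [Finset.sum_range_zero, add_zero]
      have e1 : cr1 a b 0 = -(1 / 4) := by
        simp only [cr1, ha, hb, Nat.zero_add, trE_one, trE_two, trL_one, trL_two]; norm_num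
      have e2 : cr2 a b 0 = 0 := by
        simp [cr2, ha, hb]
      have e3 : cr3 a b 0 = 0 := by
        simp [cr3, ha, hb]
      have hg := (gr_bd (hx3 0 (by omega)) (hx3 1 (by omega)) (hx3 2 (by omega))).1
      rw [gY, e1, e2, e3, mul_zero, mul_zero, add_zero, add_zero, norm_div, norm_mul]
      have h4 : ‖(-(1 / 4) : ℂ)‖ = 1 / 4 := by rw [norm_neg]; norm_num
      rw [h4]
      have hq0 := hq 0 (Nat.zero_le _)
      calc ‖gr1 x 0‖ * (1 / 4) / ‖gq x 0‖ ≤ 12 * (1 / 4) / (l ^ 2 / 8) := by gcongr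
        _ = 24 * (1 / l ^ 2) := by ring
        _ = 24 * L ^ 2 := by rw [hL2]
    | succ j ih =>
      intro hj
      have ih' := ih (by omega)
      rw [Finset.sum_range_succ]
      have h1 := s.stepY_bd (j := j) (A := 2 * K1 * rho j E l) hl
        (fun i _ hi => hx3 i (by omega)) (fun i _ hi => (haA j (by omega) i (by omega)).1)
        hlam (hq j (by omega)) (hq (j + 1) hj)
      have e : 2 ^ 21 * (2 * K1 * rho j E l) / l ^ 4 = 2 ^ 22 * K1 * L ^ 4 * rho j E l := by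
        rw [← hL4]; ring
      rw [e] at h1
      linarith
  have hL0 : 0 < L := by linarith
  have hK10 : 0 < K1 := by linarith
  have hKG0 : 0 < KG := by linarith
  have hYn : ‖gY x a b n‖ ≤ L ^ 12 * (K1 * KG * ρ) := by
    have h1 := hYj n le_rfl
    rw [← Finset.mul_sum] at h1
    have hG0 : 0 < K1 * KG * ρ := by positivity
    have t1 : 24 * L ^ 2 ≤ 48 * L ^ 4 * (K1 * KG * ρ) := by
      calc 24 * L ^ 2 = 24 * L ^ 2 * 1 := by ring
        _ ≤ 24 * L ^ 2 * (2 * KG * ρ) := by gcongr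
        _ = 48 * (L ^ 2 * 1) * (1 * KG * ρ) := by ring
        _ ≤ 48 * (L ^ 2 * L ^ 2) * (K1 * KG * ρ) := by
            gcongr; exact one_le_pow₀ hL1
        _ = _ := by ring
    have t2 : 2 ^ 22 * K1 * L ^ 4 * ∑ i ∈ Finset.range n, rho i E l
        ≤ 2 ^ 23 * L ^ 4 * (K1 * KG * ρ) := by
      calc _ ≤ 2 ^ 22 * K1 * L ^ 4 * (2 * KG * ρ) := by gcongr
        _ = _ := by ring
    have t3 : (2 ^ 24 : ℝ) ≤ L ^ 8 := by
      calc (2 ^ 24 : ℝ) = 8 ^ 8 := by norm_num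
        _ ≤ L ^ 8 := by gcongr
    calc ‖gY x a b n‖ ≤ 48 * L ^ 4 * (K1 * KG * ρ) + 2 ^ 23 * L ^ 4 * (K1 * KG * ρ) := by linarith
      _ = (48 + 2 ^ 23) * (L ^ 4 * (K1 * KG * ρ)) := by ring
      _ ≤ 2 ^ 24 * (L ^ 4 * (K1 * KG * ρ)) := by gcongr; norm_num
      _ ≤ L ^ 8 * (L ^ 4 * (K1 * KG * ρ)) := by gcongr
      _ = _ := by ring
  -- `N`
  have hN : ‖cr1 a b n‖ ≤ L ^ 14 * (K1 * KG * ρ) ∧ ‖cr2 a b n‖ ≤ L ^ 14 * (K1 * KG * ρ) ∧
      ‖cr3 a b n‖ ≤ L ^ 14 * (K1 * KG * ρ) := by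
    have h1 := s.cr_bd (j := n) (A := 2 * K1 * ρ) hl (fun i _ hi => hx3 i (by omega))
      (fun i _ hi => (haA n le_rfl i (by omega)).1) hlam (hq n le_rfl) hYn
    have hb' : 12 * (L ^ 12 * (K1 * KG * ρ)) + 576 * (2 * K1 * ρ) / l ^ 2
        ≤ L ^ 14 * (K1 * KG * ρ) := by
      have e : 576 * (2 * K1 * ρ) / l ^ 2 = 1152 * L ^ 2 * (K1 * 1 * ρ) := by
        rw [← hL2]; ring
      have t1 : 1152 * L ^ 2 * (K1 * 1 * ρ) ≤ 1152 * L ^ 2 * (K1 * KG * ρ) := by gcongr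
      have t2 : (1152 : ℝ) ≤ L ^ 10 := by
        calc (1152 : ℝ) ≤ 8 ^ 10 := by norm_num
          _ ≤ L ^ 10 := by gcongr
      have hG0 : 0 < K1 * KG * ρ := by positivity
      have t3 : 1152 * L ^ 2 * (K1 * KG * ρ) ≤ L ^ 10 * L ^ 2 * (K1 * KG * ρ) := by gcongr
      have t4 : (64 : ℝ) ≤ L ^ 2 := by nlinarith
      have t5 : 64 * (L ^ 12 * (K1 * KG * ρ)) ≤ L ^ 2 * (L ^ 12 * (K1 * KG * ρ)) := by gcongr
      have hp : 0 ≤ L ^ 12 * (K1 * KG * ρ) := by positivity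
      rw [e]
      calc _ ≤ 12 * (L ^ 12 * (K1 * KG * ρ)) + L ^ 10 * L ^ 2 * (K1 * KG * ρ) := by linarith
        _ = 13 * (L ^ 12 * (K1 * KG * ρ)) := by ring
        _ ≤ 64 * (L ^ 12 * (K1 * KG * ρ)) := by linarith
        _ ≤ L ^ 2 * (L ^ 12 * (K1 * KG * ρ)) := t5
        _ = _ := by ring
    exact ⟨h1.1.trans hb', h1.2.1.trans hb', h1.2.2.trans hb'⟩
  -- lower bounds for `R·R`
  have hdA : ∀ j ≤ n + 8, ‖a j - ((trE j E l : ℝ) : ℂ)‖ ≤ ρ / 16 :=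
    (hlev n (by omega)).2.1 z w (hzw.trans (hpow (by omega)))
  have hrr := hR n E l (htr2 _ (by omega)) (htr2 _ (by omega))
  set ρ' := rho (n + 1) E l with hρ'
  have hρ'0 : 0 < ρ' := hρ (n + 1) le_rfl
  have hdA' : ∀ j ≤ n + 9, ‖a j - ((trE j E l : ℝ) : ℂ)‖ ≤ ρ' / 16 := by
    refine (hlev (n + 1) le_rfl).2.1 z w ?_
    rw [← hδ, ← hρ']
    calc δ * ρ' ≤ δ * (9 * ρ) := by gcongr; exact hrr.1
      _ = 9 * (δ * ρ) := by ring
      _ ≤ 9 * l ^ (3 * c1 + cG + 40) := by gcongr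
      _ ≤ 9 * l ^ (2 * c1 + 4 + 2) := by gcongr ?_ * ?_; exact hpow (by omega)
      _ = 9 * l ^ 2 * l ^ (2 * c1 + 4) := by ring
      _ ≤ 1 * l ^ (2 * c1 + 4) := by
          gcongr
          nlinarith
      _ = _ := one_mul _
  have hDn : ρ ^ 2 / 4 ≤ ‖gD a n‖ := gD_bd (fun j _ hj => hdA j (by omega))
  have hDn' : ρ' ^ 2 / 4 ≤ ‖gD a (n + 1)‖ := gD_bd (fun j _ hj => hdA' j (by omega))
  have hD0 : gD a n ≠ 0 := by
    intro h0; rw [h0, norm_zero] at hDn; have : 0 < ρ ^ 2 / 4 := by positivity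
    linarith
  have hD0' : gD a (n + 1) ≠ 0 := by
    intro h0; rw [h0, norm_zero] at hDn'; have : 0 < ρ' ^ 2 / 4 := by positivity
    linarith
  have hab := haA n le_rfl
  -- absorbing powers
  have habs : ∀ m : ℕ, m ≤ 40 → l ^ (3 * c1 + cG + 40) * (L ^ m * (K1 ^ 3 * KG)) ≤ 1 := by
    intro m hm
    have e : l ^ (3 * c1 + cG + 40) * (L ^ m * (K1 ^ 3 * KG)) = l ^ (40 - m) := by
      have e1 : l ^ (3 * c1 + cG + 40) = (l ^ c1) ^ 3 * l ^ cG * (l ^ m * l ^ (40 - m)) := by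
        rw [← pow_add l m, Nat.add_sub_cancel' hm, ← pow_mul, ← pow_add, ← pow_add]
        congr 1; ring
      rw [e1, hLdef, hK1def, hKGdef]
      field_simp
      rw [← mul_pow, mul_one_div_cancel hl.ne', one_pow]
    rw [e]; exact pow_le_one₀ hl.le hl1
  refine ⟨?_, ?_, ?_, ?_⟩
  · -- `v_n` bounded
    have hv : ‖gv a b n‖ ≤ L ^ 2 * (K1 ^ 3 * KG) := by
      have h1 := nm_dot (hab n (by omega)).2 (hab (n + 1) (by omega)).2 (hab (n + 2) (by omega)).2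
        (hab n (by omega)).1 (hab (n + 1) (by omega)).1 (hab (n + 2) (by omega)).1
      rw [gv, norm_div, norm_neg]
      calc _ ≤ 3 * (2 * K1 * ρ * (2 * K1 * ρ)) / (ρ ^ 2 / 4) := by gcongr
        _ = 48 * (K1 ^ 2 * 1 * 1) := by field_simp; ring
        _ ≤ 64 * (K1 ^ 2 * K1 * KG) := by gcongr; norm_num
        _ ≤ L ^ 2 * (K1 ^ 2 * K1 * KG) := by gcongr; nlinarith
        _ = _ := by ring
    calc l ^ (3 * c1 + cG + 40) * ‖vv n ((E : ℂ) + z) ((l : ℂ) + w)‖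
        = l ^ (3 * c1 + cG + 40) * ‖gv a b n‖ := rfl
      _ ≤ l ^ (3 * c1 + cG + 40) * (L ^ 2 * (K1 ^ 3 * KG)) := by gcongr
      _ ≤ 1 := habs 2 (by norm_num)
  · -- increment
    obtain ⟨z1, z2, z3⟩ := gv_Z a b n hD0
    set Z1 := b n + gv a b n * a n with hZ1
    set Z2 := b (n + 1) + gv a b n * a (n + 1) with hZ2
    set Z3 := b (n + 2) + gv a b n * a (n + 2) with hZ3
    set Zb : ℝ := L ^ 16 * (K1 ^ 2 * KG) with hZb
    have hZgen : ∀ u v p q : ℂ, ‖u‖ ≤ L ^ 14 * (K1 * KG * ρ) → ‖v‖ ≤ L ^ 14 * (K1 * KG * ρ) →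
        ‖p‖ ≤ 2 * K1 * ρ → ‖q‖ ≤ 2 * K1 * ρ → ‖(u * p - v * q) / gD a n‖ ≤ Zb := by
      intro u v p q h1 h2 h3 h4
      rw [norm_div]
      calc _ ≤ 2 * (L ^ 14 * (K1 * KG * ρ) * (2 * K1 * ρ)) / (ρ ^ 2 / 4) := by
            gcongr; exact nm_sub h1 h3 h2 h4
        _ = 16 * (L ^ 14 * (K1 ^ 2 * KG)) := by field_simp; ring
        _ ≤ L ^ 2 * (L ^ 14 * (K1 ^ 2 * KG)) := by gcongr; nlinarith
        _ = Zb := by rw [hZb]; ring
    have n1 : ‖Z1‖ ≤ Zb := by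
      rw [z1]; exact hZgen _ _ _ _ hN.2.1 hN.2.2 (hab _ (by omega)).1 (hab _ (by omega)).1
    have n2 : ‖Z2‖ ≤ Zb := by
      rw [z2]; exact hZgen _ _ _ _ hN.2.2 hN.1 (hab _ (by omega)).1 (hab _ (by omega)).1
    have n3 : ‖Z3‖ ≤ Zb := by
      rw [z3]; exact hZgen _ _ _ _ hN.1 hN.2.1 (hab _ (by omega)).1 (hab _ (by omega)).1
    have hZb0 : 0 ≤ Zb := (norm_nonneg _).trans n1
    have hstep := s.gv_step hD0' (hZ1.symm) (hZ2.symm) (hZ3.symm)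
    have n4 : ‖2 * (Z3 * x (n + 1) + x (n + 2) * Z2) - Z1‖ ≤ 13 * Zb := by
      calc _ ≤ ‖2 * (Z3 * x (n + 1) + x (n + 2) * Z2)‖ + ‖Z1‖ := norm_sub_le _ _
        _ = 2 * ‖Z3 * x (n + 1) + x (n + 2) * Z2‖ + ‖Z1‖ := by rw [norm_mul]; norm_num
        _ ≤ 2 * (‖Z3 * x (n + 1)‖ + ‖x (n + 2) * Z2‖) + ‖Z1‖ := by
            gcongr; exact norm_add_le _ _
        _ = 2 * (‖Z3‖ * ‖x (n + 1)‖ + ‖x (n + 2)‖ * ‖Z2‖) + ‖Z1‖ := by rw [norm_mul, norm_mul]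
        _ ≤ 2 * (Zb * 3 + 3 * Zb) + Zb := by
            gcongr
            · exact hx3 _ (by omega)
            · exact hx3 _ (by omega)
        _ = 13 * Zb := by ring
    have n5 : ‖Z2 * a (n + 1) + Z3 * a (n + 2)
      + (2 * (Z3 * x (n + 1) + x (n + 2) * Z2) - Z1) * a (n + 3)‖ ≤ 30 * Zb * K1 * ρ := by
      calc _ ≤ ‖Z2 * a (n + 1)‖ + ‖Z3 * a (n + 2)‖
            + ‖(2 * (Z3 * x (n + 1) + x (n + 2) * Z2) - Z1) * a (n + 3)‖ := norm_add₃_le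
        _ = ‖Z2‖ * ‖a (n + 1)‖ + ‖Z3‖ * ‖a (n + 2)‖
            + ‖2 * (Z3 * x (n + 1) + x (n + 2) * Z2) - Z1‖ * ‖a (n + 3)‖ := by
            rw [norm_mul, norm_mul, norm_mul]
        _ ≤ Zb * (2 * K1 * ρ) + Zb * (2 * K1 * ρ) + 13 * Zb * (2 * K1 * ρ) := by
            gcongr
            · exact (hab _ (by omega)).1
            · exact (hab _ (by omega)).1
            · exact (hab _ (by omega)).1
        _ = 30 * Zb * K1 * ρ := by ring
    have hD324 : ρ ^ 2 / 324 ≤ ‖gD a (n + 1)‖ := by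
      have : ρ ^ 2 ≤ (9 * ρ') ^ 2 := by gcongr; exact hrr.2
      calc ρ ^ 2 / 324 ≤ (9 * ρ') ^ 2 / 324 := by gcongr
        _ = ρ' ^ 2 / 4 := by ring
        _ ≤ _ := hDn'
    have n6 : ρ * ‖gv a b (n + 1) - gv a b n‖ ≤ L ^ 21 * (K1 ^ 3 * KG) := by
      rw [hstep, norm_div, norm_neg]
      calc _ ≤ ρ * (30 * Zb * K1 * ρ / (ρ ^ 2 / 324)) := by gcongr
        _ = 9720 * (Zb * K1) := by field_simp; ring
        _ ≤ L ^ 5 * (Zb * K1) := by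
            gcongr
            calc (9720 : ℝ) ≤ 8 ^ 5 := by norm_num
              _ ≤ L ^ 5 := by gcongr
        _ = _ := by rw [hZb]; ring
    calc l ^ (3 * c1 + cG + 40) * ρ * ‖vv (n + 1) ((E : ℂ) + z) ((l : ℂ) + w)
          - vv n ((E : ℂ) + z) ((l : ℂ) + w)‖
        = l ^ (3 * c1 + cG + 40) * (ρ * ‖gv a b (n + 1) - gv a b n‖) := by
          rw [mul_assoc]; rfl
      _ ≤ l ^ (3 * c1 + cG + 40) * (L ^ 21 * (K1 ^ 3 * KG)) := by gcongr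
      _ ≤ 1 := habs 21 (by norm_num)
  · exact hDn
  · exact fun j _ hj => hdA j (by omega)

end FIB
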