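import Pool.Agent.Helper75.FIB.Iface

/-!
# FIB block G3 : the velocity at level K is close to v_n

`K = n + k`, `k >= 8`. `x_K` is a function of `(x_n,x_{n+1},x_{n+2})` through the recursion; both `trE (n+k)` and `trL (n+k)` satisfy the linear recursion `lin n E l Z k` with `Z = R_n`, `Z = B_n` (first three values; prove by induction from the definitions, cf. `trE_eq` in Basic2). `lin` is linear in `Z`. `B_n = - v_n R_n + Z_n` with
`Z_n := B_n + v_n R_n`, so `trL K = - v_n trE K + lin(Z_n)`, `Vx K - v_n = - lin(Z_n)/trE K`, and `PosF` gives `|lin(Z_n)| <= l^{-C} (|Z_n|_1/rho n) |trE K|`. Remains `|Z_n| <= l^{-C}` at the real point: `Z_n` is the component of `B_n` orthogonal to `R_n`, `|Z_n|^2 = |R×B|^2/|R|^2`. Use `VBound`-type bound: (a) either prove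
`|R_n × B_n| <= l^{-C} rho n` as in G2 (real points only, easier), or (b) avoid it: from VBound only increments of `v` are known, so (a) is needed: follow steps (1),(3),(4) of block G2 at real points (all `Cr j`, `j <= n+1`, hold by SpcCr): `g_j·R_j = 0`, `g_j·B_j = l/4`, `N_{j+1} = -T_j N_j`, `Y_{j+1}+Y_j = O(l^{-C}(rho j + rho (j+1)))`,
`rho j <= l^{-C} φ^{-(n-j)} rho n`; `|B_j| <= l^{-C} rho j`: from `trL j = - tr(S^b_j Ω M_j)/2`, `0 <= S^b <= S` in the frame of `Frame2` (`tr(g S^b_j g^T) <= tr(g S_j g^T) <= C0 a`).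
-/

namespace FIB

open Real MeasureTheory Set Filter Topology

/-! ### helper94: elementary vector identities -/

theorem h94_orth {g1 g2 g3 N1 N2 N3 R1 R2 R3 l ρ Y : ℝ} (hl : 0 < l)
    (e1 : g2 * N3 - g3 * N2 = l / 4 * R1) (e2 : g3 * N1 - g1 * N3 = l / 4 * R2)
    (e3 : g1 * N2 - g2 * N1 = l / 4 * R3)
    (hG : l ^ 2 / 4 ≤ g1 ^ 2 + g2 ^ 2 + g3 ^ 2) (h1 : |R1| ≤ ρ) (h2 : |R2| ≤ ρ) (h3 : |R3| ≤ ρ)
    (hY : Y * (g1 ^ 2 + g2 ^ 2 + g3 ^ 2) = g1 * N1 + g2 * N2 + g3 * N3) :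
    (N1 - Y * g1) ^ 2 + (N2 - Y * g2) ^ 2 + (N3 - Y * g3) ^ 2 ≤ ρ ^ 2 := by
  have hGpos : 0 < g1 ^ 2 + g2 ^ 2 + g3 ^ 2 := lt_of_lt_of_le (by positivity) hG
  have key : ((N1 - Y * g1) ^ 2 + (N2 - Y * g2) ^ 2 + (N3 - Y * g3) ^ 2) *
      (g1 ^ 2 + g2 ^ 2 + g3 ^ 2) = (l / 4) ^ 2 * (R1 ^ 2 + R2 ^ 2 + R3 ^ 2) := by
    have a1 : ((N1 - Y * g1) ^ 2 + (N2 - Y * g2) ^ 2 + (N3 - Y * g3) ^ 2) *
        (g1 ^ 2 + g2 ^ 2 + g3 ^ 2) = (N1 ^ 2 + N2 ^ 2 + N3 ^ 2) * (g1 ^ 2 + g2 ^ 2 + g3 ^ 2) -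
        2 * (Y * (g1 ^ 2 + g2 ^ 2 + g3 ^ 2)) * (g1 * N1 + g2 * N2 + g3 * N3) +
        (Y * (g1 ^ 2 + g2 ^ 2 + g3 ^ 2)) ^ 2 := by ring
    have a2 : (l / 4) ^ 2 * (R1 ^ 2 + R2 ^ 2 + R3 ^ 2) = (g2 * N3 - g3 * N2) ^ 2 +
        (g3 * N1 - g1 * N3) ^ 2 + (g1 * N2 - g2 * N1) ^ 2 := by
      rw [e1, e2, e3]; ring
    rw [a1, hY, a2]; ring
  have b1 : R1 ^ 2 ≤ ρ ^ 2 := sq_le_sq' (by linarith [(abs_le.1 h1).1]) (abs_le.1 h1).2
  have b2 : R2 ^ 2 ≤ ρ ^ 2 := sq_le_sq' (by linarith [(abs_le.1 h2).1]) (abs_le.1 h2).2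
  have b3 : R3 ^ 2 ≤ ρ ^ 2 := sq_le_sq' (by linarith [(abs_le.1 h3).1]) (abs_le.1 h3).2
  have c1 : (l / 4) ^ 2 * (R1 ^ 2 + R2 ^ 2 + R3 ^ 2) ≤ ρ ^ 2 * (g1 ^ 2 + g2 ^ 2 + g3 ^ 2) := by
    calc (l / 4) ^ 2 * (R1 ^ 2 + R2 ^ 2 + R3 ^ 2) ≤ (l / 4) ^ 2 * (3 * ρ ^ 2) := by
          apply mul_le_mul_of_nonneg_left _ (by positivity)
          linarith
      _ ≤ ρ ^ 2 * (l ^ 2 / 4) := by nlinarith [sq_nonneg (l * ρ)]
      _ ≤ ρ ^ 2 * (g1 ^ 2 + g2 ^ 2 + g3 ^ 2) := by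
          apply mul_le_mul_of_nonneg_left hG (by positivity)
  rw [← key] at c1
  exact le_of_mul_le_mul_right c1 hGpos

theorem h94_cs (a b c d e f : ℝ) :
    (a * d + b * e + c * f) ^ 2 ≤ (a ^ 2 + b ^ 2 + c ^ 2) * (d ^ 2 + e ^ 2 + f ^ 2) := by
  have h : (a ^ 2 + b ^ 2 + c ^ 2) * (d ^ 2 + e ^ 2 + f ^ 2) - (a * d + b * e + c * f) ^ 2 =
      (a * e - b * d) ^ 2 + (a * f - c * d) ^ 2 + (b * f - c * e) ^ 2 := by ring
  linarith [sq_nonneg (a * e - b * d), sq_nonneg (a * f - c * d), sq_nonneg (b * f - c * e)]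

theorem h94_ab3 (a b c d : ℝ) (h : a ^ 2 + b ^ 2 + c ^ 2 ≤ d ^ 2) (hd : 0 ≤ d) :
    |a| ≤ d ∧ |b| ≤ d ∧ |c| ≤ d := by
  refine ⟨abs_le_of_sq_le_sq ?_ hd, abs_le_of_sq_le_sq ?_ hd, abs_le_of_sq_le_sq ?_ hd⟩
  · linarith [sq_nonneg b, sq_nonneg c]
  · linarith [sq_nonneg a, sq_nonneg c]
  · linarith [sq_nonneg a, sq_nonneg b]

theorem h94_five {x y p ρ : ℝ} (hρ : 0 ≤ ρ) (hp : |p| ≤ 2) (hx : |x| ≤ ρ) (hy : |y| ≤ ρ) :
    (y + 2 * p * x) ^ 2 ≤ 25 * ρ ^ 2 := by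
  have m1 : |2 * p * x| ≤ 2 * 2 * ρ := by
    rw [abs_mul, abs_mul, abs_two]
    exact mul_le_mul (by linarith) hx (abs_nonneg _) (by norm_num)
  have m2 : |y + 2 * p * x| ≤ 5 * ρ := (abs_add_le _ _).trans (by linarith)
  have h5 := sq_le_sq' (by linarith [(abs_le.1 m2).1]) (abs_le.1 m2).2
  calc (y + 2 * p * x) ^ 2 ≤ (5 * ρ) ^ 2 := h5
    _ = 25 * ρ ^ 2 := by ring

theorem h94_step {g1 g2 g3 N1 N2 N3 R1 R2 R3 l ρ Y Y' p q : ℝ} (hl : 0 < l) (hρ : 0 ≤ ρ)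
    (e1 : g2 * N3 - g3 * N2 = l / 4 * R1) (e2 : g3 * N1 - g1 * N3 = l / 4 * R2)
    (e3 : g1 * N2 - g2 * N1 = l / 4 * R3)
    (hG : l ^ 2 / 4 ≤ g1 ^ 2 + g2 ^ 2 + g3 ^ 2) (h1 : |R1| ≤ ρ) (h2 : |R2| ≤ ρ) (h3 : |R3| ≤ ρ)
    (hY : Y * (g1 ^ 2 + g2 ^ 2 + g3 ^ 2) = g1 * N1 + g2 * N2 + g3 * N3)
    (hp : |p| ≤ 2) (hq : |q| ≤ 2)
    (hG' : l ^ 2 / 4 ≤ (g2 + 2 * q * g1) ^ 2 + (g3 + 2 * p * g1) ^ 2 + (-g1) ^ 2)
    (hY' : Y' * ((g2 + 2 * q * g1) ^ 2 + (g3 + 2 * p * g1) ^ 2 + (-g1) ^ 2) =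
      (g2 + 2 * q * g1) * (-(N2 + 2 * q * N1)) + (g3 + 2 * p * g1) * (-(N3 + 2 * p * N1)) +
        (-g1) * N1) :
    |Y' + Y| * l ≤ 16 * ρ := by
  have hO := h94_orth hl e1 e2 e3 hG h1 h2 h3 hY
  obtain ⟨a1, a2, a3⟩ := h94_ab3 _ _ _ _ hO hρ
  have o1 := h94_five hρ hq a1 a2
  have o2 := h94_five hρ hp a1 a3
  have o3 : (-(N1 - Y * g1)) ^ 2 ≤ ρ ^ 2 := by
    have h := sq_le_sq' (by linarith [(abs_le.1 a1).1]) (abs_le.1 a1).2
    rw [neg_sq]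
    exact h
  have key : (Y' + Y) * ((g2 + 2 * q * g1) ^ 2 + (g3 + 2 * p * g1) ^ 2 + (-g1) ^ 2) =
      -((g2 + 2 * q * g1) * ((N2 - Y * g2) + 2 * q * (N1 - Y * g1)) +
      (g3 + 2 * p * g1) * ((N3 - Y * g3) + 2 * p * (N1 - Y * g1)) +
      (-g1) * (-(N1 - Y * g1))) := by
    rw [add_mul, hY']; ring
  have cs := h94_cs (g2 + 2 * q * g1) (g3 + 2 * p * g1) (-g1)
    ((N2 - Y * g2) + 2 * q * (N1 - Y * g1)) ((N3 - Y * g3) + 2 * p * (N1 - Y * g1))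
    (-(N1 - Y * g1))
  rw [← neg_sq, ← key] at cs
  generalize (N2 - Y * g2) + 2 * q * (N1 - Y * g1) = O1 at *
  generalize (N3 - Y * g3) + 2 * p * (N1 - Y * g1) = O2 at *
  generalize -(N1 - Y * g1) = O3 at *
  generalize (g2 + 2 * q * g1) ^ 2 + (g3 + 2 * p * g1) ^ 2 + (-g1) ^ 2 = G' at *
  have hG'pos : 0 < G' := lt_of_lt_of_le (by positivity) hG'
  have c2 : (Y' + Y) ^ 2 * G' ≤ 51 * ρ ^ 2 := by
    have h5 : G' * ((Y' + Y) ^ 2 * G') ≤ G' * (51 * ρ ^ 2) := by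
      calc G' * ((Y' + Y) ^ 2 * G') = ((Y' + Y) * G') ^ 2 := by ring
        _ ≤ _ := cs
        _ ≤ G' * (51 * ρ ^ 2) := by
          apply mul_le_mul_of_nonneg_left _ hG'pos.le
          linarith
    exact le_of_mul_le_mul_left h5 hG'pos
  have c3 : ((Y' + Y) * l) ^ 2 ≤ (16 * ρ) ^ 2 := by
    have h5 : (Y' + Y) ^ 2 * (l ^ 2 / 4) ≤ (Y' + Y) ^ 2 * G' :=
      mul_le_mul_of_nonneg_left hG' (sq_nonneg _)
    calc ((Y' + Y) * l) ^ 2 = 4 * ((Y' + Y) ^ 2 * (l ^ 2 / 4)) := by ring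
      _ ≤ 4 * (51 * ρ ^ 2) := by linarith
      _ ≤ (16 * ρ) ^ 2 := by linarith [sq_nonneg ρ]
  have c4 := abs_le_of_sq_le_sq c3 (by linarith)
  rwa [abs_mul, abs_of_pos hl] at c4

/-- the half gradient of the invariant is not small at real points -/
theorem h94_grad (n : ℕ) (E l : ℝ) :
    l ^ 2 / 4 ≤ (tr n E l - tr (n + 1) E l * tr (n + 2) E l) ^ 2 +
      (tr (n + 1) E l - tr n E l * tr (n + 2) E l) ^ 2 +
      (tr (n + 2) E l - tr n E l * tr (n + 1) E l) ^ 2 := by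
  have h1 := tr_inv_sq n E l
  have h2 := tr_inv_sq' n E l
  have h3 := tr_inv_sq'' n E l
  set u := 1 - tr n E l ^ 2
  set v := 1 - tr (n + 1) E l ^ 2
  set w := 1 - tr (n + 2) E l ^ 2
  have s1 := sq_nonneg (tr n E l - tr (n + 1) E l * tr (n + 2) E l)
  have s2 := sq_nonneg (tr (n + 1) E l - tr n E l * tr (n + 2) E l)
  have s3 := sq_nonneg (tr (n + 2) E l - tr n E l * tr (n + 1) E l)
  have hor : 0 ≤ u * v ∨ 0 ≤ u * w ∨ 0 ≤ v * w := by
    rcases le_total 0 u with hu | hu <;> rcases le_total 0 v with hv | hv <;>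
      rcases le_total 0 w with hw | hw
    · exact Or.inl (mul_nonneg hu hv)
    · exact Or.inl (mul_nonneg hu hv)
    · exact Or.inr (Or.inl (mul_nonneg hu hw))
    · exact Or.inr (Or.inr (mul_nonneg_of_nonpos_of_nonpos hv hw))
    · exact Or.inr (Or.inr (mul_nonneg hv hw))
    · exact Or.inr (Or.inl (mul_nonneg_of_nonpos_of_nonpos hu hw))
    · exact Or.inl (mul_nonneg_of_nonpos_of_nonpos hu hv)
    · exact Or.inl (mul_nonneg_of_nonpos_of_nonpos hu hv)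
  rcases hor with h | h | h <;> linarith

/-- the component of `R × B` along the gradient -/
noncomputable def h94Y (n : ℕ) (E l : ℝ) : ℝ :=
  ((tr n E l - tr (n + 1) E l * tr (n + 2) E l) *
      (trE (n + 1) E l * trL (n + 2) E l - trE (n + 2) E l * trL (n + 1) E l) +
    (tr (n + 1) E l - tr n E l * tr (n + 2) E l) *
      (trE (n + 2) E l * trL n E l - trE n E l * trL (n + 2) E l) +
    (tr (n + 2) E l - tr n E l * tr (n + 1) E l) *
      (trE n E l * trL (n + 1) E l - trE (n + 1) E l * trL n E l)) /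
  ((tr n E l - tr (n + 1) E l * tr (n + 2) E l) ^ 2 +
      (tr (n + 1) E l - tr n E l * tr (n + 2) E l) ^ 2 +
      (tr (n + 2) E l - tr n E l * tr (n + 1) E l) ^ 2)

theorem h94Y_mul (n : ℕ) (E l : ℝ) (hl : 0 < l) :
    h94Y n E l * ((tr n E l - tr (n + 1) E l * tr (n + 2) E l) ^ 2 +
      (tr (n + 1) E l - tr n E l * tr (n + 2) E l) ^ 2 +
      (tr (n + 2) E l - tr n E l * tr (n + 1) E l) ^ 2) =
    (tr n E l - tr (n + 1) E l * tr (n + 2) E l) *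
      (trE (n + 1) E l * trL (n + 2) E l - trE (n + 2) E l * trL (n + 1) E l) +
    (tr (n + 1) E l - tr n E l * tr (n + 2) E l) *
      (trE (n + 2) E l * trL n E l - trE n E l * trL (n + 2) E l) +
    (tr (n + 2) E l - tr n E l * tr (n + 1) E l) *
      (trE n E l * trL (n + 1) E l - trE (n + 1) E l * trL n E l) := by
  unfold h94Y
  rw [div_mul_cancel₀]
  have := h94_grad n E l
  have h2 : 0 < l ^ 2 / 4 := by positivity
  exact (lt_of_lt_of_le h2 this).ne'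

/-- `g × (R × B) = (l/4) R` -/
theorem h94_cross (n : ℕ) (E l : ℝ) :
    (tr (n + 1) E l - tr n E l * tr (n + 2) E l) *
        (trE n E l * trL (n + 1) E l - trE (n + 1) E l * trL n E l) -
      (tr (n + 2) E l - tr n E l * tr (n + 1) E l) *
        (trE (n + 2) E l * trL n E l - trE n E l * trL (n + 2) E l) = l / 4 * trE n E l ∧
    (tr (n + 2) E l - tr n E l * tr (n + 1) E l) *
        (trE (n + 1) E l * trL (n + 2) E l - trE (n + 2) E l * trL (n + 1) E l) -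
      (tr n E l - tr (n + 1) E l * tr (n + 2) E l) *
        (trE n E l * trL (n + 1) E l - trE (n + 1) E l * trL n E l) = l / 4 * trE (n + 1) E l ∧
    (tr n E l - tr (n + 1) E l * tr (n + 2) E l) *
        (trE (n + 2) E l * trL n E l - trE n E l * trL (n + 2) E l) -
      (tr (n + 1) E l - tr n E l * tr (n + 2) E l) *
        (trE (n + 1) E l * trL (n + 2) E l - trE (n + 2) E l * trL (n + 1) E l) =
      l / 4 * trE (n + 2) E l := by
  have h1 := grad_E n E l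
  have h2 := grad_L n E l
  refine ⟨?_, ?_, ?_⟩
  · linear_combination trE n E l * h2 - trL n E l * h1
  · linear_combination trE (n + 1) E l * h2 - trL (n + 1) E l * h1
  · linear_combination trE (n + 2) E l * h2 - trL (n + 2) E l * h1

theorem h94_rho_nonneg (n : ℕ) (E l : ℝ) : 0 ≤ rho n E l :=
  (abs_nonneg _).trans (le_max_left _ _)

theorem h94_rho0 (n : ℕ) (E l : ℝ) : |trE n E l| ≤ rho n E l := le_max_left _ _
theorem h94_rho1 (n : ℕ) (E l : ℝ) : |trE (n + 1) E l| ≤ rho n E l :=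
  (le_max_left _ _).trans (le_max_right _ _)
theorem h94_rho2 (n : ℕ) (E l : ℝ) : |trE (n + 2) E l| ≤ rho n E l :=
  (le_max_right _ _).trans (le_max_right _ _)

theorem h94_Ystep (n : ℕ) (E l : ℝ) (hl : 0 < l) (hc : Cr n E l) :
    |h94Y (n + 1) E l + h94Y n E l| * l ≤ 16 * rho n E l := by
  obtain ⟨e1, e2, e3⟩ := h94_cross n E l
  have g1 : tr (n + 1) E l - tr (n + 2) E l * tr (n + 3) E l =
      (tr (n + 1) E l - tr n E l * tr (n + 2) E l) +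
        2 * tr (n + 2) E l * (tr n E l - tr (n + 1) E l * tr (n + 2) E l) := by
    rw [tr_add_three]; ring
  have g2 : tr (n + 2) E l - tr (n + 1) E l * tr (n + 3) E l =
      (tr (n + 2) E l - tr n E l * tr (n + 1) E l) +
        2 * tr (n + 1) E l * (tr n E l - tr (n + 1) E l * tr (n + 2) E l) := by
    rw [tr_add_three]; ring
  have g3 : tr (n + 3) E l - tr (n + 1) E l * tr (n + 2) E l =
      -(tr n E l - tr (n + 1) E l * tr (n + 2) E l) := by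
    rw [tr_add_three]; ring
  have m1 : trE (n + 2) E l * trL (n + 3) E l - trE (n + 3) E l * trL (n + 2) E l =
      -((trE (n + 2) E l * trL n E l - trE n E l * trL (n + 2) E l) +
        2 * tr (n + 2) E l *
          (trE (n + 1) E l * trL (n + 2) E l - trE (n + 2) E l * trL (n + 1) E l)) := by
    rw [trE_add_three, trL_add_three]; ring
  have m2 : trE (n + 3) E l * trL (n + 1) E l - trE (n + 1) E l * trL (n + 3) E l =
      -((trE n E l * trL (n + 1) E l - trE (n + 1) E l * trL n E l) +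
        2 * tr (n + 1) E l *
          (trE (n + 1) E l * trL (n + 2) E l - trE (n + 2) E l * trL (n + 1) E l)) := by
    rw [trE_add_three, trL_add_three]; ring
  have hG' := h94_grad (n + 1) E l
  have hY' := h94Y_mul (n + 1) E l hl
  rw [show n + 1 + 1 = n + 2 from rfl, show n + 1 + 2 = n + 3 from rfl] at hG' hY'
  rw [m1, m2, g1, g2, g3] at hY'
  rw [g1, g2, g3] at hG'
  exact h94_step hl (h94_rho_nonneg n E l) e1 e2 e3 (h94_grad n E l) (h94_rho0 n E l)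
    (h94_rho1 n E l) (h94_rho2 n E l) (h94Y_mul n E l hl)
    (hc.1 (n + 1) (by omega) (by omega)) (hc.1 (n + 2) (by omega) (by omega)) hG' hY'

theorem h94_Yzero (E l : ℝ) (hl : 0 < l) : |h94Y 0 E l| * l ≤ rho 0 E l := by
  have hr : rho 0 E l = 1 / 2 := by
    unfold rho
    norm_num
  rw [hr]
  have hY := h94Y_mul 0 E l hl
  have hG := h94_grad 0 E l
  set g1 := tr 0 E l - tr (0 + 1) E l * tr (0 + 2) E l
  set g2 := tr (0 + 1) E l - tr 0 E l * tr (0 + 2) E l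
  set g3 := tr (0 + 2) E l - tr 0 E l * tr (0 + 1) E l
  have h2 : h94Y 0 E l * (g1 ^ 2 + g2 ^ 2 + g3 ^ 2) = -(g1 / 4) := by
    rw [hY]
    simp
    ring
  have hGpos : 0 < g1 ^ 2 + g2 ^ 2 + g3 ^ 2 := lt_of_lt_of_le (by positivity) hG
  have h3 : h94Y 0 E l ^ 2 * (g1 ^ 2 + g2 ^ 2 + g3 ^ 2) ≤ 1 / 16 := by
    have h5 : (g1 ^ 2 + g2 ^ 2 + g3 ^ 2) * (h94Y 0 E l ^ 2 * (g1 ^ 2 + g2 ^ 2 + g3 ^ 2)) ≤
        (g1 ^ 2 + g2 ^ 2 + g3 ^ 2) * (1 / 16) := by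
      calc (g1 ^ 2 + g2 ^ 2 + g3 ^ 2) * (h94Y 0 E l ^ 2 * (g1 ^ 2 + g2 ^ 2 + g3 ^ 2))
          = (h94Y 0 E l * (g1 ^ 2 + g2 ^ 2 + g3 ^ 2)) ^ 2 := by ring
        _ = (g1 / 4) ^ 2 := by rw [h2]; ring
        _ ≤ (g1 ^ 2 + g2 ^ 2 + g3 ^ 2) * (1 / 16) := by
          nlinarith [sq_nonneg g2, sq_nonneg g3]
    exact le_of_mul_le_mul_left h5 hGpos
  have h4 : (h94Y 0 E l * l) ^ 2 ≤ (1 / 2) ^ 2 := by
    have h5 : h94Y 0 E l ^ 2 * (l ^ 2 / 4) ≤ h94Y 0 E l ^ 2 * (g1 ^ 2 + g2 ^ 2 + g3 ^ 2) :=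
      mul_le_mul_of_nonneg_left hG (sq_nonneg _)
    nlinarith
  have h5 := abs_le_of_sq_le_sq h4 (by norm_num)
  rwa [abs_mul, abs_of_pos hl] at h5

theorem h94_Ysum (n : ℕ) (E l : ℝ) (hl : 0 < l) (hc : ∀ j < n, Cr j E l) :
    |h94Y n E l| * l ≤ rho 0 E l + 16 * ∑ j ∈ Finset.range n, rho j E l := by
  induction n with
  | zero => simpa using h94_Yzero E l hl
  | succ n ih =>
    have h1 := ih (fun j hj => hc j (by omega))
    have h2 := h94_Ystep n E l hl (hc n (by omega))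
    rw [Finset.sum_range_succ]
    have h3 : |h94Y (n + 1) E l| ≤ |h94Y (n + 1) E l + h94Y n E l| + |h94Y n E l| := by
      have := abs_sub (h94Y (n + 1) E l + h94Y n E l) (h94Y n E l)
      rwa [add_sub_cancel_right] at this
    nlinarith [mul_le_mul_of_nonneg_right h3 hl.le]

theorem h94_ph : (3 : ℝ) / 2 ≤ ph := by
  unfold ph
  have : (2 : ℝ) ≤ Real.sqrt 5 := by
    rw [show (2 : ℝ) = Real.sqrt 4 by
      rw [show (4 : ℝ) = 2 ^ 2 by norm_num, Real.sqrt_sq (by norm_num)]]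
    exact Real.sqrt_le_sqrt (by norm_num)
  linarith

theorem h94_geom (n : ℕ) : ∑ j ∈ Finset.range n, (1 / ph) ^ (n - j) ≤ 2 := by
  have hph := h94_ph
  have hp : 0 < 1 / ph := by positivity
  induction n with
  | zero => simp
  | succ n ih =>
    have h1 : ∑ j ∈ Finset.range (n + 1), (1 / ph) ^ (n + 1 - j) =
        (1 / ph) * (∑ j ∈ Finset.range n, (1 / ph) ^ (n - j) + 1) := by
      rw [Finset.sum_range_succ, mul_add, Finset.mul_sum]
      congr 1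
      · refine Finset.sum_congr rfl fun j hj => ?_
        have := Finset.mem_range.1 hj
        rw [show n + 1 - j = (n - j) + 1 by omega, pow_succ]
        ring
      · rw [show n + 1 - n = 1 by omega]; ring
    rw [h1]
    have h2 : 1 / ph ≤ 2 / 3 := by
      rw [div_le_div_iff₀ (by linarith) (by norm_num)]
      linarith
    nlinarith

theorem h94_lin (n : ℕ) (E l v : ℝ) (k : ℕ) :
    lin n E l (fun k => trL (n + k) E l + v * trE (n + k) E l) k =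
      trL (n + k) E l + v * trE (n + k) E l := by
  induction k using ind3 with
  | h0 => rfl
  | h1 => rfl
  | h2 => rfl
  | h k ih0 ih1 ih2 =>
    rw [lin, ih0, ih1, ih2, show n + (k + 3) = (n + k) + 3 from rfl, trL_add_three, trE_add_three,
      show n + (k + 1) = n + k + 1 from rfl, show n + (k + 2) = n + k + 2 from rfl]
    ring

/-- pure arithmetic: bound of a component of the cross product -/
theorem h94_Nb {l ρ Y g N : ℝ} {C2 : ℕ} (hl : 0 < l) (hl8 : l ≤ 1 / 8) (hρ : 0 < ρ)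
    (hY : l ^ C2 * (|Y| * l) ≤ 33 * ρ) (hg : |g| ≤ 6) (hN : |N - Y * g| ≤ ρ) :
    l ^ (C2 + 4) * |N| ≤ ρ / 2 := by
  have hl3 : l ^ 3 ≤ 1 / 512 := by
    calc l ^ 3 ≤ (1 / 8) ^ 3 := pow_le_pow_left₀ hl.le hl8 3
      _ = 1 / 512 := by norm_num
  have h1 : |N| ≤ ρ + |Y| * 6 := by
    have e : N = (N - Y * g) + Y * g := by ring
    calc |N| = |(N - Y * g) + Y * g| := by rw [← e]
      _ ≤ |N - Y * g| + |Y * g| := abs_add_le _ _
      _ ≤ ρ + |Y| * 6 := by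
        rw [abs_mul]
        exact add_le_add hN (mul_le_mul_of_nonneg_left hg (abs_nonneg Y))
  have hlC : l ^ C2 ≤ 1 := pow_le_one₀ hl.le (by linarith)
  have hlC0 : 0 ≤ l ^ C2 := by positivity
  have hcl : l ^ C2 * l ≤ 1 := mul_le_one₀ hlC hl.le (by linarith)
  have h2 : l ^ C2 * l * |N| ≤ 199 * ρ := by
    have hpos : 0 ≤ l ^ C2 * l := by positivity
    calc l ^ C2 * l * |N| ≤ l ^ C2 * l * (ρ + |Y| * 6) := mul_le_mul_of_nonneg_left h1 hpos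
      _ = (l ^ C2 * l) * ρ + 6 * (l ^ C2 * (|Y| * l)) := by ring
      _ ≤ 1 * ρ + 6 * (33 * ρ) :=
        add_le_add (mul_le_mul_of_nonneg_right hcl hρ.le) (by linarith)
      _ = 199 * ρ := by ring
  calc l ^ (C2 + 4) * |N| = l ^ 3 * (l ^ C2 * l * |N|) := by ring
    _ ≤ l ^ 3 * (199 * ρ) := mul_le_mul_of_nonneg_left h2 (by positivity)
    _ ≤ (1 / 512) * (199 * ρ) := mul_le_mul_of_nonneg_right hl3 (by positivity)
    _ ≤ ρ / 2 := by linarith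

/-- pure arithmetic: the component of `B` orthogonal to `R` -/
theorem h94_Zb {R0 R1 R2 B0 B1 B2 ρ v c : ℝ} (hc : 0 ≤ c) (hρ : 0 < ρ)
    (hRR : ρ ^ 2 ≤ R0 ^ 2 + R1 ^ 2 + R2 ^ 2)
    (hv : v * (R0 ^ 2 + R1 ^ 2 + R2 ^ 2) = -(B0 * R0 + B1 * R1 + B2 * R2))
    (n1 : c * |R1 * B2 - R2 * B1| ≤ ρ / 2) (n2 : c * |R2 * B0 - R0 * B2| ≤ ρ / 2)
    (n3 : c * |R0 * B1 - R1 * B0| ≤ ρ / 2) :
    c * (|B0 + v * R0| + |B1 + v * R1| + |B2 + v * R2|) ≤ 3 := by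
  have hRRpos : 0 < R0 ^ 2 + R1 ^ 2 + R2 ^ 2 := lt_of_lt_of_le (by positivity) hRR
  have hZN : ((B0 + v * R0) ^ 2 + (B1 + v * R1) ^ 2 + (B2 + v * R2) ^ 2) *
      (R0 ^ 2 + R1 ^ 2 + R2 ^ 2) = (R1 * B2 - R2 * B1) ^ 2 + (R2 * B0 - R0 * B2) ^ 2 +
        (R0 * B1 - R1 * B0) ^ 2 := by
    have a1 : ((B0 + v * R0) ^ 2 + (B1 + v * R1) ^ 2 + (B2 + v * R2) ^ 2) *
        (R0 ^ 2 + R1 ^ 2 + R2 ^ 2) = (B0 ^ 2 + B1 ^ 2 + B2 ^ 2) * (R0 ^ 2 + R1 ^ 2 + R2 ^ 2) +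
        2 * (v * (R0 ^ 2 + R1 ^ 2 + R2 ^ 2)) * (B0 * R0 + B1 * R1 + B2 * R2) +
        (v * (R0 ^ 2 + R1 ^ 2 + R2 ^ 2)) ^ 2 := by ring
    rw [a1, hv]
    ring
  have hsq : ∀ x : ℝ, c * |x| ≤ ρ / 2 → c ^ 2 * x ^ 2 ≤ ρ ^ 2 / 4 := by
    intro x hx
    have h0 : 0 ≤ c * |x| := by positivity
    have h1 := pow_le_pow_left₀ h0 hx 2
    rw [mul_pow, sq_abs] at h1
    calc c ^ 2 * x ^ 2 ≤ (ρ / 2) ^ 2 := h1
      _ = ρ ^ 2 / 4 := by ring
  have h1 := hsq _ n1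
  have h2 := hsq _ n2
  have h3 := hsq _ n3
  have hZb : c ^ 2 * ((B0 + v * R0) ^ 2 + (B1 + v * R1) ^ 2 + (B2 + v * R2) ^ 2) ≤ 1 := by
    have h4 : c ^ 2 * ((B0 + v * R0) ^ 2 + (B1 + v * R1) ^ 2 + (B2 + v * R2) ^ 2) *
        (R0 ^ 2 + R1 ^ 2 + R2 ^ 2) ≤ 1 * (R0 ^ 2 + R1 ^ 2 + R2 ^ 2) := by
      rw [mul_assoc, hZN, one_mul]
      calc c ^ 2 * ((R1 * B2 - R2 * B1) ^ 2 + (R2 * B0 - R0 * B2) ^ 2 +
            (R0 * B1 - R1 * B0) ^ 2) = c ^ 2 * (R1 * B2 - R2 * B1) ^ 2 +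
            c ^ 2 * (R2 * B0 - R0 * B2) ^ 2 + c ^ 2 * (R0 * B1 - R1 * B0) ^ 2 := by ring
        _ ≤ ρ ^ 2 / 4 + ρ ^ 2 / 4 + ρ ^ 2 / 4 := add_le_add (add_le_add h1 h2) h3
        _ ≤ ρ ^ 2 := by linarith [sq_nonneg ρ]
        _ ≤ _ := hRR
    exact le_of_mul_le_mul_right h4 hRRpos
  have hz : ∀ x : ℝ, x ^ 2 ≤ (B0 + v * R0) ^ 2 + (B1 + v * R1) ^ 2 + (B2 + v * R2) ^ 2 →
      c * |x| ≤ 1 := by
    intro x hx
    have h1 : (c * |x|) ^ 2 ≤ 1 ^ 2 := by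
      rw [mul_pow, sq_abs, one_pow]
      exact (mul_le_mul_of_nonneg_left hx (by positivity)).trans hZb
    have h2 := abs_le_of_sq_le_sq h1 (by norm_num)
    exact (le_abs_self _).trans h2
  have z0 := hz (B0 + v * R0) (by linarith [sq_nonneg (B1 + v * R1), sq_nonneg (B2 + v * R2)])
  have z1 := hz (B1 + v * R1) (by linarith [sq_nonneg (B0 + v * R0), sq_nonneg (B2 + v * R2)])
  have z2 := hz (B2 + v * R2) (by linarith [sq_nonneg (B0 + v * R0), sq_nonneg (B1 + v * R1)])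
  linarith

theorem h94_three (a b c : ℝ) : (max |a| (max |b| |c|)) ^ 2 ≤ a ^ 2 + b ^ 2 + c ^ 2 := by
  rcases max_choice |a| (max |b| |c|) with h | h
  · rw [h, sq_abs]; linarith [sq_nonneg b, sq_nonneg c]
  · rcases max_choice |b| |c| with h' | h'
    · rw [h, h', sq_abs]; linarith [sq_nonneg a, sq_nonneg c]
    · rw [h, h', sq_abs]; linarith [sq_nonneg a, sq_nonneg b]

/-- the bound for the component of `B` orthogonal to `R` at a real point -/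
theorem h94_Zn (n : ℕ) (E l : ℝ) (C2 : ℕ) (hl : 0 < l) (hl8 : l ≤ 1 / 8)
    (hρ : 0 < rho n E l) (hx : ∀ j, n ≤ j → j ≤ n + 8 → |tr j E l| ≤ 2)
    (hY : l ^ C2 * (|h94Y n E l| * l) ≤ 33 * rho n E l) :
    l ^ (C2 + 4) * (|trL n E l + vv n E l * trE n E l| +
      |trL (n + 1) E l + vv n E l * trE (n + 1) E l| +
      |trL (n + 2) E l + vv n E l * trE (n + 2) E l|) ≤ 3 := by
  have hb : ∀ a b c : ℝ, |a| ≤ 2 → |b| ≤ 2 → |c| ≤ 2 → |a - b * c| ≤ 6 := by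
    intro a b c h1 h2 h3
    have h4 : |b * c| ≤ 2 * 2 := by
      rw [abs_mul]
      exact mul_le_mul h2 h3 (abs_nonneg _) (by norm_num)
    exact (abs_sub _ _).trans (by linarith)
  have x0 := hx n le_rfl (by omega)
  have x1 := hx (n + 1) (by omega) (by omega)
  have x2 := hx (n + 2) (by omega) (by omega)
  obtain ⟨e1, e2, e3⟩ := h94_cross n E l
  have hO := h94_orth hl e1 e2 e3 (h94_grad n E l) (h94_rho0 n E l) (h94_rho1 n E l)
    (h94_rho2 n E l) (h94Y_mul n E l hl)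
  have hab : ∀ a b c d : ℝ, a ^ 2 + b ^ 2 + c ^ 2 ≤ d ^ 2 → 0 ≤ d → |a| ≤ d ∧ |b| ≤ d ∧ |c| ≤ d := by
    intro a b c d h hd
    refine ⟨abs_le_of_sq_le_sq ?_ hd, abs_le_of_sq_le_sq ?_ hd, abs_le_of_sq_le_sq ?_ hd⟩
    · linarith [sq_nonneg b, sq_nonneg c]
    · linarith [sq_nonneg a, sq_nonneg c]
    · linarith [sq_nonneg a, sq_nonneg b]
  obtain ⟨o1, o2, o3⟩ := hab _ _ _ _ hO hρ.le
  have n1 := h94_Nb hl hl8 hρ hY (hb _ _ _ x0 x1 x2) o1
  have n2 := h94_Nb hl hl8 hρ hY (hb _ _ _ x1 x0 x2) o2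
  have n3 := h94_Nb hl hl8 hρ hY (hb _ _ _ x2 x0 x1) o3
  have hRR : rho n E l ^ 2 ≤ trE n E l ^ 2 + trE (n + 1) E l ^ 2 + trE (n + 2) E l ^ 2 :=
    h94_three _ _ _
  have hRRpos : 0 < trE n E l ^ 2 + trE (n + 1) E l ^ 2 + trE (n + 2) E l ^ 2 :=
    lt_of_lt_of_le (by positivity) hRR
  have hvm : vv n E l * (trE n E l ^ 2 + trE (n + 1) E l ^ 2 + trE (n + 2) E l ^ 2) =
      -(trL n E l * trE n E l + trL (n + 1) E l * trE (n + 1) E l +
        trL (n + 2) E l * trE (n + 2) E l) := by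
    unfold vv
    rw [div_mul_cancel₀ _ hRRpos.ne']
  exact h94_Zb (by positivity) hρ hRR hvm n1 n2 n3

theorem fBound (hP : PosF) (hC : SpcCr) (hF : Frame2) (hp : PosProps) (hG : GrLow) (hR : RhoRatio) : FBound := by
  obtain ⟨C1, hP⟩ := hP
  obtain ⟨C2, hG⟩ := hG
  obtain ⟨C0, C3, hC0, hF⟩ := hF
  refine ⟨C1 + C2 + 5, ?_⟩
  intro n K E l hl hl8 hs
  have hs2 := hs.2
  have hok : Okl l l := ⟨hl, hl8, hl, by linarith⟩
  have hCr : ∀ j ≤ n, Cr j E l := fun j hj => hC K j E l hl hl8 ⟨hs.1, by omega⟩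
  have hND : ∀ j ≤ n, ND l j E l := fun j hj => Or.inl ⟨rfl, hCr j hj⟩
  -- positivity of rho and nonvanishing of the derivative at level K
  have hρ : 0 < rho n E l := by
    obtain ⟨g, a, A, -, ha, -, -, -, -, -, h, -⟩ := hF n E l l hok (hND n le_rfl)
    exact lt_of_lt_of_le (by positivity) h
  have hK : trE K E l ≠ 0 := by
    have hcr : Cr (K - 8) E l := hC K (K - 8) E l hl hl8 ⟨hs.1, by omega⟩
    obtain ⟨g, a, A, -, ha, -, -, -, -, -, -, h⟩ :=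
      hF (K - 8) E l l hok (Or.inl ⟨rfl, hcr⟩)
    have h1 := h K (by omega) (by omega) hs.1.le
    have h2 : 0 < |trE K E l| := lt_of_lt_of_le (by positivity) h1
    exact abs_pos.1 h2
  -- growth
  have hph0 := h94_ph
  have hgr : ∀ j ≤ n, l ^ C2 * rho j E l ≤ rho n E l * (1 / ph) ^ (n - j) := by
    intro j hj
    have h1 := hG j n E l l hok hj (hND j hj) (hND n le_rfl)
    have hph : 0 < ph ^ (n - j) := pow_pos (by linarith) _
    rw [one_div, inv_pow, ← div_eq_mul_inv, le_div_iff₀ hph]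
    linarith
  have hgr' : l ^ C2 * rho 0 E l ≤ rho n E l := by
    refine (hgr 0 (Nat.zero_le n)).trans ?_
    have h1 : (1 / ph) ^ (n - 0) ≤ 1 := by
      apply pow_le_one₀ (by positivity)
      rw [div_le_one (by linarith)]
      linarith
    calc rho n E l * (1 / ph) ^ (n - 0) ≤ rho n E l * 1 :=
          mul_le_mul_of_nonneg_left h1 hρ.le
      _ = rho n E l := mul_one _
  have hsum : l ^ C2 * ∑ j ∈ Finset.range n, rho j E l ≤ 2 * rho n E l := by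
    rw [Finset.mul_sum]
    calc ∑ j ∈ Finset.range n, l ^ C2 * rho j E l
        ≤ ∑ j ∈ Finset.range n, rho n E l * (1 / ph) ^ (n - j) :=
          Finset.sum_le_sum fun j hj => hgr j (le_of_lt (Finset.mem_range.1 hj))
      _ = rho n E l * ∑ j ∈ Finset.range n, (1 / ph) ^ (n - j) := by rw [Finset.mul_sum]
      _ ≤ rho n E l * 2 := mul_le_mul_of_nonneg_left (h94_geom n) hρ.le
      _ = 2 * rho n E l := mul_comm _ _
  have hlp : 0 < l ^ C2 := by positivity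
  have hY : l ^ C2 * (|h94Y n E l| * l) ≤ 33 * rho n E l := by
    have h1 := h94_Ysum n E l hl (fun j hj => hCr j hj.le)
    calc l ^ C2 * (|h94Y n E l| * l) ≤
        l ^ C2 * (rho 0 E l + 16 * ∑ j ∈ Finset.range n, rho j E l) :=
          mul_le_mul_of_nonneg_left h1 hlp.le
      _ = l ^ C2 * rho 0 E l + 16 * (l ^ C2 * ∑ j ∈ Finset.range n, rho j E l) := by ring
      _ ≤ rho n E l + 16 * (2 * rho n E l) := by linarith
      _ = 33 * rho n E l := by ring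
  have hZ := h94_Zn n E l C2 hl hl8 hρ (hCr n le_rfl).1 hY
  -- the positivity functional
  have hPos := hP n K E l (fun k => trL (n + k) E l + vv n E l * trE (n + k) E l) hl hl8
    (hCr n le_rfl) (by omega) hs.1
  rw [h94_lin, show n + (K - n) = K by omega] at hPos
  have hV : Vx K E l - vv n E l = -((trL K E l + vv n E l * trE K E l) / trE K E l) := by
    unfold Vx
    rw [add_div, mul_div_cancel_right₀ _ hK]
    ring
  have hVa : |Vx K E l - vv n E l| * |trE K E l| = |trL K E l + vv n E l * trE K E l| := by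
    rw [hV, abs_neg, abs_div, div_mul_cancel₀ _ (abs_pos.2 hK).ne']
  have hfin : l ^ C1 * rho n E l * |Vx K E l - vv n E l| ≤
      |trL n E l + vv n E l * trE n E l| + |trL (n + 1) E l + vv n E l * trE (n + 1) E l| +
        |trL (n + 2) E l + vv n E l * trE (n + 2) E l| := by
    have h1 : l ^ C1 * rho n E l * |Vx K E l - vv n E l| * |trE K E l| ≤
        (|trL n E l + vv n E l * trE n E l| + |trL (n + 1) E l + vv n E l * trE (n + 1) E l| +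
        |trL (n + 2) E l + vv n E l * trE (n + 2) E l|) * |trE K E l| := by
      rw [mul_assoc, hVa]
      exact hPos
    exact le_of_mul_le_mul_right h1 (abs_pos.2 hK)
  calc l ^ (C1 + C2 + 5) * rho n E l * |Vx K E l - vv n E l| =
      l * (l ^ (C2 + 4) * (l ^ C1 * rho n E l * |Vx K E l - vv n E l|)) := by ring
    _ ≤ l * (l ^ (C2 + 4) * (|trL n E l + vv n E l * trE n E l| +
        |trL (n + 1) E l + vv n E l * trE (n + 1) E l| +
        |trL (n + 2) E l + vv n E l * trE (n + 2) E l|)) := by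
        apply mul_le_mul_of_nonneg_left _ hl.le
        exact mul_le_mul_of_nonneg_left hfin (by positivity)
    _ ≤ l * 3 := mul_le_mul_of_nonneg_left hZ hl.le
    _ ≤ 1 := by linarith

end FIB
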