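import Pool.Agent.Helper75.FIB.Iface

/-!
# FIB block G4 : Lipschitz bound for v_n, distortion of rho

`VBound`: `F(z,w) = vv n (E+z) (l+w)` is bounded by `l^{-C}` on the polydisc `|z|+|w| <= r := l^C/rho n`; it is holomorphic there (quotient of polynomials with nonvanishing denominator). For real `(E',l')` with `|E'-E|+|l'-l| <= r/2`: apply the Cauchy estimate to `ζ ↦ F(ζ(E'-E)/s, ζ(l'-l)/s)`, `s = |E'-E|+|l'-l|`, on `|ζ| < r`: derivative
`<= l^{-C}/(r/2)` for `|ζ| <= r/2`. So `|v_n(E',l') - v_n(E,l)| <= 2 l^{-C} s/r = 2 l^{-2C} rho n s`. Ratio of rho: last item of VBound (`|trE j - trE j| <= rho/16`).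
(Joint holomorphy is not needed: only along complex lines.)
-/

namespace FIB

open Real MeasureTheory Set Filter Topology

namespace G4h30

theorem diff_tr (a b c d : ℂ) (n : ℕ) :
    Differentiable ℂ (fun ζ : ℂ => tr n (a + ζ * b) (c + ζ * d)) := by
  induction n using ind3 with
  | h0 => simp only [tr_zero]; fun_prop
  | h1 => simp only [tr_one]; fun_prop
  | h2 => simp only [tr_two]; fun_prop
  | h n ih0 ih1 ih2 =>
    simp only [tr_add_three]
    exact ((ih2.const_mul 2).mul ih1).sub ih0

theorem diff_trE (a b c d : ℂ) (n : ℕ) :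
    Differentiable ℂ (fun ζ : ℂ => trE n (a + ζ * b) (c + ζ * d)) := by
  induction n using ind3 with
  | h0 => simp only [trE_zero]; fun_prop
  | h1 => simp only [trE_one]; fun_prop
  | h2 => simp only [trE_two]; fun_prop
  | h n ih0 ih1 ih2 =>
    simp only [trE_add_three]
    exact (((ih2.mul (diff_tr a b c d (n + 1))).add
      ((diff_tr a b c d (n + 2)).mul ih1)).const_mul 2).sub ih0

theorem diff_trL (a b c d : ℂ) (n : ℕ) :
    Differentiable ℂ (fun ζ : ℂ => trL n (a + ζ * b) (c + ζ * d)) := by
  induction n using ind3 with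
  | h0 => simp only [trL_zero]; fun_prop
  | h1 => simp only [trL_one]; fun_prop
  | h2 => simp only [trL_two]; fun_prop
  | h n ih0 ih1 ih2 =>
    simp only [trL_add_three]
    exact (((ih2.mul (diff_tr a b c d (n + 1))).add
      ((diff_tr a b c d (n + 2)).mul ih1)).const_mul 2).sub ih0

theorem vv_ofReal (n : ℕ) (E l : ℝ) : vv n (E : ℂ) (l : ℂ) = ((vv n E l : ℝ) : ℂ) := by
  unfold vv
  simp only [trE_ofReal, trL_ofReal]
  push_cast
  ring

end G4h30

open G4h30 in
theorem vLip (h : VBound) : VLip := by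
  obtain ⟨C, hC⟩ := h
  refine ⟨2 * C + 2, fun n E l E' l' hl hl8 hl' hcr hs => ?_⟩
  have hV := hC n E l hl hl8 hcr
  set r0 := rho n E l with hr0
  set s : ℝ := |E' - E| + |l' - l| with hsdef
  have hs0 : 0 ≤ s := by positivity
  have hr00 : 0 ≤ r0 := le_max_of_le_left (abs_nonneg _)
  have hl1 : l ≤ 1 := by linarith
  have hpow : l ^ (2 * C + 2) ≤ l ^ C :=
    pow_le_pow_of_le_one hl.le hl1 (by omega)
  have hsC : s * r0 ≤ l ^ C := hs.trans hpow
  -- the value at the real point
  have hz : ((E : ℂ) + ((E' - E : ℝ) : ℂ)) = (E' : ℂ) := by push_cast; ring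
  have hw : ((l : ℂ) + ((l' - l : ℝ) : ℂ)) = (l' : ℂ) := by push_cast; ring
  have hnorm : (‖((E' - E : ℝ) : ℂ)‖ + ‖((l' - l : ℝ) : ℂ)‖) * rho n E l ≤ l ^ C := by
    rw [Complex.norm_real, Complex.norm_real, Real.norm_eq_abs, Real.norm_eq_abs]
    exact hsC
  have hj := (hV _ _ hnorm).2.2.2
  have hjr : ∀ j, n ≤ j → j ≤ n + 2 → |trE j E' l' - trE j E l| ≤ r0 / 16 := by
    intro j h1 h2
    have h3 := hj j h1 h2
    rw [hz, hw, trE_ofReal, ← Complex.ofReal_sub, Complex.norm_real, Real.norm_eq_abs] at h3
    exact h3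
  have e0 := hjr n le_rfl (by omega)
  have e1 := hjr (n + 1) (by omega) (by omega)
  have e2 := hjr (n + 2) (by omega) le_rfl
  have hrr : r0 ≤ 2 * rho n E' l' ∧ rho n E' l' ≤ 2 * r0 := by
    have a0 : |trE n E l| ≤ r0 := le_max_left _ _
    have a1 : |trE (n + 1) E l| ≤ r0 := (le_max_left _ _).trans (le_max_right _ _)
    have a2 : |trE (n + 2) E l| ≤ r0 := (le_max_right _ _).trans (le_max_right _ _)
    have b0 : |trE n E' l'| ≤ rho n E' l' := le_max_left _ _
    have b1 : |trE (n + 1) E' l'| ≤ rho n E' l' := (le_max_left _ _).trans (le_max_right _ _)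
    have b2 : |trE (n + 2) E' l'| ≤ rho n E' l' := (le_max_right _ _).trans (le_max_right _ _)
    have t : ∀ x y : ℝ, |x - y| ≤ r0 / 16 → |x| ≤ |y| + r0 / 16 ∧ |y| ≤ |x| + r0 / 16 := by
      intro x y hxy
      have h1 := abs_sub_abs_le_abs_sub x y
      have h2 := abs_sub_abs_le_abs_sub y x
      rw [abs_sub_comm y x] at h2
      constructor <;> linarith
    have u0 := t _ _ e0
    have u1 := t _ _ e1
    have u2 := t _ _ e2
    constructor
    · have : r0 ≤ rho n E' l' + r0 / 16 := by
        rw [hr0]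
        unfold rho
        refine max_le ?_ (max_le ?_ ?_)
        · exact u0.2.trans (add_le_add b0 le_rfl)
        · exact u1.2.trans (add_le_add b1 le_rfl)
        · exact u2.2.trans (add_le_add b2 le_rfl)
      linarith
    · have : rho n E' l' ≤ r0 + r0 / 16 := by
        unfold rho
        refine max_le ?_ (max_le ?_ ?_)
        · linarith [u0.1]
        · linarith [u1.1]
        · linarith [u2.1]
      linarith
  refine ⟨?_, hrr⟩
  rcases hr00.eq_or_lt with hr | hr
  · -- rho = 0
    have a0 : trE n E l = 0 := by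
      have : |trE n E l| ≤ r0 := le_max_left _ _
      rw [← hr] at this
      exact abs_eq_zero.1 (le_antisymm this (abs_nonneg _))
    have a1 : trE (n + 1) E l = 0 := by
      have : |trE (n + 1) E l| ≤ r0 := (le_max_left _ _).trans (le_max_right _ _)
      rw [← hr] at this
      exact abs_eq_zero.1 (le_antisymm this (abs_nonneg _))
    have a2 : trE (n + 2) E l = 0 := by
      have : |trE (n + 2) E l| ≤ r0 := (le_max_right _ _).trans (le_max_right _ _)
      rw [← hr] at this
      exact abs_eq_zero.1 (le_antisymm this (abs_nonneg _))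
    have hb0 : trE n E' l' = 0 := by
      rw [a0, ← hr, sub_zero, zero_div] at e0
      exact abs_eq_zero.1 (le_antisymm e0 (abs_nonneg _))
    have hb1 : trE (n + 1) E' l' = 0 := by
      rw [a1, ← hr, sub_zero, zero_div] at e1
      exact abs_eq_zero.1 (le_antisymm e1 (abs_nonneg _))
    have hb2 : trE (n + 2) E' l' = 0 := by
      rw [a2, ← hr, sub_zero, zero_div] at e2
      exact abs_eq_zero.1 (le_antisymm e2 (abs_nonneg _))
    have hv : vv n E' l' = 0 := by
      unfold vv
      rw [hb0, hb1, hb2]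
      simp
    have hv' : vv n E l = 0 := by
      unfold vv
      rw [a0, a1, a2]
      simp
    rw [hv, hv', ← hr]
    simp
  · rcases hs0.eq_or_lt with hss | hss
    · have h1 : |E' - E| = 0 := by
        have := abs_nonneg (l' - l)
        have := abs_nonneg (E' - E)
        linarith
      have h2 : |l' - l| = 0 := by
        have := abs_nonneg (l' - l)
        have := abs_nonneg (E' - E)
        linarith
      have h3 : E' = E := by linarith [abs_eq_zero.1 h1]
      have h4 : l' = l := by linarith [abs_eq_zero.1 h2]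
      rw [h3, h4, sub_self, abs_zero, mul_zero]
      exact mul_nonneg hr00 hs0
    · have hlC : 0 < l ^ C := pow_pos hl C
      set R : ℝ := l ^ C / r0 with hR
      have hR0 : 0 < R := div_pos hlC hr
      set b : ℂ := (((E' - E) / s : ℝ) : ℂ) with hb
      set d : ℂ := (((l' - l) / s : ℝ) : ℂ) with hd
      have hbd : ‖b‖ + ‖d‖ = 1 := by
        rw [hb, hd, Complex.norm_real, Complex.norm_real, Real.norm_eq_abs, Real.norm_eq_abs,
          abs_div, abs_div, abs_of_pos hss, ← add_div]
        exact div_self hss.ne'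
      have hin : ∀ ζ : ℂ, ‖ζ‖ ≤ R → (‖ζ * b‖ + ‖ζ * d‖) * rho n E l ≤ l ^ C := by
        intro ζ hζ
        rw [norm_mul, norm_mul, ← mul_add, hbd, mul_one, ← hr0]
        rw [hR, le_div_iff₀ hr] at hζ
        exact hζ
      set F : ℂ → ℂ := fun ζ => vv n ((E : ℂ) + ζ * b) ((l : ℂ) + ζ * d) with hF
      have hFb : ∀ ζ : ℂ, ‖ζ‖ ≤ R → ‖F ζ‖ ≤ 1 / l ^ C := by
        intro ζ hζ
        have h1 := (hV _ _ (hin ζ hζ)).1
        rw [le_div_iff₀ hlC, mul_comm]
        exact h1
      have hFd : DifferentiableOn ℂ F (Metric.ball 0 R) := by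
        intro ζ hζ
        rw [mem_ball_zero_iff] at hζ
        have h1 := (hV _ _ (hin ζ hζ.le)).2.2.1
        have h2 : (trE n ((E : ℂ) + ζ * b) ((l : ℂ) + ζ * d)) ^ 2
            + (trE (n + 1) ((E : ℂ) + ζ * b) ((l : ℂ) + ζ * d)) ^ 2
            + (trE (n + 2) ((E : ℂ) + ζ * b) ((l : ℂ) + ζ * d)) ^ 2 ≠ 0 := by
          intro h0
          rw [h0, norm_zero] at h1
          have : 0 < r0 ^ 2 / 4 := by positivity
          linarith
        refine DifferentiableAt.differentiableWithinAt ?_
        have t0 := diff_trE E b l d n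
        have t1 := diff_trE E b l d (n + 1)
        have t2 := diff_trE E b l d (n + 2)
        have s0 := diff_trL E b l d n
        have s1 := diff_trL E b l d (n + 1)
        have s2 := diff_trL E b l d (n + 2)
        exact DifferentiableAt.div
          ((((s0.mul t0).add (s1.mul t1)).add (s2.mul t2)).neg ζ)
          ((((t0.pow 2).add (t1.pow 2)).add (t2.pow 2)) ζ) h2
      have hmaps : MapsTo F (Metric.ball 0 R) (Metric.closedBall (F 0) (3 / l ^ C)) := by
        intro ζ hζ
        rw [mem_ball_zero_iff] at hζ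
        rw [Metric.mem_closedBall, dist_eq_norm]
        have h1 := hFb ζ hζ.le
        have h2 := hFb 0 (by rw [norm_zero]; exact hR0.le)
        have h3 := norm_sub_le (F ζ) (F 0)
        have h4 : 0 < 1 / l ^ C := by positivity
        have h5 : 3 / l ^ C = 3 * (1 / l ^ C) := by ring
        rw [h5]
        linarith
      have hsR : (s : ℂ) ∈ Metric.ball (0 : ℂ) R := by
        rw [mem_ball_zero_iff, Complex.norm_real, Real.norm_eq_abs, abs_of_pos hss, hR,
          lt_div_iff₀ hr]
        refine lt_of_le_of_lt hs ?_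
        exact pow_lt_pow_right_of_lt_one₀ hl (by linarith) (by omega)
      have hmain := Complex.dist_le_div_mul_dist_of_mapsTo_ball hFd hmaps hsR
      have hFs : F s = ((vv n E' l' : ℝ) : ℂ) := by
        rw [hF]
        have h1 : (E : ℂ) + (s : ℂ) * b = (E' : ℂ) := by
          rw [hb, ← Complex.ofReal_mul, ← Complex.ofReal_add]
          congr 1
          field_simp
          ring
        have h2 : (l : ℂ) + (s : ℂ) * d = (l' : ℂ) := by
          rw [hd, ← Complex.ofReal_mul, ← Complex.ofReal_add]
          congr 1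
          field_simp
          ring
        simp only [h1, h2]
        exact vv_ofReal n E' l'
      have hF0 : F 0 = ((vv n E l : ℝ) : ℂ) := by
        rw [hF]
        simp only [zero_mul, add_zero]
        exact vv_ofReal n E l
      rw [hFs, hF0, dist_eq_norm, dist_eq_norm, ← Complex.ofReal_sub, Complex.norm_real, sub_zero,
        Complex.norm_real, Real.norm_eq_abs, Real.norm_eq_abs, abs_of_pos hss] at hmain
      have h6 : 3 / l ^ C / R * s = 3 * r0 * s / l ^ (2 * C) := by
        rw [hR, two_mul, pow_add]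
        field_simp
      rw [h6, le_div_iff₀ (pow_pos hl _)] at hmain
      calc l ^ (2 * C + 2) * |vv n E' l' - vv n E l|
          = l ^ 2 * (|vv n E' l' - vv n E l| * l ^ (2 * C)) := by ring
        _ ≤ l ^ 2 * (3 * r0 * s) := by gcongr
        _ = (3 * l ^ 2) * (r0 * s) := by ring
        _ ≤ 1 * (r0 * s) := by
            refine mul_le_mul_of_nonneg_right ?_ (mul_nonneg hr00 hs0)
            have : l ^ 2 ≤ (1 / 8) ^ 2 := pow_le_pow_left₀ hl.le hl8 2
            linarith
        _ = r0 * s := one_mul _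

end FIB
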