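import Pool.Agent.Helper75.FIB.Iface

/-!
# FIB block G5 : increments of v_{n'} - v_n

`v_{n'} - v_n = sum_{n <= j < n'} h_j`, `h_j = v_{j+1} - v_j`, and by `VBound` at level `j` (`Cr i` for `i <= j+1`): `|h_j(E+z)| <= l^{-C}/rho j` on `|z| <= l^C/rho j`; Cauchy: `|h_j'| <= 2 l^{-2C}` on half the disc. `|E'-E| <= l^{C'}/rho n' <= l^{C}/(2 rho j)` since `rho j <= l^{-C''} rho n'` (GrLow). So each term changes by at most
`2 l^{-2C}|E'-E|`.
-/

namespace FIB

open Real MeasureTheory Set Filter Topology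

/-- Cauchy estimate plus mean value inequality -/
theorem G5_cauchy (f : ℂ → ℂ) (R M : ℝ) (hR : 0 < R)
    (hd : ∀ z : ℂ, ‖z‖ ≤ R → DifferentiableAt ℂ f z) (hb : ∀ z : ℂ, ‖z‖ ≤ R → ‖f z‖ ≤ M)
    (z : ℂ) (hz : ‖z‖ ≤ R / 2) : ‖f z - f 0‖ ≤ 2 * M / R * ‖z‖ := by
  have hsub : ∀ w : ℂ, ‖w‖ ≤ R / 2 → Metric.closedBall w (R / 2) ⊆ Metric.closedBall 0 R := by
    intro w hw x hx
    rw [Metric.mem_closedBall, dist_eq_norm] at hx
    have : ‖x‖ ≤ ‖x - w‖ + ‖w‖ := by
      simpa using norm_add_le (x - w) w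
    rw [mem_closedBall_zero_iff]
    linarith
  have hdon : DifferentiableOn ℂ f (Metric.closedBall 0 R) :=
    fun x hx => (hd x (mem_closedBall_zero_iff.1 hx)).differentiableWithinAt
  have hder : ∀ w : ℂ, ‖w‖ ≤ R / 2 → ‖deriv f w‖ ≤ M / (R / 2) := by
    intro w hw
    refine Complex.norm_deriv_le_of_forall_mem_sphere_norm_le (by linarith)
      (hdon.diffContOnCl_ball (hsub w hw)) ?_
    intro x hx
    exact hb x (mem_closedBall_zero_iff.1 (hsub w hw (Metric.sphere_subset_closedBall hx)))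
  have key := (convex_closedBall (0 : ℂ) (R / 2)).norm_image_sub_le_of_norm_deriv_le (𝕜 := ℂ)
    (f := f) (C := M / (R / 2)) (x := 0) (y := z)
    (fun x hx => hd x (by have := mem_closedBall_zero_iff.1 hx; linarith))
    (fun x hx => hder x (mem_closedBall_zero_iff.1 hx))
    (by rw [mem_closedBall_zero_iff, norm_zero]; linarith) (mem_closedBall_zero_iff.2 hz)
  rw [sub_zero] at key
  have e : M / (R / 2) = 2 * M / R := by field_simp
  rwa [e] at key

theorem G5_diff_tr (n : ℕ) (l : ℂ) : Differentiable ℂ (fun x => tr n x l) :=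
  fun x => (hasDerivAt_tr_E n x l).differentiableAt

theorem G5_diff_trE (n : ℕ) (l : ℂ) : Differentiable ℂ (fun x => trE n x l) := by
  induction n using ind3 with
  | h0 => simp
  | h1 => simp only [trE_one]; exact differentiable_const _
  | h2 => simp only [trE_two]; exact differentiable_const _
  | h n ih0 ih1 ih2 =>
    have := (((ih2.mul (G5_diff_tr (n + 1) l)).add ((G5_diff_tr (n + 2) l).mul ih1)).const_mul
      (2 : ℂ)).sub ih0
    exact this

theorem G5_diff_trL (n : ℕ) (l : ℂ) : Differentiable ℂ (fun x => trL n x l) := by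
  induction n using ind3 with
  | h0 => simp
  | h1 => simp only [trL_one]; exact differentiable_const _
  | h2 => simp only [trL_two]; exact differentiable_const _
  | h n ih0 ih1 ih2 =>
    have := (((ih2.mul (G5_diff_tr (n + 1) l)).add ((G5_diff_tr (n + 2) l).mul ih1)).const_mul
      (2 : ℂ)).sub ih0
    exact this

theorem G5_diff_vv (n : ℕ) (x l : ℂ)
    (h : (trE n x l) ^ 2 + (trE (n + 1) x l) ^ 2 + (trE (n + 2) x l) ^ 2 ≠ 0) :
    DifferentiableAt ℂ (fun x => vv n x l) x := by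
  unfold vv
  have a0 := (G5_diff_trE n l) x
  have a1 := (G5_diff_trE (n + 1) l) x
  have a2 := (G5_diff_trE (n + 2) l) x
  have b0 := (G5_diff_trL n l) x
  have b1 := (G5_diff_trL (n + 1) l) x
  have b2 := (G5_diff_trL (n + 2) l) x
  exact ((((b0.mul a0).add (b1.mul a1)).add (b2.mul a2)).neg).div
    (((a0.pow 2).add (a1.pow 2)).add (a2.pow 2)) h

theorem G5_vv_ofReal (n : ℕ) (E l : ℝ) : vv n (E : ℂ) (l : ℂ) = ((vv n E l : ℝ) : ℂ) := by
  unfold vv
  simp only [trE_ofReal, trL_ofReal]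
  push_cast
  ring

/-- the vector `R_n` never vanishes -/
theorem G5_rho_pos (n : ℕ) (E l : ℝ) : 0 < rho n E l := by
  have key : ∀ n : ℕ, trE n E l = 0 → trE (n + 1) E l = 0 → trE (n + 2) E l = 0 → False := by
    intro n
    induction n with
    | zero =>
      intro _ h1 _
      rw [trE_one] at h1
      norm_num at h1
    | succ n ih =>
      intro h0 h1 h2
      apply ih _ h0 h1
      have := trE_add_three n E l
      rw [show n + 1 + 2 = n + 3 from rfl] at h2
      rw [show n + 1 + 1 = n + 2 from rfl] at h1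
      rw [h2, h1, h0] at this
      linarith
  by_contra hc
  push Not at hc
  have h0 : |trE n E l| ≤ 0 := le_trans (le_max_left _ _) hc
  have h1 : |trE (n + 1) E l| ≤ 0 :=
    le_trans (le_trans (le_max_left _ _) (le_max_right _ _)) hc
  have h2 : |trE (n + 2) E l| ≤ 0 :=
    le_trans (le_trans (le_max_right _ _) (le_max_right _ _)) hc
  exact key n (abs_nonpos_iff.1 h0) (abs_nonpos_iff.1 h1) (abs_nonpos_iff.1 h2)

theorem G5_rho_succ (n : ℕ) (E l : ℝ) (h1 : |tr (n + 1) E l| ≤ 2) (h2 : |tr (n + 2) E l| ≤ 2) :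
    rho (n + 1) E l ≤ 9 * rho n E l := by
  have e0 : |trE n E l| ≤ rho n E l := le_max_left _ _
  have e1 : |trE (n + 1) E l| ≤ rho n E l := le_trans (le_max_left _ _) (le_max_right _ _)
  have e2 : |trE (n + 2) E l| ≤ rho n E l := le_trans (le_max_right _ _) (le_max_right _ _)
  have hp := G5_rho_pos n E l
  have e3 : |trE (n + 3) E l| ≤ 9 * rho n E l := by
    rw [trE_add_three]
    have t1 : |trE (n + 2) E l * tr (n + 1) E l| ≤ rho n E l * 2 := by
      rw [abs_mul]; exact mul_le_mul e2 h1 (abs_nonneg _) hp.le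
    have t2 : |tr (n + 2) E l * trE (n + 1) E l| ≤ 2 * rho n E l := by
      rw [abs_mul]; exact mul_le_mul h2 e1 (abs_nonneg _) (by norm_num)
    rw [abs_le] at *
    constructor <;> linarith [t1.1, t1.2, t2.1, t2.2, e0.1, e0.2]
  unfold rho at *
  rw [show n + 1 + 1 = n + 2 from rfl, show n + 1 + 2 = n + 3 from rfl]
  refine max_le (by linarith) (max_le (by linarith) e3)

/-- one step -/
theorem G5_step (h : VBound) (hG : GrLow) : ∃ C : ℕ, ∀ (j n' : ℕ) (E E' l : ℝ), 0 < l →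
    l ≤ 1 / 8 → j + 1 ≤ n' → (∀ i ≤ n' + 1, Cr i E l) → |E' - E| * rho n' E l ≤ l ^ C →
    l ^ C * |(vv (j + 1) E' l - vv j E' l) - (vv (j + 1) E l - vv j E l)| ≤ |E' - E| := by
  obtain ⟨C1, h1⟩ := h
  obtain ⟨C2, h2⟩ := hG
  refine ⟨2 * C1 + 2 * C2 + 3, ?_⟩
  intro j n' E E' l hl hl8 hj hC hE
  have hρ0 := G5_rho_pos j E l
  have hρ1 := G5_rho_pos (j + 1) E l
  have hρn := G5_rho_pos n' E l
  have hl1 : l ≤ 1 := by linarith
  have hOk : Okl l l := ⟨hl, hl8, hl, by linarith⟩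
  have hph : (1 : ℝ) ≤ ph := by
    unfold ph
    have : (1 : ℝ) ≤ √5 := by
      rw [Real.one_le_sqrt]; norm_num
    linarith
  have gr : ∀ a b : ℕ, a ≤ b → b ≤ n' + 1 → l ^ C2 * rho a E l ≤ rho b E l := by
    intro a b hab hb
    have := h2 a b E l l hOk hab (Or.inl ⟨rfl, hC a (by omega)⟩) (Or.inl ⟨rfl, hC b hb⟩)
    have hp : (1 : ℝ) ≤ ph ^ (b - a) := one_le_pow₀ hph
    have hpos : 0 ≤ l ^ C2 * rho a E l := by
      have := G5_rho_pos a E l
      positivity
    calc l ^ C2 * rho a E l = l ^ C2 * rho a E l * 1 := by ring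
      _ ≤ l ^ C2 * rho a E l * ph ^ (b - a) := mul_le_mul_of_nonneg_left hp hpos
      _ = l ^ C2 * ph ^ (b - a) * rho a E l := by ring
      _ ≤ rho b E l := this
  have g01 := gr j (j + 1) (by omega) (by omega)
  have g1n := gr (j + 1) n' hj (by omega)
  have g10 : rho (j + 1) E l ≤ 9 * rho j E l := by
    have hc := hC j (by omega)
    exact G5_rho_succ j E l (hc.1 (j + 1) (by omega) (by omega)) (hc.1 (j + 2) (by omega) (by omega))
  -- radius
  set R : ℝ := l ^ (C1 + C2) / rho (j + 1) E l with hRdef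
  have hR : 0 < R := by positivity
  have hRρ : R * rho (j + 1) E l = l ^ (C1 + C2) := by
    rw [hRdef]; field_simp
  have hpow1 : l ^ (C1 + C2) ≤ l ^ C1 := pow_le_pow_of_le_one hl.le hl1 (by omega)
  have hd1 : ∀ z : ℂ, ‖z‖ ≤ R → (‖z‖ + ‖(0 : ℂ)‖) * rho (j + 1) E l ≤ l ^ C1 := by
    intro z hz
    rw [norm_zero, add_zero]
    calc ‖z‖ * rho (j + 1) E l ≤ R * rho (j + 1) E l := mul_le_mul_of_nonneg_right hz hρ1.le
      _ = l ^ (C1 + C2) := hRρ
      _ ≤ l ^ C1 := hpow1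
  have hd0 : ∀ z : ℂ, ‖z‖ ≤ R → (‖z‖ + ‖(0 : ℂ)‖) * rho j E l ≤ l ^ C1 := by
    intro z hz
    rw [norm_zero, add_zero]
    have hlC2 : 0 < l ^ C2 := by positivity
    have : l ^ C2 * (‖z‖ * rho j E l) ≤ l ^ C2 * l ^ C1 := by
      calc l ^ C2 * (‖z‖ * rho j E l) = ‖z‖ * (l ^ C2 * rho j E l) := by ring
        _ ≤ ‖z‖ * rho (j + 1) E l := mul_le_mul_of_nonneg_left g01 (norm_nonneg _)
        _ ≤ R * rho (j + 1) E l := mul_le_mul_of_nonneg_right hz hρ1.le
        _ = l ^ (C1 + C2) := hRρ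
        _ = l ^ C2 * l ^ C1 := by rw [pow_add]; ring
    exact le_of_mul_le_mul_left this hlC2
  have V0 := fun (z : ℂ) (hz : ‖z‖ ≤ R) =>
    h1 j E l hl hl8 (fun i hi => hC i (by omega)) z 0 (hd0 z hz)
  have V1 := fun (z : ℂ) (hz : ‖z‖ ≤ R) =>
    h1 (j + 1) E l hl hl8 (fun i hi => hC i (by omega)) z 0 (hd1 z hz)
  simp only [add_zero] at V0 V1
  set f : ℂ → ℂ := fun z => vv (j + 1) ((E : ℂ) + z) (l : ℂ) - vv j ((E : ℂ) + z) (l : ℂ) with hf
  have hdiff : ∀ z : ℂ, ‖z‖ ≤ R → DifferentiableAt ℂ f z := by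
    intro z hz
    have n0 : (trE j ((E : ℂ) + z) (l : ℂ)) ^ 2 + (trE (j + 1) ((E : ℂ) + z) (l : ℂ)) ^ 2 +
        (trE (j + 2) ((E : ℂ) + z) (l : ℂ)) ^ 2 ≠ 0 := by
      intro h0
      have := (V0 z hz).2.2.1
      rw [h0, norm_zero] at this
      nlinarith [hρ0]
    have n1 : (trE (j + 1) ((E : ℂ) + z) (l : ℂ)) ^ 2 +
        (trE (j + 1 + 1) ((E : ℂ) + z) (l : ℂ)) ^ 2 +
        (trE (j + 1 + 2) ((E : ℂ) + z) (l : ℂ)) ^ 2 ≠ 0 := by
      intro h0
      have := (V1 z hz).2.2.1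
      rw [h0, norm_zero] at this
      nlinarith [hρ1]
    have d1 := G5_diff_vv (j + 1) ((E : ℂ) + z) (l : ℂ) n1
    have d0 := G5_diff_vv j ((E : ℂ) + z) (l : ℂ) n0
    have ad : DifferentiableAt ℂ (fun z : ℂ => (E : ℂ) + z) z :=
      (differentiableAt_const _).add differentiableAt_id
    exact (DifferentiableAt.comp z d1 ad).sub (DifferentiableAt.comp z d0 ad)
  have hlC1 : 0 < l ^ C1 := by positivity
  have hbd : ∀ z : ℂ, ‖z‖ ≤ R → ‖f z‖ ≤ 1 / (l ^ C1 * rho j E l) := by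
    intro z hz
    rw [le_div_iff₀ (by positivity)]
    have := (V0 z hz).2.1
    calc ‖f z‖ * (l ^ C1 * rho j E l) = l ^ C1 * rho j E l * ‖f z‖ := by ring
      _ ≤ 1 := this
  -- the real point
  have hz : ‖((E' - E : ℝ) : ℂ)‖ ≤ R / 2 := by
    rw [Complex.norm_real, Real.norm_eq_abs]
    have hlC2 : 0 < l ^ C2 := by positivity
    have a1 : |E' - E| * rho (j + 1) E l * l ^ C2 ≤ l ^ (2 * C1 + 2 * C2 + 3) := by
      calc |E' - E| * rho (j + 1) E l * l ^ C2 = |E' - E| * (l ^ C2 * rho (j + 1) E l) := by ring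
        _ ≤ |E' - E| * rho n' E l := mul_le_mul_of_nonneg_left g1n (abs_nonneg _)
        _ ≤ _ := hE
    have a2 : l ^ (2 * C1 + 2 * C2 + 3) ≤ l ^ (C1 + C2) / 2 * l ^ C2 := by
      have : l ^ (2 * C1 + 2 * C2 + 3) = l ^ (C1 + C2) * l ^ C2 * l ^ (C1 + 3) := by
        rw [← pow_add, ← pow_add]; congr 1; ring
      rw [this]
      have b : l ^ (C1 + 3) ≤ 1 / 2 := by
        calc l ^ (C1 + 3) ≤ l ^ 1 := pow_le_pow_of_le_one hl.le hl1 (by omega)
          _ = l := pow_one l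
          _ ≤ 1 / 2 := by linarith
      have c : 0 ≤ l ^ (C1 + C2) * l ^ C2 := by positivity
      nlinarith
    have a3 : |E' - E| * rho (j + 1) E l ≤ l ^ (C1 + C2) / 2 := by
      have := le_trans a1 a2
      exact le_of_mul_le_mul_right this hlC2
    have a4 : |E' - E| * rho (j + 1) E l ≤ R / 2 * rho (j + 1) E l := by
      calc |E' - E| * rho (j + 1) E l ≤ l ^ (C1 + C2) / 2 := a3
        _ = R / 2 * rho (j + 1) E l := by rw [← hRρ]; ring
    exact le_of_mul_le_mul_right a4 hρ1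
  have key := G5_cauchy f R _ hR hdiff hbd _ hz
  have ef : f ((E' - E : ℝ) : ℂ) - f 0 =
      (((vv (j + 1) E' l - vv j E' l) - (vv (j + 1) E l - vv j E l) : ℝ) : ℂ) := by
    have e1 : (E : ℂ) + ((E' - E : ℝ) : ℂ) = (E' : ℂ) := by push_cast; ring
    simp only [hf, e1, add_zero, G5_vv_ofReal]
    push_cast
    ring
  rw [ef, Complex.norm_real, Complex.norm_real, Real.norm_eq_abs, Real.norm_eq_abs] at key
  -- constants
  have hc : 2 * (1 / (l ^ C1 * rho j E l)) / R * l ^ (2 * C1 + 2 * C2 + 3) ≤ 1 := by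
    have e : 2 * (1 / (l ^ C1 * rho j E l)) / R
        = 2 * rho (j + 1) E l / (l ^ C1 * rho j E l * l ^ (C1 + C2)) := by
      rw [hRdef]; field_simp
    rw [e, div_mul_eq_mul_div, div_le_one (by positivity)]
    have e2 : l ^ (2 * C1 + 2 * C2 + 3) = l ^ C1 * l ^ (C1 + C2) * l ^ (C2 + 3) := by
      rw [← pow_add, ← pow_add]; congr 1; ring
    rw [e2]
    have b : l ^ (C2 + 3) ≤ 1 / 18 := by
      calc l ^ (C2 + 3) ≤ l ^ 3 := pow_le_pow_of_le_one hl.le hl1 (by omega)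
        _ ≤ (1 / 8) ^ 3 := pow_le_pow_left₀ hl.le hl8 3
        _ ≤ 1 / 18 := by norm_num
    have c : 0 ≤ l ^ C1 * l ^ (C1 + C2) := by positivity
    have d : rho (j + 1) E l * l ^ (C2 + 3) ≤ rho j E l / 2 := by
      calc rho (j + 1) E l * l ^ (C2 + 3) ≤ (9 * rho j E l) * (1 / 18) :=
            mul_le_mul g10 b (by positivity) (by positivity)
        _ = rho j E l / 2 := by ring
    calc 2 * rho (j + 1) E l * (l ^ C1 * l ^ (C1 + C2) * l ^ (C2 + 3))
        = 2 * (l ^ C1 * l ^ (C1 + C2)) * (rho (j + 1) E l * l ^ (C2 + 3)) := by ring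
      _ ≤ 2 * (l ^ C1 * l ^ (C1 + C2)) * (rho j E l / 2) :=
          mul_le_mul_of_nonneg_left d (by positivity)
      _ = l ^ C1 * rho j E l * l ^ (C1 + C2) := by ring
  have hlC : 0 < l ^ (2 * C1 + 2 * C2 + 3) := by positivity
  calc l ^ (2 * C1 + 2 * C2 + 3) *
        |(vv (j + 1) E' l - vv j E' l) - (vv (j + 1) E l - vv j E l)|
      ≤ l ^ (2 * C1 + 2 * C2 + 3) * (2 * (1 / (l ^ C1 * rho j E l)) / R * |E' - E|) :=
        mul_le_mul_of_nonneg_left key hlC.le
    _ = (2 * (1 / (l ^ C1 * rho j E l)) / R * l ^ (2 * C1 + 2 * C2 + 3)) * |E' - E| := by ring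
    _ ≤ 1 * |E' - E| := mul_le_mul_of_nonneg_right hc (abs_nonneg _)
    _ = |E' - E| := one_mul _

theorem vCell (h : VBound) (hG : GrLow) : VCell := by
  obtain ⟨C, hC⟩ := G5_step h hG
  refine ⟨C, ?_⟩
  intro n n' E E' l hl hl8 hn hCr hE
  have key : ∀ m : ℕ, n ≤ m → m ≤ n' →
      l ^ C * |(vv m E' l - vv n E' l) - (vv m E l - vv n E l)| ≤ ((m - n : ℕ) : ℝ) * |E' - E| := by
    intro m hm
    induction m, hm using Nat.le_induction with
    | base =>
      intro _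
      simp
    | succ m hm ih =>
      intro hm'
      have i1 := ih (by omega)
      have i2 := hC m n' E E' l hl hl8 (by omega) hCr hE
      have hlC : 0 < l ^ C := by positivity
      have e : (vv (m + 1) E' l - vv n E' l) - (vv (m + 1) E l - vv n E l)
          = ((vv m E' l - vv n E' l) - (vv m E l - vv n E l)) +
            ((vv (m + 1) E' l - vv m E' l) - (vv (m + 1) E l - vv m E l)) := by ring
      have c : ((m + 1 - n : ℕ) : ℝ) = ((m - n : ℕ) : ℝ) + 1 := by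
        rw [show m + 1 - n = (m - n) + 1 by omega]; push_cast; ring
      rw [e, c]
      calc l ^ C * |((vv m E' l - vv n E' l) - (vv m E l - vv n E l)) +
              ((vv (m + 1) E' l - vv m E' l) - (vv (m + 1) E l - vv m E l))|
          ≤ l ^ C * (|(vv m E' l - vv n E' l) - (vv m E l - vv n E l)| +
              |(vv (m + 1) E' l - vv m E' l) - (vv (m + 1) E l - vv m E l)|) :=
            mul_le_mul_of_nonneg_left (abs_add_le _ _) hlC.le
        _ ≤ (((m - n : ℕ) : ℝ) + 1) * |E' - E| := by nlinarith [i1, i2]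
  exact key n' hn le_rfl

end FIB
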