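import Pool.Agent.Helper75.FIB.Iface

/-!
# FIB block G6 : uniform Hölder bound for the velocities

`l0` small, `l1 < l0`, `l, l' ∈ [l1,2l1]`, `t ∈ Rg K`, `δ = |l-l'|`; `E = EK K l t`, `E' = EK K l' t`. `|E'-E| <= δ` (derivative in `[0,1]`, QuantileProps, mean value theorem; `[l1,2l1] ⊂ (0,1/8)`). Both points are spectral: `|tr K E l| < 1` (Th K = π F_K t, cos, ThProps or QuantileProps).
Constants may depend on `l1` now; write `c, C` for such constants. rho_n(E,l): `rho_0 = 1/2`, `rho_{n+1} <= 9 rho_n`, `rho_n >= c φ^n`. If `δ >= c0` there is nothing to prove (`|V - V'| <= 1`).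
Let `c1 = l1^{C}` small, and take the largest `n <= K - 8` with `rho n E l * δ <= c1 δ^{1/2}`, i.e. `rho n <= c1 δ^{-1/2}`.
(a) `n < K-8`: then `rho (n+1) > c1 δ^{-1/2}`, `rho n >= c1 δ^{-1/2}/9`; FBound at `(E,l)`: `|V - v_n(E,l)| <= C/rho n <= C' δ^{1/2}`; VLip: `2δ rho n <= 2 c1 δ^{1/2} <= l^C`: `|v_n(E',l') - v_n(E,l)| <= C rho n 2δ <= C δ^{1/2}`; and `rho n (E',l') >= rho n(E,l)/2` so FBound at `(E',l')` gives `|V' - v_n(E',l')| <= C δ^{1/2}`.
(b) `n = K - 8`: `rho (K-8) <= c1 δ^{-1/2}`. Now `V = Vx K E l` itself is Lipschitz: on the complex polydisc `|z|+|w| <= c/rho(K-8)` around `(E,l)`: `trE K, trL K` are bounded by `C rho(K-8)` (SLall at `n = K-8`, Cauchy) and `|trE K| >= c rho(K-8)` at the centre (DetRho last item with `n = K-8`, `m = K`, `|tr K| < 1`), so by Cauchy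
`|trE K| >= (c/2) rho` on a smaller polydisc, `V` bounded and `|V' - V| <= C rho(K-8) 2 δ <= C δ^{1/2}` (`rho δ <= c1 δ^{1/2}`).
-/

namespace FIB

open Real MeasureTheory Set Filter Topology

/-- points `EK K l t` with regular `t` are spectral -/
lemma g6_spec (hQ : QuantileProps) (hT : ThProps) (K : ℕ) (hK : 1 ≤ K) (l : ℝ) (hl : 0 < l)
    (hl8 : l ≤ 1 / 8) (t : ℝ) (ht : t ∈ Rg K) : |tr K (EK K l t) l| < 1 := by
  obtain ⟨t0, t1, tn⟩ := ht
  have h1 := (hQ K hK).2.1 l hl hl8 t ⟨t0, t1⟩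
  have h2 := (hT l hl hl8 K).2.2.1 (EK K l t)
  rw [h1] at h2
  have hs : Real.sin (π * Nat.fib K * t) ≠ 0 := by
    intro h
    rw [Real.sin_eq_zero_iff] at h
    obtain ⟨j, hj⟩ := h
    refine tn j ?_
    have : π * (j - Nat.fib K * t) = 0 := by linarith
    rcases mul_eq_zero.1 this with h | h
    · exact absurd h Real.pi_ne_zero
    · linarith
  have hc : Real.cos (π * Nat.fib K * t) ^ 2 < 1 := by
    have := Real.sin_sq_add_cos_sq (π * Nat.fib K * t)
    have h3 : 0 < Real.sin (π * Nat.fib K * t) ^ 2 := by positivity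
    linarith
  rw [h2] at hc
  have hc' : |clip (tr K (EK K l t) l)| < 1 := by
    have : |clip (tr K (EK K l t) l)| ^ 2 < 1 ^ 2 := by
      rw [sq_abs]
      linarith
    exact lt_of_pow_lt_pow_left₀ 2 zero_le_one this
  rw [abs_lt] at hc' ⊢
  unfold clip at hc'
  constructor
  · by_contra h
    have h' := not_lt.1 h
    have : min 1 (tr K (EK K l t) l) ≤ -1 := le_trans (min_le_right _ _) h'
    rw [max_eq_left this] at hc'
    linarith [hc'.1]
  · by_contra h
    have h' := not_lt.1 h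
    rw [min_eq_left h'] at hc'
    have : (1 : ℝ) ≤ max (-1) 1 := le_max_right _ _
    linarith [hc'.2]

/-- the quantiles are Lipschitz in the coupling -/
lemma g6_lip (hQ : QuantileProps) (K : ℕ) (hK : 1 ≤ K) (l1 : ℝ) (h0 : 0 < l1) (h1 : l1 < 1 / 16)
    (t : ℝ) (ht : t ∈ Rg K) (l l' : ℝ) (hl : l ∈ Icc l1 (2 * l1)) (hl' : l' ∈ Icc l1 (2 * l1)) :
    |EK K l' t - EK K l t| ≤ |l' - l| := by
  have key := (convex_Icc l1 (2 * l1)).norm_image_sub_le_of_norm_hasDerivWithin_le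
    (f := fun l => EK K l t) (f' := fun l => VK K l t) (C := 1) (x := l) (y := l')
    (fun x hx => ((hQ K hK).2.2.1 x (by linarith [hx.1]) (by linarith [hx.2]) t ht).hasDerivWithinAt)
    (fun x hx => by
      have := (hQ K hK).2.2.2.1 x (by linarith [hx.1]) (by linarith [hx.2]) t ht
      rw [Real.norm_eq_abs, abs_le]
      constructor <;> linarith [this.1, this.2]) hl hl'
  rw [Real.norm_eq_abs, Real.norm_eq_abs, one_mul] at key
  exact key

lemma g6_diff (x y : ℂ → ℂ) (hx : Differentiable ℂ x) (hy : Differentiable ℂ y) (n : ℕ) :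
    Differentiable ℂ (fun ζ => tr n (x ζ) (y ζ)) := by
  induction n using ind3 with
  | h0 => exact differentiable_const 1
  | h1 => exact hx.div_const 2
  | h2 => exact (hx.sub hy).div_const 2
  | h n ih0 ih1 ih2 => exact ((ih2.const_mul 2).mul ih1).sub ih0

lemma g6_diffE (x y : ℂ → ℂ) (hx : Differentiable ℂ x) (hy : Differentiable ℂ y) (n : ℕ) :
    Differentiable ℂ (fun ζ => trE n (x ζ) (y ζ)) := by
  induction n using ind3 with
  | h0 => exact differentiable_const 0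
  | h1 => exact differentiable_const _
  | h2 => exact differentiable_const _
  | h n ih0 ih1 ih2 =>
    exact (((ih2.mul (g6_diff x y hx hy (n + 1))).add
      ((g6_diff x y hx hy (n + 2)).mul ih1)).const_mul 2).sub ih0

lemma g6_diffL (x y : ℂ → ℂ) (hx : Differentiable ℂ x) (hy : Differentiable ℂ y) (n : ℕ) :
    Differentiable ℂ (fun ζ => trL n (x ζ) (y ζ)) := by
  induction n using ind3 with
  | h0 => exact differentiable_const 0
  | h1 => exact differentiable_const _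
  | h2 => exact differentiable_const _
  | h n ih0 ih1 ih2 =>
    exact (((ih2.mul (g6_diff x y hx hy (n + 1))).add
      ((g6_diff x y hx hy (n + 2)).mul ih1)).const_mul 2).sub ih0

/-- Cauchy estimate along complex lines -/
lemma g6_line (G : ℂ → ℂ → ℂ)
    (hG : ∀ x y : ℂ → ℂ, Differentiable ℂ x → Differentiable ℂ y →
      Differentiable ℂ (fun ζ => G (x ζ) (y ζ))) (E l r : ℝ) (hr : 0 < r)
    (hb : ∀ z w : ℂ, ‖z‖ + ‖w‖ ≤ 3 * r / 4 → ‖G ((E : ℂ) + z) ((l : ℂ) + w)‖ ≤ 4 / r)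
    (E' l' : ℝ) (hs : |E' - E| + |l' - l| < 3 * r / 4) :
    ‖G (E' : ℂ) (l' : ℂ) - G (E : ℂ) (l : ℂ)‖ ≤ 12 * (|E' - E| + |l' - l|) / r ^ 2 := by
  set s := |E' - E| + |l' - l| with hsdef
  have hs0 : 0 ≤ s := by positivity
  rcases hs0.eq_or_lt with h0 | hpos
  · have e1 : E' = E := by
      have : |E' - E| = 0 := le_antisymm (by linarith [abs_nonneg (l' - l)]) (abs_nonneg _)
      linarith [abs_eq_zero.1 this]
    have e2 : l' = l := by
      have : |l' - l| = 0 := le_antisymm (by linarith [abs_nonneg (E' - E)]) (abs_nonneg _)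
      linarith [abs_eq_zero.1 this]
    rw [e1, e2, sub_self, norm_zero]
    positivity
  · have hd := hG (fun ζ => (E : ℂ) + ζ * (((E' - E) / s : ℝ) : ℂ))
      (fun ζ => (l : ℂ) + ζ * (((l' - l) / s : ℝ) : ℂ))
      ((differentiable_id.mul_const _).const_add _) ((differentiable_id.mul_const _).const_add _)
    have hF : ∀ ζ : ℂ, ‖ζ‖ ≤ 3 * r / 4 → ‖G ((E : ℂ) + ζ * (((E' - E) / s : ℝ) : ℂ))
        ((l : ℂ) + ζ * (((l' - l) / s : ℝ) : ℂ))‖ ≤ 4 / r := by
      intro ζ hζ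
      apply hb
      rw [norm_mul, norm_mul, Complex.norm_real, Complex.norm_real, Real.norm_eq_abs,
        Real.norm_eq_abs, abs_div, abs_div, abs_of_pos hpos, ← mul_add, ← add_div, ← hsdef,
        div_self hpos.ne', mul_one]
      exact hζ
    have key := Complex.dist_le_div_mul_dist_of_mapsTo_ball (c := 0) (R₁ := 3 * r / 4)
      (R₂ := 9 / r) (z := (s : ℂ)) hd.differentiableOn (by
        intro ζ hζ
        rw [mem_ball_zero_iff] at hζ
        rw [mem_closedBall_iff_norm]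
        have a1 := hF ζ hζ.le
        have a2 := hF 0 (by rw [norm_zero]; positivity)
        have a3 : (4 : ℝ) / r + 4 / r < 9 / r := by
          rw [← add_div]
          exact div_lt_div_of_pos_right (by norm_num) hr
        exact le_trans (norm_sub_le _ _) (by linarith)) (by
        rw [mem_ball_zero_iff, Complex.norm_real, Real.norm_eq_abs, abs_of_pos hpos]
        exact hs)
    rw [dist_eq_norm, dist_eq_norm, sub_zero, Complex.norm_real, Real.norm_eq_abs,
      abs_of_pos hpos, zero_mul, zero_mul, add_zero, add_zero] at key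
    have e1 : (E : ℂ) + (s : ℂ) * (((E' - E) / s : ℝ) : ℂ) = (E' : ℂ) := by
      rw [← Complex.ofReal_mul, ← Complex.ofReal_add]
      congr 1
      field_simp
      ring
    have e2 : (l : ℂ) + (s : ℂ) * (((l' - l) / s : ℝ) : ℂ) = (l' : ℂ) := by
      rw [← Complex.ofReal_mul, ← Complex.ofReal_add]
      congr 1
      field_simp
      ring
    rw [e1, e2] at key
    refine le_trans key (le_of_eq ?_)
    field_simp
    ring

lemma g6_cauchy (K : ℕ) (E l r : ℝ) (hr : 0 < r)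
    (hb : ∀ z w : ℂ, ‖z‖ + ‖w‖ ≤ r →
      ‖tr K ((E : ℂ) + z) ((l : ℂ) + w) - ((tr K E l : ℝ) : ℂ)‖ ≤ 1)
    (E' l' : ℝ) (hs : |E' - E| + |l' - l| < 3 * r / 4) :
    |trE K E' l' - trE K E l| ≤ 12 * (|E' - E| + |l' - l|) / r ^ 2 ∧
    |trL K E' l' - trL K E l| ≤ 12 * (|E' - E| + |l' - l|) / r ^ 2 := by
  constructor
  · have h := g6_line (trE K) (fun x y hx hy => g6_diffE x y hx hy K) E l r hr (by
      intro z w hzw
      have h1 := Complex.norm_deriv_le_of_forall_mem_sphere_norm_le (c := (E : ℂ) + z)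
        (R := r / 4) (C := 1)
        (f := fun x => tr K x ((l : ℂ) + w) - ((tr K E l : ℝ) : ℂ)) (by positivity)
        (((g6_diff id (fun _ => (l : ℂ) + w) differentiable_id (differentiable_const _)
          K).sub_const _).diffContOnCl)
        (fun x hx => by
          rw [mem_sphere_iff_norm] at hx
          have h2 := hb (x - E) w (by
            have : x - (E : ℂ) = (x - ((E : ℂ) + z)) + z := by ring
            rw [this]
            have := norm_add_le (x - ((E : ℂ) + z)) z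
            linarith)
          rwa [add_sub_cancel] at h2)
      rw [((hasDerivAt_tr_E K ((E : ℂ) + z) ((l : ℂ) + w)).sub_const _).deriv] at h1
      refine le_trans h1 (le_of_eq ?_)
      field_simp) E' l' hs
    rwa [trE_ofReal, trE_ofReal, ← Complex.ofReal_sub, Complex.norm_real, Real.norm_eq_abs] at h
  · have h := g6_line (trL K) (fun x y hx hy => g6_diffL x y hx hy K) E l r hr (by
      intro z w hzw
      have h1 := Complex.norm_deriv_le_of_forall_mem_sphere_norm_le (c := (l : ℂ) + w)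
        (R := r / 4) (C := 1)
        (f := fun y => tr K ((E : ℂ) + z) y - ((tr K E l : ℝ) : ℂ)) (by positivity)
        (((g6_diff (fun _ => (E : ℂ) + z) id (differentiable_const _) differentiable_id
          K).sub_const _).diffContOnCl)
        (fun y hy => by
          rw [mem_sphere_iff_norm] at hy
          have h2 := hb z (y - l) (by
            have : y - (l : ℂ) = (y - ((l : ℂ) + w)) + w := by ring
            rw [this]
            have := norm_add_le (y - ((l : ℂ) + w)) w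
            linarith)
          rwa [add_sub_cancel] at h2)
      rw [((hasDerivAt_tr_L K ((E : ℂ) + z) ((l : ℂ) + w)).sub_const _).deriv] at h1
      refine le_trans h1 (le_of_eq ?_)
      field_simp) E' l' hs
    rwa [trL_ofReal, trL_ofReal, ← Complex.ofReal_sub, Complex.norm_real, Real.norm_eq_abs] at h

/-- difference of two quotients -/
lemma g6_quot (a b a' b' D m : ℝ) (hm : 0 < m) (hb : m ≤ |b|) (hb' : b' ≠ 0)
    (hV : |-a' / b'| ≤ 1) (h1 : |a' - a| ≤ D) (h2 : |b' - b| ≤ D) :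
    |-a / b - -a' / b'| ≤ 2 * D / m := by
  have hb0 : b ≠ 0 := by
    intro h
    rw [h, abs_zero] at hb
    linarith
  have e : -a / b - -a' / b' = ((a' - a) - (-a' / b') * (b - b')) / b := by
    field_simp
    ring
  have hD : 0 ≤ D := le_trans (abs_nonneg _) h1
  rw [e, abs_div]
  have h3 : |(a' - a) - (-a' / b') * (b - b')| ≤ 2 * D := by
    refine le_trans (abs_sub _ _) ?_
    rw [abs_mul, abs_sub_comm b b']
    have := mul_le_mul hV h2 (abs_nonneg _) zero_le_one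
    linarith
  rw [div_le_div_iff₀ (lt_of_lt_of_le hm hb) hm]
  have := mul_le_mul h3 hb hm.le (by linarith)
  linarith

/-- case (a) -/
lemma g6_caseA (n K : ℕ) (E l E' l' q c1 l1 : ℝ) (CF CV : ℕ)
    (hF : ∀ (n K : ℕ) (E l : ℝ), 0 < l → l ≤ 1 / 8 → Spc K n E l →
      l ^ CF * rho n E l * |Vx K E l - vv n E l| ≤ 1)
    (hL : ∀ (n : ℕ) (E l E' l' : ℝ), 0 < l → l ≤ 1 / 8 → 0 < l' →
      (∀ j ≤ n + 1, Cr j E l) → (|E' - E| + |l' - l|) * rho n E l ≤ l ^ CV →
      l ^ CV * |vv n E' l' - vv n E l| ≤ rho n E l * (|E' - E| + |l' - l|) ∧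
      rho n E l ≤ 2 * rho n E' l' ∧ rho n E' l' ≤ 2 * rho n E l)
    (h1 : 0 < l1) (hl : l1 ≤ l) (hl8 : l ≤ 1 / 8) (hl' : l1 ≤ l') (hl8' : l' ≤ 1 / 8)
    (hs : Spc K n E l) (hs' : Spc K n E' l') (hC : ∀ j ≤ n + 1, Cr j E l)
    (hE : |E' - E| ≤ |l' - l|) (hq : 0 < q) (hq1 : q ≤ 1) (hq2 : |l' - l| = q ^ 2) (hc : 0 < c1)
    (hc1 : 2 * c1 ≤ l1 ^ CV) (hr1 : rho n E l * q ≤ c1) (hr2 : c1 ≤ 9 * (rho n E l * q)) :
    |Vx K E l - Vx K E' l'| ≤ (27 / (l1 ^ CF * c1) + 2 * c1 / l1 ^ CV) * q := by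
  have hl0 : 0 < l := lt_of_lt_of_le h1 hl
  have hl0' : 0 < l' := lt_of_lt_of_le h1 hl'
  have hρ : 0 < rho n E l := by
    by_contra h
    have := mul_nonpos_of_nonpos_of_nonneg (not_lt.1 h) hq.le
    linarith
  have hpF : l1 ^ CF ≤ l ^ CF := pow_le_pow_left₀ h1.le hl _
  have hpF' : l1 ^ CF ≤ l' ^ CF := pow_le_pow_left₀ h1.le hl' _
  have hpV : l1 ^ CV ≤ l ^ CV := pow_le_pow_left₀ h1.le hl _
  have hF0 : 0 < l1 ^ CF := by positivity
  have hV0 : 0 < l1 ^ CV := by positivity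
  have hs2 : |E' - E| + |l' - l| ≤ 2 * q ^ 2 := by linarith
  have hsρ : (|E' - E| + |l' - l|) * rho n E l ≤ 2 * c1 * q := by
    calc (|E' - E| + |l' - l|) * rho n E l ≤ 2 * q ^ 2 * rho n E l :=
          mul_le_mul_of_nonneg_right hs2 hρ.le
      _ = 2 * q * (rho n E l * q) := by ring
      _ ≤ 2 * q * c1 := mul_le_mul_of_nonneg_left hr1 (by positivity)
      _ = 2 * c1 * q := by ring
  obtain ⟨a1, a2, -⟩ := hL n E l E' l' hl0 hl8 hl0' hC (by
    refine le_trans hsρ ?_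
    have : 2 * c1 * q ≤ 2 * c1 * 1 := mul_le_mul_of_nonneg_left hq1 (by positivity)
    linarith)
  have b1 := hF n K E l hl0 hl8 hs
  have b2 := hF n K E' l' hl0' hl8' hs'
  -- first difference
  have d1 : |Vx K E l - vv n E l| ≤ 9 / (l1 ^ CF * c1) * q := by
    rw [div_mul_eq_mul_div, le_div_iff₀ (by positivity)]
    have : l1 ^ CF * c1 * |Vx K E l - vv n E l| ≤
        l ^ CF * (9 * (rho n E l * q)) * |Vx K E l - vv n E l| := by
      apply mul_le_mul_of_nonneg_right _ (abs_nonneg _)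
      exact mul_le_mul hpF hr2 hc.le (by positivity)
    have e : l ^ CF * (9 * (rho n E l * q)) * |Vx K E l - vv n E l| =
        9 * q * (l ^ CF * rho n E l * |Vx K E l - vv n E l|) := by ring
    have := mul_le_mul_of_nonneg_left b1 (by positivity : (0 : ℝ) ≤ 9 * q)
    linarith
  have d2 : |Vx K E' l' - vv n E' l'| ≤ 18 / (l1 ^ CF * c1) * q := by
    rw [div_mul_eq_mul_div, le_div_iff₀ (by positivity)]
    have hr3 : c1 ≤ 18 * (rho n E' l' * q) := by
      have := mul_le_mul_of_nonneg_right a2 hq.le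
      linarith
    have : l1 ^ CF * c1 * |Vx K E' l' - vv n E' l'| ≤
        l' ^ CF * (18 * (rho n E' l' * q)) * |Vx K E' l' - vv n E' l'| := by
      apply mul_le_mul_of_nonneg_right _ (abs_nonneg _)
      exact mul_le_mul hpF' hr3 hc.le (by positivity)
    have e : l' ^ CF * (18 * (rho n E' l' * q)) * |Vx K E' l' - vv n E' l'| =
        18 * q * (l' ^ CF * rho n E' l' * |Vx K E' l' - vv n E' l'|) := by ring
    have := mul_le_mul_of_nonneg_left b2 (by positivity : (0 : ℝ) ≤ 18 * q)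
    linarith
  have d3 : |vv n E' l' - vv n E l| ≤ 2 * c1 / l1 ^ CV * q := by
    rw [div_mul_eq_mul_div, le_div_iff₀ hV0]
    have : l1 ^ CV * |vv n E' l' - vv n E l| ≤ l ^ CV * |vv n E' l' - vv n E l| :=
      mul_le_mul_of_nonneg_right hpV (abs_nonneg _)
    linarith
  have e : Vx K E l - Vx K E' l' = (Vx K E l - vv n E l) - (Vx K E' l' - vv n E' l') -
      (vv n E' l' - vv n E l) := by ring
  have h27 : 27 / (l1 ^ CF * c1) * q = 9 / (l1 ^ CF * c1) * q + 18 / (l1 ^ CF * c1) * q := by ring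
  rw [e, add_mul, h27]
  refine le_trans (abs_sub _ _) ?_
  have := abs_sub (Vx K E l - vv n E l) (Vx K E' l' - vv n E' l')
  linarith

/-- case (b) -/
lemma g6_caseB (n K : ℕ) (E l E' l' q c1 l1 : ℝ) (CS CD : ℕ) (hK : K = n + 8)
    (hS : ∀ z w : ℂ, (‖z‖ + ‖w‖) * rho n E l ≤ l ^ CS → ∀ j, j ≤ n + 8 →
      l ^ CS * ‖tr j ((E : ℂ) + z) ((l : ℂ) + w) - ((tr j E l : ℝ) : ℂ)‖
        ≤ (‖z‖ + ‖w‖) * rho n E l)
    (hD : l ^ CD * rho n E l ≤ |trE K E l|) (hρ : 0 < rho n E l)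
    (h1 : 0 < l1) (hl : l1 ≤ l)
    (hV : |Vx K E' l'| ≤ 1) (hb' : trE K E' l' ≠ 0)
    (hE : |E' - E| ≤ |l' - l|) (hq : 0 < q) (hq1 : q ≤ 1) (hq2 : |l' - l| = q ^ 2) (hc : 0 < c1)
    (hc1 : 32 * c1 ≤ l1 ^ CS) (hr1 : rho n E l * q ≤ 9 * c1) :
    |Vx K E l - Vx K E' l'| ≤ 432 * c1 / (l1 ^ (2 * CS + CD)) * q := by
  have hl0 : 0 < l := lt_of_lt_of_le h1 hl
  have hpS : l1 ^ CS ≤ l ^ CS := pow_le_pow_left₀ h1.le hl _
  have hp2 : l1 ^ (2 * CS + CD) ≤ l ^ (2 * CS + CD) := pow_le_pow_left₀ h1.le hl _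
  have hS0 : 0 < l ^ CS := by positivity
  set ρ := rho n E l with hρd
  have hs2 : |E' - E| + |l' - l| ≤ 2 * q ^ 2 := by linarith
  have hsρ : (|E' - E| + |l' - l|) * ρ ≤ 18 * c1 * q := by
    calc (|E' - E| + |l' - l|) * ρ ≤ 2 * q ^ 2 * ρ :=
          mul_le_mul_of_nonneg_right hs2 hρ.le
      _ = 2 * q * (ρ * q) := by ring
      _ ≤ 2 * q * (9 * c1) := mul_le_mul_of_nonneg_left hr1 (by positivity)
      _ = 18 * c1 * q := by ring
  have hsρ1 : (|E' - E| + |l' - l|) * ρ ≤ 18 * c1 := by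
    have : 18 * c1 * q ≤ 18 * c1 * 1 := mul_le_mul_of_nonneg_left hq1 (by positivity)
    linarith
  have hcau := g6_cauchy K E l (l ^ CS / ρ) (by positivity) (by
    intro z w hzw
    rw [le_div_iff₀ hρ] at hzw
    have h2 := hS z w hzw K (by omega)
    have h3 : l ^ CS * ‖tr K ((E : ℂ) + z) ((l : ℂ) + w) - ((tr K E l : ℝ) : ℂ)‖ ≤ l ^ CS * 1 := by
      linarith
    exact le_of_mul_le_mul_left h3 hS0) E' l' (by
    rw [lt_div_iff₀ (by norm_num), mul_div_assoc', lt_div_iff₀ hρ]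
    linarith)
  have hm : 0 < l ^ CD * ρ := by positivity
  have hq3 := g6_quot (trL K E l) (trE K E l) (trL K E' l') (trE K E' l') _ _ hm hD hb' hV
    hcau.2 hcau.1
  refine le_trans hq3 ?_
  have e : 2 * (12 * (|E' - E| + |l' - l|) / (l ^ CS / ρ) ^ 2) / (l ^ CD * ρ) =
      24 * ((|E' - E| + |l' - l|) * ρ) / l ^ (2 * CS + CD) := by
    rw [pow_add, pow_mul']
    field_simp
    ring
  rw [e, div_mul_eq_mul_div]
  have hp0 : 0 < l1 ^ (2 * CS + CD) := by positivity
  calc 24 * ((|E' - E| + |l' - l|) * ρ) / l ^ (2 * CS + CD)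
      ≤ 24 * (18 * c1 * q) / l ^ (2 * CS + CD) := by
        apply div_le_div_of_nonneg_right _ (by positivity)
        linarith
    _ ≤ 24 * (18 * c1 * q) / l1 ^ (2 * CS + CD) := by
        apply div_le_div_of_nonneg_left (by positivity) hp0 hp2
    _ = 432 * c1 * q / l1 ^ (2 * CS + CD) := by ring

theorem vkHolder (hQ : QuantileProps) (hT : ThProps) (hF : FBound) (hL : VLip) (hS : SLall) (hD : DetRho) (hC : SpcCr)
    (hG : GrLow) (hR : RhoRatio) : VKHolder := by
  obtain ⟨CF, hF⟩ := hF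
  obtain ⟨CV, hL⟩ := hL
  obtain ⟨CS, hS⟩ := hS
  obtain ⟨CD, hD⟩ := hD
  refine ⟨1 / 16, by norm_num, fun l1 h1 h1' => ?_⟩
  obtain ⟨c1, hc1⟩ : ∃ c1, c1 = l1 ^ (CV + CS) / 32 := ⟨_, rfl⟩
  have hc0 : 0 < c1 := by rw [hc1]; positivity
  have h1V : l1 ^ (CV + CS) ≤ l1 ^ CV :=
    pow_le_pow_of_le_one h1.le (by linarith) (Nat.le_add_right _ _)
  have h1S : l1 ^ (CV + CS) ≤ l1 ^ CS :=
    pow_le_pow_of_le_one h1.le (by linarith) (Nat.le_add_left _ _)
  have hcV : 2 * c1 ≤ l1 ^ CV := by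
    have : 0 < l1 ^ (CV + CS) := by positivity
    rw [hc1]
    linarith
  have hcS : 32 * c1 ≤ l1 ^ CS := by
    rw [hc1]
    linarith
  obtain ⟨A1, hA1⟩ : ∃ A1, A1 = 27 / (l1 ^ CF * c1) + 2 * c1 / l1 ^ CV := ⟨_, rfl⟩
  obtain ⟨A2, hA2⟩ : ∃ A2, A2 = 432 * c1 / (l1 ^ (2 * CS + CD)) := ⟨_, rfl⟩
  have hA10 : 0 < A1 := by rw [hA1]; positivity
  have hA20 : 0 < A2 := by rw [hA2]; positivity
  have hc3 : 0 < 1 / c1 := by positivity
  refine ⟨1 + A1 + A2 + 1 / c1, by linarith, ?_⟩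
  filter_upwards [eventually_ge_atTop 9] with K hK t ht l hl l' hl'
  have hK1 : 1 ≤ K := by omega
  rw [← Real.sqrt_eq_rpow]
  obtain ⟨q, hq⟩ : ∃ q, q = √|l - l'| := ⟨_, rfl⟩
  rw [← hq]
  have hq0 : 0 ≤ q := by rw [hq]; positivity
  have hq2 : |l' - l| = q ^ 2 := by rw [hq, Real.sq_sqrt (abs_nonneg _), abs_sub_comm]
  have hll : 0 < l := lt_of_lt_of_le h1 hl.1
  have hll' : 0 < l' := lt_of_lt_of_le h1 hl'.1
  have hl8 : l ≤ 1 / 8 := by linarith [hl.2]
  have hl8' : l' ≤ 1 / 8 := by linarith [hl'.2]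
  have hE := g6_lip hQ K hK1 l1 h1 h1' t ht l l' hl hl'
  have hsp := g6_spec hQ hT K hK1 l hll hl8 t ht
  have hsp' := g6_spec hQ hT K hK1 l' hll' hl8' t ht
  have hV := (hQ K hK1).2.2.2.1 l hll hl8 t ht
  have hV' := (hQ K hK1).2.2.2.1 l' hll' hl8' t ht
  unfold VK at hV hV' ⊢
  set E := EK K l t with hEd
  set E' := EK K l' t with hEd'
  have hq1 : q ≤ 1 := by
    have : q ^ 2 ≤ 1 := by
      rw [← hq2, abs_le]
      constructor <;> linarith [hl.1, hl.2, hl'.1, hl'.2]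
    nlinarith
  rcases hq0.eq_or_lt with h0 | hqpos
  · have : l' = l := by
      rw [← h0] at hq2
      have h3 : |l' - l| = 0 := by rw [hq2]; ring
      linarith [abs_eq_zero.1 h3]
    rw [hEd, hEd', this, sub_self, abs_zero]
    positivity
  by_cases hbig : c1 < q
  · -- large difference
    have hle : |Vx K E l - Vx K E' l'| ≤ 1 := by
      rw [abs_le]
      constructor <;> linarith [hV.1, hV.2, hV'.1, hV'.2]
    have h2 : 1 ≤ 1 / c1 * q := by
      rw [div_mul_eq_mul_div, one_mul, le_div_iff₀ hc0]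
      linarith
    have h3 : 0 ≤ (1 + A1 + A2) * q := by positivity
    have e : (1 + A1 + A2 + 1 / c1) * q = (1 + A1 + A2) * q + 1 / c1 * q := by ring
    rw [e]
    linarith
  have hqc : q ≤ c1 := not_lt.1 hbig
  have hSp : ∀ n, n + 8 ≤ K → Spc K n E l := fun n hn => ⟨hsp, hn⟩
  have hSp' : ∀ n, n + 8 ≤ K → Spc K n E' l' := fun n hn => ⟨hsp', hn⟩
  have hCr : ∀ n, n + 8 ≤ K → Cr n E l := fun n hn => hC K n E l hll hl8 (hSp n hn)
  have hCr' : ∀ n, n + 8 ≤ K → Cr n E' l' := fun n hn => hC K n E' l' hll' hl8' (hSp' n hn)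
  have hratio : ∀ n, n + 8 ≤ K → rho (n + 1) E l ≤ 9 * rho n E l := fun n hn =>
    (hR n E l ((hCr n hn).1 (n + 1) (by omega) (by omega))
      ((hCr n hn).1 (n + 2) (by omega) (by omega))).1
  by_cases hb : ∀ n, n + 9 ≤ K → rho n E l * q ≤ c1
  · -- case (b)
    obtain ⟨m, rfl⟩ : ∃ m, K = m + 9 := ⟨K - 9, by omega⟩
    have hr1 : rho (m + 1) E l * q ≤ 9 * c1 := by
      have a1 := hb m le_rfl
      have a2 := hratio m (by omega)
      have a3 := mul_le_mul_of_nonneg_right a2 hqpos.le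
      linarith
    have hND : ND l (m + 1) E l := Or.inl ⟨rfl, hCr (m + 1) (by omega)⟩
    have hOk : Okl l l := ⟨hll, hl8, hll, by linarith⟩
    have hND' : ND l' (m + 1) E' l' := Or.inl ⟨rfl, hCr' (m + 1) (by omega)⟩
    have hOk' : Okl l' l' := ⟨hll', hl8', hll', by linarith⟩
    obtain ⟨-, -, hρ, hD4⟩ := hD (m + 1) E l l hOk hND
    obtain ⟨-, -, hρ', hD4'⟩ := hD (m + 1) E' l' l' hOk' hND'
    have hb' : trE (m + 9) E' l' ≠ 0 := by
      have h5 := hD4' (m + 9) (by omega) (by omega) hsp'.le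
      have h6 : 0 < l' ^ CD * rho (m + 1) E' l' := by positivity
      intro h7
      rw [h7, abs_zero] at h5
      linarith
    have key := g6_caseB (m + 1) (m + 9) E l E' l' q c1 l1 CS CD rfl
      (fun z w hzw j hj => hS (m + 1) E l hll hl8 (fun j hj => hCr j (by omega)) z w hzw j hj)
      (hD4 (m + 9) (by omega) (by omega) hsp.le) hρ h1 hl.1
      (by rw [abs_le]; constructor <;> linarith [hV'.1, hV'.2]) hb' hE hqpos hq1 hq2 hc0 hcS hr1
    rw [← hA2] at key
    have h3 : 0 ≤ (1 + A1 + 1 / c1) * q := by positivity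
    have e : (1 + A1 + A2 + 1 / c1) * q = (1 + A1 + 1 / c1) * q + A2 * q := by ring
    rw [e]
    linarith
  · -- case (a)
    classical
    push Not at hb
    have hfind := Nat.find_spec hb
    have hmin := fun m (hm : m < Nat.find hb) => Nat.find_min hb hm
    obtain ⟨N, hN⟩ : ∃ N, N = Nat.find hb := ⟨_, rfl⟩
    rw [← hN] at hfind hmin
    have hNpos : N ≠ 0 := by
      rintro rfl
      have h4 := hfind.2
      have h5 : rho 0 E l = 1 / 2 := by
        simp [rho]
      rw [h5] at h4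
      linarith
    obtain ⟨n, rfl⟩ : ∃ n, N = n + 1 := ⟨N - 1, by omega⟩
    have hr1 : rho n E l * q ≤ c1 := by
      by_contra h
      exact hmin n (by omega) ⟨by omega, not_le.1 h⟩
    have hr2 : c1 ≤ 9 * (rho n E l * q) := by
      have a2 := hratio n (by omega)
      have a3 := mul_le_mul_of_nonneg_right a2 hqpos.le
      linarith [hfind.2]
    have key := g6_caseA n K E l E' l' q c1 l1 CF CV hF hL h1 hl.1 hl8 hl'.1 hl8'
      (hSp n (by omega)) (hSp' n (by omega)) (fun j hj => hCr j (by omega)) hE hqpos hq1 hq2 hc0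
      hcV hr1 hr2
    rw [← hA1] at key
    have h3 : 0 ≤ (1 + A2 + 1 / c1) * q := by positivity
    have e : (1 + A1 + A2 + 1 / c1) * q = (1 + A2 + 1 / c1) * q + A1 * q := by ring
    rw [e]
    linarith

end FIB
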