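import Pool.Agent.Helper75.FIB.Iface3

/-!
# FIB block H1 : counting: most t have few small sines

`B_i = {t ∈ (0,1) : |sin π F_i t| < η^2}` is contained in the union of the intervals `|t - j/F_i| < η^2/(2 F_i)` (`|sin π y| >= 2 dist(y,ℤ)`), `i >= 1` (`i = 0`: `sin 0 = 0`, so `0` is always counted: one index; take it into account: `η n >= 2` for `n >= n1`).
Let `g` be such that `F_{i+g} >= F_i η^{-2}` for all `i >= 1` (`g ~ C log(1/η)`). SEPARATED SETS: `S = {i_1 < ... < i_k}` with consecutive gaps `>= g`, `i_1 >= 1`: `|B_{i_1} ∩ ... ∩ B_{i_k}| <= (4 η^2)^k`: by induction, an interval of length `λ >= 1/F_i` meets `B_i` in at most `λF_i + 2 <= 3 λ F_i` intervals of length `η^2/F_i >= 1/F_{i+g}`.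
(constants may be changed: `(C η^2)^k`). COUNT: if at least `η n` of the `i < n` are bad then some residue class mod `g` contains at least `k = ceil((η n - 1)/g)` bad ones; number of subsets of size `k` of a class of size `<= n/g + 1` is `<= binom(n/g+1, k) <= (e (n/g+1)/k)^k <= (C/η)^k`. So the measure of `{t : more than η n bad indices < n}` is
`<= g (C/η)^k (C η^2)^k = g (C η)^k <= g 2^{-k}` for `η < η0`, and `sum_{n >= n1} g 2^{-(η n - 1)/g}` tends to `0` as `n1 → ∞`. (Binomial bound: `Nat.choose_le_pow_div` and `k! >= (k/e)^k`, or use a cruder argument: Chebyshev/exponential moment `E 2^{#}`.) Measurability: countable intersection of finite unions of open sets and complements.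
The count in `Gd` must be `<= η n` for ALL `n >= n2`.
-/

namespace FIB.H1

open Real MeasureTheory Set Filter Topology

noncomputable section

/-- the bad set of an index -/
def bdS (η : ℝ) (i : ℕ) : Set ℝ := {t | |Real.sin (π * Nat.fib i * t)| < η ^ 2}

/-- indicator of a bad index -/
def bd (η : ℝ) (i : ℕ) (t : ℝ) : ℕ := (bdS η i).indicator (fun _ => 1) t

/-- number of bad indices in a progression -/
def cb (η : ℝ) (g s q : ℕ) (t : ℝ) : ℕ := ∑ j ∈ Finset.range q, bd η (s + g * j) t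

theorem bdS_meas (η : ℝ) (i : ℕ) : MeasurableSet (bdS η i) :=
  measurableSet_lt (by fun_prop) measurable_const

theorem bd_meas (η : ℝ) (i : ℕ) : Measurable (bd η i) :=
  measurable_const.indicator (bdS_meas η i)

theorem bd_le (η : ℝ) (i : ℕ) (t : ℝ) : bd η i t ≤ 1 := by
  unfold bd
  by_cases h : t ∈ bdS η i
  · rw [Set.indicator_of_mem h]
  · rw [Set.indicator_of_notMem h]; exact Nat.zero_le _

theorem cb_succ (η : ℝ) (g s q : ℕ) (t : ℝ) :
    cb η g s (q + 1) t = cb η g (s + g) q t + bd η s t := by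
  unfold cb
  rw [Finset.sum_range_succ']
  congr 1
  refine Finset.sum_congr rfl fun j _ => ?_
  congr 1
  ring

theorem sin_near {y η : ℝ} (h : |Real.sin (π * y)| < η ^ 2) :
    |y - round y| ≤ η ^ 2 / 2 := by
  set z := y - round y with hz
  have h1 : |z| ≤ 1 / 2 := abs_sub_round y
  have h2 : |Real.sin (π * z)| = |Real.sin (π * y)| := by
    have : π * z = π * y - (round y : ℤ) * π := by rw [hz]; ring
    rw [this, Real.sin_sub_int_mul_pi]
    rw [abs_mul]
    have : |((-1 : ℝ)) ^ (round y : ℤ)| = 1 := by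
      rw [abs_zpow, abs_neg, abs_one, one_zpow]
    rw [this, one_mul]
  have h3 : 2 * |z| ≤ |Real.sin (π * z)| := by
    have h4 := Real.mul_abs_le_abs_sin (x := π * z) (by
      rw [abs_mul, abs_of_pos Real.pi_pos]
      nlinarith [Real.pi_pos])
    rw [abs_mul, abs_of_pos Real.pi_pos] at h4
    have h5 : 2 / π * (π * |z|) = 2 * |z| := by
      field_simp
    rw [h5] at h4
    exact h4
  rw [h2] at h3
  linarith

/-- the pieces of a bad set -/
def pc (η F : ℝ) (j : ℤ) : Set ℝ :=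
  Icc (j / F - η ^ 2 / (2 * F)) (j / F - η ^ 2 / (2 * F) + η ^ 2 / F)

theorem mem_pc {η : ℝ} {i : ℕ} (hi : 1 ≤ i) {t : ℝ} (ht : t ∈ bdS η i) :
    t ∈ pc η (Nat.fib i) (round ((Nat.fib i : ℝ) * t)) := by
  have hF : (0 : ℝ) < Nat.fib i := by exact_mod_cast Nat.fib_pos.2 hi
  have h1 : |Real.sin (π * ((Nat.fib i : ℝ) * t))| < η ^ 2 := by
    have : π * ((Nat.fib i : ℝ) * t) = π * Nat.fib i * t := by ring
    rw [this]; exact ht
  have h2 := sin_near h1
  rw [abs_le] at h2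
  set j := round ((Nat.fib i : ℝ) * t)
  set F : ℝ := (Nat.fib i : ℝ)
  have e1 : F * (j / F - η ^ 2 / (2 * F)) = j - η ^ 2 / 2 := by field_simp
  have e2 : F * (j / F - η ^ 2 / (2 * F) + η ^ 2 / F) = j + η ^ 2 / 2 := by field_simp; ring
  constructor
  · refine le_of_mul_le_mul_left ?_ hF
    rw [e1]; linarith [h2.1]
  · refine le_of_mul_le_mul_left ?_ hF
    rw [e2]; linarith [h2.2]

theorem vol_cb {η : ℝ} {g : ℕ}
    (hg : ∀ i, 1 ≤ i → (Nat.fib i : ℝ) ≤ η ^ 2 * Nat.fib (i + g)) :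
    ∀ (q k s : ℕ) (a h : ℝ), 1 ≤ s → 1 ≤ h * Nat.fib s →
      volume (Icc a (a + h) ∩ {t | k ≤ cb η g s q t})
        ≤ ENNReal.ofReal (h * (1 / 2) ^ k * (1 + 6 * η ^ 2) ^ q) := by
  intro q
  induction q with
  | zero =>
    intro k s a h hs hh
    have hF : (0 : ℝ) < Nat.fib s := by exact_mod_cast Nat.fib_pos.2 hs
    have hpos : 0 < h := by
      by_contra hc
      push Not at hc
      nlinarith
    rcases Nat.eq_zero_or_pos k with rfl | hk
    · calc volume (Icc a (a + h) ∩ {t | 0 ≤ cb η g s 0 t}) ≤ volume (Icc a (a + h)) :=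
          measure_mono inter_subset_left
        _ = ENNReal.ofReal h := by rw [Real.volume_Icc]; congr 1; ring
        _ ≤ _ := by simp
    · have : (Icc a (a + h) ∩ {t | k ≤ cb η g s 0 t}) = ∅ := by
        ext t
        simp only [cb, Finset.range_zero, Finset.sum_empty, mem_inter_iff, mem_ofPred_eq,
          mem_empty_iff_false, iff_false, not_and, not_le]
        intro _; exact hk
      rw [this, measure_empty]; exact bot_le
  | succ q ih =>
    intro k s a h hs hh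
    have hF : (0 : ℝ) < Nat.fib s := by exact_mod_cast Nat.fib_pos.2 hs
    have hpos : 0 < h := by
      by_contra hc
      push Not at hc
      nlinarith
    have hq1 : (1 : ℝ) ≤ (1 + 6 * η ^ 2) ^ q := one_le_pow₀ (by nlinarith [sq_nonneg η])
    have hq1' : (1 : ℝ) ≤ (1 + 6 * η ^ 2) ^ (q + 1) := one_le_pow₀ (by nlinarith [sq_nonneg η])
    rcases Nat.eq_zero_or_pos k with rfl | hk
    · calc volume (Icc a (a + h) ∩ {t | 0 ≤ cb η g s (q + 1) t}) ≤ volume (Icc a (a + h)) :=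
          measure_mono inter_subset_left
        _ = ENNReal.ofReal h := by rw [Real.volume_Icc]; congr 1; ring
        _ ≤ _ := by
          apply ENNReal.ofReal_le_ofReal
          rw [pow_zero, mul_one]
          nlinarith
    · obtain ⟨k, rfl⟩ : ∃ k', k = k' + 1 := ⟨k - 1, by omega⟩
      set F : ℝ := (Nat.fib s : ℝ) with hFdef
      set J : Finset ℤ := Finset.Icc ⌈F * a - 1 / 2⌉ ⌊F * (a + h) + 1 / 2⌋ with hJ
      have hsub : Icc a (a + h) ∩ {t | k + 1 ≤ cb η g s (q + 1) t} ⊆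
          (Icc a (a + h) ∩ {t | k + 1 ≤ cb η g (s + g) q t}) ∪
            ⋃ j ∈ J, (pc η F j ∩ {t | k ≤ cb η g (s + g) q t}) := by
        rintro t ⟨ht1, ht2⟩
        rw [mem_ofPred_eq, cb_succ] at ht2
        by_cases hb : t ∈ bdS η s
        · right
          have h1 := bd_le η s t
          refine mem_iUnion₂.2 ⟨round (F * t), ?_, mem_pc hs hb, ?_⟩
          · have h2 := abs_sub_round (F * t)
            rw [abs_le] at h2
            rw [hJ, Finset.mem_Icc]
            constructor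
            · rw [Int.ceil_le]
              have : F * a ≤ F * t := mul_le_mul_of_nonneg_left ht1.1 hF.le
              linarith [h2.2]
            · rw [Int.le_floor]
              have : F * t ≤ F * (a + h) := mul_le_mul_of_nonneg_left ht1.2 hF.le
              linarith [h2.1]
          · rw [mem_ofPred_eq]; omega
        · left
          refine ⟨ht1, ?_⟩
          have : bd η s t = 0 := Set.indicator_of_notMem hb _
          rw [mem_ofPred_eq]; omega
      have hmono : (F : ℝ) ≤ Nat.fib (s + g) := by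
        rw [hFdef]; exact_mod_cast Nat.fib_mono (by omega)
      have hA := ih (k + 1) (s + g) a h (by omega) (by nlinarith)
      have hB : ∀ j ∈ J, volume (pc η F j ∩ {t | k ≤ cb η g (s + g) q t})
          ≤ ENNReal.ofReal (η ^ 2 / F * (1 / 2) ^ k * (1 + 6 * η ^ 2) ^ q) := by
        intro j _
        refine ih k (s + g) _ _ (by omega) ?_
        have := hg s hs
        rw [div_mul_eq_mul_div, le_div_iff₀ hF, one_mul]
        exact this
      have hcard : (J.card : ℝ) ≤ 3 * (h * F) := by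
        rw [hJ, Int.card_Icc]
        have h1 := Int.floor_le (F * (a + h) + 1 / 2)
        have h2 := Int.le_ceil (F * a - 1 / 2)
        have h3 : ((⌊F * (a + h) + 1 / 2⌋ + 1 - ⌈F * a - 1 / 2⌉).toNat : ℝ)
            ≤ max ((⌊F * (a + h) + 1 / 2⌋ : ℝ) + 1 - (⌈F * a - 1 / 2⌉ : ℝ)) 0 := by
          have : ((⌊F * (a + h) + 1 / 2⌋ + 1 - ⌈F * a - 1 / 2⌉).toNat : ℤ)
              = max (⌊F * (a + h) + 1 / 2⌋ + 1 - ⌈F * a - 1 / 2⌉) 0 := Int.toNat_eq_max _
          have h4 : (((⌊F * (a + h) + 1 / 2⌋ + 1 - ⌈F * a - 1 / 2⌉).toNat : ℤ) : ℝ)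
              = ((max (⌊F * (a + h) + 1 / 2⌋ + 1 - ⌈F * a - 1 / 2⌉) 0 : ℤ) : ℝ) := by rw [this]
          rw [Int.cast_natCast] at h4
          rw [h4]
          push_cast
          exact le_rfl
        refine h3.trans (max_le ?_ (by positivity))
        have h5 : h * F = F * (a + h) - F * a := by ring
        linarith
      have hpos2 : 0 ≤ η ^ 2 / F * (1 / 2) ^ k * (1 + 6 * η ^ 2) ^ q := by positivity
      calc volume (Icc a (a + h) ∩ {t | k + 1 ≤ cb η g s (q + 1) t})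
          ≤ volume ((Icc a (a + h) ∩ {t | k + 1 ≤ cb η g (s + g) q t}) ∪
            ⋃ j ∈ J, (pc η F j ∩ {t | k ≤ cb η g (s + g) q t})) := measure_mono hsub
        _ ≤ volume (Icc a (a + h) ∩ {t | k + 1 ≤ cb η g (s + g) q t}) +
            volume (⋃ j ∈ J, (pc η F j ∩ {t | k ≤ cb η g (s + g) q t})) := measure_union_le _ _
        _ ≤ ENNReal.ofReal (h * (1 / 2) ^ (k + 1) * (1 + 6 * η ^ 2) ^ q) +
            ∑ j ∈ J, ENNReal.ofReal (η ^ 2 / F * (1 / 2) ^ k * (1 + 6 * η ^ 2) ^ q) := by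
          refine add_le_add hA ((measure_biUnion_finset_le _ _).trans (Finset.sum_le_sum hB))
        _ = ENNReal.ofReal (h * (1 / 2) ^ (k + 1) * (1 + 6 * η ^ 2) ^ q +
            J.card * (η ^ 2 / F * (1 / 2) ^ k * (1 + 6 * η ^ 2) ^ q)) := by
          rw [← ENNReal.ofReal_sum_of_nonneg (fun _ _ => hpos2), ← ENNReal.ofReal_add
            (by positivity) (Finset.sum_nonneg fun _ _ => hpos2), Finset.sum_const, nsmul_eq_mul]
        _ ≤ _ := by
          apply ENNReal.ofReal_le_ofReal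
          have h6 : (J.card : ℝ) * (η ^ 2 / F * (1 / 2) ^ k * (1 + 6 * η ^ 2) ^ q)
              ≤ 3 * (h * F) * (η ^ 2 / F * (1 / 2) ^ k * (1 + 6 * η ^ 2) ^ q) :=
            mul_le_mul_of_nonneg_right hcard hpos2
          have h7 : 3 * (h * F) * (η ^ 2 / F * (1 / 2) ^ k * (1 + 6 * η ^ 2) ^ q)
              = 3 * h * η ^ 2 * ((1 / 2) ^ k * (1 + 6 * η ^ 2) ^ q) := by
            field_simp
          rw [h7] at h6
          have h8 : h * (1 / 2) ^ (k + 1) * (1 + 6 * η ^ 2) ^ (q + 1)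
              = h * (1 / 2) ^ (k + 1) * (1 + 6 * η ^ 2) ^ q
                + 3 * h * η ^ 2 * ((1 / 2) ^ k * (1 + 6 * η ^ 2) ^ q) := by
            rw [pow_succ (1 / 2 : ℝ) k, pow_succ (1 + 6 * η ^ 2) q]; ring
          rw [h8]
          linarith

theorem exists_gap {η : ℝ} (hη : 0 < η) :
    ∃ g : ℕ, 1 ≤ g ∧ ∀ i, 1 ≤ i → (Nat.fib i : ℝ) ≤ η ^ 2 * Nat.fib (i + g) := by
  obtain ⟨N, hN⟩ := exists_nat_ge (1 / η ^ 2)
  refine ⟨N + 5, by omega, fun i hi => ?_⟩
  obtain ⟨m, rfl⟩ : ∃ m, i = m + 1 := ⟨i - 1, by omega⟩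
  have h1 : Nat.fib (m + 1 + (N + 5))
      = Nat.fib m * Nat.fib (N + 5) + Nat.fib (m + 1) * Nat.fib (N + 5 + 1) := by
    rw [show m + 1 + (N + 5) = m + (N + 5) + 1 by ring]; exact Nat.fib_add m (N + 5)
  have h2 : N + 5 + 1 ≤ Nat.fib (N + 5 + 1) := Nat.le_fib_self (by omega)
  have h3 : (N : ℝ) ≤ Nat.fib (N + 5 + 1) := by
    have : N ≤ Nat.fib (N + 5 + 1) := by omega
    exact_mod_cast this
  have h4 : (Nat.fib (m + 1) : ℝ) * Nat.fib (N + 5 + 1) ≤ Nat.fib (m + 1 + (N + 5)) := by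
    rw [h1]; push_cast
    have : (0 : ℝ) ≤ Nat.fib m * Nat.fib (N + 5) := by positivity
    linarith
  have hη2 : 0 < η ^ 2 := by positivity
  have h5 : 1 ≤ η ^ 2 * Nat.fib (N + 5 + 1) := by
    have := hN.trans h3
    rw [div_le_iff₀ hη2] at this
    linarith
  have h6 : (0 : ℝ) ≤ Nat.fib (m + 1) := Nat.cast_nonneg _
  calc (Nat.fib (m + 1) : ℝ) = Nat.fib (m + 1) * 1 := by ring
    _ ≤ Nat.fib (m + 1) * (η ^ 2 * Nat.fib (N + 5 + 1)) := mul_le_mul_of_nonneg_left h5 h6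
    _ = η ^ 2 * (Nat.fib (m + 1) * Nat.fib (N + 5 + 1)) := by ring
    _ ≤ _ := mul_le_mul_of_nonneg_left h4 hη2.le

theorem ncard_eq (η : ℝ) (n : ℕ) (t : ℝ) :
    Set.ncard {i : ℕ | i < n ∧ |Real.sin (π * Nat.fib i * t)| < η ^ 2}
      = ∑ i ∈ Finset.range n, bd η i t := by
  classical
  have h1 : {i : ℕ | i < n ∧ |Real.sin (π * Nat.fib i * t)| < η ^ 2}
      = ↑((Finset.range n).filter (fun i => t ∈ bdS η i)) := by
    ext i
    rw [Finset.mem_coe, Finset.mem_filter, Finset.mem_range]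
    exact Iff.rfl
  rw [h1, Set.ncard_coe_finset, Finset.card_filter]
  refine Finset.sum_congr rfl fun i _ => ?_
  unfold bd
  by_cases h : t ∈ bdS η i
  · rw [Set.indicator_of_mem h, if_pos h]
  · rw [Set.indicator_of_notMem h, if_neg h]

theorem sum_range_blocks (f : ℕ → ℕ) (g q : ℕ) :
    ∑ i ∈ Finset.range (g * q), f i = ∑ r ∈ Finset.range g, ∑ j ∈ Finset.range q, f (r + g * j) := by
  induction q with
  | zero => simp
  | succ q ih =>
    rw [Nat.mul_succ, Finset.sum_range_add, ih, ← Finset.sum_add_distrib]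
    refine Finset.sum_congr rfl fun r _ => ?_
    rw [Finset.sum_range_succ, add_comm (g * q) r]

theorem sum_le_blocks (η : ℝ) {g : ℕ} (hg : 1 ≤ g) (n : ℕ) (t : ℝ) :
    ∑ i ∈ Finset.range n, bd η i t
      ≤ 1 + ∑ r ∈ Finset.range g, cb η g (r + 1) (n / g + 1) t := by
  have h1 : ∑ i ∈ Finset.range n, bd η i t ≤ ∑ i ∈ Finset.range (g * (n / g + 1) + 1), bd η i t := by
    refine Finset.sum_le_sum_of_subset ?_
    rw [Finset.range_subset_range]
    have := Nat.lt_mul_div_succ n (show 0 < g by omega)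
    omega
  refine h1.trans ?_
  rw [Finset.sum_range_succ', add_comm]
  refine add_le_add (bd_le η 0 t) ?_
  rw [sum_range_blocks (fun i => bd η (i + 1) t)]
  refine Finset.sum_le_sum fun r _ => ?_
  unfold cb
  refine Finset.sum_le_sum fun j _ => ?_
  rw [show r + g * j + 1 = r + 1 + g * j by ring]

theorem vol_bad {η : ℝ} {g : ℕ} (hg1 : 1 ≤ g)
    (hg : ∀ i, 1 ≤ i → (Nat.fib i : ℝ) ≤ η ^ 2 * Nat.fib (i + g)) (n : ℕ) :
    volume (Ioo (0 : ℝ) 1 ∩ {t | η * n < ((∑ i ∈ Finset.range n, bd η i t : ℕ) : ℝ)})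
      ≤ ENNReal.ofReal (g * ((1 / 2) ^ ⌈(η * n - 1) / g⌉₊ * (1 + 6 * η ^ 2) ^ (n / g + 1))) := by
  have hg0 : (0 : ℝ) < g := by exact_mod_cast hg1
  set k := ⌈(η * n - 1) / g⌉₊ with hk
  have hsub : Ioo (0 : ℝ) 1 ∩ {t | η * n < ((∑ i ∈ Finset.range n, bd η i t : ℕ) : ℝ)} ⊆
      ⋃ r ∈ Finset.range g, (Icc (0 : ℝ) (0 + 1) ∩ {t | k ≤ cb η g (r + 1) (n / g + 1) t}) := by
    rintro t ⟨ht1, ht2⟩
    rw [mem_ofPred_eq] at ht2
    by_contra hc
    rw [mem_iUnion₂] at hc
    push Not at hc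
    have h1 : ∀ r ∈ Finset.range g, (cb η g (r + 1) (n / g + 1) t : ℝ) ≤ (η * n - 1) / g := by
      intro r hr
      have h2 := hc r hr
      by_contra h3
      push Not at h3
      apply h2
      refine ⟨⟨ht1.1.le, by linarith [ht1.2]⟩, ?_⟩
      rw [mem_ofPred_eq, hk]
      exact Nat.ceil_le.2 h3.le
    have h2 : ((∑ r ∈ Finset.range g, cb η g (r + 1) (n / g + 1) t : ℕ) : ℝ) ≤ η * n - 1 := by
      push_cast
      refine (Finset.sum_le_sum h1).trans ?_
      rw [Finset.sum_const, Finset.card_range, nsmul_eq_mul]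
      rw [mul_div_cancel₀ _ hg0.ne']
    have h3 : ((∑ i ∈ Finset.range n, bd η i t : ℕ) : ℝ)
        ≤ 1 + ((∑ r ∈ Finset.range g, cb η g (r + 1) (n / g + 1) t : ℕ) : ℝ) := by
      exact_mod_cast sum_le_blocks η hg1 n t
    linarith
  have hpos : 0 ≤ 1 * (1 / 2 : ℝ) ^ k * (1 + 6 * η ^ 2) ^ (n / g + 1) := by positivity
  calc volume (Ioo (0 : ℝ) 1 ∩ {t | η * n < ((∑ i ∈ Finset.range n, bd η i t : ℕ) : ℝ)})
      ≤ volume (⋃ r ∈ Finset.range g,
          (Icc (0 : ℝ) (0 + 1) ∩ {t | k ≤ cb η g (r + 1) (n / g + 1) t})) := measure_mono hsub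
    _ ≤ ∑ r ∈ Finset.range g,
          volume (Icc (0 : ℝ) (0 + 1) ∩ {t | k ≤ cb η g (r + 1) (n / g + 1) t}) :=
        measure_biUnion_finset_le _ _
    _ ≤ ∑ r ∈ Finset.range g,
          ENNReal.ofReal (1 * (1 / 2) ^ k * (1 + 6 * η ^ 2) ^ (n / g + 1)) := by
        refine Finset.sum_le_sum fun r _ => vol_cb hg _ _ _ _ _ (by omega) ?_
        rw [one_mul]
        exact_mod_cast Nat.fib_pos.2 (Nat.succ_pos r)
    _ = ENNReal.ofReal (g * ((1 / 2) ^ k * (1 + 6 * η ^ 2) ^ (n / g + 1))) := by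
        rw [← ENNReal.ofReal_sum_of_nonneg (fun _ _ => hpos), Finset.sum_const, Finset.card_range,
          nsmul_eq_mul, one_mul]

/-- exponential form of the bound -/
theorem bad_exp {η : ℝ} (hη : 0 < η) {g : ℕ} (hg1 : 1 ≤ g) (n : ℕ) :
    (g : ℝ) * ((1 / 2) ^ ⌈(η * n - 1) / g⌉₊ * (1 + 6 * η ^ 2) ^ (n / g + 1))
      ≤ g * Real.exp (6 * η ^ 2 + Real.log 2) *
        Real.exp (-((η * Real.log 2 - 6 * η ^ 2) / g)) ^ n := by
  have hg0 : (0 : ℝ) < g := by exact_mod_cast hg1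
  have hl2 : 0 < Real.log 2 := Real.log_pos (by norm_num)
  have h1 : (1 / 2 : ℝ) ^ ⌈(η * n - 1) / g⌉₊ ≤ Real.exp (-(Real.log 2 * ((η * n - 1) / g))) := by
    have h2 : (1 / 2 : ℝ) = Real.exp (-Real.log 2) := by
      rw [Real.exp_neg, Real.exp_log (by norm_num)]; norm_num
    rw [h2, ← Real.exp_nat_mul]
    apply Real.exp_le_exp.2
    have := Nat.le_ceil ((η * n - 1) / (g : ℝ))
    nlinarith
  have h3 : (1 + 6 * η ^ 2) ^ (n / g + 1) ≤ Real.exp (6 * η ^ 2 * (n / g + 1)) := by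
    have h4 : (1 + 6 * η ^ 2) ≤ Real.exp (6 * η ^ 2) := by
      have := Real.add_one_le_exp (6 * η ^ 2); linarith
    calc (1 + 6 * η ^ 2) ^ (n / g + 1) ≤ Real.exp (6 * η ^ 2) ^ (n / g + 1) :=
        pow_le_pow_left₀ (by positivity) h4 _
      _ = Real.exp (((n / g + 1 : ℕ) : ℝ) * (6 * η ^ 2)) := by rw [← Real.exp_nat_mul]
      _ ≤ _ := by
        apply Real.exp_le_exp.2
        have h5 : ((n / g + 1 : ℕ) : ℝ) ≤ (n : ℝ) / g + 1 := by
          push_cast
          have := @Nat.cast_div_le ℝ _ _ _ n g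
          linarith
        nlinarith [sq_nonneg η]
  have h6 : Real.exp (-((η * Real.log 2 - 6 * η ^ 2) / g)) ^ n
      = Real.exp (n * (-((η * Real.log 2 - 6 * η ^ 2) / g))) := by rw [← Real.exp_nat_mul]
  rw [h6, mul_assoc]
  refine mul_le_mul_of_nonneg_left ?_ hg0.le
  calc (1 / 2 : ℝ) ^ ⌈(η * n - 1) / g⌉₊ * (1 + 6 * η ^ 2) ^ (n / g + 1)
      ≤ Real.exp (-(Real.log 2 * ((η * n - 1) / g))) * Real.exp (6 * η ^ 2 * (n / g + 1)) :=
        mul_le_mul h1 h3 (by positivity) (Real.exp_pos _).le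
    _ = Real.exp (-(Real.log 2 * ((η * n - 1) / g)) + 6 * η ^ 2 * (n / g + 1)) := by
        rw [Real.exp_add]
    _ ≤ Real.exp (6 * η ^ 2 + Real.log 2 + n * (-((η * Real.log 2 - 6 * η ^ 2) / g))) := by
        apply Real.exp_le_exp.2
        have h7 : Real.log 2 / g ≤ Real.log 2 := by
          rw [div_le_iff₀ hg0]
          have : (1 : ℝ) ≤ g := by exact_mod_cast hg1
          nlinarith
        have h8 : -(Real.log 2 * ((η * n - 1) / g)) + 6 * η ^ 2 * (n / g + 1)
            = 6 * η ^ 2 + Real.log 2 / g + n * (-((η * Real.log 2 - 6 * η ^ 2) / g)) := by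
          field_simp; ring
        rw [h8]; linarith
    _ = _ := by rw [Real.exp_add]

end

end FIB.H1

namespace FIB

open Real MeasureTheory Set Filter Topology H1

noncomputable section

theorem countGood : CountGood := by
  refine ⟨1 / 20, by norm_num, fun η hη hη1 ε hε => ?_⟩
  obtain ⟨g, hg1, hg⟩ := exists_gap hη
  have hg0 : (0 : ℝ) < g := by exact_mod_cast hg1
  set A : ℝ := g * Real.exp (6 * η ^ 2 + Real.log 2) with hA
  have hA0 : 0 < A := mul_pos hg0 (Real.exp_pos _)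
  set ρ : ℝ := Real.exp (-((η * Real.log 2 - 6 * η ^ 2) / g)) with hρ
  have hρ0 : 0 < ρ := Real.exp_pos _
  have hρ1 : ρ < 1 := by
    rw [hρ, Real.exp_lt_one_iff]
    have h1 : 0.6931471803 < Real.log 2 := Real.log_two_gt_d9
    have h2 : 0 < (η * Real.log 2 - 6 * η ^ 2) / g := by
      apply div_pos _ hg0
      nlinarith
    linarith
  have hlim : Tendsto (fun n : ℕ => A * ρ ^ n / (1 - ρ)) atTop (𝓝 0) := by
    have h1 := (tendsto_pow_atTop_nhds_zero_of_lt_one hρ0.le hρ1).const_mul A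
    have h2 := h1.div_const (1 - ρ)
    rw [mul_zero, zero_div] at h2
    exact h2
  obtain ⟨n1, hn1⟩ := (hlim.eventually (gt_mem_nhds hε)).exists_forall_of_atTop
  refine ⟨n1, fun n2 hn2 => ⟨?_, ?_⟩⟩
  · have h1 : Gd η n2 = Ioo (0 : ℝ) 1 ∩ ⋂ n : ℕ, ⋂ _ : n2 ≤ n,
        {t | ((∑ i ∈ Finset.range n, bd η i t : ℕ) : ℝ) ≤ η * n} := by
      ext t
      simp only [Gd, mem_ofPred_eq, mem_inter_iff, mem_iInter, ncard_eq]
    rw [h1]
    refine measurableSet_Ioo.inter (MeasurableSet.iInter fun n => MeasurableSet.iInter fun _ => ?_)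
    refine measurableSet_le ?_ measurable_const
    have h2 : Measurable fun t => ∑ i ∈ Finset.range n, bd η i t :=
      Finset.measurable_sum _ fun i _ => bd_meas η i
    exact measurable_from_top.comp h2
  · have h1 : Ioo (0 : ℝ) 1 \ Gd η n2 ⊆ ⋃ m : ℕ, (Ioo (0 : ℝ) 1 ∩
        {t | η * (m + n2 : ℕ) < ((∑ i ∈ Finset.range (m + n2), bd η i t : ℕ) : ℝ)}) := by
      rintro t ⟨ht1, ht2⟩
      simp only [Gd, mem_ofPred_eq, not_and, not_forall, ncard_eq] at ht2
      obtain ⟨n, hn, h3⟩ := ht2 ht1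
      rw [mem_iUnion]
      refine ⟨n - n2, ht1, ?_⟩
      rw [mem_ofPred_eq, Nat.sub_add_cancel hn]
      exact not_le.1 h3
    have hb : ∀ m : ℕ, volume (Ioo (0 : ℝ) 1 ∩
        {t | η * (m + n2 : ℕ) < ((∑ i ∈ Finset.range (m + n2), bd η i t : ℕ) : ℝ)})
        ≤ ENNReal.ofReal (A * ρ ^ n2 * ρ ^ m) := by
      intro m
      refine (vol_bad hg1 hg (m + n2)).trans (ENNReal.ofReal_le_ofReal ?_)
      refine (bad_exp hη hg1 (m + n2)).trans (le_of_eq ?_)
      rw [← hA, ← hρ, pow_add]; ring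
    have hsum : Summable fun m : ℕ => A * ρ ^ n2 * ρ ^ m :=
      (summable_geometric_of_lt_one hρ0.le hρ1).mul_left _
    calc volume (Ioo (0 : ℝ) 1 \ Gd η n2) ≤ volume (⋃ m : ℕ, (Ioo (0 : ℝ) 1 ∩
        {t | η * (m + n2 : ℕ) < ((∑ i ∈ Finset.range (m + n2), bd η i t : ℕ) : ℝ)})) :=
          measure_mono h1
      _ ≤ ∑' m : ℕ, volume (Ioo (0 : ℝ) 1 ∩
        {t | η * (m + n2 : ℕ) < ((∑ i ∈ Finset.range (m + n2), bd η i t : ℕ) : ℝ)}) :=
          measure_iUnion_le _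
      _ ≤ ∑' m : ℕ, ENNReal.ofReal (A * ρ ^ n2 * ρ ^ m) := ENNReal.tsum_le_tsum hb
      _ = ENNReal.ofReal (∑' m : ℕ, A * ρ ^ n2 * ρ ^ m) :=
          (ENNReal.ofReal_tsum_of_nonneg (fun m => by positivity) hsum).symm
      _ = ENNReal.ofReal (A * ρ ^ n2 / (1 - ρ)) := by
          rw [tsum_mul_left, tsum_geometric_of_lt_one hρ0.le hρ1, div_eq_mul_inv]
      _ ≤ ENNReal.ofReal ε := ENNReal.ofReal_le_ofReal (hn1 n2 hn2).le

end

end FIB
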