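import Pool.Agent.Helper75.FIB.Iface3

/-!
# FIB block H2 : growth on the good set

`E = EK K l t`, `Th K l E = π F_K t` so `NN K l E = t` and `NBound`: `|Th i l E - π F_i t| <= C√l` for `i <= K`. If `|sin π F_i t| >= η^2` then `|sin Θ_i| >= η^2 - C√l >= η^2/2`, so `clip x_i = cos Θ_i` has modulus `< 1`, `x_i = cos Θ_i`, `1 - x_i^2 >= η^4/4`, `16 (1-x_i^2)^2 >= η^8 >= l` (`l <= 2 l1 <= η^C`): index `i` is clean.
Let `n >= n1`, `n + 8 <= K`. At most `η (n+3)` indices `i < n+3` are not clean. Cut `{1,...,n}` into maximal stretches `[a,b]` with `a,...,b+2` clean, and single steps: at most `3η(n+3) + 1` stretches and at most `3η(n+3)` remaining steps. On a stretch `GrUpClean`: `rho b <= l^{-C'} (φ(1+C'l))^{b-a} rho a`; on each remaining step `rho (i+1) <= 9 rho i` (`RhoRatio`, traces `<= 2` by BdP for indices `<= K`).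
So `rho n <= (9 l^{-C'})^{6η(n+3)+2} (φ(1+C'l))^n rho 1`, `rho 1 <= C`. `log` of this `<= n log φ (1 + C'' η log(1/l1)) + const(l1,η)` since `l <= η`, `log(1/l) <= log(1/l1)`. For `n < n1`: `rho n <= 9^{n1} rho 0`. (An easier bookkeeping: prove by induction on `n` the inequality
`rho n <= D^{1 + #{i <= n+2 not clean} ·3 ...}(φ(1+C'l))^n`; e.g. in terms of `τ`-free quantities: let `a(n)` be the last non-clean index before `n`.)
-/

namespace FIB

open Real MeasureTheory Set Filter Topology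

namespace H2h30

theorem clip_of_abs_lt {x : ℝ} (h : |clip x| < 1) : clip x = x := by
  unfold clip at *
  rcases le_or_gt 1 x with h1 | h1
  · rw [min_eq_left h1, max_eq_right (by norm_num)] at h
    simp at h
  · rw [min_eq_right h1.le] at h ⊢
    rcases le_or_gt x (-1) with h2 | h2
    · rw [max_eq_left h2] at h
      simp at h
    · rw [max_eq_right h2.le]

/-- abstract bookkeeping -/
theorem book (ρ : ℕ → ℝ) (P : ℕ → Prop) [DecidablePred P] (M lam : ℝ) (N : ℕ)
    (hM : 1 ≤ M) (hlam : 1 ≤ lam) (hρ : ∀ n, 0 ≤ ρ n)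
    (h1 : ∀ a n, 1 ≤ a → a < n → n ≤ N → (∀ j, a ≤ j → j < n → P j) →
      ρ n ≤ M * lam ^ (n - a) * ρ a)
    (h2 : ∀ j, 1 ≤ j → j < N → ρ (j + 1) ≤ 9 * ρ j) (n : ℕ) (hn : 1 ≤ n) (hnN : n ≤ N) :
    ρ n ≤ M * (9 * M) ^ ((Finset.range n).filter fun j => 1 ≤ j ∧ ¬ P j).card * lam ^ n * ρ 1 := by
  have hM0 : 0 < M := by linarith
  have hl0 : 0 < lam := by linarith
  have h1' : ∀ a n, 1 ≤ a → a ≤ n → n ≤ N → (∀ j, a ≤ j → j < n → P j) →
      ρ n ≤ M * lam ^ (n - a) * ρ a := by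
    intro a n ha han hn hP
    rcases han.eq_or_lt with h | h
    · subst h
      rw [Nat.sub_self, pow_zero, mul_one]
      exact le_mul_of_one_le_left (hρ _) hM
    · exact h1 a n ha h hn hP
  have key : ∀ n, 1 ≤ n → n ≤ N → ∃ a, 1 ≤ a ∧ a ≤ n ∧ (∀ j, a ≤ j → j < n → P j) ∧
      ρ a ≤ (9 * M) ^ ((Finset.range n).filter fun j => 1 ≤ j ∧ ¬ P j).card * lam ^ a * ρ 1 := by
    intro n hn
    induction n, hn using Nat.le_induction with
    | base =>
      intro _
      refine ⟨1, le_rfl, le_rfl, fun j h3 h4 => by omega, ?_⟩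
      have : ((Finset.range 1).filter fun j => 1 ≤ j ∧ ¬ P j).card = 0 := by
        rw [Finset.card_eq_zero, Finset.filter_eq_empty_iff]
        intro x hx
        rw [Finset.mem_range] at hx
        omega
      rw [this, pow_zero, one_mul, pow_one]
      exact le_mul_of_one_le_left (hρ _) hlam
    | succ n hn ih =>
      intro hnN
      obtain ⟨a, ha1, han, haP, hρa⟩ := ih (by omega)
      by_cases hPn : P n
      · refine ⟨a, ha1, by omega, fun j h3 h4 => ?_, ?_⟩
        · rcases (Nat.lt_succ_iff.1 h4).eq_or_lt with h5 | h5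
          · rw [h5]; exact hPn
          · exact haP j h3 h5
        · have : ((Finset.range (n + 1)).filter fun j => 1 ≤ j ∧ ¬ P j) =
              ((Finset.range n).filter fun j => 1 ≤ j ∧ ¬ P j) := by
            rw [Finset.range_add_one, Finset.filter_insert, if_neg]
            rintro ⟨-, h6⟩
            exact h6 hPn
          rw [this]
          exact hρa
      · refine ⟨n + 1, by omega, le_rfl, fun j h3 h4 => by omega, ?_⟩
        have hcard : ((Finset.range (n + 1)).filter fun j => 1 ≤ j ∧ ¬ P j).card =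
            ((Finset.range n).filter fun j => 1 ≤ j ∧ ¬ P j).card + 1 := by
          rw [Finset.range_add_one, Finset.filter_insert, if_pos ⟨hn, hPn⟩,
            Finset.card_insert_of_notMem]
          simp
        rw [hcard]
        set f := ((Finset.range n).filter fun j => 1 ≤ j ∧ ¬ P j).card with hf
        have h3 := h1' a n ha1 han (by omega) haP
        have h4 := h2 n hn (by omega)
        have h5 : lam ^ (n - a) * lam ^ a = lam ^ n := by
          rw [← pow_add]
          congr 1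
          omega
        calc ρ (n + 1) ≤ 9 * ρ n := h4
          _ ≤ 9 * (M * lam ^ (n - a) * ρ a) := by linarith
          _ ≤ 9 * (M * lam ^ (n - a) * ((9 * M) ^ f * lam ^ a * ρ 1)) := by
              have : 0 ≤ M * lam ^ (n - a) := by positivity
              have := mul_le_mul_of_nonneg_left hρa this
              linarith
          _ = (9 * M) ^ (f + 1) * (lam ^ (n - a) * lam ^ a) * ρ 1 := by ring
          _ = (9 * M) ^ (f + 1) * lam ^ n * ρ 1 := by rw [h5]
          _ ≤ (9 * M) ^ (f + 1) * lam ^ (n + 1) * ρ 1 := by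
              have h6 : lam ^ n ≤ lam ^ (n + 1) := pow_le_pow_right₀ hlam (Nat.le_succ n)
              have h7 : 0 ≤ (9 * M) ^ (f + 1) := by positivity
              exact mul_le_mul_of_nonneg_right (mul_le_mul_of_nonneg_left h6 h7) (hρ 1)
  obtain ⟨a, ha1, han, haP, hρa⟩ := key n hn hnN
  have h3 := h1' a n ha1 han hnN haP
  have h5 : lam ^ (n - a) * lam ^ a = lam ^ n := by
    rw [← pow_add]
    congr 1
    omega
  set f := ((Finset.range n).filter fun j => 1 ≤ j ∧ ¬ P j).card with hf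
  calc ρ n ≤ M * lam ^ (n - a) * ρ a := h3
    _ ≤ M * lam ^ (n - a) * ((9 * M) ^ f * lam ^ a * ρ 1) := by
        have : 0 ≤ M * lam ^ (n - a) := by positivity
        exact mul_le_mul_of_nonneg_left hρa this
    _ = M * (9 * M) ^ f * (lam ^ (n - a) * lam ^ a) * ρ 1 := by ring
    _ = M * (9 * M) ^ f * lam ^ n * ρ 1 := by rw [h5]

/-- counting the bad steps -/
theorem count_bad (B : ℕ → Prop) [DecidablePred B] (P : ℕ → Prop) [DecidablePred P]
    (hP : ∀ j, ¬ P j → ∃ i, j ≤ i ∧ i ≤ j + 3 ∧ B i) (n : ℕ) :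
    ((Finset.range n).filter fun j => 1 ≤ j ∧ ¬ P j).card ≤
      4 * ((Finset.range (n + 3)).filter fun i => B i).card := by
  classical
  have hsub : ((Finset.range n).filter fun j => 1 ≤ j ∧ ¬ P j) ⊆
      (Finset.range 4).biUnion fun d =>
        ((Finset.range (n + 3)).filter fun i => B i).image fun i => i - d := by
    intro j hj
    rw [Finset.mem_filter, Finset.mem_range] at hj
    obtain ⟨i, h1, h2, h3⟩ := hP j hj.2.2
    rw [Finset.mem_biUnion]
    refine ⟨i - j, Finset.mem_range.2 (by omega), Finset.mem_image.2 ⟨i, ?_, by omega⟩⟩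
    rw [Finset.mem_filter, Finset.mem_range]
    exact ⟨by omega, h3⟩
  refine (Finset.card_le_card hsub).trans ?_
  refine Finset.card_biUnion_le.trans ?_
  refine (Finset.sum_le_card_nsmul _ _ _ fun d _ => Finset.card_image_le).trans ?_
  simp

theorem ncard_bad (t η : ℝ) (n : ℕ) :
    Set.ncard {i : ℕ | i < n ∧ |Real.sin (π * Nat.fib i * t)| < η ^ 2} =
      ((Finset.range n).filter fun i => |Real.sin (π * Nat.fib i * t)| < η ^ 2).card := by
  rw [← Set.ncard_coe_finset]
  congr 1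
  ext i
  simp

theorem final {M M1 X Y Z p9 ln pn r1 R Q : ℝ} (hM : 1 ≤ M) (hMM1 : M ≤ M1) (hX : 0 < X)
    {p : ℝ} (_hp : 0 < p) (_hY : 0 < Y) (_hZ : 0 < Z) (hln : 0 ≤ ln) (hr : 0 ≤ r1) (hr4 : r1 ≤ 4)
    (hb : R ≤ M * p9 * ln * r1) (h9 : p9 ≤ X * Y) (hl : ln ≤ pn * Z) (hf : pn * (Y * Z) ≤ Q) :
    R ≤ 4 * M1 * X * Q := by
  have hM0 : 0 < M := by linarith
  have hM1 : 0 < M1 := by linarith
  have hXY : 0 < X * Y := mul_pos hX _hY
  have a2 : M * p9 ≤ M1 * (X * Y) :=
    (mul_le_mul_of_nonneg_left h9 hM0.le).trans (mul_le_mul_of_nonneg_right hMM1 hXY.le)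
  have a4 : 0 ≤ M1 * (X * Y) := (mul_pos hM1 hXY).le
  have a3 : M * p9 * ln ≤ M1 * (X * Y) * (pn * Z) :=
    (mul_le_mul_of_nonneg_right a2 hln).trans (mul_le_mul_of_nonneg_left hl a4)
  have a5 : 0 ≤ M1 * (X * Y) * (pn * Z) := mul_nonneg a4 (hln.trans hl)
  have a6 : M * p9 * ln * r1 ≤ M1 * (X * Y) * (pn * Z) * 4 :=
    (mul_le_mul_of_nonneg_right a3 hr).trans (mul_le_mul_of_nonneg_left hr4 a5)
  have a7 : M1 * (X * Y) * (pn * Z) * 4 = (4 * M1 * X) * (pn * (Y * Z)) := by ring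
  have a8 : (4 * M1 * X) * (pn * (Y * Z)) ≤ (4 * M1 * X) * Q :=
    mul_le_mul_of_nonneg_left hf (by positivity)
  linarith

theorem log_ph : 1 / 3 ≤ Real.log ph := by
  have h5 : (2.236 : ℝ) ≤ √5 := by
    rw [Real.le_sqrt (by norm_num) (by norm_num)]
    norm_num
  have hph : (1.618 : ℝ) ≤ ph := by
    unfold ph
    linarith
  have h1 : Real.exp 1 ≤ ph ^ 3 := by
    have h2 : (1.618 : ℝ) ^ 3 ≤ ph ^ 3 := pow_le_pow_left₀ (by norm_num) hph 3
    have h3 := Real.exp_one_lt_d9
    norm_num at h2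
    linarith
  have h4 : Real.log (Real.exp 1) ≤ Real.log (ph ^ 3) := Real.log_le_log (Real.exp_pos 1) h1
  rw [Real.log_exp, Real.log_pow] at h4
  push_cast at h4
  linarith

end H2h30

open H2h30 in
theorem growA (h : GrUpClean) (hN : NBound) (hT : ThProps) (hQ : QuantileProps) (hB : BdP) (hR : RhoRatio) : GrowA := by
  classical
  obtain ⟨C1, hC1⟩ := h
  obtain ⟨CN, hCN1, hCN⟩ := hN
  refine ⟨8 + 2 * ⌈CN⌉₊ + 3 * (5 * C1 + 12), fun η l1 n1 hη hCη hl1 hl1η => ?_⟩
  set C : ℕ := 8 + 2 * ⌈CN⌉₊ + 3 * (5 * C1 + 12) with hCdef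
  have hC8 : 8 ≤ C := by omega
  have hCCN : 2 * CN ≤ C := by
    have h1 : CN ≤ ⌈CN⌉₊ := Nat.le_ceil CN
    have h2 : (2 * ⌈CN⌉₊ : ℕ) ≤ C := by omega
    have h3 : ((2 * ⌈CN⌉₊ : ℕ) : ℝ) ≤ (C : ℝ) := by exact_mod_cast h2
    push_cast at h3
    linarith
  have hCC1 : 3 * (5 * (C1 : ℝ) + 12) ≤ C := by
    have h2 : 3 * (5 * C1 + 12) ≤ C := by omega
    exact_mod_cast h2
  have hη8 : η ≤ 1 / 8 := by
    have h1 : (8 : ℝ) ≤ C := by exact_mod_cast hC8
    have h2 : 8 * η ≤ C * η := mul_le_mul_of_nonneg_right h1 hη.le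
    linarith
  have hηC8 : η ^ C ≤ η ^ 8 := pow_le_pow_of_le_one hη.le (by linarith) hC8
  have hη86 : η ^ 8 ≤ η ^ 6 := pow_le_pow_of_le_one hη.le (by linarith) (by norm_num)
  have hη61 : η ^ 6 ≤ η ^ 1 := pow_le_pow_of_le_one hη.le (by linarith) (by norm_num)
  rw [pow_one] at hη61
  have hl116 : l1 ≤ 1 / 16 := by linarith
  set Lam : ℝ := Real.log (1 / l1) with hLam
  have hLam1 : 1 ≤ Lam := by
    rw [hLam, Real.le_log_iff_exp_le (by positivity)]
    have h1 : (16 : ℝ) ≤ 1 / l1 := by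
      rw [le_div_iff₀ hl1]
      linarith
    have h2 := Real.exp_one_lt_d9
    linarith
  set M1 : ℝ := (1 / l1) ^ C1 with hM1
  have hl1i : 1 ≤ 1 / l1 := by
    rw [le_div_iff₀ hl1]
    linarith
  have hM11 : 1 ≤ M1 := one_le_pow₀ hl1i
  have h9M1 : 1 ≤ 9 * M1 := by linarith
  set CA : ℝ := 4 * M1 * (9 * M1) ^ (4 * η * (3 + n1) : ℝ) with hCA
  have hrp : 1 ≤ (9 * M1) ^ (4 * η * (3 + n1) : ℝ) :=
    Real.one_le_rpow h9M1 (by positivity)
  have hCA1 : 1 ≤ CA := by
    rw [hCA]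
    have : 1 * 1 ≤ (4 * M1) * (9 * M1) ^ (4 * η * (3 + n1) : ℝ) :=
      mul_le_mul (by linarith) hrp (by norm_num) (by linarith)
    linarith
  refine ⟨CA, hCA1, fun K n l t hl ht hg hnK => ?_⟩
  have hll1 : l1 ≤ l := hl.1
  have hl0 : 0 < l := by linarith
  have hl2 : l ≤ η ^ 8 := by linarith [hl.2]
  have hlη : l ≤ η := by linarith
  have hl8 : l ≤ 1 / 8 := by linarith
  have hK1 : 1 ≤ K := by omega
  set E : ℝ := EK K l t with hE
  obtain ⟨ht0, ht1, htn⟩ := ht
  have hfK : (0 : ℝ) < Nat.fib K := by exact_mod_cast Nat.fib_pos.2 hK1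
  have hTK : Th K l E = π * Nat.fib K * t := (hQ K hK1).2.1 l hl0 hl8 t ⟨ht0, ht1⟩
  have hNN : NN K l E = t := by
    unfold NN
    rw [hTK]
    field_simp
  have hTh : ∀ i, i ≤ K → |Th i l E - π * Nat.fib i * t| ≤ CN * √l := by
    intro i hi
    have h1 := hCN l hl0 hl8 K i E hK1 hi
    rw [hNN] at h1
    exact h1
  have hsq : √l ≤ η ^ 3 := by
    have h1 : √l ≤ √((η ^ 3) ^ 2) := Real.sqrt_le_sqrt (by
      have : (η ^ 3) ^ 2 = η ^ 6 := by ring
      rw [this]
      linarith)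
    rwa [Real.sqrt_sq (by positivity)] at h1
  have hCNs : CN * √l ≤ η ^ 2 / 2 := by
    have h1 : CN * √l ≤ CN * η ^ 3 := mul_le_mul_of_nonneg_left hsq (by linarith)
    have h2 : 2 * CN * η ≤ 1 := by
      have : 2 * CN * η ≤ C * η := mul_le_mul_of_nonneg_right hCCN hη.le
      linarith
    have h3 : CN * η ^ 3 = (2 * CN * η) * (η ^ 2 / 2) := by ring
    have h4 : (2 * CN * η) * (η ^ 2 / 2) ≤ 1 * (η ^ 2 / 2) :=
      mul_le_mul_of_nonneg_right h2 (by positivity)
    linarith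
  have hcos : ∀ i, Real.cos (Th i l E) = clip (tr i E l) := fun i => (hT l hl0 hl8 i).2.2.1 E
  -- trace at level K
  have htrK : |tr K E l| < 1 := by
    have h1 : Real.sin (Th K l E) ≠ 0 := by
      rw [hTK]
      intro h0
      rw [Real.sin_eq_zero_iff] at h0
      obtain ⟨j, hj⟩ := h0
      refine htn j ?_
      have : π * ((Nat.fib K : ℝ) * t) = π * j := by linarith
      exact mul_left_cancel₀ Real.pi_ne_zero this
    have h2 : |clip (tr K E l)| < 1 := by
      rw [← hcos K, ← sq_lt_one_iff_abs_lt_one]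
      have h3 := Real.sin_sq_add_cos_sq (Th K l E)
      have h4 : 0 < Real.sin (Th K l E) ^ 2 := by positivity
      linarith
    rw [clip_of_abs_lt h2] at h2
    exact h2
  have htr2 : ∀ j, j ≤ K → |tr j E l| ≤ 2 := by
    intro j hj
    have h1 := (hB l hl0 hl8 K j E htrK.le hj).1
    linarith
  have hclean : ∀ i, i ≤ K → η ^ 2 ≤ |Real.sin (π * Nat.fib i * t)| →
      l ≤ 16 * (1 - tr i E l ^ 2) ^ 2 ∧ |tr i E l| < 1 := by
    intro i hi hs
    have h1 := Real.abs_sin_sub_sin_le (Th i l E) (π * Nat.fib i * t)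
    have h2 := hTh i hi
    have h3 := abs_sub_abs_le_abs_sub (Real.sin (π * Nat.fib i * t)) (Real.sin (Th i l E))
    rw [abs_sub_comm (Real.sin (π * Nat.fib i * t))] at h3
    have h4 : η ^ 2 / 2 ≤ |Real.sin (Th i l E)| := by linarith
    have h5 : η ^ 4 / 4 ≤ Real.sin (Th i l E) ^ 2 := by
      have h6 : (η ^ 2 / 2) ^ 2 ≤ |Real.sin (Th i l E)| ^ 2 :=
        pow_le_pow_left₀ (by positivity) h4 2
      rw [sq_abs] at h6
      have h7 : (η ^ 2 / 2) ^ 2 = η ^ 4 / 4 := by ring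
      linarith
    have h6 := Real.sin_sq_add_cos_sq (Th i l E)
    have hη4 : 0 < η ^ 4 / 4 := by positivity
    have h7 : |clip (tr i E l)| < 1 := by
      rw [← hcos i, ← sq_lt_one_iff_abs_lt_one]
      linarith
    have h8 := clip_of_abs_lt h7
    have h9 : tr i E l = Real.cos (Th i l E) := by rw [hcos i, h8]
    rw [h8] at h7
    refine ⟨?_, h7⟩
    have h10 : η ^ 4 / 4 ≤ 1 - tr i E l ^ 2 := by
      rw [h9]
      linarith
    have h11 : (η ^ 4 / 4) ^ 2 ≤ (1 - tr i E l ^ 2) ^ 2 := pow_le_pow_left₀ hη4.le h10 2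
    have h12 : 16 * (η ^ 4 / 4) ^ 2 = η ^ 8 := by ring
    linarith
  have hrho0 : ∀ j, 0 ≤ rho j E l := fun j => le_max_of_le_left (abs_nonneg _)
  have hph1 : 1 ≤ ph := by
    have h5 : (2 : ℝ) ≤ √5 := by
      rw [Real.le_sqrt (by norm_num) (by norm_num)]
      norm_num
    unfold ph
    linarith
  have hph0 : 0 < ph := by linarith
  rcases Nat.eq_zero_or_pos n with hn0 | hn0
  · subst hn0
    have h1 : rho 0 E l ≤ 1 := by
      unfold rho
      simp only [trE_zero, zero_add, trE_one, trE_two, abs_zero]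
      refine max_le (by norm_num) (max_le ?_ ?_) <;> rw [abs_of_pos] <;> norm_num
    have h2 : (((0 : ℕ) : ℝ) * (1 + C * η * Lam)) = 0 := by
      push_cast
      ring
    rw [h2, Real.rpow_zero]
    linarith
  -- the growth
  set lam : ℝ := ph * (1 + C1 * l) with hlam
  have hC1l : 0 ≤ (C1 : ℝ) * l := by positivity
  have hlam1 : 1 ≤ lam := by
    rw [hlam]
    have : 1 * 1 ≤ ph * (1 + C1 * l) := mul_le_mul hph1 (by linarith) (by norm_num) (by linarith)
    linarith
  set M : ℝ := (1 / l) ^ C1 with hM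
  have hli : 1 ≤ 1 / l := by
    rw [le_div_iff₀ hl0]
    linarith
  have hMge : 1 ≤ M := one_le_pow₀ hli
  set P : ℕ → Prop := fun j => ∀ i, j ≤ i → i ≤ j + 3 → η ^ 2 ≤ |Real.sin (π * Nat.fib i * t)|
    with hP
  have hb := book (fun j => rho j E l) P M lam n hMge hlam1 hrho0
    (by
      intro a m ha ham hm hPm
      have h1 := hC1 a m E l hl0 hl8 ha ham.le (by
        intro j hj1 hj2
        refine hclean j (by omega) ?_
        by_cases h3 : j < m
        · exact hPm j hj1 h3 j le_rfl (by omega)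
        · exact hPm (m - 1) (by omega) (by omega) j (by omega) (by omega))
      have h2 : M * l ^ C1 = 1 := by
        rw [hM, ← mul_pow, one_div, inv_mul_cancel₀ hl0.ne', one_pow]
      calc rho m E l = M * (l ^ C1 * rho m E l) := by rw [← mul_assoc, h2, one_mul]
        _ ≤ M * ((ph * (1 + C1 * l)) ^ (m - a) * rho a E l) :=
            mul_le_mul_of_nonneg_left h1 (by linarith)
        _ = M * lam ^ (m - a) * rho a E l := by rw [hlam]; ring)
    (by
      intro j hj hjn
      exact (hR j E l (htr2 _ (by omega)) (htr2 _ (by omega))).1)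
    n hn0 le_rfl
  set f : ℕ := ((Finset.range n).filter fun j => 1 ≤ j ∧ ¬ P j).card with hf
  have hcount : (f : ℝ) ≤ 4 * η * (3 + n1) + 4 * η * n := by
    have h1 := count_bad (fun i => |Real.sin (π * Nat.fib i * t)| < η ^ 2) P (by
      intro j hj
      rw [hP] at hj
      push Not at hj
      obtain ⟨i, h1, h2, h3⟩ := hj
      exact ⟨i, h1, h2, h3⟩) n
    have h2 := hg.2 (n + 3 + n1) (by omega)
    rw [ncard_bad] at h2
    have h3 : ((Finset.range (n + 3)).filter fun i => |Real.sin (π * Nat.fib i * t)| < η ^ 2).card ≤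
        ((Finset.range (n + 3 + n1)).filter fun i =>
          |Real.sin (π * Nat.fib i * t)| < η ^ 2).card := by
      refine Finset.card_le_card (Finset.filter_subset_filter _ ?_)
      intro x hx
      rw [Finset.mem_range] at hx ⊢
      omega
    have h4 : (f : ℝ) ≤ 4 * (((Finset.range (n + 3 + n1)).filter fun i =>
          |Real.sin (π * Nat.fib i * t)| < η ^ 2).card : ℝ) := by
      have h5 : f ≤ 4 * ((Finset.range (n + 3 + n1)).filter fun i =>
          |Real.sin (π * Nat.fib i * t)| < η ^ 2).card := h1.trans (by omega)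
      exact_mod_cast h5
    push_cast at h2
    linarith [h2, h4, (by ring : (4 : ℝ) * (η * (n + 3 + n1)) = 4 * η * (3 + n1) + 4 * η * n)]
  have hrho1 : rho 1 E l ≤ 4 := by
    have h1 := htr2 1 (by omega)
    have h2 := htr2 2 (by omega)
    have h3 : trE 3 E l = tr 1 E l + tr 2 E l := by
      rw [show (3 : ℕ) = 0 + 3 from rfl, trE_add_three]
      simp only [zero_add, trE_zero, trE_one, trE_two]
      ring
    unfold rho
    simp only [trE_one]
    rw [show (1 + 1 : ℕ) = 2 from rfl, show (1 + 2 : ℕ) = 3 from rfl, h3, trE_two]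
    refine max_le ?_ (max_le ?_ ?_)
    · rw [abs_of_pos] <;> norm_num
    · rw [abs_of_pos] <;> norm_num
    · refine (abs_add_le _ _).trans ?_
      linarith
  have hMM1 : M ≤ M1 := pow_le_pow_left₀ (by positivity) (one_div_le_one_div_of_le hl1 hll1) C1
  have h9 : (9 * M) ^ f ≤ (9 * M1) ^ (4 * η * (3 + n1) : ℝ) * (9 * M1) ^ (4 * η * n : ℝ) := by
    calc (9 * M) ^ f ≤ (9 * M1) ^ f := pow_le_pow_left₀ (by linarith) (by linarith) f
      _ = (9 * M1) ^ (f : ℝ) := (Real.rpow_natCast _ _).symm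
      _ ≤ (9 * M1) ^ (4 * η * (3 + n1) + 4 * η * n : ℝ) :=
          Real.rpow_le_rpow_of_exponent_le h9M1 hcount
      _ = _ := Real.rpow_add (by linarith) _ _
  have hlog9 : Real.log (9 * M1) ≤ (3 + C1) * Lam := by
    have h1 : Real.log 9 ≤ 3 := by
      have h2 : Real.log 9 ≤ Real.log (Real.exp 3) := by
        refine Real.log_le_log (by norm_num) ?_
        have h3 := Real.exp_one_gt_d9
        have h4 : Real.exp 3 = Real.exp 1 ^ 3 := by
          rw [← Real.exp_nat_mul]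
          norm_num
        rw [h4]
        have h5 : (2.7 : ℝ) ^ 3 ≤ Real.exp 1 ^ 3 := pow_le_pow_left₀ (by norm_num) (by linarith) 3
        norm_num at h5
        linarith
      rwa [Real.log_exp] at h2
    rw [Real.log_mul (by norm_num) (by linarith), hM1, Real.log_pow, ← hLam, add_mul]
    linarith
  have h9b : (9 * M1) ^ (4 * η * n : ℝ) ≤ Real.exp ((3 + C1) * Lam * (4 * η * n)) := by
    rw [Real.rpow_def_of_pos (by linarith)]
    refine Real.exp_le_exp.2 ?_
    exact mul_le_mul_of_nonneg_right hlog9 (by positivity)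
  have hlamn : lam ^ n ≤ ph ^ n * Real.exp (C1 * η * Lam * n) := by
    rw [hlam, mul_pow]
    refine mul_le_mul_of_nonneg_left ?_ (by positivity)
    have h1 : 1 + C1 * l ≤ Real.exp (C1 * l) := by
      have := Real.add_one_le_exp (C1 * l : ℝ)
      linarith
    have h2 : (1 + C1 * l) ^ n ≤ Real.exp (C1 * l) ^ n := pow_le_pow_left₀ (by linarith) h1 n
    refine h2.trans ?_
    rw [← Real.exp_nat_mul]
    refine Real.exp_le_exp.2 ?_
    have h3 : (C1 : ℝ) * l ≤ C1 * η * Lam := by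
      have h4 : (C1 : ℝ) * l ≤ C1 * η := mul_le_mul_of_nonneg_left hlη (by positivity)
      have h5 : (C1 : ℝ) * η ≤ C1 * η * Lam := le_mul_of_one_le_right (by positivity) hLam1
      linarith
    have h6 : (n : ℝ) * (C1 * l) ≤ n * (C1 * η * Lam) :=
      mul_le_mul_of_nonneg_left h3 (by positivity)
    linarith
  have hfin : ph ^ n * (Real.exp ((3 + C1) * Lam * (4 * η * n)) * Real.exp (C1 * η * Lam * n)) ≤
      ph ^ ((n : ℝ) * (1 + C * η * Lam)) := by
    rw [mul_add, mul_one, Real.rpow_add hph0, Real.rpow_natCast, ← Real.exp_add,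
      Real.rpow_def_of_pos hph0]
    refine mul_le_mul_of_nonneg_left (Real.exp_le_exp.2 ?_) (by positivity)
    have h1 := log_ph
    have h2 : 0 ≤ (n : ℝ) * (C * η * Lam) := by positivity
    have h3 : 1 / 3 * ((n : ℝ) * (C * η * Lam)) ≤ Real.log ph * ((n : ℝ) * (C * η * Lam)) :=
      mul_le_mul_of_nonneg_right h1 h2
    have h4 : 0 ≤ (n : ℝ) * (η * Lam) := by positivity
    have h5 : (3 * (5 * (C1 : ℝ) + 12)) * ((n : ℝ) * (η * Lam)) ≤ C * ((n : ℝ) * (η * Lam)) :=
      mul_le_mul_of_nonneg_right hCC1 h4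
    have h6 : (3 + (C1 : ℝ)) * Lam * (4 * η * n) + C1 * η * Lam * n =
        (5 * C1 + 12) * ((n : ℝ) * (η * Lam)) := by ring
    have h7 : 1 / 3 * ((n : ℝ) * (C * η * Lam)) = 1 / 3 * (C * ((n : ℝ) * (η * Lam))) := by ring
    rw [h6]
    rw [h7] at h3
    linarith
  rw [hCA]
  exact final hMge hMM1 (by linarith) hph0 (Real.exp_pos _) (Real.exp_pos _)
    (pow_nonneg (zero_le_one.trans hlam1) n) (hrho0 1) hrho1 hb (h9.trans (mul_le_mul_of_nonneg_left h9b (by linarith))) hlamn hfin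

end FIB
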