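import Pool.Agent.Helper75.FIB.Iface3

/-!
# FIB block H3 : Frostman bound on the good set

Put `δ = C' η log(1/l1)` from GrowA. Let `G` be the set in question, `t0 ∈ G`, `E0 = EK K l t0`. Put
`a = l1^CT/(2 CA)` and let `n` be the largest number with `φ^{n(1+δ)} <= a / r`. If `n = 0` the bound is
trivial. Otherwise `rho n E0 l * 2 r <= l^CT`, `n <= K/2`, `1/F_n <= φ^3 (r/a)^{1/(1+δ)}`.
For `t ∈ G`: `|EK t - E0| < 2r`, so `ThClose` at `(n, E0)` (`Cr n E0 l` by SpcCr) gives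
`|Θ_n(EK t) - Θ_n(E0)| <= l <= 1`, and `NBound`: `π F_n |t - t0| <= 1 + 2C√l`; so `G` is contained in an
interval of length `O(1/F_n)`.
-/

namespace FIB

open Real MeasureTheory Set Filter Topology

theorem H3_ph_sq : ph ^ 2 = ph + 1 := by
  unfold ph
  have h5 : √5 ^ 2 = 5 := Real.sq_sqrt (by norm_num)
  nlinarith

theorem H3_one_lt_ph : 1 < ph := by
  unfold ph
  have h5 : 1 < √5 := by
    rw [Real.lt_sqrt (by norm_num)]; norm_num
  linarith

theorem H3_ph_pow_le (m : ℕ) : ph ^ (m + 1) ≤ ph ^ 2 * (Nat.fib (m + 1) : ℝ) := by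
  have h1 := H3_one_lt_ph
  have key : ph ^ (m + 1) ≤ ph ^ 2 * (Nat.fib (m + 1) : ℝ) ∧
      ph ^ (m + 2) ≤ ph ^ 2 * (Nat.fib (m + 2) : ℝ) := by
    induction m with
    | zero =>
      constructor
      · norm_num
        nlinarith
      · norm_num
    | succ m ih =>
      refine ⟨ih.2, ?_⟩
      have e : (Nat.fib (m + 3) : ℝ) = Nat.fib (m + 1) + Nat.fib (m + 2) := by
        exact_mod_cast (Nat.fib_add_two (n := m + 1))
      rw [show m + 1 + 2 = m + 3 from rfl, e]
      have h2 : ph ^ (m + 3) = ph ^ (m + 1) + ph ^ (m + 2) := by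
        have := H3_ph_sq
        calc ph ^ (m + 3) = ph ^ (m + 1) * ph ^ 2 := by ring
          _ = ph ^ (m + 1) * (ph + 1) := by rw [this]
          _ = _ := by ring
      rw [h2]
      have := ih.1
      have := ih.2
      linarith
  exact key.1

/-- at a regular parameter `K` is elliptic and the integrated density of states is `t` -/
theorem H3_reg (hQ : QuantileProps) (hTh : ThProps) (K : ℕ) (hK : 1 ≤ K) (l t : ℝ) (hl0 : 0 < l)
    (hl1 : l ≤ 1 / 8) (ht : t ∈ Rg K) :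
    |tr K (EK K l t) l| < 1 ∧ NN K l (EK K l t) = t := by
  have hT := (hQ K hK).2.1 l hl0 hl1 t ⟨ht.1, ht.2.1⟩
  have hfib : (0 : ℝ) < Nat.fib K := by exact_mod_cast Nat.fib_pos.2 hK
  constructor
  · have hcos := (hTh l hl0 hl1 K).2.2.1 (EK K l t)
    rw [hT] at hcos
    have hsin : Real.sin (π * Nat.fib K * t) ≠ 0 := by
      intro h0
      rw [Real.sin_eq_zero_iff] at h0
      obtain ⟨j, hj⟩ := h0
      apply ht.2.2 j
      have hpi : π ≠ 0 := Real.pi_ne_zero
      have : π * ((Nat.fib K : ℝ) * t) = π * (j : ℝ) := by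
        rw [← mul_assoc, ← hj]; ring
      exact mul_left_cancel₀ hpi this
    have hsq := Real.sin_sq_add_cos_sq (π * Nat.fib K * t)
    have hpos : 0 < Real.sin (π * Nat.fib K * t) ^ 2 := by positivity
    have hc : Real.cos (π * Nat.fib K * t) ^ 2 < 1 := by linarith
    rw [hcos] at hc
    have hc' : |clip (tr K (EK K l t) l)| < 1 := by
      rw [← sq_lt_one_iff_abs_lt_one]; exact hc
    rw [abs_lt] at hc' ⊢
    unfold clip at hc'
    obtain ⟨h1, h2⟩ := hc'
    constructor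
    · by_contra hcon
      push Not at hcon
      rw [min_eq_right (by linarith), max_eq_left hcon] at h1
      linarith
    · by_contra hcon
      push Not at hcon
      rw [min_eq_left hcon] at h2
      have := le_max_right (-1 : ℝ) 1
      linarith
  · unfold NN
    rw [hT]
    field_simp

theorem frostA (h : GrowA) (hT : ThClose) (hN : NBound) (hC : SpcCr) (hG : GrLow) (hQ : QuantileProps) (hTh : ThProps)
    (hR : RhoRatio) : FrostA := by
  obtain ⟨CA0, hGA⟩ := h
  obtain ⟨CT, hT⟩ := hT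
  obtain ⟨CN, hCN, hN⟩ := hN
  refine ⟨CA0 + 8, ?_⟩
  intro η l1 n1 hη hCη hl1 hl1η hsmall
  have hCA0 : (0 : ℝ) ≤ (CA0 : ℝ) := Nat.cast_nonneg _
  have hcast : ((CA0 + 8 : ℕ) : ℝ) = (CA0 : ℝ) + 8 := by push_cast; ring
  rw [hcast] at hCη hsmall ⊢
  have hη8 : η ≤ 1 / 8 := by nlinarith
  have hη1 : η ≤ 1 := by linarith
  have hCη' : (CA0 : ℝ) * η ≤ 1 := by nlinarith
  have hpow1 : η ^ (CA0 + 8) ≤ η ^ CA0 := pow_le_pow_of_le_one hη.le hη1 (by omega)
  have hpow2 : η ^ (CA0 + 8) ≤ 1 / 8 := by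
    calc η ^ (CA0 + 8) ≤ η ^ 1 := pow_le_pow_of_le_one hη.le hη1 (by omega)
      _ = η := pow_one η
      _ ≤ 1 / 8 := hη8
  have hl8 : 2 * l1 ≤ 1 / 8 := hl1η.trans hpow2
  obtain ⟨CA, hCA, hGr⟩ := hGA η l1 n1 hη hCη' hl1 (hl1η.trans hpow1)
  have hlog : 0 ≤ Real.log (1 / l1) := by
    apply Real.log_nonneg
    rw [le_div_iff₀ hl1]; linarith
  set δ : ℝ := (CA0 : ℝ) * η * Real.log (1 / l1) with hδ
  set δ' : ℝ := ((CA0 : ℝ) + 8) * η * Real.log (1 / l1) with hδ'
  have hδ0 : 0 ≤ δ := by rw [hδ]; positivity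
  have hδδ : δ ≤ δ' := by
    rw [hδ, hδ']
    have : 0 ≤ 8 * η * Real.log (1 / l1) := by positivity
    nlinarith
  have hδ1 : δ' ≤ 1 := hsmall
  have hph := H3_one_lt_ph
  have hph0 : 0 < ph := by linarith
  have hlph : 0 < Real.log ph := Real.log_pos hph
  set a : ℝ := l1 ^ CT / (2 * CA) with ha
  have hCApos : 0 < CA := by linarith
  have ha0 : 0 < a := by rw [ha]; positivity
  have hl1le : l1 ≤ 1 := by linarith
  have ha1 : a ≤ 1 := by
    rw [ha, div_le_one (by positivity)]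
    have : l1 ^ CT ≤ 1 := pow_le_one₀ hl1.le hl1le
    linarith
  have hph3 : 1 ≤ ph ^ 3 := one_le_pow₀ hph.le
  have hph2 : ph ^ 2 ≤ ph ^ 3 := pow_le_pow_right₀ hph.le (by norm_num)
  have hCF1 : ph ^ 2 / a ≤ 2 * (1 + 2 * CN) * ph ^ 3 / a := by
    rw [div_le_div_iff_of_pos_right ha0]
    nlinarith
  have hCF0 : 1 ≤ 2 * (1 + 2 * CN) * ph ^ 3 / a := by
    rw [le_div_iff₀ ha0]
    nlinarith
  refine ⟨2 * (1 + 2 * CN) * ph ^ 3 / a, hCF0, ?_⟩
  filter_upwards [eventually_ge_atTop 16] with K hK16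
  intro l hl x r hrK hr1
  have hK1 : 1 ≤ K := by omega
  have hr0 : 0 < r := lt_of_lt_of_le (Real.rpow_pos_of_pos hph0 _) hrK
  have hl0 : 0 < l := lt_of_lt_of_le hl1 hl.1
  have hl18 : l ≤ 1 / 8 := hl.2.trans hl8
  -- the exponent
  have hrexp : r ≤ r ^ (1 - δ') := by
    calc r = r ^ (1 : ℝ) := (Real.rpow_one r).symm
      _ ≤ r ^ (1 - δ') := Real.rpow_le_rpow_of_exponent_ge hr0 hr1 (by linarith [hδ0.trans hδδ])
  rcases Set.eq_empty_or_nonempty
    {t : ℝ | t ∈ Rg K ∧ t ∈ Gd η n1 ∧ |EK K l t - x| < r} with hemp | ⟨t0, ht0R, ht0G, ht0x⟩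
  · rw [hemp, measure_empty]
    exact zero_le
  set y : ℝ := Real.log (a / r) / (Real.log ph * (1 + δ)) with hy
  have hden : 0 < Real.log ph * (1 + δ) := by positivity
  have har : 0 < a / r := div_pos ha0 hr0
  by_cases hy1 : y < 1
  · -- trivial case
    have h1 : Real.log (a / r) < Real.log ph * (1 + δ) := by
      rw [hy, div_lt_one hden] at hy1; exact hy1
    have h2 : Real.log (a / r) < Real.log (ph ^ 2) := by
      rw [Real.log_pow]
      push_cast
      nlinarith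
    have h3 : a / r < ph ^ 2 := (Real.log_lt_log_iff har (by positivity)).1 h2
    have h4 : a < ph ^ 2 * r := by rwa [div_lt_iff₀ hr0] at h3
    have h5 : 1 ≤ ph ^ 2 / a * r := by
      rw [div_mul_eq_mul_div, le_div_iff₀ ha0]; linarith
    have h6 : (1 : ℝ) ≤ 2 * (1 + 2 * CN) * ph ^ 3 / a * r ^ (1 - δ') := by
      calc (1 : ℝ) ≤ ph ^ 2 / a * r := h5
        _ ≤ 2 * (1 + 2 * CN) * ph ^ 3 / a * r ^ (1 - δ') :=
            mul_le_mul hCF1 hrexp hr0.le (by linarith)
    calc volume {t : ℝ | t ∈ Rg K ∧ t ∈ Gd η n1 ∧ |EK K l t - x| < r}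
        ≤ volume (Ioo (0 : ℝ) 1) := measure_mono (fun t ht => ⟨ht.1.1, ht.1.2.1⟩)
      _ = ENNReal.ofReal 1 := by rw [Real.volume_Ioo]; norm_num
      _ ≤ ENNReal.ofReal (2 * (1 + 2 * CN) * ph ^ 3 / a * r ^ (1 - δ')) :=
          ENNReal.ofReal_le_ofReal h6
  · push Not at hy1
    have hy0 : 0 ≤ y := by linarith
    set n : ℕ := ⌊y⌋₊ with hn
    have hn1 : 1 ≤ n := by
      rw [hn]; exact Nat.le_floor (by exact_mod_cast hy1)
    have hny : (n : ℝ) ≤ y := Nat.floor_le hy0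
    have hny' : y < (n : ℝ) + 1 := Nat.lt_floor_add_one y
    have hlogar : Real.log (a / r) = y * (Real.log ph * (1 + δ)) := by
      rw [hy]; field_simp
    -- n is small
    have hnK : (n : ℝ) ≤ K / 2 := by
      have h1 : Real.log r ≥ -(K : ℝ) / 2 * Real.log ph := by
        have := Real.log_le_log (Real.rpow_pos_of_pos hph0 _) hrK
        rwa [Real.log_rpow hph0] at this
      have h2 : Real.log (a / r) ≤ (K : ℝ) / 2 * Real.log ph := by
        rw [Real.log_div ha0.ne' hr0.ne']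
        have : Real.log a ≤ 0 := Real.log_nonpos ha0.le ha1
        linarith
      have h3 : y * Real.log ph ≤ (K : ℝ) / 2 * Real.log ph := by
        calc y * Real.log ph ≤ y * (Real.log ph * (1 + δ)) :=
              mul_le_mul_of_nonneg_left (le_mul_of_one_le_right hlph.le (by linarith)) hy0
          _ = Real.log (a / r) := hlogar.symm
          _ ≤ _ := h2
      have h4 : y ≤ (K : ℝ) / 2 := le_of_mul_le_mul_right h3 hlph
      linarith
    have hn8 : n + 8 ≤ K := by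
      have h1 : (16 : ℝ) ≤ K := by exact_mod_cast hK16
      have h2 : ((n + 8 : ℕ) : ℝ) ≤ K := by push_cast; linarith
      exact_mod_cast h2
    -- the point
    set E0 : ℝ := EK K l t0 with hE0
    obtain ⟨htr0, hNN0⟩ := H3_reg hQ hTh K hK1 l t0 hl0 hl18 ht0R
    have hCr : Cr n E0 l := hC K n E0 l hl0 hl18 ⟨htr0, hn8⟩
    have hrho := hGr K n l t0 hl ht0R ht0G hn8
    have hpown : ph ^ ((n : ℝ) * (1 + δ)) ≤ a / r := by
      rw [← Real.log_le_log_iff (Real.rpow_pos_of_pos hph0 _) har, Real.log_rpow hph0, hlogar]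
      have : (n : ℝ) * (Real.log ph * (1 + δ)) ≤ y * (Real.log ph * (1 + δ)) :=
        mul_le_mul_of_nonneg_right hny hden.le
      linarith
    have hrho0 : 0 ≤ rho n E0 l := le_max_of_le_left (abs_nonneg _)
    have hrho2 : rho n E0 l * (2 * r) ≤ l ^ CT := by
      have h1 : rho n E0 l ≤ CA * (a / r) :=
        hrho.trans (mul_le_mul_of_nonneg_left hpown hCApos.le)
      calc rho n E0 l * (2 * r) ≤ CA * (a / r) * (2 * r) :=
            mul_le_mul_of_nonneg_right h1 (by positivity)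
        _ = l1 ^ CT := by rw [ha]; field_simp
        _ ≤ l ^ CT := pow_le_pow_left₀ hl1.le hl.1 CT
    have hfib : (0 : ℝ) < Nat.fib n := by exact_mod_cast Nat.fib_pos.2 hn1
    have hNt0 := hN l hl0 hl18 K n E0 hK1 (by omega)
    rw [hNN0] at hNt0
    have hsl : √l ≤ 1 := by
      rw [Real.sqrt_le_one]; linarith
    have hclose : ∀ t, t ∈ Rg K → |EK K l t - x| < r →
        |t - t0| ≤ (1 + 2 * CN) / (Nat.fib n : ℝ) := by
      intro t htR htx
      obtain ⟨-, hNNt⟩ := H3_reg hQ hTh K hK1 l t hl0 hl18 htR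
      have hd : |EK K l t - E0| ≤ 2 * r := by
        have e : EK K l t - E0 = (EK K l t - x) - (E0 - x) := by ring
        rw [e]
        have h1 := abs_sub (EK K l t - x) (E0 - x)
        have h2 : |E0 - x| < r := ht0x
        linarith
      have hTt := hT n E0 (EK K l t) l hl0 hl18 hCr
        ((mul_le_mul_of_nonneg_right hd hrho0).trans (by rw [mul_comm]; exact hrho2)) n le_rfl
        (by omega)
      have hNt := hN l hl0 hl18 K n (EK K l t) hK1 (by omega)
      rw [hNNt] at hNt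
      rw [abs_le] at hTt hNt hNt0
      have hCNl : CN * √l ≤ CN := mul_le_of_le_one_right (by linarith) hsl
      have hl1' : l ≤ 1 := by linarith
      have hpi := Real.pi_gt_three
      have h1 : |π * Nat.fib n * (t - t0)| ≤ 1 + 2 * CN := by
        have e : π * Nat.fib n * (t - t0) = π * Nat.fib n * t - π * Nat.fib n * t0 := by ring
        rw [e, abs_le]
        obtain ⟨u1, u2⟩ := hTt
        obtain ⟨u3, u4⟩ := hNt
        obtain ⟨u5, u6⟩ := hNt0
        constructor <;> linarith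
      rw [abs_mul, abs_of_pos (by positivity : (0 : ℝ) < π * Nat.fib n)] at h1
      rw [le_div_iff₀ hfib]
      have h2 : 0 ≤ |t - t0| * (Nat.fib n : ℝ) := by positivity
      have h3 : |t - t0| * (Nat.fib n : ℝ) ≤ π * (|t - t0| * (Nat.fib n : ℝ)) :=
        le_mul_of_one_le_left h2 (by linarith)
      have h4 : π * (|t - t0| * (Nat.fib n : ℝ)) = π * Nat.fib n * |t - t0| := by ring
      linarith
    have hsub : {t : ℝ | t ∈ Rg K ∧ t ∈ Gd η n1 ∧ |EK K l t - x| < r} ⊆
        Icc (t0 - (1 + 2 * CN) / (Nat.fib n : ℝ)) (t0 + (1 + 2 * CN) / (Nat.fib n : ℝ)) := by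
      intro t ht
      have := abs_le.1 (hclose t ht.1 ht.2.2)
      constructor <;> linarith [this.1, this.2]
    -- the size of fib n
    have hfibn : 1 / (Nat.fib n : ℝ) ≤ ph ^ 3 / a * r ^ (1 - δ') := by
      obtain ⟨m, hm⟩ : ∃ m, n = m + 1 := ⟨n - 1, by omega⟩
      have h1 : ph ^ n ≤ ph ^ 2 * (Nat.fib n : ℝ) := by
        rw [hm]; exact H3_ph_pow_le m
      have h2 : (a / r) ^ (1 / (1 + δ)) ≤ ph ^ (n + 1) := by
        have e : (ph : ℝ) ^ (n + 1) = ph ^ (((n + 1 : ℕ)) : ℝ) := (Real.rpow_natCast ph (n + 1)).symm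
        rw [e, ← Real.log_le_log_iff (Real.rpow_pos_of_pos har _) (Real.rpow_pos_of_pos hph0 _),
          Real.log_rpow har, Real.log_rpow hph0, hlogar]
        have e2 : 1 / (1 + δ) * (y * (Real.log ph * (1 + δ))) = y * Real.log ph := by
          field_simp
        rw [e2]
        push_cast
        exact mul_le_mul_of_nonneg_right hny'.le hlph.le
      have h3 : (a / r) ^ (1 / (1 + δ)) = a ^ (1 / (1 + δ)) / r ^ (1 / (1 + δ)) :=
        Real.div_rpow ha0.le hr0.le _
      have h4 : a ≤ a ^ (1 / (1 + δ)) := by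
        calc a = a ^ (1 : ℝ) := (Real.rpow_one a).symm
          _ ≤ a ^ (1 / (1 + δ)) := by
              apply Real.rpow_le_rpow_of_exponent_ge ha0 ha1
              rw [div_le_one (by linarith)]; linarith
      have h5 : r ^ (1 / (1 + δ)) ≤ r ^ (1 - δ') := by
        apply Real.rpow_le_rpow_of_exponent_ge hr0 hr1
        rw [le_div_iff₀ (by linarith)]
        have g1 : (1 - δ') * (1 + δ) ≤ (1 - δ) * (1 + δ) :=
          mul_le_mul_of_nonneg_right (by linarith) (by linarith)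
        have g2 : (1 - δ) * (1 + δ) = 1 - δ ^ 2 := by ring
        have g3 := sq_nonneg δ
        linarith
      have hrp : 0 < r ^ (1 / (1 + δ)) := Real.rpow_pos_of_pos hr0 _
      have hrp' : 0 < r ^ (1 - δ') := Real.rpow_pos_of_pos hr0 _
      have h6 : a ≤ ph ^ (n + 1) * r ^ (1 - δ') := by
        have h7 : a ^ (1 / (1 + δ)) ≤ ph ^ (n + 1) * r ^ (1 / (1 + δ)) := by
          rw [h3, div_le_iff₀ hrp] at h2; exact h2
        calc a ≤ a ^ (1 / (1 + δ)) := h4
          _ ≤ ph ^ (n + 1) * r ^ (1 / (1 + δ)) := h7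
          _ ≤ ph ^ (n + 1) * r ^ (1 - δ') := mul_le_mul_of_nonneg_left h5 (by positivity)
      rw [div_le_iff₀ hfib]
      have h8 : ph ^ (n + 1) * r ^ (1 - δ') ≤ ph ^ 3 * r ^ (1 - δ') * (Nat.fib n : ℝ) := by
        calc ph ^ (n + 1) * r ^ (1 - δ') = ph ^ n * (ph * r ^ (1 - δ')) := by ring
          _ ≤ (ph ^ 2 * (Nat.fib n : ℝ)) * (ph * r ^ (1 - δ')) :=
              mul_le_mul_of_nonneg_right h1 (by positivity)
          _ = _ := by ring
      have h9 : 1 ≤ (ph ^ 3 * r ^ (1 - δ') * (Nat.fib n : ℝ)) / a := by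
        rw [le_div_iff₀ ha0]; linarith
      calc (1 : ℝ) ≤ (ph ^ 3 * r ^ (1 - δ') * (Nat.fib n : ℝ)) / a := h9
        _ = ph ^ 3 / a * r ^ (1 - δ') * (Nat.fib n : ℝ) := by ring
    calc volume {t : ℝ | t ∈ Rg K ∧ t ∈ Gd η n1 ∧ |EK K l t - x| < r}
        ≤ volume (Icc (t0 - (1 + 2 * CN) / (Nat.fib n : ℝ))
            (t0 + (1 + 2 * CN) / (Nat.fib n : ℝ))) := measure_mono hsub
      _ = ENNReal.ofReal (2 * (1 + 2 * CN) * (1 / (Nat.fib n : ℝ))) := by
          rw [Real.volume_Icc]; congr 1; ring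
      _ ≤ ENNReal.ofReal (2 * (1 + 2 * CN) * ph ^ 3 / a * r ^ (1 - δ')) := by
          apply ENNReal.ofReal_le_ofReal
          calc 2 * (1 + 2 * CN) * (1 / (Nat.fib n : ℝ))
              ≤ 2 * (1 + 2 * CN) * (ph ^ 3 / a * r ^ (1 - δ')) :=
                mul_le_mul_of_nonneg_left hfibn (by linarith)
            _ = _ := by ring

end FIB
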