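import Pool.Agent.Helper75.FIB.Iface3

/-!
# FIB block I1 : arithmetic selection of a gap label

Constants: `α = al`, `φ = ph`, `φ α = 1`, `F_i φ^{-i}` bounded above and below (i >= 1), `F_{i+1} - φ F_i = (-α)^i`. `θ < θ0` is small depending on `k`. Let `q` be the smallest index `>= m` with `F_q h >= θ^{-(2C'+1)}` (`C'` to be chosen, `C' >= k + 2`); then `F_q θ^{C} <= F_m` with `C = 2C'+k+3` and `q - m <= const C log(1/θ)`,
so `(q-m+1) θ^{1/2} <= 1` say. Let `J = [t0+h/4, t0+3h/4]`. A PASS is a pair `(tG,x)`, `tG ∈ J`, `x ∈ [3/20,1/4]` with `F_q tG - x ∈ ℤ`, `F_{q+1} tG + α x ∈ ℤ`. For a pass put `p_q = F_q tG - x`, `p_{q+1} = F_{q+1} tG + αx`, extend by the Fibonacci recursion: `F_i tG = p_i + x(-α)^{i-q}` for all `i >= q` (define `p i` for `i < q` arbitrarily).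
(1) MANY PASSES: at least `c F_q h` of them, with distinct `tG`. For an integer `j` let `s_j = (j + 1/5)/F_q`; `F_{q+1} s_j = (j+1/5)F_{q+1}/F_q`, and `F_{q+1}/F_q` differs from `φ` by `<= 1/F_q^2`; among any `N0` consecutive `j` there is one with `dist((j+1/5) F_{q+1}/F_q + α/5, ℤ) <= 1/50` (multiples of `φ` mod 1: any `144` consecutive multiples of `φ` are `1/50`-dense up to a
shift, e.g. since `|144·φ - 233| <= 1/300` and they are then within `1/144+...` of the points `j'/144`). With `F_q s_j = j + 1/5`, `F_{q+1} s_j = b - α/5 + e`, `|e| <= 1/50`: solve `F_q δ + 1/5 = x`, `F_{q+1} δ + e - α/5 = -αx`: `δ = -e/(F_{q+1}+αF_q)`, `x = 1/5 + F_q δ ∈ [3/20,1/4]`, `tG = s_j + δ`. The number of `j` with `s_j` in the middle of `J` is `>= F_q h/4`.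
(2) SEPARATION: for two different passes with differences `Δt, Δx`: `a = F_q Δt - Δx`, `b = F_{q+1}Δt + αΔx` are integers, `b - φ a = (-α)^q Δt + (φ+α) Δx`, not both zero; if `a = 0` then `b ≠ 0`, impossible for small `|Δx| <= 1/10` unless `|Δt| >= 1/(4F_q)`... in all cases `|Δt| >= c/F_q`; for `a ≠ 0`: `|b - φa| |b + αa| = |b^2 - ab - a^2| >= 1`, hence
`|b-φa| >= c/(|a|+1)`, so `|Δx| + α^q|Δt| >= c/(F_q|Δt| + 1)`, i.e. `|Δx| >= c'/(F_q |Δt|)` (as `|Δt| <= 1`, `F_q α^q` bounded; treat `α^q|Δt|` as negligible when `F_q|Δt| α^q |Δt|` small: `F_q α^q h^2 <= ..`, use `h <= 1` and `F_q h >= θ^{-1}` large; if needed shrink `J` to a subinterval of length `θ^{k}/F_m`-scale so that `h` is small, or note `m` large is not needed because one may replace `h` by `h' = min(h, θ^{..})`).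
So: an interval of length `T` contains at most `1 + F_q T/c` values `tG`; and at most `1 + F_q h η/c'` passes have `x` in a given interval of length `η`.
(3) BAD PASSES for `i = q - κ'`, `m <= i <= q`: those with `|sin π F_i tG| < θ^C` , i.e. `dist(F_i tG, ℤ) < θ^{C}/2`... For `i <= q` also `F_i tG ≡ x(-φ)^{q-i}` mod 1 (extend the recursion backwards). If `φ^{q-i} <= F_q h θ^{C'}`: the bad `x` form at most `φ^{q-i}/10 + 2` intervals of length `2θ^{C'} φ^{-(q-i)}` in `[3/20,1/4]`: number of bad passes `<= (φ^{q-i}/10+2)(1 + F_q h 2θ^{C'}φ^{-(q-i)}/c') <= C F_q h θ^{C'}`.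
If `φ^{q-i} >= θ^{-C'}` (one of the two cases holds because `F_q h >= θ^{-(2C'+1)}`): bad `tG` lie in at most `h F_i + 2` intervals of length `2θ^{C'}/F_i`, each containing at most `1 + 2θ^{C'}F_q/(cF_i) <= C θ^{C'} F_q/F_i` of the `tG`: total `<= C θ^{C'} (h F_q + F_q/F_i) <= C θ^{C'-k} h F_q` (`F_i >= F_m >= θ^k/h`).
Sum over the `q-m+1` indices: `< c F_q h`. So some pass is good for all `i`.
-/

namespace FIB

open Real MeasureTheory Set Filter Topology

namespace PassA

theorem al_gr : al = -goldenConj := by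
  rw [al, goldenConj]; ring

theorem ph_gr : ph = goldenRatio := by
  rw [ph, goldenRatio]; ring

theorem s5 : (2.236 : ℝ) < √5 ∧ √5 < 2.2361 := by
  constructor
  · rw [Real.lt_sqrt (by norm_num)]; norm_num
  · rw [Real.sqrt_lt' (by norm_num)]; norm_num

theorem al_bd : (0.618 : ℝ) < al ∧ al < 0.61805 := by
  obtain ⟨h1, h2⟩ := s5
  constructor <;> · rw [al]; linarith

theorem ph_one : ph = 1 + al := by
  rw [ph, al]; ring

theorem al_sq : al * al = 1 - al := by
  have h : √5 * √5 = 5 := Real.mul_self_sqrt (by norm_num)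
  rw [al]; nlinarith [h]

theorem ph_al : ph * al = 1 := by
  rw [ph_one]; linarith [al_sq]

theorem ph_sq : ph * ph = ph + 1 := by
  rw [ph_one]; linarith [al_sq]

theorem al_add_ph : al + ph = √5 := by
  rw [al, ph]; ring

theorem fib_al (q : ℕ) : (Nat.fib (q + 1) : ℝ) + al * Nat.fib q = ph ^ q := by
  have h := fib_succ_sub_goldenConj_mul_fib q
  rw [al_gr, ph_gr]; linarith

theorem fib_ph (q : ℕ) : (Nat.fib (q + 1) : ℝ) - ph * Nat.fib q = (-al) ^ q := by
  have h := fib_succ_sub_goldenRatio_mul_fib q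
  rw [al_gr, ph_gr, neg_neg]; linarith

theorem fib_s5 (q : ℕ) : √5 * (Nat.fib q : ℝ) = ph ^ q - (-al) ^ q := by
  rw [← fib_al, ← fib_ph, ← al_add_ph]; ring

theorem ph_pos : 0 < ph := by
  rw [ph_one]; linarith [al_bd.1]

theorem one_lt_ph : 1 < ph := by
  rw [ph_one]; linarith [al_bd.1]

theorem ph_lt_two : ph < 2 := by
  rw [ph_one]; linarith [al_bd.2]

theorem al_pos : 0 < al := by linarith [al_bd.1]

theorem al_lt_one : al < 1 := by linarith [al_bd.2]

theorem phq_alq (q : ℕ) : ph ^ q * al ^ q = 1 := by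
  rw [← mul_pow, ph_al, one_pow]

theorem fib_le (q : ℕ) : (Nat.fib q : ℝ) ≤ ph ^ q := by
  induction q using Nat.twoStepInduction with
  | zero => simp
  | one => simpa using one_lt_ph.le
  | more n h1 h2 =>
    rw [Nat.fib_add_two]
    push_cast
    have : ph ^ (n + 2) = ph ^ n + ph ^ (n + 1) := by
      rw [pow_succ, pow_succ]
      have := ph_sq
      calc ph ^ n * ph * ph = ph ^ n * (ph * ph) := by ring
        _ = ph ^ n + ph ^ n * ph := by rw [this]; ring
    rw [this]; linarith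

theorem norm_ge (a b : ℤ) (h : ¬ (a = 0 ∧ b = 0)) :
    1 ≤ |(b : ℝ) + al * a| * |(b : ℝ) - ph * a| := by
  rw [← abs_mul]
  have e : ((b : ℝ) + al * a) * ((b : ℝ) - ph * a) = ((b ^ 2 - a * b - a ^ 2 : ℤ) : ℝ) := by
    push_cast
    rw [ph_one]
    linear_combination (-(a : ℝ) ^ 2) * al_sq
  have hne : b ^ 2 - a * b - a ^ 2 ≠ 0 := by
    intro h0
    rw [h0, Int.cast_zero, mul_eq_zero] at e
    have hirr1 : Irrational al := by
      rw [al_gr]; exact goldenConj_irrational.neg
    have hirr2 : Irrational ph := by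
      rw [ph_gr]; exact goldenRatio_irrational
    rcases e with e | e
    · by_cases ha : a = 0
      · apply h
        refine ⟨ha, ?_⟩
        rw [ha] at e
        simpa using e
      · apply (hirr1.mul_intCast ha).ne_int (-b)
        push_cast; linarith
    · by_cases ha : a = 0
      · apply h
        refine ⟨ha, ?_⟩
        rw [ha] at e
        simpa using e
      · apply (hirr2.mul_intCast ha).ne_int b
        linarith
  rw [e, ← Int.cast_abs]
  exact_mod_cast Int.one_le_abs hne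

theorem box (s u : ℝ) : ∃ a b : ℤ, s ≤ b + al * a ∧ b + al * a ≤ s + 30 ∧
    u ≤ b - ph * a ∧ b - ph * a ≤ u + 1 / 5 := by
  have h5 := s5
  have ha := al_bd
  have hc : (0 : ℝ) < 5 + 3 * al := by linarith [al_pos]
  have hd : (0 : ℝ) < 5 - 3 * ph := by rw [ph_one]; linarith
  have hd2 : 5 - 3 * ph ≤ 1 / 5 := by rw [ph_one]; linarith
  set s' := s / (5 + 3 * al) with hs'
  set u' := u / (5 - 3 * ph) with hu'
  set a0 : ℤ := ⌈(s' - u') / √5⌉ with ha0
  set b0 : ℤ := ⌈u' + ph * a0⌉ with hb0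
  have h5p : (0 : ℝ) < √5 := by linarith
  have e1 : (s' - u') / √5 ≤ a0 := Int.le_ceil _
  have e2 : (a0 : ℝ) < (s' - u') / √5 + 1 := Int.ceil_lt_add_one _
  have e3 : u' + ph * a0 ≤ b0 := Int.le_ceil _
  have e4 : (b0 : ℝ) < u' + ph * a0 + 1 := Int.ceil_lt_add_one _
  have e1' : s' - u' ≤ a0 * √5 := by rwa [div_le_iff₀ h5p] at e1
  have e2' : (a0 : ℝ) * √5 < s' - u' + √5 := by
    have := mul_lt_mul_of_pos_right e2 h5p
    rw [add_mul, div_mul_cancel₀ _ h5p.ne', one_mul] at this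
    exact this
  have eap := al_add_ph
  have l1 : s' ≤ b0 + al * a0 := by
    have : (al + ph) * a0 = √5 * a0 := by rw [eap]
    nlinarith
  have l2 : b0 + al * a0 ≤ s' + (1 + √5) := by
    have : (al + ph) * a0 = √5 * a0 := by rw [eap]
    nlinarith
  have l3 : u' ≤ b0 - ph * a0 := by linarith
  have l4 : b0 - ph * a0 ≤ u' + 1 := by linarith
  refine ⟨3 * b0 + 2 * a0, 5 * b0 + 3 * a0, ?_⟩
  have f1 : ((5 * b0 + 3 * a0 : ℤ) : ℝ) + al * ((3 * b0 + 2 * a0 : ℤ) : ℝ)
      = (5 + 3 * al) * (b0 + al * a0) := by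
    push_cast
    linear_combination (-3 * (a0 : ℝ)) * al_sq
  have f2 : ((5 * b0 + 3 * a0 : ℤ) : ℝ) - ph * ((3 * b0 + 2 * a0 : ℤ) : ℝ)
      = (5 - 3 * ph) * (b0 - ph * a0) := by
    push_cast
    linear_combination (-3 * (a0 : ℝ)) * ph_sq
  have hs : (5 + 3 * al) * s' = s := by rw [hs']; field_simp
  have hu : (5 - 3 * ph) * u' = u := by rw [hu']; field_simp
  rw [f1, f2]
  refine ⟨?_, ?_, ?_, ?_⟩
  · rw [← hs]; exact mul_le_mul_of_nonneg_left l1 hc.le
  · have := mul_le_mul_of_nonneg_left l2 hc.le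
    have h3 : (5 + 3 * al) * (1 + √5) ≤ 30 := by nlinarith
    linarith [mul_add (5 + 3 * al) s' (1 + √5)]
  · rw [← hu]; exact mul_le_mul_of_nonneg_left l3 hd.le
  · have := mul_le_mul_of_nonneg_left l4 hd.le
    linarith [mul_add (5 - 3 * ph) u' 1]

/-- counting by gaps -/
theorem gapcount {ι : Type*} (s : Finset ι) (f : ι → ℝ) (A T g : ℝ) (hg : 0 < g) (hT : 0 ≤ T)
    (hsep : ∀ i ∈ s, ∀ j ∈ s, i ≠ j → g ≤ |f i - f j|)
    (hmem : ∀ i ∈ s, A ≤ f i ∧ f i ≤ A + T) : (s.card : ℝ) ≤ 1 + T / g := by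
  have hinj : Set.InjOn (fun i => ⌊(f i - A) / g⌋₊) s := by
    intro i hi j hj hij
    by_contra hne
    have h1 := hsep i hi j hj hne
    have hij' : ⌊(f i - A) / g⌋₊ = ⌊(f j - A) / g⌋₊ := hij
    have pi : 0 ≤ (f i - A) / g := div_nonneg (by linarith [(hmem i hi).1]) hg.le
    have pj : 0 ≤ (f j - A) / g := div_nonneg (by linarith [(hmem j hj).1]) hg.le
    have a1 := Nat.floor_le pi
    have a2 := Nat.lt_floor_add_one ((f i - A) / g)
    have b1 := Nat.floor_le pj
    have b2 := Nat.lt_floor_add_one ((f j - A) / g)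
    rw [hij'] at a1 a2
    have c : |(f i - A) / g - (f j - A) / g| < 1 := by
      rw [abs_lt]; constructor <;> linarith
    have d : (f i - A) / g - (f j - A) / g = (f i - f j) / g := by ring
    rw [d, abs_div, abs_of_pos hg, div_lt_one hg] at c
    linarith
  have hcard : s.card ≤ (Finset.range (⌊T / g⌋₊ + 1)).card := by
    apply Finset.card_le_card_of_injOn (fun i => ⌊(f i - A) / g⌋₊) _ hinj
    intro i hi
    have hi' : i ∈ s := hi
    simp only [Finset.coe_range, Set.mem_Iio]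
    apply Nat.lt_succ_of_le
    apply Nat.floor_le_floor
    apply div_le_div_of_nonneg_right _ hg.le
    linarith [(hmem i hi').2]
  rw [Finset.card_range] at hcard
  have h1 : (s.card : ℝ) ≤ (⌊T / g⌋₊ : ℝ) + 1 := by exact_mod_cast hcard
  have h2 := Nat.floor_le (div_nonneg hT hg.le)
  linarith

/-- counting by fibres over integers -/
theorem fibcount {ι : Type*} (s : Finset ι) (n : ι → ℤ) (A T D : ℝ) (hT : 0 ≤ T) (hD : 0 ≤ D)
    (hmem : ∀ i ∈ s, A ≤ n i ∧ n i ≤ A + T)
    (hfib : ∀ z : ℤ, ((s.filter fun i => n i = z).card : ℝ) ≤ D) :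
    (s.card : ℝ) ≤ (1 + T) * D := by
  classical
  have h1 : (s.card : ℝ) = ∑ z ∈ s.image n, ((s.filter fun i => n i = z).card : ℝ) := by
    rw [Finset.card_eq_sum_card_image n s]; push_cast; rfl
  have h2 : (((s.image n).card : ℕ) : ℝ) ≤ 1 + T / 1 := by
    apply gapcount (s.image n) (fun z : ℤ => (z : ℝ)) A T 1 one_pos hT
    · intro i _ j _ hij
      have : (1 : ℤ) ≤ |i - j| := Int.one_le_abs (sub_ne_zero.2 hij)
      have h : ((1 : ℤ) : ℝ) ≤ ((|i - j| : ℤ) : ℝ) := by exact_mod_cast this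
      push_cast at h
      exact h
    · intro z hz
      obtain ⟨i, hi, rfl⟩ := Finset.mem_image.1 hz
      exact hmem i hi
  rw [h1]
  calc ∑ z ∈ s.image n, ((s.filter fun i => n i = z).card : ℝ)
      ≤ ∑ _z ∈ s.image n, D := Finset.sum_le_sum fun z _ => hfib z
    _ = ((s.image n).card : ℝ) * D := by rw [Finset.sum_const, nsmul_eq_mul]
    _ ≤ (1 + T) * D := by
        apply mul_le_mul_of_nonneg_right _ hD
        simpa using h2

/-- the pass parameters of a pair of integers -/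
noncomputable def tt (q : ℕ) (a b : ℤ) : ℝ := al ^ q * (b + al * a)

noncomputable def xx (q : ℕ) (a b : ℤ) : ℝ := Nat.fib q * tt q a b - a

theorem ph_tt (q : ℕ) (a b : ℤ) : ph ^ q * tt q a b = b + al * a := by
  rw [tt, ← mul_assoc, phq_alq, one_mul]

theorem s5_xx (q : ℕ) (a b : ℤ) : √5 * xx q a b = (b - ph * a) - (-al) ^ q * tt q a b := by
  have h1 := fib_s5 q
  have h2 := ph_tt q a b
  have h3 := al_add_ph
  rw [xx]
  calc √5 * (Nat.fib q * tt q a b - a) = (√5 * Nat.fib q) * tt q a b - √5 * a := by ring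
    _ = (b - ph * a) - (-al) ^ q * tt q a b := by
        rw [h1, ← h3]; linear_combination h2

theorem fwd (q : ℕ) (a b : ℤ) (j : ℕ) : (Nat.fib (q + j) : ℝ) * tt q a b
    = ((a * ((Nat.fib (j + 1) : ℤ) - Nat.fib j) + b * Nat.fib j : ℤ) : ℝ)
      + xx q a b * (-al) ^ j := by
  induction j using Nat.twoStepInduction with
  | zero => simp [xx]
  | one =>
    have h1 := fib_al q
    have h2 := ph_tt q a b
    rw [← h1] at h2
    simp only [xx, Nat.fib_two, Nat.fib_one]
    push_cast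
    linear_combination h2
  | more n h1 h2 =>
    have e1 : Nat.fib (q + (n + 2)) = Nat.fib (q + n) + Nat.fib (q + (n + 1)) := by
      rw [show q + (n + 2) = (q + n) + 2 by ring, Nat.fib_add_two]; rfl
    have e2 : Nat.fib (n + 2 + 1) = Nat.fib (n + 1) + Nat.fib (n + 1 + 1) := by
      rw [show n + 2 + 1 = (n + 1) + 2 by ring, Nat.fib_add_two]
    have e3 : Nat.fib (n + 2) = Nat.fib n + Nat.fib (n + 1) := Nat.fib_add_two
    have e4 : (-al) ^ (n + 2) = (-al) ^ n + (-al) ^ (n + 1) := by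
      rw [pow_succ, pow_succ]
      linear_combination ((-al) ^ n) * al_sq
    have e3' : (Nat.fib (n + 1 + 1) : ℝ) = Nat.fib n + Nat.fib (n + 1) := by
      exact_mod_cast e3
    rw [e1, e2, e3, e4]
    push_cast at h1 h2 ⊢
    linear_combination h1 + h2 + (a : ℝ) * e3'

theorem bwd (q : ℕ) (a b : ℤ) (κ : ℕ) : κ ≤ q → ∃ P : ℤ, (Nat.fib (q - κ) : ℝ) * tt q a b
    = P + xx q a b * (-ph) ^ κ := by
  induction κ using Nat.twoStepInduction with
  | zero => intro _; exact ⟨a, by simp [xx]⟩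
  | one =>
    intro h
    refine ⟨b - a, ?_⟩
    obtain ⟨r, rfl⟩ : ∃ r, q = r + 1 := ⟨q - 1, by omega⟩
    have h0 := fwd (r + 1) a b 0
    have h1 := fwd (r + 1) a b 1
    have e : Nat.fib (r + 1 + 1) = Nat.fib r + Nat.fib (r + 1) := Nat.fib_add_two
    rw [e] at h1
    simp only [Nat.fib_two, Nat.fib_one, Nat.fib_zero, add_zero] at h0 h1
    push_cast at h0 h1 ⊢
    simp only [Nat.add_sub_cancel, pow_one, pow_zero] at h0 h1 ⊢
    linear_combination h1 - h0 + (xx (r + 1) a b) * ph_one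
  | more n h1 h2 =>
    intro h
    obtain ⟨P1, hP1⟩ := h1 (by omega)
    obtain ⟨P2, hP2⟩ := h2 (by omega)
    refine ⟨P1 - P2, ?_⟩
    have e : Nat.fib (q - n) = Nat.fib (q - (n + 2)) + Nat.fib (q - (n + 1)) := by
      rw [show q - n = (q - (n + 2)) + 2 by omega, Nat.fib_add_two,
        show q - (n + 2) + 1 = q - (n + 1) by omega]
    rw [e] at hP1
    push_cast at hP1 ⊢
    have e4 : (-ph) ^ (n + 2) = (-ph) ^ n - (-ph) ^ (n + 1) := by
      rw [pow_succ, pow_succ]
      linear_combination ((-ph) ^ n) * ph_sq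
    rw [e4]
    linear_combination hP1 - hP2

end PassA

end FIB

namespace FIB

open Real MeasureTheory Set Filter Topology

namespace PassA

/-- hypotheses on the family of passes -/
structure Fam (θ : ℝ) (k m q : ℕ) (t0 h : ℝ) (N : ℕ) (A B : ℕ → ℤ) : Prop where
  hθ : 0 < θ
  hθ1 : θ ≤ 1 / 1000
  hm : 1 ≤ m
  hmq : m ≤ q
  ht0 : 0 ≤ t0
  hh : 0 < h
  hth : t0 + h ≤ 1
  hk : θ ^ k ≤ h * Nat.fib m
  hD : 1 ≤ θ ^ (k + 4) * (ph ^ q * h)
  tl : ∀ j < N, t0 + h / 4 ≤ tt q (A j) (B j)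
  tu : ∀ j < N, tt q (A j) (B j) ≤ t0 + 3 * h / 4
  xl : ∀ j < N, 3 / 20 ≤ xx q (A j) (B j)
  xu : ∀ j < N, xx q (A j) (B j) ≤ 1 / 4
  sep : ∀ i j, i ≠ j → 1 ≤ |((B i : ℝ) + al * A i) - ((B j : ℝ) + al * A j)|

variable {θ : ℝ} {k m q : ℕ} {t0 h : ℝ} {N : ℕ} {A B : ℕ → ℤ}

theorem Fam.pk (H : Fam θ k m q t0 h N A B) (j : ℕ) : θ ^ j ≤ 1 :=
  pow_le_one₀ H.hθ.le (by linarith [H.hθ1])

theorem Fam.basic (H : Fam θ k m q t0 h N A B) :
    1 ≤ θ ^ 4 * (ph ^ q * h) ∧ 1 ≤ θ ^ (k + 4) * ph ^ q := by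
  have h1 := H.hD
  have hq : 0 < ph ^ q := pow_pos ph_pos q
  have hDpos : 0 < ph ^ q * h := mul_pos hq H.hh
  constructor
  · have : θ ^ (k + 4) ≤ θ ^ 4 := by
      rw [pow_add]
      exact mul_le_of_le_one_left (pow_nonneg H.hθ.le 4) (H.pk k)
    exact h1.trans (mul_le_mul_of_nonneg_right this hDpos.le)
  · have hh1 : h ≤ 1 := by linarith [H.ht0, H.hth]
    calc 1 ≤ θ ^ (k + 4) * (ph ^ q * h) := h1
      _ ≤ θ ^ (k + 4) * (ph ^ q * 1) := by
          apply mul_le_mul_of_nonneg_left _ (pow_nonneg H.hθ.le _)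
          exact mul_le_mul_of_nonneg_left hh1 hq.le
      _ = _ := by rw [mul_one]

theorem Fam.tsep (H : Fam θ k m q t0 h N A B) {i j : ℕ} (hij : i ≠ j) :
    al ^ q ≤ |tt q (A i) (B i) - tt q (A j) (B j)| := by
  have h1 := H.sep i j hij
  have ha : 0 < al ^ q := pow_pos al_pos q
  have e : tt q (A i) (B i) - tt q (A j) (B j)
      = al ^ q * (((B i : ℝ) + al * A i) - ((B j : ℝ) + al * A j)) := by
    rw [tt, tt]; ring
  rw [e, abs_mul, abs_of_pos ha]
  exact le_mul_of_one_le_right ha.le h1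

open Classical in
/-- the bad passes for the index `i` -/
noncomputable def Sb (θ : ℝ) (k q N : ℕ) (A B : ℕ → ℤ) (i : ℕ) : Finset ℕ :=
  (Finset.range N).filter fun j => ∃ n : ℤ, |(Nat.fib i : ℝ) * tt q (A j) (B j) - n| < θ ^ (k + 2)

theorem Fam.boundA (H : Fam θ k m q t0 h N A B) {i : ℕ} (h1 : m ≤ i)
    (hc : ph ^ i ≤ θ * ph ^ q) :
    ((Sb θ k q N A B i).card : ℝ) ≤ 12 * θ * (ph ^ q * h) := by
  classical
  obtain ⟨b1, b2⟩ := H.basic
  have hθ := H.hθ
  have hθ1 := H.hθ1
  set δ := θ ^ (k + 2) with hδ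
  have hδ0 : 0 < δ := pow_pos hθ _
  have hδ1 : δ ≤ θ ^ 2 := by
    rw [hδ, pow_add]
    exact mul_le_of_le_one_left (pow_nonneg hθ.le 2) (H.pk k)
  have hθ2 : θ ^ 2 ≤ θ / 1000 := by nlinarith
  have hFm : (1 : ℝ) ≤ Nat.fib m := by
    have : 0 < Nat.fib m := Nat.fib_pos.2 H.hm
    exact_mod_cast this
  have hFi : (Nat.fib m : ℝ) ≤ Nat.fib i := by exact_mod_cast Nat.fib_mono h1
  set F : ℝ := ((Nat.fib i : ℕ) : ℝ) with hF
  have hF1 : 1 ≤ F := hFm.trans hFi
  have hF0 : 0 < F := by linarith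
  set P := ph ^ q with hP
  have hP0 : 0 < P := pow_pos ph_pos q
  have hh := H.hh
  have hPa : P * al ^ q = 1 := phq_alq q
  have ha0 : 0 < al ^ q := pow_pos al_pos q
  -- choose the integers
  have hex : ∀ j : ℕ, ∃ n : ℤ, j ∈ Sb θ k q N A B i → |F * tt q (A j) (B j) - n| < δ := by
    intro j
    by_cases hj : j ∈ Sb θ k q N A B i
    · obtain ⟨n, hn⟩ := (Finset.mem_filter.1 hj).2
      exact ⟨n, fun _ => hn⟩
    · exact ⟨0, fun h => absurd h hj⟩
  choose n hn using hex
  have hlt : ∀ j ∈ Sb θ k q N A B i, j < N := fun j hj =>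
    Finset.mem_range.1 (Finset.mem_filter.1 hj).1
  have hcount := fibcount (Sb θ k q N A B i) n (F * (t0 + h / 4) - δ) (F * h / 2 + 2 * δ)
    (1 + 2 * δ * P / F) (by positivity) (by positivity)
    (by
      intro j hj
      have e1 := abs_lt.1 (hn j hj)
      have e2 := mul_le_mul_of_nonneg_left (H.tl j (hlt j hj)) hF0.le
      have e3 := mul_le_mul_of_nonneg_left (H.tu j (hlt j hj)) hF0.le
      constructor
      · linarith [e1.1, e1.2]
      · have : F * (t0 + 3 * h / 4) = F * (t0 + h / 4) + F * h / 2 := by ring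
        linarith [e1.1, e1.2])
    (by
      intro z
      have := gapcount ((Sb θ k q N A B i).filter fun j => n j = z)
        (fun j => tt q (A j) (B j)) ((z - δ) / F) (2 * δ / F) (al ^ q) ha0 (by positivity)
        (by
          intro j _ j' _ hne
          exact H.tsep hne)
        (by
          intro j hj
          obtain ⟨hj1, hj2⟩ := Finset.mem_filter.1 hj
          have e1 := abs_lt.1 (hn j hj1)
          rw [hj2] at e1
          constructor
          · rw [div_le_iff₀ hF0]; linarith [e1.1, e1.2]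
          · rw [← add_div, le_div_iff₀ hF0]; linarith [e1.1, e1.2])
      have e : 2 * δ / F / al ^ q = 2 * δ * P / F := by
        rw [div_div, div_eq_div_iff (by positivity) (by positivity)]
        linear_combination (-2 * δ * F) * hPa
      rw [e] at this
      exact this)
  refine hcount.trans ?_
  have c1 : F * h ≤ θ * (P * h) := by
    have : F ≤ ph ^ i := fib_le i
    have := mul_le_mul_of_nonneg_right (this.trans hc) hh.le
    linarith
  have c2 : δ * P / F ≤ θ * (P * h) / 1000 := by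
    rw [div_le_iff₀ hF0]
    have : θ ^ k ≤ h * F := H.hk.trans (mul_le_mul_of_nonneg_left hFi hh.le)
    calc δ * P = θ ^ 2 * P * θ ^ k := by rw [hδ, pow_add]; ring
      _ ≤ θ ^ 2 * P * (h * F) := mul_le_mul_of_nonneg_left this (by positivity)
      _ ≤ (θ / 1000) * P * (h * F) := by
          apply mul_le_mul_of_nonneg_right _ (by positivity)
          exact mul_le_mul_of_nonneg_right hθ2 hP0.le
      _ = _ := by ring
  have c3 : 1 ≤ θ * (P * h) := by
    have : θ ^ 4 ≤ θ := by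
      calc θ ^ 4 = θ ^ 3 * θ := by ring
        _ ≤ 1 * θ := mul_le_mul_of_nonneg_right (H.pk 3) hθ.le
        _ = θ := one_mul _
    exact b1.trans (mul_le_mul_of_nonneg_right this (by positivity))
  have c4 : δ * (P * h) ≤ θ * (P * h) := by
    apply mul_le_mul_of_nonneg_right _ (by positivity)
    linarith
  have hD0 : 0 < P * h := by positivity
  have expand : (1 + (F * h / 2 + 2 * δ)) * (1 + 2 * δ * P / F)
      = 1 + F * h / 2 + 2 * δ + (2 + 4 * δ) * (δ * P / F) + δ * (P * h) := by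
    field_simp; ring
  rw [expand]
  have hδs : δ ≤ 1 / 1000 := by nlinarith
  have hx0 : 0 ≤ δ * P / F := by positivity
  nlinarith

theorem Fam.boundB (H : Fam θ k m q t0 h N A B) {i : ℕ} (h2 : i ≤ q)
    (hc : θ * ph ^ q < ph ^ i) :
    ((Sb θ k q N A B i).card : ℝ) ≤ 12 * θ * (ph ^ q * h) := by
  classical
  obtain ⟨b1, b2⟩ := H.basic
  have hθ := H.hθ
  have hθ1 := H.hθ1
  obtain ⟨κ, hκ⟩ : ∃ κ, κ = q - i := ⟨_, rfl⟩
  have hqi : q = κ + i := by omega
  have hi : i = q - κ := by omega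
  set δ := θ ^ (k + 2) with hδ
  have hδ0 : 0 < δ := pow_pos hθ _
  have hδ1 : δ ≤ θ ^ 2 := by
    rw [hδ, pow_add]
    exact mul_le_of_le_one_left (pow_nonneg hθ.le 2) (H.pk k)
  have hθ2 : θ ^ 2 ≤ θ / 1000 := by nlinarith
  have hδs : δ ≤ 1 / 1000 := by nlinarith
  set P := ph ^ q with hP
  have hP0 : 0 < P := pow_pos ph_pos q
  have hh := H.hh
  have hPa : P * al ^ q = 1 := phq_alq q
  have ha0 : 0 < al ^ q := pow_pos al_pos q
  set K := ph ^ κ with hK
  have hK0 : 0 < K := pow_pos ph_pos κ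
  have hKa : K * al ^ κ = 1 := phq_alq κ
  set a := al ^ κ with ha
  have ha00 : 0 < a := pow_pos al_pos κ
  have ha1 : a ≤ 1 := pow_le_one₀ al_pos.le al_lt_one.le
  have hKθ : θ * K ≤ 1 := by
    have e : P = K * ph ^ i := by rw [hP, hK, hqi, pow_add]
    have hpi : 0 < ph ^ i := pow_pos ph_pos i
    rw [e] at hc
    by_contra hcon
    push Not at hcon
    have : ph ^ i < θ * K * ph ^ i := lt_mul_of_one_lt_left hpi hcon
    linarith
  have haθ : θ ≤ a := by
    calc θ = θ * (K * a) := by rw [hKa, mul_one]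
      _ = (θ * K) * a := by ring
      _ ≤ 1 * a := mul_le_mul_of_nonneg_right hKθ ha00.le
      _ = a := one_mul a
  obtain ⟨_, hsgn, hs2⟩ : ∃ s : ℤ, (s = (-1) ^ κ) ∧ (s * s = 1) := by
    refine ⟨(-1) ^ κ, rfl, ?_⟩
    rw [← mul_pow]; norm_num
  have hex : ∀ j : ℕ, ∃ n : ℤ, j ∈ Sb θ k q N A B i → |xx q (A j) (B j) * K - n| < δ := by
    intro j
    by_cases hj : j ∈ Sb θ k q N A B i
    · obtain ⟨n, hn⟩ := (Finset.mem_filter.1 hj).2
      obtain ⟨p, hp⟩ := bwd q (A j) (B j) κ (by omega)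
      rw [← hi] at hp
      refine ⟨(-1) ^ κ * (n - p), fun _ => ?_⟩
      rw [hp] at hn
      have e : (-ph) ^ κ = (-1) ^ κ * K := by rw [hK, ← mul_pow]; ring
      have e2 : ((-1 : ℝ) ^ κ) * (-1) ^ κ = 1 := by rw [← mul_pow]; norm_num
      have e3 : |(-1 : ℝ) ^ κ| = 1 := by simp
      have e4 : xx q (A j) (B j) * K - (((-1) ^ κ * (n - p) : ℤ) : ℝ)
          = (-1) ^ κ * ((p : ℝ) + xx q (A j) (B j) * (-ph) ^ κ - n) := by
        rw [e]; push_cast
        linear_combination (-(xx q (A j) (B j) * K)) * e2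
      rw [e4, abs_mul, e3, one_mul]
      exact hn
    · exact ⟨0, fun h => absurd h hj⟩
  choose n hn using hex
  have hlt : ∀ j ∈ Sb θ k q N A B i, j < N := fun j hj =>
    Finset.mem_range.1 (Finset.mem_filter.1 hj).1
  have hη : al ^ q ≤ 2 * δ * a := by
    -- `al^q ≤ θ^(k+4) ≤ 2 δ θ`
    have e1 : al ^ q ≤ θ ^ (k + 4) := by
      calc al ^ q = al ^ q * 1 := (mul_one _).symm
        _ ≤ al ^ q * (θ ^ (k + 4) * P) := mul_le_mul_of_nonneg_left b2 ha0.le
        _ = θ ^ (k + 4) * (P * al ^ q) := by ring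
        _ = _ := by rw [hPa, mul_one]
    have e2 : θ ^ (k + 4) = δ * θ ^ 2 := by rw [hδ, ← pow_add]
    rw [e2] at e1
    have e3 : δ * θ ^ 2 ≤ δ * a := by
      apply mul_le_mul_of_nonneg_left _ hδ0.le
      nlinarith
    nlinarith [mul_pos hδ0 ha00]
  have hη0 : 0 < 2 * δ * a := by positivity
  have hcount := fibcount (Sb θ k q N A B i) n (3 / 20 * K - δ) (K / 10 + 2 * δ)
    (1 + 4 * δ * a * (P * h)) (by positivity) (by positivity)
    (by
      intro j hj
      have e1 := abs_lt.1 (hn j hj)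
      have e2 := mul_le_mul_of_nonneg_right (H.xl j (hlt j hj)) hK0.le
      have e3 := mul_le_mul_of_nonneg_right (H.xu j (hlt j hj)) hK0.le
      constructor <;> linarith [e1.1, e1.2])
    (by
      intro z
      have := gapcount ((Sb θ k q N A B i).filter fun j => n j = z)
        (fun j => tt q (A j) (B j)) (t0 + h / 4) (h / 2) (al ^ q / (4 * (2 * δ * a)))
        (by positivity) (by positivity)
        (by
          intro j hj j' hj' hne
          obtain ⟨hj1, hj2⟩ := Finset.mem_filter.1 hj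
          obtain ⟨hj1', hj2'⟩ := Finset.mem_filter.1 hj'
          have e1 := abs_lt.1 (hn j hj1)
          have e1' := abs_lt.1 (hn j' hj1')
          rw [hj2] at e1
          rw [hj2'] at e1'
          set x1 := xx q (A j) (B j) with hx1
          set x2 := xx q (A j') (B j') with hx2
          set t1 := tt q (A j) (B j) with ht1
          set t2 := tt q (A j') (B j') with ht2
          have dx : |x1 - x2| ≤ 2 * δ * a := by
            have e5 : |(x1 - x2) * K| ≤ 2 * δ := by
              rw [abs_le]; constructor <;> nlinarith [e1.1, e1.2, e1'.1, e1'.2]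
            rw [abs_mul, abs_of_pos hK0] at e5
            calc |x1 - x2| = |x1 - x2| * K * a := by rw [mul_assoc, hKa, mul_one]
              _ ≤ 2 * δ * a := mul_le_mul_of_nonneg_right e5 ha00.le
          have hsep := H.sep j j' hne
          -- integers
          have hne0 : ¬ (A j - A j' = 0 ∧ B j - B j' = 0) := by
            rintro ⟨z1, z2⟩
            have z1' : A j = A j' := by linarith
            have z2' : B j = B j' := by linarith
            rw [z1', z2'] at hsep
            simp at hsep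
            linarith
          have hnorm := norm_ge (A j - A j') (B j - B j') hne0
          have l1 : ((B j - B j' : ℤ) : ℝ) + al * ((A j - A j' : ℤ) : ℝ) = P * (t1 - t2) := by
            have r1 := ph_tt q (A j) (B j)
            have r2 := ph_tt q (A j') (B j')
            push_cast
            linear_combination r2 - r1
          have l2 : ((B j - B j' : ℤ) : ℝ) - ph * ((A j - A j' : ℤ) : ℝ)
              = √5 * (x1 - x2) + (-al) ^ q * (t1 - t2) := by
            have r1 := s5_xx q (A j) (B j)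
            have r2 := s5_xx q (A j') (B j')
            push_cast
            linear_combination r2 - r1
          rw [l1, l2, abs_mul, abs_of_pos hP0] at hnorm
          have dt : |t1 - t2| ≤ 1 := by
            have q1 := H.tl j (hlt j hj1)
            have q2 := H.tu j (hlt j hj1)
            have q3 := H.tl j' (hlt j' hj1')
            have q4 := H.tu j' (hlt j' hj1')
            have := H.ht0
            have := H.hth
            rw [abs_le]; constructor <;> linarith
          have d2 : |√5 * (x1 - x2) + (-al) ^ q * (t1 - t2)| ≤ 4 * (2 * δ * a) := by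
            have s1 : |√5 * (x1 - x2)| ≤ 2.2361 * (2 * δ * a) := by
              rw [abs_mul, abs_of_nonneg (Real.sqrt_nonneg 5)]
              exact mul_le_mul s5.2.le dx (abs_nonneg _) (by norm_num)
            have s2 : |(-al) ^ q * (t1 - t2)| ≤ 2 * δ * a := by
              rw [abs_mul, abs_pow, abs_neg, abs_of_pos al_pos]
              calc al ^ q * |t1 - t2| ≤ al ^ q * 1 := mul_le_mul_of_nonneg_left dt ha0.le
                _ ≤ _ := by rw [mul_one]; exact hη
            exact (abs_add_le _ _).trans (by linarith)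
          have d3 : 1 ≤ P * |t1 - t2| * (4 * (2 * δ * a)) :=
            hnorm.trans (mul_le_mul_of_nonneg_left d2 (by positivity))
          rw [div_le_iff₀ (by positivity)]
          calc al ^ q = al ^ q * 1 := (mul_one _).symm
            _ ≤ al ^ q * (P * |t1 - t2| * (4 * (2 * δ * a))) := mul_le_mul_of_nonneg_left d3 ha0.le
            _ = (P * al ^ q) * (|t1 - t2| * (4 * (2 * δ * a))) := by ring
            _ = _ := by rw [hPa, one_mul])
        (by
          intro j hj
          obtain ⟨hj1, _⟩ := Finset.mem_filter.1 hj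
          refine ⟨H.tl j (hlt j hj1), ?_⟩
          have := H.tu j (hlt j hj1)
          linarith)
      have e : h / 2 / (al ^ q / (4 * (2 * δ * a))) = 4 * δ * a * (P * h) := by
        rw [div_div_eq_mul_div, div_eq_iff ha0.ne']
        linear_combination (-4 * δ * a * h) * hPa
      rw [e] at this
      exact this)
  refine hcount.trans ?_
  have hD0 : 0 < P * h := by positivity
  have c3 : 1 ≤ θ * (P * h) := by
    have : θ ^ 4 ≤ θ := by
      calc θ ^ 4 = θ ^ 3 * θ := by ring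
        _ ≤ 1 * θ := mul_le_mul_of_nonneg_right (H.pk 3) hθ.le
        _ = θ := one_mul _
    exact b1.trans (mul_le_mul_of_nonneg_right this (by positivity))
  have c5 : K ≤ θ * (P * h) := by
    have h3 : 1 ≤ θ ^ 2 * (P * h) := by
      have : θ ^ 4 ≤ θ ^ 2 := by
        calc θ ^ 4 = θ ^ 2 * θ ^ 2 := by ring
          _ ≤ 1 * θ ^ 2 := mul_le_mul_of_nonneg_right (H.pk 2) (by positivity)
          _ = _ := one_mul _
      exact b1.trans (mul_le_mul_of_nonneg_right this (by positivity))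
    calc K = K * 1 := (mul_one K).symm
      _ ≤ K * (θ ^ 2 * (P * h)) := mul_le_mul_of_nonneg_left h3 hK0.le
      _ = (θ * K) * (θ * (P * h)) := by ring
      _ ≤ 1 * (θ * (P * h)) := mul_le_mul_of_nonneg_right hKθ (by positivity)
      _ = _ := one_mul _
  have c4 : δ * (P * h) ≤ θ * (P * h) / 1000 := by
    calc δ * (P * h) ≤ (θ / 1000) * (P * h) :=
          mul_le_mul_of_nonneg_right (hδ1.trans hθ2) hD0.le
      _ = _ := by ring
  have c6 : δ * a * (P * h) ≤ θ * (P * h) / 1000 := by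
    refine le_trans ?_ c4
    apply mul_le_mul_of_nonneg_right _ hD0.le
    exact mul_le_of_le_one_right hδ0.le ha1
  have expand : (1 + (K / 10 + 2 * δ)) * (1 + 4 * δ * a * (P * h))
      = 1 + K / 10 + 2 * δ + (1 + 2 * δ) * 4 * (δ * a * (P * h))
        + 4 / 10 * (δ * (P * h)) := by
    linear_combination (4 / 10 * δ * (P * h)) * hKa
  rw [expand]
  have hx0 : 0 ≤ δ * a * (P * h) := by positivity
  nlinarith

end PassA

end FIB

namespace FIB

open Real MeasureTheory Set Filter Topology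

namespace PassA

theorem exists_good {θ : ℝ} {k m q : ℕ} {t0 h : ℝ} (hθ : 0 < θ) (hθ1 : θ ≤ 1 / 1000)
    (hm : 1 ≤ m) (hmq : m ≤ q) (ht0 : 0 ≤ t0) (hh : 0 < h) (hth : t0 + h ≤ 1)
    (hk : θ ^ k ≤ h * Nat.fib m) (hD : 1 ≤ θ ^ (k + 4) * (ph ^ q * h))
    (hs : 1488 * (((q + 1 - m : ℕ) : ℝ)) * θ < 1) :
    ∃ a b : ℤ, t0 + h / 4 ≤ tt q a b ∧ tt q a b ≤ t0 + 3 * h / 4 ∧ 3 / 20 ≤ xx q a b ∧
      xx q a b ≤ 1 / 4 ∧ ∀ i, m ≤ i → i ≤ q → ∀ n : ℤ,
        θ ^ (k + 2) ≤ |(Nat.fib i : ℝ) * tt q a b - n| := by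
  classical
  set P := ph ^ q with hP
  have hP0 : 0 < P := pow_pos ph_pos q
  have hPa : P * al ^ q = 1 := phq_alq q
  have ha0 : 0 < al ^ q := pow_pos al_pos q
  have hD0 : 0 < P * h := by positivity
  have hθk : θ ^ (k + 4) ≤ 1 / 1000 := by
    calc θ ^ (k + 4) = θ ^ (k + 3) * θ := by ring
      _ ≤ 1 * θ := mul_le_mul_of_nonneg_right (pow_le_one₀ hθ.le (by linarith)) hθ.le
      _ ≤ _ := by linarith
  have hh1 : h ≤ 1 := by linarith
  have hDl : 1000 ≤ P * h := by
    have := mul_le_mul_of_nonneg_right hθk hD0.le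
    linarith
  have haq : al ^ q ≤ 1 / 1000 := by
    have h1 : 1000 ≤ P := by
      calc (1000 : ℝ) ≤ P * h := hDl
        _ ≤ P * 1 := mul_le_mul_of_nonneg_left hh1 hP0.le
        _ = P := mul_one P
    have h2 := mul_le_mul_of_nonneg_right h1 ha0.le
    rw [hPa] at h2
    linarith
  set N := ⌊P * h / 62⌋₊ with hN
  have hN1 : (N : ℝ) ≤ P * h / 62 := Nat.floor_le (by positivity)
  have hN2 : P * h / 62 < N + 1 := Nat.lt_floor_add_one _
  choose A B b1 b2 b3 b4 using fun j : ℕ => box (P * (t0 + h / 4) + 31 * j) 0.346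
  have hlt : ∀ j < N, 31 * (j : ℝ) + 30 ≤ P * h / 2 := by
    intro j hj
    have : (j : ℝ) + 1 ≤ N := by exact_mod_cast hj
    linarith
  have htl : ∀ j < N, t0 + h / 4 ≤ tt q (A j) (B j) := by
    intro j hj
    have h1 : P * (t0 + h / 4) ≤ B j + al * A j := by
      have := b1 j
      have : (0 : ℝ) ≤ j := Nat.cast_nonneg j
      linarith
    have h2 := mul_le_mul_of_nonneg_left h1 ha0.le
    rw [tt]
    calc t0 + h / 4 = (P * al ^ q) * (t0 + h / 4) := by rw [hPa, one_mul]
      _ = al ^ q * (P * (t0 + h / 4)) := by ring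
      _ ≤ _ := h2
  have htu : ∀ j < N, tt q (A j) (B j) ≤ t0 + 3 * h / 4 := by
    intro j hj
    have h1 : B j + al * A j ≤ P * (t0 + 3 * h / 4) := by
      have := b2 j
      have := hlt j hj
      linarith
    have h2 := mul_le_mul_of_nonneg_left h1 ha0.le
    rw [tt]
    calc _ ≤ al ^ q * (P * (t0 + 3 * h / 4)) := h2
      _ = (P * al ^ q) * (t0 + 3 * h / 4) := by ring
      _ = _ := by rw [hPa, one_mul]
  have hx : ∀ j < N, 3 / 20 ≤ xx q (A j) (B j) ∧ xx q (A j) (B j) ≤ 1 / 4 := by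
    intro j hj
    have h1 := s5_xx q (A j) (B j)
    have h2 : |(-al) ^ q * tt q (A j) (B j)| ≤ 1 / 1000 := by
      rw [abs_mul, abs_pow, abs_neg, abs_of_pos al_pos]
      have : |tt q (A j) (B j)| ≤ 1 := by
        rw [abs_le]
        have := htl j hj
        have := htu j hj
        constructor <;> linarith
      calc al ^ q * |tt q (A j) (B j)| ≤ al ^ q * 1 := mul_le_mul_of_nonneg_left this ha0.le
        _ ≤ _ := by rw [mul_one]; exact haq
    have h3 := abs_le.1 h2
    have c3 := b3 j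
    have c4 := b4 j
    obtain ⟨g1, g2⟩ := s5
    have k1 : (0.345 : ℝ) ≤ √5 * xx q (A j) (B j) := by
      rw [h1]; linarith [h3.1, h3.2]
    have k2 : √5 * xx q (A j) (B j) ≤ 0.547 := by
      rw [h1]; linarith [h3.1, h3.2]
    constructor
    · by_contra hcon
      push Not at hcon
      have : √5 * xx q (A j) (B j) < √5 * (3 / 20) :=
        mul_lt_mul_of_pos_left hcon (by linarith)
      linarith
    · by_contra hcon
      push Not at hcon
      have : √5 * (1 / 4) < √5 * xx q (A j) (B j) :=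
        mul_lt_mul_of_pos_left hcon (by linarith)
      linarith
  have hsep1 : ∀ i j : ℕ, i < j → 1 ≤ ((B j : ℝ) + al * A j) - ((B i : ℝ) + al * A i) := by
    intro i j hij
    have c1 := b2 i
    have c2 := b1 j
    have : (i : ℝ) + 1 ≤ j := by exact_mod_cast hij
    linarith
  have H : Fam θ k m q t0 h N A B :=
    { hθ := hθ
      hθ1 := hθ1
      hm := hm
      hmq := hmq
      ht0 := ht0
      hh := hh
      hth := hth
      hk := hk
      hD := hD
      tl := htl
      tu := htu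
      xl := fun j hj => (hx j hj).1
      xu := fun j hj => (hx j hj).2
      sep := by
        intro i j hij
        rcases Nat.lt_or_gt_of_ne hij with h1 | h1
        · rw [abs_sub_comm]
          exact (hsep1 i j h1).trans (le_abs_self _)
        · exact (hsep1 j i h1).trans (le_abs_self _) }
  by_contra hcon
  have hbad : ∀ j < N, ∃ i ∈ Finset.Icc m q, j ∈ Sb θ k q N A B i := by
    intro j hj
    by_contra hno
    apply hcon
    refine ⟨A j, B j, htl j hj, htu j hj, (hx j hj).1, (hx j hj).2, ?_⟩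
    intro i hi1 hi2 n
    by_contra hlt'
    push Not at hlt'
    apply hno
    refine ⟨i, Finset.mem_Icc.2 ⟨hi1, hi2⟩, ?_⟩
    exact Finset.mem_filter.2 ⟨Finset.mem_range.2 hj, n, hlt'⟩
  have hsub : Finset.range N ⊆ (Finset.Icc m q).biUnion (Sb θ k q N A B) := by
    intro j hj
    obtain ⟨i, hi, hji⟩ := hbad j (Finset.mem_range.1 hj)
    exact Finset.mem_biUnion.2 ⟨i, hi, hji⟩
  have hc1 : N ≤ ∑ i ∈ Finset.Icc m q, (Sb θ k q N A B i).card := by
    have := (Finset.card_le_card hsub).trans Finset.card_biUnion_le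
    rwa [Finset.card_range] at this
  have hc2 : (N : ℝ) ≤ ∑ i ∈ Finset.Icc m q, ((Sb θ k q N A B i).card : ℝ) := by
    exact_mod_cast hc1
  have hc3 : ∑ i ∈ Finset.Icc m q, ((Sb θ k q N A B i).card : ℝ)
      ≤ ∑ _i ∈ Finset.Icc m q, 12 * θ * (P * h) := by
    apply Finset.sum_le_sum
    intro i hi
    obtain ⟨i1, i2⟩ := Finset.mem_Icc.1 hi
    by_cases hcase : ph ^ i ≤ θ * ph ^ q
    · exact H.boundA i1 hcase
    · exact H.boundB i2 (by push Not at hcase; exact hcase)
  rw [Finset.sum_const, Nat.card_Icc, nsmul_eq_mul] at hc3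
  have hc4 : (N : ℝ) ≤ ((q + 1 - m : ℕ) : ℝ) * (12 * θ * (P * h)) := hc2.trans hc3
  have hc5 : P * h / 124 ≤ N := by linarith
  have hc6 : P * h ≤ 1488 * ((q + 1 - m : ℕ) : ℝ) * θ * (P * h) := by
    calc P * h = 124 * (P * h / 124) := by ring
      _ ≤ 124 * (((q + 1 - m : ℕ) : ℝ) * (12 * θ * (P * h))) := by linarith
      _ = _ := by ring
  have hc7 := mul_lt_mul_of_pos_right hs hD0
  linarith

theorem sin_lb (y δ : ℝ) (h : ∀ n : ℤ, δ ≤ |y - n|) : δ ≤ |Real.sin (π * y)| := by
  have h1 : |y - round y| ≤ 1 / 2 := abs_sub_round y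
  have e : π * y = π * (y - round y) + (round y : ℤ) * π := by ring
  rw [e, Real.sin_add_int_mul_pi, abs_mul]
  have h2 : |((-1 : ℝ)) ^ (round y)| = 1 := by
    rw [abs_zpow]; simp
  rw [h2, one_mul]
  have h3 : |π * (y - round y)| ≤ π / 2 := by
    rw [abs_mul, abs_of_pos Real.pi_pos]
    have := mul_le_mul_of_nonneg_left h1 Real.pi_pos.le
    linarith
  have h4 := Real.mul_abs_le_abs_sin h3
  have h5 : 2 / π * |π * (y - round y)| = 2 * |y - round y| := by
    rw [abs_mul, abs_of_pos Real.pi_pos]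
    field_simp
  rw [h5] at h4
  have := h (round y)
  have := abs_nonneg (y - round y)
  linarith

theorem log_ph : 1 / 3 ≤ Real.log ph := by
  have h1 : Real.exp 1 ≤ ph ^ 3 := by
    have := Real.exp_one_lt_d9
    have h2 : ph ^ 3 = 2 * ph + 1 := by
      linear_combination (ph + 1) * ph_sq
    rw [h2, ph_one]
    have := al_bd.1
    linarith
  have h2 := (Real.le_log_iff_exp_le (pow_pos ph_pos 3)).2 h1
  rw [Real.log_pow] at h2
  push_cast at h2
  linarith

theorem small_d {θ : ℝ} {k d : ℕ} (hθ : 0 < θ) (hθ1 : θ < (1 / (2000 * (12 * k + 26))) ^ 2)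
    (hd : θ ^ (2 * k + 4) * ph ^ d < 1) : 1488 * ((d : ℝ) + 2) * θ < 1 := by
  set s := √θ with hs
  have hs0 : 0 < s := Real.sqrt_pos.2 hθ
  have hss : s * s = θ := Real.mul_self_sqrt hθ.le
  have hk0 : (0 : ℝ) ≤ k := Nat.cast_nonneg k
  have hs1 : s < 1 / (2000 * (12 * k + 26)) := by
    rw [hs, Real.sqrt_lt' (by positivity)]; exact hθ1
  have hs2 : s * (2000 * (12 * k + 26)) < 1 := by
    rwa [lt_div_iff₀ (by positivity)] at hs1
  have hs3 : s ≤ 1 := by nlinarith
  have hlog : (2 * k + 4 : ℝ) * Real.log θ + d * Real.log ph < 0 := by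
    have := Real.log_lt_log (by have := ph_pos; positivity) hd
    rw [Real.log_one, Real.log_mul (by positivity) (by have := ph_pos; positivity),
      Real.log_pow, Real.log_pow] at this
    push_cast at this
    exact this
  have hlθ : Real.log θ = 2 * Real.log s := by
    rw [← hss, Real.log_mul hs0.ne' hs0.ne']; ring
  have hls : -Real.log s ≤ 1 / s := by
    rw [← Real.log_inv]
    have := Real.log_le_sub_one_of_pos (inv_pos.2 hs0)
    rw [one_div]
    linarith
  have hd0 : (0 : ℝ) ≤ d := Nat.cast_nonneg d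
  have h1 : (d : ℝ) * (1 / 3) ≤ d * Real.log ph := mul_le_mul_of_nonneg_left log_ph hd0
  have h2 : (2 * k + 4 : ℝ) * (-(2 * Real.log s)) ≤ (2 * k + 4) * (2 * (1 / s)) := by
    apply mul_le_mul_of_nonneg_left _ (by positivity)
    linarith
  rw [hlθ] at hlog
  have h3 : (d : ℝ) * (1 / 3) ≤ (2 * k + 4) * (2 * (1 / s)) := by linarith
  have h4 : (d : ℝ) ≤ (12 * k + 24) / s := by
    have : (12 * (k : ℝ) + 24) / s = 3 * ((2 * k + 4) * (2 * (1 / s))) := by ring
    rw [this]; linarith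
  have h5 : (d : ℝ) * s ≤ 12 * k + 24 := by
    rwa [le_div_iff₀ hs0] at h4
  have h6 : ((d : ℝ) + 2) * s ≤ 12 * k + 26 := by nlinarith
  calc 1488 * ((d : ℝ) + 2) * θ = 1488 * (((d : ℝ) + 2) * s) * s := by rw [← hss]; ring
    _ ≤ 1488 * (12 * k + 26) * s := by
        apply mul_le_mul_of_nonneg_right _ hs0.le
        linarith
    _ < 1 := by nlinarith

end PassA

open PassA in
theorem passArith : PassArith := by
  intro k
  refine ⟨2 * k + 5, (1 / (2000 * (12 * k + 26))) ^ 2, by positivity, ?_⟩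
  intro θ hθ hθ0 m t0 h hm ht0 hh hth hk
  have hk0 : (0 : ℝ) ≤ k := Nat.cast_nonneg k
  have hθ1 : θ ≤ 1 / 1000 := by
    refine hθ0.le.trans ?_
    have h1 : (1 : ℝ) / (2000 * (12 * k + 26)) ≤ 1 / 1000 := by
      apply one_div_le_one_div_of_le (by norm_num)
      nlinarith
    have h2 : (0 : ℝ) ≤ 1 / (2000 * (12 * k + 26)) := by positivity
    nlinarith
  have hex : ∃ d : ℕ, 1 ≤ θ ^ (k + 4) * (ph ^ (m + d) * h) := by
    have hc : 0 < θ ^ (k + 4) * (ph ^ m * h) := by have := ph_pos; positivity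
    obtain ⟨d, hd⟩ := pow_unbounded_of_one_lt (1 / (θ ^ (k + 4) * (ph ^ m * h))) one_lt_ph
    refine ⟨d, ?_⟩
    rw [div_lt_iff₀ hc] at hd
    refine hd.le.trans (le_of_eq ?_)
    rw [pow_add]; ring
  classical
  set d0 := Nat.find hex with hd0
  have hD : 1 ≤ θ ^ (k + 4) * (ph ^ (m + d0) * h) := Nat.find_spec hex
  have hFm0 : (0 : ℝ) < Nat.fib m := by
    have : 0 < Nat.fib m := Nat.fib_pos.2 hm
    exact_mod_cast this
  have hθC : ∀ j : ℕ, θ ^ j ≤ 1 := fun j => pow_le_one₀ hθ.le (by linarith)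
  have hkey : (Nat.fib (m + d0) : ℝ) * θ ^ (2 * k + 5) ≤ Nat.fib m ∧
      1488 * (((m + d0 + 1 - m : ℕ) : ℝ)) * θ < 1 := by
    rcases Nat.eq_zero_or_pos d0 with h0 | h0
    · rw [h0]
      constructor
      · simpa using mul_le_of_le_one_right hFm0.le (hθC (2 * k + 5))
      · have : ((m + 0 + 1 - m : ℕ) : ℝ) = 1 := by
          rw [show m + 0 + 1 - m = 1 by omega]; norm_num
        rw [this]
        have h2 := small_d (d := 0) (k := k) hθ hθ0 (by
          rw [pow_zero, mul_one]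
          calc θ ^ (2 * k + 4) = θ ^ (2 * k + 3) * θ := by ring
            _ ≤ 1 * θ := mul_le_mul_of_nonneg_right (hθC _) hθ.le
            _ < 1 := by linarith)
        push_cast at h2
        linarith
    · obtain ⟨d, hd⟩ : ∃ d, d0 = d + 1 := ⟨d0 - 1, by omega⟩
      have hnot : ¬ (1 ≤ θ ^ (k + 4) * (ph ^ (m + d) * h)) := Nat.find_min hex (by omega)
      push Not at hnot
      have hP0 : 0 < ph ^ (m + d) := pow_pos ph_pos _
      have h1 : θ ^ (2 * k + 4) * ph ^ (m + d) < Nat.fib m := by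
        calc θ ^ (2 * k + 4) * ph ^ (m + d) = θ ^ (k + 4) * ph ^ (m + d) * θ ^ k := by ring
          _ ≤ θ ^ (k + 4) * ph ^ (m + d) * (h * Nat.fib m) :=
              mul_le_mul_of_nonneg_left hk (by positivity)
          _ = (θ ^ (k + 4) * (ph ^ (m + d) * h)) * Nat.fib m := by ring
          _ < 1 * Nat.fib m := mul_lt_mul_of_pos_right hnot hFm0
          _ = _ := one_mul _
      constructor
      · rw [hd]
        have h2 : (Nat.fib (m + (d + 1)) : ℝ) ≤ 2 * ph ^ (m + d) := by
          refine (fib_le _).trans ?_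
          have e : ph ^ (m + (d + 1)) = ph ^ (m + d) * ph := by
            rw [← pow_succ]; ring_nf
          rw [e]
          have := mul_le_mul_of_nonneg_left ph_lt_two.le hP0.le
          linarith
        calc (Nat.fib (m + (d + 1)) : ℝ) * θ ^ (2 * k + 5)
            ≤ 2 * ph ^ (m + d) * θ ^ (2 * k + 5) :=
              mul_le_mul_of_nonneg_right h2 (by positivity)
          _ = (2 * θ) * (θ ^ (2 * k + 4) * ph ^ (m + d)) := by ring
          _ ≤ (2 * θ) * Nat.fib m := mul_le_mul_of_nonneg_left h1.le (by positivity)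
          _ ≤ 1 * Nat.fib m := mul_le_mul_of_nonneg_right (by linarith) hFm0.le
          _ = _ := one_mul _
      · have h3 : θ ^ (2 * k + 4) * ph ^ d < 1 := by
          have hpm : 0 < ph ^ m := pow_pos ph_pos m
          have h4 : θ ^ (2 * k + 4) * ph ^ d * ph ^ m < 1 * ph ^ m := by
            calc θ ^ (2 * k + 4) * ph ^ d * ph ^ m = θ ^ (2 * k + 4) * ph ^ (m + d) := by
                  rw [pow_add ph m d]; ring
              _ < Nat.fib m := h1
              _ ≤ ph ^ m := fib_le m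
              _ = _ := (one_mul _).symm
          exact lt_of_mul_lt_mul_right h4 hpm.le
        have h5 := small_d (d := d) (k := k) hθ hθ0 h3
        have h6 : ((m + d0 + 1 - m : ℕ) : ℝ) = (d : ℝ) + 2 := by
          rw [hd, show m + (d + 1) + 1 - m = d + 2 by omega]; push_cast; ring
        rw [h6]; exact h5
  obtain ⟨a, b, g1, g2, g3, g4, g5⟩ :=
    exists_good hθ hθ1 hm (Nat.le_add_right m d0) ht0 hh hth hk hD hkey.2
  refine ⟨m + d0, tt (m + d0) a b, xx (m + d0) a b,
    fun i => a * ((Nat.fib (i - (m + d0) + 1) : ℤ) - Nat.fib (i - (m + d0)))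
      + b * Nat.fib (i - (m + d0)), Nat.le_add_right m d0, hkey.1, g1, g2, g3, g4, ?_, ?_, ?_⟩
  · intro i hi
    have := fwd (m + d0) a b (i - (m + d0))
    rw [show m + d0 + (i - (m + d0)) = i by omega] at this
    exact this
  · intro i hi
    obtain ⟨j, rfl⟩ : ∃ j, i = m + d0 + j := ⟨i - (m + d0), by omega⟩
    have e0 : m + d0 + j - (m + d0) = j := by omega
    have e1 : m + d0 + j + 1 - (m + d0) = j + 1 := by omega
    have e2 : m + d0 + j + 2 - (m + d0) = j + 2 := by omega
    have f1 : Nat.fib (j + 2 + 1) = Nat.fib (j + 1) + Nat.fib (j + 1 + 1) := by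
      rw [show j + 2 + 1 = (j + 1) + 2 by ring, Nat.fib_add_two]
    have f2 : Nat.fib (j + 2) = Nat.fib j + Nat.fib (j + 1) := Nat.fib_add_two
    have f2' : Nat.fib (j + 1 + 1) = Nat.fib j + Nat.fib (j + 1) := f2
    simp only [e0, e1, e2]
    rw [f1, f2]
    push_cast
    ring
  · intro i hi1 hi2
    have h1 := sin_lb ((Nat.fib i : ℝ) * tt (m + d0) a b) (θ ^ (k + 2)) (g5 i hi1 hi2)
    rw [mul_assoc]
    refine le_trans ?_ h1
    apply pow_le_pow_of_le_one hθ.le (by linarith)
    omega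

end FIB
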