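import Pool.Agent.Helper75.FIB.Iface3

/-!
# FIB block I2 : the pass lemma (abstract sequences)

Model: `s_i = s0 (-al)^i`, `u_i = u0 ph^i`, `h_i = s_i + u_i`, `τ0 ph^i`,
`Wh_i = -(l ph/(4 √5)) τ0 ph^i/(s_i h_i h_{i+1})`. Then
`Wh_{i+1} + Wh_i = (l/4) τ0 ph^{i+1}/(h_i h_{i+1} h_{i+2})` and
`Wh_i/(τ0 ph^i τ0 ph^{i+1}) = (l/(20 s0² u0 τ0)) (r_{i+1} - r_i)`, `r_i = s_i/h_i`.
-/

namespace FIB

open Real Finset

/-! ### constants -/

theorem i2_sqrt5 : √(5 : ℝ) = 2 * ph - 1 := by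
  unfold ph
  ring

theorem i2_ph_sq : ph ^ 2 = ph + 1 := by
  have h5 : √(5 : ℝ) ^ 2 = 5 := Real.sq_sqrt (by norm_num)
  unfold ph
  linear_combination (1 / 4) * h5

theorem i2_al_eq : al = ph - 1 := by
  unfold al ph
  ring

theorem i2_al_ph : al * ph = 1 := by
  rw [i2_al_eq]
  linear_combination i2_ph_sq

theorem i2_ph_lo : (1.618 : ℝ) < ph := by
  unfold ph
  have : (2.236 : ℝ) < √5 := by
    rw [Real.lt_sqrt (by norm_num)]
    norm_num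
  linarith

theorem i2_ph_hi : ph < (1.6181 : ℝ) := by
  unfold ph
  have : √5 < (2.2362 : ℝ) := by
    rw [Real.sqrt_lt' (by norm_num)]
    norm_num
  linarith

theorem i2_al_lo : (0.618 : ℝ) < al := by
  rw [i2_al_eq]
  linarith [i2_ph_lo]

theorem i2_al_hi : al < (0.6181 : ℝ) := by
  rw [i2_al_eq]
  linarith [i2_ph_hi]

theorem i2_alph_pow (i : ℕ) : al ^ i * ph ^ i = 1 := by
  rw [← mul_pow, i2_al_ph, one_pow]

theorem i2_sq_le (n : ℕ) : (n : ℝ) ^ 2 + 4 * n + 9 ≤ 9 * ph ^ n := by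
  induction n with
  | zero => norm_num
  | succ n ih =>
    have h1 : (0 : ℝ) ≤ n := Nat.cast_nonneg n
    have h2 := i2_ph_lo
    have h3 : ph ^ (n + 1) = ph ^ n * ph := pow_succ _ _
    have h4 : ((n : ℝ) ^ 2 + 4 * n + 9) * ph ≤ 9 * ph ^ n * ph :=
      mul_le_mul_of_nonneg_right ih (by linarith)
    have h5 : ((n : ℝ) ^ 2 + 4 * n + 9) * 1.618 ≤ ((n : ℝ) ^ 2 + 4 * n + 9) * ph :=
      mul_le_mul_of_nonneg_left h2.le (by positivity)
    rw [h3]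
    push_cast
    nlinarith

/-! ### the model -/

/-- stable part -/
noncomputable def i2s (s0 : ℝ) (i : ℕ) : ℝ := s0 * (-al) ^ i

/-- unstable part -/
noncomputable def i2u (u0 : ℝ) (i : ℕ) : ℝ := u0 * ph ^ i

/-- model phase -/
noncomputable def i2h (s0 u0 : ℝ) (i : ℕ) : ℝ := i2s s0 i + i2u u0 i

/-- size -/
noncomputable def i2M (s0 u0 : ℝ) (i : ℕ) : ℝ := s0 * al ^ i + u0 * ph ^ i

/-- model Wronskian -/
noncomputable def i2W (l t0 s0 u0 : ℝ) (i : ℕ) : ℝ :=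
  -(l * ph / (4 * √5)) * (t0 * ph ^ i) / (i2s s0 i * i2h s0 u0 i * i2h s0 u0 (i + 1))

/-- `s_i/h_i` -/
noncomputable def i2r (s0 u0 : ℝ) (i : ℕ) : ℝ := i2s s0 i / i2h s0 u0 i

theorem i2s_succ (s0 : ℝ) (i : ℕ) : i2s s0 (i + 1) = -al * i2s s0 i := by
  unfold i2s
  rw [pow_succ]
  ring

theorem i2u_succ (u0 : ℝ) (i : ℕ) : i2u u0 (i + 1) = ph * i2u u0 i := by
  unfold i2u
  rw [pow_succ]
  ring

theorem i2W_rec (l t0 s0 u0 : ℝ) (i : ℕ) (hs : i2s s0 i ≠ 0) (h0 : i2h s0 u0 i ≠ 0)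
    (h1 : i2h s0 u0 (i + 1) ≠ 0) (h2 : i2h s0 u0 (i + 2) ≠ 0) :
    i2W l t0 s0 u0 (i + 1) + i2W l t0 s0 u0 i =
      l / 4 * (t0 * ph ^ (i + 1)) /
        (i2h s0 u0 i * i2h s0 u0 (i + 1) * i2h s0 u0 (i + 2)) := by
  have hal : al ≠ 0 := by linarith [i2_al_lo]
  have h5 : √(5 : ℝ) ≠ 0 := by positivity
  have hs1 : i2s s0 (i + 1) = -al * i2s s0 i := i2s_succ s0 i
  have key : ph ^ 2 * i2h s0 u0 i - i2h s0 u0 (i + 2) = √5 * i2s s0 i := by
    unfold i2h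
    rw [i2s_succ, i2s_succ, i2u_succ, i2u_succ, i2_sqrt5, i2_al_eq]
    ring
  have hinv : (-al)⁻¹ = -ph := by
    rw [inv_eq_iff_eq_inv, ← neg_inv, neg_inj]
    exact eq_inv_of_mul_eq_one_left i2_al_ph
  have e1 : i2W l t0 s0 u0 (i + 1) = (l * ph / (4 * √5)) * (t0 * ph ^ i) *
      (ph ^ 2 * ((i2s s0 i)⁻¹ * (i2h s0 u0 (i + 1))⁻¹ * (i2h s0 u0 (i + 2))⁻¹)) := by
    unfold i2W
    rw [hs1, div_eq_mul_inv _ (-al * _ * _ * _), mul_inv, mul_inv, mul_inv, hinv, pow_succ]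
    ring
  have e0 : i2W l t0 s0 u0 i = (l * ph / (4 * √5)) * (t0 * ph ^ i) *
      (-((i2s s0 i)⁻¹ * (i2h s0 u0 i)⁻¹ * (i2h s0 u0 (i + 1))⁻¹)) := by
    unfold i2W
    rw [div_eq_mul_inv _ (_ * _ * _), mul_inv, mul_inv]
    ring
  have e2 : ph ^ 2 * ((i2s s0 i)⁻¹ * (i2h s0 u0 (i + 1))⁻¹ * (i2h s0 u0 (i + 2))⁻¹) +
      -((i2s s0 i)⁻¹ * (i2h s0 u0 i)⁻¹ * (i2h s0 u0 (i + 1))⁻¹) =
      √5 * ((i2h s0 u0 i)⁻¹ * (i2h s0 u0 (i + 1))⁻¹ * (i2h s0 u0 (i + 2))⁻¹) := by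
    have : ph ^ 2 * ((i2s s0 i)⁻¹ * (i2h s0 u0 (i + 1))⁻¹ * (i2h s0 u0 (i + 2))⁻¹) +
      -((i2s s0 i)⁻¹ * (i2h s0 u0 i)⁻¹ * (i2h s0 u0 (i + 1))⁻¹) =
      (ph ^ 2 * i2h s0 u0 i - i2h s0 u0 (i + 2)) * ((i2s s0 i)⁻¹ * (i2h s0 u0 i)⁻¹ *
        (i2h s0 u0 (i + 1))⁻¹ * (i2h s0 u0 (i + 2))⁻¹) := by
      field_simp
      ring
    rw [this, key]
    field_simp
  rw [e1, e0, ← mul_add, e2, div_eq_mul_inv _ (_ * _ * _), mul_inv, mul_inv, pow_succ]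
  field_simp

/-- the increments of the model -/
theorem i2W_tel (l t0 s0 u0 : ℝ) (i : ℕ) (hs0 : s0 ≠ 0) (hu0 : u0 ≠ 0) (ht0 : t0 ≠ 0)
    (h0 : i2h s0 u0 i ≠ 0) (h1 : i2h s0 u0 (i + 1) ≠ 0) :
    i2W l t0 s0 u0 i / (t0 * ph ^ i * (t0 * ph ^ (i + 1))) =
      l / (20 * (s0 ^ 2 * u0 * t0)) * (i2r s0 u0 (i + 1) - i2r s0 u0 i) := by
  have hph : ph ≠ 0 := by linarith [i2_ph_lo]
  have hal : al ≠ 0 := by linarith [i2_al_lo]
  have h5 : √(5 : ℝ) ≠ 0 := by positivity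
  have h5' : √(5 : ℝ) * √5 = 5 := Real.mul_self_sqrt (by norm_num)
  have hs : i2s s0 i ≠ 0 := by
    unfold i2s
    exact mul_ne_zero hs0 (pow_ne_zero _ (neg_ne_zero.mpr hal))
  have hr : i2r s0 u0 (i + 1) - i2r s0 u0 i =
      -√5 * (i2s s0 i * i2u u0 i) / (i2h s0 u0 i * i2h s0 u0 (i + 1)) := by
    unfold i2r
    rw [div_sub_div _ _ h1 h0, mul_comm (i2h s0 u0 (i + 1)) (i2h s0 u0 i)]
    congr 1
    unfold i2h
    rw [i2s_succ, i2u_succ, i2_sqrt5, i2_al_eq]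
    ring
  have hinv : i2s s0 i ^ 2 * i2u u0 i * ph ^ i = s0 ^ 2 * u0 := by
    unfold i2s i2u
    have : (-al) ^ i * (-al) ^ i = al ^ i * al ^ i := by
      rw [← mul_pow, ← mul_pow, neg_mul_neg]
    have h2 := i2_alph_pow i
    calc (s0 * (-al) ^ i) ^ 2 * (u0 * ph ^ i) * ph ^ i
        = s0 ^ 2 * u0 * (((-al) ^ i * (-al) ^ i) * (ph ^ i * ph ^ i)) := by ring
      _ = s0 ^ 2 * u0 * ((al ^ i * ph ^ i) * (al ^ i * ph ^ i)) := by rw [this]; ring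
      _ = s0 ^ 2 * u0 := by rw [h2]; ring
  rw [hr]
  unfold i2W
  rw [← hinv, pow_succ]
  have hu : i2u u0 i ≠ 0 := by
    unfold i2u
    positivity
  field_simp
  linear_combination (4 * l) * h5'

/-! ### bounds for the phases -/

/-- the data of the pass lemma (phases) -/
structure I2C (l u0 s0 : ℝ) (n : ℕ) (th : ℕ → ℝ) : Prop where
  l_pos : 0 < l
  u_pos : 0 < u0
  u_le : u0 ≤ 1 / 10 ^ 14
  l_le : l ≤ u0 ^ 10
  s_lo : 2 / 5 ≤ s0
  s_hi : s0 ≤ 4 / 5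
  th_le : ∀ i ≤ n, |th i| ≤ 1
  th_s : ∀ i ≤ n, 3 / 10 * |s0 * (-al) ^ i| ≤ |th i|
  th_u : ∀ i ≤ n, 3 / 10 * (u0 * ph ^ i) ≤ |th i|
  th_h : ∀ i ≤ n, |th i - (s0 * (-al) ^ i + u0 * ph ^ i)| ≤ u0 ^ 4
  un : u0 * ph ^ n ≤ 1 / 2

section ctx

variable {l u0 s0 : ℝ} {n : ℕ} {th : ℕ → ℝ} (H : I2C l u0 s0 n th)

include H

theorem I2C.s_pos : 0 < s0 := by linarith [H.s_lo]

theorem I2C.u3 : u0 ^ 3 ≤ 1 / 10 ^ 6 := by
  have h1 := H.u_pos
  have h2 : u0 ≤ 1 / 10 ^ 2 := H.u_le.trans (by norm_num)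
  calc u0 ^ 3 ≤ (1 / 10 ^ 2) ^ 3 := pow_le_pow_left₀ h1.le h2 3
    _ = 1 / 10 ^ 6 := by norm_num

theorem I2C.u2 : u0 ^ 2 ≤ 1 / 10 ^ 9 := by
  have h1 := H.u_pos
  have h2 : u0 ≤ 1 / 10 ^ 5 := H.u_le.trans (by norm_num)
  calc u0 ^ 2 ≤ (1 / 10 ^ 5) ^ 2 := pow_le_pow_left₀ h1.le h2 2
    _ ≤ 1 / 10 ^ 9 := by norm_num

theorem I2C.u4 : u0 ^ 4 ≤ 1 / 10 ^ 6 * u0 := by
  have h1 := H.u_pos
  have h2 := H.u3
  calc u0 ^ 4 = u0 ^ 3 * u0 := by ring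
    _ ≤ 1 / 10 ^ 6 * u0 := mul_le_mul_of_nonneg_right h2 h1.le

theorem I2C.uph {i : ℕ} (hi : i ≤ n) : u0 * ph ^ i ≤ 1 / 2 := by
  refine le_trans ?_ H.un
  exact mul_le_mul_of_nonneg_left (pow_le_pow_right₀ (by linarith [i2_ph_lo]) hi) H.u_pos.le

theorem I2C.alow {i : ℕ} (hi : i ≤ n) : 2 * u0 ≤ al ^ i := by
  have h1 := H.uph hi
  have h2 := i2_alph_pow i
  have h3 : 0 < al ^ i := pow_pos (by linarith [i2_al_lo]) i
  have h4 := mul_le_mul_of_nonneg_right h1 h3.le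
  have h5 : u0 * ph ^ i * al ^ i = u0 := by
    calc u0 * ph ^ i * al ^ i = u0 * (al ^ i * ph ^ i) := by ring
      _ = u0 := by rw [h2, mul_one]
  linarith

omit H in
theorem i2_abs_s (hs : 0 < s0) (i : ℕ) : |i2s s0 i| = s0 * al ^ i := by
  unfold i2s
  rw [abs_mul, abs_pow, abs_neg, abs_of_pos hs, abs_of_pos (by linarith [i2_al_lo] : (0 : ℝ) < al)]

omit H in
theorem i2_al_pow_pos (i : ℕ) : 0 < al ^ i := pow_pos (by linarith [i2_al_lo]) i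

omit H in
theorem i2_ph_pow_pos (i : ℕ) : 0 < ph ^ i := pow_pos (by linarith [i2_ph_lo]) i

omit H in
theorem i2_al_pow_le (i : ℕ) : al ^ i ≤ 1 :=
  pow_le_one₀ (by linarith [i2_al_lo]) (by linarith [i2_al_hi])

theorem I2C.M_pos (i : ℕ) : 0 < i2M s0 u0 i := by
  unfold i2M
  have h1 := H.s_pos
  have h2 := H.u_pos
  have h3 := i2_al_pow_pos i
  have h4 := i2_ph_pow_pos i
  positivity

theorem I2C.M_hi {i : ℕ} (hi : i ≤ n) : i2M s0 u0 i ≤ 13 / 10 := by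
  unfold i2M
  have h1 := H.uph hi
  have h2 : s0 * al ^ i ≤ s0 * 1 := mul_le_mul_of_nonneg_left (i2_al_pow_le i) H.s_pos.le
  linarith [H.s_hi]

theorem I2C.M_sq (i : ℕ) : 8 / 5 * u0 ≤ i2M s0 u0 i ^ 2 := by
  unfold i2M
  have h1 := i2_alph_pow i
  have h2 : 4 * (s0 * al ^ i) * (u0 * ph ^ i) ≤ (s0 * al ^ i + u0 * ph ^ i) ^ 2 := by
    nlinarith [sq_nonneg (s0 * al ^ i - u0 * ph ^ i)]
  have h3 : 4 * (s0 * al ^ i) * (u0 * ph ^ i) = 4 * s0 * u0 := by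
    calc 4 * (s0 * al ^ i) * (u0 * ph ^ i) = 4 * s0 * u0 * (al ^ i * ph ^ i) := by ring
      _ = 4 * s0 * u0 := by rw [h1, mul_one]
  rw [h3] at h2
  nlinarith [H.s_lo, H.u_pos]

theorem I2C.M_u (i : ℕ) : u0 * ph ^ i ≤ i2M s0 u0 i := by
  unfold i2M
  have := mul_pos H.s_pos (i2_al_pow_pos i)
  linarith

theorem I2C.M_u' (i : ℕ) : u0 ≤ i2M s0 u0 i := by
  refine le_trans ?_ (H.M_u i)
  have : (1 : ℝ) ≤ ph ^ i := one_le_pow₀ (by linarith [i2_ph_lo])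
  nlinarith [H.u_pos]

theorem I2C.M_s (i : ℕ) : s0 * al ^ i ≤ i2M s0 u0 i := by
  unfold i2M
  have := mul_pos H.u_pos (i2_ph_pow_pos i)
  linarith

theorem I2C.h_lo {i : ℕ} (hi : i ≤ n) : i2M s0 u0 i / 8 ≤ |i2h s0 u0 i| := by
  have h1 := H.th_s i hi
  have h2 := H.th_u i hi
  have h3 := H.th_h i hi
  have h4 : |s0 * (-al) ^ i| = s0 * al ^ i := i2_abs_s H.s_pos i
  rw [h4] at h1
  have h5 := H.u4
  have h6 := H.M_u' i
  have h7 : |th i| ≤ |i2h s0 u0 i| + u0 ^ 4 := by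
    have := abs_sub_abs_le_abs_sub (th i) (s0 * (-al) ^ i + u0 * ph ^ i)
    unfold i2h i2s i2u
    linarith
  have h8 : i2M s0 u0 i = s0 * al ^ i + u0 * ph ^ i := rfl
  have := H.u_pos
  linarith

theorem I2C.h_hi (i : ℕ) : |i2h s0 u0 i| ≤ i2M s0 u0 i := by
  unfold i2h
  refine (abs_add_le _ _).trans ?_
  rw [i2_abs_s H.s_pos]
  unfold i2M i2u
  rw [abs_of_pos (mul_pos H.u_pos (i2_ph_pow_pos i))]

theorem I2C.h_ne {i : ℕ} (hi : i ≤ n) : i2h s0 u0 i ≠ 0 := by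
  have h1 := H.h_lo hi
  have h2 := H.M_pos i
  intro h
  rw [h, abs_zero] at h1
  linarith

theorem I2C.h_hi1 {i : ℕ} (hi : i ≤ n) : |i2h s0 u0 i| ≤ 101 / 100 := by
  have h1 := H.th_le i hi
  have h2 := H.th_h i hi
  have h3 := H.u4
  have h4 := H.u_le
  have h5 : |i2h s0 u0 i| ≤ |th i| + u0 ^ 4 := by
    have := abs_sub_abs_le_abs_sub (s0 * (-al) ^ i + u0 * ph ^ i) (th i)
    rw [abs_sub_comm] at this
    unfold i2h i2s i2u
    linarith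
  have : u0 ≤ 1 := h4.trans (by norm_num)
  linarith

omit H in
theorem i2_sin (x : ℝ) (hx : |x| ≤ 1) : |Real.sin x - x| ≤ |x| ^ 3 / 4 := by
  have h1 := Real.sin_bound hx
  have h2 : |Real.sin x - x| ≤ |Real.sin x - (x - x ^ 3 / 6)| + |x ^ 3 / 6| := by
    have := abs_sub (Real.sin x - (x - x ^ 3 / 6)) (x ^ 3 / 6)
    have e : Real.sin x - (x - x ^ 3 / 6) - x ^ 3 / 6 = Real.sin x - x := by ring
    rwa [e] at this
  have h3 : |x ^ 3 / 6| = |x| ^ 3 / 6 := by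
    rw [abs_div, abs_pow]
    norm_num
  have h4 : |x| ^ 5 ≤ |x| ^ 3 := pow_le_pow_of_le_one (abs_nonneg _) hx (by norm_num)
  rw [h3] at h2
  have h5 : 0 ≤ |x| ^ 3 := by positivity
  linarith

/-- `sin θ_i` is close to `h_i` -/
theorem I2C.sin_h {i : ℕ} (hi : i ≤ n) :
    |Real.sin (th i) - i2h s0 u0 i| ≤ 26 / 100 * |i2h s0 u0 i| ^ 3 := by
  have h1 := i2_sin (th i) (H.th_le i hi)
  have h2 := H.th_h i hi
  have h3 := H.h_lo hi
  have h4 := H.h_hi1 hi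
  have h5 := H.M_sq i
  have h6 := H.M_u' i
  have hM := H.M_pos i
  have hu := H.u_pos
  have hu2 := H.u2
  set h := |i2h s0 u0 i| with hh
  have hh0 : 0 ≤ h := abs_nonneg _
  have hx : |th i| ≤ h + u0 ^ 4 := by
    have := abs_sub_abs_le_abs_sub (th i) (s0 * (-al) ^ i + u0 * ph ^ i)
    have e : i2h s0 u0 i = s0 * (-al) ^ i + u0 * ph ^ i := rfl
    rw [hh, e]
    linarith
  have hsq : u0 / 40 ≤ h ^ 2 := by
    have : (i2M s0 u0 i / 8) ^ 2 ≤ h ^ 2 := pow_le_pow_left₀ (by positivity) h3 2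
    have e : (i2M s0 u0 i / 8) ^ 2 = i2M s0 u0 i ^ 2 / 64 := by ring
    rw [e] at this
    linarith
  have hh1 : u0 / 8 ≤ h := by linarith
  have hcu : u0 ^ 2 / 320 ≤ h ^ 3 := by
    have := mul_le_mul hsq hh1 (by positivity) (by positivity)
    have e : u0 / 40 * (u0 / 8) = u0 ^ 2 / 320 := by ring
    have e' : h ^ 2 * h = h ^ 3 := by ring
    rw [e, e'] at this
    exact this
  have hu4 : u0 ^ 4 ≤ 1 / 1000 * h ^ 3 := by
    have e : u0 ^ 4 = u0 ^ 2 * u0 ^ 2 := by ring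
    rw [e]
    have : u0 ^ 2 * u0 ^ 2 ≤ 1 / 10 ^ 9 * u0 ^ 2 := mul_le_mul_of_nonneg_right hu2 (sq_nonneg _)
    have h9 : 0 ≤ u0 ^ 2 := sq_nonneg _
    linarith
  have hh3 : h ^ 3 ≤ h * (102 / 100 * 1.01) := by
    have : h ^ 2 ≤ (101 / 100) ^ 2 := pow_le_pow_left₀ hh0 h4 2
    have e : h ^ 3 = h * h ^ 2 := by ring
    rw [e]
    refine mul_le_mul_of_nonneg_left (this.trans (by norm_num)) hh0
  have hx' : |th i| ≤ h * (1002 / 1000) := by linarith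
  have hx3 : |th i| ^ 3 ≤ h ^ 3 * (1002 / 1000) ^ 3 := by
    rw [← mul_pow]
    exact pow_le_pow_left₀ (abs_nonneg _) hx' 3
  have hfin : |Real.sin (th i) - i2h s0 u0 i| ≤ |th i| ^ 3 / 4 + u0 ^ 4 := by
    have := abs_add_le (Real.sin (th i) - th i) (th i - i2h s0 u0 i)
    have e : Real.sin (th i) - th i + (th i - i2h s0 u0 i) = Real.sin (th i) - i2h s0 u0 i := by
      ring
    rw [e] at this
    have e2 : |th i - i2h s0 u0 i| ≤ u0 ^ 4 := h2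
    linarith
  have h10 : 0 ≤ h ^ 3 := by positivity
  nlinarith

theorem I2C.sin_lo {i : ℕ} (hi : i ≤ n) :
    73 / 100 * |i2h s0 u0 i| ≤ |Real.sin (th i)| := by
  have h1 := H.sin_h hi
  have h2 := H.h_hi1 hi
  have h3 := abs_sub_abs_le_abs_sub (i2h s0 u0 i) (Real.sin (th i))
  rw [abs_sub_comm] at h3
  set h := |i2h s0 u0 i|
  have hh0 : 0 ≤ h := abs_nonneg _
  have : h ^ 3 ≤ h * (1021 / 1000) := by
    have e : h ^ 3 = h * h ^ 2 := by ring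
    rw [e]
    refine mul_le_mul_of_nonneg_left ?_ hh0
    nlinarith
  linarith

theorem I2C.sin_ne {i : ℕ} (hi : i ≤ n) : Real.sin (th i) ≠ 0 := by
  have h1 := H.sin_lo hi
  have h2 := abs_pos.mpr (H.h_ne hi)
  intro h
  rw [h, abs_zero] at h1
  linarith

theorem I2C.inv_close {i : ℕ} (hi : i ≤ n) :
    |(Real.sin (th i))⁻¹ - (i2h s0 u0 i)⁻¹| ≤ 36 / 100 * |i2h s0 u0 i| := by
  have h1 := H.sin_h hi
  have h2 := H.sin_lo hi
  have hs := H.sin_ne hi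
  have hh := H.h_ne hi
  have hh0 : 0 < |i2h s0 u0 i| := abs_pos.mpr hh
  have hs0 : 0 < |Real.sin (th i)| := abs_pos.mpr hs
  have e : (Real.sin (th i))⁻¹ - (i2h s0 u0 i)⁻¹ =
      (i2h s0 u0 i - Real.sin (th i)) / (Real.sin (th i) * i2h s0 u0 i) := by
    field_simp
  rw [e, abs_div, abs_mul, abs_sub_comm, div_le_iff₀ (by positivity)]
  set h := |i2h s0 u0 i|
  set σ := |Real.sin (th i)|
  have : 36 / 100 * h * (73 / 100 * h * h) ≤ 36 / 100 * h * (σ * h) := by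
    gcongr
  nlinarith [pow_pos hh0 3]

theorem I2C.kap_bd {a b : ℕ} (ha : a ≤ n) (hb : b ≤ n) :
    1 ≤ kap l (Real.sin (th a)) (Real.sin (th b)) ∧
    kap l (Real.sin (th a)) (Real.sin (th b)) ≤ 1 + u0 ^ 6 := by
  have hu := H.u_pos
  have hl := H.l_pos
  have key : ∀ i ≤ n, u0 / 80 ≤ Real.sin (th i) ^ 2 := by
    intro i hi
    have h1 := H.sin_lo hi
    have h2 := H.h_lo hi
    have h3 := H.M_sq i
    have h4 := H.M_pos i
    have h5 : 73 / 100 * (i2M s0 u0 i / 8) ≤ |Real.sin (th i)| := by linarith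
    have h6 := pow_le_pow_left₀ (by positivity) h5 2
    rw [sq_abs] at h6
    nlinarith
  have h1 := key a ha
  have h2 := key b hb
  have h3 : u0 ^ 2 / 6400 ≤ Real.sin (th a) ^ 2 * Real.sin (th b) ^ 2 := by
    have := mul_le_mul h1 h2 (by positivity) (sq_nonneg _)
    have e : u0 / 80 * (u0 / 80) = u0 ^ 2 / 6400 := by ring
    rwa [e] at this
  have h4 : 0 < Real.sin (th a) ^ 2 * Real.sin (th b) ^ 2 := lt_of_lt_of_le (by positivity) h3
  have h5 : l ^ 2 / (4 * Real.sin (th a) ^ 2 * Real.sin (th b) ^ 2) ≤ u0 ^ 6 := by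
    rw [div_le_iff₀ (by linarith)]
    have h6 : l ^ 2 ≤ (u0 ^ 10) ^ 2 := pow_le_pow_left₀ hl.le H.l_le 2
    have h7 : u0 ^ 12 ≤ 1 / 1600 := by
      have h8 : u0 ≤ 1 / 10 := H.u_le.trans (by norm_num)
      calc u0 ^ 12 ≤ (1 / 10) ^ 12 := pow_le_pow_left₀ hu.le h8 12
        _ ≤ 1 / 1600 := by norm_num
    have h9 : u0 ^ 6 * (u0 ^ 2 / 6400 * 4) ≤
        u0 ^ 6 * (4 * Real.sin (th a) ^ 2 * Real.sin (th b) ^ 2) := by
      refine mul_le_mul_of_nonneg_left ?_ (by positivity)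
      linarith
    have h10 : (u0 ^ 10) ^ 2 ≤ u0 ^ 6 * (u0 ^ 2 / 6400 * 4) := by
      have e1 : (u0 ^ 10) ^ 2 = u0 ^ 8 * u0 ^ 12 := by ring
      have e2 : u0 ^ 6 * (u0 ^ 2 / 6400 * 4) = u0 ^ 8 * (1 / 1600) := by ring
      rw [e1, e2]
      exact mul_le_mul_of_nonneg_left h7 (by positivity)
    linarith
  have h6 : 0 ≤ l ^ 2 / (4 * Real.sin (th a) ^ 2 * Real.sin (th b) ^ 2) := by positivity
  unfold kap
  constructor
  · rw [Real.one_le_sqrt]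
    linarith
  · rw [Real.sqrt_le_left (by positivity)]
    nlinarith [pow_pos hu 6, sq_nonneg (u0 ^ 6)]

/-! ### growth of the slopes -/

theorem I2C.kap_ratio {a b a' b' : ℕ} (ha : a ≤ n) (hb : b ≤ n) (ha' : a' ≤ n) (hb' : b' ≤ n) :
    |kap l (Real.sin (th a')) (Real.sin (th b')) / kap l (Real.sin (th a)) (Real.sin (th b)) - 1|
      ≤ u0 ^ 6 := by
  obtain ⟨h1, h2⟩ := H.kap_bd ha hb
  obtain ⟨h3, h4⟩ := H.kap_bd ha' hb'
  set k := kap l (Real.sin (th a)) (Real.sin (th b))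
  set k' := kap l (Real.sin (th a')) (Real.sin (th b'))
  have hk : 0 < k := by linarith
  have e : k' / k - 1 = (k' - k) / k := by
    field_simp
  rw [e, abs_div, abs_of_pos hk, div_le_iff₀ hk]
  have h5 : |k' - k| ≤ u0 ^ 6 := by
    rw [abs_le]
    constructor <;> linarith
  have h6 : 0 ≤ u0 ^ 6 := pow_nonneg H.u_pos.le 6
  nlinarith

theorem I2C.grow {τ : ℕ → ℝ} (hτ : ∀ i ≤ n, 0 < τ i)
    (hrec : ∀ i, i + 2 ≤ n →
      kap l (Real.sin (th i)) (Real.sin (th (i + 1))) * τ (i + 2)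
        = kap l (Real.sin (th (i + 1))) (Real.sin (th (i + 2))) * τ i
          + kap l (Real.sin (th i)) (Real.sin (th (i + 2))) * τ (i + 1))
    (h0 : |τ 1 - ph * τ 0| ≤ u0 ^ 2 * τ 0) (i : ℕ) : i + 1 ≤ n →
      |τ (i + 1) - ph * τ i| ≤ 2 * u0 ^ 2 * τ 0 ∧
      |τ i - τ 0 * ph ^ i| ≤ 4 * u0 ^ 2 * τ 0 * (ph ^ i - 1) ∧
      |τ (i + 1) - τ 0 * ph ^ (i + 1)| ≤ 4 * u0 ^ 2 * τ 0 * (ph ^ (i + 1) - 1) := by
  have hu := H.u_pos
  have hu2 := H.u2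
  have hp1 := i2_ph_lo
  have hp2 := i2_ph_hi
  induction i with
  | zero =>
    intro hn
    have ht := hτ 0 (Nat.zero_le _)
    have h1 : 0 ≤ u0 ^ 2 * τ 0 := by positivity
    refine ⟨by linarith, by simp, ?_⟩
    rw [zero_add, pow_one, mul_comm (τ 0) ph]
    nlinarith
  | succ i ih =>
    intro hn
    obtain ⟨ih1, ih2, ih3⟩ := ih (by omega)
    have ht := hτ 0 (Nat.zero_le _)
    have hti := hτ i (by omega)
    have hti1 := hτ (i + 1) (by omega)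
    have hti2 := hτ (i + 2) (by omega)
    have hr := hrec i (by omega)
    obtain ⟨hk1, hk2⟩ := H.kap_bd (a := i) (b := i + 1) (by omega) (by omega)
    have hA := H.kap_ratio (a := i) (b := i + 1) (a' := i + 1) (b' := i + 2) (by omega) (by omega)
      (by omega) (by omega)
    have hB := H.kap_ratio (a := i) (b := i + 1) (a' := i) (b' := i + 2) (by omega) (by omega)
      (by omega) (by omega)
    set k := kap l (Real.sin (th i)) (Real.sin (th (i + 1)))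
    set k1 := kap l (Real.sin (th (i + 1))) (Real.sin (th (i + 2)))
    set k2 := kap l (Real.sin (th i)) (Real.sin (th (i + 2)))
    have hk : 0 < k := by linarith
    have e1 : τ (i + 2) - τ (i + 1) - τ i = (k1 / k - 1) * τ i + (k2 / k - 1) * τ (i + 1) := by
      have : τ (i + 2) = (k1 * τ i + k2 * τ (i + 1)) / k := by
        rw [eq_div_iff hk.ne', mul_comm]
        exact hr
      rw [this]
      field_simp
      ring
    have e2 : τ (i + 2) - ph * τ (i + 1) =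
        -al * (τ (i + 1) - ph * τ i) + (τ (i + 2) - τ (i + 1) - τ i) := by
      rw [i2_al_eq]
      linear_combination (-(τ i)) * i2_ph_sq
    have hup : ∀ j, j ≤ n → |τ j - τ 0 * ph ^ j| ≤ 4 * u0 ^ 2 * τ 0 * (ph ^ j - 1) →
        u0 * τ j ≤ 6 / 10 * τ 0 := by
      intro j hj hjj
      have h1 := H.uph hj
      have h2 := (abs_le.mp hjj).2
      have h3 : 0 < ph ^ j := i2_ph_pow_pos j
      have h4 : τ j ≤ τ 0 * ph ^ j * (11 / 10) := by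
        have : 4 * u0 ^ 2 * τ 0 * (ph ^ j - 1) ≤ 4 * (1 / 10 ^ 9) * τ 0 * ph ^ j := by
          have h5 : 4 * u0 ^ 2 * τ 0 * (ph ^ j - 1) ≤ 4 * u0 ^ 2 * τ 0 * ph ^ j :=
            mul_le_mul_of_nonneg_left (by linarith) (by positivity)
          refine h5.trans ?_
          gcongr
        have h6 : 0 < τ 0 * ph ^ j := mul_pos ht h3
        linarith
      calc u0 * τ j ≤ u0 * (τ 0 * ph ^ j * (11 / 10)) := mul_le_mul_of_nonneg_left h4 hu.le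
        _ = (u0 * ph ^ j) * (τ 0 * (11 / 10)) := by ring
        _ ≤ 1 / 2 * (τ 0 * (11 / 10)) := mul_le_mul_of_nonneg_right h1 (by positivity)
        _ ≤ 6 / 10 * τ 0 := by linarith
    have hui := hup i (by omega) ih2
    have hui1 := hup (i + 1) (by omega) ih3
    have h1 : |τ (i + 2) - ph * τ (i + 1)| ≤ 2 * u0 ^ 2 * τ 0 := by
      rw [e2, e1]
      have a1 : |-al * (τ (i + 1) - ph * τ i)| ≤ 7 / 10 * (2 * u0 ^ 2 * τ 0) := by
        rw [abs_mul, abs_neg, abs_of_pos (by linarith [i2_al_lo] : (0 : ℝ) < al)]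
        exact mul_le_mul (by linarith [i2_al_hi]) ih1 (abs_nonneg _) (by norm_num)
      have a2 : |(k1 / k - 1) * τ i| ≤ u0 ^ 5 * (6 / 10 * τ 0) := by
        rw [abs_mul, abs_of_pos hti]
        calc |k1 / k - 1| * τ i ≤ u0 ^ 6 * τ i := mul_le_mul_of_nonneg_right hA hti.le
          _ = u0 ^ 5 * (u0 * τ i) := by ring
          _ ≤ _ := mul_le_mul_of_nonneg_left hui (by positivity)
      have a3 : |(k2 / k - 1) * τ (i + 1)| ≤ u0 ^ 5 * (6 / 10 * τ 0) := by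
        rw [abs_mul, abs_of_pos hti1]
        calc |k2 / k - 1| * τ (i + 1) ≤ u0 ^ 6 * τ (i + 1) :=
              mul_le_mul_of_nonneg_right hB hti1.le
          _ = u0 ^ 5 * (u0 * τ (i + 1)) := by ring
          _ ≤ _ := mul_le_mul_of_nonneg_left hui1 (by positivity)
      have a4 : u0 ^ 5 * (6 / 10 * τ 0) ≤ 1 / 10 ^ 6 * (u0 ^ 2 * τ 0) := by
        have : u0 ^ 5 = u0 ^ 3 * u0 ^ 2 := by ring
        rw [this]
        have h3 := H.u3
        have h4 : u0 ^ 3 * u0 ^ 2 * (6 / 10 * τ 0) = u0 ^ 3 * (u0 ^ 2 * (6 / 10 * τ 0)) := by ring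
        rw [h4]
        have h5 : u0 ^ 3 * (u0 ^ 2 * (6 / 10 * τ 0)) ≤ 1 / 10 ^ 6 * (u0 ^ 2 * (6 / 10 * τ 0)) :=
          mul_le_mul_of_nonneg_right h3 (by positivity)
        have h6 : 0 ≤ u0 ^ 2 * τ 0 := by positivity
        linarith
      have a5 := abs_add_le (-al * (τ (i + 1) - ph * τ i))
        ((k1 / k - 1) * τ i + (k2 / k - 1) * τ (i + 1))
      have a6 := abs_add_le ((k1 / k - 1) * τ i) ((k2 / k - 1) * τ (i + 1))
      have a7 : 0 ≤ u0 ^ 2 * τ 0 := by positivity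
      linarith
    refine ⟨h1, ih3, ?_⟩
    have e3 : τ (i + 1 + 1) - τ 0 * ph ^ (i + 1 + 1) =
        ph * (τ (i + 1) - τ 0 * ph ^ (i + 1)) + (τ (i + 2) - ph * τ (i + 1)) := by
      rw [pow_succ ph (i + 1)]
      ring
    rw [e3]
    have a1 : |ph * (τ (i + 1) - τ 0 * ph ^ (i + 1))| ≤
        ph * (4 * u0 ^ 2 * τ 0 * (ph ^ (i + 1) - 1)) := by
      rw [abs_mul, abs_of_pos (by linarith : (0 : ℝ) < ph)]
      exact mul_le_mul_of_nonneg_left ih3 (by linarith)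
    have a2 := abs_add_le (ph * (τ (i + 1) - τ 0 * ph ^ (i + 1))) (τ (i + 2) - ph * τ (i + 1))
    have a3 : 0 ≤ u0 ^ 2 * τ 0 := by positivity
    have a4 : 0 ≤ (ph - 1.618) * (u0 ^ 2 * τ 0) := mul_nonneg (by linarith) a3
    rw [pow_succ ph (i + 1)]
    nlinarith

/-! ### the error in one step -/

omit H in
/-- comparison of triple products -/
theorem i2_prod {X a0 a1 a2 b0 b1 b2 : ℝ} (hX : 0 < X) (hX1 : X ≤ 13 / 10)
    (hb0 : |b0| * X ≤ 8) (hb1 : |b1| * X ≤ 13) (hb2 : |b2| * X ≤ 21)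
    (h0 : |a0 - b0| ≤ 36 / 100 * X) (h1 : |a1 - b1| ≤ 59 / 100 * X)
    (h2 : |a2 - b2| ≤ 95 / 100 * X) :
    |a0 * a1 * a2 - b0 * b1 * b2| * X ≤ 326 ∧ |a0 * a1 * a2| * X ^ 3 ≤ 2900 := by
  have key : ∀ a b : ℝ, |a| ≤ |b| + |a - b| := by
    intro a b
    have := abs_add_le b (a - b)
    rwa [add_sub_cancel] at this
  have hXX : X * X ≤ 169 / 100 := by nlinarith
  have A0 : |a0| * X ≤ 87 / 10 := by
    have := key a0 b0
    have h3 : |a0| * X ≤ (|b0| + |a0 - b0|) * X := mul_le_mul_of_nonneg_right this hX.le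
    have h4 : |a0 - b0| * X ≤ 36 / 100 * X * X := mul_le_mul_of_nonneg_right h0 hX.le
    linarith
  have A1 : |a1| * X ≤ 14 := by
    have := key a1 b1
    have h3 : |a1| * X ≤ (|b1| + |a1 - b1|) * X := mul_le_mul_of_nonneg_right this hX.le
    have h4 : |a1 - b1| * X ≤ 59 / 100 * X * X := mul_le_mul_of_nonneg_right h1 hX.le
    linarith
  have A2 : |a2| * X ≤ 227 / 10 := by
    have := key a2 b2
    have h3 : |a2| * X ≤ (|b2| + |a2 - b2|) * X := mul_le_mul_of_nonneg_right this hX.le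
    have h4 : |a2 - b2| * X ≤ 95 / 100 * X * X := mul_le_mul_of_nonneg_right h2 hX.le
    linarith
  constructor
  · have e : a0 * a1 * a2 - b0 * b1 * b2 =
        (a0 - b0) * a1 * a2 + (b0 * (a1 - b1) * a2 + b0 * b1 * (a2 - b2)) := by ring
    have t1 : |(a0 - b0) * a1 * a2| * X ≤ 36 / 100 * 14 * (227 / 10) := by
      rw [abs_mul, abs_mul]
      calc |a0 - b0| * |a1| * |a2| * X ≤ (36 / 100 * X) * |a1| * |a2| * X := by gcongr
        _ = 36 / 100 * (|a1| * X) * (|a2| * X) := by ring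
        _ ≤ 36 / 100 * 14 * (227 / 10) := by gcongr
    have t2 : |b0 * (a1 - b1) * a2| * X ≤ 8 * (59 / 100) * (227 / 10) := by
      rw [abs_mul, abs_mul]
      calc |b0| * |a1 - b1| * |a2| * X ≤ |b0| * (59 / 100 * X) * |a2| * X := by gcongr
        _ = (|b0| * X) * (59 / 100) * (|a2| * X) := by ring
        _ ≤ 8 * (59 / 100) * (227 / 10) := by gcongr
    have t3 : |b0 * b1 * (a2 - b2)| * X ≤ 8 * 13 * (95 / 100) := by
      rw [abs_mul, abs_mul]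
      calc |b0| * |b1| * |a2 - b2| * X ≤ |b0| * |b1| * (95 / 100 * X) * X := by gcongr
        _ = (|b0| * X) * (|b1| * X) * (95 / 100) := by ring
        _ ≤ 8 * 13 * (95 / 100) := by gcongr
    have t4 := abs_add_le ((a0 - b0) * a1 * a2) (b0 * (a1 - b1) * a2 + b0 * b1 * (a2 - b2))
    have t5 := abs_add_le (b0 * (a1 - b1) * a2) (b0 * b1 * (a2 - b2))
    rw [e]
    have t6 : |(a0 - b0) * a1 * a2 + (b0 * (a1 - b1) * a2 + b0 * b1 * (a2 - b2))| * X ≤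
        (|(a0 - b0) * a1 * a2| + (|b0 * (a1 - b1) * a2| + |b0 * b1 * (a2 - b2)|)) * X :=
      mul_le_mul_of_nonneg_right (by linarith) hX.le
    refine t6.trans ?_
    linarith
  · rw [abs_mul, abs_mul]
    calc |a0| * |a1| * |a2| * X ^ 3 = (|a0| * X) * (|a1| * X) * (|a2| * X) := by ring
      _ ≤ 87 / 10 * 14 * (227 / 10) := by gcongr
      _ ≤ 2900 := by norm_num

omit H in
theorem i2_M_succ (hs : 0 < s0) (hu : 0 < u0) (i : ℕ) :
    al * i2M s0 u0 i ≤ i2M s0 u0 (i + 1) ∧ i2M s0 u0 (i + 1) ≤ ph * i2M s0 u0 i := by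
  unfold i2M
  have h1 := mul_pos hs (i2_al_pow_pos i)
  have h2 := mul_pos hu (i2_ph_pow_pos i)
  rw [pow_succ, pow_succ]
  have h3 := i2_al_hi
  have h4 := i2_ph_lo
  have e1 : s0 * (al ^ i * al) = al * (s0 * al ^ i) := by ring
  have e2 : u0 * (ph ^ i * ph) = ph * (u0 * ph ^ i) := by ring
  rw [e1, e2]
  constructor <;> nlinarith

theorem I2C.b_bd {i : ℕ} (hi : i ≤ n) : |(i2h s0 u0 i)⁻¹| * i2M s0 u0 i ≤ 8 := by
  have h1 := H.h_lo hi
  have h2 : 0 < |i2h s0 u0 i| := abs_pos.mpr (H.h_ne hi)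
  rw [abs_inv, inv_mul_le_iff₀ h2]
  linarith

/-- `|aaa T - bbb|` -/
theorem I2C.step_prod {i : ℕ} (hi : i + 2 ≤ n) {T : ℝ} (hT : |T - 1| ≤ 5 * u0 ^ 2) :
    |(Real.sin (th i))⁻¹ * (Real.sin (th (i + 1)))⁻¹ * (Real.sin (th (i + 2)))⁻¹ * T -
      (i2h s0 u0 i)⁻¹ * (i2h s0 u0 (i + 1))⁻¹ * (i2h s0 u0 (i + 2))⁻¹| ≤ 820 * ph ^ i := by
  have hu := H.u_pos
  have hs := H.s_pos
  have hX := H.M_pos i
  have hX1 := H.M_hi (i := i) (by omega)
  obtain ⟨m1, m2⟩ := i2_M_succ hs hu i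
  obtain ⟨m3, m4⟩ := i2_M_succ hs hu (i + 1)
  have hM1 := H.M_pos (i + 1)
  have hM2 := H.M_pos (i + 2)
  have p1 := i2_ph_lo
  have p2 := i2_ph_hi
  have q1 := i2_al_lo
  have b0 := H.b_bd (i := i) (by omega)
  have b1 := H.b_bd (i := i + 1) (by omega)
  have b2 := H.b_bd (i := i + 2) (by omega)
  have c0 := H.inv_close (i := i) (by omega)
  have c1 := H.inv_close (i := i + 1) (by omega)
  have c2 := H.inv_close (i := i + 2) (by omega)
  have h0 := H.h_hi i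
  have h1 := H.h_hi (i + 1)
  have h2 := H.h_hi (i + 2)
  set X := i2M s0 u0 i
  set X1 := i2M s0 u0 (i + 1)
  set X2 := i2M s0 u0 (i + 2)
  have hXX1 : X ≤ ph * X1 := by
    have : ph * (al * X) ≤ ph * X1 := mul_le_mul_of_nonneg_left m1 (by linarith)
    have e : ph * (al * X) = X := by
      calc ph * (al * X) = (al * ph) * X := by ring
        _ = X := by rw [i2_al_ph, one_mul]
    linarith
  have hXX2 : X1 ≤ ph * X2 := by
    have : ph * (al * X1) ≤ ph * X2 := mul_le_mul_of_nonneg_left m3 (by linarith)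
    have e : ph * (al * X1) = X1 := by
      calc ph * (al * X1) = (al * ph) * X1 := by ring
        _ = X1 := by rw [i2_al_ph, one_mul]
    linarith
  have b1' : |(i2h s0 u0 (i + 1))⁻¹| * X ≤ 13 := by
    have : |(i2h s0 u0 (i + 1))⁻¹| * X ≤ |(i2h s0 u0 (i + 1))⁻¹| * (ph * X1) :=
      mul_le_mul_of_nonneg_left hXX1 (abs_nonneg _)
    have e : |(i2h s0 u0 (i + 1))⁻¹| * (ph * X1) = ph * (|(i2h s0 u0 (i + 1))⁻¹| * X1) := by ring
    have : ph * (|(i2h s0 u0 (i + 1))⁻¹| * X1) ≤ ph * 8 :=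
      mul_le_mul_of_nonneg_left b1 (by linarith)
    linarith
  have b2' : |(i2h s0 u0 (i + 2))⁻¹| * X ≤ 21 := by
    have h3 : X ≤ ph * (ph * X2) :=
      hXX1.trans (mul_le_mul_of_nonneg_left hXX2 (by linarith))
    have h4 : |(i2h s0 u0 (i + 2))⁻¹| * X ≤ |(i2h s0 u0 (i + 2))⁻¹| * (ph * (ph * X2)) :=
      mul_le_mul_of_nonneg_left h3 (abs_nonneg _)
    have e : |(i2h s0 u0 (i + 2))⁻¹| * (ph * (ph * X2)) =
        ph * ph * (|(i2h s0 u0 (i + 2))⁻¹| * X2) := by ring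
    have h5 : ph * ph * (|(i2h s0 u0 (i + 2))⁻¹| * X2) ≤ ph * ph * 8 :=
      mul_le_mul_of_nonneg_left b2 (by positivity)
    have h6 : ph * ph ≤ 262 / 100 := by
      rw [← sq, i2_ph_sq]
      linarith
    linarith
  have d0 : |(Real.sin (th i))⁻¹ - (i2h s0 u0 i)⁻¹| ≤ 36 / 100 * X := by linarith
  have d1 : |(Real.sin (th (i + 1)))⁻¹ - (i2h s0 u0 (i + 1))⁻¹| ≤ 59 / 100 * X := by
    have : X1 ≤ 1.6181 * X := m2.trans (mul_le_mul_of_nonneg_right p2.le hX.le)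
    linarith
  have d2 : |(Real.sin (th (i + 2)))⁻¹ - (i2h s0 u0 (i + 2))⁻¹| ≤ 95 / 100 * X := by
    have g1 : X1 ≤ 1.6181 * X := m2.trans (mul_le_mul_of_nonneg_right p2.le hX.le)
    have g2 : X2 ≤ 1.6181 * X1 := m4.trans (mul_le_mul_of_nonneg_right p2.le hM1.le)
    linarith
  obtain ⟨k1, k2⟩ := i2_prod hX hX1 b0 b1' b2' d0 d1 d2
  set P := (Real.sin (th i))⁻¹ * (Real.sin (th (i + 1)))⁻¹ * (Real.sin (th (i + 2)))⁻¹
  set Q := (i2h s0 u0 i)⁻¹ * (i2h s0 u0 (i + 1))⁻¹ * (i2h s0 u0 (i + 2))⁻¹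
  have e : P * T - Q = (P - Q) + P * (T - 1) := by ring
  have h3 : |P * (T - 1)| * X ≤ 1 := by
    rw [abs_mul]
    have h4 : |P| * |T - 1| * X * X ^ 2 ≤ 1 * X ^ 2 := by
      calc |P| * |T - 1| * X * X ^ 2 = |P| * X ^ 3 * |T - 1| := by ring
        _ ≤ 2900 * (5 * u0 ^ 2) := by gcongr
        _ ≤ 1 * X ^ 2 := by
            have h5 := H.M_sq i
            have h6 := H.u_le
            have : u0 ^ 2 ≤ 1 / 10 ^ 14 * u0 := by
              rw [sq]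
              exact mul_le_mul_of_nonneg_right h6 hu.le
            linarith
    exact le_of_mul_le_mul_right h4 (by positivity)
  have h4 : |P * T - Q| * X ≤ 327 := by
    rw [e]
    have := mul_le_mul_of_nonneg_right (abs_add_le (P - Q) (P * (T - 1))) hX.le
    linarith
  have h5 : 2 / 5 * al ^ i ≤ X := by
    have := H.M_s i
    have h6 : 2 / 5 * al ^ i ≤ s0 * al ^ i :=
      mul_le_mul_of_nonneg_right H.s_lo (i2_al_pow_pos i).le
    exact h6.trans this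
  have h6 : |P * T - Q| * (2 / 5 * al ^ i) ≤ 327 :=
    (mul_le_mul_of_nonneg_left h5 (abs_nonneg _)).trans h4
  have h7 := i2_alph_pow i
  have h8 := mul_le_mul_of_nonneg_right h6 (i2_ph_pow_pos i).le
  have e2 : |P * T - Q| * (2 / 5 * al ^ i) * ph ^ i = 2 / 5 * |P * T - Q| := by
    calc |P * T - Q| * (2 / 5 * al ^ i) * ph ^ i
        = 2 / 5 * |P * T - Q| * (al ^ i * ph ^ i) := by ring
      _ = _ := by rw [h7, mul_one]
  rw [e2] at h8
  have := i2_ph_pow_pos i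
  linarith

theorem I2C.coef : |l * ph / (4 * √5)| ≤ 181 / 1000 * l := by
  have hl := H.l_pos
  have p1 := i2_ph_lo
  rw [abs_of_pos (by positivity), i2_sqrt5, div_le_iff₀ (by linarith)]
  nlinarith

theorem I2C.W_abs {t0 : ℝ} (ht : 0 < t0) (i : ℕ) :
    |i2W l t0 s0 u0 i| ≤ 181 / 1000 * l * (t0 * ph ^ i) *
      (5 / 2 * ph ^ i * (|(i2h s0 u0 i)⁻¹| * |(i2h s0 u0 (i + 1))⁻¹|)) := by
  have hl := H.l_pos
  have h1 := H.coef
  have hp := i2_ph_pow_pos i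
  have ha := i2_al_pow_pos i
  have h2 : |(i2s s0 i)⁻¹| ≤ 5 / 2 * ph ^ i := by
    rw [abs_inv, i2_abs_s H.s_pos]
    have h3 := i2_alph_pow i
    have h4 : (s0 * al ^ i)⁻¹ = s0⁻¹ * ph ^ i := by
      rw [mul_inv]
      congr 1
      exact inv_eq_of_mul_eq_one_right h3
    rw [h4]
    refine mul_le_mul_of_nonneg_right ?_ hp.le
    rw [inv_le_comm₀ H.s_pos (by norm_num)]
    linarith [H.s_lo]
  have e : |i2W l t0 s0 u0 i| = |l * ph / (4 * √5)| * (t0 * ph ^ i) *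
      (|(i2s s0 i)⁻¹| * (|(i2h s0 u0 i)⁻¹| * |(i2h s0 u0 (i + 1))⁻¹|)) := by
    unfold i2W
    rw [div_eq_mul_inv _ (_ * _ * _), mul_inv, mul_inv, abs_mul, abs_mul (-(_ / _)), abs_neg,
      abs_of_pos (mul_pos ht hp), abs_mul (_ * _) _, abs_mul, mul_assoc |(i2s s0 i)⁻¹|]
  rw [e]
  gcongr

theorem I2C.W_one {t0 : ℝ} (ht : 0 < t0) {i : ℕ} (hi : i + 1 ≤ n) :
    u0 * |i2W l t0 s0 u0 i| ≤ 30 * (l * t0 * ph ^ (2 * i)) := by
  have hl := H.l_pos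
  have hu := H.u_pos
  have h1 := H.W_abs ht i
  have hp := i2_ph_pow_pos i
  have b0 := H.b_bd (i := i) (by omega)
  have b1 := H.b_bd (i := i + 1) (by omega)
  have hX := H.M_pos i
  have hM := H.M_sq i
  have m1 := (i2_M_succ H.s_pos hu i).1
  have b1' : |(i2h s0 u0 (i + 1))⁻¹| * i2M s0 u0 i ≤ 13 := by
    have h2 : al * (|(i2h s0 u0 (i + 1))⁻¹| * i2M s0 u0 i) ≤ 8 := by
      calc al * (|(i2h s0 u0 (i + 1))⁻¹| * i2M s0 u0 i)
          = |(i2h s0 u0 (i + 1))⁻¹| * (al * i2M s0 u0 i) := by ring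
        _ ≤ |(i2h s0 u0 (i + 1))⁻¹| * i2M s0 u0 (i + 1) :=
            mul_le_mul_of_nonneg_left m1 (abs_nonneg _)
        _ ≤ 8 := b1
    have h3 : 0 ≤ |(i2h s0 u0 (i + 1))⁻¹| * i2M s0 u0 i := by positivity
    nlinarith [i2_al_lo]
  have h2 : u0 * (|(i2h s0 u0 i)⁻¹| * |(i2h s0 u0 (i + 1))⁻¹|) ≤ 65 := by
    have h3 : (8 / 5 * u0) * (|(i2h s0 u0 i)⁻¹| * |(i2h s0 u0 (i + 1))⁻¹|) ≤
        i2M s0 u0 i ^ 2 * (|(i2h s0 u0 i)⁻¹| * |(i2h s0 u0 (i + 1))⁻¹|) :=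
      mul_le_mul_of_nonneg_right hM (by positivity)
    have h4 : i2M s0 u0 i ^ 2 * (|(i2h s0 u0 i)⁻¹| * |(i2h s0 u0 (i + 1))⁻¹|) ≤ 8 * 13 := by
      calc i2M s0 u0 i ^ 2 * (|(i2h s0 u0 i)⁻¹| * |(i2h s0 u0 (i + 1))⁻¹|)
          = (|(i2h s0 u0 i)⁻¹| * i2M s0 u0 i) * (|(i2h s0 u0 (i + 1))⁻¹| * i2M s0 u0 i) := by ring
        _ ≤ 8 * 13 := by gcongr
    linarith
  calc u0 * |i2W l t0 s0 u0 i| ≤ u0 * (181 / 1000 * l * (t0 * ph ^ i) *
      (5 / 2 * ph ^ i * (|(i2h s0 u0 i)⁻¹| * |(i2h s0 u0 (i + 1))⁻¹|))) :=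
        mul_le_mul_of_nonneg_left h1 hu.le
    _ = 181 / 1000 * (5 / 2) * (l * t0 * ph ^ (2 * i)) *
        (u0 * (|(i2h s0 u0 i)⁻¹| * |(i2h s0 u0 (i + 1))⁻¹|)) := by
          rw [two_mul, pow_add]
          ring
    _ ≤ 181 / 1000 * (5 / 2) * (l * t0 * ph ^ (2 * i)) * 65 := by
          refine mul_le_mul_of_nonneg_left h2 ?_
          have := i2_ph_pow_pos (2 * i)
          positivity
    _ ≤ 30 * (l * t0 * ph ^ (2 * i)) := by
          have := i2_ph_pow_pos (2 * i)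
          have h5 : 0 < l * t0 * ph ^ (2 * i) := by positivity
          linarith

theorem I2C.W_two {t0 : ℝ} (ht : 0 < t0) {i : ℕ} (hi : i + 1 ≤ n) :
    u0 ^ 2 * |i2W l t0 s0 u0 i| ≤ 30 * (l * t0) := by
  have hl := H.l_pos
  have hu := H.u_pos
  have h1 := H.W_abs ht i
  have hp := i2_ph_pow_pos i
  have hp1 := i2_ph_pow_pos (i + 1)
  have b0 := H.b_bd (i := i) (by omega)
  have b1 := H.b_bd (i := i + 1) (by omega)
  have c0 : |(i2h s0 u0 i)⁻¹| * (u0 * ph ^ i) ≤ 8 :=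
    (mul_le_mul_of_nonneg_left (H.M_u i) (abs_nonneg _)).trans b0
  have c1 : |(i2h s0 u0 (i + 1))⁻¹| * (u0 * ph ^ i) ≤ 8 := by
    refine le_trans ?_ b1
    refine mul_le_mul_of_nonneg_left ?_ (abs_nonneg _)
    refine le_trans ?_ (H.M_u (i + 1))
    exact mul_le_mul_of_nonneg_left (pow_le_pow_right₀ (by linarith [i2_ph_lo]) (by omega)) hu.le
  calc u0 ^ 2 * |i2W l t0 s0 u0 i| ≤ u0 ^ 2 * (181 / 1000 * l * (t0 * ph ^ i) *
      (5 / 2 * ph ^ i * (|(i2h s0 u0 i)⁻¹| * |(i2h s0 u0 (i + 1))⁻¹|))) :=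
        mul_le_mul_of_nonneg_left h1 (by positivity)
    _ = 181 / 1000 * (5 / 2) * (l * t0) * ((|(i2h s0 u0 i)⁻¹| * (u0 * ph ^ i)) *
        (|(i2h s0 u0 (i + 1))⁻¹| * (u0 * ph ^ i))) := by ring
    _ ≤ 181 / 1000 * (5 / 2) * (l * t0) * (8 * 8) := by gcongr
    _ ≤ 30 * (l * t0) := by
          have h5 : 0 < l * t0 := by positivity
          linarith

theorem I2C.W_zero {t0 : ℝ} (ht : 0 < t0) (hn : 1 ≤ n) :
    |i2W l t0 s0 u0 0| ≤ 40 * (l * t0) := by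
  have hl := H.l_pos
  have hu := H.u_pos
  have h1 := H.W_abs ht 0
  have b1 := H.b_bd (i := 1) hn
  have c0 : |(i2h s0 u0 0)⁻¹| ≤ 5 / 2 := by
    have e : i2h s0 u0 0 = s0 + u0 := by
      unfold i2h i2s i2u
      simp
    rw [e, abs_inv, abs_of_pos (by linarith [H.s_pos]), inv_le_comm₀ (by linarith [H.s_pos])
      (by norm_num)]
    linarith [H.s_lo]
  have c1 : |(i2h s0 u0 1)⁻¹| ≤ 325 / 10 := by
    have h2 : 247 / 1000 ≤ i2M s0 u0 1 := by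
      have := H.M_s 1
      rw [pow_one] at this
      have h3 := i2_al_lo
      have h4 := H.s_lo
      nlinarith
    have h3 : |(i2h s0 u0 1)⁻¹| * (247 / 1000) ≤ 8 :=
      (mul_le_mul_of_nonneg_left h2 (abs_nonneg _)).trans b1
    linarith
  rw [pow_zero, zero_add] at h1
  refine h1.trans ?_
  calc 181 / 1000 * l * (t0 * 1) * (5 / 2 * 1 * (|(i2h s0 u0 0)⁻¹| * |(i2h s0 u0 1)⁻¹|))
      ≤ 181 / 1000 * l * (t0 * 1) * (5 / 2 * 1 * (5 / 2 * (325 / 10))) := by gcongr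
    _ ≤ 40 * (l * t0) := by
          have h5 : 0 < l * t0 := by positivity
          linarith

/-- one step of the error recursion -/
theorem I2C.step {σ τ μ : ℕ → ℝ} (hσ : ∀ i ≤ n, σ i = Real.sin (th i))
    (hτ : ∀ i ≤ n, 0 < τ i) (hrec : ∀ i, i + 2 ≤ n → RecAt l σ τ μ i)
    (h0 : |τ 1 - ph * τ 0| ≤ u0 ^ 2 * τ 0) {i : ℕ} (hi : i + 2 ≤ n) :
    |(μ (i + 2) * τ (i + 1) - μ (i + 1) * τ (i + 2)) - i2W l (τ 0) s0 u0 (i + 1)| ≤
      (1 + u0 ^ 6) * |(μ (i + 1) * τ i - μ i * τ (i + 1)) - i2W l (τ 0) s0 u0 i| +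
        400 * (l * τ 0 * ph ^ (2 * i)) := by
  have hl := H.l_pos
  have hu := H.u_pos
  have ht := hτ 0 (Nat.zero_le _)
  have hp := i2_ph_pow_pos i
  have hp1 := i2_ph_pow_pos (i + 1)
  obtain ⟨r1, r2⟩ := hrec i hi
  rw [hσ i (by omega), hσ (i + 1) (by omega), hσ (i + 2) (by omega)] at r1 r2
  obtain ⟨hk1, hk2⟩ := H.kap_bd (a := i) (b := i + 1) (by omega) (by omega)
  have hA := H.kap_ratio (a := i) (b := i + 1) (a' := i + 1) (b' := i + 2) (by omega) (by omega)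
    (by omega) (by omega)
  have hgrow := (H.grow hτ (fun j hj => by
    have := (hrec j hj).1
    rwa [hσ j (by omega), hσ (j + 1) (by omega), hσ (j + 2) (by omega)] at this) h0 i
      (by omega)).2.2
  have n0 := H.sin_ne (i := i) (by omega)
  have n1 := H.sin_ne (i := i + 1) (by omega)
  have n2 := H.sin_ne (i := i + 2) (by omega)
  have hW := i2W_rec l (τ 0) s0 u0 i (by
    rw [← abs_pos, i2_abs_s H.s_pos]
    exact mul_pos H.s_pos (i2_al_pow_pos i)) (H.h_ne (by omega)) (H.h_ne (by omega))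
      (H.h_ne hi)
  have hW1 := H.W_one ht (i := i) (by omega)
  set k := kap l (Real.sin (th i)) (Real.sin (th (i + 1)))
  set k1 := kap l (Real.sin (th (i + 1))) (Real.sin (th (i + 2)))
  set k2 := kap l (Real.sin (th i)) (Real.sin (th (i + 2)))
  have hk : 0 < k := by linarith
  set T := τ (i + 1) / (τ 0 * ph ^ (i + 1) * k) with hTdef
  have hT : |T - 1| ≤ 5 * u0 ^ 2 := by
    have hd : 0 < τ 0 * ph ^ (i + 1) * k := by positivity
    have e : T - 1 = (τ (i + 1) - τ 0 * ph ^ (i + 1) * k) / (τ 0 * ph ^ (i + 1) * k) := by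
      rw [hTdef]
      field_simp
    rw [e, abs_div, abs_of_pos hd, div_le_iff₀ hd]
    have e2 : τ (i + 1) - τ 0 * ph ^ (i + 1) * k =
        (τ (i + 1) - τ 0 * ph ^ (i + 1)) + -(τ 0 * ph ^ (i + 1) * (k - 1)) := by ring
    rw [e2]
    have a1 := abs_add_le (τ (i + 1) - τ 0 * ph ^ (i + 1)) (-(τ 0 * ph ^ (i + 1) * (k - 1)))
    rw [abs_neg, abs_of_nonneg (by
      have : 0 ≤ k - 1 := by linarith
      positivity : 0 ≤ τ 0 * ph ^ (i + 1) * (k - 1))] at a1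
    have a2 : τ 0 * ph ^ (i + 1) * (k - 1) ≤ τ 0 * ph ^ (i + 1) * u0 ^ 2 := by
      refine mul_le_mul_of_nonneg_left ?_ (by positivity)
      have : u0 ^ 6 ≤ u0 ^ 2 :=
        pow_le_pow_of_le_one hu.le (H.u_le.trans (by norm_num)) (by norm_num)
      linarith
    have a3 : 4 * u0 ^ 2 * τ 0 * (ph ^ (i + 1) - 1) ≤ 4 * u0 ^ 2 * (τ 0 * ph ^ (i + 1)) := by
      have : 0 ≤ u0 ^ 2 * τ 0 := by positivity
      linarith
    have a4 : 5 * u0 ^ 2 * (τ 0 * ph ^ (i + 1)) ≤ 5 * u0 ^ 2 * (τ 0 * ph ^ (i + 1) * k) := by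
      refine mul_le_mul_of_nonneg_left ?_ (by positivity)
      exact le_mul_of_one_le_right (by positivity) hk1
    linarith
  have hprod := H.step_prod hi hT
  -- the exact recursion
  have eW : μ (i + 2) * τ (i + 1) - μ (i + 1) * τ (i + 2) =
      -(k1 / k) * (μ (i + 1) * τ i - μ i * τ (i + 1)) +
        l / 4 * (τ 0 * ph ^ (i + 1)) * ((Real.sin (th i))⁻¹ * (Real.sin (th (i + 1)))⁻¹ *
          (Real.sin (th (i + 2)))⁻¹ * T) := by
    have e3 : l / (4 * Real.sin (th i) * Real.sin (th (i + 1)) * Real.sin (th (i + 2))) =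
        l / 4 * ((Real.sin (th i))⁻¹ * (Real.sin (th (i + 1)))⁻¹ *
          (Real.sin (th (i + 2)))⁻¹) := by
      field_simp
    rw [e3] at r2
    have e4 : τ 0 * ph ^ (i + 1) * T = τ (i + 1) / k := by
      rw [hTdef]
      field_simp
    have e5 : l / 4 * (τ 0 * ph ^ (i + 1)) * ((Real.sin (th i))⁻¹ * (Real.sin (th (i + 1)))⁻¹ *
          (Real.sin (th (i + 2)))⁻¹ * T) = l / 4 * ((Real.sin (th i))⁻¹ *
          (Real.sin (th (i + 1)))⁻¹ * (Real.sin (th (i + 2)))⁻¹) * (τ (i + 1) / k) := by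
      rw [← e4]
      ring
    rw [e5]
    have e6 : μ (i + 2) = (k1 * μ i + k2 * μ (i + 1) + l / 4 * ((Real.sin (th i))⁻¹ *
        (Real.sin (th (i + 1)))⁻¹ * (Real.sin (th (i + 2)))⁻¹)) / k := by
      rw [eq_div_iff hk.ne', mul_comm]
      exact r2
    have e7 : τ (i + 2) = (k1 * τ i + k2 * τ (i + 1)) / k := by
      rw [eq_div_iff hk.ne', mul_comm]
      exact r1
    rw [e6, e7]
    ring
  set w := μ (i + 1) * τ i - μ i * τ (i + 1)
  have hW' : i2W l (τ 0) s0 u0 (i + 1) = l / 4 * (τ 0 * ph ^ (i + 1)) *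
      ((i2h s0 u0 i)⁻¹ * (i2h s0 u0 (i + 1))⁻¹ * (i2h s0 u0 (i + 2))⁻¹) -
        i2W l (τ 0) s0 u0 i := by
    rw [eq_sub_iff_add_eq, hW, div_eq_mul_inv _ (_ * _ * _), mul_inv, mul_inv]
  have e8 : μ (i + 2) * τ (i + 1) - μ (i + 1) * τ (i + 2) - i2W l (τ 0) s0 u0 (i + 1) =
      -(k1 / k) * (w - i2W l (τ 0) s0 u0 i) + (-(k1 / k - 1) * i2W l (τ 0) s0 u0 i +
        l / 4 * (τ 0 * ph ^ (i + 1)) * ((Real.sin (th i))⁻¹ * (Real.sin (th (i + 1)))⁻¹ *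
          (Real.sin (th (i + 2)))⁻¹ * T -
          (i2h s0 u0 i)⁻¹ * (i2h s0 u0 (i + 1))⁻¹ * (i2h s0 u0 (i + 2))⁻¹)) := by
    rw [eW, hW']
    ring
  rw [e8]
  have a1 : |-(k1 / k) * (w - i2W l (τ 0) s0 u0 i)| ≤
      (1 + u0 ^ 6) * |w - i2W l (τ 0) s0 u0 i| := by
    rw [abs_mul, abs_neg]
    refine mul_le_mul_of_nonneg_right ?_ (abs_nonneg _)
    have := abs_add_le (k1 / k - 1) 1
    rw [sub_add_cancel, abs_one] at this
    linarith
  have a2 : |-(k1 / k - 1) * i2W l (τ 0) s0 u0 i| ≤ l * τ 0 * ph ^ (2 * i) := by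
    rw [abs_mul, abs_neg]
    have g1 : |k1 / k - 1| * |i2W l (τ 0) s0 u0 i| ≤ u0 ^ 6 * |i2W l (τ 0) s0 u0 i| :=
      mul_le_mul_of_nonneg_right hA (abs_nonneg _)
    have g2 : u0 ^ 6 * |i2W l (τ 0) s0 u0 i| = u0 ^ 5 * (u0 * |i2W l (τ 0) s0 u0 i|) := by ring
    have g3 : u0 ^ 5 * (u0 * |i2W l (τ 0) s0 u0 i|) ≤
        u0 ^ 5 * (30 * (l * τ 0 * ph ^ (2 * i))) :=
      mul_le_mul_of_nonneg_left hW1 (by positivity)
    have g4 : u0 ^ 5 ≤ 1 / 30 := by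
      have : u0 ≤ 1 / 2 := H.u_le.trans (by norm_num)
      calc u0 ^ 5 ≤ (1 / 2) ^ 5 := pow_le_pow_left₀ hu.le this 5
        _ ≤ 1 / 30 := by norm_num
    have g5 : 0 < l * τ 0 * ph ^ (2 * i) := by
      have := i2_ph_pow_pos (2 * i)
      positivity
    nlinarith
  have a3 : |l / 4 * (τ 0 * ph ^ (i + 1)) * ((Real.sin (th i))⁻¹ * (Real.sin (th (i + 1)))⁻¹ *
          (Real.sin (th (i + 2)))⁻¹ * T -
          (i2h s0 u0 i)⁻¹ * (i2h s0 u0 (i + 1))⁻¹ * (i2h s0 u0 (i + 2))⁻¹)| ≤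
      399 * (l * τ 0 * ph ^ (2 * i)) := by
    rw [abs_mul, abs_of_pos (by positivity : 0 < l / 4 * (τ 0 * ph ^ (i + 1)))]
    calc l / 4 * (τ 0 * ph ^ (i + 1)) * |(Real.sin (th i))⁻¹ * (Real.sin (th (i + 1)))⁻¹ *
          (Real.sin (th (i + 2)))⁻¹ * T -
          (i2h s0 u0 i)⁻¹ * (i2h s0 u0 (i + 1))⁻¹ * (i2h s0 u0 (i + 2))⁻¹|
        ≤ l / 4 * (τ 0 * ph ^ (i + 1)) * (820 * ph ^ i) :=
          mul_le_mul_of_nonneg_left hprod (by positivity)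
      _ = 205 * ph * (l * τ 0 * ph ^ (2 * i)) := by
          rw [pow_succ, two_mul, pow_add]
          ring
      _ ≤ 399 * (l * τ 0 * ph ^ (2 * i)) := by
          refine mul_le_mul_of_nonneg_right ?_ ?_
          · linarith [i2_ph_hi]
          · have := i2_ph_pow_pos (2 * i)
            positivity
  have a4 := abs_add_le (-(k1 / k) * (w - i2W l (τ 0) s0 u0 i)) (-(k1 / k - 1) *
    i2W l (τ 0) s0 u0 i +
        l / 4 * (τ 0 * ph ^ (i + 1)) * ((Real.sin (th i))⁻¹ * (Real.sin (th (i + 1)))⁻¹ *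
          (Real.sin (th (i + 2)))⁻¹ * T -
          (i2h s0 u0 i)⁻¹ * (i2h s0 u0 (i + 1))⁻¹ * (i2h s0 u0 (i + 2))⁻¹))
  have a5 := abs_add_le (-(k1 / k - 1) * i2W l (τ 0) s0 u0 i)
    (l / 4 * (τ 0 * ph ^ (i + 1)) * ((Real.sin (th i))⁻¹ * (Real.sin (th (i + 1)))⁻¹ *
          (Real.sin (th (i + 2)))⁻¹ * T -
          (i2h s0 u0 i)⁻¹ * (i2h s0 u0 (i + 1))⁻¹ * (i2h s0 u0 (i + 2))⁻¹))
  linarith

theorem I2C.nu : ((n : ℝ) * u0) ^ 2 ≤ 9 / 2 * u0 := by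
  have hu := H.u_pos
  have h1 := i2_sq_le n
  have h2 := H.un
  have h3 : (n : ℝ) ^ 2 ≤ 9 * ph ^ n := by
    have : (0 : ℝ) ≤ n := Nat.cast_nonneg n
    linarith
  have h4 : (n : ℝ) ^ 2 * u0 ≤ 9 / 2 := by
    have := mul_le_mul_of_nonneg_right h3 hu.le
    linarith
  calc ((n : ℝ) * u0) ^ 2 = ((n : ℝ) ^ 2 * u0) * u0 := by ring
    _ ≤ 9 / 2 * u0 := mul_le_mul_of_nonneg_right h4 hu.le

theorem I2C.nu' : (n : ℝ) * u0 ≤ 1 / 10 ^ 6 := by
  have h1 := H.nu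
  have hu := H.u_pos
  have h2 := H.u_le
  have h3 : ((n : ℝ) * u0) ^ 2 ≤ (1 / 10 ^ 6) ^ 2 := by
    refine h1.trans ?_
    have : 9 / 2 * u0 ≤ 9 / 2 * (1 / 10 ^ 14) := by linarith
    refine this.trans (by norm_num)
  exact (sq_le_sq₀ (by positivity) (by norm_num)).mp h3

theorem I2C.pow2 {i : ℕ} (hi : i ≤ n) : (1 + u0 ^ 6) ^ i ≤ 2 := by
  have hu := H.u_pos
  have h1 := H.nu'
  have h6 : 0 < u0 ^ 6 := by positivity
  have h6' : u0 ^ 6 ≤ u0 := by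
    have := pow_le_pow_of_le_one hu.le (H.u_le.trans (by norm_num)) (by norm_num : 1 ≤ 6)
    simpa using this
  have key : ∀ j : ℕ, j ≤ n → (1 + u0 ^ 6) ^ j ≤ 1 + 2 * (j * u0 ^ 6) := by
    intro j
    induction j with
    | zero => intro _; simp
    | succ j ih =>
      intro hj
      have ih' := ih (by omega)
      have hj1 : (j : ℝ) * u0 ^ 6 ≤ 1 / 2 := by
        have a : (j : ℝ) ≤ n := by exact_mod_cast (by omega : j ≤ n)
        have b : (j : ℝ) * u0 ^ 6 ≤ n * u0 := by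
          refine mul_le_mul a h6' h6.le (Nat.cast_nonneg n)
        linarith [b.trans h1]
      rw [pow_succ]
      have hstep : (1 + u0 ^ 6) ^ j * (1 + u0 ^ 6) ≤ (1 + 2 * (j * u0 ^ 6)) * (1 + u0 ^ 6) :=
        mul_le_mul_of_nonneg_right ih' (by positivity)
      push_cast
      nlinarith
  have h2 := key i hi
  have h3 : (i : ℝ) * u0 ^ 6 ≤ 1 / 2 := by
    have a : (i : ℝ) ≤ n := by exact_mod_cast hi
    have b : (i : ℝ) * u0 ^ 6 ≤ n * u0 := mul_le_mul a h6' h6.le (Nat.cast_nonneg n)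
    linarith [b.trans h1]
  linarith

theorem I2C.om_bd {σ τ μ : ℕ → ℝ} (hσ : ∀ i ≤ n, σ i = Real.sin (th i))
    (hτ : ∀ i ≤ n, 0 < τ i) (hrec : ∀ i, i + 2 ≤ n → RecAt l σ τ μ i)
    (h0 : |τ 1 - ph * τ 0| ≤ u0 ^ 2 * τ 0) {i : ℕ} (hi : i + 1 ≤ n) :
    |(μ (i + 1) * τ i - μ i * τ (i + 1)) - i2W l (τ 0) s0 u0 i| ≤
      2 * (|(μ 1 * τ 0 - μ 0 * τ 1) - i2W l (τ 0) s0 u0 0| + 400 * (l * τ 0 * ph ^ (2 * i))) := by
  have hl := H.l_pos
  have hu := H.u_pos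
  have ht := hτ 0 (Nat.zero_le _)
  set w0 := |(μ 1 * τ 0 - μ 0 * τ 1) - i2W l (τ 0) s0 u0 0| with hw0
  have hw0' : 0 ≤ w0 := abs_nonneg _
  have key : ∀ j : ℕ, j + 1 ≤ n →
      |(μ (j + 1) * τ j - μ j * τ (j + 1)) - i2W l (τ 0) s0 u0 j| ≤
        (1 + u0 ^ 6) ^ j * (w0 + 400 * (l * τ 0 * ph ^ (2 * j))) := by
    intro j
    induction j with
    | zero =>
      intro _
      rw [pow_zero, one_mul, zero_add, ← hw0]
      have : 0 < l * τ 0 * ph ^ (2 * 0) := by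
        have := i2_ph_pow_pos (2 * 0)
        positivity
      linarith
    | succ j ih =>
      intro hj
      have h1 := H.step (μ := μ) hσ hτ hrec h0 (i := j) (by omega)
      have h2 := ih (by omega)
      have hx : 0 < l * τ 0 * ph ^ (2 * j) := by
        have := i2_ph_pow_pos (2 * j)
        positivity
      have e : l * τ 0 * ph ^ (2 * (j + 1)) = (ph + 1) * (l * τ 0 * ph ^ (2 * j)) := by
        rw [show 2 * (j + 1) = 2 * j + 2 by ring, pow_add, i2_ph_sq]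
        ring
      have hq : 1 ≤ (1 + u0 ^ 6) ^ (j + 1) := one_le_pow₀ (by linarith [pow_pos hu 6])
      have h3 : (1 + u0 ^ 6) * |(μ (j + 1) * τ j - μ j * τ (j + 1)) - i2W l (τ 0) s0 u0 j| ≤
          (1 + u0 ^ 6) * ((1 + u0 ^ 6) ^ j * (w0 + 400 * (l * τ 0 * ph ^ (2 * j)))) :=
        mul_le_mul_of_nonneg_left h2 (by positivity)
      have h4 : (1 + u0 ^ 6) * ((1 + u0 ^ 6) ^ j * (w0 + 400 * (l * τ 0 * ph ^ (2 * j)))) =
          (1 + u0 ^ 6) ^ (j + 1) * (w0 + 400 * (l * τ 0 * ph ^ (2 * j))) := by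
        rw [pow_succ]
        ring
      have h5 : 400 * (l * τ 0 * ph ^ (2 * j)) ≤
          (1 + u0 ^ 6) ^ (j + 1) * (400 * (l * τ 0 * ph ^ (2 * j))) :=
        le_mul_of_one_le_left (by positivity) hq
      have h6 : (1 + u0 ^ 6) ^ (j + 1) * (w0 + 400 * (l * τ 0 * ph ^ (2 * j))) +
          (1 + u0 ^ 6) ^ (j + 1) * (400 * (l * τ 0 * ph ^ (2 * j))) ≤
          (1 + u0 ^ 6) ^ (j + 1) * (w0 + 400 * (l * τ 0 * ph ^ (2 * (j + 1)))) := by
        rw [e, ← mul_add]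
        refine mul_le_mul_of_nonneg_left ?_ (by positivity)
        nlinarith [i2_ph_lo]
      exact h1.trans (by linarith)
  refine (key i hi).trans ?_
  refine mul_le_mul_of_nonneg_right (H.pow2 (by omega)) ?_
  have := i2_ph_pow_pos (2 * i)
  positivity

/-! ### the increments of the velocities -/

theorem I2C.r_bd {i : ℕ} (hi : i ≤ n) : |i2r s0 u0 i| ≤ 8 := by
  have h1 := H.b_bd hi
  have h2 := H.M_s i
  unfold i2r
  rw [abs_div, div_eq_mul_inv, ← abs_inv, i2_abs_s H.s_pos]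
  have h3 : s0 * al ^ i * |(i2h s0 u0 i)⁻¹| ≤ i2M s0 u0 i * |(i2h s0 u0 i)⁻¹| :=
    mul_le_mul_of_nonneg_right h2 (abs_nonneg _)
  linarith

/-- product of consecutive slopes compared with the model -/
theorem I2C.q_bd {τ : ℕ → ℝ} (hτ : ∀ i ≤ n, 0 < τ i) {i : ℕ} (hi : i + 1 ≤ n)
    (h1 : |τ i - τ 0 * ph ^ i| ≤ 4 * u0 ^ 2 * τ 0 * (ph ^ i - 1))
    (h2 : |τ (i + 1) - τ 0 * ph ^ (i + 1)| ≤ 4 * u0 ^ 2 * τ 0 * (ph ^ (i + 1) - 1)) :
    99 / 100 * (τ 0 * ph ^ i * (τ 0 * ph ^ (i + 1))) ≤ τ i * τ (i + 1) ∧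
    |τ 0 * ph ^ i * (τ 0 * ph ^ (i + 1)) / (τ i * τ (i + 1)) - 1| ≤ 10 * u0 ^ 2 := by
  have hu := H.u_pos
  have hu2 := H.u2
  have ht := hτ 0 (Nat.zero_le _)
  have hti := hτ i (by omega)
  have hti1 := hτ (i + 1) hi
  have hp := i2_ph_pow_pos i
  have hp1 := i2_ph_pow_pos (i + 1)
  have a1 : |τ i - τ 0 * ph ^ i| ≤ 4 * u0 ^ 2 * (τ 0 * ph ^ i) := by
    refine h1.trans ?_
    have : 0 ≤ u0 ^ 2 * τ 0 := by positivity
    linarith
  have a2 : |τ (i + 1) - τ 0 * ph ^ (i + 1)| ≤ 4 * u0 ^ 2 * (τ 0 * ph ^ (i + 1)) := by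
    refine h2.trans ?_
    have : 0 ≤ u0 ^ 2 * τ 0 := by positivity
    linarith
  set x := τ 0 * ph ^ i with hx
  set y := τ 0 * ph ^ (i + 1) with hy
  have hx0 : 0 < x := by positivity
  have hy0 : 0 < y := by positivity
  have hu20 : 0 < u0 ^ 2 := by positivity
  have b1 : (1 - 4 * u0 ^ 2) * x ≤ τ i := by linarith [(abs_le.mp a1).1]
  have b2 : (1 - 4 * u0 ^ 2) * y ≤ τ (i + 1) := by linarith [(abs_le.mp a2).1]
  have b3 : τ i ≤ (1 + 4 * u0 ^ 2) * x := by linarith [(abs_le.mp a1).2]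
  have b4 : τ (i + 1) ≤ (1 + 4 * u0 ^ 2) * y := by linarith [(abs_le.mp a2).2]
  have c0 : 0 < 1 - 4 * u0 ^ 2 := by linarith
  have c1 : (1 - 4 * u0 ^ 2) ^ 2 * (x * y) ≤ τ i * τ (i + 1) := by
    calc (1 - 4 * u0 ^ 2) ^ 2 * (x * y) = ((1 - 4 * u0 ^ 2) * x) * ((1 - 4 * u0 ^ 2) * y) := by
          ring
      _ ≤ τ i * τ (i + 1) := mul_le_mul b1 b2 (by positivity) hti.le
  have c2 : τ i * τ (i + 1) ≤ (1 + 4 * u0 ^ 2) ^ 2 * (x * y) := by
    calc τ i * τ (i + 1) ≤ ((1 + 4 * u0 ^ 2) * x) * ((1 + 4 * u0 ^ 2) * y) :=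
          mul_le_mul b3 b4 hti1.le (by positivity)
      _ = _ := by ring
  have hxy : 0 < x * y := by positivity
  have d1 : (1 - 8 * u0 ^ 2) * (x * y) ≤ τ i * τ (i + 1) := by
    refine le_trans ?_ c1
    refine mul_le_mul_of_nonneg_right ?_ hxy.le
    nlinarith [sq_nonneg (u0 ^ 2)]
  have d2 : τ i * τ (i + 1) ≤ (1 + 9 * u0 ^ 2) * (x * y) := by
    refine c2.trans ?_
    refine mul_le_mul_of_nonneg_right ?_ hxy.le
    nlinarith
  refine ⟨?_, ?_⟩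
  · refine le_trans ?_ d1
    refine mul_le_mul_of_nonneg_right ?_ hxy.le
    linarith
  · have hq : 0 < τ i * τ (i + 1) := by positivity
    rw [abs_le]
    constructor
    · rw [le_sub_iff_add_le, le_div_iff₀ hq]
      have : (-(10 * u0 ^ 2) + 1) * (τ i * τ (i + 1)) ≤
          (-(10 * u0 ^ 2) + 1) * ((1 + 9 * u0 ^ 2) * (x * y)) :=
        mul_le_mul_of_nonneg_left d2 (by linarith)
      have h3 : (-(10 * u0 ^ 2) + 1) * ((1 + 9 * u0 ^ 2) * (x * y)) ≤ 1 * (x * y) := by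
        rw [← mul_assoc]
        refine mul_le_mul_of_nonneg_right ?_ hxy.le
        nlinarith [sq_nonneg (u0 ^ 2)]
      linarith
    · rw [sub_le_iff_le_add, div_le_iff₀ hq]
      have : (10 * u0 ^ 2 + 1) * ((1 - 8 * u0 ^ 2) * (x * y)) ≤
          (10 * u0 ^ 2 + 1) * (τ i * τ (i + 1)) :=
        mul_le_mul_of_nonneg_left d1 (by linarith)
      have h3 : 1 * (x * y) ≤ (10 * u0 ^ 2 + 1) * ((1 - 8 * u0 ^ 2) * (x * y)) := by
        rw [← mul_assoc (10 * u0 ^ 2 + 1)]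
        refine mul_le_mul_of_nonneg_right ?_ hxy.le
        nlinarith [sq_nonneg (u0 ^ 2)]
      linarith

/-- one increment -/
theorem I2C.incr {σ τ μ : ℕ → ℝ} (hσ : ∀ i ≤ n, σ i = Real.sin (th i))
    (hτ : ∀ i ≤ n, 0 < τ i) (hrec : ∀ i, i + 2 ≤ n → RecAt l σ τ μ i)
    (h0 : |τ 1 - ph * τ 0| ≤ u0 ^ 2 * τ 0) {i : ℕ} (hi : i + 1 ≤ n) :
    |(μ (i + 1) / τ (i + 1) - μ i / τ i) -
      l / (20 * (s0 ^ 2 * u0 * τ 0)) * (i2r s0 u0 (i + 1) - i2r s0 u0 i)| ≤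
      13 / 10 * (|(μ 1 * τ 0 - μ 0 * τ 1) - i2W l (τ 0) s0 u0 0| / τ 0 ^ 2) * (al ^ 2) ^ i +
        521 * (l / τ 0) := by
  have hl := H.l_pos
  have hu := H.u_pos
  have hs := H.s_pos
  have ht := hτ 0 (Nat.zero_le _)
  have hti := hτ i (by omega)
  have hti1 := hτ (i + 1) hi
  have hp := i2_ph_pow_pos i
  have hp1 := i2_ph_pow_pos (i + 1)
  have hgr := H.grow hτ (fun j hj => by
    have := (hrec j hj).1
    rwa [hσ j (by omega), hσ (j + 1) (by omega), hσ (j + 2) (by omega)] at this) h0 i hi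
  obtain ⟨q1, q2⟩ := H.q_bd hτ hi hgr.2.1 hgr.2.2
  have hom := H.om_bd (μ := μ) hσ hτ hrec h0 hi
  have htel := i2W_tel l (τ 0) s0 u0 i hs.ne' hu.ne' ht.ne' (H.h_ne (by omega)) (H.h_ne hi)
  set w0 := |(μ 1 * τ 0 - μ 0 * τ 1) - i2W l (τ 0) s0 u0 0|
  set w := μ (i + 1) * τ i - μ i * τ (i + 1) with hw
  set Wm := i2W l (τ 0) s0 u0 i
  set q := τ i * τ (i + 1) with hq
  set qm := τ 0 * ph ^ i * (τ 0 * ph ^ (i + 1)) with hqm
  set Y := l / (20 * (s0 ^ 2 * u0 * τ 0)) * (i2r s0 u0 (i + 1) - i2r s0 u0 i) with hY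
  have hq0 : 0 < q := by positivity
  have hqm0 : 0 < qm := by positivity
  have e1 : μ (i + 1) / τ (i + 1) - μ i / τ i = w / q := by
    rw [hw, hq]
    field_simp
  have e2 : w / q - Y = (w - Wm) / q + Y * (qm / q - 1) := by
    rw [← htel]
    field_simp
    ring
  rw [e1, e2]
  have a1 : |(w - Wm) / q| ≤ 13 / 10 * (w0 / τ 0 ^ 2) * (al ^ 2) ^ i + 520 * (l / τ 0) := by
    rw [abs_div, abs_of_pos hq0, div_le_iff₀ hq0]
    have hw00 : 0 ≤ w0 := abs_nonneg _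
    have hal2 : (al ^ 2) ^ i * (ph ^ (2 * i)) = 1 := by
      rw [← pow_mul]
      exact i2_alph_pow (2 * i)
    have hqm' : qm = τ 0 ^ 2 * ph ^ (2 * i) * ph := by
      rw [hqm, two_mul, pow_add, pow_succ]
      ring
    have hal20 : 0 < (al ^ 2) ^ i := by
      rw [← pow_mul]
      exact i2_al_pow_pos _
    have hK : 0 ≤ 13 / 10 * (w0 / τ 0 ^ 2) * (al ^ 2) ^ i + 520 * (l / τ 0) := by positivity
    have h3 : (13 / 10 * (w0 / τ 0 ^ 2) * (al ^ 2) ^ i + 520 * (l / τ 0)) * (99 / 100 * qm) ≤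
        (13 / 10 * (w0 / τ 0 ^ 2) * (al ^ 2) ^ i + 520 * (l / τ 0)) * q :=
      mul_le_mul_of_nonneg_left q1 hK
    have h4 : (13 / 10 * (w0 / τ 0 ^ 2) * (al ^ 2) ^ i + 520 * (l / τ 0)) * (99 / 100 * qm) =
        99 / 100 * ph * (13 / 10 * w0 * ((al ^ 2) ^ i * ph ^ (2 * i)) +
          520 * (l * τ 0 * ph ^ (2 * i))) := by
      rw [hqm']
      field_simp
    rw [h4, hal2] at h3
    have h5 : 2 * (w0 + 400 * (l * τ 0 * ph ^ (2 * i))) ≤
        99 / 100 * ph * (13 / 10 * w0 * 1 + 520 * (l * τ 0 * ph ^ (2 * i))) := by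
      have hz : 0 < l * τ 0 * ph ^ (2 * i) := by
        have := i2_ph_pow_pos (2 * i)
        positivity
      have hp2 := i2_ph_lo
      nlinarith
    linarith
  have a2 : |Y * (qm / q - 1)| ≤ l / τ 0 := by
    rw [abs_mul]
    have h3 : |Y| ≤ l / (20 * (s0 ^ 2 * u0 * τ 0)) * 16 := by
      rw [hY, abs_mul, abs_of_pos (by positivity)]
      refine mul_le_mul_of_nonneg_left ?_ (by positivity)
      have r1 := H.r_bd (i := i) (by omega)
      have r2 := H.r_bd hi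
      have := abs_sub (i2r s0 u0 (i + 1)) (i2r s0 u0 i)
      linarith
    have h4 : l / (20 * (s0 ^ 2 * u0 * τ 0)) * 16 * (10 * u0 ^ 2) ≤ l / τ 0 := by
      have hs2 : 16 / 100 ≤ s0 ^ 2 := by
        have := H.s_lo
        nlinarith
      have e : l / (20 * (s0 ^ 2 * u0 * τ 0)) * 16 * (10 * u0 ^ 2) =
          (l / τ 0) * (8 * u0 / s0 ^ 2) := by
        field_simp
        ring
      rw [e]
      refine mul_le_of_le_one_right (by positivity) ?_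
      rw [div_le_one (by positivity)]
      have : u0 ≤ 1 / 100 := H.u_le.trans (by norm_num)
      linarith
    calc |Y| * |qm / q - 1| ≤ l / (20 * (s0 ^ 2 * u0 * τ 0)) * 16 * (10 * u0 ^ 2) := by
          gcongr
      _ ≤ l / τ 0 := h4
  have a3 := abs_add_le ((w - Wm) / q) (Y * (qm / q - 1))
  linarith

/-- the main estimate, in terms of the initial error -/
theorem I2C.main {σ τ μ : ℕ → ℝ} (hσ : ∀ i ≤ n, σ i = Real.sin (th i))
    (hτ : ∀ i ≤ n, 0 < τ i) (hrec : ∀ i, i + 2 ≤ n → RecAt l σ τ μ i)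
    (h0 : |τ 1 - ph * τ 0| ≤ u0 ^ 2 * τ 0) :
    |(μ n / τ n - μ 0 / τ 0) -
      l / (20 * (s0 ^ 2 * u0 * τ 0)) * (i2r s0 u0 n - i2r s0 u0 0)| ≤
      22 / 10 * (|(μ 1 * τ 0 - μ 0 * τ 1) - i2W l (τ 0) s0 u0 0| / τ 0 ^ 2) +
        521 * (l / τ 0) * n := by
  have ht := hτ 0 (Nat.zero_le _)
  have hl := H.l_pos
  set w0 := |(μ 1 * τ 0 - μ 0 * τ 1) - i2W l (τ 0) s0 u0 0|
  have hw0 : 0 ≤ w0 := abs_nonneg _
  have e1 : μ n / τ n - μ 0 / τ 0 =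
      ∑ i ∈ Finset.range n, (μ (i + 1) / τ (i + 1) - μ i / τ i) :=
    (Finset.sum_range_sub (fun i => μ i / τ i) n).symm
  have e2 : i2r s0 u0 n - i2r s0 u0 0 =
      ∑ i ∈ Finset.range n, (i2r s0 u0 (i + 1) - i2r s0 u0 i) :=
    (Finset.sum_range_sub (fun i => i2r s0 u0 i) n).symm
  rw [e1, e2, Finset.mul_sum, ← Finset.sum_sub_distrib]
  refine (Finset.abs_sum_le_sum_abs _ _).trans ?_
  have h1 : ∑ i ∈ Finset.range n, |(μ (i + 1) / τ (i + 1) - μ i / τ i) -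
      l / (20 * (s0 ^ 2 * u0 * τ 0)) * (i2r s0 u0 (i + 1) - i2r s0 u0 i)| ≤
      ∑ i ∈ Finset.range n, (13 / 10 * (w0 / τ 0 ^ 2) * (al ^ 2) ^ i + 521 * (l / τ 0)) := by
    refine Finset.sum_le_sum fun i hi => ?_
    exact H.incr (μ := μ) hσ hτ hrec h0 (by
      have := Finset.mem_range.mp hi
      omega)
  refine h1.trans ?_
  rw [Finset.sum_add_distrib, ← Finset.mul_sum, Finset.sum_const, Finset.card_range,
    nsmul_eq_mul]
  have h2 : ∑ i ∈ Finset.range n, (al ^ 2) ^ i ≤ 1662 / 1000 := by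
    have ha := i2_al_lo
    have hb := i2_al_hi
    have h3 : ∑ i ∈ Finset.range n, (al ^ 2) ^ i = (1 - (al ^ 2) ^ n) / (1 - al ^ 2) := by
      rw [geom_sum_eq (by nlinarith), ← neg_div_neg_eq, neg_sub, neg_sub]
    rw [h3, div_le_iff₀ (by nlinarith)]
    have h4 : 0 ≤ (al ^ 2) ^ n := by positivity
    nlinarith
  have h3 : 13 / 10 * (w0 / τ 0 ^ 2) * ∑ i ∈ Finset.range n, (al ^ 2) ^ i ≤
      13 / 10 * (w0 / τ 0 ^ 2) * (1662 / 1000) :=
    mul_le_mul_of_nonneg_left h2 (by positivity)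
  have h4 : 0 ≤ w0 / τ 0 ^ 2 := by positivity
  linarith

end ctx

/-- I2: the pass lemma -/
theorem passP : PassP := by
  refine ⟨1 / 10 ^ 14, by norm_num, by norm_num, ?_⟩
  intro l B s0 u0 n th σ τ μ hl hu huc hlu hs1 hs2 hB hBu hσ hth hths hthu hthh hτ hrec h1 h2
    hn hun
  have H : I2C l u0 s0 n th := ⟨hl, hu, huc, hlu, hs1, hs2, hth, hths, hthu, hthh, hun⟩
  have hs := H.s_pos
  have hn1 : 1 ≤ n := by
    rcases Nat.eq_zero_or_pos n with h | h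
    · exfalso
      rw [h] at hn
      simp only [mul_zero, pow_zero, mul_one] at hn
      have : u0 ≤ 1 := huc.trans (by norm_num)
      linarith
    · exact h
  have ht := hτ 0 (Nat.zero_le _)
  have ht1 := hτ 1 hn1
  have hu2 := H.u2
  have hu20 : 0 < u0 ^ 2 := by positivity
  -- initial error
  set w0 := |(μ 1 * τ 0 - μ 0 * τ 1) - i2W l (τ 0) s0 u0 0| with hw0
  have hw : w0 ≤ (17 / 10 * B + 40) * (l * τ 0) := by
    have a1 := H.W_zero ht hn1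
    have a2 : |μ 1 * τ 0 - μ 0 * τ 1| ≤ 17 / 10 * B * (l * τ 0) := by
      have e : μ 1 * τ 0 - μ 0 * τ 1 = (μ 1 / τ 1 - μ 0 / τ 0) * τ 0 * τ 1 := by
        field_simp
      rw [e, abs_mul, abs_mul, abs_of_pos ht, abs_of_pos ht1]
      have a3 : |μ 1 / τ 1 - μ 0 / τ 0| * τ 0 * τ 1 ≤ B * l * τ 1 :=
        mul_le_mul_of_nonneg_right h2 ht1.le
      have a4 : τ 1 ≤ 17 / 10 * τ 0 := by
        have := (abs_le.mp h1).2
        have hp := i2_ph_hi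
        have : u0 ^ 2 * τ 0 ≤ 1 / 10 ^ 9 * τ 0 := mul_le_mul_of_nonneg_right hu2 ht.le
        nlinarith
      have a5 : B * l * τ 1 ≤ B * l * (17 / 10 * τ 0) :=
        mul_le_mul_of_nonneg_left a4 (by positivity)
      linarith
    have a3 := abs_sub (μ 1 * τ 0 - μ 0 * τ 1) (i2W l (τ 0) s0 u0 0)
    rw [hw0]
    linarith
  have hmain := H.main (μ := μ) hσ hτ hrec h1
  rw [← hw0] at hmain
  have hgr := H.grow hτ (fun j hj => by
    have := (hrec j hj).1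
    rwa [hσ j (by omega), hσ (j + 1) (by omega), hσ (j + 2) (by omega)] at this) h1 (n - 1)
      (by omega)
  rw [Nat.sub_add_cancel hn1] at hgr
  obtain ⟨g1, g2, g3⟩ := hgr
  have hpn := i2_ph_pow_pos n
  refine ⟨?_, ?_, ?_, ?_⟩
  · -- lower bound for the change of velocity
    have r0 : 99 / 100 ≤ i2r s0 u0 0 := by
      unfold i2r i2h i2s i2u
      simp only [pow_zero, mul_one]
      rw [le_div_iff₀ (by linarith)]
      have : u0 ≤ 1 / 1000 := huc.trans (by norm_num)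
      linarith
    have rn : |i2r s0 u0 n| ≤ 1 / 100 := by
      have b1 := H.b_bd (i := n) le_rfl
      have b2 := H.M_u n
      unfold i2r
      rw [abs_div, div_eq_mul_inv, ← abs_inv, i2_abs_s hs]
      have b3 : |(i2h s0 u0 n)⁻¹| * (u0 * ph ^ n) ≤ 8 :=
        (mul_le_mul_of_nonneg_left b2 (abs_nonneg _)).trans b1
      have b4 : al ^ n ≤ 1 / 10 ^ 14 * (u0 * ph ^ n) := by
        have e : 1 / 10 ^ 14 * u0 * ph ^ (2 * n) * al ^ n = 1 / 10 ^ 14 * (u0 * ph ^ n) := by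
          rw [two_mul, pow_add]
          calc 1 / 10 ^ 14 * u0 * (ph ^ n * ph ^ n) * al ^ n =
                1 / 10 ^ 14 * (u0 * ph ^ n) * (al ^ n * ph ^ n) := by ring
            _ = _ := by rw [i2_alph_pow, mul_one]
        have := mul_le_mul_of_nonneg_right hn (i2_al_pow_pos n).le
        rw [e, one_mul] at this
        exact this
      calc s0 * al ^ n * |(i2h s0 u0 n)⁻¹| ≤
            (4 / 5) * (1 / 10 ^ 14 * (u0 * ph ^ n)) * |(i2h s0 u0 n)⁻¹| :=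
              mul_le_mul_of_nonneg_right (mul_le_mul hs2 b4 (i2_al_pow_pos n).le (by norm_num))
                (abs_nonneg _)
        _ = (4 / 5) * (1 / 10 ^ 14) * (|(i2h s0 u0 n)⁻¹| * (u0 * ph ^ n)) := by ring
        _ ≤ (4 / 5) * (1 / 10 ^ 14) * 8 := by gcongr
        _ ≤ 1 / 100 := by norm_num
    have c1 : l * (7 / 100) ≤ u0 * τ 0 *
        |l / (20 * (s0 ^ 2 * u0 * τ 0)) * (i2r s0 u0 n - i2r s0 u0 0)| := by
      rw [abs_mul, abs_of_pos (by positivity : 0 < l / (20 * (s0 ^ 2 * u0 * τ 0)))]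
      have d1 : 98 / 100 ≤ |i2r s0 u0 n - i2r s0 u0 0| := by
        rw [abs_sub_comm]
        refine le_trans ?_ (le_abs_self _)
        linarith [(abs_le.mp rn).2]
      have e : u0 * τ 0 * (l / (20 * (s0 ^ 2 * u0 * τ 0)) * |i2r s0 u0 n - i2r s0 u0 0|) =
          l * (|i2r s0 u0 n - i2r s0 u0 0| / (20 * s0 ^ 2)) := by
        field_simp
      rw [e]
      refine mul_le_mul_of_nonneg_left ?_ hl.le
      rw [le_div_iff₀ (by positivity)]
      nlinarith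
    have c2 : u0 * τ 0 * (22 / 10 * (w0 / τ 0 ^ 2) + 521 * (l / τ 0) * n) ≤ l * (1 / 100) := by
      have e : u0 * τ 0 * (22 / 10 * (w0 / τ 0 ^ 2) + 521 * (l / τ 0) * n) =
          22 / 10 * (u0 * w0 / τ 0) + 521 * l * (n * u0) := by
        field_simp
      rw [e]
      have d1 : u0 * w0 / τ 0 ≤ (17 / 10 * (B * u0) + 40 * u0) * l := by
        rw [div_le_iff₀ ht]
        have := mul_le_mul_of_nonneg_left hw hu.le
        linarith
      have d2 := H.nu'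
      have d3 : 521 * l * (n * u0) ≤ 521 * l * (1 / 10 ^ 6) :=
        mul_le_mul_of_nonneg_left d2 (by positivity)
      have d4 : (17 / 10 * (B * u0) + 40 * u0) * l ≤ (42 / 10 ^ 14) * l := by
        refine mul_le_mul_of_nonneg_right ?_ hl.le
        linarith
      linarith
    have c3 : u0 * τ 0 * |(μ n / τ n - μ 0 / τ 0) -
      l / (20 * (s0 ^ 2 * u0 * τ 0)) * (i2r s0 u0 n - i2r s0 u0 0)| ≤ l * (1 / 100) :=
      (mul_le_mul_of_nonneg_left hmain (by positivity)).trans c2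
    have c4 : |l / (20 * (s0 ^ 2 * u0 * τ 0)) * (i2r s0 u0 n - i2r s0 u0 0)| ≤
        |μ n / τ n - μ 0 / τ 0| + |(μ n / τ n - μ 0 / τ 0) -
          l / (20 * (s0 ^ 2 * u0 * τ 0)) * (i2r s0 u0 n - i2r s0 u0 0)| := by
      have := abs_sub (μ n / τ n - μ 0 / τ 0) ((μ n / τ n - μ 0 / τ 0) -
          l / (20 * (s0 ^ 2 * u0 * τ 0)) * (i2r s0 u0 n - i2r s0 u0 0))
      rwa [sub_sub_cancel] at this
    have c5 := mul_le_mul_of_nonneg_left c4 (by positivity : 0 ≤ u0 * τ 0)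
    have : 1 / 10 ^ 14 * l ≤ 1 / 100 * l := mul_le_mul_of_nonneg_right (by norm_num) hl.le
    linarith
  · -- the last Wronskian
    have hi : n - 1 + 1 ≤ n := by omega
    have a1 := H.om_bd (μ := μ) hσ hτ hrec h1 hi
    have a2 := H.W_two ht hi
    rw [Nat.sub_add_cancel hn1, ← hw0] at a1
    have a3 : |μ n * τ (n - 1) - μ (n - 1) * τ n| ≤
        |i2W l (τ 0) s0 u0 (n - 1)| +
          |μ n * τ (n - 1) - μ (n - 1) * τ n - i2W l (τ 0) s0 u0 (n - 1)| := by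
      have := abs_add_le (i2W l (τ 0) s0 u0 (n - 1))
        (μ n * τ (n - 1) - μ (n - 1) * τ n - i2W l (τ 0) s0 u0 (n - 1))
      rwa [add_sub_cancel] at this
    have a4 : u0 ^ 2 * ph ^ (2 * (n - 1)) ≤ 1 / 4 := by
      have b1 := H.uph (i := n - 1) (by omega)
      have b2 : u0 ^ 2 * ph ^ (2 * (n - 1)) = (u0 * ph ^ (n - 1)) ^ 2 := by
        rw [mul_pow, ← pow_mul, mul_comm 2]
      rw [b2]
      have b3 : 0 ≤ u0 * ph ^ (n - 1) := by
        have := i2_ph_pow_pos (n - 1)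
        positivity
      nlinarith
    have a5 : u0 ^ 2 * (2 * (w0 + 400 * (l * τ 0 * ph ^ (2 * (n - 1))))) ≤ 300 * (l * τ 0) := by
      have b1 : u0 ^ 2 * w0 ≤ (17 / 10 * (B * u0) * u0 + 40 * u0 ^ 2) * (l * τ 0) := by
        have := mul_le_mul_of_nonneg_left hw hu20.le
        linarith
      have b2 : (17 / 10 * (B * u0) * u0 + 40 * u0 ^ 2) * (l * τ 0) ≤ 1 * (l * τ 0) := by
        refine mul_le_mul_of_nonneg_right ?_ (by positivity)
        have b3 : B * u0 * u0 ≤ 1 / 10 ^ 14 * u0 := mul_le_mul_of_nonneg_right hBu hu.le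
        linarith
      have b3 : u0 ^ 2 * (l * τ 0 * ph ^ (2 * (n - 1))) ≤ 1 / 4 * (l * τ 0) := by
        have := mul_le_mul_of_nonneg_right a4 (by positivity : 0 ≤ l * τ 0)
        linarith
      have b4 : 0 < l * τ 0 := by positivity
      linarith
    have a6 : u0 ^ 2 * |μ n * τ (n - 1) - μ (n - 1) * τ n| ≤ 330 * (l * τ 0) := by
      have b1 := mul_le_mul_of_nonneg_left a3 hu20.le
      have b2 := mul_le_mul_of_nonneg_left a1 hu20.le
      linarith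
    have b4 : 0 < l * τ 0 := by positivity
    linarith
  · -- growth
    have a1 := (abs_le.mp g3).1
    have a2 : 4 * u0 ^ 2 * τ 0 * (ph ^ n - 1) ≤ 4 / 10 ^ 9 * (τ 0 * ph ^ n) := by
      have b1 : 4 * u0 ^ 2 * τ 0 * (ph ^ n - 1) ≤ 4 * u0 ^ 2 * τ 0 * ph ^ n :=
        mul_le_mul_of_nonneg_left (by linarith) (by positivity)
      have b2 : 4 * u0 ^ 2 * τ 0 * ph ^ n = 4 * u0 ^ 2 * (τ 0 * ph ^ n) := by ring
      have b3 : 4 * u0 ^ 2 * (τ 0 * ph ^ n) ≤ 4 * (1 / 10 ^ 9) * (τ 0 * ph ^ n) := by gcongr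
      linarith
    have a3 : 0 < τ 0 * ph ^ n := by positivity
    have a4 : 1 / 10 ^ 14 * ph ^ n * τ 0 = 1 / 10 ^ 14 * (τ 0 * ph ^ n) := by ring
    rw [a4]
    linarith
  · -- the last ratio
    refine g1.trans ?_
    have a1 := (abs_le.mp g2).1
    have hpn1 := i2_ph_pow_pos (n - 1)
    have hpn2 : 1 ≤ ph ^ (n - 1) := one_le_pow₀ (by linarith [i2_ph_lo])
    have a2 : 4 * u0 ^ 2 * τ 0 * (ph ^ (n - 1) - 1) ≤ 4 / 10 ^ 9 * (τ 0 * ph ^ (n - 1)) := by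
      have b1 : 4 * u0 ^ 2 * τ 0 * (ph ^ (n - 1) - 1) ≤ 4 * u0 ^ 2 * τ 0 * ph ^ (n - 1) :=
        mul_le_mul_of_nonneg_left (by linarith) (by positivity)
      have b2 : 4 * u0 ^ 2 * τ 0 * ph ^ (n - 1) = 4 * u0 ^ 2 * (τ 0 * ph ^ (n - 1)) := by ring
      have b3 : 4 * u0 ^ 2 * (τ 0 * ph ^ (n - 1)) ≤ 4 * (1 / 10 ^ 9) * (τ 0 * ph ^ (n - 1)) := by
        gcongr
      linarith
    have a3 : 1 / 2 * τ 0 ≤ τ (n - 1) := by
      have : τ 0 * 1 ≤ τ 0 * ph ^ (n - 1) := mul_le_mul_of_nonneg_left hpn2 ht.le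
      linarith
    have a4 : 2 * u0 ^ 2 * τ 0 ≤ u0 * (1 / 2 * τ 0) := by
      have a5 : 2 * u0 ≤ 1 / 2 := by
        have : u0 ≤ 1 / 4 := huc.trans (by norm_num)
        linarith
      have a6 : 2 * u0 * τ 0 ≤ 1 / 2 * τ 0 := mul_le_mul_of_nonneg_right a5 ht.le
      calc 2 * u0 ^ 2 * τ 0 = u0 * (2 * u0 * τ 0) := by ring
        _ ≤ u0 * (1 / 2 * τ 0) := mul_le_mul_of_nonneg_left a6 hu.le
    exact a4.trans (mul_le_mul_of_nonneg_left a3 hu.le)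

end FIB
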