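import Pool.Agent.Helper75.FIB.I2

/-!
# FIB block I2b : typical continuation (abstract sequences)

`W_{i+1} = -(kap'/kap) W_i + g_i τ_{i+1}/kap`, `|g_i| ≤ l/(4 θ³)`, `ph^i τ0/8 ≤ τ_i ≤ 8 ph^i τ0`,
`|W_i| ≤ 2 (|W_0| + 6 (l τ0/θ³) ph^i)`, `V_{i+1} - V_i = W_i/(τ_i τ_{i+1})`.
-/

namespace FIB

open Real Finset

/-- the recursion of the Wronskian -/
theorem i2b_W {l : ℝ} {σ τ μ : ℕ → ℝ} {i : ℕ} (h : RecAt l σ τ μ i)
    (hk : 0 < kap l (σ i) (σ (i + 1))) :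
    μ (i + 2) * τ (i + 1) - μ (i + 1) * τ (i + 2) =
      -(kap l (σ (i + 1)) (σ (i + 2)) / kap l (σ i) (σ (i + 1))) *
        (μ (i + 1) * τ i - μ i * τ (i + 1)) +
      l / (4 * σ i * σ (i + 1) * σ (i + 2)) * τ (i + 1) / kap l (σ i) (σ (i + 1)) := by
  obtain ⟨r1, r2⟩ := h
  set k := kap l (σ i) (σ (i + 1))
  have e6 : μ (i + 2) = (kap l (σ (i + 1)) (σ (i + 2)) * μ i + kap l (σ i) (σ (i + 2)) *
      μ (i + 1) + l / (4 * σ i * σ (i + 1) * σ (i + 2))) / k := by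
    rw [eq_div_iff hk.ne', mul_comm]
    exact r2
  have e7 : τ (i + 2) = (kap l (σ (i + 1)) (σ (i + 2)) * τ i + kap l (σ i) (σ (i + 2)) *
      τ (i + 1)) / k := by
    rw [eq_div_iff hk.ne', mul_comm]
    exact r1
  rw [e6, e7]
  ring

theorem i2b_kap {l θ a b : ℝ} (hθ : 0 < θ) (hθ1 : θ ≤ 1 / 2000) (hl : 0 < l)
    (hlθ : l ≤ θ ^ 6) (ha : θ ≤ |a|) (hb : θ ≤ |b|) :
    1 ≤ kap l a b ∧ kap l a b ≤ 1 + θ ^ 2 := by
  have ha2 : θ ^ 2 ≤ a ^ 2 := by
    rw [← sq_abs a]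
    exact pow_le_pow_left₀ hθ.le ha 2
  have hb2 : θ ^ 2 ≤ b ^ 2 := by
    rw [← sq_abs b]
    exact pow_le_pow_left₀ hθ.le hb 2
  have h1 : θ ^ 4 ≤ a ^ 2 * b ^ 2 := by
    have := mul_le_mul ha2 hb2 (by positivity) (sq_nonneg _)
    calc θ ^ 4 = θ ^ 2 * θ ^ 2 := by ring
      _ ≤ _ := this
  have h2 : 0 < a ^ 2 * b ^ 2 := lt_of_lt_of_le (by positivity) h1
  have h3 : l ^ 2 / (4 * a ^ 2 * b ^ 2) ≤ θ ^ 2 := by
    rw [div_le_iff₀ (by linarith)]
    have h4 : l ^ 2 ≤ (θ ^ 6) ^ 2 := pow_le_pow_left₀ hl.le hlθ 2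
    have h5 : θ ^ 6 ≤ 1 := pow_le_one₀ hθ.le (by linarith)
    have h6 : θ ^ 2 * (4 * θ ^ 4) ≤ θ ^ 2 * (4 * a ^ 2 * b ^ 2) :=
      mul_le_mul_of_nonneg_left (by linarith) (by positivity)
    have h7 : (θ ^ 6) ^ 2 ≤ θ ^ 2 * (4 * θ ^ 4) := by
      have e : θ ^ 2 * (4 * θ ^ 4) = θ ^ 6 * 4 := by ring
      rw [e, sq]
      exact mul_le_mul_of_nonneg_left (by linarith) (by positivity)
    linarith
  have h4 : 0 ≤ l ^ 2 / (4 * a ^ 2 * b ^ 2) := by positivity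
  unfold kap
  constructor
  · rw [Real.one_le_sqrt]
    linarith
  · rw [Real.sqrt_le_left (by positivity)]
    nlinarith [pow_pos hθ 2, sq_nonneg (θ ^ 2)]

theorem i2b_ratio {e k k' : ℝ} (he : 0 ≤ e) (h1 : 1 ≤ k) (h2 : k ≤ 1 + e) (h3 : 1 ≤ k')
    (h4 : k' ≤ 1 + e) : 1 - e ≤ k' / k ∧ k' / k ≤ 1 + e := by
  have hk : 0 < k := by linarith
  constructor
  · rw [le_div_iff₀ hk]
    nlinarith
  · rw [div_le_iff₀ hk]
    nlinarith

theorem i2b_up {e : ℝ} (he : 0 < e) (n : ℕ) (hn : ∀ j : ℕ, j ≤ n → (j : ℝ) * e ≤ 1 / 2000) :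
    ∀ j : ℕ, j ≤ n → (1 + e) ^ j ≤ 2 := by
  intro j hj
  have key : ∀ j : ℕ, j ≤ n → (1 + e) ^ j ≤ 1 + 2 * (j * e) := by
    intro j
    induction j with
    | zero => intro _; simp
    | succ j ih =>
      intro hj
      have ih' := ih (by omega)
      have hj1 := hn j (by omega)
      rw [pow_succ]
      have hstep : (1 + e) ^ j * (1 + e) ≤ (1 + 2 * (j * e)) * (1 + e) :=
        mul_le_mul_of_nonneg_right ih' (by positivity)
      push_cast
      nlinarith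
  have h1 := key j hj
  have h2 := hn j hj
  linarith

theorem i2b_lo {e : ℝ} (he1 : e ≤ 1) (n : ℕ)
    (hn : ∀ j : ℕ, j ≤ n → (j : ℝ) * e ≤ 1 / 2000) :
    ∀ j : ℕ, j ≤ n → 1 / 2 ≤ (1 - e) ^ j := by
  intro j hj
  have h1 := one_add_mul_le_pow (a := -e) (by linarith) j
  have h2 := hn j hj
  have e' : 1 + -e = 1 - e := by ring
  rw [e'] at h1
  linarith

theorem i2b_growth {e : ℝ} (he : 0 < e) (he1 : e ≤ 1 / 2000) (n : ℕ) (τ : ℕ → ℝ)
    (hτ : ∀ i ≤ n, 0 < τ i) (h01 : τ 0 ≤ 2 * τ 1) (h10 : τ 1 ≤ 2 * τ 0)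
    (htau : ∀ i, i + 2 ≤ n →
      (1 - e) * (τ i + τ (i + 1)) ≤ τ (i + 2) ∧ τ (i + 2) ≤ (1 + e) * (τ i + τ (i + 1))) :
    ∀ i, i ≤ n → 1 / 4 * ((1 - e) ^ i * (τ 0 * ph ^ i)) ≤ τ i ∧
      τ i ≤ 4 * ((1 + e) ^ i * (τ 0 * ph ^ i)) := by
  have ht := hτ 0 (Nat.zero_le _)
  have p1 := i2_ph_lo
  have p2 := i2_ph_hi
  have hm : 0 < 1 - e := by linarith
  intro i
  induction i using Nat.strong_induction_on with
  | _ i ih =>
    intro hi
    match i, ih, hi with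
    | 0, _, _ => constructor <;> simp <;> linarith
    | 1, _, _ =>
      simp only [pow_one]
      have a1 : (1 - e) * (τ 0 * ph) ≤ 1 * (τ 0 * ph) :=
        mul_le_mul_of_nonneg_right (by linarith) (by positivity)
      have a2 : 1 * (τ 0 * ph) ≤ (1 + e) * (τ 0 * ph) :=
        mul_le_mul_of_nonneg_right (by linarith) (by positivity)
      constructor <;> nlinarith
    | i + 2, ih, hi =>
      obtain ⟨a1, a2⟩ := ih i (by omega) (by omega)
      obtain ⟨b1, b2⟩ := ih (i + 1) (by omega) (by omega)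
      obtain ⟨c1, c2⟩ := htau i hi
      have e' : ph ^ (i + 2) = ph ^ i + ph ^ (i + 1) := by
        rw [pow_add, i2_ph_sq, pow_succ]
        ring
      have hp := i2_ph_pow_pos i
      have hp1 := i2_ph_pow_pos (i + 1)
      constructor
      · refine le_trans ?_ c1
        have d1 : 1 / 4 * ((1 - e) ^ (i + 1) * (τ 0 * ph ^ i)) ≤ τ i := by
          refine le_trans ?_ a1
          rw [pow_succ (1 - e) i]
          have : 0 < (1 - e) ^ i * (τ 0 * ph ^ i) := by positivity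
          nlinarith
        have d2 : (1 - e) * (1 / 4 * ((1 - e) ^ (i + 1) * (τ 0 * ph ^ i)) +
            1 / 4 * ((1 - e) ^ (i + 1) * (τ 0 * ph ^ (i + 1)))) ≤
            (1 - e) * (τ i + τ (i + 1)) :=
          mul_le_mul_of_nonneg_left (by linarith) hm.le
        refine le_trans (le_of_eq ?_) d2
        rw [e', show i + 2 = (i + 1) + 1 from rfl, pow_succ (1 - e) (i + 1)]
        ring
      · refine c2.trans ?_
        have d1 : τ i ≤ 4 * ((1 + e) ^ (i + 1) * (τ 0 * ph ^ i)) := by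
          refine a2.trans ?_
          rw [pow_succ (1 + e) i]
          have : 0 < (1 + e) ^ i * (τ 0 * ph ^ i) := by positivity
          nlinarith
        have d2 : (1 + e) * (τ i + τ (i + 1)) ≤
            (1 + e) * (4 * ((1 + e) ^ (i + 1) * (τ 0 * ph ^ i)) +
            4 * ((1 + e) ^ (i + 1) * (τ 0 * ph ^ (i + 1)))) :=
          mul_le_mul_of_nonneg_left (by linarith) (by positivity)
        refine d2.trans (le_of_eq ?_)
        rw [e', show i + 2 = (i + 1) + 1 from rfl, pow_succ (1 + e) (i + 1)]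
        ring

theorem i2b_Wk {l θ : ℝ} {n : ℕ} {σ τ μ : ℕ → ℝ} (hθ : 0 < θ) (hl : 0 < l)
    (hσ : ∀ i ≤ n, θ ≤ |σ i| ∧ |σ i| ≤ 1) (hτ : ∀ i ≤ n, 0 < τ i)
    (hrec : ∀ i, i + 2 ≤ n → RecAt l σ τ μ i)
    (hkap : ∀ a ≤ n, ∀ b ≤ n, 1 ≤ kap l (σ a) (σ b))
    (hrat : ∀ i, i + 2 ≤ n → 0 ≤ kap l (σ (i + 1)) (σ (i + 2)) / kap l (σ i) (σ (i + 1)) ∧
        kap l (σ (i + 1)) (σ (i + 2)) / kap l (σ i) (σ (i + 1)) ≤ 1 + θ ^ 2)
    (hg : ∀ i, i ≤ n → 1 / 8 * (τ 0 * ph ^ i) ≤ τ i ∧ τ i ≤ 8 * (τ 0 * ph ^ i))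
    (w0 x : ℝ) (hw0 : w0 = |μ 1 * τ 0 - μ 0 * τ 1|) (hx : x = l * τ 0 / θ ^ 3) :
    ∀ i, i + 1 ≤ n → |μ (i + 1) * τ i - μ i * τ (i + 1)| ≤
      (1 + θ ^ 2) ^ i * (w0 + 6 * (x * ph ^ i)) := by
  have ht := hτ 0 (Nat.zero_le _)
  have hx0 : 0 < x := by rw [hx]; positivity
  have hw00 : 0 ≤ w0 := by rw [hw0]; exact abs_nonneg _
  have p1 := i2_ph_lo
  have hsq : 0 < θ ^ 2 := by positivity
  intro i
  induction i with
  | zero =>
    intro _
    simp only [pow_zero, zero_add, one_mul, mul_one]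
    rw [← hw0]
    linarith
  | succ i ih =>
    intro hi
    have h1 := ih (by omega)
    have hk := hkap i (by omega) (i + 1) (by omega)
    have hk0 : 0 < kap l (σ i) (σ (i + 1)) := by linarith
    rw [i2b_W (hrec i (by omega)) hk0]
    obtain ⟨a1, a2⟩ := hrat i (by omega)
    have hti1 := hτ (i + 1) (by omega)
    have hp := i2_ph_pow_pos i
    have hp1 := i2_ph_pow_pos (i + 1)
    have b1 : |-(kap l (σ (i + 1)) (σ (i + 2)) / kap l (σ i) (σ (i + 1))) *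
        (μ (i + 1) * τ i - μ i * τ (i + 1))| ≤
        (1 + θ ^ 2) * ((1 + θ ^ 2) ^ i * (w0 + 6 * (x * ph ^ i))) := by
      rw [abs_mul, abs_neg]
      refine mul_le_mul ?_ h1 (abs_nonneg _) (by positivity)
      rw [abs_of_nonneg a1]
      exact a2
    have b2 : |l / (4 * σ i * σ (i + 1) * σ (i + 2)) * τ (i + 1) / kap l (σ i) (σ (i + 1))| ≤
        2 * (x * ph ^ (i + 1)) := by
      rw [abs_div, abs_of_pos hk0, div_le_iff₀ hk0]
      have c1 : |l / (4 * σ i * σ (i + 1) * σ (i + 2)) * τ (i + 1)| ≤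
          2 * (x * ph ^ (i + 1)) := by
        rw [abs_mul, abs_div, abs_of_pos hl, abs_of_pos hti1, abs_mul, abs_mul, abs_mul]
        have s0 := (hσ i (by omega)).1
        have s1 := (hσ (i + 1) (by omega)).1
        have s2 := (hσ (i + 2) (by omega)).1
        have d1 : 4 * θ ^ 3 ≤ |(4 : ℝ)| * |σ i| * |σ (i + 1)| * |σ (i + 2)| := by
          rw [abs_of_pos (by norm_num : (0 : ℝ) < 4)]
          calc 4 * θ ^ 3 = 4 * θ * θ * θ := by ring
            _ ≤ 4 * |σ i| * |σ (i + 1)| * |σ (i + 2)| := by gcongr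
        have d2 := (hg (i + 1) (by omega)).2
        calc l / (|(4 : ℝ)| * |σ i| * |σ (i + 1)| * |σ (i + 2)|) * τ (i + 1)
            ≤ l / (4 * θ ^ 3) * (8 * (τ 0 * ph ^ (i + 1))) := by
              gcongr
          _ = 2 * (x * ph ^ (i + 1)) := by
              rw [hx]
              field_simp
              ring
      refine c1.trans ?_
      have : 0 < 2 * (x * ph ^ (i + 1)) := by positivity
      exact le_mul_of_one_le_right this.le hk
    have b3 := abs_add_le (-(kap l (σ (i + 1)) (σ (i + 2)) / kap l (σ i) (σ (i + 1))) *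
        (μ (i + 1) * τ i - μ i * τ (i + 1)))
      (l / (4 * σ i * σ (i + 1) * σ (i + 2)) * τ (i + 1) / kap l (σ i) (σ (i + 1)))
    refine b3.trans ((add_le_add b1 b2).trans ?_)
    have hq : 1 ≤ (1 + θ ^ 2) ^ (i + 1) := one_le_pow₀ (by linarith)
    have b4 : 2 * (x * ph ^ (i + 1)) ≤ (1 + θ ^ 2) ^ (i + 1) * (2 * (x * ph ^ (i + 1))) := by
      have : 0 < 2 * (x * ph ^ (i + 1)) := by positivity
      exact le_mul_of_one_le_left this.le hq
    have b5 : (1 + θ ^ 2) * ((1 + θ ^ 2) ^ i * (w0 + 6 * (x * ph ^ i))) =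
        (1 + θ ^ 2) ^ (i + 1) * (w0 + 6 * (x * ph ^ i)) := by
      rw [pow_succ (1 + θ ^ 2) i]
      ring
    rw [b5]
    refine (add_le_add le_rfl b4).trans ?_
    rw [← mul_add]
    refine mul_le_mul_of_nonneg_left ?_ (by positivity)
    have e : x * ph ^ (i + 1) = ph * (x * ph ^ i) := by
      rw [pow_succ]
      ring
    rw [e]
    have hz : 0 < x * ph ^ i := by positivity
    nlinarith

theorem i2b_term {l θ t0 w0 ti ti1 P A W V : ℝ} (hθ : 0 < θ) (hl : 0 < l) (ht : 0 < t0)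
    (hw : 0 ≤ w0) (hti : 0 < ti) (hti1 : 0 < ti1) (hP : 1 ≤ P) (hA : 0 < A) (hAP : A * P = 1)
    (hW : |W| ≤ 2 * (w0 + 6 * (l * t0 / θ ^ 3 * P))) (g1 : 1 / 8 * (t0 * P) ≤ ti)
    (g2 : 1 / 8 * (t0 * P) ≤ ti1) (hV : V = W / (ti * ti1)) :
    |V| ≤ (128 * (w0 / t0 ^ 2) + 768 * (l / (θ ^ 3 * t0))) * A := by
  have hP0 : 0 < P := by linarith
  rw [hV, abs_div, abs_of_pos (mul_pos hti hti1), div_le_iff₀ (mul_pos hti hti1)]
  refine hW.trans ?_
  have hq : 1 / 64 * (t0 ^ 2 * (P * P)) ≤ ti * ti1 := by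
    have h := mul_le_mul g1 g2 (by positivity) hti.le
    linarith
  have hK : 0 ≤ (128 * (w0 / t0 ^ 2) + 768 * (l / (θ ^ 3 * t0))) * A := by positivity
  refine le_trans ?_ (mul_le_mul_of_nonneg_left hq hK)
  have e3 : (128 * (w0 / t0 ^ 2) + 768 * (l / (θ ^ 3 * t0))) * A *
      (1 / 64 * (t0 ^ 2 * (P * P))) =
      (2 * w0 + 12 * (l * t0 / θ ^ 3)) * ((A * P) * P) := by
    field_simp
    ring
  rw [e3, hAP, one_mul]
  have h2 : w0 ≤ w0 * P := le_mul_of_one_le_right hw hP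
  linarith

theorem i2b_geom (n : ℕ) : ∑ i ∈ Finset.range n, al ^ i ≤ 27 / 10 := by
  have ha := i2_al_lo
  have hb := i2_al_hi
  have h3 : ∑ i ∈ Finset.range n, al ^ i = (1 - al ^ n) / (1 - al) := by
    rw [geom_sum_eq (by linarith), ← neg_div_neg_eq, neg_sub, neg_sub]
  rw [h3, div_le_iff₀ (by linarith)]
  have h4 := i2_al_pow_pos n
  linarith

theorem futP : FutP := by
  refine ⟨2200, ?_⟩
  intro l θ n σ τ μ hθ hCθ hl hlθ hnθ hn hσ hτ hrec h01 h10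
  have hθ1 : θ ≤ 1 / 2200 := by
    push_cast at hCθ
    linarith
  have hlθ' : l ≤ θ ^ 6 :=
    hlθ.trans (pow_le_pow_of_le_one hθ.le (by linarith) (by norm_num))
  have hkap : ∀ a ≤ n, ∀ b ≤ n, 1 ≤ kap l (σ a) (σ b) ∧ kap l (σ a) (σ b) ≤ 1 + θ ^ 2 :=
    fun a ha b hb => i2b_kap hθ (by linarith) hl hlθ' (hσ a ha).1 (hσ b hb).1
  have ht := hτ 0 (Nat.zero_le _)
  have ht1 := hτ 1 hn
  have hsq : 0 < θ ^ 2 := by positivity
  have hsq1 : θ ^ 2 ≤ 1 / 2200 * θ := by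
    rw [sq]
    exact mul_le_mul_of_nonneg_right hθ1 hθ.le
  have hsq2 : θ ^ 2 ≤ 1 / 2000 := by linarith
  have hnsq : ∀ j : ℕ, j ≤ n → (j : ℝ) * θ ^ 2 ≤ 1 / 2000 := by
    intro j hj
    have a : (j : ℝ) ≤ n := by exact_mod_cast hj
    have b : (j : ℝ) * θ ^ 2 ≤ n * (1 / 2200 * θ) :=
      mul_le_mul a hsq1 hsq.le (Nat.cast_nonneg n)
    linarith
  have hup := i2b_up hsq n hnsq
  have hlo := i2b_lo (by linarith) n hnsq
  -- ratios
  have hrat : ∀ i, i + 2 ≤ n →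
      (1 - θ ^ 2 ≤ kap l (σ (i + 1)) (σ (i + 2)) / kap l (σ i) (σ (i + 1)) ∧
        kap l (σ (i + 1)) (σ (i + 2)) / kap l (σ i) (σ (i + 1)) ≤ 1 + θ ^ 2) ∧
      (1 - θ ^ 2 ≤ kap l (σ i) (σ (i + 2)) / kap l (σ i) (σ (i + 1)) ∧
        kap l (σ i) (σ (i + 2)) / kap l (σ i) (σ (i + 1)) ≤ 1 + θ ^ 2) := by
    intro i hi
    obtain ⟨a1, a2⟩ := hkap i (by omega) (i + 1) (by omega)
    obtain ⟨b1, b2⟩ := hkap (i + 1) (by omega) (i + 2) (by omega)
    obtain ⟨c1, c2⟩ := hkap i (by omega) (i + 2) (by omega)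
    exact ⟨i2b_ratio hsq.le a1 a2 b1 b2, i2b_ratio hsq.le a1 a2 c1 c2⟩
  have htau : ∀ i, i + 2 ≤ n →
      (1 - θ ^ 2) * (τ i + τ (i + 1)) ≤ τ (i + 2) ∧ τ (i + 2) ≤ (1 + θ ^ 2) * (τ i + τ (i + 1)) := by
    intro i hi
    obtain ⟨⟨a1, a2⟩, ⟨b1, b2⟩⟩ := hrat i hi
    have hk := (hkap i (by omega) (i + 1) (by omega)).1
    have hti := hτ i (by omega)
    have hti1 := hτ (i + 1) (by omega)
    have r1 := (hrec i hi).1
    have e7 : τ (i + 2) = kap l (σ (i + 1)) (σ (i + 2)) / kap l (σ i) (σ (i + 1)) * τ i +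
        kap l (σ i) (σ (i + 2)) / kap l (σ i) (σ (i + 1)) * τ (i + 1) := by
      have : τ (i + 2) = (kap l (σ (i + 1)) (σ (i + 2)) * τ i + kap l (σ i) (σ (i + 2)) *
          τ (i + 1)) / kap l (σ i) (σ (i + 1)) := by
        rw [eq_div_iff (by linarith), mul_comm]
        exact r1
      rw [this]
      ring
    rw [e7]
    constructor
    · have := mul_le_mul_of_nonneg_right a1 hti.le
      have := mul_le_mul_of_nonneg_right b1 hti1.le
      linarith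
    · have := mul_le_mul_of_nonneg_right a2 hti.le
      have := mul_le_mul_of_nonneg_right b2 hti1.le
      linarith
  -- growth
  have hgl := i2b_growth hsq hsq2 n τ hτ h01 h10 htau
  have hg : ∀ i, i ≤ n → 1 / 8 * (τ 0 * ph ^ i) ≤ τ i ∧ τ i ≤ 8 * (τ 0 * ph ^ i) := by
    intro i hi
    obtain ⟨a1, a2⟩ := hgl i hi
    have hp := i2_ph_pow_pos i
    have b1 := mul_le_mul_of_nonneg_right (hlo i hi) (by positivity : 0 ≤ τ 0 * ph ^ i)
    have b2 := mul_le_mul_of_nonneg_right (hup i hi) (by positivity : 0 ≤ τ 0 * ph ^ i)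
    constructor <;> linarith
  -- Wronskians
  have hWk := i2b_Wk hθ hl hσ hτ hrec (fun a ha b hb => (hkap a ha b hb).1)
    (fun i hi => ⟨by linarith [(hrat i hi).1.1], (hrat i hi).1.2⟩) hg _ _ rfl rfl
  have hW : ∀ i, i + 1 ≤ n → |μ (i + 1) * τ i - μ i * τ (i + 1)| ≤
      2 * (|μ 1 * τ 0 - μ 0 * τ 1| + 6 * (l * τ 0 / θ ^ 3 * ph ^ i)) := by
    intro i hi
    refine (hWk i hi).trans (mul_le_mul_of_nonneg_right (hup i (by omega)) ?_)
    have := i2_ph_pow_pos i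
    positivity
  refine ⟨?_, ?_⟩
  · have e1 : μ n / τ n - μ 0 / τ 0 =
        ∑ i ∈ Finset.range n, (μ (i + 1) / τ (i + 1) - μ i / τ i) :=
      (Finset.sum_range_sub (fun i => μ i / τ i) n).symm
    rw [e1]
    refine (Finset.abs_sum_le_sum_abs _ _).trans ?_
    have hterm : ∀ i ∈ Finset.range n, |μ (i + 1) / τ (i + 1) - μ i / τ i| ≤
        (128 * (|μ 1 * τ 0 - μ 0 * τ 1| / τ 0 ^ 2) + 768 * (l / (θ ^ 3 * τ 0))) * al ^ i := by
      intro i hi
      have hi' : i + 1 ≤ n := by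
        have := Finset.mem_range.mp hi
        omega
      have hti := hτ i (by omega)
      have hti1 := hτ (i + 1) hi'
      have p1 := i2_ph_lo
      have a2 := (hg (i + 1) hi').1
      have hpp : ph ^ i ≤ ph ^ (i + 1) := pow_le_pow_right₀ (by linarith) (by omega)
      have a3 := mul_le_mul_of_nonneg_left hpp ht.le
      exact i2b_term hθ hl ht (abs_nonneg _) hti hti1 (one_le_pow₀ (by linarith))
        (i2_al_pow_pos i) (i2_alph_pow i) (hW i hi') (hg i (by omega)).1 (by linarith)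
        (by field_simp)
    refine (Finset.sum_le_sum hterm).trans ?_
    rw [← Finset.mul_sum]
    have h2 := i2b_geom n
    have h5 : 0 ≤ |μ 1 * τ 0 - μ 0 * τ 1| / τ 0 ^ 2 := by positivity
    have h6 : 0 ≤ l / (θ ^ 3 * τ 0) := by positivity
    refine (mul_le_mul_of_nonneg_left h2 (by linarith)).trans ?_
    push_cast
    linarith
  · have a1 := (hg n le_rfl).1
    have := hτ n le_rfl
    push_cast
    linarith

end FIB
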