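import Pool.Agent.Helper75.FIB.Iface3

/-!
# FIB block I3 : the velocity jump across a pass near a gap

`t = NN K l E`. Put `th i = Th (q+i) l E - π p(q+i)`, `σ i = sin(th i)`, `τ i = tau (q+i) E l`, `μ i = τ i * Vx (q+i) E l` for `0 <= i <= n`. `NBound`: `|th i - (s0(-α)^i + u0φ^i)| <= C'√l <= u0^4/100`. Hence `|th i| <= 1`, `3/10`-bounds (from 31/100), `sin Θ_{q+i} = ± σ i ≠ 0`, so `|tr (q+i)| < 1` (cos Θ = clip tr), `sg (q+i) = sin Θ_{q+i} = (-1)^{p(q+i)} σ i`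
(ThAt: `sin Θ · trE > 0`, `sg = sign(trE) sqrt(1-tr^2)`). Since `p_{i+2} = p_{i+1}+p_i`, `(-1)^{p_i+p_{i+1}+p_{i+2}} = 1`, so products of three consecutive `sg` equal the products of the `σ`, and `kap` only sees squares: `TLrec` gives `RecAt l σ τ μ i`.
Typical window at `q`: `Tw (θ^k) (q-L) q` and for `i ∈ [q,q+9]` `|σ| >= c0` absolute (`|th i| >= 0.31·0.45·α^9`), so `Tw (θ^{k+1}) (q-L) (q+9)`. `TauRatio` (at `m = q`): `|τ 1 - φ τ 0| <= l τ 0 <= u0^2 τ0`. `VTyp (i)` at `q` and `q+1`, `VStepC` (`z = 0`) at `q`: `|V_{q+1} - V_q| <= 3 l θ^{-C'k}/rho q`, `τ_q = |x_q'|/|sin| <= 3 rho q` and so `B := θ^{-C''}` works in PassP,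
`B u0 <= c` because `Nu >= C`. `l <= u0^{10}` since `l <= θ^{N0}`. `1 <= c u0 φ^{2n}`: `u0 φ^{2n} >= (1/36)/u0`. PassP: `|V_{q+n} - V_q| >= c l/(u0 τ_q)`, `|W| := |μ_n τ_{n-1} - μ_{n-1}τ_n| <= l τ_q/(c u0^2)`, `τ_{q+n} >= c φ^n τ_q >= c' τ_q/u0`, `|τ_n - φτ_{n-1}| <= u0 τ_{n-1}`.
FutP on `i ↦ q+n-1+i`, `0 <= i <= 2L+2` with threshold `θ^3`: `|sg| >= θ^2 - C√l >= θ^3` for levels `q+n..q+n+2L+4`, and `|σ (n-1)| >= 0.3 u0 φ^{n-1} - .. >= θ^3`: with `r = q+n+2L`: `|V_r - V_{q+n-1}| <= C(|W|/τ_{q+n-1}^2 + l θ^{-9}/τ_{q+n-1}) <= C' l/τ_q` (because `|W|/τ^2 <= C l/τ_q`, `θ^{-9} u0 <= 1`), and `|V_{q+n} - V_{q+n-1}| = |W|/(ττ) <= C' l/τ_q`.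
`|V_K - V_r| <= |V_K - v_r| + |v_r - V_r| <= 2 l^{-C'}/rho r` (FBound, VxCrude with `|tr r| < 1`; `r + 8 <= K`), `rho r >= l^{C'} φ^{r-q} rho q` (GrLow, ε = l), `φ^{2L} >= (1/l)^{2N0}`: so `<= l^2/rho q`. Altogether `|V_K - v_q| >= c l/(u0τ_q) - C' l/τ_q - l^2/rho q - l θ^{-C'k}/rho q >= (c/2) l/(u0 τ_q) >= (c/6) l/(u0 rho q)`.
-/

namespace FIB

open Real MeasureTheory Set Filter Topology

theorem abs_lt_of_clip14 {x : ℝ} (h : |clip x| < 1) : |x| < 1 := by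
  by_contra hcon
  push Not at hcon
  rcases le_abs.mp hcon with h1 | h1
  · have : clip x = 1 := by rw [clip, min_eq_left h1, max_eq_right (by norm_num)]
    rw [this] at h; norm_num at h
  · have : clip x = -1 := by rw [clip, min_eq_right (by linarith), max_eq_left (by linarith)]
    rw [this] at h; norm_num at h

theorem clip_eq14 {x : ℝ} (h : |x| < 1) : clip x = x := by
  obtain ⟨h1, h2⟩ := abs_lt.mp h
  rw [clip, min_eq_right h2.le, max_eq_right h1.le]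

theorem lev14 (hT : ThProps) {l E : ℝ} (h0 : 0 < l) (h1 : l ≤ 1 / 8) {j : ℕ} (hj : 1 ≤ j)
    (hs : Real.sin (Th j l E) ≠ 0) :
    |tr j E l| < 1 ∧ sg j E l = Real.sin (Th j l E) ∧
      1 - tr j E l ^ 2 = Real.sin (Th j l E) ^ 2 ∧ 0 < tau j E l ∧
      tau j E l * |Real.sin (Th j l E)| = |trE j E l| := by
  obtain ⟨_, _, hcos, _, _, hd⟩ := hT l h0 h1 j
  have hsc := Real.sin_sq_add_cos_sq (Th j l E)
  have hs2 : 0 < Real.sin (Th j l E) ^ 2 := by positivity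
  have h2 : |clip (tr j E l)| < 1 := by
    rw [← hcos E]
    exact (sq_lt_one_iff_abs_lt_one _).mp (by linarith)
  have h3 : |tr j E l| < 1 := abs_lt_of_clip14 h2
  have h4 : tr j E l = Real.cos (Th j l E) := by rw [hcos E, clip_eq14 h3]
  have h5 : 1 - tr j E l ^ 2 = Real.sin (Th j l E) ^ 2 := by rw [h4]; linarith
  have h6 := (hd E hj h3).1
  have h7 : √(1 - tr j E l ^ 2) = |Real.sin (Th j l E)| := by rw [h5, Real.sqrt_sq_eq_abs]
  have h8 : 0 < |Real.sin (Th j l E)| := abs_pos.mpr hs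
  have h9 : trE j E l ≠ 0 := by
    intro h; rw [h, mul_zero] at h6; exact lt_irrefl _ h6
  refine ⟨h3, ?_, h5, ?_, ?_⟩
  · rw [sg, h7]
    rcases lt_or_gt_of_ne hs with hneg | hpos
    · have h10 : trE j E l < 0 := by
        by_contra hcon
        push Not at hcon
        have := mul_nonpos_of_nonpos_of_nonneg hneg.le hcon
        linarith
      rw [sign_neg h10, abs_of_neg hneg]; simp
    · have h10 : 0 < trE j E l := (pos_iff_pos_of_mul_pos h6).mp hpos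
      rw [sign_pos h10, abs_of_pos hpos]; simp
  · rw [tau, h7]; exact div_pos (abs_pos.mpr h9) h8
  · rw [tau, h7]; field_simp

theorem kap_sign14 (l a b e f : ℝ) (he : e ^ 2 = 1) (hf : f ^ 2 = 1) :
    kap l (e * a) (f * b) = kap l a b := by
  unfold kap; rw [mul_pow, mul_pow, he, hf, one_mul, one_mul]

theorem recAt_sign14 {l : ℝ} {σ σ' τ μ e : ℕ → ℝ} {i : ℕ} (he : ∀ j, e j ^ 2 = 1)
    (hprod : e i * e (i + 1) * e (i + 2) = 1) (h : RecAt l σ' τ μ i)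
    (g0 : σ' i = e i * σ i) (g1 : σ' (i + 1) = e (i + 1) * σ (i + 1))
    (g2 : σ' (i + 2) = e (i + 2) * σ (i + 2)) :
    RecAt l σ τ μ i := by
  obtain ⟨h1, h2⟩ := h
  rw [g0, g1, g2] at h1 h2
  have k1 := kap_sign14 l (σ i) (σ (i + 1)) (e i) (e (i + 1)) (he _) (he _)
  have k2 := kap_sign14 l (σ (i + 1)) (σ (i + 2)) (e (i + 1)) (e (i + 2)) (he _) (he _)
  have k3 := kap_sign14 l (σ i) (σ (i + 2)) (e i) (e (i + 2)) (he _) (he _)
  have h3 : 4 * (e i * σ i) * (e (i + 1) * σ (i + 1)) * (e (i + 2) * σ (i + 2))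
      = 4 * σ i * σ (i + 1) * σ (i + 2) := by
    have : 4 * (e i * σ i) * (e (i + 1) * σ (i + 1)) * (e (i + 2) * σ (i + 2))
      = (e i * e (i + 1) * e (i + 2)) * (4 * σ i * σ (i + 1) * σ (i + 2)) := by ring
    rw [this, hprod, one_mul]
  rw [k1, k2, k3] at h1
  rw [k1, k2, k3, h3] at h2
  exact ⟨h1, h2⟩

theorem recAt_sg14 (hL : TLrec) {l E : ℝ} (h0 : 0 < l) {q i : ℕ} (hq : 1 ≤ q)
    (h1 : |tr (q + i) E l| < 1) (h2 : |tr (q + (i + 1)) E l| < 1)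
    (h3 : |tr (q + (i + 2)) E l| < 1) :
    RecAt l (fun j => sg (q + j) E l) (fun j => tau (q + j) E l)
      (fun j => tau (q + j) E l * Vx (q + j) E l) i := by
  obtain ⟨_, h4, h5⟩ := hL (q + i) E l (by omega) h0 h1 h2 h3
  exact ⟨h4, h5⟩

theorem neg_one_zpow_sq14 (p : ℤ) : ((-1 : ℝ) ^ p) ^ 2 = 1 := by
  rcases Int.even_or_odd p with h | h
  · rw [h.neg_one_zpow]; norm_num
  · rw [h.neg_one_zpow]; norm_num

theorem neg_one_zpow_prod14 {a b c : ℤ} (h : c = b + a) :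
    ((-1 : ℝ) ^ a) * ((-1 : ℝ) ^ b) * ((-1 : ℝ) ^ c) = 1 := by
  rw [← zpow_add₀ (by norm_num), ← zpow_add₀ (by norm_num)]
  have : Even (a + b + c) := ⟨a + b, by rw [h]; ring⟩
  exact this.neg_one_zpow

theorem vv_ofReal14 (n : ℕ) (E l : ℝ) : vv n (E : ℂ) (l : ℂ) = ((vv n E l : ℝ) : ℂ) := by
  unfold vv
  rw [trE_ofReal, trE_ofReal, trE_ofReal, trL_ofReal, trL_ofReal, trL_ofReal]
  push_cast
  rfl

/-- final arithmetic -/
theorem final14 {c l u0 τ0 ρ V0 Vn Vm Vr VK v a1 a2 δ : ℝ} (hl : 0 < l) (hu : 0 < u0) (hτ : 0 < τ0)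
    (hA : c * l ≤ u0 * τ0 * |Vn - V0|) (hτρ : τ0 ≤ 20 * ρ)
    (h1 : |Vn - Vm| * τ0 ≤ a1 * l) (h2 : |Vr - Vm| * τ0 ≤ a2 * l)
    (h3 : ρ * |VK - Vr| ≤ l) (h4 : u0 * (ρ * |V0 - v|) ≤ δ * l)
    (hu1 : u0 * (a1 + a2) ≤ c / 4) (hu2 : u0 ≤ c / 160) (hδ : δ ≤ c / 160) :
    c * l ≤ 40 * (u0 * ρ * |VK - v|) := by
  have h5 : |Vn - V0| ≤ |VK - v| + |VK - Vr| + |Vr - Vm| + |Vn - Vm| + |V0 - v| := by
    have e1 : Vn - V0 = (VK - v) + (-(VK - Vr)) + (-(Vr - Vm)) + (Vn - Vm) + (-(V0 - v)) := by ring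
    rw [e1]
    have b1 := abs_add_le ((VK - v) + (-(VK - Vr)) + (-(Vr - Vm)) + (Vn - Vm)) (-(V0 - v))
    have b2 := abs_add_le ((VK - v) + (-(VK - Vr)) + (-(Vr - Vm))) (Vn - Vm)
    have b3 := abs_add_le ((VK - v) + (-(VK - Vr))) (-(Vr - Vm))
    have b4 := abs_add_le (VK - v) (-(VK - Vr))
    rw [abs_neg] at b1 b3 b4
    linarith
  have h6 : u0 * τ0 * |Vn - V0| ≤
      u0 * τ0 * (|VK - v| + |VK - Vr| + |Vr - Vm| + |Vn - Vm| + |V0 - v|) :=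
    mul_le_mul_of_nonneg_left h5 (by positivity)
  have g1 : u0 * τ0 * |VK - v| ≤ 20 * (u0 * ρ * |VK - v|) := by
    have : u0 * τ0 * |VK - v| ≤ u0 * (20 * ρ) * |VK - v| := by gcongr
    linarith
  have g2 : u0 * τ0 * |VK - Vr| ≤ c / 8 * l := by
    calc u0 * τ0 * |VK - Vr| ≤ u0 * (20 * ρ) * |VK - Vr| := by gcongr
      _ = 20 * u0 * (ρ * |VK - Vr|) := by ring
      _ ≤ 20 * u0 * l := by gcongr
      _ ≤ 20 * (c / 160) * l := by gcongr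
      _ = c / 8 * l := by ring
  have g3 : u0 * τ0 * |Vr - Vm| + u0 * τ0 * |Vn - Vm| ≤ c / 4 * l := by
    calc u0 * τ0 * |Vr - Vm| + u0 * τ0 * |Vn - Vm|
        = u0 * (|Vr - Vm| * τ0 + |Vn - Vm| * τ0) := by ring
      _ ≤ u0 * (a2 * l + a1 * l) := by gcongr
      _ = u0 * (a1 + a2) * l := by ring
      _ ≤ c / 4 * l := by gcongr
  have g4 : u0 * τ0 * |V0 - v| ≤ c / 8 * l := by
    calc u0 * τ0 * |V0 - v| ≤ u0 * (20 * ρ) * |V0 - v| := by gcongr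
      _ = 20 * (u0 * (ρ * |V0 - v|)) := by ring
      _ ≤ 20 * (δ * l) := by gcongr
      _ ≤ 20 * (c / 160 * l) := by gcongr
      _ = c / 8 * l := by ring
  nlinarith

theorem phal14 : (1.6 : ℝ) < ph ∧ ph < 1.7 ∧ (0.6 : ℝ) < al ∧ al < 0.62 ∧ ph * al = 1 := by
  have h5 : (2.2 : ℝ) < √5 := by
    rw [Real.lt_sqrt (by norm_num)]; norm_num
  have h6 : √5 < (2.24 : ℝ) := by
    rw [Real.sqrt_lt' (by norm_num)]; norm_num
  have h7 : √5 ^ 2 = (5 : ℝ) := Real.sq_sqrt (by norm_num)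
  refine ⟨?_, ?_, ?_, ?_, ?_⟩ <;> simp only [ph, al]
  · linarith
  · linarith
  · linarith
  · linarith
  · nlinarith

theorem th_bounds14 {s0 u0 ε : ℝ} {n : ℕ} (hs1 : 9 / 20 ≤ s0) (hs2 : s0 ≤ 4 / 5) (hu0 : 0 < u0)
    (hu1 : u0 ≤ 1 / 1000) (hn : u0 * ph ^ n ≤ 1 / 2) (hε : ε ≤ u0 / 1000)
    (th : ℝ) {i : ℕ} (hi : i ≤ n) (h1 : |th - (s0 * (-al) ^ i + u0 * ph ^ i)| ≤ ε)
    (h2 : 31 / 100 * |s0 * (-al) ^ i| ≤ |s0 * (-al) ^ i + u0 * ph ^ i|)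
    (h3 : 31 / 100 * (u0 * ph ^ i) ≤ |s0 * (-al) ^ i + u0 * ph ^ i|) :
    |th| ≤ 1 ∧ 3 / 10 * |s0 * (-al) ^ i| ≤ |th| ∧ 3 / 10 * (u0 * ph ^ i) ≤ |th| := by
  obtain ⟨p1, p2, a1, a2, pa⟩ := phal14
  have hal : 0 < al := by linarith
  have hph : 0 < ph := by linarith
  have hA : |s0 * (-al) ^ i| = s0 * al ^ i := by
    rw [abs_mul, abs_pow, abs_neg, abs_of_pos hal, abs_of_pos (by linarith)]
  have hpi : 0 < ph ^ i := pow_pos hph i
  have hai : 0 < al ^ i := pow_pos hal i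
  have hpai : al ^ i * ph ^ i = 1 := by rw [← mul_pow, mul_comm, pa, one_pow]
  have hmono : ph ^ i ≤ ph ^ n := pow_le_pow_right₀ (by linarith) hi
  have h1p : 1 ≤ ph ^ i := one_le_pow₀ (by linarith)
  have hui : u0 * ph ^ i ≤ 1 / 2 := (mul_le_mul_of_nonneg_left hmono hu0.le).trans hn
  have hui1 : u0 ≤ u0 * ph ^ i := by
    calc u0 = u0 * 1 := (mul_one _).symm
      _ ≤ u0 * ph ^ i := mul_le_mul_of_nonneg_left h1p hu0.le
  have hai2 : 2 * u0 ≤ al ^ i := by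
    have : 2 * u0 * ph ^ i ≤ al ^ i * ph ^ i := by rw [hpai]; linarith
    exact le_of_mul_le_mul_right this hpi
  have hsa : 9 / 10 * u0 ≤ s0 * al ^ i := by
    calc 9 / 10 * u0 = 9 / 20 * (2 * u0) := by ring
      _ ≤ s0 * al ^ i := mul_le_mul hs1 hai2 (by linarith) (by linarith)
  rw [hA] at h2 ⊢
  set X := s0 * (-al) ^ i + u0 * ph ^ i with hX
  have h4 : |X| ≤ |th| + ε := by
    have := abs_sub_abs_le_abs_sub X th
    rw [abs_sub_comm] at this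
    linarith
  have h5 : |th| ≤ |X| + ε := by
    have := abs_sub_abs_le_abs_sub th X
    linarith
  have h6 : |X| ≤ s0 * al ^ i + u0 * ph ^ i := by
    have := abs_add_le (s0 * (-al) ^ i) (u0 * ph ^ i)
    rw [hA, abs_of_pos (mul_pos hu0 hpi)] at this
    exact this
  have h7 : s0 * al ^ i + u0 * ph ^ i ≤ 0.998 := by
    rcases Nat.eq_zero_or_pos i with h0 | h0
    · subst h0; simp only [pow_zero, mul_one]; linarith
    · have h8 : al ^ i ≤ al ^ 1 := pow_le_pow_of_le_one hal.le (by linarith) h0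
      have h9 : s0 * al ^ i ≤ 4 / 5 * 0.62 :=
        mul_le_mul hs2 (by linarith [pow_one al]) hai.le (by norm_num)
      linarith
  refine ⟨?_, ?_, ?_⟩
  · linarith
  · linarith
  · linarith

theorem sin_lower14 {x : ℝ} (h : |x| ≤ 1) : |x| / 2 ≤ |Real.sin x| := by
  have h1 := Real.mul_abs_le_abs_sin (x := x) (by linarith [Real.pi_gt_three])
  have h2 : 1 / 2 ≤ 2 / π := by
    rw [div_le_div_iff₀ (by norm_num) Real.pi_pos]
    linarith [Real.pi_lt_four]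
  have h3 : 1 / 2 * |x| ≤ 2 / π * |x| := mul_le_mul_of_nonneg_right h2 (abs_nonneg _)
  linarith

/-- the body of `PassP` -/
def PassPc14 (c : ℝ) : Prop := ∀ (l B s0 u0 : ℝ) (n : ℕ) (th σ τ μ : ℕ → ℝ),
  0 < l → 0 < u0 → u0 ≤ c → l ≤ u0 ^ 10 → 2 / 5 ≤ s0 → s0 ≤ 4 / 5 → 0 ≤ B → B * u0 ≤ c →
  (∀ i ≤ n, σ i = Real.sin (th i)) → (∀ i ≤ n, |th i| ≤ 1) →
  (∀ i ≤ n, 3 / 10 * |s0 * (-al) ^ i| ≤ |th i|) → (∀ i ≤ n, 3 / 10 * (u0 * ph ^ i) ≤ |th i|) →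
  (∀ i ≤ n, |th i - (s0 * (-al) ^ i + u0 * ph ^ i)| ≤ u0 ^ 4) →
  (∀ i ≤ n, 0 < τ i) → (∀ i, i + 2 ≤ n → RecAt l σ τ μ i) →
  |τ 1 - ph * τ 0| ≤ u0 ^ 2 * τ 0 → |μ 1 / τ 1 - μ 0 / τ 0| * τ 0 ≤ B * l →
  1 ≤ c * u0 * ph ^ (2 * n) → u0 * ph ^ n ≤ 1 / 2 →
  c * l ≤ u0 * τ 0 * |μ n / τ n - μ 0 / τ 0| ∧
  c * u0 ^ 2 * |μ n * τ (n - 1) - μ (n - 1) * τ n| ≤ l * τ 0 ∧
  c * ph ^ n * τ 0 ≤ τ n ∧ |τ n - ph * τ (n - 1)| ≤ u0 * τ (n - 1)

/-- the body of `FutP` -/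
def FutPc14 (C : ℕ) : Prop := ∀ (l θ : ℝ) (n : ℕ) (σ τ μ : ℕ → ℝ),
  0 < θ → (C : ℝ) * θ ≤ 1 → 0 < l → l ≤ θ ^ C → (n : ℝ) * θ ≤ 1 → 1 ≤ n →
  (∀ i ≤ n, θ ≤ |σ i| ∧ |σ i| ≤ 1) → (∀ i ≤ n, 0 < τ i) → (∀ i, i + 2 ≤ n → RecAt l σ τ μ i) →
  τ 0 ≤ 2 * τ 1 → τ 1 ≤ 2 * τ 0 →
  |μ n / τ n - μ 0 / τ 0| ≤ C * (|μ 1 * τ 0 - μ 0 * τ 1| / τ 0 ^ 2 + l / (θ ^ 3 * τ 0)) ∧
  ph ^ n * τ 0 ≤ C * τ n

/-- the pass: application of `PassP` -/
theorem passA14 {c l E s0 u0 B : ℝ} {q m : ℕ} {p : ℕ → ℤ} {th : ℕ → ℝ} (hc0 : 0 < c)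
    (hL : TLrec) (hP : PassPc14 c) (hl0 : 0 < l) (hq : 1 ≤ q) (hu0 : 0 < u0)
    (huc : u0 ≤ c / 40000) (hl10 : l ≤ u0 ^ 10) (hs1 : 9 / 20 ≤ s0) (hs2 : s0 ≤ 4 / 5)
    (hB0 : 0 ≤ B) (hBu : B * u0 ≤ c)
    (hpr : ∀ i, p (q + i + 2) = p (q + i + 1) + p (q + i))
    (hthb : ∀ i, i ≤ m + 1 → |th i| ≤ 1 ∧ 3 / 10 * |s0 * (-al) ^ i| ≤ |th i| ∧
      3 / 10 * (u0 * ph ^ i) ≤ |th i|)
    (hthd : ∀ i, i ≤ m + 1 → |th i - (s0 * (-al) ^ i + u0 * ph ^ i)| ≤ u0 ^ 4)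
    (hlev : ∀ i, i ≤ m + 1 → |tr (q + i) E l| < 1 ∧
      sg (q + i) E l = (-1 : ℝ) ^ (p (q + i)) * Real.sin (th i) ∧ 0 < tau (q + i) E l)
    (hratio : |tau (q + 1) E l - ph * tau q E l| ≤ u0 ^ 2 * tau q E l)
    (hV10 : |Vx (q + 1) E l - Vx q E l| * tau q E l ≤ B * l)
    (hun1 : 1 / 6 ≤ u0 * ph ^ (m + 1)) (hun2 : u0 * ph ^ (m + 1) ≤ 1 / 2) :
    c * l ≤ u0 * tau q E l * |Vx (q + (m + 1)) E l - Vx q E l| ∧
    c * u0 ^ 2 * (tau (q + (m + 1)) E l * tau (q + m) E l *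
      |Vx (q + (m + 1)) E l - Vx (q + m) E l|) ≤ l * tau q E l ∧
    c * ph ^ (m + 1) * tau q E l ≤ tau (q + (m + 1)) E l ∧
    |tau (q + (m + 1)) E l - ph * tau (q + m) E l| ≤ u0 * tau (q + m) E l := by
  have hrec : ∀ i, i + 2 ≤ m + 1 → RecAt l (fun i => Real.sin (th i)) (fun i => tau (q + i) E l)
      (fun i => tau (q + i) E l * Vx (q + i) E l) i := by
    intro i hi
    have h1 := recAt_sg14 hL hl0 (q := q) (i := i) hq (hlev i (by omega)).1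
      (hlev (i + 1) (by omega)).1 (hlev (i + 2) (by omega)).1
    exact recAt_sign14 (e := fun j => (-1 : ℝ) ^ (p (q + j))) (fun j => neg_one_zpow_sq14 _)
      (neg_one_zpow_prod14 (hpr i)) h1 (hlev i (by omega)).2.1
      (hlev (i + 1) (by omega)).2.1 (hlev (i + 2) (by omega)).2.1
  have hdiv : ∀ j, 0 < tau j E l → tau j E l * Vx j E l / tau j E l = Vx j E l :=
    fun j hj => mul_div_cancel_left₀ _ hj.ne'
  have hτp : ∀ i, i ≤ m + 1 → 0 < tau (q + i) E l := fun i hi => (hlev i hi).2.2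
  have hph2 : 1 ≤ c * u0 * ph ^ (2 * (m + 1)) := by
    have h1 : (1 / 6) ^ 2 ≤ (u0 * ph ^ (m + 1)) ^ 2 := pow_le_pow_left₀ (by norm_num) hun1 2
    have h2 : u0 * (c * u0 * ph ^ (2 * (m + 1))) = c * (u0 * ph ^ (m + 1)) ^ 2 := by
      rw [mul_comm 2, pow_mul]; ring
    have h3 : u0 * 1 ≤ u0 * (c * u0 * ph ^ (2 * (m + 1))) := by
      rw [h2]
      have h4 : c * (1 / 6) ^ 2 ≤ c * (u0 * ph ^ (m + 1)) ^ 2 :=
        mul_le_mul_of_nonneg_left h1 hc0.le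
      refine le_trans ?_ h4
      linarith
    exact le_of_mul_le_mul_left h3 hu0
  have hpass := hP l B s0 u0 (m + 1) th (fun i => Real.sin (th i))
    (fun i => tau (q + i) E l) (fun i => tau (q + i) E l * Vx (q + i) E l) hl0 hu0 (by linarith)
    hl10 (by linarith) hs2 hB0 hBu (fun i _ => rfl) (fun i hi => (hthb i hi).1)
    (fun i hi => (hthb i hi).2.1) (fun i hi => (hthb i hi).2.2)
    hthd hτp hrec hratio
    (by
      have e0 := hdiv q (hτp 0 (by omega))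
      have e1 := hdiv (q + 1) (hτp 1 (by omega))
      simp only [Nat.add_zero]
      rw [e1, e0]
      exact hV10) hph2 hun2
  obtain ⟨b1, b2, b3, b4⟩ := hpass
  simp only [Nat.add_sub_cancel, Nat.add_zero] at b1 b2 b3 b4
  have e0 := hdiv q (hτp 0 (by omega))
  have e1 := hdiv (q + (m + 1)) (hτp (m + 1) le_rfl)
  rw [e1, e0] at b1
  refine ⟨b1, ?_, b3, b4⟩
  have hTn := hτp (m + 1) le_rfl
  have hTm := hτp m (by omega)
  have e2 : |tau (q + (m + 1)) E l * Vx (q + (m + 1)) E l * tau (q + m) E l -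
      tau (q + m) E l * Vx (q + m) E l * tau (q + (m + 1)) E l| =
      tau (q + (m + 1)) E l * tau (q + m) E l * |Vx (q + (m + 1)) E l - Vx (q + m) E l| := by
    have : tau (q + (m + 1)) E l * Vx (q + (m + 1)) E l * tau (q + m) E l -
      tau (q + m) E l * Vx (q + m) E l * tau (q + (m + 1)) E l =
      (tau (q + (m + 1)) E l * tau (q + m) E l) * (Vx (q + (m + 1)) E l - Vx (q + m) E l) := by
      ring
    rw [this, abs_mul, abs_of_pos (mul_pos hTn hTm)]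
  rwa [e2] at b2

theorem slopes14 {c u0 T0 Tn Tm P : ℝ} (hc0 : 0 < c) (hu0 : 0 < u0) (hu1 : u0 ≤ 1 / 1000)
    (hT0 : 0 < T0) (hTn : 0 < Tn) (hTm : 0 < Tm) (h6 : 1 / 6 ≤ u0 * P) (hpc : c * P * T0 ≤ Tn)
    (hpd : |Tn - ph * Tm| ≤ u0 * Tm) :
    c * T0 ≤ 6 * u0 * Tn ∧ c * T0 ≤ 12 * u0 * Tm ∧ Tn ≤ 2 * Tm ∧ Tm ≤ 2 * Tn := by
  obtain ⟨p1, p2, _⟩ := phal14
  have h1 : c * T0 ≤ 6 * u0 * Tn := by
    have g1 : c * T0 * 1 ≤ c * T0 * (6 * (u0 * P)) :=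
      mul_le_mul_of_nonneg_left (by linarith) (by positivity)
    have g2 : 6 * u0 * (c * P * T0) ≤ 6 * u0 * Tn :=
      mul_le_mul_of_nonneg_left hpc (by positivity)
    have g3 : c * T0 * (6 * (u0 * P)) = 6 * u0 * (c * P * T0) := by ring
    linarith
  obtain ⟨h2, h3⟩ := abs_le.mp hpd
  have g1 : u0 * Tm ≤ 1 / 1000 * Tm := mul_le_mul_of_nonneg_right hu1 hTm.le
  have g2 : ph * Tm ≤ 1.7 * Tm := mul_le_mul_of_nonneg_right p2.le hTm.le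
  have g3 : 1.6 * Tm ≤ ph * Tm := mul_le_mul_of_nonneg_right p1.le hTm.le
  have h4 : Tn ≤ 2 * Tm := by linarith
  refine ⟨h1, ?_, h4, by linarith⟩
  have g4 : 6 * u0 * Tn ≤ 6 * u0 * (2 * Tm) := mul_le_mul_of_nonneg_left h4 (by positivity)
  linarith

theorem arithB14 {c u0 T0 Tn Tm X l : ℝ} (hc0 : 0 < c)
    (hT0 : 0 < T0) (hTn : 0 < Tn) (hX : 0 ≤ X)
    (h : c * u0 ^ 2 * (Tn * Tm * X) ≤ l * T0) (h1 : c * T0 ≤ 6 * u0 * Tn) (hu0 : 0 < u0)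
    (h2 : c * T0 ≤ 12 * u0 * Tm) : X * T0 ≤ 72 / c ^ 3 * l := by
  have g1 : (c * T0) * (c * T0) ≤ (6 * u0 * Tn) * (12 * u0 * Tm) :=
    mul_le_mul h1 h2 (by positivity) (by positivity)
  have g2 : c * X * ((c * T0) * (c * T0)) ≤ c * X * ((6 * u0 * Tn) * (12 * u0 * Tm)) :=
    mul_le_mul_of_nonneg_left g1 (by positivity)
  have g3 : T0 * (c ^ 3 * (X * T0)) ≤ T0 * (72 * l) := by
    calc T0 * (c ^ 3 * (X * T0)) = c * X * ((c * T0) * (c * T0)) := by ring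
      _ ≤ c * X * ((6 * u0 * Tn) * (12 * u0 * Tm)) := g2
      _ = 72 * (c * u0 ^ 2 * (Tn * Tm * X)) := by ring
      _ ≤ 72 * (l * T0) := by linarith
      _ = T0 * (72 * l) := by ring
  have g4 := le_of_mul_le_mul_left g3 hT0
  rw [div_mul_eq_mul_div, le_div_iff₀ (by positivity)]
  linarith

theorem arithC14 {c u0 T0 Tn Tm X l θ Z : ℝ} {CF : ℕ} (hc0 : 0 < c)
    (hT0 : 0 < T0) (hTn : 0 < Tn) (hTm : 0 < Tm) (hX : 0 ≤ X) (hl : 0 < l) (hθ : 0 < θ)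
    (h : c * u0 ^ 2 * (Tn * Tm * X) ≤ l * T0) (hu9 : u0 ≤ θ ^ 9)
    (h2 : c * T0 ≤ 12 * u0 * Tm)
    (hZ : Z ≤ CF * (Tn * Tm * X / Tm ^ 2 + l / (θ ^ 9 * Tm))) :
    Z * T0 ≤ CF * (144 / c ^ 3 + 12 / c) * l := by
  have g1 : (c * T0) * (c * T0) ≤ (12 * u0 * Tm) * (12 * u0 * Tm) :=
    mul_self_le_mul_self (by positivity) h2
  have g2 : T0 * (c ^ 3 * (Tn * Tm * X * T0)) ≤ T0 * (144 * l * Tm ^ 2) := by
    calc T0 * (c ^ 3 * (Tn * Tm * X * T0)) = c * (Tn * Tm * X) * ((c * T0) * (c * T0)) := by ring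
      _ ≤ c * (Tn * Tm * X) * ((12 * u0 * Tm) * (12 * u0 * Tm)) :=
          mul_le_mul_of_nonneg_left g1 (by positivity)
      _ = 144 * Tm ^ 2 * (c * u0 ^ 2 * (Tn * Tm * X)) := by ring
      _ ≤ 144 * Tm ^ 2 * (l * T0) := mul_le_mul_of_nonneg_left h (by positivity)
      _ = T0 * (144 * l * Tm ^ 2) := by ring
  have g3 := le_of_mul_le_mul_left g2 hT0
  have g4 : Tn * Tm * X / Tm ^ 2 * T0 ≤ 144 / c ^ 3 * l := by
    rw [div_mul_eq_mul_div, div_mul_eq_mul_div, div_le_div_iff₀ (by positivity) (by positivity)]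
    linarith
  have g5 : l / (θ ^ 9 * Tm) * T0 ≤ 12 / c * l := by
    rw [div_mul_eq_mul_div, div_mul_eq_mul_div, div_le_div_iff₀ (by positivity) hc0]
    have g6 : 12 * u0 * Tm ≤ 12 * θ ^ 9 * Tm := by gcongr
    calc l * T0 * c = l * (c * T0) := by ring
      _ ≤ l * (12 * θ ^ 9 * Tm) := mul_le_mul_of_nonneg_left (h2.trans g6) hl.le
      _ = 12 * l * (θ ^ 9 * Tm) := by ring
  calc Z * T0 ≤ CF * (Tn * Tm * X / Tm ^ 2 + l / (θ ^ 9 * Tm)) * T0 :=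
        mul_le_mul_of_nonneg_right hZ hT0.le
    _ = CF * (Tn * Tm * X / Tm ^ 2 * T0 + l / (θ ^ 9 * Tm) * T0) := by ring
    _ ≤ CF * (144 / c ^ 3 * l + 12 / c * l) :=
        mul_le_mul_of_nonneg_left (by linarith) (Nat.cast_nonneg _)
    _ = CF * (144 / c ^ 3 + 12 / c) * l := by ring

theorem futA14 {θ l E : ℝ} {CF L r0 : ℕ} (hF : FutPc14 CF) (hT : ThProps) (hL : TLrec)
    (hl0 : 0 < l) (hl8 : l ≤ 1 / 8) (hθ0 : 0 < θ) (hθ6 : θ ≤ 1 / 1000000)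
    (hCF : (CF : ℝ) * θ ≤ 1) (hlF : l ≤ θ ^ (3 * CF)) (hLθ : (L : ℝ) * θ ≤ 1) (hr : 1 ≤ r0)
    (hs : ∀ j, j ≤ 2 * L + 2 → θ ^ 3 ≤ |Real.sin (Th (r0 + j) l E)|)
    (h1 : tau r0 E l ≤ 2 * tau (r0 + 1) E l) (h2 : tau (r0 + 1) E l ≤ 2 * tau r0 E l) :
    |tr (r0 + (2 * L + 2)) E l| < 1 ∧
    |Vx (r0 + (2 * L + 2)) E l - Vx r0 E l| ≤ CF * (tau (r0 + 1) E l * tau r0 E l *
      |Vx (r0 + 1) E l - Vx r0 E l| / tau r0 E l ^ 2 + l / (θ ^ 9 * tau r0 E l)) := by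
  have hθ3 : 0 < θ ^ 3 := by positivity
  have hθ31 : θ ^ 3 ≤ θ := by
    calc θ ^ 3 ≤ θ ^ 1 := pow_le_pow_of_le_one hθ0.le (by linarith) (by norm_num)
      _ = θ := pow_one θ
  have hlev : ∀ j, j ≤ 2 * L + 2 → _ := fun j hj =>
    lev14 hT hl0 hl8 (j := r0 + j) (E := E) (by omega) (by
      intro h0
      have := hs j hj
      rw [h0, abs_zero] at this
      linarith)
  have hτp : ∀ i, i ≤ 2 * L + 2 → 0 < tau (r0 + i) E l := fun i hi => (hlev i hi).2.2.2.1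
  have hdiv : ∀ j, 0 < tau j E l → tau j E l * Vx j E l / tau j E l = Vx j E l :=
    fun j hj => mul_div_cancel_left₀ _ hj.ne'
  have hfut := hF l (θ ^ 3) (2 * L + 2) (fun j => sg (r0 + j) E l) (fun j => tau (r0 + j) E l)
    (fun j => tau (r0 + j) E l * Vx (r0 + j) E l) hθ3
    ((mul_le_mul_of_nonneg_left hθ31 (Nat.cast_nonneg _)).trans hCF) hl0
    (by rw [← pow_mul]; exact hlF)
    (by
      push_cast
      have g1 : θ ^ 3 ≤ θ * (1 / 1000000) := by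
        calc θ ^ 3 = θ * (θ * θ) := by ring
          _ ≤ θ * (1 * (1 / 1000000)) := by
              apply mul_le_mul_of_nonneg_left _ hθ0.le
              exact mul_le_mul (by linarith) hθ6 hθ0.le (by norm_num)
          _ = θ * (1 / 1000000) := by ring
      calc (2 * (L : ℝ) + 2) * θ ^ 3 ≤ (2 * (L : ℝ) + 2) * (θ * (1 / 1000000)) := by gcongr
        _ = (2 * ((L : ℝ) * θ) + 2 * θ) * (1 / 1000000) := by ring
        _ ≤ 1 := by linarith)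
    (by omega)
    (by
      intro i hi
      simp only [(hlev i hi).2.1]
      exact ⟨hs i hi, Real.abs_sin_le_one _⟩)
    hτp
    (by
      intro i hi
      exact recAt_sg14 hL hl0 (q := r0) (i := i) hr (hlev i (by omega)).1
        (hlev (i + 1) (by omega)).1 (hlev (i + 2) (by omega)).1)
    h1 h2
  obtain ⟨b1, _⟩ := hfut
  simp only [Nat.add_zero] at b1
  have e0 := hdiv r0 (hτp 0 (by omega))
  have e1 := hdiv (r0 + (2 * L + 2)) (hτp (2 * L + 2) le_rfl)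
  rw [e1, e0, ← pow_mul] at b1
  have hT0 := hτp 0 (by omega)
  have hT1 := hτp 1 (by omega)
  rw [Nat.add_zero] at hT0
  have e2 : |tau (r0 + 1) E l * Vx (r0 + 1) E l * tau r0 E l -
      tau r0 E l * Vx r0 E l * tau (r0 + 1) E l| =
      tau (r0 + 1) E l * tau r0 E l * |Vx (r0 + 1) E l - Vx r0 E l| := by
    have : tau (r0 + 1) E l * Vx (r0 + 1) E l * tau r0 E l -
      tau r0 E l * Vx r0 E l * tau (r0 + 1) E l =
      (tau (r0 + 1) E l * tau r0 E l) * (Vx (r0 + 1) E l - Vx r0 E l) := by ring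
    rw [this, abs_mul, abs_of_pos (mul_pos hT1 hT0)]
  rw [e2] at b1
  exact ⟨(hlev (2 * L + 2) le_rfl).1, b1⟩

theorem tail14 {l ρ ρr P VK Vr vr : ℝ} {N0 CG CB CX : ℕ} (hl0 : 0 < l) (hl8 : l ≤ 1 / 8)
    (hρ : 0 < ρ) (h1 : l ^ CB * ρr * |VK - vr| ≤ 1) (h2 : l ^ CX * ρr * |Vr - vr| ≤ 1)
    (h3 : l ^ CG * P * ρ ≤ ρr) (h4 : (1 / l) ^ N0 ≤ P) (hN : CG + CB + CX + 2 ≤ N0) :
    ρ * |VK - Vr| ≤ l := by
  have hl1 : l ≤ 1 := by linarith
  have g1 : l ^ CG * ρ ≤ l ^ N0 * ρr := by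
    have k1 : l ^ CG * (1 / l) ^ N0 * ρ ≤ ρr := by
      refine le_trans ?_ h3
      gcongr
    have k2 : l ^ N0 * (l ^ CG * (1 / l) ^ N0 * ρ) ≤ l ^ N0 * ρr :=
      mul_le_mul_of_nonneg_left k1 (by positivity)
    have k3 : l ^ N0 * (l ^ CG * (1 / l) ^ N0 * ρ) = (l * (1 / l)) ^ N0 * (l ^ CG * ρ) := by
      rw [mul_pow]; ring
    rw [k3, mul_one_div_cancel hl0.ne', one_pow, one_mul] at k2
    exact k2
  have g2 : |VK - Vr| ≤ |VK - vr| + |Vr - vr| := by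
    have e1 : VK - Vr = (VK - vr) + (-(Vr - vr)) := by ring
    have := abs_add_le (VK - vr) (-(Vr - vr))
    rw [abs_neg] at this
    rw [e1]; exact this
  have hρr : 0 ≤ ρr := by
    by_contra hcon
    push Not at hcon
    have : l ^ N0 * ρr < 0 := mul_neg_of_pos_of_neg (by positivity) hcon
    have : 0 < l ^ CG * ρ := by positivity
    linarith
  have gX : l ^ CX ≤ 1 := pow_le_one₀ hl0.le hl1
  have gB : l ^ CB ≤ 1 := pow_le_one₀ hl0.le hl1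
  have g3 : l ^ CB * l ^ CX * (ρr * |VK - Vr|) ≤ 2 := by
    calc l ^ CB * l ^ CX * (ρr * |VK - Vr|)
        ≤ l ^ CB * l ^ CX * (ρr * (|VK - vr| + |Vr - vr|)) := by gcongr
      _ = l ^ CX * (l ^ CB * ρr * |VK - vr|) + l ^ CB * (l ^ CX * ρr * |Vr - vr|) := by ring
      _ ≤ 1 * 1 + 1 * 1 := by
          apply add_le_add
          · exact mul_le_mul gX h1 (by positivity) (by norm_num)
          · exact mul_le_mul gB h2 (by positivity) (by norm_num)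
      _ = 2 := by norm_num
  have g4 : l ^ (CG + CB + CX) * (ρ * |VK - Vr|) ≤ l ^ (CG + CB + CX) * (2 * l ^ 2) := by
    calc l ^ (CG + CB + CX) * (ρ * |VK - Vr|)
        = l ^ CB * l ^ CX * (l ^ CG * ρ) * |VK - Vr| := by rw [pow_add, pow_add]; ring
      _ ≤ l ^ CB * l ^ CX * (l ^ N0 * ρr) * |VK - Vr| := by gcongr
      _ = l ^ N0 * (l ^ CB * l ^ CX * (ρr * |VK - Vr|)) := by ring
      _ ≤ l ^ N0 * 2 := by gcongr
      _ ≤ l ^ (CG + CB + CX + 2) * 2 := by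
          have := pow_le_pow_of_le_one hl0.le hl1 hN
          linarith
      _ = l ^ (CG + CB + CX) * (2 * l ^ 2) := by rw [pow_add l (CG + CB + CX) 2]; ring
  have g5 := le_of_mul_le_mul_left g4 (by positivity)
  nlinarith


theorem passV (hN : NBound) (hT : ThProps) (hL : TLrec) (hP : PassP) (hF : FutP) (hR : TauRatio) (hV : VTyp)
    (hS : VStepC) (hX : VxCrude) (hB : FBound) (hC : SpcCr) (hG : GrLow) (hQ : RhoRatio) (hp : PosV) : PassV := by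
  intro k
  obtain ⟨cN, hcN, hN⟩ := hN
  obtain ⟨c, hc0, hc1, hP⟩ := hP
  obtain ⟨CF, hF⟩ := hF
  obtain ⟨CR, hR⟩ := hR
  obtain ⟨CV, hV⟩ := hV
  obtain ⟨CS, hS⟩ := hS
  obtain ⟨CX, hX⟩ := hX
  obtain ⟨CB, hB⟩ := hB
  obtain ⟨CG, hG⟩ := hG
  obtain ⟨D, hD⟩ : ∃ D : ℕ, D = CV + CS := ⟨_, rfl⟩
  obtain ⟨CC, hCC⟩ : ∃ CC : ℕ, CC = ⌈40 / c⌉₊ := ⟨_, rfl⟩
  have hCCc : 40 / c ≤ CC := by rw [hCC]; exact Nat.le_ceil _
  refine ⟨(k + 1) * D + 10 + CC, fun Nu hNu => ?_⟩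
  -- constants of the final arithmetic
  obtain ⟨a1, ha1⟩ : ∃ a1 : ℝ, a1 = 72 / c ^ 3 := ⟨_, rfl⟩
  obtain ⟨a2, ha2⟩ : ∃ a2 : ℝ, a2 = CF * (144 / c ^ 3 + 12 / c) := ⟨_, rfl⟩
  have ha10 : 0 ≤ a1 := by rw [ha1]; positivity
  have ha20 : 0 ≤ a2 := by rw [ha2]; positivity
  obtain ⟨Y, hY⟩ : ∃ Y : ℕ, Y = ⌈cN + 4 * (a1 + a2) / c + 40000 / c⌉₊ := ⟨_, rfl⟩
  have hYY : cN + 4 * (a1 + a2) / c + 40000 / c ≤ Y := by rw [hY]; exact Nat.le_ceil _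
  obtain ⟨N0, hN0⟩ : ∃ N0 : ℕ, N0 = 20 * (Nu + 1) + 40 + (k + 1) * (CR + CV + CS) + 4 * CF + CX + CB
    + CG + Y + 1000000 := ⟨_, rfl⟩
  refine ⟨N0, ?_⟩
  intro θ l L K q n E s0 u0 p hθ0 hθN hl0 hlθ hlL hLθ hnθ hK hLq hqK hpr hTw hs1 hs2 hu1 hu2 hun1 hun2
    hid hlow hsin
  obtain ⟨p1, p2, al1, al2, pa⟩ := phal14
  have hal : 0 < al := by linarith
  have hph : 0 < ph := by linarith
  -- smallness of `θ`
  have hsm : ∀ X : ℝ, 0 ≤ X → X ≤ N0 → X * θ ≤ 1 := fun X hX0 hX1 =>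
    (mul_le_mul_of_nonneg_right hX1 hθ0.le).trans hθN
  have hN0r : (N0 : ℝ) = 20 * (Nu + 1) + 40 + (k + 1) * (CR + CV + CS) + 4 * CF + CX + CB
    + CG + Y + 1000000 := by rw [hN0]; push_cast; ring
  have cast0 : ∀ m : ℕ, (0 : ℝ) ≤ (m : ℝ) := fun m => Nat.cast_nonneg m
  have hkk : (0 : ℝ) ≤ ((k : ℝ) + 1) * (CR + CV + CS) := by positivity
  have hθ6 : θ ≤ 1 / 1000000 := by
    have := hsm 1000000 (by norm_num) (by
      rw [hN0r]; linarith [cast0 Nu, cast0 CF, cast0 CX, cast0 CB, cast0 CG, cast0 Y])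
    linarith
  have hYN : (Y : ℝ) ≤ N0 := by
    rw [hN0r]; linarith [cast0 Nu, cast0 CF, cast0 CX, cast0 CB, cast0 CG]
  have hθY : (cN + 4 * (a1 + a2) / c + 40000 / c) * θ ≤ 1 :=
    hsm _ (by positivity) (hYY.trans hYN)
  have hq1 : 0 ≤ 4 * (a1 + a2) / c := by positivity
  have hq2 : 0 ≤ 40000 / c := by positivity
  have hθcN : cN * θ ≤ 1 := by nlinarith
  have hθa : (a1 + a2) * θ ≤ c / 4 := by
    have h1 : 4 * (a1 + a2) / c * θ ≤ 1 := by nlinarith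
    have h2 : 4 * (a1 + a2) / c * θ = (a1 + a2) * θ * (4 / c) := by ring
    rw [h2] at h1
    have h3 : (a1 + a2) * θ = (a1 + a2) * θ * (4 / c) * (c / 4) := by field_simp
    rw [h3]
    calc (a1 + a2) * θ * (4 / c) * (c / 4) ≤ 1 * (c / 4) :=
          mul_le_mul_of_nonneg_right h1 (by positivity)
      _ = c / 4 := one_mul _
  have hθc : θ ≤ c / 40000 := by
    have h1 : 40000 / c * θ ≤ 1 := by nlinarith
    have h3 : θ = (40000 / c * θ) * (c / 40000) := by field_simp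
    rw [h3]
    calc (40000 / c * θ) * (c / 40000) ≤ 1 * (c / 40000) :=
          mul_le_mul_of_nonneg_right h1 (by positivity)
      _ = c / 40000 := one_mul _
  have hθ1 : θ ≤ 1 := by linarith
  have hl8 : l ≤ 1 / 8 := by
    have h1 : θ ^ N0 ≤ θ ^ 1 := pow_le_pow_of_le_one hθ0.le hθ1 (by omega)
    rw [pow_one] at h1
    linarith
  have hlpow : ∀ M : ℕ, M ≤ N0 → l ≤ θ ^ M := fun M hM =>
    hlθ.trans (pow_le_pow_of_le_one hθ0.le hθ1 hM)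
  -- `u0`
  have hu0 : 0 < u0 := lt_of_lt_of_le (pow_pos hθ0 _) hu1
  have hu0θ : u0 ≤ θ := hu2.trans (by
    calc θ ^ Nu ≤ θ ^ 1 := pow_le_pow_of_le_one hθ0.le hθ1 (by omega)
      _ = θ := pow_one θ)
  have hu0s : u0 ≤ 1 / 1000 := by linarith
  -- the error `ε = cN √l`
  obtain ⟨ε, hε⟩ : ∃ ε : ℝ, ε = cN * √l := ⟨_, rfl⟩
  have hε3 : ε ≤ θ ^ 3 * u0 ^ 4 := by
    have h1 : √l ≤ θ ^ (4 * (Nu + 1) + 4) := by
      rw [Real.sqrt_le_iff]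
      refine ⟨by positivity, ?_⟩
      rw [← pow_mul]
      exact hlpow _ (by omega)
    have h2 : θ ^ (4 * (Nu + 1)) ≤ u0 ^ 4 := by
      rw [mul_comm, pow_mul]
      exact pow_le_pow_left₀ (by positivity) hu1 4
    rw [hε]
    calc cN * √l ≤ cN * θ ^ (4 * (Nu + 1) + 4) := mul_le_mul_of_nonneg_left h1 (by linarith)
      _ = (cN * θ) * (θ ^ 3 * θ ^ (4 * (Nu + 1))) := by ring
      _ ≤ 1 * (θ ^ 3 * u0 ^ 4) := by
          apply mul_le_mul hθcN _ (by positivity) (by norm_num)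
          exact mul_le_mul_of_nonneg_left h2 (by positivity)
      _ = θ ^ 3 * u0 ^ 4 := one_mul _
  have hεnn : 0 ≤ ε := by rw [hε]; positivity
  have hu41 : u0 ^ 4 ≤ 1 := pow_le_one₀ hu0.le (by linarith)
  have hθ31 : θ ^ 3 ≤ 1 := pow_le_one₀ hθ0.le hθ1
  have hεu4 : ε ≤ u0 ^ 4 := hε3.trans (by
    calc θ ^ 3 * u0 ^ 4 ≤ 1 * u0 ^ 4 := mul_le_mul_of_nonneg_right hθ31 (by positivity)
      _ = u0 ^ 4 := one_mul _)
  have hεθ3 : ε ≤ θ ^ 3 := hε3.trans (by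
    calc θ ^ 3 * u0 ^ 4 ≤ θ ^ 3 * 1 := mul_le_mul_of_nonneg_left hu41 (by positivity)
      _ = θ ^ 3 := mul_one _)
  have hεu : ε ≤ u0 / 1000 := hεu4.trans (by
    have h1 : u0 ^ 3 ≤ (1 / 1000) ^ 3 := pow_le_pow_left₀ hu0.le hu0s 3
    calc u0 ^ 4 = u0 ^ 3 * u0 := by ring
      _ ≤ (1 / 1000) ^ 3 * u0 := mul_le_mul_of_nonneg_right h1 hu0.le
      _ ≤ u0 / 1000 := by linarith)
  -- powers of `ph`
  have hphn : 1 ≤ 6 * u0 * ph ^ n := by linarith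
  have hn9 : 9 ≤ n := by
    by_contra hcon
    push Not at hcon
    have h1 : ph ^ n ≤ ph ^ 9 := pow_le_pow_right₀ (by linarith) (by omega)
    have h2 : ph ^ 9 ≤ 1.7 ^ 9 := pow_le_pow_left₀ hph.le p2.le 9
    have h3 : ph ^ n ≤ 120 := by
      refine h1.trans (h2.trans ?_); norm_num
    have h4 : u0 * ph ^ n ≤ (1 / 1000) * 120 :=
      mul_le_mul hu0s h3 (by positivity) (by norm_num)
    linarith
  -- the angles
  obtain ⟨th, hth⟩ : ∃ th : ℕ → ℝ, th = fun i => Th (q + i) l E - π * p (q + i) := ⟨_, rfl⟩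
  have hThN : ∀ j, j ≤ K → |Th j l E - π * Nat.fib j * NN K l E| ≤ ε := by
    intro j hj
    rw [hε]
    exact hN l hl0 hl8 K j E (by omega) hj
  have hthd : ∀ i, q + i ≤ K → |th i - (s0 * (-al) ^ i + u0 * ph ^ i)| ≤ ε := by
    intro i hi
    have h1 := hThN (q + i) hi
    rw [hid i] at h1
    rw [hth]
    have h2 : Th (q + i) l E - π * ↑(p (q + i)) - (s0 * (-al) ^ i + u0 * ph ^ i) =
      Th (q + i) l E - (π * ↑(p (q + i)) + s0 * (-al) ^ i + u0 * ph ^ i) := by ring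
    simp only [h2]
    exact h1
  have hthb : ∀ i, i ≤ n → |th i| ≤ 1 ∧ 3 / 10 * |s0 * (-al) ^ i| ≤ |th i| ∧
      3 / 10 * (u0 * ph ^ i) ≤ |th i| := fun i hi =>
    th_bounds14 hs1 hs2 hu0 hu0s hun2 hεu (th i) hi (hthd i (by omega)) (hlow i).1 (hlow i).2
  have hS1 : ∀ i, Real.sin (Th (q + i) l E) = (-1 : ℝ) ^ (p (q + i)) * Real.sin (th i) := by
    intro i
    have h1 : Th (q + i) l E = th i + (p (q + i) : ℝ) * π := by rw [hth]; ring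
    rw [h1, Real.sin_add_int_mul_pi]
  have hSabs : ∀ i, |Real.sin (Th (q + i) l E)| = |Real.sin (th i)| := by
    intro i
    rw [hS1 i, abs_mul]
    have : |(-1 : ℝ) ^ (p (q + i))| = 1 := by
      rw [← Real.sqrt_sq_eq_abs, neg_one_zpow_sq14, Real.sqrt_one]
    rw [this, one_mul]
  have hSlow : ∀ i, i ≤ n → |th i| / 2 ≤ |Real.sin (Th (q + i) l E)| := by
    intro i hi
    rw [hSabs i]
    exact sin_lower14 (hthb i hi).1
  have hSne : ∀ i, i ≤ n → Real.sin (Th (q + i) l E) ≠ 0 := by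
    intro i hi h0
    have h1 := hSlow i hi
    rw [h0, abs_zero] at h1
    have h2 := (hthb i hi).2.2
    have h3 : 0 < u0 * ph ^ i := by positivity
    linarith
  have hlev : ∀ i, i ≤ n → _ := fun i hi => lev14 hT hl0 hl8 (j := q + i) (by omega) (hSne i hi)
  -- `θ₁ = θ^(k+1)`
  obtain ⟨θ1, hθ1d⟩ : ∃ θ1 : ℝ, θ1 = θ ^ (k + 1) := ⟨_, rfl⟩
  have hθ1p : 0 < θ1 := by rw [hθ1d]; positivity
  have hθ1θ : θ1 ≤ θ := by
    rw [hθ1d]
    calc θ ^ (k + 1) ≤ θ ^ 1 := pow_le_pow_of_le_one hθ0.le hθ1 (by omega)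
      _ = θ := pow_one θ
  have hθ11 : θ1 ≤ 1 := hθ1θ.trans hθ1
  have hθ1k : θ1 ≤ θ ^ k := by
    rw [hθ1d]; exact pow_le_pow_of_le_one hθ0.le hθ1 (by omega)
  have hOk : ∀ C : ℕ, C ≤ CR + CV + CS → OkT C θ1 l L := by
    intro C hC
    have hCN : (k + 1) * C ≤ N0 := by
      have : (k + 1) * C ≤ (k + 1) * (CR + CV + CS) := Nat.mul_le_mul_left _ hC
      omega
    refine ⟨hθ1p, ?_, hl0, ?_, ?_, ?_⟩
    · have h1 : (C : ℝ) * θ ≤ 1 := hsm C (cast0 C) (by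
        have : C ≤ N0 := le_trans (Nat.le_mul_of_pos_left _ (by omega)) hCN
        exact_mod_cast this)
      exact (mul_le_mul_of_nonneg_left hθ1θ (cast0 C)).trans h1
    · rw [hθ1d, ← pow_mul]; exact hlpow _ hCN
    · refine le_trans (pow_le_pow_right₀ ?_ ?_) hlL
      · rw [le_div_iff₀ hl0]; linarith
      · exact le_trans (Nat.le_mul_of_pos_left _ (by omega)) hCN
    · exact (mul_le_mul_of_nonneg_left hθ1θ (cast0 L)).trans hLθ
  have hTw1 : Tw θ1 (q - L) (q + 9) E l := by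
    intro j hj1 hj2
    rcases Nat.lt_or_ge q j with h1 | h1
    · obtain ⟨i, rfl⟩ := Nat.exists_eq_add_of_lt h1
      have hi : i + 1 ≤ n := by omega
      obtain ⟨_, _, h5, _, _⟩ := hlev (i + 1) hi
      have h6 : 1 - tr (q + i + 1) E l ^ 2 = Real.sin (Th (q + (i + 1)) l E) ^ 2 := h5
      rw [h6]
      rw [← sq_abs (Real.sin _)]
      apply pow_le_pow_left₀ hθ1p.le
      have h7 := hSlow (i + 1) hi
      have h8 := (hthb (i + 1) hi).2.1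
      have h9 : |s0 * (-al) ^ (i + 1)| = s0 * al ^ (i + 1) := by
        rw [abs_mul, abs_pow, abs_neg, abs_of_pos hal, abs_of_pos (by linarith)]
      have h10 : al ^ 9 ≤ al ^ (i + 1) := pow_le_pow_of_le_one hal.le (by linarith) (by omega)
      have h11 : (0.6 : ℝ) ^ 9 ≤ al ^ 9 := pow_le_pow_left₀ (by norm_num) al1.le 9
      have h12 : (0.01 : ℝ) ≤ al ^ (i + 1) := by
        refine le_trans ?_ (h11.trans h10); norm_num
      have h13 : 9 / 20 * 0.01 ≤ s0 * al ^ (i + 1) :=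
        mul_le_mul hs1 h12 (by norm_num) (by linarith)
      rw [h9] at h8
      linarith
    · have h2 := hTw j hj1 h1
      refine le_trans ?_ h2
      exact pow_le_pow_left₀ hθ1p.le hθ1k 2
  have hTwsub : ∀ b, b ≤ q + 9 → Tw θ1 (q - L) b E l := fun b hb j h1 h2 =>
    hTw1 j h1 (h2.trans hb)
  have hCr : ∀ j, j + 8 ≤ K → Cr j E l := fun j hj => hC K j E l hl0 hl8 ⟨hK, hj⟩
  -- velocities near `q`
  obtain ⟨ρ, hρ⟩ : ∃ ρ : ℝ, ρ = rho q E l := ⟨_, rfl⟩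
  have h0n : 0 ≤ n := Nat.zero_le n
  obtain ⟨ht0, _, _, hτ0, hτS⟩ := hlev 0 h0n
  simp only [Nat.add_zero] at ht0 hτ0 hτS
  obtain ⟨T0, hT0⟩ : ∃ T0 : ℝ, T0 = tau q E l := ⟨_, rfl⟩
  rw [← hT0] at hτ0 hτS
  have hS0 : 1 / 20 ≤ |Real.sin (Th q l E)| := by
    have h1 := hSlow 0 h0n
    have h2 := (hthb 0 h0n).2.1
    simp only [pow_zero, mul_one, Nat.add_zero] at h1 h2
    rw [abs_of_pos (by linarith : 0 < s0)] at h2
    linarith
  have hρE : |trE q E l| ≤ ρ := by rw [hρ]; exact le_max_left _ _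
  have hτρ : T0 ≤ 20 * ρ := by
    have h1 : T0 * (1 / 20) ≤ T0 * |Real.sin (Th q l E)| := mul_le_mul_of_nonneg_left hS0 hτ0.le
    linarith
  have hρ0 : 0 < ρ := by linarith
  have hθD : θ1 ^ D ≤ θ1 ^ CV ∧ θ1 ^ D ≤ θ1 ^ CS :=
    ⟨pow_le_pow_of_le_one hθ1p.le hθ11 (by omega), pow_le_pow_of_le_one hθ1p.le hθ11 (by omega)⟩
  have hθDp : 0 < θ1 ^ D := by positivity
  have hv0 : θ1 ^ D * ρ * |Vx q E l - vv q E l| ≤ l := by
    have h1 := (hV q L K E l θ1 (hOk CV (by omega)) (by omega) hK (by omega)).1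
      (hTwsub _ (by omega))
    rw [← hρ] at h1
    exact le_trans (mul_le_mul_of_nonneg_right (mul_le_mul_of_nonneg_right hθD.1 hρ0.le)
      (abs_nonneg _)) h1
  have hρ9 : ρ ≤ 9 * rho (q + 1) E l := by
    have h1 := (hlev 1 (by omega)).1
    have h2 := (hlev 2 (by omega)).1
    rw [hρ]
    exact (hQ q E l (by linarith) (by linarith)).2
  have hv1 : θ1 ^ D * ρ * |Vx (q + 1) E l - vv (q + 1) E l| ≤ 9 * l := by
    have hTw2 : Tw θ1 (q + 1 - L) (q + 1 + 8) E l := fun j h1 h2 => hTw1 j (by omega) (by omega)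
    have h1 := (hV (q + 1) L K E l θ1 (hOk CV (by omega)) (by omega) hK (by omega)).1 hTw2
    calc θ1 ^ D * ρ * |Vx (q + 1) E l - vv (q + 1) E l|
        ≤ θ1 ^ CV * (9 * rho (q + 1) E l) * |Vx (q + 1) E l - vv (q + 1) E l| :=
          mul_le_mul_of_nonneg_right (mul_le_mul hθD.1 hρ9 hρ0.le (by positivity)) (abs_nonneg _)
      _ = 9 * (θ1 ^ CV * rho (q + 1) E l * |Vx (q + 1) E l - vv (q + 1) E l|) := by ring
      _ ≤ 9 * l := by linarith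
  have hvs : θ1 ^ D * ρ * |vv (q + 1) E l - vv q E l| ≤ l := by
    have h1 := hS q L E l θ1 (hOk CS (by omega)) (by omega) (fun j hj => hCr j (by omega)) hTw1
      0 (by rw [norm_zero, zero_mul]; positivity)
    rw [add_zero, vv_ofReal14, vv_ofReal14, ← Complex.ofReal_sub, Complex.norm_real,
      Real.norm_eq_abs, ← hρ] at h1
    exact le_trans (mul_le_mul_of_nonneg_right (mul_le_mul_of_nonneg_right hθD.2 hρ0.le)
      (abs_nonneg _)) h1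
  have hV10 : |Vx (q + 1) E l - Vx q E l| * T0 ≤ 220 / θ1 ^ D * l := by
    have h1 : |Vx (q + 1) E l - Vx q E l| ≤ |Vx (q + 1) E l - vv (q + 1) E l|
        + |vv (q + 1) E l - vv q E l| + |Vx q E l - vv q E l| := by
      have e1 : Vx (q + 1) E l - Vx q E l = (Vx (q + 1) E l - vv (q + 1) E l)
        + (vv (q + 1) E l - vv q E l) + (-(Vx q E l - vv q E l)) := by ring
      rw [e1]
      have b1 := abs_add_le ((Vx (q + 1) E l - vv (q + 1) E l) + (vv (q + 1) E l - vv q E l))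
        (-(Vx q E l - vv q E l))
      have b2 := abs_add_le (Vx (q + 1) E l - vv (q + 1) E l) (vv (q + 1) E l - vv q E l)
      rw [abs_neg] at b1
      linarith
    have h2 : θ1 ^ D * ρ * |Vx (q + 1) E l - Vx q E l| ≤ 11 * l := by
      calc θ1 ^ D * ρ * |Vx (q + 1) E l - Vx q E l|
          ≤ θ1 ^ D * ρ * (|Vx (q + 1) E l - vv (q + 1) E l|
            + |vv (q + 1) E l - vv q E l| + |Vx q E l - vv q E l|) := by gcongr
        _ ≤ 11 * l := by linarith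
    rw [div_mul_eq_mul_div, le_div_iff₀ hθDp]
    calc |Vx (q + 1) E l - Vx q E l| * T0 * θ1 ^ D
        ≤ |Vx (q + 1) E l - Vx q E l| * (20 * ρ) * θ1 ^ D := by gcongr
      _ = 20 * (θ1 ^ D * ρ * |Vx (q + 1) E l - Vx q E l|) := by ring
      _ ≤ 220 * l := by linarith
  -- size of `u0` against `θ₁^D`
  have hu0D : u0 ≤ θ * θ1 ^ D := by
    refine hu2.trans ?_
    rw [hθ1d, ← pow_mul, ← pow_succ']
    exact pow_le_pow_of_le_one hθ0.le hθ1 (by omega)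
  have hu09 : u0 ≤ θ ^ 9 := hu2.trans (pow_le_pow_of_le_one hθ0.le hθ1 (by omega))
  obtain ⟨m, rfl⟩ : ∃ m, n = m + 1 := ⟨n - 1, by omega⟩
  have hl10 : l ≤ u0 ^ 10 := by
    calc l ≤ θ ^ ((Nu + 1) * 10) := hlpow _ (by omega)
      _ = (θ ^ (Nu + 1)) ^ 10 := by rw [pow_mul]
      _ ≤ u0 ^ 10 := pow_le_pow_left₀ (by positivity) hu1 10
  have huc : u0 ≤ c / 40000 := hu0θ.trans hθc
  have hl2 : l ≤ u0 ^ 2 :=
    hl10.trans (pow_le_pow_of_le_one hu0.le (hu0θ.trans hθ1) (by norm_num))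
  have hratio : |tau (q + 1) E l - ph * tau q E l| ≤ u0 ^ 2 * tau q E l := by
    have h1 := hR q L E l θ1 (hOk CR (by omega)) (by omega) (hTwsub _ (by omega))
    refine h1.trans ?_
    rw [← hT0]
    exact mul_le_mul_of_nonneg_right hl2 hτ0.le
  have hBu : 220 / θ1 ^ D * u0 ≤ c := by
    have h220 : 220 * θ ≤ c := by linarith only [hθc, hc0]
    calc 220 / θ1 ^ D * u0 ≤ 220 / θ1 ^ D * (θ * θ1 ^ D) :=
          mul_le_mul_of_nonneg_left hu0D (div_nonneg (by norm_num) hθDp.le)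
      _ = 220 * θ := by field_simp
      _ ≤ c := h220
  obtain ⟨hpa, hpb, hpc, hpd⟩ := passA14 (E := E) hc0 hL hP hl0 (by omega) hu0 huc hl10 hs1 hs2
    (div_nonneg (by norm_num) hθDp.le : (0 : ℝ) ≤ 220 / θ1 ^ D) hBu hpr hthb
    (fun i hi => (hthd i (by omega)).trans hεu4)
    (fun i hi => ⟨(hlev i hi).1, ((hlev i hi).2.1).trans (hS1 i), (hlev i hi).2.2.2.1⟩)
    hratio (by rw [← hT0]; exact hV10) hun1 hun2
  have hTnp : 0 < tau (q + (m + 1)) E l := (hlev (m + 1) le_rfl).2.2.2.1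
  have hTmp : 0 < tau (q + m) E l := (hlev m (Nat.le_succ m)).2.2.2.1
  rw [← hT0] at hpa hpb hpc
  obtain ⟨hc6, hc12, hnm, hmn⟩ := slopes14 hc0 hu0 hu0s hτ0 hTnp hTmp hun1 hpc hpd
  have hB1 := arithB14 hc0 hτ0 hTnp (abs_nonneg _) hpb hc6 hu0 hc12
  rw [← ha1] at hB1
  have hfs : ∀ j, j ≤ 2 * L + 2 → θ ^ 3 ≤ |Real.sin (Th (q + m + j) l E)| := by
    have hθ30 : θ ^ 3 ≤ 1 / 1000000 := by
      calc θ ^ 3 ≤ θ ^ 1 := pow_le_pow_of_le_one hθ0.le hθ1 (by norm_num)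
        _ = θ := pow_one θ
        _ ≤ 1 / 1000000 := hθ6
    intro j hj
    rcases Nat.eq_zero_or_pos j with h0 | h0
    · subst h0
      have h1 := hSlow m (Nat.le_succ m)
      have h2 := (hthb m (Nat.le_succ m)).2.2
      have h3 : u0 * ph ^ (m + 1) = u0 * ph ^ m * ph := by rw [pow_succ]; ring
      have h4 : 0 < u0 * ph ^ m := mul_pos hu0 (pow_pos hph m)
      have h5 : u0 * ph ^ m * ph ≤ u0 * ph ^ m * 1.7 := mul_le_mul_of_nonneg_left p2.le h4.le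
      have h6 : 1 / 100 ≤ |Real.sin (Th (q + m) l E)| := by
        rw [h3] at hun1
        linarith only [h1, h2, h5, hun1]
      exact hθ30.trans (le_trans (by norm_num) h6)
    · obtain ⟨i, rfl⟩ : ∃ i, j = i + 1 := ⟨j - 1, by omega⟩
      have h1 := hsin (q + (m + 1) + i) (by omega) (by omega)
      have h2 := hThN (q + (m + 1) + i) (by omega)
      have h3 := Real.abs_sin_sub_sin_le (π * Nat.fib (q + (m + 1) + i) * NN K l E)
        (Th (q + (m + 1) + i) l E)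
      rw [abs_sub_comm (π * Nat.fib (q + (m + 1) + i) * NN K l E)] at h3
      have h4 := abs_sub_abs_le_abs_sub
        (Real.sin (π * Nat.fib (q + (m + 1) + i) * NN K l E))
        (Real.sin (Th (q + (m + 1) + i) l E))
      have h5 : θ ^ 3 + θ ^ 3 ≤ θ ^ 2 := by
        calc θ ^ 3 + θ ^ 3 = θ ^ 2 * (2 * θ) := by ring
          _ ≤ θ ^ 2 * 1 := mul_le_mul_of_nonneg_left (by linarith only [hθ6]) (by positivity)
          _ = θ ^ 2 := mul_one _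
      have h6 : q + m + (i + 1) = q + (m + 1) + i := by omega
      rw [h6]
      linarith only [h1, h2, h3, h4, h5, hεθ3]
  obtain ⟨htr, hfu⟩ := futA14 (r0 := q + m) hF hT hL hl0 hl8 hθ0 hθ6
    (hsm CF (Nat.cast_nonneg _) (by exact_mod_cast (by omega : CF ≤ N0)))
    (hlpow _ (by omega)) hLθ (by omega) hfs hmn hnm
  have hB2 := arithC14 (CF := CF) hc0 hτ0 hTnp hTmp (abs_nonneg _) hl0 hθ0 hpb hu09 hc12 hfu
  rw [← ha2] at hB2
  -- the tail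
  have hr1 : q ≤ q + m + (2 * L + 2) := by omega
  have hgr := hG q (q + m + (2 * L + 2)) E l l ⟨hl0, hl8, hl0, hl8.trans (by norm_num)⟩ hr1
    (Or.inl ⟨rfl, hCr q (by omega)⟩) (Or.inl ⟨rfl, hCr _ (by omega)⟩)
  rw [← hρ] at hgr
  have hfb := hB (q + m + (2 * L + 2)) K E l hl0 hl8 ⟨hK, by omega⟩
  have hvx := hX (q + m + (2 * L + 2)) E l hl0 hl8 (by omega) (fun j hj => hCr j (by omega)) htr.le
  have hP4 : (1 / l) ^ N0 ≤ ph ^ (q + m + (2 * L + 2) - q) :=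
    hlL.trans (pow_le_pow_right₀ (by linarith only [p1]) (by omega))
  have h3 := tail14 hl0 hl8 hρ0 hfb hvx hgr hP4 (by omega)
  -- the error at level `q`
  have h4 : u0 * (ρ * |Vx q E l - vv q E l|) ≤ θ * l := by
    calc u0 * (ρ * |Vx q E l - vv q E l|) ≤ θ * θ1 ^ D * (ρ * |Vx q E l - vv q E l|) :=
          mul_le_mul_of_nonneg_right hu0D (mul_nonneg hρ0.le (abs_nonneg _))
      _ = θ * (θ1 ^ D * ρ * |Vx q E l - vv q E l|) := by ring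
      _ ≤ θ * l := mul_le_mul_of_nonneg_left hv0 hθ0.le
  have hfin := final14 hl0 hu0 hτ0 hpa hτρ hB1 hB2 h3 h4
    ((mul_le_mul_of_nonneg_right hu0θ (add_nonneg ha10 ha20)).trans (by
      rw [mul_comm]; exact hθa))
    (huc.trans (by linarith only [hc0])) (hθc.trans (by linarith only [hc0]))
  rw [hρ] at hfin
  have hfin2 : l ≤ 40 / c * (u0 * rho q E l * |Vx K E l - vv q E l|) := by
    rw [div_mul_eq_mul_div, le_div_iff₀ hc0]
    linarith only [hfin]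
  refine hfin2.trans (mul_le_mul_of_nonneg_right ?_ (by
    rw [← hρ]; exact mul_nonneg (mul_nonneg hu0.le hρ0.le) (abs_nonneg _)))
  refine hCCc.trans ?_
  push_cast
  have : (0 : ℝ) ≤ ((k : ℝ) + 1) * D := by positivity
  linarith only [this]

end FIB
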