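import Pool.Agent.Helper75.FIB.Iface3

/-!
# FIB block I4a : the set of near-gap parameters

Apply `PassArith` (with the same `k`) : `q, tG, x, p`. For `t = tG + v`, `v > 0`: `F_i t = p_i + x(-α)^{i-q} + F_i v`, `F_i = (φ^i - (-α)^i)/√5`, so for `i >= q`: `π F_i t = π p_i + s0 (-α)^{i-q} + u0 φ^{i-q}` with `u0 = π φ^q v/√5`, `s0 = πx - π(-α)^q v/√5` (`|s0 - πx| <= α^{2q} u0` tiny; `πx ∈ [0.47,0.786]`).
Choose an integer `κ` with `φ^{-2κ}` about `θ^{Nu}` (such that all `u0` below are in `[θ^{Nu+1},θ^{Nu}]`) and let `v` range over the interval `R0` where `πx/(1.08 φ^{2κ+1}) <= u0 <= πx/(0.92 φ^{2κ+1})`. Then `s0/u0 ∈ [0.9,1.1] φ^{2κ+1}`, so for every `i` the ratio `|s0 α^i|/(u0 φ^i) = (s0/u0) φ^{-2i}` is `>= 0.9 φ > 1.456` or `<= 1.1/φ < 0.68`: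
hence `|s0(-α)^i + u0φ^i| >= (1 - 1/1.456) max >= 0.31 max`. Choose `n` with `1/6 <= u0 φ^n <= 1/2` for all `u0` in the range (the range has ratio `1.18`, `1.18·1.62 < 3`). `n θ <= 1` since `n ~ Nu log(1/θ)/log φ`.
`|R0|` (length in `v`) `>= 0.03 φ^{-2κ-1} φ^{-q}`, so `F_{q+n}|R0| >= c` (absolute). Remove from `tG + R0` the `t` with `|sin π F_i t| < θ^2` for some `i ∈ [q+n, q+n+2L+4]`: for each `i` the removed part is at most `(F_i|R0|+2) θ^2/F_i <= C θ^2 |R0|`, in total `<= (2L+5) C θ^2|R0| <= |R0|/2` (`Lθ <= 1`, `θ` small). `w` = the rest (measurable),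
`volume w >= |R0|/2 >= c θ^{Nu+1}/F_q >= θ^{Nu+C}/F_m` for a suitable larger `C` (`F_q θ^{C'} <= F_m`). `v <= u0 φ^{-q} <= h/8` : `u0/F_q` is tiny compared to `h` (`F_q h >= F_m h >= θ^k`, `u0 <= θ^{Nu}`, `Nu >= C >= k+2`). For `i ∈ [m,q]`: `|sin πF_i t| >= |sin πF_i tG| - πF_q v >= θ^{C'} - 4θ^{Nu} >= θ^{C}`.
-/

namespace FIB

open Real MeasureTheory Set Filter Topology

theorem I4a_sq5 : (2236 / 1000 : ℝ) < √5 ∧ √5 < 22361 / 10000 := by
  constructor
  · apply Real.lt_sqrt_of_sq_lt; norm_num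
  · rw [Real.sqrt_lt' (by norm_num)]; norm_num

theorem I4a_ph : (1618 / 1000 : ℝ) < ph ∧ ph < 161805 / 100000 := by
  have := I4a_sq5
  unfold ph
  constructor <;> linarith [this.1, this.2]

theorem I4a_ph_al : ph * al = 1 := by
  unfold ph al
  have : √5 * √5 = (5 : ℝ) := Real.mul_self_sqrt (by norm_num)
  nlinarith

theorem I4a_al : (618 / 1000 : ℝ) < al ∧ al < 61805 / 100000 := by
  have := I4a_sq5
  unfold al
  constructor <;> linarith [this.1, this.2]

theorem I4a_ph_sq : ph ^ 2 = ph + 1 := by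
  unfold ph
  have : √5 * √5 = (5 : ℝ) := Real.mul_self_sqrt (by norm_num)
  nlinarith

theorem I4a_binet (i : ℕ) : (Nat.fib i : ℝ) = (ph ^ i - (-al) ^ i) / √5 := by
  have h := Real.coe_fib_eq i
  have h1 : ph = Real.goldenRatio := by unfold ph Real.goldenRatio; ring
  have h2 : -al = Real.goldenConj := by unfold al Real.goldenConj; ring
  rw [h1, h2]; exact h

theorem I4a_fib_le (i : ℕ) : (Nat.fib i : ℝ) ≤ ph ^ i := by
  have hp := I4a_ph.1
  have : (Nat.fib i : ℝ) ≤ ph ^ i ∧ (Nat.fib (i + 1) : ℝ) ≤ ph ^ (i + 1) := by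
    induction i with
    | zero => simp; linarith
    | succ n ih =>
      refine ⟨ih.2, ?_⟩
      rw [Nat.fib_add_two, show ph ^ (n + 1 + 1) = ph ^ n * ph ^ 2 by rw [← pow_add], I4a_ph_sq]
      push_cast
      have h1 := ih.1
      have h2 := ih.2
      rw [pow_succ] at h2
      nlinarith
  exact this.1

theorem I4a_le_fib (i : ℕ) (hi : 1 ≤ i) : ph ^ i ≤ 3 * Nat.fib i := by
  obtain ⟨j, rfl⟩ := Nat.exists_eq_add_of_le hi
  have hp := I4a_ph
  have : ph ^ (1 + j) ≤ 3 * Nat.fib (1 + j) ∧ ph ^ (1 + j + 1) ≤ 3 * Nat.fib (1 + j + 1) := by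
    induction j with
    | zero =>
      have := I4a_ph_sq
      constructor
      · simp; linarith [hp.2]
      · norm_num; linarith [hp.2]
    | succ n ih =>
      have ih := ih (by omega)
      refine ⟨ih.2, ?_⟩
      rw [show 1 + (n + 1) + 1 = (1 + n) + 2 by ring, Nat.fib_add_two, pow_add, I4a_ph_sq]
      push_cast
      have h1 := ih.1
      have h2 := ih.2
      rw [pow_succ] at h2
      nlinarith
  exact this.1

/-- measure of the set where `sin (π F t)` is small -/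
theorem I4a_bad (F a b δ : ℝ) (hF : 0 < F) (hab : a ≤ b) (hδ : 0 < δ) :
    volume ({t : ℝ | |Real.sin (π * F * t)| < δ} ∩ Icc a b)
      ≤ ENNReal.ofReal ((F * (b - a) + 2) * (δ / F)) := by
  set S := Finset.Icc ⌈F * a - 1 / 2⌉ ⌊F * b + 1 / 2⌋ with hS
  have hsub : ({t : ℝ | |Real.sin (π * F * t)| < δ} ∩ Icc a b)
      ⊆ ⋃ j ∈ S, Icc ((j - δ / 2) / F) ((j + δ / 2) / F) := by
    rintro t ⟨ht, hta, htb⟩
    have ht : |Real.sin (π * F * t)| < δ := ht
    set j := round (F * t) with hj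
    have h1 : |F * t - j| ≤ 1 / 2 := abs_sub_round (F * t)
    have h2 : |Real.sin (π * F * t)| = |Real.sin (π * (F * t - j))| := by
      have : π * F * t = π * (F * t - j) + j * π := by ring
      rw [this, Real.sin_add_int_mul_pi, abs_mul]
      have : |((-1 : ℝ)) ^ j| = 1 := by
        rw [abs_zpow]; simp
      rw [this, one_mul]
    have h3 : 2 * |F * t - j| ≤ |Real.sin (π * (F * t - j))| := by
      have hpi := Real.pi_pos
      have h4 : |Real.sin (π * (F * t - j))| = Real.sin (π * |F * t - j|) := by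
        rcases le_total 0 (F * t - j) with h0 | h0
        · rw [abs_of_nonneg h0, abs_of_nonneg]
          apply Real.sin_nonneg_of_nonneg_of_le_pi (by positivity)
          rw [abs_of_nonneg h0] at h1
          nlinarith
        · rw [abs_of_nonpos h0, mul_neg, Real.sin_neg, abs_of_nonpos]
          rw [abs_of_nonpos h0] at h1
          apply Real.sin_nonpos_of_nonpos_of_neg_pi_le
          · nlinarith
          · nlinarith
      rw [h4]
      have h5 := Real.mul_le_sin (x := π * |F * t - j|) (by positivity) (by nlinarith)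
      calc 2 * |F * t - j| = 2 / π * (π * |F * t - j|) := by field_simp
        _ ≤ _ := h5
    have h6 : |F * t - j| < δ / 2 := by rw [h2] at ht; linarith
    rw [abs_lt] at h6
    rw [abs_le] at h1
    simp only [Set.mem_iUnion]
    refine ⟨j, ?_, ?_⟩
    · rw [hS, Finset.mem_Icc]
      have hFa : F * a ≤ F * t := by nlinarith
      have hFb : F * t ≤ F * b := by nlinarith
      refine ⟨Int.ceil_le.mpr (by linarith), Int.le_floor.mpr (by linarith)⟩
    · rw [Set.mem_Icc, div_le_iff₀ hF, le_div_iff₀ hF]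
      constructor <;> linarith
  refine (measure_mono hsub).trans ((measure_biUnion_finset_le _ _).trans ?_)
  have hlen : ∀ j ∈ S, volume (Icc (((j : ℝ) - δ / 2) / F) ((j + δ / 2) / F)) ≤ ENNReal.ofReal (δ / F) := by
    intro j _
    rw [Real.volume_Icc]
    apply ENNReal.ofReal_le_ofReal
    apply le_of_eq
    field_simp
    ring
  refine (Finset.sum_le_sum hlen).trans ?_
  rw [Finset.sum_const, nsmul_eq_mul, ← ENNReal.ofReal_natCast, ← ENNReal.ofReal_mul (by positivity)]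
  apply ENNReal.ofReal_le_ofReal
  have hcard : (S.card : ℝ) ≤ F * (b - a) + 2 := by
    rw [hS, Int.card_Icc]
    have h0 : F * a ≤ F * b := by nlinarith
    have h1 : (⌊F * b + 1 / 2⌋ : ℝ) ≤ F * b + 1 / 2 := Int.floor_le _
    have h2 : F * a - 1 / 2 ≤ (⌈F * a - 1 / 2⌉ : ℝ) := Int.le_ceil _
    have h3 : ((⌊F * b + 1 / 2⌋ + 1 - ⌈F * a - 1 / 2⌉).toNat : ℝ)
        = max ((⌊F * b + 1 / 2⌋ : ℝ) + 1 - ⌈F * a - 1 / 2⌉) 0 := by
      have := Int.toNat_eq_max (⌊F * b + 1 / 2⌋ + 1 - ⌈F * a - 1 / 2⌉)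
      calc ((⌊F * b + 1 / 2⌋ + 1 - ⌈F * a - 1 / 2⌉).toNat : ℝ)
          = (((⌊F * b + 1 / 2⌋ + 1 - ⌈F * a - 1 / 2⌉).toNat : ℤ) : ℝ) := by push_cast; rfl
        _ = _ := by rw [this]; push_cast; rfl
    rw [h3]
    apply max_le <;> linarith
  gcongr

/-- non-cancellation between the contracting and the expanding part -/
theorem I4a_nocancel (κ i : ℕ) (s0 u0 Φ : ℝ) (hΦ : Φ = ph ^ (2 * κ + 1)) (hs : 0 < s0) (hu : 0 < u0)
    (h1 : 9 / 10 * Φ * u0 ≤ s0) (h2 : s0 ≤ 11 / 10 * Φ * u0) :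
    31 / 100 * |s0 * (-al) ^ i| ≤ |s0 * (-al) ^ i + u0 * ph ^ i| ∧
      31 / 100 * (u0 * ph ^ i) ≤ |s0 * (-al) ^ i + u0 * ph ^ i| := by
  have hal := I4a_al
  have hph := I4a_ph
  have hal0 : 0 < al := by linarith
  have hph0 : 0 < ph := by linarith
  have habs : |s0 * (-al) ^ i| = s0 * al ^ i := by
    rw [abs_mul, abs_pow, abs_neg, abs_of_pos hs, abs_of_pos hal0]
  have hB : 0 < u0 * ph ^ i := by positivity
  have hA : 0 < s0 * al ^ i := by positivity
  have hone : al ^ i * ph ^ i = 1 := by rw [← mul_pow, mul_comm al, I4a_ph_al, one_pow]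
  have hai : 0 < al ^ i := by positivity
  have hpi : 0 < ph ^ i := by positivity
  rw [habs]
  rcases Nat.lt_or_ge κ i with hi | hi
  · -- expanding part dominates
    have h3 : Φ * al ^ i * ph ≤ ph ^ i := by
      have : Φ * ph ≤ ph ^ i * ph ^ i := by
        rw [hΦ, ← pow_succ, ← pow_add]
        exact pow_le_pow_right₀ (by linarith) (by omega)
      calc Φ * al ^ i * ph = (Φ * ph) * al ^ i := by ring
        _ ≤ (ph ^ i * ph ^ i) * al ^ i := by gcongr
        _ = ph ^ i * (al ^ i * ph ^ i) := by ring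
        _ = ph ^ i := by rw [hone, mul_one]
    have h4 : Φ * al ^ i ≤ al * ph ^ i := by
      calc Φ * al ^ i = (Φ * al ^ i * ph) * al := by
            rw [mul_assoc _ ph al, I4a_ph_al, mul_one]
        _ ≤ ph ^ i * al := by gcongr
        _ = al * ph ^ i := by ring
    have h5 : s0 * al ^ i ≤ 68 / 100 * (u0 * ph ^ i) := by
      calc s0 * al ^ i ≤ (11 / 10 * Φ * u0) * al ^ i := by gcongr
        _ = 11 / 10 * u0 * (Φ * al ^ i) := by ring
        _ ≤ 11 / 10 * u0 * (al * ph ^ i) := by gcongr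
        _ = (11 / 10 * al) * (u0 * ph ^ i) := by ring
        _ ≤ 68 / 100 * (u0 * ph ^ i) := by
            gcongr; linarith [hal.2]
    have h6 : u0 * ph ^ i - s0 * al ^ i ≤ |s0 * (-al) ^ i + u0 * ph ^ i| := by
      have h7 := abs_sub_abs_le_abs_sub (u0 * ph ^ i) (-(s0 * (-al) ^ i))
      rw [abs_neg, habs, abs_of_pos hB] at h7
      calc _ ≤ _ := h7
        _ = |s0 * (-al) ^ i + u0 * ph ^ i| := by congr 1; ring
    constructor <;> linarith
  · -- contracting part dominates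
    have h3 : ph * ph ^ i ≤ Φ * al ^ i := by
      have : ph * ph ^ i * ph ^ i ≤ Φ := by
        rw [hΦ, mul_comm ph, ← pow_succ, ← pow_add]
        exact pow_le_pow_right₀ (by linarith) (by omega)
      calc ph * ph ^ i = ph * ph ^ i * (al ^ i * ph ^ i) := by rw [hone, mul_one]
        _ = (ph * ph ^ i * ph ^ i) * al ^ i := by ring
        _ ≤ Φ * al ^ i := by gcongr
    have h5 : 1456 / 1000 * (u0 * ph ^ i) ≤ s0 * al ^ i := by
      calc 1456 / 1000 * (u0 * ph ^ i) ≤ (9 / 10 * ph) * (u0 * ph ^ i) := by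
            gcongr; linarith [hph.1]
        _ = 9 / 10 * u0 * (ph * ph ^ i) := by ring
        _ ≤ 9 / 10 * u0 * (Φ * al ^ i) := by gcongr
        _ = (9 / 10 * Φ * u0) * al ^ i := by ring
        _ ≤ s0 * al ^ i := by gcongr
    have h6 : s0 * al ^ i - u0 * ph ^ i ≤ |s0 * (-al) ^ i + u0 * ph ^ i| := by
      have h7 := abs_sub_abs_le_abs_sub (s0 * (-al) ^ i) (-(u0 * ph ^ i))
      rw [abs_neg, habs, abs_of_pos hB] at h7
      calc _ ≤ _ := h7
        _ = |s0 * (-al) ^ i + u0 * ph ^ i| := by congr 1; ring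
    constructor <;> nlinarith

theorem I4a_growth (k : ℕ) : ∃ n0 : ℕ, ∀ n ≥ n0, (n : ℝ) ^ k < ph ^ n := by
  have hph := I4a_ph
  have h := tendsto_pow_const_div_const_pow_of_one_lt k (r := ph) (by linarith)
  have h1 := h.eventually (gt_mem_nhds (show (0 : ℝ) < 1 by norm_num))
  obtain ⟨n0, hn0⟩ := Filter.eventually_atTop.mp h1
  refine ⟨n0, fun n hn => ?_⟩
  have h2 := hn0 n hn
  have h3 : 0 < ph ^ n := by have : 0 < ph := by linarith
                             positivity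
  rwa [div_lt_one h3] at h2

theorem I4a_kappa (g : ℝ) (hg0 : 0 < g) (hg3 : g ≤ 1 / 3000) :
    ∃ κ : ℕ, 1 ≤ g * ph ^ (2 * κ + 1) ∧ g * ph ^ (2 * κ + 1) ≤ 2619 / 1000 := by
  have hph := I4a_ph
  have hph1 : 1 < ph := by linarith [hph.1]
  have hex : ∃ κ : ℕ, 1 ≤ g * ph ^ (2 * κ + 1) := by
    obtain ⟨N, hN⟩ := pow_unbounded_of_one_lt (1 / g) hph1
    refine ⟨N, ?_⟩
    have h1 : ph ^ N ≤ ph ^ (2 * N + 1) := pow_le_pow_right₀ hph1.le (by omega)
    rw [div_lt_iff₀ hg0] at hN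
    have h2 : ph ^ N * g ≤ ph ^ (2 * N + 1) * g := mul_le_mul_of_nonneg_right h1 hg0.le
    linarith
  classical
  refine ⟨Nat.find hex, Nat.find_spec hex, ?_⟩
  rcases Nat.eq_zero_or_pos (Nat.find hex) with h0 | h0
  · rw [h0]
    have : g * ph ^ (2 * 0 + 1) ≤ 1 / 3000 * 2 := by
      rw [mul_zero, zero_add, pow_one]
      apply mul_le_mul hg3 (by linarith [hph.2]) (by linarith) (by norm_num)
    linarith
  · have h2 := Nat.find_min hex (m := Nat.find hex - 1) (by omega)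
    push Not at h2
    have h1 : ph ^ (2 * Nat.find hex + 1) = ph ^ (2 * (Nat.find hex - 1) + 1) * ph ^ 2 := by
      rw [← pow_add]; congr 1; omega
    rw [h1, I4a_ph_sq, ← mul_assoc]
    calc g * ph ^ (2 * (Nat.find hex - 1) + 1) * (ph + 1) ≤ 1 * (ph + 1) := by
          apply mul_le_mul_of_nonneg_right h2.le (by linarith)
      _ ≤ 2619 / 1000 := by linarith [hph.2]

theorem I4a_n (um : ℝ) (hum0 : 0 < um) (hum1 : um < 1 / 6) :
    ∃ n : ℕ, 1 / 6 ≤ um * ph ^ n ∧ um * ph ^ n ≤ 27 / 100 := by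
  have hph := I4a_ph
  have hph1 : 1 < ph := by linarith [hph.1]
  have hexn : ∃ n : ℕ, 1 / 6 ≤ um * ph ^ n := by
    obtain ⟨N, hN⟩ := pow_unbounded_of_one_lt (1 / um) hph1
    refine ⟨N, ?_⟩
    rw [div_lt_iff₀ hum0] at hN
    linarith
  classical
  refine ⟨Nat.find hexn, Nat.find_spec hexn, ?_⟩
  rcases Nat.eq_zero_or_pos (Nat.find hexn) with h0 | h0
  · rw [h0]; simp; linarith
  · have h2 := Nat.find_min hexn (m := Nat.find hexn - 1) (by omega)
    push Not at h2
    have h1 : ph ^ (Nat.find hexn) = ph ^ (Nat.find hexn - 1) * ph := by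
      rw [← pow_succ]; congr 1; omega
    rw [h1, ← mul_assoc]
    calc um * ph ^ (Nat.find hexn - 1) * ph ≤ 1 / 6 * ph := by
          apply mul_le_mul_of_nonneg_right h2.le (by linarith)
      _ ≤ 27 / 100 := by linarith [hph.2]

theorem I4a_ntheta (n n0 Nu : ℕ) (θ um : ℝ) (hθ : 0 < θ) (hθlt3 : θ < 1 / ((n0 : ℝ) + 1))
    (hn0 : ∀ n ≥ n0, (n : ℝ) ^ (Nu + 1) < ph ^ n) (hum : θ * θ ^ Nu ≤ um)
    (hn2 : um * ph ^ n ≤ 27 / 100) : (n : ℝ) * θ ≤ 1 := by
  have hph := I4a_ph
  have hph0 : 0 < ph := by linarith [hph.1]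
  by_contra hcon
  push Not at hcon
  have h1 : 1 / θ < n := by rw [div_lt_iff₀ hθ]; exact hcon
  have h2 : (n0 : ℝ) ≤ n := by
    have : (n0 : ℝ) + 1 < 1 / θ := by
      rw [lt_div_iff₀ hθ]
      rw [lt_div_iff₀ (by positivity)] at hθlt3
      linarith
    linarith
  have h3 := hn0 n (by exact_mod_cast h2)
  have h4 : (1 / θ) ^ (Nu + 1) ≤ (n : ℝ) ^ (Nu + 1) := by
    apply pow_le_pow_left₀ (by positivity) h1.le
  have h5 : ph ^ n * (θ * θ ^ Nu) ≤ 27 / 100 := by
    calc ph ^ n * (θ * θ ^ Nu) ≤ ph ^ n * um := by gcongr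
      _ = um * ph ^ n := by ring
      _ ≤ _ := hn2
  have h6 : (1 / θ) ^ (Nu + 1) * (θ * θ ^ Nu) = 1 := by
    rw [← pow_succ', one_div, ← mul_pow, inv_mul_cancel₀ hθ.ne', one_pow]
  have h7 : 0 < θ * θ ^ Nu := by positivity
  have h8 : (1 / θ) ^ (Nu + 1) * (θ * θ ^ Nu) ≤ ph ^ n * (θ * θ ^ Nu) :=
    mul_le_mul_of_nonneg_right (h4.trans h3.le) h7.le
  linarith

theorem gapSet (h : PassArith) : GapSet := by
  intro k
  obtain ⟨C', θ1, hθ1, hP⟩ := h k
  refine ⟨C' + k + 3, ?_⟩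
  intro Nu hNu
  obtain ⟨n0, hn0⟩ := I4a_growth (Nu + 1)
  refine ⟨min θ1 (min (1 / 3000) (1 / ((n0 : ℝ) + 1))), by positivity, ?_⟩
  intro θ hθ hθlt m L t0 h hm ht0 hh hth hk hh1 hL
  have hθlt1 : θ < θ1 := lt_of_lt_of_le hθlt (min_le_left _ _)
  have hθlt2 : θ < 1 / 3000 := lt_of_lt_of_le hθlt ((min_le_right _ _).trans (min_le_left _ _))
  have hθlt3 : θ < 1 / ((n0 : ℝ) + 1) := lt_of_lt_of_le hθlt ((min_le_right _ _).trans (min_le_right _ _))
  obtain ⟨q, tG, x, p, hmq, hq, htG1, htG2, hx1, hx2, hp, hprec, hsin⟩ :=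
    hP θ hθ hθlt1 m t0 h hm ht0 hh hth hk
  have hph := I4a_ph
  have hal := I4a_al
  have hsq := I4a_sq5
  have hpi1 := Real.pi_gt_d2
  have hpi2 := Real.pi_lt_d2
  have hph0 : 0 < ph := by linarith [hph.1]
  have hph1 : 1 < ph := by linarith [hph.1]
  have hal0 : 0 < al := by linarith [hal.1]
  have hsq0 : 0 < √5 := by linarith [hsq.1]
  have hpi := Real.pi_pos
  have hθle1 : θ ≤ 1 := by linarith
  set g : ℝ := θ ^ Nu with hg
  have hg0 : 0 < g := by positivity
  have hgθ : g ≤ θ ^ 1 := pow_le_pow_of_le_one hθ.le hθle1 (by omega)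
  rw [pow_one] at hgθ
  have hg3 : g ≤ 1 / 3000 := by linarith
  -- choice of κ
  obtain ⟨κ, hκ1, hκ2⟩ := I4a_kappa g hg0 hg3
  set Φ : ℝ := ph ^ (2 * κ + 1) with hΦ
  have hΦ0 : 0 < Φ := by positivity
  have hΦ1 : 1000 ≤ Φ := by
    have h1 : g * Φ ≤ 1 / 3000 * Φ := mul_le_mul_of_nonneg_right hg3 hΦ0.le
    linarith
  -- the range of u0
  set um : ℝ := π * x / (27 / 25 * Φ) with hum
  set uM : ℝ := π * x / (23 / 25 * Φ) with huM
  have hpx1 : 47 / 100 ≤ π * x := by
    calc (47 / 100 : ℝ) ≤ 3.14 * (3 / 20) := by norm_num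
      _ ≤ π * x := mul_le_mul hpi1.le hx1 (by norm_num) hpi.le
  have hpx2 : π * x ≤ 7875 / 10000 := by
    calc π * x ≤ 3.15 * (1 / 4) := mul_le_mul hpi2.le hx2 (by linarith) (by norm_num)
      _ = 7875 / 10000 := by norm_num
  have hum0 : 0 < um := by positivity
  have huM0 : 0 < uM := by positivity
  have hratio : uM = 27 / 23 * um := by rw [hum, huM]; field_simp
  have humM : um ≤ uM := by rw [hratio]; linarith
  have huMg : uM ≤ g := by
    rw [huM, div_le_iff₀ (by positivity)]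
    linarith
  have humg : θ * g ≤ um := by
    rw [hum, le_div_iff₀ (by positivity)]
    have : θ * g * (27 / 25 * Φ) = 27 / 25 * (θ * (g * Φ)) := by ring
    rw [this]
    have h2 : θ * (g * Φ) ≤ 1 / 3000 * (2619 / 1000) :=
      mul_le_mul hθlt2.le hκ2 (by positivity) (by norm_num)
    linarith
  -- choice of n
  obtain ⟨n, hn1, hn2⟩ := I4a_n um hum0 (by linarith)
  have hnθ : (n : ℝ) * θ ≤ 1 := I4a_ntheta n n0 Nu θ um hθ hθlt3 hn0 humg hn2
  -- the interval
  have hpq0 : 0 < ph ^ q := by positivity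
  have hpq1 : 1 ≤ ph ^ q := one_le_pow₀ hph1.le
  have hq1 : 1 ≤ q := hm.trans hmq
  set vm : ℝ := √5 * um / (π * ph ^ q) with hvm
  set vM : ℝ := √5 * uM / (π * ph ^ q) with hvM
  have hvm0 : 0 < vm := by positivity
  have hvM0 : 0 < vM := by positivity
  have hvratio : vM = 27 / 23 * vm := by rw [hvm, hvM, hratio]; ring
  have hFq : (Nat.fib q : ℝ) ≤ ph ^ q := I4a_fib_le q
  have hFm0 : (0 : ℝ) < Nat.fib m := by exact_mod_cast Nat.fib_pos.mpr (by omega)
  have hFq0 : (0 : ℝ) < Nat.fib q := by exact_mod_cast Nat.fib_pos.mpr (by omega)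
  have hmono : ∀ i j : ℕ, i ≤ j → (Nat.fib i : ℝ) ≤ Nat.fib j := fun i j hij => by
    exact_mod_cast Nat.fib_mono hij
  have hvMq : ph ^ q * vM ≤ g := by
    have : ph ^ q * vM = √5 / π * uM := by rw [hvM]; field_simp
    rw [this]
    have h1 : √5 / π ≤ 1 := by rw [div_le_one hpi]; linarith [hsq.2]
    have h2 : √5 / π * uM ≤ 1 * uM := mul_le_mul_of_nonneg_right h1 huM0.le
    linarith
  have hvMh : vM < h / 8 := by
    have h1 : (Nat.fib m : ℝ) * vM ≤ g := by
      have : (Nat.fib m : ℝ) * vM ≤ ph ^ q * vM := by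
        have := (hmono m q hmq).trans hFq
        gcongr
      linarith
    have h2 : g ≤ θ ^ k * θ := by
      rw [hg, ← pow_succ]; exact pow_le_pow_of_le_one hθ.le hθle1 (by omega)
    have h3 : (0 : ℝ) < θ ^ k := by positivity
    by_contra hcon
    push Not at hcon
    have h4 : h / 8 * Nat.fib m ≤ vM * (Nat.fib m : ℝ) := mul_le_mul_of_nonneg_right hcon hFm0.le
    have h5 : θ ^ k * θ ≤ θ ^ k * (1 / 3000) := mul_le_mul_of_nonneg_left hθlt2.le h3.le
    linarith
  set a : ℝ := tG + vm with ha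
  set b : ℝ := tG + vM with hb
  have hab : a ≤ b := by rw [ha, hb, hvratio]; linarith
  have hba : b - a = 4 / 23 * vm := by rw [ha, hb, hvratio]; ring
  set I : Finset ℕ := Finset.Icc (q + n) (q + n + 2 * L + 4) with hI
  set bad : ℕ → Set ℝ := fun i => {t : ℝ | |Real.sin (π * (Nat.fib i : ℝ) * t)| < θ ^ 2} ∩ Icc a b with hbad
  have hbadm : ∀ i, MeasurableSet (bad i) := by
    intro i
    apply MeasurableSet.inter _ measurableSet_Icc
    apply measurableSet_lt _ measurable_const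
    fun_prop
  set w : Set ℝ := Icc a b \ ⋃ i ∈ I, bad i with hw
  have hwm : MeasurableSet w :=
    measurableSet_Icc.diff (Finset.measurableSet_biUnion _ fun i _ => hbadm i)
  -- size of `F_i * |R0|`
  have hsize : ∀ i ∈ I, 1 / 150 ≤ (Nat.fib i : ℝ) * (b - a) := by
    intro i hi
    rw [hI, Finset.mem_Icc] at hi
    have h1 : (Nat.fib (q + n) : ℝ) ≤ Nat.fib i := hmono _ _ hi.1
    have h2 := I4a_le_fib (q + n) (by omega)
    have h3 : ph ^ (q + n) * vm = √5 / π * (um * ph ^ n) := by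
      rw [hvm, pow_add]; field_simp
    have h4 : (7 / 10 : ℝ) ≤ √5 / π := by
      rw [le_div_iff₀ hpi]
      linarith [hsq.1]
    have h5 : 7 / 60 ≤ ph ^ (q + n) * vm := by
      rw [h3]
      calc (7 / 60 : ℝ) = 7 / 10 * (1 / 6) := by norm_num
        _ ≤ √5 / π * (um * ph ^ n) := by gcongr
    rw [hba]
    have h6 : ph ^ (q + n) * vm ≤ 3 * Nat.fib (q + n) * vm := by gcongr
    have h7 : (Nat.fib (q + n) : ℝ) * vm ≤ Nat.fib i * vm := by gcongr
    have h8 : (Nat.fib i : ℝ) * (4 / 23 * vm) = 4 / 23 * (Nat.fib i * vm) := by ring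
    have h9 : 3 * (Nat.fib (q + n) : ℝ) * vm = 3 * (Nat.fib (q + n) * vm) := by ring
    rw [h8]
    rw [h9] at h6
    linarith
  have hvol : ENNReal.ofReal ((b - a) / 2) ≤ volume w := by
    have hsum : volume (⋃ i ∈ I, bad i) ≤ ENNReal.ofReal ((b - a) / 2) := by
      refine (measure_biUnion_finset_le _ _).trans ?_
      have hle : ∀ i ∈ I, volume (bad i) ≤ ENNReal.ofReal (301 * θ ^ 2 * (b - a)) := by
        intro i hi
        have hFi : (0 : ℝ) < Nat.fib i := by
          have := hsize i hi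
          by_contra hcon
          push Not at hcon
          have : (Nat.fib i : ℝ) * (b - a) ≤ 0 := mul_nonpos_of_nonpos_of_nonneg hcon (by linarith)
          linarith
        refine (I4a_bad (Nat.fib i) a b (θ ^ 2) hFi hab (by positivity)).trans ?_
        apply ENNReal.ofReal_le_ofReal
        have h1 := hsize i hi
        have h2 : (Nat.fib i * (b - a) + 2) * (θ ^ 2 / Nat.fib i) = θ ^ 2 * (b - a) + 2 * θ ^ 2 / Nat.fib i := by
          field_simp
        rw [h2]
        have h3 : 2 * θ ^ 2 / (Nat.fib i : ℝ) ≤ 300 * θ ^ 2 * (b - a) := by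
          rw [div_le_iff₀ hFi]
          calc 2 * θ ^ 2 = 300 * θ ^ 2 * (1 / 150) := by ring
            _ ≤ 300 * θ ^ 2 * (Nat.fib i * (b - a)) := by gcongr
            _ = 300 * θ ^ 2 * (b - a) * Nat.fib i := by ring
        linarith
      refine (Finset.sum_le_sum hle).trans ?_
      rw [Finset.sum_const, nsmul_eq_mul, ← ENNReal.ofReal_natCast, ← ENNReal.ofReal_mul (by positivity)]
      apply ENNReal.ofReal_le_ofReal
      have hcard : (I.card : ℝ) = 2 * L + 5 := by
        rw [hI, Nat.card_Icc]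
        have : q + n + 2 * L + 4 + 1 - (q + n) = 2 * L + 5 := by omega
        rw [this]; push_cast; ring
      rw [hcard]
      have hba0 : 0 ≤ b - a := by linarith
      have h1 : (2 * (L : ℝ) + 5) * (301 * θ ^ 2) ≤ 1 / 2 := by
        have h3 : (2 * (L : ℝ) + 5) * (301 * θ ^ 2) = 301 * (θ * (2 * (L * θ) + 5 * θ)) := by ring
        rw [h3]
        have h4 : θ * (2 * (L * θ) + 5 * θ) ≤ 1 / 3000 * (3 : ℝ) :=
          mul_le_mul hθlt2.le (by linarith) (by positivity) (by norm_num)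
        linarith
      calc (2 * (L : ℝ) + 5) * (301 * θ ^ 2 * (b - a)) = (2 * (L : ℝ) + 5) * (301 * θ ^ 2) * (b - a) := by ring
        _ ≤ 1 / 2 * (b - a) := by gcongr
        _ = (b - a) / 2 := by ring
    have h1 : volume (Icc a b) - volume (⋃ i ∈ I, bad i) ≤ volume w := le_measure_diff
    refine le_trans ?_ h1
    rw [Real.volume_Icc]
    have h2 : ENNReal.ofReal (b - a) = ENNReal.ofReal ((b - a) / 2) + ENNReal.ofReal ((b - a) / 2) := by
      rw [← ENNReal.ofReal_add (by linarith) (by linarith)]; congr 1; ring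
    rw [h2]
    calc ENNReal.ofReal ((b - a) / 2)
        = ENNReal.ofReal ((b - a) / 2) + ENNReal.ofReal ((b - a) / 2) - ENNReal.ofReal ((b - a) / 2) := by
          rw [ENNReal.add_sub_cancel_right ENNReal.ofReal_ne_top]
      _ ≤ _ := tsub_le_tsub_left hsum _
  refine ⟨q, n, p, w, hmq, ?_, hnθ, fun i => hprec (q + i) (by omega), hwm, ?_, ?_, ?_⟩
  · refine le_trans ?_ hq
    exact mul_le_mul_of_nonneg_left (pow_le_pow_of_le_one hθ.le hθle1 (by omega)) hFq0.le
  · rintro t ⟨ht, -⟩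
    rw [Set.mem_Icc, ha, hb] at ht
    rw [Set.mem_Ioo]
    constructor
    · linarith [ht.1]
    · linarith [ht.2]
  · refine le_trans (ENNReal.ofReal_le_ofReal ?_) hvol
    rw [hba]
    have h1 : ph ^ q ≤ 3 * Nat.fib q := I4a_le_fib q hq1
    have h2 : √5 * (θ * g) / (π * (3 * Nat.fib q)) ≤ vm := by
      rw [hvm]; gcongr
    have h3 : (2 / 10 : ℝ) * (θ * g) / Nat.fib q ≤ √5 * (θ * g) / (π * (3 * Nat.fib q)) := by
      rw [div_le_div_iff₀ hFq0 (by positivity)]
      have h4 : (2 / 10 : ℝ) * (π * 3) ≤ √5 := by linarith [hsq.1]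
      have h5 : 0 < θ * g * Nat.fib q := by positivity
      have h6 := mul_le_mul_of_nonneg_right h4 h5.le
      linarith
    have h4 : θ ^ C' / Nat.fib m ≤ 1 / Nat.fib q := by
      rw [div_le_div_iff₀ hFm0 hFq0]
      linarith
    have h5 : θ ^ (Nu + (C' + k + 3)) / Nat.fib m ≤ θ * (θ * g) * (1 / Nat.fib q) := by
      have h6 : θ ^ (Nu + (C' + k + 3)) ≤ θ * (θ * g) * θ ^ C' := by
        have : θ * (θ * g) * θ ^ C' = θ ^ (Nu + C' + 2) := by rw [hg]; ring
        rw [this]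
        exact pow_le_pow_of_le_one hθ.le hθle1 (by omega)
      calc θ ^ (Nu + (C' + k + 3)) / Nat.fib m ≤ θ * (θ * g) * θ ^ C' / Nat.fib m := by gcongr
        _ = θ * (θ * g) * (θ ^ C' / Nat.fib m) := by ring
        _ ≤ _ := by gcongr
    have h6 : 0 < (θ * g) / (Nat.fib q : ℝ) := by positivity
    have h7 : θ * (θ * g) * (1 / (Nat.fib q : ℝ)) = θ * ((θ * g) / Nat.fib q) := by ring
    have h8 : (2 / 10 : ℝ) * (θ * g) / Nat.fib q = 2 / 10 * ((θ * g) / Nat.fib q) := by ring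
    rw [h7] at h5
    rw [h8] at h3
    have h9 : θ * ((θ * g) / (Nat.fib q : ℝ)) ≤ 1 / 3000 * ((θ * g) / (Nat.fib q : ℝ)) :=
      mul_le_mul_of_nonneg_right hθlt2.le h6.le
    linarith
  · rintro t ⟨ht, htb⟩
    rw [Set.mem_Icc, ha, hb] at ht
    set v : ℝ := t - tG with hv
    have htv : t = tG + v := by rw [hv]; ring
    have hv1 : vm ≤ v := by rw [hv]; linarith [ht.1]
    have hv2 : v ≤ vM := by rw [hv]; linarith [ht.2]
    have hv0 : 0 < v := by linarith
    set u0 : ℝ := π * v * ph ^ q / √5 with hu0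
    set s0 : ℝ := π * x - π * v * (-al) ^ q / √5 with hs0
    have hu1 : um ≤ u0 := by
      have : um = π * vm * ph ^ q / √5 := by rw [hvm]; field_simp
      rw [this, hu0]; gcongr
    have hu2 : u0 ≤ uM := by
      have : uM = π * vM * ph ^ q / √5 := by rw [hvM]; field_simp
      rw [this, hu0]; gcongr
    have hu0pos : 0 < u0 := by linarith
    have hsu : |s0 - π * x| ≤ u0 := by
      have : s0 - π * x = -(π * v * (-al) ^ q / √5) := by rw [hs0]; ring
      rw [this, abs_neg, abs_div, abs_mul, abs_pow, abs_neg, abs_of_pos hal0, abs_of_pos hsq0,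
        abs_of_pos (by positivity : 0 < π * v), hu0]
      have h1 : al ^ q ≤ 1 := pow_le_one₀ hal0.le (by linarith [hal.2])
      gcongr
      linarith
    rw [abs_le] at hsu
    have huMpx : 23 / 25 * Φ * uM = π * x := by rw [huM]; field_simp
    have humpx : 27 / 25 * Φ * um = π * x := by rw [hum]; field_simp
    have hu50 : u0 ≤ 1 / 50 * (Φ * u0) := by
      have h1 : 1 * u0 ≤ (1 / 50 * Φ) * u0 := by
        apply mul_le_mul_of_nonneg_right _ hu0pos.le
        linarith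
      linarith
    have hs1 : 9 / 10 * Φ * u0 ≤ s0 := by
      have h1 : 23 / 25 * Φ * u0 ≤ π * x := by rw [← huMpx]; gcongr
      have h2 := hsu.1
      linarith
    have hs2 : s0 ≤ 11 / 10 * Φ * u0 := by
      have h1 : π * x ≤ 27 / 25 * Φ * u0 := by rw [← humpx]; gcongr
      have h2 := hsu.2
      linarith
    have hs3 : 9 / 20 ≤ s0 := by linarith [hsu.1]
    have hs4 : s0 ≤ 4 / 5 := by linarith [hsu.2]
    refine ⟨s0, u0, hs3, hs4, ?_, ?_, ?_, ?_, ?_, ?_, ?_, ?_⟩
    · rw [pow_succ, ← hg]; linarith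
    · linarith
    · refine hn1.trans ?_; gcongr
    · have h1 : u0 * ph ^ n ≤ uM * ph ^ n := by gcongr
      have h2 : uM * ph ^ n = 27 / 23 * (um * ph ^ n) := by rw [hratio]; ring
      linarith
    · intro i
      have h1 := hp (q + i) (by omega)
      rw [Nat.add_sub_cancel_left] at h1
      have h2 := I4a_binet (q + i)
      calc π * Nat.fib (q + i) * t = π * (Nat.fib (q + i) * tG) + π * (Nat.fib (q + i)) * v := by
            rw [htv]; ring
        _ = π * (p (q + i) + x * (-al) ^ i) + π * ((ph ^ (q + i) - (-al) ^ (q + i)) / √5) * v := by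
            rw [h1, h2]
        _ = _ := by
            rw [hs0, hu0, pow_add, pow_add]
            field_simp
            ring
    · intro i
      exact I4a_nocancel κ i s0 u0 Φ rfl (by linarith) hu0pos hs1 hs2
    · intro i hi1 hi2
      have h1 := hsin i hi1 hi2
      have h2 := Real.abs_sin_sub_sin_le (π * Nat.fib i * tG) (π * Nat.fib i * t)
      have h3 : |π * Nat.fib i * tG - π * Nat.fib i * t| ≤ 3 * g := by
        have : π * Nat.fib i * tG - π * Nat.fib i * t = -(π * Nat.fib i * v) := by rw [htv]; ring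
        rw [this, abs_neg, abs_of_nonneg (by positivity)]
        have h4 : (Nat.fib i : ℝ) ≤ ph ^ q := (hmono i q hi2).trans hFq
        calc π * Nat.fib i * v ≤ π * ph ^ q * v := by gcongr
          _ = √5 * u0 := by rw [hu0]; field_simp
          _ ≤ 3 * g := by
            have h5 : u0 ≤ g := hu2.trans huMg
            exact mul_le_mul (by linarith [hsq.2]) h5 hu0pos.le (by norm_num)
      have h5 := abs_sub_abs_le_abs_sub (Real.sin (π * Nat.fib i * tG)) (Real.sin (π * Nat.fib i * t))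
      have h6 : g ≤ θ ^ C' * θ := by
        rw [hg, ← pow_succ]; exact pow_le_pow_of_le_one hθ.le hθle1 (by omega)
      have h7 : θ ^ (C' + k + 3) ≤ θ ^ C' * θ := by
        rw [← pow_succ]; exact pow_le_pow_of_le_one hθ.le hθle1 (by omega)
      have h8 : 0 < θ ^ C' := by positivity
      have h9 : θ ^ C' * θ ≤ θ ^ C' * (1 / 3000) := mul_le_mul_of_nonneg_left hθlt2.le h8.le
      linarith
    · intro i hi1 hi2
      by_contra hcon
      push Not at hcon
      apply htb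
      simp only [Set.mem_iUnion]
      refine ⟨i, ?_, hcon, ?_⟩
      · rw [hI, Finset.mem_Icc]; exact ⟨hi1, hi2⟩
      · rw [Set.mem_Icc, ha, hb]; exact ht

end FIB
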