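import Pool.Agent.Helper75.FIB.Iface3

/-!
# FIB block J1 : assembly of the local structure theorem

Choose the constants in this order. `C1` = maximum of all `c1`, `C4` = maximum of all `c4`. `LocLin` (C1): `C_L`. `μm := θ^{C_L+1}/F_m`. `LocAff` (C1): `Ca` (use one `Ca` for both statements, the larger exponent) and `β, γ`. `TypMass`: `C_M`. `ka := C_L + 4`, `C2 := C_M ka + C_L + 1`. `AtypCard`: `C_A`, `kb := max(ka, C_A + 1 + C2, C_A)`. `TypErr` (k = kb): `C_E`, `C3 := max(Ca + C_E kb, constant of NearGapP)`.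
`N1 >= C3` given; `N0` = sum of all the `N0`'s, `θ0 = 1/(N0+1)` etc. (`LH N0' C1 ..` follows from the hypotheses for each needed `N0' <= N0`: `l <= θ^{N0} <= θ^{N0'}`, `(1/l)^{N0'} <= (1/l)^{N0}`.)
`Ta, Tb` = cells of `wn E0 ℓ Q` with `TyC (θ^ka)`, `TyC (θ^kb)` (Finset.filter, classical). `sub1`: `TyC` is monotone in the threshold. `typ_err`: TypErr, error `l ℓ θ^{-(Ca+C_E kb)} <= l ℓ/θ^{C3}`. `atyp_mass`: `F_m Σ <= θ^{ka-2} <= θ·θ^{C_L+1}`. `atyp_card`: `<= θ^{kb-C_A} Q <= θ·θ^{C2} Q` (`δ/M = θ θ^{C2}`). `typ_mass`: `F_m cm <= θ^{-C_M ka}/Q`, `M/Q μm = θ^{-C2} θ^{C_L+1}/(Q F_m)`.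
`block_mass`: telescoping sum of `cm` = `NN(aℓ/Q) - NN((a+Q)ℓ/Q) >= (θ^{C_L} - C√l)/F_m >= μm` (points within `5ℓ` of `E0` since the cells are in `wn`). `near`: NearGapP with the real number `a ℓ/Q`; `Ng` = cells `j` of the block with some `t ∈ w`, `inCell j t`; `w ⊆ ⋃_{j∈Ng} {t | inCell j t}`, `volume{inCell j} = cm j` (QMeas), so `Σ_{Ng} cm >= θ^{2N1} Σ_block cm`; for another `t'` in the cell
CellClose (both energies spectral, in the cell, `|E-E0| <= 5ℓ`): `|VK t' - (βEK t'+γ)| >= 2lℓθ^{-N1} - lℓ >= lℓ θ^{-N1}`. `slope`: the first and the last block of `Q` cells in `wn` each contain a cell of `Ta` with positive mass (block_mass `>= μm > θμm >=` atyp_mass), hence points `t, t'` with `|EK t - EK t'| >= 5ℓ`, `VK ∈ [0,1]`, errors `<= 1`: `|β| 5ℓ <= 3`.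
-/

namespace FIB

open Real MeasureTheory Set Filter Topology

theorem J1_TyC_mono {θa θb : ℝ} (h0 : 0 < θb) (h : θb ≤ θa) {C4 m Lc : ℕ} {l ℓ' : ℝ} {j : ℤ}
    (H : TyC θa C4 m Lc l ℓ' j) : TyC θb C4 m Lc l ℓ' j := by
  obtain ⟨E, h1, h2, h3⟩ := H
  refine ⟨E, h1, h2, fun i hi hi2 hr => ?_⟩
  have := h3 i hi hi2 (fun i' a b => (hr i' a b).trans (pow_le_pow_left₀ h0.le h C4))
  exact (pow_le_pow_left₀ h0.le h 2).trans this

theorem J1_cm_sum (K : ℕ) (l ℓ : ℝ) (Q : ℕ) (a : ℤ) (n : ℕ) :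
    ∑ j ∈ Finset.Ico a (a + n), cm K l ℓ Q j
      = NN K l ((a : ℝ) * (ℓ / Q)) - NN K l (((a : ℝ) + n) * (ℓ / Q)) := by
  induction n with
  | zero => simp
  | succ n ih =>
    have hs : Finset.Ico a (a + ((n + 1 : ℕ) : ℤ)) = insert (a + (n : ℤ)) (Finset.Ico a (a + (n : ℤ))) := by
      ext x
      simp only [Finset.mem_Ico, Finset.mem_insert]
      push_cast
      omega
    have hn : a + (n : ℤ) ∉ Finset.Ico a (a + (n : ℤ)) := by simp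
    rw [hs, Finset.sum_insert hn, ih, cm]
    push_cast
    ring_nf

theorem J1_LH_mono {N N0 C1 : ℕ} {θ l : ℝ} {L Lc Q K m : ℕ} {E0 ℓ : ℝ} (hN : N ≤ N0) (hθ1 : θ ≤ 1)
    (hl1 : l ≤ 1) (h : LH N0 C1 θ l L Lc Q K m E0 ℓ) : LH N C1 θ l L Lc Q K m E0 ℓ := by
  obtain ⟨h1, h2, h3, h4, h5, h6, h7, h8, h9, h10, h11⟩ := h
  have hN' : (N : ℝ) ≤ N0 := by exact_mod_cast hN
  have hinv : 1 ≤ 1 / l := by
    rw [le_div_iff₀ h3]; linarith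
  have hp : (1 / l) ^ N ≤ (1 / l) ^ N0 := pow_le_pow_right₀ hinv hN
  refine ⟨h1, ?_, h3, ?_, hp.trans h5, ?_, ?_, h8, h9, h10, h11⟩
  · exact (mul_le_mul_of_nonneg_right hN' h1.le).trans h2
  · exact h4.trans (pow_le_pow_of_le_one h1.le hθ1 hN)
  · exact (mul_le_mul_of_nonneg_left hp (by positivity)).trans h6
  · exact (mul_le_mul_of_nonneg_left hp (by positivity)).trans h7

theorem J1_tr_lt_of_Rg (hTh : ThProps) (hQ : QuantileProps) {K : ℕ} (hK : 1 ≤ K) {l : ℝ} (hl : 0 < l)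
    (hl8 : l ≤ 1 / 8) {t : ℝ} (ht : t ∈ Rg K) : |tr K (EK K l t) l| < 1 := by
  have h1 := (hQ K hK).2.1 l hl hl8 t ⟨ht.1, ht.2.1⟩
  have h2 := (hTh l hl hl8 K).2.2.1 (EK K l t)
  rw [h1] at h2
  have hs : Real.sin (π * Nat.fib K * t) ≠ 0 := by
    intro h0
    rw [Real.sin_eq_zero_iff] at h0
    obtain ⟨j, hj⟩ := h0
    apply ht.2.2 j
    have hpi : π ≠ 0 := Real.pi_ne_zero
    have : π * ((Nat.fib K : ℝ) * t) = π * j := by linarith [hj]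
    exact mul_left_cancel₀ hpi this
  have hc : Real.cos (π * Nat.fib K * t) ^ 2 < 1 := by
    have := Real.sin_sq_add_cos_sq (π * Nat.fib K * t)
    have h3 : 0 < Real.sin (π * Nat.fib K * t) ^ 2 := by positivity
    linarith
  have hc' : |Real.cos (π * Nat.fib K * t)| < 1 := by
    rw [← sq_lt_one_iff_abs_lt_one]; exact hc
  rw [h2] at hc'
  rw [abs_lt] at hc' ⊢
  unfold clip at hc'
  constructor
  · by_contra hx
    push Not at hx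
    have : max (-1 : ℝ) (min 1 (tr K (EK K l t) l)) = -1 := by
      apply max_eq_left
      exact (min_le_right _ _).trans hx
    rw [this] at hc'
    linarith [hc'.1]
  · by_contra hx
    push Not at hx
    have : max (-1 : ℝ) (min 1 (tr K (EK K l t) l)) = 1 := by
      rw [min_eq_left hx]; norm_num
    rw [this] at hc'
    linarith [hc'.2]

theorem J1_cm_nonneg (hTh : ThProps) {K : ℕ} {l : ℝ} (hl : 0 < l)
    (hl8 : l ≤ 1 / 8) {ℓ : ℝ} (hℓ : 0 < ℓ) (Q : ℕ) (j : ℤ) : 0 ≤ cm K l ℓ Q j := by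
  unfold cm NN
  have h := (hTh l hl hl8 K).2.1
  have h2 : (j : ℝ) * (ℓ / Q) ≤ ((j : ℝ) + 1) * (ℓ / Q) := by
    have : 0 ≤ ℓ / Q := by positivity
    nlinarith
  have h3 := h h2
  rw [← sub_div]
  apply div_nonneg
  · linarith
  · positivity

theorem J1_inCell_meas (hQM : QMeas) {K : ℕ} (hK : 1 ≤ K) {l : ℝ} (hl : 0 < l)
    (hl8 : l ≤ 1 / 8) {ℓ : ℝ} (hℓ : 0 < ℓ) (Q : ℕ) (j : ℤ) :
    volume {t : ℝ | inCell K l ℓ Q j t} = ENNReal.ofReal (cm K l ℓ Q j) := by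
  have h2 : (j : ℝ) * (ℓ / Q) ≤ ((j : ℝ) + 1) * (ℓ / Q) := by
    have : 0 ≤ ℓ / Q := by positivity
    nlinarith
  exact hQM l hl hl8 K hK _ _ h2

theorem J1_mem_wn {E0 ℓ : ℝ} (hℓ : 0 < ℓ) {Q : ℕ} (hQ : 0 < Q) {j : ℤ} :
    j ∈ wn E0 ℓ Q ↔ E0 - 4 * ℓ ≤ (j : ℝ) * (ℓ / Q) ∧ (j : ℝ) * (ℓ / Q) ≤ E0 + 4 * ℓ := by
  have hQ' : (0 : ℝ) < Q := by exact_mod_cast hQ
  unfold wn
  rw [Finset.mem_Icc, Int.ceil_le, Int.le_floor]
  constructor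
  · rintro ⟨h1, h2⟩
    rw [div_le_iff₀ hℓ] at h1
    rw [le_div_iff₀ hℓ] at h2
    constructor
    · rw [← mul_div_assoc, le_div_iff₀ hQ']; exact h1
    · rw [← mul_div_assoc, div_le_iff₀ hQ']; exact h2
  · rintro ⟨h1, h2⟩
    rw [← mul_div_assoc, le_div_iff₀ hQ'] at h1
    rw [← mul_div_assoc, div_le_iff₀ hQ'] at h2
    constructor
    · rw [div_le_iff₀ hℓ]; exact h1
    · rw [le_div_iff₀ hℓ]; exact h2

/-- a block whose mass is at least `μm` contains a typical cell with a regular parameter -/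
theorem J1_exists_typ (hTh : ThProps) (hQM : QMeas) {K : ℕ} (hK : 1 ≤ K) {l : ℝ} (hl : 0 < l)
    (hl8 : l ≤ 1 / 8) {E0 ℓ : ℝ} (hℓ : 0 < ℓ) {Q : ℕ} {Ta : Finset ℤ} {μm δ : ℝ}
    (hμ : 0 < μm) (hδ : δ < 1)
    (hatyp : ∑ j ∈ wn E0 ℓ Q \ Ta, cm K l ℓ Q j ≤ δ * μm) {B : Finset ℤ} (hB : B ⊆ wn E0 ℓ Q)
    (hmass : μm ≤ ∑ j ∈ B, cm K l ℓ Q j) : ∃ j ∈ B, j ∈ Ta ∧ ∃ t, inCell K l ℓ Q j t := by
  classical
  by_contra hcon
  push Not at hcon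
  have h0 : ∀ j ∈ B, j ∈ Ta → cm K l ℓ Q j = 0 := by
    intro j hj hjT
    have h1 := J1_inCell_meas hQM hK hl hl8 hℓ Q j
    have h2 : {t : ℝ | inCell K l ℓ Q j t} = ∅ := by
      ext t
      simp only [Set.mem_ofPred_eq, Set.mem_empty_iff_false, iff_false]
      exact hcon j hj hjT t
    rw [h2, measure_empty] at h1
    have h3 := ENNReal.ofReal_eq_zero.1 h1.symm
    exact le_antisymm h3 (J1_cm_nonneg hTh hl hl8 hℓ Q j)
  have h1 : ∑ j ∈ B, cm K l ℓ Q j = ∑ j ∈ B \ Ta, cm K l ℓ Q j := by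
    symm
    apply Finset.sum_subset Finset.sdiff_subset
    intro j hj hj2
    rw [Finset.mem_sdiff, not_and, not_not] at hj2
    exact h0 j hj (hj2 hj)
  have h2 : ∑ j ∈ B \ Ta, cm K l ℓ Q j ≤ ∑ j ∈ wn E0 ℓ Q \ Ta, cm K l ℓ Q j :=
    Finset.sum_le_sum_of_subset_of_nonneg (Finset.sdiff_subset_sdiff hB (Finset.Subset.refl _))
      (fun j _ _ => J1_cm_nonneg hTh hl hl8 hℓ Q j)
  have h3 : δ * μm < μm := by nlinarith
  linarith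

/-- the construction for fixed parameters -/
theorem J1_loc_build (hTh : ThProps) (hQ : QuantileProps) (hQM : QMeas)
    {CL Ca CE CM CC ka kb C2 C3 C4 N1 m L Lc Q K : ℕ} {θ l E0 ℓ β γ : ℝ}
    (hka : ka = CL + 4) (hC2 : C2 = CL + CM * ka + 1) (hkb : kb = CC + (C2 + 1 + ka))
    (hC3 : Ca + CE * kb ≤ C3)
    (hθ : 0 < θ) (hθ8 : θ ≤ 1 / 8) (hl : 0 < l) (hl8 : l ≤ 1 / 8)
    (hlθ1 : l ≤ θ ^ (2 * CL + 4)) (hlθ2 : l ≤ θ ^ C3) (hCLθ : (CL : ℝ) * θ ≤ 1)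
    (hQ1 : (1 : ℝ) ≤ Q) (hℓ : 0 < ℓ) (hℓ1 : ℓ ≤ 1) (hK : 1 ≤ K) (hm1 : 1 ≤ m)
    (hLin : ∀ E1 E2 : ℝ, E1 ≤ E2 → |E1 - E0| ≤ 6 * ℓ → |E2 - E0| ≤ 6 * ℓ →
      θ ^ CL * ((E2 - E1) / ℓ) - CL * √l ≤ Nat.fib m * (NN K l E1 - NN K l E2))
    (hCC : ∀ E E' : ℝ, |tr K E l| < 1 → |tr K E' l| < 1 → |E - E0| ≤ 5 * ℓ → |E' - E0| ≤ 5 * ℓ →
      |E - E'| ≤ ℓ / Q → |(Vx K E l - β * E) - (Vx K E' l - β * E')| ≤ l * ℓ)
    (hTE : ∀ j ∈ wn E0 ℓ Q, TyC (θ ^ kb) C4 m Lc l (ℓ / Q) j → ∀ t, inCell K l ℓ Q j t →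
      θ ^ (Ca + CE * kb) * |VK K l t - (β * EK K l t + γ)| ≤ l * ℓ)
    (hTM : ∀ j ∈ wn E0 ℓ Q, TyC (θ ^ ka) C4 m Lc l (ℓ / Q) j →
      θ ^ (CM * ka) * (Nat.fib m * cm K l ℓ Q j) ≤ 1 / Q)
    (hAM : ∀ Ta : Finset ℤ, (∀ j ∈ wn E0 ℓ Q, TyC (θ ^ ka) C4 m Lc l (ℓ / Q) j → j ∈ Ta) →
      Nat.fib m * ∑ j ∈ wn E0 ℓ Q \ Ta, cm K l ℓ Q j ≤ θ ^ (ka - 2))
    (hAC : ∀ Ta : Finset ℤ, (∀ j ∈ wn E0 ℓ Q, TyC (θ ^ kb) C4 m Lc l (ℓ / Q) j → j ∈ Ta) →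
      (((wn E0 ℓ Q \ Ta).card : ℕ) : ℝ) ≤ θ ^ (kb - CC) * Q)
    (hNG : ∀ a : ℝ, |a - E0| ≤ 5 * ℓ → |a + ℓ - E0| ≤ 5 * ℓ →
      ∃ w : Set ℝ, MeasurableSet w ∧ (∀ t ∈ w, t ∈ Rg K ∧ a ≤ EK K l t ∧ EK K l t < a + ℓ) ∧
        ENNReal.ofReal (θ ^ (2 * N1) * (NN K l a - NN K l (a + ℓ))) ≤ volume w ∧
        ∀ t ∈ w, 2 * (l * ℓ) ≤ θ ^ N1 * |VK K l t - (β * EK K l t + γ)|) :
    ∃ (μm : ℝ) (Ta Tb : Finset ℤ),
      LocData K l E0 ℓ Q β γ (l * ℓ / θ ^ C3) (l * ℓ / θ ^ N1) (1 / θ ^ C2) μm θ (θ ^ (2 * N1))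
        Ta Tb := by
  classical
  have hθ1 : θ ≤ 1 := by linarith
  have hpow : ∀ {a b : ℕ}, a ≤ b → θ ^ b ≤ θ ^ a := fun h => pow_le_pow_of_le_one hθ.le hθ1 h
  have hl1 : l ≤ 1 := by linarith
  have hm : 0 < Nat.fib m := Nat.fib_pos.2 (by omega)
  have hF : (0 : ℝ) < Nat.fib m := by exact_mod_cast hm
  have hQ0 : 0 < Q := by
    rcases Nat.eq_zero_or_pos Q with h | h
    · rw [h] at hQ1; norm_num at hQ1
    · exact h
  have hQp : (0 : ℝ) < Q := by linarith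
  have hcell : 0 < ℓ / Q := by positivity
  have hcell1 : ℓ / Q ≤ ℓ := div_le_self hℓ.le hQ1
  have hcm := fun j => J1_cm_nonneg hTh hl hl8 hℓ Q j (K := K)
  obtain ⟨Ta, hTa⟩ : ∃ Ta : Finset ℤ, Ta = (wn E0 ℓ Q).filter
    (fun j => TyC (θ ^ ka) C4 m Lc l (ℓ / Q) j) := ⟨_, rfl⟩
  obtain ⟨Tb, hTb⟩ : ∃ Tb : Finset ℤ, Tb = (wn E0 ℓ Q).filter
    (fun j => TyC (θ ^ kb) C4 m Lc l (ℓ / Q) j) := ⟨_, rfl⟩
  obtain ⟨μm, hμm⟩ : ∃ μm : ℝ, μm = θ ^ CL / (2 * Nat.fib m) := ⟨_, rfl⟩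
  have hμ0 : 0 < μm := by rw [hμm]; positivity
  have hμF : (Nat.fib m : ℝ) * μm = θ ^ CL / 2 := by
    rw [hμm]; field_simp
  have hTaTb : Ta ⊆ Tb := by
    intro j hj
    rw [hTa, Finset.mem_filter] at hj
    rw [hTb, Finset.mem_filter]
    exact ⟨hj.1, J1_TyC_mono (by positivity) (hpow (by omega)) hj.2⟩
  have hTbw : Tb ⊆ wn E0 ℓ Q := by rw [hTb]; exact Finset.filter_subset _ _
  have hTyp : ∀ j ∈ Tb, ∀ t, inCell K l ℓ Q j t →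
      |VK K l t - (β * EK K l t + γ)| ≤ l * ℓ / θ ^ C3 := by
    intro j hj t ht
    rw [hTb, Finset.mem_filter] at hj
    have h := hTE j hj.1 hj.2 t ht
    rw [le_div_iff₀ (by positivity)]
    have h2 : θ ^ C3 ≤ θ ^ (Ca + CE * kb) := hpow hC3
    calc |VK K l t - (β * EK K l t + γ)| * θ ^ C3
        ≤ |VK K l t - (β * EK K l t + γ)| * θ ^ (Ca + CE * kb) :=
          mul_le_mul_of_nonneg_left h2 (abs_nonneg _)
      _ = θ ^ (Ca + CE * kb) * |VK K l t - (β * EK K l t + γ)| := mul_comm _ _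
      _ ≤ l * ℓ := h
  have hAmass : ∑ j ∈ wn E0 ℓ Q \ Ta, cm K l ℓ Q j ≤ θ * μm := by
    have h := hAM Ta (fun j hj hT => by rw [hTa, Finset.mem_filter]; exact ⟨hj, hT⟩)
    have h2 : ka - 2 = CL + 2 := by omega
    rw [h2] at h
    have h3 : θ ^ (CL + 2) ≤ θ * (θ ^ CL / 2) := by
      have : θ ^ (CL + 2) = θ ^ CL * (θ * θ) := by ring
      rw [this]
      have h4 : θ * θ ≤ θ * (1 / 2) := by nlinarith
      nlinarith [pow_pos hθ CL]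
    have h5 : (Nat.fib m : ℝ) * ∑ j ∈ wn E0 ℓ Q \ Ta, cm K l ℓ Q j ≤ Nat.fib m * (θ * μm) := by
      calc (Nat.fib m : ℝ) * ∑ j ∈ wn E0 ℓ Q \ Ta, cm K l ℓ Q j ≤ θ ^ (CL + 2) := h
        _ ≤ θ * (θ ^ CL / 2) := h3
        _ = Nat.fib m * (θ * μm) := by rw [← hμF]; ring
    exact le_of_mul_le_mul_left h5 hF
  have hblock : ∀ a : ℤ, Finset.Ico a (a + Q) ⊆ wn E0 ℓ Q →
      E0 - 4 * ℓ ≤ (a : ℝ) * (ℓ / Q) ∧ ((a : ℝ) + Q) * (ℓ / Q) ≤ E0 + 5 * ℓ ∧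
      ((a : ℝ) + Q) * (ℓ / Q) = (a : ℝ) * (ℓ / Q) + ℓ := by
    intro a ha
    have h1 : a ∈ Finset.Ico a (a + (Q : ℤ)) := by
      rw [Finset.mem_Ico]; exact ⟨le_refl _, by omega⟩
    have h2 : a + (Q : ℤ) - 1 ∈ Finset.Ico a (a + (Q : ℤ)) := by
      rw [Finset.mem_Ico]; exact ⟨by omega, by omega⟩
    have h3 := (J1_mem_wn hℓ hQ0).1 (ha h1)
    have h4 := (J1_mem_wn hℓ hQ0).1 (ha h2)
    have h5 : ((a : ℝ) + Q) * (ℓ / Q) = (a : ℝ) * (ℓ / Q) + ℓ := by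
      rw [add_mul, mul_div_cancel₀ _ hQp.ne']
    refine ⟨h3.1, ?_, h5⟩
    have h6 := h4.2
    push_cast at h6
    have h7 : ((a : ℝ) + Q) * (ℓ / Q) = ((a : ℝ) + Q - 1) * (ℓ / Q) + ℓ / Q := by ring
    rw [h7]
    linarith
  have hblockmass : ∀ a : ℤ, Finset.Ico a (a + Q) ⊆ wn E0 ℓ Q →
      μm ≤ ∑ j ∈ Finset.Ico a (a + Q), cm K l ℓ Q j := by
    intro a ha
    obtain ⟨h1, h2, h3⟩ := hblock a ha
    rw [J1_cm_sum]
    have h4 := (hLin ((a : ℝ) * (ℓ / Q)) (((a : ℝ) + Q) * (ℓ / Q)) (by rw [h3]; linarith)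
      (by rw [abs_le]; constructor <;> linarith) (by rw [abs_le]; constructor <;> linarith))
    have h5 : ((((a : ℝ) + Q) * (ℓ / Q) - (a : ℝ) * (ℓ / Q)) / ℓ) = 1 := by
      rw [h3]
      rw [add_sub_cancel_left]
      exact div_self hℓ.ne'
    rw [h5, mul_one] at h4
    have hsq : √l ≤ θ ^ (CL + 2) := by
      rw [Real.sqrt_le_left (by positivity)]
      calc l ≤ θ ^ (2 * CL + 4) := hlθ1
        _ = (θ ^ (CL + 2)) ^ 2 := by ring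
    have h6 : (CL : ℝ) * √l ≤ θ ^ CL / 2 := by
      calc (CL : ℝ) * √l ≤ CL * θ ^ (CL + 2) := mul_le_mul_of_nonneg_left hsq (by positivity)
        _ = (CL * θ) * (θ * θ ^ CL) := by ring
        _ ≤ 1 * (θ * θ ^ CL) := mul_le_mul_of_nonneg_right hCLθ (by positivity)
        _ ≤ θ ^ CL / 2 := by nlinarith [pow_pos hθ CL]
    have h7 : (Nat.fib m : ℝ) * μm ≤ Nat.fib m * (NN K l ((a : ℝ) * (ℓ / Q))
        - NN K l (((a : ℝ) + Q) * (ℓ / Q))) := by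
      rw [hμF]; linarith
    exact le_of_mul_le_mul_left h7 hF
  refine ⟨μm, Ta, Tb, ?_⟩
  refine
    { sub1 := hTaTb
      sub2 := hTbw
      mupos := hμ0
      slope := ?_
      typ_err := hTyp
      atyp_mass := hAmass
      atyp_card := ?_
      typ_mass := ?_
      block_mass := hblockmass
      near := ?_ }
  · -- slope
    obtain ⟨a, ha⟩ : ∃ a : ℤ, a = ⌈(E0 - 4 * ℓ) * Q / ℓ⌉ := ⟨_, rfl⟩
    have ha1 : E0 - 4 * ℓ ≤ (a : ℝ) * (ℓ / Q) := by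
      have h1 : (E0 - 4 * ℓ) * Q / ℓ ≤ a := by rw [ha]; exact Int.le_ceil _
      rw [div_le_iff₀ hℓ] at h1
      rw [← mul_div_assoc, le_div_iff₀ hQp]; exact h1
    have ha2 : (a : ℝ) * (ℓ / Q) ≤ E0 - 4 * ℓ + ℓ / Q := by
      have h1 : (a : ℝ) < (E0 - 4 * ℓ) * Q / ℓ + 1 := by rw [ha]; exact Int.ceil_lt_add_one _
      have h2 : (a : ℝ) * (ℓ / Q) ≤ ((E0 - 4 * ℓ) * Q / ℓ + 1) * (ℓ / Q) :=
        mul_le_mul_of_nonneg_right h1.le hcell.le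
      have h3 : ((E0 - 4 * ℓ) * Q / ℓ + 1) * (ℓ / Q) = E0 - 4 * ℓ + ℓ / Q := by
        field_simp
      linarith
    have hQc : (Q : ℝ) * (ℓ / Q) = ℓ := mul_div_cancel₀ _ hQp.ne'
    have hB1 : Finset.Ico a (a + (Q : ℤ)) ⊆ wn E0 ℓ Q := by
      intro j hj
      rw [Finset.mem_Ico] at hj
      rw [J1_mem_wn hℓ hQ0]
      have h1 : (a : ℝ) ≤ j := by exact_mod_cast hj.1
      have h2 : (j : ℝ) ≤ a + Q := by exact_mod_cast hj.2.le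
      have h3 := mul_le_mul_of_nonneg_right h1 hcell.le
      have h4 := mul_le_mul_of_nonneg_right h2 hcell.le
      rw [add_mul, hQc] at h4
      constructor <;> linarith
    have hB2 : Finset.Ico (a + 5 * (Q : ℤ)) (a + 5 * (Q : ℤ) + (Q : ℤ)) ⊆ wn E0 ℓ Q := by
      intro j hj
      rw [Finset.mem_Ico] at hj
      rw [J1_mem_wn hℓ hQ0]
      have h1 : (a : ℝ) + 5 * Q ≤ j := by exact_mod_cast hj.1
      have h2 : (j : ℝ) ≤ a + 5 * Q + Q := by exact_mod_cast hj.2.le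
      have h3 := mul_le_mul_of_nonneg_right h1 hcell.le
      have h4 := mul_le_mul_of_nonneg_right h2 hcell.le
      rw [add_mul, mul_assoc, hQc] at h3
      rw [add_mul, add_mul, mul_assoc, hQc] at h4
      constructor <;> linarith
    have hδ : θ < 1 := by linarith
    obtain ⟨j1, hj1, hj1T, t1, ht1⟩ := J1_exists_typ hTh hQM hK hl hl8 hℓ hμ0 hδ hAmass hB1
      (hblockmass _ hB1)
    obtain ⟨j2, hj2, hj2T, t2, ht2⟩ := J1_exists_typ hTh hQM hK hl hl8 hℓ hμ0 hδ hAmass hB2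
      (hblockmass _ hB2)
    have e1 := hTyp j1 (hTaTb hj1T) t1 ht1
    have e2 := hTyp j2 (hTaTb hj2T) t2 ht2
    have herr : l * ℓ / θ ^ C3 ≤ 1 := by
      rw [div_le_one (by positivity)]
      nlinarith [pow_pos hθ C3]
    have v1 := (hQ K hK).2.2.2.1 l hl hl8 t1 ht1.1
    have v2 := (hQ K hK).2.2.2.1 l hl hl8 t2 ht2.1
    have hE1 : EK K l t1 ≤ (a : ℝ) * (ℓ / Q) + ℓ := by
      have h1 : (j1 : ℝ) + 1 ≤ a + Q := by
        have := (Finset.mem_Ico.1 hj1).2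
        exact_mod_cast (by omega : j1 + 1 ≤ a + Q)
      have h2 := mul_le_mul_of_nonneg_right h1 hcell.le
      rw [add_mul (a : ℝ), hQc] at h2
      linarith [ht1.2.2]
    have hE2 : (a : ℝ) * (ℓ / Q) + 5 * ℓ ≤ EK K l t2 := by
      have h1 : (a : ℝ) + 5 * Q ≤ j2 := by exact_mod_cast (Finset.mem_Ico.1 hj2).1
      have h2 := mul_le_mul_of_nonneg_right h1 hcell.le
      rw [add_mul, mul_assoc, hQc] at h2
      linarith [ht2.2.1]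
    have hD : |β * (EK K l t2 - EK K l t1)| ≤ 3 := by
      rw [abs_le] at e1 e2 ⊢
      constructor <;> nlinarith [e1.1, e1.2, e2.1, e2.2, v1.1, v1.2, v2.1, v2.2]
    rw [abs_mul, abs_of_nonneg (by linarith : 0 ≤ EK K l t2 - EK K l t1)] at hD
    nlinarith [abs_nonneg β]
  · -- atyp_card
    have h := hAC Tb (fun j hj hT => by rw [hTb, Finset.mem_filter]; exact ⟨hj, hT⟩)
    have h2 : kb - CC = C2 + 1 + ka := by omega
    rw [h2] at h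
    refine h.trans ?_
    apply mul_le_mul_of_nonneg_right _ hQp.le
    have h3 : θ / (1 / θ ^ C2) = θ ^ (C2 + 1) := by
      rw [div_div_eq_mul_div, div_one]; ring
    rw [h3]
    exact hpow (by omega)
  · -- typ_mass
    intro j hj
    have hj' := hj
    rw [hTa, Finset.mem_filter] at hj'
    have h := hTM j hj'.1 hj'.2
    have h1 : 1 / θ ^ C2 / Q * μm = θ ^ CL / (2 * θ ^ C2 * Q * Nat.fib m) := by
      rw [hμm]; field_simp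
    rw [h1, le_div_iff₀ (by positivity)]
    have h2 : θ ^ C2 = θ ^ CL * θ ^ (CM * ka) * θ := by
      rw [hC2]; ring
    rw [h2]
    have h3 : θ ^ (CM * ka) * (Nat.fib m * cm K l ℓ Q j) * Q ≤ 1 := by
      rw [le_div_iff₀ hQp] at h
      exact h
    have h4 : cm K l ℓ Q j * (2 * (θ ^ CL * θ ^ (CM * ka) * θ) * Q * Nat.fib m)
        = (2 * θ) * θ ^ CL * (θ ^ (CM * ka) * (Nat.fib m * cm K l ℓ Q j) * Q) := by ring
    rw [h4]
    have h5 : (2 * θ) * θ ^ CL * (θ ^ (CM * ka) * (Nat.fib m * cm K l ℓ Q j) * Q)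
        ≤ (2 * θ) * θ ^ CL * 1 := mul_le_mul_of_nonneg_left h3 (by positivity)
    have h6 : (2 * θ) * θ ^ CL * 1 ≤ θ ^ CL := by nlinarith [pow_pos hθ CL]
    linarith
  · -- near
    intro a ha
    obtain ⟨h1, h2, h3⟩ := hblock a ha
    rw [h3] at h2
    obtain ⟨w, hwm, hw1, hw2, hw3⟩ := hNG ((a : ℝ) * (ℓ / Q))
      (by rw [abs_le]; constructor <;> linarith) (by rw [abs_le]; constructor <;> linarith)
    obtain ⟨Ng, hNg⟩ : ∃ Ng : Finset ℤ, Ng = (Finset.Ico a (a + (Q : ℤ))).filter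
      (fun j => ∃ t ∈ w, inCell K l ℓ Q j t) := ⟨_, rfl⟩
    refine ⟨Ng, by rw [hNg]; exact Finset.filter_subset _ _, ?_, ?_⟩
    · rw [J1_cm_sum, h3]
      have hcov : w ⊆ ⋃ j ∈ Ng, {t : ℝ | inCell K l ℓ Q j t} := by
        intro t ht
        obtain ⟨r1, r2, r3⟩ := hw1 t ht
        obtain ⟨j, hj⟩ : ∃ j : ℤ, j = ⌊EK K l t / (ℓ / Q)⌋ := ⟨_, rfl⟩
        have hj1 : (j : ℝ) * (ℓ / Q) ≤ EK K l t := by
          rw [← le_div_iff₀ hcell, hj]; exact Int.floor_le _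
        have hj2 : EK K l t < ((j : ℝ) + 1) * (ℓ / Q) := by
          rw [← div_lt_iff₀ hcell, hj]; exact Int.lt_floor_add_one _
        have hin : inCell K l ℓ Q j t := ⟨r1, hj1, hj2⟩
        have hmem : j ∈ Finset.Ico a (a + (Q : ℤ)) := by
          rw [Finset.mem_Ico]
          constructor
          · rw [hj, Int.le_floor, le_div_iff₀ hcell]; exact r2
          · rw [hj, Int.floor_lt, div_lt_iff₀ hcell]
            push_cast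
            rw [h3]; exact r3
        simp only [Set.mem_iUnion, Set.mem_ofPred_eq]
        refine ⟨j, ?_, hin⟩
        rw [hNg, Finset.mem_filter]
        exact ⟨hmem, t, ht, hin⟩
      have hvol : volume w ≤ ENNReal.ofReal (∑ j ∈ Ng, cm K l ℓ Q j) := by
        calc volume w ≤ volume (⋃ j ∈ Ng, {t : ℝ | inCell K l ℓ Q j t}) := measure_mono hcov
          _ ≤ ∑ j ∈ Ng, volume {t : ℝ | inCell K l ℓ Q j t} := measure_biUnion_finset_le _ _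
          _ = ∑ j ∈ Ng, ENNReal.ofReal (cm K l ℓ Q j) :=
              Finset.sum_congr rfl (fun j _ => J1_inCell_meas hQM hK hl hl8 hℓ Q j)
          _ = ENNReal.ofReal (∑ j ∈ Ng, cm K l ℓ Q j) :=
              (ENNReal.ofReal_sum_of_nonneg (fun j _ => hcm j)).symm
      have h4 := hw2.trans hvol
      exact (ENNReal.ofReal_le_ofReal_iff (Finset.sum_nonneg (fun j _ => hcm j))).1 h4
    · intro j hj t ht
      rw [hNg, Finset.mem_filter] at hj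
      obtain ⟨hj1, t', ht'w, ht'⟩ := hj
      have hjw := (J1_mem_wn hℓ hQ0).1 (ha hj1)
      have hb := hw3 t' ht'w
      have tr1 := J1_tr_lt_of_Rg hTh hQ hK hl hl8 ht.1
      have tr2 := J1_tr_lt_of_Rg hTh hQ hK hl hl8 ht'.1
      have x1 := ht.2.1
      have x2 := ht.2.2
      have x3 := ht'.2.1
      have x4 := ht'.2.2
      have x5 : ((j : ℝ) + 1) * (ℓ / Q) = (j : ℝ) * (ℓ / Q) + ℓ / Q := by ring
      rw [x5] at x2 x4
      have hc := hCC (EK K l t) (EK K l t') tr1 tr2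
        (by rw [abs_le]; constructor <;> linarith) (by rw [abs_le]; constructor <;> linarith)
        (by rw [abs_le]; constructor <;> linarith)
      have hc' : |(VK K l t - (β * EK K l t + γ)) - (VK K l t' - (β * EK K l t' + γ))| ≤ l * ℓ := by
        have : (VK K l t - (β * EK K l t + γ)) - (VK K l t' - (β * EK K l t' + γ))
            = (Vx K (EK K l t) l - β * EK K l t) - (Vx K (EK K l t') l - β * EK K l t') := by
          unfold VK; ring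
        rw [this]; exact hc
      have hθN1 : θ ^ N1 ≤ 1 := pow_le_one₀ hθ.le hθ1
      have hp : 0 < θ ^ N1 := by positivity
      rw [div_le_iff₀ hp]
      have habs : |VK K l t' - (β * EK K l t' + γ)| - l * ℓ ≤ |VK K l t - (β * EK K l t + γ)| := by
        have := abs_sub_abs_le_abs_sub (VK K l t' - (β * EK K l t' + γ))
          (VK K l t - (β * EK K l t + γ))
        rw [abs_sub_comm (VK K l t' - (β * EK K l t' + γ)) (VK K l t - (β * EK K l t + γ))] at this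
        linarith
      have hlℓ : 0 < l * ℓ := by positivity
      nlinarith

theorem locP (hQ : QMeas) (hP : QuantileProps) (hT : ThProps) (h1 : LocLin) (h2 : LocAff) (h3 : CellClose) (h4 : TypErr) (h5 : TypMass)
    (h6 : AtypMass) (h7 : AtypCard) (h8 : NearGapP) : LocP := by
  classical
  obtain ⟨c1L, hLin⟩ := h1
  obtain ⟨c1A, hAff⟩ := h2
  obtain ⟨c1C, hCC⟩ := h3
  obtain ⟨c1T, c4T, hTE⟩ := h4
  obtain ⟨c1M, c4M, hTM⟩ := h5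
  obtain ⟨c1U, c4U, hAM⟩ := h6
  obtain ⟨c1K, c4K, hAC⟩ := h7
  obtain ⟨c1N, hNG⟩ := h8
  obtain ⟨C1, hC1⟩ : ∃ C1 : ℕ, C1 = c1L + c1A + c1C + c1T + c1M + c1U + c1K + c1N := ⟨_, rfl⟩
  obtain ⟨C4, hC4⟩ : ∃ C4 : ℕ, C4 = c4T + c4M + c4U + c4K := ⟨_, rfl⟩
  obtain ⟨CL, NL, hLin⟩ := hLin C1 (by omega)
  obtain ⟨Ca, NA, hAff⟩ := hAff C1 (by omega)
  obtain ⟨NC, hCC⟩ := hCC C1 (by omega) Ca
  obtain ⟨CE, hTE⟩ := hTE C1 C4 (by omega) (by omega)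
  obtain ⟨CM, hTM⟩ := hTM C1 C4 (by omega) (by omega)
  have hAM := hAM C1 C4 (by omega) (by omega)
  obtain ⟨CC, hAC⟩ := hAC C1 C4 (by omega) (by omega)
  obtain ⟨CN, hNG⟩ := hNG C1 (by omega) Ca
  obtain ⟨ka, hka⟩ : ∃ ka : ℕ, ka = CL + 4 := ⟨_, rfl⟩
  obtain ⟨C2, hC2⟩ : ∃ C2 : ℕ, C2 = CL + CM * ka + 1 := ⟨_, rfl⟩
  obtain ⟨kb, hkb⟩ : ∃ kb : ℕ, kb = CC + (C2 + 1 + ka) := ⟨_, rfl⟩
  obtain ⟨C3, hC3⟩ : ∃ C3 : ℕ, C3 = (Ca + CE * kb) + CN := ⟨_, rfl⟩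
  obtain ⟨NT, hTE⟩ := hTE kb (by omega) Ca
  obtain ⟨NM, hTM⟩ := hTM ka (by omega)
  obtain ⟨NU, hAM⟩ := hAM ka (by omega)
  obtain ⟨NK, hAC⟩ := hAC kb (by omega)
  refine ⟨C1, C2, C3, fun N1 hN1 => ?_⟩
  obtain ⟨NG, hNG⟩ := hNG N1 (by omega)
  obtain ⟨N0, hN0⟩ : ∃ N0 : ℕ, N0 = NL + NA + NC + NT + NM + NU + NK + NG + (2 * CL + 4) + C3 + 1 :=
    ⟨_, rfl⟩
  refine ⟨N0, 1 / ((N0 : ℝ) + 8), by positivity, ?_⟩
  intro θ l hθ hθ0 hl hlθ L Lc Q K m hL hQL hLc hLcθ E0 ℓ hℓ hℓ1 hG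
  -- basic facts
  have hN0p : (0 : ℝ) ≤ N0 := by positivity
  have hθN : θ * ((N0 : ℝ) + 8) < 1 := by
    rwa [lt_div_iff₀ (by positivity)] at hθ0
  have hθ8 : θ ≤ 1 / 8 := by nlinarith
  have hθ1 : θ ≤ 1 := by linarith
  have hNθ : (N0 : ℝ) * θ ≤ 1 := by nlinarith
  have hpow : ∀ {a b : ℕ}, a ≤ b → θ ^ b ≤ θ ^ a := fun h => pow_le_pow_of_le_one hθ.le hθ1 h
  have hl8 : l ≤ 1 / 8 := by
    have : θ ^ N0 ≤ θ ^ 1 := hpow (by omega)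
    rw [pow_one] at this
    linarith
  have hl1 : l ≤ 1 := by linarith
  have hLH : LH N0 C1 θ l L Lc Q K m E0 ℓ :=
    ⟨hθ, hNθ, hl, hlθ, hL, hQL, hLc, hLcθ, hℓ, hℓ1, hG⟩
  have hLHN : ∀ N, N ≤ N0 → LH N C1 θ l L Lc Q K m E0 ℓ := fun N hN =>
    J1_LH_mono hN hθ1 hl1 hLH
  have hG' := hG
  obtain ⟨hG1, hG2, hG3, hG4, hG5, hG6⟩ := hG'
  have hQ1 : (1 : ℝ) ≤ Q := by
    have h9 : (1 : ℝ) ≤ (9 : ℝ) ^ (2 * L) := one_le_pow₀ (by norm_num)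
    have hinv : 1 ≤ 1 / l := by
      rw [le_div_iff₀ hl]; linarith
    have hp : (1 : ℝ) ≤ (1 / l) ^ N0 := one_le_pow₀ hinv
    nlinarith
  -- the affine function
  obtain ⟨β, γ, hβ1, hβ2⟩ := hAff θ l L Lc Q K m E0 ℓ (hLHN NA (by omega))
  obtain ⟨μm, Ta, Tb, h⟩ := J1_loc_build (N1 := N1) (L := L) (C3 := C3) hT hP hQ hka hC2 hkb (by omega)
    hθ hθ8 hl hl8
    (hlθ.trans (hpow (by omega))) (hlθ.trans (hpow (by omega)))
    (by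
      have : (CL : ℝ) ≤ N0 := by exact_mod_cast (by omega : CL ≤ N0)
      nlinarith)
    hQ1 hℓ hℓ1 (by omega) (by omega)
    (fun E1 E2 h1 h2 h3 => (hLin θ l L Lc Q K m E0 ℓ (hLHN NL (by omega)) E1 E2 h1 h2 h3).1)
    (hCC θ l L Lc Q K m E0 ℓ (hLHN NC (by omega)) β hβ2)
    (hTE θ l L Lc Q K m E0 ℓ (hLHN NT (by omega)) β γ hβ1)
    (hTM θ l L Lc Q K m E0 ℓ (hLHN NM (by omega)))
    (hAM θ l L Lc Q K m E0 ℓ (hLHN NU (by omega)))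
    (hAC θ l L Lc Q K m E0 ℓ (hLHN NK (by omega)))
    (hNG θ l L Lc Q K m E0 ℓ (hLHN NG (by omega)) β γ hβ1)
  exact ⟨β, γ, μm, Ta, Tb, h⟩

end FIB
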