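import Pool.Agent.Helper75.FIB.Iface2

/-!
# FIB block J3 : abstract tree lemma

For `p ∈ S n` and `k : ℕ` let `D n p k` = sum of `w nt q` over `q ∈ S nt` with `par^[nt-n] q = p` and at least `k` of the indices `n' ∈ [n,nt)` with `good n' (par^[nt-n'] q)`. Claim `D n p k <= (1-κ)^k w n p` by downward induction on `n` (for all `k`): for `n = nt`: `k = 0` trivial, `k >= 1` empty sum. Step: the `q` are split according to `p' = par^[nt-n-1] q ∈ S (n+1)`, `par p' = p`
(membership in `S (n+1)`: iterate the hypothesis `par p ∈ S n`). If `good n p` (and `k >= 1`): `D n p k <= Σ_{p'} D (n+1) p' (k-1) <= (1-κ)^{k-1} Σ w (n+1) p' <= (1-κ)^k w n p`; if not good: `D n p k <= Σ D (n+1) p' k <= (1-κ)^k Σ w(n+1) p' <= (1-κ)^k w n p`. Finally sum over `p ∈ S 0` with `k = M`.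
-/

namespace FIB

open Real MeasureTheory Set Filter Topology

theorem treeP : TreeP := by
  classical
  intro ι _ nt M κ par w S good hκ0 hκ1 hw hpar hsum hgood hM
  -- the index sets
  set A : ℕ → ι → Set ℕ := fun n q => {n' | n ≤ n' ∧ n' < nt ∧ good n' (par^[nt - n'] q)} with hA
  have hAfin : ∀ n q, (A n q).Finite := fun n q =>
    (Set.finite_lt_nat nt).subset fun x hx => hx.2.1
  have hmem : ∀ d ≤ nt, ∀ q ∈ S nt, par^[d] q ∈ S (nt - d) := by
    intro d
    induction d with
    | zero => intro _ q hq; simpa using hq
    | succ d ih =>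
      intro hd q hq
      rw [Function.iterate_succ_apply']
      have h1 := ih (by omega) q hq
      have h2 := hpar (nt - (d + 1)) (by omega) (par^[d] q)
        (by rw [show nt - (d + 1) + 1 = nt - d by omega]; exact h1)
      exact h2
  have key : ∀ d ≤ nt, ∀ p ∈ S (nt - d), ∀ k : ℕ,
      ∑ q ∈ (S nt).filter (fun q => par^[d] q = p ∧ k ≤ (A (nt - d) q).ncard), w nt q ≤
        (1 - κ) ^ k * w (nt - d) p := by
    intro d
    induction d with
    | zero =>
      intro _ p hp k
      have hA0 : ∀ q, A (nt - 0) q = ∅ := by
        intro q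
        ext x
        simp only [hA, Set.mem_setOf_eq, Set.mem_empty_iff_false, iff_false, not_and]
        omega
      rcases Nat.eq_zero_or_pos k with hk | hk
      · subst hk
        have : (S nt).filter (fun q => par^[0] q = p ∧ 0 ≤ (A (nt - 0) q).ncard) ⊆ {p} := by
          intro q hq
          simp only [Finset.mem_filter, Function.iterate_zero, id_eq] at hq
          simpa using hq.2.1
        refine (Finset.sum_le_sum_of_subset_of_nonneg this fun q _ _ => hw nt q).trans ?_
        simp
      · have : (S nt).filter (fun q => par^[0] q = p ∧ k ≤ (A (nt - 0) q).ncard) = ∅ := by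
          rw [Finset.filter_eq_empty_iff]
          rintro q _ ⟨_, h2⟩
          rw [hA0 q, Set.ncard_empty] at h2
          omega
        rw [this, Finset.sum_empty]
        exact mul_nonneg (pow_nonneg (by linarith) _) (hw _ _)
    | succ d ih =>
      intro hd p hp k
      have hn : nt - (d + 1) < nt := by omega
      have hn1 : nt - (d + 1) + 1 = nt - d := by omega
      -- splitting
      have split : ∀ k' : ℕ, (∀ q ∈ S nt, par^[d + 1] q = p → k ≤ (A (nt - (d + 1)) q).ncard →
          k' ≤ (A (nt - d) q).ncard) →
          ∑ q ∈ (S nt).filter (fun q => par^[d + 1] q = p ∧ k ≤ (A (nt - (d + 1)) q).ncard), w nt q ≤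
          (1 - κ) ^ k' * ∑ p' ∈ (S (nt - d)).filter (fun p' => par p' = p), w (nt - d) p' := by
        intro k' hk'
        have hmaps : ∀ q ∈ (S nt).filter (fun q => par^[d + 1] q = p ∧
            k ≤ (A (nt - (d + 1)) q).ncard),
            par^[d] q ∈ (S (nt - d)).filter (fun p' => par p' = p) := by
          intro q hq
          rw [Finset.mem_filter] at hq ⊢
          refine ⟨hmem d (by omega) q hq.1, ?_⟩
          have h3 : par (par^[d] q) = par^[d + 1] q := (Function.iterate_succ_apply' par d q).symm
          rw [h3]
          exact hq.2.1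
        rw [← Finset.sum_fiberwise_of_maps_to hmaps, Finset.mul_sum]
        refine Finset.sum_le_sum fun p' hp' => ?_
        rw [Finset.mem_filter] at hp'
        refine le_trans (Finset.sum_le_sum_of_subset_of_nonneg ?_ fun q _ _ => hw nt q)
          (ih (by omega) p' hp'.1 k')
        intro q hq
        simp only [Finset.mem_filter] at hq ⊢
        exact ⟨hq.1.1, hq.2, hk' q hq.1.1 hq.1.2.1 hq.1.2.2⟩
      have hsub : ∀ q, A (nt - (d + 1)) q ⊆ insert (nt - (d + 1)) (A (nt - d) q) := by
        intro q x hx
        simp only [hA, Set.mem_setOf_eq, Set.mem_insert_iff] at hx ⊢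
        by_cases h : x = nt - (d + 1)
        · exact Or.inl h
        · exact Or.inr ⟨by omega, hx.2.1, hx.2.2⟩
      by_cases hg : good (nt - (d + 1)) p
      · rcases Nat.eq_zero_or_pos k with hk | hk
        · subst hk
          refine (split 0 fun q _ _ _ => Nat.zero_le _).trans ?_
          have := hsum (nt - (d + 1)) hn p hp
          rw [hn1] at this
          simpa using this
        · refine (split (k - 1) fun q _ _ hkq => ?_).trans ?_
          · have h1 := Set.ncard_le_ncard (hsub q) ((hAfin _ q).insert _)
            have h2 := Set.ncard_insert_le (nt - (d + 1)) (A (nt - d) q)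
            omega
          · have h1 := hgood (nt - (d + 1)) hn p hp hg
            rw [hn1] at h1
            calc (1 - κ) ^ (k - 1) * ∑ p' ∈ (S (nt - d)).filter (fun p' => par p' = p), w (nt - d) p'
                ≤ (1 - κ) ^ (k - 1) * ((1 - κ) * w (nt - (d + 1)) p) :=
                  mul_le_mul_of_nonneg_left h1 (pow_nonneg (by linarith) _)
              _ = (1 - κ) ^ (k - 1 + 1) * w (nt - (d + 1)) p := by ring
              _ = (1 - κ) ^ k * w (nt - (d + 1)) p := by rw [Nat.sub_add_cancel hk]
      · refine (split k fun q hq hqp hkq => ?_).trans ?_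
        · have hne : A (nt - (d + 1)) q ⊆ A (nt - d) q := by
            intro x hx
            rcases hsub q hx with h | h
            · exfalso
              subst h
              apply hg
              have h2 := hx.2.2
              rw [show nt - (nt - (d + 1)) = d + 1 by omega, hqp] at h2
              exact h2
            · exact h
          exact hkq.trans (Set.ncard_le_ncard hne (hAfin _ q))
        · have h1 := hsum (nt - (d + 1)) hn p hp
          rw [hn1] at h1
          exact mul_le_mul_of_nonneg_left h1 (pow_nonneg (by linarith) _)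
  have h0 : ∀ q ∈ S nt, par^[nt] q ∈ S 0 := by
    intro q hq
    have := hmem nt le_rfl q hq
    simpa using this
  rw [← Finset.sum_fiberwise_of_maps_to h0, Finset.mul_sum]
  refine Finset.sum_le_sum fun p hp => ?_
  have h1 := key nt le_rfl p (by simpa using hp) M
  rw [Nat.sub_self] at h1
  refine le_trans (Finset.sum_le_sum_of_subset_of_nonneg ?_ fun q _ _ => hw nt q) h1
  intro q hq
  rw [Finset.mem_filter] at hq ⊢
  refine ⟨hq.1, hq.2, ?_⟩
  have h2 := hM q hq.1
  have h3 : {n : ℕ | n < nt ∧ good n (par^[nt - n] q)} = A 0 q := by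
    ext x
    simp [hA]
  rw [h3] at h2
  exact h2

end FIB
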