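import Pool.Agent.Helper75.FIB.Iface3

/-!
# FIB block Ja : integrated density of states in the window

`GoodAt` : `rho m E0 ℓ <= θ^C1 <= 9 rho m E0 ℓ`, `Tw θ (m-L) (m+8) E0` with `L >= 8` (since `φ^L >= (1/l)^{N0}`). `|E - E0| <= 6ℓ` gives `|E-E0| rho m <= 6 θ^C1 <= θ^{C'}` for `C1 >= C'+1`, so `ThLin` applies: `Th m E1 - Th m E2` is between `(E2-E1)τ/2` and `2(E2-E1)τ`, `τ = |trE m|/sqrt(1-tr^2) ∈ [θ^{C'} rho m, rho m/θ]`, so `τ ℓ ∈ [θ^{C'+C1}/9, θ^{C1-1}]`.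
`NBound` (`n = m <= K`): `|Th m E - π F_m NN K l E| <= C''√l`. Subtract. (`θ` small, `2θ^{C1-1}/π <= θ`.)
-/

namespace FIB

open Real MeasureTheory Set Filter Topology

theorem ph_lt_two97 : ph < 2 := by
  unfold ph
  have h : Real.sqrt 5 < 3 := by
    rw [Real.sqrt_lt' (by norm_num)]
    norm_num
  linarith

theorem ph_pos97 : 0 < ph := by unfold ph; positivity

/-- `L ≥ 8` from the growth hypothesis -/
theorem eight_le_L97 (N0 L : ℕ) (θ l : ℝ) (hN0 : 8 ≤ N0) (hθ : 0 < θ) (hNθ : (N0 : ℝ) * θ ≤ 1)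
    (hl : 0 < l) (hlθ : l ≤ θ ^ N0) (hL : (1 / l) ^ N0 ≤ ph ^ L) : 8 ≤ L := by
  by_contra hlt
  push Not at hlt
  have hN0' : (8 : ℝ) ≤ N0 := by exact_mod_cast hN0
  have hθ8 : θ ≤ 1 / 8 := by
    have : 8 * θ ≤ 1 := (mul_le_mul_of_nonneg_right hN0' hθ.le).trans hNθ
    linarith
  have hl8 : l ≤ 1 / 8 := by
    have h1 : θ ^ N0 ≤ θ ^ 1 := pow_le_pow_of_le_one hθ.le (by linarith) (by omega)
    rw [pow_one] at h1
    linarith
  have h1l : 8 ≤ 1 / l := by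
    rw [le_div_iff₀ hl]; linarith
  have h2 : (8 : ℝ) ^ 8 ≤ (1 / l) ^ N0 :=
    (pow_le_pow_left₀ (by norm_num) h1l 8).trans (pow_le_pow_right₀ (by linarith) hN0)
  have h3 : ph ^ L ≤ 2 ^ L := pow_le_pow_left₀ ph_pos97.le ph_lt_two97.le L
  have h4 : (2 : ℝ) ^ L ≤ 2 ^ 8 := pow_le_pow_right₀ (by norm_num) (by omega)
  have h5 : (8 : ℝ) ^ 8 ≤ 2 ^ 8 := h2.trans (hL.trans (h3.trans h4))
  norm_num at h5

theorem locLin (hL : ThLin) (hN : NBound) : LocLin := by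
  obtain ⟨C', hL⟩ := hL
  obtain ⟨C'', hC'', hN⟩ := hN
  refine ⟨C' + 2, fun C1 hC1 => ⟨C' + C1 + 2 + ⌈2 * C''⌉₊, C' + 8, ?_⟩⟩
  rintro θ l L Lc Q K m E0 ℓ ⟨hθ, hNθ, hl, hlθ, hphL, -, -, -, hℓ, hℓ1, hGood⟩ E1 E2 h12 hE1 hE2
  obtain ⟨-, hLm, hmK, hr1, hr2, hTw⟩ := hGood
  have hcast : (((C' + 8 : ℕ) : ℝ)) = (C' : ℝ) + 8 := by push_cast; ring
  have hC'0 : (0 : ℝ) ≤ C' := Nat.cast_nonneg _
  have hθ8 : θ ≤ 1 / 8 := by
    rw [hcast] at hNθ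
    nlinarith
  have hθ1 : θ ≤ 1 := by linarith
  have hC'θ : (C' : ℝ) * θ ≤ 1 := by
    rw [hcast] at hNθ
    nlinarith
  have hlC' : l ≤ θ ^ C' := hlθ.trans (pow_le_pow_of_le_one hθ.le hθ1 (by omega))
  have hl8 : l ≤ 1 / 8 := by
    have h1 : θ ^ (C' + 8) ≤ θ ^ 1 := pow_le_pow_of_le_one hθ.le hθ1 (by omega)
    rw [pow_one] at h1
    linarith
  have hL8 : 8 ≤ L := eight_le_L97 (C' + 8) L θ l (by omega) hθ hNθ hl hlθ hphL
  have hTw8 : Tw θ (m - 8) (m + 8) E0 l := fun j hj1 hj2 => hTw j (by omega) hj2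
  obtain ⟨hlow, hlin⟩ := hL m E0 l θ hθ hC'θ hl hlC' (by omega) hTw8
  -- the range
  have hrho0 : 0 ≤ rho m E0 l := (abs_nonneg _).trans (le_max_left _ _)
  have hC1pow : 6 * θ ^ C1 ≤ θ ^ C' := by
    have h1 : θ ^ C1 ≤ θ ^ (C' + 1) := pow_le_pow_of_le_one hθ.le hθ1 (by omega)
    have h2 : θ ^ (C' + 1) = θ ^ C' * θ := pow_succ _ _
    have h3 : 0 < θ ^ C' := by positivity
    nlinarith
  have hrange : ∀ E, |E - E0| ≤ 6 * ℓ → |E - E0| * rho m E0 l ≤ θ ^ C' := by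
    intro E hE
    calc |E - E0| * rho m E0 l ≤ 6 * ℓ * rho m E0 l := mul_le_mul_of_nonneg_right hE hrho0
      _ = 6 * (rho m E0 l * ℓ) := by ring
      _ ≤ 6 * θ ^ C1 := by linarith
      _ ≤ θ ^ C' := hC1pow
  obtain ⟨hlo, hup⟩ := hlin E1 E2 h12 (hrange E1 hE1) (hrange E2 hE2)
  set τ := |trE m E0 l| / √(1 - tr m E0 l ^ 2) with hτ
  -- bounds of τ
  have htwm := hTw m (by omega) (by omega)
  have hs1 : θ ≤ √(1 - tr m E0 l ^ 2) := by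
    rw [Real.le_sqrt hθ.le (by nlinarith [sq_nonneg θ])]
    exact htwm
  have hs2 : √(1 - tr m E0 l ^ 2) ≤ 1 := by
    rw [Real.sqrt_le_one]
    nlinarith [sq_nonneg (tr m E0 l)]
  have hs0 : 0 < √(1 - tr m E0 l ^ 2) := lt_of_lt_of_le hθ hs1
  have hτlow : θ ^ C' * rho m E0 l ≤ τ := by
    refine hlow.trans ?_
    rw [hτ, le_div_iff₀ hs0]
    nlinarith [abs_nonneg (trE m E0 l)]
  have hτup : τ * θ ≤ rho m E0 l := by
    rw [hτ, div_mul_eq_mul_div, div_le_iff₀ hs0]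
    have h1 : |trE m E0 l| ≤ rho m E0 l := le_max_left _ _
    exact mul_le_mul h1 hs1 hθ.le hrho0
  -- N bounds
  have hK1 : 1 ≤ K := by omega
  have hmK' : m ≤ K := by omega
  have n1 := abs_le.mp (hN l hl hl8 K m E1 hK1 hmK')
  have n2 := abs_le.mp (hN l hl hl8 K m E2 hK1 hmK')
  have hsq : 0 ≤ √l := Real.sqrt_nonneg _
  have hceil : 2 * C'' ≤ (⌈2 * C''⌉₊ : ℝ) := Nat.le_ceil _
  have hCge : 2 * C'' ≤ ((C' + C1 + 2 + ⌈2 * C''⌉₊ : ℕ) : ℝ) := by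
    push_cast
    have : (0 : ℝ) ≤ C1 := Nat.cast_nonneg _
    linarith
  set D := (Nat.fib m : ℝ) * (NN K l E1 - NN K l E2) with hD
  have hpi : 3 < π := Real.pi_gt_three
  have hpi4 : π ≤ 3.15 := by have := Real.pi_lt_d2; linarith
  have hpiD : π * D = π * Nat.fib m * NN K l E1 - π * Nat.fib m * NN K l E2 := by rw [hD]; ring
  have hx : 0 ≤ (E2 - E1) / ℓ := div_nonneg (by linarith) hℓ.le
  set x := (E2 - E1) / ℓ with hxdef
  have hE21 : E2 - E1 = x * ℓ := by rw [hxdef]; field_simp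
  have hCsq : 2 * C'' * √l ≤ ((C' + C1 + 2 + ⌈2 * C''⌉₊ : ℕ) : ℝ) * √l :=
    mul_le_mul_of_nonneg_right hCge hsq
  have hC''0 : 0 ≤ C'' * √l := by positivity
  constructor
  · -- lower bound
    have h1 : x * (θ ^ C' * θ ^ C1) / 18 ≤ Th m l E1 - Th m l E2 := by
      have h2 : x * (θ ^ C' * (θ ^ C1 / 9)) ≤ (E2 - E1) * τ := by
        rw [hE21, mul_assoc]
        apply mul_le_mul_of_nonneg_left _ hx
        calc θ ^ C' * (θ ^ C1 / 9) ≤ θ ^ C' * (rho m E0 l * ℓ) :=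
              mul_le_mul_of_nonneg_left (by linarith) (by positivity)
          _ = ℓ * (θ ^ C' * rho m E0 l) := by ring
          _ ≤ ℓ * τ := mul_le_mul_of_nonneg_left hτlow hℓ.le
      have h3 : x * (θ ^ C' * (θ ^ C1 / 9)) = 2 * (x * (θ ^ C' * θ ^ C1) / 18) := by ring
      linarith
    have h4 : θ ^ (C' + C1 + 2 + ⌈2 * C''⌉₊) ≤ θ ^ (C' + C1) * (1 / 64) := by
      have h5 : θ ^ (C' + C1 + 2 + ⌈2 * C''⌉₊) ≤ θ ^ (C' + C1 + 2) :=
        pow_le_pow_of_le_one hθ.le hθ1 (by omega)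
      have h6 : θ ^ (C' + C1 + 2) = θ ^ (C' + C1) * θ ^ 2 := pow_add _ _ _
      have h7 : θ ^ 2 ≤ 1 / 64 := by nlinarith
      rw [h6] at h5
      exact h5.trans (mul_le_mul_of_nonneg_left h7 (by positivity))
    have h8 : π * (x * θ ^ (C' + C1 + 2 + ⌈2 * C''⌉₊)) ≤ x * (θ ^ C' * θ ^ C1) / 18 := by
      have h9 : x * θ ^ (C' + C1 + 2 + ⌈2 * C''⌉₊) ≤ x * (θ ^ (C' + C1) * (1 / 64)) :=
        mul_le_mul_of_nonneg_left h4 hx
      have h10 : 0 ≤ x * (θ ^ (C' + C1) * (1 / 64)) := by positivity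
      calc π * (x * θ ^ (C' + C1 + 2 + ⌈2 * C''⌉₊))
          ≤ 3.15 * (x * (θ ^ (C' + C1) * (1 / 64))) :=
            mul_le_mul hpi4 h9 (by positivity) (by norm_num)
        _ ≤ x * (θ ^ C' * θ ^ C1) / 18 := by
            rw [pow_add]
            have : 0 ≤ x * (θ ^ C' * θ ^ C1) := by positivity
            linarith
    have h11 : π * (x * θ ^ (C' + C1 + 2 + ⌈2 * C''⌉₊)) - 2 * (C'' * √l) ≤ π * D := by
      rw [hpiD]; linarith [n1.1, n1.2, n2.1, n2.2]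
    have h12 : 2 * (C'' * √l) ≤ π * (2 * C'' * √l) := by nlinarith
    have h13 : π * (x * θ ^ (C' + C1 + 2 + ⌈2 * C''⌉₊) - 2 * C'' * √l) ≤ π * D := by
      rw [mul_sub]; linarith
    have h14 := le_of_mul_le_mul_left h13 (by linarith)
    calc θ ^ (C' + C1 + 2 + ⌈2 * C''⌉₊) * x - ((C' + C1 + 2 + ⌈2 * C''⌉₊ : ℕ) : ℝ) * √l
        ≤ x * θ ^ (C' + C1 + 2 + ⌈2 * C''⌉₊) - 2 * C'' * √l := by
          rw [mul_comm x]; linarith
      _ ≤ D := h14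
  · -- upper bound
    have h1 : Th m l E1 - Th m l E2 ≤ 2 * (θ * x) := by
      have h2 : (E2 - E1) * τ * θ ≤ x * (θ ^ C1) := by
        rw [hE21]
        calc x * ℓ * τ * θ = x * (ℓ * (τ * θ)) := by ring
          _ ≤ x * (ℓ * rho m E0 l) :=
              mul_le_mul_of_nonneg_left (mul_le_mul_of_nonneg_left hτup hℓ.le) hx
          _ ≤ x * (θ ^ C1) := mul_le_mul_of_nonneg_left (by linarith) hx
      have h3 : θ ^ C1 ≤ θ ^ 2 := pow_le_pow_of_le_one hθ.le hθ1 (by omega)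
      have h4 : (E2 - E1) * τ * θ ≤ (θ * x) * θ := by
        calc (E2 - E1) * τ * θ ≤ x * (θ ^ C1) := h2
          _ ≤ x * θ ^ 2 := mul_le_mul_of_nonneg_left h3 hx
          _ = (θ * x) * θ := by ring
      have h5 : (E2 - E1) * τ ≤ θ * x := le_of_mul_le_mul_right h4 hθ
      linarith
    have h6 : π * D ≤ 2 * (θ * x) + 2 * (C'' * √l) := by
      rw [hpiD]; linarith [n1.1, n1.2, n2.1, n2.2]
    have h7 : 0 ≤ θ * x := by positivity
    have h8 : π * D ≤ π * (θ * x + 2 * C'' * √l) := by nlinarith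
    have h9 := le_of_mul_le_mul_left h8 (by linarith)
    linarith

end FIB
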