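import Pool.Agent.Helper75.FIB.Iface3

/-!
# FIB block Jb : affine approximation in the window

`NearAff` at `E0` (`Cr j` for `j <= m+1` by SpcCr since `|tr K E0 l| < 1`, `m+9 <= K`); `OkT C' θ l L` from `LH` (N0 large; `Lθ <= Lcθ <= 1`: note `L <= Lc`: from `9^{2L}(1/l)^{N0} <= Q`, `Q (1/l)^{N0} <= φ^{Lc}`). `|E-E0| <= 6ℓ` gives `|E-E0| rho m <= 6θ^C1 <= θ^{C'}`. `γ = vv m E0 l - β E0`; error `l θ^{-C'}/rho m <= 9 l θ^{-C'-C1} ℓ`.
-/

namespace FIB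

open Real MeasureTheory Set Filter Topology

theorem locAff (hA : NearAff) (hC : SpcCr) : LocAff := by
  obtain ⟨C', hA⟩ := hA
  refine ⟨C' + 1, ?_⟩
  intro C1 hC1
  refine ⟨C' + C1 + 2, C' + 8, ?_⟩
  intro θ l L Lc Q K m E0 ℓ hLH
  obtain ⟨hθ, hN, hl, hlθ, hL, hQ, hQ2, hLc, hℓ, hℓ1, hG⟩ := hLH
  obtain ⟨htr, hLm, hmK, hr1, hr2, hTw⟩ := hG
  have hNc : ((C' + 8 : ℕ) : ℝ) = (C' : ℝ) + 8 := by push_cast; ring
  rw [hNc] at hN
  have hC'0 : (0 : ℝ) ≤ C' := Nat.cast_nonneg _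
  have hθ8 : θ ≤ 1 / 8 := by nlinarith [mul_nonneg hC'0 hθ.le]
  have hCθ : (C' : ℝ) * θ ≤ 1 := by nlinarith
  have hθ1 : θ ≤ 1 := by linarith
  have hlθ' : l ≤ θ ^ C' := hlθ.trans (pow_le_pow_of_le_one hθ.le hθ1 (by omega))
  have hlθ1 : l ≤ θ := hlθ.trans ((pow_le_pow_of_le_one hθ.le hθ1 (by omega : 1 ≤ C' + 8)).trans
    (by rw [pow_one]))
  have hl8 : l ≤ 1 / 8 := hlθ1.trans hθ8
  have hl1 : 1 ≤ 1 / l := by rw [le_div_iff₀ hl]; linarith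
  have hp1 : 1 ≤ (1 / l) ^ (C' + 8) := one_le_pow₀ hl1
  have hph1 : 1 < ph := by
    unfold ph
    have : 1 < √5 := by rw [Real.lt_sqrt] <;> norm_num
    linarith
  have hph9 : ph ≤ 9 := by
    unfold ph
    have : √5 ≤ 3 := by rw [Real.sqrt_le_left] <;> norm_num
    linarith
  have hLLc : L ≤ Lc := by
    have h1 : ph ^ L ≤ ph ^ Lc := by
      calc ph ^ L ≤ (9 : ℝ) ^ L := pow_le_pow_left₀ (by linarith) hph9 L
        _ ≤ (9 : ℝ) ^ (2 * L) := pow_le_pow_right₀ (by norm_num) (by omega)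
        _ ≤ (9 : ℝ) ^ (2 * L) * (1 / l) ^ (C' + 8) := le_mul_of_one_le_right (by positivity) hp1
        _ ≤ (Q : ℝ) := hQ
        _ ≤ (Q : ℝ) * (1 / l) ^ (C' + 8) := le_mul_of_one_le_right (Nat.cast_nonneg _) hp1
        _ ≤ ph ^ Lc := hQ2
    exact (pow_le_pow_iff_right₀ hph1).mp h1
  have hLθ : (L : ℝ) * θ ≤ 1 := by
    have : (L : ℝ) ≤ Lc := by exact_mod_cast hLLc
    nlinarith
  have hpL : (1 / l) ^ C' ≤ ph ^ L := (pow_le_pow_right₀ hl1 (by omega)).trans hL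
  have hOk : OkT C' θ l L := ⟨hθ, hCθ, hl, hlθ', hpL, hLθ⟩
  obtain ⟨β, hb1, hb2⟩ := hA m L E0 l θ hOk (by omega)
    (fun j hj => hC K j E0 l hl hl8 ⟨htr, by omega⟩) hTw
  have hrho : 0 ≤ rho m E0 l := le_max_of_le_left (abs_nonneg _)
  have hpC1 : θ ^ C1 ≤ θ * θ ^ C' := by
    rw [← pow_succ']
    exact pow_le_pow_of_le_one hθ.le hθ1 hC1
  have hpos' : 0 < θ ^ C' := by positivity
  have hdist : ∀ E, |E - E0| ≤ 6 * ℓ → |E - E0| * rho m E0 l ≤ θ ^ C' := by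
    intro E hE
    calc |E - E0| * rho m E0 l ≤ 6 * ℓ * rho m E0 l := by gcongr
      _ = 6 * (rho m E0 l * ℓ) := by ring
      _ ≤ 6 * (θ * θ ^ C') := by linarith
      _ ≤ θ ^ C' := by nlinarith
  refine ⟨β, vv m E0 l - β * E0, ?_, ?_⟩
  · intro E hE
    have h1 := hb1 E (hdist E hE)
    have e1 : vv m E l - (β * E + (vv m E0 l - β * E0)) = vv m E l - vv m E0 l - β * (E - E0) := by
      ring
    rw [e1]
    set X := |vv m E l - vv m E0 l - β * (E - E0)| with hX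
    have hX0 : 0 ≤ X := abs_nonneg _
    calc θ ^ (C' + C1 + 2) * X = θ ^ 2 * (θ ^ C' * (θ ^ C1) * X) := by
          rw [pow_add, pow_add]; ring
      _ ≤ θ ^ 2 * (θ ^ C' * (9 * (rho m E0 l * ℓ)) * X) := by gcongr
      _ = θ ^ 2 * 9 * ℓ * (θ ^ C' * rho m E0 l * X) := by ring
      _ ≤ θ ^ 2 * 9 * ℓ * l := by gcongr
      _ ≤ 1 * ℓ * l := by
          have : θ ^ 2 ≤ (1 / 8) ^ 2 := pow_le_pow_left₀ hθ.le hθ8 2
          gcongr
          norm_num at this ⊢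
          linarith
      _ = l * ℓ := by ring
  · intro E E' hE hE'
    have h1 := hb2 E E' (hdist E hE) (hdist E' hE')
    have e1 : vv m E l - β * E - (vv m E' l - β * E') = vv m E l - vv m E' l - β * (E - E') := by
      ring
    rw [e1]
    refine le_trans ?_ h1
    gcongr ?_ * _
    exact pow_le_pow_of_le_one hl.le (by linarith) (by omega)

end FIB
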