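import Pool.Agent.Helper75.FIB.Iface3

/-!
# FIB block Jc : velocities within a short cell

`E, E'` spectral, `|E-E0|,|E'-E0| <= 5ℓ`, `|E-E'| <= ℓ/Q`. By `Dist` (or VLip) `rho m E ∈ [1/2,2] rho m E0`. Let `A = l^{-C'}` be a large power. `rho_i(E)` for `i >= m`: `<= 9^{i-m} rho m`, `>= l^{C''} φ^{i-m} rho m` (GrLow, `ε = l`). Let `r >= m` be the smallest level with `rho r E l >= A/ℓ`; then `rho r <= 9A/ℓ` (or `r = m`), `r - m <= C''' log(1/l) <= 1/l`, `r + 8 <= K` (`r - m <= Lc` by the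
lower growth bound and `Q (1/l)^{N0} <= φ^{Lc}`). `FBound` at `(E, r)`: `|Vx K E - v_r(E)| <= l^{-C}/rho r <= l^2 ℓ`; `VLip`/`Dist`: `|E-E'| rho r <= 9A/Q <= l^C`, so `rho r E' >= rho r E/2` and the same for `E'`. `VCell` (`n = m`, `n' = r`): `|(v_r - v_m)(E') - (v_r - v_m)(E)| <= l^{-C}(r-m)|E-E'| <= l^{-C-1} ℓ/Q <= l^2 ℓ` (Q >= (1/l)^{N0}).
Hypothesis: `|(v_m - βE) - (v_m - βE')| <= l^{-Ca}|E-E'| <= l^2 ℓ`. Sum `<= l ℓ`.
-/

namespace FIB

open Real MeasureTheory Set Filter Topology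

namespace Jc

lemma ph_pos : 0 < ph := by
  unfold ph; positivity

lemma ph_le9 : ph ≤ 9 := by
  unfold ph
  have : Real.sqrt 5 ≤ 5 := by
    rw [Real.sqrt_le_left (by norm_num)]; norm_num
  linarith

/-- from `l ^ a * x ≤ y`, `y ≤ l ^ b * z`, `a + 2 ≤ b`: `x ≤ l ^ 2 * z` -/
lemma cancel_pow {l x z : ℝ} (hl : 0 < l) (hl1 : l ≤ 1) (hz : 0 ≤ z) {a b : ℕ}
    (h : l ^ a * x ≤ l ^ b * z) (hab : a + 2 ≤ b) : x ≤ l ^ 2 * z := by
  have h1 : l ^ b * z ≤ l ^ (a + 2) * z :=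
    mul_le_mul_of_nonneg_right (pow_le_pow_of_le_one hl.le hl1 hab) hz
  have h2 : l ^ a * x ≤ l ^ a * (l ^ 2 * z) := by
    calc l ^ a * x ≤ l ^ (a + 2) * z := h.trans h1
      _ = l ^ a * (l ^ 2 * z) := by rw [pow_add]; ring
  exact le_of_mul_le_mul_left h2 (pow_pos hl a)

end Jc

open Jc in
theorem cellClose (hF : FBound) (hL : VLip) (hV : VCell) (hC : SpcCr) (hG : GrLow) (hR : RhoRatio) (hD : Dist) : CellClose := by
  obtain ⟨CF, hF⟩ := hF
  obtain ⟨CL, hL⟩ := hL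
  obtain ⟨CV, hV⟩ := hV
  obtain ⟨CG, hG⟩ := hG
  obtain ⟨CD, hD⟩ := hD
  refine ⟨CD + 1, fun C1 hC1 Ca => ?_⟩
  set C' : ℕ := CF + 3 with hC'
  set N0 : ℕ := CG + C' + C1 + CV + CL + CD + Ca + 20 with hN0
  refine ⟨N0, ?_⟩
  rintro θ l L Lc Q K m E0 ℓ ⟨hθ, hNθ, hl, hlθ, hlL, hQ, hQL, hLcθ, hℓ, hℓ1, hgood⟩ β hβ E E' hE hE'
    hEE0 hE'E0 hEE'
  obtain ⟨hK0, hLm, hmK, hrho1, hrho2, hTw⟩ := hgood
  -- smallness of θ and l
  have hN0r : (20 : ℝ) ≤ N0 := by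
    have : 20 ≤ N0 := by omega
    exact_mod_cast this
  have hθ20 : θ ≤ 1 / 20 := by nlinarith
  have hθ1 : θ ≤ 1 := by linarith
  have hlθ' : l ≤ θ := hlθ.trans (by
    calc θ ^ N0 ≤ θ ^ 1 := pow_le_pow_of_le_one hθ.le hθ1 (by omega)
      _ = θ := pow_one θ)
  have hl8 : l ≤ 1 / 8 := by linarith
  have hl1 : l ≤ 1 := by linarith
  have hl20 : l ≤ 1 / 20 := by linarith
  have hli : 1 ≤ 1 / l := by rw [le_div_iff₀ hl]; linarith
  -- Q large
  have h9 : (1 : ℝ) ≤ (9 : ℝ) ^ (2 * L) := one_le_pow₀ (by norm_num)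
  have hlN : 0 < (1 / l) ^ N0 := by positivity
  have hlN1 : 1 ≤ (1 / l) ^ N0 := one_le_pow₀ hli
  have hQ1 : (1 / l) ^ N0 ≤ (Q : ℝ) := by
    refine le_trans ?_ hQ
    nlinarith
  have hQpos : (0 : ℝ) < Q := lt_of_lt_of_le hlN hQ1
  have hQge1 : (1 : ℝ) ≤ Q := hlN1.trans hQ1
  have hQinv : 1 / (Q : ℝ) ≤ l ^ N0 := by
    rw [div_le_iff₀ hQpos]
    calc (1 : ℝ) = l ^ N0 * (1 / l) ^ N0 := by
          rw [← mul_pow]; rw [mul_one_div_cancel hl.ne']; simp
      _ ≤ l ^ N0 * Q := mul_le_mul_of_nonneg_left hQ1 (by positivity)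
  have hcell : |E - E'| ≤ l ^ N0 * ℓ := by
    calc |E - E'| ≤ ℓ / Q := hEE'
      _ = (1 / Q) * ℓ := by ring
      _ ≤ l ^ N0 * ℓ := mul_le_mul_of_nonneg_right hQinv hℓ.le
  -- L ≤ Lc
  have hLLc : L ≤ Lc := by
    have h1 : (9 : ℝ) ^ (2 * L) ≤ 9 ^ Lc := by
      calc (9 : ℝ) ^ (2 * L) ≤ 9 ^ (2 * L) * (1 / l) ^ N0 := by nlinarith
        _ ≤ Q := hQ
        _ ≤ Q * (1 / l) ^ N0 := by nlinarith
        _ ≤ ph ^ Lc := hQL
        _ ≤ 9 ^ Lc := pow_le_pow_left₀ ph_pos.le ph_le9 _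
    have h2 : 2 * L ≤ Lc := (pow_le_pow_iff_right₀ (by norm_num : (1:ℝ) < 9)).1 h1
    omega
  -- OkT
  have hOk : OkT CD θ l L := by
    refine ⟨hθ, ?_, hl, ?_, ?_, ?_⟩
    · have : (CD : ℝ) ≤ N0 := by
        have : CD ≤ N0 := by omega
        exact_mod_cast this
      nlinarith
    · exact hlθ.trans (pow_le_pow_of_le_one hθ.le hθ1 (by omega))
    · exact (pow_le_pow_right₀ hli (by omega)).trans hlL
    · have : (L : ℝ) ≤ Lc := by exact_mod_cast hLLc
      nlinarith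
  -- positivity of rho m E0
  have hθC : 0 < θ ^ C1 := pow_pos hθ _
  have hrE0 : 0 < rho m E0 l := by
    by_contra hneg
    push Not at hneg
    have : rho m E0 l * ℓ ≤ 0 := mul_nonpos_of_nonpos_of_nonneg hneg hℓ.le
    linarith
  have h5θ : 5 * θ ^ C1 ≤ θ ^ CD := by
    calc 5 * θ ^ C1 ≤ 5 * θ ^ (CD + 1) := by
          have := pow_le_pow_of_le_one hθ.le hθ1 hC1
          linarith
      _ = (5 * θ) * θ ^ CD := by rw [pow_succ]; ring
      _ ≤ 1 * θ ^ CD := mul_le_mul_of_nonneg_right (by linarith) (by positivity)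
      _ = θ ^ CD := one_mul _
  have hDE := hD m L E0 E l θ hOk (by omega) hTw (by
    calc |E - E0| * rho m E0 l ≤ (5 * ℓ) * rho m E0 l := mul_le_mul_of_nonneg_right hEE0 hrE0.le
      _ = 5 * (rho m E0 l * ℓ) := by ring
      _ ≤ 5 * θ ^ C1 := by linarith
      _ ≤ θ ^ CD := h5θ)
  have hDm := hDE.2 m (by omega) le_rfl
  -- non-degeneracy
  have hCrE : ∀ j, j + 8 ≤ K → Cr j E l := fun j hj => hC K j E l hl hl8 ⟨hE, hj⟩
  have hCrE' : ∀ j, j + 8 ≤ K → Cr j E' l := fun j hj => hC K j E' l hl hl8 ⟨hE', hj⟩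
  have htr : ∀ j, j + 8 ≤ K → |tr j E l| ≤ 2 := fun j hj => (hCrE j hj).1 j le_rfl (by omega)
  -- the threshold
  have hthr : 0 < l ^ C' * ℓ := by positivity
  -- existence of a level
  have hLcThr : 1 ≤ l ^ C' * ℓ * rho (m + Lc) E l := by
    have hg := hG m (m + Lc) E l l ⟨hl, hl8, hl, by linarith⟩ (by omega)
      (Or.inl ⟨rfl, hCrE m (by omega)⟩) (Or.inl ⟨rfl, hCrE (m + Lc) (by omega)⟩)
    rw [Nat.add_sub_cancel_left] at hg
    have hrm : θ ^ C1 ≤ 18 * (rho m E l * ℓ) := by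
      have : rho m E0 l * ℓ ≤ 2 * rho m E l * ℓ := mul_le_mul_of_nonneg_right hDm.1 hℓ.le
      linarith
    have hlC1 : l ^ C1 ≤ θ ^ C1 := pow_le_pow_left₀ hl.le hlθ' _
    have hrm0 : 0 < rho m E l := by nlinarith
    have hph : (1 / l) ^ N0 ≤ ph ^ Lc := le_trans (by nlinarith) hQL
    have h1 : l ^ (CG + C' + C1 + 2) * (1 / l) ^ N0 ≥ 1 := by
      have hsplit : (1 / l) ^ N0 = (1 / l) ^ (CG + C' + C1 + 2) * (1 / l) ^ (CV + CL + CD + Ca + 18) := by
        rw [← pow_add]; congr 1; omega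
      rw [hsplit, ← mul_assoc, ← mul_pow, mul_one_div_cancel hl.ne', one_pow, one_mul]
      exact one_le_pow₀ hli
    have h18 : 18 * l ^ 2 ≤ 1 := by nlinarith
    have h2 : l ^ (CG + C' + C1 + 2) = l ^ CG * l ^ C' * l ^ C1 * l ^ 2 := by
      rw [pow_add, pow_add, pow_add]
    calc (1 : ℝ) ≤ l ^ (CG + C' + C1 + 2) * (1 / l) ^ N0 := h1
      _ ≤ l ^ (CG + C' + C1 + 2) * ph ^ Lc := mul_le_mul_of_nonneg_left hph (by positivity)
      _ = l ^ C' * (l ^ CG * ph ^ Lc) * (l ^ C1 * l ^ 2) := by rw [h2]; ring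
      _ ≤ l ^ C' * (l ^ CG * ph ^ Lc) * (ℓ * rho m E l) := by
          refine mul_le_mul_of_nonneg_left ?_ (by have := ph_pos; positivity)
          calc l ^ C1 * l ^ 2 ≤ (18 * (rho m E l * ℓ)) * l ^ 2 :=
                mul_le_mul_of_nonneg_right (hlC1.trans hrm) (by positivity)
            _ = (18 * l ^ 2) * (ℓ * rho m E l) := by ring
            _ ≤ 1 * (ℓ * rho m E l) := mul_le_mul_of_nonneg_right h18 (by positivity)
            _ = ℓ * rho m E l := one_mul _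
      _ = l ^ C' * ℓ * (l ^ CG * ph ^ Lc * rho m E l) := by ring
      _ ≤ l ^ C' * ℓ * rho (m + Lc) E l := mul_le_mul_of_nonneg_left hg hthr.le
  have hex : ∃ i, 1 ≤ l ^ C' * ℓ * rho (m + i) E l := ⟨Lc, hLcThr⟩
  classical
  obtain ⟨i, hi, himin⟩ : ∃ i, 1 ≤ l ^ C' * ℓ * rho (m + i) E l ∧
      ∀ j < i, ¬ 1 ≤ l ^ C' * ℓ * rho (m + j) E l :=
    ⟨Nat.find hex, Nat.find_spec hex, fun j hj => Nat.find_min hex hj⟩
  have hiLc : i ≤ Lc := by
    by_contra hcon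
    push Not at hcon
    exact himin Lc hcon hLcThr
  set r : ℕ := m + i with hr
  have hrK : r + 16 ≤ K := by omega
  have hrpos : 0 < rho r E l := by
    by_contra hneg
    push Not at hneg
    have : l ^ C' * ℓ * rho r E l ≤ 0 := mul_nonpos_of_nonneg_of_nonpos hthr.le hneg
    linarith
  -- upper bound of rho r
  have hup : l ^ C' * ℓ * rho r E l ≤ 9 := by
    rcases Nat.eq_zero_or_pos i with h0 | hpos
    · have hrm : r = m := by omega
      rw [hrm]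
      have h1 : rho m E l * ℓ ≤ 2 * θ ^ C1 := by
        have : rho m E l * ℓ ≤ 2 * rho m E0 l * ℓ := mul_le_mul_of_nonneg_right hDm.2 hℓ.le
        linarith
      have h2 : θ ^ C1 ≤ 1 := pow_le_one₀ hθ.le hθ1
      have h3 : l ^ C' ≤ 1 := pow_le_one₀ hl.le hl1
      have h4 : 0 < rho m E l := by rw [← hrm]; exact hrpos
      calc l ^ C' * ℓ * rho m E l = l ^ C' * (rho m E l * ℓ) := by ring
        _ ≤ 1 * (rho m E l * ℓ) := mul_le_mul_of_nonneg_right h3 (by positivity)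
        _ ≤ 9 := by linarith
    · obtain ⟨i', rfl⟩ : ∃ i', i = i' + 1 := ⟨i - 1, by omega⟩
      have hmin := himin i' (by omega)
      push Not at hmin
      have hratio := (hR (m + i') E l (htr _ (by omega)) (htr _ (by omega))).1
      have : r = m + i' + 1 := by omega
      rw [this]
      calc l ^ C' * ℓ * rho (m + i' + 1) E l ≤ l ^ C' * ℓ * (9 * rho (m + i') E l) :=
            mul_le_mul_of_nonneg_left hratio hthr.le
        _ = 9 * (l ^ C' * ℓ * rho (m + i') E l) := by ring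
        _ ≤ 9 := by linarith
  -- |E - E'| rho r small
  have hsmall : ∀ c : ℕ, c + C' + 1 ≤ N0 → |E - E'| * rho r E l ≤ l ^ c := by
    intro c hc
    have h1 : l ^ N0 ≤ l ^ (c + C' + 1) := pow_le_pow_of_le_one hl.le hl1 hc
    calc |E - E'| * rho r E l ≤ (l ^ N0 * ℓ) * rho r E l := mul_le_mul_of_nonneg_right hcell hrpos.le
      _ ≤ (l ^ (c + C' + 1) * ℓ) * rho r E l :=
          mul_le_mul_of_nonneg_right (mul_le_mul_of_nonneg_right h1 hℓ.le) hrpos.le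
      _ = l ^ c * l * (l ^ C' * ℓ * rho r E l) := by rw [pow_add, pow_add, pow_one]; ring
      _ ≤ l ^ c * l * 9 := mul_le_mul_of_nonneg_left hup (by positivity)
      _ = l ^ c * (9 * l) := by ring
      _ ≤ l ^ c * 1 := mul_le_mul_of_nonneg_left (by linarith) (by positivity)
      _ = l ^ c := mul_one _
  have hCrAll : ∀ j ≤ r + 1, Cr j E l := fun j hj => hCrE j (by omega)
  -- VLip : comparison of rho r at E and E'
  have hvl := hL r E l E' l hl hl8 hl hCrAll (by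
    rw [sub_self, abs_zero, add_zero, abs_sub_comm]
    exact hsmall CL (by omega))
  have hrE' : rho r E l ≤ 2 * rho r E' l := hvl.2.1
  -- VCell
  have hvc := hV m r E E' l hl hl8 (by omega) hCrAll (by
    rw [abs_sub_comm]; exact hsmall CV (by omega))
  -- FBound
  have hf1 := hF r K E l hl hl8 ⟨hE, by omega⟩
  have hf2 := hF r K E' l hl hl8 ⟨hE', by omega⟩
  -- A: first difference
  have hA : |Vx K E l - vv r E l| ≤ l ^ 2 * ℓ := by
    refine cancel_pow (a := CF) (b := C') hl hl1 hℓ.le ?_ (by omega)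
    have h0 : 0 ≤ l ^ CF * |Vx K E l - vv r E l| := by positivity
    calc l ^ CF * |Vx K E l - vv r E l| = 1 * (l ^ CF * |Vx K E l - vv r E l|) := (one_mul _).symm
      _ ≤ (l ^ C' * ℓ * rho r E l) * (l ^ CF * |Vx K E l - vv r E l|) :=
          mul_le_mul_of_nonneg_right hi h0
      _ = (l ^ C' * ℓ) * (l ^ CF * rho r E l * |Vx K E l - vv r E l|) := by ring
      _ ≤ (l ^ C' * ℓ) * 1 := mul_le_mul_of_nonneg_left hf1 hthr.le
      _ = l ^ C' * ℓ := mul_one _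
  have hB : |Vx K E' l - vv r E' l| ≤ 2 * (l ^ 2 * ℓ) := by
    have h0 : 0 ≤ l ^ CF * |Vx K E' l - vv r E' l| := by positivity
    have h1 : l ^ CF * |Vx K E' l - vv r E' l| ≤ l ^ C' * (2 * ℓ) := by
      calc l ^ CF * |Vx K E' l - vv r E' l| = 1 * (l ^ CF * |Vx K E' l - vv r E' l|) := (one_mul _).symm
        _ ≤ (l ^ C' * ℓ * rho r E l) * (l ^ CF * |Vx K E' l - vv r E' l|) :=
            mul_le_mul_of_nonneg_right hi h0
        _ ≤ (l ^ C' * ℓ * (2 * rho r E' l)) * (l ^ CF * |Vx K E' l - vv r E' l|) :=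
            mul_le_mul_of_nonneg_right (mul_le_mul_of_nonneg_left hrE' hthr.le) h0
        _ = (2 * (l ^ C' * ℓ)) * (l ^ CF * rho r E' l * |Vx K E' l - vv r E' l|) := by ring
        _ ≤ (2 * (l ^ C' * ℓ)) * 1 := mul_le_mul_of_nonneg_left hf2 (by positivity)
        _ = l ^ C' * (2 * ℓ) := by ring
    have h2 := cancel_pow (a := CF) (b := C') hl hl1 (by positivity : (0:ℝ) ≤ 2 * ℓ) h1 (by omega)
    linarith
  -- C: the increment
  have hCc : |(vv r E' l - vv m E' l) - (vv r E l - vv m E l)| ≤ l ^ 2 * ℓ := by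
    refine cancel_pow (a := CV) (b := N0 - 1) hl hl1 hℓ.le ?_ (by omega)
    have hrm : ((r - m : ℕ) : ℝ) ≤ 1 / l := by
      have h1 : ((r - m : ℕ) : ℝ) ≤ Lc := by
        have : r - m ≤ Lc := by omega
        exact_mod_cast this
      have h2 : (Lc : ℝ) * l ≤ 1 := by
        calc (Lc : ℝ) * l ≤ Lc * θ := mul_le_mul_of_nonneg_left hlθ' (by positivity)
          _ ≤ 1 := hLcθ
      rw [le_div_iff₀ hl]
      calc ((r - m : ℕ) : ℝ) * l ≤ Lc * l := mul_le_mul_of_nonneg_right h1 hl.le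
        _ ≤ 1 := h2
    calc l ^ CV * |(vv r E' l - vv m E' l) - (vv r E l - vv m E l)| ≤ ((r - m : ℕ) : ℝ) * |E' - E| := hvc
      _ ≤ (1 / l) * (l ^ N0 * ℓ) := by
          rw [abs_sub_comm]
          exact mul_le_mul hrm hcell (abs_nonneg _) (by positivity)
      _ = l ^ (N0 - 1) * ℓ := by
          have : N0 = (N0 - 1) + 1 := by omega
          conv_lhs => rw [this, pow_succ]
          field_simp
          try simp
  -- D: hypothesis
  have hDd : |(vv m E l - β * E) - (vv m E' l - β * E')| ≤ l ^ 2 * ℓ := by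
    refine cancel_pow (a := Ca) (b := N0) hl hl1 hℓ.le ?_ (by omega)
    exact (hβ E E' (by linarith) (by linarith)).trans hcell
  -- sum
  have hsum : (Vx K E l - β * E) - (Vx K E' l - β * E')
      = (Vx K E l - vv r E l) - (Vx K E' l - vv r E' l)
        - ((vv r E' l - vv m E' l) - (vv r E l - vv m E l))
        + ((vv m E l - β * E) - (vv m E' l - β * E')) := by ring
  rw [hsum]
  have t1 := abs_add_le ((Vx K E l - vv r E l) - (Vx K E' l - vv r E' l)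
        - ((vv r E' l - vv m E' l) - (vv r E l - vv m E l))) ((vv m E l - β * E) - (vv m E' l - β * E'))
  have t2 := abs_sub ((Vx K E l - vv r E l) - (Vx K E' l - vv r E' l))
        ((vv r E' l - vv m E' l) - (vv r E l - vv m E l))
  have t3 := abs_sub (Vx K E l - vv r E l) (Vx K E' l - vv r E' l)
  have hfin : 5 * (l ^ 2 * ℓ) ≤ l * ℓ := by
    have : 5 * (l ^ 2 * ℓ) = (5 * l) * (l * ℓ) := by ring
    rw [this]
    calc (5 * l) * (l * ℓ) ≤ 1 * (l * ℓ) := mul_le_mul_of_nonneg_right (by linarith) (by positivity)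
      _ = l * ℓ := one_mul _
  linarith

end FIB
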