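import Pool.Agent.Helper75.FIB.Iface3

/-!
# FIB block Jd : velocities at typical cells

Let `E` be the typical point of the cell (real, maybe not spectral), `E' = EK K l t` in the same cell, `ℓ' = ℓ/Q`, `θk = θ^k`. For `m <= i <= m+L+17`: `rho i E <= 9^{i-m} rho m E <= 9^{L+17}·2θ^{C1}/ℓ` as long as the traces are bounded by 2 (induction: typical levels have `|tr| <= 1`; the next two levels are bounded by the recursion) and `9^{2L}(1/l)^{N0} <= Q` gives `rho i E ℓ' <= θk^{C4}`; so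
`θk^2 <= 1 - tr i E^2` for all `i ∈ [m, m+L+17]`. For these `i`: `|x_i(E') - x_i(E)| <= l` (SLoc at `E`, `ε = θk` or `l`: `|E-E'| rho i <= 9^{L+18}/Q·.. <= l^{C}`; alternatively ThClose), so `1 - tr i E'^2 >= θk^2/2`. On `[m-L,m+8]` `E'` is `θ/2`-typical by `Dist` from `E0`. So `Tw (θ^{k+1}) (m-L) (m+L+8) E'` and `VTyp (ii)`:
`|Vx K E' - v_m(E')| <= l θ^{-C(k+1)}/rho m E' <= l ℓ θ^{-C(k+1) - C1 - 1}` and the hypothesis on `β, γ`. (`VK K l t = Vx K (EK K l t) l`; `t ∈ Rg K` so `|tr K E'| < 1`: needs `|tr| = |cos(π F_K t)| < 1` from QuantileProps + ThProps.)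
-/

namespace FIB

open Real MeasureTheory Set Filter Topology

namespace Jd

theorem tri_aux {x y z l : ℝ} (hl : 0 < l) (hx : |x| ≤ 1) (hy : |y| ≤ 1)
    (h : (z - x * y) ^ 2 = (1 - x ^ 2) * (1 - y ^ 2) + l ^ 2 / 4) : |z| ≤ 1 + l / 2 := by
  by_contra hc
  push Not at hc
  set p : ℝ := |x * y| with hp
  have hp1 : p ≤ 1 := by
    rw [hp, abs_mul]
    exact mul_le_one₀ hx (abs_nonneg _) hy
  have hp0 : 0 ≤ p := abs_nonneg _
  have h1 : |z| - p ≤ |z - x * y| := abs_sub_abs_le_abs_sub z (x * y)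
  have h2 : 1 - p + l / 2 < |z - x * y| := by linarith
  have h3 : (1 - p + l / 2) ^ 2 < |z - x * y| ^ 2 :=
    pow_lt_pow_left₀ h2 (by linarith) (by norm_num)
  rw [sq_abs, h] at h3
  have h4 : p ^ 2 = x ^ 2 * y ^ 2 := by
    rw [hp, sq_abs]
    ring
  have h5 : 2 * p ≤ x ^ 2 + y ^ 2 := by
    have e1 : p = |x| * |y| := by rw [hp, abs_mul]
    have e2 : x ^ 2 = |x| ^ 2 := (sq_abs x).symm
    have e3 : y ^ 2 = |y| ^ 2 := (sq_abs y).symm
    rw [e1, e2, e3]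
    nlinarith [sq_nonneg (|x| - |y|)]
  nlinarith [mul_nonneg hl.le (sub_nonneg.2 hp1)]

theorem next2 (n : ℕ) (E l : ℝ) (hl : 0 < l) (hl1 : l ≤ 1) (h0 : |tr n E l| ≤ 1)
    (h1 : |tr (n + 1) E l| ≤ 1) : |tr (n + 2) E l| ≤ 2 ∧ |tr (n + 3) E l| ≤ 2 := by
  have hz := tri_aux hl h0 h1 (tr_inv_sq n E l)
  refine ⟨by linarith, ?_⟩
  have hw := tr_inv_sq (n + 1) E l
  rw [show n + 1 + 2 = n + 3 from rfl, show n + 1 + 1 = n + 2 from rfl] at hw
  rcases le_or_gt |tr (n + 2) E l| 1 with h | h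
  · have := tri_aux hl h1 h hw
    linarith
  · have hz2 : 1 < tr (n + 2) E l ^ 2 := by
      rw [← sq_abs]
      nlinarith
    have hy2 : tr (n + 1) E l ^ 2 ≤ 1 := by
      rw [← sq_abs]
      nlinarith [abs_nonneg (tr (n + 1) E l)]
    have h3 : (tr (n + 3) E l - tr (n + 1) E l * tr (n + 2) E l) ^ 2 ≤ (l / 2) ^ 2 := by
      rw [hw]
      nlinarith [mul_nonneg (sub_nonneg.2 hy2) (sub_nonneg.2 hz2.le)]
    have h4 : |tr (n + 3) E l - tr (n + 1) E l * tr (n + 2) E l| ≤ l / 2 :=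
      abs_le_of_sq_le_sq h3 (by linarith)
    have h5 : |tr (n + 3) E l| - |tr (n + 1) E l * tr (n + 2) E l| ≤
        |tr (n + 3) E l - tr (n + 1) E l * tr (n + 2) E l| := abs_sub_abs_le_abs_sub _ _
    have h6 : |tr (n + 1) E l * tr (n + 2) E l| ≤ |tr (n + 2) E l| := by
      rw [abs_mul]
      nlinarith [abs_nonneg (tr (n + 2) E l), abs_nonneg (tr (n + 1) E l)]
    linarith

/-- transfer of typicality to a nearby point -/
theorem close_aux {a b δ θ : ℝ} (hθ0 : 0 < θ) (hθ : θ ≤ 1 / 2) (hδ0 : 0 ≤ δ) (hδ : δ ≤ 1 - b ^ 2)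
    (h : |a - b| ≤ δ * θ ^ 2) : δ * θ ^ 2 ≤ 1 - a ^ 2 := by
  have hb : |b| ≤ 1 := by
    have : b ^ 2 ≤ 1 := by linarith
    exact (abs_le_one_iff_mul_self_le_one).2 (by nlinarith)
  have hδ1 : δ ≤ 1 := by nlinarith [sq_nonneg b]
  have hθ2 : θ ^ 2 ≤ 1 / 4 := by nlinarith
  have hd : |a - b| ≤ 1 := by nlinarith [sq_nonneg θ]
  have h1 : |a + b| ≤ 3 := by
    have : a + b = (a - b) + 2 * b := by ring
    rw [this]
    refine (abs_add_le _ _).trans ?_
    rw [abs_mul, abs_two]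
    linarith
  have h2 : |a ^ 2 - b ^ 2| ≤ 3 * (δ * θ ^ 2) := by
    have : a ^ 2 - b ^ 2 = (a + b) * (a - b) := by ring
    rw [this, abs_mul]
    exact mul_le_mul h1 h (abs_nonneg _) (by norm_num)
  have h3 := (abs_le.1 h2).2
  nlinarith [mul_nonneg hδ0 (sub_nonneg.2 hθ2)]

theorem abs_le_one_of {a δ : ℝ} (hδ : 0 ≤ δ) (h : δ ≤ 1 - a ^ 2) : |a| ≤ 1 :=
  (abs_le_one_iff_mul_self_le_one).2 (by nlinarith)

theorem ph_pos : 0 < ph := by
  unfold ph
  positivity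

theorem ph_ge_one : 1 ≤ ph := by
  unfold ph
  have : (1 : ℝ) ≤ √5 := Real.le_sqrt_of_sq_le (by norm_num)
  linarith

theorem ph_le_two : ph ≤ 2 := by
  unfold ph
  have : √(5 : ℝ) ≤ 3 := Real.sqrt_le_iff.mpr ⟨by norm_num, by norm_num⟩
  linarith

/-- spectral points have trace of absolute value less than one -/
theorem tr_lt (hQ : QuantileProps) (hT : ThProps) (K : ℕ) (hK : 1 ≤ K) (l : ℝ) (hl : 0 < l)
    (hl8 : l ≤ 1 / 8) (t : ℝ) (ht : t ∈ Rg K) : |tr K (EK K l t) l| < 1 := by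
  obtain ⟨-, hq, -⟩ := hQ K hK
  have h1 := hq l hl hl8 t ⟨ht.1, ht.2.1⟩
  obtain ⟨-, -, hcos, -⟩ := hT l hl hl8 K
  have h2 := hcos (EK K l t)
  rw [h1] at h2
  have hs : Real.sin (π * Nat.fib K * t) ≠ 0 := by
    intro h0
    rw [Real.sin_eq_zero_iff] at h0
    obtain ⟨n, hn⟩ := h0
    refine ht.2.2 n ?_
    have : π * ((Nat.fib K : ℝ) * t) = π * n := by linarith
    exact mul_left_cancel₀ Real.pi_ne_zero this
  have h3 : Real.cos (π * Nat.fib K * t) ^ 2 < 1 := by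
    have := Real.sin_sq_add_cos_sq (π * Nat.fib K * t)
    have hp : 0 < Real.sin (π * Nat.fib K * t) ^ 2 := by positivity
    linarith
  rw [h2] at h3
  rw [abs_lt]
  constructor
  · by_contra hc
    push Not at hc
    have : clip (tr K (EK K l t) l) = -1 := by
      unfold clip
      rw [min_eq_right (by linarith), max_eq_left hc]
    rw [this] at h3
    norm_num at h3
  · by_contra hc
    push Not at hc
    have : clip (tr K (EK K l t) l) = 1 := by
      unfold clip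
      rw [min_eq_left hc]
      norm_num
    rw [this] at h3
    norm_num at h3

end Jd

theorem typErr (hV : VTyp) (hS : SLoc) (hD : Dist) (hQ : QuantileProps) (hT : ThProps) (hC : SpcCr) (hG : GrLow) (hR : RhoRatio) : TypErr := by
  obtain ⟨CV, hV⟩ := hV
  obtain ⟨CS, hS⟩ := hS
  obtain ⟨CD, hD⟩ := hD
  refine ⟨CD + 1, 0, ?_⟩
  intro C1 C4 hC1 _
  refine ⟨C1 + 2 * CV + 2, ?_⟩
  intro k hk Ca
  refine ⟨20 + (k + 1) * (CV + CS + CD + C4 + 10), ?_⟩
  intro θ l L Lc Q K m E0 ℓ hLH β γ hβ j hj hTy t ht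
  set N0 : ℕ := 20 + (k + 1) * (CV + CS + CD + C4 + 10) with hN0
  obtain ⟨hθ0, hNθ, hl0, hlθ, hlL, h9Q, hQL, hLcθ, hℓ0, hℓ1, hGood⟩ := hLH
  obtain ⟨-, hLm, hmK, hρ1, hρ2, hTw⟩ := hGood
  -- numerical facts on N0
  have hN1 : N0 = 20 + (k + 1) * CV + (k + 1) * CS + (k + 1) * CD + (k + 1) * C4 + (k + 1) * 10 := by
    rw [hN0]
    ring
  have hm1 : CV ≤ (k + 1) * CV := Nat.le_mul_of_pos_left _ (by omega)
  have hm2 : CD ≤ (k + 1) * CD := Nat.le_mul_of_pos_left _ (by omega)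
  have hm3 : k * C4 ≤ (k + 1) * C4 := Nat.mul_le_mul_right _ (by omega)
  have hm4 : k * CS ≤ (k + 1) * CS := Nat.mul_le_mul_right _ (by omega)
  clear_value N0
  have n20 : 20 ≤ N0 := by omega
  have nV : (k + 1) * CV ≤ N0 := by omega
  have nD : CD ≤ N0 := by omega
  have nCV : CV ≤ N0 := by omega
  have n4 : k * C4 ≤ N0 := by omega
  have nS : k * CS + (2 * k + 2) ≤ N0 := by omega
  have nS' : k * CS ≤ N0 := by omega
  have nk : k ≤ N0 := by omega
  have n20r : (20 : ℝ) ≤ (N0 : ℝ) := by exact_mod_cast n20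
  have hθ20 : θ ≤ 1 / 20 := by
    have := mul_le_mul_of_nonneg_right n20r hθ0.le
    linarith
  have hθ1 : θ ≤ 1 := by linarith
  have hθ2 : θ ≤ 1 / 2 := by linarith
  have hpowle : ∀ {a b : ℕ}, a ≤ b → θ ^ b ≤ θ ^ a := fun h =>
    pow_le_pow_of_le_one hθ0.le hθ1 h
  have hlθ1 : l ≤ θ := by
    calc l ≤ θ ^ N0 := hlθ
      _ ≤ θ ^ 1 := hpowle (by omega)
      _ = θ := pow_one θ
  have hl8 : l ≤ 1 / 8 := by linarith
  have hl1 : l ≤ 1 := by linarith
  have hinv : 8 ≤ 1 / l := by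
    rw [le_div_iff₀ hl0]
    linarith
  have hinv1 : 1 ≤ 1 / l := by linarith
  have hinvN : (8 : ℝ) ^ N0 ≤ (1 / l) ^ N0 := pow_le_pow_left₀ (by norm_num) hinv _
  have h820 : (8 : ℝ) ^ 20 ≤ (8 : ℝ) ^ N0 := pow_le_pow_right₀ (by norm_num) n20
  have hQ0 : (0 : ℝ) < Q := by
    have : 0 < (9 : ℝ) ^ (2 * L) * (1 / l) ^ N0 := by positivity
    linarith
  have hQ1 : (1 : ℝ) ≤ Q := by
    have h1 : (1 : ℝ) ≤ (9 : ℝ) ^ (2 * L) := one_le_pow₀ (by norm_num)
    have h2 : (1 : ℝ) ≤ (1 / l) ^ N0 := one_le_pow₀ hinv1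
    have h3 := one_le_mul_of_one_le_of_one_le h1 h2
    linarith
  -- L + 8 ≤ Lc
  have hLLc : L + 8 ≤ Lc := by
    by_contra hc
    have hc' : Lc ≤ L + 8 := by omega
    have h1 : ph ^ Lc ≤ 2 ^ (L + 8) := by
      calc ph ^ Lc ≤ ph ^ (L + 8) := pow_le_pow_right₀ Jd.ph_ge_one hc'
        _ ≤ 2 ^ (L + 8) := pow_le_pow_left₀ Jd.ph_pos.le Jd.ph_le_two _
    have h2 : (2 : ℝ) ^ L ≤ (9 : ℝ) ^ (2 * L) := by
      calc (2 : ℝ) ^ L ≤ 9 ^ L := pow_le_pow_left₀ (by norm_num) (by norm_num) _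
        _ ≤ 9 ^ (2 * L) := pow_le_pow_right₀ (by norm_num) (by omega)
    have h3 : (2 : ℝ) ^ L * 8 ^ 20 ≤ Q := by
      calc (2 : ℝ) ^ L * 8 ^ 20 ≤ (9 : ℝ) ^ (2 * L) * (1 / l) ^ N0 := by
            apply mul_le_mul h2 (h820.trans hinvN) (by positivity) (by positivity)
        _ ≤ Q := h9Q
    have h4 : (Q : ℝ) * 1 ≤ Q * (1 / l) ^ N0 :=
      mul_le_mul_of_nonneg_left (one_le_pow₀ hinv1) hQ0.le
    have h5 : (2 : ℝ) ^ L * 8 ^ 20 ≤ 2 ^ (L + 8) := by linarith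
    rw [pow_add] at h5
    have h6 : (0 : ℝ) < 2 ^ L := by positivity
    have h7 : (8 : ℝ) ^ 20 ≤ 2 ^ 8 := le_of_mul_le_mul_left h5 h6
    norm_num at h7
  have hLθ : (L : ℝ) * θ ≤ 1 := by
    have : (L : ℝ) ≤ Lc := by exact_mod_cast (by omega : L ≤ Lc)
    have := mul_le_mul_of_nonneg_right this hθ0.le
    linarith
  -- key smallness
  have hkey : (9 : ℝ) ^ (L + 8) * 2 / Q ≤ θ ^ N0 := by
    rw [div_le_iff₀ hQ0]
    have h1 : θ ^ N0 * ((9 : ℝ) ^ (2 * L) * (1 / l) ^ N0) ≤ θ ^ N0 * Q :=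
      mul_le_mul_of_nonneg_left h9Q (by positivity)
    refine le_trans ?_ h1
    have h2 : l * (1 / l) ^ N0 ≤ θ ^ N0 * (1 / l) ^ N0 :=
      mul_le_mul_of_nonneg_right hlθ (by positivity)
    have h3 : l * (1 / l) ^ N0 = (1 / l) ^ (N0 - 1) := by
      have : (1 / l) ^ N0 = (1 / l) ^ (N0 - 1) * (1 / l) := by
        rw [← pow_succ, Nat.sub_add_cancel (by omega)]
      rw [this, mul_comm l, mul_assoc, one_div_mul_cancel hl0.ne', mul_one]
    have h4 : (8 : ℝ) ^ 19 ≤ (1 / l) ^ (N0 - 1) := by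
      calc (8 : ℝ) ^ 19 ≤ (8 : ℝ) ^ (N0 - 1) := pow_le_pow_right₀ (by norm_num) (by omega)
        _ ≤ (1 / l) ^ (N0 - 1) := pow_le_pow_left₀ (by norm_num) hinv _
    have h5 : (9 : ℝ) ^ 8 * 2 ≤ θ ^ N0 * (1 / l) ^ N0 := by
      have : (9 : ℝ) ^ 8 * 2 ≤ 8 ^ 19 := by norm_num
      linarith
    have h6 : (9 : ℝ) ^ L ≤ 9 ^ (2 * L) := pow_le_pow_right₀ (by norm_num) (by omega)
    calc (9 : ℝ) ^ (L + 8) * 2 = 9 ^ L * (9 ^ 8 * 2) := by ring
      _ ≤ 9 ^ (2 * L) * (θ ^ N0 * (1 / l) ^ N0) :=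
          mul_le_mul h6 h5 (by positivity) (by positivity)
      _ = θ ^ N0 * (9 ^ (2 * L) * (1 / l) ^ N0) := by ring
  -- the window
  set ℓ' : ℝ := ℓ / Q with hℓ'
  have hℓ'0 : 0 < ℓ' := div_pos hℓ0 hQ0
  have hℓ'1 : ℓ' ≤ ℓ := div_le_self hℓ0.le hQ1
  have hj1 : E0 - 4 * ℓ ≤ (j : ℝ) * ℓ' := by
    have h1 : (E0 - 4 * ℓ) * Q / ℓ ≤ j := Int.ceil_le.1 (Finset.mem_Icc.1 hj).1
    have h2 : (E0 - 4 * ℓ) * Q / ℓ * ℓ' ≤ (j : ℝ) * ℓ' := mul_le_mul_of_nonneg_right h1 hℓ'0.le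
    have h3 : (E0 - 4 * ℓ) * Q / ℓ * ℓ' = E0 - 4 * ℓ := by
      rw [hℓ']
      field_simp
    rw [h3] at h2
    exact h2
  have hj2 : (j : ℝ) * ℓ' ≤ E0 + 4 * ℓ := by
    have h1 : (j : ℝ) ≤ (E0 + 4 * ℓ) * Q / ℓ := Int.le_floor.1 (Finset.mem_Icc.1 hj).2
    have h2 : (j : ℝ) * ℓ' ≤ (E0 + 4 * ℓ) * Q / ℓ * ℓ' := mul_le_mul_of_nonneg_right h1 hℓ'0.le
    have h3 : (E0 + 4 * ℓ) * Q / ℓ * ℓ' = E0 + 4 * ℓ := by
      rw [hℓ']
      field_simp
    rw [h3] at h2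
    exact h2
  have hwin : ∀ x : ℝ, (j : ℝ) * ℓ' ≤ x → x < ((j : ℝ) + 1) * ℓ' → |x - E0| ≤ 5 * ℓ := by
    intro x h1 h2
    rw [add_mul, one_mul] at h2
    rw [abs_le]
    constructor <;> linarith
  obtain ⟨htR, ht1, ht2⟩ := ht
  obtain ⟨E, hE1, hE2, hEty⟩ := hTy
  set E' : ℝ := EK K l t with hE'
  have hE'0 := hwin E' ht1 ht2
  have hE0 := hwin E hE1 hE2
  have hEE' : |E' - E| ≤ ℓ' := by
    have e1 : ((j : ℝ) + 1) * ℓ' = j * ℓ' + ℓ' := by ring
    rw [e1] at hE2 ht2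
    rw [abs_le]
    constructor <;> linarith
  -- Dist
  have hρm0 : 0 ≤ rho m E0 l := (abs_nonneg _).trans (le_max_left _ _)
  have hOkD : OkT CD θ l L := by
    refine ⟨hθ0, ?_, hl0, hlθ.trans (hpowle nD), ?_, hLθ⟩
    · have : (CD : ℝ) ≤ N0 := by exact_mod_cast nD
      have := mul_le_mul_of_nonneg_right this hθ0.le
      linarith
    · exact (pow_le_pow_right₀ hinv1 nD).trans hlL
  have hdist : ∀ x : ℝ, |x - E0| ≤ 5 * ℓ → |x - E0| * rho m E0 l ≤ θ ^ CD := by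
    intro x hx
    calc |x - E0| * rho m E0 l ≤ 5 * ℓ * rho m E0 l := mul_le_mul_of_nonneg_right hx hρm0
      _ = 5 * (rho m E0 l * ℓ) := by ring
      _ ≤ 5 * θ ^ C1 := by linarith
      _ ≤ 5 * θ ^ (CD + 1) := by
          have := hpowle hC1
          linarith
      _ = (5 * θ) * θ ^ CD := by ring
      _ ≤ 1 * θ ^ CD := mul_le_mul_of_nonneg_right (by linarith) (by positivity)
      _ = θ ^ CD := one_mul _
  obtain ⟨hDE1, hDE2⟩ := hD m L E0 E l θ hOkD (by omega) hTw (hdist E hE0)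
  obtain ⟨hDF1, hDF2⟩ := hD m L E0 E' l θ hOkD (by omega) hTw (hdist E' hE'0)
  have hρE : rho m E l ≤ 2 * rho m E0 l := (hDE2 m (by omega) le_rfl).2
  have hρE' : rho m E0 l ≤ 2 * rho m E' l := (hDF2 m (by omega) le_rfl).1
  have hρmE : 0 ≤ rho m E l := (abs_nonneg _).trans (le_max_left _ _)
  -- old levels at E and E'
  have hold : ∀ x : ℝ, (∀ j, m - L ≤ j → j ≤ m + 8 → |tr j x l - tr j E0 l| ≤ θ ^ 4) →
      ∀ j, m - L ≤ j → j ≤ m + 8 → θ ^ 4 ≤ 1 - tr j x l ^ 2 := by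
    intro x hx j hj1 hj2
    have h1 := hTw j hj1 hj2
    have h2 := hx j hj1 hj2
    have h3 : θ ^ 4 = θ ^ 2 * θ ^ 2 := by ring
    rw [h3] at h2 ⊢
    exact Jd.close_aux hθ0 hθ2 (by positivity) h1 h2
  -- bound rho ℓ' for later levels
  have hsmall : ∀ i, m ≤ i → i ≤ m + L + 8 → rho i E l ≤ 9 ^ (i - m) * rho m E l →
      rho i E l * ℓ' ≤ θ ^ N0 := by
    intro i hi1 hi2 h
    have h9 : (9 : ℝ) ^ (i - m) ≤ 9 ^ (L + 8) := pow_le_pow_right₀ (by norm_num) (by omega)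
    calc rho i E l * ℓ' ≤ (9 ^ (i - m) * rho m E l) * ℓ' :=
          mul_le_mul_of_nonneg_right h hℓ'0.le
      _ ≤ (9 ^ (L + 8) * rho m E l) * ℓ' := by
          apply mul_le_mul_of_nonneg_right _ hℓ'0.le
          exact mul_le_mul_of_nonneg_right h9 hρmE
      _ ≤ (9 ^ (L + 8) * (2 * rho m E0 l)) * ℓ' := by
          apply mul_le_mul_of_nonneg_right _ hℓ'0.le
          exact mul_le_mul_of_nonneg_left hρE (by positivity)
      _ = (9 ^ (L + 8) * 2 / Q) * (rho m E0 l * ℓ) := by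
          rw [hℓ']
          ring
      _ ≤ θ ^ N0 * 1 := by
          apply mul_le_mul hkey _ (mul_nonneg hρm0 hℓ0.le) (by positivity)
          exact hρ1.trans (pow_le_one₀ hθ0.le hθ1)
      _ = θ ^ N0 := mul_one _
  -- induction over the levels
  have hind : ∀ n, n ≤ L + 8 → ∀ i, m ≤ i → i ≤ m + n →
      rho i E l ≤ 9 ^ (i - m) * rho m E l ∧ (θ ^ k) ^ 2 ≤ 1 - tr i E l ^ 2 := by
    intro n
    induction n with
    | zero =>
      intro _ i hi1 hi2
      have him : i = m := by omega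
      subst him
      have hb : rho i E l ≤ 9 ^ (i - i) * rho i E l := by simp
      refine ⟨hb, ?_⟩
      refine hEty i le_rfl (by omega) ?_
      intro i' h1 h2
      have : i' = i := by omega
      subst this
      calc rho i' E l * ℓ' ≤ θ ^ N0 := hsmall i' le_rfl (by omega) hb
        _ ≤ θ ^ (k * C4) := hpowle n4
        _ = (θ ^ k) ^ C4 := pow_mul _ _ _
    | succ n ih =>
      intro hn i hi1 hi2
      have ih' := ih (by omega)
      rcases Nat.lt_or_ge i (m + n + 1) with hlt | hge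
      · exact ih' i hi1 (by omega)
      have hi : i = m + n + 1 := by omega
      subst hi
      -- traces of the levels m+n, m+n-1
      have hL1 : 1 ≤ L := by
        by_contra hc
        have : L = 0 := by omega
        rw [this, pow_zero] at hlL
        have : (8 : ℝ) ^ 20 ≤ 1 := h820.trans (hinvN.trans hlL)
        norm_num at this
      have hone : ∀ i', m - 1 ≤ i' → i' ≤ m + n → |tr i' E l| ≤ 1 := by
        intro i' h1 h2
        rcases Nat.lt_or_ge i' m with hlt | hge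
        · exact Jd.abs_le_one_of (by positivity) (hold E hDE1 i' (by omega) (by omega))
        · exact Jd.abs_le_one_of (by positivity) (ih' i' hge h2).2
      obtain ⟨q, hq⟩ : ∃ q, m + n = q + 1 := ⟨m + n - 1, by omega⟩
      have htr := Jd.next2 q E l hl0 hl1 (hone q (by omega) (by omega))
        (hone (q + 1) (by omega) (by omega))
      have hrr := (hR (q + 1) E l (by simpa using htr.1) (by simpa using htr.2)).1
      have hstep : rho (m + n + 1) E l ≤ 9 ^ (m + n + 1 - m) * rho m E l := by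
        have h1 := (ih' (m + n) (by omega) le_rfl).1
        have e1 : m + n + 1 - m = (m + n - m) + 1 := by omega
        rw [e1, pow_succ]
        rw [hq]
        rw [hq] at h1
        linarith
      refine ⟨hstep, ?_⟩
      refine hEty (m + n + 1) (by omega) (by omega) ?_
      intro i' h1 h2
      have hb : rho i' E l ≤ 9 ^ (i' - m) * rho m E l := by
        rcases Nat.lt_or_ge i' (m + n + 1) with hlt | hge
        · exact (ih' i' h1 (by omega)).1
        · have : i' = m + n + 1 := by omega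
          rw [this]
          exact hstep
      calc rho i' E l * ℓ' ≤ θ ^ N0 := hsmall i' h1 (by omega) hb
        _ ≤ θ ^ (k * C4) := hpowle n4
        _ = (θ ^ k) ^ C4 := pow_mul _ _ _
  have hnew := hind (L + 8) le_rfl
  have hθk0 : 0 < θ ^ k := by positivity
  have hθk2 : θ ^ k ≤ 1 / 2 := by
    calc θ ^ k ≤ θ ^ 1 := hpowle hk
      _ = θ := pow_one θ
      _ ≤ 1 / 2 := hθ2
  -- transfer to E'
  have htrans : ∀ i, m ≤ i → i ≤ m + L + 8 → θ ^ (2 * (k + 1)) ≤ 1 - tr i E' l ^ 2 := by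
    intro i hi1 hi2
    obtain ⟨n, hn1, hn2, hn3, hn4⟩ : ∃ n, m ≤ n ∧ n ≤ m + L ∧ n ≤ i ∧ i ≤ n + 8 := by
      rcases Nat.lt_or_ge i (m + L) with h | h
      · exact ⟨i, hi1, h.le, le_rfl, by omega⟩
      · exact ⟨m + L, by omega, le_rfl, h, by omega⟩
    have hND : ND (θ ^ k) n E l := by
      right
      refine ⟨hlθ.trans (hpowle nk), ?_⟩
      intro j hj1 hj2
      exact (hnew j (by omega) (by omega)).2
    have hρn : 0 ≤ rho n E l := (abs_nonneg _).trans (le_max_left _ _)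
    have hsz : (‖((E' - E : ℝ) : ℂ)‖ + ‖(0 : ℂ)‖) * rho n E l ≤ θ ^ N0 := by
      rw [norm_zero, add_zero, Complex.norm_real, Real.norm_eq_abs]
      calc |E' - E| * rho n E l ≤ ℓ' * rho n E l := mul_le_mul_of_nonneg_right hEE' hρn
        _ = rho n E l * ℓ' := by ring
        _ ≤ θ ^ N0 := hsmall n hn1 (by omega) (hnew n hn1 (by omega)).1
    have hSS := hS n E l (θ ^ k) ⟨hl0, hl8, hθk0, hθk2⟩ hND ((E' - E : ℝ) : ℂ) 0
      (by
        rw [← pow_mul]
        exact hsz.trans (hpowle nS')) i hn3 hn4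
    have e1 : ((E : ℂ) + ((E' - E : ℝ) : ℂ)) = ((E' : ℝ) : ℂ) := by
      push_cast
      ring
    rw [e1, add_zero, tr_ofReal, ← Complex.ofReal_sub, Complex.norm_real, Real.norm_eq_abs,
      ← pow_mul] at hSS
    have h1 : θ ^ (k * CS) * |tr i E' l - tr i E l| ≤ θ ^ (k * CS) * θ ^ (2 * k + 2) := by
      rw [← pow_add]
      exact (hSS.trans hsz).trans (hpowle nS)
    have h2 : |tr i E' l - tr i E l| ≤ θ ^ (2 * k + 2) :=
      le_of_mul_le_mul_left h1 (by positivity)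
    have h3 := (hnew i hi1 (by omega)).2
    have e2 : θ ^ (2 * k + 2) = (θ ^ k) ^ 2 * θ ^ 2 := by
      rw [← pow_mul, ← pow_add]
      congr 1
      ring
    have e3 : 2 * (k + 1) = 2 * k + 2 := by ring
    rw [e3, e2]
    rw [e2] at h2
    exact Jd.close_aux hθ0 hθ2 (by positivity) h3 h2
  have hTwE' : Tw (θ ^ (k + 1)) (m - L) (m + L + 8) E' l := by
    intro i hi1 hi2
    rw [← pow_mul]
    rcases Nat.lt_or_ge i m with h | h
    · have h1 := hold E' hDF1 i hi1 (by omega)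
      refine le_trans (hpowle ?_) h1
      omega
    · have := htrans i h hi2
      rw [show (k + 1) * 2 = 2 * (k + 1) by ring]
      exact this
  -- VTyp
  have hOkV : OkT CV (θ ^ (k + 1)) l L := by
    have hle : θ ^ (k + 1) ≤ θ := by
      calc θ ^ (k + 1) ≤ θ ^ 1 := hpowle (by omega)
        _ = θ := pow_one θ
    refine ⟨by positivity, ?_, hl0, ?_, (pow_le_pow_right₀ hinv1 nCV).trans hlL, ?_⟩
    · have h1 : (CV : ℝ) ≤ N0 := by exact_mod_cast nCV
      have h2 : (CV : ℝ) * θ ^ (k + 1) ≤ N0 * θ := by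
        apply mul_le_mul h1 hle (by positivity) (by positivity)
      linarith
    · rw [← pow_mul]
      exact hlθ.trans (hpowle nV)
    · have : (L : ℝ) * θ ^ (k + 1) ≤ L * θ := mul_le_mul_of_nonneg_left hle (by positivity)
      linarith
  have htrK : |tr K E' l| < 1 := Jd.tr_lt hQ hT K (by omega) l hl0 hl8 t htR
  have hVV := (hV m L K E' l (θ ^ (k + 1)) hOkV (by omega) htrK (by omega)).2 hTwE'
  rw [← pow_mul] at hVV
  have hY := hβ E' (by linarith)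
  -- conclusion
  have hVK : VK K l t = Vx K E' l := rfl
  rw [hVK]
  set X : ℝ := |Vx K E' l - vv m E' l| with hX
  set Y : ℝ := |vv m E' l - (β * E' + γ)| with hYd
  have hX0 : 0 ≤ X := abs_nonneg _
  have hY0 : 0 ≤ Y := abs_nonneg _
  have hlℓ : 0 < l * ℓ := mul_pos hl0 hℓ0
  have hXb : θ ^ ((k + 1) * CV + C1) * X ≤ 18 * (l * ℓ) := by
    have h1 : θ ^ C1 ≤ 18 * (rho m E' l * ℓ) := by
      have : rho m E0 l * ℓ ≤ 2 * rho m E' l * ℓ := mul_le_mul_of_nonneg_right hρE' hℓ0.le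
      linarith
    calc θ ^ ((k + 1) * CV + C1) * X = (θ ^ ((k + 1) * CV) * X) * θ ^ C1 := by
          rw [pow_add]
          ring
      _ ≤ (θ ^ ((k + 1) * CV) * X) * (18 * (rho m E' l * ℓ)) :=
          mul_le_mul_of_nonneg_left h1 (by positivity)
      _ = 18 * ℓ * (θ ^ ((k + 1) * CV) * rho m E' l * X) := by ring
      _ ≤ 18 * ℓ * l := mul_le_mul_of_nonneg_left hVV (by positivity)
      _ = 18 * (l * ℓ) := by ring
  have hexp : (k + 1) * CV + C1 + 2 ≤ Ca + (C1 + 2 * CV + 2) * k := by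
    have e1 : (k + 1) * CV = CV * k + CV := by ring
    have e2 : (C1 + 2 * CV + 2) * k = C1 * k + 2 * (CV * k) + 2 * k := by ring
    have e3 : CV ≤ CV * k := Nat.le_mul_of_pos_right _ (by omega)
    have e4 : C1 ≤ C1 * k := Nat.le_mul_of_pos_right _ (by omega)
    omega
  have hX2 : θ ^ (Ca + (C1 + 2 * CV + 2) * k) * X ≤ l * ℓ / 2 := by
    calc θ ^ (Ca + (C1 + 2 * CV + 2) * k) * X ≤ θ ^ ((k + 1) * CV + C1 + 2) * X :=
          mul_le_mul_of_nonneg_right (hpowle hexp) hX0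
      _ = θ ^ 2 * (θ ^ ((k + 1) * CV + C1) * X) := by
          rw [pow_add]
          ring
      _ ≤ θ ^ 2 * (18 * (l * ℓ)) := mul_le_mul_of_nonneg_left hXb (by positivity)
      _ ≤ l * ℓ / 2 := by
          have h1 : θ ^ 2 ≤ (1 / 20) ^ 2 := pow_le_pow_left₀ hθ0.le hθ20 2
          have h2 := mul_le_mul_of_nonneg_right h1 (by positivity : 0 ≤ 18 * (l * ℓ))
          linarith
  have hY2 : θ ^ (Ca + (C1 + 2 * CV + 2) * k) * Y ≤ l * ℓ / 2 := by
    have h1 : 1 ≤ (C1 + 2 * CV + 2) * k := Nat.mul_pos (by omega) (by omega)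
    calc θ ^ (Ca + (C1 + 2 * CV + 2) * k) * Y
        = θ ^ ((C1 + 2 * CV + 2) * k) * (θ ^ Ca * Y) := by
          rw [pow_add]
          ring
      _ ≤ θ ^ 1 * (l * ℓ) := by
          apply mul_le_mul (hpowle h1) hY (by positivity) (by positivity)
      _ ≤ l * ℓ / 2 := by
          rw [pow_one]
          have := mul_le_mul_of_nonneg_right hθ2 hlℓ.le
          linarith
  calc θ ^ (Ca + (C1 + 2 * CV + 2) * k) * |Vx K E' l - (β * E' + γ)|
      ≤ θ ^ (Ca + (C1 + 2 * CV + 2) * k) * (X + Y) := by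
        apply mul_le_mul_of_nonneg_left _ (by positivity)
        have : Vx K E' l - (β * E' + γ) =
            (Vx K E' l - vv m E' l) + (vv m E' l - (β * E' + γ)) := by ring
        rw [this]
        exact abs_add_le _ _
    _ = θ ^ (Ca + (C1 + 2 * CV + 2) * k) * X + θ ^ (Ca + (C1 + 2 * CV + 2) * k) * Y := by ring
    _ ≤ l * ℓ := by linarith

end FIB
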