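import Pool.Agent.Helper75.FIB.Iface3

/-!
# FIB block Je : mass of typical cells

`E` = the typical point of cell `j`, `ℓ' = ℓ/Q`, `θk = θ^k`. Let `r ∈ [m, m+Lc]` be the largest index such that `rho i E ℓ' <= θk^{C4}` for all `m <= i <= r` (`rho m E ℓ' <= 2θ^{C1}/Q` is small). `E` is `θk`-typical on `[m,r]`, and `θ/2`-typical on `[m-L,m+8]` (Dist). Growth from below at `E` (GrLow `ε = θ^{k+1}`, or TauLow): `rho_i E >= θ^{Ck} φ^{i-m} rho m`; since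
`Q (1/l)^{N0} <= φ^{Lc}` this gives `r + 9 < m + Lc`, so `rho (r+1) E ℓ' > θk^{C4}`, and `r - 16 >= m` (`Q` large). `ThLin` at `m := r-8` around `E` (window `[r-16,r]` typical `θ^{k+1}`): the cell has length `ℓ'`, `ℓ' rho (r-8) <= θk^{C4} <= (θ^{k+1})^{C'}` if `C4 >= 2C'+2`: so the variation of `Th (r-8)` over the cell is `<= 2ℓ' τ <= 2 θk^{C4 -2} <= 1` and by NBound
`cm j <= (1 + 2C√l)/(π F_{r-8}) <= 1/F_{r-8} <= 50/F_r`-type bound. Growth from above (`GrUpTyp`, `ε = θ^{k+1}`, `n = m`, `n' = r - 8`): `rho (r-8) <= θ^{-Ck} φ^{r-m} rho m`, `rho (r-8) >= 9^{-9} rho (r+1) >= 9^{-9} θk^{C4}/ℓ'`; so `φ^{-(r-m)} <= θ^{-C'k} ℓ' rho m <= θ^{-C'k} (ℓ'/ℓ) 2 θ^{C1}`, `F_m cm j <= C φ^{-(r-m)} <= θ^{-C''k}/Q`.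
(Traces at levels between are `<= 1`, next ones bounded by the recursion. `(r-m) θ^{k+1} <= Lc θ <= 1` for GrUpTyp.)
-/

namespace FIB

open Real MeasureTheory Set Filter Topology

theorem h53_next {n : ℕ} {E l : ℝ} (hl : 0 < l) (h0 : |tr n E l| ≤ 1) (h1 : |tr (n + 1) E l| ≤ 1) :
    |tr (n + 2) E l| ≤ 1 + l / 2 := by
  have h := tr_inv_sq n E l
  set x := tr n E l
  set y := tr (n + 1) E l
  set z := tr (n + 2) E l
  by_contra hc
  push Not at hc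
  have ha : 0 ≤ |x| := abs_nonneg x
  have hb : 0 ≤ |y| := abs_nonneg y
  have hab : |x| * |y| ≤ 1 := mul_le_one₀ h0 hb h1
  have h2 : |z| - |x| * |y| ≤ |z - x * y| := by
    rw [← abs_mul]
    exact abs_sub_abs_le_abs_sub z (x * y)
  have h3 : (|z| - |x| * |y|) ^ 2 ≤ (z - x * y) ^ 2 := by
    rw [← sq_abs (z - x * y)]
    exact pow_le_pow_left₀ (by nlinarith) h2 2
  have hx : x ^ 2 = |x| ^ 2 := (sq_abs x).symm
  have hy : y ^ 2 = |y| ^ 2 := (sq_abs y).symm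
  rw [h, hx, hy] at h3
  nlinarith [sq_nonneg (|x| - |y|), mul_nonneg ha hb]

theorem h53_next2 {n : ℕ} {E l : ℝ} (hl : 0 < l) (hl1 : l ≤ 1 / 8) (h0 : |tr n E l| ≤ 1)
    (h1 : |tr (n + 1) E l| ≤ 1 + l / 2) : |tr (n + 2) E l| ≤ 2 := by
  by_cases hc : |tr (n + 1) E l| ≤ 1
  · have := h53_next hl h0 hc
    linarith
  push Not at hc
  have h := tr_inv_sq n E l
  set x := tr n E l
  set y := tr (n + 1) E l
  set z := tr (n + 2) E l
  have hx : x ^ 2 ≤ 1 := by rw [← sq_abs]; exact pow_le_one₀ (abs_nonneg _) h0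
  have hy : 1 ≤ y ^ 2 := by rw [← sq_abs]; exact one_le_pow₀ hc.le
  have h2 : (z - x * y) ^ 2 ≤ (l / 2) ^ 2 := by
    rw [h]
    nlinarith
  have h3 : |z - x * y| ≤ l / 2 := abs_le_of_sq_le_sq h2 (by positivity)
  have h4 : |z| ≤ |z - x * y| + |x * y| := by
    have := abs_add_le (z - x * y) (x * y)
    rwa [sub_add_cancel] at this
  have h5 : |x * y| ≤ 1 * (1 + l / 2) := by
    rw [abs_mul]
    exact mul_le_mul h0 h1 (abs_nonneg _) zero_le_one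
  linarith

theorem h53_chain (hR : RhoRatio) {E l : ℝ} (n : ℕ) : ∀ d : ℕ,
    (∀ i, n + 1 ≤ i → i ≤ n + d + 1 → |tr i E l| ≤ 2) →
    rho (n + d) E l ≤ 9 ^ d * rho n E l := by
  intro d
  induction d with
  | zero => intro _; simp
  | succ d ih =>
    intro h
    have h1 := ih (fun i hi hi' => h i hi (by omega))
    have h2 := (hR (n + d) E l (h _ (by omega) (by omega)) (h _ (by omega) (by omega))).1
    rw [show n + (d + 1) = n + d + 1 by ring, pow_succ]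
    linarith

theorem h53_fib (m n : ℕ) (hm : 1 ≤ m) :
    (Nat.fib m : ℝ) * ph ^ n ≤ ph * (Nat.fib (m + n) : ℝ) := by
  have hph : 0 < ph := by unfold ph; positivity
  have hsq : ph ^ 2 = ph + 1 := by
    unfold ph
    have := Real.sq_sqrt (show (0 : ℝ) ≤ 5 by norm_num)
    ring_nf
    rw [this]
    ring
  have hg : ∀ n : ℕ, ph ^ n ≤ ph * (Nat.fib (n + 1) : ℝ) ∧ ph ^ (n + 1) ≤ ph * (Nat.fib (n + 2) : ℝ) := by
    have hph1 : 1 ≤ ph := by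
      unfold ph
      have := Real.one_le_sqrt.2 (show (1 : ℝ) ≤ 5 by norm_num)
      linarith
    intro n
    induction n with
    | zero => simp; exact hph1
    | succ n ih =>
      refine ⟨ih.2, ?_⟩
      have h1 : Nat.fib (n + 1 + 2) = Nat.fib (n + 1) + Nat.fib (n + 2) := Nat.fib_add_two
      rw [h1]
      push_cast
      have h2 : ph ^ (n + 1 + 1) = ph ^ n + ph ^ (n + 1) := by
        have : ph ^ (n + 1 + 1) = ph ^ n * ph ^ 2 := by ring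
        rw [this, hsq]
        ring
      rw [h2]
      linarith [ih.1, ih.2]
  obtain ⟨m', rfl⟩ : ∃ m', m = m' + 1 := ⟨m - 1, by omega⟩
  have h1 : Nat.fib (m' + n + 1) = Nat.fib m' * Nat.fib n + Nat.fib (m' + 1) * Nat.fib (n + 1) :=
    Nat.fib_add m' n
  have h2 : Nat.fib (m' + 1) * Nat.fib (n + 1) ≤ Nat.fib (m' + 1 + n) := by
    rw [show m' + 1 + n = m' + n + 1 by ring, h1]
    omega
  have h3 : ((Nat.fib (m' + 1) : ℝ)) * (Nat.fib (n + 1) : ℝ) ≤ (Nat.fib (m' + 1 + n) : ℝ) := by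
    exact_mod_cast h2
  have h4 := (hg n).1
  have h5 : (0 : ℝ) ≤ (Nat.fib (m' + 1) : ℝ) := Nat.cast_nonneg _
  nlinarith [mul_le_mul_of_nonneg_left h4 h5]

theorem h53_typ {x y θ ε : ℝ} (hθ : 0 < θ) (hθ1 : θ ≤ 1 / 100) (hε0 : 0 ≤ ε) (hεθ : ε ≤ θ ^ 2)
    (h1 : θ ^ 2 ≤ 1 - x ^ 2) (h2 : |y - x| ≤ θ ^ 4) : ε ^ 2 ≤ 1 - y ^ 2 := by
  have hx2 : x ^ 2 ≤ 1 := by nlinarith [sq_nonneg θ]
  have hx : |x| ≤ 1 := (sq_le_one_iff_abs_le_one x).1 hx2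
  have h40 : 0 < θ ^ 4 := by positivity
  have h41 : θ ^ 4 ≤ 1 := pow_le_one₀ hθ.le (by linarith)
  have hy : |y| ≤ 2 := by
    have : |y| ≤ |y - x| + |x| := by
      have := abs_add_le (y - x) x
      rwa [sub_add_cancel] at this
    linarith
  have h3 : |y ^ 2 - x ^ 2| ≤ 3 * θ ^ 4 := by
    have : y ^ 2 - x ^ 2 = (y - x) * (y + x) := by ring
    rw [this, abs_mul]
    have h5 : |y + x| ≤ 3 := (abs_add_le y x).trans (by linarith)
    calc |y - x| * |y + x| ≤ θ ^ 4 * 3 := mul_le_mul h2 h5 (abs_nonneg _) h40.le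
      _ = 3 * θ ^ 4 := by ring
  have h4 : ε ^ 2 ≤ (θ ^ 2) ^ 2 := pow_le_pow_left₀ hε0 hεθ 2
  have h5 := abs_le.1 h3
  have h7 : θ ^ 2 ≤ 1 / 4 := by
    have : θ ^ 2 ≤ (1 / 100) ^ 2 := pow_le_pow_left₀ hθ.le hθ1 2
    norm_num at this
    linarith
  have h8 : θ ^ 4 = θ ^ 2 * θ ^ 2 := by ring
  have h9 : θ ^ 2 * θ ^ 2 ≤ 1 / 4 * θ ^ 2 := mul_le_mul_of_nonneg_right h7 (by positivity)
  have h10 : (θ ^ 2) ^ 2 = θ ^ 4 := by ring
  linarith [h5.1, h5.2]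

theorem h53_exp1 {CL C4 k : ℕ} (h : 2 * CL + 3 ≤ C4) (hk : 1 ≤ k) : CL * (k + 1) ≤ k * C4 := by
  nlinarith

theorem h53_exp2 {CL C4 k : ℕ} (h : 2 * CL + 3 ≤ C4) (hk : 1 ≤ k) : k + 1 + 1 ≤ k * C4 := by
  nlinarith

theorem h53_exp3 {CU C4 k : ℕ} (hk : 1 ≤ k) :
    k * C4 + CU * (k + 1) + 5 ≤ (2 * CU + C4 + 5) * k := by
  nlinarith

theorem h53_win {E0 ℓ E ℓ' j : ℝ} (hℓ' : 0 < ℓ') (h1 : ℓ' ≤ ℓ) (h2 : E0 - 4 * ℓ ≤ j * ℓ')
    (h3 : j * ℓ' ≤ E0 + 4 * ℓ) (h4 : j * ℓ' ≤ E) (h5 : E < (j + 1) * ℓ') : |E - E0| ≤ 5 * ℓ := by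
  have h6 : (j + 1) * ℓ' = j * ℓ' + ℓ' := by ring
  rw [abs_le]
  constructor <;> linarith

theorem h53_win1 {E ℓ' j : ℝ} (hℓ' : 0 < ℓ') (h4 : j * ℓ' ≤ E) (h5 : E < (j + 1) * ℓ') :
    |j * ℓ' - E| ≤ ℓ' ∧ |(j + 1) * ℓ' - E| ≤ ℓ' ∧ j * ℓ' ≤ (j + 1) * ℓ' := by
  have h6 : (j + 1) * ℓ' = j * ℓ' + ℓ' := by ring
  refine ⟨?_, ?_, ?_⟩
  · rw [abs_le]; constructor <;> linarith
  · rw [abs_le]; constructor <;> linarith
  · linarith

theorem h53_top {A B S M Q w U P8 : ℝ} (hA : 0 ≤ A) (hS : 0 ≤ S) (hQ : 0 < Q)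
    (hP0 : 0 ≤ P8) (hP8 : P8 ≤ 2 ^ 8) (h1 : B / (18 * Q) ≤ M) (h2 : A * S * M ≤ 1)
    (h3 : Q * w ≤ P8 * S) (hU : U = A * B) (hU0 : 0 ≤ U) (h4 : 100 ^ 3 ≤ U * w) : False := by
  have h5 : A * S * (B / (18 * Q)) ≤ 1 :=
    (mul_le_mul_of_nonneg_left h1 (by positivity)).trans h2
  have h6 : U * S ≤ 18 * Q := by
    have : A * S * (B / (18 * Q)) = U * S / (18 * Q) := by rw [hU]; ring
    rw [this, div_le_one (by positivity)] at h5
    exact h5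
  have h7 : P8 * (U * S) ≤ 2 ^ 8 * (18 * Q) :=
    mul_le_mul hP8 h6 (by positivity) (by positivity)
  have h8 : U * (Q * w) ≤ U * (P8 * S) := mul_le_mul_of_nonneg_left h3 hU0
  have h9 : 100 ^ 3 * Q ≤ U * w * Q := mul_le_mul_of_nonneg_right h4 hQ.le
  have h10 : U * w * Q = U * (Q * w) := by ring
  have h11 : U * (P8 * S) = P8 * (U * S) := by ring
  nlinarith

theorem h53_small {B Q τ w X M N : ℝ} (hQ : 0 < Q) (hB : B ≤ 1) (hM : M ≤ 2 * B / Q) (hN0 : 0 ≤ N)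
    (hN : N ≤ 9 ^ 16) (hM0 : 0 ≤ M) (h1 : τ < X) (h2 : X ≤ N * M) (hτ0 : 0 ≤ τ) (hw : w ≤ Q)
    (h3 : 100 ^ 9 ≤ τ * w) : False := by
  have h4 : N * M ≤ 9 ^ 16 * (2 / Q) := by
    have : 2 * B / Q ≤ 2 / Q := div_le_div_of_nonneg_right (by linarith) hQ.le
    exact mul_le_mul hN (hM.trans this) hM0 (by positivity)
  have h5 : τ * Q < 9 ^ 16 * (2 / Q) * Q := mul_lt_mul_of_pos_right (by linarith) hQ
  have h6 : 9 ^ 16 * (2 / Q) * Q = 9 ^ 16 * 2 := by field_simp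
  have h7 : τ * w ≤ τ * Q := mul_le_mul_of_nonneg_left hw hτ0
  rw [h6] at h5
  norm_num at h3 h5
  linarith

theorem h53_final {θ τe Φ G Q p : ℝ} (hθ : 0 < θ) (hθ1 : θ ≤ 1 / 100) (hQ : 0 < Q)
    (hG : 0 ≤ G) (hkey : τe ≤ Φ * (9 ^ 9 * (2 / Q))) (hGΦ : G * Φ ≤ 2) (hp : p ≤ τe * θ ^ 5) :
    p * G ≤ 1 / Q := by
  have h5 : 0 < θ ^ 5 := by positivity
  have hθ5 : θ ^ 5 * 10 ^ 10 ≤ 1 := by
    have h1 : θ ^ 5 ≤ (1 / 100) ^ 5 := pow_le_pow_left₀ hθ.le hθ1 5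
    norm_num at h1 ⊢
    linarith
  calc p * G ≤ τe * θ ^ 5 * G := mul_le_mul_of_nonneg_right hp hG
    _ = τe * (θ ^ 5 * G) := by ring
    _ ≤ (Φ * (9 ^ 9 * (2 / Q))) * (θ ^ 5 * G) := mul_le_mul_of_nonneg_right hkey (by positivity)
    _ = θ ^ 5 * (2 * 9 ^ 9) * (G * Φ) * (1 / Q) := by ring
    _ ≤ θ ^ 5 * (2 * 9 ^ 9) * 2 * (1 / Q) := by
        refine mul_le_mul_of_nonneg_right ?_ (by positivity)
        exact mul_le_mul_of_nonneg_left hGΦ (by positivity)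
    _ ≤ 1 * (1 / Q) := by
        refine mul_le_mul_of_nonneg_right ?_ (by positivity)
        norm_num
        linarith
    _ = 1 / Q := one_mul _

theorem h53_var {ρ ℓ' τ ε T R D V : ℝ} (hε : 0 < ε) (hℓ' : 0 < ℓ') (hT0 : 0 ≤ T)
    (hT : T ≤ ρ) (hR : ε ≤ R) (h1 : ρ * ℓ' ≤ τ) (h2 : 2 * τ ≤ ε) (hD : D = ℓ')
    (hV : V ≤ 2 * D * (T / R)) : V ≤ 1 := by
  have hρ0 : 0 ≤ ρ := hT0.trans hT
  have h3 : T / R ≤ ρ / ε := div_le_div₀ hρ0 hT hε hR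
  have h4 : 2 * D * (T / R) ≤ 2 * ℓ' * (ρ / ε) := by
    rw [hD]
    exact mul_le_mul_of_nonneg_left h3 (by positivity)
  have h5 : 2 * ℓ' * (ρ / ε) = 2 * (ρ * ℓ') / ε := by ring
  have h6 : 2 * (ρ * ℓ') / ε ≤ 1 := by
    rw [div_le_one hε]
    linarith
  linarith

theorem h53_mass {a b x y F c CN sl : ℝ} (hF : 0 < F) (h1 : |a - π * F * x| ≤ CN * sl)
    (h2 : |b - π * F * y| ≤ CN * sl) (h3 : a - b ≤ 1) (h4 : CN * sl ≤ 1 / 4) (hc : c = x - y) :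
    F * c ≤ 1 := by
  have e1 := abs_le.1 h1
  have e2 := abs_le.1 h2
  have h5 : π * (F * c) ≤ 3 / 2 := by
    have : π * (F * c) = π * F * x - π * F * y := by rw [hc]; ring
    rw [this]
    linarith [e1.1, e1.2, e2.1, e2.2]
  by_contra hcc
  push Not at hcc
  have h6 := Real.pi_gt_three
  nlinarith

theorem h53_hbig {θ l : ℝ} {N0 : ℕ} (hθ : 0 < θ) (hθ1 : θ ≤ 1 / 100) (hl : 0 < l) (hlθ : l ≤ θ)
    (a b : ℕ) (hab : a + b ≤ N0) : (100 : ℝ) ^ b ≤ θ ^ a * (1 / l) ^ N0 := by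
  have hθN : 1 ≤ θ ^ N0 * (1 / l) ^ N0 := by
    rw [← mul_pow]
    refine one_le_pow₀ ?_
    rw [← mul_div_assoc, mul_one, one_le_div hl]
    exact hlθ
  have hilpos : 0 < (1 / l) ^ N0 := by positivity
  have h1 : θ ^ N0 * (100 : ℝ) ^ b ≤ θ ^ a := by
    have h2 : θ ^ N0 ≤ θ ^ a * θ ^ b := by
      rw [← pow_add]
      exact pow_le_pow_of_le_one hθ.le (by linarith) hab
    have h3 : θ ^ b * (100 : ℝ) ^ b ≤ 1 := by
      rw [← mul_pow]
      exact pow_le_one₀ (by positivity) (by linarith)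
    calc θ ^ N0 * (100 : ℝ) ^ b ≤ θ ^ a * θ ^ b * 100 ^ b := mul_le_mul_of_nonneg_right h2 (by positivity)
      _ = θ ^ a * (θ ^ b * 100 ^ b) := by ring
      _ ≤ θ ^ a := mul_le_of_le_one_right (by positivity) h3
  calc (100 : ℝ) ^ b = 1 * 100 ^ b := (one_mul _).symm
    _ ≤ θ ^ N0 * (1 / l) ^ N0 * 100 ^ b := mul_le_mul_of_nonneg_right hθN (by positivity)
    _ = θ ^ N0 * 100 ^ b * (1 / l) ^ N0 := by ring
    _ ≤ θ ^ a * (1 / l) ^ N0 := mul_le_mul_of_nonneg_right h1 hilpos.le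

theorem typMass (hL : ThLin) (hN : NBound) (hG : GrLow) (hU : GrUpTyp) (hD : Dist) (hR : RhoRatio) : TypMass := by
  obtain ⟨CL, hL⟩ := hL
  obtain ⟨CN, hCN, hN⟩ := hN
  obtain ⟨CG, hG⟩ := hG
  obtain ⟨CU, hU⟩ := hU
  obtain ⟨CD, hD⟩ := hD
  refine ⟨CD + 1, 2 * CL + 3, ?_⟩
  intro C1 C4 hC1 hC4
  refine ⟨2 * CU + C4 + 5, ?_⟩
  intro k hk
  obtain ⟨cn, hcn⟩ := exists_nat_ge (4 * CN)
  obtain ⟨N0, hN0⟩ : ∃ N0 : ℕ, N0 = 100 + CD + CU * (k + 1) + CL * (k + 1) + CG * (k + 1) + C1 +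
    k * C4 + cn + k := ⟨_, rfl⟩
  refine ⟨N0, ?_⟩
  intro θ l L Lc Q K m E0 ℓ hLH j hj hT
  obtain ⟨hθ, hNθ, hl, hlN, hlL, hQ, hQLc, hLcθ, hℓ, hℓ1, hGood⟩ := hLH
  obtain ⟨hK, hLm, hmK, hρ1, hρ2, hTw⟩ := hGood
  -- elementary consequences
  have hN0' : (100 : ℝ) ≤ N0 := by
    have : 100 ≤ N0 := by rw [hN0]; omega
    exact_mod_cast this
  have hθ1 : θ ≤ 1 / 100 := by
    have := mul_le_mul_of_nonneg_right hN0' hθ.le
    rw [le_div_iff₀ (by norm_num)]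
    linarith
  have hθ2 : θ ≤ 1 := by linarith
  have hCθ : ∀ a : ℕ, a ≤ N0 → (a : ℝ) * θ ≤ 1 := by
    intro a ha
    have : (a : ℝ) ≤ N0 := by exact_mod_cast ha
    exact (mul_le_mul_of_nonneg_right this hθ.le).trans hNθ
  have hlθ : ∀ a : ℕ, a ≤ N0 → l ≤ θ ^ a := fun a ha =>
    hlN.trans (pow_le_pow_of_le_one hθ.le hθ2 ha)
  have hl100 : l ≤ θ := by simpa using hlθ 1 (by omega)
  have hl8 : l ≤ 1 / 8 := by linarith
  have hil : 100 ≤ 1 / l := by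
    rw [le_div_iff₀ hl]
    linarith
  have hil1 : 1 ≤ 1 / l := by linarith
  have hilpos : 0 < (1 / l) ^ N0 := by positivity
  have hil2 : 1 ≤ (1 / l) ^ N0 := one_le_pow₀ hil1
  have hph1 : 1 ≤ ph := by
    unfold ph
    have := Real.one_le_sqrt.2 (show (1 : ℝ) ≤ 5 by norm_num)
    linarith
  have hph2 : ph ≤ 2 := by
    unfold ph
    have : Real.sqrt 5 ≤ 3 := by
      rw [Real.sqrt_le_left (by norm_num)]
      norm_num
    linarith
  have hph0 : 0 < ph := by linarith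
  have hQ1 : (1 / l) ^ N0 ≤ (Q : ℝ) := by
    refine le_trans ?_ hQ
    have : (1 : ℝ) ≤ 9 ^ (2 * L) := one_le_pow₀ (by norm_num)
    exact le_mul_of_one_le_left hilpos.le this
  have hQ2 : (1 : ℝ) ≤ Q := hil2.trans hQ1
  have hQ0 : (0 : ℝ) < Q := by linarith
  have hLLc : 2 * L ≤ Lc := by
    have h1 : (9 : ℝ) ^ (2 * L) ≤ 9 ^ Lc := by
      calc (9 : ℝ) ^ (2 * L) ≤ 9 ^ (2 * L) * (1 / l) ^ N0 := le_mul_of_one_le_right (by positivity) hil2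
        _ ≤ Q := hQ
        _ ≤ Q * (1 / l) ^ N0 := le_mul_of_one_le_right hQ0.le hil2
        _ ≤ ph ^ Lc := hQLc
        _ ≤ 9 ^ Lc := pow_le_pow_left₀ hph0.le (by linarith) _
    exact (pow_le_pow_iff_right₀ (by norm_num)).1 h1
  have hL8 : 8 ≤ L := by
    by_contra hc
    push Not at hc
    have h1 : ph ^ L ≤ 2 ^ 8 := by
      calc ph ^ L ≤ 2 ^ L := pow_le_pow_left₀ hph0.le hph2 _
        _ ≤ 2 ^ 8 := pow_le_pow_right₀ (by norm_num) hc.le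
    have h2 : (100 : ℝ) ^ 2 ≤ (1 / l) ^ N0 := by
      calc (100 : ℝ) ^ 2 ≤ (1 / l) ^ 2 := pow_le_pow_left₀ (by norm_num) hil 2
        _ ≤ (1 / l) ^ N0 := pow_le_pow_right₀ hil1 (by omega)
    have := h2.trans (hlL.trans h1)
    norm_num at this
  have hLθ : (L : ℝ) * θ ≤ 1 := by
    have : (L : ℝ) ≤ Lc := by exact_mod_cast (by omega : L ≤ Lc)
    exact (mul_le_mul_of_nonneg_right this hθ.le).trans hLcθ
  -- the point of the cell
  obtain ⟨ℓ', hℓ'⟩ : ∃ ℓ' : ℝ, ℓ' = ℓ / Q := ⟨_, rfl⟩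
  have hℓ'0 : 0 < ℓ' := by rw [hℓ']; positivity
  have hℓ'1 : ℓ' ≤ ℓ := by rw [hℓ']; exact div_le_self hℓ.le hQ2
  rw [← hℓ'] at hT
  obtain ⟨E, hE1, hE2, hT⟩ := hT
  have hjw : E0 - 4 * ℓ ≤ (j : ℝ) * ℓ' ∧ (j : ℝ) * ℓ' ≤ E0 + 4 * ℓ := by
    unfold wn at hj
    rw [Finset.mem_Icc] at hj
    have h1 := Int.ceil_le.1 hj.1
    have h2 := Int.le_floor.1 hj.2
    rw [div_le_iff₀ hℓ] at h1
    rw [le_div_iff₀ hℓ] at h2
    rw [hℓ']
    constructor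
    · rw [← mul_div_assoc, le_div_iff₀ hQ0]
      exact h1
    · rw [← mul_div_assoc, div_le_iff₀ hQ0]
      exact h2
  have hEE0 : |E - E0| ≤ 5 * ℓ := h53_win hℓ'0 hℓ'1 hjw.1 hjw.2 hE1 hE2
  have hρ0 : ∀ n x, 0 ≤ rho n x l := fun n x => le_max_of_le_left (abs_nonneg _)
  have hdist := hD m L E0 E l θ
    ⟨hθ, hCθ CD (by omega), hl, hlθ CD (by omega),
      (pow_le_pow_right₀ hil1 (by omega)).trans hlL, hLθ⟩ (by omega) hTw (by
        calc |E - E0| * rho m E0 l ≤ 5 * ℓ * rho m E0 l :=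
              mul_le_mul_of_nonneg_right hEE0 (hρ0 _ _)
          _ = 5 * (rho m E0 l * ℓ) := by ring
          _ ≤ 5 * θ ^ C1 := by linarith
          _ ≤ 5 * θ ^ (CD + 1) := by
              have := pow_le_pow_of_le_one hθ.le hθ2 hC1
              linarith
          _ ≤ θ ^ CD := by
              rw [pow_succ]
              have h5 : 0 < θ ^ CD := by positivity
              have h6 : θ ^ CD * θ ≤ θ ^ CD * (1 / 100) := mul_le_mul_of_nonneg_left hθ1 h5.le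
              linarith)
  obtain ⟨hdt, hdr⟩ := hdist
  -- the threshold
  obtain ⟨ε, hε⟩ : ∃ ε : ℝ, ε = θ ^ (k + 1) := ⟨_, rfl⟩
  have hε0 : 0 < ε := by rw [hε]; positivity
  have hεθ : ε ≤ θ ^ 2 := by rw [hε]; exact pow_le_pow_of_le_one hθ.le hθ2 (by omega)
  have hεk : ε ≤ θ ^ k := by rw [hε]; exact pow_le_pow_of_le_one hθ.le hθ2 (by omega)
  have hεθ' : ε ≤ θ := by rw [hε]; simpa using pow_le_pow_of_le_one hθ.le hθ2 (show 1 ≤ k + 1 by omega)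
  have hεpow : ∀ a : ℕ, ε ^ a = θ ^ (a * (k + 1)) := by
    intro a
    rw [hε, ← pow_mul, mul_comm]
  have hCε : ∀ a : ℕ, a ≤ N0 → (a : ℝ) * ε ≤ 1 := by
    intro a ha
    exact (mul_le_mul_of_nonneg_left hεθ' (Nat.cast_nonneg a)).trans (hCθ a ha)
  have hkk : ∀ a : ℕ, a ≤ a * (k + 1) := fun a => Nat.le_mul_of_pos_right a (by omega)
  -- typicality near m
  have hty1 : ∀ i, m - L ≤ i → i ≤ m + 8 → ε ^ 2 ≤ 1 - tr i E l ^ 2 := fun i hi1 hi2 =>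
    h53_typ hθ hθ1 hε0.le hεθ (hTw i hi1 hi2) (hdt i hi1 hi2)
  -- the last index
  have hρm1 : rho m E l * ℓ' ≤ 2 * θ ^ C1 / Q := by
    have h1 := (hdr m (by omega) le_rfl).2
    rw [hℓ', ← mul_div_assoc]
    apply div_le_div_of_nonneg_right _ hQ0.le
    have h2 := mul_le_mul_of_nonneg_right h1 hℓ.le
    linarith
  have hρm2 : θ ^ C1 / (18 * Q) ≤ rho m E l * ℓ' := by
    have h1 := (hdr m (by omega) le_rfl).1
    rw [hℓ', ← mul_div_assoc, div_le_div_iff₀ (by positivity) hQ0]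
    have h2 : θ ^ C1 ≤ 18 * (rho m E l * ℓ) := by
      have h3 := mul_le_mul_of_nonneg_right h1 hℓ.le
      linarith
    calc θ ^ C1 * Q ≤ 18 * (rho m E l * ℓ) * Q := mul_le_mul_of_nonneg_right h2 hQ0.le
      _ = rho m E l * ℓ * (18 * Q) := by ring
  have hbig : ∀ a b : ℕ, a + b ≤ N0 → (100 : ℝ) ^ b ≤ θ ^ a * (1 / l) ^ N0 :=
    fun a b hab => h53_hbig hθ hθ1 hl hl100 a b hab
  obtain ⟨τ, hτ⟩ : ∃ τ : ℝ, τ = (θ ^ k) ^ C4 := ⟨_, rfl⟩
  have hτe : τ = θ ^ (k * C4) := by rw [hτ, ← pow_mul]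
  have hτ0 : 0 < τ := by rw [hτ]; positivity
  have hτ1 : τ ≤ 1 := by rw [hτe]; exact pow_le_one₀ hθ.le hθ2
  let P : ℕ → Prop := fun i => ∀ i', m ≤ i' → i' ≤ i → rho i' E l * ℓ' ≤ τ
  have hPty : ∀ i, i ≤ m + Lc → P i → ∀ i', m ≤ i' → i' ≤ i → (θ ^ k) ^ 2 ≤ 1 - tr i' E l ^ 2 := by
    intro i hi hPi i' h1 h2
    refine hT i' h1 (by omega) ?_
    intro i'' h3 h4
    rw [← hτ]
    exact hPi i'' h3 (by omega)
  have hPty' : ∀ i, i ≤ m + Lc → P i → ∀ i', m - L ≤ i' → i' ≤ i → ε ^ 2 ≤ 1 - tr i' E l ^ 2 := by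
    intro i hi hPi i' h1 h2
    by_cases h3 : m ≤ i'
    · exact (pow_le_pow_left₀ hε0.le hεk 2).trans (hPty i hi hPi i' h3 h2)
    · exact hty1 i' h1 (by omega)
  have hPm : P m := by
    intro i' h1 h2
    have : i' = m := by omega
    rw [this]
    refine hρm1.trans ?_
    rw [div_le_iff₀ hQ0, hτe]
    have h3 := hbig (k * C4) 1 (by omega)
    have h4 : θ ^ C1 ≤ 1 := pow_le_one₀ hθ.le hθ2
    have h5 : θ ^ (k * C4) * (1 / l) ^ N0 ≤ θ ^ (k * C4) * Q :=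
      mul_le_mul_of_nonneg_left hQ1 (by positivity)
    linarith
  have hPtop : ¬ P (m + Lc) := by
    intro hP
    obtain ⟨s, hs⟩ : ∃ s, s = m + Lc - 8 := ⟨_, rfl⟩
    have hty := hPty' (m + Lc) le_rfl hP
    have hg := hG m s E l ε ⟨hl, hl8, hε0, by linarith⟩ (by omega)
      (Or.inr ⟨(hlθ (k + 1) (by omega)).trans (le_of_eq hε.symm), fun i h1 h2 => hty i (by omega) (by omega)⟩)
      (Or.inr ⟨(hlθ (k + 1) (by omega)).trans (le_of_eq hε.symm), fun i h1 h2 => hty i (by omega) (by omega)⟩)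
    have h1 : rho s E l * ℓ' ≤ 1 := (hP s (by omega) (by omega)).trans hτ1
    have h2 : ε ^ CG * ph ^ (s - m) * (rho m E l * ℓ') ≤ 1 := by
      calc ε ^ CG * ph ^ (s - m) * (rho m E l * ℓ') = (ε ^ CG * ph ^ (s - m) * rho m E l) * ℓ' := by
            ring
        _ ≤ rho s E l * ℓ' := mul_le_mul_of_nonneg_right hg hℓ'0.le
        _ ≤ 1 := h1
    have h4 : ph ^ Lc = ph ^ 8 * ph ^ (s - m) := by
      rw [← pow_add]
      congr 1
      omega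
    exact h53_top (U := θ ^ (CG * (k + 1) + C1)) (by positivity) (by positivity) hQ0 (by positivity)
      (pow_le_pow_left₀ hph0.le hph2 8) hρm2 h2 (hQLc.trans (le_of_eq h4))
      (by rw [hεpow, pow_add]) (by positivity) (hbig (CG * (k + 1) + C1) 3 (by omega))
  obtain ⟨r, hr1, hr2, hPr, hPr1⟩ : ∃ r, m ≤ r ∧ r < m + Lc ∧ P r ∧ ¬ P (r + 1) := by
    by_contra hc
    push Not at hc
    have : ∀ d, d ≤ Lc → P (m + d) := by
      intro d
      induction d with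
      | zero => intro _; exact hPm
      | succ d ih =>
        intro hd
        exact hc (m + d) (by omega) (by omega) (ih (by omega))
    exact hPtop (this Lc le_rfl)
  have hρr : τ < rho (r + 1) E l * ℓ' := by
    by_contra hc
    push Not at hc
    apply hPr1
    intro i' h1 h2
    by_cases h3 : i' = r + 1
    · rw [h3]; exact hc
    · exact hPr i' h1 (by omega)
  have htyr := hPty' r (by omega) hPr
  -- bounded traces
  have hab1 : ∀ i, m - L ≤ i → i ≤ r → |tr i E l| ≤ 1 := by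
    intro i h1 h2
    have h3 := htyr i h1 h2
    have h4 : tr i E l ^ 2 ≤ 1 := by
      have := sq_nonneg ε
      linarith
    exact (sq_le_one_iff_abs_le_one _).1 h4
  have htr1 : |tr (r + 1) E l| ≤ 1 + l / 2 := by
    have h1 := h53_next (n := r - 1) (E := E) hl (hab1 _ (by omega) (by omega))
      (by rw [show r - 1 + 1 = r by omega]; exact hab1 _ (by omega) (by omega))
    rwa [show r - 1 + 2 = r + 1 by omega] at h1
  have htr2 : |tr (r + 2) E l| ≤ 2 := h53_next2 hl hl8 (hab1 _ (by omega) le_rfl) htr1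
  have hab2 : ∀ i, m ≤ i → i ≤ r + 2 → |tr i E l| ≤ 2 := by
    intro i h1 h2
    rcases Nat.lt_or_ge r i with h3 | h3
    · have : i = r + 1 ∨ i = r + 2 := by omega
      rcases this with rfl | rfl
      · linarith
      · exact htr2
    · have := hab1 i (by omega) h3
      linarith
  -- r is much larger than m
  have hrm : m + 16 ≤ r := by
    by_contra hc
    push Not at hc
    have h1 := h53_chain hR (E := E) (l := l) m (r + 1 - m) (fun i h1 h2 => hab2 i (by omega) (by omega))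
    rw [show m + (r + 1 - m) = r + 1 by omega] at h1
    have h2 : (9 : ℝ) ^ (r + 1 - m) ≤ 9 ^ 16 := pow_le_pow_right₀ (by norm_num) (by omega)
    have h3 : rho (r + 1) E l * ℓ' ≤ 9 ^ (r + 1 - m) * (rho m E l * ℓ') := by
      calc rho (r + 1) E l * ℓ' ≤ 9 ^ (r + 1 - m) * rho m E l * ℓ' :=
            mul_le_mul_of_nonneg_right h1 hℓ'0.le
        _ = 9 ^ (r + 1 - m) * (rho m E l * ℓ') := by ring
    exact h53_small hQ0 (pow_le_one₀ hθ.le hθ2) hρm1 (by positivity) h2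
      (mul_nonneg (hρ0 _ _) hℓ'0.le) hρr h3 hτ0.le hQ1
      (by rw [hτe]; exact hbig (k * C4) 9 (by omega))
  obtain ⟨s, rfl⟩ : ∃ s, r = s + 8 := ⟨r - 8, by omega⟩
  -- the variation of the phase
  have hTws : Tw ε (s - 8) (s + 8) E l := fun i h1 h2 => htyr i (by omega) h2
  have hτs : rho s E l * ℓ' ≤ τ := hPr s (by omega) (by omega)
  have hτε : τ ≤ ε ^ CL := by
    rw [hτe, hεpow]
    exact pow_le_pow_of_le_one hθ.le hθ2 (h53_exp1 hC4 hk)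
  obtain ⟨-, hlin⟩ := hL s E l ε hε0 (hCε CL (by have := hkk CL; omega)) hl
    ((hlθ (CL * (k + 1)) (by omega)).trans (le_of_eq (hεpow CL).symm)) (by omega) hTws
  obtain ⟨w1, w2, w3⟩ := h53_win1 hℓ'0 hE1 hE2
  have hlin1 := (hlin ((j : ℝ) * ℓ') (((j : ℝ) + 1) * ℓ') w3 (by
      refine le_trans ?_ (hτs.trans hτε)
      rw [mul_comm]
      exact mul_le_mul_of_nonneg_left w1 (hρ0 _ _)) (by
      refine le_trans ?_ (hτs.trans hτε)
      rw [mul_comm]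
      exact mul_le_mul_of_nonneg_left w2 (hρ0 _ _))).2
  have hsq : ε ≤ √(1 - tr s E l ^ 2) :=
    Real.le_sqrt_of_sq_le (htyr s (by omega) (by omega))
  have h2τ : 2 * τ ≤ ε := by
    rw [hτe, hε]
    have h3 : θ ^ (k * C4) ≤ θ ^ (k + 1 + 1) := pow_le_pow_of_le_one hθ.le hθ2 (h53_exp2 hC4 hk)
    have h4 : θ ^ (k + 1 + 1) = θ ^ (k + 1) * θ := pow_succ _ _
    have h5 : 0 < θ ^ (k + 1) := by positivity
    have h6 : θ ^ (k + 1) * θ ≤ θ ^ (k + 1) * (1 / 100) := mul_le_mul_of_nonneg_left hθ1 h5.le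
    linarith
  have hvar : Th s l ((j : ℝ) * ℓ') - Th s l (((j : ℝ) + 1) * ℓ') ≤ 1 :=
    h53_var hε0 hℓ'0 (abs_nonneg _) (le_max_left _ _) hsq hτs h2τ (by ring) hlin1
  -- the mass
  have hcml : cm K l ℓ Q j = NN K l ((j : ℝ) * ℓ') - NN K l (((j : ℝ) + 1) * ℓ') := by
    unfold cm
    rw [hℓ']
  have hKs : s ≤ K := by omega
  have hn1 := hN l hl hl8 K s ((j : ℝ) * ℓ') (by omega) hKs
  have hn2 := hN l hl hl8 K s (((j : ℝ) + 1) * ℓ') (by omega) hKs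
  have hCN4 : CN * √l ≤ 1 / 4 := by
    have h1 : √l ≤ θ := by
      rw [Real.sqrt_le_left hθ.le]
      exact hlθ 2 (by omega)
    have h2 : (cn : ℝ) * θ ≤ 1 := hCθ cn (by omega)
    have h3 : CN * √l ≤ CN * θ := mul_le_mul_of_nonneg_left h1 (by linarith)
    have h4 : 4 * CN * θ ≤ cn * θ := mul_le_mul_of_nonneg_right hcn hθ.le
    linarith
  have hFs : 0 < (Nat.fib s : ℝ) := by exact_mod_cast Nat.fib_pos.2 (by omega)
  have hFm : 0 < (Nat.fib m : ℝ) := by exact_mod_cast Nat.fib_pos.2 (by omega)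
  have hcm1 : (Nat.fib s : ℝ) * cm K l ℓ Q j ≤ 1 := h53_mass hFs hn1 hn2 hvar hCN4 hcml
  have hfib := h53_fib m (s - m) (by omega)
  rw [show m + (s - m) = s by omega] at hfib
  have hup := hU m s E l ε hε0 (hCε CU (by have := hkk CU; omega)) hl
    ((hlθ (CU * (k + 1)) (by omega)).trans (le_of_eq (hεpow CU).symm)) (by omega) (by omega)
    (by
      have h1 : ((s - m : ℕ) : ℝ) ≤ Lc := by exact_mod_cast (by omega : s - m ≤ Lc)
      exact (mul_le_mul h1 hεθ' hε0.le (Nat.cast_nonneg _)).trans hLcθ) (fun i h1 h2 => htyr i (by omega) h2)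
  have hch := h53_chain hR (E := E) (l := l) s 9 (fun i h1 h2 => hab2 i (by omega) (by omega))
  rw [show s + 9 = s + 8 + 1 by ring] at hch
  obtain ⟨Φ, hΦ⟩ : ∃ Φ : ℝ, Φ = ph ^ (s - m) := ⟨_, rfl⟩
  have hΦ0 : 0 < Φ := by rw [hΦ]; positivity
  rw [← hΦ] at hfib hup
  have hkey : τ * ε ^ CU ≤ Φ * (9 ^ 9 * (2 / Q)) := by
    have h1 : τ ≤ 9 ^ 9 * (rho s E l * ℓ') := by
      refine hρr.le.trans ?_
      calc rho (s + 8 + 1) E l * ℓ' ≤ 9 ^ 9 * rho s E l * ℓ' := mul_le_mul_of_nonneg_right hch hℓ'0.le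
        _ = 9 ^ 9 * (rho s E l * ℓ') := by ring
    have h2 : rho m E l * ℓ' ≤ 2 / Q := by
      refine hρm1.trans ?_
      apply div_le_div_of_nonneg_right _ hQ0.le
      have h6 : θ ^ C1 ≤ 1 := pow_le_one₀ hθ.le hθ2
      linarith
    calc τ * ε ^ CU ≤ 9 ^ 9 * (rho s E l * ℓ') * ε ^ CU :=
          mul_le_mul_of_nonneg_right h1 (by positivity)
      _ = 9 ^ 9 * (ε ^ CU * rho s E l) * ℓ' := by ring
      _ ≤ 9 ^ 9 * (Φ * rho m E l) * ℓ' := by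
          refine mul_le_mul_of_nonneg_right ?_ hℓ'0.le
          exact mul_le_mul_of_nonneg_left hup (by positivity)
      _ = Φ * (9 ^ 9 * (rho m E l * ℓ')) := by ring
      _ ≤ Φ * (9 ^ 9 * (2 / Q)) := by
          refine mul_le_mul_of_nonneg_left ?_ hΦ0.le
          exact mul_le_mul_of_nonneg_left h2 (by positivity)
  have hcmΦ : (Nat.fib m : ℝ) * cm K l ℓ Q j * Φ ≤ 2 := by
    rcases le_total (cm K l ℓ Q j) 0 with h | h
    · have : (Nat.fib m : ℝ) * cm K l ℓ Q j * Φ ≤ 0 := by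
        have : (Nat.fib m : ℝ) * Φ * cm K l ℓ Q j ≤ 0 := mul_nonpos_of_nonneg_of_nonpos (by positivity) h
        linarith
      linarith
    · calc (Nat.fib m : ℝ) * cm K l ℓ Q j * Φ = (Nat.fib m : ℝ) * Φ * cm K l ℓ Q j := by ring
        _ ≤ ph * (Nat.fib s : ℝ) * cm K l ℓ Q j := mul_le_mul_of_nonneg_right hfib h
        _ = ph * ((Nat.fib s : ℝ) * cm K l ℓ Q j) := by ring
        _ ≤ ph * 1 := mul_le_mul_of_nonneg_left hcm1 hph0.le
        _ ≤ 2 := by linarith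
  obtain ⟨G, hGd⟩ : ∃ G : ℝ, G = (Nat.fib m : ℝ) * cm K l ℓ Q j := ⟨_, rfl⟩
  rw [← hGd] at hcmΦ ⊢
  rcases le_total G 0 with h | h
  · refine le_trans (mul_nonpos_of_nonneg_of_nonpos (by positivity) h) (by positivity)
  have hexp : θ ^ ((2 * CU + C4 + 5) * k) ≤ τ * ε ^ CU * θ ^ 5 := by
    rw [hτe, hεpow, ← pow_add, ← pow_add]
    exact pow_le_pow_of_le_one hθ.le hθ2 (h53_exp3 hk)
  exact h53_final hθ hθ1 hQ0 h hkey hcmΦ hexp

end FIB
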