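import Pool.Agent.Helper75.FIB.Iface3

/-!
# FIB block Jf : total mass of the atypical cells

`cm j = volume{t | inCell j t}` (QMeas). Let `t` be in an atypical cell (`j ∈ wn`, not `TyC`), `E = EK K l t` (spectral: `|tr K E l| < 1`, `NN K l E = t`, since `Th K (EK) = π F_K t`): the defining condition fails for the point `E` of the cell: there is `i ∈ [m, m+Lc]` with `1 - tr i E^2 < θ^{2k}`; then `|sin Θ_i| < θ^k` (`sin^2 Θ_i = 1 - clip^2`; if `|tr i| >= 1` it is `0`), and NBound: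
`|sin π F_i t| < 2θ^k`. All such `t` lie in `T = {t : EK t in the window}`, contained in an interval of length `<= 1/F_m` (LocLin-type bound: `F_m (NN E1 - NN E2) <= θ·9 + C√l <= 1`, `E1 = E0 - 4ℓ - .., E2 = E0 + 4ℓ + ℓ/Q`, within `6ℓ`). For fixed `i >= m` the set `{t ∈ T : |sin π F_i t| < 2θ^k}` is covered by at most `F_i/F_m + 2` intervals of length `2θ^k/F_i`,
measure `<= 6 θ^k/F_m`. Sum over at most `Lc + 1 <= 2/θ` indices: `<= 12 θ^{k-1}/F_m <= θ^{k-2}/F_m`.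
-/

namespace FIB.Jf

open Real MeasureTheory Set Filter Topology

noncomputable section

theorem sin_near {y δ : ℝ} (h : |Real.sin (π * y)| < δ) : |y - round y| ≤ δ / 2 := by
  set z := y - round y with hz
  have h1 : |z| ≤ 1 / 2 := abs_sub_round y
  have h2 : |Real.sin (π * z)| = |Real.sin (π * y)| := by
    have : π * z = π * y - (round y : ℤ) * π := by rw [hz]; ring
    rw [this, Real.sin_sub_int_mul_pi]
    rw [abs_mul]
    have : |((-1 : ℝ)) ^ (round y : ℤ)| = 1 := by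
      rw [abs_zpow, abs_neg, abs_one, one_zpow]
    rw [this, one_mul]
  have h3 : 2 * |z| ≤ |Real.sin (π * z)| := by
    have h4 := Real.mul_abs_le_abs_sin (x := π * z) (by
      rw [abs_mul, abs_of_pos Real.pi_pos]
      nlinarith [Real.pi_pos])
    rw [abs_mul, abs_of_pos Real.pi_pos] at h4
    have h5 : 2 / π * (π * |z|) = 2 * |z| := by
      field_simp
    rw [h5] at h4
    exact h4
  rw [h2] at h3
  linarith

/-- measure of the parameters in an interval at which a sine is small -/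
theorem vol_sin {F a b δ : ℝ} (hF : 0 < F) (hab : a ≤ b) (hδ : 0 ≤ δ) :
    volume (Icc a b ∩ {t | |Real.sin (π * F * t)| < δ})
      ≤ ENNReal.ofReal (((b - a) * F + 2) * (δ / F)) := by
  set J : Finset ℤ := Finset.Icc ⌈F * a - 1 / 2⌉ ⌊F * b + 1 / 2⌋ with hJ
  have hsub : Icc a b ∩ {t | |Real.sin (π * F * t)| < δ} ⊆
      ⋃ j ∈ J, Icc ((j : ℝ) / F - δ / (2 * F)) (j / F - δ / (2 * F) + δ / F) := by
    rintro t ⟨ht1, ht2⟩
    rw [mem_ofPred_eq] at ht2
    have h1 : |Real.sin (π * (F * t))| < δ := by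
      have : π * (F * t) = π * F * t := by ring
      rw [this]; exact ht2
    have h2 := sin_near h1
    have h3 := abs_sub_round (F * t)
    rw [abs_le] at h2 h3
    refine mem_iUnion₂.2 ⟨round (F * t), ?_, ?_⟩
    · rw [hJ, Finset.mem_Icc]
      constructor
      · rw [Int.ceil_le]
        have : F * a ≤ F * t := mul_le_mul_of_nonneg_left ht1.1 hF.le
        linarith [h3.2]
      · rw [Int.le_floor]
        have : F * t ≤ F * b := mul_le_mul_of_nonneg_left ht1.2 hF.le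
        linarith [h3.1]
    · set j := round (F * t)
      have e1 : F * (j / F - δ / (2 * F)) = j - δ / 2 := by field_simp
      have e2 : F * (j / F - δ / (2 * F) + δ / F) = j + δ / 2 := by field_simp; ring
      constructor
      · refine le_of_mul_le_mul_left ?_ hF
        rw [e1]; linarith [h2.1]
      · refine le_of_mul_le_mul_left ?_ hF
        rw [e2]; linarith [h2.2]
  have hcard : (J.card : ℝ) ≤ (b - a) * F + 2 := by
    rw [hJ, Int.card_Icc]
    have h1 := Int.floor_le (F * b + 1 / 2)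
    have h2 := Int.le_ceil (F * a - 1 / 2)
    have h4 : ((⌊F * b + 1 / 2⌋ + 1 - ⌈F * a - 1 / 2⌉).toNat : ℤ)
        = max (⌊F * b + 1 / 2⌋ + 1 - ⌈F * a - 1 / 2⌉) 0 := Int.toNat_eq_max _
    have h5 : (((⌊F * b + 1 / 2⌋ + 1 - ⌈F * a - 1 / 2⌉).toNat : ℤ) : ℝ)
        = ((max (⌊F * b + 1 / 2⌋ + 1 - ⌈F * a - 1 / 2⌉) 0 : ℤ) : ℝ) := by rw [h4]
    rw [Int.cast_natCast] at h5
    rw [h5]
    push_cast
    have h6 : 0 ≤ (b - a) * F := mul_nonneg (by linarith) hF.le
    refine max_le ?_ (by linarith)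
    have : (b - a) * F = F * b - F * a := by ring
    linarith
  have hpos : 0 ≤ δ / F := div_nonneg hδ hF.le
  calc volume (Icc a b ∩ {t | |Real.sin (π * F * t)| < δ})
      ≤ volume (⋃ j ∈ J, Icc ((j : ℝ) / F - δ / (2 * F)) (j / F - δ / (2 * F) + δ / F)) :=
        measure_mono hsub
    _ ≤ ∑ j ∈ J, volume (Icc ((j : ℝ) / F - δ / (2 * F)) (j / F - δ / (2 * F) + δ / F)) :=
        measure_biUnion_finset_le _ _
    _ = ∑ j ∈ J, ENNReal.ofReal (δ / F) := by
        refine Finset.sum_congr rfl fun j _ => ?_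
        rw [Real.volume_Icc]; congr 1; ring
    _ = ENNReal.ofReal (J.card * (δ / F)) := by
        rw [← ENNReal.ofReal_sum_of_nonneg (fun _ _ => hpos), Finset.sum_const, nsmul_eq_mul]
    _ ≤ _ := ENNReal.ofReal_le_ofReal (mul_le_mul_of_nonneg_right hcard hpos)

theorem LH_mono {N N' C1 : ℕ} {θ l : ℝ} {L Lc Q K m : ℕ} {E0 ℓ : ℝ} (hN : N' ≤ N) (hN1 : 1 ≤ N)
    (h : LH N C1 θ l L Lc Q K m E0 ℓ) : LH N' C1 θ l L Lc Q K m E0 ℓ := by
  obtain ⟨h1, h2, h3, h4, h5, h6, h7, h8, h9, h10, h11⟩ := h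
  have hθ : θ ≤ 1 := by
    have : (1 : ℝ) ≤ N := by exact_mod_cast hN1
    nlinarith
  have hl1 : l ≤ 1 := h4.trans (pow_le_one₀ h1.le hθ)
  have hl : 1 ≤ 1 / l := by rw [le_div_iff₀ h3]; linarith
  have hp : (1 / l) ^ N' ≤ (1 / l) ^ N := pow_le_pow_right₀ hl hN
  have hNc : (N' : ℝ) ≤ N := by exact_mod_cast hN
  refine ⟨h1, ?_, h3, h4.trans (pow_le_pow_of_le_one h1.le hθ hN), hp.trans h5, ?_, ?_, h8, h9, h10,
    h11⟩
  · exact (mul_le_mul_of_nonneg_right hNc h1.le).trans h2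
  · exact (mul_le_mul_of_nonneg_left hp (by positivity)).trans h6
  · exact (mul_le_mul_of_nonneg_left hp (by positivity)).trans h7

theorem sin_of_clip {x T ε : ℝ} (hε : 0 < ε) (hc : Real.cos T = clip x) (h : 1 - x ^ 2 < ε ^ 2) :
    |Real.sin T| < ε := by
  have h1 : Real.sin T ^ 2 = 1 - clip x ^ 2 := by
    have := Real.sin_sq_add_cos_sq T
    rw [hc] at this; linarith
  have h2 : 1 - clip x ^ 2 < ε ^ 2 := by
    unfold clip
    rcases le_total x 1 with hx | hx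
    · rw [min_eq_right hx]
      rcases le_total (-1) x with hy | hy
      · rw [max_eq_right hy]; exact h
      · rw [max_eq_left hy]; nlinarith
    · rw [min_eq_left hx, max_eq_right (by norm_num)]; nlinarith
  rw [← h1] at h2
  exact abs_lt_of_sq_lt_sq h2 hε.le

end

end FIB.Jf

namespace FIB

open Real MeasureTheory Set Filter Topology Jf

theorem atypMass (hQ : QMeas) (hP : QuantileProps) (hT : ThProps) (hN : NBound) (hL : LocLin) : AtypMass := by
  obtain ⟨c1, hL⟩ := hL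
  obtain ⟨CN, hCN, hN⟩ := hN
  refine ⟨c1, 0, fun C1 C4 hC1 _ k hk => ?_⟩
  obtain ⟨CL, N1, hL⟩ := hL C1 hC1
  obtain ⟨NC, hNC⟩ := exists_nat_ge CN
  set N0 : ℕ := N1 + 100 + CL + NC + 2 * k + 8 with hN0
  refine ⟨N0, fun θ l L Lc Q K m E0 ℓ hLH Ta hTa => ?_⟩
  have hLH' := LH_mono (N' := N1) (by omega) (by omega) hLH
  obtain ⟨h1, h2, h3, h4, h5, h6, h7, h8, h9, h10, h11⟩ := hLH
  have hN0r : (N0 : ℝ) = N1 + 100 + CL + NC + 2 * k + 8 := by rw [hN0]; push_cast; ring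
  have hn1 : (0 : ℝ) ≤ N1 := Nat.cast_nonneg _
  have hn2 : (0 : ℝ) ≤ CL := Nat.cast_nonneg _
  have hn3 : (0 : ℝ) ≤ NC := Nat.cast_nonneg _
  have hn4 : (0 : ℝ) ≤ k := Nat.cast_nonneg _
  have hθ1 : 100 * θ ≤ 1 := by nlinarith
  have hθCL : CL * θ ≤ 1 := by nlinarith [mul_nonneg hn1 h1.le, mul_nonneg hn3 h1.le, mul_nonneg hn4 h1.le]
  have hθCN : CN * θ ≤ 1 := by
    have : CN * θ ≤ NC * θ := mul_le_mul_of_nonneg_right hNC h1.le
    nlinarith [mul_nonneg hn1 h1.le, mul_nonneg hn2 h1.le, mul_nonneg hn4 h1.le]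
  have hθle : θ ≤ 1 := by linarith
  -- the size of `l`
  have hl1 : l ≤ (θ ^ (k + 2)) ^ 2 := by
    refine h4.trans ?_
    rw [← pow_mul]
    exact pow_le_pow_of_le_one h1.le hθle (by omega)
  have hsl : √l ≤ θ ^ (k + 2) := by
    rw [Real.sqrt_le_left (by positivity)]
    exact hl1
  have hsl0 : 0 ≤ √l := Real.sqrt_nonneg _
  have hk2 : θ ^ (k + 2) = θ ^ k * θ * θ := by rw [pow_add]; ring
  have hθk : 0 < θ ^ k := by positivity
  have hθk1 : θ ^ k ≤ 1 := pow_le_one₀ h1.le hθle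
  have hl8 : l ≤ 1 / 8 := by
    have : (θ ^ (k + 2)) ^ 2 ≤ θ := by
      rw [← pow_mul]
      calc θ ^ ((k + 2) * 2) ≤ θ ^ 1 := pow_le_pow_of_le_one h1.le hθle (by omega)
        _ = θ := pow_one θ
    linarith
  have hCNl : CN * √l < θ ^ k := by
    have e1 : CN * √l ≤ CN * θ ^ (k + 2) := mul_le_mul_of_nonneg_left hsl (by linarith)
    have e2 : CN * θ ^ (k + 2) = (CN * θ) * (θ ^ k * θ) := by rw [hk2]; ring
    have e3 : (CN * θ) * (θ ^ k * θ) ≤ 1 * (θ ^ k * θ) :=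
      mul_le_mul_of_nonneg_right hθCN (by positivity)
    nlinarith
  have hCLl : CL * √l ≤ θ := by
    have e1 : CL * √l ≤ CL * θ ^ (k + 2) := mul_le_mul_of_nonneg_left hsl hn2
    have e2 : CL * θ ^ (k + 2) = (CL * θ) * (θ ^ k * θ) := by rw [hk2]; ring
    have e3 : (CL * θ) * (θ ^ k * θ) ≤ 1 * (θ ^ k * θ) :=
      mul_le_mul_of_nonneg_right hθCL (by positivity)
    nlinarith
  obtain ⟨g1, g2, g3, g4, g5, g6⟩ := h11
  have hm1 : 1 ≤ m := by omega
  have hK1 : 1 ≤ K := by omega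
  have hFm : (1 : ℝ) ≤ Nat.fib m := by exact_mod_cast Nat.fib_pos.2 hm1
  have hQ1 : (1 : ℝ) ≤ Q := by
    have e1 : (1 : ℝ) ≤ 9 ^ (2 * L) := one_le_pow₀ (by norm_num)
    have e2 : (1 : ℝ) ≤ (1 / l) ^ N0 := one_le_pow₀ (by rw [le_div_iff₀ h3]; linarith)
    nlinarith
  have hQ0 : (0 : ℝ) < Q := by linarith
  -- the function `N`
  have hThK := hT l h3 hl8 K
  have hFK : (0 : ℝ) < Nat.fib K := by exact_mod_cast Nat.fib_pos.2 hK1
  have hπK : 0 < π * Nat.fib K := mul_pos Real.pi_pos hFK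
  have hNcont : Continuous (NN K l) := hThK.1.div_const _
  have hNanti : Antitone (NN K l) := fun x y hxy =>
    div_le_div_of_nonneg_right (hThK.2.1 hxy) hπK.le
  -- cells
  set c : ℝ := ℓ / Q with hc
  have hc0 : 0 < c := div_pos h9 hQ0
  have hcl : c ≤ ℓ := by rw [hc, div_le_iff₀ hQ0]; nlinarith
  have hcell : ∀ j ∈ wn E0 ℓ Q, E0 - 4 * ℓ ≤ j * c ∧ (j + 1) * c ≤ E0 + 5 * ℓ := by
    intro j hj
    rw [wn, Finset.mem_Icc] at hj
    have e1 := (Int.ceil_le.1 hj.1)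
    have e2 := (Int.le_floor.1 hj.2)
    have hlQ : c * Q = ℓ := by rw [hc]; field_simp
    have e3 : (E0 - 4 * ℓ) * Q / ℓ * c = E0 - 4 * ℓ := by rw [hc]; field_simp
    have e4 : (E0 + 4 * ℓ) * Q / ℓ * c = E0 + 4 * ℓ := by rw [hc]; field_simp
    have e5 := mul_le_mul_of_nonneg_right e1 hc0.le
    have e6 := mul_le_mul_of_nonneg_right e2 hc0.le
    rw [e3] at e5
    rw [e4] at e6
    constructor
    · exact e5
    · nlinarith
  set A : Finset ℤ := wn E0 ℓ Q \ Ta with hA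
  have hAty : ∀ j ∈ A, ¬ TyC (θ ^ k) C4 m Lc l c j := by
    intro j hj hty
    rw [hA, Finset.mem_sdiff] at hj
    exact hj.2 (hTa j hj.1 hty)
  set I : ℤ → Set ℝ := fun j => Ioo (NN K l (((j : ℝ) + 1) * c)) (NN K l ((j : ℝ) * c)) with hI
  have hcm0 : ∀ j : ℤ, 0 ≤ cm K l ℓ Q j := by
    intro j
    have := hNanti (show (j : ℝ) * c ≤ ((j : ℝ) + 1) * c by nlinarith)
    unfold cm
    rw [← hc]
    linarith
  have hvolI : ∀ j : ℤ, volume (I j) = ENNReal.ofReal (cm K l ℓ Q j) := by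
    intro j
    rw [hI]; simp only
    rw [Real.volume_Ioo]
    rfl
  have hdisj : Set.PairwiseDisjoint (↑A : Set ℤ) I := by
    have key : ∀ j j' : ℤ, j < j' → Disjoint (I j) (I j') := by
      intro j j' hjj
      rw [Set.disjoint_left]
      intro t ht ht'
      have e1 : ((j : ℝ) + 1) * c ≤ (j' : ℝ) * c := by
        apply mul_le_mul_of_nonneg_right _ hc0.le
        exact_mod_cast hjj
      have e2 := hNanti e1
      have e3 := ht.1
      have e4 := ht'.2
      linarith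
    intro j _ j' _ hne
    rcases lt_or_gt_of_ne hne with h | h
    · exact key j j' h
    · exact (key j' j h).symm
  have hsum : ENNReal.ofReal (∑ j ∈ A, cm K l ℓ Q j) = volume (⋃ j ∈ A, I j) := by
    rw [measure_biUnion_finset hdisj (fun j _ => measurableSet_Ioo), ENNReal.ofReal_sum_of_nonneg
      (fun j _ => hcm0 j)]
    exact Finset.sum_congr rfl fun j _ => (hvolI j).symm
  -- the window of parameters
  set E1 : ℝ := E0 - 4 * ℓ with hE1
  set E2 : ℝ := E0 + 5 * ℓ with hE2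
  have hE12 : E1 ≤ E2 := by rw [hE1, hE2]; linarith
  have hwin := (hL θ l L Lc Q K m E0 ℓ hLH' E1 E2 hE12
    (by rw [hE1, abs_le]; constructor <;> linarith) (by rw [hE2, abs_le]; constructor <;> linarith)).2
  have hwin1 : Nat.fib m * (NN K l E1 - NN K l E2) ≤ 1 := by
    have e1 : (E2 - E1) / ℓ = 9 := by rw [hE1, hE2]; field_simp; ring
    rw [e1] at hwin
    linarith
  have hNE : NN K l E2 ≤ NN K l E1 := hNanti hE12
  have hsub : (⋃ j ∈ A, I j) ⊆ ⋃ i ∈ Finset.Icc m (m + Lc),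
      (Icc (NN K l E2) (NN K l E1) ∩ {t | |Real.sin (π * Nat.fib i * t)| < 2 * θ ^ k}) := by
    intro t ht
    obtain ⟨j, hj, ht⟩ := mem_iUnion₂.1 ht
    have hjw : j ∈ wn E0 ℓ Q := (Finset.mem_sdiff.1 hj).1
    obtain ⟨hc1, hc2⟩ := hcell j hjw
    have hle : (j : ℝ) * c ≤ ((j : ℝ) + 1) * c := by nlinarith
    -- a point of the cell
    have himg := intermediate_value_Ioo' hle hNcont.continuousOn
    obtain ⟨E, hE, hEt⟩ := himg ht
    have hnt := hAty j hj
    unfold TyC at hnt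
    push Not at hnt
    obtain ⟨i, hi1, hi2, -, hi3⟩ := hnt E hE.1.le hE.2
    refine mem_iUnion₂.2 ⟨i, Finset.mem_Icc.2 ⟨hi1, hi2⟩, ⟨?_, ?_⟩, ?_⟩
    · exact (hNanti hc2).trans ht.1.le
    · exact ht.2.le.trans (hNanti hc1)
    · rw [mem_ofPred_eq]
      have hsin := sin_of_clip hθk ((hT l h3 hl8 i).2.2.1 E) hi3
      have hnb := hN l h3 hl8 K i E hK1 (by omega)
      rw [hEt] at hnb
      have hdiff : |Real.sin (π * Nat.fib i * t) - Real.sin (Th i l E)|
          ≤ |π * Nat.fib i * t - Th i l E| := Real.abs_sin_sub_sin_le _ _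
      rw [abs_sub_comm] at hnb
      have h12 : |Real.sin (π * Nat.fib i * t)| ≤ |Real.sin (π * Nat.fib i * t) - Real.sin (Th i l E)|
          + |Real.sin (Th i l E)| := by
        have := abs_add_le (Real.sin (π * Nat.fib i * t) - Real.sin (Th i l E)) (Real.sin (Th i l E))
        simpa using this
      linarith
  have hvi : ∀ i ∈ Finset.Icc m (m + Lc),
      volume (Icc (NN K l E2) (NN K l E1) ∩ {t | |Real.sin (π * Nat.fib i * t)| < 2 * θ ^ k})
        ≤ ENNReal.ofReal (6 * θ ^ k / Nat.fib m) := by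
    intro i hi
    have hi1 := (Finset.mem_Icc.1 hi).1
    have hFi : (Nat.fib m : ℝ) ≤ Nat.fib i := by exact_mod_cast Nat.fib_mono hi1
    have hFi0 : (0 : ℝ) < Nat.fib i := by linarith
    refine (vol_sin hFi0 hNE (by positivity)).trans (ENNReal.ofReal_le_ofReal ?_)
    have hh : (NN K l E1 - NN K l E2) ≤ 1 / Nat.fib m := by
      rw [le_div_iff₀ (by linarith)]; linarith
    have e1 : ((NN K l E1 - NN K l E2) * Nat.fib i + 2) * (2 * θ ^ k / Nat.fib i)
        = 2 * θ ^ k * ((NN K l E1 - NN K l E2) + 2 / Nat.fib i) := by field_simp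
    have e2 : 2 / (Nat.fib i : ℝ) ≤ 2 / Nat.fib m :=
      div_le_div_of_nonneg_left (by norm_num) (by linarith) hFi
    rw [e1]
    calc 2 * θ ^ k * ((NN K l E1 - NN K l E2) + 2 / Nat.fib i)
        ≤ 2 * θ ^ k * (1 / Nat.fib m + 2 / Nat.fib m) :=
          mul_le_mul_of_nonneg_left (add_le_add hh e2) (by positivity)
      _ = 6 * θ ^ k / Nat.fib m := by ring
  have hfin : ENNReal.ofReal (∑ j ∈ A, cm K l ℓ Q j)
      ≤ ENNReal.ofReal ((Lc + 1) * (6 * θ ^ k / Nat.fib m)) := by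
    rw [hsum]
    calc volume (⋃ j ∈ A, I j) ≤ volume (⋃ i ∈ Finset.Icc m (m + Lc),
      (Icc (NN K l E2) (NN K l E1) ∩ {t | |Real.sin (π * Nat.fib i * t)| < 2 * θ ^ k})) :=
          measure_mono hsub
      _ ≤ ∑ i ∈ Finset.Icc m (m + Lc), volume (Icc (NN K l E2) (NN K l E1) ∩
          {t | |Real.sin (π * Nat.fib i * t)| < 2 * θ ^ k}) := measure_biUnion_finset_le _ _
      _ ≤ ∑ i ∈ Finset.Icc m (m + Lc), ENNReal.ofReal (6 * θ ^ k / Nat.fib m) :=
          Finset.sum_le_sum hvi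
      _ = ENNReal.ofReal ((Lc + 1) * (6 * θ ^ k / Nat.fib m)) := by
          rw [← ENNReal.ofReal_sum_of_nonneg (fun _ _ => by positivity), Finset.sum_const,
            Nat.card_Icc, nsmul_eq_mul]
          congr 2
          have : m + Lc + 1 - m = Lc + 1 := by omega
          rw [this]; push_cast; ring
  have hfin2 : ∑ j ∈ A, cm K l ℓ Q j ≤ (Lc + 1) * (6 * θ ^ k / Nat.fib m) :=
    (ENNReal.ofReal_le_ofReal_iff (by positivity)).1 hfin
  have hk3 : θ ^ k = θ ^ (k - 2) * θ * θ := by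
    have : k = (k - 2) + 2 := by omega
    conv_lhs => rw [this]
    rw [pow_add]; ring
  calc (Nat.fib m : ℝ) * ∑ j ∈ A, cm K l ℓ Q j
      ≤ Nat.fib m * ((Lc + 1) * (6 * θ ^ k / Nat.fib m)) :=
        mul_le_mul_of_nonneg_left hfin2 (by linarith)
    _ = (Lc + 1) * (6 * θ ^ k) := by field_simp
    _ = 6 * ((Lc * θ + θ) * θ) * θ ^ (k - 2) := by rw [hk3]; ring
    _ ≤ 1 * θ ^ (k - 2) := by
        refine mul_le_mul_of_nonneg_right ?_ (by positivity)
        nlinarith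
    _ = θ ^ (k - 2) := one_mul _

end FIB
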