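import Pool.Agent.Helper75.FIB.Iface3

/-!
# FIB block Jg : number of the atypical cells

`ℓ' = ℓ/Q`, `θk = θ^k`. Let `j ∈ wn` be atypical and `E = j ℓ'` its left end point: there is a smallest `i ∈ [m,m+Lc]` with `1 - tr i E^2 < θk^2` and `rho i' E ℓ' <= θk^{C4}` for `m <= i' <= i`. `i > m + 8`: on `[m-L,m+8]` `E` is `θ/2`-typical (Dist). So `E` is `θk`-typical on `[m, i-1]`, `θk/2`-typical on `[i-10,i-1]`.
(a) On the whole cell: `SLoc` at `E` (level `i-9`, `ε = θk`, window `[i-9,i-1]`): `|x_{i'}(E'') - x_{i'}(E)| <= θk^{-C'} rho (i-9) E ℓ' <= θk^{C4-C'}` for `i' ∈ [i-9,i-1]`, and by the recursion for `i` too. So for all `E''` in the cell: `|x_{i-1}|,|x_{i-2}| < 1`, `1 - x_{i-1}^2 >= θk^2/2` and `1 - x_i^2 <= 2 θk^2`, i.e. (UBound, `|sin Θ_i|^2 = 1 - clip^2`)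
`|sin S(E'')| <= 3 θk` where `S = Th (i-1) l + Th (i-2) l`. Let `U_i` = set of `E''` with `|E''-E0| <= 5ℓ`, `|x_{i-1}|,|x_{i-2}| < 1`, `|sin S| <= 3θk`.
(b) `|U_i| <= θ^{k-C}ℓ`: on `U_i`, `S` is differentiable, `-S' >= tau (i-1) >= θ^{C'} φ^{i-m} rho m E0` (`TauLow`, ThProps). `S` is antitone on the window, injective on `U_i` (derivative `< 0` there), so `θ^{C'}φ^{i-m} rho m |U_i| <= ∫_{U_i} |S'| = |S(U_i)|` (change of variables, `lintegral_image_eq_lintegral_abs_deriv_mul`), and `S(U_i)` is contained in the union of intervals of length `8θk` around the points `πν`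
in the range of `S` over the window, whose length is `<= π F_i (NN(E0-5ℓ) - NN(E0+5ℓ)) + 1 <= C F_i/F_m + 1` (NBound for levels `i-1`, `i-2`; LocLin). So `|U_i| <= (C F_i/F_m + 3) 8 θk/(θ^{C'}φ^{i-m} rho m) <= C θ^{k-C'}/rho m <= θ^{k-C''} ℓ` (`rho m ℓ >= θ^{C1}/9`).
(c) number of atypical cells `·ℓ' <= sum_{i} |U_i| <= (Lc+1) θ^{k-C''} ℓ`, cells are disjoint. `Lc θ <= 1`.
-/

namespace FIB

open Real MeasureTheory Set Filter Topology

namespace JgAux

/-- change of variables for an antitone function with slope `≤ -κ` on a measurable set -/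
lemma vol_le_image {S S' : ℝ → ℝ} {U : Set ℝ} {κ : ℝ} (hκ : 0 < κ) (hU : MeasurableSet U)
    (hanti : Antitone S) (hd : ∀ x ∈ U, HasDerivAt S (S' x) x) (hlow : ∀ x ∈ U, S' x ≤ -κ) :
    ENNReal.ofReal κ * volume U ≤ volume (S '' U) := by
  have hinj : InjOn S U := by
    have key : ∀ x ∈ U, ∀ y ∈ U, x < y → S x ≠ S y := by
      intro x hx y hy hxy he
      have hconst : ∀ z ∈ Icc x y, S z = S x := by
        intro z hz
        apply le_antisymm (hanti hz.1)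
        rw [he]
        exact hanti hz.2
      have h1 : HasDerivWithinAt S 0 (Icc x y) x :=
        (hasDerivWithinAt_const x (Icc x y) (S x)).congr hconst rfl
      have h2 : HasDerivWithinAt S (S' x) (Icc x y) x := (hd x hx).hasDerivWithinAt
      have h3 : UniqueDiffWithinAt ℝ (Icc x y) x :=
        (uniqueDiffOn_Icc hxy) x (left_mem_Icc.mpr hxy.le)
      have h4 := h3.eq_deriv _ h1 h2
      have h5 := hlow x hx
      linarith
    intro x hx y hy he
    rcases lt_trichotomy x y with h | h | h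
    · exact absurd he (key x hx y hy h)
    · exact h
    · exact absurd he.symm (key y hy x hx h)
  have h := lintegral_image_eq_lintegral_abs_deriv_mul hU
    (fun x hx => (hd x hx).hasDerivWithinAt) hinj (fun _ => 1)
  rw [lintegral_one, Measure.restrict_apply_univ] at h
  rw [h]
  calc ENNReal.ofReal κ * volume U = ∫⁻ _ in U, ENNReal.ofReal κ := by
        rw [setLIntegral_const]
    _ ≤ _ := by
        refine setLIntegral_mono' hU fun x hx => ?_
        rw [mul_one]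
        apply ENNReal.ofReal_le_ofReal
        have := hlow x hx
        rw [abs_of_nonpos (by linarith)]
        linarith

lemma sin_near {y q : ℝ} (h : |Real.sin y| ≤ 3 * q) : ∃ n : ℤ, |y - n * π| ≤ 5 * q := by
  refine ⟨round (y / π), ?_⟩
  have hpi := Real.pi_pos
  have h1 : |y - round (y / π) * π| ≤ π / 2 := by
    have := abs_sub_round (y / π)
    have h2 : y - round (y / π) * π = (y / π - round (y / π)) * π := by field_simp
    rw [h2, abs_mul, abs_of_pos hpi]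
    nlinarith
  have h2 := Real.mul_abs_le_abs_sin h1
  have h3 : |Real.sin (y - round (y / π) * π)| = |Real.sin y| := by
    rw [Real.sin_sub_int_mul_pi, abs_mul]
    have : |(-1 : ℝ) ^ (round (y / π))| = 1 := by
      rw [abs_zpow]; simp
    rw [this, one_mul]
  rw [h3] at h2
  have h4 : |y - round (y / π) * π| ≤ π / 2 * (3 * q) := by
    have h5 : |y - round (y / π) * π| = π / 2 * (2 / π * |y - round (y / π) * π|) := by
      field_simp
    rw [h5]
    exact mul_le_mul_of_nonneg_left (h2.trans h) (by positivity)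
  have h6 : 0 ≤ q := by
    have := (abs_nonneg (Real.sin y)).trans h
    linarith
  have := Real.pi_lt_d2
  nlinarith

lemma vol_sin {a b q : ℝ} (hab : a ≤ b) (hq : 0 ≤ q) (hq1 : q ≤ 1 / 10) :
    volume {y : ℝ | y ∈ Icc a b ∧ |Real.sin y| ≤ 3 * q} ≤
      ENNReal.ofReal ((b - a + 3) * (10 * q)) := by
  have hpi := Real.pi_pos
  have hpi3 := Real.pi_gt_three
  set F : Finset ℤ := Finset.Icc ⌈(a - 5 * q) / π⌉ ⌊(b + 5 * q) / π⌋ with hF
  have hsub : {y : ℝ | y ∈ Icc a b ∧ |Real.sin y| ≤ 3 * q} ⊆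
      ⋃ n ∈ F, Icc ((n : ℝ) * π - 5 * q) ((n : ℝ) * π + 5 * q) := by
    rintro y ⟨hy, hs⟩
    obtain ⟨n, hn⟩ := sin_near hs
    rw [abs_le] at hn
    simp only [mem_iUnion]
    refine ⟨n, ?_, ⟨by linarith [hn.2], by linarith [hn.1]⟩⟩
    rw [hF, Finset.mem_Icc, Int.ceil_le, Int.le_floor, div_le_iff₀ hpi, le_div_iff₀ hpi]
    constructor
    · linarith [hy.1, hn.2]
    · linarith [hy.2, hn.1]
  have hcard : (F.card : ℝ) ≤ b - a + 3 := by
    rw [hF, Int.card_Icc]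
    have h1 : ((⌊(b + 5 * q) / π⌋ + 1 - ⌈(a - 5 * q) / π⌉ : ℤ) : ℝ) ≤ b - a + 3 := by
      push_cast
      have e1 := Int.floor_le ((b + 5 * q) / π)
      have e2 := Int.le_ceil ((a - 5 * q) / π)
      have e3 : (b + 5 * q) / π - (a - 5 * q) / π ≤ (b - a) + 1 := by
        rw [← sub_div, div_le_iff₀ hpi]
        nlinarith
      linarith
    have h2 : (((⌊(b + 5 * q) / π⌋ + 1 - ⌈(a - 5 * q) / π⌉ : ℤ).toNat : ℕ) : ℝ) =
        ((max (⌊(b + 5 * q) / π⌋ + 1 - ⌈(a - 5 * q) / π⌉) 0 : ℤ) : ℝ) := by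
      rw [← Int.toNat_eq_max]; norm_cast
    rw [h2]
    rcases le_total (⌊(b + 5 * q) / π⌋ + 1 - ⌈(a - 5 * q) / π⌉) 0 with h | h
    · rw [max_eq_right h]
      push_cast
      linarith
    · rw [max_eq_left h]
      exact h1
  calc volume {y : ℝ | y ∈ Icc a b ∧ |Real.sin y| ≤ 3 * q}
      ≤ volume (⋃ n ∈ F, Icc ((n : ℝ) * π - 5 * q) ((n : ℝ) * π + 5 * q)) := measure_mono hsub
    _ ≤ ∑ n ∈ F, volume (Icc ((n : ℝ) * π - 5 * q) ((n : ℝ) * π + 5 * q)) :=
        measure_biUnion_finset_le _ _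
    _ = ∑ _n ∈ F, ENNReal.ofReal (10 * q) := by
        refine Finset.sum_congr rfl fun n _ => ?_
        rw [Real.volume_Icc]
        congr 1
        ring
    _ = ENNReal.ofReal (F.card * (10 * q)) := by
        rw [Finset.sum_const, nsmul_eq_mul, ENNReal.ofReal_mul (p := (F.card : ℝ)) (Nat.cast_nonneg _),
          ENNReal.ofReal_natCast]
    _ ≤ _ := ENNReal.ofReal_le_ofReal (mul_le_mul_of_nonneg_right hcard (by positivity))

lemma ph_sq : ph ^ 2 = ph + 1 := by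
  unfold ph
  have h : √5 ^ 2 = 5 := Real.sq_sqrt (by norm_num)
  nlinarith

lemma ph_pos : 0 < ph := by unfold ph; positivity

lemma ph_gt : 8 / 5 < ph := by
  unfold ph
  have h : (11 / 5 : ℝ) < √5 := by
    rw [Real.lt_sqrt (by norm_num)]; norm_num
  linarith

lemma ph_lt : ph < 17 / 10 := by
  unfold ph
  have h : √5 < (12 / 5 : ℝ) := by
    rw [Real.sqrt_lt' (by norm_num)]; norm_num
  linarith

lemma fib_ratio (m d : ℕ) : (Nat.fib (m + d) : ℝ) ≤ Nat.fib m * ph ^ (d + 1) ∨ m = 0 := by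
  rcases Nat.eq_zero_or_pos m with h | h
  · exact Or.inr h
  · left
    have h1 : ∀ d, (Nat.fib (m + d) : ℝ) ≤ Nat.fib m * ph ^ (d + 1) ∧
        (Nat.fib (m + d + 1) : ℝ) ≤ Nat.fib m * ph ^ (d + 2) := by
      intro d
      induction d with
      | zero =>
        have hp := ph_gt
        have hm : (0 : ℝ) ≤ Nat.fib m := by positivity
        constructor
        · rw [Nat.add_zero, zero_add, pow_one]
          nlinarith
        · have h2 : Nat.fib (m + 0 + 1) ≤ 2 * Nat.fib m := by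
            rw [Nat.add_zero]
            obtain ⟨k, rfl⟩ : ∃ k, m = k + 1 := ⟨m - 1, by omega⟩
            rw [Nat.fib_add_two]
            have := Nat.fib_le_fib_succ (n := k)
            omega
          have h3 : (Nat.fib (m + 0 + 1) : ℝ) ≤ 2 * Nat.fib m := by exact_mod_cast h2
          rw [zero_add, ph_sq]
          nlinarith
      | succ d ih =>
        refine ⟨by simpa [add_assoc] using ih.2, ?_⟩
        have h2 : Nat.fib (m + (d + 1) + 1) = Nat.fib (m + d) + Nat.fib (m + d + 1) := by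
          rw [show m + (d + 1) + 1 = (m + d) + 2 by ring, Nat.fib_add_two]
        rw [h2]
        push_cast
        have h3 : ph ^ (d + 1 + 2) = ph ^ (d + 1) + ph ^ (d + 2) := by
          have := ph_sq
          calc ph ^ (d + 1 + 2) = ph ^ (d + 1) * ph ^ 2 := by rw [pow_add]
            _ = ph ^ (d + 1) * (ph + 1) := by rw [this]
            _ = _ := by ring
        rw [h3, mul_add]
        exact add_le_add ih.1 ih.2
    exact (h1 d).1

lemma one_sub_clip (x : ℝ) : 1 - clip x ^ 2 ≤ max 0 (1 - x ^ 2) := by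
  unfold clip
  rcases le_total x 1 with h | h
  · rw [min_eq_right h]
    rcases le_total (-1) x with h1 | h1
    · rw [max_eq_right h1]; exact le_max_right _ _
    · rw [max_eq_left h1]; exact le_max_of_le_left (by norm_num)
  · rw [min_eq_left h, max_eq_right (by norm_num)]
    exact le_max_of_le_left (by norm_num)

lemma tr_cont (n : ℕ) (l : ℝ) : Continuous (fun x : ℝ => tr n x l) :=
  continuous_iff_continuousAt.mpr fun x => (hasDerivAt_tr_E n x l).continuousAt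

end JgAux

open JgAux

/-- the exceptional sets -/
def JgU (θ l E0 ℓ : ℝ) (k n : ℕ) : Set ℝ :=
  {x | |x - E0| ≤ 5 * ℓ ∧ |tr (n + 1) x l| < 1 ∧ |tr n x l| < 1 ∧
    |Real.sin (Th (n + 1) l x + Th n l x)| ≤ 3 * θ ^ k}

lemma JgU_meas (hT : ThProps) {θ l E0 ℓ : ℝ} (hl : 0 < l) (hl1 : l ≤ 1 / 8) (k n : ℕ) :
    MeasurableSet (JgU θ l E0 ℓ k n) := by
  have c1 : Continuous (Th (n + 1) l) := (hT l hl hl1 (n + 1)).1
  have c2 : Continuous (Th n l) := (hT l hl hl1 n).1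
  have c3 := tr_cont (n + 1) l
  have c4 := tr_cont n l
  have e1 : MeasurableSet {x : ℝ | |x - E0| ≤ 5 * ℓ} :=
    (isClosed_le (by fun_prop) (by fun_prop)).measurableSet
  have e2 : MeasurableSet {x : ℝ | |tr (n + 1) x l| < 1} :=
    (isOpen_lt c3.abs continuous_const).measurableSet
  have e3 : MeasurableSet {x : ℝ | |tr n x l| < 1} :=
    (isOpen_lt c4.abs continuous_const).measurableSet
  have e4 : MeasurableSet {x : ℝ | |Real.sin (Th (n + 1) l x + Th n l x)| ≤ 3 * θ ^ k} :=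
    (isClosed_le (Real.continuous_sin.comp (c1.add c2)).abs continuous_const).measurableSet
  exact e1.inter (e2.inter (e3.inter e4))

/-- the local perturbation argument -/
lemma Jg_cell (hT : ThProps) (hU : UBound) {l q E E'' : ℝ} {p : ℕ} (hl : 0 < l) (hl1 : l ≤ 1 / 8)
    (hq : 0 < q) (hq1 : q ≤ 1 / 2000) (hlq : √l ≤ q ^ 2)
    (hty : ∀ j, p ≤ j → j ≤ p + 8 → q ^ 2 ≤ 1 - tr j E l ^ 2)
    (hat : 1 - tr (p + 9) E l ^ 2 < q ^ 2)
    (hcl : ∀ j, p ≤ j → j ≤ p + 8 → |tr j E'' l - tr j E l| ≤ q ^ 4) :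
    |tr (p + 8) E'' l| < 1 ∧ |tr (p + 7) E'' l| < 1 ∧
      |Real.sin (Th (p + 8) l E'' + Th (p + 7) l E'')| ≤ 3 * q := by
  have hq2 : q ^ 2 ≤ 1 / 2000 * q := by nlinarith
  have hq4 : q ^ 4 = q ^ 2 * q ^ 2 := by ring
  have hq2s : q ^ 2 ≤ 1 / 1000 := by nlinarith
  have hq2p : 0 < q ^ 2 := by positivity
  have hq4s : q ^ 4 ≤ 1 / 1000 * q ^ 2 := by rw [hq4]; nlinarith
  have hlt : ∀ j, p ≤ j → j ≤ p + 8 → |tr j E'' l| < 1 := by
    intro j h1 h2
    have e1 := hty j h1 h2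
    have e2 := hcl j h1 h2
    have e3 : |tr j E l| ≤ 1 - q ^ 2 / 2 := by
      apply abs_le_of_sq_le_sq
      · nlinarith
      · nlinarith
    have e4 : |tr j E'' l| ≤ |tr j E'' l - tr j E l| + |tr j E l| := by
      have := abs_add_le (tr j E'' l - tr j E l) (tr j E l)
      rwa [sub_add_cancel] at this
    nlinarith
  have hlt' : ∀ j, p ≤ j → j ≤ p + 8 → |tr j E l| ≤ 1 := by
    intro j h1 h2
    have e1 := hty j h1 h2
    apply abs_le_of_sq_le_sq
    · nlinarith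
    · norm_num
  have h8 := hlt (p + 8) (by omega) (by omega)
  have h7 := hlt (p + 7) (by omega) (by omega)
  refine ⟨h8, h7, ?_⟩
  -- the level p + 9
  have a8 := hlt' (p + 8) (by omega) (by omega)
  have a7 := hlt' (p + 7) (by omega) (by omega)
  have a6 := hlt' (p + 6) (by omega) (by omega)
  have c8 := hcl (p + 8) (by omega) (by omega)
  have c7 := hcl (p + 7) (by omega) (by omega)
  have c6 := hcl (p + 6) (by omega) (by omega)
  have r1 : tr (p + 9) E l = 2 * tr (p + 8) E l * tr (p + 7) E l - tr (p + 6) E l :=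
    tr_add_three (p + 6) E l
  have r2 : tr (p + 9) E'' l = 2 * tr (p + 8) E'' l * tr (p + 7) E'' l - tr (p + 6) E'' l :=
    tr_add_three (p + 6) E'' l
  have d9 : |tr (p + 9) E'' l - tr (p + 9) E l| ≤ 5 * q ^ 4 := by
    have e : tr (p + 9) E'' l - tr (p + 9) E l =
        2 * ((tr (p + 8) E'' l - tr (p + 8) E l) * tr (p + 7) E'' l) +
        2 * (tr (p + 8) E l * (tr (p + 7) E'' l - tr (p + 7) E l)) -
        (tr (p + 6) E'' l - tr (p + 6) E l) := by rw [r1, r2]; ring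
    have f1 : |(tr (p + 8) E'' l - tr (p + 8) E l) * tr (p + 7) E'' l| ≤ q ^ 4 := by
      rw [abs_mul]
      calc |tr (p + 8) E'' l - tr (p + 8) E l| * |tr (p + 7) E'' l| ≤ q ^ 4 * 1 := by
            gcongr
        _ = q ^ 4 := mul_one _
    have f2 : |tr (p + 8) E l * (tr (p + 7) E'' l - tr (p + 7) E l)| ≤ q ^ 4 := by
      rw [abs_mul]
      calc |tr (p + 8) E l| * |tr (p + 7) E'' l - tr (p + 7) E l| ≤ 1 * q ^ 4 := by
            gcongr
        _ = q ^ 4 := one_mul _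
    rw [e]
    rw [abs_le] at f1 f2 c6 ⊢
    constructor <;> linarith [f1.1, f1.2, f2.1, f2.2, c6.1, c6.2]
  have b9 : |tr (p + 9) E l| ≤ 3 := by
    rw [r1]
    have f1 : |tr (p + 8) E l * tr (p + 7) E l| ≤ 1 := by
      rw [abs_mul]
      calc |tr (p + 8) E l| * |tr (p + 7) E l| ≤ 1 * 1 := by gcongr
        _ = 1 := by norm_num
    rw [abs_le] at f1 a6 ⊢
    constructor <;> nlinarith [f1.1, f1.2, a6.1, a6.2]
  have s9 : 1 - tr (p + 9) E'' l ^ 2 ≤ 2 * q ^ 2 := by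
    have e : tr (p + 9) E'' l ^ 2 = tr (p + 9) E l ^ 2 +
        (tr (p + 9) E'' l - tr (p + 9) E l) * (2 * tr (p + 9) E l) +
        (tr (p + 9) E'' l - tr (p + 9) E l) ^ 2 := by ring
    have f : |(tr (p + 9) E'' l - tr (p + 9) E l) * (2 * tr (p + 9) E l)| ≤ 5 * q ^ 4 * (2 * 3) := by
      rw [abs_mul, abs_mul, abs_two]
      gcongr
    rw [abs_le] at f
    rw [e]
    nlinarith [f.1, sq_nonneg (tr (p + 9) E'' l - tr (p + 9) E l)]
  have hcos := (hT l hl hl1 (p + 9)).2.2.1 E''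
  have hs2 : Real.sin (Th (p + 9) l E'') ^ 2 ≤ 2 * q ^ 2 := by
    have e1 := Real.sin_sq_add_cos_sq (Th (p + 9) l E'')
    rw [hcos] at e1
    have e2 := one_sub_clip (tr (p + 9) E'' l)
    have e3 : max 0 (1 - tr (p + 9) E'' l ^ 2) ≤ 2 * q ^ 2 := max_le (by positivity) s9
    linarith
  have hs : |Real.sin (Th (p + 9) l E'')| ≤ 2 * q := by
    apply abs_le_of_sq_le_sq
    · nlinarith
    · positivity
  have hub : |Th (p + 9) l E'' - Th (p + 8) l E'' - Th (p + 7) l E''| ≤ 7 * √l :=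
    hU l hl hl1 (p + 7) E''
  have hlip : |Real.sin (Th (p + 8) l E'' + Th (p + 7) l E'') - Real.sin (Th (p + 9) l E'')| ≤
      |(Th (p + 8) l E'' + Th (p + 7) l E'') - Th (p + 9) l E''| := by
    have := Real.lipschitzWith_sin.dist_le_mul (Th (p + 8) l E'' + Th (p + 7) l E'')
      (Th (p + 9) l E'')
    rw [Real.dist_eq, Real.dist_eq] at this
    simpa using this
  have hfin : |(Th (p + 8) l E'' + Th (p + 7) l E'') - Th (p + 9) l E''| ≤ q := by
    have e : |(Th (p + 8) l E'' + Th (p + 7) l E'') - Th (p + 9) l E''| =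
        |Th (p + 9) l E'' - Th (p + 8) l E'' - Th (p + 7) l E''| := by
      rw [← abs_neg]; congr 1; ring
    rw [e]
    nlinarith
  have := abs_sub_abs_le_abs_sub (Real.sin (Th (p + 8) l E'' + Th (p + 7) l E''))
    (Real.sin (Th (p + 9) l E''))
  linarith

/-- the measure of the exceptional sets -/
lemma Jg_vol (hT : ThProps) {θ l E0 ℓ a κ : ℝ} (hl : 0 < l) (hl1 : l ≤ 1 / 8) (hℓ : 0 < ℓ) (k n : ℕ)
    (hn : 1 ≤ n) (hκ : 0 < κ) (hq : 0 ≤ θ ^ k) (hq1 : θ ^ k ≤ 1 / 10)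
    (hrange : (Th (n + 1) l (E0 - 5 * ℓ) + Th n l (E0 - 5 * ℓ)) -
      (Th (n + 1) l (E0 + 5 * ℓ) + Th n l (E0 + 5 * ℓ)) ≤ a)
    (hlow : ∀ x, |x - E0| ≤ 5 * ℓ → |tr (n + 1) x l| < 1 →
      κ ≤ |trE (n + 1) x l| / √(1 - tr (n + 1) x l ^ 2)) :
    ENNReal.ofReal κ * volume (JgU θ l E0 ℓ k n) ≤ ENNReal.ofReal ((a + 3) * (10 * θ ^ k)) := by
  obtain ⟨c1, m1, _, _, _, d1⟩ := hT l hl hl1 (n + 1)
  obtain ⟨c2, m2, _, _, _, d2⟩ := hT l hl hl1 n
  have hS : Antitone (fun x => Th (n + 1) l x + Th n l x) := fun x y hxy =>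
    add_le_add (m1 hxy) (m2 hxy)
  have h1 := vol_le_image (S := fun x => Th (n + 1) l x + Th n l x)
    (S' := fun x => -(|trE (n + 1) x l| / √(1 - tr (n + 1) x l ^ 2)) +
      -(|trE n x l| / √(1 - tr n x l ^ 2))) hκ (JgU_meas hT hl hl1 k n (θ := θ) (E0 := E0) (ℓ := ℓ)) hS
    (fun x hx => (d1 x (by omega) hx.2.1).2.add (d2 x hn hx.2.2.1).2)
    (fun x hx => by
      have e1 := hlow x hx.1 hx.2.1
      have e2 : 0 ≤ |trE n x l| / √(1 - tr n x l ^ 2) := by positivity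
      linarith)
  refine h1.trans ?_
  have hab : (Th (n + 1) l (E0 + 5 * ℓ) + Th n l (E0 + 5 * ℓ)) ≤
      (Th (n + 1) l (E0 - 5 * ℓ) + Th n l (E0 - 5 * ℓ)) := hS (by linarith)
  calc volume ((fun x => Th (n + 1) l x + Th n l x) '' JgU θ l E0 ℓ k n)
      ≤ volume {y : ℝ | y ∈ Icc (Th (n + 1) l (E0 + 5 * ℓ) + Th n l (E0 + 5 * ℓ))
          (Th (n + 1) l (E0 - 5 * ℓ) + Th n l (E0 - 5 * ℓ)) ∧ |Real.sin y| ≤ 3 * θ ^ k} := by
        apply measure_mono
        rintro y ⟨x, hx, rfl⟩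
        have e := abs_le.mp hx.1
        refine ⟨⟨hS (by linarith [e.2]), hS (by linarith [e.1])⟩, hx.2.2.2⟩
    _ ≤ _ := vol_sin hab hq hq1
    _ ≤ _ := by
        apply ENNReal.ofReal_le_ofReal
        gcongr

lemma Jg_LH_mono {N N' C1 : ℕ} {θ l : ℝ} {L Lc Q K m : ℕ} {E0 ℓ : ℝ} (h : N' ≤ N) (hN : 1 ≤ N)
    (hLH : LH N C1 θ l L Lc Q K m E0 ℓ) : LH N' C1 θ l L Lc Q K m E0 ℓ := by
  obtain ⟨hθ0, hNθ, hl0, hlθ, h1, h2, h3, h4, hℓ0, hℓ1, hGood⟩ := hLH
  have hN1 : (1 : ℝ) ≤ N := by exact_mod_cast hN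
  have hθ1 : θ ≤ 1 := by nlinarith
  have hl1 : l ≤ 1 := hlθ.trans (pow_le_one₀ hθ0.le hθ1)
  have hli : 1 ≤ 1 / l := by rw [le_div_iff₀ hl0]; linarith
  have hNN : (N' : ℝ) ≤ N := by exact_mod_cast h
  have hpow : (1 / l) ^ N' ≤ (1 / l) ^ N := pow_le_pow_right₀ hli h
  refine ⟨hθ0, ?_, hl0, ?_, ?_, ?_, ?_, h4, hℓ0, hℓ1, hGood⟩
  · nlinarith
  · exact hlθ.trans (pow_le_pow_of_le_one hθ0.le hθ1 h)
  · exact hpow.trans h1
  · refine le_trans ?_ h2
    gcongr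
  · refine le_trans ?_ h3
    gcongr

theorem atypCard (hS : SLoc) (hD : Dist) (hT : ThProps) (hU : UBound) (hL : TauLow) (hN : NBound) (hLL : LocLin) (hR : RhoRatio)
    (hG : GrLow) : AtypCard := by
  obtain ⟨CS, hS⟩ := hS
  obtain ⟨CD, hD⟩ := hD
  obtain ⟨CT, hL⟩ := hL
  obtain ⟨CN, hCN, hN⟩ := hN
  obtain ⟨cLL, hLL⟩ := hLL
  refine ⟨CD + CT + cLL + 2, CS + 4, fun C1 C4 hC1 hC4 => ?_⟩
  obtain ⟨CL, NL, hLL⟩ := hLL C1 (by omega)
  obtain ⟨Nn, hNn⟩ := exists_nat_ge CN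
  refine ⟨CT + C1 + 8, fun k hk => ?_⟩
  refine ⟨CS + CD + CT + CL + NL + Nn + 4 * k + 2000, ?_⟩
  intro θ l L Lc Q K m E0 ℓ hLH Ta hTa
  obtain ⟨N, hNdef⟩ : ∃ N, N = CS + CD + CT + CL + NL + Nn + 4 * k + 2000 := ⟨_, rfl⟩
  rw [← hNdef] at hLH
  have hLHN : LH NL C1 θ l L Lc Q K m E0 ℓ := Jg_LH_mono (by omega) (by omega) hLH
  obtain ⟨hθ0, hNθ, hl0, hlθ, h1, h2, h3, h4, hℓ0, hℓ1, hGood⟩ := hLH
  obtain ⟨hK0, hLm, hmK, hr1, hr2, hTw⟩ := hGood
  -- elementary facts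
  have hcast : ∀ e : ℕ, e ≤ N → (e : ℝ) * θ ≤ 1 := by
    intro e he
    have : (e : ℝ) ≤ N := by exact_mod_cast he
    nlinarith
  have hθ : θ ≤ 1 / 2000 := by
    have := hcast 2000 (by omega)
    push_cast at this
    linarith
  have hθ1 : θ ≤ 1 := by linarith
  have hlpow : ∀ e : ℕ, e ≤ N → l ≤ θ ^ e := fun e he =>
    hlθ.trans (pow_le_pow_of_le_one hθ0.le hθ1 he)
  have hlθ1 : l ≤ θ := by simpa using hlpow 1 (by omega)
  have hl8 : l ≤ 1 / 8 := by linarith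
  have hli : 2000 ≤ 1 / l := by
    rw [le_div_iff₀ hl0]; linarith
  have hli1 : 1 ≤ 1 / l := by linarith
  have hlinv : ∀ e : ℕ, e ≤ N → (1 / l) ^ e ≤ ph ^ L := fun e he =>
    (pow_le_pow_right₀ hli1 he).trans h1
  have hphp := ph_pos
  have hphg := ph_gt
  have hphl := ph_lt
  have hph1 : 1 < ph := by linarith
  have hpowN : 1 ≤ (1 / l) ^ N := one_le_pow₀ hli1
  have hQ1 : (1 : ℝ) ≤ Q := by
    refine le_trans ?_ h2
    exact one_le_mul_of_one_le_of_one_le (one_le_pow₀ (by norm_num)) hpowN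
  have hQ0 : (0 : ℝ) < Q := by linarith
  have hLLc : L ≤ Lc := by
    have e1 : ph ^ L ≤ ph ^ Lc := by
      calc ph ^ L ≤ 9 ^ L := pow_le_pow_left₀ hphp.le (by linarith) L
        _ ≤ 9 ^ (2 * L) := pow_le_pow_right₀ (by norm_num) (by omega)
        _ ≤ 9 ^ (2 * L) * (1 / l) ^ N := le_mul_of_one_le_right (by positivity) hpowN
        _ ≤ Q := h2
        _ ≤ Q * (1 / l) ^ N := le_mul_of_one_le_right hQ0.le hpowN
        _ ≤ ph ^ Lc := h3
    exact (pow_le_pow_iff_right₀ hph1).mp e1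
  have hLθ : (L : ℝ) * θ ≤ 1 := by
    have : (L : ℝ) ≤ Lc := by exact_mod_cast hLLc
    nlinarith
  have hL8 : 8 ≤ L := by
    by_contra hcon
    push Not at hcon
    have e1 : ph ^ L ≤ 2 ^ 8 := by
      calc ph ^ L ≤ 2 ^ L := pow_le_pow_left₀ hphp.le (by linarith) L
        _ ≤ 2 ^ 8 := pow_le_pow_right₀ (by norm_num) (by omega)
    have e2 := hlinv 1 (by omega)
    rw [pow_one] at e2
    norm_num at e1
    linarith
  have hok : OkT CD θ l L := ⟨hθ0, hcast CD (by omega), hl0, hlpow CD (by omega), hlinv CD (by omega), hLθ⟩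
  have hTw8 : Tw θ (m - 8) (m + 8) E0 l := fun j hj1 hj2 => hTw j (by omega) hj2
  obtain ⟨q, hqdef⟩ : ∃ q : ℝ, q = θ ^ k := ⟨_, rfl⟩
  have hq0 : 0 < q := by rw [hqdef]; positivity
  have hqθ : q ≤ θ ^ 2 := by rw [hqdef]; exact pow_le_pow_of_le_one hθ0.le hθ1 (by omega)
  have hθ2 : θ ^ 2 ≤ 1 / 2000 * θ := by nlinarith
  have hq1 : q ≤ 1 / 2000 := by nlinarith
  have hsq : √l ≤ q ^ 2 := by
    rw [Real.sqrt_le_iff]
    refine ⟨by positivity, ?_⟩
    rw [hqdef, ← pow_mul, ← pow_mul]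
    exact hlpow _ (by omega)
  have hsqθ : √l ≤ θ ^ 2 := by
    rw [Real.sqrt_le_iff]
    refine ⟨by positivity, ?_⟩
    rw [← pow_mul]
    exact hlpow _ (by omega)
  have hsq0 : 0 ≤ √l := Real.sqrt_nonneg _
  have hrho0 : ∀ (n : ℕ) (E : ℝ), 0 ≤ rho n E l := fun n E => le_max_of_le_left (abs_nonneg _)
  have hrhoθ : ∀ e : ℕ, e + 2 ≤ C1 → ∀ c : ℝ, 0 ≤ c → c ≤ 10 → c * (rho m E0 l * ℓ) ≤ θ ^ e := by
    intro e he c hc0 hc
    calc c * (rho m E0 l * ℓ) ≤ 10 * θ ^ C1 := by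
          have : 0 ≤ rho m E0 l * ℓ := mul_nonneg (hrho0 _ _) hℓ0.le
          nlinarith
      _ ≤ 10 * θ ^ (e + 1) :=
          mul_le_mul_of_nonneg_left (pow_le_pow_of_le_one hθ0.le hθ1 (by omega)) (by norm_num)
      _ = (10 * θ) * θ ^ e := by ring
      _ ≤ 1 * θ ^ e := by
          gcongr
          linarith
      _ = θ ^ e := one_mul _
  obtain ⟨δ, hδdef⟩ : ∃ δ : ℝ, δ = ℓ / Q := ⟨_, rfl⟩
  have hδ0 : 0 < δ := by rw [hδdef]; positivity
  have hδℓ : δ ≤ ℓ := by rw [hδdef, div_le_iff₀ hQ0]; nlinarith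
  have hwn : ∀ j ∈ wn E0 ℓ Q, |(j : ℝ) * δ - E0| ≤ 4 * ℓ := by
    intro j hj
    unfold wn at hj
    rw [Finset.mem_Icc, Int.ceil_le, Int.le_floor, div_le_iff₀ hℓ0, le_div_iff₀ hℓ0] at hj
    have e : (j : ℝ) * δ * Q = j * ℓ := by rw [hδdef]; field_simp
    rw [abs_le]
    constructor
    · have : (E0 - 4 * ℓ) * Q ≤ (j : ℝ) * δ * Q := by rw [e]; exact hj.1
      have := le_of_mul_le_mul_right this hQ0
      linarith
    · have : (j : ℝ) * δ * Q ≤ (E0 + 4 * ℓ) * Q := by rw [e]; exact hj.2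
      have := le_of_mul_le_mul_right this hQ0
      linarith
  -- claim 1
  have claim1 : ∀ j ∈ wn E0 ℓ Q \ Ta, ∃ n ∈ Finset.Ico m (m + Lc),
      Ico ((j : ℝ) * δ) (((j : ℝ) + 1) * δ) ⊆ JgU θ l E0 ℓ k n := by
    intro j hj
    rw [Finset.mem_sdiff] at hj
    have hnt : ¬ TyC (θ ^ k) C4 m Lc l (ℓ / Q) j := fun h => hj.2 (hTa j hj.1 h)
    rw [← hqdef, ← hδdef] at hnt
    unfold TyC at hnt
    push Not at hnt
    obtain ⟨E, hE⟩ : ∃ E : ℝ, E = (j : ℝ) * δ := ⟨_, rfl⟩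
    obtain ⟨i0, hi1, hi2, hi3, hi4⟩ := hnt E (by rw [hE]) (by rw [hE]; nlinarith)
    classical
    let P : ℕ → Prop := fun i => m ≤ i ∧ i ≤ m + Lc ∧
      (∀ i', m ≤ i' → i' ≤ i → rho i' E l * δ ≤ q ^ C4) ∧ 1 - tr i E l ^ 2 < q ^ 2
    have hPex : ∃ i, P i := ⟨i0, hi1, hi2, hi3, hi4⟩
    obtain ⟨i, hi⟩ : ∃ i, i = Nat.find hPex := ⟨_, rfl⟩
    have hPi : P i := hi ▸ Nat.find_spec hPex
    have hmin : ∀ i', m ≤ i' → i' < i → q ^ 2 ≤ 1 - tr i' E l ^ 2 := by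
      intro i' g1 g2
      by_contra hcon
      push Not at hcon
      have hPi' : P i' := ⟨g1, by have := hPi.2.1; omega, fun a ha hb => hPi.2.2.1 a ha (by omega), hcon⟩
      exact Nat.find_min hPex (hi ▸ g2) hPi'
    have hEE0 : |E - E0| ≤ 4 * ℓ := by rw [hE]; exact hwn j hj.1
    have hi9 : m + 9 ≤ i := by
      by_contra hcon
      push Not at hcon
      have e1 := (hD m L E0 E l θ hok (by omega) hTw (by
        have := hrhoθ CD (by omega) 4 (by norm_num) (by norm_num)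
        have h0 := hrho0 m E0
        calc |E - E0| * rho m E0 l ≤ 4 * ℓ * rho m E0 l := by gcongr
          _ = 4 * (rho m E0 l * ℓ) := by ring
          _ ≤ θ ^ CD := this)).1 i (by have := hPi.1; omega) (by omega)
      have e2 := hTw i (by have := hPi.1; omega) (by omega)
      have e3 := hPi.2.2.2
      have e4 : |tr i E0 l| ≤ 1 := by
        apply abs_le_of_sq_le_sq
        · nlinarith
        · norm_num
      have e5 : |(tr i E l - tr i E0 l) * (2 * tr i E0 l)| ≤ θ ^ 4 * (2 * 1) := by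
        rw [abs_mul, abs_mul, abs_two]
        gcongr
      have e6 : (tr i E l - tr i E0 l) ^ 2 ≤ (θ ^ 4) ^ 2 := by
        apply sq_le_sq'
        · linarith [(abs_le.mp e1).1]
        · linarith [(abs_le.mp e1).2]
      have e7 : tr i E l ^ 2 = tr i E0 l ^ 2 + (tr i E l - tr i E0 l) * (2 * tr i E0 l) +
          (tr i E l - tr i E0 l) ^ 2 := by ring
      have e8 := (abs_le.mp e5).2
      have e9 : θ ^ 4 ≤ 1 / 1000 * θ ^ 2 := by
        have : θ ^ 4 = θ ^ 2 * θ ^ 2 := by ring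
        rw [this]
        have : 0 < θ ^ 2 := by positivity
        nlinarith
      have e10 : (θ ^ 4) ^ 2 ≤ θ ^ 4 := by
        have : 0 < θ ^ 4 := by positivity
        have : θ ^ 4 ≤ 1 := pow_le_one₀ hθ0.le hθ1
        nlinarith
      have e11 : q ^ 2 ≤ θ ^ 4 := by
        calc q ^ 2 ≤ (θ ^ 2) ^ 2 := pow_le_pow_left₀ hq0.le hqθ 2
          _ = θ ^ 4 := by ring
      have e12 : 0 < θ ^ 2 := by positivity
      linarith
    obtain ⟨p, rfl⟩ : ∃ p, i = p + 9 := ⟨i - 9, by omega⟩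
    have hpm : m ≤ p := by omega
    have hty : ∀ a, p ≤ a → a ≤ p + 8 → q ^ 2 ≤ 1 - tr a E l ^ 2 := fun a ha hb =>
      hmin a (by omega) (by omega)
    refine ⟨p + 7, Finset.mem_Ico.mpr ⟨by omega, by have := hPi.2.1; omega⟩, ?_⟩
    intro E'' hE''
    have hdist : |E'' - E| ≤ δ := by
      rw [abs_le, hE]
      constructor
      · linarith [hE''.1]
      · have := hE''.2
        linarith
    have hcl : ∀ a, p ≤ a → a ≤ p + 8 → |tr a E'' l - tr a E l| ≤ q ^ 4 := by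
      intro a ha hb
      have hp := hPi.2.2.1 p hpm (by omega)
      have h5 : |E'' - E| * rho p E l ≤ q ^ C4 := by
        calc |E'' - E| * rho p E l ≤ δ * rho p E l := by
              have := hrho0 p E
              gcongr
          _ = rho p E l * δ := mul_comm _ _
          _ ≤ q ^ C4 := hp
      have h6 : q ^ C4 ≤ q ^ (CS + 4) := pow_le_pow_of_le_one hq0.le (by linarith) hC4
      have h7 : q ^ (CS + 4) ≤ q ^ CS := pow_le_pow_of_le_one hq0.le (by linarith) (by omega)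
      have hz : (‖((E'' - E : ℝ) : ℂ)‖ + ‖(0 : ℂ)‖) * rho p E l ≤ q ^ CS := by
        rw [Complex.norm_real, norm_zero, add_zero, Real.norm_eq_abs]
        linarith
      have hlq : l ≤ q := by rw [hqdef]; exact hlpow k (by omega)
      have := hS p E l q ⟨hl0, hl8, hq0, by linarith⟩ (Or.inr ⟨hlq, hty⟩) ((E'' - E : ℝ) : ℂ) 0 hz a ha hb
      have e1 : (E : ℂ) + ((E'' - E : ℝ) : ℂ) = (E'' : ℂ) := by push_cast; ring
      rw [e1, add_zero, tr_ofReal, ← Complex.ofReal_sub, Complex.norm_real, Complex.norm_real,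
        norm_zero, add_zero, Real.norm_eq_abs, Real.norm_eq_abs] at this
      have h8 : q ^ CS * |tr a E'' l - tr a E l| ≤ q ^ CS * q ^ 4 := by
        rw [← pow_add]
        linarith
      exact le_of_mul_le_mul_left h8 (by positivity)
    obtain ⟨g1, g2, g3⟩ := Jg_cell hT hU hl0 hl8 hq0 hq1 hsq hty hPi.2.2.2 hcl
    refine ⟨?_, g1, g2, ?_⟩
    · have e1 : E'' - E0 = (E'' - E) + (E - E0) := by ring
      rw [e1]
      exact (abs_add_le _ _).trans (by linarith)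
    · rw [← hqdef]
      exact g3
  -- claim 2
  obtain ⟨X, hXdef⟩ : ∃ X : ℝ, X = θ ^ 7 * θ ^ (k - (CT + C1 + 8)) * ℓ := ⟨_, rfl⟩
  have hX0 : 0 ≤ X := by rw [hXdef]; positivity
  have claim2 : ∀ n ∈ Finset.Ico m (m + Lc), volume (JgU θ l E0 ℓ k n) ≤ ENNReal.ofReal X := by
    intro n hn
    rw [Finset.mem_Ico] at hn
    obtain ⟨d, rfl⟩ : ∃ d, n = m + d := ⟨n - m, by omega⟩
    have hrp : 0 < rho m E0 l := by
      by_contra hcon
      have : rho m E0 l = 0 := le_antisymm (not_lt.mp hcon) (hrho0 _ _)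
      rw [this] at hr2
      have : 0 < θ ^ C1 := by positivity
      linarith
    obtain ⟨κ, hκdef⟩ : ∃ κ : ℝ, κ = θ ^ CT * ph ^ (d + 1) * rho m E0 l := ⟨_, rfl⟩
    have hκ0 : 0 < κ := by rw [hκdef]; positivity
    have hlow : ∀ x, |x - E0| ≤ 5 * ℓ → |tr (m + d + 1) x l| < 1 →
        κ ≤ |trE (m + d + 1) x l| / √(1 - tr (m + d + 1) x l ^ 2) := by
      intro x hx hx1
      have := hL m E0 x l θ hθ0 (hcast CT (by omega)) hl0 (hlpow CT (by omega)) (by omega) hTw8 (by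
        have := hrhoθ CT (by omega) 5 (by norm_num) (by norm_num)
        have h0 := hrho0 m E0
        calc |x - E0| * rho m E0 l ≤ 5 * ℓ * rho m E0 l := by gcongr
          _ = 5 * (rho m E0 l * ℓ) := by ring
          _ ≤ θ ^ CT := this) (m + d + 1) (by omega) hx1
      rw [show m + d + 1 - m = d + 1 by omega] at this
      rw [hκdef]
      exact this
    have hrange : (Th (m + d + 1) l (E0 - 5 * ℓ) + Th (m + d) l (E0 - 5 * ℓ)) -
      (Th (m + d + 1) l (E0 + 5 * ℓ) + Th (m + d) l (E0 + 5 * ℓ)) ≤ 9 * ph ^ (d + 1) + 1 := by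
      have hK1 : 1 ≤ K := by omega
      have t1 := abs_le.mp (hN l hl0 hl8 K (m + d + 1) (E0 - 5 * ℓ) hK1 (by omega))
      have t2 := abs_le.mp (hN l hl0 hl8 K (m + d) (E0 - 5 * ℓ) hK1 (by omega))
      have t3 := abs_le.mp (hN l hl0 hl8 K (m + d + 1) (E0 + 5 * ℓ) hK1 (by omega))
      have t4 := abs_le.mp (hN l hl0 hl8 K (m + d) (E0 + 5 * ℓ) hK1 (by omega))
      have t5 := (hLL θ l L Lc Q K m E0 ℓ hLHN (E0 - 5 * ℓ) (E0 + 5 * ℓ) (by linarith)
        (by rw [abs_le]; constructor <;> linarith) (by rw [abs_le]; constructor <;> linarith)).2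
      obtain ⟨D, hDdef⟩ : ∃ D : ℝ, D = NN K l (E0 - 5 * ℓ) - NN K l (E0 + 5 * ℓ) := ⟨_, rfl⟩
      rw [← hDdef] at t5
      have hD0 : 0 ≤ D := by
        have := (hT l hl0 hl8 K).2.1 (show E0 - 5 * ℓ ≤ E0 + 5 * ℓ by linarith)
        rw [hDdef, sub_nonneg]
        unfold NN
        gcongr
      have t6 : (Nat.fib m : ℝ) * D ≤ 1 := by
        have e1 : (E0 + 5 * ℓ - (E0 - 5 * ℓ)) / ℓ = 10 := by field_simp; ring
        rw [e1] at t5
        have e2 : (CL : ℝ) * √l ≤ θ := by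
          have e3 := hcast CL (by omega)
          have e4 : (0 : ℝ) ≤ CL := Nat.cast_nonneg _
          calc (CL : ℝ) * √l ≤ CL * θ ^ 2 := by gcongr
            _ = (CL * θ) * θ := by ring
            _ ≤ 1 * θ := by gcongr
            _ = θ := one_mul _
        linarith
      have t7 : CN * √l ≤ 1 / 2000 := by
        have e3 := hcast Nn (by omega)
        calc CN * √l ≤ Nn * θ ^ 2 := by gcongr
          _ = (Nn * θ) * θ := by ring
          _ ≤ 1 * θ := by gcongr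
          _ ≤ 1 / 2000 := by linarith
      have t8 : (Nat.fib (m + d + 2) : ℝ) = Nat.fib (m + d) + Nat.fib (m + d + 1) := by
        rw [Nat.fib_add_two]; push_cast; ring
      have t9 : (Nat.fib (m + d + 2) : ℝ) ≤ Nat.fib m * ph ^ (d + 3) := by
        rcases fib_ratio m (d + 2) with h | h
        · exact h
        · omega
      have t10 : (Nat.fib (m + d + 2) : ℝ) * D ≤ ph ^ (d + 3) := by
        calc (Nat.fib (m + d + 2) : ℝ) * D ≤ Nat.fib m * ph ^ (d + 3) * D := by gcongr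
          _ = (Nat.fib m * D) * ph ^ (d + 3) := by ring
          _ ≤ 1 * ph ^ (d + 3) := by gcongr
          _ = _ := one_mul _
      have t11 : π * ((Nat.fib (m + d + 2) : ℝ) * D) ≤ 9 * ph ^ (d + 1) := by
        have e1 : ph ^ (d + 3) = ph ^ (d + 1) * (ph + 1) := by
          rw [← ph_sq, ← pow_add]
        have e2 : (0 : ℝ) < ph ^ (d + 1) := by positivity
        have e3 := Real.pi_lt_d2
        have e4 := Real.pi_pos
        calc π * ((Nat.fib (m + d + 2) : ℝ) * D) ≤ π * (ph ^ (d + 1) * (ph + 1)) := by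
              rw [← e1]; gcongr
          _ ≤ 3.15 * (ph ^ (d + 1) * 2.7) := by
              gcongr
              linarith
          _ ≤ 9 * ph ^ (d + 1) := by nlinarith
      have t12 : π * Nat.fib (m + d + 1) * NN K l (E0 - 5 * ℓ) + π * Nat.fib (m + d) * NN K l (E0 - 5 * ℓ)
          - (π * Nat.fib (m + d + 1) * NN K l (E0 + 5 * ℓ) + π * Nat.fib (m + d) * NN K l (E0 + 5 * ℓ)) =
          π * ((Nat.fib (m + d + 2) : ℝ) * D) := by
        rw [t8, hDdef]; ring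
      linarith [t1.2, t2.2, t3.1, t4.1]
    have hv := Jg_vol hT (θ := θ) (E0 := E0) (ℓ := ℓ) (a := 9 * ph ^ (d + 1) + 1) hl0 hl8 hℓ0 k (m + d)
      (by omega) hκ0 (by rw [← hqdef]; exact hq0.le) (by rw [← hqdef]; linarith) hrange hlow
    have hfin : (9 * ph ^ (d + 1) + 1 + 3) * (10 * θ ^ k) ≤ κ * X := by
      have hk' : θ ^ k = θ * (θ ^ CT * θ ^ C1 * θ ^ 7 * θ ^ (k - (CT + C1 + 8))) := by
        rw [← pow_add, ← pow_add, ← pow_add, ← pow_succ']
        congr 1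
        omega
      obtain ⟨W, hW⟩ : ∃ W : ℝ, W = θ ^ CT * θ ^ C1 * θ ^ 7 * θ ^ (k - (CT + C1 + 8)) := ⟨_, rfl⟩
      have hW0 : 0 ≤ W := by rw [hW]; positivity
      rw [← hW] at hk'
      have hp1 : 1 ≤ ph ^ (d + 1) := one_le_pow₀ hph1.le
      have e1 : ph ^ (d + 1) * W ≤ 9 * (κ * X) := by
        rw [hκdef, hXdef, hW]
        calc ph ^ (d + 1) * (θ ^ CT * θ ^ C1 * θ ^ 7 * θ ^ (k - (CT + C1 + 8)))
            = (ph ^ (d + 1) * θ ^ CT * θ ^ 7 * θ ^ (k - (CT + C1 + 8))) * θ ^ C1 := by ring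
          _ ≤ (ph ^ (d + 1) * θ ^ CT * θ ^ 7 * θ ^ (k - (CT + C1 + 8))) * (9 * (rho m E0 l * ℓ)) := by
              gcongr
          _ = _ := by ring
      rw [hk']
      calc (9 * ph ^ (d + 1) + 1 + 3) * (10 * (θ * W)) ≤ (13 * ph ^ (d + 1)) * (10 * (θ * W)) := by
            gcongr
            linarith
        _ = (130 * θ) * (ph ^ (d + 1) * W) := by ring
        _ ≤ (1 / 9) * (ph ^ (d + 1) * W) := by
            gcongr
            linarith
        _ ≤ (1 / 9) * (9 * (κ * X)) := by gcongr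
        _ = κ * X := by ring
    have h10 : ENNReal.ofReal κ * volume (JgU θ l E0 ℓ k (m + d)) ≤ ENNReal.ofReal κ * ENNReal.ofReal X := by
      rw [← ENNReal.ofReal_mul hκ0.le]
      exact hv.trans (ENNReal.ofReal_le_ofReal hfin)
    have hκne : ENNReal.ofReal κ ≠ 0 := by
      rw [Ne, ENNReal.ofReal_eq_zero, not_le]; exact hκ0
    exact (ENNReal.mul_le_mul_iff_right hκne ENNReal.ofReal_ne_top).mp h10
  -- counting
  have hsub : (⋃ j ∈ wn E0 ℓ Q \ Ta, Ico ((j : ℝ) * δ) (((j : ℝ) + 1) * δ)) ⊆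
      ⋃ n ∈ Finset.Ico m (m + Lc), JgU θ l E0 ℓ k n := by
    intro x hx
    simp only [mem_iUnion] at hx ⊢
    obtain ⟨j, hj, hx⟩ := hx
    obtain ⟨n, hn, hsub⟩ := claim1 j hj
    exact ⟨n, hn, hsub hx⟩
  have hdisj : ((wn E0 ℓ Q \ Ta : Finset ℤ) : Set ℤ).PairwiseDisjoint
      (fun j : ℤ => Ico ((j : ℝ) * δ) (((j : ℝ) + 1) * δ)) := by
    intro a _ b _ hab
    rw [Function.onFun, Set.disjoint_left]
    intro x hxa hxb
    apply hab
    have e1 : (a : ℝ) < b + 1 := lt_of_mul_lt_mul_right (hxa.1.trans_lt hxb.2) hδ0.le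
    have e2 : (b : ℝ) < a + 1 := lt_of_mul_lt_mul_right (hxb.1.trans_lt hxa.2) hδ0.le
    have e3 : a < b + 1 := by exact_mod_cast e1
    have e4 : b < a + 1 := by exact_mod_cast e2
    omega
  have hvol : volume (⋃ j ∈ wn E0 ℓ Q \ Ta, Ico ((j : ℝ) * δ) (((j : ℝ) + 1) * δ)) =
      ENNReal.ofReal (((wn E0 ℓ Q \ Ta).card : ℝ) * δ) := by
    rw [measure_biUnion_finset hdisj (fun _ _ => measurableSet_Ico)]
    have : ∀ j ∈ wn E0 ℓ Q \ Ta, volume (Ico ((j : ℝ) * δ) (((j : ℝ) + 1) * δ)) = ENNReal.ofReal δ := by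
      intro j _
      rw [Real.volume_Ico]
      congr 1
      ring
    rw [Finset.sum_congr rfl this, Finset.sum_const, nsmul_eq_mul,
      ENNReal.ofReal_mul (p := ((wn E0 ℓ Q \ Ta).card : ℝ)) (Nat.cast_nonneg _), ENNReal.ofReal_natCast]
  have hle : ENNReal.ofReal (((wn E0 ℓ Q \ Ta).card : ℝ) * δ) ≤ ENNReal.ofReal ((Lc : ℝ) * X) := by
    rw [← hvol]
    calc volume (⋃ j ∈ wn E0 ℓ Q \ Ta, Ico ((j : ℝ) * δ) (((j : ℝ) + 1) * δ))
        ≤ volume (⋃ n ∈ Finset.Ico m (m + Lc), JgU θ l E0 ℓ k n) := measure_mono hsub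
      _ ≤ ∑ n ∈ Finset.Ico m (m + Lc), volume (JgU θ l E0 ℓ k n) := measure_biUnion_finset_le _ _
      _ ≤ ∑ _n ∈ Finset.Ico m (m + Lc), ENNReal.ofReal X := Finset.sum_le_sum claim2
      _ = ENNReal.ofReal ((Lc : ℝ) * X) := by
          rw [Finset.sum_const, nsmul_eq_mul, Nat.card_Ico, Nat.add_sub_cancel_left,
            ENNReal.ofReal_mul (p := (Lc : ℝ)) (Nat.cast_nonneg _), ENNReal.ofReal_natCast]
  have hle' : ((wn E0 ℓ Q \ Ta).card : ℝ) * δ ≤ (Lc : ℝ) * X := by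
    rwa [ENNReal.ofReal_le_ofReal_iff (mul_nonneg (Nat.cast_nonneg _) hX0)] at hle
  have hlast : ((wn E0 ℓ Q \ Ta).card : ℝ) * δ ≤ θ ^ (k - (CT + C1 + 8)) * ℓ := by
    refine hle'.trans ?_
    rw [hXdef]
    have e1 : (Lc : ℝ) * (θ ^ 7 * θ ^ (k - (CT + C1 + 8)) * ℓ) =
        ((Lc : ℝ) * θ) * (θ ^ 6 * (θ ^ (k - (CT + C1 + 8)) * ℓ)) := by ring
    rw [e1]
    calc ((Lc : ℝ) * θ) * (θ ^ 6 * (θ ^ (k - (CT + C1 + 8)) * ℓ)) ≤
        1 * (1 * (θ ^ (k - (CT + C1 + 8)) * ℓ)) := by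
          gcongr
          exact pow_le_one₀ hθ0.le hθ1
      _ = _ := by ring
  have hδQ : ℓ = δ * Q := by rw [hδdef]; field_simp
  have : ((wn E0 ℓ Q \ Ta).card : ℝ) * δ ≤ (θ ^ (k - (CT + C1 + 8)) * Q) * δ := by
    calc ((wn E0 ℓ Q \ Ta).card : ℝ) * δ ≤ θ ^ (k - (CT + C1 + 8)) * ℓ := hlast
      _ = (θ ^ (k - (CT + C1 + 8)) * Q) * δ := by rw [hδQ]; ring
  exact le_of_mul_le_mul_right this hδ0

end FIB
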