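import Pool.Agent.Helper75.FIB.Iface3
import Pool.Agent.Helper75.FIB.J1

/-!
# FIB block Jh : near-gap parameters in every block

`t0 = NN K l (a+ℓ)`, `h = NN K l a - NN K l (a+ℓ)`: `0 <= t0`, `t0 + h <= 1`, `LocLin`: `θ^{C'} - C√l <= F_m h <= θ + C√l`, so `θ^{k} <= F_m h <= 1` with `k = C'+1` (universal, depends on C1). Let `C_g` be the constant of `GapSet k`, `Nu = N1 + D` with `D` universal (chosen at the end). `GapSet`: `q, n, p, w0`; `w := w0 ∩ Rg K` (full measure). Volume: `>= θ^{Nu+C_g}/F_m >= θ^{2N1} h` if `N1 >= D + C_g`.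
For `t ∈ w`: `t ∈ (t0, t0+h)` and `t` regular, so `a <= EK K l t < a + ℓ` (`Th K (EK t) = π F_K t`, antitone). `E := EK K l t`, `NN K l E = t`, `|tr K E l| < 1`, `|E-E0| <= 6ℓ`. Typicality before the pass: on `[m-L,m+8]` `E` is `θ/2`-typical (`Dist`), for `i ∈ [m,q]`: `|sin π F_i t| >= θ^{C_g}`, NBound: `|sin Θ_i| >= θ^{C_g}/2`, so `Tw (θ^{k'}) (q-L) q E` with `k' = C_g+1`
(`q - L >= m - L`). `q + n + 2L + 20 <= K`: `q-m <= C log(1/θ)`, `n <= 1/θ`, hmm use `Lc`: `F_q θ^{C_g} <= F_m` and `u0 φ^n <= 1/2` give `φ^{q-m+n} <= θ^{-C}`, so `q + n + 2L + 20 <= m + Lc + 16 <= K` because `φ^{Lc} >= Q (1/l)^{N0} >= 9^{2L} (1/l)^{2N0}`. Also `L + 8 <= q`.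
`PassV k'` (constant `C_p`, need `Nu >= C_p`): `|Vx K E - vv q E| >= l/(C_p u0 rho q E)`, `u0 <= θ^{Nu}`, `rho q <= 9^{q-m} rho m <= θ^{-C} rho m` (traces bounded: typical levels). `|vv q E - vv m E| <= sum_{m<=j<q} l θ^{-C}/rho j <= l θ^{-C'}/rho m` (`VStepC`, `z = 0`, `θ := θ^{k''}`, windows `[j-L,j+9]`: levels `q+1..q+9` have `|th| >= 0.3·0.45·α^9`, typical with an absolute constant).
Hypothesis: `|vv m E - (βE+γ)| <= l ℓ θ^{-Ca}`. `1/rho m E ∈ [θ^{-C1}ℓ/2, 20 θ^{-C1} ℓ]`. So `|VK - (β E + γ)| >= l ℓ (θ^{-Nu + C}/C - θ^{-C'} - θ^{-Ca}) >= 2 l ℓ θ^{-N1}` for `D` and `N1` large.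
-/

namespace FIB

open Real MeasureTheory Set Filter Topology

theorem Jh_ph : 1.6 < ph ∧ ph < 1.7 ∧ ph ^ 2 = ph + 1 := by
  have h5 : (2.2 : ℝ) < √5 := by
    rw [Real.lt_sqrt (by norm_num)]; norm_num
  have h6 : √5 < (2.3 : ℝ) := by
    rw [Real.sqrt_lt' (by norm_num)]; norm_num
  have hs : √5 ^ 2 = (5 : ℝ) := Real.sq_sqrt (by norm_num)
  unfold ph
  refine ⟨by linarith, by linarith, ?_⟩
  nlinarith

theorem Jh_al : 0.6 < al ∧ al < 0.65 := by
  have h5 : (2.2 : ℝ) < √5 := by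
    rw [Real.lt_sqrt (by norm_num)]; norm_num
  have h6 : √5 < (2.3 : ℝ) := by
    rw [Real.sqrt_lt' (by norm_num)]; norm_num
  unfold al
  constructor <;> linarith

theorem Jh_ph_pow (j : ℕ) : ph ^ j ≤ ph * (Nat.fib (j + 1) : ℝ) := by
  obtain ⟨h1, h2, h3⟩ := Jh_ph
  have h : ph ^ j ≤ ph * (Nat.fib (j + 1) : ℝ) ∧ ph ^ (j + 1) ≤ ph * (Nat.fib (j + 2) : ℝ) := by
    induction j with
    | zero => constructor <;> norm_num <;> linarith
    | succ j ih =>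
      refine ⟨ih.2, ?_⟩
      have h4 : (Nat.fib (j + 1 + 2) : ℝ) = Nat.fib (j + 1) + Nat.fib (j + 2) := by
        rw [Nat.fib_add_two]; push_cast; ring
      have h5 : ph ^ (j + 1 + 1) = ph ^ (j + 1) + ph ^ j := by
        calc ph ^ (j + 1 + 1) = ph ^ j * ph ^ 2 := by ring
          _ = ph ^ (j + 1) + ph ^ j := by rw [h3]; ring
      rw [h4, h5, mul_add]
      linarith [ih.1, ih.2]
  exact h.1

theorem Jh_fib_mul (m j : ℕ) (hm : 1 ≤ m) :
    (Nat.fib m : ℝ) * Nat.fib (j + 1) ≤ Nat.fib (m + j) := by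
  obtain ⟨k, rfl⟩ : ∃ k, m = k + 1 := ⟨m - 1, by omega⟩
  have h := Nat.fib_add k j
  have h2 : k + 1 + j = k + j + 1 := by ring
  rw [h2, h]
  push_cast
  have : (0 : ℝ) ≤ (Nat.fib k : ℝ) * Nat.fib j := by positivity
  linarith

/-- `9^{q-m}` is bounded by a power of `1/θ` -/
theorem Jh_nine {θ : ℝ} {m q Cg : ℕ} (hθ : 0 < θ) (hθ1 : 32 * θ ≤ 1) (hm : 1 ≤ m) (hmq : m ≤ q)
    (h : (Nat.fib q : ℝ) * θ ^ Cg ≤ Nat.fib m) :
    ph ^ (q - m) * θ ^ Cg ≤ ph ∧ (9 : ℝ) ^ (q - m) * θ ^ (5 * Cg + 1) ≤ 1 := by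
  obtain ⟨h1, h2, h3⟩ := Jh_ph
  obtain ⟨j, rfl⟩ : ∃ j, q = m + j := ⟨q - m, by omega⟩
  rw [Nat.add_sub_cancel_left]
  have hF : (0 : ℝ) < Nat.fib m := by exact_mod_cast Nat.fib_pos.2 (by omega)
  have hθC : 0 < θ ^ Cg := by positivity
  have h4 : (Nat.fib (j + 1) : ℝ) * θ ^ Cg ≤ 1 := by
    have h5 := Jh_fib_mul m j hm
    have h6 : (Nat.fib m : ℝ) * (Nat.fib (j + 1) * θ ^ Cg) ≤ Nat.fib m * 1 := by
      calc (Nat.fib m : ℝ) * (Nat.fib (j + 1) * θ ^ Cg)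
          = (Nat.fib m * Nat.fib (j + 1)) * θ ^ Cg := by ring
        _ ≤ Nat.fib (m + j) * θ ^ Cg := mul_le_mul_of_nonneg_right h5 hθC.le
        _ ≤ Nat.fib m * 1 := by rw [mul_one]; exact h
    exact le_of_mul_le_mul_left h6 hF
  have h5 : ph ^ j * θ ^ Cg ≤ ph := by
    calc ph ^ j * θ ^ Cg ≤ (ph * Nat.fib (j + 1)) * θ ^ Cg :=
          mul_le_mul_of_nonneg_right (Jh_ph_pow j) hθC.le
      _ = ph * (Nat.fib (j + 1) * θ ^ Cg) := by ring
      _ ≤ ph * 1 := mul_le_mul_of_nonneg_left h4 (by linarith)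
      _ = ph := mul_one _
  refine ⟨h5, ?_⟩
  have h9 : (9 : ℝ) ≤ ph ^ 5 := by
    calc (9 : ℝ) ≤ 1.6 ^ 5 := by norm_num
      _ ≤ ph ^ 5 := pow_le_pow_left₀ (by norm_num) h1.le 5
  have h10 : (9 : ℝ) ^ j ≤ (ph ^ j) ^ 5 := by
    calc (9 : ℝ) ^ j ≤ (ph ^ 5) ^ j := pow_le_pow_left₀ (by norm_num) h9 j
      _ = (ph ^ j) ^ 5 := by rw [← pow_mul, ← pow_mul, mul_comm]
  have hphj : 0 < ph ^ j := by positivity
  calc (9 : ℝ) ^ j * θ ^ (5 * Cg + 1) ≤ (ph ^ j) ^ 5 * θ ^ (5 * Cg + 1) :=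
        mul_le_mul_of_nonneg_right h10 (by positivity)
    _ = (ph ^ j * θ ^ Cg) ^ 5 * θ := by ring
    _ ≤ ph ^ 5 * θ := mul_le_mul_of_nonneg_right (pow_le_pow_left₀ (by positivity) h5 5) hθ.le
    _ ≤ 1.7 ^ 5 * θ := mul_le_mul_of_nonneg_right (pow_le_pow_left₀ (by linarith) h2.le 5) hθ.le
    _ ≤ 32 * θ := by
        apply mul_le_mul_of_nonneg_right _ hθ.le
        norm_num
    _ ≤ 1 := hθ1

theorem Jh_sin_typ {l : ℝ} {n : ℕ} (h : ThAt l n) {E s : ℝ} (hs : 0 < s)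
    (h1 : s ≤ |Real.sin (Th n l E)|) : s ^ 2 ≤ 1 - tr n E l ^ 2 := by
  have h2 := h.2.2.1 E
  have h3 : s ^ 2 ≤ Real.sin (Th n l E) ^ 2 := by
    rw [← sq_abs (Real.sin _)]; exact pow_le_pow_left₀ hs.le h1 2
  have h4 := Real.sin_sq_add_cos_sq (Th n l E)
  rw [h2] at h4
  have h5 : 0 < s ^ 2 := by positivity
  have h6 : clip (tr n E l) ^ 2 < 1 := by linarith
  have h7 : clip (tr n E l) = tr n E l := by
    have h8 : |clip (tr n E l)| < 1 := by rwa [← sq_lt_one_iff_abs_lt_one]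
    rw [abs_lt] at h8
    unfold clip at h8 ⊢
    rcases le_total 1 (tr n E l) with h9 | h9
    · rw [min_eq_left h9] at h8
      norm_num at h8
    · rw [min_eq_right h9] at h8 ⊢
      rcases le_total (tr n E l) (-1) with h10 | h10
      · rw [max_eq_left h10] at h8
        norm_num at h8
      · exact max_eq_right h10
  rw [h7] at h4
  linarith

theorem Jh_final {θ l ℓ r P A B D : ℝ} {N1 Cg Nu KS C1 Ca Cp e : ℕ} (hθ : 0 < θ)
    (hθ1 : θ ≤ 1 / 4000) (hCp : 2 * (Cp : ℝ) * θ ≤ 1) (hl : 0 < l) (hℓ : 0 < ℓ) (_hr : 0 < r) (hP0 : 0 < P)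
    (hA0 : 0 ≤ A) (hB0 : 0 ≤ B) (hD0 : 0 ≤ D)
    (hNu : Nu = N1 + 5 * Cg + 4) (hN1 : N1 = e + 1 + (KS + C1 + (10 * Cg + 2)))
    (hN1' : Ca + 1 ≤ N1)
    (hA : l ≤ Cp * (θ ^ Nu * P * r * A)) (hB : θ ^ KS * r * B ≤ l * P ^ 2)
    (hD : θ ^ Ca * D ≤ l * ℓ) (hP : P * θ ^ (5 * Cg + 1) ≤ 1) (hr1 : r * ℓ ≤ 2)
    (hr2 : θ ^ C1 ≤ 18 * (r * ℓ)) : 2 * (l * ℓ) ≤ θ ^ N1 * (A - B - D) := by
  have hlℓ : 0 < l * ℓ := by positivity
  have c1 : 4 * (l * ℓ) ≤ θ ^ N1 * A := by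
    have h1 : l * ℓ ≤ Cp * (θ ^ Nu * P * r * A) * ℓ := mul_le_mul_of_nonneg_right hA hℓ.le
    have h2 : (Cp : ℝ) * (θ ^ Nu * P * r * A) * ℓ = (Cp * (θ ^ Nu * P * A)) * (r * ℓ) := by ring
    have h3 : (Cp * (θ ^ Nu * P * A)) * (r * ℓ) ≤ (Cp * (θ ^ Nu * P * A)) * 2 :=
      mul_le_mul_of_nonneg_left hr1 (by positivity)
    have h4 : (Cp * (θ ^ Nu * P * A)) * 2 = (2 * Cp * θ) * (P * θ ^ (5 * Cg + 1)) * (θ ^ 2 * (θ ^ N1 * A)) := by
      rw [hNu]; ring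
    have h5 : (2 * Cp * θ) * (P * θ ^ (5 * Cg + 1)) ≤ 1 * 1 :=
      mul_le_mul hCp hP (by positivity) (by norm_num)
    have h6 : (2 * Cp * θ) * (P * θ ^ (5 * Cg + 1)) * (θ ^ 2 * (θ ^ N1 * A)) ≤ 1 * (θ ^ 2 * (θ ^ N1 * A)) := by
      apply mul_le_mul_of_nonneg_right _ (by positivity)
      linarith
    have h7 : θ ^ 2 * (θ ^ N1 * A) ≤ (1 / 4) * (θ ^ N1 * A) := by
      apply mul_le_mul_of_nonneg_right _ (by positivity)
      nlinarith
    linarith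
  have c2 : θ ^ N1 * B ≤ (l * ℓ) / 2 := by
    have h1 : θ ^ N1 * B = (θ ^ e * θ * θ ^ (10 * Cg + 2) * (θ ^ KS * B)) * θ ^ C1 := by
      rw [hN1]; ring
    rw [h1]
    have h2 : (θ ^ e * θ * θ ^ (10 * Cg + 2) * (θ ^ KS * B)) * θ ^ C1
        ≤ (θ ^ e * θ * θ ^ (10 * Cg + 2) * (θ ^ KS * B)) * (18 * (r * ℓ)) :=
      mul_le_mul_of_nonneg_left hr2 (by positivity)
    have h3 : (θ ^ e * θ * θ ^ (10 * Cg + 2) * (θ ^ KS * B)) * (18 * (r * ℓ))
        = (18 * θ ^ e * θ * θ ^ (10 * Cg + 2) * ℓ) * (θ ^ KS * r * B) := by ring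
    have h4 : (18 * θ ^ e * θ * θ ^ (10 * Cg + 2) * ℓ) * (θ ^ KS * r * B)
        ≤ (18 * θ ^ e * θ * θ ^ (10 * Cg + 2) * ℓ) * (l * P ^ 2) :=
      mul_le_mul_of_nonneg_left hB (by positivity)
    have h5 : (18 * θ ^ e * θ * θ ^ (10 * Cg + 2) * ℓ) * (l * P ^ 2)
        = (18 * θ ^ e * θ) * (l * ℓ) * (P * θ ^ (5 * Cg + 1)) ^ 2 := by ring
    have h6 : (P * θ ^ (5 * Cg + 1)) ^ 2 ≤ 1 := pow_le_one₀ (by positivity) hP
    have h7 : (18 * θ ^ e * θ) * (l * ℓ) * (P * θ ^ (5 * Cg + 1)) ^ 2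
        ≤ (18 * θ ^ e * θ) * (l * ℓ) * 1 := mul_le_mul_of_nonneg_left h6 (by positivity)
    have h8 : θ ^ e ≤ 1 := pow_le_one₀ hθ.le (by linarith)
    have h9 : (18 * θ ^ e * θ) * (l * ℓ) * 1 ≤ (18 * 1 * θ) * (l * ℓ) * 1 := by
      apply mul_le_mul_of_nonneg_right _ (by norm_num)
      apply mul_le_mul_of_nonneg_right _ (by positivity)
      apply mul_le_mul_of_nonneg_right _ hθ.le
      linarith
    have h10 : (18 * 1 * θ) * (l * ℓ) * 1 ≤ (l * ℓ) / 2 := by nlinarith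
    linarith
  have c3 : θ ^ N1 * D ≤ (l * ℓ) / 2 := by
    obtain ⟨f, hf⟩ : ∃ f, N1 = f + 1 + Ca := ⟨N1 - 1 - Ca, by omega⟩
    have h1 : θ ^ N1 * D = (θ ^ f * θ) * (θ ^ Ca * D) := by rw [hf]; ring
    rw [h1]
    have h2 : θ ^ f ≤ 1 := pow_le_one₀ hθ.le (by linarith)
    have h3 : θ ^ f * θ ≤ 1 / 2 := by nlinarith
    calc (θ ^ f * θ) * (θ ^ Ca * D) ≤ (1 / 2) * (l * ℓ) :=
          mul_le_mul h3 hD (by positivity) (by norm_num)
      _ = (l * ℓ) / 2 := by ring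
  have : θ ^ N1 * (A - B - D) = θ ^ N1 * A - θ ^ N1 * B - θ ^ N1 * D := by ring
  rw [this]
  linarith

theorem Jh_abs_sin_add (x : ℝ) (n : ℤ) : |Real.sin (π * n + x)| = |Real.sin x| := by
  have h : π * (n : ℝ) + x = x + n * π := by ring
  rw [h, Real.sin_add_int_mul_pi, abs_mul, abs_zpow, abs_neg, abs_one, one_zpow, one_mul]

theorem Jh_sin_lip (a b : ℝ) : |Real.sin a| - |a - b| ≤ |Real.sin b| := by
  have h := Real.lipschitzWith_sin.dist_le_mul a b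
  rw [Real.dist_eq, Real.dist_eq] at h
  simp only [NNReal.coe_one, one_mul] at h
  have h2 := abs_sub_abs_le_abs_sub (Real.sin a) (Real.sin b)
  linarith

/-- typicality along `[m-L, q+8]` for a near-gap point -/
theorem Jh_typ {θ l : ℝ} {m L q K Cg : ℕ} {E0 E t s0 u0 : ℝ} {p : ℕ → ℤ} {ε : ℝ}
    (hTh : ∀ n, ThAt l n) (hθ : 0 < θ) (hθ1 : θ ≤ 1 / 4000) (hq : q + 8 ≤ K)
    (hNB : ∀ i ≤ K, |Th i l E - π * Nat.fib i * t| ≤ ε) (hε : ε ≤ θ ^ (Cg + 1))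
    (hwin : ∀ i, m - L ≤ i → i ≤ m + 8 → |tr i E l - tr i E0 l| ≤ θ ^ 4)
    (hTw : Tw θ (m - L) (m + 8) E0 l)
    (hs : ∀ i, m ≤ i → i ≤ q → θ ^ Cg ≤ |Real.sin (π * Nat.fib i * t)|)
    (hx : ∀ i : ℕ, π * Nat.fib (q + i) * t = π * p (q + i) + s0 * (-al) ^ i + u0 * ph ^ i)
    (hx2 : ∀ i : ℕ, 31 / 100 * |s0 * (-al) ^ i| ≤ |s0 * (-al) ^ i + u0 * ph ^ i|)
    (hs0 : 9 / 20 ≤ s0) (hs0' : s0 ≤ 4 / 5) (hu0 : 0 < u0) (hu : u0 ≤ θ) :
    Tw (θ ^ (Cg + 2)) (m - L) (q + 8) E l := by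
  intro i hi1 hi2
  have hθle : θ ≤ 1 := by linarith
  have hk : (θ ^ (Cg + 2)) ^ 2 ≤ θ ^ 4 := by
    rw [← pow_mul]
    exact pow_le_pow_of_le_one hθ.le hθle (by omega)
  by_cases hA : i ≤ m + 8
  · have e1 := hwin i hi1 hA
    have e2 := hTw i hi1 hA
    have e3 : |tr i E0 l| ≤ 1 := by
      rw [← sq_le_one_iff_abs_le_one]
      have : 0 < θ ^ 2 := by positivity
      linarith
    refine hk.trans ?_
    rw [abs_le] at e1 e3
    have e4 : tr i E l ^ 2 - tr i E0 l ^ 2 ≤ 3 * θ ^ 4 := by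
      have hd : tr i E l ^ 2 - tr i E0 l ^ 2
          = (tr i E l - tr i E0 l) * (tr i E l + tr i E0 l) := by ring
      rw [hd]
      have hθ4 : 0 < θ ^ 4 := by positivity
      have hθ41 : θ ^ 4 ≤ 1 := pow_le_one₀ hθ.le hθle
      have h1 : |(tr i E l - tr i E0 l) * (tr i E l + tr i E0 l)| ≤ θ ^ 4 * 3 := by
        rw [abs_mul]
        apply mul_le_mul
        · rw [abs_le]; exact e1
        · rw [abs_le]; constructor <;> linarith [e1.1, e1.2, e3.1, e3.2]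
        · exact abs_nonneg _
        · exact hθ4.le
      have h2 := le_abs_self ((tr i E l - tr i E0 l) * (tr i E l + tr i E0 l))
      linarith
    have e5 : 4 * θ ^ 4 ≤ θ ^ 2 := by
      have : θ ^ 2 ≤ 1 / 4 := by nlinarith
      nlinarith [pow_pos hθ 2]
    linarith
  · push Not at hA
    have hiK : i ≤ K := by omega
    have hNBi := hNB i hiK
    have hlip := Jh_sin_lip (π * Nat.fib i * t) (Th i l E)
    rw [abs_sub_comm] at hNBi
    apply Jh_sin_typ (hTh i) (by positivity)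
    by_cases hB : i ≤ q
    · have h1 := hs i (by omega) hB
      have h2 : θ ^ (Cg + 2) ≤ θ ^ Cg - θ ^ (Cg + 1) := by
        have h3 : θ ^ (Cg + 2) = θ ^ Cg * θ ^ 2 := by ring
        have h4 : θ ^ (Cg + 1) = θ ^ Cg * θ := by ring
        rw [h3, h4]
        have h5 : 0 < θ ^ Cg := by positivity
        have h6 : θ ^ 2 ≤ 1 - θ := by nlinarith
        have h7 := mul_le_mul_of_nonneg_left h6 h5.le
        linarith
      linarith
    · push Not at hB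
      obtain ⟨j, rfl⟩ : ∃ j, i = q + j := ⟨i - q, by omega⟩
      have hj : j ≤ 8 := by omega
      have h1 : π * Nat.fib (q + j) * t = π * p (q + j) + (s0 * (-al) ^ j + u0 * ph ^ j) := by
        rw [hx j]; ring
      have h2 : |Real.sin (π * Nat.fib (q + j) * t)| = |Real.sin (s0 * (-al) ^ j + u0 * ph ^ j)| := by
        rw [h1, Jh_abs_sin_add]
      obtain ⟨x, hxd⟩ : ∃ x, x = s0 * (-al) ^ j + u0 * ph ^ j := ⟨_, rfl⟩
      have hx2j := hx2 j
      rw [h2, ← hxd] at hlip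
      rw [← hxd] at hx2j
      obtain ⟨p1, p2, p3⟩ := Jh_ph
      obtain ⟨a1, a2⟩ := Jh_al
      have hsj : |s0 * (-al) ^ j| = s0 * al ^ j := by
        rw [abs_mul, abs_pow, abs_neg, abs_of_pos (by linarith : 0 < al), abs_of_pos (by linarith : 0 < s0)]
      rw [hsj] at hx2j
      have hal1 : al ^ j ≤ 1 := pow_le_one₀ (by linarith) (by linarith)
      have hal8 : (0.6 : ℝ) ^ 8 ≤ al ^ j := by
        calc (0.6 : ℝ) ^ 8 ≤ 0.6 ^ j := pow_le_pow_of_le_one (by norm_num) (by norm_num) hj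
          _ ≤ al ^ j := pow_le_pow_left₀ (by norm_num) a1.le j
      have hph8 : ph ^ j ≤ 1.7 ^ 8 := by
        calc ph ^ j ≤ ph ^ 8 := pow_le_pow_right₀ (by linarith) hj
          _ ≤ 1.7 ^ 8 := pow_le_pow_left₀ (by linarith) p2.le 8
      have hxlow : (31 / 100) * ((9 / 20) * (0.6 : ℝ) ^ 8) ≤ |x| := by
        refine le_trans ?_ hx2j
        apply mul_le_mul_of_nonneg_left _ (by norm_num)
        exact mul_le_mul hs0 hal8 (by positivity) (by linarith)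
      have hxup : |x| ≤ 1 := by
        rw [hxd]
        have t1 := abs_add_le (s0 * (-al) ^ j) (u0 * ph ^ j)
        rw [hsj, abs_of_pos (by positivity : 0 < u0 * ph ^ j)] at t1
        have t2 : s0 * al ^ j ≤ (4 / 5) * 1 := mul_le_mul hs0' hal1 (by positivity) (by norm_num)
        have t3 : u0 * ph ^ j ≤ (1 / 4000) * 1.7 ^ 8 :=
          mul_le_mul (hu.trans hθ1) hph8 (by positivity) (by norm_num)
        have t4 : (1 / 4000 : ℝ) * 1.7 ^ 8 ≤ 1 / 5 := by norm_num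
        linarith
      have hpi : π < 3.15 := Real.pi_lt_d2
      have hpi3 : 3 < π := Real.pi_gt_three
      have hsin := Real.mul_abs_le_abs_sin (x := x) (by linarith)
      have h2pi : (0.6 : ℝ) ≤ 2 / π := by
        rw [le_div_iff₀ Real.pi_pos]; linarith
      have hs1 : (0.6 : ℝ) * ((31 / 100) * ((9 / 20) * (0.6 : ℝ) ^ 8)) ≤ |Real.sin x| := by
        refine le_trans ?_ hsin
        exact mul_le_mul h2pi hxlow (by positivity) (by positivity)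
      have hs2 : (1 / 1000 : ℝ) ≤ (0.6 : ℝ) * ((31 / 100) * ((9 / 20) * (0.6 : ℝ) ^ 8)) := by norm_num
      have hs3 : θ ^ (Cg + 1) ≤ θ := by
        calc θ ^ (Cg + 1) ≤ θ ^ 1 := pow_le_pow_of_le_one hθ.le hθle (by omega)
          _ = θ := pow_one _
      have hs4 : θ ^ (Cg + 2) ≤ θ := by
        calc θ ^ (Cg + 2) ≤ θ ^ 1 := pow_le_pow_of_le_one hθ.le hθle (by omega)
          _ = θ := pow_one _
      linarith

theorem Jh_sum {θ l E : ℝ} {m KS : ℕ} (hθ : 0 < θ) (hl : 0 < l) (h0 : 0 < rho m E l) (k : ℕ)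
    (hr : ∀ j, m ≤ j → j < m + k → rho (j + 1) E l ≤ 9 * rho j E l ∧ rho j E l ≤ 9 * rho (j + 1) E l)
    (hv : ∀ j, m ≤ j → j < m + k → θ ^ KS * rho j E l * |vv (j + 1) E l - vv j E l| ≤ l) :
    rho (m + k) E l ≤ 9 ^ k * rho m E l ∧ rho m E l ≤ 9 ^ k * rho (m + k) E l ∧
      θ ^ KS * rho m E l * |vv (m + k) E l - vv m E l| ≤ l * (9 ^ k) ^ 2 := by
  induction k with
  | zero =>
    refine ⟨by simp, by simp, ?_⟩
    simp
    exact hl.le
  | succ k ih =>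
    obtain ⟨i1, i2, i3⟩ := ih (fun j a b => hr j a (by omega)) (fun j a b => hv j a (by omega))
    obtain ⟨r1, r2⟩ := hr (m + k) (by omega) (by omega)
    have v1 := hv (m + k) (by omega) (by omega)
    have hadd : m + (k + 1) = m + k + 1 := by ring
    rw [hadd]
    have h9 : (1 : ℝ) ≤ 9 ^ k := one_le_pow₀ (by norm_num)
    have hpw : (9 : ℝ) ^ (k + 1) = 9 * 9 ^ k := by ring
    rw [hpw]
    have hθK : 0 < θ ^ KS := by positivity
    refine ⟨?_, ?_, ?_⟩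
    · calc rho (m + k + 1) E l ≤ 9 * rho (m + k) E l := r1
        _ ≤ 9 * (9 ^ k * rho m E l) := by linarith
        _ = 9 * 9 ^ k * rho m E l := by ring
    · calc rho m E l ≤ 9 ^ k * rho (m + k) E l := i2
        _ ≤ 9 ^ k * (9 * rho (m + k + 1) E l) := mul_le_mul_of_nonneg_left r2 (by positivity)
        _ = 9 * 9 ^ k * rho (m + k + 1) E l := by ring
    · have t1 : |vv (m + k + 1) E l - vv m E l| ≤ |vv (m + k + 1) E l - vv (m + k) E l|
          + |vv (m + k) E l - vv m E l| := by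
        have := abs_add_le (vv (m + k + 1) E l - vv (m + k) E l) (vv (m + k) E l - vv m E l)
        have h2 : vv (m + k + 1) E l - vv (m + k) E l + (vv (m + k) E l - vv m E l)
            = vv (m + k + 1) E l - vv m E l := by ring
        rwa [h2] at this
      have t2 : θ ^ KS * rho m E l * |vv (m + k + 1) E l - vv (m + k) E l| ≤ 9 ^ k * l := by
        calc θ ^ KS * rho m E l * |vv (m + k + 1) E l - vv (m + k) E l|
            ≤ θ ^ KS * (9 ^ k * rho (m + k) E l) * |vv (m + k + 1) E l - vv (m + k) E l| := by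
              apply mul_le_mul_of_nonneg_right _ (abs_nonneg _)
              exact mul_le_mul_of_nonneg_left i2 hθK.le
          _ = 9 ^ k * (θ ^ KS * rho (m + k) E l * |vv (m + k + 1) E l - vv (m + k) E l|) := by ring
          _ ≤ 9 ^ k * l := mul_le_mul_of_nonneg_left v1 (by positivity)
      calc θ ^ KS * rho m E l * |vv (m + k + 1) E l - vv m E l|
          ≤ θ ^ KS * rho m E l * (|vv (m + k + 1) E l - vv (m + k) E l|
            + |vv (m + k) E l - vv m E l|) := mul_le_mul_of_nonneg_left t1 (by positivity)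
        _ = θ ^ KS * rho m E l * |vv (m + k + 1) E l - vv (m + k) E l|
            + θ ^ KS * rho m E l * |vv (m + k) E l - vv m E l| := by ring
        _ ≤ 9 ^ k * l + l * (9 ^ k) ^ 2 := by linarith
        _ ≤ l * (9 * 9 ^ k) ^ 2 := by
            have : (9 : ℝ) ^ k ≤ (9 ^ k) ^ 2 := by nlinarith
            nlinarith


/-- room above the pass -/
theorem Jh_room {θ l u0 : ℝ} {m L Lc Q K q n Cg Nu N0 : ℕ} (hθ : 0 < θ) (hθ1 : θ ≤ 1 / 4000)
    (hl : 0 < l) (hlθ : l ≤ θ ^ N0) (hl1 : l ≤ 1) (hN0 : Cg + Nu + 2 ≤ N0) (hmq : m ≤ q)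
    (hQ1 : (9 : ℝ) ^ (2 * L) * (1 / l) ^ N0 ≤ Q) (hQ2 : (Q : ℝ) * (1 / l) ^ N0 ≤ ph ^ Lc)
    (hK : m + Lc + 16 ≤ K) (h1 : ph ^ (q - m) * θ ^ Cg ≤ ph) (h2 : u0 * ph ^ n ≤ 1 / 2)
    (h3 : θ ^ (Nu + 1) ≤ u0) : q + n + 2 * L + 20 ≤ K ∧ 2 * L ≤ Lc := by
  obtain ⟨p1, p2, p3⟩ := Jh_ph
  have hp : 1 < ph := by linarith
  have hinv : 1 ≤ 1 / l := by
    rw [le_div_iff₀ hl]; linarith
  have hpow1 : (1 : ℝ) ≤ (1 / l) ^ N0 := one_le_pow₀ hinv
  have hphL : ph ^ (2 * L) ≤ (9 : ℝ) ^ (2 * L) := pow_le_pow_left₀ (by linarith) (by linarith) _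
  have hLc : ph ^ (2 * L) * ((1 / l) ^ N0 * (1 / l) ^ N0) ≤ ph ^ Lc := by
    calc ph ^ (2 * L) * ((1 / l) ^ N0 * (1 / l) ^ N0)
        ≤ (9 : ℝ) ^ (2 * L) * ((1 / l) ^ N0 * (1 / l) ^ N0) :=
          mul_le_mul_of_nonneg_right hphL (by positivity)
      _ = ((9 : ℝ) ^ (2 * L) * (1 / l) ^ N0) * (1 / l) ^ N0 := by ring
      _ ≤ Q * (1 / l) ^ N0 := mul_le_mul_of_nonneg_right hQ1 (by positivity)
      _ ≤ ph ^ Lc := hQ2
  have h2L : 2 * L ≤ Lc := by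
    have : ph ^ (2 * L) ≤ ph ^ Lc := by
      refine le_trans ?_ hLc
      have h5 : (1 : ℝ) ≤ (1 / l) ^ N0 * (1 / l) ^ N0 := by nlinarith
      exact le_mul_of_one_le_right (by positivity) h5
    exact (pow_le_pow_iff_right₀ hp).1 this
  refine ⟨?_, h2L⟩
  by_contra hcon
  push Not at hcon
  have h4 : Lc ≤ (q - m) + n + 2 * L + 4 := by omega
  have h5 : ph ^ Lc ≤ ph ^ ((q - m) + n + 2 * L + 4) := pow_le_pow_right₀ hp.le h4
  have h6 : ph ^ ((q - m) + n + 2 * L + 4) = ph ^ (q - m) * ph ^ n * ph ^ (2 * L) * ph ^ 4 := by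
    ring
  rw [h6] at h5
  have h7 : ph ^ (2 * L) * ((1 / l) ^ N0 * (1 / l) ^ N0)
      ≤ ph ^ (2 * L) * (ph ^ (q - m) * ph ^ n * ph ^ 4) := by
    calc ph ^ (2 * L) * ((1 / l) ^ N0 * (1 / l) ^ N0) ≤ ph ^ Lc := hLc
      _ ≤ ph ^ (q - m) * ph ^ n * ph ^ (2 * L) * ph ^ 4 := h5
      _ = ph ^ (2 * L) * (ph ^ (q - m) * ph ^ n * ph ^ 4) := by ring
  have h8 : (1 / l) ^ N0 * (1 / l) ^ N0 ≤ ph ^ (q - m) * ph ^ n * ph ^ 4 :=
    le_of_mul_le_mul_left h7 (by positivity)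
  -- multiply by θ^(Cg+Nu+1)
  have h9 : θ ^ (Nu + 1) * ph ^ n ≤ 1 / 2 :=
    (mul_le_mul_of_nonneg_right h3 (by positivity)).trans h2
  have h10 : (ph ^ (q - m) * ph ^ n * ph ^ 4) * (θ ^ Cg * θ ^ (Nu + 1)) ≤ ph * (1 / 2) * ph ^ 4 := by
    calc (ph ^ (q - m) * ph ^ n * ph ^ 4) * (θ ^ Cg * θ ^ (Nu + 1))
        = (ph ^ (q - m) * θ ^ Cg) * (θ ^ (Nu + 1) * ph ^ n) * ph ^ 4 := by ring
      _ ≤ ph * (1 / 2) * ph ^ 4 := by
          apply mul_le_mul_of_nonneg_right _ (by positivity)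
          exact mul_le_mul h1 h9 (by positivity) (by linarith)
  have h11 : ph * (1 / 2) * ph ^ 4 ≤ 16 := by
    have : ph ^ 4 ≤ 1.7 ^ 4 := pow_le_pow_left₀ (by linarith) p2.le 4
    have h12 : ph * ph ^ 4 ≤ 1.7 * 1.7 ^ 4 := mul_le_mul p2.le this (by positivity) (by norm_num)
    have h13 : (1.7 : ℝ) * 1.7 ^ 4 ≤ 32 := by norm_num
    linarith
  have h12 : (1 / l) ^ N0 * (1 / l) ^ N0 * (θ ^ Cg * θ ^ (Nu + 1)) ≤ 16 := by
    calc (1 / l) ^ N0 * (1 / l) ^ N0 * (θ ^ Cg * θ ^ (Nu + 1))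
        ≤ (ph ^ (q - m) * ph ^ n * ph ^ 4) * (θ ^ Cg * θ ^ (Nu + 1)) :=
          mul_le_mul_of_nonneg_right h8 (by positivity)
      _ ≤ 16 := h10.trans h11
  have h13 : 1 / l ≤ (1 / l) ^ N0 * (1 / l) ^ N0 := by
    have h14 : 1 / l ≤ (1 / l) ^ N0 := le_self_pow₀ hinv (by omega)
    nlinarith
  have h15 : l ≤ θ ^ Cg * θ ^ (Nu + 1) * θ := by
    calc l ≤ θ ^ N0 := hlθ
      _ ≤ θ ^ (Cg + Nu + 2) := pow_le_pow_of_le_one hθ.le (by linarith) hN0
      _ = θ ^ Cg * θ ^ (Nu + 1) * θ := by ring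
  have h16 : 4000 ≤ (1 / l) * (θ ^ Cg * θ ^ (Nu + 1)) := by
    have h17 : 4000 * l ≤ θ ^ Cg * θ ^ (Nu + 1) := by
      have : 4000 * l ≤ (θ ^ Cg * θ ^ (Nu + 1)) * (4000 * θ) := by linarith
      have h18 : (θ ^ Cg * θ ^ (Nu + 1)) * (4000 * θ) ≤ (θ ^ Cg * θ ^ (Nu + 1)) * 1 :=
        mul_le_mul_of_nonneg_left (by linarith) (by positivity)
      linarith
    rw [one_div, inv_mul_eq_div, le_div_iff₀ hl]
    exact h17
  have h19 : (1 / l) * (θ ^ Cg * θ ^ (Nu + 1))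
      ≤ (1 / l) ^ N0 * (1 / l) ^ N0 * (θ ^ Cg * θ ^ (Nu + 1)) :=
    mul_le_mul_of_nonneg_right h13 (by positivity)
  linarith

theorem Jh_Th_nonneg {l : ℝ} {K : ℕ} (h : ThAt l K) (E : ℝ) : 0 ≤ Th K l E := by
  have h1 := h.2.1 (le_max_left E 3)
  rw [h.2.2.2.1 (max E 3) (le_max_right _ _)] at h1
  exact h1

theorem Jh_Th_le {l : ℝ} {K : ℕ} (h : ThAt l K) (E : ℝ) : Th K l E ≤ π * Nat.fib K := by
  have h1 := h.2.1 (min_le_left E (-3))
  rw [h.2.2.2.2.1 (min E (-3)) (min_le_right _ _)] at h1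
  exact h1

theorem Jh_vv_ofReal (n : ℕ) (E l : ℝ) : vv n (E : ℂ) (l : ℂ) = ((vv n E l : ℝ) : ℂ) := by
  unfold vv
  simp only [trE_ofReal, trL_ofReal]
  push_cast
  ring

theorem nearGapP (hL : LocLin) (hG : GapSet) (hP : PassV) (hN : NBound) (hT : ThProps) (hQ : QuantileProps) (hD : Dist)
    (hS : VStepC) (hC : SpcCr) (hGr : GrLow) (hR : RhoRatio) : NearGapP := by
  clear hGr
  obtain ⟨c1L, hL⟩ := hL
  obtain ⟨CD, hD⟩ := hD
  obtain ⟨CS, hS⟩ := hS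
  obtain ⟨CN, hCN1, hN⟩ := hN
  refine ⟨c1L + CD + 1, fun C1 hC1 Ca => ?_⟩
  replace hL := hL C1 (by omega)
  obtain ⟨CL, NL, hL⟩ := hL
  replace hG := hG (CL + 1)
  obtain ⟨Cg, hG⟩ := hG
  replace hP := hP (Cg + 2)
  obtain ⟨Cp, hP⟩ := hP
  obtain ⟨NCN, hNCN⟩ : ∃ n : ℕ, CN ≤ n := exists_nat_ge CN
  refine ⟨1 + ((Cg + 2) * CS + C1 + (10 * Cg + 2)) + Ca + Cp + (6 * Cg + 4) + 1, fun N1 hN1 => ?_⟩
  obtain ⟨Nu, hNu⟩ : ∃ Nu, Nu = N1 + 5 * Cg + 4 := ⟨_, rfl⟩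
  replace hG := hG Nu (by omega)
  replace hP := hP Nu (by omega)
  obtain ⟨θ0, hθ0, hG⟩ := hG
  obtain ⟨NP, hP⟩ := hP
  obtain ⟨Nθ, hNθ⟩ : ∃ n : ℕ, 1 / θ0 < n := exists_nat_gt (1 / θ0)
  obtain ⟨N0, hN0⟩ : ∃ N0, N0 = NL + CD + (Cg + 2) * CS + NP + (Cg + Nu + 2) + (2 * CL + 4)
    + (2 * Cg + 4) + Nθ + NCN + 2 * Cp + 4000 + CS + CL := ⟨_, rfl⟩
  refine ⟨N0, ?_⟩
  intro θ l L Lc Q K m E0 ℓ hLH β γ hβ a ha1 ha2
  have hLH' := hLH
  obtain ⟨hθ, hNθ0, hl, hlθ, hphL, hQ1, hQ2, hLcθ, hℓ, hℓ1, hGA⟩ := hLH'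
  have hcast : ∀ {x : ℕ}, x ≤ N0 → (x : ℝ) * θ ≤ 1 := fun {x} hx => by
    have : (x : ℝ) ≤ N0 := by exact_mod_cast hx
    nlinarith
  have hθ4 : θ ≤ 1 / 4000 := by
    have := hcast (x := 4000) (by omega)
    push_cast at this
    linarith
  have hθ1 : θ ≤ 1 := by linarith
  have hpow : ∀ {a b : ℕ}, a ≤ b → θ ^ b ≤ θ ^ a := fun h => pow_le_pow_of_le_one hθ.le hθ1 h
  have hl4 : l ≤ θ := by
    have : θ ^ N0 ≤ θ ^ 1 := hpow (by omega)
    rw [pow_one] at this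
    linarith
  have hl8 : l ≤ 1 / 8 := by linarith
  have hl1 : l ≤ 1 := by linarith
  have hθθ0 : θ < θ0 := by
    have h1 := hcast (x := Nθ) (by omega)
    have h2 : 1 < θ0 * Nθ := by
      rw [div_lt_iff₀ hθ0] at hNθ
      linarith
    by_contra hcon
    push Not at hcon
    have h3 : θ0 * Nθ ≤ θ * Nθ := mul_le_mul_of_nonneg_right hcon (by positivity)
    linarith
  obtain ⟨hG1, hG2, hG3, hG4, hG5, hG6⟩ := hGA
  have hK : 1 ≤ K := by omega
  have hm1 : 1 ≤ m := by omega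
  have hTh : ∀ n, ThAt l n := hT l hl hl8
  have hF : (0 : ℝ) < Nat.fib m := by exact_mod_cast Nat.fib_pos.2 (by omega)
  have hFK : (0 : ℝ) < Nat.fib K := by exact_mod_cast Nat.fib_pos.2 (by omega)
  have hpi := Real.pi_pos
  -- sqrt estimates
  have hsqC : ∀ M : ℕ, 2 * M ≤ N0 → √l ≤ θ ^ M := by
    intro M hM
    rw [Real.sqrt_le_left (by positivity), ← pow_mul]
    exact hlθ.trans (hpow (by omega))
  have hCNs : CN * √l ≤ θ ^ (Cg + 1) := by
    have h1 := hsqC (Cg + 2) (by omega)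
    have h2 : CN * θ ≤ 1 := by
      have := hcast (x := NCN) (by omega)
      have h3 : CN * θ ≤ NCN * θ := mul_le_mul_of_nonneg_right hNCN hθ.le
      linarith
    calc CN * √l ≤ CN * θ ^ (Cg + 2) := mul_le_mul_of_nonneg_left h1 (by linarith)
      _ = (CN * θ) * θ ^ (Cg + 1) := by ring
      _ ≤ 1 * θ ^ (Cg + 1) := mul_le_mul_of_nonneg_right h2 (by positivity)
      _ = θ ^ (Cg + 1) := one_mul _
  have hCLs : (CL : ℝ) * √l ≤ θ ^ (CL + 1) := by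
    have h1 := hsqC (CL + 2) (by omega)
    have h2 := hcast (x := CL) (by omega)
    calc (CL : ℝ) * √l ≤ CL * θ ^ (CL + 2) := mul_le_mul_of_nonneg_left h1 (by positivity)
      _ = (CL * θ) * θ ^ (CL + 1) := by ring
      _ ≤ 1 * θ ^ (CL + 1) := mul_le_mul_of_nonneg_right h2 (by positivity)
      _ = θ ^ (CL + 1) := one_mul _
  -- the mass of the block
  have hLb := hL θ l L Lc Q K m E0 ℓ (J1_LH_mono (by omega) hθ1 hl1 hLH) a (a + ℓ) (by linarith)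
    (by linarith) (by linarith)
  rw [add_sub_cancel_left, div_self hℓ.ne', mul_one, mul_one] at hLb
  obtain ⟨t0, ht0⟩ : ∃ t0, t0 = NN K l (a + ℓ) := ⟨_, rfl⟩
  obtain ⟨h, hh⟩ : ∃ h, h = NN K l a - NN K l (a + ℓ) := ⟨_, rfl⟩
  rw [← hh] at hLb
  have hθC : 0 < θ ^ CL := by positivity
  have hθC1 : θ ^ (CL + 1) ≤ θ ^ CL / 2 := by
    have : θ ^ (CL + 1) = θ ^ CL * θ := by ring
    rw [this]; nlinarith
  have hh1 : θ ^ (CL + 1) ≤ h * Nat.fib m := by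
    linarith [hLb.1]
  have hh2 : h * Nat.fib m ≤ 1 := by
    have h1 : θ ^ (CL + 1) ≤ θ ^ 1 := hpow (by omega)
    rw [pow_one] at h1
    linarith [hLb.2]
  have hhpos : 0 < h := by
    have h1 : 0 < h * Nat.fib m := lt_of_lt_of_le (by positivity) hh1
    exact (pos_iff_pos_of_mul_pos h1).2 hF
  have ht00 : 0 ≤ t0 := by
    rw [ht0]
    exact div_nonneg (Jh_Th_nonneg (hTh K) _) (by positivity)
  have ht0h : t0 + h ≤ 1 := by
    have h1 : t0 + h = NN K l a := by rw [ht0, hh]; ring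
    rw [h1]
    unfold NN
    rw [div_le_one (by positivity)]
    exact Jh_Th_le (hTh K) _
  have h2L : 2 * L ≤ Lc := by
    have hp1 : 1 < ph := by linarith [Jh_ph.1]
    have hinv : 1 ≤ 1 / l := by
      rw [le_div_iff₀ hl]; linarith
    have hpow1 : (1 : ℝ) ≤ (1 / l) ^ N0 := one_le_pow₀ hinv
    have h1 : ph ^ (2 * L) ≤ ph ^ Lc := by
      calc ph ^ (2 * L) ≤ (9 : ℝ) ^ (2 * L) :=
            pow_le_pow_left₀ (by linarith) (by linarith [Jh_ph.2.1]) _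
        _ ≤ (9 : ℝ) ^ (2 * L) * (1 / l) ^ N0 := le_mul_of_one_le_right (by positivity) hpow1
        _ ≤ Q := hQ1
        _ ≤ Q * (1 / l) ^ N0 := le_mul_of_one_le_right (by positivity) hpow1
        _ ≤ ph ^ Lc := hQ2
    exact (pow_le_pow_iff_right₀ hp1).1 h1
  have hLθ : (L : ℝ) * θ ≤ 1 := by
    have h1 : (L : ℝ) ≤ Lc := by exact_mod_cast (by omega : L ≤ Lc)
    nlinarith
  obtain ⟨q, n, p, w0, hmq, hqF, hnθ, hp, hw0m, hw0s, hw0v, hw0⟩ :=
    hG θ hθ hθθ0 m L t0 h hm1 ht00 hhpos ht0h hh1 hh2 hLθ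
  obtain ⟨hn1, hn2⟩ := Jh_nine hθ (by linarith) hm1 hmq hqF
  obtain ⟨hQ61, hQ62⟩ := (hQ K hK).2.2.2.2.2
  refine ⟨w0 ∩ Rg K, hw0m.inter hQ61, ?_, ?_, ?_⟩
  · rintro t ⟨ht1, ht2⟩
    have hI := hw0s ht1
    have hIoo : t ∈ Ioo (0 : ℝ) 1 := ⟨ht2.1, ht2.2.1⟩
    have hE := (hQ K hK).2.1 l hl hl8 t hIoo
    refine ⟨ht2, ?_, ?_⟩
    · by_contra hcon
      push Not at hcon
      have h1 := (hTh K).2.1 hcon.le
      rw [hE] at h1
      have h2 : Th K l a = π * Nat.fib K * (t0 + h) := by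
        have h3 : t0 + h = NN K l a := by rw [ht0, hh]; ring
        rw [h3]; unfold NN; field_simp
      rw [h2] at h1
      have h3 : t0 + h ≤ t := le_of_mul_le_mul_left h1 (by positivity)
      have := hI.2
      linarith
    · by_contra hcon
      push Not at hcon
      have h1 := (hTh K).2.1 hcon
      rw [hE] at h1
      have h2 : Th K l (a + ℓ) = π * Nat.fib K * t0 := by
        rw [ht0]; unfold NN; field_simp
      rw [h2] at h1
      have h3 : t ≤ t0 := le_of_mul_le_mul_left h1 (by positivity)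
      have := hI.1
      linarith
  · have h1 : volume w0 ≤ volume (w0 ∩ Rg K) := by
      have hsub : w0 ⊆ (w0 ∩ Rg K) ∪ (Ioo (0 : ℝ) 1 \ Rg K) := by
        intro t ht
        by_cases hR : t ∈ Rg K
        · exact Or.inl ⟨ht, hR⟩
        · right
          have hI := hw0s ht
          refine ⟨⟨?_, ?_⟩, hR⟩
          · have := hI.1; linarith
          · have := hI.2; linarith
      calc volume w0 ≤ volume ((w0 ∩ Rg K) ∪ (Ioo (0 : ℝ) 1 \ Rg K)) := measure_mono hsub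
        _ ≤ volume (w0 ∩ Rg K) + volume (Ioo (0 : ℝ) 1 \ Rg K) := measure_union_le _ _
        _ = volume (w0 ∩ Rg K) := by rw [hQ62, add_zero]
    refine le_trans ?_ (hw0v.trans h1)
    apply ENNReal.ofReal_le_ofReal
    rw [← hh, le_div_iff₀ hF]
    calc θ ^ (2 * N1) * h * Nat.fib m = θ ^ (2 * N1) * (h * Nat.fib m) := by ring
      _ ≤ θ ^ (2 * N1) * 1 := mul_le_mul_of_nonneg_left hh2 (by positivity)
      _ = θ ^ (2 * N1) := mul_one _
      _ ≤ θ ^ (Nu + Cg) := hpow (by omega)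
  · rintro t ⟨ht1, ht2⟩
    have hI := hw0s ht1
    have hIoo : t ∈ Ioo (0 : ℝ) 1 := ⟨ht2.1, ht2.2.1⟩
    have hE := (hQ K hK).2.1 l hl hl8 t hIoo
    obtain ⟨E, hEd⟩ : ∃ E, E = EK K l t := ⟨_, rfl⟩
    rw [← hEd] at hE
    have hEa : a ≤ E := by
      by_contra hcon
      push Not at hcon
      have h1 := (hTh K).2.1 hcon.le
      rw [hE] at h1
      have h2 : Th K l a = π * Nat.fib K * (t0 + h) := by
        have h3 : t0 + h = NN K l a := by rw [ht0, hh]; ring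
        rw [h3]; unfold NN; field_simp
      rw [h2] at h1
      have h3 : t0 + h ≤ t := le_of_mul_le_mul_left h1 (by positivity)
      have := hI.2
      linarith
    have hEb : E < a + ℓ := by
      by_contra hcon
      push Not at hcon
      have h1 := (hTh K).2.1 hcon
      rw [hE] at h1
      have h2 : Th K l (a + ℓ) = π * Nat.fib K * t0 := by
        rw [ht0]; unfold NN; field_simp
      rw [h2] at h1
      have h3 : t ≤ t0 := le_of_mul_le_mul_left h1 (by positivity)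
      have := hI.1
      linarith
    have htr : |tr K E l| < 1 := by
      rw [hEd]; exact J1_tr_lt_of_Rg hT hQ hK hl hl8 ht2
    have hNNE : NN K l E = t := by
      unfold NN
      rw [hE]; field_simp
    have hE6 : |E - E0| ≤ 6 * ℓ := by
      rw [abs_le] at ha1 ha2 ⊢
      constructor <;> linarith [ha1.1, ha1.2, ha2.1, ha2.2]
    obtain ⟨s0, u0, hs01, hs02, hu01, hu02, hun1, hun2, hx, hx2, hsin, hfut⟩ := hw0 t ht1
    have hu0 : 0 < u0 := lt_of_lt_of_le (by positivity) hu01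
    obtain ⟨hroom, -⟩ := Jh_room hθ hθ4 hl hlθ hl1 (by omega) hmq hQ1 hQ2 hG3 hn1 hun2 hu01
    have hNB : ∀ i ≤ K, |Th i l E - π * Nat.fib i * t| ≤ CN * √l := by
      intro i hi
      have := hN l hl hl8 K i E hK hi
      rwa [hNNE] at this
    -- the window around `E0`
    have hrℓ : |E - E0| * rho m E0 l ≤ θ ^ CD := by
      have hρ : 0 ≤ rho m E0 l := (abs_nonneg _).trans (le_max_left _ _)
      calc |E - E0| * rho m E0 l ≤ (6 * ℓ) * rho m E0 l := mul_le_mul_of_nonneg_right hE6 hρ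
        _ = 6 * (rho m E0 l * ℓ) := by ring
        _ ≤ 6 * θ ^ C1 := by linarith
        _ ≤ 6 * θ ^ (CD + 1) := by
            have := hpow (show CD + 1 ≤ C1 by omega)
            linarith
        _ = (6 * θ) * θ ^ CD := by ring
        _ ≤ 1 * θ ^ CD := mul_le_mul_of_nonneg_right (by linarith) (by positivity)
        _ = θ ^ CD := one_mul _
    have hinv : 1 ≤ 1 / l := by
      rw [le_div_iff₀ hl]; linarith
    obtain ⟨hD1, hD2⟩ := hD m L E0 E l θ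
      ⟨hθ, hcast (by omega), hl, hlθ.trans (hpow (by omega)),
        (pow_le_pow_right₀ hinv (by omega)).trans hphL, hLθ⟩ (by omega) hG6 hrℓ
    have hTw := Jh_typ (K := K) hTh hθ hθ4 (by omega) hNB hCNs hD1 hG6 hsin hx
      (fun i => (hx2 i).1) hs01 hs02 hu0
      (hu02.trans (by
        calc θ ^ Nu ≤ θ ^ 1 := hpow (by omega)
          _ = θ := pow_one _))
    have htr2 : ∀ j, m - L ≤ j → j ≤ q + 8 → |tr j E l| ≤ 2 := by
      intro j h1 h2
      have h3 := hTw j h1 h2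
      have h4 : tr j E l ^ 2 ≤ 1 := by
        have : 0 ≤ (θ ^ (Cg + 2)) ^ 2 := by positivity
        linarith
      have h5 : |tr j E l| ≤ 1 := by rwa [← sq_le_one_iff_abs_le_one]
      linarith
    have hCr : ∀ j, j ≤ q + 2 → Cr j E l := fun j hj =>
      hC K j E l hl hl8 ⟨htr, by omega⟩
    obtain ⟨hD21, hD22⟩ := hD2 m (by omega) le_rfl
    have hρ0 : 0 < rho m E0 l := by
      have h1 : 0 < 9 * (rho m E0 l * ℓ) := lt_of_lt_of_le (by positivity) hG5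
      have h2 : 0 < rho m E0 l * ℓ := by linarith
      exact (pos_iff_pos_of_mul_pos h2).2 hℓ
    have hρm : 0 < rho m E l := by linarith
    obtain ⟨k, hk⟩ : ∃ k, q = m + k := ⟨q - m, by omega⟩
    have hqk : q - m = k := by omega
    rw [hqk] at hn2
    have hsum := Jh_sum (θ := θ) (KS := (Cg + 2) * CS) hθ hl hρm k
      (fun j h1 h2 => hR j E l (htr2 _ (by omega) (by omega)) (htr2 _ (by omega) (by omega)))
      (fun j h1 h2 => by
        have hOk : OkT CS (θ ^ (Cg + 2)) l L := by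
          refine ⟨by positivity, ?_, hl, ?_, ?_, ?_⟩
          · have h3 : θ ^ (Cg + 2) ≤ θ := by
              calc θ ^ (Cg + 2) ≤ θ ^ 1 := hpow (by omega)
                _ = θ := pow_one _
            have h4 := hcast (x := CS) (by omega)
            have h5 : (CS : ℝ) * θ ^ (Cg + 2) ≤ CS * θ := mul_le_mul_of_nonneg_left h3 (by positivity)
            linarith
          · rw [← pow_mul]
            exact hlθ.trans (hpow (by omega))
          · exact (pow_le_pow_right₀ hinv (by omega)).trans hphL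
          · have h3 : θ ^ (Cg + 2) ≤ θ := by
              calc θ ^ (Cg + 2) ≤ θ ^ 1 := hpow (by omega)
                _ = θ := pow_one _
            have h5 : (L : ℝ) * θ ^ (Cg + 2) ≤ L * θ := mul_le_mul_of_nonneg_left h3 (by positivity)
            linarith
        have hv := hS j L E l (θ ^ (Cg + 2)) hOk (by omega) (fun i hi => hCr i (by omega))
          (fun i h3 h4 => hTw i (by omega) (by omega)) 0 (by simp; positivity)
        rw [add_zero, Jh_vv_ofReal, Jh_vv_ofReal, ← Complex.ofReal_sub, Complex.norm_real,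
          Real.norm_eq_abs, ← pow_mul] at hv
        exact hv)
    obtain ⟨hs1, hs2, hs3⟩ := hsum
    -- the jump
    have hjump := hP θ l L K q n E s0 u0 p hθ (hcast (by omega)) hl (hlθ.trans (hpow (by omega)))
      ((pow_le_pow_right₀ hinv (by omega)).trans hphL) hLθ hnθ htr (by omega) hroom hp
      (fun i h1 h2 => hTw i (by omega) (by omega)) hs01 hs02 hu01 hu02 hun1 hun2
      (fun i => by rw [hNNE]; exact hx i) hx2 (fun i h1 h2 => by rw [hNNE]; exact hfut i h1 h2)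
    rw [hk] at hjump
    have hVK : VK K l t = Vx K E l := by rw [hEd]; rfl
    rw [hVK, ← hEd]
    have hA0 := abs_nonneg (Vx K E l - vv (m + k) E l)
    have hB0 := abs_nonneg (vv (m + k) E l - vv m E l)
    have hD0 := abs_nonneg (vv m E l - (β * E + γ))
    have htri : |Vx K E l - vv (m + k) E l| - |vv (m + k) E l - vv m E l|
        - |vv m E l - (β * E + γ)| ≤ |Vx K E l - (β * E + γ)| := by
      have h1 := abs_sub_abs_le_abs_sub (Vx K E l - vv (m + k) E l)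
        (-((vv (m + k) E l - vv m E l) + (vv m E l - (β * E + γ))))
      rw [abs_neg] at h1
      have h2 := abs_add_le (vv (m + k) E l - vv m E l) (vv m E l - (β * E + γ))
      have h3 : Vx K E l - vv (m + k) E l
          - -((vv (m + k) E l - vv m E l) + (vv m E l - (β * E + γ))) = Vx K E l - (β * E + γ) := by
        ring
      rw [h3] at h1
      linarith
    have hA : l ≤ Cp * (θ ^ Nu * 9 ^ k * rho m E l * |Vx K E l - vv (m + k) E l|) := by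
      refine hjump.trans ?_
      apply mul_le_mul_of_nonneg_left _ (by positivity)
      apply mul_le_mul_of_nonneg_right _ hA0
      calc u0 * rho (m + k) E l ≤ θ ^ Nu * (9 ^ k * rho m E l) :=
            mul_le_mul hu02 hs1 ((abs_nonneg _).trans (le_max_left _ _)) (by positivity)
        _ = θ ^ Nu * 9 ^ k * rho m E l := by ring
    have h2Cp : 2 * (Cp : ℝ) * θ ≤ 1 := by
      have := hcast (x := 2 * Cp) (by omega)
      push_cast at this
      exact this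
    have hfin := Jh_final (θ := θ) (l := l) (ℓ := ℓ) (r := rho m E l) (P := 9 ^ k)
      (A := |Vx K E l - vv (m + k) E l|) (B := |vv (m + k) E l - vv m E l|)
      (D := |vv m E l - (β * E + γ)|) (N1 := N1) (Cg := Cg) (Nu := Nu) (KS := (Cg + 2) * CS)
      (C1 := C1) (Ca := Ca) (Cp := Cp) (e := N1 - (1 + ((Cg + 2) * CS + C1 + (10 * Cg + 2))))
      hθ hθ4 h2Cp hl hℓ hρm (by positivity) hA0 hB0 hD0 hNu (by omega) (by omega) hA hs3
      (hβ E hE6) hn2 (by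
        have h1 : rho m E l * ℓ ≤ 2 * (rho m E0 l * ℓ) := by nlinarith
        have h2 : θ ^ C1 ≤ 1 := pow_le_one₀ hθ.le hθ1
        linarith) (by
        have h1 : rho m E0 l * ℓ ≤ 2 * (rho m E l * ℓ) := by nlinarith
        linarith)
    refine hfin.trans ?_
    exact mul_le_mul_of_nonneg_left htri (by positivity)

end FIB
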