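import Pool.Agent.Helper75.FIB.Iface3

/-!
# FIB block ME : assembly of the main estimate

PARAMETERS. `LocP`: `C1, C2, C3`; take `N1 = 2C2 + C3 + 3`, then `N0, θ0`. `κ = θ^{2N1}`. Let `N` be a large integer (depending on everything so far), and for `l1 < l0` put `θ := l1^{1/N}` (real power), so `l1 = θ^N`, and all conditions `l <= θ^{..}`, `2 l1 <= η^{..}` hold for `l ∈ [l1,2l1]`, `l0` small. `η_t := sqrt(2θ)` (so `η_t^2/2 = θ`), `η_c := θ^{2N1+3}`.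
`L := ⌈N0 log(1/l1)/log φ⌉`, `Q := ⌈9^{2L+20} (1/l1)^{N0+1}⌉`, `Lc := ⌈log(Q (1/l1)^{N0})/log φ⌉ + L + 20`: `Lc <= C_N log(1/θ)`, so `Lc θ <= 1`, `20 Lc η_t <= 1` for small `l0`. For given `ε`: `CountGood` for `η_t`, `η_c` with `ε/2`: `n1`; `A := Rg K ∩ Gd η_t n1 ∩ Gd η_c n1` (measurable, `volume (Ioo 0 1 \ A) <= ε`).
FIXED `s ∈ [φ^{-K/8}, s0]`, `l`. `nt := ⌊log(s^{-1/2})/log Q⌋`, `ℓ_n = Q^{-n} >= s^{1/2}` for `n <= nt`; `Q^{nt} <= s^{-1/2} <= φ^{K/16}`. With `err_n = lℓ_n/θ^{C3}`, `big_n = lℓ_n/θ^{N1}`, `M = 1/θ^{C2}`, `δ = θ`: for `s <= s0` small (depending on l1): `4s <= err_n`, `5s^3 <= ℓ_n/Q`, `50s^3 <= err_n ℓ_n`; `2000 M err <= big` as `θ^{N1-C2-C3} <= 1/2000`; `100 M <= Q`.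
TREE. Fix `t1 ∈ A` (`E1 = EK t1`, `V1 = VK t1`). Nodes `(i,j) ∈ ℤ×ℤ`, `par (i,j) = (⌊i/Q⌋,⌊j/Q⌋)` (Int.ediv), `S n` = finite set of the pairs in `Sv A K l s E1 V1 ℓ_n` (|EK| <= 3), `w n (i,j) = mass_n(i) mass_n(j)`, `mass_n(i) = NN(iℓ_n) - NN((i+1)ℓ_n) >= 0`; children masses add up (telescoping), `cm K l ℓ_n Q j` is `mass_{n+1}(j)`.
`good n p` := there are `t2,t3,t4 ∈ A` as in the definition of `Sv` for `p` at scale `ℓ_n` such that each of `EK t2, EK t3, EK t4` satisfies `∃ m, GoodAt θ C1 L Lc K l (EK ..) ℓ_n m`. For a good node `LocP` gives the three `LocData` (m's may differ) and `KillP` (with `E2,E3,E4 := EK t2,..`, `a3,a4` = the node) gives the factor `1 - κ/2`. For a leaf `p ∈ S nt` take its witnesses: `GoodLev` for each of them: at least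
`nt - 3(nt/10 + n0) - 1` levels `n < nt` are good for all three; so `M_tree := nt/2` works if `nt >= n2` (s0 small). TreeP: `Σ_{S nt} w <= (1-κ/2)^{nt/2} Σ_{S 0} w <= (1-κ/2)^{nt/2}` (total mass of all level-0 pairs is `<= 1`). `(1-κ/2)^{nt/2} <= exp(-κ nt/4) <= C s^{κ/(8 log Q)}`.
CONCLUSION. The set `quad A (EK) (VK) (5s^3) (4s)` is measurable; by Tonelli its volume is `∫_{t1} ∫∫_{t3,t4} volume{t2 ∈ A : ...}`, the inner volume is `<= CF (5s^3)^{1-δ'}` by `FrostA` (`η_c`; `δ' = C η_c log(1/l1)`, radius `5s^3 >= φ^{-K/2}`, `<= 1`) and it is nonzero only if `(t3,t4)` belongs to `⋃_{(i,j) ∈ S nt} {inCell i} × {inCell j}`, whose measure is `Σ_{S nt} w` (QMeas, product measure). So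
`volume <= C s^{3 - 3δ'} s^{κ/(8 log Q)}`; `κ/(8 log Q) >= θ^{2N1+1}` and `3δ' <= C θ^{2N1+3} N log(1/θ) <= θ^{2N1+2}` for small θ. Take `η := θ^{2N1+1}/2`.
Order of the quantifiers in MainEstimate: `l0`, `l1`, `η`, `ε`, `C, s0`, eventually in `K`.
-/

namespace FIB

open Real MeasureTheory Set Filter Topology

/-! ### parameters -/

theorem me_param (K0 : ℝ) : ∃ θ1 : ℝ, 0 < θ1 ∧ ∀ θ : ℝ, 0 < θ → θ < θ1 → ∃ u : ℕ, 1 ≤ u ∧
    Real.log (1 / θ) ≤ u ∧ 1 / θ ≤ (3 : ℝ) ^ u ∧ K0 * (u : ℝ) ^ 2 * θ ≤ 1 := by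
  have h1 : ∀ᶠ x : ℝ in atTop, 4 * |K0| * Real.log x ^ 2 ≤ x := by
    have h := Real.isLittleO_pow_log_id_atTop (n := 2)
    have h2 := h.def (c := 1 / (4 * |K0| + 1)) (by positivity)
    filter_upwards [h2, eventually_ge_atTop (0 : ℝ)] with x hx hx0
    rw [Real.norm_of_nonneg (by positivity), id, Real.norm_of_nonneg hx0] at hx
    have h3 : (4 * |K0| + 1) * Real.log x ^ 2 ≤ x := by
      have h4 := mul_le_mul_of_nonneg_left hx (show (0 : ℝ) ≤ 4 * |K0| + 1 by positivity)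
      have h5 : (4 * |K0| + 1) * (1 / (4 * |K0| + 1) * x) = x := by
        field_simp
      rw [h5] at h4
      exact h4
    nlinarith [sq_nonneg (Real.log x)]
  obtain ⟨X, hX⟩ := (h1.and (eventually_ge_atTop (3 : ℝ))).exists_forall_of_atTop
  have hX1 : 0 < max X 1 := lt_of_lt_of_le one_pos (le_max_right _ _)
  refine ⟨1 / max X 1, by positivity, fun θ h0 h1 => ?_⟩
  have hx : X ≤ 1 / θ := by
    rw [lt_div_iff₀ hX1] at h1
    rw [le_div_iff₀ h0]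
    have := le_max_left X 1
    nlinarith
  obtain ⟨h2, h3⟩ := hX _ hx
  set x := 1 / θ with hxd
  have hlog1 : 1 ≤ Real.log x := by
    rw [Real.le_log_iff_exp_le (by linarith)]
    have := Real.exp_one_lt_d9
    linarith
  refine ⟨⌈Real.log x⌉₊, ?_, Nat.le_ceil _, ?_, ?_⟩
  · exact Nat.one_le_iff_ne_zero.2 (by
      intro h
      rw [Nat.ceil_eq_zero] at h
      linarith)
  · have h4 : Real.exp (Real.log x) ≤ Real.exp ((⌈Real.log x⌉₊ : ℕ) : ℝ) :=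
      Real.exp_le_exp.2 (Nat.le_ceil _)
    rw [Real.exp_log (by linarith)] at h4
    refine h4.trans ?_
    rw [← Real.exp_one_pow]
    exact pow_le_pow_left₀ (Real.exp_pos _).le (by have := Real.exp_one_lt_d9; linarith) _
  · have h5 : ((⌈Real.log x⌉₊ : ℕ) : ℝ) ≤ 2 * Real.log x := by
      have := Nat.ceil_lt_add_one (show 0 ≤ Real.log x by linarith)
      linarith
    have h6 : ((⌈Real.log x⌉₊ : ℕ) : ℝ) ^ 2 ≤ 4 * Real.log x ^ 2 := by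
      have h7 : (0 : ℝ) ≤ ((⌈Real.log x⌉₊ : ℕ) : ℝ) := Nat.cast_nonneg _
      nlinarith
    have h7 : K0 * ((⌈Real.log x⌉₊ : ℕ) : ℝ) ^ 2 ≤ x := by
      calc K0 * ((⌈Real.log x⌉₊ : ℕ) : ℝ) ^ 2 ≤ |K0| * ((⌈Real.log x⌉₊ : ℕ) : ℝ) ^ 2 :=
            mul_le_mul_of_nonneg_right (le_abs_self _) (by positivity)
        _ ≤ |K0| * (4 * Real.log x ^ 2) := mul_le_mul_of_nonneg_left h6 (abs_nonneg _)
        _ = 4 * |K0| * Real.log x ^ 2 := by ring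
        _ ≤ x := h2
    calc K0 * ((⌈Real.log x⌉₊ : ℕ) : ℝ) ^ 2 * θ ≤ x * θ := mul_le_mul_of_nonneg_right h7 h0.le
      _ = 1 := by rw [hxd]; field_simp

theorem me_ph3 : (3 : ℝ) ≤ ph ^ 3 := by
  have h5 : (2 : ℝ) ≤ √5 := Real.le_sqrt_of_sq_le (by norm_num)
  have h6 : √5 ^ 2 = 5 := Real.sq_sqrt (by norm_num)
  unfold ph
  nlinarith

theorem me_ph1 : (1 : ℝ) < ph := by
  have h5 : (2 : ℝ) ≤ √5 := Real.le_sqrt_of_sq_le (by norm_num)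
  unfold ph
  linarith

/-! ### cells -/

/-- `e` lies in the cell `[iℓ,(i+1)ℓ)` -/
def MIn (ℓ e : ℝ) (i : ℤ) : Prop := (i : ℝ) * ℓ ≤ e ∧ e < ((i : ℝ) + 1) * ℓ

theorem me_par {ℓ e : ℝ} {Q : ℕ} (hQ : 0 < Q) (hℓ : 0 < ℓ) {i : ℤ} (h : MIn (ℓ / Q) e i) :
    MIn ℓ e (i / (Q : ℤ)) := by
  have hQ' : (0 : ℝ) < Q := Nat.cast_pos.2 hQ
  have hQi : (0 : ℤ) < Q := by exact_mod_cast hQ
  have h1 := Int.mul_ediv_add_emod i Q
  have h2 := Int.emod_nonneg i hQi.ne'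
  have h3 := Int.emod_lt_of_pos i hQi
  obtain ⟨h4, h5⟩ := h
  have h6 : ((Q : ℤ) : ℝ) * ((i / (Q : ℤ) : ℤ) : ℝ) ≤ i := by
    exact_mod_cast (by linarith : (Q : ℤ) * (i / (Q : ℤ)) ≤ i)
  have h7 : (i : ℝ) + 1 ≤ ((Q : ℤ) : ℝ) * ((i / (Q : ℤ) : ℤ) : ℝ) + ((Q : ℤ) : ℝ) := by
    exact_mod_cast (by linarith : i + 1 ≤ (Q : ℤ) * (i / (Q : ℤ)) + Q)
  rw [Int.cast_natCast] at h6 h7
  have h8 : ℓ = Q * (ℓ / Q) := by field_simp
  have h9 : 0 < ℓ / Q := by positivity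
  constructor
  · calc ((i / (Q : ℤ) : ℤ) : ℝ) * ℓ = (Q * ((i / (Q : ℤ) : ℤ) : ℝ)) * (ℓ / Q) := by
          field_simp
      _ ≤ i * (ℓ / Q) := mul_le_mul_of_nonneg_right h6 h9.le
      _ ≤ e := h4
  · calc e < ((i : ℝ) + 1) * (ℓ / Q) := h5
      _ ≤ (Q * ((i / (Q : ℤ) : ℤ) : ℝ) + Q) * (ℓ / Q) := mul_le_mul_of_nonneg_right h7 h9.le
      _ = (((i / (Q : ℤ) : ℤ) : ℝ) + 1) * ℓ := by field_simp

theorem me_par_iff {Q : ℕ} (hQ : 0 < Q) (i a : ℤ) :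
    i / (Q : ℤ) = a ↔ i ∈ Finset.Ico (a * Q) (a * Q + Q) := by
  have hQi : (0 : ℤ) < Q := by exact_mod_cast hQ
  rw [Finset.mem_Ico]
  constructor
  · rintro rfl
    have h1 := Int.mul_ediv_add_emod i Q
    have h2 := Int.emod_nonneg i hQi.ne'
    have h3 := Int.emod_lt_of_pos i hQi
    constructor <;> linarith [mul_comm (Q : ℤ) (i / (Q : ℤ))]
  · rintro ⟨h1, h2⟩
    refine le_antisymm ?_ ?_
    · have h3 : i / (Q : ℤ) < a + 1 := by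
        rw [Int.ediv_lt_iff_lt_mul hQi]
        linarith
      omega
    · rw [Int.le_ediv_iff_mul_le hQi]
      exact h1

/-- mass of a cell -/
noncomputable def mms (K : ℕ) (l ℓ : ℝ) (j : ℤ) : ℝ :=
  NN K l ((j : ℝ) * ℓ) - NN K l (((j : ℝ) + 1) * ℓ)

theorem me_sum (K : ℕ) (l ℓ : ℝ) (a : ℤ) (n : ℕ) :
    ∑ j ∈ Finset.Ico a (a + n), mms K l ℓ j
      = NN K l ((a : ℝ) * ℓ) - NN K l (((a : ℝ) + n) * ℓ) := by
  induction n with
  | zero => simp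
  | succ n ih =>
    have h1 : Finset.Ico a (a + ((n + 1 : ℕ) : ℤ)) = insert (a + (n : ℤ)) (Finset.Ico a (a + n)) := by
      ext x
      simp only [Finset.mem_Ico, Finset.mem_insert]
      push_cast
      omega
    rw [h1, Finset.sum_insert (by simp), ih]
    unfold mms
    push_cast
    ring

theorem me_tele (K : ℕ) (l ℓ : ℝ) {Q : ℕ} (hQ : 0 < Q) (a : ℤ) :
    ∑ j ∈ Finset.Ico (a * Q) (a * Q + Q), mms K l (ℓ / Q) j = mms K l ℓ a := by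
  have hQ' : (Q : ℝ) ≠ 0 := (Nat.cast_pos.2 hQ).ne'
  rw [me_sum]
  unfold mms
  congr 2
  · push_cast
    field_simp
  · push_cast
    field_simp


/-! ### the tree -/

/-- the pairs of `Sv`, in terms of `MIn` -/
theorem me_Sv {A : Set ℝ} {K : ℕ} {l s E1 V1 ℓ : ℝ} {p : ℤ × ℤ} :
    p ∈ Sv A K l s E1 V1 ℓ ↔ ∃ t2 t3 t4, t2 ∈ A ∧ t3 ∈ A ∧ t4 ∈ A ∧
      |E1 + EK K l t2 - EK K l t3 - EK K l t4| < 5 * s ^ 3 ∧
      |V1 + VK K l t2 - VK K l t3 - VK K l t4| < 4 * s ∧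
      MIn ℓ (EK K l t3) p.1 ∧ MIn ℓ (EK K l t4) p.2 := by
  unfold Sv MIn
  simp only [Set.mem_ofPred_eq, and_assoc]

theorem me_fin {A : Set ℝ} {K : ℕ} {l s E1 V1 ℓ : ℝ} (hℓ : 0 < ℓ)
    (hE : ∀ t ∈ A, |EK K l t| ≤ 3) : (Sv A K l s E1 V1 ℓ).Finite := by
  have h1 : ∀ (i : ℤ) (e : ℝ), |e| ≤ 3 → MIn ℓ e i →
      i ∈ Icc (-(⌈3 / ℓ⌉ + 1)) (⌈3 / ℓ⌉ + 1) := by
    intro i e he hi
    obtain ⟨h2, h3⟩ := hi
    rw [abs_le] at he
    have h4 := Int.le_ceil (3 / ℓ)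
    rw [div_le_iff₀ hℓ] at h4
    constructor
    · have h5 : (-(⌈3 / ℓ⌉ + 1) : ℝ) * ℓ < (i : ℝ) * ℓ := by nlinarith
      have h6 := lt_of_mul_lt_mul_right h5 hℓ.le
      have h7 : (-(⌈3 / ℓ⌉ + 1) : ℤ) < i := by exact_mod_cast h6
      exact h7.le
    · have h5 : (i : ℝ) * ℓ ≤ ((⌈3 / ℓ⌉ + 1 : ℤ) : ℝ) * ℓ := by
        push_cast
        nlinarith
      have h6 := le_of_mul_le_mul_right h5 hℓ
      exact_mod_cast h6
  refine Set.Finite.subset (Set.Finite.prod (Set.finite_Icc (-(⌈3 / ℓ⌉ + 1)) (⌈3 / ℓ⌉ + 1))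
    (Set.finite_Icc (-(⌈3 / ℓ⌉ + 1)) (⌈3 / ℓ⌉ + 1))) ?_
  intro p hp
  rw [me_Sv] at hp
  obtain ⟨t2, t3, t4, h2, h3, h4, -, -, h5, h6⟩ := hp
  exact ⟨h1 _ _ (hE _ h3) h5, h1 _ _ (hE _ h4) h6⟩

/-- parent of a pair -/
def mpar (Q : ℕ) (p : ℤ × ℤ) : ℤ × ℤ := (p.1 / (Q : ℤ), p.2 / (Q : ℤ))

theorem me_iter {e e' : ℝ} {Q : ℕ} (hQ : 0 < Q) (n : ℕ) :
    ∀ (k : ℕ) (p : ℤ × ℤ), MIn ((Q : ℝ)⁻¹ ^ (n + k)) e p.1 → MIn ((Q : ℝ)⁻¹ ^ (n + k)) e' p.2 →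
      MIn ((Q : ℝ)⁻¹ ^ n) e ((mpar Q)^[k] p).1 ∧ MIn ((Q : ℝ)⁻¹ ^ n) e' ((mpar Q)^[k] p).2 := by
  intro k
  induction k with
  | zero => intro p h1 h2; exact ⟨h1, h2⟩
  | succ k ih =>
    intro p h1 h2
    rw [Function.iterate_succ_apply]
    have hQ' : (0 : ℝ) < Q := Nat.cast_pos.2 hQ
    have h3 : (Q : ℝ)⁻¹ ^ (n + (k + 1)) = (Q : ℝ)⁻¹ ^ (n + k) / Q := by
      rw [← add_assoc, pow_succ, div_eq_mul_inv]
    rw [h3] at h1 h2
    exact ih _ (me_par hQ (by positivity) h1) (me_par hQ (by positivity) h2)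

theorem me_prod (K : ℕ) (l ℓ : ℝ) {Q : ℕ} (hQ : 0 < Q) (a : ℤ × ℤ) :
    ∑ p ∈ Finset.Ico (a.1 * Q) (a.1 * Q + Q) ×ˢ Finset.Ico (a.2 * Q) (a.2 * Q + Q),
      mms K l (ℓ / Q) p.1 * mms K l (ℓ / Q) p.2 = mms K l ℓ a.1 * mms K l ℓ a.2 := by
  rw [Finset.sum_product, ← me_tele K l ℓ hQ a.1, ← me_tele K l ℓ hQ a.2, Finset.sum_mul_sum]

/-- the tree estimate for fixed `t1` -/
theorem me_tree (hK : KillP) (hT : TreeP) {A : Set ℝ} {K : ℕ} {l s E1 V1 M δ κ : ℝ} {Q nt : ℕ}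
    (G : ℝ → ℝ → Prop) (err big : ℕ → ℝ)
    (hA : A ⊆ Rg K) (hNN : Antitone (NN K l)) (hN1 : ∀ E, E ≤ -3 → NN K l E = 1)
    (hN0 : ∀ E, 3 ≤ E → NN K l E = 0)
    (hE : ∀ t ∈ A, |EK K l t| ≤ 3) (hs : 0 < s) (hM : 1 ≤ M) (hδ : 0 < δ) (hδ1 : δ ≤ 1 / 100)
    (hκ : 0 < κ) (hκ1 : κ ≤ 1) (hQM : 100 * M ≤ Q)
    (hG : ∀ n < nt, ∀ e, G e ((Q : ℝ)⁻¹ ^ n) → ∃ β γ μ Ta Tb,
      LocData K l e ((Q : ℝ)⁻¹ ^ n) Q β γ (err n) (big n) M μ δ κ Ta Tb)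
    (hc : ∀ n < nt, 0 < err n ∧ 2000 * M * err n ≤ big n ∧ 4 * s ≤ err n ∧
      5 * s ^ 3 ≤ (Q : ℝ)⁻¹ ^ n / Q ∧ 50 * s ^ 3 ≤ err n * (Q : ℝ)⁻¹ ^ n)
    {B : ℝ} (hB : ∀ t ∈ A, (Set.ncard {n : ℕ | n ≤ nt ∧ ¬ G (EK K l t) ((Q : ℝ)⁻¹ ^ n)} : ℝ) ≤ B)
    {M0 : ℕ} (hM0 : (M0 : ℝ) + 3 * B ≤ nt ∨ M0 = 0) :
    ∃ S : Finset (ℤ × ℤ), (∀ p, p ∈ S ↔ p ∈ Sv A K l s E1 V1 ((Q : ℝ)⁻¹ ^ nt)) ∧
      ∑ p ∈ S, mms K l ((Q : ℝ)⁻¹ ^ nt) p.1 * mms K l ((Q : ℝ)⁻¹ ^ nt) p.2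
        ≤ (1 - κ / 2) ^ M0 := by
  have hQ : 0 < Q := by
    have h1 : (0 : ℝ) < Q := by linarith
    exact_mod_cast h1
  have hQ' : (0 : ℝ) < Q := Nat.cast_pos.2 hQ
  have hℓ : ∀ n : ℕ, 0 < (Q : ℝ)⁻¹ ^ n := fun n => by positivity
  have hℓs : ∀ n : ℕ, (Q : ℝ)⁻¹ ^ (n + 1) = (Q : ℝ)⁻¹ ^ n / Q := fun n => by
    rw [pow_succ, div_eq_mul_inv]
  have hmm : ∀ (n : ℕ) (j : ℤ), 0 ≤ mms K l ((Q : ℝ)⁻¹ ^ n) j := by
    intro n j
    unfold mms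
    have h1 : (j : ℝ) * (Q : ℝ)⁻¹ ^ n ≤ ((j : ℝ) + 1) * (Q : ℝ)⁻¹ ^ n := by
      have := hℓ n
      nlinarith
    linarith [hNN h1]
  set S : ℕ → Finset (ℤ × ℤ) := fun n =>
    (me_fin (s := s) (E1 := E1) (V1 := V1) (hℓ n) hE).toFinset with hS
  have hSm : ∀ n p, p ∈ S n ↔ p ∈ Sv A K l s E1 V1 ((Q : ℝ)⁻¹ ^ n) := by
    intro n p
    rw [hS]
    exact Set.Finite.mem_toFinset _
  set w : ℕ → ℤ × ℤ → ℝ := fun n p =>
    mms K l ((Q : ℝ)⁻¹ ^ n) p.1 * mms K l ((Q : ℝ)⁻¹ ^ n) p.2 with hw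
  have hw0 : ∀ n p, 0 ≤ w n p := fun n p => mul_nonneg (hmm _ _) (hmm _ _)
  set good : ℕ → ℤ × ℤ → Prop := fun n p => ∃ t2 t3 t4, t2 ∈ A ∧ t3 ∈ A ∧ t4 ∈ A ∧
      |E1 + EK K l t2 - EK K l t3 - EK K l t4| < 5 * s ^ 3 ∧
      MIn ((Q : ℝ)⁻¹ ^ n) (EK K l t3) p.1 ∧ MIn ((Q : ℝ)⁻¹ ^ n) (EK K l t4) p.2 ∧
      G (EK K l t2) ((Q : ℝ)⁻¹ ^ n) ∧ G (EK K l t3) ((Q : ℝ)⁻¹ ^ n) ∧
      G (EK K l t4) ((Q : ℝ)⁻¹ ^ n) with hgood
  have hfil : ∀ n (p : ℤ × ℤ), (S (n + 1)).filter (fun q => mpar Q q = p) ⊆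
      Finset.Ico (p.1 * Q) (p.1 * Q + Q) ×ˢ Finset.Ico (p.2 * Q) (p.2 * Q + Q) := by
    intro n p q hq
    rw [Finset.mem_filter] at hq
    have h1 := hq.2
    rw [Finset.mem_product]
    constructor
    · rw [← me_par_iff hQ, ← h1]
      rfl
    · rw [← me_par_iff hQ, ← h1]
      rfl
  have hmain := hT (ℤ × ℤ) nt M0 (κ / 2) (mpar Q) w S good (by positivity) (by linarith) hw0 ?_ ?_ ?_ ?_
  · refine ⟨S nt, hSm nt, hmain.trans ?_⟩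
    have h1 : ∑ p ∈ S 0, w 0 p ≤ 1 := by
      have h2 : S 0 ⊆ Finset.Ico (-4 : ℤ) (-4 + (8 : ℕ)) ×ˢ Finset.Ico (-4 : ℤ) (-4 + (8 : ℕ)) := by
        intro p hp
        rw [hSm, me_Sv] at hp
        obtain ⟨t2, t3, t4, h2, h3, h4, -, -, h5, h6⟩ := hp
        have h7 : ∀ (i : ℤ) (e : ℝ), |e| ≤ 3 → MIn ((Q : ℝ)⁻¹ ^ 0) e i →
            i ∈ Finset.Ico (-4 : ℤ) (-4 + (8 : ℕ)) := by
          intro i e he hi
          obtain ⟨h8, h9⟩ := hi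
          rw [abs_le] at he
          rw [pow_zero, mul_one] at h8 h9
          rw [Finset.mem_Ico]
          have h10 : (-4 : ℝ) < i := by linarith [he.1]
          have h11 : (i : ℝ) ≤ 3 := by linarith [he.2]
          have h12 : (-4 : ℤ) < i := by exact_mod_cast h10
          have h13 : i ≤ 3 := by exact_mod_cast h11
          constructor
          · omega
          · push_cast
            omega
        rw [Finset.mem_product]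
        exact ⟨h7 _ _ (hE _ h3) h5, h7 _ _ (hE _ h4) h6⟩
      have h3 : ∑ p ∈ S 0, w 0 p ≤
          ∑ p ∈ Finset.Ico (-4 : ℤ) (-4 + (8 : ℕ)) ×ˢ Finset.Ico (-4 : ℤ) (-4 + (8 : ℕ)), w 0 p :=
        Finset.sum_le_sum_of_subset_of_nonneg h2 (fun i _ _ => hw0 0 i)
      have h4 : ∑ p ∈ Finset.Ico (-4 : ℤ) (-4 + (8 : ℕ)) ×ˢ Finset.Ico (-4 : ℤ) (-4 + (8 : ℕ)), w 0 p
          = 1 := by
        rw [Finset.sum_product]
        simp only [hw]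
        rw [← Finset.sum_mul_sum, me_sum, hN1, hN0]
        · norm_num
        · rw [pow_zero]
          norm_num
        · rw [pow_zero]
          norm_num
      linarith
    have h2 : 0 ≤ (1 - κ / 2) ^ M0 := pow_nonneg (by linarith) _
    nlinarith
  · -- parents
    intro n hn p hp
    rw [hSm, me_Sv] at hp ⊢
    obtain ⟨t2, t3, t4, h2, h3, h4, h5, h6, h7, h8⟩ := hp
    rw [hℓs] at h7 h8
    exact ⟨t2, t3, t4, h2, h3, h4, h5, h6, me_par hQ (hℓ n) h7, me_par hQ (hℓ n) h8⟩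
  · -- children
    intro n hn p hp
    calc ∑ q ∈ (S (n + 1)).filter (fun q => mpar Q q = p), w (n + 1) q
        ≤ ∑ q ∈ Finset.Ico (p.1 * Q) (p.1 * Q + Q) ×ˢ Finset.Ico (p.2 * Q) (p.2 * Q + Q),
            w (n + 1) q :=
          Finset.sum_le_sum_of_subset_of_nonneg (hfil n p) (fun i _ _ => hw0 _ i)
      _ = w n p := by
          simp only [hw, hℓs]
          exact me_prod K l _ hQ p
  · -- good nodes
    intro n hn p hp hgp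
    obtain ⟨t2, t3, t4, h2, h3, h4, h5, h6, h7, h8, h9, h10⟩ := hgp
    obtain ⟨β2, γ2, μ2, Ta2, Tb2, hd2⟩ := hG n hn _ h8
    obtain ⟨β3, γ3, μ3, Ta3, Tb3, hd3⟩ := hG n hn _ h9
    obtain ⟨β4, γ4, μ4, Ta4, Tb4, hd4⟩ := hG n hn _ h10
    obtain ⟨c1, c2, c3, c4, c5⟩ := hc n hn
    have hcm : ∀ j : ℤ, cm K l ((Q : ℝ)⁻¹ ^ n) Q j = mms K l ((Q : ℝ)⁻¹ ^ (n + 1)) j := by
      intro j
      rw [hℓs]
      rfl
    have h := hK A K l ((Q : ℝ)⁻¹ ^ n) s E1 V1 (err n) (big n) M δ κ Q (EK K l t2) (EK K l t3)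
      (EK K l t4) β2 γ2 μ2 β3 γ3 μ3 β4 γ4 μ4 Ta2 Tb2 Ta3 Tb3 Ta4 Tb4 p.1 p.2 hA (hℓ n) hs c1 hM hδ
      hδ1 hκ hκ1 hQM c2 c3 c4 c5 (fun j => by rw [hcm]; exact hmm _ _) hd2 hd3 hd4 h5 h6.1 h6.2
      h7.1 h7.2 ((S (n + 1)).filter (fun q => mpar Q q = p)) ?_ (hfil n p)
    · simp only [hcm] at h
      simp only [hw]
      refine h.trans (le_of_eq ?_)
      rw [hℓs, me_tele K l _ hQ, me_tele K l _ hQ]
    · intro q hq
      rw [Finset.mem_filter, hSm, hℓs] at hq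
      exact hq.1
  · -- good levels of a leaf
    intro p hp
    rcases hM0 with hM0 | hM0
    swap
    · rw [hM0]
      exact Nat.zero_le _
    rw [hSm, me_Sv] at hp
    obtain ⟨t2, t3, t4, h2, h3, h4, h5, h6, h7, h8⟩ := hp
    set B' : ℝ → Set ℕ := fun t => {n : ℕ | n ≤ nt ∧ ¬ G (EK K l t) ((Q : ℝ)⁻¹ ^ n)} with hB'
    have hfinB : ∀ t, (B' t).Finite := fun t =>
      (Set.finite_Iic nt).subset (fun n hn => hn.1)
    have hsub : Set.Iio nt ⊆ {n : ℕ | n < nt ∧ good n ((mpar Q)^[nt - n] p)} ∪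
        (B' t2 ∪ (B' t3 ∪ B' t4)) := by
      intro n hn
      have hn' : n < nt := hn
      by_cases hg2 : G (EK K l t2) ((Q : ℝ)⁻¹ ^ n)
      swap
      · exact Or.inr (Or.inl ⟨hn'.le, hg2⟩)
      by_cases hg3 : G (EK K l t3) ((Q : ℝ)⁻¹ ^ n)
      swap
      · exact Or.inr (Or.inr (Or.inl ⟨hn'.le, hg3⟩))
      by_cases hg4 : G (EK K l t4) ((Q : ℝ)⁻¹ ^ n)
      swap
      · exact Or.inr (Or.inr (Or.inr ⟨hn'.le, hg4⟩))
      left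
      refine ⟨hn', t2, t3, t4, h2, h3, h4, h5, ?_⟩
      have h9 := me_iter (e := EK K l t3) (e' := EK K l t4) hQ n (nt - n) p
        (by rw [Nat.add_sub_cancel' hn'.le]; exact h7) (by rw [Nat.add_sub_cancel' hn'.le]; exact h8)
      exact ⟨h9.1, h9.2, hg2, hg3, hg4⟩
    have hfinG : ({n : ℕ | n < nt ∧ good n ((mpar Q)^[nt - n] p)}).Finite :=
      (Set.finite_Iio nt).subset (fun n hn => hn.1)
    have h10 := Set.ncard_le_ncard hsub (hfinG.union ((hfinB t2).union ((hfinB t3).union (hfinB t4))))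
    have h11 := Set.ncard_union_le {n : ℕ | n < nt ∧ good n ((mpar Q)^[nt - n] p)}
      (B' t2 ∪ (B' t3 ∪ B' t4))
    have h12 := Set.ncard_union_le (B' t2) (B' t3 ∪ B' t4)
    have h13 := Set.ncard_union_le (B' t3) (B' t4)
    have h14 : (Set.Iio nt).ncard = nt := by
      rw [Set.ncard_eq_toFinset_card']
      simp
    rw [h14] at h10
    have h15 : nt ≤ Set.ncard {n : ℕ | n < nt ∧ good n ((mpar Q)^[nt - n] p)} +
        ((B' t2).ncard + ((B' t3).ncard + (B' t4).ncard)) := by omega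
    have h16 : (nt : ℝ) ≤ (Set.ncard {n : ℕ | n < nt ∧ good n ((mpar Q)^[nt - n] p)} : ℝ) +
        (((B' t2).ncard : ℝ) + (((B' t3).ncard : ℝ) + ((B' t4).ncard : ℝ))) := by
      exact_mod_cast h15
    have h17 := hB t2 h2
    have h18 := hB t3 h3
    have h19 := hB t4 h4
    have h20 : (M0 : ℝ) ≤ (Set.ncard {n : ℕ | n < nt ∧ good n ((mpar Q)^[nt - n] p)} : ℝ) := by
      simp only [hB'] at h16
      linarith
    exact_mod_cast h20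


/-! ### the measure estimate -/

theorem me_meas {A : Set ℝ} (hA : MeasurableSet A) {E V : ℝ → ℝ}
    (hE : Measurable (indicator A E)) (hV : Measurable (indicator A V)) (x y : ℝ) :
    MeasurableSet (quad A E V x y) := by
  have hcomb : ∀ F : ℝ → ℝ, Measurable F → Measurable fun q : ℝ × ℝ × ℝ × ℝ =>
      |F q.1 + F q.2.1 - F q.2.2.1 - F q.2.2.2| := by
    intro F hF
    have h1 : Measurable fun q : ℝ × ℝ × ℝ × ℝ => F q.1 + F q.2.1 - F q.2.2.1 - F q.2.2.2 := by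
      refine ((Measurable.add ?_ ?_).sub ?_).sub ?_
      · exact hF.comp (by fun_prop)
      · exact hF.comp (by fun_prop)
      · exact hF.comp (by fun_prop)
      · exact hF.comp (by fun_prop)
    exact h1.abs
  have h2 : quad A E V x y = h53A4 A ∩
      ((fun q : ℝ × ℝ × ℝ × ℝ => |indicator A E q.1 + indicator A E q.2.1 -
        indicator A E q.2.2.1 - indicator A E q.2.2.2|) ⁻¹' (Iio x) ∩
      (fun q : ℝ × ℝ × ℝ × ℝ => |indicator A V q.1 + indicator A V q.2.1 -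
        indicator A V q.2.2.1 - indicator A V q.2.2.2|) ⁻¹' (Iio y)) := by
    ext q
    constructor
    · rintro ⟨h1, h2, h3, h4, h5, h6⟩
      refine ⟨⟨h1, h2, h3, h4⟩, ?_, ?_⟩
      · simp only [mem_preimage, indicator_of_mem h1, indicator_of_mem h2, indicator_of_mem h3,
          indicator_of_mem h4]
        exact h5
      · simp only [mem_preimage, indicator_of_mem h1, indicator_of_mem h2, indicator_of_mem h3,
          indicator_of_mem h4]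
        exact h6
    · rintro ⟨⟨h1, h2, h3, h4⟩, h5, h6⟩
      simp only [mem_preimage, indicator_of_mem h1, indicator_of_mem h2, indicator_of_mem h3,
          indicator_of_mem h4] at h5 h6
      exact ⟨h1, h2, h3, h4, h5, h6⟩
  rw [h2]
  exact (h53A4_meas hA).inter ((hcomb _ hE measurableSet_Iio).inter (hcomb _ hV measurableSet_Iio))

theorem me_vol {A : Set ℝ} {K : ℕ} {l s ℓ X : ℝ} {c : ENNReal} (hA1 : A ⊆ Rg K)
    (hmeas : MeasurableSet (quad A (EK K l) (VK K l) (5 * s ^ 3) (4 * s)))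
    (hmm : ∀ j : ℤ, 0 ≤ mms K l ℓ j)
    (hfr : ∀ x, volume {t : ℝ | t ∈ A ∧ |EK K l t - x| < 5 * s ^ 3} ≤ c)
    (hS : ∀ E1 V1, ∃ S : Finset (ℤ × ℤ), (∀ p, p ∈ S ↔ p ∈ Sv A K l s E1 V1 ℓ) ∧
      ∑ p ∈ S, mms K l ℓ p.1 * mms K l ℓ p.2 ≤ X)
    (hℓ : 0 < ℓ)
    (hQm : ∀ a b : ℝ, a ≤ b →
      volume {t : ℝ | t ∈ Rg K ∧ a ≤ EK K l t ∧ EK K l t < b} = ENNReal.ofReal (NN K l a - NN K l b)) :
    volume (quad A (EK K l) (VK K l) (5 * s ^ 3) (4 * s)) ≤ c * ENNReal.ofReal X := by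
  set T := quad A (EK K l) (VK K l) (5 * s ^ 3) (4 * s) with hT
  rw [Measure.volume_eq_prod, Measure.prod_apply hmeas]
  -- one slice
  have key : ∀ t1 : ℝ, volume (Prod.mk t1 ⁻¹' T) ≤
      indicator (Ioo (0 : ℝ) 1) (fun _ => c * ENNReal.ofReal X) t1 := by
    intro t1
    by_cases ht1 : t1 ∈ A
    swap
    · have h1 : Prod.mk t1 ⁻¹' T = ∅ := by
        rw [eq_empty_iff_forall_notMem]
        rintro q ⟨h1, -⟩
        exact ht1 h1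
      rw [h1]
      simp
    rw [indicator_of_mem (show t1 ∈ Ioo (0 : ℝ) 1 from ⟨(hA1 ht1).1, (hA1 ht1).2.1⟩)]
    obtain ⟨S, hSm, hSX⟩ := hS (EK K l t1) (VK K l t1)
    set J : ℤ → Set ℝ := fun j => {t : ℝ | t ∈ Rg K ∧ (j : ℝ) * ℓ ≤ EK K l t ∧
      EK K l t < ((j : ℝ) + 1) * ℓ} with hJ
    have hJv : ∀ j, volume (J j) = ENNReal.ofReal (mms K l ℓ j) := by
      intro j
      exact hQm _ _ (by nlinarith)
    set U : Set (ℝ × ℝ) := ⋃ p ∈ S, J p.1 ×ˢ J p.2 with hU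
    have hmt : MeasurableSet (Prod.mk t1 ⁻¹' T) := measurable_prodMk_left hmeas
    rw [Measure.volume_eq_prod, Measure.prod_apply_symm hmt]
    have h1 : ∀ y : ℝ × ℝ, volume ((fun x => (x, y)) ⁻¹' (Prod.mk t1 ⁻¹' T)) ≤
        indicator U (fun _ => c) y := by
      intro y
      by_cases hy : y ∈ U
      · rw [indicator_of_mem hy]
        refine (measure_mono ?_).trans (hfr (EK K l y.1 + EK K l y.2 - EK K l t1))
        rintro x ⟨h1, h2, h3, h4, h5, h6⟩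
        refine ⟨h2, ?_⟩
        have h7 : EK K l x - (EK K l y.1 + EK K l y.2 - EK K l t1) =
          EK K l t1 + EK K l x - EK K l y.1 - EK K l y.2 := by ring
        rw [h7]
        exact h5
      · have h1 : ((fun x => (x, y)) ⁻¹' (Prod.mk t1 ⁻¹' T)) = ∅ := by
          rw [eq_empty_iff_forall_notMem]
          rintro x ⟨h1, h2, h3, h4, h5, h6⟩
          apply hy
          rw [hU, mem_iUnion₂]
          have h7 : ∀ e : ℝ, MIn ℓ e ⌊e / ℓ⌋ := by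
            intro e
            constructor
            · rw [← le_div_iff₀ hℓ]
              exact Int.floor_le _
            · rw [← div_lt_iff₀ hℓ]
              exact Int.lt_floor_add_one _
          refine ⟨(⌊EK K l y.1 / ℓ⌋, ⌊EK K l y.2 / ℓ⌋), ?_, ?_⟩
          · rw [hSm, me_Sv]
            exact ⟨x, y.1, y.2, h2, h3, h4, h5, h6, h7 _, h7 _⟩
          · exact ⟨⟨hA1 h3, (h7 (EK K l y.1)).1, (h7 (EK K l y.1)).2⟩,
              ⟨hA1 h4, (h7 (EK K l y.2)).1, (h7 (EK K l y.2)).2⟩⟩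
        rw [h1]
        simp
    calc ∫⁻ y, volume ((fun x => (x, y)) ⁻¹' (Prod.mk t1 ⁻¹' T)) ≤
          ∫⁻ y, indicator U (fun _ => c) y := lintegral_mono h1
      _ ≤ c * volume U := lintegral_indicator_const_le _ _
      _ ≤ c * ENNReal.ofReal X := by
          gcongr
          calc volume U ≤ ∑ p ∈ S, volume (J p.1 ×ˢ J p.2) := measure_biUnion_finset_le _ _
            _ = ∑ p ∈ S, ENNReal.ofReal (mms K l ℓ p.1 * mms K l ℓ p.2) := by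
                refine Finset.sum_congr rfl fun p _ => ?_
                rw [Measure.volume_eq_prod, Measure.prod_prod, hJv, hJv,
                  ENNReal.ofReal_mul (hmm _)]
            _ = ENNReal.ofReal (∑ p ∈ S, mms K l ℓ p.1 * mms K l ℓ p.2) :=
                (ENNReal.ofReal_sum_of_nonneg (fun p _ => mul_nonneg (hmm _) (hmm _))).symm
            _ ≤ ENNReal.ofReal X := ENNReal.ofReal_le_ofReal hSX
  calc ∫⁻ t1, volume (Prod.mk t1 ⁻¹' T) ≤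
        ∫⁻ t1, indicator (Ioo (0 : ℝ) 1) (fun _ => c * ENNReal.ofReal X) t1 := lintegral_mono key
    _ ≤ (c * ENNReal.ofReal X) * volume (Ioo (0 : ℝ) 1) := lintegral_indicator_const_le _ _
    _ = c * ENNReal.ofReal X := by simp

/-! ### the final powers -/

theorem me_pow {κ s : ℝ} {Q nt n0 M0 : ℕ} (hκ : 0 < κ) (hκ1 : κ ≤ 1) (hs : 0 < s) (hs1 : s ≤ 1)
    (hQ : 2 ≤ Q) (hnt : 1 / s < ((Q : ℝ) ^ 2) ^ (nt + 1))
    (hM0 : (7 : ℝ) / 10 * nt - 3 * n0 - 1 ≤ M0) :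
    (1 - κ / 2) ^ M0 ≤ Real.exp (1 + 2 * n0) * s ^ (κ / (8 * Real.log Q)) := by
  have hQ' : (2 : ℝ) ≤ Q := by exact_mod_cast hQ
  have hlQ : 0 < Real.log Q := Real.log_pos (by linarith)
  have h1 : (1 - κ / 2) ^ M0 ≤ Real.exp (-(κ / 2 * M0)) := by
    have h2 : 1 - κ / 2 ≤ Real.exp (-(κ / 2)) := by
      have := Real.add_one_le_exp (-(κ / 2))
      linarith
    calc (1 - κ / 2) ^ M0 ≤ Real.exp (-(κ / 2)) ^ M0 := pow_le_pow_left₀ (by linarith) h2 _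
      _ = Real.exp (-(κ / 2 * M0)) := by
          rw [← Real.exp_nat_mul]
          ring_nf
  refine h1.trans ?_
  rw [Real.rpow_def_of_pos hs, ← Real.exp_add, Real.exp_le_exp]
  have h3 : -Real.log s < 2 * (nt + 1) * Real.log Q := by
    have h4 := Real.log_lt_log (by positivity) hnt
    rw [Real.log_pow, Real.log_pow, one_div, Real.log_inv] at h4
    push_cast at h4
    linarith
  have h5 : -Real.log s / Real.log Q < 2 * (nt + 1) := by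
    rw [div_lt_iff₀ hlQ]
    exact h3
  have h6 : 0 ≤ -Real.log s / Real.log Q := by
    apply div_nonneg _ hlQ.le
    have := Real.log_nonpos hs.le hs1
    linarith
  have h7 : Real.log s * (κ / (8 * Real.log Q)) = -(κ / 8 * (-Real.log s / Real.log Q)) := by
    field_simp
  rw [h7]
  set y := -Real.log s / Real.log Q
  -- κ/2 M0 >= κ/2 (7/10 nt - 3 n0 - 1), nt > y/2 - 1
  have h8 : κ / 2 * ((7 : ℝ) / 10 * (y / 2 - 1) - 3 * n0 - 1) ≤ κ / 2 * M0 := by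
    apply mul_le_mul_of_nonneg_left _ (by positivity)
    linarith
  have h9 : 0 ≤ κ * y := mul_nonneg hκ.le h6
  have h10 : (0 : ℝ) ≤ n0 := Nat.cast_nonneg _
  have h11 : κ * n0 ≤ n0 := by nlinarith
  nlinarith


theorem me_root {l1 θ1 : ℝ} {N : ℕ} (hN : 1 ≤ N) (h0 : 0 < l1) (hθ1 : 0 < θ1) (h1 : l1 < θ1 ^ N) :
    ∃ θ : ℝ, 0 < θ ∧ θ < θ1 ∧ θ ^ N = l1 := by
  have hN0 : (N : ℝ) ≠ 0 := by
    have : (1 : ℝ) ≤ N := by exact_mod_cast hN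
    linarith
  refine ⟨l1 ^ ((1 : ℝ) / N), Real.rpow_pos_of_pos h0 _, ?_, ?_⟩
  · have h2 : l1 ^ ((1 : ℝ) / N) < (θ1 ^ N) ^ ((1 : ℝ) / N) :=
      Real.rpow_lt_rpow h0.le h1 (by positivity)
    rw [← Real.rpow_natCast θ1 N, ← Real.rpow_mul hθ1.le, mul_one_div_cancel hN0, Real.rpow_one]
      at h2
    exact h2
  · rw [← Real.rpow_natCast, ← Real.rpow_mul h0.le, one_div_mul_cancel hN0, Real.rpow_one]

/-- the conditions on the scales -/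
theorem me_scales {l l1 s θ : ℝ} {Q nt C2 C3 N1 : ℕ} (hN1 : N1 = C2 + C3 + 3) (hθ : 0 < θ)
    (hθ1 : θ ≤ 1 / 100) (h1 : 0 < l1) (h1' : l1 ≤ 1) (hl : l1 ≤ l) (hs : 0 < s) (hs1 : s ≤ 1 / 5)
    (hs2 : s ≤ l1 ^ 2 / 16) (hQ : 1 ≤ Q) (hnt : ((Q : ℝ) ^ 2) ^ nt ≤ 1 / s) (n : ℕ) (hn : n < nt) :
    0 < l * (Q : ℝ)⁻¹ ^ n / θ ^ C3 ∧
    2000 * (1 / θ ^ C2) * (l * (Q : ℝ)⁻¹ ^ n / θ ^ C3) ≤ l * (Q : ℝ)⁻¹ ^ n / θ ^ N1 ∧
    4 * s ≤ l * (Q : ℝ)⁻¹ ^ n / θ ^ C3 ∧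
      5 * s ^ 3 ≤ (Q : ℝ)⁻¹ ^ n / Q ∧
      50 * s ^ 3 ≤ (l * (Q : ℝ)⁻¹ ^ n / θ ^ C3) * (Q : ℝ)⁻¹ ^ n := by
  have hQ' : (1 : ℝ) ≤ Q := by exact_mod_cast hQ
  have hQ0 : (0 : ℝ) < Q := by linarith
  have hl0 : 0 < l := by linarith
  have hinv1 : (Q : ℝ)⁻¹ ≤ 1 := inv_le_one_of_one_le₀ hQ'
  have hinv0 : 0 < (Q : ℝ)⁻¹ := by positivity
  -- `s ≤ ℓ_{nt}^2`
  have hsnt : s ≤ ((Q : ℝ)⁻¹ ^ nt) ^ 2 := by
    have h2 : ((Q : ℝ)⁻¹ ^ nt) ^ 2 = 1 / ((Q : ℝ) ^ 2) ^ nt := by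
      rw [inv_pow, inv_pow, ← pow_mul, ← pow_mul, mul_comm nt 2, one_div]
    rw [h2, le_div_iff₀ (by positivity)]
    rw [le_div_iff₀ hs] at hnt
    linarith
  have hmono : ∀ k : ℕ, k ≤ nt → (Q : ℝ)⁻¹ ^ nt ≤ (Q : ℝ)⁻¹ ^ k := fun k hk =>
    pow_le_pow_of_le_one hinv0.le hinv1 hk
  have hsk : ∀ k : ℕ, k ≤ nt → s ≤ ((Q : ℝ)⁻¹ ^ k) ^ 2 := fun k hk =>
    hsnt.trans (pow_le_pow_left₀ (by positivity) (hmono k hk) 2)
  set x := (Q : ℝ)⁻¹ ^ n with hx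
  have hx0 : 0 < x := by positivity
  have hx1 : x ≤ 1 := pow_le_one₀ hinv0.le hinv1
  have hsx : s ≤ x ^ 2 := hsk n hn.le
  have hθC3 : 0 < θ ^ C3 := by positivity
  have hθC3' : θ ^ C3 ≤ 1 := pow_le_one₀ hθ.le (by linarith)
  have herr : l1 * x ≤ l * x / θ ^ C3 := by
    rw [le_div_iff₀ hθC3]
    calc l1 * x * θ ^ C3 ≤ l1 * x * 1 := mul_le_mul_of_nonneg_left hθC3' (by positivity)
      _ = l1 * x := by ring
      _ ≤ l * x := mul_le_mul_of_nonneg_right hl hx0.le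
  refine ⟨by positivity, ?_, ?_, ?_, ?_⟩
  · have h2 : l * x / θ ^ N1 = (1 / θ ^ 3) * ((1 / θ ^ C2) * (l * x / θ ^ C3)) := by
      rw [hN1, pow_add, pow_add]
      field_simp
    rw [h2, mul_assoc]
    apply mul_le_mul_of_nonneg_right _ (by positivity)
    rw [le_div_iff₀ (by positivity)]
    have h3 : θ ^ 3 ≤ (1 / 100) ^ 3 := pow_le_pow_left₀ hθ.le hθ1 3
    norm_num at h3 ⊢
    linarith
  · refine le_trans ?_ herr
    have h2 : (4 * s) ^ 2 ≤ (l1 * x) ^ 2 := by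
      have h3 : 16 * s ≤ l1 ^ 2 := by linarith
      nlinarith [mul_nonneg (sub_nonneg.2 h3) hs.le, mul_nonneg (sub_nonneg.2 hsx) (sq_nonneg l1)]
    exact (sq_le_sq₀ (by positivity) (by positivity)).1 h2
  · have h2 := hsk (n + 1) (by omega)
    have h3 : (Q : ℝ)⁻¹ ^ (n + 1) = x / Q := by rw [pow_succ, div_eq_mul_inv]
    rw [h3] at h2
    have h4 : x / Q ≤ 1 := by
      rw [div_le_iff₀ hQ0]
      linarith
    have h5 : 0 < x / Q := by positivity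
    have h6 : (x / Q) ^ 2 ≤ x / Q := by nlinarith
    have h7 : 5 * s ^ 3 ≤ s := by nlinarith [mul_pos hs hs]
    linarith
  · have h2 : l1 * x * x ≤ l * x / θ ^ C3 * x := mul_le_mul_of_nonneg_right herr hx0.le
    refine le_trans ?_ h2
    have h3 : l1 * s ≤ l1 * x * x := by nlinarith
    refine le_trans ?_ h3
    have h4 : 50 * s ^ 2 ≤ l1 := by nlinarith
    nlinarith


/-- the parameters: all numerical conditions -/
theorem me_nums {C2 N0 CG CF N1 N a q c : ℕ} {θ θ0 η0 l1 K0 : ℝ} {u : ℕ} (hθ0 : 0 < θ0)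
    (hη0 : 0 < η0) (hNdef : N = N0 + CG + (2 * N1 + 3) * CF + 1) (ha : a = N * N0)
    (hq : q = 12 * a + 40 + a + C2) (hc : c = 3 * (q + a))
    (hK0 : K0 = 100 + 1 / θ0 + 2 / η0 ^ 2 + 1 / η0 + c + 2 * (CG : ℝ) ^ 2 +
      2 * (20 * (c : ℝ)) ^ 2 + CF + CF * N + 96 * CF * N * q)
    (h0 : 0 < θ) (hN : θ ^ N = l1) (hu1 : 1 ≤ u) (hulog : Real.log (1 / θ) ≤ u)
    (hu3 : 1 / θ ≤ (3 : ℝ) ^ u) (huK : K0 * (u : ℝ) ^ 2 * θ ≤ 1) :
    θ ≤ 1 / 100 ∧ θ < θ0 ∧ √(2 * θ) < η0 ∧ θ ^ (2 * N1 + 3) < η0 ∧ 2 * l1 ≤ θ ^ N0 ∧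
    (CG : ℝ) * √(2 * θ) ≤ 1 ∧ 2 * l1 ≤ √(2 * θ) ^ CG ∧ (CF : ℝ) * θ ^ (2 * N1 + 3) ≤ 1 ∧
    2 * l1 ≤ (θ ^ (2 * N1 + 3)) ^ CF ∧ (CF : ℝ) * θ ^ (2 * N1 + 3) * Real.log (1 / l1) ≤ 1 ∧
    (1 / l1) ^ N0 ≤ ph ^ (3 * a * u) ∧ (9 : ℝ) ^ (2 * (3 * a * u)) * (1 / l1) ^ N0 ≤ 3 ^ (q * u) ∧
    (9 : ℝ) ^ (2 * (3 * a * u) + 20) ≤ 3 ^ (q * u) ∧
    100 * (1 / θ ^ C2) ≤ 3 ^ (q * u) ∧ (3 : ℝ) ^ (q * u) * (1 / l1) ^ N0 ≤ ph ^ (c * u) ∧
    (3 : ℝ) ^ (q * u) ≤ ph ^ (c * u) ∧ ((c * u : ℕ) : ℝ) * θ ≤ 1 ∧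
    20 * ((c * u : ℕ) : ℝ) * √(2 * θ) ≤ 1 ∧ 3 * a * u + 20 ≤ c * u ∧
    3 * ((CF : ℝ) * θ ^ (2 * N1 + 3) * Real.log (1 / l1)) ≤
      θ ^ (2 * N1) / (16 * Real.log ((3 : ℝ) ^ (q * u))) := by
  have hu1' : (1 : ℝ) ≤ u := by exact_mod_cast hu1
  have hu2' : (1 : ℝ) ≤ (u : ℝ) ^ 2 := one_le_pow₀ hu1'
  have huu : (u : ℝ) ≤ (u : ℝ) ^ 2 := by nlinarith
  have p1 : 0 < 1 / θ0 := by positivity
  have p2 : 0 < 2 / η0 ^ 2 := by positivity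
  have p3 : 0 < 1 / η0 := by positivity
  have p4 : (0 : ℝ) ≤ c := Nat.cast_nonneg _
  have p5 : (0 : ℝ) ≤ 2 * (CG : ℝ) ^ 2 := by positivity
  have p6 : (0 : ℝ) ≤ 2 * (20 * (c : ℝ)) ^ 2 := by positivity
  have p7 : (0 : ℝ) ≤ CF := Nat.cast_nonneg _
  have p8 : (0 : ℝ) ≤ CF * N := by positivity
  have p9 : (0 : ℝ) ≤ 96 * CF * N * q := by positivity
  have hK1 : 100 < K0 := by rw [hK0]; linarith
  -- a general principle
  have gen : ∀ X : ℝ, X ≤ K0 → X * (u : ℝ) ^ 2 * θ ≤ 1 := by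
    intro X hX
    refine le_trans ?_ huK
    gcongr
  have gen1 : ∀ X : ℝ, 0 ≤ X → X ≤ K0 → X * θ ≤ 1 := by
    intro X hX0 hX
    refine le_trans ?_ (gen X hX)
    have : X ≤ X * (u : ℝ) ^ 2 := le_mul_of_one_le_right hX0 hu2'
    exact mul_le_mul_of_nonneg_right this h0.le
  have gen2 : ∀ X : ℝ, 0 ≤ X → X ≤ K0 → X * u * θ ≤ 1 := by
    intro X hX0 hX
    refine le_trans ?_ (gen X hX)
    have : X * u ≤ X * (u : ℝ) ^ 2 := mul_le_mul_of_nonneg_left huu hX0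
    exact mul_le_mul_of_nonneg_right this h0.le
  have hθ100 : θ ≤ 1 / 100 := by
    have := gen1 100 (by norm_num) hK1.le
    linarith
  have hθ1 : θ ≤ 1 := by linarith
  have hsq : √(2 * θ) ^ 2 = 2 * θ := Real.sq_sqrt (by linarith)
  have hsq0 : 0 < √(2 * θ) := Real.sqrt_pos.2 (by linarith)
  have hθsq : θ ≤ √(2 * θ) := by
    apply Real.le_sqrt_of_sq_le
    nlinarith
  have hlog0 : 0 ≤ Real.log (1 / θ) := Real.log_nonneg (by rw [le_div_iff₀ h0]; linarith)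
  have hl1 : 0 < l1 := by rw [← hN]; positivity
  have hlogl : Real.log (1 / l1) = N * Real.log (1 / θ) := by
    rw [← hN, ← Real.log_pow, one_div_pow]
  have hlogl' : Real.log (1 / l1) ≤ N * u := by
    rw [hlogl]
    exact mul_le_mul_of_nonneg_left hulog (Nat.cast_nonneg _)
  have hlogl0 : 0 ≤ Real.log (1 / l1) := by
    rw [hlogl]
    positivity
  have hpow3 : θ ^ (2 * N1 + 3) ≤ θ := by
    calc θ ^ (2 * N1 + 3) ≤ θ ^ 1 := pow_le_pow_of_le_one h0.le hθ1 (by omega)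
      _ = θ := pow_one _
  have h2l : ∀ k : ℕ, k + 1 ≤ N → 2 * l1 ≤ θ ^ k := by
    intro k hk
    rw [← hN]
    calc 2 * θ ^ N ≤ 2 * θ ^ (k + 1) :=
          mul_le_mul_of_nonneg_left (pow_le_pow_of_le_one h0.le hθ1 hk) (by norm_num)
      _ = (2 * θ) * θ ^ k := by ring
      _ ≤ 1 * θ ^ k := mul_le_mul_of_nonneg_right (by linarith) (by positivity)
      _ = θ ^ k := one_mul _
  have hinvl : (1 / l1) ^ N0 ≤ (3 : ℝ) ^ (a * u) := by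
    calc (1 / l1) ^ N0 = (1 / θ) ^ a := by
          rw [ha, pow_mul, one_div_pow θ N, hN]
      _ ≤ ((3 : ℝ) ^ u) ^ a := pow_le_pow_left₀ (by positivity) hu3 _
      _ = (3 : ℝ) ^ (a * u) := by rw [← pow_mul, mul_comm]
  have hinvl1 : 1 ≤ (1 / l1) ^ N0 := by
    apply one_le_pow₀
    rw [le_div_iff₀ hl1, one_mul, ← hN]
    exact pow_le_one₀ h0.le hθ1
  have hph : ∀ k : ℕ, (3 : ℝ) ^ k ≤ ph ^ (3 * k) := by
    intro k
    rw [pow_mul]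
    exact pow_le_pow_left₀ (by norm_num) me_ph3 k
  have h3mono : ∀ i j : ℕ, i ≤ j → (3 : ℝ) ^ i ≤ 3 ^ j := fun i j hij =>
    pow_le_pow_right₀ (by norm_num) hij
  have h9 : ∀ k : ℕ, (9 : ℝ) ^ k = 3 ^ (2 * k) := by
    intro k
    rw [pow_mul]
    norm_num
  have hqq : (3 : ℝ) ^ (q * u) * (1 / l1) ^ N0 ≤ ph ^ (c * u) := by
    calc (3 : ℝ) ^ (q * u) * (1 / l1) ^ N0 ≤ (3 : ℝ) ^ (q * u) * (3 : ℝ) ^ (a * u) :=
          mul_le_mul_of_nonneg_left hinvl (by positivity)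
      _ = (3 : ℝ) ^ (q * u + a * u) := by rw [pow_add]
      _ ≤ ph ^ (3 * (q * u + a * u)) := hph _
      _ = ph ^ (c * u) := by rw [hc]; ring_nf
  refine ⟨hθ100, ?_, ?_, ?_, h2l N0 (by omega), ?_, ?_, ?_, ?_, ?_, ?_, ?_, ?_, ?_, hqq, ?_, ?_, ?_,
    ?_, ?_⟩
  · -- θ < θ0
    have h1 := gen1 K0 (by linarith) le_rfl
    have h2 : 1 < K0 * θ0 := by
      have h3 : 1 / θ0 * θ0 < K0 * θ0 := by
        apply mul_lt_mul_of_pos_right _ hθ0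
        rw [hK0]
        linarith
      have h4 : 1 / θ0 * θ0 = 1 := by field_simp
      linarith
    have h3 : K0 * θ < K0 * θ0 := by linarith
    exact lt_of_mul_lt_mul_left h3 (by linarith)
  · -- sqrt(2θ) < η0
    rw [Real.sqrt_lt' hη0]
    have h1 := gen1 K0 (by linarith) le_rfl
    have h2 : 2 < K0 * η0 ^ 2 := by
      have h3 : 2 / η0 ^ 2 * η0 ^ 2 < K0 * η0 ^ 2 := by
        apply mul_lt_mul_of_pos_right _ (by positivity)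
        rw [hK0]
        linarith
      have h4 : 2 / η0 ^ 2 * η0 ^ 2 = 2 := by field_simp
      linarith
    have h3 : K0 * (2 * θ) < K0 * η0 ^ 2 := by linarith
    exact lt_of_mul_lt_mul_left h3 (by linarith)
  · refine lt_of_le_of_lt hpow3 ?_
    have h1 := gen1 K0 (by linarith) le_rfl
    have h2 : 1 < K0 * η0 := by
      have h3 : 1 / η0 * η0 < K0 * η0 := by
        apply mul_lt_mul_of_pos_right _ hη0
        rw [hK0]
        linarith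
      have h4 : 1 / η0 * η0 = 1 := by field_simp
      linarith
    have h3 : K0 * θ < K0 * η0 := by linarith
    exact lt_of_mul_lt_mul_left h3 (by linarith)
  · -- CG * sqrt(2θ) ≤ 1
    have h1 := gen1 (2 * (CG : ℝ) ^ 2) p5 (by rw [hK0]; linarith)
    have h2 : ((CG : ℝ) * √(2 * θ)) ^ 2 ≤ 1 ^ 2 := by
      rw [mul_pow, hsq]
      linarith
    exact (sq_le_sq₀ (by positivity) (by norm_num)).1 h2
  · exact (h2l CG (by omega)).trans (pow_le_pow_left₀ h0.le hθsq _)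
  · have h1 := gen1 (CF : ℝ) p7 (by rw [hK0]; linarith)
    calc (CF : ℝ) * θ ^ (2 * N1 + 3) ≤ CF * θ := mul_le_mul_of_nonneg_left hpow3 p7
      _ ≤ 1 := h1
  · rw [← pow_mul]
    exact h2l _ (by omega)
  · have h1 := gen2 (CF * N : ℝ) p8 (by rw [hK0]; linarith)
    calc (CF : ℝ) * θ ^ (2 * N1 + 3) * Real.log (1 / l1) ≤ CF * θ * (N * u) := by
          gcongr
      _ = CF * N * u * θ := by ring
      _ ≤ 1 := h1
  · calc (1 / l1) ^ N0 ≤ (3 : ℝ) ^ (a * u) := hinvl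
      _ ≤ ph ^ (3 * (a * u)) := hph _
      _ = ph ^ (3 * a * u) := by ring_nf
  · calc (9 : ℝ) ^ (2 * (3 * a * u)) * (1 / l1) ^ N0
        ≤ 3 ^ (2 * (2 * (3 * a * u))) * 3 ^ (a * u) := by
          rw [h9]
          exact mul_le_mul_of_nonneg_left hinvl (by positivity)
      _ = 3 ^ (2 * (2 * (3 * a * u)) + a * u) := by rw [pow_add]
      _ ≤ 3 ^ (q * u) := by
          apply h3mono
          rw [hq]
          nlinarith
  · rw [h9]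
    apply h3mono
    rw [hq]
    nlinarith
  · calc 100 * (1 / θ ^ C2) ≤ 3 ^ 5 * ((3 : ℝ) ^ u) ^ C2 := by
          have h1 : (1 / θ ^ C2) ≤ ((3 : ℝ) ^ u) ^ C2 := by
            rw [← one_div_pow]
            exact pow_le_pow_left₀ (by positivity) hu3 _
          have h2 : (0 : ℝ) ≤ 1 / θ ^ C2 := by positivity
          norm_num
          rw [one_div] at h1 h2
          nlinarith
      _ = 3 ^ (5 + u * C2) := by rw [pow_add, pow_mul]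
      _ ≤ 3 ^ (q * u) := by
          apply h3mono
          rw [hq]
          nlinarith [mul_comm u C2]
  · refine le_trans ?_ hqq
    exact le_mul_of_one_le_right (by positivity) hinvl1
  · have h1 := gen2 (c : ℝ) p4 (by rw [hK0]; linarith)
    push_cast
    exact h1
  · have h1 := gen (2 * (20 * (c : ℝ)) ^ 2) (by rw [hK0]; linarith)
    have h2 : (20 * ((c * u : ℕ) : ℝ) * √(2 * θ)) ^ 2 ≤ 1 ^ 2 := by
      rw [mul_pow, hsq]
      push_cast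
      calc (20 * ((c : ℝ) * u)) ^ 2 * (2 * θ) = 2 * (20 * (c : ℝ)) ^ 2 * (u : ℝ) ^ 2 * θ := by ring
        _ ≤ 1 ^ 2 := by linarith
    exact (sq_le_sq₀ (by positivity) (by norm_num)).1 h2
  · rw [hc, hq]
    nlinarith
  · have hq0 : (0 : ℝ) < q := by
      have : 0 < q := by rw [hq]; omega
      exact_mod_cast this
    have hlog3 : Real.log 3 ≤ 2 := by
      have := Real.log_le_sub_one_of_pos (show (0 : ℝ) < 3 by norm_num)
      linarith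
    have hlog3' : 0 < Real.log 3 := Real.log_pos (by norm_num)
    have h1 := gen (96 * CF * N * q : ℝ) (by rw [hK0]; linarith)
    have h2 : Real.log ((3 : ℝ) ^ (q * u)) ≤ 2 * q * u := by
      rw [Real.log_pow]
      push_cast
      have h5 : (0 : ℝ) ≤ q * u := by positivity
      calc (q : ℝ) * u * Real.log 3 ≤ (q : ℝ) * u * 2 := mul_le_mul_of_nonneg_left hlog3 h5
        _ = 2 * q * u := by ring
    have h3 : 0 < Real.log ((3 : ℝ) ^ (q * u)) := by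
      rw [Real.log_pow]
      push_cast
      have : (0 : ℝ) < u := by linarith
      positivity
    rw [le_div_iff₀ (by positivity)]
    calc 3 * ((CF : ℝ) * θ ^ (2 * N1 + 3) * Real.log (1 / l1)) *
          (16 * Real.log ((3 : ℝ) ^ (q * u))) ≤
          3 * ((CF : ℝ) * θ ^ (2 * N1 + 3) * (N * u)) * (16 * (2 * q * u)) := by
          gcongr
      _ = (96 * CF * N * q * (u : ℝ) ^ 2 * θ) * θ ^ 2 * θ ^ (2 * N1) := by ring
      _ ≤ 1 * 1 * θ ^ (2 * N1) := by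
          have h5 : θ ^ 2 ≤ 1 := pow_le_one₀ h0.le hθ1
          gcongr
      _ = θ ^ (2 * N1) := by ring


theorem me_final {CFr δ' κ s X η Cs lq : ℝ} (hCFr : 1 ≤ CFr) (hδ0 : 0 ≤ δ')
    (hs : 0 < s) (hs1 : s ≤ 1) (hCs : 0 ≤ Cs) (hη : η + 3 * δ' ≤ κ / (8 * lq))
    (hX : X ≤ Cs * s ^ (κ / (8 * lq))) :
    ENNReal.ofReal (CFr * (5 * s ^ 3) ^ (1 - δ')) * ENNReal.ofReal X ≤
      ENNReal.ofReal (5 * CFr * Cs * s ^ (3 + η)) := by
  rw [← ENNReal.ofReal_mul (by positivity)]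
  apply ENNReal.ofReal_le_ofReal
  have h1 : (5 * s ^ 3) ^ (1 - δ') ≤ 5 * s ^ (3 * (1 - δ')) := by
    rw [Real.mul_rpow (by norm_num) (by positivity)]
    have h2 : (5 : ℝ) ^ (1 - δ') ≤ 5 := by
      calc (5 : ℝ) ^ (1 - δ') ≤ (5 : ℝ) ^ (1 : ℝ) :=
            Real.rpow_le_rpow_of_exponent_le (by norm_num) (by linarith)
        _ = 5 := Real.rpow_one 5
    have h3 : (s ^ 3) ^ (1 - δ') = s ^ (3 * (1 - δ')) := by
      rw [← Real.rpow_natCast s 3, ← Real.rpow_mul hs.le]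
      norm_num
    rw [h3]
    exact mul_le_mul_of_nonneg_right h2 (by positivity)
  have h4 : s ^ (3 * (1 - δ')) * s ^ (κ / (8 * lq)) ≤ s ^ (3 + η) := by
    rw [← Real.rpow_add hs]
    exact Real.rpow_le_rpow_of_exponent_ge hs hs1 (by linarith)
  have h0 : 0 < (5 * s ^ 3) ^ (1 - δ') := by positivity
  have h0' : 0 < s ^ (κ / (8 * lq)) := by positivity
  calc CFr * (5 * s ^ 3) ^ (1 - δ') * X ≤
        CFr * (5 * s ^ 3) ^ (1 - δ') * (Cs * s ^ (κ / (8 * lq))) :=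
        mul_le_mul_of_nonneg_left hX (by positivity)
    _ ≤ CFr * (5 * s ^ (3 * (1 - δ'))) * (Cs * s ^ (κ / (8 * lq))) := by
        gcongr
    _ = 5 * CFr * Cs * (s ^ (3 * (1 - δ')) * s ^ (κ / (8 * lq))) := by ring
    _ ≤ 5 * CFr * Cs * s ^ (3 + η) := mul_le_mul_of_nonneg_left h4 (by positivity)

theorem mainEstimate (hL : LocP) (hK : KillP) (hT : TreeP) (hG : GoodLev) (hF : FrostA) (hC : CountGood) (hQ : QMeas)
    (hP : QuantileProps) (hTh : ThProps) : MainEstimate := by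
  obtain ⟨C1, C2, C3, hL⟩ := hL
  obtain ⟨N1, hN1⟩ : ∃ N1 : ℕ, N1 = C2 + C3 + 3 := ⟨_, rfl⟩
  obtain ⟨N0, θ0, hθ0, hL⟩ := hL N1 (by omega)
  obtain ⟨CG, hG⟩ := hG
  obtain ⟨CF, hF⟩ := hF
  obtain ⟨η0, hη0, hC⟩ := hC
  obtain ⟨N, hN⟩ : ∃ N : ℕ, N = N0 + CG + (2 * N1 + 3) * CF + 1 := ⟨_, rfl⟩
  obtain ⟨a, ha⟩ : ∃ a : ℕ, a = N * N0 := ⟨_, rfl⟩
  obtain ⟨q, hq⟩ : ∃ q : ℕ, q = 12 * a + 40 + a + C2 := ⟨_, rfl⟩
  obtain ⟨c, hc⟩ : ∃ c : ℕ, c = 3 * (q + a) := ⟨_, rfl⟩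
  obtain ⟨K0, hK0⟩ : ∃ K0 : ℝ, K0 = 100 + 1 / θ0 + 2 / η0 ^ 2 + 1 / η0 + c + 2 * (CG : ℝ) ^ 2 +
      2 * (20 * (c : ℝ)) ^ 2 + CF + CF * N + 96 * CF * N * q := ⟨_, rfl⟩
  obtain ⟨θ1, hθ1, hpar⟩ := me_param K0
  refine ⟨θ1 ^ N, by positivity, fun l1 h0 h1 => ?_⟩
  obtain ⟨θ, hθ, hθθ1, hθN⟩ := me_root (by omega) h0 hθ1 h1
  obtain ⟨u, hu1, hulog, hu3, huK⟩ := hpar θ hθ hθθ1
  obtain ⟨m1, m2, m3, m4, m5, m6, m7, m8, m9, m10, m11, m12, m13, m14, m15, m16, m17, m18, m19,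
    m20⟩ := me_nums hθ0 hη0 hN ha hq hc hK0 hθ hθN hu1 hulog hu3 huK
  obtain ⟨L, hLdef⟩ : ∃ L : ℕ, L = 3 * a * u := ⟨_, rfl⟩
  obtain ⟨Q, hQdef⟩ : ∃ Q : ℕ, Q = 3 ^ (q * u) := ⟨_, rfl⟩
  obtain ⟨Lc, hLc⟩ : ∃ Lc : ℕ, Lc = c * u := ⟨_, rfl⟩
  have hQR : (3 : ℝ) ^ (q * u) = (Q : ℝ) := by rw [hQdef]; push_cast; rfl
  rw [hQR] at m12 m13 m14 m15 m16 m20
  rw [← hLdef] at m11 m12 m13 m19
  rw [← hLc] at m15 m16 m17 m18 m19
  have hQ3 : 3 ≤ Q := by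
    rw [hQdef]
    calc 3 = 3 ^ 1 := by norm_num
      _ ≤ 3 ^ (q * u) := by
        apply Nat.pow_le_pow_right (by norm_num)
        have : 1 ≤ q := by omega
        nlinarith
  have hQ3' : (3 : ℝ) ≤ Q := by exact_mod_cast hQ3
  have hlogQ : 0 < Real.log Q := Real.log_pos (by linarith)
  have hθle1 : θ ≤ 1 := by linarith
  have hl1' : l1 ≤ 1 / 100 := by
    rw [← hθN]
    calc θ ^ N ≤ θ ^ 1 := pow_le_pow_of_le_one hθ.le hθle1 (by omega)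
      _ = θ := pow_one _
      _ ≤ 1 / 100 := m1
  have hlogl0 : 0 ≤ Real.log (1 / l1) := Real.log_nonneg (by rw [le_div_iff₀ h0]; linarith)
  obtain ⟨κ, hκ⟩ : ∃ κ : ℝ, κ = θ ^ (2 * N1) := ⟨_, rfl⟩
  have hκ0 : 0 < κ := by rw [hκ]; positivity
  have hκ1 : κ ≤ 1 := by rw [hκ]; exact pow_le_one₀ hθ.le hθle1
  obtain ⟨δ', hδ'⟩ : ∃ δ' : ℝ, δ' = (CF : ℝ) * θ ^ (2 * N1 + 3) * Real.log (1 / l1) := ⟨_, rfl⟩
  have hδ0 : 0 ≤ δ' := by rw [hδ']; positivity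
  have hδ1 : δ' ≤ 1 := by rw [hδ']; exact m10
  rw [← hδ', ← hκ] at m20
  refine ⟨κ / (16 * Real.log Q), by positivity, fun ε hε => ?_⟩
  have hsq0 : 0 < √(2 * θ) := Real.sqrt_pos.2 (by linarith)
  obtain ⟨k1, hk1⟩ := hC (√(2 * θ)) hsq0 m3 (ε / 2) (by linarith)
  obtain ⟨k2, hk2⟩ := hC (θ ^ (2 * N1 + 3)) (by positivity) m4 (ε / 2) (by linarith)
  obtain ⟨nn, hnn⟩ : ∃ nn : ℕ, nn = max k1 k2 := ⟨_, rfl⟩
  obtain ⟨hm1, hv1⟩ := hk1 nn (by rw [hnn]; exact le_max_left _ _)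
  obtain ⟨hm2, hv2⟩ := hk2 nn (by rw [hnn]; exact le_max_right _ _)
  obtain ⟨CFr, hCFr, hFK⟩ := hF (θ ^ (2 * N1 + 3)) l1 nn (by positivity) m8 h0 m9 m10
  obtain ⟨n0, hGK⟩ := hG (√(2 * θ)) l1 nn C1 hsq0 m6 h0 m7 L Lc Q m13 m16 m18 m19
  have hs0pos : 0 < min (1 / 5) (l1 ^ 2 / 16) := lt_min (by norm_num) (by positivity)
  refine ⟨5 * CFr * Real.exp (1 + 2 * n0), min (1 / 5) (l1 ^ 2 / 16), by positivity, hs0pos,
    (min_le_left _ _).trans (by norm_num), ?_⟩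
  filter_upwards [hFK, hGK, eventually_ge_atTop 1] with K hFK hGK hK1
  obtain ⟨hP1, hP2, -, -, hP5, hP6, hP7⟩ := hP K hK1
  refine ⟨Rg K ∩ (Gd (√(2 * θ)) nn ∩ Gd (θ ^ (2 * N1 + 3)) nn), hP6.inter (hm1.inter hm2),
    inter_subset_left, ?_, ?_⟩
  · have h2 : Ioo (0 : ℝ) 1 \ (Rg K ∩ (Gd (√(2 * θ)) nn ∩ Gd (θ ^ (2 * N1 + 3)) nn)) ⊆
        (Ioo (0 : ℝ) 1 \ Rg K) ∪ ((Ioo (0 : ℝ) 1 \ Gd (√(2 * θ)) nn) ∪
          (Ioo (0 : ℝ) 1 \ Gd (θ ^ (2 * N1 + 3)) nn)) := by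
      rintro t ⟨h3, h4⟩
      by_cases h5 : t ∈ Rg K
      · by_cases h6 : t ∈ Gd (√(2 * θ)) nn
        · by_cases h7 : t ∈ Gd (θ ^ (2 * N1 + 3)) nn
          · exact absurd ⟨h5, h6, h7⟩ h4
          · exact Or.inr (Or.inr ⟨h3, h7⟩)
        · exact Or.inr (Or.inl ⟨h3, h6⟩)
      · exact Or.inl ⟨h3, h5⟩
    calc volume (Ioo (0 : ℝ) 1 \ (Rg K ∩ (Gd (√(2 * θ)) nn ∩ Gd (θ ^ (2 * N1 + 3)) nn))) ≤ _ :=
          measure_mono h2
      _ ≤ volume (Ioo (0 : ℝ) 1 \ Rg K) + volume ((Ioo (0 : ℝ) 1 \ Gd (√(2 * θ)) nn) ∪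
          (Ioo (0 : ℝ) 1 \ Gd (θ ^ (2 * N1 + 3)) nn)) := measure_union_le _ _
      _ ≤ 0 + (ENNReal.ofReal (ε / 2) + ENNReal.ofReal (ε / 2)) := by
          rw [hP7]
          gcongr
          exact (measure_union_le _ _).trans (add_le_add hv1 hv2)
      _ = ENNReal.ofReal ε := by
          rw [zero_add, ← ENNReal.ofReal_add (by linarith) (by linarith)]
          congr 1
          ring
  obtain ⟨A, hA⟩ : ∃ A : Set ℝ, A = Rg K ∩ (Gd (√(2 * θ)) nn ∩ Gd (θ ^ (2 * N1 + 3)) nn) :=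
    ⟨_, rfl⟩
  rw [← hA]
  have hAR : A ⊆ Rg K := by rw [hA]; exact inter_subset_left
  have hAm : MeasurableSet A := by rw [hA]; exact hP6.inter (hm1.inter hm2)
  intro l hl s hsK hs0
  have hph := me_ph1
  have hs : 0 < s := lt_of_lt_of_le (Real.rpow_pos_of_pos (by linarith) _) hsK
  have hs5 : s ≤ 1 / 5 := hs0.trans (min_le_left _ _)
  have hs6 : s ≤ l1 ^ 2 / 16 := hs0.trans (min_le_right _ _)
  have hl0 : 0 < l := by linarith [hl.1]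
  have hl18 : l ≤ 1 / 8 := by linarith [hl.2]
  have hlθ : l ≤ θ ^ N0 := hl.2.trans m5
  have hinvs : 1 / s ≤ ph ^ ((K : ℝ) / 8) := by
    rw [div_le_iff₀ hs]
    have h2 : ph ^ ((K : ℝ) / 8) * ph ^ (-(K : ℝ) / 8) = 1 := by
      rw [← Real.rpow_add (by linarith)]
      rw [show (K : ℝ) / 8 + -(K : ℝ) / 8 = 0 by ring, Real.rpow_zero]
    have h3 : 0 < ph ^ ((K : ℝ) / 8) := Real.rpow_pos_of_pos (by linarith) _
    calc (1 : ℝ) = ph ^ ((K : ℝ) / 8) * ph ^ (-(K : ℝ) / 8) := h2.symm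
      _ ≤ ph ^ ((K : ℝ) / 8) * s := mul_le_mul_of_nonneg_left hsK h3.le
  obtain ⟨nt, hnt1, hnt2⟩ := exists_nat_pow_near (x := 1 / s) (y := (Q : ℝ) ^ 2)
    (by rw [le_div_iff₀ hs]; linarith) (by nlinarith)
  have hQnt : (Q : ℝ) ^ nt ≤ ph ^ ((K : ℝ) / 2) := by
    have h2 : (1 : ℝ) ≤ (Q : ℝ) ^ nt := one_le_pow₀ (by linarith)
    calc (Q : ℝ) ^ nt ≤ (Q : ℝ) ^ nt * (Q : ℝ) ^ nt := le_mul_of_one_le_right (by linarith) h2
      _ = ((Q : ℝ) ^ 2) ^ nt := by rw [← pow_mul, two_mul, pow_add]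
      _ ≤ 1 / s := hnt1
      _ ≤ ph ^ ((K : ℝ) / 8) := hinvs
      _ ≤ ph ^ ((K : ℝ) / 2) := Real.rpow_le_rpow_of_exponent_le hph.le (by
          have : (0 : ℝ) ≤ K := Nat.cast_nonneg _
          linarith)
  -- the integrated density of states
  have hThK := hTh l hl0 hl18 K
  obtain ⟨-, t2, -, t4, t5, -⟩ := hThK
  have hfib : (0 : ℝ) < π * Nat.fib K := by
    have : 0 < Nat.fib K := Nat.fib_pos.2 hK1
    have : (0 : ℝ) < Nat.fib K := by exact_mod_cast this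
    positivity
  have hNN : Antitone (NN K l) := by
    intro x y hxy
    unfold NN
    exact div_le_div_of_nonneg_right (t2 hxy) hfib.le
  have hNN1 : ∀ E, E ≤ -3 → NN K l E = 1 := by
    intro E hE
    unfold NN
    rw [t5 E hE, div_self hfib.ne']
  have hNN0 : ∀ E, 3 ≤ E → NN K l E = 0 := by
    intro E hE
    unfold NN
    rw [t4 E hE, zero_div]
  have hE3 : ∀ t ∈ A, |EK K l t| ≤ 3 := fun t ht =>
    hP1 l hl0 hl18 t ⟨(hAR ht).1, (hAR ht).2.1⟩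
  have hℓ : ∀ n : ℕ, 0 < (Q : ℝ)⁻¹ ^ n := fun n => by positivity
  have hmm : ∀ j : ℤ, 0 ≤ mms K l ((Q : ℝ)⁻¹ ^ nt) j := by
    intro j
    unfold mms
    have h1 : (j : ℝ) * (Q : ℝ)⁻¹ ^ nt ≤ ((j : ℝ) + 1) * (Q : ℝ)⁻¹ ^ nt := by
      have := hℓ nt
      nlinarith
    linarith [hNN h1]
  -- number of good levels
  obtain ⟨M0, hM0⟩ : ∃ M0 : ℕ, M0 = ⌊(7 : ℝ) / 10 * nt - 3 * n0⌋₊ := ⟨_, rfl⟩
  have hM0a : (M0 : ℝ) + 3 * ((nt : ℝ) / 10 + n0) ≤ nt ∨ M0 = 0 := by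
    rcases le_or_gt 0 ((7 : ℝ) / 10 * nt - 3 * n0) with h2 | h2
    · left
      have h3 := Nat.floor_le h2
      rw [← hM0] at h3
      linarith
    · right
      rw [hM0]
      exact Nat.floor_of_nonpos h2.le
  have hM0b : (7 : ℝ) / 10 * nt - 3 * n0 - 1 ≤ M0 := by
    have h3 := Nat.lt_floor_add_one ((7 : ℝ) / 10 * nt - 3 * n0)
    rw [← hM0] at h3
    linarith
  have hθsq : √(2 * θ) ^ 2 / 2 = θ := by
    rw [Real.sq_sqrt (by linarith)]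
    ring
  have hX := me_pow (κ := κ) (s := s) (Q := Q) (nt := nt) (n0 := n0) (M0 := M0) hκ0 hκ1 hs
    (by linarith) (by omega) hnt2 hM0b
  refine le_trans (me_vol (K := K) (l := l) (s := s) (ℓ := (Q : ℝ)⁻¹ ^ nt) (X := (1 - κ / 2) ^ M0)
    (c := ENNReal.ofReal (CFr * (5 * s ^ 3) ^ (1 - δ'))) hAR ?_ hmm ?_ ?_ (hℓ nt)
    (fun a b hab => hQ l hl0 hl18 K hK1 a b hab))
    (me_final hCFr hδ0 hs (by linarith) (Real.exp_pos _).le ?_ hX)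
  · -- measurability
    obtain ⟨hq51, hq52⟩ := hP5 l1 (2 * l1) h0 (by linarith)
    have hAI : A ⊆ Ioo (0 : ℝ) 1 := fun t ht => ⟨(hAR ht).1, (hAR ht).2.1⟩
    refine me_meas hAm ?_ ?_ _ _
    · have h2 : indicator A (EK K l) = indicator A (fun t : ℝ =>
          indicator (Icc l1 (2 * l1) ×ˢ Ioo (0 : ℝ) 1) (fun p : ℝ × ℝ => EK K p.1 p.2) (l, t)) := by
        ext t
        by_cases ht : t ∈ A
        · rw [indicator_of_mem ht, indicator_of_mem ht,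
            indicator_of_mem (show ((l, t) : ℝ × ℝ) ∈ Icc l1 (2 * l1) ×ˢ Ioo (0 : ℝ) 1 from
              ⟨hl, hAI ht⟩)]
        · rw [indicator_of_notMem ht, indicator_of_notMem ht]
      rw [h2]
      exact (hq51.comp measurable_prodMk_left).indicator hAm
    · have h2 : indicator A (VK K l) = indicator A (fun t : ℝ =>
          indicator (Icc l1 (2 * l1) ×ˢ Rg K) (fun p : ℝ × ℝ => VK K p.1 p.2) (l, t)) := by
        ext t
        by_cases ht : t ∈ A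
        · rw [indicator_of_mem ht, indicator_of_mem ht,
            indicator_of_mem (show ((l, t) : ℝ × ℝ) ∈ Icc l1 (2 * l1) ×ˢ Rg K from
              ⟨hl, hAR ht⟩)]
        · rw [indicator_of_notMem ht, indicator_of_notMem ht]
      rw [h2]
      exact (hq52.comp measurable_prodMk_left).indicator hAm
  · -- Frostman
    intro x
    have h2 : ph ^ (-(K : ℝ) / 2) ≤ 5 * s ^ 3 := by
      have h3 : (ph ^ (-(K : ℝ) / 8)) ^ 3 ≤ s ^ 3 :=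
        pow_le_pow_left₀ (Real.rpow_nonneg (by linarith) _) hsK 3
      rw [← Real.rpow_natCast, ← Real.rpow_mul (by linarith)] at h3
      have h4 : ph ^ (-(K : ℝ) / 2) ≤ ph ^ (-(K : ℝ) / 8 * ((3 : ℕ) : ℝ)) :=
        Real.rpow_le_rpow_of_exponent_le hph.le (by
          have : (0 : ℝ) ≤ K := Nat.cast_nonneg _
          push_cast
          linarith)
      have h5 : 0 < s ^ 3 := by positivity
      linarith
    have h3 : 5 * s ^ 3 ≤ 1 := by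
      have : s ^ 3 ≤ (1 / 5) ^ 3 := pow_le_pow_left₀ hs.le hs5 3
      norm_num at this
      linarith
    have h4 := hFK l hl x (5 * s ^ 3) h2 h3
    rw [← hδ'] at h4
    refine le_trans (measure_mono ?_) h4
    rintro t ⟨ht, ht2⟩
    have ht' := ht
    rw [hA] at ht'
    exact ⟨ht'.1, ht'.2.2, ht2⟩
  · -- the tree
    intro E1 V1
    refine me_tree (Q := Q) (nt := nt) (M := 1 / θ ^ C2) (δ := θ) (κ := κ) hK hT
      (fun e ℓ => ∃ m, GoodAt θ C1 L Lc K l e ℓ m) (fun n => l * (Q : ℝ)⁻¹ ^ n / θ ^ C3)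
      (fun n => l * (Q : ℝ)⁻¹ ^ n / θ ^ N1) hAR hNN hNN1 hNN0 hE3 hs ?_ hθ m1 hκ0 hκ1 m14 ?_ ?_
      (B := (nt : ℝ) / 10 + n0) ?_ hM0a
    · rw [le_div_iff₀ (by positivity), one_mul]
      exact pow_le_one₀ hθ.le hθle1
    · rintro n hn e ⟨m, hm⟩
      have hinvl : (1 / l) ^ N0 ≤ (1 / l1) ^ N0 :=
        pow_le_pow_left₀ (by positivity) (one_div_le_one_div_of_le h0 hl.1) _
      rw [hκ]
      refine hL θ l hθ m2 hl0 hlθ L Lc Q K m (hinvl.trans m11) ?_ ?_ m17 e ((Q : ℝ)⁻¹ ^ n) (hℓ n)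
        (pow_le_one₀ (by positivity) (inv_le_one_of_one_le₀ (by linarith))) hm
      · exact le_trans (mul_le_mul_of_nonneg_left hinvl (by positivity)) m12
      · exact le_trans (mul_le_mul_of_nonneg_left hinvl (by positivity)) m15
    · intro n hn
      exact me_scales hN1 hθ m1 h0 (by linarith) hl.1 hs hs5 hs6 (by omega) hnt1 n hn
    · intro t ht
      have ht' := ht
      rw [hA] at ht'
      have h2 := hGK nt l t hl ht'.1 ht'.2.1 hQnt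
      rw [hθsq] at h2
      exact h2
  · -- exponents
    have h2 : κ / (16 * Real.log Q) + κ / (16 * Real.log Q) = κ / (8 * Real.log Q) := by
      field_simp
      norm_num
    linarith

end FIB
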