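import Pool.Agent.Helper75.FIB.Iface3

/-!
# FIB block N1 : crude bound for R_n x B_n

Steps (1), (3), (4) of block G2 (README section 2, (Y)). Complex point `(E+z, λ)`, `λ = l + w`, radius `(|z|+|w|) rho n <= l^C`. `R_j = (trE j, trE (j+1), trE (j+2))`, `B_j` the same with `trL`, `N_j = R_j × B_j`, `g_j = (x_j - x_{j+1}x_{j+2}, x_{j+1} - x_j x_{j+2}, x_{j+2} - x_j x_{j+1})`.
(1) Algebra (any field): `g_j·R_j = 0`, `g_j·B_j = λ/4` (`grad_E`, `grad_L`), so `g_j × N_j = (λ/4) R_j` (and `N_j·R_j = 0`). With the linear map `T_j(v) = (v2 + 2x_{j+2} v1, v3 + 2 x_{j+1} v1, -v1)`: `g_{j+1} = T_j g_j`, `N_{j+1} = -T_j N_j` (ring identities from the recursions).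
(2) `SLall` (`n`): for `j <= n+8`, `|x_j(E+z,l+w) - x_j(E,l)| <= l^{10}`, complex `x_j` bounded by `3`; Cauchy: `|R_j|, |B_j| <= l^{-C'} rho j` at complex points, `j <= n` (for level `j <= n` use the polydisc of level `j`: `rho j <= l^{-C'} rho n` by `GrLow`, so it contains ours).
(3) REAL points: two of `1-x_j^2, 1-x_{j+1}^2, 1-x_{j+2}^2` have the same (weak) sign, so by `tr_inv_sq`, `tr_inv_sq'`, `tr_inv_sq''` one component of `g_j` has modulus `>= l/2`: real `g_j·g_j >= l^2/4`; complex (bilinear, no conjugation): `|g_j·g_j| >= l^2/8`.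
(4) `N_j = Y_j g_j + (λ/4)(R_j × g_j)/(g_j·g_j)`, `Y_j = g_j·N_j/(g_j·g_j)` (vector identity). Inserting into `N_{j+1} = -T_j N_j`, `g_{j+1} = T_j g_j` gives `(Y_{j+1} + Y_j) g_{j+1} = -(λ/4)[T_j(R_j × g_j)/(g_j·g_j) + (R_{j+1} × g_{j+1})/(g_{j+1}·g_{j+1})]`, so `|Y_{j+1}+Y_j| <= l^{-C'}(|R_j| + |R_{j+1}|)`. Summing over `j < n`,
`|R_j| <= l^{-C'} rho j <= l^{-C''} φ^{-(n-j)} rho n`, `Y_0` explicit (`R_0 = (0,1/2,1/2)`, `B_0 = (0,0,-1/2)`): `|Y_n| <= l^{-C} rho n`, `|N_n| <= l^{-C} rho n`.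
-/

namespace FIB

open Real MeasureTheory Set Filter Topology

namespace N1

set_option linter.unusedSectionVars false

section alg
variable {R : Type*} [Field R] [CharZero R]

/-- half gradient, first component -/
def g1 (j : ℕ) (P Q : R) : R := tr j P Q - tr (j + 1) P Q * tr (j + 2) P Q
def g2 (j : ℕ) (P Q : R) : R := tr (j + 1) P Q - tr j P Q * tr (j + 2) P Q
def g3 (j : ℕ) (P Q : R) : R := tr (j + 2) P Q - tr j P Q * tr (j + 1) P Q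
def n1 (j : ℕ) (P Q : R) : R := trE (j + 1) P Q * trL (j + 2) P Q - trE (j + 2) P Q * trL (j + 1) P Q
def n2 (j : ℕ) (P Q : R) : R := trE (j + 2) P Q * trL j P Q - trE j P Q * trL (j + 2) P Q
def n3 (j : ℕ) (P Q : R) : R := trE j P Q * trL (j + 1) P Q - trE (j + 1) P Q * trL j P Q
def GG (j : ℕ) (P Q : R) : R := g1 j P Q ^ 2 + g2 j P Q ^ 2 + g3 j P Q ^ 2
def DD (j : ℕ) (P Q : R) : R :=
  g1 j P Q * n1 j P Q + g2 j P Q * n2 j P Q + g3 j P Q * n3 j P Q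
def c1 (j : ℕ) (P Q : R) : R := trE (j + 1) P Q * g3 j P Q - trE (j + 2) P Q * g2 j P Q
def c2 (j : ℕ) (P Q : R) : R := trE (j + 2) P Q * g1 j P Q - trE j P Q * g3 j P Q
def c3 (j : ℕ) (P Q : R) : R := trE j P Q * g2 j P Q - trE (j + 1) P Q * g1 j P Q

theorem gR (j : ℕ) (P Q : R) : g1 j P Q * trE j P Q + g2 j P Q * trE (j + 1) P Q
    + g3 j P Q * trE (j + 2) P Q = 0 := grad_E j P Q

theorem gB (j : ℕ) (P Q : R) : g1 j P Q * trL j P Q + g2 j P Q * trL (j + 1) P Q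
    + g3 j P Q * trL (j + 2) P Q = Q / 4 := grad_L j P Q

theorem id1 (j : ℕ) (P Q : R) :
    GG j P Q * n1 j P Q = DD j P Q * g1 j P Q + Q / 4 * c1 j P Q := by
  have hR := gR j P Q
  have hB := gB j P Q
  rw [← hB]
  unfold GG DD n1 n2 n3 c1
  linear_combination (-(trL (j + 1) P Q) * g3 j P Q + trL (j + 2) P Q * g2 j P Q) * hR

theorem id2 (j : ℕ) (P Q : R) :
    GG j P Q * n2 j P Q = DD j P Q * g2 j P Q + Q / 4 * c2 j P Q := by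
  have hR := gR j P Q
  have hB := gB j P Q
  rw [← hB]
  unfold GG DD n1 n2 n3 c2
  linear_combination (-(trL (j + 2) P Q) * g1 j P Q + trL j P Q * g3 j P Q) * hR

theorem id3 (j : ℕ) (P Q : R) :
    GG j P Q * n3 j P Q = DD j P Q * g3 j P Q + Q / 4 * c3 j P Q := by
  have hR := gR j P Q
  have hB := gB j P Q
  rw [← hB]
  unfold GG DD n1 n2 n3 c3
  linear_combination (-(trL j P Q) * g2 j P Q + trL (j + 1) P Q * g1 j P Q) * hR

theorem g1s (j : ℕ) (P Q : R) : g1 (j + 1) P Q = g2 j P Q + 2 * tr (j + 2) P Q * g1 j P Q := by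
  unfold g1 g2
  rw [show j + 1 + 1 = j + 2 from rfl, show j + 1 + 2 = j + 3 from rfl, tr_add_three]; ring

theorem g2s (j : ℕ) (P Q : R) : g2 (j + 1) P Q = g3 j P Q + 2 * tr (j + 1) P Q * g1 j P Q := by
  unfold g1 g2 g3
  rw [show j + 1 + 1 = j + 2 from rfl, show j + 1 + 2 = j + 3 from rfl, tr_add_three]; ring

theorem g3s (j : ℕ) (P Q : R) : g3 (j + 1) P Q = -g1 j P Q := by
  unfold g1 g3
  rw [show j + 1 + 1 = j + 2 from rfl, show j + 1 + 2 = j + 3 from rfl, tr_add_three]; ring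

theorem n1s (j : ℕ) (P Q : R) : n1 (j + 1) P Q = -(n2 j P Q + 2 * tr (j + 2) P Q * n1 j P Q) := by
  unfold n1 n2
  rw [show j + 1 + 1 = j + 2 from rfl, show j + 1 + 2 = j + 3 from rfl, trE_add_three,
    trL_add_three]; ring

theorem n2s (j : ℕ) (P Q : R) : n2 (j + 1) P Q = -(n3 j P Q + 2 * tr (j + 1) P Q * n1 j P Q) := by
  unfold n1 n2 n3
  rw [show j + 1 + 1 = j + 2 from rfl, show j + 1 + 2 = j + 3 from rfl, trE_add_three,
    trL_add_three]; ring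

theorem n3s (j : ℕ) (P Q : R) : n3 (j + 1) P Q = n1 j P Q := by
  unfold n1 n3
  rw [show j + 1 + 1 = j + 2 from rfl]

def SSj (j : ℕ) (P Q : R) : R :=
  g1 (j + 1) P Q * (c2 j P Q + 2 * tr (j + 2) P Q * c1 j P Q)
    + g2 (j + 1) P Q * (c3 j P Q + 2 * tr (j + 1) P Q * c1 j P Q)
    - g3 (j + 1) P Q * c1 j P Q

theorem step (j : ℕ) (P Q : R) :
    DD (j + 1) P Q * GG j P Q + DD j P Q * GG (j + 1) P Q = -(Q / 4 * SSj j P Q) := by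
  have h1 := id1 j P Q
  have h2 := id2 j P Q
  have h3 := id3 j P Q
  have e1 := g1s j P Q
  have e2 := g2s j P Q
  have e3 := g3s j P Q
  have hD : DD (j + 1) P Q * GG j P Q = -(g1 (j + 1) P Q * (GG j P Q * n2 j P Q
      + 2 * tr (j + 2) P Q * (GG j P Q * n1 j P Q))
      + g2 (j + 1) P Q * (GG j P Q * n3 j P Q + 2 * tr (j + 1) P Q * (GG j P Q * n1 j P Q))
      - g3 (j + 1) P Q * (GG j P Q * n1 j P Q)) := by
    rw [DD, n1s, n2s, n3s]; ring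
  rw [hD, h1, h2, h3]
  have hG : GG (j + 1) P Q = g1 (j + 1) P Q * (g2 j P Q + 2 * tr (j + 2) P Q * g1 j P Q)
      + g2 (j + 1) P Q * (g3 j P Q + 2 * tr (j + 1) P Q * g1 j P Q)
      + g3 (j + 1) P Q * (-g1 j P Q) := by
    rw [← g1s, ← g2s, ← g3s, GG]; ring
  rw [hG, SSj]
  ring

end alg

/-- real points: the half gradient is not small -/
theorem GG_real (j : ℕ) (E l : ℝ) : l ^ 2 / 4 ≤ GG j E l := by
  have h1 := tr_inv_sq j E l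
  have h2 := tr_inv_sq' j E l
  have h3 := tr_inv_sq'' j E l
  have e1 : g1 j E l ^ 2 = (1 - tr (j + 1) E l ^ 2) * (1 - tr (j + 2) E l ^ 2) + l ^ 2 / 4 := h3
  have e2 : g2 j E l ^ 2 = (1 - tr j E l ^ 2) * (1 - tr (j + 2) E l ^ 2) + l ^ 2 / 4 := h2
  have e3 : g3 j E l ^ 2 = (1 - tr j E l ^ 2) * (1 - tr (j + 1) E l ^ 2) + l ^ 2 / 4 := h1
  have p1 := sq_nonneg (g1 j E l)
  have p2 := sq_nonneg (g2 j E l)
  have p3 := sq_nonneg (g3 j E l)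
  unfold GG
  rcases le_total 0 (1 - tr j E l ^ 2) with a | a <;>
    rcases le_total 0 (1 - tr (j + 1) E l ^ 2) with b | b <;>
    rcases le_total 0 (1 - tr (j + 2) E l ^ 2) with c | c
  · nlinarith [mul_nonneg a b]
  · nlinarith [mul_nonneg a b]
  · nlinarith [mul_nonneg a c]
  · nlinarith [mul_nonneg_of_nonpos_of_nonpos b c]
  · nlinarith [mul_nonneg b c]
  · nlinarith [mul_nonneg_of_nonpos_of_nonpos a c]
  · nlinarith [mul_nonneg_of_nonpos_of_nonpos a b]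
  · nlinarith [mul_nonneg_of_nonpos_of_nonpos a b]

/-- products of perturbed bounded numbers -/
theorem mul_pert {a a' b b' : ℂ} {δ : ℝ} (ha : ‖a‖ ≤ 2) (hb : ‖b‖ ≤ 2)
    (ha' : ‖a' - a‖ ≤ δ) (hb' : ‖b' - b‖ ≤ δ) (hδ0 : 0 ≤ δ) (hδ : δ ≤ 1) :
    ‖a' * b' - a * b‖ ≤ 5 * δ := by
  have e : a' * b' - a * b = (a' - a) * (b' - b) + ((a' - a) * b + a * (b' - b)) := by ring
  rw [e]
  have h1 := norm_add_le ((a' - a) * (b' - b)) ((a' - a) * b + a * (b' - b))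
  have h2 := norm_add_le ((a' - a) * b) (a * (b' - b))
  rw [norm_mul] at h1
  rw [norm_mul, norm_mul] at h2
  have h3 : ‖a' - a‖ * ‖b' - b‖ ≤ δ * 1 :=
    mul_le_mul ha' (hb'.trans hδ) (norm_nonneg _) hδ0
  have h4 : ‖a' - a‖ * ‖b‖ ≤ δ * 2 := mul_le_mul ha' hb (norm_nonneg _) hδ0
  have h5 : ‖a‖ * ‖b' - b‖ ≤ 2 * δ := mul_le_mul ha hb' (norm_nonneg _) (by norm_num)
  linarith

theorem comp_pert {a a' b b' c c' : ℂ} {δ : ℝ} (hb : ‖b‖ ≤ 2) (hc : ‖c‖ ≤ 2)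
    (ha' : ‖a' - a‖ ≤ δ) (hb' : ‖b' - b‖ ≤ δ) (hc' : ‖c' - c‖ ≤ δ) (hδ0 : 0 ≤ δ) (hδ : δ ≤ 1) :
    ‖(a' - b' * c') - (a - b * c)‖ ≤ 6 * δ := by
  have h1 := mul_pert hb hc hb' hc' hδ0 hδ
  have e : (a' - b' * c') - (a - b * c) = (a' - a) - (b' * c' - b * c) := by ring
  rw [e]
  have := norm_sub_le (a' - a) (b' * c' - b * c)
  linarith

theorem sq_pert {g g' : ℂ} {δ : ℝ} (hg : ‖g‖ ≤ 6) (hg' : ‖g' - g‖ ≤ 6 * δ) (hδ0 : 0 ≤ δ)
    (hδ : δ ≤ 1) : ‖g' ^ 2 - g ^ 2‖ ≤ 108 * δ := by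
  have e : g' ^ 2 - g ^ 2 = (g' - g) * ((g' - g) + 2 * g) := by ring
  rw [e, norm_mul]
  have h1 : ‖(g' - g) + 2 * g‖ ≤ 18 := by
    refine (norm_add_le _ _).trans ?_
    rw [norm_mul, Complex.norm_ofNat]
    linarith
  have := mul_le_mul hg' h1 (norm_nonneg _) (by positivity)
  linarith

theorem GG_cplx (j : ℕ) (E l : ℝ) (P Q : ℂ) (δ : ℝ) (hδ0 : 0 ≤ δ) (hδ : δ ≤ 1)
    (hb : ∀ i, j ≤ i → i ≤ j + 2 → |tr i E l| ≤ 2)
    (hp : ∀ i, j ≤ i → i ≤ j + 2 → ‖tr i P Q - ((tr i E l : ℝ) : ℂ)‖ ≤ δ)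
    (hs : 324 * δ ≤ l ^ 2 / 8) : l ^ 2 / 8 ≤ ‖GG j P Q‖ := by
  have b0 : ‖((tr j E l : ℝ) : ℂ)‖ ≤ 2 := by
    rw [Complex.norm_real]; exact hb j le_rfl (by omega)
  have b1 : ‖((tr (j + 1) E l : ℝ) : ℂ)‖ ≤ 2 := by
    rw [Complex.norm_real]; exact hb (j + 1) (by omega) (by omega)
  have b2 : ‖((tr (j + 2) E l : ℝ) : ℂ)‖ ≤ 2 := by
    rw [Complex.norm_real]; exact hb (j + 2) (by omega) (by omega)
  have p0 := hp j le_rfl (by omega)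
  have p1 := hp (j + 1) (by omega) (by omega)
  have p2 := hp (j + 2) (by omega) (by omega)
  have d1 := comp_pert b1 b2 p0 p1 p2 hδ0 hδ
  have d2 := comp_pert b0 b2 p1 p0 p2 hδ0 hδ
  have d3 := comp_pert b0 b1 p2 p0 p1 hδ0 hδ
  have size : ∀ a b c : ℂ, ‖a‖ ≤ 2 → ‖b‖ ≤ 2 → ‖c‖ ≤ 2 → ‖a - b * c‖ ≤ 6 := by
    intro a b c ha hb hc
    have h1 := norm_sub_le a (b * c)
    rw [norm_mul] at h1
    have h2 : ‖b‖ * ‖c‖ ≤ 2 * 2 := mul_le_mul hb hc (norm_nonneg _) (by norm_num)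
    linarith
  have s1 := sq_pert (size _ _ _ b0 b1 b2) d1 hδ0 hδ
  have s2 := sq_pert (size _ _ _ b1 b0 b2) d2 hδ0 hδ
  have s3 := sq_pert (size _ _ _ b2 b0 b1) d3 hδ0 hδ
  have hreal : ((GG j E l : ℝ) : ℂ) = (((tr j E l : ℝ) : ℂ) - ((tr (j + 1) E l : ℝ) : ℂ) *
      ((tr (j + 2) E l : ℝ) : ℂ)) ^ 2 + (((tr (j + 1) E l : ℝ) : ℂ) - ((tr j E l : ℝ) : ℂ) *
      ((tr (j + 2) E l : ℝ) : ℂ)) ^ 2 + (((tr (j + 2) E l : ℝ) : ℂ) - ((tr j E l : ℝ) : ℂ) *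
      ((tr (j + 1) E l : ℝ) : ℂ)) ^ 2 := by
    unfold GG g1 g2 g3
    push_cast
    ring
  have hdiff : ‖GG j P Q - ((GG j E l : ℝ) : ℂ)‖ ≤ 324 * δ := by
    have e : GG j P Q - ((GG j E l : ℝ) : ℂ) =
      ((tr j P Q - tr (j + 1) P Q * tr (j + 2) P Q) ^ 2 -
        (((tr j E l : ℝ) : ℂ) - ((tr (j + 1) E l : ℝ) : ℂ) * ((tr (j + 2) E l : ℝ) : ℂ)) ^ 2) +
      ((tr (j + 1) P Q - tr j P Q * tr (j + 2) P Q) ^ 2 -
        (((tr (j + 1) E l : ℝ) : ℂ) - ((tr j E l : ℝ) : ℂ) * ((tr (j + 2) E l : ℝ) : ℂ)) ^ 2) +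
      ((tr (j + 2) P Q - tr j P Q * tr (j + 1) P Q) ^ 2 -
        (((tr (j + 2) E l : ℝ) : ℂ) - ((tr j E l : ℝ) : ℂ) * ((tr (j + 1) E l : ℝ) : ℂ)) ^ 2) := by
      rw [hreal]
      unfold GG g1 g2 g3
      ring
    rw [e]
    refine (norm_add₃_le).trans ?_
    linarith
  have h4 := norm_sub_norm_le ((GG j E l : ℝ) : ℂ) (((GG j E l : ℝ) : ℂ) - GG j P Q)
  have h5 : ((GG j E l : ℝ) : ℂ) - (((GG j E l : ℝ) : ℂ) - GG j P Q) = GG j P Q := by ring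
  rw [h5, norm_sub_rev ((GG j E l : ℝ) : ℂ) (GG j P Q), Complex.norm_real] at h4
  have h6 := GG_real j E l
  have h7 := le_norm_self (GG j E l)
  linarith

/-! ### Cauchy estimates -/

theorem cauchy_E {c : ℕ} {i : ℕ} {E l a : ℝ} (hl : 0 < l) (ha : 0 < a)
    (HS : ∀ z w : ℂ, (‖z‖ + ‖w‖) * a ≤ l ^ c →
      l ^ c * ‖tr i ((E : ℂ) + z) ((l : ℂ) + w) - ((tr i E l : ℝ) : ℂ)‖ ≤ (‖z‖ + ‖w‖) * a)
    (z w : ℂ) (hzw : (‖z‖ + ‖w‖) * a ≤ l ^ c / 2) :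
    ‖trE i ((E : ℂ) + z) ((l : ℂ) + w)‖ ≤ 2 * a / l ^ c := by
  have hlc : 0 < l ^ c := by positivity
  set r : ℝ := l ^ c / (2 * a) with hr
  have hr0 : 0 < r := by positivity
  have hra : r * a = l ^ c / 2 := by rw [hr]; field_simp
  set f : ℂ → ℂ := fun ζ => tr i ζ ((l : ℂ) + w) - ((tr i E l : ℝ) : ℂ) with hf
  have hd : ∀ ζ : ℂ, HasDerivAt f (trE i ζ ((l : ℂ) + w)) ζ := fun ζ =>
    (hasDerivAt_tr_E i ζ ((l : ℂ) + w)).sub_const _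
  have hdiff : Differentiable ℂ f := fun ζ => (hd ζ).differentiableAt
  have hb : ∀ ζ ∈ Metric.sphere ((E : ℂ) + z) r, ‖f ζ‖ ≤ 1 := by
    intro ζ hζ
    rw [mem_sphere_iff_norm] at hζ
    have e1 : (E : ℂ) + (z + (ζ - ((E : ℂ) + z))) = ζ := by ring
    have hn : ‖z + (ζ - ((E : ℂ) + z))‖ ≤ ‖z‖ + r := by
      refine (norm_add_le _ _).trans ?_
      rw [hζ]
    have h1 : (‖z + (ζ - ((E : ℂ) + z))‖ + ‖w‖) * a ≤ l ^ c := by
      have h2 : (‖z + (ζ - ((E : ℂ) + z))‖ + ‖w‖) * a ≤ (‖z‖ + r + ‖w‖) * a :=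
        mul_le_mul_of_nonneg_right (by linarith) ha.le
      nlinarith
    have h3 := HS _ w h1
    rw [e1] at h3
    have h4 : l ^ c * ‖f ζ‖ ≤ l ^ c * 1 := by
      rw [mul_one]; exact h3.trans h1
    exact le_of_mul_le_mul_left h4 hlc
  have h5 := Complex.norm_deriv_le_of_forall_mem_sphere_norm_le hr0 hdiff.diffContOnCl hb
  rw [(hd _).deriv] at h5
  refine h5.trans (le_of_eq ?_)
  rw [hr]; field_simp

theorem cauchy_L {c : ℕ} {i : ℕ} {E l a : ℝ} (hl : 0 < l) (ha : 0 < a)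
    (HS : ∀ z w : ℂ, (‖z‖ + ‖w‖) * a ≤ l ^ c →
      l ^ c * ‖tr i ((E : ℂ) + z) ((l : ℂ) + w) - ((tr i E l : ℝ) : ℂ)‖ ≤ (‖z‖ + ‖w‖) * a)
    (z w : ℂ) (hzw : (‖z‖ + ‖w‖) * a ≤ l ^ c / 2) :
    ‖trL i ((E : ℂ) + z) ((l : ℂ) + w)‖ ≤ 2 * a / l ^ c := by
  have hlc : 0 < l ^ c := by positivity
  set r : ℝ := l ^ c / (2 * a) with hr
  have hr0 : 0 < r := by positivity
  have hra : r * a = l ^ c / 2 := by rw [hr]; field_simp
  set f : ℂ → ℂ := fun ζ => tr i ((E : ℂ) + z) ζ - ((tr i E l : ℝ) : ℂ) with hf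
  have hd : ∀ ζ : ℂ, HasDerivAt f (trL i ((E : ℂ) + z) ζ) ζ := fun ζ =>
    (hasDerivAt_tr_L i ((E : ℂ) + z) ζ).sub_const _
  have hdiff : Differentiable ℂ f := fun ζ => (hd ζ).differentiableAt
  have hb : ∀ ζ ∈ Metric.sphere ((l : ℂ) + w) r, ‖f ζ‖ ≤ 1 := by
    intro ζ hζ
    rw [mem_sphere_iff_norm] at hζ
    have e1 : (l : ℂ) + (w + (ζ - ((l : ℂ) + w))) = ζ := by ring
    have hn : ‖w + (ζ - ((l : ℂ) + w))‖ ≤ ‖w‖ + r := by
      refine (norm_add_le _ _).trans ?_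
      rw [hζ]
    have h1 : (‖z‖ + ‖w + (ζ - ((l : ℂ) + w))‖) * a ≤ l ^ c := by
      have h2 : (‖z‖ + ‖w + (ζ - ((l : ℂ) + w))‖) * a ≤ (‖z‖ + (‖w‖ + r)) * a :=
        mul_le_mul_of_nonneg_right (by linarith) ha.le
      nlinarith
    have h3 := HS z _ h1
    rw [e1] at h3
    have h4 : l ^ c * ‖f ζ‖ ≤ l ^ c * 1 := by
      rw [mul_one]; exact h3.trans h1
    exact le_of_mul_le_mul_left h4 hlc
  have h5 := Complex.norm_deriv_le_of_forall_mem_sphere_norm_le hr0 hdiff.diffContOnCl hb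
  rw [(hd _).deriv] at h5
  refine h5.trans (le_of_eq ?_)
  rw [hr]; field_simp

/-! ### bounds for the algebraic quantities -/

theorem g_size {a b c : ℂ} (ha : ‖a‖ ≤ 3) (hb : ‖b‖ ≤ 3) (hc : ‖c‖ ≤ 3) : ‖a - b * c‖ ≤ 12 := by
  have h1 := norm_sub_le a (b * c)
  rw [norm_mul] at h1
  have h2 : ‖b‖ * ‖c‖ ≤ 3 * 3 := mul_le_mul hb hc (norm_nonneg _) (by norm_num)
  linarith

theorem c_size {a b c d : ℂ} {ρ : ℝ} (ha : ‖a‖ ≤ ρ) (hb : ‖b‖ ≤ 12) (hc : ‖c‖ ≤ ρ)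
    (hd : ‖d‖ ≤ 12) : ‖a * b - c * d‖ ≤ 24 * ρ := by
  have hρ : 0 ≤ ρ := (norm_nonneg _).trans ha
  have h1 := norm_sub_le (a * b) (c * d)
  rw [norm_mul, norm_mul] at h1
  have h2 : ‖a‖ * ‖b‖ ≤ ρ * 12 := mul_le_mul ha hb (norm_nonneg _) hρ
  have h3 : ‖c‖ * ‖d‖ ≤ ρ * 12 := mul_le_mul hc hd (norm_nonneg _) hρ
  linarith

theorem t_size {a b c : ℂ} {ρ : ℝ} (ha : ‖a‖ ≤ 24 * ρ) (hb : ‖b‖ ≤ 3) (hc : ‖c‖ ≤ 24 * ρ) :
    ‖a + 2 * b * c‖ ≤ 168 * ρ := by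
  have h1 := norm_add_le a (2 * b * c)
  rw [norm_mul, norm_mul, Complex.norm_ofNat] at h1
  have h2 : ‖b‖ * ‖c‖ ≤ 3 * (24 * ρ) := mul_le_mul hb hc (norm_nonneg _) (by norm_num)
  nlinarith

theorem S_size {u v w a b c : ℂ} {ρ : ℝ} (hu : ‖u‖ ≤ 12) (hv : ‖v‖ ≤ 12) (hw : ‖w‖ ≤ 12)
    (ha : ‖a‖ ≤ 168 * ρ) (hb : ‖b‖ ≤ 168 * ρ) (hc : ‖c‖ ≤ 24 * ρ) :
    ‖u * a + v * b - w * c‖ ≤ 4320 * ρ := by
  have h1 := norm_sub_le (u * a + v * b) (w * c)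
  have h2 := norm_add_le (u * a) (v * b)
  rw [norm_mul] at h1
  rw [norm_mul, norm_mul] at h2
  have h3 : ‖u‖ * ‖a‖ ≤ 12 * (168 * ρ) := mul_le_mul hu ha (norm_nonneg _) (by norm_num)
  have h4 : ‖v‖ * ‖b‖ ≤ 12 * (168 * ρ) := mul_le_mul hv hb (norm_nonneg _) (by norm_num)
  have h5 : ‖w‖ * ‖c‖ ≤ 12 * (24 * ρ) := mul_le_mul hw hc (norm_nonneg _) (by norm_num)
  linarith

theorem sizes (j : ℕ) (P Q : ℂ) (ρ : ℝ) (hx : ∀ i, j ≤ i → i ≤ j + 2 → ‖tr i P Q‖ ≤ 3)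
    (hr : ∀ i, j ≤ i → i ≤ j + 2 → ‖trE i P Q‖ ≤ ρ) :
    (‖g1 j P Q‖ ≤ 12 ∧ ‖g2 j P Q‖ ≤ 12 ∧ ‖g3 j P Q‖ ≤ 12) ∧
    (‖c1 j P Q‖ ≤ 24 * ρ ∧ ‖c2 j P Q‖ ≤ 24 * ρ ∧ ‖c3 j P Q‖ ≤ 24 * ρ) := by
  have x0 := hx j le_rfl (by omega)
  have x1 := hx (j + 1) (by omega) (by omega)
  have x2 := hx (j + 2) (by omega) (by omega)
  have r0 := hr j le_rfl (by omega)
  have r1 := hr (j + 1) (by omega) (by omega)
  have r2 := hr (j + 2) (by omega) (by omega)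
  have h1 : ‖g1 j P Q‖ ≤ 12 := g_size x0 x1 x2
  have h2 : ‖g2 j P Q‖ ≤ 12 := g_size x1 x0 x2
  have h3 : ‖g3 j P Q‖ ≤ 12 := g_size x2 x0 x1
  exact ⟨⟨h1, h2, h3⟩, c_size r1 h3 r2 h2, c_size r2 h1 r0 h3, c_size r0 h2 r1 h1⟩

/-- one step of the recursion of `|Y_j| = ‖DD j‖ / ‖GG j‖` -/
theorem y_step (j : ℕ) (P Q : ℂ) (ρ l : ℝ) (hl : 0 < l)
    (hx : ∀ i, j ≤ i → i ≤ j + 3 → ‖tr i P Q‖ ≤ 3)
    (hr : ∀ i, j ≤ i → i ≤ j + 2 → ‖trE i P Q‖ ≤ ρ) (hQ : ‖Q‖ ≤ 1)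
    (hG0 : l ^ 2 / 8 ≤ ‖GG j P Q‖) (hG1 : l ^ 2 / 8 ≤ ‖GG (j + 1) P Q‖) :
    ‖DD (j + 1) P Q‖ / ‖GG (j + 1) P Q‖ ≤ ‖DD j P Q‖ / ‖GG j P Q‖ + 69120 * ρ / l ^ 4 := by
  have hρ : 0 ≤ ρ := (norm_nonneg _).trans (hr j le_rfl (by omega))
  obtain ⟨⟨a1, a2, a3⟩, b1, b2, b3⟩ := sizes j P Q ρ (fun i h1 h2 => hx i h1 (by omega)) hr
  have x1 := hx (j + 1) (by omega) (by omega)
  have x2 := hx (j + 2) (by omega) (by omega)
  have x3 := hx (j + 3) (by omega) (by omega)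
  have d1 : ‖g1 (j + 1) P Q‖ ≤ 12 := g_size x1 x2 x3
  have d2 : ‖g2 (j + 1) P Q‖ ≤ 12 := g_size x2 x1 x3
  have d3 : ‖g3 (j + 1) P Q‖ ≤ 12 := g_size x3 x1 x2
  have hS : ‖SSj j P Q‖ ≤ 4320 * ρ := S_size d1 d2 d3 (t_size b2 x2 b1) (t_size b3 x1 b1) b1
  have hst := step j P Q
  have hL : 0 < l ^ 2 / 8 := by positivity
  have hg0 : 0 < ‖GG j P Q‖ := lt_of_lt_of_le hL hG0
  have hg1 : 0 < ‖GG (j + 1) P Q‖ := lt_of_lt_of_le hL hG1
  have e1 : DD (j + 1) P Q * GG j P Q = -(DD j P Q * GG (j + 1) P Q + Q / 4 * SSj j P Q) := by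
    linear_combination hst
  have e2 : ‖DD (j + 1) P Q‖ * ‖GG j P Q‖ ≤ ‖DD j P Q‖ * ‖GG (j + 1) P Q‖ + 1080 * ρ := by
    rw [← norm_mul, e1, norm_neg]
    refine (norm_add_le _ _).trans ?_
    rw [norm_mul, norm_mul, norm_div, Complex.norm_ofNat]
    have : ‖Q‖ / 4 * ‖SSj j P Q‖ ≤ 1 / 4 * (4320 * ρ) :=
      mul_le_mul (by linarith) hS (norm_nonneg _) (by norm_num)
    linarith
  have e3 : l ^ 4 / 64 ≤ ‖GG j P Q‖ * ‖GG (j + 1) P Q‖ := by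
    have := mul_le_mul hG0 hG1 hL.le hg0.le
    calc l ^ 4 / 64 = l ^ 2 / 8 * (l ^ 2 / 8) := by ring
      _ ≤ _ := this
  have e4 : ‖DD (j + 1) P Q‖ / ‖GG (j + 1) P Q‖ =
      ‖DD (j + 1) P Q‖ * ‖GG j P Q‖ / (‖GG j P Q‖ * ‖GG (j + 1) P Q‖) := by
    field_simp
  have e5 : ‖DD j P Q‖ / ‖GG j P Q‖ =
      ‖DD j P Q‖ * ‖GG (j + 1) P Q‖ / (‖GG j P Q‖ * ‖GG (j + 1) P Q‖) := by
    field_simp
  have e6 : 1080 * ρ / (‖GG j P Q‖ * ‖GG (j + 1) P Q‖) ≤ 69120 * ρ / l ^ 4 := by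
    have h1 : 1080 * ρ / (‖GG j P Q‖ * ‖GG (j + 1) P Q‖) ≤ 1080 * ρ / (l ^ 4 / 64) :=
      div_le_div_of_nonneg_left (by positivity) (by positivity) e3
    refine h1.trans (le_of_eq ?_)
    field_simp
    ring
  rw [e4, e5]
  have e7 := div_le_div_of_nonneg_right e2 (mul_pos hg0 hg1).le
  rw [add_div] at e7
  linarith

/-- bound of `N_j` by `|Y_j|` and `|R_j|` -/
theorem n_bound (j : ℕ) (P Q : ℂ) (ρ l : ℝ) (hl : 0 < l)
    (hx : ∀ i, j ≤ i → i ≤ j + 2 → ‖tr i P Q‖ ≤ 3)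
    (hr : ∀ i, j ≤ i → i ≤ j + 2 → ‖trE i P Q‖ ≤ ρ) (hQ : ‖Q‖ ≤ 1)
    (hG0 : l ^ 2 / 8 ≤ ‖GG j P Q‖) :
    ‖n1 j P Q‖ + ‖n2 j P Q‖ + ‖n3 j P Q‖ ≤
      3 * (12 * (‖DD j P Q‖ / ‖GG j P Q‖) + 48 * ρ / l ^ 2) := by
  have hρ : 0 ≤ ρ := (norm_nonneg _).trans (hr j le_rfl (by omega))
  obtain ⟨⟨a1, a2, a3⟩, b1, b2, b3⟩ := sizes j P Q ρ hx hr
  have hL : 0 < l ^ 2 / 8 := by positivity
  have hg0 : 0 < ‖GG j P Q‖ := lt_of_lt_of_le hL hG0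
  have key : ∀ (N g c : ℂ), GG j P Q * N = DD j P Q * g + Q / 4 * c → ‖g‖ ≤ 12 →
      ‖c‖ ≤ 24 * ρ → ‖N‖ ≤ 12 * (‖DD j P Q‖ / ‖GG j P Q‖) + 48 * ρ / l ^ 2 := by
    intro N g c hN hg hc
    have h1 : ‖GG j P Q‖ * ‖N‖ ≤ ‖DD j P Q‖ * 12 + 6 * ρ := by
      rw [← norm_mul, hN]
      refine (norm_add_le _ _).trans ?_
      rw [norm_mul, norm_mul, norm_div, Complex.norm_ofNat]
      have h2 : ‖Q‖ / 4 * ‖c‖ ≤ 1 / 4 * (24 * ρ) :=
        mul_le_mul (by linarith) hc (norm_nonneg _) (by norm_num)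
      have h3 : ‖DD j P Q‖ * ‖g‖ ≤ ‖DD j P Q‖ * 12 :=
        mul_le_mul_of_nonneg_left hg (norm_nonneg _)
      linarith
    have h4 : ‖N‖ ≤ (‖DD j P Q‖ * 12 + 6 * ρ) / ‖GG j P Q‖ := by
      rw [le_div_iff₀ hg0, mul_comm]; exact h1
    refine h4.trans ?_
    rw [add_div]
    have h5 : 6 * ρ / ‖GG j P Q‖ ≤ 6 * ρ / (l ^ 2 / 8) :=
      div_le_div_of_nonneg_left (by positivity) hL hG0
    have h6 : 6 * ρ / (l ^ 2 / 8) = 48 * ρ / l ^ 2 := by field_simp; ring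
    have h7 : ‖DD j P Q‖ * 12 / ‖GG j P Q‖ = 12 * (‖DD j P Q‖ / ‖GG j P Q‖) := by ring
    linarith
  have k1 := key _ _ _ (id1 j P Q) a1 b1
  have k2 := key _ _ _ (id2 j P Q) a2 b2
  have k3 := key _ _ _ (id3 j P Q) a3 b3
  linarith

theorem ph_gt : (8 / 5 : ℝ) < ph := by
  have h : (2.2 : ℝ) < √5 := by
    rw [show (2.2 : ℝ) = √(2.2 ^ 2) by rw [Real.sqrt_sq (by norm_num)]]
    exact Real.sqrt_lt_sqrt (by norm_num) (by norm_num)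
  unfold ph
  linarith

theorem rho_zero (E l : ℝ) : rho 0 E l = 1 / 2 := by
  unfold rho
  simp only [trE_zero, zero_add, trE_one, trE_two, abs_zero]
  rw [abs_of_pos (by norm_num : (0 : ℝ) < 1 / 2), max_self]
  norm_num

end N1

open N1 in
theorem nCrude (h : SLall) (hG : GrLow) (hR : RhoRatio) : NCrude := by
  obtain ⟨C1, h⟩ := h
  obtain ⟨C2, hG⟩ := hG
  refine ⟨C1 + C2 + 40, fun n E l hl hl8 hCr z w hzw => ?_⟩
  have hl1 : l ≤ 1 := by linarith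
  have hph := ph_gt
  have hph0 : 0 < ph := by linarith
  have hOk : Okl l l := ⟨hl, hl8, hl, by linarith⟩
  have hND : ∀ j ≤ n, ND l j E l := fun j hj => Or.inl ⟨rfl, hCr j hj⟩
  have hs0 : 0 ≤ ‖z‖ + ‖w‖ := by positivity
  -- growth
  have hgr : ∀ i j, i ≤ j → j ≤ n → l ^ C2 * ph ^ (j - i) * rho i E l ≤ rho j E l :=
    fun i j hij hj => hG i j E l l hOk hij (hND i (hij.trans hj)) (hND j hj)
  have hpos : ∀ j ≤ n, 0 < rho j E l := by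
    intro j hj
    refine lt_of_lt_of_le ?_ (hgr 0 j (Nat.zero_le _) hj)
    rw [rho_zero]; positivity
  set a : ℝ := rho n E l with ha
  have ha0 : 0 < a := hpos n le_rfl
  -- the comparison of the radii
  have hrj : ∀ j ≤ n, l ^ C2 * rho j E l ≤ a := by
    intro j hj
    refine le_trans ?_ (hgr j n hj le_rfl)
    have h1 : (1 : ℝ) ≤ ph ^ (n - j) := one_le_pow₀ (by linarith)
    have h2 : 0 < l ^ C2 * rho j E l := mul_pos (by positivity) (hpos j hj)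
    nlinarith
  have hdisc : ∀ j ≤ n, (‖z‖ + ‖w‖) * rho j E l ≤ l ^ (C1 + 40) := by
    intro j hj
    have h1 := mul_le_mul_of_nonneg_left (hrj j hj) hs0
    have h2 : l ^ C2 * ((‖z‖ + ‖w‖) * rho j E l) ≤ l ^ C2 * l ^ (C1 + 40) := by
      rw [← pow_add, show C2 + (C1 + 40) = C1 + C2 + 40 by ring]
      linarith
    exact le_of_mul_le_mul_left h2 (by positivity)
  have hl40 : l ^ 40 ≤ l ^ 6 := pow_le_pow_of_le_one hl.le hl1 (by norm_num)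
  have hl6 : l ^ 6 ≤ 1 / 2 := by
    have : l ^ 6 ≤ (1 / 8) ^ 6 := pow_le_pow_left₀ hl.le hl8 6
    linarith [show ((1 / 8 : ℝ)) ^ 6 ≤ 1 / 2 by norm_num]
  have hpow : l ^ (C1 + 40) ≤ l ^ C1 / 2 := by
    rw [pow_add]
    have : l ^ C1 * l ^ 40 ≤ l ^ C1 * (1 / 2) :=
      mul_le_mul_of_nonneg_left (hl40.trans hl6) (by positivity)
    linarith
  have hpow' : l ^ C1 / 2 ≤ l ^ C1 := by
    have : 0 < l ^ C1 := by positivity
    linarith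
  set P : ℂ := (E : ℂ) + z with hP
  set Q : ℂ := (l : ℂ) + w with hQ
  -- traces
  have hreal : ∀ i ≤ n + 8, |tr i E l| ≤ 2 := by
    intro i hi
    rcases le_total i n with h1 | h1
    · exact (hCr i h1).1 i le_rfl (by omega)
    · exact (hCr n le_rfl).1 i h1 hi
  have htr : ∀ i ≤ n + 8, ‖tr i P Q - ((tr i E l : ℝ) : ℂ)‖ ≤ l ^ 6 := by
    intro i hi
    have h1 := h n E l hl hl8 hCr z w (((hdisc n le_rfl).trans hpow).trans hpow') i hi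
    have h2 : l ^ C1 * ‖tr i P Q - ((tr i E l : ℝ) : ℂ)‖ ≤ l ^ C1 * l ^ 40 := by
      rw [← pow_add]; exact h1.trans (hdisc n le_rfl)
    exact (le_of_mul_le_mul_left h2 (by positivity)).trans hl40
  have hx : ∀ i ≤ n + 8, ‖tr i P Q‖ ≤ 3 := by
    intro i hi
    have h1 := norm_sub_norm_le (tr i P Q) ((tr i E l : ℝ) : ℂ)
    rw [Complex.norm_real] at h1
    have h2 := hreal i hi
    rw [← Real.norm_eq_abs] at h2
    linarith [htr i hi]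
  have hGG : ∀ j ≤ n, l ^ 2 / 8 ≤ ‖GG j P Q‖ := by
    intro j hj
    refine GG_cplx j E l P Q (l ^ 6) (by positivity) (by linarith)
      (fun i _ h2 => hreal i (by omega)) (fun i _ h2 => htr i (by omega)) ?_
    have h1 : l ^ 4 ≤ (1 / 8) ^ 4 := pow_le_pow_left₀ hl.le hl8 4
    have h2 : l ^ 6 = l ^ 4 * l ^ 2 := by ring
    have h3 : 0 < l ^ 2 := by positivity
    have h4 : l ^ 4 * l ^ 2 ≤ (1 / 8) ^ 4 * l ^ 2 := mul_le_mul_of_nonneg_right h1 h3.le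
    rw [h2]
    norm_num at h4
    linarith
  have hderiv : ∀ j ≤ n, ∀ i ≤ j + 8, ‖trE i P Q‖ ≤ 2 * rho j E l / l ^ C1 := by
    intro j hj i hi
    exact cauchy_E hl (hpos j hj)
      (fun z' w' hz' => h j E l hl hl8 (fun k hk => hCr k (hk.trans hj)) z' w' hz' i hi) z w
      ((hdisc j hj).trans hpow)
  -- norm of Q
  have hQ1 : ‖Q‖ ≤ 1 := by
    have h1 : ‖Q‖ ≤ l + ‖w‖ := by
      rw [hQ]
      refine (norm_add_le _ _).trans ?_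
      rw [Complex.norm_real, Real.norm_eq_abs, abs_of_pos hl]
    have h2 := hdisc 0 (Nat.zero_le _)
    rw [rho_zero] at h2
    have h3 : l ^ (C1 + 40) ≤ l ^ 6 := pow_le_pow_of_le_one hl.le hl1 (by omega)
    have h4 : l ^ 6 ≤ (1 / 8) ^ 6 := pow_le_pow_left₀ hl.le hl8 6
    have h5 : ‖w‖ ≤ 1 / 2 := by
      have := norm_nonneg z
      norm_num at h4
      linarith
    linarith
  -- the quantities with q = 1/l
  set q : ℝ := l⁻¹ with hq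
  have hq8 : 8 ≤ q := by
    rw [hq]
    have := inv_anti₀ hl hl8
    norm_num at this
    exact this
  have hq0 : 0 < q := by linarith
  have hlq : l * q = 1 := by rw [hq]; exact mul_inv_cancel₀ hl.ne'
  have hlqp : ∀ k : ℕ, l ^ k * q ^ k = 1 := fun k => by rw [← mul_pow, hlq, one_pow]
  have hdiv : ∀ (x : ℝ) (k : ℕ), x / l ^ k = x * q ^ k := by
    intro x k
    rw [hq, inv_pow, div_eq_mul_inv]
  have hrho : ∀ j ≤ n, rho j E l * ph ^ n ≤ q ^ C2 * (a * ph ^ j) := by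
    intro j hj
    have h1 := hgr j n hj le_rfl
    have h2 : ph ^ n = ph ^ (n - j) * ph ^ j := by rw [← pow_add, Nat.sub_add_cancel hj]
    have h3 : rho j E l * ph ^ n = q ^ C2 * ((l ^ C2 * ph ^ (n - j) * rho j E l) * ph ^ j) := by
      rw [h2]
      linear_combination (-(rho j E l * (ph ^ (n - j) * ph ^ j))) * hlqp C2
    rw [h3]
    exact mul_le_mul_of_nonneg_left (mul_le_mul_of_nonneg_right h1 (by positivity)) (by positivity)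
  -- main induction
  have hy : ∀ j ≤ n, ‖DD j P Q‖ / ‖GG j P Q‖ * ph ^ n ≤ q ^ (12 + C1 + C2) * (a * ph ^ j) := by
    intro j
    induction j with
    | zero =>
      intro _
      have hD : DD 0 P Q = -(g1 0 P Q) / 4 := by
        unfold DD n1 n2 n3
        simp only [zero_add, trE_zero, trE_one, trE_two, trL_zero, trL_one, trL_two]
        ring
      have hg : ‖g1 0 P Q‖ ≤ 12 := g_size (hx 0 (by omega)) (hx 1 (by omega)) (hx 2 (by omega))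
      have hD' : ‖DD 0 P Q‖ ≤ 3 := by
        rw [hD, norm_div, norm_neg, Complex.norm_ofNat]; linarith
      have hG0 := hGG 0 (Nat.zero_le _)
      have hL : 0 < l ^ 2 / 8 := by positivity
      have h1 : ‖DD 0 P Q‖ / ‖GG 0 P Q‖ ≤ 24 * q ^ 2 := by
        have h2 : ‖DD 0 P Q‖ / ‖GG 0 P Q‖ ≤ 3 / (l ^ 2 / 8) :=
          div_le_div₀ (by norm_num) hD' hL hG0
        refine h2.trans (le_of_eq ?_)
        rw [← hdiv]
        field_simp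
        norm_num
      have h3 := hrho 0 (Nat.zero_le _)
      rw [rho_zero] at h3
      have h4 : ‖DD 0 P Q‖ / ‖GG 0 P Q‖ * ph ^ n ≤ 24 * q ^ 2 * ph ^ n :=
        mul_le_mul_of_nonneg_right h1 (by positivity)
      have h5 : 24 * q ^ 2 * ph ^ n ≤ 48 * q ^ 2 * (q ^ C2 * (a * ph ^ 0)) := by
        have := mul_le_mul_of_nonneg_left h3 (show (0 : ℝ) ≤ 48 * q ^ 2 by positivity)
        linarith
      have h6 : 48 * q ^ 2 * q ^ C2 ≤ q ^ (12 + C1 + C2) := by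
        have e : q ^ (12 + C1 + C2) = q ^ (10 + C1) * q ^ 2 * q ^ C2 := by
          rw [← pow_add, ← pow_add]; congr 1; ring
        rw [e]
        have : (48 : ℝ) ≤ q ^ (10 + C1) := by
          have h7 : (8 : ℝ) ^ 2 ≤ q ^ (10 + C1) := by
            calc (8 : ℝ) ^ 2 ≤ q ^ 2 := pow_le_pow_left₀ (by norm_num) hq8 2
              _ ≤ q ^ (10 + C1) := pow_le_pow_right₀ (by linarith) (by omega)
          linarith
        exact mul_le_mul_of_nonneg_right (mul_le_mul_of_nonneg_right this (by positivity))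
          (by positivity)
      have h7 := mul_le_mul_of_nonneg_right h6 (show 0 ≤ a * ph ^ 0 by positivity)
      nlinarith
    | succ j ih =>
      intro hj
      have hj' : j ≤ n := by omega
      have ih := ih hj'
      have hst := y_step j P Q (2 * rho j E l / l ^ C1) l hl (fun i _ h2 => hx i (by omega))
        (fun i _ h2 => hderiv j hj' i (by omega)) hQ1 (hGG j hj') (hGG (j + 1) hj)
      rw [hdiv, hdiv] at hst
      have h1 := mul_le_mul_of_nonneg_right hst (show 0 ≤ ph ^ n by positivity)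
      rw [add_mul] at h1
      have h2 := hrho j hj'
      have h3 : 69120 * (2 * rho j E l * q ^ C1) * q ^ 4 * ph ^ n ≤
          q ^ (11 + C1 + C2) * (a * ph ^ j) := by
        have e1 : 69120 * (2 * rho j E l * q ^ C1) * q ^ 4 * ph ^ n =
            138240 * (q ^ C1 * q ^ 4) * (rho j E l * ph ^ n) := by ring
        have e2 : q ^ (11 + C1 + C2) = q ^ 7 * (q ^ C1 * q ^ 4) * q ^ C2 := by
          rw [← pow_add, ← pow_add, ← pow_add]; congr 1; ring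
        rw [e1, e2]
        have h4 : (138240 : ℝ) ≤ q ^ 7 := by
          have h5 : (8 : ℝ) ^ 7 ≤ q ^ 7 := pow_le_pow_left₀ (by norm_num) hq8 7
          linarith [show (138240 : ℝ) ≤ 8 ^ 7 by norm_num]
        calc 138240 * (q ^ C1 * q ^ 4) * (rho j E l * ph ^ n)
            ≤ 138240 * (q ^ C1 * q ^ 4) * (q ^ C2 * (a * ph ^ j)) :=
              mul_le_mul_of_nonneg_left h2 (by positivity)
          _ ≤ q ^ 7 * (q ^ C1 * q ^ 4) * (q ^ C2 * (a * ph ^ j)) := by gcongr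
          _ = _ := by ring
      have h6 : q ^ (11 + C1 + C2) * (a * ph ^ j) ≤ 1 / 8 * (q ^ (12 + C1 + C2) * (a * ph ^ j)) := by
        have e : q ^ (12 + C1 + C2) = q * q ^ (11 + C1 + C2) := by
          rw [← pow_succ']; congr 1; ring
        rw [e]
        have h7 : 0 ≤ q ^ (11 + C1 + C2) * (a * ph ^ j) := by positivity
        nlinarith
      have h8 : 9 / 8 * (q ^ (12 + C1 + C2) * (a * ph ^ j)) ≤
          q ^ (12 + C1 + C2) * (a * ph ^ (j + 1)) := by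
        have h9 : 0 ≤ q ^ (12 + C1 + C2) * (a * ph ^ j) := by positivity
        have e : q ^ (12 + C1 + C2) * (a * ph ^ (j + 1)) =
            ph * (q ^ (12 + C1 + C2) * (a * ph ^ j)) := by rw [pow_succ]; ring
        rw [e]
        exact mul_le_mul_of_nonneg_right (by linarith) h9
      linarith
  -- conclusion
  have hyn : ‖DD n P Q‖ / ‖GG n P Q‖ ≤ q ^ (12 + C1 + C2) * a := by
    have h1 := hy n le_rfl
    rw [← mul_assoc] at h1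
    exact le_of_mul_le_mul_right h1 (by positivity)
  have hfin := n_bound n P Q (2 * rho n E l / l ^ C1) l hl (fun i _ h2 => hx i (by omega))
    (fun i _ h2 => hderiv n le_rfl i (by omega)) hQ1 (hGG n le_rfl)
  have hNB : NB n P Q = ‖n1 n P Q‖ + ‖n2 n P Q‖ + ‖n3 n P Q‖ := rfl
  rw [hNB]
  rw [hdiv, hdiv, ← ha] at hfin
  have hb1 : ‖n1 n P Q‖ + ‖n2 n P Q‖ + ‖n3 n P Q‖ ≤ q ^ (15 + C1 + C2) * a := by
    have e1 : q ^ (15 + C1 + C2) = q ^ 3 * q ^ (12 + C1 + C2) := by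
      rw [← pow_add]; congr 1; ring
    have h3 : (512 : ℝ) ≤ q ^ 3 := by
      have := pow_le_pow_left₀ (by norm_num) hq8 3
      linarith [show (512 : ℝ) = 8 ^ 3 by norm_num]
    have h4 : q ^ C1 * q ^ 2 ≤ q ^ (12 + C1 + C2) := by
      rw [← pow_add]
      exact pow_le_pow_right₀ (by linarith) (by omega)
    have h5 : 0 < q ^ (12 + C1 + C2) := by positivity
    have h6 := mul_le_mul_of_nonneg_right h4 ha0.le
    have h7 : 0 ≤ q ^ (12 + C1 + C2) * a := by positivity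
    rw [e1]
    nlinarith
  calc l ^ (C1 + C2 + 40) * (‖n1 n P Q‖ + ‖n2 n P Q‖ + ‖n3 n P Q‖)
      ≤ l ^ (C1 + C2 + 40) * (q ^ (15 + C1 + C2) * a) :=
        mul_le_mul_of_nonneg_left hb1 (by positivity)
    _ = l ^ 25 * (l ^ (15 + C1 + C2) * q ^ (15 + C1 + C2)) * a := by
        rw [show C1 + C2 + 40 = 25 + (15 + C1 + C2) by ring, pow_add]; ring
    _ ≤ a := by
        rw [hlqp, mul_one]
        have : l ^ 25 ≤ 1 := pow_le_one₀ hl.le hl1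
        nlinarith

end FIB
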