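import Pool.Agent.Helper75.FIB.Iface3
import Pool.Agent.Helper75.FIB.N1

/-!
# FIB block N2 : typical bound for R_m x B_m

Notation and algebra as in block N1 (`R_j, B_j, N_j = R_j × B_j`, half gradients `g_j`, `N_{j+1} = -T_j N_j`, `g_{j+1} = T_j g_j`, `N_j = Y_j g_j + (l/4)(R_j × g_j)/(g_j·g_j)`), here only `z` is complex (`λ = l` real).
Window `[m-L, m+8]` typical at the real `E`, `|z| rho m <= θ^C`. For `j ∈ [m-L,m]`: `SLoc` (`ε = θ`, level `j`, `Ty θ j`) and `GrLow` (`ε = θ`: `rho j <= θ^{-C'} φ^{-(m-j)} rho m`): `|x_i(E+z) - x_i(E)| <= θ^4`, `i ∈ [j,j+8]`; so all `x_i(E+z)` of the window are bounded by 2; real `(g_j^3)^2 = (1-x_j^2)(1-x_{j+1}^2) + l^2/4 >= θ^4`, so `|g_j·g_j| >= θ^4/2` at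
the complex point (perturb: a smaller bound `θ^{8}` for the perturbation of `x_i` is available by enlarging `C`). `|R_j(E+z)| <= θ^{-C'} rho j` (Cauchy). Hence `|Y_{j+1} + Y_j| <= l θ^{-C'} (rho j + rho (j+1))` for `m-L <= j < m`.
START: `|Y_{m-L}| <= |N_{m-L}| |g|/|g·g| <= l^{-C'} rho (m-L)` by `NCrude` at level `m-L` (`w = 0`; `|z| rho(m-L) <= l^{-C'} φ^{-L} |z| rho m <= l^{C''}` since `φ^L >= (1/l)^C`). And `rho (m-L) <= l^{-C'} φ^{-L} rho m <= l^{C'''} rho m` (GrLow, `ε = l`, `Cr j` for all `j <= m`). So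
`|Y_m| <= l^2 rho m + sum_{j} l θ^{-C'} (rho j + rho (j+1)) <= l θ^{-C''} rho m` (geometric sum), `|N_m| <= l θ^{-C} rho m`.
-/

namespace FIB

open Real MeasureTheory Set Filter Topology

namespace N2

open N1

/-- Cauchy estimate with a general constant `κ` instead of a power of `l` -/
theorem cauchy2 {i : ℕ} {E l a κ : ℝ} (hκ : 0 < κ) (ha : 0 < a)
    (HS : ∀ z : ℂ, ‖z‖ * a ≤ κ →
      κ * ‖tr i ((E : ℂ) + z) (l : ℂ) - ((tr i E l : ℝ) : ℂ)‖ ≤ ‖z‖ * a)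
    (z : ℂ) (hz : ‖z‖ * a ≤ κ / 2) :
    ‖trE i ((E : ℂ) + z) (l : ℂ)‖ ≤ 2 * a / κ := by
  set r : ℝ := κ / (2 * a) with hr
  have hr0 : 0 < r := by positivity
  have hra : r * a = κ / 2 := by rw [hr]; field_simp
  set f : ℂ → ℂ := fun ζ => tr i ζ (l : ℂ) - ((tr i E l : ℝ) : ℂ) with hf
  have hd : ∀ ζ : ℂ, HasDerivAt f (trE i ζ (l : ℂ)) ζ := fun ζ =>
    (hasDerivAt_tr_E i ζ (l : ℂ)).sub_const _
  have hdiff : Differentiable ℂ f := fun ζ => (hd ζ).differentiableAt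
  have hb : ∀ ζ ∈ Metric.sphere ((E : ℂ) + z) r, ‖f ζ‖ ≤ 1 := by
    intro ζ hζ
    rw [mem_sphere_iff_norm] at hζ
    have e1 : (E : ℂ) + (z + (ζ - ((E : ℂ) + z))) = ζ := by ring
    have hn : ‖z + (ζ - ((E : ℂ) + z))‖ ≤ ‖z‖ + r := by
      refine (norm_add_le _ _).trans ?_
      rw [hζ]
    have h1 : ‖z + (ζ - ((E : ℂ) + z))‖ * a ≤ κ := by
      have h2 : ‖z + (ζ - ((E : ℂ) + z))‖ * a ≤ (‖z‖ + r) * a :=
        mul_le_mul_of_nonneg_right hn ha.le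
      nlinarith
    have h3 := HS _ h1
    rw [e1] at h3
    have h4 : κ * ‖f ζ‖ ≤ κ * 1 := by
      rw [mul_one]; exact h3.trans h1
    exact le_of_mul_le_mul_left h4 hκ
  have h5 := Complex.norm_deriv_le_of_forall_mem_sphere_norm_le hr0 hdiff.diffContOnCl hb
  rw [(hd _).deriv] at h5
  refine h5.trans (le_of_eq ?_)
  rw [hr]; field_simp

/-- lower bound of the half gradient at complex points near a typical point -/
theorem GG_typ (j : ℕ) (E l θ : ℝ) (P Q : ℂ) (δ : ℝ) (hδ0 : 0 ≤ δ) (hδ : δ ≤ 1)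
    (hb : ∀ i, j ≤ i → i ≤ j + 2 → |tr i E l| ≤ 2)
    (ht : ∀ i, j ≤ i → i ≤ j + 2 → θ ^ 2 ≤ 1 - tr i E l ^ 2)
    (hp : ∀ i, j ≤ i → i ≤ j + 2 → ‖tr i P Q - ((tr i E l : ℝ) : ℂ)‖ ≤ δ)
    (hs : 324 * δ ≤ 2 * θ ^ 4) : θ ^ 4 ≤ ‖GG j P Q‖ := by
  have b0 : ‖((tr j E l : ℝ) : ℂ)‖ ≤ 2 := by
    rw [Complex.norm_real]; exact hb j le_rfl (by omega)
  have b1 : ‖((tr (j + 1) E l : ℝ) : ℂ)‖ ≤ 2 := by
    rw [Complex.norm_real]; exact hb (j + 1) (by omega) (by omega)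
  have b2 : ‖((tr (j + 2) E l : ℝ) : ℂ)‖ ≤ 2 := by
    rw [Complex.norm_real]; exact hb (j + 2) (by omega) (by omega)
  have p0 := hp j le_rfl (by omega)
  have p1 := hp (j + 1) (by omega) (by omega)
  have p2 := hp (j + 2) (by omega) (by omega)
  have d1 := comp_pert b1 b2 p0 p1 p2 hδ0 hδ
  have d2 := comp_pert b0 b2 p1 p0 p2 hδ0 hδ
  have d3 := comp_pert b0 b1 p2 p0 p1 hδ0 hδ
  have size : ∀ a b c : ℂ, ‖a‖ ≤ 2 → ‖b‖ ≤ 2 → ‖c‖ ≤ 2 → ‖a - b * c‖ ≤ 6 := by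
    intro a b c ha hb hc
    have h1 := norm_sub_le a (b * c)
    rw [norm_mul] at h1
    have h2 : ‖b‖ * ‖c‖ ≤ 2 * 2 := mul_le_mul hb hc (norm_nonneg _) (by norm_num)
    linarith
  have s1 := sq_pert (size _ _ _ b0 b1 b2) d1 hδ0 hδ
  have s2 := sq_pert (size _ _ _ b1 b0 b2) d2 hδ0 hδ
  have s3 := sq_pert (size _ _ _ b2 b0 b1) d3 hδ0 hδ
  have hreal : ((GG j E l : ℝ) : ℂ) = (((tr j E l : ℝ) : ℂ) - ((tr (j + 1) E l : ℝ) : ℂ) *
      ((tr (j + 2) E l : ℝ) : ℂ)) ^ 2 + (((tr (j + 1) E l : ℝ) : ℂ) - ((tr j E l : ℝ) : ℂ) *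
      ((tr (j + 2) E l : ℝ) : ℂ)) ^ 2 + (((tr (j + 2) E l : ℝ) : ℂ) - ((tr j E l : ℝ) : ℂ) *
      ((tr (j + 1) E l : ℝ) : ℂ)) ^ 2 := by
    unfold GG g1 g2 g3
    push_cast
    ring
  have hdiff : ‖GG j P Q - ((GG j E l : ℝ) : ℂ)‖ ≤ 324 * δ := by
    have e : GG j P Q - ((GG j E l : ℝ) : ℂ) =
      ((tr j P Q - tr (j + 1) P Q * tr (j + 2) P Q) ^ 2 -
        (((tr j E l : ℝ) : ℂ) - ((tr (j + 1) E l : ℝ) : ℂ) * ((tr (j + 2) E l : ℝ) : ℂ)) ^ 2) +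
      ((tr (j + 1) P Q - tr j P Q * tr (j + 2) P Q) ^ 2 -
        (((tr (j + 1) E l : ℝ) : ℂ) - ((tr j E l : ℝ) : ℂ) * ((tr (j + 2) E l : ℝ) : ℂ)) ^ 2) +
      ((tr (j + 2) P Q - tr j P Q * tr (j + 1) P Q) ^ 2 -
        (((tr (j + 2) E l : ℝ) : ℂ) - ((tr j E l : ℝ) : ℂ) * ((tr (j + 1) E l : ℝ) : ℂ)) ^ 2) := by
      rw [hreal]
      unfold GG g1 g2 g3
      ring
    rw [e]
    refine (norm_add₃_le).trans ?_
    linarith
  have h4 := norm_sub_norm_le ((GG j E l : ℝ) : ℂ) (((GG j E l : ℝ) : ℂ) - GG j P Q)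
  have h5 : ((GG j E l : ℝ) : ℂ) - (((GG j E l : ℝ) : ℂ) - GG j P Q) = GG j P Q := by ring
  rw [h5, norm_sub_rev ((GG j E l : ℝ) : ℂ) (GG j P Q), Complex.norm_real] at h4
  have h7 := le_norm_self (GG j E l)
  have i1 := tr_inv_sq j E l
  have i2 := tr_inv_sq' j E l
  have i3 := tr_inv_sq'' j E l
  have e1 : g1 j E l ^ 2 = (1 - tr (j + 1) E l ^ 2) * (1 - tr (j + 2) E l ^ 2) + l ^ 2 / 4 := i3
  have e2 : g2 j E l ^ 2 = (1 - tr j E l ^ 2) * (1 - tr (j + 2) E l ^ 2) + l ^ 2 / 4 := i2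
  have e3 : g3 j E l ^ 2 = (1 - tr j E l ^ 2) * (1 - tr (j + 1) E l ^ 2) + l ^ 2 / 4 := i1
  have t0 := ht j le_rfl (by omega)
  have t1 := ht (j + 1) (by omega) (by omega)
  have t2 := ht (j + 2) (by omega) (by omega)
  have q : 0 ≤ θ ^ 2 := sq_nonneg θ
  have m12 := mul_le_mul t1 t2 q (q.trans t1)
  have m02 := mul_le_mul t0 t2 q (q.trans t0)
  have m01 := mul_le_mul t0 t1 q (q.trans t0)
  have h6 : 3 * θ ^ 4 ≤ GG j E l := by
    unfold GG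
    have : θ ^ 4 = θ ^ 2 * θ ^ 2 := by ring
    rw [e1, e2, e3, this]
    nlinarith [sq_nonneg l]
  linarith

/-- one step of the recursion of `|Y_j| = ‖DD j‖ / ‖GG j‖` -/
theorem y_step2 (j : ℕ) (P Q : ℂ) (ρ γ : ℝ) (hγ : 0 < γ)
    (hx : ∀ i, j ≤ i → i ≤ j + 3 → ‖tr i P Q‖ ≤ 3)
    (hr : ∀ i, j ≤ i → i ≤ j + 2 → ‖trE i P Q‖ ≤ ρ)
    (hG0 : γ ≤ ‖GG j P Q‖) (hG1 : γ ≤ ‖GG (j + 1) P Q‖) :
    ‖DD (j + 1) P Q‖ / ‖GG (j + 1) P Q‖ ≤
      ‖DD j P Q‖ / ‖GG j P Q‖ + 1080 * ρ * ‖Q‖ / γ ^ 2 := by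
  have hρ : 0 ≤ ρ := (norm_nonneg _).trans (hr j le_rfl (by omega))
  obtain ⟨⟨a1, a2, a3⟩, b1, b2, b3⟩ := sizes j P Q ρ (fun i h1 h2 => hx i h1 (by omega)) hr
  have x1 := hx (j + 1) (by omega) (by omega)
  have x2 := hx (j + 2) (by omega) (by omega)
  have x3 := hx (j + 3) (by omega) (by omega)
  have d1 : ‖g1 (j + 1) P Q‖ ≤ 12 := g_size x1 x2 x3
  have d2 : ‖g2 (j + 1) P Q‖ ≤ 12 := g_size x2 x1 x3
  have d3 : ‖g3 (j + 1) P Q‖ ≤ 12 := g_size x3 x1 x2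
  have hS : ‖SSj j P Q‖ ≤ 4320 * ρ := S_size d1 d2 d3 (t_size b2 x2 b1) (t_size b3 x1 b1) b1
  have hst := step j P Q
  have hg0 : 0 < ‖GG j P Q‖ := lt_of_lt_of_le hγ hG0
  have hg1 : 0 < ‖GG (j + 1) P Q‖ := lt_of_lt_of_le hγ hG1
  have e1 : DD (j + 1) P Q * GG j P Q = -(DD j P Q * GG (j + 1) P Q + Q / 4 * SSj j P Q) := by
    linear_combination hst
  have e2 : ‖DD (j + 1) P Q‖ * ‖GG j P Q‖ ≤ ‖DD j P Q‖ * ‖GG (j + 1) P Q‖
      + 1080 * ρ * ‖Q‖ := by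
    rw [← norm_mul, e1, norm_neg]
    refine (norm_add_le _ _).trans ?_
    rw [norm_mul, norm_mul, norm_div, Complex.norm_ofNat]
    have : ‖Q‖ / 4 * ‖SSj j P Q‖ ≤ ‖Q‖ / 4 * (4320 * ρ) :=
      mul_le_mul_of_nonneg_left hS (by positivity)
    linarith
  have e3 : γ ^ 2 ≤ ‖GG j P Q‖ * ‖GG (j + 1) P Q‖ := by
    have := mul_le_mul hG0 hG1 hγ.le hg0.le
    calc γ ^ 2 = γ * γ := by ring
      _ ≤ _ := this
  have e4 : ‖DD (j + 1) P Q‖ / ‖GG (j + 1) P Q‖ =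
      ‖DD (j + 1) P Q‖ * ‖GG j P Q‖ / (‖GG j P Q‖ * ‖GG (j + 1) P Q‖) := by
    field_simp
  have e5 : ‖DD j P Q‖ / ‖GG j P Q‖ =
      ‖DD j P Q‖ * ‖GG (j + 1) P Q‖ / (‖GG j P Q‖ * ‖GG (j + 1) P Q‖) := by
    field_simp
  have e6 : 1080 * ρ * ‖Q‖ / (‖GG j P Q‖ * ‖GG (j + 1) P Q‖) ≤ 1080 * ρ * ‖Q‖ / γ ^ 2 :=
    div_le_div_of_nonneg_left (by positivity) (by positivity) e3
  rw [e4, e5]
  have e7 := div_le_div_of_nonneg_right e2 (mul_pos hg0 hg1).le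
  rw [add_div] at e7
  linarith

/-- bound of `N_j` by `|Y_j|` and `|R_j|` -/
theorem n_bound2 (j : ℕ) (P Q : ℂ) (ρ γ : ℝ) (hγ : 0 < γ)
    (hx : ∀ i, j ≤ i → i ≤ j + 2 → ‖tr i P Q‖ ≤ 3)
    (hr : ∀ i, j ≤ i → i ≤ j + 2 → ‖trE i P Q‖ ≤ ρ)
    (hG0 : γ ≤ ‖GG j P Q‖) :
    ‖n1 j P Q‖ + ‖n2 j P Q‖ + ‖n3 j P Q‖ ≤
      3 * (12 * (‖DD j P Q‖ / ‖GG j P Q‖) + 6 * ρ * ‖Q‖ / γ) := by
  have hρ : 0 ≤ ρ := (norm_nonneg _).trans (hr j le_rfl (by omega))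
  obtain ⟨⟨a1, a2, a3⟩, b1, b2, b3⟩ := sizes j P Q ρ hx hr
  have hg0 : 0 < ‖GG j P Q‖ := lt_of_lt_of_le hγ hG0
  have key : ∀ (N g c : ℂ), GG j P Q * N = DD j P Q * g + Q / 4 * c → ‖g‖ ≤ 12 →
      ‖c‖ ≤ 24 * ρ → ‖N‖ ≤ 12 * (‖DD j P Q‖ / ‖GG j P Q‖) + 6 * ρ * ‖Q‖ / γ := by
    intro N g c hN hg hc
    have h1 : ‖GG j P Q‖ * ‖N‖ ≤ ‖DD j P Q‖ * 12 + 6 * ρ * ‖Q‖ := by
      rw [← norm_mul, hN]
      refine (norm_add_le _ _).trans ?_
      rw [norm_mul, norm_mul, norm_div, Complex.norm_ofNat]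
      have h2 : ‖Q‖ / 4 * ‖c‖ ≤ ‖Q‖ / 4 * (24 * ρ) :=
        mul_le_mul_of_nonneg_left hc (by positivity)
      have h3 : ‖DD j P Q‖ * ‖g‖ ≤ ‖DD j P Q‖ * 12 :=
        mul_le_mul_of_nonneg_left hg (norm_nonneg _)
      linarith
    have h4 : ‖N‖ ≤ (‖DD j P Q‖ * 12 + 6 * ρ * ‖Q‖) / ‖GG j P Q‖ := by
      rw [le_div_iff₀ hg0, mul_comm]; exact h1
    refine h4.trans ?_
    rw [add_div]
    have h5 : 6 * ρ * ‖Q‖ / ‖GG j P Q‖ ≤ 6 * ρ * ‖Q‖ / γ :=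
      div_le_div_of_nonneg_left (by positivity) hγ hG0
    have h7 : ‖DD j P Q‖ * 12 / ‖GG j P Q‖ = 12 * (‖DD j P Q‖ / ‖GG j P Q‖) := by ring
    linarith
  have k1 := key _ _ _ (id1 j P Q) a1 b1
  have k2 := key _ _ _ (id2 j P Q) a2 b2
  have k3 := key _ _ _ (id3 j P Q) a3 b3
  linarith

end N2

open N1 N2 in
theorem nTyp (hN : NCrude) (hS : SLoc) (hG : GrLow) (hR : RhoRatio) : NTyp := by
  obtain ⟨C1, hS⟩ := hS
  obtain ⟨C2, hG⟩ := hG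
  obtain ⟨C3, hN⟩ := hN
  refine ⟨C1 + C2 + C3 + 40, fun m L E l θ hOk hLm hCr hTw z hz => ?_⟩
  obtain ⟨hθ, hCθ, hl, hlθ, hlL, hLθ⟩ := hOk
  set C : ℕ := C1 + C2 + C3 + 40 with hC
  have hC40 : (40 : ℝ) ≤ (C : ℝ) := by
    rw [hC]; push_cast
    have h1 : (0 : ℝ) ≤ (C1 : ℝ) := Nat.cast_nonneg _
    have h2 : (0 : ℝ) ≤ (C2 : ℝ) := Nat.cast_nonneg _
    have h3 : (0 : ℝ) ≤ (C3 : ℝ) := Nat.cast_nonneg _
    linarith
  have hθ40 : 40 * θ ≤ 1 := (mul_le_mul_of_nonneg_right hC40 hθ.le).trans hCθ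
  have hθ1 : θ ≤ 1 := by linarith
  have hlθ1 : l ≤ θ := by
    refine hlθ.trans ?_
    calc θ ^ C ≤ θ ^ 1 := pow_le_pow_of_le_one hθ.le hθ1 (by omega)
      _ = θ := pow_one θ
  have hl8 : l ≤ 1 / 8 := by linarith
  have hl1 : l ≤ 1 := by linarith
  have hph := ph_gt
  have hph0 : 0 < ph := by linarith
  have hOkθ : Okl θ l := ⟨hl, hl8, hθ, by linarith⟩
  have hOkl : Okl l l := ⟨hl, hl8, hl, by linarith⟩
  have hND : ∀ j, m - L ≤ j → j ≤ m → ND θ j E l := fun j h1 h2 =>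
    Or.inr ⟨hlθ1, fun i hi1 hi2 => hTw i (h1.trans hi1) (by omega)⟩
  -- traces in the window
  have hreal : ∀ i, m - L ≤ i → i ≤ m + 8 → |tr i E l| ≤ 2 := by
    intro i h1 h2
    have h3 := hTw i h1 h2
    have h4 : tr i E l ^ 2 ≤ 1 := by nlinarith [sq_nonneg θ]
    have h5 : |tr i E l| ≤ 1 := by
      rw [← sq_abs] at h4
      nlinarith [abs_nonneg (tr i E l)]
    linarith
  -- growth
  set a : ℝ := rho m E l with ha
  have hgr : ∀ j, m - L ≤ j → j ≤ m → θ ^ C2 * ph ^ (m - j) * rho j E l ≤ a :=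
    fun j h1 h2 => hG j m E l θ hOkθ h2 (hND j h1 h2) (hND m (by omega) le_rfl)
  have hpos : ∀ j ≤ m, 0 < rho j E l := by
    intro j hj
    have h1 := hG 0 j E l l hOkl (Nat.zero_le _) (Or.inl ⟨rfl, hCr 0 (Nat.zero_le _)⟩)
      (Or.inl ⟨rfl, hCr j hj⟩)
    refine lt_of_lt_of_le ?_ h1
    rw [rho_zero]; positivity
  have ha0 : 0 < a := hpos m le_rfl
  have hrj : ∀ j, m - L ≤ j → j ≤ m → θ ^ C2 * rho j E l ≤ a := by
    intro j h1 h2
    refine le_trans ?_ (hgr j h1 h2)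
    have h3 : (1 : ℝ) ≤ ph ^ (m - j) := one_le_pow₀ (by linarith)
    have h4 : 0 < θ ^ C2 * rho j E l := mul_pos (by positivity) (hpos j h2)
    nlinarith
  have hz0 : 0 ≤ ‖z‖ := norm_nonneg z
  have hdisc : ∀ j, m - L ≤ j → j ≤ m → ‖z‖ * rho j E l ≤ θ ^ (C1 + C3 + 40) := by
    intro j h1 h2
    have h3 := mul_le_mul_of_nonneg_left (hrj j h1 h2) hz0
    have h4 : θ ^ C2 * (‖z‖ * rho j E l) ≤ θ ^ C2 * θ ^ (C1 + C3 + 40) := by
      rw [← pow_add, show C2 + (C1 + C3 + 40) = C by rw [hC]; ring]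
      linarith
    exact le_of_mul_le_mul_left h4 (by positivity)
  have hpow : θ ^ (C1 + C3 + 40) ≤ θ ^ C1 / 2 := by
    rw [show C1 + C3 + 40 = C1 + (C3 + 40) by ring, pow_add]
    have h1 : θ ^ (C3 + 40) ≤ θ ^ 1 := pow_le_pow_of_le_one hθ.le hθ1 (by omega)
    rw [pow_one] at h1
    have h2 : θ ^ C1 * θ ^ (C3 + 40) ≤ θ ^ C1 * (1 / 2) :=
      mul_le_mul_of_nonneg_left (by linarith) (by positivity)
    linarith
  set P : ℂ := (E : ℂ) + z with hP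
  set Q : ℂ := (l : ℂ) with hQ
  have hQn : ‖Q‖ = l := by rw [hQ, Complex.norm_real, Real.norm_eq_abs, abs_of_pos hl]
  -- SLoc on the window
  have hSL : ∀ j, m - L ≤ j → j ≤ m → ∀ i, j ≤ i → i ≤ j + 8 → ∀ z' : ℂ,
      ‖z'‖ * rho j E l ≤ θ ^ C1 →
      θ ^ C1 * ‖tr i ((E : ℂ) + z') (l : ℂ) - ((tr i E l : ℝ) : ℂ)‖ ≤ ‖z'‖ * rho j E l := by
    intro j h1 h2 i h3 h4 z' hz'
    have h5 := hS j E l θ hOkθ (hND j h1 h2) z' 0 (by rw [norm_zero, add_zero]; exact hz') i h3 h4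
    rw [norm_zero, add_zero, add_zero] at h5
    exact h5
  have hθC : θ ^ C1 / 2 ≤ θ ^ C1 := by
    have : 0 < θ ^ C1 := by positivity
    linarith
  have htr : ∀ j, m - L ≤ j → j ≤ m → ∀ i, j ≤ i → i ≤ j + 8 →
      ‖tr i P Q - ((tr i E l : ℝ) : ℂ)‖ ≤ θ ^ 6 := by
    intro j h1 h2 i h3 h4
    have h5 := hSL j h1 h2 i h3 h4 z (((hdisc j h1 h2).trans hpow).trans hθC)
    have h6 : θ ^ C1 * ‖tr i P Q - ((tr i E l : ℝ) : ℂ)‖ ≤ θ ^ C1 * θ ^ (C3 + 40) := by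
      rw [← pow_add, show C1 + (C3 + 40) = C1 + C3 + 40 by ring]
      exact h5.trans (hdisc j h1 h2)
    exact (le_of_mul_le_mul_left h6 (by positivity)).trans
      (pow_le_pow_of_le_one hθ.le hθ1 (by omega))
  have htr' : ∀ i, m - L ≤ i → i ≤ m + 8 → ‖tr i P Q - ((tr i E l : ℝ) : ℂ)‖ ≤ θ ^ 6 := by
    intro i h1 h2
    rcases le_total i m with h3 | h3
    · exact htr i h1 h3 i le_rfl (by omega)
    · exact htr m (by omega) le_rfl i h3 h2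
  have hθ6 : θ ^ 6 ≤ 1 := pow_le_one₀ hθ.le hθ1
  have hx : ∀ i, m - L ≤ i → i ≤ m + 8 → ‖tr i P Q‖ ≤ 3 := by
    intro i h1 h2
    have h3 := norm_sub_norm_le (tr i P Q) ((tr i E l : ℝ) : ℂ)
    rw [Complex.norm_real] at h3
    have h4 := hreal i h1 h2
    rw [← Real.norm_eq_abs] at h4
    linarith [htr' i h1 h2]
  have hGG : ∀ j, m - L ≤ j → j ≤ m → θ ^ 4 ≤ ‖GG j P Q‖ := by
    intro j h1 h2
    refine GG_typ j E l θ P Q (θ ^ 6) (by positivity) hθ6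
      (fun i h3 h4 => hreal i (by omega) (by omega)) (fun i h3 h4 => hTw i (by omega) (by omega))
      (fun i h3 h4 => htr' i (by omega) (by omega)) ?_
    have h3 : θ ^ 2 ≤ (1 / 40) ^ 2 := pow_le_pow_left₀ hθ.le (by linarith) 2
    have h4 : θ ^ 6 = θ ^ 2 * θ ^ 4 := by ring
    have h5 : θ ^ 2 * θ ^ 4 ≤ (1 / 40) ^ 2 * θ ^ 4 := mul_le_mul_of_nonneg_right h3 (by positivity)
    rw [h4]
    have h6 : 0 < θ ^ 4 := by positivity
    norm_num at h5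
    linarith
  have hderiv : ∀ j, m - L ≤ j → j ≤ m → ∀ i, j ≤ i → i ≤ j + 8 →
      ‖trE i P Q‖ ≤ 2 * rho j E l / θ ^ C1 := by
    intro j h1 h2 i h3 h4
    exact cauchy2 (by positivity) (hpos j h2) (hSL j h1 h2 i h3 h4) z ((hdisc j h1 h2).trans hpow)
  -- inverse of θ
  set q : ℝ := θ⁻¹ with hq
  have hθq : θ * q = 1 := by rw [hq]; exact mul_inv_cancel₀ hθ.ne'
  have hq0 : 0 < q := by rw [hq]; positivity
  have hq40 : 40 ≤ q := by
    by_contra h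
    push Not at h
    have : θ * q < 1 := by
      calc θ * q < θ * 40 := mul_lt_mul_of_pos_left h hθ
        _ ≤ 1 := by linarith
    linarith
  have hq1 : 1 ≤ q := by linarith
  have hθqp : ∀ k : ℕ, θ ^ k * q ^ k = 1 := fun k => by rw [← mul_pow, hθq, one_pow]
  have hdiv : ∀ (x : ℝ) (k : ℕ), x / θ ^ k = x * q ^ k := by
    intro x k
    rw [hq, inv_pow, div_eq_mul_inv]
  have hrq : ∀ j, m - L ≤ j → j ≤ m → rho j E l ≤ q ^ C2 * a := by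
    intro j h1 h2
    have h3 := mul_le_mul_of_nonneg_left (hrj j h1 h2) (show 0 ≤ q ^ C2 by positivity)
    have h4 : q ^ C2 * (θ ^ C2 * rho j E l) = rho j E l := by
      rw [← mul_assoc, mul_comm (q ^ C2), hθqp, one_mul]
    linarith
  -- start of the window
  have hstart0 : rho (m - L) E l ≤ q ^ C2 * l ^ C * a := by
    have h1 := hgr (m - L) le_rfl (by omega)
    rw [show m - (m - L) = L by omega] at h1
    have hr0 := hpos (m - L) (by omega)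
    have h2 : θ ^ C2 * (1 / l) ^ C * rho (m - L) E l ≤ a := by
      refine le_trans ?_ h1
      exact mul_le_mul_of_nonneg_right (mul_le_mul_of_nonneg_left hlL (by positivity)) hr0.le
    have h3 := mul_le_mul_of_nonneg_left h2 (show 0 ≤ q ^ C2 * l ^ C by positivity)
    have h4 : q ^ C2 * l ^ C * (θ ^ C2 * (1 / l) ^ C * rho (m - L) E l)
        = (θ ^ C2 * q ^ C2) * (l ^ C * (1 / l) ^ C) * rho (m - L) E l := by ring
    have h5 : l ^ C * (1 / l) ^ C = 1 := by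
      rw [← mul_pow, mul_one_div_cancel hl.ne', one_pow]
    rw [h4, hθqp, h5, one_mul, one_mul] at h3
    exact h3
  have hzs : ‖z‖ * rho (m - L) E l ≤ l ^ C3 := by
    have h1 := mul_le_mul_of_nonneg_left hstart0 hz0
    have h2 : ‖z‖ * (q ^ C2 * l ^ C * a) = q ^ C2 * l ^ C * (‖z‖ * a) := by ring
    have h3 : q ^ C2 * l ^ C * (‖z‖ * a) ≤ q ^ C2 * l ^ C * θ ^ C :=
      mul_le_mul_of_nonneg_left hz (by positivity)
    have h4 : q ^ C2 * l ^ C * θ ^ C ≤ l ^ C := by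
      have e : q ^ C2 * l ^ C * θ ^ C = (θ ^ C2 * q ^ C2) * θ ^ (C1 + C3 + 40) * l ^ C := by
        rw [show C = C2 + (C1 + C3 + 40) by rw [hC]; ring, pow_add θ]; ring
      rw [e, hθqp, one_mul]
      have h5 : θ ^ (C1 + C3 + 40) ≤ 1 := pow_le_one₀ hθ.le hθ1
      have h6 : 0 < l ^ C := by positivity
      nlinarith
    have h5 : l ^ C ≤ l ^ C3 := pow_le_pow_of_le_one hl.le hl1 (by omega)
    linarith
  have hNB0 : NB (m - L) P Q ≤ q ^ C2 * l ^ (C1 + C2 + 40) * a := by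
    have h1 := hN (m - L) E l hl hl8 (fun j hj => hCr j (by omega)) z 0
      (by rw [norm_zero, add_zero]; exact hzs)
    rw [add_zero] at h1
    have h2 : l ^ C3 * NB (m - L) P Q ≤ l ^ C3 * (q ^ C2 * l ^ (C1 + C2 + 40) * a) := by
      refine (h1.trans hstart0).trans (le_of_eq ?_)
      rw [show C = C3 + (C1 + C2 + 40) by rw [hC]; ring, pow_add]; ring
    exact le_of_mul_le_mul_left h2 (by positivity)
  have hNBe : ∀ j, NB j P Q = ‖n1 j P Q‖ + ‖n2 j P Q‖ + ‖n3 j P Q‖ := fun j => rfl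
  have hY0 : ‖DD (m - L) P Q‖ / ‖GG (m - L) P Q‖ ≤ 12 * (l * a) := by
    have h0 := hNBe (m - L)
    have g0 := hGG (m - L) le_rfl (by omega)
    have x0 := hx (m - L) le_rfl (by omega)
    have x1 := hx (m - L + 1) (by omega) (by omega)
    have x2 := hx (m - L + 2) (by omega) (by omega)
    have k1 : ‖g1 (m - L) P Q‖ ≤ 12 := g_size x0 x1 x2
    have k2 : ‖g2 (m - L) P Q‖ ≤ 12 := g_size x1 x0 x2
    have k3 : ‖g3 (m - L) P Q‖ ≤ 12 := g_size x2 x0 x1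
    have h1 : ‖DD (m - L) P Q‖ ≤ 12 * NB (m - L) P Q := by
      unfold DD
      refine (norm_add₃_le).trans ?_
      rw [norm_mul, norm_mul, norm_mul, h0]
      have j1 := mul_le_mul_of_nonneg_right k1 (norm_nonneg (n1 (m - L) P Q))
      have j2 := mul_le_mul_of_nonneg_right k2 (norm_nonneg (n2 (m - L) P Q))
      have j3 := mul_le_mul_of_nonneg_right k3 (norm_nonneg (n3 (m - L) P Q))
      linarith
    have h2 : ‖DD (m - L) P Q‖ / ‖GG (m - L) P Q‖ ≤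
        12 * (q ^ C2 * l ^ (C1 + C2 + 40) * a) / θ ^ 4 :=
      div_le_div₀ (by positivity) (h1.trans (by linarith)) (by positivity) g0
    refine h2.trans ?_
    rw [hdiv]
    have e : l ^ (C1 + C2 + 40) = l * l ^ (C2 + 4) * l ^ (C1 + 35) := by
      rw [← pow_succ', ← pow_add]; congr 1; ring
    have h3 : l ^ (C2 + 4) ≤ θ ^ (C2 + 4) := pow_le_pow_left₀ hl.le hlθ1 _
    have h4 : l ^ (C1 + 35) ≤ 1 := pow_le_one₀ hl.le hl1
    have h5 : l ^ (C2 + 4) * l ^ (C1 + 35) ≤ θ ^ (C2 + 4) := by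
      calc l ^ (C2 + 4) * l ^ (C1 + 35) ≤ θ ^ (C2 + 4) * 1 :=
            mul_le_mul h3 h4 (by positivity) (by positivity)
        _ = _ := mul_one _
    have h6 : q ^ (C2 + 4) * (l ^ (C2 + 4) * l ^ (C1 + 35)) ≤ 1 := by
      have := mul_le_mul_of_nonneg_left h5 (show 0 ≤ q ^ (C2 + 4) by positivity)
      rw [mul_comm (q ^ (C2 + 4)) (θ ^ (C2 + 4)), hθqp] at this
      exact this
    have e2 : 12 * (q ^ C2 * l ^ (C1 + C2 + 40) * a) * q ^ 4 =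
        12 * (l * a) * (q ^ (C2 + 4) * (l ^ (C2 + 4) * l ^ (C1 + 35))) := by
      rw [e, pow_add q]; ring
    rw [e2]
    have h7 : 0 ≤ 12 * (l * a) := by positivity
    nlinarith
  -- induction along the window
  have hY : ∀ k ≤ L, ‖DD (m - L + k) P Q‖ / ‖GG (m - L + k) P Q‖ ≤
      12 * (l * a) + k * (2160 * (l * a) * q ^ (C1 + C2 + 8)) := by
    intro k
    induction k with
    | zero =>
      intro _
      simpa using hY0
    | succ k ih =>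
      intro hk
      have ih := ih (by omega)
      have hst := y_step2 (m - L + k) P Q (2 * rho (m - L + k) E l / θ ^ C1) (θ ^ 4) (by positivity)
        (fun i h1 h2 => hx i (by omega) (by omega))
        (fun i h1 h2 => hderiv (m - L + k) (by omega) (by omega) i h1 (by omega))
        (hGG (m - L + k) (by omega) (by omega)) (hGG (m - L + k + 1) (by omega) (by omega))
      rw [hQn, ← pow_mul, hdiv, hdiv] at hst
      have h1 := hrq (m - L + k) (by omega) (by omega)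
      have h2 : 1080 * (2 * rho (m - L + k) E l * q ^ C1) * l * q ^ (4 * 2) ≤
          2160 * (l * a) * q ^ (C1 + C2 + 8) := by
        have e : 2160 * (l * a) * q ^ (C1 + C2 + 8) =
            2160 * (q ^ C1 * l * q ^ 8) * (q ^ C2 * a) := by
          rw [pow_add, pow_add]; ring
        have e' : 1080 * (2 * rho (m - L + k) E l * q ^ C1) * l * q ^ (4 * 2) =
            2160 * (q ^ C1 * l * q ^ 8) * rho (m - L + k) E l := by ring
        rw [e, e']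
        exact mul_le_mul_of_nonneg_left h1 (by positivity)
      rw [show m - L + (k + 1) = m - L + k + 1 by ring, Nat.cast_succ, add_mul, one_mul]
      refine hst.trans ?_
      refine (add_le_add ih h2).trans (le_of_eq ?_)
      rw [add_assoc]
  have hYm := hY L le_rfl
  rw [show m - L + L = m by omega] at hYm
  have hLq : (L : ℝ) ≤ q := by
    have h1 := mul_le_mul_of_nonneg_right hLθ hq0.le
    rw [mul_assoc, hθq, mul_one, one_mul] at h1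
    exact h1
  have hfin := n_bound2 m P Q (2 * rho m E l / θ ^ C1) (θ ^ 4) (by positivity)
    (fun i h1 h2 => hx i (by omega) (by omega))
    (fun i h1 h2 => hderiv m (by omega) le_rfl i h1 (by omega)) (hGG m (by omega) le_rfl)
  rw [hQn, hdiv, hdiv, ← hNBe m, ← ha] at hfin
  have hla : 0 < l * a := mul_pos hl ha0
  have hq3 : (64000 : ℝ) ≤ q ^ 3 := by
    have := pow_le_pow_left₀ (by norm_num) hq40 3
    linarith [show (64000 : ℝ) = 40 ^ 3 by norm_num]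
  have hq2 : (1600 : ℝ) ≤ q ^ 2 := by
    have := pow_le_pow_left₀ (by norm_num) hq40 2
    linarith [show (1600 : ℝ) = 40 ^ 2 by norm_num]
  have hb1 : ‖DD m P Q‖ / ‖GG m P Q‖ ≤ l * a * q ^ (C1 + C2 + 12) := by
    have h1 : (L : ℝ) * (2160 * (l * a) * q ^ (C1 + C2 + 8)) ≤
        q * (2160 * (l * a) * q ^ (C1 + C2 + 8)) :=
      mul_le_mul_of_nonneg_right hLq (by positivity)
    have e1 : q ^ (C1 + C2 + 12) = q ^ 3 * (q * q ^ (C1 + C2 + 8)) := by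
      rw [← pow_succ', ← pow_add]; congr 1; ring
    have h2 : 1 ≤ q * q ^ (C1 + C2 + 8) := by
      rw [← pow_succ']; exact one_le_pow₀ hq1
    set X : ℝ := q * q ^ (C1 + C2 + 8) with hX
    have h3 : q * (2160 * (l * a) * q ^ (C1 + C2 + 8)) = 2160 * (l * a) * X := by
      rw [hX]; ring
    rw [e1]
    have h4 : 12 * (l * a) ≤ 12 * (l * a) * X := by nlinarith
    have h5 : l * a * X * 64000 ≤ l * a * X * q ^ 3 :=
      mul_le_mul_of_nonneg_left hq3 (by positivity)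
    have h6 : 0 < l * a * X := by positivity
    nlinarith
  have hb2 : NB m P Q ≤ l * a * q ^ (C1 + C2 + 14) := by
    have e1 : q ^ (C1 + C2 + 14) = q ^ 2 * q ^ (C1 + C2 + 12) := by
      rw [← pow_add]; congr 1; ring
    have h1 : q ^ C1 * q ^ 4 ≤ q ^ (C1 + C2 + 12) := by
      rw [← pow_add]; exact pow_le_pow_right₀ hq1 (by omega)
    have h2 := mul_le_mul_of_nonneg_left h1 hla.le
    set X : ℝ := q ^ (C1 + C2 + 12) with hX
    have hX0 : 0 < X := by positivity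
    have h3 : 6 * (2 * a * q ^ C1) * l * q ^ 4 = 12 * (l * a * (q ^ C1 * q ^ 4)) := by ring
    rw [h3] at hfin
    rw [e1]
    have h4 : l * a * X * 1600 ≤ l * a * X * q ^ 2 :=
      mul_le_mul_of_nonneg_left hq2 (by positivity)
    nlinarith [mul_pos hla hX0]
  calc θ ^ C * NB m P Q ≤ θ ^ C * (l * a * q ^ (C1 + C2 + 14)) :=
        mul_le_mul_of_nonneg_left hb2 (by positivity)
    _ = θ ^ (C3 + 26) * (θ ^ (C1 + C2 + 14) * q ^ (C1 + C2 + 14)) * (l * a) := by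
        rw [show C = C3 + 26 + (C1 + C2 + 14) by rw [hC]; ring, pow_add θ (C3 + 26)]; ring
    _ ≤ l * a := by
        rw [hθqp, mul_one]
        have h1 : θ ^ (C3 + 26) ≤ 1 := pow_le_one₀ hθ.le hθ1
        nlinarith

end FIB
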