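import Pool.Agent.Helper75.FIB.Iface2

/-!
# FIB : interface propositions, part 3 (components of the local structure theorem, passes near gaps)
-/

namespace FIB

open Real MeasureTheory Set Filter Topology

noncomputable section

/-! ### more typical / crude estimates -/

/-- size of the cross product `R_n × B_n` at a complex point -/
def NB (n : ℕ) (E l : ℂ) : ℝ :=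
  ‖trE (n + 1) E l * trL (n + 2) E l - trE (n + 2) E l * trL (n + 1) E l‖ +
  ‖trE (n + 2) E l * trL n E l - trE n E l * trL (n + 2) E l‖ +
  ‖trE n E l * trL (n + 1) E l - trE (n + 1) E l * trL n E l‖

/-- N1: crude bound for `R_n × B_n` on the polydisc -/
def NCrude : Prop := ∃ C : ℕ, ∀ (n : ℕ) (E l : ℝ), 0 < l → l ≤ 1 / 8 → (∀ j ≤ n, Cr j E l) →
  ∀ z w : ℂ, (‖z‖ + ‖w‖) * rho n E l ≤ l ^ C →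
    l ^ C * NB n ((E : ℂ) + z) ((l : ℂ) + w) ≤ rho n E l

/-- N2: typical bound for `R_m × B_m` on the disc -/
def NTyp : Prop := ∃ C : ℕ, ∀ (m L : ℕ) (E l θ : ℝ), OkT C θ l L → L ≤ m →
  (∀ j ≤ m, Cr j E l) → Tw θ (m - L) (m + 8) E l → ∀ z : ℂ, ‖z‖ * rho m E l ≤ θ ^ C →
  θ ^ C * NB m ((E : ℂ) + z) (l : ℂ) ≤ l * rho m E l

/-- T2a: one step of the typical window, on a complex disc -/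
def VStepC : Prop := ∃ C : ℕ, ∀ (m L : ℕ) (E l θ : ℝ), OkT C θ l L → L ≤ m →
  (∀ j ≤ m + 1, Cr j E l) → Tw θ (m - L) (m + 9) E l → ∀ z : ℂ, ‖z‖ * rho m E l ≤ θ ^ C →
  θ ^ C * rho m E l * ‖vv (m + 1) ((E : ℂ) + z) (l : ℂ) - vv m ((E : ℂ) + z) (l : ℂ)‖ ≤ l

/-- T2b: crude comparison of `-xdot_m/x_m'` with `v_m` -/
def VxCrude : Prop := ∃ C : ℕ, ∀ (m : ℕ) (E l : ℝ), 0 < l → l ≤ 1 / 8 → 4 ≤ m →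
  (∀ j ≤ m + 1, Cr j E l) → |tr m E l| ≤ 1 → l ^ C * rho m E l * |Vx m E l - vv m E l| ≤ 1

/-- T2c: after a long typical window the slopes grow by the factor `φ` -/
def TauRatio : Prop := ∃ C : ℕ, ∀ (m L : ℕ) (E l θ : ℝ), OkT C θ l L → L + 8 ≤ m →
  Tw θ (m - L) (m + 2) E l → |tau (m + 1) E l - ph * tau m E l| ≤ l * tau m E l

/-! ### components of the local structure theorem -/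

/-- all hypotheses of the local structure theorem -/
def LH (N0 C1 : ℕ) (θ l : ℝ) (L Lc Q K m : ℕ) (E0 ℓ : ℝ) : Prop :=
  0 < θ ∧ (N0 : ℝ) * θ ≤ 1 ∧ 0 < l ∧ l ≤ θ ^ N0 ∧ (1 / l) ^ N0 ≤ ph ^ L ∧
  (9 : ℝ) ^ (2 * L) * (1 / l) ^ N0 ≤ Q ∧ (Q : ℝ) * (1 / l) ^ N0 ≤ ph ^ Lc ∧ (Lc : ℝ) * θ ≤ 1 ∧
  0 < ℓ ∧ ℓ ≤ 1 ∧ GoodAt θ C1 L Lc K l E0 ℓ m

/-- J-a: the integrated density of states in the window -/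
def LocLin : Prop := ∃ c1 : ℕ, ∀ C1, c1 ≤ C1 → ∃ C N0 : ℕ, ∀ (θ l : ℝ) (L Lc Q K m : ℕ) (E0 ℓ : ℝ),
  LH N0 C1 θ l L Lc Q K m E0 ℓ → ∀ E1 E2 : ℝ, E1 ≤ E2 → |E1 - E0| ≤ 6 * ℓ → |E2 - E0| ≤ 6 * ℓ →
    θ ^ C * ((E2 - E1) / ℓ) - C * √l ≤ Nat.fib m * (NN K l E1 - NN K l E2) ∧
    Nat.fib m * (NN K l E1 - NN K l E2) ≤ θ * ((E2 - E1) / ℓ) + C * √l

/-- J-b: affine approximation of `v_m` in the window -/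
def LocAff : Prop := ∃ c1 : ℕ, ∀ C1, c1 ≤ C1 → ∃ C N0 : ℕ, ∀ (θ l : ℝ) (L Lc Q K m : ℕ) (E0 ℓ : ℝ),
  LH N0 C1 θ l L Lc Q K m E0 ℓ → ∃ β γ : ℝ,
    (∀ E, |E - E0| ≤ 6 * ℓ → θ ^ C * |vv m E l - (β * E + γ)| ≤ l * ℓ) ∧
    (∀ E E', |E - E0| ≤ 6 * ℓ → |E' - E0| ≤ 6 * ℓ →
      l ^ C * |(vv m E l - β * E) - (vv m E' l - β * E')| ≤ |E - E'|)

/-- J-c: within a cell of length `ℓ/Q` the velocity minus the affine function is almost constant -/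
def CellClose : Prop := ∃ c1 : ℕ, ∀ C1, c1 ≤ C1 → ∀ Ca : ℕ, ∃ N0 : ℕ,
  ∀ (θ l : ℝ) (L Lc Q K m : ℕ) (E0 ℓ : ℝ), LH N0 C1 θ l L Lc Q K m E0 ℓ → ∀ β : ℝ,
    (∀ E E', |E - E0| ≤ 6 * ℓ → |E' - E0| ≤ 6 * ℓ →
      l ^ Ca * |(vv m E l - β * E) - (vv m E' l - β * E')| ≤ |E - E'|) →
    ∀ E E' : ℝ, |tr K E l| < 1 → |tr K E' l| < 1 → |E - E0| ≤ 5 * ℓ → |E' - E0| ≤ 5 * ℓ →
      |E - E'| ≤ ℓ / Q → |(Vx K E l - β * E) - (Vx K E' l - β * E')| ≤ l * ℓ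

/-- typical cells: some point of the cell is `θb`-typical as long as the cell is short for the level -/
def TyC (θb : ℝ) (C4 m Lc : ℕ) (l ℓ' : ℝ) (j : ℤ) : Prop :=
  ∃ E : ℝ, (j : ℝ) * ℓ' ≤ E ∧ E < ((j : ℝ) + 1) * ℓ' ∧
    ∀ i, m ≤ i → i ≤ m + Lc → (∀ i', m ≤ i' → i' ≤ i → rho i' E l * ℓ' ≤ θb ^ C4) →
      θb ^ 2 ≤ 1 - tr i E l ^ 2

/-- J-d: velocities at typical cells -/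
def TypErr : Prop := ∃ c1 c4 : ℕ, ∀ C1 C4, c1 ≤ C1 → c4 ≤ C4 → ∃ C : ℕ, ∀ k : ℕ, 1 ≤ k → ∀ Ca : ℕ,
  ∃ N0 : ℕ, ∀ (θ l : ℝ) (L Lc Q K m : ℕ) (E0 ℓ : ℝ), LH N0 C1 θ l L Lc Q K m E0 ℓ → ∀ β γ : ℝ,
    (∀ E, |E - E0| ≤ 6 * ℓ → θ ^ Ca * |vv m E l - (β * E + γ)| ≤ l * ℓ) →
    ∀ j ∈ wn E0 ℓ Q, TyC (θ ^ k) C4 m Lc l (ℓ / Q) j → ∀ t, inCell K l ℓ Q j t →
      θ ^ (Ca + C * k) * |VK K l t - (β * EK K l t + γ)| ≤ l * ℓ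

/-- J-e: mass of typical cells -/
def TypMass : Prop := ∃ c1 c4 : ℕ, ∀ C1 C4, c1 ≤ C1 → c4 ≤ C4 → ∃ C : ℕ, ∀ k : ℕ, 1 ≤ k →
  ∃ N0 : ℕ, ∀ (θ l : ℝ) (L Lc Q K m : ℕ) (E0 ℓ : ℝ), LH N0 C1 θ l L Lc Q K m E0 ℓ →
    ∀ j ∈ wn E0 ℓ Q, TyC (θ ^ k) C4 m Lc l (ℓ / Q) j →
      θ ^ (C * k) * (Nat.fib m * cm K l ℓ Q j) ≤ 1 / Q

/-- J-f: total mass of the atypical cells -/
def AtypMass : Prop := ∃ c1 c4 : ℕ, ∀ C1 C4, c1 ≤ C1 → c4 ≤ C4 → ∀ k : ℕ, 3 ≤ k →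
  ∃ N0 : ℕ, ∀ (θ l : ℝ) (L Lc Q K m : ℕ) (E0 ℓ : ℝ), LH N0 C1 θ l L Lc Q K m E0 ℓ →
    ∀ Ta : Finset ℤ, (∀ j ∈ wn E0 ℓ Q, TyC (θ ^ k) C4 m Lc l (ℓ / Q) j → j ∈ Ta) →
      Nat.fib m * ∑ j ∈ wn E0 ℓ Q \ Ta, cm K l ℓ Q j ≤ θ ^ (k - 2)

/-- J-g: number of the atypical cells -/
def AtypCard : Prop := ∃ c1 c4 : ℕ, ∀ C1 C4, c1 ≤ C1 → c4 ≤ C4 → ∃ C : ℕ, ∀ k : ℕ, C ≤ k →
  ∃ N0 : ℕ, ∀ (θ l : ℝ) (L Lc Q K m : ℕ) (E0 ℓ : ℝ), LH N0 C1 θ l L Lc Q K m E0 ℓ →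
    ∀ Ta : Finset ℤ, (∀ j ∈ wn E0 ℓ Q, TyC (θ ^ k) C4 m Lc l (ℓ / Q) j → j ∈ Ta) →
      (((wn E0 ℓ Q \ Ta).card : ℕ) : ℝ) ≤ θ ^ (k - C) * Q

/-- J-h: near-gap parameters in every block -/
def NearGapP : Prop := ∃ c1 : ℕ, ∀ C1, c1 ≤ C1 → ∀ Ca : ℕ, ∃ C : ℕ, ∀ N1, C ≤ N1 → ∃ N0 : ℕ,
  ∀ (θ l : ℝ) (L Lc Q K m : ℕ) (E0 ℓ : ℝ), LH N0 C1 θ l L Lc Q K m E0 ℓ → ∀ β γ : ℝ,
    (∀ E, |E - E0| ≤ 6 * ℓ → θ ^ Ca * |vv m E l - (β * E + γ)| ≤ l * ℓ) →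
    ∀ a : ℝ, |a - E0| ≤ 5 * ℓ → |a + ℓ - E0| ≤ 5 * ℓ →
      ∃ w : Set ℝ, MeasurableSet w ∧ (∀ t ∈ w, t ∈ Rg K ∧ a ≤ EK K l t ∧ EK K l t < a + ℓ) ∧
        ENNReal.ofReal (θ ^ (2 * N1) * (NN K l a - NN K l (a + ℓ))) ≤ volume w ∧
        ∀ t ∈ w, 2 * (l * ℓ) ≤ θ ^ N1 * |VK K l t - (β * EK K l t + γ)|

/-! ### near-gap analysis -/

/-- I1: arithmetic selection of a gap label -/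
def PassArith : Prop := ∀ k : ℕ, ∃ (C : ℕ) (θ0 : ℝ), 0 < θ0 ∧ ∀ θ : ℝ, 0 < θ → θ < θ0 →
  ∀ (m : ℕ) (t0 h : ℝ), 1 ≤ m → 0 ≤ t0 → 0 < h → t0 + h ≤ 1 → θ ^ k ≤ h * Nat.fib m →
    ∃ (q : ℕ) (tG x : ℝ) (p : ℕ → ℤ), m ≤ q ∧ (Nat.fib q : ℝ) * θ ^ C ≤ Nat.fib m ∧
      t0 + h / 4 ≤ tG ∧ tG ≤ t0 + 3 * h / 4 ∧ 3 / 20 ≤ x ∧ x ≤ 1 / 4 ∧
      (∀ i, q ≤ i → (Nat.fib i : ℝ) * tG = p i + x * (-al) ^ (i - q)) ∧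
      (∀ i, q ≤ i → p (i + 2) = p (i + 1) + p i) ∧
      (∀ i, m ≤ i → i ≤ q → θ ^ C ≤ |Real.sin (π * Nat.fib i * tG)|)

/-- I4a: a large set of near-gap parameters (pure arithmetic) -/
def GapSet : Prop := ∀ k : ℕ, ∃ C : ℕ, ∀ Nu : ℕ, C ≤ Nu → ∃ θ0 : ℝ, 0 < θ0 ∧ ∀ θ : ℝ, 0 < θ → θ < θ0 →
  ∀ (m L : ℕ) (t0 h : ℝ), 1 ≤ m → 0 ≤ t0 → 0 < h → t0 + h ≤ 1 → θ ^ k ≤ h * Nat.fib m →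
    h * Nat.fib m ≤ 1 → (L : ℝ) * θ ≤ 1 →
    ∃ (q n : ℕ) (p : ℕ → ℤ) (w : Set ℝ), m ≤ q ∧ (Nat.fib q : ℝ) * θ ^ C ≤ Nat.fib m ∧
      (n : ℝ) * θ ≤ 1 ∧ (∀ i, p (q + i + 2) = p (q + i + 1) + p (q + i)) ∧ MeasurableSet w ∧
      w ⊆ Ioo (t0 + h / 8) (t0 + 7 * h / 8) ∧
      ENNReal.ofReal (θ ^ (Nu + C) / Nat.fib m) ≤ volume w ∧
      ∀ t ∈ w, ∃ s0 u0 : ℝ, 9 / 20 ≤ s0 ∧ s0 ≤ 4 / 5 ∧ θ ^ (Nu + 1) ≤ u0 ∧ u0 ≤ θ ^ Nu ∧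
        1 / 6 ≤ u0 * ph ^ n ∧ u0 * ph ^ n ≤ 1 / 2 ∧
        (∀ i : ℕ, π * Nat.fib (q + i) * t = π * p (q + i) + s0 * (-al) ^ i + u0 * ph ^ i) ∧
        (∀ i : ℕ, 31 / 100 * |s0 * (-al) ^ i| ≤ |s0 * (-al) ^ i + u0 * ph ^ i| ∧
          31 / 100 * (u0 * ph ^ i) ≤ |s0 * (-al) ^ i + u0 * ph ^ i|) ∧
        (∀ i, m ≤ i → i ≤ q → θ ^ C ≤ |Real.sin (π * Nat.fib i * t)|) ∧
        (∀ i, q + n ≤ i → i ≤ q + n + 2 * L + 4 → θ ^ 2 ≤ |Real.sin (π * Nat.fib i * t)|)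

/-- I3: the velocity jump across a pass near a gap -/
def PassV : Prop := ∀ k : ℕ, ∃ C : ℕ, ∀ Nu : ℕ, C ≤ Nu → ∃ N0 : ℕ,
  ∀ (θ l : ℝ) (L K q n : ℕ) (E s0 u0 : ℝ) (p : ℕ → ℤ),
    0 < θ → (N0 : ℝ) * θ ≤ 1 → 0 < l → l ≤ θ ^ N0 → (1 / l) ^ N0 ≤ ph ^ L → (L : ℝ) * θ ≤ 1 →
    (n : ℝ) * θ ≤ 1 → |tr K E l| < 1 → L + 8 ≤ q → q + n + 2 * L + 20 ≤ K →
    (∀ i, p (q + i + 2) = p (q + i + 1) + p (q + i)) →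
    Tw (θ ^ k) (q - L) q E l → 9 / 20 ≤ s0 → s0 ≤ 4 / 5 → θ ^ (Nu + 1) ≤ u0 → u0 ≤ θ ^ Nu →
    1 / 6 ≤ u0 * ph ^ n → u0 * ph ^ n ≤ 1 / 2 →
    (∀ i : ℕ, π * Nat.fib (q + i) * NN K l E = π * p (q + i) + s0 * (-al) ^ i + u0 * ph ^ i) →
    (∀ i : ℕ, 31 / 100 * |s0 * (-al) ^ i| ≤ |s0 * (-al) ^ i + u0 * ph ^ i| ∧
      31 / 100 * (u0 * ph ^ i) ≤ |s0 * (-al) ^ i + u0 * ph ^ i|) →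
    (∀ i, q + n ≤ i → i ≤ q + n + 2 * L + 4 → θ ^ 2 ≤ |Real.sin (π * Nat.fib i * NN K l E)|) →
    l ≤ C * (u0 * rho q E l * |Vx K E l - vv q E l|)

/-- exact recursions (of `TLrec`) for abstract sequences -/
def RecAt (l : ℝ) (σ τ μ : ℕ → ℝ) (i : ℕ) : Prop :=
  kap l (σ i) (σ (i + 1)) * τ (i + 2)
    = kap l (σ (i + 1)) (σ (i + 2)) * τ i + kap l (σ i) (σ (i + 2)) * τ (i + 1) ∧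
  kap l (σ i) (σ (i + 1)) * μ (i + 2)
    = kap l (σ (i + 1)) (σ (i + 2)) * μ i + kap l (σ i) (σ (i + 2)) * μ (i + 1)
      + l / (4 * σ i * σ (i + 1) * σ (i + 2))

/-- I2: the pass lemma (abstract sequences) -/
def PassP : Prop := ∃ c : ℝ, 0 < c ∧ c ≤ 1 ∧ ∀ (l B s0 u0 : ℝ) (n : ℕ) (th σ τ μ : ℕ → ℝ),
  0 < l → 0 < u0 → u0 ≤ c → l ≤ u0 ^ 10 → 2 / 5 ≤ s0 → s0 ≤ 4 / 5 → 0 ≤ B → B * u0 ≤ c →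
  (∀ i ≤ n, σ i = Real.sin (th i)) → (∀ i ≤ n, |th i| ≤ 1) →
  (∀ i ≤ n, 3 / 10 * |s0 * (-al) ^ i| ≤ |th i|) → (∀ i ≤ n, 3 / 10 * (u0 * ph ^ i) ≤ |th i|) →
  (∀ i ≤ n, |th i - (s0 * (-al) ^ i + u0 * ph ^ i)| ≤ u0 ^ 4) →
  (∀ i ≤ n, 0 < τ i) → (∀ i, i + 2 ≤ n → RecAt l σ τ μ i) →
  |τ 1 - ph * τ 0| ≤ u0 ^ 2 * τ 0 → |μ 1 / τ 1 - μ 0 / τ 0| * τ 0 ≤ B * l →
  1 ≤ c * u0 * ph ^ (2 * n) → u0 * ph ^ n ≤ 1 / 2 →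
  c * l ≤ u0 * τ 0 * |μ n / τ n - μ 0 / τ 0| ∧
  c * u0 ^ 2 * |μ n * τ (n - 1) - μ (n - 1) * τ n| ≤ l * τ 0 ∧
  c * ph ^ n * τ 0 ≤ τ n ∧ |τ n - ph * τ (n - 1)| ≤ u0 * τ (n - 1)

/-- I2': typical continuation (abstract sequences) -/
def FutP : Prop := ∃ C : ℕ, ∀ (l θ : ℝ) (n : ℕ) (σ τ μ : ℕ → ℝ),
  0 < θ → (C : ℝ) * θ ≤ 1 → 0 < l → l ≤ θ ^ C → (n : ℝ) * θ ≤ 1 → 1 ≤ n →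
  (∀ i ≤ n, θ ≤ |σ i| ∧ |σ i| ≤ 1) → (∀ i ≤ n, 0 < τ i) → (∀ i, i + 2 ≤ n → RecAt l σ τ μ i) →
  τ 0 ≤ 2 * τ 1 → τ 1 ≤ 2 * τ 0 →
  |μ n / τ n - μ 0 / τ 0| ≤ C * (|μ 1 * τ 0 - μ 0 * τ 1| / τ 0 ^ 2 + l / (θ ^ 3 * τ 0)) ∧
  ph ^ n * τ 0 ≤ C * τ n

end

end FIB
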