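import Pool.Agent.Helper75.FIB.G5
import Pool.Agent.Helper75.FIB.Iface3

/-!
# FIB block T1 : near-affinity of v_m

`v_m(E) - v_m(E0) = sum_{j<m} (h_j(E) - h_j(E0))` with `h_j = v_{j+1} - v_j` (`v_0 = 1/2` is constant). Let `L' = L/2` (floor), `β = sum_{j < m-L'} h_j'(E0)` (real derivative).
(1) `j < m - L'`: `VBound` at level `j` and Cauchy: on the real disc `|E-E0| rho j <= l^{C'}/2`: `|h_j''| <= l^{-C''} rho_j` (`h_j` is bounded by `l^{-C'}/rho_j` on the complex disc of radius `l^{C'}/rho_j`), so `|h_j(E) - h_j(E0) - h_j'(E0)(E-E0)| <= l^{-C''} rho_j |E-E0|^2` and `|h_j'(E) - h_j'(E0)| <= l^{-C''} rho_j |E-E0|`.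
The disc `|E-E0| rho m <= θ^C <= 1` is contained in it: `rho j <= l^{-C'} φ^{-(m-j)} rho m` (GrLow, `ε = l`) and `φ^{L'} >= l^{-C/2+..}`. Sum over `j`: `<= l^{-C''} (sum_{j<m-L'} rho_j)/rho_m^2 <= l^{-C'''} φ^{-L'}/rho_m <= l/rho_m`.
(2) `m-L' <= j < m`: `VStepC` at level `j` with window length `L'` (`OkT C' θ l L'` follows from `OkT C θ l L` for `C >= 2C'+2`; window `[j-L', j+9] ⊂ [m-L, m+8]`): `|h_j| <= l θ^{-C'}/rho_j` on `|z| rho_j <= θ^{C'}`, so `|h_j'| <= l θ^{-C''}` on half the disc, and `|h_j(E) - h_j(E0)| <= l θ^{-C''} |E-E0| <= l θ^{-C''+C}/rho_m`; there are at most `L <= 1/θ` terms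
(rho_j <= θ^{-C'} rho_m for `j` in the window: GrLow with `ε = θ`).
Second statement (crude Lipschitz): `|h_j'(x) - h_j'(E0)| <= l^{-C''} rho_j |x-E0|`, summed over `j < m-L'` gives `<= l^{-C}`; for the others `|h_j'| <= 1`, and there are `L <= 1/θ <= 1/l` of them. Mean value theorem on `[E,E']`.
-/

namespace FIB

open Real MeasureTheory Set Filter Topology

namespace T1

/-- removable singularities of a bounded meromorphic function -/
theorem removable (f : ℂ → ℂ) (hf : MeromorphicOn f univ) (R M : ℝ)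
    (hb : ∀ z : ℂ, ‖z‖ < R → ‖f z‖ ≤ M) :
    ∃ F : ℂ → ℂ, (∀ z : ℂ, ‖z‖ < R → DifferentiableAt ℂ F z) ∧
      (∀ z : ℂ, ‖z‖ < R → ‖F z‖ ≤ M) ∧
      (∀ z : ℂ, ‖z‖ < R → ContinuousAt f z → F z = f z) := by
  refine ⟨toMeromorphicNFOn f univ, ?_⟩
  have hnb : ∀ z : ℂ, ‖z‖ < R → ∀ᶠ x in 𝓝 z, ‖x‖ < R := fun z hz =>
    (continuous_norm.continuousAt (x := z)).eventually_lt_const hz
  have hself : ∀ z : ℂ, toMeromorphicNFOn f univ =ᶠ[𝓝[≠] z] f := fun z =>
    hf.toMeromorphicNFOn_eq_self_on_nhdsNE (mem_univ z)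
  have hbd : ∀ z : ℂ, ‖z‖ < R → ∀ᶠ x in 𝓝[≠] z, ‖toMeromorphicNFOn f univ x‖ ≤ M := by
    intro z hz
    filter_upwards [hself z, (hnb z hz).filter_mono nhdsWithin_le_nhds] with x hx hxR
    rw [hx]; exact hb x hxR
  have han : ∀ z : ℂ, ‖z‖ < R → AnalyticAt ℂ (toMeromorphicNFOn f univ) z := by
    intro z hz
    have hnf := meromorphicNFOn_toMeromorphicNFOn f univ (mem_univ z)
    rw [← hnf.meromorphicOrderAt_nonneg_iff_analyticAt]
    by_contra hneg
    push Not at hneg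
    have ht := tendsto_norm_cobounded_atTop.comp (tendsto_cobounded_of_meromorphicOrderAt_neg hneg)
    have h1 := ht.eventually_gt_atTop M
    have h2 := (h1.and (hbd z hz)).exists
    obtain ⟨x, hx1, hx2⟩ := h2
    simp only [Function.comp_apply] at hx1
    linarith
  refine ⟨fun z hz => (han z hz).differentiableAt, ?_, ?_⟩
  · intro z hz
    have hc : Tendsto (fun x => ‖toMeromorphicNFOn f univ x‖) (𝓝[≠] z)
        (𝓝 ‖toMeromorphicNFOn f univ z‖) :=
      ((han z hz).continuousAt.norm.tendsto).mono_left nhdsWithin_le_nhds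
    exact le_of_tendsto hc (hbd z hz)
  · intro z hz hc
    have h1 : Tendsto (toMeromorphicNFOn f univ) (𝓝[≠] z) (𝓝 (toMeromorphicNFOn f univ z)) :=
      (han z hz).continuousAt.tendsto.mono_left nhdsWithin_le_nhds
    have h2 : Tendsto f (𝓝[≠] z) (𝓝 (f z)) := hc.tendsto.mono_left nhdsWithin_le_nhds
    exact tendsto_nhds_unique (h1.congr' (hself z)) h2

/-- derivative bound -/
theorem dbound (F : ℂ → ℂ) (R M : ℝ) (hR : 0 < R)
    (hd : ∀ z : ℂ, ‖z‖ < R → DifferentiableAt ℂ F z) (hb : ∀ z : ℂ, ‖z‖ < R → ‖F z‖ ≤ M)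
    (z : ℂ) (hz : ‖z‖ < R / 2) : ‖deriv F z‖ ≤ 2 * M / R := by
  have hsub : Metric.closedBall z (R / 2) ⊆ Metric.ball 0 R := by
    intro x hx
    rw [Metric.mem_closedBall, dist_eq_norm] at hx
    have : ‖x‖ ≤ ‖x - z‖ + ‖z‖ := by
      simpa using norm_add_le (x - z) z
    rw [mem_ball_zero_iff]
    linarith
  have hdon : DifferentiableOn ℂ F (Metric.ball 0 R) :=
    fun x hx => (hd x (mem_ball_zero_iff.1 hx)).differentiableWithinAt
  have := Complex.norm_deriv_le_of_forall_mem_sphere_norm_le (c := z) (R := R / 2) (C := M)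
    (f := F) (by linarith) (hdon.diffContOnCl_ball hsub) (by
      intro x hx
      exact hb x (mem_ball_zero_iff.1 (hsub (Metric.sphere_subset_closedBall hx))))
  calc ‖deriv F z‖ ≤ M / (R / 2) := this
    _ = 2 * M / R := by field_simp

theorem lip (F : ℂ → ℂ) (R M : ℝ) (hR : 0 < R)
    (hd : ∀ z : ℂ, ‖z‖ < R → DifferentiableAt ℂ F z) (hb : ∀ z : ℂ, ‖z‖ < R → ‖F z‖ ≤ M)
    (z w : ℂ) (hz : ‖z‖ ≤ R / 4) (hw : ‖w‖ ≤ R / 4) : ‖F z - F w‖ ≤ 2 * M / R * ‖z - w‖ := by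
  exact (convex_closedBall (0 : ℂ) (R / 4)).norm_image_sub_le_of_norm_deriv_le (𝕜 := ℂ)
    (f := F) (C := 2 * M / R) (x := w) (y := z)
    (fun x hx => hd x (by have := mem_closedBall_zero_iff.1 hx; linarith))
    (fun x hx => dbound F R M hR hd hb x (by have := mem_closedBall_zero_iff.1 hx; linarith))
    (mem_closedBall_zero_iff.2 hw) (mem_closedBall_zero_iff.2 hz)

theorem lip2 (F : ℂ → ℂ) (R M : ℝ) (hR : 0 < R)
    (hd : ∀ z : ℂ, ‖z‖ < R → DifferentiableAt ℂ F z) (hb : ∀ z : ℂ, ‖z‖ < R → ‖F z‖ ≤ M)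
    (r : ℝ) (hr : r ≤ R / 8) (z w : ℂ) (hz : ‖z‖ ≤ r) (hw : ‖w‖ ≤ r) :
    ‖F z - F w - deriv F 0 * (z - w)‖ ≤ 8 * M / R ^ 2 * r * ‖z - w‖ := by
  have hM : 0 ≤ M := le_trans (norm_nonneg _) (hb 0 (by simpa using hR))
  have hdo : ∀ z : ℂ, ‖z‖ < R / 2 → DifferentiableAt ℂ (deriv F) z := by
    intro z hz
    have hdon : DifferentiableOn ℂ F (Metric.ball 0 R) :=
      fun x hx => (hd x (mem_ball_zero_iff.1 hx)).differentiableWithinAt
    have ha := hdon.analyticAt (Metric.isOpen_ball.mem_nhds (mem_ball_zero_iff.2 (by linarith : ‖z‖ < R)))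
    exact ha.deriv.differentiableAt
  have h2 : ∀ x : ℂ, ‖x‖ ≤ R / 8 → ‖deriv F x - deriv F 0‖ ≤ 8 * M / R ^ 2 * ‖x‖ := by
    intro x hx
    have := lip (deriv F) (R / 2) (2 * M / R) (by linarith) hdo
      (fun z hz => dbound F R M hR hd hb z hz) x 0 (by linarith) (by simp; positivity)
    rw [sub_zero] at this
    calc ‖deriv F x - deriv F 0‖ ≤ 2 * (2 * M / R) / (R / 2) * ‖x‖ := this
      _ = 8 * M / R ^ 2 * ‖x‖ := by field_simp; ring
  have hg : ∀ x : ℂ, ‖x‖ < R → HasDerivAt (fun y => F y - deriv F 0 * y)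
      (deriv F x - deriv F 0) x := by
    intro x hx
    have h3 := (hd x hx).hasDerivAt.sub ((hasDerivAt_id x).const_mul (deriv F 0))
    rw [mul_one] at h3
    exact h3
  have key := (convex_closedBall (0 : ℂ) r).norm_image_sub_le_of_norm_deriv_le (𝕜 := ℂ)
    (f := fun y => F y - deriv F 0 * y) (C := 8 * M / R ^ 2 * r) (x := w) (y := z)
    (fun x hx => (hg x (by have := mem_closedBall_zero_iff.1 hx; linarith)).differentiableAt)
    (fun x hx => by
      have hx' := mem_closedBall_zero_iff.1 hx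
      rw [(hg x (by linarith)).deriv]
      refine (h2 x (by linarith)).trans ?_
      gcongr)
    (mem_closedBall_zero_iff.2 hw) (mem_closedBall_zero_iff.2 hz)
  have e : F z - F w - deriv F 0 * (z - w)
      = (F z - deriv F 0 * z) - (F w - deriv F 0 * w) := by ring
  rw [e]; exact key

theorem mero_vv (n : ℕ) (l E : ℂ) : MeromorphicOn (fun z => vv n (E + z) l) univ := by
  intro z _
  have hd : ∀ g : ℂ → ℂ, Differentiable ℂ g → MeromorphicAt (fun z => g (E + z)) z := by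
    intro g hg
    have : Differentiable ℂ (fun z => g (E + z)) :=
      hg.comp ((differentiable_const E).add differentiable_id)
    exact (this.analyticAt z).meromorphicAt
  have a0 := hd _ (G5_diff_trE n l)
  have a1 := hd _ (G5_diff_trE (n + 1) l)
  have a2 := hd _ (G5_diff_trE (n + 2) l)
  have b0 := hd _ (G5_diff_trL n l)
  have b1 := hd _ (G5_diff_trL (n + 1) l)
  have b2 := hd _ (G5_diff_trL (n + 2) l)
  unfold vv
  exact ((((b0.mul a0).add (b1.mul a1)).add (b2.mul a2)).neg).div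
    (((a0.pow 2).add (a1.pow 2)).add (a2.pow 2))

/-- the extension of the increments -/
theorem ext_real (j : ℕ) (E0 l R M : ℝ)
    (hb : ∀ z : ℂ, ‖z‖ < R → ‖vv (j + 1) ((E0 : ℂ) + z) (l : ℂ) - vv j ((E0 : ℂ) + z) (l : ℂ)‖ ≤ M) :
    ∃ F : ℂ → ℂ, (∀ z : ℂ, ‖z‖ < R → DifferentiableAt ℂ F z) ∧
      (∀ z : ℂ, ‖z‖ < R → ‖F z‖ ≤ M) ∧
      (∀ E : ℝ, |E - E0| < R → F ((E - E0 : ℝ) : ℂ) = ((vv (j + 1) E l - vv j E l : ℝ) : ℂ)) := by
  have hne : ∀ (n : ℕ) (E : ℝ), (trE n (E : ℂ) (l : ℂ)) ^ 2 + (trE (n + 1) (E : ℂ) (l : ℂ)) ^ 2 +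
      (trE (n + 2) (E : ℂ) (l : ℂ)) ^ 2 ≠ 0 := by
    intro n E h0
    rw [trE_ofReal, trE_ofReal, trE_ofReal] at h0
    have h1 : (trE n E l) ^ 2 + (trE (n + 1) E l) ^ 2 + (trE (n + 2) E l) ^ 2 = 0 := by
      exact_mod_cast h0
    have e0 : trE n E l = 0 := by
      nlinarith [sq_nonneg (trE n E l), sq_nonneg (trE (n + 1) E l), sq_nonneg (trE (n + 2) E l)]
    have e1 : trE (n + 1) E l = 0 := by
      nlinarith [sq_nonneg (trE n E l), sq_nonneg (trE (n + 1) E l), sq_nonneg (trE (n + 2) E l)]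
    have e2 : trE (n + 2) E l = 0 := by
      nlinarith [sq_nonneg (trE n E l), sq_nonneg (trE (n + 1) E l), sq_nonneg (trE (n + 2) E l)]
    have := G5_rho_pos n E l
    unfold rho at this
    rw [e0, e1, e2] at this
    simp at this
  have hm : MeromorphicOn (fun z : ℂ => vv (j + 1) ((E0 : ℂ) + z) (l : ℂ) - vv j ((E0 : ℂ) + z) (l : ℂ))
      univ := (mero_vv (j + 1) l E0).sub (mero_vv j l E0)
  obtain ⟨F, h1, h2, h3⟩ := removable _ hm R M hb
  refine ⟨F, h1, h2, ?_⟩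
  intro E hE
  have hn : ‖((E - E0 : ℝ) : ℂ)‖ < R := by rw [Complex.norm_real]; exact hE
  have e1 : (E0 : ℂ) + ((E - E0 : ℝ) : ℂ) = (E : ℂ) := by push_cast; ring
  have hc : ∀ n : ℕ, ContinuousAt (fun z : ℂ => vv n ((E0 : ℂ) + z) (l : ℂ)) ((E - E0 : ℝ) : ℂ) := by
    intro n
    have hd : DifferentiableAt ℂ (fun x => vv n x (l : ℂ)) ((E0 : ℂ) + ((E - E0 : ℝ) : ℂ)) := by
      apply G5_diff_vv
      rw [e1]; exact hne n E
    have had : DifferentiableAt ℂ (fun z : ℂ => (E0 : ℂ) + z) ((E - E0 : ℝ) : ℂ) :=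
      (differentiableAt_const _).add differentiableAt_id
    exact (DifferentiableAt.comp _ hd had).continuousAt
  rw [h3 _ hn ((hc (j + 1)).sub (hc j))]
  simp only [e1, G5_vv_ofReal]
  push_cast
  ring

theorem incr1 (j : ℕ) (E0 l R M : ℝ) (hR : 0 < R)
    (hb : ∀ z : ℂ, ‖z‖ < R → ‖vv (j + 1) ((E0 : ℂ) + z) (l : ℂ) - vv j ((E0 : ℂ) + z) (l : ℂ)‖ ≤ M)
    (E E' : ℝ) (hE : |E - E0| ≤ R / 4) (hE' : |E' - E0| ≤ R / 4) :
    |(vv (j + 1) E l - vv j E l) - (vv (j + 1) E' l - vv j E' l)| ≤ 2 * M / R * |E - E'| := by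
  obtain ⟨F, h1, h2, h3⟩ := ext_real j E0 l R M hb
  have key := lip F R M hR h1 h2 ((E - E0 : ℝ) : ℂ) ((E' - E0 : ℝ) : ℂ)
    (by rw [Complex.norm_real]; exact hE) (by rw [Complex.norm_real]; exact hE')
  rw [h3 E (by linarith), h3 E' (by linarith), ← Complex.ofReal_sub, ← Complex.ofReal_sub,
    Complex.norm_real, Complex.norm_real, Real.norm_eq_abs, Real.norm_eq_abs] at key
  have e : E - E0 - (E' - E0) = E - E' := by ring
  rwa [e] at key

theorem incr2 (j : ℕ) (E0 l R M : ℝ) (hR : 0 < R)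
    (hb : ∀ z : ℂ, ‖z‖ < R → ‖vv (j + 1) ((E0 : ℂ) + z) (l : ℂ) - vv j ((E0 : ℂ) + z) (l : ℂ)‖ ≤ M) :
    ∃ β : ℝ, ∀ r : ℝ, r ≤ R / 8 → ∀ E E' : ℝ, |E - E0| ≤ r → |E' - E0| ≤ r →
      |(vv (j + 1) E l - vv j E l) - (vv (j + 1) E' l - vv j E' l) - β * (E - E')|
        ≤ 8 * M / R ^ 2 * r * |E - E'| := by
  obtain ⟨F, h1, h2, h3⟩ := ext_real j E0 l R M hb
  refine ⟨(deriv F 0).re, ?_⟩
  intro r hr E E' hE hE'
  have key := lip2 F R M hR h1 h2 r hr ((E - E0 : ℝ) : ℂ) ((E' - E0 : ℝ) : ℂ)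
    (by rw [Complex.norm_real]; exact hE) (by rw [Complex.norm_real]; exact hE')
  have e : ((E - E0 : ℝ) : ℂ) - ((E' - E0 : ℝ) : ℂ) = ((E - E' : ℝ) : ℂ) := by push_cast; ring
  rw [h3 E (by linarith), h3 E' (by linarith), e, Complex.norm_real, Real.norm_eq_abs] at key
  refine le_trans ?_ key
  have hre := Complex.abs_re_le_norm (((vv (j + 1) E l - vv j E l : ℝ) : ℂ)
    - ((vv (j + 1) E' l - vv j E' l : ℝ) : ℂ) - deriv F 0 * ((E - E' : ℝ) : ℂ))
  simpa only [Complex.sub_re, Complex.ofReal_re, Complex.mul_re, Complex.ofReal_im, mul_zero,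
    sub_zero] using hre

theorem ph_gt : 3 / 2 < ph := by
  have : 2 < √5 := by rw [Real.lt_sqrt (by norm_num)]; norm_num
  unfold ph
  linarith

theorem geo (m n : ℕ) (hn : n ≤ m) :
    ∑ j ∈ Finset.range n, (ph⁻¹) ^ (m - j) ≤ 3 * (ph⁻¹) ^ (m - n + 1) := by
  have hp := ph_gt
  have hq0 : 0 < ph⁻¹ := by positivity
  have hq1 : ph⁻¹ ≤ 2 / 3 := by
    rw [inv_le_comm₀ (by linarith) (by norm_num)]
    linarith
  induction n with
  | zero => simp; positivity
  | succ n ih =>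
    have := ih (by omega)
    rw [Finset.sum_range_succ, show m - (n + 1) + 1 = m - n by omega]
    have e : (ph⁻¹) ^ (m - n + 1) = ph⁻¹ * (ph⁻¹) ^ (m - n) := by rw [pow_succ]; ring
    rw [e] at this
    have hpos : 0 < (ph⁻¹) ^ (m - n) := by positivity
    nlinarith

end T1

open T1

theorem nearAff (hV : VStepC) (hB : VBound) (hG : GrLow) (hR : RhoRatio) : NearAff := by
  obtain ⟨C1, hV⟩ := hV
  obtain ⟨C2, hB⟩ := hB
  obtain ⟨C3, hG⟩ := hG
  obtain ⟨D, hD⟩ : ∃ D, D = 3 * C2 + C3 + C1 + 8 := ⟨_, rfl⟩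
  refine ⟨2 * D, ?_⟩
  intro m L E0 l θ hok hLm hCr hTw
  obtain ⟨hθ, hCθ, hl, hlθ, hpL, hLθ⟩ := hok
  have hD8 : (8 : ℝ) ≤ D := by
    have : 8 ≤ D := by omega
    exact_mod_cast this
  have hDC1 : (C1 : ℝ) ≤ D := by
    have : C1 ≤ D := by omega
    exact_mod_cast this
  have hcast : ((2 * D : ℕ) : ℝ) = 2 * D := by push_cast; ring
  rw [hcast] at hCθ
  have hθ8 : θ ≤ 1 / 8 := by nlinarith
  have hθ1 : θ ≤ 1 := by linarith
  have hlθ1 : l ≤ θ := hlθ.trans ((pow_le_pow_of_le_one hθ.le hθ1 (by omega : 1 ≤ 2 * D)).trans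
    (by rw [pow_one]))
  have hl8 : l ≤ 1 / 8 := by linarith
  have hl1 : l ≤ 1 := by linarith
  have hOkl : Okl l l := ⟨hl, hl8, hl, by linarith⟩
  have hOkθ : Okl θ l := ⟨hl, hl8, hθ, by linarith⟩
  have hil : 8 ≤ 1 / l := by rw [le_div_iff₀ hl]; linarith
  have hph := ph_gt
  have hph2 : ph ≤ 2 := by
    unfold ph
    have : √5 ≤ 3 := by rw [Real.sqrt_le_left (by norm_num)]; norm_num
    linarith
  have hph0 : 0 < ph := by linarith
  have hph1 : 1 ≤ ph := by linarith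
  have hρ : ∀ j, 0 < rho j E0 l := fun j => G5_rho_pos j E0 l
  have hρm := hρ m
  obtain ⟨L', hL'⟩ : ∃ L', L' = L / 2 := ⟨_, rfl⟩
  -- (1/l)^D ≤ ph^(L'+1)
  have hD1 : (1 / l) ^ D ≤ ph ^ (L' + 1) := by
    have h1 : ((1 / l) ^ D) ^ 2 ≤ (ph ^ (L' + 1)) ^ 2 := by
      rw [← pow_mul, ← pow_mul]
      calc (1 / l) ^ (D * 2) = (1 / l) ^ (2 * D) := by ring
        _ ≤ ph ^ L := hpL
        _ ≤ ph ^ ((L' + 1) * 2) := pow_le_pow_right₀ hph1 (by omega)
    exact le_of_sq_le_sq h1 (by positivity)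
  have hD2 : (1 / l) ^ C1 ≤ ph ^ L' := by
    have h1 : (1 / l) ^ (D - 1) * (1 / l) ≤ ph ^ L' * ph := by
      rw [← pow_succ, ← pow_succ, show D - 1 + 1 = D by omega]; exact hD1
    have h2 : (1 / l) ^ C1 ≤ (1 / l) ^ (D - 1) := pow_le_pow_right₀ (by linarith) (by omega)
    have h3 : 0 < (1 / l) ^ (D - 1) := by positivity
    have h4 : 0 < ph ^ L' := by positivity
    nlinarith
  have hq : (ph⁻¹) ^ (L' + 1) ≤ l ^ D := by
    rw [inv_pow, inv_le_comm₀ (by positivity) (by positivity)]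
    calc (l ^ D)⁻¹ = (1 / l) ^ D := by rw [one_div, inv_pow]
      _ ≤ ph ^ (L' + 1) := hD1
  -- region 2
  have hOk' : OkT C1 θ l L' := by
    refine ⟨hθ, by nlinarith, hl, hlθ.trans (pow_le_pow_of_le_one hθ.le hθ1 (by omega)), hD2, ?_⟩
    have : (L' : ℝ) ≤ L := by
      have : L' ≤ L := by omega
      exact_mod_cast this
    nlinarith
  obtain ⟨r, hr⟩ : ∃ r, r = θ ^ (2 * D) / rho m E0 l := ⟨_, rfl⟩
  have hr0 : 0 < r := by rw [hr]; positivity
  have hdisc : ∀ E, |E - E0| * rho m E0 l ≤ θ ^ (2 * D) → |E - E0| ≤ r := by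
    intro E hE
    rw [hr, le_div_iff₀ hρm]; exact hE
  have reg2 : ∀ j, m - L' ≤ j → j < m → ∀ E E', |E - E0| ≤ r → |E' - E0| ≤ r →
      θ ^ (2 * C1) * |(vv (j + 1) E l - vv j E l) - (vv (j + 1) E' l - vv j E' l)|
        ≤ 2 * l * |E - E'| := by
    intro j hj1 hj2 E E' hE hE'
    have hρj := hρ j
    have hθC : 0 < θ ^ C1 := by positivity
    have hg := hG j m E0 l θ hOkθ hj2.le
      (Or.inr ⟨hlθ1, fun i hi1 hi2 => hTw i (by omega) (by omega)⟩)
      (Or.inr ⟨hlθ1, fun i hi1 hi2 => hTw i (by omega) (by omega)⟩)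
    have hg' : θ ^ C3 * rho j E0 l ≤ rho m E0 l := by
      refine le_trans ?_ hg
      have h1 : (1 : ℝ) ≤ ph ^ (m - j) := one_le_pow₀ hph1
      have h2 : 0 < θ ^ C3 * rho j E0 l := by positivity
      nlinarith
    have hrj : r ≤ θ ^ C1 / rho j E0 l / 4 := by
      rw [hr, div_div, div_le_div_iff₀ hρm (by positivity)]
      have h1 : θ ^ (2 * D) ≤ θ ^ C1 * θ ^ C3 * θ := by
        rw [← pow_add, ← pow_succ]
        exact pow_le_pow_of_le_one hθ.le hθ1 (by omega)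
      calc θ ^ (2 * D) * (rho j E0 l * 4) ≤ θ ^ C1 * θ ^ C3 * θ * (rho j E0 l * 4) := by gcongr
        _ = θ ^ C1 * (θ ^ C3 * rho j E0 l) * (4 * θ) := by ring
        _ ≤ θ ^ C1 * rho m E0 l * (4 * θ) := by gcongr
        _ ≤ θ ^ C1 * rho m E0 l * 1 := by gcongr; linarith
        _ = θ ^ C1 * rho m E0 l := by ring
    have hb : ∀ z : ℂ, ‖z‖ < θ ^ C1 / rho j E0 l →
        ‖vv (j + 1) ((E0 : ℂ) + z) (l : ℂ) - vv j ((E0 : ℂ) + z) (l : ℂ)‖
          ≤ l / (θ ^ C1 * rho j E0 l) := by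
      intro z hz
      have h1 := hV j L' E0 l θ hOk' (by omega) (fun i hi => hCr i (by omega))
        (fun i hi1 hi2 => hTw i (by omega) (by omega)) z (by
          rw [lt_div_iff₀ hρj] at hz; exact hz.le)
      rw [le_div_iff₀ (by positivity)]
      calc _ = θ ^ C1 * rho j E0 l *
            ‖vv (j + 1) ((E0 : ℂ) + z) (l : ℂ) - vv j ((E0 : ℂ) + z) (l : ℂ)‖ := by ring
        _ ≤ l := h1
    have key := incr1 j E0 l (θ ^ C1 / rho j E0 l) (l / (θ ^ C1 * rho j E0 l)) (by positivity) hb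
      E E' (hE.trans hrj) (hE'.trans hrj)
    have e : 2 * (l / (θ ^ C1 * rho j E0 l)) / (θ ^ C1 / rho j E0 l) = 2 * l / θ ^ (2 * C1) := by
      rw [two_mul C1, pow_add]; field_simp
    rw [e] at key
    calc _ ≤ θ ^ (2 * C1) * (2 * l / θ ^ (2 * C1) * |E - E'|) := by gcongr
      _ = 2 * l * |E - E'| := by field_simp
  -- region 1
  have reg1 : ∀ j, ∃ b : ℝ, j < m - L' → ∀ E E', |E - E0| ≤ r → |E' - E0| ≤ r →
      l ^ (3 * C2 + C3) * |(vv (j + 1) E l - vv j E l) - (vv (j + 1) E' l - vv j E' l)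
        - b * (E - E')| ≤ 8 * (ph⁻¹) ^ (m - j) * |E - E'| := by
    intro j
    by_cases hj : j < m - L'
    swap
    · exact ⟨0, fun h => absurd h hj⟩
    have hρj := hρ j
    have hlC : 0 < l ^ C2 := by positivity
    have hb : ∀ z : ℂ, ‖z‖ < l ^ C2 / rho j E0 l →
        ‖vv (j + 1) ((E0 : ℂ) + z) (l : ℂ) - vv j ((E0 : ℂ) + z) (l : ℂ)‖
          ≤ 1 / (l ^ C2 * rho j E0 l) := by
      intro z hz
      have h1 := (hB j E0 l hl hl8 (fun i hi => hCr i (by omega)) z 0 (by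
          rw [norm_zero, add_zero]
          rw [lt_div_iff₀ hρj] at hz; exact hz.le)).2.1
      rw [add_zero] at h1
      rw [le_div_iff₀ (by positivity)]
      calc _ = l ^ C2 * rho j E0 l *
            ‖vv (j + 1) ((E0 : ℂ) + z) (l : ℂ) - vv j ((E0 : ℂ) + z) (l : ℂ)‖ := by ring
        _ ≤ 1 := h1
    obtain ⟨b, hb⟩ := incr2 j E0 l (l ^ C2 / rho j E0 l) (1 / (l ^ C2 * rho j E0 l))
      (by positivity) hb
    refine ⟨b, fun _ E E' hE hE' => ?_⟩
    have hg := hG j m E0 l l hOkl (by omega) (Or.inl ⟨rfl, hCr j (by omega)⟩)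
      (Or.inl ⟨rfl, hCr m (by omega)⟩)
    -- rho j * r ≤ l^{-C3} q^{m-j}
    have hρr : l ^ C3 * (rho j E0 l * r) ≤ (ph⁻¹) ^ (m - j) := by
      have h1 : θ ^ (2 * D) ≤ 1 := pow_le_one₀ hθ.le hθ1
      rw [hr, inv_pow, ← one_div, le_div_iff₀ (by positivity)]
      have h2 : l ^ C3 * (rho j E0 l * (θ ^ (2 * D) / rho m E0 l)) * ph ^ (m - j)
          = θ ^ (2 * D) * ((l ^ C3 * ph ^ (m - j) * rho j E0 l) / rho m E0 l) := by
        field_simp
      rw [h2]
      have h3 : (l ^ C3 * ph ^ (m - j) * rho j E0 l) / rho m E0 l ≤ 1 := by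
        rw [div_le_one hρm]; exact hg
      have h4 : 0 ≤ (l ^ C3 * ph ^ (m - j) * rho j E0 l) / rho m E0 l := by positivity
      nlinarith [pow_pos hθ (2 * D)]
    have hqm : (ph⁻¹) ^ (m - j) ≤ l ^ D := by
      refine le_trans ?_ hq
      apply pow_le_pow_of_le_one (by positivity) _ (by omega)
      rw [inv_le_one₀ hph0]; exact hph1
    have hr8 : r ≤ l ^ C2 / rho j E0 l / 8 := by
      rw [le_div_iff₀ (by norm_num), le_div_iff₀ hρj]
      have h1 : l ^ C3 * (r * 8 * rho j E0 l) ≤ l ^ C3 * l ^ C2 := by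
        calc l ^ C3 * (r * 8 * rho j E0 l) = 8 * (l ^ C3 * (rho j E0 l * r)) := by ring
          _ ≤ 8 * l ^ D := by linarith
          _ ≤ 8 * l ^ (C3 + C2 + 1) := by
              gcongr 8 * ?_
              exact pow_le_pow_of_le_one hl.le hl1 (by omega)
          _ = l ^ C3 * l ^ C2 * (8 * l) := by ring
          _ ≤ l ^ C3 * l ^ C2 * 1 := by gcongr; linarith
          _ = l ^ C3 * l ^ C2 := by ring
      exact le_of_mul_le_mul_left h1 (by positivity)
    have key := hb r hr8 E E' hE hE'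
    have e : 8 * (1 / (l ^ C2 * rho j E0 l)) / (l ^ C2 / rho j E0 l) ^ 2 * r
        = 8 * (rho j E0 l * r) / l ^ (3 * C2) := by
      rw [show 3 * C2 = C2 + C2 + C2 by ring, pow_add, pow_add]; field_simp
    rw [e] at key
    calc _ ≤ l ^ (3 * C2 + C3) * (8 * (rho j E0 l * r) / l ^ (3 * C2) * |E - E'|) := by gcongr
      _ = 8 * (l ^ C3 * (rho j E0 l * r)) * |E - E'| := by rw [pow_add]; field_simp
      _ ≤ 8 * (ph⁻¹) ^ (m - j) * |E - E'| := by gcongr
  choose b hb using reg1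
  refine ⟨∑ j ∈ Finset.range (m - L'), b j, ?_⟩
  -- key estimate
  have v0 : ∀ E : ℝ, vv 0 E l = 1 / 2 := by
    intro E; unfold vv; simp; norm_num
  have key : ∀ E E', |E - E0| ≤ r → |E' - E0| ≤ r →
      θ ^ (2 * C1 + 2) * |vv m E l - vv m E' l - (∑ j ∈ Finset.range (m - L'), b j) * (E - E')|
        ≤ l * |E - E'| := by
    intro E E' hE hE'
    have tel : ∀ n, vv n E l - vv n E' l = ∑ j ∈ Finset.range n,
        ((vv (j + 1) E l - vv j E l) - (vv (j + 1) E' l - vv j E' l)) := by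
      intro n
      induction n with
      | zero => rw [v0, v0]; simp
      | succ n ih => rw [Finset.sum_range_succ, ← ih]; ring
    have hsplit : ∑ j ∈ Finset.range m,
        ((vv (j + 1) E l - vv j E l) - (vv (j + 1) E' l - vv j E' l)) =
        ∑ j ∈ Finset.range (m - L'),
          ((vv (j + 1) E l - vv j E l) - (vv (j + 1) E' l - vv j E' l)) +
        ∑ j ∈ Finset.Ico (m - L') m,
          ((vv (j + 1) E l - vv j E l) - (vv (j + 1) E' l - vv j E' l)) :=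
      (Finset.sum_range_add_sum_Ico _ (by omega)).symm
    have e1 : vv m E l - vv m E' l - (∑ j ∈ Finset.range (m - L'), b j) * (E - E') =
        ∑ j ∈ Finset.range (m - L'),
          ((vv (j + 1) E l - vv j E l) - (vv (j + 1) E' l - vv j E' l) - b j * (E - E')) +
        ∑ j ∈ Finset.Ico (m - L') m,
          ((vv (j + 1) E l - vv j E l) - (vv (j + 1) E' l - vv j E' l)) := by
      rw [tel m, hsplit, Finset.sum_mul, Finset.sum_sub_distrib (f := fun j =>
        (vv (j + 1) E l - vv j E l) - (vv (j + 1) E' l - vv j E' l))]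
      ring
    rw [e1]
    have hEE : 0 ≤ |E - E'| := abs_nonneg _
    have s1 : |∑ j ∈ Finset.range (m - L'),
          ((vv (j + 1) E l - vv j E l) - (vv (j + 1) E' l - vv j E' l) - b j * (E - E'))|
        ≤ l / 2 * |E - E'| := by
      have hK : 0 < l ^ (3 * C2 + C3) := by positivity
      have h1 : l ^ (3 * C2 + C3) * |∑ j ∈ Finset.range (m - L'),
          ((vv (j + 1) E l - vv j E l) - (vv (j + 1) E' l - vv j E' l) - b j * (E - E'))|
          ≤ 24 * l ^ D * |E - E'| := by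
        calc _ ≤ l ^ (3 * C2 + C3) * ∑ j ∈ Finset.range (m - L'),
            |(vv (j + 1) E l - vv j E l) - (vv (j + 1) E' l - vv j E' l) - b j * (E - E')| := by
              gcongr
              exact Finset.abs_sum_le_sum_abs _ _
          _ = ∑ j ∈ Finset.range (m - L'), l ^ (3 * C2 + C3) *
            |(vv (j + 1) E l - vv j E l) - (vv (j + 1) E' l - vv j E' l) - b j * (E - E')| := by
              rw [Finset.mul_sum]
          _ ≤ ∑ j ∈ Finset.range (m - L'), 8 * (ph⁻¹) ^ (m - j) * |E - E'| :=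
              Finset.sum_le_sum fun j hj => hb j (Finset.mem_range.1 hj) E E' hE hE'
          _ = 8 * (∑ j ∈ Finset.range (m - L'), (ph⁻¹) ^ (m - j)) * |E - E'| := by
              rw [Finset.mul_sum, Finset.sum_mul]
          _ ≤ 8 * (3 * (ph⁻¹) ^ (m - (m - L') + 1)) * |E - E'| := by
              gcongr
              exact geo m (m - L') (by omega)
          _ = 24 * (ph⁻¹) ^ (L' + 1) * |E - E'| := by
              rw [show m - (m - L') = L' by omega]; ring
          _ ≤ 24 * l ^ D * |E - E'| := by gcongr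
      have h2 : 24 * l ^ D ≤ l ^ (3 * C2 + C3) * (l / 2) := by
        calc 24 * l ^ D ≤ 24 * l ^ (3 * C2 + C3 + 3) := by
              gcongr 24 * ?_
              exact pow_le_pow_of_le_one hl.le hl1 (by omega)
          _ = l ^ (3 * C2 + C3) * (l * (24 * l ^ 2)) := by ring
          _ ≤ l ^ (3 * C2 + C3) * (l * (1 / 2)) := by
              gcongr
              nlinarith
          _ = _ := by ring
      have h3 : l ^ (3 * C2 + C3) * |∑ j ∈ Finset.range (m - L'),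
          ((vv (j + 1) E l - vv j E l) - (vv (j + 1) E' l - vv j E' l) - b j * (E - E'))|
          ≤ l ^ (3 * C2 + C3) * (l / 2 * |E - E'|) := by
        calc _ ≤ 24 * l ^ D * |E - E'| := h1
          _ ≤ l ^ (3 * C2 + C3) * (l / 2) * |E - E'| := by gcongr
          _ = _ := by ring
      exact le_of_mul_le_mul_left h3 hK
    have s2 : θ ^ (2 * C1) * θ * |∑ j ∈ Finset.Ico (m - L') m,
          ((vv (j + 1) E l - vv j E l) - (vv (j + 1) E' l - vv j E' l))|
        ≤ 2 * l * |E - E'| := by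
      have h1 : θ ^ (2 * C1) * |∑ j ∈ Finset.Ico (m - L') m,
          ((vv (j + 1) E l - vv j E l) - (vv (j + 1) E' l - vv j E' l))|
          ≤ L' * (2 * l * |E - E'|) := by
        calc _ ≤ θ ^ (2 * C1) * ∑ j ∈ Finset.Ico (m - L') m,
            |(vv (j + 1) E l - vv j E l) - (vv (j + 1) E' l - vv j E' l)| := by
              gcongr
              exact Finset.abs_sum_le_sum_abs _ _
          _ = ∑ j ∈ Finset.Ico (m - L') m, θ ^ (2 * C1) *
            |(vv (j + 1) E l - vv j E l) - (vv (j + 1) E' l - vv j E' l)| := by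
              rw [Finset.mul_sum]
          _ ≤ ∑ j ∈ Finset.Ico (m - L') m, 2 * l * |E - E'| :=
              Finset.sum_le_sum fun j hj => reg2 j (Finset.mem_Ico.1 hj).1 (Finset.mem_Ico.1 hj).2
                E E' hE hE'
          _ = L' * (2 * l * |E - E'|) := by
              rw [Finset.sum_const, Nat.card_Ico, nsmul_eq_mul,
                show m - (m - L') = L' by omega]
      calc _ = θ * (θ ^ (2 * C1) * |∑ j ∈ Finset.Ico (m - L') m,
          ((vv (j + 1) E l - vv j E l) - (vv (j + 1) E' l - vv j E' l))|) := by ring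
        _ ≤ θ * (L' * (2 * l * |E - E'|)) := by gcongr
        _ = (L' * θ) * (2 * l * |E - E'|) := by ring
        _ ≤ 1 * (2 * l * |E - E'|) := by
            gcongr
            exact hOk'.2.2.2.2.2
        _ = 2 * l * |E - E'| := one_mul _
    set S1 := ∑ j ∈ Finset.range (m - L'),
          ((vv (j + 1) E l - vv j E l) - (vv (j + 1) E' l - vv j E' l) - b j * (E - E'))
    set S2 := ∑ j ∈ Finset.Ico (m - L') m,
          ((vv (j + 1) E l - vv j E l) - (vv (j + 1) E' l - vv j E' l))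
    have hp1 : θ ^ (2 * C1 + 2) ≤ 1 := pow_le_one₀ hθ.le hθ1
    calc θ ^ (2 * C1 + 2) * |S1 + S2| ≤ θ ^ (2 * C1 + 2) * (|S1| + |S2|) := by
          gcongr
          exact abs_add_le _ _
      _ = θ ^ (2 * C1 + 2) * |S1| + θ * (θ ^ (2 * C1) * θ * |S2|) := by ring
      _ ≤ 1 * (l / 2 * |E - E'|) + 1 / 8 * (2 * l * |E - E'|) := by
          gcongr
      _ ≤ l * |E - E'| := by nlinarith [mul_nonneg hl.le hEE]
  constructor
  · intro E hE
    have hE1 := hdisc E hE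
    have h1 := key E E0 hE1 (by simp; exact hr0.le)
    set X := |vv m E l - vv m E0 l - (∑ j ∈ Finset.range (m - L'), b j) * (E - E0)|
    have hX : 0 ≤ X := abs_nonneg _
    have h2 : θ ^ (2 * D) ≤ θ ^ (2 * C1 + 2) := pow_le_pow_of_le_one hθ.le hθ1 (by omega)
    calc θ ^ (2 * D) * rho m E0 l * X = rho m E0 l * (θ ^ (2 * D) * X) := by ring
      _ ≤ rho m E0 l * (θ ^ (2 * C1 + 2) * X) := by gcongr
      _ ≤ rho m E0 l * (l * |E - E0|) := by gcongr
      _ = l * (|E - E0| * rho m E0 l) := by ring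
      _ ≤ l * θ ^ (2 * D) := by gcongr
      _ ≤ l * 1 := by
          gcongr
          exact pow_le_one₀ hθ.le hθ1
      _ = l := mul_one l
  · intro E E' hE hE'
    have h1 := key E E' (hdisc E hE) (hdisc E' hE')
    set X := |vv m E l - vv m E' l - (∑ j ∈ Finset.range (m - L'), b j) * (E - E')|
    have hX : 0 ≤ X := abs_nonneg _
    have h2 : l ^ (2 * D) ≤ θ ^ (2 * C1 + 2) := by
      calc l ^ (2 * D) ≤ θ ^ (2 * D) := pow_le_pow_left₀ hl.le hlθ1 _
        _ ≤ θ ^ (2 * C1 + 2) := pow_le_pow_of_le_one hθ.le hθ1 (by omega)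
    calc l ^ (2 * D) * X ≤ θ ^ (2 * C1 + 2) * X := by gcongr
      _ ≤ l * |E - E'| := h1
      _ ≤ 1 * |E - E'| := by gcongr
      _ = |E - E'| := one_mul _

end FIB
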