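import Pool.Agent.Helper75.FIB.Iface3

/-!
# FIB block T1c : typical increments of v_m on a complex disc

`NB` bounds (`NTyp`) at level `m` give at the complex point `|R_m × B_m| <= l θ^{-C} rho m`. Let `(x,y,z)`-bilinear products: `v_m = -(B·R)/(R·R)`, `Z = B_m + v_m R_m = ± (R_m × N_m)/(R_m·R_m)`, so `|Z| <= l θ^{-C}` once `|R_m·R_m| >= rho m^2/4` and `|R_m| <= 2 rho m`: real `R_m·R_m >= rho m^2`; perturbation: `SLoc` (`ε = θ`,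
level `m`, `Tw` gives `Ty θ m`, `Ty θ (m+1)`) and Cauchy for the derivative of `trE`: `|trE j(E+z) - trE j(E)| <= θ^{-C'} |z| rho m^2 <= rho m/16` for `j = m..m+3`.
`R_{m+1} = A R_m`, `B_{m+1} = A B_m` with `A = [[0,1,0],[0,0,1],[-1, 2x_{m+2}, 2x_{m+1}]]` (`x_{m+1},x_{m+2}` at the complex point, bounded by 2), so `B_{m+1} = -v_m R_{m+1} + A Z`, and `v_{m+1} - v_m = -(A Z·R_{m+1})/(R_{m+1}·R_{m+1})`, `|R_{m+1}·R_{m+1}| >= rho(m+1)^2/4 >= rho m^2/400`. So the difference is bounded by `l θ^{-C}/rho m`.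
-/

namespace FIB

open Real MeasureTheory Set Filter Topology

/-- Cauchy estimates: the derivative of a bounded entire function is Lipschitz near the centre. -/
theorem T1c_deriv_close {f f' : ℂ → ℂ} (hf : ∀ x, HasDerivAt f (f' x) x) {c : ℂ} {r M : ℝ}
    (hr : 0 < r) (hM : ∀ x, ‖x - c‖ ≤ r → ‖f x‖ ≤ M) {z : ℂ} (hz : ‖z‖ ≤ r / 4) :
    ‖f' (c + z) - f' c‖ ≤ 8 * M / r ^ 2 * ‖z‖ := by
  have hd : Differentiable ℂ f := fun x => (hf x).differentiableAt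
  have hf' : f' = deriv f := by
    funext x; exact ((hf x).deriv).symm
  have hd' : Differentiable ℂ f' := by
    rw [hf']
    have h1 : DifferentiableOn ℂ (deriv f) univ := hd.differentiableOn.deriv isOpen_univ
    exact differentiableOn_univ.1 h1
  have hA : ∀ x, ‖x - c‖ ≤ r / 2 → ‖f' x‖ ≤ M / (r / 2) := by
    intro x hx
    rw [hf']
    refine Complex.norm_deriv_le_of_forall_mem_sphere_norm_le (by positivity)
      hd.diffContOnCl (fun y hy => hM y ?_)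
    rw [mem_sphere_iff_norm] at hy
    calc ‖y - c‖ = ‖(y - x) + (x - c)‖ := by ring_nf
      _ ≤ ‖y - x‖ + ‖x - c‖ := norm_add_le _ _
      _ ≤ r := by linarith
  have hB : ∀ x, ‖x - c‖ ≤ r / 4 → ‖deriv f' x‖ ≤ M / (r / 2) / (r / 4) := by
    intro x hx
    refine Complex.norm_deriv_le_of_forall_mem_sphere_norm_le (by positivity)
      hd'.diffContOnCl (fun y hy => hA y ?_)
    rw [mem_sphere_iff_norm] at hy
    calc ‖y - c‖ = ‖(y - x) + (x - c)‖ := by ring_nf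
      _ ≤ ‖y - x‖ + ‖x - c‖ := norm_add_le _ _
      _ ≤ r / 2 := by linarith
  have hC := Convex.norm_image_sub_le_of_norm_deriv_le (f := f') (C := M / (r / 2) / (r / 4))
    (s := Metric.closedBall c (r / 4)) (x := c) (y := c + z) (fun x _ => hd' x)
    (fun x hx => hB x (by rwa [mem_closedBall_iff_norm] at hx)) (convex_closedBall _ _)
    (Metric.mem_closedBall_self (by positivity))
    (by rw [mem_closedBall_iff_norm]; simpa using hz)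
  calc ‖f' (c + z) - f' c‖ ≤ M / (r / 2) / (r / 4) * ‖c + z - c‖ := hC
    _ = 8 * M / r ^ 2 * ‖z‖ := by
      rw [add_sub_cancel_left]
      field_simp
      ring

/-- the algebra of one step -/
theorem T1c_alg {R0 R1 R2 B0 B1 B2 x1 x2 : ℂ} (hD0 : R0 ^ 2 + R1 ^ 2 + R2 ^ 2 ≠ 0)
    (hD1 : R1 ^ 2 + R2 ^ 2 + (2 * (R2 * x1 + x2 * R1) - R0) ^ 2 ≠ 0) {ρ N : ℝ} (hρ : 0 < ρ)
    (hN : ‖R1 * B2 - R2 * B1‖ + ‖R2 * B0 - R0 * B2‖ + ‖R0 * B1 - R1 * B0‖ ≤ N)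
    (h0 : ‖R0‖ ≤ 2 * ρ) (h1 : ‖R1‖ ≤ 2 * ρ) (h2 : ‖R2‖ ≤ 2 * ρ) (hx1 : ‖x1‖ ≤ 2) (hx2 : ‖x2‖ ≤ 2)
    (hd0 : ρ ^ 2 / 4 ≤ ‖R0 ^ 2 + R1 ^ 2 + R2 ^ 2‖)
    (hd1 : ρ ^ 2 / 162 ≤ ‖R1 ^ 2 + R2 ^ 2 + (2 * (R2 * x1 + x2 * R1) - R0) ^ 2‖) :
    ‖(-(B1 * R1 + B2 * R2 + (2 * (B2 * x1 + x2 * B1) - B0) * (2 * (R2 * x1 + x2 * R1) - R0)) /
        (R1 ^ 2 + R2 ^ 2 + (2 * (R2 * x1 + x2 * R1) - R0) ^ 2))
      - (-(B0 * R0 + B1 * R1 + B2 * R2) / (R0 ^ 2 + R1 ^ 2 + R2 ^ 2))‖ * ρ ^ 2 ≤ 8 ^ 7 * N := by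
  set R3 : ℂ := 2 * (R2 * x1 + x2 * R1) - R0 with hR3
  set v : ℂ := -(B0 * R0 + B1 * R1 + B2 * R2) / (R0 ^ 2 + R1 ^ 2 + R2 ^ 2) with hv
  set D0 : ℂ := R0 ^ 2 + R1 ^ 2 + R2 ^ 2 with hDD0
  set D1 : ℂ := R1 ^ 2 + R2 ^ 2 + R3 ^ 2 with hDD1
  have hN0 : 0 ≤ N := le_trans (by positivity) hN
  have hvD : v * D0 = -(B0 * R0 + B1 * R1 + B2 * R2) := by
    rw [hv]; field_simp
  have hn1 : ‖R1 * B2 - R2 * B1‖ ≤ N := by
    have := norm_nonneg (R2 * B0 - R0 * B2)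
    have := norm_nonneg (R0 * B1 - R1 * B0)
    linarith
  have hn2 : ‖R2 * B0 - R0 * B2‖ ≤ N := by
    have := norm_nonneg (R1 * B2 - R2 * B1)
    have := norm_nonneg (R0 * B1 - R1 * B0)
    linarith
  have hn3 : ‖R0 * B1 - R1 * B0‖ ≤ N := by
    have := norm_nonneg (R1 * B2 - R2 * B1)
    have := norm_nonneg (R2 * B0 - R0 * B2)
    linarith
  -- the vector Z
  have hgen : ∀ (Z P Q a b : ℂ), Z * D0 = P * a + Q * b → ‖P‖ ≤ 2 * ρ → ‖Q‖ ≤ 2 * ρ →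
      ‖a‖ ≤ N → ‖b‖ ≤ N → ‖Z‖ * ρ ≤ 16 * N := by
    intro Z P Q a b hZ hP hQ ha hb
    have e1 : ‖Z‖ * ‖D0‖ ≤ 2 * ρ * N + 2 * ρ * N := by
      rw [← norm_mul, hZ]
      calc ‖P * a + Q * b‖ ≤ ‖P * a‖ + ‖Q * b‖ := norm_add_le _ _
        _ = ‖P‖ * ‖a‖ + ‖Q‖ * ‖b‖ := by rw [norm_mul, norm_mul]
        _ ≤ _ := by
          gcongr
    have e2 : ‖Z‖ * (ρ ^ 2 / 4) ≤ ‖Z‖ * ‖D0‖ := mul_le_mul_of_nonneg_left hd0 (norm_nonneg _)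
    have e3 : (‖Z‖ * ρ) * ρ ≤ (16 * N) * ρ := by nlinarith
    exact le_of_mul_le_mul_right e3 hρ
  have hZ0 : ‖B0 + v * R0‖ * ρ ≤ 16 * N :=
    hgen _ (-R1) R2 (R0 * B1 - R1 * B0) (R2 * B0 - R0 * B2)
      (by rw [add_mul, show v * R0 * D0 = (v * D0) * R0 by ring, hvD, hDD0]; ring)
      (by rwa [norm_neg]) h2 hn3 hn2
  have hZ1 : ‖B1 + v * R1‖ * ρ ≤ 16 * N :=
    hgen _ R0 (-R2) (R0 * B1 - R1 * B0) (R1 * B2 - R2 * B1)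
      (by rw [add_mul, show v * R1 * D0 = (v * D0) * R1 by ring, hvD, hDD0]; ring)
      h0 (by rwa [norm_neg]) hn3 hn1
  have hZ2 : ‖B2 + v * R2‖ * ρ ≤ 16 * N :=
    hgen _ R1 (-R0) (R1 * B2 - R2 * B1) (R2 * B0 - R0 * B2)
      (by rw [add_mul, show v * R2 * D0 = (v * D0) * R2 by ring, hvD, hDD0]; ring)
      h1 (by rwa [norm_neg]) hn1 hn2
  have hR3n : ‖R3‖ ≤ 18 * ρ := by
    rw [hR3]
    calc ‖2 * (R2 * x1 + x2 * R1) - R0‖ ≤ ‖2 * (R2 * x1 + x2 * R1)‖ + ‖R0‖ := norm_sub_le _ _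
      _ ≤ 2 * (‖R2‖ * ‖x1‖ + ‖x2‖ * ‖R1‖) + ‖R0‖ := by
        rw [norm_mul, Complex.norm_two]
        gcongr
        calc ‖R2 * x1 + x2 * R1‖ ≤ ‖R2 * x1‖ + ‖x2 * R1‖ := norm_add_le _ _
          _ = _ := by rw [norm_mul, norm_mul]
      _ ≤ 2 * (2 * ρ * 2 + 2 * (2 * ρ)) + 2 * ρ := by gcongr
      _ = 18 * ρ := by ring
  have hZ3 : ‖2 * ((B2 + v * R2) * x1 + x2 * (B1 + v * R1)) - (B0 + v * R0)‖ * ρ ≤ 144 * N := by
    have e1 : ‖2 * ((B2 + v * R2) * x1 + x2 * (B1 + v * R1)) - (B0 + v * R0)‖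
        ≤ 2 * (‖B2 + v * R2‖ * 2 + 2 * ‖B1 + v * R1‖) + ‖B0 + v * R0‖ := by
      calc _ ≤ ‖2 * ((B2 + v * R2) * x1 + x2 * (B1 + v * R1))‖ + ‖B0 + v * R0‖ := norm_sub_le _ _
        _ ≤ _ := by
          rw [norm_mul, Complex.norm_two]
          gcongr
          calc ‖(B2 + v * R2) * x1 + x2 * (B1 + v * R1)‖
              ≤ ‖(B2 + v * R2) * x1‖ + ‖x2 * (B1 + v * R1)‖ := norm_add_le _ _
            _ = ‖B2 + v * R2‖ * ‖x1‖ + ‖x2‖ * ‖B1 + v * R1‖ := by rw [norm_mul, norm_mul]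
            _ ≤ _ := by gcongr
    nlinarith [mul_le_mul_of_nonneg_right e1 hρ.le]
  have hfin : (-(B1 * R1 + B2 * R2 + (2 * (B2 * x1 + x2 * B1) - B0) * R3) / D1) - v
      = -((B1 + v * R1) * R1 + (B2 + v * R2) * R2
        + (2 * ((B2 + v * R2) * x1 + x2 * (B1 + v * R1)) - (B0 + v * R0)) * R3) / D1 := by
    rw [div_sub' hD1]
    congr 1
    rw [hDD1, hR3]
    ring
  rw [hfin, norm_div, norm_neg]
  have hD1p : 0 < ‖D1‖ := norm_pos_iff.2 hD1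
  have hnum : ‖(B1 + v * R1) * R1 + (B2 + v * R2) * R2
        + (2 * ((B2 + v * R2) * x1 + x2 * (B1 + v * R1)) - (B0 + v * R0)) * R3‖ ≤ 3000 * N := by
    have e1 : ‖(B1 + v * R1) * R1‖ ≤ 32 * N := by
      rw [norm_mul]
      nlinarith [mul_le_mul_of_nonneg_left h1 (norm_nonneg (B1 + v * R1))]
    have e2 : ‖(B2 + v * R2) * R2‖ ≤ 32 * N := by
      rw [norm_mul]
      nlinarith [mul_le_mul_of_nonneg_left h2 (norm_nonneg (B2 + v * R2))]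
    have e3 : ‖(2 * ((B2 + v * R2) * x1 + x2 * (B1 + v * R1)) - (B0 + v * R0)) * R3‖
        ≤ 18 * 144 * N := by
      rw [norm_mul]
      nlinarith [mul_le_mul_of_nonneg_left hR3n
        (norm_nonneg (2 * ((B2 + v * R2) * x1 + x2 * (B1 + v * R1)) - (B0 + v * R0)))]
    calc _ ≤ ‖(B1 + v * R1) * R1 + (B2 + v * R2) * R2‖ +
          ‖(2 * ((B2 + v * R2) * x1 + x2 * (B1 + v * R1)) - (B0 + v * R0)) * R3‖ :=
            norm_add_le _ _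
      _ ≤ (‖(B1 + v * R1) * R1‖ + ‖(B2 + v * R2) * R2‖) + _ := by
            gcongr
            exact norm_add_le _ _
      _ ≤ 3000 * N := by linarith
  rw [div_mul_eq_mul_div, div_le_iff₀ hD1p]
  calc _ ≤ 3000 * N * ρ ^ 2 := by gcongr
    _ ≤ 8 ^ 7 * N * ‖D1‖ := by
      nlinarith [mul_le_mul_of_nonneg_left hd1 hN0, mul_nonneg hN0 (sq_nonneg ρ)]

theorem vStepC (hN : NTyp) (hS : SLoc) (hG : GrLow) (hR : RhoRatio) : VStepC := by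
  obtain ⟨C1, hC1⟩ := hN
  obtain ⟨C2, hC2⟩ := hS
  refine ⟨C1 + 2 * C2 + 20, ?_⟩
  intro m L E l θ hOk hLm hCr hTw z hz
  obtain ⟨hθ0, hCθ, hl0, hlθ, hph, hLθ⟩ := hOk
  set C := C1 + 2 * C2 + 20 with hC
  have hC20 : (20 : ℝ) ≤ (C : ℝ) := by
    rw [hC]; push_cast
    have := Nat.cast_nonneg (α := ℝ) C1
    have := Nat.cast_nonneg (α := ℝ) C2
    linarith
  have hθ8 : θ ≤ 1 / 8 := by nlinarith
  have hθ1 : θ ≤ 1 := by linarith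
  have hpow : ∀ a b : ℕ, a ≤ b → θ ^ b ≤ θ ^ a := fun a b h => pow_le_pow_of_le_one hθ0.le hθ1 h
  have hlθ1 : l ≤ θ := by
    calc l ≤ θ ^ C := hlθ
      _ ≤ θ ^ 1 := hpow 1 C (by omega)
      _ = θ := pow_one θ
  have hl8 : l ≤ 1 / 8 := by linarith
  by_cases hρ0 : rho m E l = 0
  · rw [hρ0]; simpa using hl0.le
  have hρ : 0 < rho m E l := by
    have : 0 ≤ rho m E l := le_trans (abs_nonneg _) (le_max_left _ _)
    exact lt_of_le_of_ne this (Ne.symm hρ0)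
  set ρ := rho m E l with hρdef
  -- N bound
  have hOk1 : OkT C1 θ l L := by
    refine ⟨hθ0, ?_, hl0, hlθ.trans (hpow _ _ (by omega)), ?_, hLθ⟩
    · have : (C1 : ℝ) ≤ (C : ℝ) := by exact_mod_cast (by omega : C1 ≤ C)
      nlinarith
    · refine le_trans ?_ hph
      have h1 : 1 ≤ 1 / l := by rw [le_div_iff₀ hl0]; linarith
      exact pow_le_pow_right₀ h1 (by omega)
  have hN1 := hC1 m L E l θ hOk1 hLm (fun j hj => hCr j (by omega))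
    (fun j h1 h2 => hTw j h1 (by omega)) z (hz.trans (hpow _ _ (by omega)))
  -- SLoc
  have hOkl : Okl θ l := ⟨hl0, hl8, hθ0, by linarith⟩
  have hND : ND θ m E l := Or.inr ⟨hlθ1, fun j h1 h2 => hTw j (by omega) (by omega)⟩
  have hSL : ∀ y : ℂ, ‖y‖ * ρ ≤ θ ^ C2 → ∀ j, m ≤ j → j ≤ m + 8 →
      θ ^ C2 * ‖tr j ((E : ℂ) + y) (l : ℂ) - ((tr j E l : ℝ) : ℂ)‖ ≤ ‖y‖ * ρ := by
    intro y hy j h1 h2
    have := hC2 m E l θ hOkl hND y 0 (by simpa using hy) j h1 h2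
    simpa using this
  -- closeness of derivatives
  have hθC2 : 0 < θ ^ C2 := pow_pos hθ0 _
  have hclose : ∀ j, m ≤ j → j ≤ m + 8 →
      ‖trE j ((E : ℂ) + z) (l : ℂ) - ((trE j E l : ℝ) : ℂ)‖ ≤ ρ / 8 ^ 10 := by
    intro j h1 h2
    have hr : 0 < θ ^ C2 / ρ := by positivity
    have h3 := T1c_deriv_close (f := fun x => tr j x (l : ℂ) - ((tr j E l : ℝ) : ℂ))
      (f' := fun x => trE j x (l : ℂ)) (fun x => (hasDerivAt_tr_E j x (l : ℂ)).sub_const _)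
      (c := (E : ℂ)) (r := θ ^ C2 / ρ) (M := 1) hr (by
        intro x hx
        have h4 := hSL (x - E) (by rwa [le_div_iff₀ hρ] at hx) j h1 h2
        rw [le_div_iff₀ hρ] at hx
        have h5 : θ ^ C2 * ‖tr j x (l : ℂ) - ((tr j E l : ℝ) : ℂ)‖ ≤ θ ^ C2 * 1 := by
          have : (E : ℂ) + (x - E) = x := by ring
          rw [this] at h4
          linarith
        exact le_of_mul_le_mul_left h5 hθC2) (z := z) (by
        rw [div_div, le_div_iff₀ (by positivity)]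
        have h6 : θ ^ C ≤ θ ^ C2 * θ := by
          rw [← pow_succ]; exact hpow _ _ (by omega)
        nlinarith)
    have h7 : trE j (E : ℂ) (l : ℂ) = ((trE j E l : ℝ) : ℂ) := trE_ofReal j E l
    rw [h7] at h3
    refine h3.trans ?_
    have h8 : 8 * 1 / (θ ^ C2 / ρ) ^ 2 * ‖z‖ = 8 * ρ * (‖z‖ * ρ) / (θ ^ C2) ^ 2 := by
      field_simp
    rw [h8, div_le_div_iff₀ (by positivity) (by norm_num)]
    have h9 : θ ^ C ≤ (θ ^ C2) ^ 2 * θ ^ 20 := by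
      rw [← pow_mul, ← pow_add]; exact hpow _ _ (by omega)
    have h10 : θ ^ 20 ≤ (1 / 8) ^ 20 := pow_le_pow_left₀ hθ0.le hθ8 20
    have h11 : ‖z‖ * ρ ≤ (θ ^ C2) ^ 2 * (1 / 8) ^ 20 := by
      calc ‖z‖ * ρ ≤ θ ^ C := hz
        _ ≤ (θ ^ C2) ^ 2 * θ ^ 20 := h9
        _ ≤ _ := by gcongr
    calc 8 * ρ * (‖z‖ * ρ) * 8 ^ 10 ≤ 8 * ρ * ((θ ^ C2) ^ 2 * (1 / 8) ^ 20) * 8 ^ 10 := by
          gcongr
      _ = ρ * (θ ^ C2) ^ 2 * (8 ^ 11 * (1 / 8) ^ 20) := by ring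
      _ ≤ ρ * (θ ^ C2) ^ 2 * 1 := by
          gcongr
          norm_num
      _ = ρ * (θ ^ C2) ^ 2 := mul_one _
  -- traces bounded by 2
  have habs : ∀ j, m ≤ j → j ≤ m + 8 → |tr j E l| ≤ 1 := by
    intro j h1 h2
    have := hTw j (by omega) (by omega)
    rw [abs_le_one_iff_mul_self_le_one]
    nlinarith [sq_nonneg θ]
  have hx : ∀ j, m ≤ j → j ≤ m + 8 → ‖tr j ((E : ℂ) + z) (l : ℂ)‖ ≤ 2 := by
    intro j h1 h2
    have h3 := hSL z (hz.trans (hpow _ _ (by omega))) j h1 h2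
    have h4 : θ ^ C2 * ‖tr j ((E : ℂ) + z) (l : ℂ) - ((tr j E l : ℝ) : ℂ)‖ ≤ θ ^ C2 * 1 := by
      have := hpow C2 C (by omega)
      linarith
    have h5 := le_of_mul_le_mul_left h4 hθC2
    have h6 : ‖((tr j E l : ℝ) : ℂ)‖ ≤ 1 := by
      rw [Complex.norm_real]; exact habs j h1 h2
    calc ‖tr j ((E : ℂ) + z) (l : ℂ)‖
        = ‖(tr j ((E : ℂ) + z) (l : ℂ) - ((tr j E l : ℝ) : ℂ)) + ((tr j E l : ℝ) : ℂ)‖ := by
          ring_nf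
      _ ≤ _ := norm_add_le _ _
      _ ≤ 2 := by linarith
  -- real bounds
  have hr0 : |trE m E l| ≤ ρ := le_max_left _ _
  have hr1 : |trE (m + 1) E l| ≤ ρ := (le_max_left _ _).trans (le_max_right _ _)
  have hr2 : |trE (m + 2) E l| ≤ ρ := (le_max_right _ _).trans (le_max_right _ _)
  have hRR := hR m E l ((habs (m + 1) (by omega) (by omega)).trans (by norm_num))
    ((habs (m + 2) (by omega) (by omega)).trans (by norm_num))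
  have hr3 : |trE (m + 3) E l| ≤ 9 * ρ :=
    ((le_max_right _ _).trans (le_max_right _ _) : |trE (m + 1 + 2) E l| ≤ rho (m + 1) E l).trans
      hRR.1
  have hcplx : ∀ j (b : ℝ), m ≤ j → j ≤ m + 8 → |trE j E l| ≤ b →
      ‖trE j ((E : ℂ) + z) (l : ℂ)‖ ≤ b + ρ / 8 ^ 10 := by
    intro j b h1 h2 h3
    have h4 := hclose j h1 h2
    have h5 : ‖((trE j E l : ℝ) : ℂ)‖ ≤ b := by rw [Complex.norm_real]; exact h3
    calc ‖trE j ((E : ℂ) + z) (l : ℂ)‖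
        = ‖(trE j ((E : ℂ) + z) (l : ℂ) - ((trE j E l : ℝ) : ℂ)) + ((trE j E l : ℝ) : ℂ)‖ := by
          ring_nf
      _ ≤ _ := norm_add_le _ _
      _ ≤ _ := by linarith
  -- squares
  have hsq : ∀ j (b : ℝ), m ≤ j → j ≤ m + 8 → |trE j E l| ≤ b → b ≤ 9 * ρ →
      ‖trE j ((E : ℂ) + z) (l : ℂ) ^ 2 - (((trE j E l) ^ 2 : ℝ) : ℂ)‖ ≤ ρ ^ 2 / 8 ^ 7 := by
    intro j b h1 h2 h3 h4
    have h5 := hclose j h1 h2
    have h6 := hcplx j b h1 h2 h3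
    have h7 : ‖((trE j E l : ℝ) : ℂ)‖ ≤ b := by rw [Complex.norm_real]; exact h3
    have h8 : trE j ((E : ℂ) + z) (l : ℂ) ^ 2 - (((trE j E l) ^ 2 : ℝ) : ℂ)
        = (trE j ((E : ℂ) + z) (l : ℂ) - ((trE j E l : ℝ) : ℂ)) *
          (trE j ((E : ℂ) + z) (l : ℂ) + ((trE j E l : ℝ) : ℂ)) := by
      push_cast; ring
    rw [h8, norm_mul]
    calc _ ≤ (ρ / 8 ^ 10) * ((9 * ρ + ρ / 8 ^ 10) + 9 * ρ) := by
          gcongr
          calc _ ≤ _ := norm_add_le _ _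
            _ ≤ _ := by linarith
      _ ≤ ρ ^ 2 / 8 ^ 7 := by
          have : 0 ≤ ρ ^ 2 := sq_nonneg ρ
          have e : (ρ / 8 ^ 10) * ((9 * ρ + ρ / 8 ^ 10) + 9 * ρ)
              = ρ ^ 2 * ((1 / 8 ^ 10) * (18 + 1 / 8 ^ 10)) := by ring
          have e2 : ρ ^ 2 / 8 ^ 7 = ρ ^ 2 * (1 / 8 ^ 7) := by ring
          rw [e, e2]
          gcongr
          norm_num
  have hmaxsq : ∀ a b c M : ℝ, M = max |a| (max |b| |c|) → M ^ 2 ≤ a ^ 2 + b ^ 2 + c ^ 2 := by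
    intro a b c M hM
    rcases max_choice |a| (max |b| |c|) with h | h
    · rw [hM, h, sq_abs]; nlinarith [sq_nonneg b, sq_nonneg c]
    · rcases max_choice |b| |c| with h' | h'
      · rw [hM, h, h', sq_abs]; nlinarith [sq_nonneg a, sq_nonneg c]
      · rw [hM, h, h', sq_abs]; nlinarith [sq_nonneg a, sq_nonneg b]
  have hlow : ∀ j (κ : ℝ), m ≤ j → j + 2 ≤ m + 3 → 0 < κ → κ ≤ 1 → κ * ρ ≤ rho j E l →
      1 / 8 ^ 5 ≤ κ ^ 2 / 2 →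
      (κ * ρ) ^ 2 / 2 ≤ ‖trE j ((E : ℂ) + z) (l : ℂ) ^ 2 + trE (j + 1) ((E : ℂ) + z) (l : ℂ) ^ 2
        + trE (j + 2) ((E : ℂ) + z) (l : ℂ) ^ 2‖ := by
    intro j κ h1 h2 hκ0 hκ1 h3 h4
    have hb : ∀ i, m ≤ i → i ≤ m + 3 → |trE i E l| ≤ 9 * ρ := by
      intro i hi1 hi2
      rcases (by omega : i = m ∨ i = m + 1 ∨ i = m + 2 ∨ i = m + 3) with h | h | h | h
      · rw [h]; linarith
      · rw [h]; linarith
      · rw [h]; linarith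
      · rw [h]; exact hr3
    have q0 := hsq j (9 * ρ) h1 (by omega) (hb j h1 (by omega)) le_rfl
    have q1 := hsq (j + 1) (9 * ρ) (by omega) (by omega) (hb (j + 1) (by omega) (by omega)) le_rfl
    have q2 := hsq (j + 2) (9 * ρ) (by omega) (by omega) (hb (j + 2) (by omega) (by omega)) le_rfl
    have hreal : (κ * ρ) ^ 2 ≤ (trE j E l) ^ 2 + (trE (j + 1) E l) ^ 2 + (trE (j + 2) E l) ^ 2 := by
      refine le_trans ?_ (hmaxsq _ _ _ (rho j E l) rfl)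
      exact pow_le_pow_left₀ (by positivity) h3 2
    set S : ℝ := (trE j E l) ^ 2 + (trE (j + 1) E l) ^ 2 + (trE (j + 2) E l) ^ 2 with hS'
    have hdiff : ‖(trE j ((E : ℂ) + z) (l : ℂ) ^ 2 + trE (j + 1) ((E : ℂ) + z) (l : ℂ) ^ 2
        + trE (j + 2) ((E : ℂ) + z) (l : ℂ) ^ 2) - (S : ℂ)‖ ≤ 3 * (ρ ^ 2 / 8 ^ 7) := by
      have e : (trE j ((E : ℂ) + z) (l : ℂ) ^ 2 + trE (j + 1) ((E : ℂ) + z) (l : ℂ) ^ 2
          + trE (j + 2) ((E : ℂ) + z) (l : ℂ) ^ 2) - (S : ℂ)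
          = (trE j ((E : ℂ) + z) (l : ℂ) ^ 2 - (((trE j E l) ^ 2 : ℝ) : ℂ))
            + (trE (j + 1) ((E : ℂ) + z) (l : ℂ) ^ 2 - (((trE (j + 1) E l) ^ 2 : ℝ) : ℂ))
            + (trE (j + 2) ((E : ℂ) + z) (l : ℂ) ^ 2 - (((trE (j + 2) E l) ^ 2 : ℝ) : ℂ)) := by
        rw [hS']; push_cast; ring
      rw [e]
      calc _ ≤ _ := norm_add_le _ _
        _ ≤ (_ + _) + _ := by gcongr; exact norm_add_le _ _
        _ ≤ _ := by linarith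
    have hSn : ‖(S : ℂ)‖ = S := by
      rw [Complex.norm_real, Real.norm_eq_abs, abs_of_nonneg (by positivity)]
    have htri : S ≤ ‖(trE j ((E : ℂ) + z) (l : ℂ) ^ 2 + trE (j + 1) ((E : ℂ) + z) (l : ℂ) ^ 2
        + trE (j + 2) ((E : ℂ) + z) (l : ℂ) ^ 2)‖ + 3 * (ρ ^ 2 / 8 ^ 7) := by
      rw [← hSn]
      have := norm_sub_norm_le (S : ℂ) (trE j ((E : ℂ) + z) (l : ℂ) ^ 2
        + trE (j + 1) ((E : ℂ) + z) (l : ℂ) ^ 2 + trE (j + 2) ((E : ℂ) + z) (l : ℂ) ^ 2)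
      rw [norm_sub_rev] at this
      linarith
    have h5 : 3 * (ρ ^ 2 / 8 ^ 7) ≤ (κ * ρ) ^ 2 / 2 := by
      have : 3 * (ρ ^ 2 / 8 ^ 7) ≤ ρ ^ 2 * (1 / 8 ^ 5) := by
        have : 0 ≤ ρ ^ 2 := sq_nonneg ρ
        nlinarith
      calc _ ≤ ρ ^ 2 * (1 / 8 ^ 5) := this
        _ ≤ ρ ^ 2 * (κ ^ 2 / 2) := by gcongr
        _ = _ := by ring
    linarith
  have hd0 := hlow m 1 le_rfl (by omega) one_pos le_rfl (by rw [one_mul]) (by norm_num)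
  have hd1 := hlow (m + 1) (1 / 9) (by omega) (by omega) (by norm_num) (by norm_num)
    (by linarith [hRR.2]) (by norm_num)
  have hρ2 : 0 < ρ ^ 2 := by positivity
  have hx1 := hx (m + 1) (by omega) (by omega)
  have hx2 := hx (m + 2) (by omega) (by omega)
  have h810 : ρ / 8 ^ 10 ≤ ρ := div_le_self hρ.le (by norm_num)
  have hc0 : ‖trE m ((E : ℂ) + z) (l : ℂ)‖ ≤ 2 * ρ :=
    (hcplx m ρ le_rfl (by omega) hr0).trans (by linarith)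
  have hc1 : ‖trE (m + 1) ((E : ℂ) + z) (l : ℂ)‖ ≤ 2 * ρ :=
    (hcplx (m + 1) ρ (by omega) (by omega) hr1).trans (by linarith)
  have hc2 : ‖trE (m + 2) ((E : ℂ) + z) (l : ℂ)‖ ≤ 2 * ρ :=
    (hcplx (m + 2) ρ (by omega) (by omega) hr2).trans (by linarith)
  have e3 : trE (m + 1 + 2) ((E : ℂ) + z) (l : ℂ)
      = 2 * (trE (m + 2) ((E : ℂ) + z) (l : ℂ) * tr (m + 1) ((E : ℂ) + z) (l : ℂ)
        + tr (m + 2) ((E : ℂ) + z) (l : ℂ) * trE (m + 1) ((E : ℂ) + z) (l : ℂ))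
        - trE m ((E : ℂ) + z) (l : ℂ) := trE_add_three m _ _
  have f3 : trL (m + 1 + 2) ((E : ℂ) + z) (l : ℂ)
      = 2 * (trL (m + 2) ((E : ℂ) + z) (l : ℂ) * tr (m + 1) ((E : ℂ) + z) (l : ℂ)
        + tr (m + 2) ((E : ℂ) + z) (l : ℂ) * trL (m + 1) ((E : ℂ) + z) (l : ℂ))
        - trL m ((E : ℂ) + z) (l : ℂ) := trL_add_three m _ _
  have hd1' : ρ ^ 2 / 162 ≤ ‖trE (m + 1) ((E : ℂ) + z) (l : ℂ) ^ 2
      + trE (m + 2) ((E : ℂ) + z) (l : ℂ) ^ 2 + trE (m + 1 + 2) ((E : ℂ) + z) (l : ℂ) ^ 2‖ := by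
    refine le_trans ?_ hd1
    rw [show (1 / 9 * ρ) ^ 2 / 2 = ρ ^ 2 / 162 by ring]
  rw [e3] at hd1'
  have hd0' : ρ ^ 2 / 4 ≤ ‖trE m ((E : ℂ) + z) (l : ℂ) ^ 2
      + trE (m + 1) ((E : ℂ) + z) (l : ℂ) ^ 2 + trE (m + 2) ((E : ℂ) + z) (l : ℂ) ^ 2‖ := by
    refine le_trans ?_ hd0
    nlinarith
  have hne0 := norm_pos_iff.1 (lt_of_lt_of_le (by positivity) hd0')
  have hne1 := norm_pos_iff.1 (lt_of_lt_of_le (by positivity) hd1')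
  have key := T1c_alg hne0 hne1 (ρ := ρ) (N := NB m ((E : ℂ) + z) (l : ℂ)) hρ
    (B0 := trL m ((E : ℂ) + z) (l : ℂ)) (B1 := trL (m + 1) ((E : ℂ) + z) (l : ℂ))
    (B2 := trL (m + 2) ((E : ℂ) + z) (l : ℂ)) le_rfl hc0 hc1 hc2 hx1 hx2 hd0' hd1'
  have hvv : vv (m + 1) ((E : ℂ) + z) (l : ℂ) - vv m ((E : ℂ) + z) (l : ℂ)
      = (-(trL (m + 1) ((E : ℂ) + z) (l : ℂ) * trE (m + 1) ((E : ℂ) + z) (l : ℂ)
        + trL (m + 2) ((E : ℂ) + z) (l : ℂ) * trE (m + 2) ((E : ℂ) + z) (l : ℂ)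
        + trL (m + 1 + 2) ((E : ℂ) + z) (l : ℂ) * trE (m + 1 + 2) ((E : ℂ) + z) (l : ℂ)) /
        (trE (m + 1) ((E : ℂ) + z) (l : ℂ) ^ 2 + trE (m + 2) ((E : ℂ) + z) (l : ℂ) ^ 2
          + trE (m + 1 + 2) ((E : ℂ) + z) (l : ℂ) ^ 2))
      - (-(trL m ((E : ℂ) + z) (l : ℂ) * trE m ((E : ℂ) + z) (l : ℂ)
        + trL (m + 1) ((E : ℂ) + z) (l : ℂ) * trE (m + 1) ((E : ℂ) + z) (l : ℂ)
        + trL (m + 2) ((E : ℂ) + z) (l : ℂ) * trE (m + 2) ((E : ℂ) + z) (l : ℂ)) /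
        (trE m ((E : ℂ) + z) (l : ℂ) ^ 2 + trE (m + 1) ((E : ℂ) + z) (l : ℂ) ^ 2
          + trE (m + 2) ((E : ℂ) + z) (l : ℂ) ^ 2)) := rfl
  rw [← e3, ← f3, ← hvv] at key
  -- conclusion
  set dv := ‖vv (m + 1) ((E : ℂ) + z) (l : ℂ) - vv m ((E : ℂ) + z) (l : ℂ)‖ with hdv
  have hdv0 : 0 ≤ dv := norm_nonneg _
  set N := NB m ((E : ℂ) + z) (l : ℂ) with hNN
  have hθC1 : 0 < θ ^ C1 := pow_pos hθ0 _
  have h1 : θ ^ C1 * (dv * ρ ^ 2) ≤ 8 ^ 7 * (l * ρ) := by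
    calc θ ^ C1 * (dv * ρ ^ 2) ≤ θ ^ C1 * (8 ^ 7 * N) := by gcongr
      _ = 8 ^ 7 * (θ ^ C1 * N) := by ring
      _ ≤ _ := by gcongr
  have h2 : θ ^ C1 * (ρ * dv) ≤ 8 ^ 7 * l := by
    have : (θ ^ C1 * (ρ * dv)) * ρ ≤ (8 ^ 7 * l) * ρ := by nlinarith
    exact le_of_mul_le_mul_right this hρ
  have h3 : θ ^ C ≤ θ ^ C1 * (1 / 8) ^ 7 := by
    calc θ ^ C ≤ θ ^ (C1 + 7) := hpow _ _ (by omega)
      _ = θ ^ C1 * θ ^ 7 := pow_add _ _ _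
      _ ≤ _ := by
        gcongr
  calc θ ^ C * ρ * dv = θ ^ C * (ρ * dv) := by ring
    _ ≤ (θ ^ C1 * (1 / 8) ^ 7) * (ρ * dv) := by gcongr
    _ = (1 / 8) ^ 7 * (θ ^ C1 * (ρ * dv)) := by ring
    _ ≤ (1 / 8) ^ 7 * (8 ^ 7 * l) := by gcongr
    _ = l := by ring

end FIB
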