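import Pool.Agent.Helper75.FIB.Iface3

/-!
# FIB block T2 : velocities at typical points

(i) `Tw θ (m-L) (m+8)`: as in block T2b with `NTyp` (`z = 0`; `Cr j` for `j <= m` by SpcCr): `|Z_m| <= l θ^{-C'}` and `|trE m| >= θ^{C'} rho m` (DetRho, `ε = θ`, `n = m-4`, typical; `L >= 8` since `φ^L >= (1/l)^C`), so `|Vx m - v_m| <= l θ^{-C}/rho m`.
(ii) `Tw θ (m-L) (m+L+8)`, `m+L+16 <= K`: `|Vx K - v_{m+L}| <= l^{-C'}/rho(m+L) <= l^{-C'} l^{-C''} φ^{-L}/rho m <= l/rho m` (FBound, GrLow `ε = l`, `φ^L >= (1/l)^C`), and `|v_{m+L} - v_m| <= sum_{j=m}^{m+L-1} |v_{j+1}-v_j| <= sum l θ^{-C'}/rho j` by `VStepC` (`z = 0`) at each `j < m+L` (window `[j-L, j+9]`, contained in `[m-L, m+L+8]`),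
`rho j >= θ^{C'} φ^{j-m} rho m` (GrLow, `ε = θ`). Geometric sum.
-/

namespace FIB

open Real MeasureTheory Set Filter Topology

theorem T2_okt {C C' L : ℕ} {θ l : ℝ} (h : C' ≤ C) (hC : 1 ≤ C) (hl : l ≤ 1)
    (h1 : OkT C θ l L) : OkT C' θ l L := by
  obtain ⟨a, b, c, d, e, f⟩ := h1
  have hC1 : (1 : ℝ) ≤ C := by exact_mod_cast hC
  have hCC : (C' : ℝ) ≤ C := by exact_mod_cast h
  have ht : θ ≤ 1 := by nlinarith
  refine ⟨a, ?_, c, ?_, ?_, f⟩
  · nlinarith
  · exact d.trans (pow_le_pow_of_le_one a.le ht h)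
  · refine le_trans (pow_le_pow_right₀ ?_ h) e
    rw [le_div_iff₀ c]; linarith

theorem T2_ph_lt : ph < 2 := by
  have h5 : √5 < 3 := by
    rw [Real.sqrt_lt' (by norm_num)]
    norm_num
  unfold ph
  linarith

theorem T2_ph_gt : 1 < ph := by
  have h5 : 1 < √5 := by
    rw [Real.lt_sqrt (by norm_num)]
    norm_num
  unfold ph
  linarith

/-- `L` is large -/
theorem T2_L {C L : ℕ} {θ l : ℝ} (hl : l ≤ 1 / 8) (h1 : OkT C θ l L) : C ≤ L := by
  obtain ⟨a, b, c, d, e, f⟩ := h1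
  by_contra hlt
  push Not at hlt
  have h2 : (8 : ℝ) ^ C ≤ (1 / l) ^ C := by
    refine pow_le_pow_left₀ (by norm_num) ?_ C
    rw [le_div_iff₀ c]; linarith
  have h3 : ph ^ L ≤ 2 ^ L := pow_le_pow_left₀ (by linarith [T2_ph_gt]) T2_ph_lt.le L
  have h4 : (2 : ℝ) ^ L < 2 ^ C := pow_lt_pow_right₀ (by norm_num) hlt
  have h5 : (2 : ℝ) ^ C ≤ 8 ^ C := pow_le_pow_left₀ (by norm_num) (by norm_num) C
  linarith

theorem T2_tr {θ x : ℝ} (hθ : 0 < θ) (h : θ ^ 2 ≤ 1 - x ^ 2) : |x| ≤ 1 := by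
  rw [abs_le]
  constructor <;> nlinarith [sq_nonneg (x + 1), sq_nonneg (x - 1), sq_nonneg θ]

/-- the cross product estimate for `Vx - vv` -/
theorem T2_cross (m : ℕ) (E l : ℝ) (h1 : trE m E l ≠ 0) :
    rho m E l * |Vx m E l - vv m E l| * |trE m E l| ≤ NB m (E : ℂ) (l : ℂ) := by
  have hNB : NB m (E : ℂ) (l : ℂ) =
      |trE (m + 1) E l * trL (m + 2) E l - trE (m + 2) E l * trL (m + 1) E l| +
      |trE (m + 2) E l * trL m E l - trE m E l * trL (m + 2) E l| +
      |trE m E l * trL (m + 1) E l - trE (m + 1) E l * trL m E l| := by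
    unfold NB
    simp only [trE_ofReal, trL_ofReal]
    simp only [← Complex.ofReal_mul, ← Complex.ofReal_sub, Complex.norm_real, Real.norm_eq_abs]
  rw [hNB]
  set R1 := trE m E l with hR1
  set R2 := trE (m + 1) E l with hR2
  set R3 := trE (m + 2) E l with hR3
  set B1 := trL m E l with hB1
  set B2 := trL (m + 1) E l with hB2
  set B3 := trL (m + 2) E l with hB3
  set ρ := rho m E l with hρ
  have hr : ρ = max |R1| (max |R2| |R3|) := rfl
  have r1 : |R1| ≤ ρ := by rw [hr]; exact le_max_left _ _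
  have r2 : |R2| ≤ ρ := by rw [hr]; exact (le_max_left _ _).trans (le_max_right _ _)
  have r3 : |R3| ≤ ρ := by rw [hr]; exact (le_max_right _ _).trans (le_max_right _ _)
  have hpos : 0 < |R1| := abs_pos.2 h1
  have hρ0 : 0 < ρ := hpos.trans_le r1
  have hsq : ρ ^ 2 ≤ R1 ^ 2 + R2 ^ 2 + R3 ^ 2 := by
    have q1 : |R1| ^ 2 = R1 ^ 2 := sq_abs _
    have q2 : |R2| ^ 2 = R2 ^ 2 := sq_abs _
    have q3 : |R3| ^ 2 = R3 ^ 2 := sq_abs _
    rw [hr]
    rcases max_choice |R1| (max |R2| |R3|) with h | h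
    · rw [h]; nlinarith [sq_nonneg R2, sq_nonneg R3]
    · rw [h]
      rcases max_choice |R2| |R3| with h' | h'
      · rw [h']; nlinarith [sq_nonneg R1, sq_nonneg R3]
      · rw [h']; nlinarith [sq_nonneg R1, sq_nonneg R2]
  have hS : 0 < R1 ^ 2 + R2 ^ 2 + R3 ^ 2 := by nlinarith
  have hV : Vx m E l - vv m E l =
      (R2 * (R1 * B2 - R2 * B1) - R3 * (R3 * B1 - R1 * B3)) /
        (R1 * (R1 ^ 2 + R2 ^ 2 + R3 ^ 2)) := by
    have : Vx m E l - vv m E l = -B1 / R1 - -(B1 * R1 + B2 * R2 + B3 * R3) /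
      (R1 ^ 2 + R2 ^ 2 + R3 ^ 2) := rfl
    rw [this]
    have hS' := hS.ne'
    field_simp
    ring
  rw [hV, abs_div, abs_mul R1, abs_of_pos hS]
  have hnum : |R2 * (R1 * B2 - R2 * B1) - R3 * (R3 * B1 - R1 * B3)| ≤
      ρ * (|R1 * B2 - R2 * B1| + |R3 * B1 - R1 * B3|) := by
    refine (abs_sub _ _).trans ?_
    rw [abs_mul, abs_mul, mul_add]
    exact add_le_add (mul_le_mul_of_nonneg_right r2 (abs_nonneg _))
      (mul_le_mul_of_nonneg_right r3 (abs_nonneg _))
  have e1 : ρ * (|R2 * (R1 * B2 - R2 * B1) - R3 * (R3 * B1 - R1 * B3)| /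
        (|R1| * (R1 ^ 2 + R2 ^ 2 + R3 ^ 2))) * |R1| =
      ρ * |R2 * (R1 * B2 - R2 * B1) - R3 * (R3 * B1 - R1 * B3)| /
        (R1 ^ 2 + R2 ^ 2 + R3 ^ 2) := by
    field_simp
  rw [e1, div_le_iff₀ hS]
  have a1 := abs_nonneg (R2 * B3 - R3 * B2)
  have a2 := abs_nonneg (R3 * B1 - R1 * B3)
  have a3 := abs_nonneg (R1 * B2 - R2 * B1)
  calc ρ * |R2 * (R1 * B2 - R2 * B1) - R3 * (R3 * B1 - R1 * B3)|
      ≤ ρ * (ρ * (|R1 * B2 - R2 * B1| + |R3 * B1 - R1 * B3|)) :=
        mul_le_mul_of_nonneg_left hnum hρ0.le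
    _ = (|R1 * B2 - R2 * B1| + |R3 * B1 - R1 * B3|) * ρ ^ 2 := by ring
    _ ≤ (|R1 * B2 - R2 * B1| + |R3 * B1 - R1 * B3|) * (R1 ^ 2 + R2 ^ 2 + R3 ^ 2) :=
        mul_le_mul_of_nonneg_left hsq (by positivity)
    _ ≤ _ := mul_le_mul_of_nonneg_right (by linarith) hS.le

theorem T2_vstep (hV : VStepC) : ∃ C : ℕ, ∀ (m L : ℕ) (E l θ : ℝ), OkT C θ l L → L ≤ m →
    (∀ j ≤ m + 1, Cr j E l) → Tw θ (m - L) (m + 9) E l →
    θ ^ C * rho m E l * |vv (m + 1) E l - vv m E l| ≤ l := by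
  obtain ⟨C, h⟩ := hV
  refine ⟨C, fun m L E l θ h1 h2 h3 h4 => ?_⟩
  have hθ : 0 < θ := h1.1
  have := h m L E l θ h1 h2 h3 h4 0 (by simp only [norm_zero, zero_mul]; positivity)
  have e : ∀ k, vv k ((E : ℂ) + 0) (l : ℂ) = ((vv k E l : ℝ) : ℂ) := by
    intro k
    simp only [add_zero, vv, trE_ofReal, trL_ofReal]
    push_cast
    ring
  rw [e, e, ← Complex.ofReal_sub, Complex.norm_real, Real.norm_eq_abs] at this
  exact this

theorem vTyp (hV : VStepC) (hF : FBound) (hG : GrLow) (hC : SpcCr) (hN : NTyp) (hD : DetRho) (hR : RhoRatio) : VTyp := by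
  obtain ⟨C1, hV⟩ := T2_vstep hV
  obtain ⟨C2, hF⟩ := hF
  obtain ⟨C3, hG⟩ := hG
  obtain ⟨C4, hN⟩ := hN
  obtain ⟨C5, hD⟩ := hD
  refine ⟨C1 + C2 + C3 + C4 + C5 + 16, fun m L K E l θ ho hL hK hmK => ?_⟩
  set C := C1 + C2 + C3 + C4 + C5 + 16 with hCdef
  have ho' := ho
  obtain ⟨hθ, hCθ, hl, hlθ, hphL, hLθ⟩ := ho
  have hC16 : (16 : ℝ) ≤ C := by rw [hCdef]; push_cast; nlinarith [Nat.cast_nonneg (α := ℝ) C1, Nat.cast_nonneg (α := ℝ) C2, Nat.cast_nonneg (α := ℝ) C3, Nat.cast_nonneg (α := ℝ) C4, Nat.cast_nonneg (α := ℝ) C5]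
  have hθ16 : θ ≤ 1 / 16 := by nlinarith
  have hθ1 : θ ≤ 1 := by linarith
  have hlθ1 : l ≤ θ := by
    refine hlθ.trans ?_
    calc θ ^ C ≤ θ ^ 1 := pow_le_pow_of_le_one hθ.le hθ1 (by omega)
      _ = θ := pow_one θ
  have hl8 : l ≤ 1 / 8 := by linarith
  have hCL : C ≤ L := T2_L hl8 ho'
  have hCr : ∀ j, j + 8 ≤ K → Cr j E l := fun j hj => hC K j E l hl hl8 ⟨hK, hj⟩
  have hρ : ∀ j, 0 ≤ rho j E l := fun j => (abs_nonneg _).trans (le_max_left _ _)
  constructor
  · intro hTw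
    have hNB := hN m L E l θ (T2_okt (by omega) (by omega) (by linarith) ho') hL
      (fun j hj => hCr j (by omega)) hTw 0 (by simp only [norm_zero, zero_mul]; positivity)
    rw [add_zero] at hNB
    have hDm := hD (m - 4) E l θ ⟨hl, hl8, hθ, by linarith⟩
      (Or.inr ⟨hlθ1, fun j hj1 hj2 => hTw j (by omega) (by omega)⟩)
    have ht : ∀ j, m - L ≤ j → j ≤ m + 8 → |tr j E l| ≤ 2 := fun j hj1 hj2 =>
      (T2_tr hθ (hTw j hj1 hj2)).trans (by norm_num)
    have hDm4 := hDm.2.2.2 m (by omega) (by omega) (T2_tr hθ (hTw m (by omega) (by omega)))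
    have r1 := (hR (m - 4) E l (ht _ (by omega) (by omega)) (ht _ (by omega) (by omega))).1
    have r2 := (hR (m - 3) E l (ht _ (by omega) (by omega)) (ht _ (by omega) (by omega))).1
    have r3 := (hR (m - 2) E l (ht _ (by omega) (by omega)) (ht _ (by omega) (by omega))).1
    have r4 := (hR (m - 1) E l (ht _ (by omega) (by omega)) (ht _ (by omega) (by omega))).1
    rw [show m - 4 + 1 = m - 3 by omega] at r1
    rw [show m - 3 + 1 = m - 2 by omega] at r2
    rw [show m - 2 + 1 = m - 1 by omega] at r3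
    rw [show m - 1 + 1 = m by omega] at r4
    have r5 : rho m E l ≤ 6561 * rho (m - 4) E l := by linarith
    have hpos4 : 0 < rho (m - 4) E l := hDm.2.2.1
    have hposE : 0 < |trE m E l| := lt_of_lt_of_le (by positivity) hDm4
    have hcr := T2_cross m E l (abs_pos.1 hposE)
    -- combine
    have hθ4 : θ ^ 4 * 6561 ≤ 1 := by
      have : θ ^ 4 ≤ (1 / 16) ^ 4 := pow_le_pow_left₀ hθ.le hθ16 4
      nlinarith
    have s1 : θ ^ C5 * θ ^ 4 * rho m E l ≤ |trE m E l| := by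
      refine le_trans ?_ hDm4
      calc θ ^ C5 * θ ^ 4 * rho m E l ≤ θ ^ C5 * θ ^ 4 * (6561 * rho (m - 4) E l) :=
            mul_le_mul_of_nonneg_left r5 (by positivity)
        _ = θ ^ C5 * rho (m - 4) E l * (θ ^ 4 * 6561) := by ring
        _ ≤ θ ^ C5 * rho (m - 4) E l * 1 := mul_le_mul_of_nonneg_left hθ4 (by positivity)
        _ = _ := by ring
    set X := |Vx m E l - vv m E l| with hX
    have hX0 : 0 ≤ X := abs_nonneg _
    rcases (hρ m).eq_or_lt with h0 | h0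
    · rw [← h0]; simp only [mul_zero, zero_mul]; exact hl.le
    have s2 : θ ^ C4 * (rho m E l * X * (θ ^ C5 * θ ^ 4 * rho m E l)) ≤ l * rho m E l := by
      refine le_trans (mul_le_mul_of_nonneg_left ?_ (by positivity)) hNB
      exact le_trans (mul_le_mul_of_nonneg_left s1 (by positivity)) hcr
    have s3 : θ ^ (C4 + C5 + 4) * rho m E l * X ≤ l := by
      have e : θ ^ C4 * (rho m E l * X * (θ ^ C5 * θ ^ 4 * rho m E l)) =
          (θ ^ (C4 + C5 + 4) * rho m E l * X) * rho m E l := by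
        rw [pow_add, pow_add]; ring
      rw [e] at s2
      exact le_of_mul_le_mul_right s2 h0
    refine le_trans ?_ s3
    have : θ ^ C ≤ θ ^ (C4 + C5 + 4) := pow_le_pow_of_le_one hθ.le hθ1 (by omega)
    exact mul_le_mul_of_nonneg_right (mul_le_mul_of_nonneg_right this h0.le) hX0
  · intro hTw
    have hF' := hF (m + L) K E l hl hl8 ⟨hK, by omega⟩
    have hG1 := hG m (m + L) E l l ⟨hl, hl8, hl, by linarith⟩ (by omega)
      (Or.inl ⟨rfl, hCr m (by omega)⟩) (Or.inl ⟨rfl, hCr (m + L) (by omega)⟩)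
    rw [show m + L - m = L by omega] at hG1
    set ρ := rho m E l with hρdef
    set X := |Vx K E l - vv (m + L) E l| with hX
    have hX0 : 0 ≤ X := abs_nonneg _
    have hρ0 : 0 ≤ ρ := hρ m
    -- first part
    have p1 : ρ * X ≤ l ^ 2 := by
      have q1 : l ^ C2 * (l ^ C3 * ph ^ L * ρ) * X ≤ 1 := by
        refine le_trans (mul_le_mul_of_nonneg_right (mul_le_mul_of_nonneg_left hG1 (by positivity)) hX0) hF'
      have q2 : (1 / l) ^ (C2 + C3 + 2) ≤ ph ^ L := by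
        refine le_trans (pow_le_pow_right₀ ?_ (by omega)) hphL
        rw [le_div_iff₀ hl]; linarith
      have q3 : l ^ C2 * (l ^ C3 * (1 / l) ^ (C2 + C3 + 2) * ρ) * X ≤ 1 := by
        refine le_trans ?_ q1
        refine mul_le_mul_of_nonneg_right (mul_le_mul_of_nonneg_left
          (mul_le_mul_of_nonneg_right (mul_le_mul_of_nonneg_left q2 ?_) hρ0) ?_) hX0 <;> positivity
      have q4 : l ^ C2 * (l ^ C3 * (1 / l) ^ (C2 + C3 + 2) * ρ) * X = ρ * X / l ^ 2 := by
        rw [pow_add, pow_add, one_div, inv_pow, inv_pow, inv_pow]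
        field_simp
      rw [q4, div_le_one (by positivity)] at q3
      exact q3
    -- second part
    have hstep : ∀ i, i < L →
        θ ^ (C1 + C3) * ρ * |vv (m + i + 1) E l - vv (m + i) E l| ≤ l := by
      intro i hi
      have w := hV (m + i) L E l θ (T2_okt (by omega) (by omega) (by linarith) ho') (by omega)
        (fun j hj => hCr j (by omega)) (fun j hj1 hj2 => hTw j (by omega) (by omega))
      have g := hG m (m + i) E l θ ⟨hl, hl8, hθ, by linarith⟩ (by omega)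
        (Or.inr ⟨hlθ1, fun j hj1 hj2 => hTw j (by omega) (by omega)⟩)
        (Or.inr ⟨hlθ1, fun j hj1 hj2 => hTw j (by omega) (by omega)⟩)
      have hp1 : 1 ≤ ph ^ (m + i - m) := one_le_pow₀ T2_ph_gt.le
      have g' : θ ^ C3 * ρ ≤ rho (m + i) E l := by
        refine le_trans ?_ g
        calc θ ^ C3 * ρ = θ ^ C3 * 1 * ρ := by ring
          _ ≤ _ := mul_le_mul_of_nonneg_right (mul_le_mul_of_nonneg_left hp1 (by positivity)) hρ0
      refine le_trans ?_ w
      calc θ ^ (C1 + C3) * ρ * |vv (m + i + 1) E l - vv (m + i) E l|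
          = θ ^ C1 * (θ ^ C3 * ρ) * |vv (m + i + 1) E l - vv (m + i) E l| := by
            rw [pow_add]; ring
        _ ≤ _ := mul_le_mul_of_nonneg_right (mul_le_mul_of_nonneg_left g' (by positivity))
            (abs_nonneg _)
    have hsum : ∀ i, i ≤ L → θ ^ (C1 + C3) * ρ * |vv (m + i) E l - vv m E l| ≤ i * l := by
      intro i
      induction i with
      | zero => intro _; simp
      | succ i ih =>
        intro hi
        have h1 := ih (by omega)
        have h2 := hstep i (by omega)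
        have tri : |vv (m + (i + 1)) E l - vv m E l| ≤
            |vv (m + i + 1) E l - vv (m + i) E l| + |vv (m + i) E l - vv m E l| := by
          have := abs_add_le (vv (m + i + 1) E l - vv (m + i) E l) (vv (m + i) E l - vv m E l)
          rw [show m + (i + 1) = m + i + 1 by omega]
          refine le_trans (le_of_eq ?_) this
          congr 1
          ring
        calc θ ^ (C1 + C3) * ρ * |vv (m + (i + 1)) E l - vv m E l|
            ≤ θ ^ (C1 + C3) * ρ * (|vv (m + i + 1) E l - vv (m + i) E l| +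
                |vv (m + i) E l - vv m E l|) := mul_le_mul_of_nonneg_left tri (by positivity)
          _ ≤ l + i * l := by rw [mul_add]; linarith
          _ = ((i + 1 : ℕ) : ℝ) * l := by push_cast; ring
    have p2 : θ ^ (C1 + C3 + 1) * ρ * |vv (m + L) E l - vv m E l| ≤ l := by
      have := hsum L le_rfl
      calc θ ^ (C1 + C3 + 1) * ρ * |vv (m + L) E l - vv m E l|
          = θ * (θ ^ (C1 + C3) * ρ * |vv (m + L) E l - vv m E l|) := by rw [pow_succ]; ring
        _ ≤ θ * (L * l) := mul_le_mul_of_nonneg_left this hθ.le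
        _ = (L * θ) * l := by ring
        _ ≤ 1 * l := mul_le_mul_of_nonneg_right hLθ hl.le
        _ = l := one_mul l
    set Y := |vv (m + L) E l - vv m E l| with hY
    have hY0 : 0 ≤ Y := abs_nonneg _
    have tri : |Vx K E l - vv m E l| ≤ X + Y := by
      have := abs_add_le (Vx K E l - vv (m + L) E l) (vv (m + L) E l - vv m E l)
      refine le_trans (le_of_eq ?_) this
      congr 1
      ring
    have hpC : θ ^ C ≤ θ ^ (C1 + C3 + 1) * (1 / 16) := by
      calc θ ^ C ≤ θ ^ (C1 + C3 + 1 + 1) := pow_le_pow_of_le_one hθ.le hθ1 (by omega)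
        _ = θ ^ (C1 + C3 + 1) * θ := pow_succ _ _
        _ ≤ _ := mul_le_mul_of_nonneg_left hθ16 (by positivity)
    have hpC1 : θ ^ C ≤ 1 := pow_le_one₀ hθ.le hθ1
    calc θ ^ C * ρ * |Vx K E l - vv m E l| ≤ θ ^ C * ρ * (X + Y) :=
          mul_le_mul_of_nonneg_left tri (by positivity)
      _ = θ ^ C * (ρ * X) + θ ^ C * (ρ * Y) := by ring
      _ ≤ 1 * (ρ * X) + θ ^ (C1 + C3 + 1) * (1 / 16) * (ρ * Y) :=
          add_le_add (mul_le_mul_of_nonneg_right hpC1 (by positivity))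
            (mul_le_mul_of_nonneg_right hpC (by positivity))
      _ = ρ * X + (θ ^ (C1 + C3 + 1) * ρ * Y) / 16 := by ring
      _ ≤ l ^ 2 + l / 16 := by linarith
      _ ≤ l := by nlinarith

end FIB
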