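import Pool.Agent.Helper75.FIB.Iface3

/-!
# FIB block T2b : crude comparison of V_m with v_m

Real point, `z = w = 0` in `NCrude` (casts: `trE_ofReal`, `trL_ofReal`): `|R_m × B_m| <= l^{-C} rho m`. `B_m = -v_m R_m + Z_m`, `Z_m` the component of `B_m` orthogonal to `R_m`, `|Z_m|^2 |R_m|^2 = |R_m × B_m|^2` (Lagrange identity), `|R_m| >= rho m`, so `|Z_m| <= l^{-C}`. `Vx m = -trL m/trE m = v_m - Z_m^1/trE m`, and `|trE m| >= l^C rho (m-4) >= l^{C'} rho m`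
by DetRho (last item at `n = m-4`, `|tr m| <= 1`, `Cr (m-4)`) and RhoRatio (traces at `m-3..m` bounded by 2).
-/

namespace FIB

open Real MeasureTheory Set Filter Topology

theorem vxCrude (hN : NCrude) (hR : RhoRatio) (hD : DetRho) : VxCrude := by
  obtain ⟨C1, h1⟩ := hN
  obtain ⟨C2, h2⟩ := hD
  refine ⟨C1 + C2 + 5, ?_⟩
  intro m E l hl hl8 hm hCr htr
  obtain ⟨n, rfl⟩ : ∃ n, m = n + 4 := ⟨m - 4, by omega⟩
  have hokl : Okl l l := ⟨hl, hl8, hl, by linarith⟩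
  -- cross product bound
  have hNB := h1 (n + 4) E l hl hl8 (fun j hj => hCr j (by omega)) 0 0 (by
    simp only [norm_zero, add_zero, zero_mul]; positivity)
  rw [add_zero, add_zero] at hNB
  unfold NB at hNB
  simp only [trE_ofReal, trL_ofReal, ← Complex.ofReal_mul, ← Complex.ofReal_sub,
    Complex.norm_real, Real.norm_eq_abs] at hNB
  -- lower bound for the derivative
  obtain ⟨-, -, hpos, hlow⟩ := h2 n E l l hokl (Or.inl ⟨rfl, hCr n (by omega)⟩)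
  have hlow' := hlow (n + 4) (by omega) (by omega) htr
  have hCn := (hCr n (by omega)).1
  have t1 := hCn (n + 1) (by omega) (by omega)
  have t2 := hCn (n + 2) (by omega) (by omega)
  have t3 := hCn (n + 3) (by omega) (by omega)
  have t4 := hCn (n + 4) (by omega) (by omega)
  have t5 := hCn (n + 5) (by omega) (by omega)
  have q1 := (hR n E l t1 t2).1
  have q2 := (hR (n + 1) E l t2 t3).1
  have q3 := (hR (n + 2) E l t3 t4).1
  have q4 := (hR (n + 3) E l t4 t5).1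
  rw [show n + 1 + 1 = n + 2 from rfl] at q2
  rw [show n + 2 + 1 = n + 3 from rfl] at q3
  rw [show n + 3 + 1 = n + 4 from rfl] at q4
  have hrr : rho (n + 4) E l ≤ 9 ^ 4 * rho n E l := by
    norm_num; linarith
  have hposm : 0 < rho (n + 4) E l := by
    obtain ⟨-, -, hp, -⟩ := h2 (n + 4) E l l hokl (Or.inl ⟨rfl, hCr (n + 4) (by omega)⟩)
    exact hp
  set r0 := trE (n + 4) E l with hr0
  set r1 := trE (n + 4 + 1) E l with hr1
  set r2 := trE (n + 4 + 2) E l with hr2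
  set b0 := trL (n + 4) E l with hb0
  set b1 := trL (n + 4 + 1) E l with hb1
  set b2 := trL (n + 4 + 2) E l with hb2
  set ρ := rho (n + 4) E l with hρ
  have hρdef : ρ = max |r0| (max |r1| |r2|) := rfl
  have e1 : |r1| ≤ ρ := by rw [hρdef]; exact le_max_of_le_right (le_max_left _ _)
  have e2 : |r2| ≤ ρ := by rw [hρdef]; exact le_max_of_le_right (le_max_right _ _)
  have hsq : ρ ^ 2 ≤ r0 ^ 2 + r1 ^ 2 + r2 ^ 2 := by
    rw [hρdef]
    rcases max_choice |r0| (max |r1| |r2|) with h | h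
    · rw [h, sq_abs]; nlinarith [sq_nonneg r1, sq_nonneg r2]
    · rw [h]
      rcases max_choice |r1| |r2| with h' | h'
      · rw [h', sq_abs]; nlinarith [sq_nonneg r0, sq_nonneg r2]
      · rw [h', sq_abs]; nlinarith [sq_nonneg r0, sq_nonneg r1]
  have hlC2 : 0 < l ^ C2 := by positivity
  have hlC1 : 0 < l ^ C1 := by positivity
  have hr0pos : 0 < |r0| := lt_of_lt_of_le (mul_pos hlC2 hpos) hlow'
  have hr0ne : r0 ≠ 0 := abs_pos.mp hr0pos
  have hRpos : 0 < r0 ^ 2 + r1 ^ 2 + r2 ^ 2 := by positivity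
  have hdiff : Vx (n + 4) E l - vv (n + 4) E l
      = (r1 * (r0 * b1 - r1 * b0) - r2 * (r2 * b0 - r0 * b2)) / (r0 * (r0 ^ 2 + r1 ^ 2 + r2 ^ 2)) := by
    unfold Vx vv
    rw [← hr0, ← hr1, ← hr2, ← hb0, ← hb1, ← hb2]
    field_simp
    ring
  have hnum : |r1 * (r0 * b1 - r1 * b0) - r2 * (r2 * b0 - r0 * b2)|
      ≤ ρ * (|r1 * b2 - r2 * b1| + |r2 * b0 - r0 * b2| + |r0 * b1 - r1 * b0|) := by
    calc |r1 * (r0 * b1 - r1 * b0) - r2 * (r2 * b0 - r0 * b2)|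
        ≤ |r1 * (r0 * b1 - r1 * b0)| + |r2 * (r2 * b0 - r0 * b2)| := abs_sub _ _
      _ = |r1| * |r0 * b1 - r1 * b0| + |r2| * |r2 * b0 - r0 * b2| := by rw [abs_mul, abs_mul]
      _ ≤ ρ * |r0 * b1 - r1 * b0| + ρ * |r2 * b0 - r0 * b2| := by
          gcongr
      _ ≤ _ := by
          have := mul_nonneg hposm.le (abs_nonneg (r1 * b2 - r2 * b1))
          linarith
  set NBv := |r1 * b2 - r2 * b1| + |r2 * b0 - r0 * b2| + |r0 * b1 - r1 * b0| with hNBv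
  have hA : l ^ C1 * (l ^ C2 * ρ * |Vx (n + 4) E l - vv (n + 4) E l|) ≤ 9 ^ 4 := by
    rw [hdiff, abs_div, abs_mul, abs_of_pos hRpos]
    have h3 : l ^ C1 * |r1 * (r0 * b1 - r1 * b0) - r2 * (r2 * b0 - r0 * b2)| ≤ ρ * ρ := by
      calc l ^ C1 * |r1 * (r0 * b1 - r1 * b0) - r2 * (r2 * b0 - r0 * b2)|
          ≤ l ^ C1 * (ρ * NBv) := by gcongr
        _ = ρ * (l ^ C1 * NBv) := by ring
        _ ≤ ρ * ρ := by gcongr
    have h4 : l ^ C2 * ρ ≤ 9 ^ 4 * |r0| := by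
      calc l ^ C2 * ρ ≤ l ^ C2 * (9 ^ 4 * rho n E l) := by gcongr
        _ = 9 ^ 4 * (l ^ C2 * rho n E l) := by ring
        _ ≤ 9 ^ 4 * |r0| := by gcongr
    rw [show l ^ C1 * (l ^ C2 * ρ * (|r1 * (r0 * b1 - r1 * b0) - r2 * (r2 * b0 - r0 * b2)|
        / (|r0| * (r0 ^ 2 + r1 ^ 2 + r2 ^ 2))))
        = (l ^ C2 * ρ) * (l ^ C1 * |r1 * (r0 * b1 - r1 * b0) - r2 * (r2 * b0 - r0 * b2)|)
        / (|r0| * (r0 ^ 2 + r1 ^ 2 + r2 ^ 2)) by ring]
    rw [div_le_iff₀ (by positivity)]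
    calc (l ^ C2 * ρ) * (l ^ C1 * |r1 * (r0 * b1 - r1 * b0) - r2 * (r2 * b0 - r0 * b2)|)
        ≤ (9 ^ 4 * |r0|) * (ρ * ρ) := by gcongr
      _ = 9 ^ 4 * (|r0| * ρ ^ 2) := by ring
      _ ≤ 9 ^ 4 * (|r0| * (r0 ^ 2 + r1 ^ 2 + r2 ^ 2)) := by gcongr
  have h5 : l ^ 5 ≤ (1 / 8) ^ 5 := pow_le_pow_left₀ hl.le hl8 5
  calc l ^ (C1 + C2 + 5) * ρ * |Vx (n + 4) E l - vv (n + 4) E l|
      = l ^ 5 * (l ^ C1 * (l ^ C2 * ρ * |Vx (n + 4) E l - vv (n + 4) E l|)) := by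
        rw [pow_add, pow_add]; ring
    _ ≤ (1 / 8) ^ 5 * 9 ^ 4 := by
        apply mul_le_mul h5 hA _ (by positivity)
        positivity
    _ ≤ 1 := by norm_num

end FIB
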