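import Pool.Agent.Helper75.FIB.Iface3

/-!
# FIB block T2c : ratio of consecutive slopes

`TLrec` on the window: `κ_{01} τ_{j+2} = κ_{12} τ_j + κ_{02} τ_{j+1}`, `s_j^2 >= θ^2`, so `1 <= κ <= 1 + δ`, `δ = l^2/(4θ^4)`.
With `D_j = τ_{j+1} - φ τ_j`, `S_j = τ_j + τ_{j+1}`: `|D_{j+1} + D_j/φ| <= δ S_j` and `S_{j+1} >= (1-δ) S_j`, so
`|D_{m-L+i}| <= (2 q^i + 10 δ) S_{m-L+i}` with `q = 0.78`, `q^2 <= 1/φ`.
-/

namespace FIB

open Real MeasureTheory Set Filter Topology

namespace T2c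

theorem ph_bounds : 1.618 < ph ∧ ph < 1.6181 ∧ ph ^ 2 = ph + 1 := by
  have h5 : (√5) ^ 2 = 5 := Real.sq_sqrt (by norm_num)
  have h1 : 2.236 < √5 := by
    rw [Real.lt_sqrt (by norm_num)]
    norm_num
  have h2 : √5 < 2.2362 := by
    rw [Real.sqrt_lt' (by norm_num)]
    norm_num
  unfold ph
  refine ⟨by linarith, by linarith, ?_⟩
  nlinarith

theorem kap_bounds {l θ a b : ℝ} (hθ : 0 < θ) (ha : a ^ 2 = 0 ∨ θ ^ 2 ≤ a ^ 2)
    (hb : b ^ 2 = 0 ∨ θ ^ 2 ≤ b ^ 2) : 1 ≤ kap l a b ∧ kap l a b ≤ 1 + l ^ 2 / (4 * θ ^ 4) := by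
  have hx : 0 ≤ l ^ 2 / (4 * a ^ 2 * b ^ 2) := by positivity
  have hx2 : l ^ 2 / (4 * a ^ 2 * b ^ 2) ≤ l ^ 2 / (4 * θ ^ 4) := by
    rcases ha with ha | ha
    · rw [ha]
      simp only [mul_zero, zero_mul, div_zero]
      positivity
    rcases hb with hb | hb
    · rw [hb]
      simp only [mul_zero, div_zero]
      positivity
    apply div_le_div_of_nonneg_left (by positivity) (by positivity)
    have h1 : θ ^ 2 * θ ^ 2 ≤ a ^ 2 * b ^ 2 := mul_le_mul ha hb (by positivity) (by positivity)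
    nlinarith
  unfold kap
  constructor
  · rw [Real.one_le_sqrt]
    linarith
  · rw [Real.sqrt_le_left (by positivity)]
    nlinarith [sq_nonneg (l ^ 2 / (4 * θ ^ 4))]

theorem sg_sq {j : ℕ} {E l θ : ℝ} (h : θ ^ 2 ≤ 1 - tr j E l ^ 2) :
    sg j E l ^ 2 = 0 ∨ θ ^ 2 ≤ sg j E l ^ 2 := by
  have h0 : 0 ≤ 1 - tr j E l ^ 2 := le_trans (sq_nonneg _) h
  unfold sg
  rw [mul_pow, Real.sq_sqrt h0]
  rcases lt_trichotomy (trE j E l) 0 with h1 | h1 | h1
  · right
    rw [sign_neg h1]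
    simpa using h
  · left
    rw [h1, _root_.sign_zero]
    simp
  · right
    rw [sign_pos h1]
    simpa using h

theorem tau_nonneg (j : ℕ) (E l : ℝ) : 0 ≤ tau j E l := by
  unfold tau
  positivity

/-- One step of the recursion. -/
theorem step {δ x y z k1 k2 k3 : ℝ} (hδ : 0 ≤ δ) (hx : 0 ≤ x) (hy : 0 ≤ y)
    (h1 : 1 ≤ k1) (h1' : k1 ≤ 1 + δ) (h2 : 1 ≤ k2) (h2' : k2 ≤ 1 + δ) (h3 : 1 ≤ k3)
    (h3' : k3 ≤ 1 + δ) (h : k1 * z = k2 * x + k3 * y) : |z - y - x| ≤ δ * (x + y) := by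
  have hk : 0 < k1 := by linarith
  rw [abs_le]
  constructor
  · -- lower bound
    have : k1 * (-(δ * (x + y))) ≤ k1 * (z - y - x) := by
      have : k1 * (z - y - x) = (k2 - k1) * x + (k3 - k1) * y := by linear_combination h
      rw [this]
      nlinarith [mul_nonneg hδ hx, mul_nonneg hδ hy, mul_nonneg hδ (mul_nonneg hδ hx)]
    exact le_of_mul_le_mul_left this hk
  · have : k1 * (z - y - x) ≤ k1 * (δ * (x + y)) := by
      have : k1 * (z - y - x) = (k2 - k1) * x + (k3 - k1) * y := by linear_combination h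
      rw [this]
      nlinarith [mul_nonneg hδ hx, mul_nonneg hδ hy]
    exact le_of_mul_le_mul_left this hk

end T2c

theorem tauRatio (h : TLrec) : TauRatio := by
  obtain ⟨hp1, hp2, hp3⟩ := T2c.ph_bounds
  refine ⟨16, ?_⟩
  rintro m L E l θ ⟨hθ, hCθ, hl, hlθ, hlL, -⟩ hm hT
  norm_num at hCθ
  have hθ16 : θ ≤ 1 / 16 := by linarith
  have hθ1 : θ ≤ 1 := by linarith
  set δ : ℝ := l ^ 2 / (4 * θ ^ 4) with hδ
  have hδ0 : 0 ≤ δ := by positivity
  -- size of δ
  have hl4 : l ≤ θ ^ 4 * (1 / 16) ^ 4 := by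
    calc l ≤ θ ^ 16 := hlθ
      _ = θ ^ 4 * (θ ^ 4 * θ ^ 8) := by ring
      _ ≤ θ ^ 4 * ((1 / 16) ^ 4 * 1) := by
          gcongr
          exact pow_le_one₀ hθ.le hθ1
      _ = θ ^ 4 * (1 / 16) ^ 4 := by ring
  have hδl : δ ≤ l / 1000 := by
    rw [hδ, div_le_div_iff₀ (by positivity) (by norm_num)]
    have : l * l ≤ l * (θ ^ 4 * (1 / 16) ^ 4) := by gcongr
    have h4 : 0 ≤ l * θ ^ 4 := by positivity
    nlinarith
  have hl64 : l ≤ 1 / 65536 := by
    have : θ ^ 4 ≤ 1 := pow_le_one₀ hθ.le hθ1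
    nlinarith
  have hδ1 : δ ≤ 1 / 10 := by linarith
  set j0 : ℕ := m - L with hj0
  have hT' : ∀ j, j0 ≤ j → j ≤ m + 2 → θ ^ 2 ≤ 1 - tr j E l ^ 2 := hT
  have htr : ∀ j, j0 ≤ j → j ≤ m + 2 → |tr j E l| < 1 := by
    intro j h1 h2
    have h3 := hT' j h1 h2
    have h4 : 0 < θ ^ 2 := by positivity
    rw [abs_lt]
    constructor <;> nlinarith
  have hrec : ∀ j, j0 ≤ j → j ≤ m → |tau (j + 2) E l - tau (j + 1) E l - tau j E l| ≤
      δ * (tau j E l + tau (j + 1) E l) := by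
    intro j h1 h2
    have hr := (h j E l (by omega) hl (htr j h1 (by omega)) (htr (j + 1) (by omega) (by omega))
      (htr (j + 2) (by omega) (by omega))).2.1
    have a0 := T2c.sg_sq (hT' j h1 (by omega))
    have a1 := T2c.sg_sq (hT' (j + 1) (by omega) (by omega))
    have a2 := T2c.sg_sq (hT' (j + 2) (by omega) (by omega))
    have k01 := T2c.kap_bounds (l := l) hθ a0 a1
    have k12 := T2c.kap_bounds (l := l) hθ a1 a2
    have k02 := T2c.kap_bounds (l := l) hθ a0 a2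
    exact T2c.step hδ0 (T2c.tau_nonneg _ _ _) (T2c.tau_nonneg _ _ _) k01.1 k01.2 k12.1 k12.2
      k02.1 k02.2 hr
  have key : ∀ i, i ≤ L → |tau (j0 + i + 1) E l - ph * tau (j0 + i) E l| ≤
      (2 * (0.78 : ℝ) ^ i + 10 * δ) * (tau (j0 + i) E l + tau (j0 + i + 1) E l) := by
    intro i
    induction i with
    | zero =>
      intro _
      have h1 := T2c.tau_nonneg j0 E l
      have h2 := T2c.tau_nonneg (j0 + 1) E l
      simp only [add_zero, pow_zero, mul_one]
      rw [abs_le]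
      constructor
      · nlinarith [mul_nonneg hδ0 h1, mul_nonneg hδ0 h2]
      · nlinarith [mul_nonneg hδ0 h1, mul_nonneg hδ0 h2]
    | succ i ih =>
      intro hi
      have ih := ih (by omega)
      have hr := hrec (j0 + i) (by omega) (by omega)
      have h1 := T2c.tau_nonneg (j0 + i) E l
      have h2 := T2c.tau_nonneg (j0 + i + 1) E l
      have h3 := T2c.tau_nonneg (j0 + i + 2) E l
      set x := tau (j0 + i) E l with hx
      set y := tau (j0 + i + 1) E l with hy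
      have e1 : j0 + (i + 1) + 1 = j0 + i + 2 := by ring
      have e2 : j0 + (i + 1) = j0 + i + 1 := by ring
      rw [e1, e2, ← hy]
      set z := tau (j0 + i + 2) E l with hz
      set A : ℝ := 2 * (0.78 : ℝ) ^ i + 10 * δ with hA
      have hq : (0 : ℝ) ≤ (0.78 : ℝ) ^ i := by positivity
      have hA0 : 0 ≤ A := by positivity
      have hid : z - ph * y = (z - y - x) - (ph - 1) * (y - ph * x) := by
        have : ph * ph = ph + 1 := by rw [← hp3]; ring
        linear_combination -x * this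
      have hS : (1 - δ) * (x + y) ≤ y + z := by
        have := (abs_le.1 hr).1
        nlinarith
      have hb : |z - ph * y| ≤ (0.6181 * A + δ) * (x + y) := by
        rw [hid]
        calc |(z - y - x) - (ph - 1) * (y - ph * x)|
            ≤ |z - y - x| + |(ph - 1) * (y - ph * x)| := abs_sub _ _
          _ = |z - y - x| + (ph - 1) * |y - ph * x| := by
              rw [abs_mul, abs_of_pos (by linarith : (0 : ℝ) < ph - 1)]
          _ ≤ δ * (x + y) + 0.6181 * (A * (x + y)) := by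
              have : (ph - 1) * |y - ph * x| ≤ 0.6181 * (A * (x + y)) := by
                apply mul_le_mul (by linarith) ih (abs_nonneg _) (by norm_num)
              linarith
          _ = (0.6181 * A + δ) * (x + y) := by ring
      refine hb.trans ?_
      have hS0 : 0 ≤ x + y := by linarith
      have hq1 : 2 * (0.78 : ℝ) ^ (i + 1) + 10 * δ = 0.78 * (2 * (0.78 : ℝ) ^ i) + 10 * δ := by
        rw [pow_succ]; ring
      rw [hq1]
      have hcoef : 0.6181 * A + δ ≤ (0.78 * (2 * (0.78 : ℝ) ^ i) + 10 * δ) * (1 - δ) := by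
        rw [hA]
        have : 0 ≤ (0.78 : ℝ) ^ i * (1 / 10 - δ) := mul_nonneg hq (by linarith)
        have h' : 0 ≤ δ * (1 / 10 - δ) := mul_nonneg hδ0 (by linarith)
        nlinarith
      calc (0.6181 * A + δ) * (x + y)
          ≤ ((0.78 * (2 * (0.78 : ℝ) ^ i) + 10 * δ) * (1 - δ)) * (x + y) :=
            mul_le_mul_of_nonneg_right hcoef hS0
        _ = (0.78 * (2 * (0.78 : ℝ) ^ i) + 10 * δ) * ((1 - δ) * (x + y)) := by ring
        _ ≤ (0.78 * (2 * (0.78 : ℝ) ^ i) + 10 * δ) * (y + z) :=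
            mul_le_mul_of_nonneg_left hS (by positivity)
  have hfin := key L le_rfl
  have hjL : j0 + L = m := by omega
  rw [hjL] at hfin
  -- the geometric term
  have hq : (0.78 : ℝ) ^ L ≤ l ^ 8 := by
    have h1 : ((0.78 : ℝ) ^ L) ^ 2 ≤ (l ^ 8) ^ 2 := by
      have h2 : ((0.78 : ℝ) ^ L) ^ 2 * ph ^ L ≤ 1 := by
        rw [← pow_mul, mul_comm L 2, pow_mul, ← mul_pow]
        apply pow_le_one₀ (by positivity)
        nlinarith
      have h3 : (1 / l) ^ 16 * l ^ 16 = 1 := by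
        rw [← mul_pow, one_div_mul_cancel hl.ne', one_pow]
      calc ((0.78 : ℝ) ^ L) ^ 2 = ((0.78 : ℝ) ^ L) ^ 2 * ((1 / l) ^ 16 * l ^ 16) := by
            rw [h3, mul_one]
        _ ≤ ((0.78 : ℝ) ^ L) ^ 2 * (ph ^ L * l ^ 16) := by gcongr
        _ = (((0.78 : ℝ) ^ L) ^ 2 * ph ^ L) * l ^ 16 := by ring
        _ ≤ 1 * l ^ 16 := by gcongr
        _ = (l ^ 8) ^ 2 := by ring
    exact (sq_le_sq₀ (by positivity) (by positivity)).1 h1
  have hq2 : l ^ 8 ≤ l / 65536 := by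
    have h7 : l ^ 7 ≤ 1 / 65536 := by
      calc l ^ 7 = l * l ^ 6 := by ring
        _ ≤ l * 1 := by
            gcongr
            exact pow_le_one₀ hl.le (by linarith)
        _ ≤ 1 / 65536 := by linarith
    calc l ^ 8 = l * l ^ 7 := by ring
      _ ≤ l * (1 / 65536) := by gcongr
      _ = l / 65536 := by ring
  have hE : 2 * (0.78 : ℝ) ^ L + 10 * δ ≤ l / 50 := by linarith
  have hx := T2c.tau_nonneg m E l
  have hy := T2c.tau_nonneg (m + 1) E l
  set x := tau m E l with hx'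
  set y := tau (m + 1) E l with hy'
  have hfin2 : |y - ph * x| ≤ l / 50 * (x + y) :=
    hfin.trans (mul_le_mul_of_nonneg_right hE (by linarith))
  have hy3 : y ≤ 3 * x := by
    have h1 := (abs_le.1 hfin2).2
    have h2 : l / 50 * (x + y) ≤ 1 / 50 * (x + y) := by
      apply mul_le_mul_of_nonneg_right _ (by linarith)
      linarith
    have h3 : ph * x ≤ 1.6181 * x := by nlinarith
    linarith
  have hlx : 0 ≤ l * x := mul_nonneg hl.le hx
  calc |y - ph * x| ≤ l / 50 * (x + y) := hfin2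
    _ ≤ l / 50 * (x + 3 * x) := mul_le_mul_of_nonneg_left (by linarith) (by linarith)
    _ = l * x * (4 / 50) := by ring
    _ ≤ l * x := by linarith

end FIB
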