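import Pool.Agent.Helper75.FIB.G6

/-!
# FIB block T3 : the phase is almost linear on a typical disc

First claim: `Ty θ (m-8) E0`, `Ty θ (m-4) E0`: DetRho at `n = m-4` (`m = n+4`): `|trE m| >= θ^C rho (m-4) >= θ^{C'} rho m` (rho_iter / RhoRatio: traces bounded by 1 in the window).
Second: `SLoc` with `ε = θ` at `n = m` (`Ty θ m`): on the complex disc `|z| rho m <= θ^{C'}` `|x_m(E0+z) - x_m(E0)| <= θ^{-C'}|z| rho m`; Cauchy for the second derivative: for real `|E - E0| rho m <= θ^C` (`C` large): `|x_m(E) - x_m(E0)| <= θ^4`, `|x_m'(E) - x_m'(E0)| <= θ^{-C''}|E-E0| rho_m^2 <= θ^2 |x_m'(E0)|`. So on this real disc `|x_m| < 1`, and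
`|x_m'(E)|/sqrt(1-x_m(E)^2)` is between `1/2` and `2` times the value `τ` at `E0` (`1 - x_m(E0)^2 >= θ^2`). `Th m l` is differentiable there with derivative `-|x_m'|/sqrt(1-x_m^2)` (ThProps); mean value inequality on `[E1,E2]`.
-/

namespace FIB

open Real MeasureTheory Set Filter Topology

/-- comparison of the slopes -/
lemma t3_ratio (x x0 d d0 θ : ℝ) (hθ : 0 < θ) (hθ1 : θ ≤ 1 / 16) (h0 : θ ^ 2 ≤ 1 - x0 ^ 2)
    (hx : |x - x0| ≤ θ ^ 4) (hd : |d - d0| ≤ |d0| / 8) :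
    x ^ 2 < 1 ∧ |d0| / √(1 - x0 ^ 2) ≤ 2 * (|d| / √(1 - x ^ 2)) ∧
      |d| / √(1 - x ^ 2) ≤ 2 * (|d0| / √(1 - x0 ^ 2)) := by
  have hx0 : |x0| ≤ 1 := by
    rw [← sq_le_one_iff_abs_le_one]
    nlinarith [sq_nonneg θ]
  have h4 : θ ^ 4 ≤ θ ^ 2 * (1 / 256) := by
    have : θ ^ 2 ≤ 1 / 256 := by nlinarith
    have h2 : 0 ≤ θ ^ 2 := by positivity
    nlinarith
  have h2' : θ ^ 2 ≤ 1 := by nlinarith
  have hsq : |x ^ 2 - x0 ^ 2| ≤ (1 - x0 ^ 2) * (3 / 256) := by
    have e : x ^ 2 - x0 ^ 2 = (x - x0) * (x + x0) := by ring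
    rw [e, abs_mul]
    have h5 : |x + x0| ≤ 3 := by
      have e2 : x + x0 = (x - x0) + (x0 + x0) := by ring
      rw [e2]
      refine le_trans (abs_add_le _ _) ?_
      have := abs_add_le x0 x0
      have h6 : θ ^ 4 ≤ 1 := by linarith
      linarith
    have := mul_le_mul hx h5 (abs_nonneg _) (by positivity)
    linarith
  rw [abs_le] at hsq
  have hp0 : 0 < 1 - x0 ^ 2 := lt_of_lt_of_le (by positivity) h0
  have hlo : (1 - x0 ^ 2) * (1 / 2) ≤ 1 - x ^ 2 := by nlinarith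
  have hhi : 1 - x ^ 2 ≤ (1 - x0 ^ 2) * 2 := by nlinarith
  have hp : 0 < 1 - x ^ 2 := lt_of_lt_of_le (by positivity) hlo
  have hlo' : (253 / 256) ^ 2 * (1 - x0 ^ 2) ≤ 1 - x ^ 2 := by nlinarith
  have hhi' : 1 - x ^ 2 ≤ (259 / 256) ^ 2 * (1 - x0 ^ 2) := by nlinarith
  have s0 : 0 < √(1 - x0 ^ 2) := Real.sqrt_pos.2 hp0
  have s1 : 0 < √(1 - x ^ 2) := Real.sqrt_pos.2 hp
  have k1 : 253 / 256 * √(1 - x0 ^ 2) ≤ √(1 - x ^ 2) := by
    rw [← Real.sqrt_sq (by norm_num : (0 : ℝ) ≤ 253 / 256), ← Real.sqrt_mul (by positivity)]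
    exact Real.sqrt_le_sqrt hlo'
  have k2 : √(1 - x ^ 2) ≤ 259 / 256 * √(1 - x0 ^ 2) := by
    rw [← Real.sqrt_sq (by norm_num : (0 : ℝ) ≤ 259 / 256), ← Real.sqrt_mul (by positivity)]
    exact Real.sqrt_le_sqrt hhi'
  have m1 : |d| ≤ 9 / 8 * |d0| := by
    have e : d = (d - d0) + d0 := by ring
    calc |d| = |(d - d0) + d0| := by rw [← e]
      _ ≤ |d - d0| + |d0| := abs_add_le _ _
      _ ≤ 9 / 8 * |d0| := by linarith
  have m2 : 7 / 8 * |d0| ≤ |d| := by
    have e : d0 = d - (d - d0) := by ring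
    have : |d0| ≤ |d| + |d - d0| := by
      calc |d0| = |d - (d - d0)| := by rw [← e]
        _ ≤ |d| + |d - d0| := abs_sub _ _
    linarith
  have hd0 := abs_nonneg d0
  refine ⟨by linarith, ?_, ?_⟩
  · rw [← mul_div_assoc, div_le_div_iff₀ s0 s1]
    calc |d0| * √(1 - x ^ 2) ≤ |d0| * (259 / 256 * √(1 - x0 ^ 2)) :=
          mul_le_mul_of_nonneg_left k2 hd0
      _ ≤ 2 * (7 / 8 * |d0|) * √(1 - x0 ^ 2) := by nlinarith [mul_nonneg hd0 s0.le]
      _ ≤ 2 * |d| * √(1 - x0 ^ 2) := by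
          apply mul_le_mul_of_nonneg_right _ s0.le
          linarith
  · rw [← mul_div_assoc, div_le_div_iff₀ s1 s0]
    calc |d| * √(1 - x0 ^ 2) ≤ 9 / 8 * |d0| * √(1 - x0 ^ 2) :=
          mul_le_mul_of_nonneg_right m1 s0.le
      _ ≤ 2 * |d0| * (253 / 256 * √(1 - x0 ^ 2)) := by nlinarith [mul_nonneg hd0 s0.le]
      _ ≤ 2 * |d0| * √(1 - x ^ 2) := mul_le_mul_of_nonneg_left k1 (by linarith)

theorem thLin (h : ThProps) (hS : SLoc) (hD : DetRho) (hR : RhoRatio) : ThLin := by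
  obtain ⟨CS, hS⟩ := hS
  obtain ⟨CD, hD⟩ := hD
  refine ⟨2 * CS + CD + 16, fun m E0 l θ hθ hCθ hl hlθ hm hTw => ?_⟩
  have hθ1 : θ ≤ 1 / 16 := by
    push_cast at hCθ
    have h1 : (0 : ℝ) ≤ (2 * (CS : ℝ) + CD) * θ := by positivity
    nlinarith
  have hθ1' : θ ≤ 1 := by linarith
  have hpw : ∀ a b : ℕ, a ≤ b → θ ^ b ≤ θ ^ a := fun a b hab =>
    pow_le_pow_of_le_one hθ.le hθ1' hab
  have hlθ1 : l ≤ θ := by
    have := hpw 1 (2 * CS + CD + 16) (by omega)
    rw [pow_one] at this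
    linarith
  have hl8 : l ≤ 1 / 8 := by linarith
  have hOk : Okl θ l := ⟨hl, hl8, hθ, by linarith⟩
  have hND : ∀ n, m - 8 ≤ n → n ≤ m → ND θ n E0 l := fun n h1 h2 =>
    Or.inr ⟨hlθ1, fun j h3 h4 => hTw j (by omega) (by omega)⟩
  have htr : ∀ j, m - 8 ≤ j → j ≤ m + 8 → |tr j E0 l| ≤ 1 := fun j h3 h4 => by
    have := hTw j h3 h4
    rw [← sq_le_one_iff_abs_le_one]
    nlinarith [sq_nonneg θ]
  have htr2 : ∀ j, m - 8 ≤ j → j ≤ m + 8 → |tr j E0 l| ≤ 2 := fun j h3 h4 =>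
    le_trans (htr j h3 h4) (by norm_num)
  obtain ⟨k, rfl⟩ : ∃ k, m = k + 4 := ⟨m - 4, by omega⟩
  have r1 := (hR k E0 l (htr2 _ (by omega) (by omega)) (htr2 _ (by omega) (by omega))).1
  have r2 := (hR (k + 1) E0 l (htr2 _ (by omega) (by omega)) (htr2 _ (by omega) (by omega))).1
  have r3 := (hR (k + 2) E0 l (htr2 _ (by omega) (by omega)) (htr2 _ (by omega) (by omega))).1
  have r4 := (hR (k + 3) E0 l (htr2 _ (by omega) (by omega)) (htr2 _ (by omega) (by omega))).1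
  have r5 : rho (k + 4) E0 l ≤ 6561 * rho k E0 l := by
    rw [show k + 1 + 1 = k + 2 from rfl] at r2
    rw [show k + 2 + 1 = k + 3 from rfl] at r3
    rw [show k + 3 + 1 = k + 4 from rfl] at r4
    linarith
  have d1 := (hD k E0 l θ hOk (hND k (by omega) (by omega))).2.2.2 (k + 4) le_rfl (by omega)
    (htr _ (by omega) (by omega))
  have hρ := (hD (k + 4) E0 l θ hOk (hND (k + 4) (by omega) le_rfl)).2.2.1
  have hρk := (hD k E0 l θ hOk (hND k (by omega) (by omega))).2.2.1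
  have hθ4 : θ ^ 4 * 6561 ≤ 1 := by
    have a1 : θ ^ 2 ≤ 1 / 256 := by nlinarith
    have a2 : θ ^ 4 = θ ^ 2 * θ ^ 2 := by ring
    have a3 : θ ^ 4 ≤ 1 / 256 * (1 / 256) := by
      rw [a2]
      exact mul_le_mul a1 a1 (by positivity) (by norm_num)
    linarith
  have d2 : θ ^ (CD + 4) * rho (k + 4) E0 l ≤ |trE (k + 4) E0 l| := by
    refine le_trans ?_ d1
    calc θ ^ (CD + 4) * rho (k + 4) E0 l ≤ θ ^ (CD + 4) * (6561 * rho k E0 l) :=
          mul_le_mul_of_nonneg_left r5 (by positivity)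
      _ = θ ^ CD * (θ ^ 4 * 6561) * rho k E0 l := by ring
      _ ≤ θ ^ CD * 1 * rho k E0 l := by
          apply mul_le_mul_of_nonneg_right _ hρk.le
          exact mul_le_mul_of_nonneg_left hθ4 (by positivity)
      _ = θ ^ CD * rho k E0 l := by ring
  set ρ := rho (k + 4) E0 l with hρd
  have d3 : θ ^ (2 * CS + CD + 16) * ρ ≤ |trE (k + 4) E0 l| := by
    refine le_trans ?_ d2
    exact mul_le_mul_of_nonneg_right (hpw _ _ (by omega)) hρ.le
  refine ⟨d3, ?_⟩
  -- the disc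
  have hS' := hS (k + 4) E0 l θ hOk (hND (k + 4) (by omega) le_rfl)
  have hS0 : 0 < θ ^ CS := by positivity
  have hdisc : ∀ E : ℝ, |E - E0| * ρ ≤ θ ^ (2 * CS + CD + 16) →
      tr (k + 4) E l ^ 2 < 1 ∧ |trE (k + 4) E0 l| / √(1 - tr (k + 4) E0 l ^ 2) ≤
        2 * (|trE (k + 4) E l| / √(1 - tr (k + 4) E l ^ 2)) ∧
      |trE (k + 4) E l| / √(1 - tr (k + 4) E l ^ 2) ≤
        2 * (|trE (k + 4) E0 l| / √(1 - tr (k + 4) E0 l ^ 2)) := by
    intro E hE
    apply t3_ratio _ _ _ _ θ hθ hθ1 (hTw (k + 4) (by omega) (by omega))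
    · have h1 := hS' ((E - E0 : ℝ) : ℂ) 0 (by
        rw [norm_zero, add_zero, Complex.norm_real, Real.norm_eq_abs]
        exact le_trans hE (hpw _ _ (by omega))) (k + 4) le_rfl (by omega)
      rw [norm_zero, add_zero, add_zero, Complex.norm_real, Real.norm_eq_abs,
        ← Complex.ofReal_add, add_sub_cancel, tr_ofReal, ← Complex.ofReal_sub, Complex.norm_real,
        Real.norm_eq_abs] at h1
      have h2 : θ ^ CS * |tr (k + 4) E l - tr (k + 4) E0 l| ≤ θ ^ CS * θ ^ 4 := by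
        rw [← pow_add]
        exact le_trans h1 (le_trans hE (hpw _ _ (by omega)))
      exact le_of_mul_le_mul_left h2 hS0
    · have hs : |E - E0| + |l - l| < 3 * (θ ^ CS / ρ) / 4 := by
        rw [sub_self, abs_zero, add_zero, lt_div_iff₀ (by norm_num), mul_div_assoc',
          lt_div_iff₀ hρ]
        have h1 : θ ^ (2 * CS + CD + 16) ≤ θ ^ (CS + 1) := hpw _ _ (by omega)
        have h2 : θ ^ (CS + 1) ≤ θ ^ CS * (1 / 16) := by
          rw [pow_succ]
          exact mul_le_mul_of_nonneg_left hθ1 hS0.le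
        linarith
      have hcau := (g6_cauchy (k + 4) E0 l (θ ^ CS / ρ) (by positivity) (by
        intro z w hzw
        rw [le_div_iff₀ hρ] at hzw
        have h2 := hS' z w hzw (k + 4) le_rfl (by omega)
        have h3 : θ ^ CS * ‖tr (k + 4) ((E0 : ℂ) + z) ((l : ℂ) + w) -
            ((tr (k + 4) E0 l : ℝ) : ℂ)‖ ≤ θ ^ CS * 1 := by linarith
        exact le_of_mul_le_mul_left h3 hS0) E l hs).1
      refine le_trans hcau ?_
      rw [sub_self, abs_zero, add_zero, div_pow, div_div_eq_mul_div, div_le_iff₀ (by positivity)]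
      have e1 : 12 * |E - E0| * ρ ^ 2 = 12 * (|E - E0| * ρ) * ρ := by ring
      rw [e1]
      calc 12 * (|E - E0| * ρ) * ρ ≤ 12 * θ ^ (2 * CS + CD + 16) * ρ := by
            apply mul_le_mul_of_nonneg_right _ hρ.le
            linarith
        _ = 12 * θ ^ 12 * (θ ^ (CD + 4) * ρ) * (θ ^ CS) ^ 2 := by ring
        _ ≤ 1 / 8 * (|trE (k + 4) E0 l|) * (θ ^ CS) ^ 2 := by
            apply mul_le_mul_of_nonneg_right _ (by positivity)
            apply mul_le_mul _ d2 (by positivity) (by norm_num)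
            have a1 : θ ^ 12 ≤ θ ^ 2 := hpw _ _ (by norm_num)
            have a2 : θ ^ 2 ≤ 1 / 256 := by nlinarith
            linarith
        _ = |trE (k + 4) E0 l| / 8 * (θ ^ CS) ^ 2 := by ring
  intro E1 E2 h12 hE1 hE2
  set τ := |trE (k + 4) E0 l| / √(1 - tr (k + 4) E0 l ^ 2) with hτ
  rcases h12.eq_or_lt with he | hlt
  · rw [he]
    simp
  · have hin : ∀ E ∈ Icc E1 E2, |E - E0| * ρ ≤ θ ^ (2 * CS + CD + 16) := by
      intro E hE
      have : |E - E0| ≤ max |E1 - E0| |E2 - E0| := by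
        rw [abs_le, le_max_iff]
        constructor
        · have := neg_abs_le (E1 - E0)
          have h3 := le_max_left |E1 - E0| |E2 - E0|
          linarith [hE.1]
        · right
          have := le_abs_self (E2 - E0)
          linarith [hE.2]
      rcases le_total |E1 - E0| |E2 - E0| with h3 | h3
      · rw [max_eq_right h3] at this
        exact le_trans (mul_le_mul_of_nonneg_right this hρ.le) hE2
      · rw [max_eq_left h3] at this
        exact le_trans (mul_le_mul_of_nonneg_right this hρ.le) hE1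
    have hder : ∀ E ∈ Icc E1 E2, HasDerivAt (Th (k + 4) l)
        (-(|trE (k + 4) E l| / √(1 - tr (k + 4) E l ^ 2))) E := by
      intro E hE
      have h1 := (hdisc E (hin E hE)).1
      exact ((h l hl hl8 (k + 4)).2.2.2.2.2 E (by omega) (by
        rw [← sq_lt_one_iff_abs_lt_one]
        exact h1)).2
    obtain ⟨c, hc, hcs⟩ := exists_hasDerivAt_eq_slope (Th (k + 4) l)
      (fun E => -(|trE (k + 4) E l| / √(1 - tr (k + 4) E l ^ 2))) hlt
      (fun E hE => (hder E hE).continuousAt.continuousWithinAt)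
      (fun E hE => hder E (Ioo_subset_Icc_self hE))
    have hpos : 0 < E2 - E1 := by linarith
    rw [eq_div_iff hpos.ne'] at hcs
    obtain ⟨-, q1, q2⟩ := hdisc c (hin c (Ioo_subset_Icc_self hc))
    have q1' := mul_le_mul_of_nonneg_left q1 hpos.le
    have q2' := mul_le_mul_of_nonneg_left q2 hpos.le
    constructor
    · nlinarith
    · nlinarith

end FIB
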