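import Pool.Agent.Helper75.FIB.Iface

/-!
# FIB block T4 : growth from above

`τ_j = tau j E l`. From `TLrec`: `κ_{01} τ_{j+2} = κ_{12} τ_j + κ_{02} τ_{j+1}` with `κ >= 1`, so `τ_{j+2} <= κmax (τ_j + τ_{j+1})`.
Clean case: `l <= 16 (1-x_j^2)^2`, i.e. `s_j^2 >= sqrt(l)/4`, so `κ^2 <= 1 + l^2/(4 (l/16)) = 1 + 4l`, `κ <= 1 + 2l`. By induction `τ_{n+i} <= (φ(1+2l))^i max(τ_n,τ_{n+1})` (`r = φ(1+2l)` satisfies `(1+2l)(1+r) <= r^2`; start `i = 0,1`: `τ_{n+1} <= φ max(..)` is false in general, so use the bound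
`τ_{n+i} <= r^i M`, `M = max(τ_n, τ_{n+1})`, true for `i = 0, 1`). `rho n' = max_{i=0,1,2} |x'_{n'+i}| <= max τ_{n'+i}` (as `|x'| = |s| τ <= τ`) and `τ_j = |x_j'|/|s_j| <= rho n · 2 l^{-1/4}` for `j = n, n+1`; window of the hypothesis: `j` up to `n'+2`. Absorb `r^2 2 l^{-1/4}` in `l^{-C}`.
Typical case: `s_j^2 >= θ^2` on `[n-8,n'+8]`: `κ^2 <= 1 + l^2/(4θ^4) <= 1 + θ^4` (l <= θ^C), so the product of at most `1/θ` factors `(1+θ^4)` is `<= 2`; same argument with `τ_j <= rho/θ`.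
-/

namespace FIB

open Real MeasureTheory Set Filter Topology

theorem ph_sq16 : ph ^ 2 = ph + 1 := by
  unfold ph
  have h : √5 ^ 2 = (5 : ℝ) := Real.sq_sqrt (by norm_num)
  linear_combination (1 / 4 : ℝ) * h

theorem one_le_ph16 : 1 ≤ ph := by
  unfold ph
  have h : (1 : ℝ) ≤ √5 := by
    rw [Real.one_le_sqrt]; norm_num
  linarith

theorem ph_le_two16 : ph ≤ 2 := by
  unfold ph
  have h : √5 ≤ (3 : ℝ) := by
    rw [Real.sqrt_le_iff]; norm_num
  linarith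

theorem sg_sq16 (j : ℕ) (E l : ℝ) (h : 0 ≤ 1 - tr j E l ^ 2) :
    sg j E l ^ 2 = 0 ∨ sg j E l ^ 2 = 1 - tr j E l ^ 2 := by
  unfold sg
  rcases lt_trichotomy (trE j E l) 0 with h1 | h1 | h1
  · right
    rw [sign_neg h1, mul_pow, Real.sq_sqrt h]
    simp
  · left
    rw [h1, _root_.sign_zero]
    simp
  · right
    rw [sign_pos h1, mul_pow, Real.sq_sqrt h]
    simp

theorem kap_le16 {l c κ : ℝ} (hc : 0 < c) (hκ : 1 ≤ κ) (hκ2 : 1 + l ^ 2 / (4 * c ^ 2) ≤ κ ^ 2)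
    (i j : ℕ) (E : ℝ) (hi : c ≤ 1 - tr i E l ^ 2) (hj : c ≤ 1 - tr j E l ^ 2) :
    kap l (sg i E l) (sg j E l) ≤ κ := by
  unfold kap
  rw [Real.sqrt_le_iff]
  refine ⟨by linarith, le_trans ?_ hκ2⟩
  have h0 : 0 ≤ l ^ 2 / (4 * c ^ 2) := by positivity
  rcases sg_sq16 i E l (by linarith) with h1 | h1
  · rw [h1]; simpa using h0
  rcases sg_sq16 j E l (by linarith) with h2 | h2
  · rw [h2]; simpa using h0
  rw [h1, h2]
  have h3 : c * c ≤ (1 - tr i E l ^ 2) * (1 - tr j E l ^ 2) :=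
    mul_le_mul hi hj hc.le (by linarith)
  have h4 : l ^ 2 / (4 * (1 - tr i E l ^ 2) * (1 - tr j E l ^ 2)) ≤ l ^ 2 / (4 * c ^ 2) := by
    refine div_le_div_of_nonneg_left (sq_nonneg l) (by positivity) ?_
    nlinarith
  linarith

theorem one_le_kap16 (l a b : ℝ) : 1 ≤ kap l a b := by
  unfold kap
  rw [Real.one_le_sqrt]
  have : 0 ≤ l ^ 2 / (4 * a ^ 2 * b ^ 2) := by positivity
  linarith

theorem tau_nonneg16 (j : ℕ) (E l : ℝ) : 0 ≤ tau j E l := by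
  unfold tau
  positivity

theorem tau_step16 (h : TLrec) {l c κ : ℝ} (hl : 0 < l) (hc : 0 < c) (hκ : 1 ≤ κ)
    (hκ2 : 1 + l ^ 2 / (4 * c ^ 2) ≤ κ ^ 2) (n : ℕ) (hn : 1 ≤ n) (E : ℝ)
    (h0 : c ≤ 1 - tr n E l ^ 2) (h1 : c ≤ 1 - tr (n + 1) E l ^ 2)
    (h2 : c ≤ 1 - tr (n + 2) E l ^ 2) :
    tau (n + 2) E l ≤ κ * (tau n E l + tau (n + 1) E l) := by
  have a : ∀ x : ℝ, c ≤ 1 - x ^ 2 → |x| < 1 := by
    intro x hx
    exact (sq_lt_one_iff_abs_lt_one x).1 (by linarith)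
  obtain ⟨-, h3, -⟩ := h n E l hn hl (a _ h0) (a _ h1) (a _ h2)
  have k1 := one_le_kap16 l (sg n E l) (sg (n + 1) E l)
  have k2 := kap_le16 hc hκ hκ2 (n + 1) (n + 2) E h1 h2
  have k3 := kap_le16 hc hκ hκ2 n (n + 2) E h0 h2
  have t0 := tau_nonneg16 n E l
  have t1 := tau_nonneg16 (n + 1) E l
  have t2 := tau_nonneg16 (n + 2) E l
  have e1 : tau (n + 2) E l ≤ kap l (sg n E l) (sg (n + 1) E l) * tau (n + 2) E l :=
    le_mul_of_one_le_left t2 k1
  have e2 := mul_le_mul_of_nonneg_right k2 t0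
  have e3 := mul_le_mul_of_nonneg_right k3 t1
  rw [h3] at e1
  linarith

theorem tau_grow16 (h : TLrec) {l c κ : ℝ} (hl : 0 < l) (hc : 0 < c) (hκ : 1 ≤ κ)
    (hκ2 : 1 + l ^ 2 / (4 * c ^ 2) ≤ κ ^ 2) (n n' : ℕ) (hn : 1 ≤ n) (E : ℝ)
    (hw : ∀ j, n ≤ j → j ≤ n' + 2 → c ≤ 1 - tr j E l ^ 2) (i : ℕ) :
    (n + i ≤ n' + 2 → tau (n + i) E l ≤ (ph * κ) ^ i * max (tau n E l) (tau (n + 1) E l)) ∧
    (n + i + 1 ≤ n' + 2 →
      tau (n + i + 1) E l ≤ (ph * κ) ^ (i + 1) * max (tau n E l) (tau (n + 1) E l)) := by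
  have hM : 0 ≤ max (tau n E l) (tau (n + 1) E l) := le_trans (tau_nonneg16 n E l) (le_max_left _ _)
  have hp := one_le_ph16
  have hr : 1 ≤ ph * κ := by nlinarith
  induction i with
  | zero =>
    refine ⟨fun _ => ?_, fun _ => ?_⟩
    · rw [pow_zero, one_mul]; exact le_max_left _ _
    · rw [zero_add, pow_one]
      exact le_trans (le_max_right _ _) (le_mul_of_one_le_left hM hr)
  | succ i ih =>
    refine ⟨fun hi => ih.2 hi, fun hi => ?_⟩
    have e0 := ih.1 (by omega)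
    have e1 := ih.2 (by omega)
    have e2 := tau_step16 h hl hc hκ hκ2 (n + i) (by omega) E (hw _ (by omega) (by omega))
      (hw _ (by omega) (by omega)) (hw _ (by omega) (by omega))
    have e3 : tau (n + (i + 1) + 1) E l = tau (n + i + 2) E l := rfl
    rw [e3]
    set M := max (tau n E l) (tau (n + 1) E l) with hMdef
    set r := ph * κ with hrdef
    have hri : 0 ≤ r ^ i := by positivity
    have e4 : κ * (tau (n + i) E l + tau (n + i + 1) E l) ≤ κ * (r ^ i * M + r ^ (i + 1) * M) :=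
      mul_le_mul_of_nonneg_left (by linarith) (by linarith)
    have e5 : κ * (1 + r) ≤ r ^ 2 := by
      have : r ^ 2 = (ph + 1) * κ ^ 2 := by rw [hrdef, mul_pow, ph_sq16]
      rw [this, hrdef]
      nlinarith
    have e6 : κ * (r ^ i * M + r ^ (i + 1) * M) = (κ * (1 + r)) * (r ^ i * M) := by ring
    have e7 : (κ * (1 + r)) * (r ^ i * M) ≤ r ^ 2 * (r ^ i * M) :=
      mul_le_mul_of_nonneg_right e5 (mul_nonneg hri hM)
    have e8 : r ^ (i + 1 + 1) * M = r ^ 2 * (r ^ i * M) := by ring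
    rw [e8]
    linarith

theorem rho_grow16 (h : TLrec) {l c κ d : ℝ} (hl : 0 < l) (hc : 0 < c) (hκ : 1 ≤ κ)
    (hκ2 : 1 + l ^ 2 / (4 * c ^ 2) ≤ κ ^ 2) (n n' : ℕ) (hn : 1 ≤ n) (hnn : n ≤ n') (E : ℝ)
    (hw : ∀ j, n ≤ j → j ≤ n' + 2 → c ≤ 1 - tr j E l ^ 2) (hd : 0 < d)
    (hdc : ∀ j, n ≤ j → j ≤ n' + 2 → d ≤ √(1 - tr j E l ^ 2)) :
    rho n' E l ≤ (ph * κ) ^ (n' - n) * (ph * κ) ^ 2 * (rho n E l / d) := by
  have hp := one_le_ph16
  have hr : 1 ≤ ph * κ := by nlinarith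
  have hM : max (tau n E l) (tau (n + 1) E l) ≤ rho n E l / d := by
    refine max_le ?_ ?_
    · unfold tau
      exact div_le_div₀ (le_trans (abs_nonneg _) (le_max_left _ _)) (le_max_left _ _) hd
        (hdc n le_rfl (by omega))
    · unfold tau
      exact div_le_div₀ (le_trans (abs_nonneg _) (le_max_left _ _))
        (le_trans (le_max_left _ _) (le_max_right _ _)) hd (hdc (n + 1) (by omega) (by omega))
  have hρ0 : 0 ≤ rho n E l / d :=
    div_nonneg (le_trans (abs_nonneg _) (le_max_left _ _)) hd.le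
  have key : ∀ i, i ≤ 2 → |trE (n' + i) E l| ≤
      (ph * κ) ^ (n' - n) * (ph * κ) ^ 2 * (rho n E l / d) := by
    intro i hi
    have h1 := (tau_grow16 h hl hc hκ hκ2 n n' hn E hw (n' - n + i)).1 (by omega)
    have h2 : n + (n' - n + i) = n' + i := by omega
    rw [h2] at h1
    have hs : c ≤ 1 - tr (n' + i) E l ^ 2 := hw _ (by omega) (by omega)
    have hs1 : √(1 - tr (n' + i) E l ^ 2) ≤ 1 := by
      rw [Real.sqrt_le_iff]
      exact ⟨zero_le_one, by nlinarith [sq_nonneg (tr (n' + i) E l)]⟩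
    have hs0 : 0 < √(1 - tr (n' + i) E l ^ 2) := Real.sqrt_pos.2 (by linarith)
    have h3 : |trE (n' + i) E l| ≤ tau (n' + i) E l := by
      unfold tau
      rw [le_div_iff₀ hs0]
      exact mul_le_of_le_one_right (abs_nonneg _) hs1
    have h4 : (ph * κ) ^ (n' - n + i) ≤ (ph * κ) ^ (n' - n) * (ph * κ) ^ 2 := by
      rw [← pow_add]
      exact pow_le_pow_right₀ hr (by omega)
    calc |trE (n' + i) E l| ≤ (ph * κ) ^ (n' - n + i) * max (tau n E l) (tau (n + 1) E l) :=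
          h3.trans h1
      _ ≤ (ph * κ) ^ (n' - n + i) * (rho n E l / d) :=
          mul_le_mul_of_nonneg_left hM (by positivity)
      _ ≤ _ := mul_le_mul_of_nonneg_right h4 hρ0
  exact max_le (key 0 (by omega)) (max_le (key 1 (by omega)) (key 2 (by omega)))

theorem grUpTyp (h : TLrec) : GrUpTyp := by
  refine ⟨50, ?_⟩
  intro n n' E l θ hθ hCθ hl hlθ hn hnn hN hTw
  have hθ1 : θ ≤ 1 / 50 := by
    push_cast at hCθ
    linarith
  have hl3 : l ≤ θ ^ 3 := by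
    refine hlθ.trans (pow_le_pow_of_le_one hθ.le (by linarith) (by norm_num))
  have hκ2 : 1 + l ^ 2 / (4 * (θ ^ 2) ^ 2) ≤ (1 + θ) ^ 2 := by
    have h1 : l ^ 2 ≤ (θ ^ 3) ^ 2 := pow_le_pow_left₀ hl.le hl3 2
    have h2 : l ^ 2 / (4 * (θ ^ 2) ^ 2) ≤ θ ^ 2 := by
      rw [div_le_iff₀ (by positivity)]
      have : 0 ≤ θ ^ 6 := by positivity
      nlinarith
    nlinarith
  have hw : ∀ j, n ≤ j → j ≤ n' + 2 → θ ^ 2 ≤ 1 - tr j E l ^ 2 :=
    fun j h1 h2 => hTw j (by omega) (by omega)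
  have hdc : ∀ j, n ≤ j → j ≤ n' + 2 → θ ≤ √(1 - tr j E l ^ 2) := by
    intro j h1 h2
    exact Real.le_sqrt_of_sq_le (hw j h1 h2)
  have h1 := rho_grow16 h hl (by positivity : 0 < θ ^ 2) (by linarith : (1 : ℝ) ≤ 1 + θ) hκ2 n n'
    (by omega) hnn E hw hθ hdc
  have hρ : 0 ≤ rho n E l := le_trans (abs_nonneg _) (le_max_left _ _)
  have hp := one_le_ph16
  have hp2 := ph_le_two16
  have h2 : (1 + θ) ^ (n' - n) ≤ 3 := by
    have e1 : (1 + θ) ^ (n' - n) ≤ Real.exp θ ^ (n' - n) :=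
      pow_le_pow_left₀ (by linarith) (by linarith [Real.add_one_le_exp θ]) _
    rw [← Real.exp_nat_mul] at e1
    have e2 : Real.exp (((n' - n : ℕ) : ℝ) * θ) ≤ Real.exp 1 := Real.exp_le_exp.2 hN
    have e3 := Real.exp_one_lt_d9
    linarith
  have h3 : (ph * (1 + θ)) ^ 2 ≤ 16 := by
    have : ph * (1 + θ) ≤ 4 := by nlinarith
    have h0 : 0 ≤ ph * (1 + θ) := by positivity
    nlinarith
  have h4 : (ph * (1 + θ)) ^ (n' - n) ≤ ph ^ (n' - n) * 3 := by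
    rw [mul_pow]
    exact mul_le_mul_of_nonneg_left h2 (by positivity)
  have h5 : rho n' E l ≤ ph ^ (n' - n) * 3 * 16 * (rho n E l / θ) := by
    refine h1.trans (mul_le_mul_of_nonneg_right ?_ (by positivity))
    exact mul_le_mul h4 h3 (by positivity) (by positivity)
  have h6 : θ ^ 50 ≤ θ * (1 / 50) := by
    have e1 : θ ^ 50 = θ * (θ * θ ^ 48) := by ring
    rw [e1]
    refine mul_le_mul_of_nonneg_left ?_ hθ.le
    have e2 : θ ^ 48 ≤ 1 := pow_le_one₀ hθ.le (by linarith)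
    nlinarith
  have h7 : 0 ≤ rho n' E l := le_trans (abs_nonneg _) (le_max_left _ _)
  calc θ ^ 50 * rho n' E l ≤ θ * (1 / 50) * (ph ^ (n' - n) * 3 * 16 * (rho n E l / θ)) :=
        mul_le_mul h6 h5 h7 (by positivity)
    _ = 48 / 50 * (ph ^ (n' - n) * rho n E l) := by field_simp; try ring
    _ ≤ ph ^ (n' - n) * rho n E l := by
        have : 0 ≤ ph ^ (n' - n) * rho n E l := by positivity
        linarith

theorem grUpClean (h : TLrec) : GrUpClean := by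
  refine ⟨3, ?_⟩
  intro n n' E l hl hl8 hn hnn hcl
  have hsl : 0 < √l := Real.sqrt_pos.2 hl
  have hsl2 : √l ^ 2 = l := Real.sq_sqrt hl.le
  have hw : ∀ j, n ≤ j → j ≤ n' + 2 → √l / 4 ≤ 1 - tr j E l ^ 2 := by
    intro j h1 h2
    obtain ⟨h3, h4⟩ := hcl j h1 h2
    have h5 : 0 < 1 - tr j E l ^ 2 := by
      have := (sq_lt_one_iff_abs_lt_one _).2 h4
      linarith
    by_contra hcon
    push Not at hcon
    nlinarith
  have hκ2 : 1 + l ^ 2 / (4 * (√l / 4) ^ 2) ≤ (1 + 2 * l) ^ 2 := by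
    have e1 : 4 * (√l / 4) ^ 2 = l / 4 := by rw [div_pow, hsl2]; ring
    rw [e1]
    have e2 : l ^ 2 / (l / 4) = 4 * l := by field_simp
    rw [e2]
    nlinarith
  have hdc : ∀ j, n ≤ j → j ≤ n' + 2 → l / 4 ≤ √(1 - tr j E l ^ 2) := by
    intro j h1 h2
    have h3 := hw j h1 h2
    refine Real.le_sqrt_of_sq_le ?_
    have h4 : l ≤ √l := by nlinarith
    nlinarith
  have h1 := rho_grow16 h hl (by positivity : 0 < √l / 4) (by linarith : (1 : ℝ) ≤ 1 + 2 * l) hκ2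
    n n' hn hnn E hw (by positivity : 0 < l / 4) hdc
  have hρ : 0 ≤ rho n E l := le_trans (abs_nonneg _) (le_max_left _ _)
  have hρ' : 0 ≤ rho n' E l := le_trans (abs_nonneg _) (le_max_left _ _)
  have hp := one_le_ph16
  have hp2 := ph_le_two16
  have h3 : (ph * (1 + 2 * l)) ^ 2 ≤ 25 / 4 := by
    have : ph * (1 + 2 * l) ≤ 5 / 2 := by nlinarith
    have h0 : 0 ≤ ph * (1 + 2 * l) := by positivity
    nlinarith
  have h4 : (ph * (1 + 2 * l)) ^ (n' - n) ≤ (ph * (1 + ((3 : ℕ) : ℝ) * l)) ^ (n' - n) := by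
    refine pow_le_pow_left₀ (by positivity) ?_ _
    push_cast
    nlinarith
  set R : ℝ := (ph * (1 + ((3 : ℕ) : ℝ) * l)) ^ (n' - n) with hR
  have hR0 : 0 ≤ R := by positivity
  have h5 : rho n' E l ≤ R * (25 / 4) * (rho n E l / (l / 4)) := by
    refine h1.trans (mul_le_mul_of_nonneg_right ?_ (by positivity))
    exact mul_le_mul h4 h3 (by positivity) (by positivity)
  have h6 : l ^ 3 ≤ l * (1 / 64) := by nlinarith
  calc l ^ 3 * rho n' E l ≤ l * (1 / 64) * (R * (25 / 4) * (rho n E l / (l / 4))) :=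
        mul_le_mul h6 h5 hρ' (by positivity)
    _ = 25 / 64 * (R * rho n E l) := by field_simp; try ring
    _ ≤ R * rho n E l := by
        have : 0 ≤ R * rho n E l := by positivity
        linarith

end FIB
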