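import Pool.Agent.Helper75.FIB.Iface

/-!
# FIB block T5 : lower bound for the slopes of later phases

`E` real with `|E-E0| rho m E0 <= θ^C`. By SLoc at `E0`, `ε = θ`, levels `m-8` and `m` (rho (m-8) <= 9^8 rho m): `|x_j(E) - x_j(E0)| <= θ^4` for `j ∈ [m-8,m+8]`, so `Ty (θ/2) n E l` for `n ∈ [m-8,m]`. Also `rho m E >= (θ/2)^C' rho m E0/2` (first order Cauchy estimate from SLoc at the point `E`).
`j >= m + 4`, `|x_j(E)| < 1`: `tau j >= sqrt det S_j(E)` (DetS (3): `|x_j'| >= sqrt det · sqrt(1-x_j^2)`, divide by `1-x_j^2`: `|x_j'|/sqrt(1-x_j^2) >= sqrt det S_j`), `sqrt det S_j >= F_{j-m-3} sqrt det S_{m+4} >= F_{j-m-3} (θ/2)^{C'} rho m E` (DetS (2), DetRho at `E`, `ε = θ/2`). `m <= j < m+4`: `|x_j'(E)| >= (θ/2)^{C'} rho (j-4) E`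
(DetRho at `n = j-4`), and `rho (j-4) >= 9^{-8} rho m`. (If `F_{j-m-3} = F_1 = 1` etc. use `F_i >= φ^{i-2}`.)
-/

namespace FIB

open Real MeasureTheory Set Filter Topology

/-- first order Cauchy estimate for the trace polynomials -/
theorem t5_cauchy (j : ℕ) (E E0 l R B : ℝ) (hR : 0 < R) (c : ℂ)
    (h : ∀ z : ℂ, ‖z‖ ≤ R → ‖tr j ((E : ℂ) + z) (l : ℂ) - c‖ ≤ B) (hE : |E - E0| ≤ R / 2) :
    |trE j E0 l| * (R / 2) ≤ B := by
  have hR2 : 0 < R / 2 := by positivity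
  have hd : ∀ w : ℂ, HasDerivAt (fun x : ℂ => tr j x (l : ℂ) - c) (trE j w (l : ℂ)) w :=
    fun w => (hasDerivAt_tr_E j w (l : ℂ)).sub_const c
  have hdc : DiffContOnCl ℂ (fun x : ℂ => tr j x (l : ℂ) - c) (Metric.ball (E0 : ℂ) (R / 2)) := by
    apply Differentiable.diffContOnCl
    intro w
    exact (hd w).differentiableAt
  have key := Complex.norm_deriv_le_of_forall_mem_sphere_norm_le hR2 hdc (C := B) (by
    intro w hw
    have hw' : ‖w - (E0 : ℂ)‖ = R / 2 := by simpa [dist_eq_norm] using hw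
    have h1 : ‖w - (E : ℂ)‖ ≤ R := by
      have e : w - (E : ℂ) = (w - (E0 : ℂ)) - (((E - E0 : ℝ)) : ℂ) := by push_cast; ring
      rw [e]
      refine (norm_sub_le _ _).trans ?_
      rw [hw', Complex.norm_real, Real.norm_eq_abs]
      linarith
    have h2 := h (w - (E : ℂ)) h1
    rwa [add_sub_cancel] at h2)
  rw [(hd (E0 : ℂ)).deriv, trE_ofReal, Complex.norm_real, Real.norm_eq_abs] at key
  rwa [le_div_iff₀ hR2] at key

theorem ph_pos44 : 0 < ph := by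
  unfold ph; positivity

theorem one_le_ph44 : 1 ≤ ph := by
  have h5 : 1 ≤ √5 := by
    rw [Real.one_le_sqrt]; norm_num
  unfold ph
  linarith

theorem ph_le_two44 : ph ≤ 2 := by
  have h5 : √5 ≤ 3 := by
    rw [Real.sqrt_le_left (by norm_num)]; norm_num
  unfold ph
  linarith

theorem ph_sq44 : ph ^ 2 = ph + 1 := by
  have h5 : √5 ^ 2 = 5 := Real.sq_sqrt (by norm_num)
  unfold ph
  nlinarith

theorem t5_fib (i : ℕ) : ph ^ i ≤ ph ^ 2 * (Nat.fib (i + 1) : ℝ) := by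
  have hp := one_le_ph44
  have hs := ph_sq44
  have key : ph ^ i ≤ ph ^ 2 * (Nat.fib (i + 1) : ℝ) ∧
      ph ^ (i + 1) ≤ ph ^ 2 * (Nat.fib (i + 2) : ℝ) := by
    induction i with
    | zero =>
      constructor
      · rw [zero_add, Nat.fib_one, pow_zero, Nat.cast_one]; nlinarith
      · rw [zero_add, zero_add, Nat.fib_two, pow_one, Nat.cast_one]; nlinarith
    | succ i ih =>
      refine ⟨ih.2, ?_⟩
      have e1 : ph ^ (i + 1 + 1) = ph ^ (i + 1) + ph ^ i := by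
        have : ph ^ (i + 1 + 1) = ph ^ i * ph ^ 2 := by ring
        rw [this, hs]; ring
      have e2 : (Nat.fib (i + 1 + 2) : ℝ) = (Nat.fib (i + 1) : ℝ) + Nat.fib (i + 2) := by
        rw [show i + 1 + 2 = (i + 1) + 2 from rfl, Nat.fib_add_two]
        push_cast
        rfl
      rw [e1, e2]
      nlinarith [ih.1, ih.2]
  exact key.1

theorem t5_rho_le {n : ℕ} {E l B : ℝ} (h : ∀ j, n ≤ j → j ≤ n + 2 → |trE j E l| ≤ B) :
    rho n E l ≤ B := by
  unfold rho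
  exact max_le (h n le_rfl (by omega)) (max_le (h (n + 1) (by omega) (by omega))
    (h (n + 2) (by omega) (by omega)))

theorem t5_rho_nonneg (n : ℕ) (E l : ℝ) : 0 ≤ rho n E l := by
  unfold rho
  exact (abs_nonneg _).trans (le_max_left _ _)

/-- iterate the ratio bound -/
theorem t5_ratio (hR : RhoRatio) (a k : ℕ) (E l : ℝ) (h : ∀ j, a < j → j ≤ a + k + 1 → |tr j E l| ≤ 2) :
    rho (a + k) E l ≤ 9 ^ k * rho a E l ∧ rho a E l ≤ 9 ^ k * rho (a + k) E l := by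
  induction k with
  | zero => simp
  | succ k ih =>
    have ih' := ih (fun j h1 h2 => h j h1 (by omega))
    have h3 := hR (a + k) E l (h _ (by omega) (by omega)) (h _ (by omega) (by omega))
    have h9 : (0 : ℝ) < 9 ^ k := by positivity
    rw [show a + (k + 1) = a + k + 1 from rfl]
    constructor
    · calc rho (a + k + 1) E l ≤ 9 * rho (a + k) E l := h3.1
        _ ≤ 9 * (9 ^ k * rho a E l) := by linarith [ih'.1]
        _ = 9 ^ (k + 1) * rho a E l := by ring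
    · calc rho a E l ≤ 9 ^ k * rho (a + k) E l := ih'.2
        _ ≤ 9 ^ k * (9 * rho (a + k + 1) E l) := by
          exact mul_le_mul_of_nonneg_left h3.2 h9.le
        _ = 9 ^ (k + 1) * rho (a + k + 1) E l := by ring

theorem t5_a1 {θ : ℝ} (h0 : 0 < θ) (h1 : θ ≤ 1 / 1024) : θ ^ 2 ≤ θ / 2 ∧ θ ^ 2 ≤ 1 / 8 ∧
    θ ^ 4 ≤ θ ^ 2 / 8 := by
  have a : θ ^ 2 ≤ θ / 2 := by nlinarith
  have b : θ ^ 2 ≤ 1 / 8 := by linarith
  refine ⟨a, b, ?_⟩
  have : θ ^ 4 = θ ^ 2 * θ ^ 2 := by ring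
  rw [this]
  have := mul_le_mul_of_nonneg_left b (sq_nonneg θ)
  linarith

theorem t5_a2 {x θ : ℝ} (h : θ ^ 2 ≤ 1 - x ^ 2) : |x| ≤ 1 := by
  have h3 : x ^ 2 ≤ 1 := by linarith [sq_nonneg θ]
  rw [pow_two] at h3
  exact abs_le_one_iff_mul_self_le_one.2 h3

theorem t5_a3 {x y t θ : ℝ} (h0 : 0 ≤ t) (h1 : t ≤ 1) (ht : t ≤ θ ^ 2 / 8) (h : |y - x| ≤ t)
    (hx : |x| ≤ 1) (h2 : θ ^ 2 ≤ 1 - x ^ 2) : (θ / 2) ^ 2 ≤ 1 - y ^ 2 := by
  have h6 := abs_le.1 h
  have h7 := abs_le.1 hx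
  have e : y ^ 2 = x ^ 2 + (y - x) * (2 * x + (y - x)) := by ring
  have h9 : (y - x) * (2 * x + (y - x)) ≤ t * 3 := by
    refine (le_abs_self _).trans ?_
    rw [abs_mul]
    refine mul_le_mul h ?_ (abs_nonneg _) h0
    rw [abs_le]; constructor <;> linarith
  have e2 : (θ / 2) ^ 2 = θ ^ 2 / 4 := by ring
  rw [e, e2]
  have := sq_nonneg θ
  linarith

theorem t5_a4 {x θ : ℝ} {A : ℕ} (hx : x = 2 ^ A * θ) (h0 : 0 < θ) (h1 : θ ≤ 1)
    (h : (9 : ℝ) ^ 8 * 2 ^ (A + 10) * θ ≤ 1) :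
    (2 : ℝ) ^ A * 2 ^ A * θ ^ 10 * (2 * (32 * 9 ^ 4)) ≤ 1 := by
  have hx0 : 0 ≤ x := by rw [hx]; positivity
  have h2 : x ≤ 1 := by
    have e : (9 : ℝ) ^ 8 * 2 ^ (A + 10) * θ = (9 ^ 8 * 1024) * x := by rw [hx]; ring
    rw [e] at h
    have h9 : (1 : ℝ) ≤ 9 ^ 8 * 1024 := by norm_num
    exact (le_mul_of_one_le_left hx0 h9).trans h
  have h4 : θ ^ 8 * (2 * (32 * 9 ^ 4)) ≤ 1 := by
    have h5 : θ ^ 8 ≤ θ := by
      calc θ ^ 8 ≤ θ ^ 1 := pow_le_pow_of_le_one h0.le h1 (by norm_num)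
        _ = θ := pow_one θ
    have h6 : (9 : ℝ) ^ 8 * 1024 * θ ≤ 1 := by
      have e : (9 : ℝ) ^ 8 * 2 ^ (A + 10) * θ = (9 ^ 8 * 1024 * θ) * 2 ^ A := by ring
      rw [e] at h
      exact (le_mul_of_one_le_right (by positivity) (one_le_pow₀ (by norm_num))).trans h
    have h7 : θ ^ 8 * (2 * (32 * 9 ^ 4)) ≤ θ * (2 * (32 * 9 ^ 4)) :=
      mul_le_mul_of_nonneg_right h5 (by norm_num)
    linarith
  have h6 : 0 ≤ θ ^ 8 * (2 * (32 * 9 ^ 4)) := by positivity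
  have h7 : x * x ≤ 1 := mul_le_one₀ h2 hx0 h2
  calc (2 : ℝ) ^ A * 2 ^ A * θ ^ 10 * (2 * (32 * 9 ^ 4))
      = x * x * (θ ^ 8 * (2 * (32 * 9 ^ 4))) := by rw [hx]; ring
    _ ≤ 1 * 1 := mul_le_mul h7 h4 h6 (by norm_num)
    _ = 1 := by norm_num

theorem t5_a5 {c d u : ℝ} (hu : 0 ≤ u) (hcd : c ≤ d) : u * c ≤ u * d :=
  mul_le_mul_of_nonneg_left hcd hu

theorem tauLow (hS : SLoc) (hD : DetRho) (hT : DetS) (hR : RhoRatio) : TauLow := by
  obtain ⟨C1, hS⟩ := hS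
  obtain ⟨C2, hD⟩ := hD
  obtain ⟨-, hT2, hT3⟩ := hT
  obtain ⟨A, hA⟩ : ∃ A, A = C1 + C2 := ⟨_, rfl⟩
  have hpow1 : ∀ ε : ℝ, 0 < ε → ε ≤ 1 / 2 → ε ^ A ≤ ε ^ C1 := fun ε h0 h1 =>
    pow_le_pow_of_le_one h0.le (by linarith) (by omega)
  have hpow2 : ∀ ε : ℝ, 0 < ε → ε ≤ 1 / 2 → ε ^ A ≤ ε ^ C2 := fun ε h0 h1 =>
    pow_le_pow_of_le_one h0.le (by linarith) (by omega)
  have hS' : ∀ (n : ℕ) (E l ε : ℝ), Okl ε l → ND ε n E l → ∀ z : ℂ, ‖z‖ * rho n E l ≤ ε ^ A →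
      ∀ j, n ≤ j → j ≤ n + 8 →
      ε ^ A * ‖tr j ((E : ℂ) + z) (l : ℂ) - ((tr j E l : ℝ) : ℂ)‖ ≤ ‖z‖ * rho n E l := by
    intro n E l ε hok hnd z hz j h1 h2
    have h3 := hS n E l ε hok hnd z 0 (by
      rw [norm_zero, add_zero]; exact hz.trans (hpow1 ε hok.2.2.1 hok.2.2.2)) j h1 h2
    rw [norm_zero, add_zero, add_zero] at h3
    refine le_trans ?_ h3
    exact mul_le_mul_of_nonneg_right (hpow1 ε hok.2.2.1 hok.2.2.2) (norm_nonneg _)
  -- the constant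
  obtain ⟨M, hM⟩ : ∃ M : ℕ, M = 9 ^ 8 * 2 ^ (A + 10) := ⟨_, rfl⟩
  refine ⟨M + 2 * A + 10, ?_⟩
  intro m E0 E l θ hθ hCθ hl hlθ hm hTw hE j hmj htrj
  have hMbig : (9 : ℝ) ^ 8 * 2 ^ (A + 10) * θ ≤ 1 := by
    have h1 : ((M + 2 * A + 10 : ℕ) : ℝ) * θ ≤ 1 := hCθ
    have h2 : (M : ℝ) ≤ ((M + 2 * A + 10 : ℕ) : ℝ) := by exact_mod_cast (by omega)
    have h3 : (M : ℝ) * θ ≤ 1 := (mul_le_mul_of_nonneg_right h2 hθ.le).trans h1
    rw [hM, Nat.cast_mul, Nat.cast_pow, Nat.cast_pow] at h3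
    exact h3
  have h2A : (1 : ℝ) ≤ 2 ^ A := one_le_pow₀ (by norm_num)
  have h9θ : (9 : ℝ) ^ 8 * θ * 1024 ≤ 1 := by
    have e : (9 : ℝ) ^ 8 * 2 ^ (A + 10) * θ = (9 ^ 8 * θ * 1024) * 2 ^ A := by ring
    rw [e] at hMbig
    exact (le_mul_of_one_le_right (by positivity) h2A).trans hMbig
  have hθs : θ ≤ 1 / 1024 := by linarith
  have hθ1 : θ ≤ 1 := by linarith
  -- small powers
  have hθC : θ ^ (M + 2 * A + 10) ≤ θ ^ (2 * A + 10) :=
    pow_le_pow_of_le_one hθ.le hθ1 (by omega)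
  have hθC2 : θ ^ (2 * A + 10) ≤ θ ^ (A + 10) := pow_le_pow_of_le_one hθ.le hθ1 (by omega)
  have hθA : 0 < θ ^ A := pow_pos hθ A
  have hl1 : l ≤ θ ^ 2 := by
    refine hlθ.trans (pow_le_pow_of_le_one hθ.le hθ1 (by omega))
  obtain ⟨hθa, hθb, hθc⟩ := t5_a1 hθ hθs
  have hlθ2 : l ≤ θ / 2 := hl1.trans hθa
  have hl8 : l ≤ 1 / 8 := by linarith
  have hok0 : Okl θ l := ⟨hl, hl8, hθ, by linarith⟩
  have hok : Okl (θ / 2) l := ⟨hl, hl8, by positivity, by linarith⟩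
  have hTy0 : ∀ n, m - 8 ≤ n → n ≤ m → ND θ n E0 l := by
    intro n h1 h2
    refine Or.inr ⟨by linarith, fun i h3 h4 => hTw i (by omega) (by omega)⟩
  -- traces at E0
  have htr0 : ∀ i, m - 8 ≤ i → i ≤ m + 8 → |tr i E0 l| ≤ 1 := by
    intro i h1 h2
    exact t5_a2 (hTw i h1 h2)
  have hρ0 : 0 ≤ rho m E0 l := t5_rho_nonneg _ _ _
  have hρm8 : rho (m - 8) E0 l ≤ 9 ^ 8 * rho m E0 l := by
    have h1 := (t5_ratio hR (m - 8) 8 E0 l (fun i h1 h2 => (htr0 i (by omega) (by omega)).trans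
      (by norm_num))).2
    rwa [show m - 8 + 8 = m from by omega] at h1
  -- closeness of the traces
  have hclose : ∀ i, m - 8 ≤ i → i ≤ m + 8 → |tr i E l - tr i E0 l| ≤ θ ^ 4 := by
    intro i hi1 hi2
    obtain ⟨n, hn1, hn2, hn3, hn4, hρn⟩ : ∃ n, m - 8 ≤ n ∧ n ≤ m ∧ n ≤ i ∧ i ≤ n + 8 ∧
        rho n E0 l ≤ 9 ^ 8 * rho m E0 l := by
      by_cases him : m ≤ i
      · refine ⟨m, by omega, le_rfl, him, hi2, ?_⟩
        exact le_mul_of_one_le_left hρ0 (one_le_pow₀ (by norm_num))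
      · exact ⟨m - 8, le_rfl, by omega, hi1, by omega, hρm8⟩
    have hz : ‖(((E - E0 : ℝ)) : ℂ)‖ * rho n E0 l ≤ θ ^ (A + 9) := by
      rw [Complex.norm_real, Real.norm_eq_abs]
      calc |E - E0| * rho n E0 l ≤ |E - E0| * (9 ^ 8 * rho m E0 l) :=
            mul_le_mul_of_nonneg_left hρn (abs_nonneg _)
        _ = 9 ^ 8 * (|E - E0| * rho m E0 l) := by ring
        _ ≤ 9 ^ 8 * θ ^ (A + 10) := by
            refine mul_le_mul_of_nonneg_left (hE.trans (hθC.trans hθC2)) (by positivity)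
        _ = (9 ^ 8 * θ) * θ ^ (A + 9) := by ring
        _ ≤ 1 * θ ^ (A + 9) := by
            refine mul_le_mul_of_nonneg_right ?_ (by positivity)
            linarith
        _ = θ ^ (A + 9) := one_mul _
    have hz' : ‖(((E - E0 : ℝ)) : ℂ)‖ * rho n E0 l ≤ θ ^ A :=
      hz.trans (pow_le_pow_of_le_one hθ.le hθ1 (by omega))
    have h3 := hS' n E0 l θ hok0 (hTy0 n hn1 hn2) _ hz' i hn3 hn4
    have e1 : ((E0 : ℂ) + (((E - E0 : ℝ)) : ℂ)) = (E : ℂ) := by push_cast; ring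
    rw [e1, tr_ofReal, ← Complex.ofReal_sub, Complex.norm_real, Real.norm_eq_abs] at h3
    have h4 : θ ^ A * |tr i E l - tr i E0 l| ≤ θ ^ A * θ ^ 9 := by
      refine (h3.trans hz).trans (le_of_eq ?_)
      ring
    have h5 : |tr i E l - tr i E0 l| ≤ θ ^ 9 := le_of_mul_le_mul_left h4 hθA
    exact h5.trans (pow_le_pow_of_le_one hθ.le hθ1 (by omega))
  -- typicality at `E`
  have hTw' : ∀ i, m - 8 ≤ i → i ≤ m + 8 → (θ / 2) ^ 2 ≤ 1 - tr i E l ^ 2 := by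
    intro i h1 h2
    exact t5_a3 (by positivity) (pow_le_one₀ hθ.le hθ1) hθc (hclose i h1 h2) (htr0 i h1 h2)
      (hTw i h1 h2)
  have hND : ∀ n, m - 8 ≤ n → n ≤ m → ND (θ / 2) n E l := by
    intro n h1 h2
    refine Or.inr ⟨hlθ2, fun i h3 h4 => hTw' i (by omega) (by omega)⟩
  have htrE : ∀ i, m - 8 ≤ i → i ≤ m + 8 → |tr i E l| ≤ 1 := by
    intro i h1 h2
    exact t5_a2 (hTw' i h1 h2)
  obtain ⟨ε, hε⟩ : ∃ ε, ε = θ / 2 := ⟨_, rfl⟩
  rw [← hε] at hok hND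
  have hε0 : 0 < ε := hok.2.2.1
  have hε1 : ε ≤ 1 / 2 := hok.2.2.2
  have hεA : 0 < ε ^ A := pow_pos hε0 A
  have hεAe : ε ^ A * 2 ^ A = θ ^ A := by
    rw [← mul_pow, hε]; congr 1; ring
  have hDm := hD m E l ε hok (hND m (by omega) le_rfl)
  have hρE : 0 < rho m E l := hDm.2.2.1
  -- comparison of rho
  have hcomp : ε ^ A * rho m E0 l ≤ 2 * rho m E l := by
    set R : ℝ := ε ^ A / rho m E l with hRdef
    have hRpos : 0 < R := by positivity
    have hRρ : R * rho m E l = ε ^ A := by rw [hRdef]; field_simp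
    by_cases hfar : |E - E0| ≤ R / 2
    · have hB : ∀ i, m ≤ i → i ≤ m + 2 → |trE i E0 l| ≤ 2 / R := by
        intro i h1 h2
        have h3 := t5_cauchy i E E0 l R 1 hRpos ((tr i E l : ℝ) : ℂ) (by
          intro z hz
          have hz1 : ‖z‖ * rho m E l ≤ ε ^ A := by
            rw [← hRρ]; exact mul_le_mul_of_nonneg_right hz hρE.le
          have h4 := hS' m E l ε hok (hND m (by omega) le_rfl) z hz1 i h1 (by omega)
          have h5 : ε ^ A * ‖tr i ((E : ℂ) + z) (l : ℂ) - ((tr i E l : ℝ) : ℂ)‖ ≤ ε ^ A * 1 := by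
            rw [mul_one]; exact h4.trans hz1
          exact le_of_mul_le_mul_left h5 hεA) hfar
        rw [le_div_iff₀ hRpos]
        linarith
      have h6 := t5_rho_le hB
      rw [le_div_iff₀ hRpos] at h6
      have h7 : rho m E0 l * R * rho m E l ≤ 2 * rho m E l :=
        mul_le_mul_of_nonneg_right h6 hρE.le
      calc ε ^ A * rho m E0 l = rho m E0 l * R * rho m E l := by rw [← hRρ]; ring
        _ ≤ 2 * rho m E l := h7
    · have hfar' : R / 2 < |E - E0| := not_le.1 hfar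
      by_cases hz : rho m E0 l = 0
      · rw [hz, mul_zero]; linarith
      · have hρ0' : 0 < rho m E0 l := lt_of_le_of_ne hρ0 (Ne.symm hz)
        have h1 : R / 2 * rho m E0 l ≤ θ ^ (2 * A + 10) :=
          (mul_le_mul_of_nonneg_right hfar'.le hρ0).trans (hE.trans hθC)
        -- R rho m E0 ≤ 2 θ^(2A+10), multiply with rho m E
        have h2 : ε ^ A * rho m E0 l ≤ 2 * θ ^ (2 * A + 10) * rho m E l := by
          calc ε ^ A * rho m E0 l = 2 * (R / 2 * rho m E0 l) * rho m E l := by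
                rw [← hRρ]; ring
            _ ≤ 2 * θ ^ (2 * A + 10) * rho m E l := by
                refine mul_le_mul_of_nonneg_right ?_ hρE.le
                linarith
        refine h2.trans ?_
        have h3 : θ ^ (2 * A + 10) ≤ 1 := pow_le_one₀ hθ.le hθ1
        refine mul_le_mul_of_nonneg_right ?_ hρE.le
        linarith
  -- tau
  have hs0 : 0 < √(1 - tr j E l ^ 2) := by
    apply Real.sqrt_pos.2
    have h1 : |tr j E l| * |tr j E l| < 1 := mul_lt_one_of_nonneg_of_lt_one_left (abs_nonneg _)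
      htrj htrj.le
    rw [abs_mul_abs_self, ← pow_two] at h1
    linarith
  have hs1 : √(1 - tr j E l ^ 2) ≤ 1 := by
    rw [Real.sqrt_le_one]
    linarith [sq_nonneg (tr j E l)]
  rw [le_div_iff₀ hs0]
  have hp1 := one_le_ph44
  have hp2 := ph_le_two44
  have hpp := ph_pos44
  -- it suffices to bound with ε
  have hconst : θ ^ (2 * A + 10) * (2 * (32 * 9 ^ 4)) ≤ ε ^ A * ε ^ A := by
    have e1 : θ ^ (2 * A + 10) = (ε ^ A * 2 ^ A) * (ε ^ A * 2 ^ A) * θ ^ 10 := by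
      rw [hεAe]; ring
    rw [e1]
    have h1 : (2 : ℝ) ^ A * 2 ^ A * θ ^ 10 * (2 * (32 * 9 ^ 4)) ≤ 1 :=
      t5_a4 rfl hθ hθ1 hMbig
    calc ε ^ A * 2 ^ A * (ε ^ A * 2 ^ A) * θ ^ 10 * (2 * (32 * 9 ^ 4))
        = (ε ^ A * ε ^ A) * ((2 : ℝ) ^ A * 2 ^ A * θ ^ 10 * (2 * (32 * 9 ^ 4))) := by ring
      _ ≤ (ε ^ A * ε ^ A) * 1 := mul_le_mul_of_nonneg_left h1 (by positivity)
      _ = ε ^ A * ε ^ A := mul_one _
  -- the quantity to be bounded
  obtain ⟨q, hq⟩ : ∃ q : ℕ, j = m + q := ⟨j - m, by omega⟩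
  have hjm : j - m = q := by omega
  rw [hjm]
  have hrho0 : 0 ≤ rho m E0 l := hρ0
  by_cases hj4 : m + 4 ≤ j
  · obtain ⟨i, hi⟩ : ∃ i, q = i + 4 := ⟨q - 4, by omega⟩
    have h1 : √(SS j E l).det * √(1 - tr j E l ^ 2) ≤ |trE j E l| := hT3 j E l htrj.le
    have h2 := hT2 (m + 4) i E l
    rw [show m + 4 + i = j from by omega] at h2
    have h3 : ε ^ A * rho m E l ≤ √(SS (m + 4) E l).det :=
      (mul_le_mul_of_nonneg_right (hpow2 ε hε0 hε1) hρE.le).trans hDm.1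
    refine le_trans ?_ h1
    refine mul_le_mul_of_nonneg_right ?_ hs0.le
    refine le_trans ?_ h2
    have hf := t5_fib i
    have hf0 : (0 : ℝ) ≤ Nat.fib (i + 1) := Nat.cast_nonneg _
    have hph4 : ph ^ q ≤ 64 * (Nat.fib (i + 1) : ℝ) := by
      rw [hi, pow_add]
      have h4 : ph ^ 4 ≤ 16 := by
        calc ph ^ 4 ≤ 2 ^ 4 := pow_le_pow_left₀ hpp.le hp2 4
          _ = 16 := by norm_num
      have h5 : ph ^ 2 ≤ 4 := by
        calc ph ^ 2 ≤ 2 ^ 2 := pow_le_pow_left₀ hpp.le hp2 2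
          _ = 4 := by norm_num
      have h7 : ph ^ i ≤ 4 * (Nat.fib (i + 1) : ℝ) :=
        hf.trans (mul_le_mul_of_nonneg_right h5 hf0)
      calc ph ^ i * ph ^ 4 ≤ (4 * (Nat.fib (i + 1) : ℝ)) * 16 :=
            mul_le_mul h7 h4 (by positivity) (by positivity)
        _ = 64 * (Nat.fib (i + 1) : ℝ) := by ring
    calc θ ^ (M + 2 * A + 10) * ph ^ q * rho m E0 l
        ≤ θ ^ (2 * A + 10) * (64 * (Nat.fib (i + 1) : ℝ)) * rho m E0 l := by
          refine mul_le_mul_of_nonneg_right ?_ hrho0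
          exact mul_le_mul hθC hph4 (by positivity) (by positivity)
      _ = (Nat.fib (i + 1) : ℝ) * ((θ ^ (2 * A + 10) * 64) * rho m E0 l) := by ring
      _ ≤ (Nat.fib (i + 1) : ℝ) * (√(SS (m + 4) E l).det) := by
          refine mul_le_mul_of_nonneg_left ?_ hf0
          refine le_trans ?_ h3
          -- θ^(2A+10) 64 rho m E0 ≤ ε^A rho m E
          have h8 : θ ^ (2 * A + 10) * 64 * 2 ≤ ε ^ A * ε ^ A := by
            refine le_trans ?_ hconst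
            have h0 : 0 ≤ θ ^ (2 * A + 10) := by positivity
            rw [mul_assoc]
            exact t5_a5 h0 (by norm_num)
          have h9 : (θ ^ (2 * A + 10) * 64 * 2) * rho m E0 l ≤ ε ^ A * (2 * rho m E l) := by
            calc (θ ^ (2 * A + 10) * 64 * 2) * rho m E0 l ≤ (ε ^ A * ε ^ A) * rho m E0 l :=
                  mul_le_mul_of_nonneg_right h8 hrho0
              _ = ε ^ A * (ε ^ A * rho m E0 l) := by ring
              _ ≤ ε ^ A * (2 * rho m E l) := mul_le_mul_of_nonneg_left hcomp hεA.le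
          linarith
  · have hj4' : j < m + 4 := not_le.1 hj4
    have hq4 : q ≤ 3 := by omega
    obtain ⟨n, hn⟩ : ∃ n, n = j - 4 := ⟨_, rfl⟩
    have hDn := hD n E l ε hok (hND n (by omega) (by omega))
    have h1 := hDn.2.2.2 j (by omega) (by omega) htrj.le
    obtain ⟨k, hk⟩ : ∃ k, m = n + k := ⟨m - n, by omega⟩
    have hk4 : k ≤ 4 := by omega
    have h2 := (t5_ratio hR n k E l (fun i h1 h2 => (htrE i (by omega) (by omega)).trans
      (by norm_num))).1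
    rw [← hk] at h2
    have hρn : 0 < rho n E l := hDn.2.2.1
    have h3 : rho m E l ≤ 9 ^ 4 * rho n E l := by
      refine h2.trans (mul_le_mul_of_nonneg_right ?_ hρn.le)
      exact pow_le_pow_right₀ (by norm_num) hk4
    have hphq : ph ^ q ≤ 8 := by
      calc ph ^ q ≤ ph ^ 3 := pow_le_pow_right₀ hp1 hq4
        _ ≤ 2 ^ 3 := pow_le_pow_left₀ hpp.le hp2 3
        _ = 8 := by norm_num
    refine le_trans ?_ h1
    have h4 : ε ^ A * rho n E l ≤ ε ^ C2 * rho n E l :=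
      mul_le_mul_of_nonneg_right (hpow2 ε hε0 hε1) hρn.le
    refine le_trans ?_ h4
    have h5 : θ ^ (M + 2 * A + 10) * ph ^ q * rho m E0 l ≤
        θ ^ (2 * A + 10) * 8 * rho m E0 l := by
      refine mul_le_mul_of_nonneg_right ?_ hrho0
      exact mul_le_mul hθC hphq (by positivity) (by positivity)
    have h6 : θ ^ (M + 2 * A + 10) * ph ^ q * rho m E0 l * √(1 - tr j E l ^ 2) ≤
        θ ^ (M + 2 * A + 10) * ph ^ q * rho m E0 l := by
      have : 0 ≤ θ ^ (M + 2 * A + 10) * ph ^ q * rho m E0 l := by positivity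
      exact mul_le_of_le_one_right this hs1
    refine h6.trans (h5.trans ?_)
    have h8 : θ ^ (2 * A + 10) * 8 * (2 * 9 ^ 4) ≤ ε ^ A * ε ^ A := by
      refine le_trans ?_ hconst
      have h0 : 0 ≤ θ ^ (2 * A + 10) := by positivity
      rw [mul_assoc]
      exact t5_a5 h0 (by norm_num)
    have h9 : (θ ^ (2 * A + 10) * 8 * (2 * 9 ^ 4)) * rho m E0 l ≤
        ε ^ A * (2 * (9 ^ 4 * rho n E l)) := by
      calc (θ ^ (2 * A + 10) * 8 * (2 * 9 ^ 4)) * rho m E0 l ≤ (ε ^ A * ε ^ A) * rho m E0 l :=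
            mul_le_mul_of_nonneg_right h8 hrho0
        _ = ε ^ A * (ε ^ A * rho m E0 l) := by ring
        _ ≤ ε ^ A * (2 * rho m E l) := mul_le_mul_of_nonneg_left hcomp hεA.le
        _ ≤ ε ^ A * (2 * (9 ^ 4 * rho n E l)) := by
            refine mul_le_mul_of_nonneg_left ?_ hεA.le
            linarith
    linarith

end FIB
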