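import Pool.Agent.Helper75.FIB.Iface

/-!
# FIB block T6 : exact recursions at elliptic triples

`s_j = sg j = sign(x_j') sqrt(1-x_j^2)`, `κ_{ab} = kap l s_a s_b = sqrt(1 + l^2/(4 s_a^2 s_b^2))`. By `tr_inv_sq` and its variants `(x_{n+2} - x_n x_{n+1})^2 = s_n^2 s_{n+1}^2 + l^2/4 = (s_n s_{n+1} κ_{n,n+1})^2`, and by `Ori` the sign gives
`x_{n+2} - x_n x_{n+1} = - s_n s_{n+1} κ_{n,n+1}`, `x_n - x_{n+1}x_{n+2} = s_{n+1}s_{n+2} κ_{n+1,n+2}`, `x_{n+1} - x_n x_{n+2} = s_n s_{n+2} κ_{n,n+2}`. With `x_j' = s_j τ_j` (`tau j = |x_j'|/sqrt(1-x_j^2)`), `-trL j = s_j τ_j Vx j` (`trE j ≠ 0` by PosV), `grad_E` divided by `s_n s_{n+1} s_{n+2} ≠ 0` is the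
second identity, `grad_L` (right side `l/4`) is the third one: `-(s s s)(κ_{12} τ_0V_0 + κ_{02} τ_1 V_1 - κ_{01} τ_2 V_2) = l/4`. (Checked numerically.)
-/

namespace FIB

open Real MeasureTheory Set Filter Topology

theorem T6_sq {x : ℝ} (hx : |x| < 1) : 0 < √(1 - x ^ 2) ∧ √(1 - x ^ 2) ^ 2 = 1 - x ^ 2 := by
  have h : x ^ 2 < 1 := by
    have := abs_lt.mp hx
    nlinarith [this.1, this.2]
  exact ⟨Real.sqrt_pos.mpr (by linarith), Real.sq_sqrt (by linarith)⟩

theorem T6_sign {a : ℝ} (ha : a ≠ 0) :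
    ((SignType.sign a : SignType) : ℝ) ^ 2 = 1 ∧ ((SignType.sign a : SignType) : ℝ) * a = |a| ∧
      ((SignType.sign a : SignType) : ℝ) * |a| = a := by
  rcases lt_or_gt_of_ne ha with h | h
  · rw [sign_neg h]
    simp [abs_of_neg h]
  · rw [sign_pos h]
    simp [abs_of_pos h]

/-- the sign lemma -/
theorem T6_key {s t a b P l : ℝ} (hs : 0 < s * a) (ht : 0 < t * b)
    (hP : P ^ 2 = s ^ 2 * t ^ 2 + l ^ 2 / 4) :
    (0 < P * (a * b) → P = s * t * kap l s t) ∧ (P * (a * b) < 0 → P = -(s * t * kap l s t)) := by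
  have hs0 : s ≠ 0 := by rintro rfl; simp at hs
  have ht0 : t ≠ 0 := by rintro rfl; simp at ht
  have hk : 0 < kap l s t := by
    unfold kap
    apply Real.sqrt_pos.mpr
    positivity
  have hk2 : kap l s t ^ 2 = 1 + l ^ 2 / (4 * s ^ 2 * t ^ 2) := by
    unfold kap
    rw [Real.sq_sqrt]
    positivity
  have hsq : (s * t * kap l s t) ^ 2 = P ^ 2 := by
    rw [hP, mul_pow, hk2]
    field_simp
  have hpos : 0 < (s * t * kap l s t) * (a * b) := by
    have : (s * t * kap l s t) * (a * b) = (s * a) * (t * b) * kap l s t := by ring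
    rw [this]
    positivity
  rcases sq_eq_sq_iff_eq_or_eq_neg.mp hsq with h | h
  · refine ⟨fun _ => h.symm, fun h2 => ?_⟩
    rw [← h] at h2
    exact absurd h2 (not_lt.mpr hpos.le)
  · have h' : P = -(s * t * kap l s t) := by rw [h]; ring
    refine ⟨fun h2 => ?_, fun _ => h'⟩
    rw [h'] at h2
    exfalso
    nlinarith

theorem tlRec (hO : Ori) (hV : PosV) : TLrec := by
  intro n E l hn hl h0 h1 h2
  obtain ⟨hO1, hO2, hO3⟩ := hO n E l hn
  have hO1 := hO1 h0 h1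
  have hO2 := hO2 h1 h2
  have hO3 := hO3 h0 h2
  have ha := (hV n E l hn h0).1
  have hb := (hV (n + 1) E l (by omega) h1).1
  have hc := (hV (n + 2) E l (by omega) h2).1
  obtain ⟨r0, q0⟩ := T6_sq h0
  obtain ⟨r1, q1⟩ := T6_sq h1
  obtain ⟨r2, q2⟩ := T6_sq h2
  obtain ⟨u0, v0, w0⟩ := T6_sign ha
  obtain ⟨u1, v1, w1⟩ := T6_sign hb
  obtain ⟨u2, v2, w2⟩ := T6_sign hc
  have S0 : sg n E l ^ 2 = 1 - tr n E l ^ 2 := by unfold sg; rw [mul_pow, u0, q0, one_mul]
  have S1 : sg (n + 1) E l ^ 2 = 1 - tr (n + 1) E l ^ 2 := by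
    unfold sg; rw [mul_pow, u1, q1, one_mul]
  have S2 : sg (n + 2) E l ^ 2 = 1 - tr (n + 2) E l ^ 2 := by
    unfold sg; rw [mul_pow, u2, q2, one_mul]
  have P0 : 0 < sg n E l * trE n E l := by
    unfold sg
    rw [mul_right_comm, v0]
    exact mul_pos (abs_pos.mpr ha) r0
  have P1 : 0 < sg (n + 1) E l * trE (n + 1) E l := by
    unfold sg
    rw [mul_right_comm, v1]
    exact mul_pos (abs_pos.mpr hb) r1
  have P2 : 0 < sg (n + 2) E l * trE (n + 2) E l := by
    unfold sg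
    rw [mul_right_comm, v2]
    exact mul_pos (abs_pos.mpr hc) r2
  have T0 : sg n E l * tau n E l = trE n E l := by
    unfold sg tau
    rw [mul_assoc, mul_div_cancel₀ _ r0.ne', w0]
  have T1 : sg (n + 1) E l * tau (n + 1) E l = trE (n + 1) E l := by
    unfold sg tau
    rw [mul_assoc, mul_div_cancel₀ _ r1.ne', w1]
  have T2 : sg (n + 2) E l * tau (n + 2) E l = trE (n + 2) E l := by
    unfold sg tau
    rw [mul_assoc, mul_div_cancel₀ _ r2.ne', w2]
  have V0 : sg n E l * (tau n E l * Vx n E l) = -trL n E l := by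
    rw [← mul_assoc, T0]; unfold Vx; field_simp
  have V1 : sg (n + 1) E l * (tau (n + 1) E l * Vx (n + 1) E l) = -trL (n + 1) E l := by
    rw [← mul_assoc, T1]; unfold Vx; field_simp
  have V2 : sg (n + 2) E l * (tau (n + 2) E l * Vx (n + 2) E l) = -trL (n + 2) E l := by
    rw [← mul_assoc, T2]; unfold Vx; field_simp
  have K01 := (T6_key P0 P1 (P := tr (n + 2) E l - tr n E l * tr (n + 1) E l) (l := l)
    (by rw [S0, S1]; exact tr_inv_sq n E l)).2 hO1
  have K12 := (T6_key P1 P2 (P := tr n E l - tr (n + 1) E l * tr (n + 2) E l) (l := l)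
    (by rw [S1, S2]; exact tr_inv_sq'' n E l)).1 hO2
  have K02 := (T6_key P0 P2 (P := tr (n + 1) E l - tr n E l * tr (n + 2) E l) (l := l)
    (by rw [S0, S2]; exact tr_inv_sq' n E l)).1 hO3
  have g1 := grad_E n E l
  have g2 := grad_L n E l
  rw [K01, K12, K02] at g1 g2
  have n0 : sg n E l ≠ 0 := by intro h; rw [h] at P0; simp at P0
  have n1 : sg (n + 1) E l ≠ 0 := by intro h; rw [h] at P1; simp at P1
  have n2 : sg (n + 2) E l ≠ 0 := by intro h; rw [h] at P2; simp at P2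
  refine ⟨by linarith, ?_, ?_⟩
  · have hne : sg n E l * sg (n + 1) E l * sg (n + 2) E l ≠ 0 := mul_ne_zero (mul_ne_zero n0 n1) n2
    apply mul_left_cancel₀ hne
    rw [← T0, ← T1, ← T2] at g1
    linear_combination (-1) * g1
  · have hne : sg n E l * sg (n + 1) E l * sg (n + 2) E l ≠ 0 := mul_ne_zero (mul_ne_zero n0 n1) n2
    apply mul_left_cancel₀ hne
    have e0 : trL n E l = -(sg n E l * (tau n E l * Vx n E l)) := by rw [V0]; ring
    have e1 : trL (n + 1) E l = -(sg (n + 1) E l * (tau (n + 1) E l * Vx (n + 1) E l)) := by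
      rw [V1]; ring
    have e2 : trL (n + 2) E l = -(sg (n + 2) E l * (tau (n + 2) E l * Vx (n + 2) E l)) := by
      rw [V2]; ring
    rw [e0, e1, e2] at g2
    have e4 : sg n E l * sg (n + 1) E l * sg (n + 2) E l *
        (l / (4 * sg n E l * sg (n + 1) E l * sg (n + 2) E l)) = l / 4 := by
      field_simp
    rw [mul_add, e4]
    linear_combination g2

end FIB
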