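import Pool.Agent.Helper75.FIB.TopStubs

/-! # FIB : top level assembly, version with `l < 1/8` (proof of helper23) -/

namespace FIB

open MeasureTheory Set Filter Topology Real

/-- the moments of the law of `E_K(t)` converge to the moments of the one dimensional density of states -/
def MomentsLim2 : Prop := ∀ l : ℝ, 0 < l → l < 1 / 8 → ∀ k : ℕ,
  Tendsto (fun K => ∫ t in (0 : ℝ)..1, (EK K l t) ^ k) atTop (𝓝 (mom l k))

/-- assembly of the abstract parts: for almost every small coupling the convolution square of any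
measure with the moments of the one dimensional density of states is absolutely continuous. -/
theorem conv_ac_of2 (hM : MomentsLim2) (hQ : QuantileProps) (hH : VKHolder) (hE : MainEstimate) :
    ∃ l0 : ℝ, 0 < l0 ∧ l0 ≤ 1 / 8 ∧ ∀ μ : ℝ → Measure ℝ,
      (∀ l ∈ Ioo 0 l0, IsProbabilityMeasure (μ l) ∧ μ l (Icc (-3) 3)ᶜ = 0 ∧
        ∀ k : ℕ, ∫ x, x ^ k ∂(μ l) = mom l k) →
      ∀ᵐ l ∂(volume.restrict (Ioo 0 l0)), (μ l).conv (μ l) ≪ volume := by
  obtain ⟨lH, hlH, hH⟩ := hH
  obtain ⟨lE, hlE, hE⟩ := hE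
  set l0 : ℝ := min (min lH lE) (1 / 16) with hl0
  have h0 : 0 < l0 := lt_min (lt_min hlH hlE) (by norm_num)
  have h0H : l0 ≤ lH := (min_le_left _ _).trans (min_le_left _ _)
  have h0E : l0 ≤ lE := (min_le_left _ _).trans (min_le_right _ _)
  have h016 : l0 ≤ 1 / 16 := min_le_right _ _
  refine ⟨l0, h0, h016.trans (by norm_num), ?_⟩
  intro μ hμ
  -- one interval
  have key : ∀ l1 : ℝ, 0 < l1 → 2 * l1 < l0 →
      ∀ᵐ l ∂(volume.restrict (Icc l1 (2 * l1))), (μ l).conv (μ l) ≪ volume := by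
    intro l1 h1 h2
    have hab : l1 < 2 * l1 := by linarith
    have hsub : ∀ l ∈ Icc l1 (2 * l1), l ∈ Ioo 0 l0 :=
      fun l hl => ⟨by linarith [hl.1], by linarith [hl.2]⟩
    have h18 : ∀ l ∈ Icc l1 (2 * l1), 0 < l ∧ l < 1 / 8 :=
      fun l hl => ⟨by linarith [hl.1], by linarith [hl.2]⟩
    refine limit_abs hab μ (fun l hl => (hμ l (hsub l hl)).1) (fun l hl => (hμ l (hsub l hl)).2.1)
      (fun K => EK (K + 1)) ?_ ?_ ?_ ?_
    · intro K
      exact ((hQ (K + 1) (by omega)).2.2.2.2.1 l1 (2 * l1) h1 (by linarith)).1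
    · intro K l hl t ht
      exact (hQ (K + 1) (by omega)).1 l (h18 l hl).1 (h18 l hl).2.le t ht
    · intro l hl k
      rw [(hμ l (hsub l hl)).2.2 k]
      exact (hM l (h18 l hl).1 (h18 l hl).2 k).comp (tendsto_add_atTop_nat 1)
    · intro ε hε
      obtain ⟨L, hL, hHol⟩ := hH l1 h1 (by linarith)
      obtain ⟨η, hη, hE⟩ := hE l1 h1 (by linarith)
      obtain ⟨C, s0, hC, hs0, hs1, hME⟩ := hE ε hε
      obtain ⟨C', hC', hEn⟩ := energy_abs hab hL hη hC hs0 hs1
      have hph : 1 < ph := by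
        have h5 : 2 < √5 := by
          rw [Real.lt_sqrt (by norm_num)]
          norm_num
        unfold ph
        linarith
      -- the scales
      set sK : ℕ → ℝ := fun K => ph ^ (-((K + 1 : ℕ) : ℝ) / 8) with hsK
      have hsKpos : ∀ K, 0 < sK K := fun K => Real.rpow_pos_of_pos (by linarith) _
      have hsKlim : Tendsto sK atTop (𝓝 0) := by
        have hlim : Tendsto (fun K : ℕ => -((K + 1 : ℕ) : ℝ) / 8) atTop atBot := by
          have hc : Tendsto (fun K : ℕ => (((K + 1 : ℕ) : ℝ))) atTop atTop :=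
            tendsto_natCast_atTop_atTop.comp (tendsto_add_atTop_nat 1)
          have := (tendsto_neg_atTop_atBot.comp hc).atBot_div_const (r := 8) (by norm_num)
          exact this
        have hrp : Tendsto (fun x : ℝ => ph ^ x) atBot (𝓝 0) :=
          tendsto_rpow_atBot_of_base_gt_one ph hph
        exact hrp.comp hlim
      refine ⟨C', fun K => sK K ^ 3, fun K => pow_pos (hsKpos K) 3, ?_, ?_⟩
      · have := hsKlim.pow 3
        simpa using this
      · have hME' := (tendsto_add_atTop_nat 1).eventually hME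
        have hHol' := (tendsto_add_atTop_nat 1).eventually hHol
        have hsm : ∀ᶠ K in atTop, sK K ≤ s0 := by
          have := hsKlim.eventually (gt_mem_nhds hs0)
          filter_upwards [this] with K hK
          exact hK.le
        have hall : ∀ᶠ K in atTop, ∃ A : Set ℝ, MeasurableSet A ∧ A ⊆ Ioo 0 1 ∧
            volume (Ioo 0 1 \ A) ≤ ENNReal.ofReal ε ∧
            ∫⁻ l in Icc l1 (2 * l1), volume (quadE A (EK (K + 1) l) (sK K ^ 3)) ≤
              ENNReal.ofReal (C' * sK K ^ 3) := by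
          filter_upwards [hME', hHol', hsm] with K hK1 hK2 hK3
          obtain ⟨A, hAm, hAR, hAv, hA⟩ := hK1
          obtain ⟨-, -, hq3, -, hq5, -, -⟩ := hQ (K + 1) (by omega)
          obtain ⟨hq51, hq52⟩ := hq5 l1 (2 * l1) h1 (by linarith)
          have hRg : Rg (K + 1) ⊆ Ioo 0 1 := fun t ht => ⟨ht.1, ht.2.1⟩
          have hAI : A ⊆ Ioo 0 1 := hAR.trans hRg
          refine ⟨A, hAm, hAI, hAv, ?_⟩
          refine hEn A (EK (K + 1)) (VK (K + 1)) (sK K) hAm hAI ?_ ?_ ?_ ?_ (hsKpos K) hK3 ?_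
          · have hms : MeasurableSet (Icc l1 (2 * l1) ×ˢ A) := measurableSet_Icc.prod hAm
            have h3 : indicator (Icc l1 (2 * l1) ×ˢ A) (fun p : ℝ × ℝ => EK (K + 1) p.1 p.2) =
                indicator (Icc l1 (2 * l1) ×ˢ A) (indicator (Icc l1 (2 * l1) ×ˢ Ioo (0 : ℝ) 1)
                  (fun p : ℝ × ℝ => EK (K + 1) p.1 p.2)) := by
              rw [Set.indicator_indicator, Set.inter_eq_left.2 (Set.prod_mono_right hAI)]
            rw [h3]
            exact hq51.indicator hms
          · have hms : MeasurableSet (Icc l1 (2 * l1) ×ˢ A) := measurableSet_Icc.prod hAm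
            have h3 : indicator (Icc l1 (2 * l1) ×ˢ A) (fun p : ℝ × ℝ => VK (K + 1) p.1 p.2) =
                indicator (Icc l1 (2 * l1) ×ˢ A) (indicator (Icc l1 (2 * l1) ×ˢ Rg (K + 1))
                  (fun p : ℝ × ℝ => VK (K + 1) p.1 p.2)) := by
              rw [Set.indicator_indicator, Set.inter_eq_left.2 (Set.prod_mono_right hAR)]
            rw [h3]
            exact hq52.indicator hms
          · intro t ht l hl
            exact (hq3 l (h18 l hl).1 (h18 l hl).2 t (hAR ht)).hasDerivWithinAt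
          · intro t ht l hl l' hl'
            exact hK2 t (hAR ht) l hl l' hl'
          · intro l hl s hs hss
            exact hA l hl s hs hss
        obtain ⟨A, hA⟩ := skolem.1 hall
        exact ⟨A, hA⟩
  -- the countable union
  have hU : Ioo 0 l0 ⊆ ⋃ q : {q : ℚ // 0 < (q : ℝ) ∧ 2 * (q : ℝ) < l0},
      Icc (q.1 : ℝ) (2 * (q.1 : ℝ)) := by
    intro l hl
    have hlt : l / 2 < min l (l0 / 2) := lt_min (by linarith [hl.1]) (by linarith [hl.2])
    obtain ⟨q, hq1, hq2⟩ := exists_rat_btwn hlt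
    have hq3 : (q : ℝ) < l := lt_of_lt_of_le hq2 (min_le_left _ _)
    have hq4 : (q : ℝ) < l0 / 2 := lt_of_lt_of_le hq2 (min_le_right _ _)
    refine mem_iUnion.2 ⟨⟨q, by linarith [hl.1], by linarith⟩, ?_⟩
    exact ⟨hq3.le, by simp only; linarith⟩
  refine ae_restrict_of_ae_restrict_of_subset hU ?_
  rw [ae_restrict_iUnion_iff]
  intro q
  exact key q.1 q.2.1 q.2.2

end FIB
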