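import Pool.Agent.Helper75.FIB.B1
import Pool.Agent.Helper75.FIB.B2
import Pool.Agent.Helper75.FIB.B3
import Pool.Agent.Helper75.FIB.B4
import Pool.Agent.Helper75.FIB.B5
import Pool.Agent.Helper75.FIB.B6
import Pool.Agent.Helper75.FIB.B6b
import Pool.Agent.Helper75.FIB.B7
import Pool.Agent.Helper75.FIB.B8
import Pool.Agent.Helper75.FIB.B9
import Pool.Agent.Helper75.FIB.C1
import Pool.Agent.Helper75.FIB.C2
import Pool.Agent.Helper75.FIB.C3
import Pool.Agent.Helper75.FIB.C4
import Pool.Agent.Helper75.FIB.C5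
import Pool.Agent.Helper75.FIB.C6
import Pool.Agent.Helper75.FIB.C7
import Pool.Agent.Helper75.FIB.C8
import Pool.Agent.Helper75.FIB.C9
import Pool.Agent.Helper75.FIB.C10
import Pool.Agent.Helper75.FIB.C11
import Pool.Agent.Helper75.FIB.G0
import Pool.Agent.Helper75.FIB.G1
import Pool.Agent.Helper75.FIB.G1b
import Pool.Agent.Helper75.FIB.G2
import Pool.Agent.Helper75.FIB.G3
import Pool.Agent.Helper75.FIB.G4
import Pool.Agent.Helper75.FIB.G5
import Pool.Agent.Helper75.FIB.G6
import Pool.Agent.Helper75.FIB.T0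
import Pool.Agent.Helper75.FIB.T1
import Pool.Agent.Helper75.FIB.T1c
import Pool.Agent.Helper75.FIB.T2
import Pool.Agent.Helper75.FIB.T2b
import Pool.Agent.Helper75.FIB.T2c
import Pool.Agent.Helper75.FIB.T3
import Pool.Agent.Helper75.FIB.T4
import Pool.Agent.Helper75.FIB.T5
import Pool.Agent.Helper75.FIB.T6
import Pool.Agent.Helper75.FIB.N1
import Pool.Agent.Helper75.FIB.N2
import Pool.Agent.Helper75.FIB.H1
import Pool.Agent.Helper75.FIB.H2
import Pool.Agent.Helper75.FIB.H3
import Pool.Agent.Helper75.FIB.H4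
import Pool.Agent.Helper75.FIB.I1
import Pool.Agent.Helper75.FIB.I2
import Pool.Agent.Helper75.FIB.I2b
import Pool.Agent.Helper75.FIB.I3
import Pool.Agent.Helper75.FIB.I4a
import Pool.Agent.Helper75.FIB.Ja
import Pool.Agent.Helper75.FIB.Jb
import Pool.Agent.Helper75.FIB.Jc
import Pool.Agent.Helper75.FIB.Jd
import Pool.Agent.Helper75.FIB.Je
import Pool.Agent.Helper75.FIB.Jf
import Pool.Agent.Helper75.FIB.Jg
import Pool.Agent.Helper75.FIB.Jh
import Pool.Agent.Helper75.FIB.J1
import Pool.Agent.Helper75.FIB.J2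
import Pool.Agent.Helper75.FIB.J3
import Pool.Agent.Helper75.FIB.ME
import Pool.Agent.Helper75.FIB.DosStubs
import Pool.Agent.Helper75.FIB.Top2
import Pool.Agent.Helper41.DOS.Final
import Pool.Agent.Helper41.DOS.FibMom

/-! # FIB : assembly of all blocks (except the operator part) -/

namespace FIB

open MeasureTheory Set

theorem aPosV : PosV := posV posProps
theorem aOri : Ori := ori posProps
theorem aDetS : DetS := detS posProps
theorem aWell : WellCond := wellCond posProps frameP
theorem aFrame2 : Frame2 := frame2 posProps aWell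
theorem aDetRho : DetRho := detRho posProps aFrame2
theorem aSLoc : SLoc := sLoc aFrame2
theorem aPosF : PosF := posF posProps aFrame2
theorem aThOf : ThOfBand := thOfBand polyTheta
theorem aRelStep : RelStep := relStep aOri aPosV
theorem aBandStep : BandStep := bandStep aPosV
theorem aBands : Bands := bands aThOf aRelStep aBandStep
theorem aTh : ThProps := thProps aThOf aBands
theorem aRel : RelP := relP aTh aRelStep
theorem aU : UBound := uBound aTh aRel
theorem aN : NBound := nBound aTh aU
theorem aQ : QuantileProps := quantileProps aTh aPosV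
theorem aQM : QMeas := qMeas aTh aQ
theorem aThClose : ThClose := thClose aTh aSLoc
theorem aGrLow : GrLow := grLow aDetRho aDetS rhoRatio
theorem aSpc : SpcCr := spcCr bdP
theorem aSLall : SLall := slAll aSLoc aGrLow
theorem aVB : VBound := vBound aSLall aGrLow aDetRho rhoRatio
theorem aFB : FBound := fBound aPosF aSpc aFrame2 posProps aGrLow rhoRatio
theorem aVLip : VLip := vLip aVB
theorem aVCell : VCell := vCell aVB aGrLow
theorem aHol : VKHolder := vkHolder aQ aTh aFB aVLip aSLall aDetRho aSpc aGrLow rhoRatio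
theorem aTL : TLrec := tlRec aOri aPosV
theorem aDist : Dist := dist aSLoc aGrLow
theorem aThLin : ThLin := thLin aTh aSLoc aDetRho rhoRatio
theorem aTauLow : TauLow := tauLow aSLoc aDetRho aDetS rhoRatio
theorem aNC : NCrude := nCrude aSLall aGrLow rhoRatio
theorem aNT : NTyp := nTyp aNC aSLoc aGrLow rhoRatio
theorem aVS : VStepC := vStepC aNT aSLoc aGrLow rhoRatio
theorem aNA : NearAff := nearAff aVS aVB aGrLow rhoRatio
theorem aVx : VxCrude := vxCrude aNC rhoRatio aDetRho
theorem aVT : VTyp := vTyp aVS aFB aGrLow aSpc aNT aDetRho rhoRatio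
theorem aGrowA : GrowA := growA (grUpClean aTL) aN aTh aQ bdP rhoRatio
theorem aFrost : FrostA := frostA aGrowA aThClose aN aSpc aGrLow aQ aTh rhoRatio
theorem aGood : GoodLev := goodLev aN aTh aQ aSpc bdP aGrLow rhoRatio
theorem aPassV : PassV := passV aN aTh aTL passP futP (tauRatio aTL) aVT aVS aVx aFB aSpc aGrLow rhoRatio aPosV
theorem aLocLin : LocLin := locLin aThLin aN
theorem aLocAff : LocAff := locAff aNA aSpc
theorem aCell : CellClose := cellClose aFB aVLip aVCell aSpc aGrLow rhoRatio aDist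
theorem aTypErr : TypErr := typErr aVT aSLoc aDist aQ aTh aSpc aGrLow rhoRatio
theorem aTypMass : TypMass := typMass aThLin aN aGrLow (grUpTyp aTL) aDist rhoRatio
theorem aAtypMass : AtypMass := atypMass aQM aQ aTh aN aLocLin
theorem aAtypCard : AtypCard := atypCard aSLoc aDist aTh aU aTauLow aN aLocLin rhoRatio aGrLow
theorem aNear : NearGapP :=
  nearGapP aLocLin (gapSet passArith) aPassV aN aTh aQ aDist aVS aSpc aGrLow rhoRatio
theorem aLocP : LocP := locP aQM aQ aTh aLocLin aLocAff aCell aTypErr aTypMass aAtypMass aAtypCard aNear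
theorem aMain : MainEstimate := mainEstimate aLocP killP treeP aGood aFrost countGood aQM aQ aTh

/-- everything except the operator part -/
theorem conv_ac (hM : MomentsLim2) :
    ∃ l0 : ℝ, 0 < l0 ∧ l0 ≤ 1 / 8 ∧ ∀ μ : ℝ → Measure ℝ,
      (∀ l ∈ Ioo 0 l0, IsProbabilityMeasure (μ l) ∧ μ l (Icc (-3) 3)ᶜ = 0 ∧
        ∀ k : ℕ, ∫ x, x ^ k ∂(μ l) = mom l k) →
      ∀ᵐ l ∂(volume.restrict (Ioo 0 l0)), (μ l).conv (μ l) ≪ volume :=
  conv_ac_of2 hM aQ aHol aMain

theorem moments2 : MomentsLim2 := fun l hl hl8 k => DOS.moments_lim aQ l hl hl8 k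

theorem final : Final := DOS.final_of (conv_ac moments2)

end FIB
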