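import Pool.Agent.Helper75.FIB.Iface

/-!
# FIB block B1 : positivity of S_n

Induction over pairs (n, n+1). `S_{n+2} = S_n + M_n S_{n+1} M_n^T`: sums of PSD matrices and `M S M^T` (with `S` PSD) are PSD
(`Matrix.PosSemidef.mul_mul_conjTranspose_same`, over ℝ conjTranspose = transpose; or use the definition by the quadratic form).
`SS - SB` for `n >= 1`: at `n = 1` it is `!![1,0;0,0]`, at `n = 2` it is `0` (compute), and the difference satisfies the same
recursion for `n >= 1`. `SS n ≠ 0` for `n >= 1`: trace of `SS 1`, `SS 2` is `1`, and `trace (SS (n+2)) >= trace (SS n)` (trace of a PSD matrix is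
`>= 0`). `SS_symm`, `SB_symm` are in Basic2.
-/

namespace FIB

open Real MeasureTheory Set Filter Topology

theorem psd_mul_mul_transpose {S : Matrix (Fin 2) (Fin 2) ℝ} (hS : S.PosSemidef)
    (M : Matrix (Fin 2) (Fin 2) ℝ) : (M * S * M.transpose).PosSemidef := by
  have h := hS.mul_mul_conjTranspose_same M
  rwa [Matrix.conjTranspose_eq_transpose_of_trivial] at h

theorem psd_e1 : (!![(1 : ℝ), 0; 0, 0] : Matrix (Fin 2) (Fin 2) ℝ).PosSemidef := by
  have h : (!![(1 : ℝ), 0; 0, 0] : Matrix (Fin 2) (Fin 2) ℝ) =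
      Matrix.diagonal (fun i : Fin 2 => if i = 0 then (1 : ℝ) else 0) := by
    ext i j; fin_cases i <;> fin_cases j <;> simp [Matrix.diagonal]
  rw [h]
  refine Matrix.PosSemidef.diagonal (fun i => ?_)
  fin_cases i <;> simp

theorem SS_psd (n : ℕ) (E l : ℝ) : (SS n E l).PosSemidef := by
  have : (SS n E l).PosSemidef ∧ (SS (n + 1) E l).PosSemidef := by
    induction n with
    | zero => exact ⟨Matrix.PosSemidef.zero, psd_e1⟩
    | succ n ih => exact ⟨ih.2, ih.1.add (psd_mul_mul_transpose ih.2 _)⟩
  exact this.1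

theorem SB_psd (n : ℕ) (E l : ℝ) : (SB n E l).PosSemidef := by
  have : (SB n E l).PosSemidef ∧ (SB (n + 1) E l).PosSemidef := by
    induction n with
    | zero => exact ⟨psd_e1, Matrix.PosSemidef.zero⟩
    | succ n ih => exact ⟨ih.2, ih.1.add (psd_mul_mul_transpose ih.2 _)⟩
  exact this.1

theorem SSB_psd (n : ℕ) (E l : ℝ) : (SS (n + 1) E l - SB (n + 1) E l).PosSemidef := by
  have : (SS (n + 1) E l - SB (n + 1) E l).PosSemidef ∧
      (SS (n + 2) E l - SB (n + 2) E l).PosSemidef := by
    induction n with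
    | zero =>
      refine ⟨?_, ?_⟩
      · have h : SS (0 + 1) E l - SB (0 + 1) E l = !![(1 : ℝ), 0; 0, 0] := by
          simp [SS, SB]
        rw [h]; exact psd_e1
      · have h : SS (0 + 2) E l - SB (0 + 2) E l = 0 := by
          ext i j
          fin_cases i <;> fin_cases j <;>
            simp [SS, SB, MM, Matrix.vecMul, dotProduct, Fin.sum_univ_two, Matrix.vecHead,
              Matrix.vecTail, Matrix.transpose]
        rw [h]; exact Matrix.PosSemidef.zero
    | succ n ih =>
      refine ⟨ih.2, ?_⟩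
      have h : SS (n + 1 + 2) E l - SB (n + 1 + 2) E l =
          (SS (n + 1) E l - SB (n + 1) E l) +
            MM (n + 1) E l * (SS (n + 2) E l - SB (n + 2) E l) * (MM (n + 1) E l).transpose := by
        rw [Matrix.mul_sub, Matrix.sub_mul]
        change (SS (n + 1) E l + MM (n + 1) E l * SS (n + 2) E l * (MM (n + 1) E l).transpose) -
          (SB (n + 1) E l + MM (n + 1) E l * SB (n + 2) E l * (MM (n + 1) E l).transpose) = _
        abel
      rw [h]
      exact ih.1.add (psd_mul_mul_transpose ih.2 _)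
  exact this.1

theorem SS_trace (n : ℕ) (E l : ℝ) : 1 ≤ (SS (n + 1) E l).trace := by
  have : 1 ≤ (SS (n + 1) E l).trace ∧ 1 ≤ (SS (n + 2) E l).trace := by
    induction n with
    | zero =>
      refine ⟨by simp [SS, Matrix.trace_fin_two], ?_⟩
      simp [SS, MM, Matrix.trace_fin_two, Matrix.vecMul, dotProduct, Fin.sum_univ_two,
        Matrix.vecHead, Matrix.vecTail, Matrix.transpose]
    | succ n ih =>
      refine ⟨ih.2, ?_⟩
      have h : SS (n + 1 + 2) E l = SS (n + 1) E l +
          MM (n + 1) E l * SS (n + 2) E l * (MM (n + 1) E l).transpose := rfl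
      rw [h, Matrix.trace_add]
      have h2 := (psd_mul_mul_transpose (SS_psd (n + 2) E l) (MM (n + 1) E l)).trace_nonneg
      linarith [ih.1]
  exact this.1

theorem posProps : PosProps := by
  intro n E l
  refine ⟨SS_psd n E l, SB_psd n E l, ?_, ?_⟩
  · intro hn
    obtain ⟨m, rfl⟩ : ∃ m, n = m + 1 := ⟨n - 1, by omega⟩
    exact SSB_psd m E l
  · intro hn h0
    obtain ⟨m, rfl⟩ : ∃ m, n = m + 1 := ⟨n - 1, by omega⟩
    have h := SS_trace m E l
    rw [h0, Matrix.trace_zero] at h
    linarith

end FIB
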