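import Pool.Agent.Helper75.FIB.Defs

/-! # FIB : basic algebra of the trace polynomials -/

namespace FIB

open Matrix

set_option linter.unusedSectionVars false

section alg
variable {R : Type*} [Field R]

@[simp] theorem tr_zero (E l : R) : tr 0 E l = 1 := rfl
@[simp] theorem tr_one (E l : R) : tr 1 E l = E / 2 := rfl
@[simp] theorem tr_two (E l : R) : tr 2 E l = (E - l) / 2 := rfl
theorem tr_add_three (n : ℕ) (E l : R) :
    tr (n + 3) E l = 2 * tr (n + 2) E l * tr (n + 1) E l - tr n E l := rfl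
@[simp] theorem trE_zero (E l : R) : trE 0 E l = 0 := rfl
@[simp] theorem trE_one (E l : R) : trE 1 E l = 1 / 2 := rfl
@[simp] theorem trE_two (E l : R) : trE 2 E l = 1 / 2 := rfl
theorem trE_add_three (n : ℕ) (E l : R) :
    trE (n + 3) E l =
      2 * (trE (n + 2) E l * tr (n + 1) E l + tr (n + 2) E l * trE (n + 1) E l) - trE n E l := rfl
@[simp] theorem trL_zero (E l : R) : trL 0 E l = 0 := rfl
@[simp] theorem trL_one (E l : R) : trL 1 E l = 0 := rfl
@[simp] theorem trL_two (E l : R) : trL 2 E l = -(1 / 2) := rfl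
theorem trL_add_three (n : ℕ) (E l : R) :
    trL (n + 3) E l =
      2 * (trL (n + 2) E l * tr (n + 1) E l + tr (n + 2) E l * trL (n + 1) E l) - trL n E l := rfl
theorem MM_add_two (n : ℕ) (E l : R) : MM (n + 2) E l = MM n E l * MM (n + 1) E l := rfl

/-- a strong induction principle adapted to the recursion -/
theorem ind3 {P : ℕ → Prop} (h0 : P 0) (h1 : P 1) (h2 : P 2)
    (h : ∀ n, P n → P (n + 1) → P (n + 2) → P (n + 3)) (n : ℕ) : P n := by
  have : P n ∧ P (n + 1) ∧ P (n + 2) := by
    induction n with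
    | zero => exact ⟨h0, h1, h2⟩
    | succ n ih => exact ⟨ih.2.1, ih.2.2, h n ih.1 ih.2.1 ih.2.2⟩
  exact this.1

variable [CharZero R]

theorem MM_det (n : ℕ) (E l : R) : (MM n E l).det = 1 := by
  have : (MM n E l).det = 1 ∧ (MM (n + 1) E l).det = 1 := by
    induction n with
    | zero => constructor <;> simp [MM, Matrix.det_fin_two]
    | succ n ih =>
      refine ⟨ih.2, ?_⟩
      rw [MM_add_two, Matrix.det_mul, ih.1, ih.2, one_mul]
  exact this.1

/-- Cayley-Hamilton type identity `tr(B A B) = tr(AB) tr B - tr A` for `det B = 1` -/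
theorem trace_bab (A B : Matrix (Fin 2) (Fin 2) R) (hB : B.det = 1) :
    (B * (A * B)).trace = (A * B).trace * B.trace - A.trace := by
  rw [Matrix.det_fin_two] at hB
  simp only [Matrix.trace_fin_two, Matrix.mul_apply, Fin.sum_univ_two]
  linear_combination (-(A 0 0 + A 1 1)) * hB

theorem MM_trace (n : ℕ) (E l : R) : (MM n E l).trace = 2 * tr n E l := by
  induction n using ind3 with
  | h0 => simp [MM, Matrix.trace_fin_two]; norm_num
  | h1 => simp [MM, Matrix.trace_fin_two]; ring
  | h2 => simp [MM, Matrix.trace_fin_two]; ring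
  | h n ih0 ih1 ih2 =>
    rw [show MM (n + 3) E l = MM (n + 1) E l * MM (n + 2) E l from rfl,
      show MM (n + 2) E l = MM n E l * MM (n + 1) E l from rfl,
      trace_bab _ _ (MM_det (n + 1) E l), ← MM_add_two, ih0, ih1, ih2, tr_add_three]
    ring

/-- the invariant -/
theorem tr_inv (n : ℕ) (E l : R) :
    tr n E l ^ 2 + tr (n + 1) E l ^ 2 + tr (n + 2) E l ^ 2
      - 2 * tr n E l * tr (n + 1) E l * tr (n + 2) E l - 1 = l ^ 2 / 4 := by
  induction n with
  | zero => simp; ring
  | succ n ih =>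
    rw [show n + 1 + 1 = n + 2 from rfl, show n + 1 + 2 = n + 3 from rfl, tr_add_three]
    rw [← ih]; ring

theorem tr_inv_sq (n : ℕ) (E l : R) :
    (tr (n + 2) E l - tr n E l * tr (n + 1) E l) ^ 2
      = (1 - tr n E l ^ 2) * (1 - tr (n + 1) E l ^ 2) + l ^ 2 / 4 := by
  rw [← tr_inv n E l]; ring

theorem tr_inv_sq' (n : ℕ) (E l : R) :
    (tr (n + 1) E l - tr n E l * tr (n + 2) E l) ^ 2
      = (1 - tr n E l ^ 2) * (1 - tr (n + 2) E l ^ 2) + l ^ 2 / 4 := by
  rw [← tr_inv n E l]; ring

theorem tr_inv_sq'' (n : ℕ) (E l : R) :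
    (tr n E l - tr (n + 1) E l * tr (n + 2) E l) ^ 2
      = (1 - tr (n + 1) E l ^ 2) * (1 - tr (n + 2) E l ^ 2) + l ^ 2 / 4 := by
  rw [← tr_inv n E l]; ring

/-- `G . R = 0` -/
theorem grad_E (n : ℕ) (E l : R) :
    (tr n E l - tr (n + 1) E l * tr (n + 2) E l) * trE n E l
      + (tr (n + 1) E l - tr n E l * tr (n + 2) E l) * trE (n + 1) E l
      + (tr (n + 2) E l - tr n E l * tr (n + 1) E l) * trE (n + 2) E l = 0 := by
  induction n with
  | zero => simp; ring
  | succ n ih =>
    rw [show n + 1 + 1 = n + 2 from rfl, show n + 1 + 2 = n + 3 from rfl, tr_add_three,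
      trE_add_three]
    rw [← ih]; ring

/-- `G . B = l/2` (here with the factor `1/2` of the gradient removed) -/
theorem grad_L (n : ℕ) (E l : R) :
    (tr n E l - tr (n + 1) E l * tr (n + 2) E l) * trL n E l
      + (tr (n + 1) E l - tr n E l * tr (n + 2) E l) * trL (n + 1) E l
      + (tr (n + 2) E l - tr n E l * tr (n + 1) E l) * trL (n + 2) E l = l / 4 := by
  induction n with
  | zero => simp; ring
  | succ n ih =>
    rw [show n + 1 + 1 = n + 2 from rfl, show n + 1 + 2 = n + 3 from rfl, tr_add_three,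
      trL_add_three]
    rw [← ih]; ring

end alg

section calc1

variable {𝕜 : Type*} [NontriviallyNormedField 𝕜] [CharZero 𝕜]

theorem hasDerivAt_tr_E (n : ℕ) (E l : 𝕜) :
    HasDerivAt (fun x => tr n x l) (trE n E l) E := by
  induction n using ind3 with
  | h0 => simpa using hasDerivAt_const E (1 : 𝕜)
  | h1 => simpa using (hasDerivAt_id E).div_const 2
  | h2 => simpa using ((hasDerivAt_id E).sub_const l).div_const 2
  | h n ih0 ih1 ih2 =>
    have := ((ih2.mul ih1).const_mul 2).sub ih0
    refine (this.congr_of_eventuallyEq (Filter.Eventually.of_forall fun x => ?_))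
    simp only [tr_add_three, Pi.mul_apply, Pi.sub_apply]
    ring

theorem hasDerivAt_tr_L (n : ℕ) (E l : 𝕜) :
    HasDerivAt (fun y => tr n E y) (trL n E l) l := by
  induction n using ind3 with
  | h0 => simpa using hasDerivAt_const l (1 : 𝕜)
  | h1 => simpa using hasDerivAt_const l (E / 2 : 𝕜)
  | h2 =>
    have := ((hasDerivAt_id l).const_sub E).div_const 2
    simpa [neg_div] using this
  | h n ih0 ih1 ih2 =>
    have := ((ih2.mul ih1).const_mul 2).sub ih0
    refine (this.congr_of_eventuallyEq (Filter.Eventually.of_forall fun x => ?_))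
    simp only [tr_add_three, Pi.mul_apply, Pi.sub_apply]
    ring

end calc1

section cast

theorem tr_ofReal (n : ℕ) (E l : ℝ) : tr n (E : ℂ) (l : ℂ) = ((tr n E l : ℝ) : ℂ) := by
  induction n using ind3 with
  | h0 => simp
  | h1 => simp
  | h2 => simp
  | h n ih0 ih1 ih2 => simp only [tr_add_three, ih0, ih1, ih2]; push_cast; ring

theorem trE_ofReal (n : ℕ) (E l : ℝ) : trE n (E : ℂ) (l : ℂ) = ((trE n E l : ℝ) : ℂ) := by
  induction n using ind3 with
  | h0 => simp
  | h1 => simp
  | h2 => simp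
  | h n ih0 ih1 ih2 =>
    simp only [trE_add_three, ih0, ih1, ih2, tr_ofReal]; push_cast; ring

theorem trL_ofReal (n : ℕ) (E l : ℝ) : trL n (E : ℂ) (l : ℂ) = ((trL n E l : ℝ) : ℂ) := by
  induction n using ind3 with
  | h0 => simp
  | h1 => simp
  | h2 => simp
  | h n ih0 ih1 ih2 =>
    simp only [trL_add_three, ih0, ih1, ih2, tr_ofReal]; push_cast; ring

end cast

end FIB
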