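import Pool.Agent.Helper75.FIB.Basic

/-! # FIB : matrices `S_n`, the derivative formulas and linear perturbations -/

namespace FIB

open Matrix

/-- perturbation recursion of the symmetric matrices, started at level `n` with `X`, `Y` -/
noncomputable def Sg (n : ℕ) (E l : ℝ) (X Y : Matrix (Fin 2) (Fin 2) ℝ) :
    ℕ → Matrix (Fin 2) (Fin 2) ℝ
  | 0 => X
  | 1 => Y
  | k + 2 => Sg n E l X Y k + MM (n + k) E l * Sg n E l X Y (k + 1) * (MM (n + k) E l).transpose

/-- linear perturbations of the trace sequence, started at level `n` with `Z 0, Z 1, Z 2` -/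
noncomputable def lin (n : ℕ) (E l : ℝ) (Z : ℕ → ℝ) : ℕ → ℝ
  | 0 => Z 0
  | 1 => Z 1
  | 2 => Z 2
  | k + 3 => 2 * (lin n E l Z (k + 2) * tr (n + k + 1) E l + tr (n + k + 2) E l * lin n E l Z (k + 1))
      - lin n E l Z k

theorem Sg_symm (n : ℕ) (E l : ℝ) {X Y : Matrix (Fin 2) (Fin 2) ℝ} (hX : Xᵀ = X) (hY : Yᵀ = Y)
    (k : ℕ) : (Sg n E l X Y k)ᵀ = Sg n E l X Y k := by
  have : (Sg n E l X Y k)ᵀ = Sg n E l X Y k ∧ (Sg n E l X Y (k + 1))ᵀ = Sg n E l X Y (k + 1) := by
    induction k with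
    | zero => exact ⟨hX, hY⟩
    | succ k ih =>
      refine ⟨ih.2, ?_⟩
      rw [show k + 1 + 1 = k + 2 from rfl]
      simp only [Sg, Matrix.transpose_add, Matrix.transpose_mul, Matrix.transpose_transpose, ih.1,
        ih.2, Matrix.mul_assoc]
  exact this.1

theorem SS_eq_Sg (E l : ℝ) (k : ℕ) : SS k E l = Sg 0 E l 0 !![1, 0; 0, 0] k := by
  have : SS k E l = Sg 0 E l 0 !![1, 0; 0, 0] k ∧
      SS (k + 1) E l = Sg 0 E l 0 !![1, 0; 0, 0] (k + 1) := by
    induction k with
    | zero => exact ⟨rfl, rfl⟩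
    | succ k ih =>
      refine ⟨ih.2, ?_⟩
      rw [show k + 1 + 1 = k + 2 from rfl, SS, Sg, ih.1, ih.2, Nat.zero_add]
  exact this.1

theorem SB_eq_Sg (E l : ℝ) (k : ℕ) : SB k E l = Sg 0 E l !![1, 0; 0, 0] 0 k := by
  have : SB k E l = Sg 0 E l !![1, 0; 0, 0] 0 k ∧
      SB (k + 1) E l = Sg 0 E l !![1, 0; 0, 0] 0 (k + 1) := by
    induction k with
    | zero => exact ⟨rfl, rfl⟩
    | succ k ih =>
      refine ⟨ih.2, ?_⟩
      rw [show k + 1 + 1 = k + 2 from rfl, SB, Sg, ih.1, ih.2, Nat.zero_add]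
  exact this.1

theorem SS_symm (n : ℕ) (E l : ℝ) : (SS n E l)ᵀ = SS n E l := by
  rw [SS_eq_Sg]
  exact Sg_symm 0 E l (by simp) (by ext i j; fin_cases i <;> fin_cases j <;> rfl) n

theorem SB_symm (n : ℕ) (E l : ℝ) : (SB n E l)ᵀ = SB n E l := by
  rw [SB_eq_Sg]
  exact Sg_symm 0 E l (by ext i j; fin_cases i <;> fin_cases j <;> rfl) (by simp) n

theorem tOm (A : Matrix (Fin 2) (Fin 2) ℝ) (hA : A.det = 1) : Aᵀ * Om * A = Om := by
  rw [Matrix.det_fin_two] at hA
  ext i j
  fin_cases i <;> fin_cases j <;>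
    simp [Om, Matrix.mul_apply, Fin.sum_univ_two] <;> linarith

/-- the perturbation `δM = S Ω M` -/
noncomputable def dM (n : ℕ) (E l : ℝ) (X Y : Matrix (Fin 2) (Fin 2) ℝ) (k : ℕ) :
    Matrix (Fin 2) (Fin 2) ℝ := Sg n E l X Y k * Om * MM (n + k) E l

theorem dM_add_two (n : ℕ) (E l : ℝ) (X Y : Matrix (Fin 2) (Fin 2) ℝ) (k : ℕ) :
    dM n E l X Y (k + 2) =
      dM n E l X Y k * MM (n + k + 1) E l + MM (n + k) E l * dM n E l X Y (k + 1) := by
  have h := tOm (MM (n + k) E l) (MM_det _ E l)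
  unfold dM
  rw [show n + (k + 2) = (n + k) + 2 from rfl, MM_add_two, show n + (k + 1) = n + k + 1 from rfl]
  simp only [Sg, Matrix.add_mul]
  congr 1
  · simp only [Matrix.mul_assoc]
  · calc MM (n + k) E l * Sg n E l X Y (k + 1) * (MM (n + k) E l)ᵀ * Om *
          (MM (n + k) E l * MM (n + k + 1) E l)
        = MM (n + k) E l * Sg n E l X Y (k + 1) * ((MM (n + k) E l)ᵀ * Om * MM (n + k) E l) *
            MM (n + k + 1) E l := by simp only [Matrix.mul_assoc]
      _ = _ := by rw [h]; simp only [Matrix.mul_assoc]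

theorem polar (A B D : Matrix (Fin 2) (Fin 2) ℝ) :
    (D * (A * B)).trace + (B * (A * D)).trace =
      (A * B).trace * D.trace + B.trace * (A * D).trace - A.trace * (adjugate B * D).trace := by
  simp only [Matrix.trace_fin_two, Matrix.mul_apply, Fin.sum_univ_two, Matrix.adjugate_fin_two,
    Matrix.of_apply, Matrix.cons_val', Matrix.cons_val_zero, Matrix.cons_val_one,
    Matrix.cons_val_fin_one]
  ring

theorem adj_zero (B Y : Matrix (Fin 2) (Fin 2) ℝ) (hY : Yᵀ = Y) :
    (adjugate B * (Y * Om * B)).trace = 0 := by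
  have h : Y 0 1 = Y 1 0 := by
    have := congrFun (congrFun hY 1) 0
    simpa [Matrix.transpose_apply] using this
  simp only [Om, Matrix.trace_fin_two, Matrix.mul_apply, Fin.sum_univ_two,
    Matrix.adjugate_fin_two, Matrix.of_apply, Matrix.cons_val', Matrix.cons_val_zero,
    Matrix.cons_val_one, Matrix.cons_val_fin_one]
  rw [h]; ring

/-- half traces of the perturbations satisfy the linearised trace recursion -/
theorem lin_eq (n : ℕ) (E l : ℝ) {X Y : Matrix (Fin 2) (Fin 2) ℝ} (hX : Xᵀ = X) (hY : Yᵀ = Y)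
    {Z : ℕ → ℝ} (h0 : Z 0 = (dM n E l X Y 0).trace / 2) (h1 : Z 1 = (dM n E l X Y 1).trace / 2)
    (h2 : Z 2 = (dM n E l X Y 2).trace / 2) (k : ℕ) :
    lin n E l Z k = (dM n E l X Y k).trace / 2 := by
  induction k using ind3 with
  | h0 => exact h0
  | h1 => exact h1
  | h2 => exact h2
  | h k ih0 ih1 ih2 =>
    have e3 : dM n E l X Y (k + 3) = dM n E l X Y (k + 1) * MM (n + k + 2) E l +
        MM (n + k + 1) E l * dM n E l X Y (k + 2) := dM_add_two n E l X Y (k + 1)
    have e2 := dM_add_two n E l X Y k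
    rw [lin, ih0, ih1, ih2, e3, e2, show MM (n + k + 2) E l = MM (n + k) E l * MM (n + k + 1) E l
      from rfl]
    have hB := MM_det (n + k + 1) E l
    have p1 := polar (MM (n + k) E l) (MM (n + k + 1) E l) (dM n E l X Y (k + 1))
    have p2 := trace_bab (dM n E l X Y k) (MM (n + k + 1) E l) hB
    have p3 : (adjugate (MM (n + k + 1) E l) * dM n E l X Y (k + 1)).trace = 0 :=
      adj_zero _ _ (Sg_symm n E l hX hY (k + 1))
    have t1 := MM_trace (n + k + 1) E l
    have t2 := MM_trace (n + k + 2) E l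
    rw [show MM (n + k + 2) E l = MM (n + k) E l * MM (n + k + 1) E l from rfl] at t2
    rw [p3, t1, t2] at p1
    rw [t1] at p2
    rw [Matrix.mul_add, Matrix.trace_add, Matrix.trace_add, Matrix.trace_add]
    have c1 : (MM (n + k) E l * dM n E l X Y (k + 1)).trace =
        (MM (n + k) E l * dM n E l X Y (k + 1)).trace := rfl
    linarith [p1, p2]

theorem trE_eq (n : ℕ) (E l : ℝ) : trE n E l = (SS n E l * Om * MM n E l).trace / 2 := by
  have key : ∀ k, lin 0 E l (fun k => trE k E l) k = trE k E l := by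
    intro k
    induction k using ind3 with
    | h0 => rfl
    | h1 => rfl
    | h2 => rfl
    | h k ih0 ih1 ih2 => rw [lin, ih0, ih1, ih2, Nat.zero_add, trE_add_three]
  rw [← key n, lin_eq 0 E l (X := 0) (Y := !![1, 0; 0, 0]) (by simp)
    (by ext i j; fin_cases i <;> fin_cases j <;> rfl), dM, ← SS_eq_Sg, Nat.zero_add]
  · simp [dM, Sg]
  · simp [dM, Sg, Om, MM, Matrix.trace_fin_two]
  · simp only [dM, Sg, Om, MM, Matrix.trace_fin_two, Matrix.mul_apply, Fin.sum_univ_two,
      Matrix.add_apply, Matrix.transpose_apply, Matrix.of_apply, Matrix.cons_val',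
      Matrix.cons_val_zero, Matrix.cons_val_one, Matrix.cons_val_fin_one, Matrix.zero_apply,
      trE_two]
    ring

theorem trL_eq (n : ℕ) (E l : ℝ) : trL n E l = -((SB n E l * Om * MM n E l).trace / 2) := by
  have key : ∀ k, lin 0 E l (fun k => -trL k E l) k = -trL k E l := by
    intro k
    induction k using ind3 with
    | h0 => rfl
    | h1 => rfl
    | h2 => rfl
    | h k ih0 ih1 ih2 => rw [lin, ih0, ih1, ih2, Nat.zero_add, trL_add_three]; ring
  rw [eq_comm, neg_eq_iff_eq_neg, eq_comm, ← key n, lin_eq 0 E l (X := !![1, 0; 0, 0]) (Y := 0)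
    (by ext i j; fin_cases i <;> fin_cases j <;> rfl) (by simp), dM, ← SB_eq_Sg, Nat.zero_add]
  · simp [dM, Sg, Om, MM, Matrix.trace_fin_two]
  · simp [dM, Sg]
  · simp [dM, Sg, Om, MM, Matrix.trace_fin_two]

end FIB
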