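import Pool.Agent.Helper75.FIB.Iface

/-!
# FIB block C5 : assembly of the bands

Strong induction (pairs `n, n+1`): `BandAt l 1`, `BandAt l 2` by direct computation (`tr 1 = E/2`, `tr 2 = (E-l)/2`, derivative `1/2 ≠ 0`); then `ThOfBand`, `RelStep`, `BandStep`.
-/

namespace FIB

open Real MeasureTheory Set Filter Topology

theorem h2_band_one (l : ℝ) : BandAt l 1 := by
  refine ⟨?_, ?_⟩
  · have h : {E : ℝ | tr 1 E l = 0} = {0} := by
      ext E
      simp
    rw [h, Set.ncard_singleton]
    rfl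
  · intro c hc
    rw [trE_one] at hc
    norm_num at hc

theorem bands (h2 : ThOfBand) (h3 : RelStep) (h4 : BandStep) : Bands := by
  intro l hl hl8
  have key : ∀ n : ℕ, (1 ≤ n → BandAt l n) ∧ (1 ≤ n + 1 → BandAt l (n + 1)) := by
    intro n
    induction n with
    | zero => exact ⟨fun h => absurd h (by omega), fun _ => h2_band_one l⟩
    | succ n ih =>
      refine ⟨ih.2, fun _ => ?_⟩
      have t0 := h2 l hl hl8 n ih.1
      have t1 := h2 l hl hl8 (n + 1) ih.2
      exact h4 l hl hl8 n t0 t1 (h3 l hl hl8 n t0 t1)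
  exact fun n hn => (key n).1 hn

theorem thProps (h2 : ThOfBand) (h : Bands) : ThProps :=
  fun l hl hl8 n => h2 l hl hl8 n (h l hl hl8 n)

theorem relP (h : ThProps) (h3 : RelStep) : RelP :=
  fun l hl hl8 n E => h3 l hl hl8 n (h l hl hl8 n) (h l hl hl8 (n + 1)) E

end FIB
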