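import Mathlib

/-!
# Definitions for the square Fibonacci Hamiltonian project (MP_d7d3f3_mp)

README: /team-store/h75_FIB_README.md
-/

namespace FIB

open Real

noncomputable section

/-! ## Trace polynomials (over any field; used for `ℝ` and `ℂ`) -/

section poly
variable {R : Type*} [Field R]

/-- trace polynomials: `x_0 = 1`, `x_1 = E/2`, `x_2 = (E-l)/2`, `x_{n+3} = 2 x_{n+2} x_{n+1} - x_n` -/
def tr : ℕ → R → R → R
  | 0, _, _ => 1
  | 1, E, _ => E / 2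
  | 2, E, l => (E - l) / 2
  | n + 3, E, l => 2 * tr (n + 2) E l * tr (n + 1) E l - tr n E l

/-- derivative of `tr n` with respect to `E` -/
def trE : ℕ → R → R → R
  | 0, _, _ => 0
  | 1, _, _ => 1 / 2
  | 2, _, _ => 1 / 2
  | n + 3, E, l =>
      2 * (trE (n + 2) E l * tr (n + 1) E l + tr (n + 2) E l * trE (n + 1) E l) - trE n E l

/-- derivative of `tr n` with respect to `l` -/
def trL : ℕ → R → R → R
  | 0, _, _ => 0
  | 1, _, _ => 0
  | 2, _, _ => -(1 / 2)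
  | n + 3, E, l =>
      2 * (trL (n + 2) E l * tr (n + 1) E l + tr (n + 2) E l * trL (n + 1) E l) - trL n E l

/-- transfer matrices -/
def MM : ℕ → R → R → Matrix (Fin 2) (Fin 2) R
  | 0, _, l => !![1, -l; 0, 1]
  | 1, E, _ => !![E, -1; 1, 0]
  | n + 2, E, l => MM n E l * MM (n + 1) E l

/-- `v_n = -(B_n . R_n)/(R_n . R_n)`, the least squares value of `-xdot/x'` at level `n` -/
def vv (n : ℕ) (E l : R) : R :=
  -(trL n E l * trE n E l + trL (n + 1) E l * trE (n + 1) E l + trL (n + 2) E l * trE (n + 2) E l) /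
    ((trE n E l) ^ 2 + (trE (n + 1) E l) ^ 2 + (trE (n + 2) E l) ^ 2)

end poly

/-- the matrices `S_n` with `M_n' = S_n Ω M_n` -/
def SS : ℕ → ℝ → ℝ → Matrix (Fin 2) (Fin 2) ℝ
  | 0, _, _ => 0
  | 1, _, _ => !![1, 0; 0, 0]
  | n + 2, E, l => SS n E l + MM n E l * SS (n + 1) E l * (MM n E l).transpose

/-- the matrices `S^b_n` with `- dM_n/dl = S^b_n Ω M_n` -/
def SB : ℕ → ℝ → ℝ → Matrix (Fin 2) (Fin 2) ℝ
  | 0, _, _ => !![1, 0; 0, 0]
  | 1, _, _ => 0
  | n + 2, E, l => SB n E l + MM n E l * SB (n + 1) E l * (MM n E l).transpose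

/-- `Ω` -/
def Om : Matrix (Fin 2) (Fin 2) ℝ := !![0, 1; -1, 0]

/-- `ρ_n = max(|x_n'|,|x_{n+1}'|,|x_{n+2}'|)` -/
def rho (n : ℕ) (E l : ℝ) : ℝ := max |trE n E l| (max |trE (n + 1) E l| |trE (n + 2) E l|)

/-- `-xdot_n/x_n'` -/
def Vx (n : ℕ) (E l : ℝ) : ℝ := -trL n E l / trE n E l

/-- projection to `[-1,1]` -/
def clip (x : ℝ) : ℝ := max (-1) (min 1 x)

/-- number of critical points of `x_n` to the right of `E` -/
def crit (n : ℕ) (l E : ℝ) : ℕ := Set.ncard {c : ℝ | E < c ∧ trE n c l = 0}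

/-- the phase `Θ_n(E)` (continuous, nonincreasing, `cos Θ_n = clip x_n`) -/
def Th (n : ℕ) (l E : ℝ) : ℝ :=
  π * crit n l E + Real.arccos ((-1) ^ crit n l E * clip (tr n E l))

/-- the integrated density of states of level `K` counted from the top, `N_K = Θ_K/(π F_K)` -/
def NN (K : ℕ) (l E : ℝ) : ℝ := Th K l E / (π * Nat.fib K)

/-- quantile function of level `K` -/
def EK (K : ℕ) (l t : ℝ) : ℝ := sSup {E : ℝ | π * Nat.fib K * t ≤ Th K l E}

/-- velocity `d/dl EK` -/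
def VK (K : ℕ) (l t : ℝ) : ℝ := Vx K (EK K l t) l

/-- regular parameters: `0 < t < 1`, `F_K t` not an integer -/
def Rg (K : ℕ) : Set ℝ := {t | 0 < t ∧ t < 1 ∧ ∀ j : ℤ, (Nat.fib K : ℝ) * t ≠ j}

/-! ## The operators -/

/-- `α = (√5 - 1)/2` -/
def al : ℝ := (Real.sqrt 5 - 1) / 2

/-- `φ = (√5+1)/2` -/
def ph : ℝ := (Real.sqrt 5 + 1) / 2

/-- the Fibonacci potential `l χ_{[1-α,1)}(n α + ω mod 1)` -/
def pot (l ω : ℝ) (n : ℤ) : ℝ :=
  l * Set.indicator (Set.Ico (1 - al) 1) (fun _ => (1 : ℝ)) (Int.fract ((n : ℝ) * al + ω))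

/-- the one dimensional operator acting on arbitrary sequences -/
def Hf (l ω : ℝ) (u : ℤ → ℝ) : ℤ → ℝ := fun n => u (n + 1) + u (n - 1) + pot l ω n * u n

/-- moments of the one dimensional density of states -/
def mom (l : ℝ) (k : ℕ) : ℝ :=
  ∫ ω in (0 : ℝ)..1, ((Hf l ω)^[k] (Pi.single 0 1)) 0

end

end FIB
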