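import Pool.Agent.Helper75.FIB.Defs

/-!
# FIB block EN-ABS : the energy reduction (abstract)

Everything is for a fixed interval `[a,b]` of couplings. `E l t` are energies, `V l t` their
`l`-derivatives, `A` a set of parameters `t`. Write `g = E(t1)+E(t2)-E(t3)-E(t4)`, `g'` the same with `V`.

PROOF. Fix `t1..t4 ∈ A`. Let `r = sK^3` and let `s` run over the dyadic values `s = s0 2^{-i} >= sK`
(for the last one, stop at the first `i` with `s0 2^{-i-1} < sK`).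
(1) For given dyadic `s` let `Z_s = {l ∈ [a,b] : |g(l)| < r, s <= |g'(l)| < 2 s}` (for `s = s0` drop the
upper bound). Put `c = min(1, 1/(256 L^2))`; cut `[a,b]` in `N = ceil((b-a)/(c s^2))` equal intervals `J`; so
`c s^2/2 <= |J| <= c s^2` if `c s^2 <= b-a` (if `s0` is so large that this fails take `N = 1`: all constants may
depend on `a,b,L,s0`; it is simplest to shrink: for `c s^2 > b-a` just use `J = [a,b]`).
If `J` contains `l* ∈ Z_s` then on `J`, by the Hölder bound, `|g'(l) - g'(l*)| <= 4 L |J|^{1/2} <= s/4`, so `g'` has constant sign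
and `3s/4 <= |g'| <= 9s/4` on `J` and `|g| <= r + (9/4) s |J| < 5 s^3` (as `r <= s^3`, `|J| <= s^2`). Hence
`J ⊆ {|g| < 5 s^3, |g'| < 4 s}`, and since `g` is monotone on `J` with slope at least `3s/4`:
`|{l ∈ J : |g| < r}| <= 2 r/(3s/4) <= 4 r/s <= (8 r/(c s^3)) |J|`. Sum over `J`:
`|Z_s| <= (8r/(c s^3)) |{l : |g| < 5s^3, |g'| < 4s}|`.
(2) for `s = s0` (upper bound dropped): `|Z_{s0}| <= N 4 r/s0 = C r`.
(3) the remaining set `{|g| < r, |g'| < sLast}` with `sLast` the smallest dyadic value used, `sK <= sLast < 2 sK`,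
is contained in `{|g| < 5 sLast^3, |g'| < 4 sLast}`.
Integrate over `(t1..t4) ∈ A^4`, exchange the integrals (Tonelli; the sets are measurable, because the indicators of
`E`, `V` on `[a,b] × (0,1)` are measurable) and use the hypothesis `hME`:
`∑_s (8r/(c s^3)) C s^{3+η} (b-a) + C r + C (2 sK)^{3+η} (b-a) <= C' r` (geometric series in `s^η`).
-/

namespace FIB

open MeasureTheory Set

/-- the set of quadruples in `A` with `|g| < x` and `|g'| < y` -/
def quad (A : Set ℝ) (E V : ℝ → ℝ) (x y : ℝ) : Set (ℝ × ℝ × ℝ × ℝ) :=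
  {p | p.1 ∈ A ∧ p.2.1 ∈ A ∧ p.2.2.1 ∈ A ∧ p.2.2.2 ∈ A ∧
    |E p.1 + E p.2.1 - E p.2.2.1 - E p.2.2.2| < x ∧
    |V p.1 + V p.2.1 - V p.2.2.1 - V p.2.2.2| < y}

/-- the set of quadruples in `A` with `|g| < x` -/
def quadE (A : Set ℝ) (E : ℝ → ℝ) (x : ℝ) : Set (ℝ × ℝ × ℝ × ℝ) :=
  {p | p.1 ∈ A ∧ p.2.1 ∈ A ∧ p.2.2.1 ∈ A ∧ p.2.2.2 ∈ A ∧
    |E p.1 + E p.2.1 - E p.2.2.1 - E p.2.2.2| < x}

/-- a piece on which `h` is bounded away from `0` -/
theorem h53_piece {a b L s r : ℝ} (hs : 0 < s) {g h : ℝ → ℝ}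
    (hd : ∀ l ∈ Icc a b, HasDerivWithinAt g (h l) (Icc a b) l)
    (hh : ∀ l ∈ Icc a b, ∀ l' ∈ Icc a b, |h l - h l'| ≤ 4 * L * |l - l'| ^ ((1 : ℝ) / 2))
    {J : Set ℝ} (hJ : Convex ℝ J) (hJI : J ⊆ Icc a b) {l0 : ℝ} (hl0 : l0 ∈ J)
    (hl0s : s ≤ |h l0|) (hJd : ∀ l ∈ J, 4 * L * |l - l0| ^ ((1 : ℝ) / 2) ≤ s / 4) :
    volume {l | l ∈ J ∧ |g l| < r} ≤ ENNReal.ofReal (8 * r / (3 * s)) := by
  refine (Real.volume_le_diam _).trans (Metric.ediam_le ?_)
  have key : ∀ f k : ℝ → ℝ, (∀ l ∈ Icc a b, HasDerivWithinAt f (k l) (Icc a b) l) →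
      (∀ l ∈ J, 3 * s / 4 ≤ k l) → ∀ x ∈ J, ∀ y ∈ J, x ≤ y → 3 * s / 4 * (y - x) ≤ f y - f x := by
    intro f k hf hk
    refine hJ.mul_sub_le_image_sub_of_le_deriv ?_ ?_ ?_
    · intro l hl
      exact ((hf l (hJI hl)).continuousWithinAt).mono hJI
    · intro l hl
      have h1 : Icc a b ∈ nhds l := by
        rw [← mem_interior_iff_mem_nhds]
        exact interior_mono hJI hl
      exact ((hf l (hJI (interior_subset hl))).hasDerivAt h1).differentiableAt.differentiableWithinAt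
    · intro l hl
      have h1 : Icc a b ∈ nhds l := by
        rw [← mem_interior_iff_mem_nhds]
        exact interior_mono hJI hl
      rw [((hf l (hJI (interior_subset hl))).hasDerivAt h1).deriv]
      exact hk l (interior_subset hl)
  have key2 : ∀ x ∈ J, ∀ y ∈ J, x ≤ y → 3 * s / 4 * (y - x) ≤ |g y - g x| := by
    intro x hx y hy hxy
    rcases le_total 0 (h l0) with hp | hp
    · have h2 : ∀ l ∈ J, 3 * s / 4 ≤ h l := by
        intro l hl
        have h3 := (hh l (hJI hl) l0 (hJI hl0)).trans (hJd l hl)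
        rw [abs_le] at h3
        rw [abs_of_nonneg hp] at hl0s
        linarith
      exact (key g h hd h2 x hx y hy hxy).trans (le_abs_self _)
    · have h2 : ∀ l ∈ J, 3 * s / 4 ≤ -h l := by
        intro l hl
        have h3 := (hh l (hJI hl) l0 (hJI hl0)).trans (hJd l hl)
        rw [abs_le] at h3
        rw [abs_of_nonpos hp] at hl0s
        linarith
      have h4 := key (fun l => -g l) (fun l => -h l) (fun l hl => (hd l hl).neg) h2 x hx y hy hxy
      refine h4.trans ?_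
      have := neg_abs_le (g y - g x)
      linarith
  have key3 : ∀ x ∈ J, ∀ y ∈ J, |g x| < r → |g y| < r → x ≤ y → y - x ≤ 8 * r / (3 * s) := by
    intro x hx y hy hgx hgy hxy
    have h1 := key2 x hx y hy hxy
    have h2 : |g y - g x| ≤ 2 * r := by
      have := abs_sub (g y) (g x)
      linarith
    rw [le_div_iff₀ (by positivity)]
    nlinarith
  intro x hx y hy
  rw [edist_dist, Real.dist_eq]
  apply ENNReal.ofReal_le_ofReal
  rcases le_total x y with hxy | hxy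
  · rw [abs_sub_comm, abs_of_nonneg (by linarith)]
    exact key3 x hx.1 y hy.1 hx.2 hy.2 hxy
  · rw [abs_of_nonneg (by linarith)]
    exact key3 y hy.1 x hx.1 hy.2 hx.2 hxy

/-- the averaging argument for one quadruple -/
theorem h53_one {a b L s r ρ : ℝ} (hs : 0 < s) (hL : 0 ≤ L) (hρ : 0 < ρ)
    (hρs : 4 * L * (2 * ρ) ^ ((1 : ℝ) / 2) ≤ s / 4) {g h : ℝ → ℝ}
    (hd : ∀ l ∈ Icc a b, HasDerivWithinAt g (h l) (Icc a b) l)
    (hh : ∀ l ∈ Icc a b, ∀ l' ∈ Icc a b, |h l - h l'| ≤ 4 * L * |l - l'| ^ ((1 : ℝ) / 2))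
    {Z W : Set ℝ} (hZm : MeasurableSet Z) (hWm : MeasurableSet W)
    (hZ : ∀ l ∈ Z, l ∈ Icc a b ∧ |g l| < r ∧ s ≤ |h l|)
    (hZW : ∀ l ∈ Z, ∀ l' ∈ Icc a b, |l - l'| ≤ ρ → l' ∈ W) :
    ENNReal.ofReal (min ρ (b - a)) * volume Z ≤ ENNReal.ofReal (8 * r / (3 * s)) * volume W := by
  let P : Set (ℝ × ℝ) := {q | q.1 ∈ Z ∧ q.2 ∈ W ∧ |q.1 - q.2| ≤ ρ}
  have hP : MeasurableSet P := by
    refine (measurable_fst hZm).inter ((measurable_snd hWm).inter ?_)
    exact measurableSet_le (f := fun q : ℝ × ℝ => |q.1 - q.2|) (by fun_prop) measurable_const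
  have h1 : ENNReal.ofReal (min ρ (b - a)) * volume Z ≤ (volume.prod volume) P := by
    rw [Measure.prod_apply hP, ← lintegral_indicator_const hZm]
    refine lintegral_mono fun l => ?_
    by_cases hl : l ∈ Z
    · rw [indicator_of_mem hl]
      obtain ⟨hlI, -, -⟩ := hZ l hl
      have h2 : Icc (max a (l - ρ)) (min b (l + ρ)) ⊆ Prod.mk l ⁻¹' P := by
        intro l' hl'
        have e1 : a ≤ l' := (le_max_left _ _).trans hl'.1
        have e2 : l - ρ ≤ l' := (le_max_right _ _).trans hl'.1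
        have e3 : l' ≤ b := hl'.2.trans (min_le_left _ _)
        have e4 : l' ≤ l + ρ := hl'.2.trans (min_le_right _ _)
        have e5 : |l - l'| ≤ ρ := by rw [abs_le]; constructor <;> linarith
        exact ⟨hl, hZW l hl l' ⟨e1, e3⟩ e5, e5⟩
      refine le_trans ?_ (measure_mono h2)
      rw [Real.volume_Icc]
      apply ENNReal.ofReal_le_ofReal
      rw [le_sub_iff_add_le]
      refine le_min ?_ ?_
      · rcases max_choice a (l - ρ) with h3 | h3 <;> rw [h3]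
        · linarith [min_le_right ρ (b - a)]
        · linarith [min_le_left ρ (b - a), hlI.2]
      · rcases max_choice a (l - ρ) with h3 | h3 <;> rw [h3]
        · linarith [min_le_left ρ (b - a), hlI.1]
        · linarith [min_le_left ρ (b - a)]
    · rw [indicator_of_notMem hl]
      exact bot_le
  refine h1.trans ?_
  rw [Measure.prod_apply_symm hP, ← lintegral_indicator_const hWm]
  refine lintegral_mono fun l' => ?_
  by_cases hl' : l' ∈ W
  · rw [indicator_of_mem hl']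
    by_cases hne : ((fun x => (x, l')) ⁻¹' P).Nonempty
    · obtain ⟨l0, hl0Z, -, hl0⟩ := hne
      obtain ⟨hl0I, -, hl0s⟩ := hZ l0 hl0Z
      have h3 := h53_piece (r := r) hs hd hh (J := Icc a b ∩ Icc (l' - ρ) (l' + ρ))
        ((convex_Icc _ _).inter (convex_Icc _ _)) inter_subset_left (l0 := l0)
        ⟨hl0I, by
          rw [abs_le] at hl0
          constructor <;> linarith [hl0.1, hl0.2]⟩ hl0s (by
          intro l hl
          refine le_trans ?_ hρs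
          have e1 : |l - l0| ≤ 2 * ρ := by
            simp only at hl0
            rw [abs_le] at hl0 ⊢
            have := hl.2.1
            have := hl.2.2
            constructor <;> linarith [hl0.1, hl0.2]
          have e2 : |l - l0| ^ ((1 : ℝ) / 2) ≤ (2 * ρ) ^ ((1 : ℝ) / 2) :=
            Real.rpow_le_rpow (abs_nonneg _) e1 (by norm_num)
          exact mul_le_mul_of_nonneg_left e2 (by positivity))
      refine (measure_mono ?_).trans h3
      intro l hl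
      obtain ⟨hlZ, -, hlr⟩ := hl
      obtain ⟨hlI, hlg, -⟩ := hZ l hlZ
      simp only at hlr
      rw [abs_le] at hlr
      exact ⟨⟨hlI, by constructor <;> linarith [hlr.1, hlr.2]⟩, hlg⟩
    · rw [not_nonempty_iff_eq_empty] at hne
      rw [hne]
      simp
  · rw [indicator_of_notMem hl']
    have : (fun x => (x, l')) ⁻¹' P = ∅ := by
      rw [eq_empty_iff_forall_notMem]
      rintro l ⟨-, h2, -⟩
      exact hl' h2
    rw [this]
    simp


theorem h53_near {a b L s ρ : ℝ} (hs : 0 < s) (hL : 0 ≤ L) (hρ : 0 < ρ)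
    (hρs : 4 * L * (2 * ρ) ^ ((1 : ℝ) / 2) ≤ s / 4) {g h : ℝ → ℝ}
    (hd : ∀ l ∈ Icc a b, HasDerivWithinAt g (h l) (Icc a b) l)
    (hh : ∀ l ∈ Icc a b, ∀ l' ∈ Icc a b, |h l - h l'| ≤ 4 * L * |l - l'| ^ ((1 : ℝ) / 2))
    {l l' : ℝ} (hl : l ∈ Icc a b) (hl' : l' ∈ Icc a b) (hll : |l - l'| ≤ ρ)
    (h2 : |h l| < 2 * s) : |h l'| < 4 * s ∧ |g l' - g l| ≤ 9 / 4 * s * ρ := by
  have h3 : ∀ x ∈ Icc a b, |l - x| ≤ ρ → |h x| ≤ 9 / 4 * s := by
    intro x hx hlx
    have e1 := hh l hl x hx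
    have e2 : |l - x| ^ ((1 : ℝ) / 2) ≤ (2 * ρ) ^ ((1 : ℝ) / 2) :=
      Real.rpow_le_rpow (abs_nonneg _) (by linarith) (by norm_num)
    have e3 := mul_le_mul_of_nonneg_left e2 (by positivity : 0 ≤ 4 * L)
    have e4 : |h x| ≤ |h l| + |h l - h x| := by
      have := abs_sub_abs_le_abs_sub (h x) (h l)
      rw [abs_sub_comm (h x) (h l)] at this
      linarith
    linarith
  refine ⟨by have := h3 l' hl' hll; linarith, ?_⟩
  have h4 := (convex_uIcc l l').norm_image_sub_le_of_norm_hasDerivWithin_le (f := g) (f' := h)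
    (C := 9 / 4 * s) (fun x hx => (hd x ((ordConnected_Icc.uIcc_subset hl hl') hx)).mono
      (ordConnected_Icc.uIcc_subset hl hl')) (fun x hx => by
        rw [Real.norm_eq_abs]
        refine h3 x ((ordConnected_Icc.uIcc_subset hl hl') hx) ?_
        refine le_trans ?_ hll
        have := abs_sub_left_of_mem_uIcc hx
        rw [abs_sub_comm l l', abs_sub_comm l x]
        exact this) left_mem_uIcc right_mem_uIcc
  rw [Real.norm_eq_abs, Real.norm_eq_abs] at h4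
  refine h4.trans (mul_le_mul_of_nonneg_left ?_ (by positivity))
  rw [abs_sub_comm]
  exact hll


/-- the combination of four values -/
def h53c (E : ℝ → ℝ → ℝ) (p : ℝ × ℝ × ℝ × ℝ) (l : ℝ) : ℝ :=
  E l p.1 + E l p.2.1 - E l p.2.2.1 - E l p.2.2.2

def h53A4 (A : Set ℝ) : Set (ℝ × ℝ × ℝ × ℝ) :=
  {p | p.1 ∈ A ∧ p.2.1 ∈ A ∧ p.2.2.1 ∈ A ∧ p.2.2.2 ∈ A}

def h53T (a b : ℝ) (A : Set ℝ) (E V : ℝ → ℝ → ℝ) (D : Set (ℝ × ℝ)) :
    Set (ℝ × (ℝ × ℝ × ℝ × ℝ)) :=
  {q | q.1 ∈ Icc a b ∧ q.2 ∈ h53A4 A ∧ (h53c E q.2 q.1, h53c V q.2 q.1) ∈ D}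

theorem h53A4_meas {A : Set ℝ} (hA : MeasurableSet A) : MeasurableSet (h53A4 A) := by
  refine (measurable_fst hA).inter (((measurable_fst.comp measurable_snd) hA).inter
    (((measurable_fst.comp (measurable_snd.comp measurable_snd)) hA).inter
      ((measurable_snd.comp (measurable_snd.comp measurable_snd)) hA)))

theorem h53T_meas {a b : ℝ} {A : Set ℝ} {E V : ℝ → ℝ → ℝ} (hA : MeasurableSet A)
    (hE : Measurable (indicator (Icc a b ×ˢ A) (fun p : ℝ × ℝ => E p.1 p.2)))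
    (hV : Measurable (indicator (Icc a b ×ˢ A) (fun p : ℝ × ℝ => V p.1 p.2)))
    {D : Set (ℝ × ℝ)} (hD : MeasurableSet D) : MeasurableSet (h53T a b A E V D) := by
  have hcomb : ∀ F : ℝ × ℝ → ℝ, Measurable F → Measurable fun q : ℝ × (ℝ × ℝ × ℝ × ℝ) =>
      F (q.1, q.2.1) + F (q.1, q.2.2.1) - F (q.1, q.2.2.2.1) - F (q.1, q.2.2.2.2) := by
    intro F hF
    refine ((Measurable.add ?_ ?_).sub ?_).sub ?_
    · exact hF.comp (by fun_prop)
    · exact hF.comp (by fun_prop)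
    · exact hF.comp (by fun_prop)
    · exact hF.comp (by fun_prop)
  have h1 := (hcomb _ hE).prodMk (hcomb _ hV)
  have h2 : h53T a b A E V D = (Prod.fst ⁻¹' (Icc a b) ∩ Prod.snd ⁻¹' (h53A4 A)) ∩
      (fun q : ℝ × (ℝ × ℝ × ℝ × ℝ) =>
        (indicator (Icc a b ×ˢ A) (fun p : ℝ × ℝ => E p.1 p.2) (q.1, q.2.1) +
          indicator (Icc a b ×ˢ A) (fun p : ℝ × ℝ => E p.1 p.2) (q.1, q.2.2.1) -
          indicator (Icc a b ×ˢ A) (fun p : ℝ × ℝ => E p.1 p.2) (q.1, q.2.2.2.1) -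
          indicator (Icc a b ×ˢ A) (fun p : ℝ × ℝ => E p.1 p.2) (q.1, q.2.2.2.2),
        indicator (Icc a b ×ˢ A) (fun p : ℝ × ℝ => V p.1 p.2) (q.1, q.2.1) +
          indicator (Icc a b ×ˢ A) (fun p : ℝ × ℝ => V p.1 p.2) (q.1, q.2.2.1) -
          indicator (Icc a b ×ˢ A) (fun p : ℝ × ℝ => V p.1 p.2) (q.1, q.2.2.2.1) -
          indicator (Icc a b ×ˢ A) (fun p : ℝ × ℝ => V p.1 p.2) (q.1, q.2.2.2.2))) ⁻¹' D := by
    ext q
    have hval : q.1 ∈ Icc a b → q.2 ∈ h53A4 A → ∀ F : ℝ → ℝ → ℝ,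
        indicator (Icc a b ×ˢ A) (fun p : ℝ × ℝ => F p.1 p.2) (q.1, q.2.1) +
          indicator (Icc a b ×ˢ A) (fun p : ℝ × ℝ => F p.1 p.2) (q.1, q.2.2.1) -
          indicator (Icc a b ×ˢ A) (fun p : ℝ × ℝ => F p.1 p.2) (q.1, q.2.2.2.1) -
          indicator (Icc a b ×ˢ A) (fun p : ℝ × ℝ => F p.1 p.2) (q.1, q.2.2.2.2) =
        h53c F q.2 q.1 := by
      intro h3 h4 F
      rw [indicator_of_mem (show ((q.1, q.2.1) : ℝ × ℝ) ∈ Icc a b ×ˢ A from ⟨h3, h4.1⟩),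
        indicator_of_mem (show ((q.1, q.2.2.1) : ℝ × ℝ) ∈ Icc a b ×ˢ A from ⟨h3, h4.2.1⟩),
        indicator_of_mem (show ((q.1, q.2.2.2.1) : ℝ × ℝ) ∈ Icc a b ×ˢ A from ⟨h3, h4.2.2.1⟩),
        indicator_of_mem (show ((q.1, q.2.2.2.2) : ℝ × ℝ) ∈ Icc a b ×ˢ A from ⟨h3, h4.2.2.2⟩)]
      rfl
    constructor
    · rintro ⟨h3, h4, h5⟩
      refine ⟨⟨h3, h4⟩, ?_⟩
      simp only [mem_preimage]
      rw [hval h3 h4 E, hval h3 h4 V]
      exact h5
    · rintro ⟨⟨h3, h4⟩, h5⟩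
      refine ⟨h3, h4, ?_⟩
      simp only [mem_preimage] at h5 h3 h4
      rw [hval h3 h4 E, hval h3 h4 V] at h5
      exact h5
  rw [h2]
  exact ((measurable_fst measurableSet_Icc).inter (measurable_snd (h53A4_meas hA))).inter (h1 hD)

theorem h53_transfer {a b L s r ρ : ℝ} {A : Set ℝ} {E V : ℝ → ℝ → ℝ} (hA : MeasurableSet A)
    (hE : Measurable (indicator (Icc a b ×ˢ A) (fun p : ℝ × ℝ => E p.1 p.2)))
    (hV : Measurable (indicator (Icc a b ×ˢ A) (fun p : ℝ × ℝ => V p.1 p.2)))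
    (hs : 0 < s) (hL : 0 ≤ L) (hρ : 0 < ρ)
    (hρs : 4 * L * (2 * ρ) ^ ((1 : ℝ) / 2) ≤ s / 4)
    (hd : ∀ p ∈ h53A4 A, ∀ l ∈ Icc a b, HasDerivWithinAt (h53c E p) (h53c V p l) (Icc a b) l)
    (hh : ∀ p ∈ h53A4 A, ∀ l ∈ Icc a b, ∀ l' ∈ Icc a b,
      |h53c V p l - h53c V p l'| ≤ 4 * L * |l - l'| ^ ((1 : ℝ) / 2))
    {DZ DW : Set (ℝ × ℝ)} (hDZ : MeasurableSet DZ) (hDW : MeasurableSet DW)
    (h1 : ∀ x y, (x, y) ∈ DZ → |x| < r ∧ s ≤ |y|)
    (h2 : ∀ p ∈ h53A4 A, ∀ l ∈ Icc a b, ∀ l' ∈ Icc a b, |l - l'| ≤ ρ →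
      (h53c E p l, h53c V p l) ∈ DZ → (h53c E p l', h53c V p l') ∈ DW) :
    ENNReal.ofReal (min ρ (b - a)) * (volume.prod volume) (h53T a b A E V DZ) ≤
      ENNReal.ofReal (8 * r / (3 * s)) * (volume.prod volume) (h53T a b A E V DW) := by
  have mZ := h53T_meas hA hE hV hDZ
  have mW := h53T_meas hA hE hV hDW
  rw [Measure.prod_apply_symm mZ, Measure.prod_apply_symm mW,
    ← lintegral_const_mul' _ _ ENNReal.ofReal_ne_top,
    ← lintegral_const_mul' _ _ ENNReal.ofReal_ne_top]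
  refine lintegral_mono fun p => ?_
  by_cases hp : p ∈ h53A4 A
  · refine h53_one hs hL hρ hρs (hd p hp) (hh p hp) (measurable_prodMk_right mZ)
      (measurable_prodMk_right mW) ?_ ?_
    · rintro l ⟨h3, -, h5⟩
      exact ⟨h3, h1 _ _ h5⟩
    · rintro l ⟨h3, -, h5⟩ l' hl' hll
      exact ⟨hl', hp, h2 p hp l h3 l' hl' hll h5⟩
  · have h3 : (fun x => (x, p)) ⁻¹' h53T a b A E V DZ = ∅ := by
      rw [eq_empty_iff_forall_notMem]
      rintro l ⟨-, h4, -⟩
      exact hp h4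
    rw [h3]
    simp

theorem h53_rho {L s : ℝ} (hL : 1 ≤ L) (hs : 0 < s) :
    4 * L * (2 * (1 / (512 * L ^ 2) * s ^ 2)) ^ ((1 : ℝ) / 2) ≤ s / 4 := by
  have hL0 : 0 < L := by linarith
  have h1 : 2 * (1 / (512 * L ^ 2) * s ^ 2) = (s / (16 * L)) ^ 2 := by
    field_simp
    norm_num
  rw [h1, ← Real.sqrt_eq_rpow, Real.sqrt_sq (by positivity)]
  apply le_of_eq
  field_simp
  norm_num

theorem h53_div {m k w : ℝ} (hm : 0 < m) (hk : 0 ≤ k) {x : ENNReal}
    (h : ENNReal.ofReal m * x ≤ ENNReal.ofReal k * ENNReal.ofReal w) :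
    x ≤ ENNReal.ofReal (k * w / m) := by
  rw [ENNReal.ofReal_div_of_pos hm, ENNReal.ofReal_mul hk]
  rw [ENNReal.le_div_iff_mul_le (Or.inl (by simpa using hm)) (Or.inl ENNReal.ofReal_ne_top), mul_comm]
  exact h

theorem h53_slice {a b : ℝ} {A : Set ℝ} {E V : ℝ → ℝ → ℝ} (hA : MeasurableSet A)
    (hE : Measurable (indicator (Icc a b ×ˢ A) (fun p : ℝ × ℝ => E p.1 p.2)))
    (hV : Measurable (indicator (Icc a b ×ˢ A) (fun p : ℝ × ℝ => V p.1 p.2)))
    {D : Set (ℝ × ℝ)} (hD : MeasurableSet D) {K : ENNReal}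
    (h : ∀ l ∈ Icc a b, volume {p | p ∈ h53A4 A ∧ (h53c E p l, h53c V p l) ∈ D} ≤ K) :
    (volume.prod volume) (h53T a b A E V D) ≤ K * ENNReal.ofReal (b - a) := by
  rw [Measure.prod_apply (h53T_meas hA hE hV hD), ← Real.volume_Icc,
    ← lintegral_indicator_const measurableSet_Icc]
  refine lintegral_mono fun l => ?_
  by_cases hl : l ∈ Icc a b
  · rw [indicator_of_mem hl]
    refine (measure_mono ?_).trans (h l hl)
    rintro p ⟨-, h2, h3⟩
    exact ⟨h2, h3⟩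
  · rw [indicator_of_notMem hl]
    have h2 : Prod.mk l ⁻¹' h53T a b A E V D = ∅ := by
      rw [eq_empty_iff_forall_notMem]
      rintro p ⟨h3, -⟩
      exact hl h3
    rw [h2]
    simp

theorem h53_A4_le {A : Set ℝ} (hA : A ⊆ Ioo 0 1) : volume (h53A4 A) ≤ 1 := by
  have h1 : h53A4 A ⊆ Ioo (0 : ℝ) 1 ×ˢ (Ioo (0 : ℝ) 1 ×ˢ (Ioo (0 : ℝ) 1 ×ˢ Ioo (0 : ℝ) 1)) := by
    rintro p ⟨h1, h2, h3, h4⟩
    exact ⟨hA h1, hA h2, hA h3, hA h4⟩
  refine (measure_mono h1).trans ?_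
  rw [Measure.volume_eq_prod, Measure.prod_prod, Measure.volume_eq_prod, Measure.prod_prod,
    Measure.volume_eq_prod, Measure.prod_prod]
  simp

theorem h53_find (f : ℕ → ℝ) (y : ℝ) (h0 : y < f 0) :
    ∀ n : ℕ, ¬ y < f n → ∃ i < n, f (i + 1) ≤ y ∧ y < f i := by
  intro n
  induction n with
  | zero => intro h; exact absurd h0 h
  | succ n ih =>
    intro h
    by_cases h1 : y < f n
    · exact ⟨n, by omega, not_lt.1 h, h1⟩
    · obtain ⟨i, hi, h2⟩ := ih h1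
      exact ⟨i, by omega, h2⟩

theorem energy_abs {a b : ℝ} (hab : a < b) {L η C s0 : ℝ} (hL : 1 ≤ L) (hη : 0 < η) (hC : 0 ≤ C)
    (hs0 : 0 < s0) (hs1 : s0 ≤ 1) :
    ∃ C' : ℝ, 0 ≤ C' ∧ ∀ (A : Set ℝ) (E V : ℝ → ℝ → ℝ) (sK : ℝ),
      MeasurableSet A → A ⊆ Ioo 0 1 →
      Measurable (indicator (Icc a b ×ˢ A) (fun p : ℝ × ℝ => E p.1 p.2)) →
      Measurable (indicator (Icc a b ×ˢ A) (fun p : ℝ × ℝ => V p.1 p.2)) →
      (∀ t ∈ A, ∀ l ∈ Icc a b, HasDerivWithinAt (fun l => E l t) (V l t) (Icc a b) l) →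
      (∀ t ∈ A, ∀ l ∈ Icc a b, ∀ l' ∈ Icc a b, |V l t - V l' t| ≤ L * |l - l'| ^ ((1 : ℝ) / 2)) →
      0 < sK → sK ≤ s0 →
      (∀ l ∈ Icc a b, ∀ s : ℝ, sK ≤ s → s ≤ s0 →
        volume (quad A (E l) (V l) (5 * s ^ 3) (4 * s)) ≤ ENNReal.ofReal (C * s ^ (3 + η))) →
      ∫⁻ l in Icc a b, volume (quadE A (E l) (sK ^ 3)) ≤ ENNReal.ofReal (C' * sK ^ 3) := by
  have hL0 : 0 < L := by linarith
  have hba : 0 < b - a := by linarith
  obtain ⟨c, hc⟩ : ∃ c : ℝ, c = 1 / (512 * L ^ 2) := ⟨_, rfl⟩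
  have hc0 : 0 < c := by rw [hc]; positivity
  have hc1 : c ≤ 1 := by
    rw [hc, div_le_one (by positivity)]
    nlinarith
  obtain ⟨m0, hm0⟩ : ∃ m0 : ℝ, m0 = min c (b - a) := ⟨_, rfl⟩
  have hm : 0 < m0 := by rw [hm0]; exact lt_min hc0 hba
  have hmc : m0 ≤ c := by rw [hm0]; exact min_le_left _ _
  have hmb : m0 ≤ b - a := by rw [hm0]; exact min_le_right _ _
  obtain ⟨q, hq⟩ : ∃ q : ℝ, q = (1 / 2 : ℝ) ^ η := ⟨_, rfl⟩
  have hq0 : 0 ≤ q := by rw [hq]; positivity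
  have hq1 : q < 1 := by rw [hq]; exact Real.rpow_lt_one (by norm_num) (by norm_num) hη
  have hq2 : 0 < 1 - q := by linarith
  obtain ⟨K0, hK0⟩ : ∃ K0 : ℝ, K0 = 8 * (b - a) / (3 * m0 * s0 ^ 3) := ⟨_, rfl⟩
  obtain ⟨K1, hK1⟩ : ∃ K1 : ℝ, K1 = 8 * C * (b - a) / (3 * m0) := ⟨_, rfl⟩
  have hK00 : 0 ≤ K0 := by rw [hK0]; positivity
  have hK10 : 0 ≤ K1 := by rw [hK1]; positivity
  refine ⟨K0 + K1 * (1 - q)⁻¹ + 8 * C * (b - a), by positivity, ?_⟩
  intro A E V sK hA hA01 hE hV hdE hHV hsK hsK0 hME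
  obtain ⟨r, hr⟩ : ∃ r : ℝ, r = sK ^ 3 := ⟨_, rfl⟩
  have hr0 : 0 < r := by rw [hr]; positivity
  rw [← hr]
  -- the hypotheses of the transfer lemma
  have hd : ∀ p ∈ h53A4 A, ∀ l ∈ Icc a b,
      HasDerivWithinAt (h53c E p) (h53c V p l) (Icc a b) l := by
    rintro p ⟨h1, h2, h3, h4⟩ l hl
    exact (((hdE _ h1 l hl).add (hdE _ h2 l hl)).sub (hdE _ h3 l hl)).sub (hdE _ h4 l hl)
  have hh : ∀ p ∈ h53A4 A, ∀ l ∈ Icc a b, ∀ l' ∈ Icc a b,
      |h53c V p l - h53c V p l'| ≤ 4 * L * |l - l'| ^ ((1 : ℝ) / 2) := by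
    rintro p ⟨h1, h2, h3, h4⟩ l hl l' hl'
    have e1 := abs_le.1 (hHV _ h1 l hl l' hl')
    have e2 := abs_le.1 (hHV _ h2 l hl l' hl')
    have e3 := abs_le.1 (hHV _ h3 l hl l' hl')
    have e4 := abs_le.1 (hHV _ h4 l hl l' hl')
    unfold h53c
    rw [abs_le]
    constructor <;> linarith [e1.1, e1.2, e2.1, e2.2, e3.1, e3.2, e4.1, e4.2]
  have hmin : ∀ s : ℝ, 0 < s → s ≤ 1 → m0 * s ^ 2 ≤ min (c * s ^ 2) (b - a) := by
    intro s hs hs1
    refine le_min (mul_le_mul_of_nonneg_right hmc (by positivity)) ?_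
    have : s ^ 2 ≤ 1 := pow_le_one₀ hs.le hs1
    nlinarith
  -- the dyadic scales
  obtain ⟨n, hn1, hn2⟩ := exists_nat_pow_near (x := s0 / sK) (y := 2)
    (by rw [le_div_iff₀ hsK]; linarith) (by norm_num)
  rw [le_div_iff₀ hsK] at hn1
  rw [div_lt_iff₀ hsK] at hn2
  obtain ⟨σ, hσ⟩ : ∃ σ : ℕ → ℝ, σ = fun i => s0 / 2 ^ i := ⟨_, rfl⟩
  have hσ0 : ∀ i, 0 < σ i := by intro i; rw [hσ]; positivity
  have hσs : ∀ i, σ i ≤ s0 := by
    intro i
    rw [hσ]
    exact div_le_self hs0.le (one_le_pow₀ (by norm_num))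
  have hσ1 : ∀ i, σ i ≤ 1 := fun i => (hσs i).trans hs1
  have hσd : ∀ i, σ i = 2 * σ (i + 1) := by
    intro i
    rw [hσ]
    simp only [pow_succ]
    field_simp
  have hσK : ∀ i, i ≤ n → sK ≤ σ i := by
    intro i hi
    rw [hσ]
    simp only
    rw [le_div_iff₀ (by positivity)]
    refine le_trans ?_ hn1
    rw [mul_comm]
    exact mul_le_mul_of_nonneg_right (pow_le_pow_right₀ (by norm_num) hi) hsK.le
  have hσn : σ n ≤ 2 * sK := by
    rw [hσ]
    simp only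
    rw [div_le_iff₀ (by positivity)]
    rw [pow_succ] at hn2
    nlinarith
  -- the measure of the boxes
  let M : Set (ℝ × (ℝ × ℝ × ℝ × ℝ)) → ENNReal := (volume.prod volume)
  let B : ℝ → Set (ℝ × ℝ) := fun s => {z | |z.1| < 5 * s ^ 3 ∧ |z.2| < 4 * s}
  have hBm : ∀ s, MeasurableSet (B s) := by
    intro s
    exact (measurableSet_lt (f := fun z : ℝ × ℝ => |z.1|) (by fun_prop) measurable_const).inter
      (measurableSet_lt (f := fun z : ℝ × ℝ => |z.2|) (by fun_prop) measurable_const)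
  have hB : ∀ s, sK ≤ s → s ≤ s0 →
      M (h53T a b A E V (B s)) ≤ ENNReal.ofReal (C * s ^ (3 + η) * (b - a)) := by
    intro s h1 h2
    have hs : 0 < s := hsK.trans_le h1
    rw [ENNReal.ofReal_mul (by positivity)]
    refine h53_slice hA hE hV (hBm s) ?_
    intro l hl
    refine (measure_mono ?_).trans (hME l hl s h1 h2)
    rintro p ⟨⟨e1, e2, e3, e4⟩, e5, e6⟩
    exact ⟨e1, e2, e3, e4, e5, e6⟩
  have hU : M (h53T a b A E V univ) ≤ ENNReal.ofReal (b - a) := by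
    have := h53_slice hA hE hV MeasurableSet.univ (K := 1) (fun l _ =>
      (measure_mono (fun p hp => hp.1)).trans (h53_A4_le hA01))
    rwa [one_mul] at this
  -- the pieces
  let Z0 : Set (ℝ × ℝ) := {z | |z.1| < r ∧ s0 ≤ |z.2|}
  let Z : ℕ → Set (ℝ × ℝ) := fun i => {z | |z.1| < r ∧ σ (i + 1) ≤ |z.2| ∧ |z.2| < 2 * σ (i + 1)}
  have hZ0m : MeasurableSet Z0 :=
    (measurableSet_lt (f := fun z : ℝ × ℝ => |z.1|) (by fun_prop) measurable_const).inter
      (measurableSet_le (g := fun z : ℝ × ℝ => |z.2|) measurable_const (by fun_prop))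
  have hZm : ∀ i, MeasurableSet (Z i) := fun i =>
    (measurableSet_lt (f := fun z : ℝ × ℝ => |z.1|) (by fun_prop) measurable_const).inter
      ((measurableSet_le (g := fun z : ℝ × ℝ => |z.2|) measurable_const (by fun_prop)).inter
      (measurableSet_lt (f := fun z : ℝ × ℝ => |z.2|) (by fun_prop) measurable_const))
  have b0 : M (h53T a b A E V Z0) ≤ ENNReal.ofReal (r * K0) := by
    have h1 := h53_transfer (r := r) hA hE hV hs0 hL0.le (ρ := c * s0 ^ 2) (by positivity)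
      (by rw [hc]; exact h53_rho hL hs0) hd hh hZ0m MeasurableSet.univ
      (fun x y h => h) (fun _ _ _ _ _ _ _ _ => mem_univ _)
    have h2 : ENNReal.ofReal (m0 * s0 ^ 2) * M (h53T a b A E V Z0) ≤
        ENNReal.ofReal (8 * r / (3 * s0)) * ENNReal.ofReal (b - a) := by
      refine le_trans (mul_le_mul_left (ENNReal.ofReal_le_ofReal (hmin s0 hs0 hs1)) _)
        (h1.trans (mul_le_mul_right hU _))
    refine (h53_div (by positivity) (by positivity) h2).trans (ENNReal.ofReal_le_ofReal ?_)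
    apply le_of_eq
    rw [hK0]
    field_simp
  have b1 : ∀ i, i < n → M (h53T a b A E V (Z i)) ≤ ENNReal.ofReal (r * K1 * q ^ i) := by
    intro i hi
    obtain ⟨s, hs⟩ : ∃ s, s = σ (i + 1) := ⟨_, rfl⟩
    have hs0' : 0 < s := by rw [hs]; exact hσ0 _
    have hs1' : s ≤ 1 := by rw [hs]; exact hσ1 _
    have hss0 : s ≤ s0 := by rw [hs]; exact hσs _
    have hsKs : sK ≤ s := by rw [hs]; exact hσK _ (by omega)
    have hrs : r ≤ s ^ 3 := by rw [hr]; exact pow_le_pow_left₀ hsK.le hsKs 3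
    have hρs : 4 * L * (2 * (c * s ^ 2)) ^ ((1 : ℝ) / 2) ≤ s / 4 := by
      rw [hc]; exact h53_rho hL hs0'
    have h1 := h53_transfer (r := r) hA hE hV hs0' hL0.le (ρ := c * s ^ 2) (by positivity)
      hρs hd hh (hZm i) (hBm s)
      (fun x y h => ⟨h.1, by rw [hs]; exact h.2.1⟩) (by
        intro p hp l hl l' hl' hll hz
        obtain ⟨z1, z2, z3⟩ := hz
        simp only at z1 z2 z3
        rw [← hs] at z3
        obtain ⟨w1, w2⟩ := h53_near hs0' hL0.le (by positivity) hρs (hd p hp) (hh p hp) hl hl' hll z3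
        refine ⟨?_, w1⟩
        simp only
        have w3 : |h53c E p l'| ≤ |h53c E p l| + |h53c E p l' - h53c E p l| := by
          have := abs_sub_abs_le_abs_sub (h53c E p l') (h53c E p l)
          linarith
        have w4 : 9 / 4 * s * (c * s ^ 2) ≤ 9 / 4 * s ^ 3 := by
          have : s ^ 3 * c ≤ s ^ 3 * 1 := mul_le_mul_of_nonneg_left hc1 (by positivity)
          nlinarith
        have w5 : 0 < s ^ 3 := by positivity
        linarith)
    have h2 : ENNReal.ofReal (m0 * s ^ 2) * M (h53T a b A E V (Z i)) ≤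
        ENNReal.ofReal (8 * r / (3 * s)) * ENNReal.ofReal (C * s ^ (3 + η) * (b - a)) := by
      refine le_trans (mul_le_mul_left (ENNReal.ofReal_le_ofReal (hmin s hs0' hs1')) _)
        (h1.trans (mul_le_mul_right (hB s hsKs hss0) _))
    refine (h53_div (by positivity) (by positivity) h2).trans (ENNReal.ofReal_le_ofReal ?_)
    have h3 : s ^ (3 + η) = s ^ 3 * s ^ η := by
      rw [Real.rpow_add hs0']
      norm_cast
    have h4 : s ^ η ≤ q ^ i := by
      rw [hq, Real.rpow_pow_comm (by norm_num)]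
      refine Real.rpow_le_rpow hs0'.le ?_ hη.le
      rw [hs, hσ]
      simp only
      rw [one_div, inv_pow, ← one_div]
      refine div_le_div₀ (by norm_num) hs1 (by positivity) ?_
      exact pow_le_pow_right₀ (by norm_num) (by omega)
    have h5 : 8 * r / (3 * s) * (C * s ^ (3 + η) * (b - a)) / (m0 * s ^ 2) = r * K1 * s ^ η := by
      rw [h3, hK1]
      field_simp
    rw [h5]
    exact mul_le_mul_of_nonneg_left h4 (by positivity)
  have b2 : M (h53T a b A E V (B (σ n))) ≤ ENNReal.ofReal (r * (8 * C * (b - a))) := by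
    refine (hB (σ n) (hσK n le_rfl) (hσs n)).trans (ENNReal.ofReal_le_ofReal ?_)
    have h3 : σ n ^ (3 + η) ≤ 8 * r := by
      have e1 : σ n ^ (3 + η) ≤ σ n ^ ((3 : ℕ) : ℝ) :=
        Real.rpow_le_rpow_of_exponent_ge (hσ0 n) (hσ1 n) (by push_cast; linarith)
      rw [Real.rpow_natCast] at e1
      have e2 : σ n ^ 3 ≤ (2 * sK) ^ 3 := pow_le_pow_left₀ (hσ0 n).le hσn 3
      rw [hr]
      nlinarith
    have h4 : C * σ n ^ (3 + η) ≤ C * (8 * r) := mul_le_mul_of_nonneg_left h3 hC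
    nlinarith
  -- the cover
  have hcov : h53T a b A E V {z | |z.1| < r} ⊆ h53T a b A E V Z0 ∪
      ((⋃ i ∈ Finset.range n, h53T a b A E V (Z i)) ∪ h53T a b A E V (B (σ n))) := by
    rintro w ⟨h1, h2, h3⟩
    simp only [mem_setOf_eq] at h3
    by_cases h4 : s0 ≤ |h53c V w.2 w.1|
    · exact Or.inl ⟨h1, h2, h3, h4⟩
    refine Or.inr ?_
    by_cases h5 : |h53c V w.2 w.1| < σ n
    · refine Or.inr ⟨h1, h2, ?_, ?_⟩
      · simp only
        have e2 : sK ^ 3 ≤ σ n ^ 3 := pow_le_pow_left₀ hsK.le (hσK n le_rfl) 3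
        have e3 : 0 < σ n ^ 3 := pow_pos (hσ0 n) 3
        linarith
      · simp only
        have := hσ0 n
        linarith
    · obtain ⟨i, hi, h6, h7⟩ := h53_find σ _ (by rw [hσ]; simpa using h4) n h5
      refine Or.inl (mem_biUnion (x := i) (Finset.mem_coe.2 (Finset.mem_range.2 hi)) ?_)
      exact ⟨h1, h2, h3, h6, by rw [← hσd]; exact h7⟩
  have hsum : M (h53T a b A E V {z | |z.1| < r}) ≤
      ENNReal.ofReal (r * K0) + (∑ i ∈ Finset.range n, ENNReal.ofReal (r * K1 * q ^ i) +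
        ENNReal.ofReal (r * (8 * C * (b - a)))) := by
    refine (measure_mono hcov).trans ?_
    refine (measure_union_le _ _).trans (add_le_add b0 ?_)
    refine (measure_union_le _ _).trans (add_le_add ?_ b2)
    refine (measure_biUnion_finset_le _ _).trans (Finset.sum_le_sum ?_)
    intro i hi
    exact b1 i (Finset.mem_range.1 hi)
  have hgeo : ∑ i ∈ Finset.range n, q ^ i ≤ (1 - q)⁻¹ := by
    rw [← tsum_geometric_of_lt_one hq0 hq1]
    exact (summable_geometric_of_lt_one hq0 hq1).sum_le_tsum _ (fun i _ => by positivity)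
  have hfin : ENNReal.ofReal (r * K0) + (∑ i ∈ Finset.range n, ENNReal.ofReal (r * K1 * q ^ i) +
        ENNReal.ofReal (r * (8 * C * (b - a)))) ≤
      ENNReal.ofReal ((K0 + K1 * (1 - q)⁻¹ + 8 * C * (b - a)) * r) := by
    rw [← ENNReal.ofReal_sum_of_nonneg (fun i _ => by positivity),
      ← ENNReal.ofReal_add (Finset.sum_nonneg fun i _ => by positivity) (by positivity),
      ← ENNReal.ofReal_add (by positivity) (by
        refine add_nonneg (Finset.sum_nonneg fun i _ => by positivity) (by positivity))]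
    apply ENNReal.ofReal_le_ofReal
    rw [← Finset.mul_sum]
    have := mul_le_mul_of_nonneg_left hgeo (by positivity : 0 ≤ r * K1)
    nlinarith
  refine le_trans ?_ (hsum.trans hfin)
  -- the left side
  have hDm : MeasurableSet {z : ℝ × ℝ | |z.1| < r} :=
    measurableSet_lt (f := fun z : ℝ × ℝ => |z.1|) (by fun_prop) measurable_const
  have hM : M (h53T a b A E V {z | |z.1| < r}) =
      ∫⁻ l, volume (Prod.mk l ⁻¹' h53T a b A E V {z | |z.1| < r}) :=
    Measure.prod_apply (h53T_meas hA hE hV hDm)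
  rw [hM, ← lintegral_indicator measurableSet_Icc]
  refine lintegral_mono fun l => ?_
  by_cases hl : l ∈ Icc a b
  · rw [indicator_of_mem hl]
    refine measure_mono ?_
    rintro p ⟨e1, e2, e3, e4, e5⟩
    exact ⟨hl, ⟨e1, e2, e3, e4⟩, e5⟩
  · rw [indicator_of_notMem hl]
    exact bot_le

end FIB
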