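import Pool.Agent.Helper75.FIB.Iface3

/-!
# FIB block H4 : most levels are good

`E = EK K l t`, `ℓ_n = Q^{-n}`, `θ = η^2/2`. All traces `|tr i| <= 2` for `i <= K` (BdP, SpcCr), so `RhoRatio` holds along the way. `rho_0 = 1/2`, `rho_i >= l^{C'} φ^i/2` for `i + 8 <= K` (GrLow).
(1) For `n <= nt` with `ℓ_n rho_0 <= θ^C1` let `m_n` be the largest `m` with `m + 8 <= K` and `rho m ℓ_n <= θ^C1`. Since `ℓ_n^{-1} <= Q^{nt} <= φ^{K/2}`, `φ^{m_n} <= l^{-C'} 2 θ^{C1} φ^{K/2}`, so `m_n + Lc + 17 <= K` for large `K` (uniformly in `n <= nt`), and by maximality `θ^C1 < rho (m_n+1) ℓ_n <= 9 rho m_n ℓ_n`.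
(2) `rho m_{n+1} >= θ^C1/(9 ℓ_{n+1}) = (Q/9) θ^C1/ℓ_n >= (Q/9) rho m_n`, and `rho (m+k) <= 9^k rho m`, so `m_{n+1} - m_n >= log_9(Q/9) >= 2L + 19`: the windows `[m_n - L, m_n + 8]` are disjoint for different `n`; moreover `m_n >= L + 8` except for at most one or two small `n` (count them in `n0`; also those with `ℓ_n rho_0 > θ^C1`).
(3) if level `n` is bad (and `n` not among the first few) then some `i ∈ [m_n-L, m_n+8]` has `θ^2 > 1 - x_i^2`; then `|sin π F_i t| < η^2`: otherwise `|sin Θ_i| >= η^2 - C√l >= η^2/2 = θ` (NBound, `NN K l E = t`, `2 l1 <= η^C`), so `x_i = cos Θ_i` and `1 - x_i^2 >= θ^2`. Distinct bad levels give distinct `i < m_{nt} + 9`. By `Gd` (for `m_{nt}+9 >= n1`, else a constant bound)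
`#bad <= η (m_{nt} + 9)`, and `m_{nt} <= log_φ(Q^{nt}) + const <= nt Lc + const` (`Q <= φ^{Lc}`). `η Lc <= 1/20` gives `#bad <= nt/20 + const(n1, l1, ...)`.
-/

namespace FIB

open Real MeasureTheory Set Filter Topology

theorem h4_ph_gt : 1 < ph := by
  unfold ph
  have h5 : 2 < √5 := by
    rw [Real.lt_sqrt (by norm_num)]
    norm_num
  linarith

/-- the counting part -/
theorem h4_count (m : ℕ → ℕ) (a nt L : ℕ) (S : Set ℕ) (hS : S.Finite) (B : Set ℕ)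
    (hB : ∀ n ∈ B, a ≤ n ∧ n ≤ nt)
    (hm : ∀ n, a ≤ n → n < nt → m n + (L + 9) ≤ m (n + 1))
    (hi : ∀ n ∈ B, ∃ i, i ∈ S ∧ m n ≤ i + L ∧ i ≤ m n + 8) : B.ncard ≤ S.ncard := by
  classical
  have hmono : ∀ n, a ≤ n → ∀ k, n + k + 1 ≤ nt → m n + (L + 9) ≤ m (n + k + 1) := by
    intro n hn k
    induction k with
    | zero => intro h; exact hm n hn (by omega)
    | succ k ih =>
      intro h
      have h1 := ih (by omega)
      have h2 := hm (n + k + 1) (by omega) (by omega)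
      have h3 : n + (k + 1) + 1 = n + k + 1 + 1 := by ring
      rw [h3]; omega
  choose! f hf using hi
  refine Set.ncard_le_ncard_of_injOn f (fun n hn => (hf n hn).1) ?_ hS
  intro n hn n' hn' hnn
  by_contra hne
  rcases lt_or_gt_of_ne hne with h | h
  · obtain ⟨k, rfl⟩ := Nat.exists_eq_add_of_lt h
    have h0 := hmono n (hB n hn).1 k (hB _ hn').2
    have h1 := (hf n hn).2
    have h2 := (hf _ hn').2
    omega
  · obtain ⟨k, rfl⟩ := Nat.exists_eq_add_of_lt h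
    have h0 := hmono n' (hB n' hn').1 k (hB _ hn).2
    have h1 := (hf n' hn').2
    have h2 := (hf _ hn).2
    omega

theorem h4_clip (x : ℝ) (h : 0 < 1 - clip x ^ 2) : clip x = x ∧ |x| < 1 := by
  unfold clip at *
  rcases le_or_gt 1 x with h1 | h1
  · exfalso
    rw [min_eq_left h1, max_eq_right (by norm_num)] at h
    norm_num at h
  · rw [min_eq_right h1.le] at h ⊢
    rcases le_or_gt x (-1) with h2 | h2
    · exfalso
      rw [max_eq_left h2] at h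
      norm_num at h
    · exact ⟨max_eq_right h2.le, abs_lt.2 ⟨h2, h1⟩⟩

theorem h4_sin_lip (a b : ℝ) : |Real.sin a| - |a - b| ≤ |Real.sin b| := by
  have h1 : |Real.sin a - Real.sin b| ≤ |a - b| := by
    have := Real.abs_sin_sub_sin_le a b
    exact this
  have h2 := abs_sub_abs_le_abs_sub (Real.sin a) (Real.sin b)
  linarith

/-- away from the zeros of `sin (π F_i t)` the index `i` is typical -/
theorem h4_typ {l E t η CN : ℝ} {i : ℕ} (hη : 0 < η)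
    (hcos : Real.cos (Th i l E) = clip (tr i E l))
    (hTh : |Th i l E - π * Nat.fib i * t| ≤ CN * √l) (hCN : CN * √l ≤ η ^ 2 / 2)
    (hs : η ^ 2 ≤ |Real.sin (π * Nat.fib i * t)|) :
    (η ^ 2 / 2) ^ 2 ≤ 1 - tr i E l ^ 2 := by
  have h1 := h4_sin_lip (π * Nat.fib i * t) (Th i l E)
  rw [abs_sub_comm] at h1
  have h2 : η ^ 2 / 2 ≤ |Real.sin (Th i l E)| := by linarith
  have h3 : (η ^ 2 / 2) ^ 2 ≤ Real.sin (Th i l E) ^ 2 := by
    rw [← sq_abs (Real.sin (Th i l E))]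
    exact pow_le_pow_left₀ (by positivity) h2 2
  rw [Real.sin_sq, hcos] at h3
  have h4 : 0 < (η ^ 2 / 2) ^ 2 := by positivity
  have h5 := h4_clip _ (lt_of_lt_of_le h4 h3)
  rwa [h5.1] at h3

theorem h4_levels (ρ : ℕ → ℝ) (K nt a D L Lc Q CG : ℕ) (T l : ℝ) (hl : 0 < l)
    (hρ0 : ρ 0 = 1 / 2) (hrr : ∀ i, i + 2 ≤ K → ρ (i + 1) ≤ 9 * ρ i)
    (hcr : ∀ i, i + 8 ≤ K → l ^ CG * ph ^ i * (1 / 2) ≤ ρ i)
    (hD : 2 * T * (1 / l) ^ CG ≤ ph ^ D) (ha : (1 / 2 : ℝ) * (Q : ℝ)⁻¹ ^ a ≤ T)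
    (hK : 2 * (D + Lc + 17) ≤ K) (hQ9 : (9 : ℝ) ^ (2 * L + 20) ≤ Q) (hQph : (Q : ℝ) ≤ ph ^ Lc)
    (hnt : (Q : ℝ) ^ nt ≤ ph ^ ((K : ℝ) / 2)) :
    ∃ M : ℕ → ℕ, (∀ n, a ≤ n → n ≤ nt → M n + Lc + 17 ≤ K ∧ ρ (M n) * (Q : ℝ)⁻¹ ^ n ≤ T ∧
      T ≤ 9 * (ρ (M n) * (Q : ℝ)⁻¹ ^ n) ∧ M n ≤ D + Lc * n) ∧
      ∀ n, a ≤ n → n < nt → M n + (2 * L + 19) ≤ M (n + 1) := by
  classical
  have hph := h4_ph_gt
  have hph0 : 0 < ph := by linarith
  have hQ1 : (1 : ℝ) ≤ Q := le_trans (one_le_pow₀ (by norm_num)) hQ9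
  have hQ0 : (0 : ℝ) < Q := by linarith
  have hmb : ∀ n m, n ≤ nt → m + 8 ≤ K → ρ m * (Q : ℝ)⁻¹ ^ n ≤ T →
      m ≤ D + Lc * n ∧ m + Lc + 17 ≤ K := by
    intro n m hn hm hρ
    have h1 : ρ m ≤ T * (Q : ℝ) ^ n := by
      rw [inv_pow, ← div_eq_mul_inv, div_le_iff₀ (by positivity)] at hρ
      exact hρ
    have h2 := hcr m hm
    have h3 : ph ^ m ≤ 2 * T * (1 / l) ^ CG * (Q : ℝ) ^ n := by
      have hl' : 0 < l ^ CG := by positivity
      have h4 : ph ^ m * l ^ CG ≤ 2 * T * (Q : ℝ) ^ n := by nlinarith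
      have h5 : ph ^ m ≤ 2 * T * (Q : ℝ) ^ n / l ^ CG := by
        rw [le_div_iff₀ hl']; exact h4
      refine h5.trans (le_of_eq ?_)
      rw [one_div, inv_pow]; ring
    have h4 : ph ^ m ≤ ph ^ D * (Q : ℝ) ^ n :=
      h3.trans (mul_le_mul_of_nonneg_right hD (by positivity))
    constructor
    · have h5 : ph ^ m ≤ ph ^ (D + Lc * n) := by
        rw [pow_add, pow_mul]
        exact h4.trans (mul_le_mul_of_nonneg_left (pow_le_pow_left₀ hQ0.le hQph n) (by positivity))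
      exact (pow_le_pow_iff_right₀ hph).1 h5
    · have h5 : ph ^ m ≤ ph ^ D * (Q : ℝ) ^ nt :=
        h4.trans (mul_le_mul_of_nonneg_left (pow_le_pow_right₀ hQ1 hn) (by positivity))
      have h6 : ph ^ (m : ℝ) ≤ ph ^ ((D : ℝ) + (K : ℝ) / 2) := by
        rw [Real.rpow_natCast, Real.rpow_add hph0, Real.rpow_natCast]
        exact h5.trans (mul_le_mul_of_nonneg_left hnt (by positivity))
      have h7 : (m : ℝ) ≤ (D : ℝ) + (K : ℝ) / 2 := (Real.rpow_le_rpow_left_iff hph).1 h6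
      have h8 : (2 * m : ℝ) ≤ 2 * D + K := by linarith
      have h9 : 2 * m ≤ 2 * D + K := by exact_mod_cast h8
      omega
  set M : ℕ → ℕ := fun n => Nat.findGreatest (fun m => m + 8 ≤ K ∧ ρ m * (Q : ℝ)⁻¹ ^ n ≤ T) K
    with hM
  have hspec : ∀ n, a ≤ n → M n + 8 ≤ K ∧ ρ (M n) * (Q : ℝ)⁻¹ ^ n ≤ T := by
    intro n hn
    have h0 : (fun m => m + 8 ≤ K ∧ ρ m * (Q : ℝ)⁻¹ ^ n ≤ T) 0 := by
      refine ⟨by omega, ?_⟩
      rw [hρ0]
      refine le_trans (mul_le_mul_of_nonneg_left ?_ (by norm_num)) ha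
      exact pow_le_pow_of_le_one (by positivity) (inv_le_one_of_one_le₀ hQ1) hn
    exact Nat.findGreatest_spec (P := fun m => m + 8 ≤ K ∧ ρ m * (Q : ℝ)⁻¹ ^ n ≤ T)
      (Nat.zero_le K) h0
  have hfirst : ∀ n, a ≤ n → n ≤ nt → M n + Lc + 17 ≤ K ∧ ρ (M n) * (Q : ℝ)⁻¹ ^ n ≤ T ∧
      T ≤ 9 * (ρ (M n) * (Q : ℝ)⁻¹ ^ n) ∧ M n ≤ D + Lc * n := by
    intro n han hn
    obtain ⟨h1, h2⟩ := hspec n han
    obtain ⟨h3, h4⟩ := hmb n (M n) hn h1 h2
    refine ⟨h4, h2, ?_, h3⟩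
    have h5 : ¬ (M n + 1 + 8 ≤ K ∧ ρ (M n + 1) * (Q : ℝ)⁻¹ ^ n ≤ T) :=
      Nat.findGreatest_is_greatest (P := fun m => m + 8 ≤ K ∧ ρ m * (Q : ℝ)⁻¹ ^ n ≤ T)
        (Nat.lt_succ_self _) (by omega)
    have h6 : T < ρ (M n + 1) * (Q : ℝ)⁻¹ ^ n := by
      by_contra h7
      exact h5 ⟨by omega, not_lt.1 h7⟩
    have h7 := hrr (M n) (by omega)
    have h8 : 0 < (Q : ℝ)⁻¹ ^ n := by positivity
    nlinarith
  have hpos : ∀ i, i + 8 ≤ K → 0 < ρ i := fun i hi => lt_of_lt_of_le (by positivity) (hcr i hi)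
  have hpw : ∀ i k, i + k + 8 ≤ K → ρ (i + k) ≤ 9 ^ k * ρ i := by
    intro i k
    induction k with
    | zero => intro _; simp
    | succ k ih =>
      intro h
      have h1 := ih (by omega)
      have h2 := hrr (i + k) (by omega)
      rw [← add_assoc, pow_succ]
      linarith
  refine ⟨M, hfirst, ?_⟩
  intro n han hn
  obtain ⟨a1, a2, a3, a4⟩ := hfirst n han hn.le
  obtain ⟨b1, b2, b3, b4⟩ := hfirst (n + 1) (by omega) hn
  have hle : M n ≤ M (n + 1) := by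
    refine Nat.le_findGreatest (by omega) ⟨by omega, ?_⟩
    refine le_trans ?_ a2
    refine mul_le_mul_of_nonneg_left ?_ (hpos _ (by omega)).le
    exact pow_le_pow_of_le_one (by positivity) (inv_le_one_of_one_le₀ hQ1) (Nat.le_succ n)
  obtain ⟨k, hk⟩ := Nat.exists_eq_add_of_le hle
  have h1 := hpw (M n) k (by omega)
  rw [← hk] at h1
  have hp := hpos (M n) (by omega)
  have hQn : 0 < (Q : ℝ)⁻¹ ^ n := by positivity
  have h2 : ρ (M n) * (Q : ℝ)⁻¹ ^ n * Q ≤ 9 * (ρ (M (n + 1)) * (Q : ℝ)⁻¹ ^ n) := by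
    have h3 : 9 * (ρ (M (n + 1)) * (Q : ℝ)⁻¹ ^ (n + 1)) * Q =
        9 * (ρ (M (n + 1)) * (Q : ℝ)⁻¹ ^ n) := by
      rw [pow_succ]; field_simp
    rw [← h3]
    exact mul_le_mul_of_nonneg_right (a2.trans b3) hQ0.le
  have h3 : ρ (M n) * Q ≤ 9 * ρ (M (n + 1)) := by
    have h4 : (ρ (M n) * Q) * (Q : ℝ)⁻¹ ^ n ≤ (9 * ρ (M (n + 1))) * (Q : ℝ)⁻¹ ^ n := by
      linarith
    exact le_of_mul_le_mul_right h4 hQn
  have h4 : (Q : ℝ) ≤ 9 ^ (k + 1) := by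
    have h5 : ρ (M n) * Q ≤ ρ (M n) * 9 ^ (k + 1) := by
      rw [pow_succ]; linarith
    exact le_of_mul_le_mul_left h5 hp
  have h5 : (9 : ℝ) ^ (2 * L + 20) ≤ 9 ^ (k + 1) := hQ9.trans h4
  have h6 : 2 * L + 20 ≤ k + 1 := (pow_le_pow_iff_right₀ (by norm_num)).1 h5
  omega

theorem goodLev (hN : NBound) (hT : ThProps) (hQ : QuantileProps) (hC : SpcCr) (hB : BdP) (hG : GrLow) (hR : RhoRatio) : GoodLev := by
  classical
  obtain ⟨CN, hCN, hN⟩ := hN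
  obtain ⟨CG, hG⟩ := hG
  obtain ⟨c, hc⟩ : ∃ c : ℕ, c = ⌈2 * CN⌉₊ + 8 := ⟨_, rfl⟩
  refine ⟨2 * c, ?_⟩
  intro η l1 n1 C1 hη hCη hl1 hl1C L Lc Q hQ9 hQph hLcη hLLc
  have hc1 : 2 * CN ≤ c := by
    have := Nat.le_ceil (2 * CN)
    rw [hc]; push_cast; linarith
  have hc8 : (8 : ℝ) ≤ c := by
    rw [hc]; push_cast
    have : (0 : ℝ) ≤ (⌈2 * CN⌉₊ : ℝ) := Nat.cast_nonneg _
    linarith
  push_cast at hCη
  have hη8 : η ≤ 1 / 8 := by nlinarith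
  have hηc : 2 * CN * η ≤ 1 := by nlinarith
  have hc8' : 8 ≤ c := by omega
  have hθ : 0 < η ^ 2 / 2 := by positivity
  have hT0 : 0 < (η ^ 2 / 2) ^ C1 := by positivity
  have hph := h4_ph_gt
  obtain ⟨D, hD⟩ := pow_unbounded_of_one_lt (2 * (η ^ 2 / 2) ^ C1 * (1 / l1) ^ CG) hph
  have hQ2 : (1 : ℝ) < Q := lt_of_lt_of_le (one_lt_pow₀ (by norm_num) (by omega)) hQ9
  obtain ⟨a, ha⟩ := exists_pow_lt_of_lt_one hT0 (inv_lt_one_of_one_lt₀ hQ2)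
  refine ⟨a + 1 + n1 + D + 9, ?_⟩
  filter_upwards [eventually_ge_atTop (2 * (D + Lc + 17))] with K hK
  intro nt l t hl ht htG hnt
  have hl0 : 0 < l := hl1.trans_le hl.1
  have hlη : l ≤ η ^ (2 * c) := hl.2.trans hl1C
  have hl8 : l ≤ 1 / 8 := by
    refine hlη.trans (le_trans ?_ hη8)
    exact pow_le_of_le_one hη.le (by linarith) (by omega)
  have hsq : CN * √l ≤ η ^ 2 / 2 := by
    have h1 : √l ≤ η ^ c := by
      rw [← Real.sqrt_sq (pow_nonneg hη.le c)]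
      refine Real.sqrt_le_sqrt ?_
      rw [← pow_mul, mul_comm c 2]; exact hlη
    have h2 : η ^ c ≤ η ^ 3 := pow_le_pow_of_le_one hη.le (by linarith) (by omega)
    have h3 : CN * √l ≤ CN * η ^ 3 := mul_le_mul_of_nonneg_left (h1.trans h2) (by linarith)
    have h4 : CN * η ^ 3 = η ^ 2 / 2 * (2 * CN * η) := by ring
    have h5 : η ^ 2 / 2 * (2 * CN * η) ≤ η ^ 2 / 2 * 1 := mul_le_mul_of_nonneg_left hηc hθ.le
    linarith
  obtain ⟨E, hE⟩ : ∃ E, E = EK K l t := ⟨_, rfl⟩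
  have hK1 : 1 ≤ K := by omega
  have hfib : (0 : ℝ) < Nat.fib K := by exact_mod_cast Nat.fib_pos.2 (by omega)
  have hThK : Th K l E = π * Nat.fib K * t := by
    rw [hE]; exact (hQ K hK1).2.1 l hl0 hl8 t ⟨ht.1, ht.2.1⟩
  have hNN : NN K l E = t := by
    unfold NN
    rw [hThK]
    have hpi := Real.pi_pos
    field_simp
  have htr : |tr K E l| < 1 := by
    have h1 := (hT l hl0 hl8 K).2.2.1 E
    have h2 : Real.sin (Th K l E) ≠ 0 := by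
      intro h3
      rw [hThK, Real.sin_eq_zero_iff] at h3
      obtain ⟨j, hj⟩ := h3
      refine ht.2.2 j ?_
      have h4 : π * ((Nat.fib K : ℝ) * t) = π * j := by rw [← mul_assoc, ← hj]; ring
      exact mul_left_cancel₀ Real.pi_ne_zero h4
    have h3 : 0 < Real.sin (Th K l E) ^ 2 := by positivity
    rw [Real.sin_sq, h1] at h3
    exact (h4_clip _ h3).2
  have hNE : ∀ i ≤ K, |Th i l E - π * Nat.fib i * t| ≤ CN * √l := by
    intro i hi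
    have := hN l hl0 hl8 K i E hK1 hi
    rwa [hNN] at this
  have htyp : ∀ i ≤ K, η ^ 2 ≤ |Real.sin (π * Nat.fib i * t)| →
      (η ^ 2 / 2) ^ 2 ≤ 1 - tr i E l ^ 2 := fun i hi hs =>
    h4_typ hη ((hT l hl0 hl8 i).2.2.1 E) (hNE i hi) hsq hs
  have htr2 : ∀ i ≤ K, |tr i E l| ≤ 2 := by
    intro i hi
    have := (hB l hl0 hl8 K i E htr.le hi).1
    linarith
  have hrr : ∀ i, i + 2 ≤ K → rho (i + 1) E l ≤ 9 * rho i E l := fun i hi =>
    (hR i E l (htr2 _ (by omega)) (htr2 _ hi)).1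
  have hρ0 : rho 0 E l = 1 / 2 := by
    unfold rho
    rw [show (0 + 1) = 1 from rfl, show (0 + 2) = 2 from rfl, trE_zero, trE_one, trE_two]
    norm_num
  have hcr : ∀ i, i + 8 ≤ K → l1 ^ CG * ph ^ i * (1 / 2) ≤ rho i E l := by
    intro i hi
    have hc0 : Cr 0 E l := hC K 0 E l hl0 hl8 ⟨htr, by omega⟩
    have hci : Cr i E l := hC K i E l hl0 hl8 ⟨htr, hi⟩
    have h1 := hG 0 i E l l ⟨hl0, hl8, hl0, by linarith⟩ (Nat.zero_le i) (Or.inl ⟨rfl, hc0⟩)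
      (Or.inl ⟨rfl, hci⟩)
    rw [hρ0, Nat.sub_zero] at h1
    refine le_trans ?_ h1
    have h2 : l1 ^ CG ≤ l ^ CG := pow_le_pow_left₀ hl1.le hl.1 CG
    have h3 : 0 < ph ^ i := pow_pos (by linarith) i
    have h4 : l1 ^ CG * ph ^ i ≤ l ^ CG * ph ^ i := mul_le_mul_of_nonneg_right h2 h3.le
    linarith
  obtain ⟨M, hM1, hM2⟩ := h4_levels (fun i => rho i E l) K nt a D L Lc Q CG ((η ^ 2 / 2) ^ C1) l1
    hl1 hρ0 hrr hcr hD.le (by linarith [pow_pos (inv_pos.2 (by linarith : (0 : ℝ) < Q)) a]) hK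
    hQ9 hQph hnt

  rw [← hE]
  -- the sets
  obtain ⟨B, hBd⟩ : ∃ B : Set ℕ, B = {n : ℕ | a + 1 ≤ n ∧ n ≤ nt ∧
      ¬ ∃ m, GoodAt (η ^ 2 / 2) C1 L Lc K l E ((Q : ℝ)⁻¹ ^ n) m} := ⟨_, rfl⟩
  obtain ⟨N, hNd⟩ : ∃ N : ℕ, N = n1 + D + Lc * nt + 9 := ⟨_, rfl⟩
  obtain ⟨S, hSd⟩ : ∃ S : Set ℕ, S = {i : ℕ | i < N ∧ |Real.sin (π * Nat.fib i * t)| < η ^ 2} :=
    ⟨_, rfl⟩
  have hSfin : S.Finite := by
    rw [hSd]
    exact (Set.finite_Iio N).subset fun i hi => hi.1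
  have hBS : B.ncard ≤ S.ncard := by
    refine h4_count M (a + 1) nt L S hSfin B ?_ ?_ ?_
    · intro n hn
      rw [hBd] at hn
      exact ⟨hn.1, hn.2.1⟩
    · intro n h1 h2
      have := hM2 n (by omega) h2
      omega
    · intro n hn
      rw [hBd] at hn
      obtain ⟨h1, h2, h3⟩ := hn
      obtain ⟨g1, g2, g3, g4⟩ := hM1 n (by omega) h2
      have g5 : 2 * L + 19 ≤ M n := by
        obtain ⟨k, rfl⟩ : ∃ k, n = k + 1 := ⟨n - 1, by omega⟩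
        have := hM2 k (by omega) (by omega)
        omega
      have h4 : ¬ Tw (η ^ 2 / 2) (M n - L) (M n + 8) E l := by
        intro h5
        exact h3 ⟨M n, htr, by omega, by omega, g2, g3, h5⟩
      unfold Tw at h4
      push Not at h4
      obtain ⟨i, h5, h6, h7⟩ := h4
      refine ⟨i, ?_, by omega, h6⟩
      rw [hSd]
      have g6 : Lc * n ≤ Lc * nt := Nat.mul_le_mul_left _ h2
      refine ⟨by omega, ?_⟩
      by_contra h8
      have := htyp i (by omega) (not_lt.1 h8)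
      linarith
  have hSc : (S.ncard : ℝ) ≤ η * N := by
    rw [hSd]; exact htG.2 N (by omega)
  have hsub : {n : ℕ | n ≤ nt ∧ ¬ ∃ m, GoodAt (η ^ 2 / 2) C1 L Lc K l E ((Q : ℝ)⁻¹ ^ n) m} ⊆
      (Finset.range (a + 1) : Set ℕ) ∪ B := by
    intro n hn
    rcases Nat.lt_or_ge n (a + 1) with h | h
    · left; exact Finset.mem_coe.2 (Finset.mem_range.2 h)
    · right; rw [hBd]; exact ⟨h, hn.1, hn.2⟩
  have hBfin : B.Finite := by
    rw [hBd]
    exact (Set.finite_Iic nt).subset fun i hi => hi.2.1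
  have hcard : Set.ncard {n : ℕ | n ≤ nt ∧
      ¬ ∃ m, GoodAt (η ^ 2 / 2) C1 L Lc K l E ((Q : ℝ)⁻¹ ^ n) m} ≤ (a + 1) + S.ncard := by
    refine (Set.ncard_le_ncard hsub ((Finset.finite_toSet _).union hBfin)).trans ?_
    refine (Set.ncard_union_le _ _).trans ?_
    rw [Set.ncard_coe_finset, Finset.card_range]
    omega
  have hcard' : (Set.ncard {n : ℕ | n ≤ nt ∧
      ¬ ∃ m, GoodAt (η ^ 2 / 2) C1 L Lc K l E ((Q : ℝ)⁻¹ ^ n) m} : ℝ) ≤ (a + 1) + S.ncard := by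
    exact_mod_cast hcard
  refine hcard'.trans ?_
  have h1 : (N : ℝ) = n1 + D + Lc * nt + 9 := by rw [hNd]; push_cast; ring
  rw [h1] at hSc
  have h2 : η * ((n1 : ℝ) + D + 9) ≤ 1 * ((n1 : ℝ) + D + 9) :=
    mul_le_mul_of_nonneg_right (by linarith) (by positivity)
  have h3 : (20 * Lc * η) * (nt : ℝ) ≤ 1 * nt := mul_le_mul_of_nonneg_right hLcη (by positivity)
  have h4 : η * ((n1 : ℝ) + D + Lc * nt + 9) = η * ((n1 : ℝ) + D + 9) + (20 * Lc * η) * nt / 20 := by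
    ring
  push_cast
  have h5 : (0 : ℝ) ≤ nt := Nat.cast_nonneg _
  linarith

end FIB
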