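import Pool.Agent.Helper75.FIB.Basic2
import Pool.Agent.Helper75.FIB.TopStubs

/-!
# FIB : interface propositions

Every `def X : Prop` below is proved in its own block file as `theorem X_of (h : dependencies) : X`.
All constants are existentially quantified at the front of each proposition. `C : ℕ` is used as an exponent:
`l ^ C` or `θ ^ C`; since `l, θ ≤ 1/8` absolute factors are absorbed in powers (`8^k <= l^{-k}`).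
-/

namespace FIB

open Real MeasureTheory Set Filter Topology

noncomputable section

/-! ### non-degeneracy conditions -/

/-- crude: bounded traces at levels `n..n+8`, one of the last five is elliptic -/
def Cr (n : ℕ) (E l : ℝ) : Prop :=
  (∀ j, n ≤ j → j ≤ n + 8 → |tr j E l| ≤ 2) ∧ ∃ m, n + 4 ≤ m ∧ m ≤ n + 8 ∧ |tr m E l| ≤ 1

/-- `ε`-typical at levels `n..n+8` -/
def Ty (ε : ℝ) (n : ℕ) (E l : ℝ) : Prop := ∀ j, n ≤ j → j ≤ n + 8 → ε ^ 2 ≤ 1 - tr j E l ^ 2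

/-- non-degenerate with quality `ε` (`ε = l` in the crude case) -/
def ND (ε : ℝ) (n : ℕ) (E l : ℝ) : Prop := (ε = l ∧ Cr n E l) ∨ (l ≤ ε ∧ Ty ε n E l)

/-- standing assumptions on `l` and `ε` -/
def Okl (ε l : ℝ) : Prop := 0 < l ∧ l ≤ 1 / 8 ∧ 0 < ε ∧ ε ≤ 1 / 2

/-! ### module B : positivity and frames -/

/-- B1: positivity of `S_n`, `0 ≤ S^b_n ≤ S_n` -/
def PosProps : Prop := ∀ (n : ℕ) (E l : ℝ),
  (SS n E l).PosSemidef ∧ (SB n E l).PosSemidef ∧ (1 ≤ n → (SS n E l - SB n E l).PosSemidef) ∧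
  (1 ≤ n → SS n E l ≠ 0)

/-- B2: monotonicity of `x_n` inside the bands and `0 ≤ V ≤ 1` -/
def PosV : Prop := ∀ (n : ℕ) (E l : ℝ), 1 ≤ n → |tr n E l| < 1 →
  trE n E l ≠ 0 ∧ 0 ≤ Vx n E l ∧ Vx n E l ≤ 1

/-- B3: signs at elliptic pairs -/
def Ori : Prop := ∀ (n : ℕ) (E l : ℝ), 1 ≤ n →
  (|tr n E l| < 1 → |tr (n + 1) E l| < 1 →
    (tr (n + 2) E l - tr n E l * tr (n + 1) E l) * (trE n E l * trE (n + 1) E l) < 0) ∧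
  (|tr (n + 1) E l| < 1 → |tr (n + 2) E l| < 1 →
    0 < (tr n E l - tr (n + 1) E l * tr (n + 2) E l) * (trE (n + 1) E l * trE (n + 2) E l)) ∧
  (|tr n E l| < 1 → |tr (n + 2) E l| < 1 →
    0 < (tr (n + 1) E l - tr n E l * tr (n + 2) E l) * (trE n E l * trE (n + 2) E l))

/-- B4: determinants of `S_n` -/
def DetS : Prop :=
  (∀ (n : ℕ) (E l : ℝ), √(SS n E l).det + √(SS (n + 1) E l).det ≤ √(SS (n + 2) E l).det) ∧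
  (∀ (n j : ℕ) (E l : ℝ), (Nat.fib (j + 1) : ℝ) * √(SS n E l).det ≤ √(SS (n + j) E l).det) ∧
  (∀ (n : ℕ) (E l : ℝ), |tr n E l| ≤ 1 →
    √(SS n E l).det * √(1 - tr n E l ^ 2) ≤ |trE n E l|)

/-- B5: the balanced antidiagonal frame -/
def FrameP : Prop := ∀ (n : ℕ) (E l : ℝ), 0 < l → l ≤ 1 →
  |tr n E l| ≤ 2 → |tr (n + 1) E l| ≤ 2 → |tr (n + 2) E l| ≤ 2 →
  ∃ (g : Matrix (Fin 2) (Fin 2) ℝ) (b c b' c' : ℝ), g.det = 1 ∧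
    g * MM n E l = !![tr n E l, b; c, tr n E l] * g ∧
    g * MM (n + 1) E l = !![tr (n + 1) E l, b'; c', tr (n + 1) E l] * g ∧
    |b| ≤ 3 ∧ |c| ≤ 3 ∧ |b'| ≤ 3 ∧ |c'| ≤ 3 ∧ |b * c' - c * b'| = l ∧
    b * c = tr n E l ^ 2 - 1 ∧ b' * c' = tr (n + 1) E l ^ 2 - 1

/-- B6: well-conditioning of `S_{n+4},…,S_{n+8}` in a frame where everything is bounded -/
def WellCond : Prop := ∃ C0 : ℝ, 1 ≤ C0 ∧ ∀ (n : ℕ) (E l ε : ℝ), Okl ε l → l ≤ ε →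
  (∀ j, n ≤ j → j ≤ n + 8 → |tr j E l| ≤ 2) → (ε = l ∨ ε ^ 2 ≤ 1 - tr n E l ^ 2) →
  ∃ (g : Matrix (Fin 2) (Fin 2) ℝ) (a : ℝ) (A : ℕ → Matrix (Fin 2) (Fin 2) ℝ),
    g.det = 1 ∧ 0 < a ∧
    (∃ b c b' c' : ℝ, A n = !![tr n E l, b; c, tr n E l] ∧
      A (n + 1) = !![tr (n + 1) E l, b'; c', tr (n + 1) E l] ∧ |b| ≤ 3 ∧ |c| ≤ 3 ∧ |b'| ≤ 3 ∧
      |c'| ≤ 3 ∧ |b * c' - c * b'| = l) ∧
    (∀ j, n ≤ j → j ≤ n + 8 → g * MM j E l = A j * g ∧ (∀ i k, |A j i k| ≤ C0) ∧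
      (g * SS j E l * g.transpose).trace ≤ C0 * a) ∧
    (g * SS (n + 1) E l * g.transpose).trace = a ∧
    (∀ j, n + 4 ≤ j → j ≤ n + 8 → ∀ v : Fin 2 → ℝ,
      ε ^ 4 / C0 * a * (v 0 ^ 2 + v 1 ^ 2) ≤ v ⬝ᵥ (g * SS j E l * g.transpose).mulVec v)

/-- B6': the same with the number `a` compared to `ρ_n` (all frame facts in one statement) -/
def Frame2 : Prop := ∃ (C0 : ℝ) (C : ℕ), 1 ≤ C0 ∧ ∀ (n : ℕ) (E l ε : ℝ), Okl ε l → ND ε n E l →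
  ∃ (g : Matrix (Fin 2) (Fin 2) ℝ) (a : ℝ) (A : ℕ → Matrix (Fin 2) (Fin 2) ℝ),
    g.det = 1 ∧ 0 < a ∧
    (∃ b c b' c' : ℝ, A n = !![tr n E l, b; c, tr n E l] ∧
      A (n + 1) = !![tr (n + 1) E l, b'; c', tr (n + 1) E l] ∧ |b| ≤ 3 ∧ |c| ≤ 3 ∧ |b'| ≤ 3 ∧
      |c'| ≤ 3 ∧ |b * c' - c * b'| = l) ∧
    (∀ j, n ≤ j → j ≤ n + 8 → g * MM j E l = A j * g ∧ (∀ i k, |A j i k| ≤ C0) ∧
      (g * SS j E l * g.transpose).trace ≤ C0 * a) ∧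
    (g * SS (n + 1) E l * g.transpose).trace = a ∧
    (∀ j, n + 4 ≤ j → j ≤ n + 8 → ∀ v : Fin 2 → ℝ,
      ε ^ 4 / C0 * a * (v 0 ^ 2 + v 1 ^ 2) ≤ v ⬝ᵥ (g * SS j E l * g.transpose).mulVec v) ∧
    rho n E l ≤ C0 * a ∧ ε ^ C * a ≤ rho n E l ∧
    (∀ m, n + 4 ≤ m → m ≤ n + 8 → |tr m E l| ≤ 1 → ε ^ C * a ≤ |trE m E l|)

/-- B7: frame free lower bounds -/
def DetRho : Prop := ∃ C : ℕ, ∀ (n : ℕ) (E l ε : ℝ), Okl ε l → ND ε n E l →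
  ε ^ C * rho n E l ≤ √(SS (n + 4) E l).det ∧
  ε ^ C * √(SS (n + 1) E l).det ≤ rho n E l ∧ 0 < rho n E l ∧
  ∀ m, n + 4 ≤ m → m ≤ n + 8 → |tr m E l| ≤ 1 → ε ^ C * rho n E l ≤ |trE m E l|

/-- B8: Lipschitz bounds on a complex polydisc -/
def SLoc : Prop := ∃ C : ℕ, ∀ (n : ℕ) (E l ε : ℝ), Okl ε l → ND ε n E l →
  ∀ z w : ℂ, (‖z‖ + ‖w‖) * rho n E l ≤ ε ^ C → ∀ j, n ≤ j → j ≤ n + 8 →
    ε ^ C * ‖tr j ((E : ℂ) + z) ((l : ℂ) + w) - ((tr j E l : ℝ) : ℂ)‖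
      ≤ (‖z‖ + ‖w‖) * rho n E l

/-- B9: the positivity functional bound -/
def PosF : Prop := ∃ C : ℕ, ∀ (n K : ℕ) (E l : ℝ) (Z : ℕ → ℝ), 0 < l → l ≤ 1 / 8 → Cr n E l →
  n + 5 ≤ K → |tr K E l| < 1 →
  l ^ C * rho n E l * |lin n E l Z (K - n)| ≤ (|Z 0| + |Z 1| + |Z 2|) * |trE K E l|

/-! ### module C : bands and phases -/

/-- band structure at level `n` -/
def BandAt (l : ℝ) (n : ℕ) : Prop :=
  Set.ncard {E : ℝ | tr n E l = 0} = Nat.fib n ∧ ∀ c : ℝ, trE n c l = 0 → 1 ≤ |tr n c l|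

/-- properties of the phase of level `n` -/
def ThAt (l : ℝ) (n : ℕ) : Prop :=
  Continuous (Th n l) ∧ Antitone (Th n l) ∧ (∀ E, Real.cos (Th n l E) = clip (tr n E l)) ∧
  (∀ E, 3 ≤ E → Th n l E = 0) ∧ (∀ E, E ≤ -3 → Th n l E = π * Nat.fib n) ∧
  (∀ E, 1 ≤ n → |tr n E l| < 1 → 0 < Real.sin (Th n l E) * trE n E l ∧
    HasDerivAt (Th n l) (-(|trE n E l| / √(1 - tr n E l ^ 2))) E)

/-- C1: generic lemma on real rooted polynomials with large critical values -/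
def PolyTheta : Prop := ∀ p : Polynomial ℝ, 1 ≤ p.natDegree → 0 < p.leadingCoeff →
  Set.ncard {E : ℝ | p.eval E = 0} = p.natDegree →
  (∀ c : ℝ, p.derivative.eval c = 0 → 1 ≤ |p.eval c|) →
  ∀ (k : ℝ → ℕ) (θ : ℝ → ℝ), (∀ E, k E = Set.ncard {c : ℝ | E < c ∧ p.derivative.eval c = 0}) →
  (∀ E, θ E = π * k E + Real.arccos ((-1) ^ k E * clip (p.eval E))) →
  Continuous θ ∧ Antitone θ ∧ (∀ E, Real.cos (θ E) = clip (p.eval E)) ∧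
  (∀ E, (∀ x, E ≤ x → 1 ≤ |p.eval x|) → θ E = 0) ∧
  (∀ E, (∀ x, x ≤ E → 1 ≤ |p.eval x|) → θ E = π * p.natDegree) ∧
  (∀ E, |p.eval E| < 1 → 0 < Real.sin (θ E) * p.derivative.eval E ∧
    HasDerivAt θ (-(|p.derivative.eval E| / √(1 - p.eval E ^ 2))) E)

/-- C2 -/
def ThOfBand : Prop := ∀ (l : ℝ), 0 < l → l ≤ 1 / 8 → ∀ n : ℕ, (1 ≤ n → BandAt l n) → ThAt l n

/-- C3: the basic relation -/
def RelStep : Prop := ∀ (l : ℝ), 0 < l → l ≤ 1 / 8 → ∀ n : ℕ, ThAt l n → ThAt l (n + 1) →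
  ∀ E : ℝ, |clip (tr (n + 2) E l) - Real.cos (Th n l E + Th (n + 1) l E)| ≤ 2 * l

/-- C4: the induction step for the band structure -/
def BandStep : Prop := ∀ (l : ℝ), 0 < l → l ≤ 1 / 8 → ∀ n : ℕ, ThAt l n → ThAt l (n + 1) →
  (∀ E : ℝ, |clip (tr (n + 2) E l) - Real.cos (Th n l E + Th (n + 1) l E)| ≤ 2 * l) →
  BandAt l (n + 2)

/-- band structure for all levels -/
def Bands : Prop := ∀ (l : ℝ), 0 < l → l ≤ 1 / 8 → ∀ n : ℕ, 1 ≤ n → BandAt l n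

/-- properties of the phases, all levels -/
def ThProps : Prop := ∀ (l : ℝ), 0 < l → l ≤ 1 / 8 → ∀ n : ℕ, ThAt l n

/-- C5a: the basic relation -/
def RelP : Prop := ∀ (l : ℝ), 0 < l → l ≤ 1 / 8 → ∀ (n : ℕ) (E : ℝ),
  |clip (tr (n + 2) E l) - Real.cos (Th n l E + Th (n + 1) l E)| ≤ 2 * l

/-- C5b: `|Θ_{n+2}-Θ_{n+1}-Θ_n| ≤ 7 √l` -/
def UBound : Prop := ∀ (l : ℝ), 0 < l → l ≤ 1 / 8 → ∀ (n : ℕ) (E : ℝ),
  |Th (n + 2) l E - Th (n + 1) l E - Th n l E| ≤ 7 * √l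

/-- C6: all phases are determined by the integrated density of states up to `O(√l)` -/
def NBound : Prop := ∃ C : ℝ, 1 ≤ C ∧ ∀ (l : ℝ), 0 < l → l ≤ 1 / 8 → ∀ (K n : ℕ) (E : ℝ),
  1 ≤ K → n ≤ K → |Th n l E - π * Nat.fib n * NN K l E| ≤ C * √l

/-- C7: bounded traces -/
def BdP : Prop := ∀ (l : ℝ), 0 < l → l ≤ 1 / 8 → ∀ (K n : ℕ) (E : ℝ), |tr K E l| ≤ 1 → n ≤ K →
  |tr n E l| ≤ 1 + l / 2 ∧ (n + 1 ≤ K → |tr n E l| ≤ 1 ∨ |tr (n + 1) E l| ≤ 1)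

/-- C8: image of Lebesgue measure under the quantile function -/
def QMeas : Prop := ∀ (l : ℝ), 0 < l → l ≤ 1 / 8 → ∀ (K : ℕ), 1 ≤ K → ∀ a b : ℝ, a ≤ b →
  volume {t : ℝ | t ∈ Rg K ∧ a ≤ EK K l t ∧ EK K l t < b} = ENNReal.ofReal (NN K l a - NN K l b)

/-- C9: the phases are almost constant on small intervals -/
def ThClose : Prop := ∃ C : ℕ, ∀ (n : ℕ) (E E' l : ℝ), 0 < l → l ≤ 1 / 8 → Cr n E l →
  |E' - E| * rho n E l ≤ l ^ C → ∀ j, n ≤ j → j ≤ n + 8 → |Th j l E' - Th j l E| ≤ l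

/-! ### module G : crude estimates along the spectrum -/

/-- G0 -/
def RhoRatio : Prop := ∀ (n : ℕ) (E l : ℝ), |tr (n + 1) E l| ≤ 2 → |tr (n + 2) E l| ≤ 2 →
  rho (n + 1) E l ≤ 9 * rho n E l ∧ rho n E l ≤ 9 * rho (n + 1) E l

/-- G1: growth from below -/
def GrLow : Prop := ∃ C : ℕ, ∀ (n n' : ℕ) (E l ε : ℝ), Okl ε l → n ≤ n' → ND ε n E l →
  ND ε n' E l → ε ^ C * ph ^ (n' - n) * rho n E l ≤ rho n' E l

/-- spectral point of level `K`, with room for level `n` -/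
def Spc (K n : ℕ) (E l : ℝ) : Prop := |tr K E l| < 1 ∧ n + 8 ≤ K

/-- G1': spectral points are crudely non-degenerate at every level -/
def SpcCr : Prop := ∀ (K n : ℕ) (E l : ℝ), 0 < l → l ≤ 1 / 8 → Spc K n E l → Cr n E l

/-- G1'': Lipschitz bounds for all lower levels at once -/
def SLall : Prop := ∃ C : ℕ, ∀ (n : ℕ) (E l : ℝ), 0 < l → l ≤ 1 / 8 → (∀ j ≤ n, Cr j E l) →
  ∀ z w : ℂ, (‖z‖ + ‖w‖) * rho n E l ≤ l ^ C → ∀ j, j ≤ n + 8 →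
    l ^ C * ‖tr j ((E : ℂ) + z) ((l : ℂ) + w) - ((tr j E l : ℝ) : ℂ)‖
      ≤ (‖z‖ + ‖w‖) * rho n E l

/-- G2: bounds for the vectors `R × B` and the functions `v_n` on a complex polydisc -/
def VBound : Prop := ∃ C : ℕ, ∀ (n : ℕ) (E l : ℝ), 0 < l → l ≤ 1 / 8 → (∀ j ≤ n + 1, Cr j E l) →
  ∀ z w : ℂ, (‖z‖ + ‖w‖) * rho n E l ≤ l ^ C →
    l ^ C * ‖vv n ((E : ℂ) + z) ((l : ℂ) + w)‖ ≤ 1 ∧
    l ^ C * rho n E l * ‖vv (n + 1) ((E : ℂ) + z) ((l : ℂ) + w)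
      - vv n ((E : ℂ) + z) ((l : ℂ) + w)‖ ≤ 1 ∧
    rho n E l ^ 2 / 4 ≤ ‖(trE n ((E : ℂ) + z) ((l : ℂ) + w)) ^ 2
      + (trE (n + 1) ((E : ℂ) + z) ((l : ℂ) + w)) ^ 2
      + (trE (n + 2) ((E : ℂ) + z) ((l : ℂ) + w)) ^ 2‖ ∧
    (∀ j, n ≤ j → j ≤ n + 2 → ‖trE j ((E : ℂ) + z) ((l : ℂ) + w) - ((trE j E l : ℝ) : ℂ)‖
      ≤ rho n E l / 16)

/-- G3: the main velocity is close to `v_n` -/
def FBound : Prop := ∃ C : ℕ, ∀ (n K : ℕ) (E l : ℝ), 0 < l → l ≤ 1 / 8 → Spc K n E l →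
  l ^ C * rho n E l * |Vx K E l - vv n E l| ≤ 1

/-- G4: `v_n` is Lipschitz, `ρ_n` is almost constant -/
def VLip : Prop := ∃ C : ℕ, ∀ (n : ℕ) (E l E' l' : ℝ), 0 < l → l ≤ 1 / 8 → 0 < l' →
  (∀ j ≤ n + 1, Cr j E l) → (|E' - E| + |l' - l|) * rho n E l ≤ l ^ C →
  l ^ C * |vv n E' l' - vv n E l| ≤ rho n E l * (|E' - E| + |l' - l|) ∧
  rho n E l ≤ 2 * rho n E' l' ∧ rho n E' l' ≤ 2 * rho n E l

/-- G5: increments of `v_{n'} - v_n` -/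
def VCell : Prop := ∃ C : ℕ, ∀ (n n' : ℕ) (E E' l : ℝ), 0 < l → l ≤ 1 / 8 → n ≤ n' →
  (∀ j ≤ n' + 1, Cr j E l) → |E' - E| * rho n' E l ≤ l ^ C →
  l ^ C * |(vv n' E' l - vv n E' l) - (vv n' E l - vv n E l)| ≤ ((n' - n : ℕ) : ℝ) * |E' - E|

/-! ### module T : typical estimates.  `θ` typical on the window `[m-L, m+8]` -/

/-- `θ`-typical on the window `[a,b]` -/
def Tw (θ : ℝ) (a b : ℕ) (E l : ℝ) : Prop := ∀ j, a ≤ j → j ≤ b → θ ^ 2 ≤ 1 - tr j E l ^ 2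

/-- standing assumptions for the typical estimates with exponent `C` -/
def OkT (C : ℕ) (θ l : ℝ) (L : ℕ) : Prop :=
  0 < θ ∧ (C : ℝ) * θ ≤ 1 ∧ 0 < l ∧ l ≤ θ ^ C ∧ (1 / l) ^ C ≤ ph ^ L ∧ (L : ℝ) * θ ≤ 1

/-- T0: on the disc of radius `θ^C/ρ_m` the window stays typical, `ρ` is almost constant -/
def Dist : Prop := ∃ C : ℕ, ∀ (m L : ℕ) (E0 E l θ : ℝ), OkT C θ l L → L ≤ m →
  Tw θ (m - L) (m + 8) E0 l → |E - E0| * rho m E0 l ≤ θ ^ C →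
  (∀ j, m - L ≤ j → j ≤ m + 8 → |tr j E l - tr j E0 l| ≤ θ ^ 4) ∧
  (∀ j, m - L ≤ j → j ≤ m → rho j E0 l ≤ 2 * rho j E l ∧ rho j E l ≤ 2 * rho j E0 l)

/-- T1: `v_m` is almost affine -/
def NearAff : Prop := ∃ C : ℕ, ∀ (m L : ℕ) (E0 l θ : ℝ), OkT C θ l L → L ≤ m →
  (∀ j ≤ m + 1, Cr j E0 l) → Tw θ (m - L) (m + 8) E0 l →
  ∃ β : ℝ,
    (∀ E, |E - E0| * rho m E0 l ≤ θ ^ C →
      θ ^ C * rho m E0 l * |vv m E l - vv m E0 l - β * (E - E0)| ≤ l) ∧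
    (∀ E E', |E - E0| * rho m E0 l ≤ θ ^ C → |E' - E0| * rho m E0 l ≤ θ ^ C →
      l ^ C * |vv m E l - vv m E' l - β * (E - E')| ≤ |E - E'|)

/-- T2: at typical points the velocities are close to `v_m` -/
def VTyp : Prop := ∃ C : ℕ, ∀ (m L K : ℕ) (E l θ : ℝ), OkT C θ l L → L ≤ m →
  |tr K E l| < 1 → m + L + 16 ≤ K →
  (Tw θ (m - L) (m + 8) E l → θ ^ C * rho m E l * |Vx m E l - vv m E l| ≤ l) ∧
  (Tw θ (m - L) (m + L + 8) E l → θ ^ C * rho m E l * |Vx K E l - vv m E l| ≤ l)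

/-- T3: the phase is almost linear on the disc -/
def ThLin : Prop := ∃ C : ℕ, ∀ (m : ℕ) (E0 l θ : ℝ), 0 < θ → (C : ℝ) * θ ≤ 1 → 0 < l → l ≤ θ ^ C →
  8 ≤ m → Tw θ (m - 8) (m + 8) E0 l →
  θ ^ C * rho m E0 l ≤ |trE m E0 l| ∧
  ∀ E1 E2, E1 ≤ E2 → |E1 - E0| * rho m E0 l ≤ θ ^ C → |E2 - E0| * rho m E0 l ≤ θ ^ C →
    (E2 - E1) * (|trE m E0 l| / √(1 - tr m E0 l ^ 2)) ≤ 2 * (Th m l E1 - Th m l E2) ∧
    Th m l E1 - Th m l E2 ≤ 2 * (E2 - E1) * (|trE m E0 l| / √(1 - tr m E0 l ^ 2))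

/-- T4: growth from above in typical windows -/
def GrUpTyp : Prop := ∃ C : ℕ, ∀ (n n' : ℕ) (E l θ : ℝ), 0 < θ → (C : ℝ) * θ ≤ 1 → 0 < l →
  l ≤ θ ^ C → 8 ≤ n → n ≤ n' → ((n' - n : ℕ) : ℝ) * θ ≤ 1 → Tw θ (n - 8) (n' + 8) E l →
  θ ^ C * rho n' E l ≤ ph ^ (n' - n) * rho n E l

/-- T4': growth from above in clean stretches -/
def GrUpClean : Prop := ∃ C : ℕ, ∀ (n n' : ℕ) (E l : ℝ), 0 < l → l ≤ 1 / 8 → 1 ≤ n → n ≤ n' →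
  (∀ j, n ≤ j → j ≤ n' + 2 → l ≤ 16 * (1 - tr j E l ^ 2) ^ 2 ∧ |tr j E l| < 1) →
  l ^ C * rho n' E l ≤ (ph * (1 + C * l)) ^ (n' - n) * rho n E l

/-- T5: lower bound for the slopes of all later phases, at all real points near `E0` -/
def TauLow : Prop := ∃ C : ℕ, ∀ (m : ℕ) (E0 E l θ : ℝ), 0 < θ → (C : ℝ) * θ ≤ 1 → 0 < l →
  l ≤ θ ^ C → 8 ≤ m → Tw θ (m - 8) (m + 8) E0 l → |E - E0| * rho m E0 l ≤ θ ^ C →
  ∀ j, m ≤ j → |tr j E l| < 1 →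
    θ ^ C * ph ^ (j - m) * rho m E0 l ≤ |trE j E l| / √(1 - tr j E l ^ 2)

/-- T6: exact recursions at elliptic triples. `sg j = sin Θ_j` -/
def sg (j : ℕ) (E l : ℝ) : ℝ := SignType.sign (trE j E l) * √(1 - tr j E l ^ 2)

def kap (l a b : ℝ) : ℝ := √(1 + l ^ 2 / (4 * a ^ 2 * b ^ 2))

/-- slope `τ_j = -Θ_j'` -/
def tau (j : ℕ) (E l : ℝ) : ℝ := |trE j E l| / √(1 - tr j E l ^ 2)

def TLrec : Prop := ∀ (n : ℕ) (E l : ℝ), 1 ≤ n → 0 < l →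
  |tr n E l| < 1 → |tr (n + 1) E l| < 1 → |tr (n + 2) E l| < 1 →
  tr (n + 2) E l = tr n E l * tr (n + 1) E l
      - sg n E l * sg (n + 1) E l * kap l (sg n E l) (sg (n + 1) E l) ∧
  kap l (sg n E l) (sg (n + 1) E l) * tau (n + 2) E l
    = kap l (sg (n + 1) E l) (sg (n + 2) E l) * tau n E l
      + kap l (sg n E l) (sg (n + 2) E l) * tau (n + 1) E l ∧
  kap l (sg n E l) (sg (n + 1) E l) * (tau (n + 2) E l * Vx (n + 2) E l)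
    = kap l (sg (n + 1) E l) (sg (n + 2) E l) * (tau n E l * Vx n E l)
      + kap l (sg n E l) (sg (n + 2) E l) * (tau (n + 1) E l * Vx (n + 1) E l)
      + l / (4 * sg n E l * sg (n + 1) E l * sg (n + 2) E l)

end

end FIB
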