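import Pool.Agent.Helper75.FIB.Iface

/-!
# FIB : interface propositions, part 2 (set `A`, growth, Frostman, local structure, kill lemma)
-/

namespace FIB

open Real MeasureTheory Set Filter Topology

noncomputable section

/-! ### module F : counting -/

/-- parameters `t` such that for all `n ≥ n1` at most `η n` of the numbers `sin π F_i t`, `i < n`,
are smaller than `η²` -/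
def Gd (η : ℝ) (n1 : ℕ) : Set ℝ := {t | t ∈ Ioo (0 : ℝ) 1 ∧ ∀ n, n1 ≤ n →
  (Set.ncard {i : ℕ | i < n ∧ |Real.sin (π * Nat.fib i * t)| < η ^ 2} : ℝ) ≤ η * n}

/-- F1 -/
def CountGood : Prop := ∃ η0 : ℝ, 0 < η0 ∧ ∀ η : ℝ, 0 < η → η < η0 → ∀ ε : ℝ, 0 < ε →
  ∃ n1 : ℕ, ∀ n2, n1 ≤ n2 → MeasurableSet (Gd η n2) ∧
    volume (Ioo (0 : ℝ) 1 \ Gd η n2) ≤ ENNReal.ofReal ε

/-! ### module H : growth on `A`, Frostman bound, good levels -/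

/-- H1: growth on the good set. The exponent loss is `C η log(1/l1)` -/
def GrowA : Prop := ∃ C : ℕ, ∀ (η l1 : ℝ) (n1 : ℕ), 0 < η → (C : ℝ) * η ≤ 1 → 0 < l1 →
  2 * l1 ≤ η ^ C → ∃ CA : ℝ, 1 ≤ CA ∧ ∀ (K n : ℕ) (l t : ℝ), l ∈ Icc l1 (2 * l1) → t ∈ Rg K →
    t ∈ Gd η n1 → n + 8 ≤ K →
    rho n (EK K l t) l ≤ CA * ph ^ ((n : ℝ) * (1 + C * η * Real.log (1 / l1)))

/-- H2: Frostman bound on the good set -/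
def FrostA : Prop := ∃ C : ℕ, ∀ (η l1 : ℝ) (n1 : ℕ), 0 < η → (C : ℝ) * η ≤ 1 → 0 < l1 →
  2 * l1 ≤ η ^ C → C * η * Real.log (1 / l1) ≤ 1 → ∃ CF : ℝ, 1 ≤ CF ∧ ∀ᶠ K : ℕ in atTop,
    ∀ l ∈ Icc l1 (2 * l1), ∀ (x r : ℝ), ph ^ (-(K : ℝ) / 2) ≤ r → r ≤ 1 →
      volume {t : ℝ | t ∈ Rg K ∧ t ∈ Gd η n1 ∧ |EK K l t - x| < r}
        ≤ ENNReal.ofReal (CF * r ^ (1 - C * η * Real.log (1 / l1)))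

/-- `E` is a good point at scale `ℓ`: there is a level `m` with `ρ_m ℓ ≈ θ^C1`, such that `E` is
`θ`-typical on `[m-L, m+8]`; moreover there is room above (`m + Lc + 16 ≤ K`) -/
def GoodAt (θ : ℝ) (C1 L Lc K : ℕ) (l E ℓ : ℝ) (m : ℕ) : Prop :=
  |tr K E l| < 1 ∧ L + 8 ≤ m ∧ m + Lc + 16 ≤ K ∧ rho m E l * ℓ ≤ θ ^ C1 ∧
    θ ^ C1 ≤ 9 * (rho m E l * ℓ) ∧ Tw θ (m - L) (m + 8) E l

/-- H3: most levels are good. `ℓ_n = Q^{-n}`. The number of the levels `n ∈ [n0, nt]` which are bad at `t` is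
at most `nt/10 + n0`. (Only for `nt` with `Q^nt ≤ ph^(K/2)`, so that all levels involved are `≤ K - Lc - 16`.) -/
def GoodLev : Prop := ∃ C : ℕ, ∀ (η l1 : ℝ) (n1 C1 : ℕ), 0 < η → (C : ℝ) * η ≤ 1 → 0 < l1 →
  2 * l1 ≤ η ^ C → ∀ (L Lc Q : ℕ), (9 : ℝ) ^ (2 * L + 20) ≤ Q → ((Q : ℝ)) ≤ ph ^ Lc →
    20 * Lc * η ≤ 1 → L + 20 ≤ Lc → ∃ n0 : ℕ, ∀ᶠ K : ℕ in atTop,
      ∀ (nt : ℕ) (l t : ℝ), l ∈ Icc l1 (2 * l1) → t ∈ Rg K → t ∈ Gd η n1 →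
        ((Q : ℝ)) ^ nt ≤ ph ^ ((K : ℝ) / 2) →
        (Set.ncard {n : ℕ | n ≤ nt ∧
          ¬ ∃ m, GoodAt (η ^ 2 / 2) C1 L Lc K l (EK K l t) ((Q : ℝ)⁻¹ ^ n) m} : ℝ)
          ≤ (nt : ℝ) / 10 + n0

/-! ### module J : local structure at a good point -/

/-- mass of the cell `[j ℓ/Q, (j+1) ℓ/Q)` -/
def cm (K : ℕ) (l ℓ : ℝ) (Q : ℕ) (j : ℤ) : ℝ :=
  NN K l ((j : ℝ) * (ℓ / Q)) - NN K l (((j : ℝ) + 1) * (ℓ / Q))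

/-- the cells in the window `|E - E0| ≤ 4 ℓ` -/
def wn (E0 ℓ : ℝ) (Q : ℕ) : Finset ℤ :=
  Finset.Icc ⌈(E0 - 4 * ℓ) * Q / ℓ⌉ ⌊(E0 + 4 * ℓ) * Q / ℓ⌋

/-- `t` is a regular parameter whose energy lies in cell `j` -/
def inCell (K : ℕ) (l ℓ : ℝ) (Q : ℕ) (j : ℤ) (t : ℝ) : Prop :=
  t ∈ Rg K ∧ (j : ℝ) * (ℓ / Q) ≤ EK K l t ∧ EK K l t < ((j : ℝ) + 1) * (ℓ / Q)

/-- local structure at scale `ℓ` around `E0`: affine approximation `β E + γ` of the velocity with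
error `err` on typical cells, deviation at least `big` on near-gap cells -/
structure LocData (K : ℕ) (l E0 ℓ : ℝ) (Q : ℕ) (β γ err big M μm δ κ : ℝ)
    (Ta Tb : Finset ℤ) : Prop where
  sub1 : Ta ⊆ Tb
  sub2 : Tb ⊆ wn E0 ℓ Q
  mupos : 0 < μm
  slope : |β| * ℓ ≤ 10
  typ_err : ∀ j ∈ Tb, ∀ t, inCell K l ℓ Q j t → |VK K l t - (β * EK K l t + γ)| ≤ err
  atyp_mass : ∑ j ∈ wn E0 ℓ Q \ Ta, cm K l ℓ Q j ≤ δ * μm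
  atyp_card : (((wn E0 ℓ Q \ Tb).card : ℕ) : ℝ) ≤ δ / M * Q
  typ_mass : ∀ j ∈ Ta, cm K l ℓ Q j ≤ M / Q * μm
  block_mass : ∀ a : ℤ, Finset.Ico a (a + Q) ⊆ wn E0 ℓ Q → μm ≤ ∑ j ∈ Finset.Ico a (a + Q), cm K l ℓ Q j
  near : ∀ a : ℤ, Finset.Ico a (a + Q) ⊆ wn E0 ℓ Q → ∃ Ng : Finset ℤ, Ng ⊆ Finset.Ico a (a + Q) ∧
    κ * ∑ j ∈ Finset.Ico a (a + Q), cm K l ℓ Q j ≤ ∑ j ∈ Ng, cm K l ℓ Q j ∧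
    ∀ j ∈ Ng, ∀ t, inCell K l ℓ Q j t → big ≤ |VK K l t - (β * EK K l t + γ)|

/-- J1: the local structure theorem -/
def LocP : Prop := ∃ C1 C2 C3 : ℕ, ∀ N1 : ℕ, C3 ≤ N1 → ∃ (N0 : ℕ) (θ0 : ℝ), 0 < θ0 ∧
  ∀ (θ l : ℝ), 0 < θ → θ < θ0 → 0 < l → l ≤ θ ^ N0 → ∀ (L Lc Q K m : ℕ),
    (1 / l) ^ N0 ≤ ph ^ L → (9 : ℝ) ^ (2 * L) * (1 / l) ^ N0 ≤ Q →
    (Q : ℝ) * (1 / l) ^ N0 ≤ ph ^ Lc → (Lc : ℝ) * θ ≤ 1 → ∀ (E0 ℓ : ℝ), 0 < ℓ → ℓ ≤ 1 →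
    GoodAt θ C1 L Lc K l E0 ℓ m →
    ∃ (β γ μm : ℝ) (Ta Tb : Finset ℤ),
      LocData K l E0 ℓ Q β γ (l * ℓ / θ ^ C3) (l * ℓ / θ ^ N1) (1 / θ ^ C2) μm θ (θ ^ (2 * N1))
        Ta Tb

/-- survivors: pairs of cells containing `t3,t4` (with `t2`) at which `g` and `g'` are small -/
def Sv (A : Set ℝ) (K : ℕ) (l : ℝ) (s E1 V1 ℓ' : ℝ) : Set (ℤ × ℤ) :=
  {p | ∃ t2 t3 t4, t2 ∈ A ∧ t3 ∈ A ∧ t4 ∈ A ∧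
    |E1 + EK K l t2 - EK K l t3 - EK K l t4| < 5 * s ^ 3 ∧
    |V1 + VK K l t2 - VK K l t3 - VK K l t4| < 4 * s ∧
    (p.1 : ℝ) * ℓ' ≤ EK K l t3 ∧ EK K l t3 < ((p.1 : ℝ) + 1) * ℓ' ∧
    (p.2 : ℝ) * ℓ' ≤ EK K l t4 ∧ EK K l t4 < ((p.2 : ℝ) + 1) * ℓ'}

/-- J2: the kill lemma (combinatorial) -/
def KillP : Prop := ∀ (A : Set ℝ) (K : ℕ) (l ℓ s E1 V1 err big M δ κ : ℝ) (Q : ℕ)
    (E2 E3 E4 β2 γ2 μ2 β3 γ3 μ3 β4 γ4 μ4 : ℝ) (Ta2 Tb2 Ta3 Tb3 Ta4 Tb4 : Finset ℤ) (a3 a4 : ℤ),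
  A ⊆ Rg K → 0 < ℓ → 0 < s → 0 < err → 1 ≤ M → 0 < δ → δ ≤ 1 / 100 → 0 < κ → κ ≤ 1 →
  100 * M ≤ Q → 2000 * M * err ≤ big → 4 * s ≤ err → 5 * s ^ 3 ≤ ℓ / Q → 50 * s ^ 3 ≤ err * ℓ →
  (∀ j : ℤ, 0 ≤ cm K l ℓ Q j) →
  LocData K l E2 ℓ Q β2 γ2 err big M μ2 δ κ Ta2 Tb2 →
  LocData K l E3 ℓ Q β3 γ3 err big M μ3 δ κ Ta3 Tb3 →
  LocData K l E4 ℓ Q β4 γ4 err big M μ4 δ κ Ta4 Tb4 →
  |E1 + E2 - E3 - E4| < 5 * s ^ 3 →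
  (a3 : ℝ) * ℓ ≤ E3 → E3 < ((a3 : ℝ) + 1) * ℓ → (a4 : ℝ) * ℓ ≤ E4 → E4 < ((a4 : ℝ) + 1) * ℓ →
  ∀ S : Finset (ℤ × ℤ), (∀ p ∈ S, p ∈ Sv A K l s E1 V1 (ℓ / Q)) →
    S ⊆ Finset.Ico (a3 * Q) (a3 * Q + Q) ×ˢ Finset.Ico (a4 * Q) (a4 * Q + Q) →
    ∑ p ∈ S, cm K l ℓ Q p.1 * cm K l ℓ Q p.2 ≤
      (1 - κ / 2) * ((∑ j ∈ Finset.Ico (a3 * Q) (a3 * Q + Q), cm K l ℓ Q j) *
        ∑ j ∈ Finset.Ico (a4 * Q) (a4 * Q + Q), cm K l ℓ Q j)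

end

/-- J3: abstract tree lemma. `w n p` weight of the node `p` of level `n`; `par p` the parent. -/
def TreeP : Prop := ∀ (ι : Type) [DecidableEq ι] (nt M : ℕ) (κ : ℝ) (par : ι → ι) (w : ℕ → ι → ℝ)
    (S : ℕ → Finset ι) (good : ℕ → ι → Prop), 0 ≤ κ → κ ≤ 1 →
  (∀ n p, 0 ≤ w n p) →
  (∀ n < nt, ∀ p ∈ S (n + 1), par p ∈ S n) →
  (∀ n < nt, ∀ p ∈ S n, ∑ q ∈ (S (n + 1)).filter (fun q => par q = p), w (n + 1) q ≤ w n p) →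
  (∀ n < nt, ∀ p ∈ S n, good n p →
    ∑ q ∈ (S (n + 1)).filter (fun q => par q = p), w (n + 1) q ≤ (1 - κ) * w n p) →
  (∀ p ∈ S nt, M ≤ Set.ncard {n : ℕ | n < nt ∧ good n (par^[nt - n] p)}) →
  ∑ p ∈ S nt, w nt p ≤ (1 - κ) ^ M * ∑ p ∈ S 0, w 0 p

end FIB
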