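import Pool.Agent.Helper75.FIB.Iface2

/-!
# FIB block J2 : the kill lemma

Notation: `ℓ' = ℓ/Q`, blocks `B3 = [a3Q, a3Q+Q)`, `B4` similarly, contained in `wn E3 ℓ Q`, `wn E4 ℓ Q` (|jℓ' - E3| <= ℓ), total masses `m3 = Σ_{B3} cm >= μ3`, `m4 >= μ4`. `Aff(e3,e4) = V1 + β2(e3+e4-E1) + γ2 - (β3e3+γ3) - (β4e4+γ4)`.
For a survivor pair `(j3,j4) ∈ S` with witnesses `t2,t3,t4`, energies `e2,e3,e4`: `|e3-E3| <= ℓ`, `|e4-E4| <= ℓ`, `|e2 - (e3+e4-E1)| < 5s^3`, `|e2 - E2| <= 2ℓ + 10 s^3 <= 4ℓ - ℓ'`, so `e2` lies in a cell `j2 ∈ wn E2 ℓ Q`, and `j2` is one of at most 7 integers determined by `j3+j4` (`|j2 - (j3 + j4 - E1/ℓ')| <= 3`).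
(1) pairs with `j3 ∉ Ta3`: mass `<= δ μ3 m4 <= m3 m4/100`; same for `j4 ∉ Ta4`. Pairs with `j3 ∈ Ta3`, `j4 ∈ Ta4` and some possible `j2 ∉ Tb2` (`j2 ∈ wn`): for fixed `j3` at most `7 (δ/M) Q` values `j4`, each of mass `<= (M/Q) μ4`: total `<= 7δ m3 μ4 <= 0.07 m3 m4`.
(2) for the remaining survivors (`j3 ∈ Ta3 ⊆ Tb3`, `j4 ∈ Ta4 ⊆ Tb4`, `j2 ∈ Tb2`): `|Aff(e3,e4)| <= 3 err + |β2| 5 s^3 + 4s <= 5 err` (`|β2|ℓ <= 10`, `50 s^3 <= err ℓ`).
CASE A: `|Aff| <= big/2` on the closed square `[a3ℓ,(a3+1)ℓ] × [a4ℓ,(a4+1)ℓ]`. Let `Ng ⊆ B3` be from `near` of the third data. A survivor with `j3 ∈ Ng`, `j4 ∈ Ta4`, all possible `j2 ∈ Tb2` would have `|g'| >= |V3 - aff3| - |Aff| - 2err - |β2|5s^3 >= big/2 - 3err > 4s`. So no such survivors; the mass of these pairs is `>= κ m3 (m4 - δμ4 - 7δμ4) >= κ m3 m4 (1 - 0.08)`; hence `Σ_S <= m3m4 (1 - κ/2)`.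
CASE B: `|Aff| > big/2` somewhere on the square. `p = (β2-β3)ℓ`, `r = (β2-β4)ℓ`: `Aff` varies by at most `|p| + |r|` on the square. If there is a survivor as in (2) then `|p|+|r| >= big/2 - 5err >= 0.4 big`; say `|p| >= |r|` (other case symmetric), `|p| >= big/5`. For fixed `j4` the `j3` of such survivors satisfy `|Aff(j3ℓ',j4ℓ')| <= 5err + (|p|+|r|)/Q <= 5err + 2|p|/Q`, so they lie in an interval of
length `2Q(5err + 2|p|/Q)/|p|`, at most `50 Q err/big + 5` integers, all in `Ta3`: mass `<= (50Qerr/big + 5)(M/Q)μ3 <= (50/2000 + 5/100) m3`. Total mass of survivors `<= (0.02 + 0.07 + 0.075) m3m4 <= m3m4/2 <= (1-κ/2) m3m4`.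
-/

namespace FIB

open Real MeasureTheory Set Filter Topology


theorem h85_mem_wn {E0 ℓ : ℝ} {Q : ℕ} (hℓ : 0 < ℓ) (hQ : 0 < Q) (j : ℤ) :
    j ∈ wn E0 ℓ Q ↔ E0 - 4 * ℓ ≤ j * (ℓ / Q) ∧ (j : ℝ) * (ℓ / Q) ≤ E0 + 4 * ℓ := by
  have hQ' : (0 : ℝ) < Q := by exact_mod_cast hQ
  unfold wn
  rw [Finset.mem_Icc, Int.ceil_le, Int.le_floor, div_le_iff₀ hℓ, le_div_iff₀ hℓ, mul_div_assoc',
    le_div_iff₀ hQ', div_le_iff₀ hQ']

theorem h85_block {a j : ℤ} {ℓ : ℝ} {Q : ℕ} (hℓ : 0 < ℓ) (hQ : 0 < Q)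
    (hj : j ∈ Finset.Ico (a * Q) (a * Q + Q)) :
    (a : ℝ) * ℓ ≤ j * (ℓ / Q) ∧ ((j : ℝ) + 1) * (ℓ / Q) ≤ ((a : ℝ) + 1) * ℓ := by
  have hQ' : (0 : ℝ) < Q := by exact_mod_cast hQ
  rw [Finset.mem_Ico] at hj
  have h1 : (a : ℝ) * Q ≤ j := by exact_mod_cast hj.1
  have h2 : (j : ℝ) + 1 ≤ a * Q + Q := by exact_mod_cast hj.2
  have h0 : 0 < ℓ / Q := by positivity
  constructor
  · calc (a : ℝ) * ℓ = (a * Q) * (ℓ / Q) := by field_simp
      _ ≤ _ := mul_le_mul_of_nonneg_right h1 h0.le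
  · calc ((j : ℝ) + 1) * (ℓ / Q) ≤ (a * Q + Q) * (ℓ / Q) := mul_le_mul_of_nonneg_right h2 h0.le
      _ = _ := by field_simp

theorem h85_block_wn {a : ℤ} {E0 ℓ : ℝ} {Q : ℕ} (hℓ : 0 < ℓ) (hQ : 0 < Q)
    (h1 : (a : ℝ) * ℓ ≤ E0) (h2 : E0 < ((a : ℝ) + 1) * ℓ) :
    Finset.Ico (a * Q) (a * Q + Q) ⊆ wn E0 ℓ Q := by
  intro j hj
  have hQ' : (0 : ℝ) < Q := by exact_mod_cast hQ
  have h0 : 0 < ℓ / Q := by positivity
  obtain ⟨h3, h4⟩ := h85_block hℓ hQ hj
  rw [h85_mem_wn hℓ hQ]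
  constructor <;> linarith

/-- a finite set of integers of diameter at most `D` -/
theorem h85_card_diam (F : Finset ℤ) (D : ℝ) (hD0 : 0 ≤ D)
    (h : ∀ a ∈ F, ∀ b ∈ F, (a : ℝ) - b ≤ D) : (F.card : ℝ) ≤ D + 1 := by
  rcases F.eq_empty_or_nonempty with hF | hF
  · subst hF
    simp
    linarith
  · have hsub : F ⊆ Finset.Icc (F.min' hF) (F.max' hF) := by
      intro x hx
      rw [Finset.mem_Icc]
      exact ⟨F.min'_le x hx, F.le_max' x hx⟩
    have h1 := Finset.card_le_card hsub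
    rw [Int.card_Icc] at h1
    have h2 := h _ (F.max'_mem hF) _ (F.min'_mem hF)
    have h3 : F.min' hF ≤ F.max' hF := F.min'_le _ (F.max'_mem hF)
    have h4 : ((F.max' hF + 1 - F.min' hF).toNat : ℝ) = (F.max' hF : ℝ) + 1 - F.min' hF := by
      have : ((F.max' hF + 1 - F.min' hF).toNat : ℤ) = F.max' hF + 1 - F.min' hF :=
        Int.toNat_of_nonneg (by omega)
      exact_mod_cast this
    have h5 : (F.card : ℝ) ≤ ((F.max' hF + 1 - F.min' hF).toNat : ℝ) := by exact_mod_cast h1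
    linarith

theorem h85_strip (T : Finset (ℤ × ℤ)) (B : Finset ℤ) (c : ℤ → ℝ) (hc : ∀ j, 0 ≤ c j) (w D : ℝ)
    (hw0 : 0 ≤ w) (hD0 : 0 ≤ D) (hT : ∀ p ∈ T, p.2 ∈ B) (hw : ∀ p ∈ T, c p.1 ≤ w)
    (hD : ∀ p ∈ T, ∀ p' ∈ T, p.2 = p'.2 → (p.1 : ℝ) - p'.1 ≤ D) :
    ∑ p ∈ T, c p.1 * c p.2 ≤ (D + 1) * w * ∑ j ∈ B, c j := by
  classical
  rw [← Finset.sum_fiberwise_of_maps_to hT, Finset.mul_sum]
  refine Finset.sum_le_sum fun j hj => ?_
  have h1 : ∀ p ∈ T.filter (fun p => p.2 = j), c p.1 * c p.2 ≤ w * c j := by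
    intro p hp
    rw [Finset.mem_filter] at hp
    rw [hp.2]
    exact mul_le_mul_of_nonneg_right (hw p hp.1) (hc j)
  have h2 := Finset.sum_le_card_nsmul _ _ _ h1
  rw [nsmul_eq_mul] at h2
  have h3 : ((T.filter (fun p => p.2 = j)).card : ℝ) ≤ D + 1 := by
    have hinj : Set.InjOn (fun p : ℤ × ℤ => p.1) (T.filter (fun p => p.2 = j) : Finset (ℤ × ℤ)) := by
      intro p hp p' hp' hpp
      simp only [Finset.coe_filter, Set.mem_setOf_eq] at hp hp'
      exact Prod.ext hpp (hp.2.trans hp'.2.symm)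
    rw [← Finset.card_image_of_injOn hinj]
    refine h85_card_diam _ D hD0 ?_
    intro a ha b hb
    rw [Finset.mem_image] at ha hb
    obtain ⟨p, hp, rfl⟩ := ha
    obtain ⟨p', hp', rfl⟩ := hb
    rw [Finset.mem_filter] at hp hp'
    exact hD p hp.1 p' hp'.1 (hp.2.trans hp'.2.symm)
  calc ∑ p ∈ T.filter (fun p => p.2 = j), c p.1 * c p.2 ≤ _ := h2
    _ ≤ (D + 1) * (w * c j) := mul_le_mul_of_nonneg_right h3 (mul_nonneg hw0 (hc j))
    _ = _ := by ring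

theorem h85_card_near (Y W : Finset ℤ) (x : ℝ)
    (hY : ∀ j ∈ Y, ∃ i ∈ W, |(i : ℝ) - (j + x)| < 3) : (Y.card : ℝ) ≤ 7 * W.card := by
  classical
  have hsub : Y ⊆ W.biUnion (fun i => Finset.Icc ⌈(i : ℝ) - x - 3⌉ ⌊(i : ℝ) - x + 3⌋) := by
    intro j hj
    obtain ⟨i, hi, h⟩ := hY j hj
    rw [Finset.mem_biUnion]
    rw [abs_lt] at h
    refine ⟨i, hi, ?_⟩
    rw [Finset.mem_Icc, Int.ceil_le, Int.le_floor]
    constructor <;> linarith
  have h1 := (Finset.card_le_card hsub).trans (Finset.card_biUnion_le_card_mul W _ 7 (fun i _ => by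
    rw [Int.card_Icc]
    have h2 := Int.le_ceil ((i : ℝ) - x - 3)
    have h3 := Int.floor_le ((i : ℝ) - x + 3)
    have h4 : ((⌊(i : ℝ) - x + 3⌋ : ℤ) : ℝ) + 1 - ((⌈(i : ℝ) - x - 3⌉ : ℤ) : ℝ) ≤ 7 := by linarith
    have h5 : ⌊(i : ℝ) - x + 3⌋ + 1 - ⌈(i : ℝ) - x - 3⌉ ≤ 7 := by exact_mod_cast h4
    omega))
  have h6 : (Y.card : ℝ) ≤ ((W.card * 7 : ℕ) : ℝ) := by exact_mod_cast h1
  push_cast at h6
  linarith

theorem killP : KillP := by
  classical
  intro A K l ℓ s E1 V1 err big M δ κ Q E2 E3 E4 β2 γ2 μ2 β3 γ3 μ3 β4 γ4 μ4 Ta2 Tb2 Ta3 Tb3 Ta4 Tb4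
    a3 a4 hA hℓ hs herr hM hδ0 hδ hκ0 hκ hMQ hbig hserr hsQ hserr2 hcm D2 D3 D4 hE ha3 ha3' ha4 ha4'
    S hS hSB
  have hQ : (0 : ℝ) < Q := by linarith
  have hQn : 0 < Q := by exact_mod_cast hQ
  have hQ100 : (100 : ℝ) ≤ Q := by linarith
  have hℓ' : 0 < ℓ / Q := by positivity
  have hℓ'ℓ : ℓ / Q ≤ ℓ / 100 := by
    rw [div_le_div_iff₀ hQ (by norm_num)]
    nlinarith
  have hbig0 : 0 < big := lt_of_lt_of_le (by positivity) hbig
  have hbigerr : 2000 * err ≤ big := by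
    have h1 : 1 * err ≤ M * err := mul_le_mul_of_nonneg_right hM herr.le
    linarith
  set c : ℤ → ℝ := cm K l ℓ Q with hc
  set B3 : Finset ℤ := Finset.Ico (a3 * Q) (a3 * Q + Q) with hB3
  set B4 : Finset ℤ := Finset.Ico (a4 * Q) (a4 * Q + Q) with hB4
  have hB3w : B3 ⊆ wn E3 ℓ Q := h85_block_wn hℓ hQn ha3 ha3'
  have hB4w : B4 ⊆ wn E4 ℓ Q := h85_block_wn hℓ hQn ha4 ha4'
  set m3 : ℝ := ∑ j ∈ B3, c j with hm3
  set m4 : ℝ := ∑ j ∈ B4, c j with hm4
  have hμ3 : μ3 ≤ m3 := D3.block_mass (a3 * Q) hB3w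
  have hμ4 : μ4 ≤ m4 := D4.block_mass (a4 * Q) hB4w
  have hμ30 := D3.mupos
  have hμ40 := D4.mupos
  have hm30 : 0 < m3 := lt_of_lt_of_le hμ30 hμ3
  have hm40 : 0 < m4 := lt_of_lt_of_le hμ40 hμ4
  -- the affine function
  set Aff : ℝ → ℝ → ℝ := fun x y => V1 + (β2 * (x + y - E1) + γ2) - (β3 * x + γ3) - (β4 * y + γ4)
    with hAff
  -- the bad pairs
  set bad : ℤ → ℤ → Prop := fun j3 j4 => ∃ i ∈ wn E2 ℓ Q \ Tb2,
    |(i : ℝ) - (j4 + (j3 - E1 / (ℓ / Q)))| < 3 with hbad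
  have hβ2 : |β2| * (5 * s ^ 3) ≤ err := by
    have h1 := D2.slope
    have h2 : |β2| * (5 * s ^ 3) * ℓ ≤ err * ℓ := by
      calc |β2| * (5 * s ^ 3) * ℓ = (|β2| * ℓ) * (5 * s ^ 3) := by ring
        _ ≤ 10 * (5 * s ^ 3) := mul_le_mul_of_nonneg_right h1 (by positivity)
        _ ≤ err * ℓ := by linarith
    exact le_of_mul_le_mul_right h2 hℓ
  -- the witnesses
  have wit : ∀ p ∈ S, p.2 ∈ Ta4 → ¬ bad p.1 p.2 → ∃ t3 e3 e4 : ℝ, e3 = EK K l t3 ∧
      inCell K l ℓ Q p.1 t3 ∧ (p.1 : ℝ) * (ℓ / Q) ≤ e3 ∧ e3 < ((p.1 : ℝ) + 1) * (ℓ / Q) ∧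
      (p.2 : ℝ) * (ℓ / Q) ≤ e4 ∧ e4 < ((p.2 : ℝ) + 1) * (ℓ / Q) ∧
      |VK K l t3 - (β3 * e3 + γ3) - Aff e3 e4| ≤ 4 * err := by
    intro p hp hp4 hpb
    obtain ⟨t2, t3, t4, h2, h3, h4, hg, hg', h31, h32, h41, h42⟩ := hS p hp
    have hpB := hSB hp
    rw [Finset.mem_product] at hpB
    obtain ⟨hb31, hb32⟩ := h85_block hℓ hQn hpB.1
    obtain ⟨hb41, hb42⟩ := h85_block hℓ hQn hpB.2
    set e2 := EK K l t2 with he2
    set e3 := EK K l t3 with he3
    set e4 := EK K l t4 with he4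
    rw [abs_lt] at hg hE
    -- the cell of `e2`
    have hfl := Int.floor_le (e2 / (ℓ / Q))
    have hfl' := Int.lt_floor_add_one (e2 / (ℓ / Q))
    set j2 : ℤ := ⌊e2 / (ℓ / Q)⌋ with hj2
    rw [le_div_iff₀ hℓ'] at hfl
    rw [div_lt_iff₀ hℓ'] at hfl'
    have hin2 : inCell K l ℓ Q j2 t2 := ⟨hA h2, hfl, hfl'⟩
    have hj2w : j2 ∈ wn E2 ℓ Q := by
      rw [h85_mem_wn hℓ hQn]
      constructor <;> linarith
    have hj2T : j2 ∈ Tb2 := by
      by_contra hcon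
      apply hpb
      refine ⟨j2, Finset.mem_sdiff.2 ⟨hj2w, hcon⟩, ?_⟩
      have hx : ((j2 : ℝ) - ((p.2 : ℝ) + ((p.1 : ℝ) - E1 / (ℓ / Q)))) * (ℓ / Q) =
          j2 * (ℓ / Q) - p.2 * (ℓ / Q) - p.1 * (ℓ / Q) + E1 := by
        field_simp
        ring
      have h7 : ((j2 : ℝ) - ((p.2 : ℝ) + ((p.1 : ℝ) - E1 / (ℓ / Q)))) * (ℓ / Q) < 3 * (ℓ / Q) := by
        rw [hx]
        linarith
      have h8 : -3 * (ℓ / Q) < ((j2 : ℝ) - ((p.2 : ℝ) + ((p.1 : ℝ) - E1 / (ℓ / Q)))) * (ℓ / Q) := by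
        rw [hx]
        linarith
      rw [abs_lt]
      exact ⟨lt_of_mul_lt_mul_right h8 hℓ'.le, lt_of_mul_lt_mul_right h7 hℓ'.le⟩
    have hv2 := D2.typ_err j2 hj2T t2 hin2
    have hv4 := D4.typ_err p.2 (D4.sub1 hp4) t4 ⟨hA h4, h41, h42⟩
    have hb2 : |β2 * (e2 - (e3 + e4 - E1))| ≤ err := by
      rw [abs_mul]
      refine le_trans (mul_le_mul_of_nonneg_left ?_ (abs_nonneg _)) hβ2
      rw [abs_le]
      constructor <;> linarith
    refine ⟨t3, e3, e4, rfl, ⟨hA h3, h31, h32⟩, h31, h32, h41, h42, ?_⟩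
    rw [abs_le] at hv2 hv4 hb2 ⊢
    rw [abs_lt] at hg'
    simp only [hAff]
    constructor <;> linarith
  -- masses of the exceptional sets
  have hδμ3 : δ * μ3 ≤ 1 / 100 * m3 := mul_le_mul hδ hμ3 hμ30.le (by norm_num)
  have hδμ4 : δ * μ4 ≤ 1 / 100 * m4 := mul_le_mul hδ hμ4 hμ40.le (by norm_num)
  have hcc : ∀ p : ℤ × ℤ, 0 ≤ c p.1 * c p.2 := fun p => mul_nonneg (hcm _) (hcm _)
  have hprod : ∑ p ∈ B3 ×ˢ B4, c p.1 * c p.2 = m3 * m4 := by
    rw [Finset.sum_product, Finset.sum_mul_sum]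
  have hat3 : ∑ j ∈ B3.filter (fun j => j ∉ Ta3), c j ≤ δ * μ3 := by
    refine le_trans (Finset.sum_le_sum_of_subset_of_nonneg ?_ fun j _ _ => hcm j) D3.atyp_mass
    intro j hj
    rw [Finset.mem_filter] at hj
    exact Finset.mem_sdiff.2 ⟨hB3w hj.1, hj.2⟩
  have hat4 : ∑ j ∈ B4.filter (fun j => j ∉ Ta4), c j ≤ δ * μ4 := by
    refine le_trans (Finset.sum_le_sum_of_subset_of_nonneg ?_ fun j _ _ => hcm j) D4.atyp_mass
    intro j hj
    rw [Finset.mem_filter] at hj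
    exact Finset.mem_sdiff.2 ⟨hB4w hj.1, hj.2⟩
  have hbadm : ∀ j3 : ℤ, ∑ j ∈ B4.filter (fun j => j ∈ Ta4 ∧ bad j3 j), c j ≤ 7 * δ * μ4 := by
    intro j3
    have h1 : ∀ j ∈ B4.filter (fun j => j ∈ Ta4 ∧ bad j3 j), c j ≤ M / Q * μ4 := by
      intro j hj
      rw [Finset.mem_filter] at hj
      exact D4.typ_mass j hj.2.1
    have h2 := Finset.sum_le_card_nsmul _ _ _ h1
    rw [nsmul_eq_mul] at h2
    have h3 := h85_card_near (B4.filter (fun j => j ∈ Ta4 ∧ bad j3 j)) (wn E2 ℓ Q \ Tb2)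
      (j3 - E1 / (ℓ / Q)) (fun j hj => by
        rw [Finset.mem_filter] at hj
        exact hj.2.2)
    have h4 := D2.atyp_card
    refine h2.trans ?_
    calc ((B4.filter (fun j => j ∈ Ta4 ∧ bad j3 j)).card : ℝ) * (M / Q * μ4)
        ≤ (7 * (δ / M * Q)) * (M / Q * μ4) := by
          refine mul_le_mul_of_nonneg_right (h3.trans (by linarith)) (by positivity)
      _ = 7 * δ * μ4 := by field_simp
  have hS1 : ∑ p ∈ (B3 ×ˢ B4).filter (fun p => p.1 ∉ Ta3), c p.1 * c p.2 ≤ 1 / 100 * (m3 * m4) := by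
    have : (B3 ×ˢ B4).filter (fun p => p.1 ∉ Ta3) = (B3.filter (fun j => j ∉ Ta3)) ×ˢ B4 := by
      ext p
      simp only [Finset.mem_filter, Finset.mem_product]
      tauto
    rw [this, Finset.sum_product, ← Finset.sum_mul_sum]
    calc (∑ j ∈ B3.filter (fun j => j ∉ Ta3), c j) * m4 ≤ (δ * μ3) * m4 :=
          mul_le_mul_of_nonneg_right hat3 hm40.le
      _ ≤ (1 / 100 * m3) * m4 := mul_le_mul_of_nonneg_right (mul_le_mul hδ hμ3 hμ30.le (by norm_num)) hm40.le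
      _ = _ := by ring
  have hS2 : ∑ p ∈ (B3 ×ˢ B4).filter (fun p => p.2 ∉ Ta4), c p.1 * c p.2 ≤ 1 / 100 * (m3 * m4) := by
    have : (B3 ×ˢ B4).filter (fun p => p.2 ∉ Ta4) = B3 ×ˢ (B4.filter (fun j => j ∉ Ta4)) := by
      ext p
      simp only [Finset.mem_filter, Finset.mem_product]
      tauto
    rw [this, Finset.sum_product, ← Finset.sum_mul_sum]
    calc m3 * (∑ j ∈ B4.filter (fun j => j ∉ Ta4), c j) ≤ m3 * (δ * μ4) :=
          mul_le_mul_of_nonneg_left hat4 hm30.le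
      _ ≤ m3 * (1 / 100 * m4) := mul_le_mul_of_nonneg_left (mul_le_mul hδ hμ4 hμ40.le (by norm_num)) hm30.le
      _ = _ := by ring
  have hS3 : ∑ p ∈ (B3 ×ˢ B4).filter (fun p => p.2 ∈ Ta4 ∧ bad p.1 p.2), c p.1 * c p.2 ≤
      7 / 100 * (m3 * m4) := by
    have : ∑ p ∈ (B3 ×ˢ B4).filter (fun p => p.2 ∈ Ta4 ∧ bad p.1 p.2), c p.1 * c p.2 =
        ∑ j3 ∈ B3, c j3 * ∑ j4 ∈ B4.filter (fun j => j ∈ Ta4 ∧ bad j3 j), c j4 := by
      rw [Finset.sum_filter, Finset.sum_product]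
      refine Finset.sum_congr rfl fun j3 _ => ?_
      rw [Finset.mul_sum, Finset.sum_filter]
    rw [this]
    calc ∑ j3 ∈ B3, c j3 * ∑ j4 ∈ B4.filter (fun j => j ∈ Ta4 ∧ bad j3 j), c j4
        ≤ ∑ j3 ∈ B3, c j3 * (7 / 100 * m4) := by
          refine Finset.sum_le_sum fun j3 _ => mul_le_mul_of_nonneg_left ?_ (hcm j3)
          refine (hbadm j3).trans ?_
          linarith
      _ = _ := by rw [← Finset.sum_mul]; ring
  have hm34 : 0 < m3 * m4 := mul_pos hm30 hm40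
  by_cases hcase : ∀ x y : ℝ, (a3 : ℝ) * ℓ ≤ x → x ≤ ((a3 : ℝ) + 1) * ℓ → (a4 : ℝ) * ℓ ≤ y →
      y ≤ ((a4 : ℝ) + 1) * ℓ → |Aff x y| ≤ big / 2
  · -- case A
    obtain ⟨Ng, hNg, hNgm, hNgv⟩ := D3.near (a3 * Q) hB3w
    set R := (B3 ×ˢ B4).filter (fun p => p.1 ∈ Ng ∧ p.2 ∈ Ta4 ∧ ¬ bad p.1 p.2) with hR
    have hdisj : S ⊆ (B3 ×ˢ B4) \ R := by
      intro p hp
      rw [Finset.mem_sdiff]
      refine ⟨hSB hp, fun hpR => ?_⟩
      rw [hR, Finset.mem_filter] at hpR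
      obtain ⟨t3, e3, e4, he, hin, h31, h32, h41, h42, hV⟩ := wit p hp hpR.2.2.1 hpR.2.2.2
      have hpB := hSB hp
      rw [Finset.mem_product] at hpB
      obtain ⟨hb31, hb32⟩ := h85_block hℓ hQn hpB.1
      obtain ⟨hb41, hb42⟩ := h85_block hℓ hQn hpB.2
      have h1 := hNgv p.1 hpR.2.1 t3 hin
      rw [← he] at h1
      have h2 := hcase e3 e4 (by linarith) (by linarith) (by linarith) (by linarith)
      have h3 := abs_sub_abs_le_abs_sub (VK K l t3 - (β3 * e3 + γ3)) (Aff e3 e4)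
      linarith
    have h1 : ∑ p ∈ S, c p.1 * c p.2 ≤ m3 * m4 - ∑ p ∈ R, c p.1 * c p.2 := by
      have h2 := Finset.sum_le_sum_of_subset_of_nonneg hdisj fun p _ _ => hcc p
      have h3 := Finset.sum_sdiff (f := fun p : ℤ × ℤ => c p.1 * c p.2)
        (Finset.filter_subset (fun p : ℤ × ℤ => p.1 ∈ Ng ∧ p.2 ∈ Ta4 ∧ ¬ bad p.1 p.2) (B3 ×ˢ B4))
      rw [hprod] at h3
      rw [hR] at h2 ⊢
      linarith
    have h2 : ∑ p ∈ R, c p.1 * c p.2 =
        ∑ j3 ∈ Ng, c j3 * ∑ j4 ∈ B4.filter (fun j => j ∈ Ta4 ∧ ¬ bad j3 j), c j4 := by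
      rw [hR, Finset.sum_filter, Finset.sum_product]
      have h3 : ∀ j3 ∈ B3, (∑ y ∈ B4, if (j3, y).1 ∈ Ng ∧ (j3, y).2 ∈ Ta4 ∧ ¬ bad (j3, y).1 (j3, y).2
          then c (j3, y).1 * c (j3, y).2 else 0) = if j3 ∈ Ng then
            c j3 * ∑ j4 ∈ B4.filter (fun j => j ∈ Ta4 ∧ ¬ bad j3 j), c j4 else 0 := by
        intro j3 _
        split_ifs with h
        · rw [Finset.mul_sum, Finset.sum_filter]
          refine Finset.sum_congr rfl fun y _ => ?_
          simp only [h, true_and]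
        · refine Finset.sum_eq_zero fun y _ => ?_
          simp only [h, false_and, if_false]
      rw [Finset.sum_congr rfl h3, ← Finset.sum_filter]
      congr 1
      ext j
      rw [Finset.mem_filter]
      exact ⟨fun h => h.2, fun h => ⟨hNg h, h⟩⟩
    have h3 : ∀ j3 : ℤ, 92 / 100 * m4 ≤ ∑ j4 ∈ B4.filter (fun j => j ∈ Ta4 ∧ ¬ bad j3 j), c j4 := by
      intro j3
      have h4 : m4 ≤ ∑ j4 ∈ B4.filter (fun j => j ∈ Ta4 ∧ ¬ bad j3 j), c j4 +
          ∑ j4 ∈ B4.filter (fun j => j ∈ Ta4 ∧ bad j3 j), c j4 +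
          ∑ j4 ∈ B4.filter (fun j => j ∉ Ta4), c j4 := by
        rw [Finset.sum_filter, Finset.sum_filter, Finset.sum_filter, ← Finset.sum_add_distrib,
          ← Finset.sum_add_distrib]
        refine Finset.sum_le_sum fun j _ => ?_
        have := hcm j
        by_cases h5 : j ∈ Ta4 <;> by_cases h6 : bad j3 j <;> simp [h5, h6]
      have h5 := hbadm j3
      linarith
    have h4 : 92 / 100 * m4 * (κ * m3) ≤ ∑ p ∈ R, c p.1 * c p.2 := by
      rw [h2]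
      calc 92 / 100 * m4 * (κ * m3) ≤ 92 / 100 * m4 * ∑ j ∈ Ng, c j :=
            mul_le_mul_of_nonneg_left hNgm (by positivity)
        _ = ∑ j3 ∈ Ng, c j3 * (92 / 100 * m4) := by rw [← Finset.sum_mul]; ring
        _ ≤ _ := Finset.sum_le_sum fun j3 _ => mul_le_mul_of_nonneg_left (h3 j3) (hcm j3)
    have h5 : 0 < κ * (m3 * m4) := mul_pos hκ0 hm34
    linarith
  · -- case B
    push Not at hcase
    obtain ⟨x0, y0, hx1, hx2, hy1, hy2, hxy⟩ := hcase
    set S' := S.filter (fun p => p.1 ∈ Ta3 ∧ p.2 ∈ Ta4 ∧ ¬ bad p.1 p.2) with hS'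
    have hS'm : ∑ p ∈ S', c p.1 * c p.2 ≤ 6 / 100 * (m3 * m4) := by
      rcases S'.eq_empty_or_nonempty with hemp | ⟨p0, hp0⟩
      · rw [hemp, Finset.sum_empty]
        positivity
      -- witnesses with small `Aff`
      have wit' : ∀ p ∈ S', ∃ e3 e4 : ℝ,
          (p.1 : ℝ) * (ℓ / Q) ≤ e3 ∧ e3 < ((p.1 : ℝ) + 1) * (ℓ / Q) ∧
          (p.2 : ℝ) * (ℓ / Q) ≤ e4 ∧ e4 < ((p.2 : ℝ) + 1) * (ℓ / Q) ∧ |Aff e3 e4| ≤ 5 * err := by
        intro p hp
        rw [hS', Finset.mem_filter] at hp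
        obtain ⟨t3, e3, e4, he, hin, h31, h32, h41, h42, hV⟩ := wit p hp.1 hp.2.2.1 hp.2.2.2
        have hv3 := D3.typ_err p.1 (D3.sub1 hp.2.1) t3 hin
        rw [← he] at hv3
        refine ⟨e3, e4, h31, h32, h41, h42, ?_⟩
        rw [abs_le] at hv3 hV ⊢
        constructor <;> linarith
      have hAffsub : ∀ x y x' y' : ℝ, Aff x y - Aff x' y' = (β2 - β3) * (x - x') + (β2 - β4) * (y - y') := by
        intro x y x' y'
        simp only [hAff]
        ring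
      have hpB : ∀ p ∈ S', p.1 ∈ B3 ∧ p.2 ∈ B4 := by
        intro p hp
        rw [hS', Finset.mem_filter] at hp
        have := hSB hp.1
        rwa [Finset.mem_product] at this
      have hsum : 49 / 100 * big ≤ |β2 - β3| * ℓ + |β2 - β4| * ℓ := by
        obtain ⟨e3, e4, h31, h32, h41, h42, hV⟩ := wit' p0 hp0
        obtain ⟨hb31, hb32⟩ := h85_block hℓ hQn (hpB p0 hp0).1
        obtain ⟨hb41, hb42⟩ := h85_block hℓ hQn (hpB p0 hp0).2
        have h1 : |(β2 - β3) * (x0 - e3)| ≤ |β2 - β3| * ℓ := by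
          rw [abs_mul]
          refine mul_le_mul_of_nonneg_left ?_ (abs_nonneg _)
          rw [abs_le]
          constructor <;> linarith
        have h2 : |(β2 - β4) * (y0 - e4)| ≤ |β2 - β4| * ℓ := by
          rw [abs_mul]
          refine mul_le_mul_of_nonneg_left ?_ (abs_nonneg _)
          rw [abs_le]
          constructor <;> linarith
        have h3 := abs_add_le ((β2 - β3) * (x0 - e3)) ((β2 - β4) * (y0 - e4))
        rw [← hAffsub] at h3
        have h4 := abs_sub_abs_le_abs_sub (Aff x0 y0) (Aff e3 e4)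
        linarith
      have hcardpos : ∀ P : ℝ, 24 / 100 * big ≤ P → 10 * err * Q / P ≤ 21 / 1000 * Q / M := by
        intro P hP
        have hP0 : 0 < P := by linarith
        rw [div_le_div_iff₀ hP0 (by linarith)]
        have h1 : 2000 * M * err * (24 / 100) ≤ P := by linarith
        have h2 := mul_le_mul_of_nonneg_left h1 hQ.le
        have h3 := mul_pos hQ hP0
        linarith
      by_cases hpr : |β2 - β4| ≤ |β2 - β3|
      · -- fibres in the first coordinate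
        have hP : 24 / 100 * big ≤ |β2 - β3| * ℓ := by
          have := mul_le_mul_of_nonneg_right hpr hℓ.le
          linarith
        have hP0 : 0 < |β2 - β3| * ℓ := by linarith
        have h1 := h85_strip S' B4 c hcm (M / Q * μ3) (21 / 1000 * Q / M + 2) (by positivity)
          (by positivity) (fun p hp => (hpB p hp).2) (fun p hp => by
            rw [hS', Finset.mem_filter] at hp
            exact D3.typ_mass p.1 hp.2.1) (fun p hp p' hp' hpp => by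
            obtain ⟨e3, e4, h31, h32, h41, h42, hV⟩ := wit' p hp
            obtain ⟨f3, f4, g31, g32, g41, g42, hW⟩ := wit' p' hp'
            rw [← hpp] at g41 g42
            have h3 : |(β2 - β3) * (e3 - f3)| ≤ 10 * err + |β2 - β3| * (ℓ / Q) := by
              have h4 : |(β2 - β4) * (e4 - f4)| ≤ |β2 - β3| * (ℓ / Q) := by
                rw [abs_mul]
                refine mul_le_mul hpr ?_ (abs_nonneg _) (abs_nonneg _)
                rw [abs_le]
                constructor <;> linarith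
              have h5 := hAffsub e3 e4 f3 f4
              have h6 : (β2 - β3) * (e3 - f3) = Aff e3 e4 - Aff f3 f4 - (β2 - β4) * (e4 - f4) := by
                linarith
              rw [h6]
              rw [abs_le] at hV hW h4 ⊢
              constructor <;> linarith
            rw [abs_mul] at h3
            have h4 : e3 - f3 ≤ |e3 - f3| := le_abs_self _
            have h5 : ((p.1 : ℝ) - p'.1 - 1) * (ℓ / Q) ≤ e3 - f3 := by linarith
            have h6 : ((p.1 : ℝ) - p'.1 - 1) * (ℓ / Q) ≤ |e3 - f3| := h5.trans h4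
            have h7 : |β2 - β3| * (((p.1 : ℝ) - p'.1 - 1) * (ℓ / Q)) ≤
                10 * err + |β2 - β3| * (ℓ / Q) :=
              (mul_le_mul_of_nonneg_left h6 (abs_nonneg _)).trans h3
            have h8 : (|β2 - β3| * ℓ) * ((p.1 : ℝ) - p'.1 - 2) ≤ 10 * err * Q := by
              have h9 : |β2 - β3| * (((p.1 : ℝ) - p'.1 - 1) * (ℓ / Q)) - |β2 - β3| * (ℓ / Q) =
                  (|β2 - β3| * ℓ) * ((p.1 : ℝ) - p'.1 - 2) / Q := by
                field_simp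
                ring
              have h10 : (|β2 - β3| * ℓ) * ((p.1 : ℝ) - p'.1 - 2) / Q ≤ 10 * err := by linarith
              rwa [div_le_iff₀ hQ] at h10
            have h11 : (p.1 : ℝ) - p'.1 - 2 ≤ 10 * err * Q / (|β2 - β3| * ℓ) := by
              rw [le_div_iff₀ hP0]
              linarith
            have h12 := hcardpos _ hP
            linarith)
        refine h1.trans ?_
        have h2 : (21 / 1000 * Q / M + 2 + 1) * (M / Q * μ3) ≤ 6 / 100 * m3 := by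
          have h3 : (21 / 1000 * Q / M + 2 + 1) * (M / Q * μ3) = (21 / 1000 + 3 * (M / Q)) * μ3 := by
            field_simp
            ring
          rw [h3]
          have h4 : M / Q ≤ 1 / 100 := by
            rw [div_le_div_iff₀ hQ (by norm_num)]
            linarith
          exact mul_le_mul (by linarith) hμ3 hμ30.le (by norm_num)
        calc (21 / 1000 * Q / M + 2 + 1) * (M / Q * μ3) * m4 ≤ 6 / 100 * m3 * m4 :=
              mul_le_mul_of_nonneg_right h2 hm40.le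
          _ = _ := by ring
      · -- fibres in the second coordinate
        push Not at hpr
        have hP : 24 / 100 * big ≤ |β2 - β4| * ℓ := by
          have := mul_le_mul_of_nonneg_right hpr.le hℓ.le
          linarith
        have hP0 : 0 < |β2 - β4| * ℓ := by linarith
        have hswap : ∑ p ∈ S', c p.1 * c p.2 = ∑ p ∈ S'.image Prod.swap, c p.1 * c p.2 := by
          rw [Finset.sum_image (fun x _ y _ h => Prod.swap_injective h)]
          refine Finset.sum_congr rfl fun p _ => ?_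
          rw [Prod.fst_swap, Prod.snd_swap, mul_comm]
        have hmem' : ∀ p ∈ S'.image Prod.swap, (p.2, p.1) ∈ S' := by
          intro p hp
          rw [Finset.mem_image] at hp
          obtain ⟨q, hq, rfl⟩ := hp
          simpa using hq
        rw [hswap]
        have h1 := h85_strip (S'.image Prod.swap) B3 c hcm (M / Q * μ4) (21 / 1000 * Q / M + 2)
          (by positivity) (by positivity) (fun p hp => (hpB _ (hmem' p hp)).1) (fun p hp => by
            have hp2 := hmem' p hp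
            rw [hS', Finset.mem_filter] at hp2
            exact D4.typ_mass p.1 hp2.2.2.1) (fun p hp p' hp' hpp => by
            obtain ⟨e3, e4, h31, h32, h41, h42, hV⟩ := wit' _ (hmem' p hp)
            obtain ⟨f3, f4, g31, g32, g41, g42, hW⟩ := wit' _ (hmem' p' hp')
            simp only at h31 h32 h41 h42 g31 g32 g41 g42
            rw [← hpp] at g31 g32
            have h3 : |(β2 - β4) * (e4 - f4)| ≤ 10 * err + |β2 - β4| * (ℓ / Q) := by
              have h4 : |(β2 - β3) * (e3 - f3)| ≤ |β2 - β4| * (ℓ / Q) := by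
                rw [abs_mul]
                refine mul_le_mul hpr.le ?_ (abs_nonneg _) (abs_nonneg _)
                rw [abs_le]
                constructor <;> linarith
              have h5 := hAffsub e3 e4 f3 f4
              have h6 : (β2 - β4) * (e4 - f4) = Aff e3 e4 - Aff f3 f4 - (β2 - β3) * (e3 - f3) := by
                linarith
              rw [h6]
              rw [abs_le] at hV hW h4 ⊢
              constructor <;> linarith
            rw [abs_mul] at h3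
            have h4 : e4 - f4 ≤ |e4 - f4| := le_abs_self _
            have h5 : ((p.1 : ℝ) - p'.1 - 1) * (ℓ / Q) ≤ e4 - f4 := by linarith
            have h6 : ((p.1 : ℝ) - p'.1 - 1) * (ℓ / Q) ≤ |e4 - f4| := h5.trans h4
            have h7 : |β2 - β4| * (((p.1 : ℝ) - p'.1 - 1) * (ℓ / Q)) ≤
                10 * err + |β2 - β4| * (ℓ / Q) :=
              (mul_le_mul_of_nonneg_left h6 (abs_nonneg _)).trans h3
            have h8 : (|β2 - β4| * ℓ) * ((p.1 : ℝ) - p'.1 - 2) ≤ 10 * err * Q := by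
              have h9 : |β2 - β4| * (((p.1 : ℝ) - p'.1 - 1) * (ℓ / Q)) - |β2 - β4| * (ℓ / Q) =
                  (|β2 - β4| * ℓ) * ((p.1 : ℝ) - p'.1 - 2) / Q := by
                field_simp
                ring
              have h10 : (|β2 - β4| * ℓ) * ((p.1 : ℝ) - p'.1 - 2) / Q ≤ 10 * err := by linarith
              rwa [div_le_iff₀ hQ] at h10
            have h11 : (p.1 : ℝ) - p'.1 - 2 ≤ 10 * err * Q / (|β2 - β4| * ℓ) := by
              rw [le_div_iff₀ hP0]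
              linarith
            have h12 := hcardpos _ hP
            linarith)
        refine h1.trans ?_
        have h2 : (21 / 1000 * Q / M + 2 + 1) * (M / Q * μ4) ≤ 6 / 100 * m4 := by
          have h3 : (21 / 1000 * Q / M + 2 + 1) * (M / Q * μ4) = (21 / 1000 + 3 * (M / Q)) * μ4 := by
            field_simp
            ring
          rw [h3]
          have h4 : M / Q ≤ 1 / 100 := by
            rw [div_le_div_iff₀ hQ (by norm_num)]
            linarith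
          exact mul_le_mul (by linarith) hμ4 hμ40.le (by norm_num)
        calc (21 / 1000 * Q / M + 2 + 1) * (M / Q * μ4) * m3 ≤ 6 / 100 * m4 * m3 :=
              mul_le_mul_of_nonneg_right h2 hm30.le
          _ = _ := by ring
    have hcover : S ⊆ S' ∪ ((B3 ×ˢ B4).filter (fun p => p.1 ∉ Ta3) ∪
        ((B3 ×ˢ B4).filter (fun p => p.2 ∉ Ta4) ∪
          (B3 ×ˢ B4).filter (fun p => p.2 ∈ Ta4 ∧ bad p.1 p.2))) := by
      intro p hp
      have hpB := hSB hp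
      simp only [Finset.mem_union, Finset.mem_filter, hS']
      by_cases h3 : p.1 ∈ Ta3 <;> by_cases h4 : p.2 ∈ Ta4 <;> by_cases h5 : bad p.1 p.2 <;>
        simp [h3, h4, h5, hp, hpB]
    have hsumle : ∀ X Y : Finset (ℤ × ℤ), ∑ p ∈ X ∪ Y, c p.1 * c p.2 ≤
        ∑ p ∈ X, c p.1 * c p.2 + ∑ p ∈ Y, c p.1 * c p.2 := by
      intro X Y
      have := Finset.sum_union_inter (s₁ := X) (s₂ := Y) (f := fun p : ℤ × ℤ => c p.1 * c p.2)
      have h2 : 0 ≤ ∑ p ∈ X ∩ Y, c p.1 * c p.2 := Finset.sum_nonneg fun p _ => hcc p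
      linarith
    have h1 := Finset.sum_le_sum_of_subset_of_nonneg hcover fun p _ _ => hcc p
    have h2 := hsumle S' ((B3 ×ˢ B4).filter (fun p => p.1 ∉ Ta3) ∪
        ((B3 ×ˢ B4).filter (fun p => p.2 ∉ Ta4) ∪
          (B3 ×ˢ B4).filter (fun p => p.2 ∈ Ta4 ∧ bad p.1 p.2)))
    have h3 := hsumle ((B3 ×ˢ B4).filter (fun p => p.1 ∉ Ta3))
        ((B3 ×ˢ B4).filter (fun p => p.2 ∉ Ta4) ∪
          (B3 ×ˢ B4).filter (fun p => p.2 ∈ Ta4 ∧ bad p.1 p.2))
    have h4 := hsumle ((B3 ×ˢ B4).filter (fun p => p.2 ∉ Ta4))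
          ((B3 ×ˢ B4).filter (fun p => p.2 ∈ Ta4 ∧ bad p.1 p.2))
    have h5 : κ * (m3 * m4) ≤ 1 * (m3 * m4) := mul_le_mul_of_nonneg_right hκ hm34.le
    linarith

end FIB
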