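import Pool.Agent.Helper75.FIB.EnergyAbs

/-!
# FIB block LIM-ABS : passage to the limit (abstract)

PROOF. (i) Fix `eps > 0` and the data of `hen`. For `l ∈ [a,b]` let `m_K(l)` be the image of Lebesgue measure on
`(0,1)^2` under `(t,t') ↦ EE K l t + EE K l t'`, and `m_K^A(l)` the image of its restriction to `A_K × A_K`; the total mass of
`m_K - m_K^A` is at most `2 eps`. `m_K(l) → μ_l ∗ μ_l` weakly (moments converge, everything lives in `[-6,6]`, Stone-Weierstrass).
(ii) Put `f_K(l,x) = m_K^A(l)((x - r_K/4, x + r_K/4)) * 2/r_K`. Then `∫_a^b ∫ f_K^2 dx dl <= C''` : indeed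
`∫ m(x-r/4,x+r/4)^2 dx = ∫∫ |(y-r/4,y+r/4) ∩ (y'-r/4,y'+r/4)| dm(y) dm(y') <= (r/2) (m×m)(|y-y'| < r/2)` and `(m×m)(|y-y'|<r)` is the volume of
`quadE A_K (EE K l) r`. (Any version of this smoothing is fine.)
(iii) Let `U ⊆ (a,b) × ℝ` be open and `ψ : ℝ × ℝ → [0,1]` continuous with compact support in `U`. Then
`∫∫ ψ(l,y) m_K^A(l)(dy) dl - ∫∫ ψ f_K dx dl → 0` by uniform continuity of `ψ`, and `∫∫ ψ f_K <= (∫∫ f_K^2)^{1/2} |U|^{1/2}` by
Cauchy-Schwarz. So `∫∫ ψ d(μ_l∗μ_l) dl <= sqrt(C''(eps) |U|) + 2 eps (b-a)`; hence the same for `U` instead of `ψ`, and by outer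
regularity for every measurable set `U`. In particular for `|U| = 0` the left side is `<= 2 eps (b-a)` for every `eps`, so it is `0`.
So the measure `(μ_l ∗ μ_l)(dx) dl` on `(a,b) × ℝ` is absolutely continuous, and (kernels: Mathlib has
`ProbabilityTheory.Kernel...absolutelyContinuous_compProd...`, or use a countable family) `μ_l ∗ μ_l ≪ volume` for a.e. `l`.
Measurability of `l ↦ μ_l`: moments are measurable in `l` (limits), so integrals of polynomials, of continuous functions on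
`[-3,3]`, and then measures of sets are measurable in `l`.
-/

namespace FIB

open MeasureTheory Set Filter Topology

namespace LimAux

open ProbabilityTheory
open scoped ENNReal NNReal

theorem int_F {Ω : Type*} [MeasurableSpace Ω] {P : Measure Ω} [IsFiniteMeasure P] {F : Ω → ℝ}
    (hF : Measurable F) {R : ℝ} (hR : ∀ ω, |F ω| ≤ R) {f : ℝ → ℝ} (hf : Continuous f) :
    Integrable (fun ω => f (F ω)) P := by
  obtain ⟨C, hC⟩ := (isCompact_Icc (a := -R) (b := R)).exists_bound_of_continuousOn hf.continuousOn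
  refine Integrable.of_bound (hf.measurable.comp hF).aestronglyMeasurable C ?_
  exact ae_of_all _ fun ω => hC _ (abs_le.1 (hR ω))

theorem int_k {κ : Measure ℝ} [IsFiniteMeasure κ] {R : ℝ} (hκ : κ (Icc (-R) R)ᶜ = 0) {f : ℝ → ℝ}
    (hf : Continuous f) : Integrable f κ := by
  obtain ⟨C, hC⟩ := (isCompact_Icc (a := -R) (b := R)).exists_bound_of_continuousOn hf.continuousOn
  refine Integrable.of_bound hf.aestronglyMeasurable C ?_
  have h : ∀ᵐ x ∂κ, x ∈ Icc (-R) R := by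
    rw [ae_iff]
    exact hκ
  exact h.mono fun x hx => hC x hx

theorem tendsto_poly {Ω : Type*} [MeasurableSpace Ω] (P : Measure Ω) [IsProbabilityMeasure P]
    (F : ℕ → Ω → ℝ) (hF : ∀ K, Measurable (F K)) (R : ℝ) (hR : ∀ K ω, |F K ω| ≤ R) (κ : Measure ℝ)
    [IsProbabilityMeasure κ] (hκ : κ (Icc (-R) R)ᶜ = 0)
    (hmom : ∀ k : ℕ, Tendsto (fun K => ∫ ω, (F K ω) ^ k ∂P) atTop (𝓝 (∫ x, x ^ k ∂κ)))
    (p : Polynomial ℝ) :
    Tendsto (fun K => ∫ ω, p.eval (F K ω) ∂P) atTop (𝓝 (∫ x, p.eval x ∂κ)) := by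
  induction p using Polynomial.induction_on' with
  | add p q hp hq =>
    simp only [Polynomial.eval_add]
    have h1 : ∀ K, ∫ ω, (p.eval (F K ω) + q.eval (F K ω)) ∂P =
        ∫ ω, p.eval (F K ω) ∂P + ∫ ω, q.eval (F K ω) ∂P := fun K =>
      integral_add (int_F (hF K) (hR K) p.continuous) (int_F (hF K) (hR K) q.continuous)
    have h2 : ∫ x, (p.eval x + q.eval x) ∂κ = ∫ x, p.eval x ∂κ + ∫ x, q.eval x ∂κ :=
      integral_add (int_k hκ p.continuous) (int_k hκ q.continuous)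
    simp only [h1, h2]
    exact hp.add hq
  | monomial n a =>
    simp only [Polynomial.eval_monomial, integral_const_mul]
    exact (hmom n).const_mul a

theorem tendsto_cont {Ω : Type*} [MeasurableSpace Ω] (P : Measure Ω) [IsProbabilityMeasure P]
    (F : ℕ → Ω → ℝ) (hF : ∀ K, Measurable (F K)) (R : ℝ) (hR : ∀ K ω, |F K ω| ≤ R) (κ : Measure ℝ)
    [IsProbabilityMeasure κ] (hκ : κ (Icc (-R) R)ᶜ = 0)
    (hmom : ∀ k : ℕ, Tendsto (fun K => ∫ ω, (F K ω) ^ k ∂P) atTop (𝓝 (∫ x, x ^ k ∂κ)))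
    {f : ℝ → ℝ} (hf : Continuous f) :
    Tendsto (fun K => ∫ ω, f (F K ω) ∂P) atTop (𝓝 (∫ x, f x ∂κ)) := by
  rw [Metric.tendsto_atTop]
  intro ε hε
  obtain ⟨p, hp⟩ := exists_polynomial_near_of_continuousOn (-R) R f hf.continuousOn (ε / 4)
    (by linarith)
  obtain ⟨N, hN⟩ := (Metric.tendsto_atTop.1 (tendsto_poly P F hF R hR κ hκ hmom p)) (ε / 4)
    (by linarith)
  refine ⟨N, fun K hK => ?_⟩
  have h1 := hN K hK
  rw [Real.dist_eq] at h1 ⊢
  have h2 : |∫ ω, f (F K ω) ∂P - ∫ ω, p.eval (F K ω) ∂P| ≤ ε / 4 := by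
    rw [← integral_sub (int_F (hF K) (hR K) hf) (int_F (hF K) (hR K) p.continuous)]
    have h := norm_integral_le_of_norm_le_const (μ := P)
      (f := fun ω => f (F K ω) - p.eval (F K ω)) (C := ε / 4) (ae_of_all _ fun ω => ?_)
    · rw [probReal_univ, mul_one] at h
      exact h
    · have h := hp (F K ω) (abs_le.1 (hR K ω))
      rw [Real.norm_eq_abs, abs_sub_comm]
      exact h.le
  have h3 : |∫ x, f x ∂κ - ∫ x, p.eval x ∂κ| ≤ ε / 4 := by
    rw [← integral_sub (int_k hκ hf) (int_k hκ p.continuous)]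
    have hae : ∀ᵐ x ∂κ, x ∈ Icc (-R) R := by
      rw [ae_iff]
      exact hκ
    have h := norm_integral_le_of_norm_le_const (μ := κ)
      (f := fun x => f x - p.eval x) (C := ε / 4) (hae.mono fun x hx => ?_)
    · rw [probReal_univ, mul_one] at h
      exact h
    · have h := hp x hx
      rw [Real.norm_eq_abs, abs_sub_comm]
      exact h.le
  rw [abs_lt] at h1 ⊢
  rw [abs_le] at h2 h3
  constructor <;> linarith [h1.1, h1.2, h2.1, h2.2, h3.1, h3.2]

theorem tendsto_lint {Ω : Type*} [MeasurableSpace Ω] (P : Measure Ω) [IsProbabilityMeasure P]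
    (F : ℕ → Ω → ℝ) (hF : ∀ K, Measurable (F K)) (R : ℝ) (hR : ∀ K ω, |F K ω| ≤ R) (κ : Measure ℝ)
    [IsProbabilityMeasure κ] (hκ : κ (Icc (-R) R)ᶜ = 0)
    (hmom : ∀ k : ℕ, Tendsto (fun K => ∫ ω, (F K ω) ^ k ∂P) atTop (𝓝 (∫ x, x ^ k ∂κ)))
    {f : ℝ → ℝ} (hf : Continuous f) (h0 : ∀ x, 0 ≤ f x) :
    Tendsto (fun K => ∫⁻ ω, ENNReal.ofReal (f (F K ω)) ∂P) atTop
      (𝓝 (∫⁻ x, ENNReal.ofReal (f x) ∂κ)) := by
  have h1 : ∀ K, ∫⁻ ω, ENNReal.ofReal (f (F K ω)) ∂P = ENNReal.ofReal (∫ ω, f (F K ω) ∂P) :=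
    fun K => (ofReal_integral_eq_lintegral_ofReal (int_F (hF K) (hR K) hf)
      (ae_of_all _ fun ω => h0 _)).symm
  have h2 : ∫⁻ x, ENNReal.ofReal (f x) ∂κ = ENNReal.ofReal (∫ x, f x ∂κ) :=
    (ofReal_integral_eq_lintegral_ofReal (int_k hκ hf) (ae_of_all _ fun ω => h0 _)).symm
  simp only [h1, h2]
  exact (ENNReal.continuous_ofReal.tendsto _).comp (tendsto_cont P F hF R hR κ hκ hmom hf)

theorem mom_sum {T : Type*} [MeasurableSpace T] (P : Measure T) [IsProbabilityMeasure P] (e : T → ℝ)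
    (hint : ∀ k : ℕ, Integrable (fun t => e t ^ k) P) (k : ℕ) :
    ∫ z : T × T, (e z.1 + e z.2) ^ k ∂(P.prod P) =
      ∑ j ∈ Finset.range (k + 1), (∫ t, e t ^ j ∂P) * (∫ t, e t ^ (k - j) ∂P) * (k.choose j) := by
  simp only [add_pow]
  rw [integral_finsetSum]
  · refine Finset.sum_congr rfl fun j _ => ?_
    rw [integral_mul_const, ← integral_prod_mul (μ := P) (ν := P) (fun t => e t ^ j)
      (fun t => e t ^ (k - j))]
  · intro j _
    exact ((hint j).mul_prod (hint (k - j))).mul_const _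

/-- moments of the convolution square -/
theorem mom_conv (ρ : Measure ℝ) [IsProbabilityMeasure ρ] {R : ℝ} (hρ : ρ (Icc (-R) R)ᶜ = 0)
    (k : ℕ) : ∫ x, x ^ k ∂(ρ.conv ρ) =
      ∑ j ∈ Finset.range (k + 1), (∫ t, t ^ j ∂ρ) * (∫ t, t ^ (k - j) ∂ρ) * (k.choose j) := by
  rw [← mom_sum ρ (fun t => t) (fun k => int_k hρ (continuous_pow k)) k, Measure.conv,
    integral_map (by fun_prop) (by fun_prop)]

theorem conv_supp (ρ : Measure ℝ) [IsProbabilityMeasure ρ] (hρ : ρ (Icc (-3) 3)ᶜ = 0) :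
    (ρ.conv ρ) (Icc (-6) 6)ᶜ = 0 := by
  rw [Measure.conv, Measure.map_apply (by fun_prop) measurableSet_Icc.compl]
  refine measure_mono_null (t := ((Icc (-3) 3)ᶜ ×ˢ univ) ∪ (univ ×ˢ (Icc (-3) 3)ᶜ)) ?_ ?_
  · intro z hz
    by_contra h
    simp only [mem_union, mem_prod, mem_univ, and_true, true_and, not_or, mem_compl_iff,
      not_not, mem_Icc] at h
    apply hz
    obtain ⟨⟨h1, h2⟩, h3, h4⟩ := h
    constructor <;> linarith
  · refine measure_union_null ?_ ?_
    · rw [Measure.prod_prod, hρ, zero_mul]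
    · rw [Measure.prod_prod, hρ, mul_zero]

theorem meas_kernel {Ω : Type*} [MeasurableSpace Ω] (P : Measure Ω) [IsProbabilityMeasure P]
    (F : ℕ → ℝ × Ω → ℝ) (hF : ∀ K, Measurable (F K)) (R : ℝ) (hR : ∀ K z, |F K z| ≤ R)
    (κ : ℝ → Measure ℝ) [∀ l, IsProbabilityMeasure (κ l)] (hκ : ∀ l, κ l (Icc (-R) R)ᶜ = 0)
    (hmom : ∀ l, ∀ k : ℕ,
      Tendsto (fun K => ∫ ω, (F K (l, ω)) ^ k ∂P) atTop (𝓝 (∫ x, x ^ k ∂(κ l)))) :
    Measurable κ := by
  refine Measurable.measure_of_isPiSystem_of_isProbabilityMeasure (S := {s | IsClosed s})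
    (BorelSpace.measurable_eq.trans borel_eq_generateFrom_isClosed) isPiSystem_isClosed ?_
  intro s hs
  have hpos : ∀ n : ℕ, (0 : ℝ) < 1 / ((n : ℝ) + 1) := fun n => by positivity
  have h1 : ∀ n : ℕ, Measurable
      (fun l => ∫⁻ x, ((thickenedIndicator (hpos n) s x : ℝ≥0) : ℝ≥0∞) ∂(κ l)) := by
    intro n
    have hcont : Continuous (fun x => ((thickenedIndicator (hpos n) s x : ℝ≥0) : ℝ)) :=
      NNReal.continuous_coe.comp (thickenedIndicator (hpos n) s).continuous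
    refine measurable_of_tendsto_metrizable
      (f := fun K l => ∫⁻ ω, ENNReal.ofReal ((thickenedIndicator (hpos n) s (F K (l, ω)) : ℝ≥0) : ℝ) ∂P)
      (fun K => ?_) ?_
    · exact Measurable.lintegral_prod_right'
        (f := fun z : ℝ × Ω => ENNReal.ofReal ((thickenedIndicator (hpos n) s (F K z) : ℝ≥0) : ℝ))
        (ENNReal.measurable_ofReal.comp (hcont.measurable.comp (hF K)))
    · rw [tendsto_pi_nhds]
      intro l
      have h := tendsto_lint P (fun K ω => F K (l, ω)) (fun K => (hF K).comp measurable_prodMk_left)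
        R (fun K ω => hR K _) (κ l) (hκ l) (hmom l) hcont (fun x => NNReal.coe_nonneg _)
      simpa only [ENNReal.ofReal_coe_nnreal] using h
  exact measurable_of_tendsto_metrizable h1 (tendsto_pi_nhds.2 fun l =>
    tendsto_lintegral_thickenedIndicator_of_isClosed (κ l) hs hpos
      tendsto_one_div_add_atTop_nhds_zero_nat)

theorem amgm (c q : ℝ≥0∞) (hc : c ≠ 0) (hc' : c ≠ ∞) : q ≤ c + c⁻¹ * (q * q) := by
  rcases le_total q c with h | h
  · exact h.trans le_self_add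
  · refine le_trans ?_ le_add_self
    calc q = c⁻¹ * (c * q) := by
          rw [← mul_assoc, ENNReal.inv_mul_cancel hc hc', one_mul]
      _ ≤ c⁻¹ * (q * q) := by gcongr

theorem energy_fixed {Ω : Type*} [MeasurableSpace Ω] (Q : Measure Ω) [IsFiniteMeasure Q] (G : Ω → ℝ)
    (hG : Measurable G) {r lam : ℝ} (hr : 0 < r) (hlam : 0 < lam) {K' U' : Set ℝ}
    (hK : MeasurableSet K') (hU : MeasurableSet U') (hKU : ∀ y ∈ K', ∀ x, |x - y| < r / 2 → x ∈ U') :
    Q (G ⁻¹' K') ≤ ENNReal.ofReal lam * volume U' +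
      (ENNReal.ofReal (lam * r))⁻¹ * (Q.prod Q) {z | |G z.1 - G z.2| < r} := by
  set q : ℝ → ℝ≥0∞ := fun x => Q {ω | |G ω - x| < r / 2} with hq
  have hballvol : ∀ y : ℝ, volume (Metric.ball y (r / 2)) = ENNReal.ofReal r := by
    intro y
    rw [Real.volume_ball]
    congr 1
    ring
  -- (a)
  have ha : ENNReal.ofReal r * Q (G ⁻¹' K') ≤ ∫⁻ x in U', q x := by
    have hT : MeasurableSet {z : ℝ × Ω | z.1 ∈ U' ∧ |G z.2 - z.1| < r / 2} := by
      have hm : Measurable (fun z : ℝ × Ω => |G z.2 - z.1|) := by fun_prop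
      exact (measurable_fst hU).inter (measurableSet_lt hm measurable_const)
    have h1 := Measure.prod_apply (μ := (volume : Measure ℝ)) (ν := Q) hT
    have h2 := Measure.prod_apply_symm (μ := (volume : Measure ℝ)) (ν := Q) hT
    rw [h1] at h2
    have h3 : ∫⁻ x, Q (Prod.mk x ⁻¹' {z : ℝ × Ω | z.1 ∈ U' ∧ |G z.2 - z.1| < r / 2}) =
        ∫⁻ x in U', q x := by
      rw [← lintegral_indicator hU]
      refine lintegral_congr fun x => ?_
      by_cases hx : x ∈ U'
      · rw [indicator_of_mem hx]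
        congr 1
        ext ω
        simp [hx]
      · rw [indicator_of_notMem hx]
        have : Prod.mk x ⁻¹' {z : ℝ × Ω | z.1 ∈ U' ∧ |G z.2 - z.1| < r / 2} = ∅ := by
          ext ω
          simp [hx]
        rw [this, measure_empty]
    rw [← h3, h2]
    rw [← lintegral_indicator_const (hG hK) (ENNReal.ofReal r)]
    refine lintegral_mono fun ω => ?_
    by_cases hω : ω ∈ G ⁻¹' K'
    · rw [indicator_of_mem hω, ← hballvol (G ω)]
      refine measure_mono fun x hx => ?_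
      rw [Metric.mem_ball, Real.dist_eq] at hx
      refine ⟨hKU _ hω x hx, ?_⟩
      rw [abs_sub_comm]
      exact hx
    · rw [indicator_of_notMem hω]
      exact bot_le
  -- (b)
  have hD : MeasurableSet {z : Ω × Ω | |G z.1 - G z.2| < r} :=
    measurableSet_lt (by fun_prop) measurable_const
  have hb : ∫⁻ x, q x * q x ≤ ENNReal.ofReal r * (Q.prod Q) {z | |G z.1 - G z.2| < r} := by
    have hT : MeasurableSet {w : ℝ × (Ω × Ω) | |G w.2.1 - w.1| < r / 2 ∧ |G w.2.2 - w.1| < r / 2} := by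
      have hm1 : Measurable (fun w : ℝ × (Ω × Ω) => |G w.2.1 - w.1|) := by fun_prop
      have hm2 : Measurable (fun w : ℝ × (Ω × Ω) => |G w.2.2 - w.1|) := by fun_prop
      exact (measurableSet_lt hm1 measurable_const).inter (measurableSet_lt hm2 measurable_const)
    have h1 := Measure.prod_apply (μ := (volume : Measure ℝ)) (ν := Q.prod Q) hT
    have h2 := Measure.prod_apply_symm (μ := (volume : Measure ℝ)) (ν := Q.prod Q) hT
    rw [h1] at h2
    have h3 : ∫⁻ x, (Q.prod Q) (Prod.mk x ⁻¹'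
        {w : ℝ × (Ω × Ω) | |G w.2.1 - w.1| < r / 2 ∧ |G w.2.2 - w.1| < r / 2}) =
        ∫⁻ x, q x * q x := by
      refine lintegral_congr fun x => ?_
      rw [hq, ← Measure.prod_prod]
      rfl
    rw [← h3, h2, ← lintegral_indicator_const hD (ENNReal.ofReal r)]
    refine lintegral_mono fun z => ?_
    by_cases hz : |G z.1 - G z.2| < r
    · rw [indicator_of_mem (show z ∈ {z : Ω × Ω | |G z.1 - G z.2| < r} from hz), ← hballvol (G z.1)]
      refine measure_mono fun x hx => ?_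
      rw [Metric.mem_ball, Real.dist_eq, abs_sub_comm]
      exact hx.1
    · rw [indicator_of_notMem (show z ∉ {z : Ω × Ω | |G z.1 - G z.2| < r} from hz)]
      have : (fun x => (x, z)) ⁻¹'
          {w : ℝ × (Ω × Ω) | |G w.2.1 - w.1| < r / 2 ∧ |G w.2.2 - w.1| < r / 2} = ∅ := by
        ext x
        simp only [mem_preimage, mem_ofPred_eq, mem_empty_iff_false, iff_false, not_and]
        intro h4 h5
        apply hz
        have h6 : G z.1 - G z.2 = (G z.1 - x) - (G z.2 - x) := by ring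
        rw [h6]
        exact (abs_sub _ _).trans_lt (by linarith)
      rw [this, measure_empty]
  have hc0 : ENNReal.ofReal (lam * r) ≠ 0 := by
    rw [Ne, ENNReal.ofReal_eq_zero, not_le]
    positivity
  have hr0 : ENNReal.ofReal r ≠ 0 := by
    rw [Ne, ENNReal.ofReal_eq_zero, not_le]
    exact hr
  have hd : ∫⁻ x in U', q x ≤ ENNReal.ofReal (lam * r) * volume U' +
      (ENNReal.ofReal (lam * r))⁻¹ * (ENNReal.ofReal r * (Q.prod Q) {z | |G z.1 - G z.2| < r}) := by
    calc ∫⁻ x in U', q x ≤ ∫⁻ x in U', (ENNReal.ofReal (lam * r) +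
          (ENNReal.ofReal (lam * r))⁻¹ * (q x * q x)) :=
          lintegral_mono fun x => amgm _ _ hc0 ENNReal.ofReal_ne_top
      _ = ENNReal.ofReal (lam * r) * volume U' +
          ∫⁻ x in U', (ENNReal.ofReal (lam * r))⁻¹ * (q x * q x) := by
          rw [lintegral_add_left measurable_const, setLIntegral_const]
      _ ≤ ENNReal.ofReal (lam * r) * volume U' +
          ∫⁻ x, (ENNReal.ofReal (lam * r))⁻¹ * (q x * q x) := by
          gcongr
          exact Measure.restrict_le_self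
      _ = ENNReal.ofReal (lam * r) * volume U' +
          (ENNReal.ofReal (lam * r))⁻¹ * ∫⁻ x, (q x * q x) := by
          rw [lintegral_const_mul' _ _ (ENNReal.inv_ne_top.2 hc0)]
      _ ≤ _ := by gcongr
  have he := ha.trans hd
  rw [ENNReal.ofReal_mul hlam.le] at he ⊢
  have h5 : ENNReal.ofReal lam * ENNReal.ofReal r * volume U' +
      (ENNReal.ofReal lam * ENNReal.ofReal r)⁻¹ *
        (ENNReal.ofReal r * (Q.prod Q) {z | |G z.1 - G z.2| < r}) =
      ENNReal.ofReal r * (ENNReal.ofReal lam * volume U' +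
      (ENNReal.ofReal lam * ENNReal.ofReal r)⁻¹ * (Q.prod Q) {z | |G z.1 - G z.2| < r}) := by
    ring
  rw [h5] at he
  exact (ENNReal.mul_le_mul_iff_right hr0 ENNReal.ofReal_ne_top).1 he

theorem compact_small {Ω : Type*} [MeasurableSpace Ω] (P : Measure Ω) [IsProbabilityMeasure P]
    (F : ℕ → ℝ × Ω → ℝ) (hF : ∀ K, Measurable (F K)) (R : ℝ) (hR : ∀ K z, |F K z| ≤ R)
    (κ : Kernel ℝ ℝ) [IsMarkovKernel κ] (hκ : ∀ l, κ l (Icc (-R) R)ᶜ = 0)
    (hmom : ∀ l, ∀ k : ℕ,
      Tendsto (fun K => ∫ ω, (F K (l, ω)) ^ k ∂P) atTop (𝓝 (∫ x, x ^ k ∂(κ l))))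
    (L : Measure ℝ) [IsFiniteMeasure L]
    (hen : ∀ ε : ℝ, 0 < ε → ∃ C' : ℝ, ∃ r : ℕ → ℝ, (∀ K, 0 < r K) ∧ Tendsto r atTop (𝓝 0) ∧
      ∃ B : ℕ → Set Ω, ∀ᶠ K in atTop, MeasurableSet (B K) ∧ P (B K)ᶜ ≤ ENNReal.ofReal ε ∧
        ∫⁻ l, ((P.restrict (B K)).prod (P.restrict (B K)))
          {z | |F K (l, z.1) - F K (l, z.2)| < r K} ∂L ≤ ENNReal.ofReal (C' * r K))
    {K₀ : Set (ℝ × ℝ)} (hK₀ : IsCompact K₀) (h0 : (L.prod volume) K₀ = 0) :
    (L ⊗ₘ κ) K₀ = 0 := by
  have main : ∀ ε : ℝ, 0 < ε → (L ⊗ₘ κ) K₀ ≤ ENNReal.ofReal ε * (L univ + 1 + 1) := by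
    intro ε hε
    obtain ⟨C', r, hr, hr0, B, hB⟩ := hen ε hε
    have hC1 : (0 : ℝ) < max C' 1 := lt_max_of_lt_right one_pos
    have hlam : 0 < max C' 1 / ε := div_pos hC1 hε
    obtain ⟨U, hKU, hUo, hUm⟩ := K₀.exists_isOpen_lt_of_lt (μ := L.prod volume)
      (ENNReal.ofReal (ε / (max C' 1 / ε))) (by
        rw [h0, ENNReal.ofReal_pos]
        exact div_pos hε hlam)
    obtain ⟨δ, hδ, hδU⟩ := hK₀.exists_thickening_subset_open hUo hKU
    have hδ2 : 0 < δ / 2 := by linarith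
    have hcont : Continuous (fun z => ((thickenedIndicator hδ2 K₀ z : ℝ≥0) : ℝ)) :=
      NNReal.continuous_coe.comp (thickenedIndicator hδ2 K₀).continuous
    have h1 : (L ⊗ₘ κ) K₀ ≤ ∫⁻ l, ∫⁻ x,
        ENNReal.ofReal ((thickenedIndicator hδ2 K₀ (l, x) : ℝ≥0) : ℝ) ∂(κ l) ∂L := by
      rw [← Measure.lintegral_compProd
        (f := fun z => ENNReal.ofReal ((thickenedIndicator hδ2 K₀ z : ℝ≥0) : ℝ))
        (ENNReal.measurable_ofReal.comp hcont.measurable), ← lintegral_indicator_one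
        hK₀.measurableSet]
      refine lintegral_mono fun z => ?_
      by_cases hz : z ∈ K₀
      · rw [indicator_of_mem hz, ENNReal.ofReal_coe_nnreal, thickenedIndicator_one hδ2 K₀ hz]
        simp
      · rw [indicator_of_notMem hz]
        exact bot_le
    have hmeas : ∀ K, Measurable (fun l => ∫⁻ ω,
        ENNReal.ofReal ((thickenedIndicator hδ2 K₀ (l, F K (l, ω)) : ℝ≥0) : ℝ) ∂P) := fun K =>
      Measurable.lintegral_prod_right'
        (f := fun z : ℝ × Ω => ENNReal.ofReal ((thickenedIndicator hδ2 K₀ (z.1, F K z) : ℝ≥0) : ℝ))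
        (ENNReal.measurable_ofReal.comp (hcont.measurable.comp (measurable_fst.prodMk (hF K))))
    have h2 : ∀ l, liminf (fun K => ∫⁻ ω,
        ENNReal.ofReal ((thickenedIndicator hδ2 K₀ (l, F K (l, ω)) : ℝ≥0) : ℝ) ∂P) atTop =
        ∫⁻ x, ENNReal.ofReal ((thickenedIndicator hδ2 K₀ (l, x) : ℝ≥0) : ℝ) ∂(κ l) := by
      intro l
      exact (tendsto_lint P (fun K ω => F K (l, ω)) (fun K => (hF K).comp measurable_prodMk_left)
        R (fun K ω => hR K _) (κ l) (hκ l) (hmom l)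
        (f := fun x => ((thickenedIndicator hδ2 K₀ (l, x) : ℝ≥0) : ℝ))
        (hcont.comp (Continuous.prodMk_right l)) (fun x => NNReal.coe_nonneg _)).liminf_eq
    refine h1.trans ?_
    rw [← lintegral_congr h2]
    refine (lintegral_liminf_le hmeas).trans ?_
    refine Filter.liminf_le_of_frequently_le' (Eventually.frequently ?_)
    have hrδ : ∀ᶠ K in atTop, r K < δ := hr0.eventually_lt_const hδ
    filter_upwards [hB, hrδ] with K hK hKδ
    obtain ⟨hBm, hBc, hBe⟩ := hK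
    have hlr : 0 < max C' 1 / ε * r K := mul_pos hlam (hr K)
    have hfix : ∀ l, ∫⁻ ω,
        ENNReal.ofReal ((thickenedIndicator hδ2 K₀ (l, F K (l, ω)) : ℝ≥0) : ℝ) ∂P ≤
        (ENNReal.ofReal ε + ENNReal.ofReal (max C' 1 / ε) * volume (Prod.mk l ⁻¹' U)) +
        (ENNReal.ofReal (max C' 1 / ε * r K))⁻¹ *
          ((P.restrict (B K)).prod (P.restrict (B K)))
            {z | |F K (l, z.1) - F K (l, z.2)| < r K} := by
      intro l
      have hGm : Measurable (fun ω => F K (l, ω)) := (hF K).comp measurable_prodMk_left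
      have hKm : MeasurableSet {y : ℝ | (l, y) ∈ Metric.thickening (δ / 2) K₀} :=
        measurable_prodMk_left Metric.isOpen_thickening.measurableSet
      have hen := energy_fixed (P.restrict (B K)) (fun ω => F K (l, ω)) hGm (hr K) hlam
        (K' := {y : ℝ | (l, y) ∈ Metric.thickening (δ / 2) K₀}) (U' := Prod.mk l ⁻¹' U)
        hKm (measurable_prodMk_left hUo.measurableSet) (by
          intro y hy x hx
          apply hδU
          obtain ⟨z, hz, hyz⟩ := Metric.mem_thickening_iff.1 hy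
          refine Metric.mem_thickening_iff.2 ⟨z, hz, ?_⟩
          have h3 : dist (l, x) (l, y) = |x - y| := by
            rw [Prod.dist_eq, dist_self, Real.dist_eq]
            exact max_eq_right (abs_nonneg _)
          calc dist (l, x) z ≤ dist (l, x) (l, y) + dist (l, y) z := dist_triangle _ _ _
            _ < δ := by
              rw [h3]
              linarith)
      rw [← lintegral_add_compl _ hBm, add_comm (∫⁻ ω in B K, _ ∂P), add_assoc]
      refine add_le_add ?_ (le_trans ?_ hen)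
      · refine le_trans ?_ hBc
        rw [← setLIntegral_one]
        refine lintegral_mono fun ω => ?_
        rw [ENNReal.ofReal_coe_nnreal]
        exact ENNReal.coe_le_one_iff.2 (thickenedIndicator_le_one hδ2 K₀ (l, F K (l, ω)))
      · rw [← lintegral_indicator_one (hGm hKm)]
        refine lintegral_mono fun ω => ?_
        by_cases hω : ω ∈ (fun ω => F K (l, ω)) ⁻¹' {y : ℝ | (l, y) ∈ Metric.thickening (δ / 2) K₀}
        · rw [indicator_of_mem hω, ENNReal.ofReal_coe_nnreal]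
          exact ENNReal.coe_le_one_iff.2 (thickenedIndicator_le_one hδ2 K₀ (l, F K (l, ω)))
        · rw [indicator_of_notMem hω, ENNReal.ofReal_coe_nnreal,
            thickenedIndicator_zero hδ2 K₀ hω]
          simp
    refine (lintegral_mono hfix).trans ?_
    have hUmeas : Measurable (fun l => volume (Prod.mk l ⁻¹' U)) :=
      measurable_measure_prodMk_left hUo.measurableSet
    rw [lintegral_add_left (by fun_prop), lintegral_add_left measurable_const, lintegral_const,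
      lintegral_const_mul _ hUmeas, ← Measure.prod_apply hUo.measurableSet,
      lintegral_const_mul' _ _ (ENNReal.inv_ne_top.2 (by
        rw [Ne, ENNReal.ofReal_eq_zero, not_le]
        exact hlr))]
    have h4 : ENNReal.ofReal (max C' 1 / ε) * (L.prod volume) U ≤ ENNReal.ofReal ε := by
      refine (mul_le_mul_right hUm.le _).trans ?_
      rw [← ENNReal.ofReal_mul hlam.le]
      apply ENNReal.ofReal_le_ofReal
      rw [mul_div_cancel₀ _ hlam.ne']
    have h5 : (ENNReal.ofReal (max C' 1 / ε * r K))⁻¹ * ∫⁻ l,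
          ((P.restrict (B K)).prod (P.restrict (B K)))
            {z | |F K (l, z.1) - F K (l, z.2)| < r K} ∂L ≤ ENNReal.ofReal ε := by
      refine (mul_le_mul_right hBe _).trans ?_
      rw [← ENNReal.ofReal_inv_of_pos hlr, ← ENNReal.ofReal_mul (by positivity)]
      apply ENNReal.ofReal_le_ofReal
      have h6 : C' * r K ≤ max C' 1 * r K :=
        mul_le_mul_of_nonneg_right (le_max_left _ _) (hr K).le
      calc (max C' 1 / ε * r K)⁻¹ * (C' * r K) ≤ (max C' 1 / ε * r K)⁻¹ * (max C' 1 * r K) :=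
            mul_le_mul_of_nonneg_left h6 (by positivity)
        _ = ε := by
          have := (hr K).ne'
          have := hC1.ne'
          have := hε.ne'
          field_simp
    calc ENNReal.ofReal ε * L univ + ENNReal.ofReal (max C' 1 / ε) * (L.prod volume) U +
          (ENNReal.ofReal (max C' 1 / ε * r K))⁻¹ * ∫⁻ l,
          ((P.restrict (B K)).prod (P.restrict (B K)))
            {z | |F K (l, z.1) - F K (l, z.2)| < r K} ∂L
        ≤ ENNReal.ofReal ε * L univ + ENNReal.ofReal ε + ENNReal.ofReal ε := by gcongr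
      _ = ENNReal.ofReal ε * (L univ + 1 + 1) := by ring
  have hlim : Tendsto (fun n : ℕ => ENNReal.ofReal (1 / ((n : ℝ) + 1)) * (L univ + 1 + 1)) atTop
      (𝓝 (ENNReal.ofReal 0 * (L univ + 1 + 1))) := by
    refine ENNReal.Tendsto.mul_const ?_ (Or.inr ?_)
    · exact (ENNReal.continuous_ofReal.tendsto _).comp tendsto_one_div_add_atTop_nhds_zero_nat
    · simp
  rw [ENNReal.ofReal_zero, zero_mul] at hlim
  exact le_bot_iff.1 (ge_of_tendsto' hlim fun n => main _ (by positivity))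

theorem core {Ω : Type*} [MeasurableSpace Ω] (P : Measure Ω) [IsProbabilityMeasure P]
    (F : ℕ → ℝ × Ω → ℝ) (hF : ∀ K, Measurable (F K)) (R : ℝ) (hR : ∀ K z, |F K z| ≤ R)
    (κ : Kernel ℝ ℝ) [IsMarkovKernel κ] (hκ : ∀ l, κ l (Icc (-R) R)ᶜ = 0)
    (hmom : ∀ l, ∀ k : ℕ,
      Tendsto (fun K => ∫ ω, (F K (l, ω)) ^ k ∂P) atTop (𝓝 (∫ x, x ^ k ∂(κ l))))
    (L : Measure ℝ) [IsFiniteMeasure L]
    (hen : ∀ ε : ℝ, 0 < ε → ∃ C' : ℝ, ∃ r : ℕ → ℝ, (∀ K, 0 < r K) ∧ Tendsto r atTop (𝓝 0) ∧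
      ∃ B : ℕ → Set Ω, ∀ᶠ K in atTop, MeasurableSet (B K) ∧ P (B K)ᶜ ≤ ENNReal.ofReal ε ∧
        ∫⁻ l, ((P.restrict (B K)).prod (P.restrict (B K)))
          {z | |F K (l, z.1) - F K (l, z.2)| < r K} ∂L ≤ ENNReal.ofReal (C' * r K)) :
    ∀ᵐ l ∂L, κ l ≪ volume := by
  have hac : L ⊗ₘ κ ≪ L ⊗ₘ (Kernel.const ℝ (volume.restrict (Icc (-R) R))) := by
    rw [Measure.compProd_const]
    refine Measure.AbsolutelyContinuous.mk fun s hs h0 => ?_
    have hIm : MeasurableSet ((univ : Set ℝ) ×ˢ Icc (-R) R) := MeasurableSet.univ.prod measurableSet_Icc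
    have h1 : (L.prod volume) (s ∩ univ ×ˢ Icc (-R) R) = 0 := by
      rw [← Measure.restrict_apply hs, ← Measure.prod_restrict, Measure.restrict_univ]
      exact h0
    have h2 : (L ⊗ₘ κ) (s ∩ univ ×ˢ Icc (-R) R) = 0 := by
      rw [(hs.inter hIm).measure_eq_iSup_isCompact_of_ne_top (measure_ne_top _ _)]
      simp only [ENNReal.iSup_eq_zero]
      intro K₀ hK₀s hK₀
      exact compact_small P F hF R hR κ hκ hmom L hen hK₀ (measure_mono_null hK₀s h1)
    have h3 : (L ⊗ₘ κ) (univ ×ˢ (Icc (-R) R)ᶜ) = 0 := by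
      rw [Measure.compProd_apply_prod MeasurableSet.univ measurableSet_Icc.compl]
      simp [hκ]
    refine measure_mono_null (t := (s ∩ univ ×ˢ Icc (-R) R) ∪ (univ ×ˢ (Icc (-R) R)ᶜ)) ?_
      (measure_union_null h2 h3)
    intro z hz
    by_cases hz2 : z.2 ∈ Icc (-R) R
    · exact Or.inl ⟨hz, ⟨mem_univ _, hz2⟩⟩
    · exact Or.inr ⟨mem_univ _, hz2⟩
  have h4 := hac.kernel_of_compProd
  filter_upwards [h4] with l hl
  rw [Kernel.const_apply] at hl
  exact hl.trans Measure.absolutelyContinuous_restrict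

end LimAux

open LimAux ProbabilityTheory in
theorem limit_abs {a b : ℝ} (hab : a < b) (μ : ℝ → Measure ℝ)
    (hμ : ∀ l ∈ Icc a b, IsProbabilityMeasure (μ l))
    (hsupp : ∀ l ∈ Icc a b, μ l (Icc (-3) 3)ᶜ = 0)
    (EE : ℕ → ℝ → ℝ → ℝ)
    (hE : ∀ K, Measurable (indicator (Icc a b ×ˢ Ioo (0 : ℝ) 1) (fun p : ℝ × ℝ => EE K p.1 p.2)))
    (hE3 : ∀ K, ∀ l ∈ Icc a b, ∀ t ∈ Ioo (0 : ℝ) 1, |EE K l t| ≤ 3)
    (hmom : ∀ l ∈ Icc a b, ∀ k : ℕ,
      Tendsto (fun K => ∫ t in (0 : ℝ)..1, (EE K l t) ^ k) atTop (𝓝 (∫ x, x ^ k ∂(μ l))))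
    (hen : ∀ ε : ℝ, 0 < ε → ∃ C' : ℝ, ∃ r : ℕ → ℝ, (∀ K, 0 < r K) ∧ Tendsto r atTop (𝓝 0) ∧
      ∃ A : ℕ → Set ℝ, ∀ᶠ K in atTop, MeasurableSet (A K) ∧ A K ⊆ Ioo 0 1 ∧
        volume (Ioo 0 1 \ A K) ≤ ENNReal.ofReal ε ∧
        ∫⁻ l in Icc a b, volume (quadE (A K) (EE K l) (r K)) ≤ ENNReal.ofReal (C' * r K)) :
    ∀ᵐ l ∂(volume.restrict (Icc a b)), (μ l).conv (μ l) ≪ volume := by
  classical
  have hP1 : IsProbabilityMeasure (volume.restrict (Ioo (0 : ℝ) 1)) := ⟨by simp⟩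
  set P1 : Measure ℝ := volume.restrict (Ioo (0 : ℝ) 1) with hP1d
  let e : ℕ → ℝ × ℝ → ℝ := fun K =>
    indicator (Icc a b ×ˢ Ioo (0 : ℝ) 1) (fun p : ℝ × ℝ => EE K p.1 p.2)
  have he : ∀ K, Measurable (e K) := hE
  have he1 : ∀ K, ∀ l ∈ Icc a b, ∀ t ∈ Ioo (0 : ℝ) 1, e K (l, t) = EE K l t := fun K l hl t ht =>
    indicator_of_mem (show (l, t) ∈ Icc a b ×ˢ Ioo (0 : ℝ) 1 from ⟨hl, ht⟩) _
  have he0 : ∀ K, ∀ l ∉ Icc a b, ∀ t, e K (l, t) = 0 := fun K l hl t =>
    indicator_of_notMem (fun h => hl h.1) _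
  have he3 : ∀ K p, |e K p| ≤ 3 := by
    intro K p
    by_cases hp : p ∈ Icc a b ×ˢ Ioo (0 : ℝ) 1
    · have h1 : e K p = EE K p.1 p.2 := indicator_of_mem hp _
      rw [h1]
      exact hE3 K _ hp.1 _ hp.2
    · have h1 : e K p = 0 := indicator_of_notMem hp _
      rw [h1]
      norm_num
  let ρ : ℝ → Measure ℝ := fun l => if l ∈ Icc a b then μ l else Measure.dirac 0
  have hρ1 : ∀ l ∈ Icc a b, ρ l = μ l := fun l hl => if_pos hl
  have hρ0 : ∀ l ∉ Icc a b, ρ l = Measure.dirac 0 := fun l hl => if_neg hl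
  have hρp : ∀ l, IsProbabilityMeasure (ρ l) := by
    intro l
    by_cases hl : l ∈ Icc a b
    · rw [hρ1 l hl]
      exact hμ l hl
    · rw [hρ0 l hl]
      infer_instance
  have hρ3 : ∀ l, ρ l (Icc (-3) 3)ᶜ = 0 := by
    intro l
    by_cases hl : l ∈ Icc a b
    · rw [hρ1 l hl]
      exact hsupp l hl
    · rw [hρ0 l hl, Measure.dirac_apply' _ measurableSet_Icc.compl, indicator_of_notMem]
      rw [mem_compl_iff, not_not]
      constructor <;> norm_num
  have hm : ∀ l, ∀ k : ℕ, Tendsto (fun K => ∫ t, (e K (l, t)) ^ k ∂P1) atTop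
      (𝓝 (∫ x, x ^ k ∂(ρ l))) := by
    intro l k
    by_cases hl : l ∈ Icc a b
    · rw [hρ1 l hl]
      have h1 : ∀ K, ∫ t, (e K (l, t)) ^ k ∂P1 = ∫ t in (0 : ℝ)..1, (EE K l t) ^ k := by
        intro K
        rw [intervalIntegral.integral_of_le zero_le_one, integral_Ioc_eq_integral_Ioo]
        refine setIntegral_congr_fun measurableSet_Ioo fun t ht => ?_
        simp only [he1 K l hl t ht]
      simp only [h1]
      exact hmom l hl k
    · rw [hρ0 l hl]
      have h1 : ∀ K, ∫ t, (e K (l, t)) ^ k ∂P1 = ∫ x, x ^ k ∂(Measure.dirac (0 : ℝ)) := by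
        intro K
        simp only [he0 K l hl, integral_const, probReal_univ, one_smul]
        rw [integral_dirac]
      simp only [h1]
      exact tendsto_const_nhds
  let F : ℕ → ℝ × (ℝ × ℝ) → ℝ := fun K z => e K (z.1, z.2.1) + e K (z.1, z.2.2)
  have hF : ∀ K, Measurable (F K) := fun K =>
    ((he K).comp (measurable_fst.prodMk (measurable_fst.comp measurable_snd))).add
      ((he K).comp (measurable_fst.prodMk (measurable_snd.comp measurable_snd)))
  have hF6 : ∀ K z, |F K z| ≤ 6 := by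
    intro K z
    have h1 := he3 K (z.1, z.2.1)
    have h2 := he3 K (z.1, z.2.2)
    calc |F K z| ≤ |e K (z.1, z.2.1)| + |e K (z.1, z.2.2)| := abs_add_le _ _
      _ ≤ 6 := by linarith
  have hcp : ∀ l, IsProbabilityMeasure ((ρ l).conv (ρ l)) := fun l => inferInstance
  have hc6 : ∀ l, ((ρ l).conv (ρ l)) (Icc (-6) 6)ᶜ = 0 := fun l => conv_supp (ρ l) (hρ3 l)
  have hFm : ∀ l, ∀ k : ℕ, Tendsto (fun K => ∫ ω, (F K (l, ω)) ^ k ∂(P1.prod P1)) atTop
      (𝓝 (∫ x, x ^ k ∂((ρ l).conv (ρ l)))) := by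
    intro l k
    rw [mom_conv (ρ l) (hρ3 l) k]
    have h1 : ∀ K, ∫ ω, (F K (l, ω)) ^ k ∂(P1.prod P1) =
        ∑ j ∈ Finset.range (k + 1), (∫ t, e K (l, t) ^ j ∂P1) * (∫ t, e K (l, t) ^ (k - j) ∂P1) *
          (k.choose j) := fun K =>
      mom_sum P1 (fun t => e K (l, t)) (fun k => int_F (F := fun t => e K (l, t)) (f := fun x => x ^ k)
        ((he K).comp measurable_prodMk_left) (fun t => he3 K _) (continuous_pow k)) k
    simp only [h1]
    exact tendsto_finsetSum _ fun j _ => ((hm l j).mul (hm l (k - j))).mul_const _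
  have hmk := meas_kernel (P1.prod P1) F hF 6 hF6 (fun l => (ρ l).conv (ρ l)) hc6 hFm
  let κ : Kernel ℝ ℝ := ⟨fun l => (ρ l).conv (ρ l), hmk⟩
  have hκM : IsMarkovKernel κ := ⟨hcp⟩
  have hcore := core (P1.prod P1) F hF 6 hF6 κ hc6 hFm (volume.restrict (Icc a b)) ?_
  · filter_upwards [hcore, ae_restrict_mem measurableSet_Icc] with l h1 h2
    have h3 : κ l = (μ l).conv (μ l) := by
      change (ρ l).conv (ρ l) = _
      rw [hρ1 l h2]
    rw [← h3]
    exact h1
  · intro ε hε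
    obtain ⟨C', r, hr, hr0, A, hA⟩ := hen (ε / 2) (by linarith)
    refine ⟨C', r, hr, hr0, fun K => A K ×ˢ A K, ?_⟩
    filter_upwards [hA] with K hK
    obtain ⟨hAm, hAs, hAv, hAe⟩ := hK
    refine ⟨hAm.prod hAm, ?_, ?_⟩
    · have h1 : P1 (A K)ᶜ ≤ ENNReal.ofReal (ε / 2) := by
        rw [hP1d, Measure.restrict_apply hAm.compl]
        refine le_trans (measure_mono ?_) hAv
        rintro t ⟨h1, h2⟩
        exact ⟨h2, h1⟩
      have h2 : (A K ×ˢ A K)ᶜ ⊆ ((A K)ᶜ ×ˢ univ) ∪ (univ ×ˢ (A K)ᶜ) := by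
        intro z hz
        by_cases h3 : z.1 ∈ A K
        · refine Or.inr ⟨mem_univ _, fun h4 => hz ⟨h3, h4⟩⟩
        · exact Or.inl ⟨h3, mem_univ _⟩
      calc (P1.prod P1) (A K ×ˢ A K)ᶜ ≤ (P1.prod P1) ((A K)ᶜ ×ˢ univ) +
            (P1.prod P1) (univ ×ˢ (A K)ᶜ) := (measure_mono h2).trans (measure_union_le _ _)
        _ = P1 (A K)ᶜ + P1 (A K)ᶜ := by
            rw [Measure.prod_prod, Measure.prod_prod, measure_univ, mul_one, one_mul]
        _ ≤ ENNReal.ofReal (ε / 2) + ENNReal.ofReal (ε / 2) := add_le_add h1 h1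
        _ = ENNReal.ofReal ε := by
            rw [← ENNReal.ofReal_add (by linarith) (by linarith), add_halves]
    · refine le_trans (le_of_eq ?_) hAe
      refine setLIntegral_congr_fun measurableSet_Icc fun l hl => ?_
      have h1 : P1.restrict (A K) = volume.restrict (A K) := by
        rw [hP1d, Measure.restrict_restrict hAm, inter_eq_self_of_subset_left hAs]
      have h2 : (P1.prod P1).restrict (A K ×ˢ A K) = (volume.prod volume).restrict (A K ×ˢ A K) := by
        rw [← Measure.prod_restrict, h1, Measure.prod_restrict]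
      have h3 : ((P1.prod P1).restrict (A K ×ˢ A K)).prod ((P1.prod P1).restrict (A K ×ˢ A K)) =
          (((volume : Measure ℝ).prod (volume : Measure ℝ)).prod
            ((volume : Measure ℝ).prod (volume : Measure ℝ))).restrict
              ((A K ×ˢ A K) ×ˢ (A K ×ˢ A K)) := by
        rw [h2, Measure.prod_restrict]
      have hmp := measurePreserving_prodAssoc (volume : Measure ℝ) (volume : Measure ℝ)
        ((volume : Measure ℝ).prod (volume : Measure ℝ))
      have h4 := hmp.measure_preimage_equiv (quadE (A K) (EE K l) (r K))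
      change _ = volume (quadE (A K) (EE K l) (r K)) at h4
      rw [h3, Measure.restrict_apply' ((hAm.prod hAm).prod (hAm.prod hAm)), ← h4]
      congr 1
      ext ⟨⟨t1, t2⟩, ⟨t3, t4⟩⟩
      simp only [mem_inter_iff, mem_ofPred_eq, mem_prod, mem_preimage, quadE,
        MeasurableEquiv.prodAssoc, MeasurableEquiv.coe_mk, Equiv.prodAssoc_apply]
      constructor
      · rintro ⟨h5, ⟨h6, h7⟩, h8, h9⟩
        refine ⟨h6, h7, h8, h9, ?_⟩
        have h10 : F K (l, (t1, t2)) - F K (l, (t3, t4)) =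
            EE K l t1 + EE K l t2 - EE K l t3 - EE K l t4 := by
          change (e K (l, t1) + e K (l, t2)) - (e K (l, t3) + e K (l, t4)) = _
          rw [he1 K l hl t1 (hAs h6), he1 K l hl t2 (hAs h7), he1 K l hl t3 (hAs h8),
            he1 K l hl t4 (hAs h9)]
          ring
        rw [← h10]
        exact h5
      · rintro ⟨h6, h7, h8, h9, h5⟩
        refine ⟨?_, ⟨h6, h7⟩, h8, h9⟩
        have h10 : F K (l, (t1, t2)) - F K (l, (t3, t4)) =
            EE K l t1 + EE K l t2 - EE K l t3 - EE K l t4 := by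
          change (e K (l, t1) + e K (l, t2)) - (e K (l, t3) + e K (l, t4)) = _
          rw [he1 K l hl t1 (hAs h6), he1 K l hl t2 (hAs h7), he1 K l hl t3 (hAs h8),
            he1 K l hl t4 (hAs h9)]
          ring
        rw [h10]
        exact h5

end FIB
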