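import Pool.Agent.Helper75.FIB.Iface

/-!
# FIB block T0 : distortion in a typical window

For `j ∈ [m-L, m]`: `Ty θ j E0` holds (`[j,j+8] ⊂ [m-L,m+8]`), so `ND θ j E0 l` (`l <= θ`). `GrLow` (`ε = θ`): `rho j <= θ^{-C'} rho m` (at `E0`), so the real number `z = E - E0` satisfies `|z| rho j <= θ^{C-C'}`, and `SLoc` (`ε = θ`, `w = 0`) gives `|x_i(E) - x_i(E0)| <= θ^{-C''} |z| rho j <= θ^4` for `i ∈ [j,j+8]`.
This covers `[m-L,m+8]`. Ratio of rho: by SLoc `x_i` (`i ∈ [j,j+8]`) is a holomorphic function of `ζ`, `|x_i(E0+ζ) - x_i(E0)| <= θ^{-C''}|ζ| rho j` for `|ζ| rho j <= θ^{C''}`; Cauchy estimate for the second derivative (or for the derivative of `x_i' `): `|x_i'(E) - x_i'(E0)| <= θ^{-C'''} |z| rho_j^2 <= rho_j/4` if `|z| rho_j <= θ^{C''''}`. So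
`|rho j E - rho j E0| <= rho j E0/4`.
-/

namespace FIB

open Real MeasureTheory Set Filter Topology

theorem T0_trE_diff (n : ℕ) (l : ℂ) : Differentiable ℂ (fun x => trE n x l) := by
  have htr : ∀ n, Differentiable ℂ (fun x => tr n x l) := fun n x =>
    (hasDerivAt_tr_E n x l).differentiableAt
  induction n using ind3 with
  | h0 => simp
  | h1 => simp
  | h2 => simp
  | h n ih0 ih1 ih2 =>
    simp only [trE_add_three]
    exact (((ih2.mul (htr _)).add ((htr _).mul ih1)).const_mul 2).sub ih0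

/-- two Cauchy estimates -/
theorem T0_cauchy (i : ℕ) (E0 : ℂ) (l : ℂ) (R B : ℝ) (hR : 0 < R) (hB : 0 ≤ B)
    (h : ∀ ζ : ℂ, ‖ζ‖ ≤ R → ‖tr i (E0 + ζ) l - tr i E0 l‖ ≤ B * R) (z : ℂ) (hz : ‖z‖ ≤ R / 4) :
    ‖trE i (E0 + z) l - trE i E0 l‖ ≤ 8 * B / R * ‖z‖ := by
  -- first derivative on the half disc
  have h1 : ∀ ζ : ℂ, ‖ζ‖ ≤ R / 2 → ‖trE i (E0 + ζ) l‖ ≤ 2 * B := by
    intro ζ hζ
    have hd : HasDerivAt (fun x => tr i x l - tr i E0 l) (trE i (E0 + ζ) l) (E0 + ζ) :=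
      (hasDerivAt_tr_E i (E0 + ζ) l).sub_const _
    rw [← hd.deriv]
    have hD : DiffContOnCl ℂ (fun x => tr i x l - tr i E0 l) (Metric.ball (E0 + ζ) (R / 2)) := by
      apply Differentiable.diffContOnCl
      intro x
      exact ((hasDerivAt_tr_E i x l).sub_const _).differentiableAt
    have := Complex.norm_deriv_le_of_forall_mem_sphere_norm_le (c := E0 + ζ) (R := R / 2)
      (C := B * R) (f := fun x => tr i x l - tr i E0 l) (by positivity) hD ?_
    · calc _ ≤ B * R / (R / 2) := this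
        _ = 2 * B := by field_simp
    · intro x hx
      have hx' : ‖x - (E0 + ζ)‖ = R / 2 := by simpa [dist_eq_norm] using hx
      have := h (x - E0) (by
        calc ‖x - E0‖ = ‖(x - (E0 + ζ)) + ζ‖ := by congr 1; ring
          _ ≤ ‖x - (E0 + ζ)‖ + ‖ζ‖ := norm_add_le _ _
          _ ≤ R / 2 + R / 2 := by linarith
          _ = R := by ring)
      simpa using this
  -- second derivative on the quarter disc
  have h2 : ∀ ζ : ℂ, ‖ζ‖ ≤ R / 4 → ‖deriv (fun x => trE i x l) (E0 + ζ)‖ ≤ 8 * B / R := by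
    intro ζ hζ
    have := Complex.norm_deriv_le_of_forall_mem_sphere_norm_le (c := E0 + ζ) (R := R / 4)
      (C := 2 * B) (f := fun x => trE i x l) (by positivity)
      (T0_trE_diff i l).diffContOnCl ?_
    · calc _ ≤ 2 * B / (R / 4) := this
        _ = 8 * B / R := by field_simp; ring
    · intro x hx
      have hx' : ‖x - (E0 + ζ)‖ = R / 4 := by simpa [dist_eq_norm] using hx
      have := h1 (x - E0) (by
        calc ‖x - E0‖ = ‖(x - (E0 + ζ)) + ζ‖ := by congr 1; ring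
          _ ≤ ‖x - (E0 + ζ)‖ + ‖ζ‖ := norm_add_le _ _
          _ ≤ R / 4 + R / 4 := by linarith
          _ = R / 2 := by ring)
      simpa using this
  -- mean value inequality
  have h3 := (convex_closedBall E0 (R / 4)).norm_image_sub_le_of_norm_deriv_le
    (f := fun x => trE i x l) (C := 8 * B / R) (x := E0) (y := E0 + z)
    (fun x _ => (T0_trE_diff i l) x) (fun x hx => by
      have : ‖x - E0‖ ≤ R / 4 := by simpa [dist_eq_norm] using hx
      have := h2 (x - E0) this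
      simpa using this) (by simp; positivity) (by simpa using hz)
  simpa using h3

theorem dist (h : SLoc) (hG : GrLow) : Dist := by
  obtain ⟨C2, hS⟩ := h
  obtain ⟨C1, hG⟩ := hG
  refine ⟨C1 + 2 * C2 + 8, ?_⟩
  intro m L E0 E l θ hok hLm hTw hE
  obtain ⟨hθ, hCθ, hl, hlθ, -, -⟩ := hok
  have hC8 : (8 : ℝ) ≤ ((C1 + 2 * C2 + 8 : ℕ) : ℝ) := by push_cast; nlinarith [Nat.cast_nonneg (α := ℝ) C1, Nat.cast_nonneg (α := ℝ) C2]
  have hθ8 : θ ≤ 1 / 8 := by nlinarith
  have hθ1 : θ ≤ 1 := by linarith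
  have hlθ' : l ≤ θ := hlθ.trans (by
    calc θ ^ (C1 + 2 * C2 + 8) ≤ θ ^ 1 := pow_le_pow_of_le_one hθ.le hθ1 (by omega)
      _ = θ := pow_one _)
  have hOk : Okl θ l := ⟨hl, by linarith, hθ, by linarith⟩
  have hND : ∀ j, m - L ≤ j → j ≤ m → ND θ j E0 l := fun j h1 h2 =>
    Or.inr ⟨hlθ', fun i hi1 hi2 => hTw i (by omega) (by omega)⟩
  have hph : (1 : ℝ) ≤ ph := by
    unfold ph
    have : (1 : ℝ) ≤ √5 := by
      rw [Real.one_le_sqrt]; norm_num
    linarith
  -- bound for |z| rho_j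
  have hrho : ∀ j, m - L ≤ j → j ≤ m → |E - E0| * rho j E0 l ≤ θ ^ (2 * C2 + 8) := by
    intro j h1 h2
    have hg := hG j m E0 l θ hOk h2 (hND j h1 h2) (hND m (by omega) le_rfl)
    have hrj : 0 ≤ rho j E0 l := le_max_of_le_left (abs_nonneg _)
    have hg' : θ ^ C1 * rho j E0 l ≤ rho m E0 l := by
      refine le_trans ?_ hg
      have : (1 : ℝ) ≤ ph ^ (m - j) := one_le_pow₀ hph
      have h0 : 0 ≤ θ ^ C1 * rho j E0 l := by positivity
      nlinarith
    have h3 : θ ^ C1 * (|E - E0| * rho j E0 l) ≤ θ ^ C1 * θ ^ (2 * C2 + 8) := by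
      calc θ ^ C1 * (|E - E0| * rho j E0 l) = |E - E0| * (θ ^ C1 * rho j E0 l) := by ring
        _ ≤ |E - E0| * rho m E0 l := by gcongr
        _ ≤ θ ^ (C1 + 2 * C2 + 8) := hE
        _ = θ ^ C1 * θ ^ (2 * C2 + 8) := by ring
    exact le_of_mul_le_mul_left h3 (by positivity)
  -- SLoc in convenient form
  have hSL : ∀ j, m - L ≤ j → j ≤ m → ∀ ζ : ℂ, ‖ζ‖ * rho j E0 l ≤ θ ^ C2 → ∀ i, j ≤ i → i ≤ j + 8 →
      ‖tr i ((E0 : ℂ) + ζ) (l : ℂ) - tr i (E0 : ℂ) (l : ℂ)‖ ≤ (θ ^ C2)⁻¹ * (‖ζ‖ * rho j E0 l) := by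
    intro j h1 h2 ζ hζ i hi1 hi2
    have := hS j E0 l θ hOk (hND j h1 h2) ζ 0 (by simpa using hζ) i hi1 hi2
    rw [add_zero, norm_zero, add_zero, ← tr_ofReal] at this
    have hp : 0 < θ ^ C2 := by positivity
    rw [inv_mul_eq_div, le_div_iff₀ hp, mul_comm]
    exact this
  have hcast : ∀ i, ‖tr i ((E0 : ℂ) + ((E - E0 : ℝ) : ℂ)) (l : ℂ) - tr i (E0 : ℂ) (l : ℂ)‖
      = |tr i E l - tr i E0 l| := by
    intro i
    have : (E0 : ℂ) + ((E - E0 : ℝ) : ℂ) = (E : ℂ) := by push_cast; ring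
    rw [this, tr_ofReal, tr_ofReal, ← Complex.ofReal_sub, Complex.norm_real, Real.norm_eq_abs]
  have hcast' : ∀ i, ‖trE i ((E0 : ℂ) + ((E - E0 : ℝ) : ℂ)) (l : ℂ) - trE i (E0 : ℂ) (l : ℂ)‖
      = |trE i E l - trE i E0 l| := by
    intro i
    have : (E0 : ℂ) + ((E - E0 : ℝ) : ℂ) = (E : ℂ) := by push_cast; ring
    rw [this, trE_ofReal, trE_ofReal, ← Complex.ofReal_sub, Complex.norm_real, Real.norm_eq_abs]
  have hnz : ‖((E - E0 : ℝ) : ℂ)‖ = |E - E0| := by rw [Complex.norm_real, Real.norm_eq_abs]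
  constructor
  · intro i hi1 hi2
    have hj1 : m - L ≤ min i m := by omega
    have hj2 : min i m ≤ m := by omega
    have hb := hrho (min i m) hj1 hj2
    have := hSL (min i m) hj1 hj2 ((E - E0 : ℝ) : ℂ) (by
      rw [hnz]
      exact hb.trans (pow_le_pow_of_le_one hθ.le hθ1 (by omega))) i (by omega) (by omega)
    rw [hcast, hnz] at this
    calc |tr i E l - tr i E0 l| ≤ (θ ^ C2)⁻¹ * (|E - E0| * rho (min i m) E0 l) := this
      _ ≤ (θ ^ C2)⁻¹ * θ ^ (2 * C2 + 8) := by gcongr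
      _ = θ ^ (C2 + 8) := by
          rw [inv_mul_eq_div, div_eq_iff (by positivity), ← pow_add]; congr 1; ring
      _ ≤ θ ^ 4 := pow_le_pow_of_le_one hθ.le hθ1 (by omega)
  · intro j hj1 hj2
    have hb := hrho j hj1 hj2
    have hrj : 0 ≤ rho j E0 l := le_max_of_le_left (abs_nonneg _)
    have hrjE : 0 ≤ rho j E l := le_max_of_le_left (abs_nonneg _)
    rcases eq_or_ne E E0 with rfl | hne
    · constructor <;> linarith
    have hz : 0 < |E - E0| := abs_pos.mpr (sub_ne_zero.mpr hne)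
    have hp : 0 < θ ^ C2 := by positivity
    have hp1 : θ ^ C2 ≤ 1 := pow_le_one₀ hθ.le hθ1
    set R : ℝ := 32 * (θ ^ C2)⁻¹ * |E - E0| with hR
    have hRpos : 0 < R := by positivity
    have hinv : 1 ≤ (θ ^ C2)⁻¹ := (one_le_inv₀ hp).mpr hp1
    have hRr : R * rho j E0 l ≤ θ ^ C2 := by
      calc R * rho j E0 l = 32 * (θ ^ C2)⁻¹ * (|E - E0| * rho j E0 l) := by rw [hR]; ring
        _ ≤ 32 * (θ ^ C2)⁻¹ * θ ^ (2 * C2 + 8) := by gcongr
        _ = 32 * θ ^ 8 * θ ^ C2 := by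
            rw [show θ ^ (2 * C2 + 8) = θ ^ C2 * θ ^ C2 * θ ^ 8 by rw [← pow_add, ← pow_add]; congr 1; ring]
            field_simp
        _ ≤ 1 * θ ^ C2 := by
            gcongr
            have : θ ^ 8 ≤ (1 / 8) ^ 8 := pow_le_pow_left₀ hθ.le hθ8 8
            norm_num at this ⊢
            linarith
        _ = θ ^ C2 := one_mul _
    have key : ∀ i, j ≤ i → i ≤ j + 8 → |trE i E l - trE i E0 l| ≤ rho j E0 l / 4 := by
      intro i hi1 hi2
      have := T0_cauchy i (E0 : ℂ) (l : ℂ) R ((θ ^ C2)⁻¹ * rho j E0 l) hRpos (by positivity) (by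
        intro ζ hζ
        have h1 : ‖ζ‖ * rho j E0 l ≤ R * rho j E0 l := by gcongr
        refine (hSL j hj1 hj2 ζ (h1.trans hRr) i hi1 hi2).trans ?_
        calc (θ ^ C2)⁻¹ * (‖ζ‖ * rho j E0 l) ≤ (θ ^ C2)⁻¹ * (R * rho j E0 l) := by gcongr
          _ = (θ ^ C2)⁻¹ * rho j E0 l * R := by ring) ((E - E0 : ℝ) : ℂ) (by
        rw [hnz, hR]
        nlinarith)
      rw [hcast', hnz] at this
      refine this.trans (le_of_eq ?_)
      rw [hR]
      field_simp
      ring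
    have hk0 := key j le_rfl (by omega)
    have hk1 := key (j + 1) (by omega) (by omega)
    have hk2 := key (j + 2) (by omega) (by omega)
    have a0 := abs_sub_abs_le_abs_sub (trE j E l) (trE j E0 l)
    have a1 := abs_sub_abs_le_abs_sub (trE (j + 1) E l) (trE (j + 1) E0 l)
    have a2 := abs_sub_abs_le_abs_sub (trE (j + 2) E l) (trE (j + 2) E0 l)
    have b0 := abs_sub_abs_le_abs_sub (trE j E0 l) (trE j E l)
    have b1 := abs_sub_abs_le_abs_sub (trE (j + 1) E0 l) (trE (j + 1) E l)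
    have b2 := abs_sub_abs_le_abs_sub (trE (j + 2) E0 l) (trE (j + 2) E l)
    rw [abs_sub_comm] at b0 b1 b2
    have c0 : |trE j E0 l| ≤ rho j E0 l := le_max_left _ _
    have c1 : |trE (j + 1) E0 l| ≤ rho j E0 l := (le_max_left _ _).trans (le_max_right _ _)
    have c2 : |trE (j + 2) E0 l| ≤ rho j E0 l := (le_max_right _ _).trans (le_max_right _ _)
    have d0 : |trE j E l| ≤ rho j E l := le_max_left _ _
    have d1 : |trE (j + 1) E l| ≤ rho j E l := (le_max_left _ _).trans (le_max_right _ _)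
    have d2 : |trE (j + 2) E l| ≤ rho j E l := (le_max_right _ _).trans (le_max_right _ _)
    have e1 : rho j E0 l ≤ rho j E l + rho j E0 l / 4 := by
      refine max_le (by linarith) (max_le (by linarith) (by linarith))
    have e2 : rho j E l ≤ rho j E0 l + rho j E0 l / 4 := by
      refine max_le (by linarith) (max_le (by linarith) (by linarith))
    constructor <;> linarith

end FIB
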